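import Mathlib
import Pool.Agent.Lib.MP_d01a95_gt.Defs
import Pool.Agent.Lib.MP_d01a95_gt.Low

set_option autoImplicit false
set_option linter.all false

open Matrix Filter Topology MeasureTheory

namespace Pool.Agent.MPd01a95

/-- The group `U(m,1)`. -/
def GU (κ : Type) [Fintype κ] [DecidableEq κ] : Type :=
  {g : Matrix (κ ⊕ Unit) (κ ⊕ Unit) ℂ // gᴴ * JC κ * g = JC κ}

namespace GU

variable {κ : Type} [Fintype κ] [DecidableEq κ]

/-- the underlying matrix -/
def M (g : GU κ) : Matrix (κ ⊕ Unit) (κ ⊕ Unit) ℂ := g.1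

theorem pres (g : GU κ) : g.Mᴴ * JC κ * g.M = JC κ := g.2

@[ext] theorem ext {g h : GU κ} (e : g.M = h.M) : g = h := Subtype.ext e

noncomputable instance : Group (GU κ) where
  mul g h := ⟨g.1 * h.1, LowAux.iso_mul g.2 h.2⟩
  one := ⟨1, by simp⟩
  inv g := ⟨JC κ * g.1ᴴ * JC κ, LowAux.iso_inv g.2⟩
  mul_assoc a b c := Subtype.ext (Matrix.mul_assoc _ _ _)
  one_mul a := Subtype.ext (Matrix.one_mul _)
  mul_one a := Subtype.ext (Matrix.mul_one _)
  inv_mul_cancel a := Subtype.ext (LowAux.inv_left a.2)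

@[simp] theorem M_mul (g h : GU κ) : (g * h).M = g.M * h.M := rfl

@[simp] theorem M_one : (1 : GU κ).M = 1 := rfl

theorem M_inv (g : GU κ) : (g⁻¹).M = JC κ * g.Mᴴ * JC κ := rfl

/-- the underlying matrix as a monoid homomorphism -/
def Mhom : GU κ →* Matrix (κ ⊕ Unit) (κ ⊕ Unit) ℂ where
  toFun := M
  map_one' := rfl
  map_mul' _ _ := rfl

theorem inv_mul_M (g : GU κ) : (g⁻¹).M * g.M = 1 := by
  rw [← M_mul, inv_mul_cancel, M_one]

theorem mul_inv_M (g : GU κ) : g.M * (g⁻¹).M = 1 := by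
  rw [← M_mul, mul_inv_cancel, M_one]

instance : TopologicalSpace (GU κ) := inferInstanceAs (TopologicalSpace
  {g : Matrix (κ ⊕ Unit) (κ ⊕ Unit) ℂ // gᴴ * JC κ * g = JC κ})

theorem continuous_M : Continuous (M : GU κ → Matrix (κ ⊕ Unit) (κ ⊕ Unit) ℂ) :=
  continuous_subtype_val

theorem isClosed_range : IsClosed {g : Matrix (κ ⊕ Unit) (κ ⊕ Unit) ℂ | gᴴ * JC κ * g = JC κ} :=
  isClosed_eq (by fun_prop) continuous_const

theorem isClosedEmbedding_M :
    IsClosedEmbedding (M : GU κ → Matrix (κ ⊕ Unit) (κ ⊕ Unit) ℂ) :=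
  isClosed_range.isClosedEmbedding_subtypeVal

theorem continuous_iff {α : Type} [TopologicalSpace α] {f : α → GU κ} :
    Continuous f ↔ Continuous fun x => (f x).M :=
  isClosedEmbedding_M.isInducing.continuous_iff

instance : IsTopologicalGroup (GU κ) where
  continuous_mul := by
    rw [continuous_iff]
    change Continuous fun p : GU κ × GU κ => p.1.M * p.2.M
    exact (continuous_M.comp continuous_fst).matrix_mul (continuous_M.comp continuous_snd)
  continuous_inv := by
    rw [continuous_iff]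
    change Continuous fun p : GU κ => JC κ * p.Mᴴ * JC κ
    exact ((continuous_const.matrix_mul continuous_M.matrix_conjTranspose).matrix_mul
      continuous_const)

instance : T2Space (GU κ) := isClosedEmbedding_M.isEmbedding.t2Space

instance : SecondCountableTopology (GU κ) := by
  have : SecondCountableTopology (Matrix (κ ⊕ Unit) (κ ⊕ Unit) ℂ) :=
    inferInstanceAs (SecondCountableTopology ((κ ⊕ Unit) → (κ ⊕ Unit) → ℂ))
  exact isClosedEmbedding_M.isInducing.secondCountableTopology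

instance : LocallyCompactSpace (GU κ) := by
  have : LocallyCompactSpace (Matrix (κ ⊕ Unit) (κ ⊕ Unit) ℂ) :=
    inferInstanceAs (LocallyCompactSpace ((κ ⊕ Unit) → (κ ⊕ Unit) → ℂ))
  exact isClosedEmbedding_M.locallyCompactSpace

instance : MeasurableSpace (GU κ) := borel _

instance : BorelSpace (GU κ) := ⟨rfl⟩

/-- image of the origin of the ball -/
noncomputable def o (g : GU κ) : κ → ℂ :=
  fun i => g.M (Sum.inl i) (Sum.inr ()) / g.M (Sum.inr ()) (Sum.inr ())

/-- the stabiliser of the origin: block diagonal matrices -/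
def KU (κ : Type) [Fintype κ] [DecidableEq κ] : Subgroup (GU κ) where
  carrier := {g | (∀ i, g.M (Sum.inl i) (Sum.inr ()) = 0) ∧ ∀ i, g.M (Sum.inr ()) (Sum.inl i) = 0}
  one_mem' := by constructor <;> intro i <;> simp
  mul_mem' := by
    rintro a b ⟨ha, ha'⟩ ⟨hb, hb'⟩
    constructor
    · intro i
      rw [M_mul, Matrix.mul_apply, Fintype.sum_sum_type]
      simp [ha, hb]
    · intro i
      rw [M_mul, Matrix.mul_apply, Fintype.sum_sum_type]
      simp [ha', hb']
  inv_mem' := by
    rintro a ⟨ha, ha'⟩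
    have e1 : ∀ (A : Matrix (κ ⊕ Unit) (κ ⊕ Unit) ℂ) i, (JC κ * A * JC κ) (Sum.inl i) (Sum.inr ()) =
        - A (Sum.inl i) (Sum.inr ()) := by
      intro A i
      rw [Matrix.mul_apply, Fintype.sum_sum_type]
      simp [JC, Matrix.mul_apply, Matrix.fromBlocks, Matrix.one_apply]
    have e2 : ∀ (A : Matrix (κ ⊕ Unit) (κ ⊕ Unit) ℂ) i, (JC κ * A * JC κ) (Sum.inr ()) (Sum.inl i) =
        - A (Sum.inr ()) (Sum.inl i) := by
      intro A i
      rw [Matrix.mul_apply, Fintype.sum_sum_type]
      simp [JC, Matrix.mul_apply, Matrix.fromBlocks, Matrix.one_apply]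
    constructor
    · intro i
      rw [M_inv, e1, conjTranspose_apply, ha']; simp
    · intro i
      rw [M_inv, e2, conjTranspose_apply, ha]; simp

end GU

end Pool.Agent.MPd01a95
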