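import Mathlib
import Pool.Agent.Lib.MP_d01a95_gt.Defs
import Pool.Agent.Lib.MP_d01a95_gt.Hyp
import Pool.Agent.Lib.MP_d01a95_gt.Trans
import Pool.Agent.Lib.MP_d01a95_gt_H.GU

set_option autoImplicit false
set_option linter.all false

open Matrix Filter Topology MeasureTheory
open scoped ENNReal

namespace Pool.Agent.MPd01a95

variable {κ : Type} [Fintype κ] [DecidableEq κ] {G : Type} [Group G]

namespace GU

/-- `cosh` of the displacement -/
noncomputable def c (g : GU κ) : ℝ := cc g.M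

theorem continuous_c : Continuous (c : GU κ → ℝ) := by
  unfold c cc
  exact (continuous_norm.comp ((continuous_apply _).comp ((continuous_apply _).comp continuous_M)))

theorem c_ge_one (g : GU κ) : 1 ≤ c g := cc_ge_one g.M g.pres

theorem c_mul (g h : GU κ) : c (g * h) ≤ 2 * c g * c h := cc_mul g.M h.M g.pres h.pres

theorem c_inv (g : GU κ) : c g⁻¹ = c g := cc_inv g.M (g⁻¹).M g.pres (inv_mul_M g)

theorem entry_le (g : GU κ) (i j : κ ⊕ Unit) : ‖g.M i j‖ ≤ 2 * c g := cc_entry g.M g.pres i j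

theorem isCompact_c (R : ℝ) : IsCompact {g : GU κ | c g ≤ R} := by
  have h := isClosedEmbedding_M.isCompact_preimage (TransAux.compact_iso (κ := κ) R)
  convert h using 1
  ext g
  simp only [Set.mem_setOf_eq, Set.mem_preimage]
  exact ⟨fun h => ⟨g.pres, h⟩, fun h => h.2⟩

theorem exists_bound {C : Set (GU κ)} (hC : IsCompact C) : ∃ R : ℝ, 1 ≤ R ∧ ∀ g ∈ C, c g ≤ R := by
  obtain ⟨R, hR⟩ := (hC.image continuous_c).bddAbove
  exact ⟨max 1 R, le_max_left _ _, fun g hg => (hR ⟨g, hg, rfl⟩).trans (le_max_right _ _)⟩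

theorem KU_c (k : GU κ) (hk : k ∈ KU κ) : c k = 1 := by
  have h := HypAux.row_n k.M k.pres
  have h2 : ∑ i, ‖k.M (Sum.inr ()) (Sum.inl i)‖ ^ 2 = 0 :=
    Finset.sum_eq_zero fun i _ => by rw [hk.2 i]; simp
  rw [h2] at h
  have h3 : c k ^ 2 = 1 := by
    unfold c
    linarith
  have h4 := c_ge_one k
  nlinarith

theorem c_mul_K (g k : GU κ) (hk : k ∈ KU κ) : c (g * k) = c g := by
  have h1 := KU_c k hk
  have e : (g * k).M (Sum.inr ()) (Sum.inr ()) =
      g.M (Sum.inr ()) (Sum.inr ()) * k.M (Sum.inr ()) (Sum.inr ()) := by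
    rw [M_mul, Matrix.mul_apply, Fintype.sum_sum_type]
    simp [hk.1]
  unfold c cc at h1 ⊢
  rw [e, norm_mul, h1, mul_one]

theorem c_K_mul (g k : GU κ) (hk : k ∈ KU κ) : c (k * g) = c g := by
  have h1 := KU_c k hk
  have e : (k * g).M (Sum.inr ()) (Sum.inr ()) =
      k.M (Sum.inr ()) (Sum.inr ()) * g.M (Sum.inr ()) (Sum.inr ()) := by
    rw [M_mul, Matrix.mul_apply, Fintype.sum_sum_type]
    simp [hk.2]
  unfold c cc at h1 ⊢
  rw [e, norm_mul, h1, one_mul]

theorem isClosed_KU : IsClosed (KU κ : Set (GU κ)) := by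
  have : (KU κ : Set (GU κ)) = (⋂ i, {g : GU κ | g.M (Sum.inl i) (Sum.inr ()) = 0}) ∩
      ⋂ i, {g : GU κ | g.M (Sum.inr ()) (Sum.inl i) = 0} := by
    ext g
    simp only [Set.mem_inter_iff, Set.mem_iInter, Set.mem_setOf_eq]
    rfl
  rw [this]
  have hc : ∀ i j : κ ⊕ Unit, Continuous fun g : GU κ => g.M i j := fun i j =>
    (continuous_apply _).comp ((continuous_apply _).comp continuous_M)
  exact (isClosed_iInter fun i => isClosed_eq (hc _ _) continuous_const).inter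
    (isClosed_iInter fun i => isClosed_eq (hc _ _) continuous_const)

theorem isCompact_KU : IsCompact (KU κ : Set (GU κ)) :=
  (isCompact_c (κ := κ) 1).of_isClosed_subset isClosed_KU fun k hk => (KU_c k hk).le

instance : CompactSpace (KU κ) := isCompact_iff_compactSpace.mp isCompact_KU

end GU

open GU

/-- discreteness and cocompactness of a lattice in `U(m,1)` -/
structure Lat (σ : G →* GU κ) : Prop where
  disc : ∃ U : Set (GU κ), IsOpen U ∧ 1 ∈ U ∧ ∀ g, σ g ∈ U → g = 1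
  coc : ∃ R : ℝ, ∀ h, ∃ g, GU.c (σ g * h) ≤ R

/-- lifting a representation by matrices -/
def liftG (σ : G →* Matrix (κ ⊕ Unit) (κ ⊕ Unit) ℂ) (hσ : ∀ g, (σ g)ᴴ * JC κ * σ g = JC κ) :
    G →* GU κ where
  toFun g := ⟨σ g, hσ g⟩
  map_one' := Subtype.ext (map_one σ)
  map_mul' a b := Subtype.ext (map_mul σ a b)

theorem liftG_M (σ : G →* Matrix (κ ⊕ Unit) (κ ⊕ Unit) ℂ) (hσ : ∀ g, (σ g)ᴴ * JC κ * σ g = JC κ)
    (g : G) : (liftG σ hσ g).M = σ g := rfl

theorem lat_lift (σ : G →* Matrix (κ ⊕ Unit) (κ ⊕ Unit) ℂ)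
    (hσ : ∀ g, (σ g)ᴴ * JC κ * σ g = JC κ)
    (hdisc : ∃ U : Set (Matrix (κ ⊕ Unit) (κ ⊕ Unit) ℂ), IsOpen U ∧ 1 ∈ U ∧
      ∀ g, σ g ∈ U → g = 1)
    (hcoc : ∃ K : Set (Matrix (κ ⊕ Unit) (κ ⊕ Unit) ℂ), IsCompact K ∧
      ∀ h, hᴴ * JC κ * h = JC κ → ∃ k ∈ K, ∃ g, h = k * σ g) : Lat (liftG σ hσ) := by
  obtain ⟨U, hU, hU1, hU2⟩ := hdisc
  obtain ⟨K, hK, hK2⟩ := hcoc
  refine ⟨⟨M ⁻¹' U, hU.preimage continuous_M, hU1, fun g hg => hU2 g hg⟩, ?_⟩
  have hcont : Continuous (cc : Matrix (κ ⊕ Unit) (κ ⊕ Unit) ℂ → ℝ) := by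
    unfold cc
    exact (continuous_norm.comp ((continuous_apply _).comp (continuous_apply _)))
  obtain ⟨R, hR⟩ := (hK.image hcont).bddAbove
  refine ⟨R, fun h => ?_⟩
  obtain ⟨k, hk, g, hg⟩ := hK2 (h⁻¹).M (h⁻¹).pres
  refine ⟨g, ?_⟩
  rw [← c_inv]
  have e : (liftG σ hσ g * h)⁻¹.M = k := by
    rw [_root_.mul_inv_rev, M_mul, hg, ← liftG_M σ hσ g, Matrix.mul_assoc]
    have := mul_inv_M (liftG σ hσ g)
    rw [this, Matrix.mul_one]
  unfold c
  rw [e]
  exact hR ⟨k, hk, rfl⟩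

theorem Lat.finite_c {σ : G →* GU κ} (h : Lat σ) (R : ℝ) : {g : G | c (σ g) ≤ R}.Finite := by
  have := TransAux.finite_cc (κ := κ) (GU.Mhom.comp σ) (fun g => (σ g).pres) ?_ R
  · exact this
  · obtain ⟨U, hU, hU1, hU2⟩ := h.disc
    obtain ⟨V, hV, hV2⟩ := isClosedEmbedding_M.isInducing.isOpen_iff.mp hU
    refine ⟨V, hV, ?_, fun g hg => hU2 g ?_⟩
    · have : (1 : GU κ) ∈ M ⁻¹' V := by rw [hV2]; exact hU1
      exact this
    · have : σ g ∈ M ⁻¹' V := hg
      rw [hV2] at this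
      exact this

theorem Lat.countable {σ : G →* GU κ} (h : Lat σ) : Countable G := by
  have : (Set.univ : Set G) = ⋃ n : ℕ, {g : G | c (σ g) ≤ n} := by
    ext g
    simp only [Set.mem_univ, Set.mem_iUnion, true_iff]
    exact exists_nat_ge (c (σ g))
  have h2 : (Set.univ : Set G).Countable := by
    rw [this]
    exact Set.countable_iUnion fun n => (h.finite_c n).countable
  exact Set.countable_univ_iff.mp h2

/-- finitely many translates of a bounded set meet a bounded set -/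
theorem Lat.finite_meet {σ : G →* GU κ} (h : Lat σ) (R S : ℝ) :
    {γ : G | ∃ g : GU κ, c g ≤ S ∧ c (σ γ * g) ≤ R}.Finite := by
  refine (h.finite_c (2 * R * S)).subset ?_
  rintro γ ⟨g, hg, hg2⟩
  have h1 := c_mul (σ γ * g) g⁻¹
  rw [mul_inv_cancel_right, c_inv] at h1
  have h2 := c_ge_one g
  have h3 := c_ge_one (σ γ * g)
  change c (σ γ) ≤ _
  calc c (σ γ) ≤ 2 * c (σ γ * g) * c g := h1
    _ ≤ 2 * R * S := by
      have : 0 ≤ c g := by linarith
      have : 0 ≤ R := by linarith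
      gcongr

/-- bump function -/
noncomputable def bump (R : ℝ) (g : GU κ) : ℝ := max 0 (R - c g)

theorem bump_nonneg (R : ℝ) (g : GU κ) : 0 ≤ bump R g := le_max_left _ _

theorem bump_cont (R : ℝ) : Continuous (bump R : GU κ → ℝ) :=
  continuous_const.max (continuous_const.sub continuous_c)

theorem bump_zero {R : ℝ} {g : GU κ} (h : R ≤ c g) : bump R g = 0 :=
  max_eq_left (by linarith)

theorem bump_pos {R : ℝ} {g : GU κ} (h : c g < R) : 0 < bump R g :=
  lt_of_lt_of_le (by linarith) (le_max_right _ _)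

theorem bump_K (R : ℝ) (g k : GU κ) (hk : k ∈ KU κ) : bump R (g * k) = bump R g := by
  rw [bump, bump, c_mul_K g k hk]

/-- cutoff functions -/
structure Cut (σ : G →* GU κ) (χ : GU κ → ℝ) : Prop where
  cont : Continuous χ
  nonneg : ∀ g, 0 ≤ χ g
  supp : ∃ R : ℝ, ∀ g, χ g ≠ 0 → c g ≤ R
  sum : ∀ g, ∑' γ, ENNReal.ofReal (χ (σ γ * g)) = 1
  kinv : ∀ g, ∀ k ∈ KU κ, χ (g * k) = χ g

/-- locally finite sums are continuous -/
theorem Lat.sum_cont {σ : G →* GU κ} (h : Lat σ) {E : Type} [AddCommMonoid E]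
    [TopologicalSpace E] [ContinuousAdd E] (R : ℝ) (f : G → GU κ → E)
    (hf : ∀ γ, Continuous (f γ)) (hs : ∀ γ g, f γ g ≠ 0 → c (σ γ * g) ≤ R) :
    Continuous fun g => ∑ᶠ γ, f γ g := by
  apply continuous_finsum hf
  intro g
  refine ⟨{g' | c g' < c g + 1}, (isOpen_lt continuous_c continuous_const).mem_nhds
    (by simp), ?_⟩
  refine (h.finite_meet R (c g + 1)).subset ?_
  rintro γ ⟨g', hg', hg2⟩
  exact ⟨g', (le_of_lt hg2), hs γ g' hg'⟩

theorem exists_cut {σ : G →* GU κ} (h : Lat σ) : ∃ χ, Cut σ χ := by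
  obtain ⟨R, hR⟩ := h.coc
  set u : GU κ → ℝ := bump (R + 1) with hu
  set s : GU κ → ℝ := fun g => ∑ᶠ γ, u (σ γ * g) with hs
  have hus : ∀ γ g, u (σ γ * g) ≠ 0 → c (σ γ * g) ≤ R + 1 := by
    intro γ g hne
    by_contra hcon
    exact hne (bump_zero (not_le.mp hcon).le)
  have hfin : ∀ g, (Function.support fun γ => u (σ γ * g)).Finite := by
    intro g
    refine (h.finite_meet (R + 1) (c g)).subset ?_
    intro γ hγ
    exact ⟨g, le_rfl, hus γ g hγ⟩
  have hscont : Continuous s := h.sum_cont (R + 1) (fun γ g => u (σ γ * g))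
    (fun γ => (bump_cont _).comp (continuous_const.mul continuous_id)) hus
  have hspos : ∀ g, 0 < s g := by
    intro g
    obtain ⟨γ, hγ⟩ := hR g
    have h1 : 0 < u (σ γ * g) := bump_pos (by linarith)
    refine lt_of_lt_of_le h1 ?_
    exact single_le_finsum γ (hfin g) fun γ' => bump_nonneg _ _
  have hsinv : ∀ γ g, s (σ γ * g) = s g := by
    intro γ g
    simp only [hs]
    have : (fun γ' => u (σ γ' * (σ γ * g))) = (fun γ' => u (σ γ' * g)) ∘ (Equiv.mulRight γ) := by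
      ext γ'
      simp [mul_assoc]
    rw [this]
    exact finsum_comp_equiv (Equiv.mulRight γ) (f := fun γ' => u (σ γ' * g))
  refine ⟨fun g => u g / s g, ?_, fun g => div_nonneg (bump_nonneg _ _) (hspos g).le,
    ⟨R + 1, fun g hg => ?_⟩, fun g => ?_, fun g k hk => ?_⟩
  · exact (bump_cont _).div hscont fun g => (hspos g).ne'
  · by_contra hcon
    apply hg
    change u g / s g = 0
    rw [hu, bump_zero (not_le.mp hcon).le, zero_div]
  · have h1 : ∀ γ, u (σ γ * g) / s (σ γ * g) = u (σ γ * g) / s g := fun γ => by rw [hsinv]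
    simp only [h1]
    have h2 : Summable fun γ => u (σ γ * g) / s g :=
      (summable_of_finite_support (hfin g)).div_const _
    rw [← ENNReal.ofReal_tsum_of_nonneg (fun γ => div_nonneg (bump_nonneg _ _) (hspos g).le) h2,
      tsum_div_const, tsum_eq_finsum (hfin g)]
    rw [div_self (hspos g).ne']
    simp
  · have h1 : u (g * k) = u g := bump_K _ g k hk
    have h2 : s (g * k) = s g := by
      simp only [hs]
      congr 1
      ext γ
      rw [← mul_assoc]
      exact bump_K _ _ k hk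
    change u (g * k) / s (g * k) = u g / s g
    rw [h1, h2]

end Pool.Agent.MPd01a95
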