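import Mathlib
import Pool.Agent.Lib.MP_d01a95_gt_H.Cut

set_option autoImplicit false
set_option linter.all false

open Matrix Filter Topology

namespace Pool.Agent.MPd01a95

variable {κ : Type} [Fintype κ] [DecidableEq κ]

namespace GU

/-- basis vector of the positive part -/
def ej (j : κ) : κ ⊕ Unit → ℂ := Pi.single (Sum.inl j) 1

/-- the negative basis vector -/
def e0 : κ ⊕ Unit → ℂ := Pi.single (Sum.inr ()) 1

/-- the unit complex number attached to a direction -/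
noncomputable def wb (b : Bool) : ℂ := if b then 1 else Complex.I

theorem wb_mul (b : Bool) : wb b * star (wb b) = 1 := by
  cases b <;> simp [wb]

theorem wb_mul' (b : Bool) : star (wb b) * wb b = 1 := by
  cases b <;> simp [wb]

/-- the infinitesimal generator of the boost -/
noncomputable def XM (p : κ × Bool) : Matrix (κ ⊕ Unit) (κ ⊕ Unit) ℂ :=
  wb p.2 • vecMulVec (ej p.1) e0 + star (wb p.2) • vecMulVec e0 (ej p.1)

/-- the projection to the plane of the boost -/
noncomputable def PM (p : κ × Bool) : Matrix (κ ⊕ Unit) (κ ⊕ Unit) ℂ :=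
  vecMulVec (ej p.1) (ej p.1) + vecMulVec e0 e0

theorem ej_ej (j : κ) : ej j ⬝ᵥ ej j = 1 := by simp [ej]

theorem e0_e0 : (e0 : κ ⊕ Unit → ℂ) ⬝ᵥ e0 = 1 := by simp [e0]

theorem ej_e0 (j : κ) : ej j ⬝ᵥ e0 = 0 := by simp [ej, e0]

theorem e0_ej (j : κ) : e0 ⬝ᵥ ej j = 0 := by simp [ej, e0]

theorem vv (a b c d : κ ⊕ Unit → ℂ) :
    vecMulVec a b * vecMulVec c d = (b ⬝ᵥ c) • vecMulVec a d := by
  ext i j
  rw [Matrix.mul_apply, Matrix.smul_apply, vecMulVec_apply, dotProduct, smul_eq_mul,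
    Finset.sum_mul]
  refine Finset.sum_congr rfl fun k _ => ?_
  rw [vecMulVec_apply, vecMulVec_apply]
  ring

theorem XX (p : κ × Bool) : XM p * XM p = PM p := by
  rw [XM, PM, Matrix.add_mul, Matrix.mul_add, Matrix.mul_add]
  simp only [Matrix.smul_mul, Matrix.mul_smul, vv, ej_ej, e0_e0, ej_e0, e0_ej, smul_smul,
    one_smul, zero_smul, smul_zero, mul_one, mul_zero, zero_add, add_zero]
  rw [wb_mul, wb_mul', one_smul, one_smul]

theorem PP (p : κ × Bool) : PM p * PM p = PM p := by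
  rw [PM, Matrix.add_mul, Matrix.mul_add, Matrix.mul_add]
  simp only [vv, ej_ej, e0_e0, ej_e0, e0_ej, one_smul, zero_smul, zero_add, add_zero]

theorem PX (p : κ × Bool) : PM p * XM p = XM p := by
  rw [XM, PM, Matrix.add_mul, Matrix.mul_add, Matrix.mul_add]
  simp only [Matrix.smul_mul, Matrix.mul_smul, vv, ej_ej, e0_e0, ej_e0, e0_ej, smul_smul,
    one_smul, zero_smul, smul_zero, mul_one, mul_zero, zero_add, add_zero]

theorem XP (p : κ × Bool) : XM p * PM p = XM p := by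
  rw [XM, PM, Matrix.add_mul, Matrix.mul_add, Matrix.mul_add]
  simp only [Matrix.smul_mul, Matrix.mul_smul, vv, ej_ej, e0_e0, ej_e0, e0_ej, smul_smul,
    one_smul, zero_smul, smul_zero, mul_one, mul_zero, zero_add, add_zero]

theorem star_ej (j : κ) : star (ej j) = ej j := by
  ext i; rw [Pi.star_apply, ej]; by_cases h : i = Sum.inl j
  · subst h; simp
  · rw [Pi.single_eq_of_ne h]; simp

theorem star_e0 : star (e0 : κ ⊕ Unit → ℂ) = e0 := by
  ext i; rw [Pi.star_apply, e0]; by_cases h : i = Sum.inr ()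
  · subst h; simp
  · rw [Pi.single_eq_of_ne h]; simp

theorem vH (a b : κ ⊕ Unit → ℂ) : (vecMulVec a b)ᴴ = vecMulVec (star b) (star a) := by
  ext i j
  simp [vecMulVec_apply, conjTranspose_apply, mul_comm]

theorem XH (p : κ × Bool) : (XM p)ᴴ = XM p := by
  rw [XM, conjTranspose_add, conjTranspose_smul, conjTranspose_smul, vH, vH, star_ej, star_e0,
    star_star, add_comm]

theorem PH (p : κ × Bool) : (PM p)ᴴ = PM p := by
  rw [PM, conjTranspose_add, vH, vH, star_ej, star_e0]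

theorem JC_ej (j : κ) : JC κ *ᵥ ej j = ej j := by
  ext i
  cases i with
  | inl i => rw [LowAux.JC_mulVec_inl]
  | inr i => rw [LowAux.JC_mulVec_inr]; simp [ej]

theorem JC_e0 : JC κ *ᵥ e0 = -e0 := by
  ext i
  cases i with
  | inl i => rw [LowAux.JC_mulVec_inl]; simp [e0]
  | inr i => rw [LowAux.JC_mulVec_inr]; rfl

theorem JC_tr : (JC κ)ᵀ = JC κ := by
  rw [JC, Matrix.fromBlocks_transpose]
  simp

theorem JCv (a b : κ ⊕ Unit → ℂ) : JC κ * vecMulVec a b = vecMulVec (JC κ *ᵥ a) b := by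
  rw [Matrix.mul_vecMulVec]

theorem vJC (a b : κ ⊕ Unit → ℂ) : vecMulVec a b * JC κ = vecMulVec a (JC κ *ᵥ b) := by
  rw [Matrix.vecMulVec_mul, ← Matrix.mulVec_transpose, JC_tr]

theorem JX (p : κ × Bool) : JC κ * XM p = -(XM p * JC κ) := by
  rw [XM, Matrix.mul_add, Matrix.add_mul, Matrix.mul_smul, Matrix.mul_smul, Matrix.smul_mul,
    Matrix.smul_mul, JCv, JCv, vJC, vJC, JC_ej, JC_e0]
  simp only [vecMulVec_neg, neg_vecMulVec, smul_neg, neg_add_rev, neg_neg]
  abel

theorem JP (p : κ × Bool) : JC κ * PM p = PM p * JC κ := by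
  rw [PM, Matrix.mul_add, Matrix.add_mul, JCv, JCv, vJC, vJC, JC_ej, JC_e0]
  simp [vecMulVec_neg, neg_vecMulVec]

/-- the boost, as a matrix -/
noncomputable def boM (t : ℝ) (p : κ × Bool) : Matrix (κ ⊕ Unit) (κ ⊕ Unit) ℂ :=
  1 + ((Real.cosh t - 1 : ℝ) : ℂ) • PM p + ((Real.sinh t : ℝ) : ℂ) • XM p

theorem boM_add (s t : ℝ) (p : κ × Bool) : boM s p * boM t p = boM (s + t) p := by
  rw [boM, boM, boM, Real.cosh_add, Real.sinh_add]
  have e : ∀ a b a' b' : ℂ, (1 + a • PM p + b • XM p) * (1 + a' • PM p + b' • XM p) =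
      1 + (a + a' + a * a' + b * b') • PM p + (b + b' + a * b' + b * a') • XM p := by
    intro a b a' b'
    simp only [Matrix.add_mul, Matrix.mul_add, Matrix.one_mul, Matrix.mul_one, Matrix.smul_mul,
      Matrix.mul_smul, smul_smul, PP, PX, XP, XX]
    module
  rw [e]
  congr 3
  · push_cast; ring
  · push_cast; ring

theorem boM_zero (p : κ × Bool) : boM 0 p = 1 := by simp [boM]

theorem boM_H (t : ℝ) (p : κ × Bool) : (boM t p)ᴴ = boM t p := by
  have e : ∀ x : ℝ, star (x : ℂ) = (x : ℂ) := fun x => Complex.conj_ofReal x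
  rw [boM, conjTranspose_add, conjTranspose_add, conjTranspose_one, conjTranspose_smul,
    conjTranspose_smul, PH, XH, e, e]

theorem JboM (t : ℝ) (p : κ × Bool) : boM t p * JC κ = JC κ * boM (-t) p := by
  have h1 : XM p * JC κ = -(JC κ * XM p) := by rw [JX, neg_neg]
  rw [boM, boM, Matrix.add_mul, Matrix.add_mul, Matrix.mul_add, Matrix.mul_add, Matrix.smul_mul,
    Matrix.smul_mul, Matrix.mul_smul, Matrix.mul_smul, ← JP, h1, Real.cosh_neg, Real.sinh_neg]
  simp

/-- the boost -/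
noncomputable def bo (t : ℝ) (p : κ × Bool) : GU κ :=
  ⟨boM t p, by
    rw [boM_H, JboM, Matrix.mul_assoc, boM_add]
    simp [boM_zero]⟩

theorem bo_M (t : ℝ) (p : κ × Bool) : (bo t p).M = boM t p := rfl

theorem bo_add (s t : ℝ) (p : κ × Bool) : bo s p * bo t p = bo (s + t) p :=
  GU.ext (boM_add s t p)

theorem bo_zero (p : κ × Bool) : bo 0 p = 1 := GU.ext (boM_zero p)

theorem bo_neg (t : ℝ) (p : κ × Bool) : bo (-t) p = (bo t p)⁻¹ := by
  rw [eq_inv_iff_mul_eq_one, bo_add]; simp [bo_zero]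

theorem continuous_boM (p : κ × Bool) : Continuous fun t => boM t p := by
  unfold boM
  have h1 : Continuous fun t : ℝ => ((Real.cosh t - 1 : ℝ) : ℂ) :=
    Complex.continuous_ofReal.comp (Real.continuous_cosh.sub continuous_const)
  have h2 : Continuous fun t : ℝ => ((Real.sinh t : ℝ) : ℂ) :=
    Complex.continuous_ofReal.comp Real.continuous_sinh
  exact (continuous_const.add (h1.smul continuous_const)).add (h2.smul continuous_const)

theorem continuous_bo (p : κ × Bool) : Continuous fun t => bo t p :=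
  continuous_iff.mpr (continuous_boM p)

theorem boM_e0 (t : ℝ) (p : κ × Bool) : boM t p *ᵥ e0 =
    (Real.cosh t : ℂ) • e0 + ((Real.sinh t : ℂ) * wb p.2) • ej p.1 := by
  have h1 : PM p *ᵥ e0 = e0 := by
    rw [PM, Matrix.add_mulVec, Matrix.vecMulVec_mulVec, Matrix.vecMulVec_mulVec, ej_e0, e0_e0]
    simp
  have h2 : XM p *ᵥ e0 = wb p.2 • ej p.1 := by
    rw [XM, Matrix.add_mulVec, Matrix.smul_mulVec, Matrix.smul_mulVec, Matrix.vecMulVec_mulVec,
      Matrix.vecMulVec_mulVec, ej_e0, e0_e0]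
    simp
  rw [boM, Matrix.add_mulVec, Matrix.add_mulVec, Matrix.smul_mulVec, Matrix.smul_mulVec, h1, h2,
    Matrix.one_mulVec, smul_smul]
  push_cast
  module

theorem mulVec_e0 (A : Matrix (κ ⊕ Unit) (κ ⊕ Unit) ℂ) (i : κ ⊕ Unit) :
    (A *ᵥ e0) i = A i (Sum.inr ()) := by
  simp [e0]

theorem boM_00 (t : ℝ) (p : κ × Bool) : boM t p (Sum.inr ()) (Sum.inr ()) = Real.cosh t := by
  have h := mulVec_e0 (boM t p) (Sum.inr ())
  rw [boM_e0] at h
  rw [← h]
  simp [e0, ej]

theorem c_bo (t : ℝ) (p : κ × Bool) : c (bo t p) = Real.cosh t := by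
  unfold c cc
  rw [bo_M, boM_00, Complex.norm_real, Real.norm_eq_abs, abs_of_pos (Real.cosh_pos t)]

/-- elements fixing `e0` are in `K` -/
theorem mem_KU_of_fix {g : GU κ} (h : g.M *ᵥ e0 = e0) : g ∈ KU κ := by
  have h1 : ∀ i, g.M (Sum.inl i) (Sum.inr ()) = 0 := fun i => by
    have h2 := mulVec_e0 g.M (Sum.inl i)
    rw [h] at h2
    rw [← h2]; simp [e0]
  have h2 : g.M (Sum.inr ()) (Sum.inr ()) = 1 := by
    have h2 := mulVec_e0 g.M (Sum.inr ())
    rw [h] at h2
    rw [← h2]; simp [e0]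
  refine ⟨h1, fun i => ?_⟩
  have h3 := HypAux.row_n g.M g.pres
  have h4 : cc g.M = 1 := by unfold cc; rw [h2]; simp
  rw [h4] at h3
  have h5 : ∑ i, ‖g.M (Sum.inr ()) (Sum.inl i)‖ ^ 2 = 0 := by linarith
  have h6 := (Finset.sum_eq_zero_iff_of_nonneg (fun i _ => by positivity)).mp h5 i
    (Finset.mem_univ i)
  have h7 : ‖g.M (Sum.inr ()) (Sum.inl i)‖ = 0 := pow_eq_zero_iff (two_ne_zero) |>.mp h6
  exact norm_eq_zero.mp h7

/-- a unitary matrix with a prescribed column -/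
theorem exists_unitary (j : κ) (u : κ → ℂ) (hu : ∑ i, ‖u i‖ ^ 2 = 1) :
    ∃ A : Matrix κ κ ℂ, Aᴴ * A = 1 ∧ ∀ i, A i j = u i := by
  set v : κ → EuclideanSpace ℂ κ := fun _ => WithLp.toLp 2 u with hv
  have ho : Orthonormal ℂ (({j} : Set κ).restrict v) := by
    rw [orthonormal_iff_ite]
    intro a b
    have hab : a = b := Subtype.ext (by rw [a.2, b.2])
    subst hab
    rw [if_pos rfl]
    simp only [Set.restrict_apply, hv]
    rw [inner_self_eq_norm_sq_to_K, EuclideanSpace.norm_eq, Real.sqrt_eq_one.mpr]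
    · simp
    · exact hu
  obtain ⟨b, hb⟩ := ho.exists_orthonormalBasis_extension_of_card_eq (by simp)
  refine ⟨(EuclideanSpace.basisFun κ ℂ).toBasis.toMatrix b.toBasis, ?_, fun i => ?_⟩
  · have := (EuclideanSpace.basisFun κ ℂ).toMatrix_orthonormalBasis_mem_unitary b
    have h2 := (Matrix.mem_unitaryGroup_iff' (A := (EuclideanSpace.basisFun κ ℂ).toBasis.toMatrix
      b.toBasis)).mp this
    rw [star_eq_conjTranspose] at h2
    exact h2
  · rw [Module.Basis.toMatrix_apply]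
    simp [hb j rfl, hv]

/-- block diagonal elements -/
theorem exists_K (A : Matrix κ κ ℂ) (hA : Aᴴ * A = 1) (d : ℂ) (hd : ‖d‖ = 1) :
    ∃ k ∈ KU κ, k.M = Matrix.fromBlocks A 0 0 (Matrix.of fun _ _ => d) := by
  refine ⟨⟨Matrix.fromBlocks A 0 0 (Matrix.of fun _ _ => d), ?_⟩, ⟨fun i => ?_, fun i => ?_⟩, rfl⟩
  · rw [JC, Matrix.fromBlocks_conjTranspose, Matrix.fromBlocks_multiply,
      Matrix.fromBlocks_multiply]
    simp only [Matrix.mul_one, Matrix.mul_zero, Matrix.zero_mul, add_zero, zero_add,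
      Matrix.conjTranspose_zero, hA]
    congr 1
    ext a b
    simp [Matrix.mul_apply]
    rw [mul_comm, Complex.mul_conj, Complex.normSq_eq_norm_sq, hd]
    simp
  · change Matrix.fromBlocks A 0 0 (Matrix.of fun _ _ => d) (Sum.inl i) (Sum.inr ()) = 0
    simp
  · change Matrix.fromBlocks A 0 0 (Matrix.of fun _ _ => d) (Sum.inr ()) (Sum.inl i) = 0
    simp

/-- Cartan decomposition -/
theorem kak (j : κ) (g : GU κ) : ∃ k ∈ KU κ, ∃ k' ∈ KU κ, ∃ t : ℝ, 0 ≤ t ∧
    g = k * bo t (j, true) * k' ∧ Real.cosh t = c g := by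
  have hc := c_ge_one g
  set t := Real.arcosh (c g) with ht
  have htc : Real.cosh t = c g := Real.cosh_arcosh hc
  have ht0 : 0 ≤ t := Real.arcosh_nonneg hc
  set v := g.M *ᵥ e0 with hv
  have hv0 : ‖v (Sum.inr ())‖ = Real.cosh t := by rw [hv, mulVec_e0, htc]; rfl
  have hcol := HypAux.col_n g.M g.pres
  have hsum : ∑ i, ‖v (Sum.inl i)‖ ^ 2 = Real.sinh t ^ 2 := by
    have e : ∑ i, ‖v (Sum.inl i)‖ ^ 2 = ∑ i, ‖g.M (Sum.inl i) (Sum.inr ())‖ ^ 2 :=
      Finset.sum_congr rfl fun i _ => by rw [hv, mulVec_e0]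
    rw [e, Real.sinh_sq, htc]
    unfold c
    linarith
  have hsh : 0 ≤ Real.sinh t := Real.sinh_nonneg_iff.mpr ht0
  obtain ⟨u, hu1, hu2⟩ : ∃ u : κ → ℂ, ∑ i, ‖u i‖ ^ 2 = 1 ∧
      ∀ i, v (Sum.inl i) = (Real.sinh t : ℂ) * u i := by
    rcases hsh.eq_or_lt with h0 | h0
    · refine ⟨Pi.single j 1, ?_, fun i => ?_⟩
      · rw [Finset.sum_eq_single j]
        · simp
        · intro b _ hb; rw [Pi.single_eq_of_ne hb]; simp
        · simp
      · rw [← h0] at hsum ⊢
        have h6 := (Finset.sum_eq_zero_iff_of_nonneg (fun i _ => by positivity)).mp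
          (by rw [hsum]; norm_num : ∑ i, ‖v (Sum.inl i)‖ ^ 2 = 0) i (Finset.mem_univ i)
        have h7 : ‖v (Sum.inl i)‖ = 0 := pow_eq_zero_iff (two_ne_zero) |>.mp h6
        rw [norm_eq_zero.mp h7]; simp
    · refine ⟨fun i => v (Sum.inl i) / (Real.sinh t : ℂ), ?_, fun i => ?_⟩
      · simp only [norm_div, Complex.norm_real, Real.norm_eq_abs, abs_of_pos h0, div_pow]
        rw [← Finset.sum_div, hsum]
        field_simp
      · have : (Real.sinh t : ℂ) ≠ 0 := by exact_mod_cast h0.ne'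
        field_simp
  obtain ⟨A, hA, hAu⟩ := exists_unitary j u hu1
  have hch : (Real.cosh t : ℂ) ≠ 0 := by exact_mod_cast (Real.cosh_pos t).ne'
  obtain ⟨k, hk, hkM⟩ := exists_K A hA (v (Sum.inr ()) / (Real.cosh t : ℂ)) (by
    rw [norm_div, hv0, Complex.norm_real, Real.norm_eq_abs, abs_of_pos (Real.cosh_pos t),
      div_self (Real.cosh_pos t).ne'])
  have hmain : (k * bo t (j, true)).M *ᵥ e0 = v := by
    rw [M_mul, ← Matrix.mulVec_mulVec, bo_M, boM_e0, hkM]
    ext i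
    cases i with
    | inl i =>
      simp [Matrix.mulVec, dotProduct, Fintype.sum_sum_type, e0, ej, wb, hAu, hu2 i]
      rw [Finset.sum_eq_single j]
      · simp [hAu]; ring
      · intro b _ hb
        rw [Pi.single_eq_of_ne (by simpa using hb)]
        simp
      · simp
    | inr i =>
      simp [Matrix.mulVec, dotProduct, Fintype.sum_sum_type, e0, ej, wb]
      have hch' : Complex.cosh (t : ℂ) ≠ 0 := by
        rw [← Complex.ofReal_cosh]; exact hch
      field_simp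
  refine ⟨k, hk, (k * bo t (j, true))⁻¹ * g, mem_KU_of_fix ?_, t, ht0, by group, htc⟩
  rw [M_mul, ← Matrix.mulVec_mulVec, ← hv, ← hmain, Matrix.mulVec_mulVec, inv_mul_M,
    Matrix.one_mulVec]

end GU

end Pool.Agent.MPd01a95
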