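import Mathlib

set_option autoImplicit false
set_option linter.all false

open Filter Topology

namespace Pool.Agent.MPd01a95

/-- The inequality of Bruhat and Tits for a selection of geodesics `geo s a b`. -/
def CN {Y : Type} [PseudoMetricSpace Y] (geo : ℝ → Y → Y → Y) : Prop :=
  ∀ s ∈ Set.Icc (0 : ℝ) 1, ∀ a b p : Y, dist p (geo s a b) ^ 2 ≤
    (1 - s) * dist p a ^ 2 + s * dist p b ^ 2 - s * (1 - s) * dist a b ^ 2

namespace CN

variable {Y : Type} [PseudoMetricSpace Y] {geo : ℝ → Y → Y → Y}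

theorem left (h : CN geo) {s : ℝ} (hs : s ∈ Set.Icc (0 : ℝ) 1) (a b : Y) :
    dist a (geo s a b) ≤ s * dist a b := by
  have h1 := h s hs a b a
  rw [dist_self] at h1
  apply abs_le_of_sq_le_sq' _ (mul_nonneg hs.1 dist_nonneg) |>.2
  nlinarith

theorem right (h : CN geo) {s : ℝ} (hs : s ∈ Set.Icc (0 : ℝ) 1) (a b : Y) :
    dist (geo s a b) b ≤ (1 - s) * dist a b := by
  have h1 := h s hs a b b
  rw [dist_self, dist_comm b a, dist_comm b] at h1
  apply abs_le_of_sq_le_sq' _ (mul_nonneg (by linarith [hs.2]) dist_nonneg) |>.2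
  nlinarith

/-- uniqueness of the point at parameter `s` -/
theorem uniq (h : CN geo) {s : ℝ} (hs : s ∈ Set.Icc (0 : ℝ) 1) {a b p : Y}
    (h1 : dist a p ≤ s * dist a b) (h2 : dist p b ≤ (1 - s) * dist a b) :
    dist p (geo s a b) = 0 := by
  have h3 := h s hs a b p
  have h4 : dist p a ^ 2 ≤ (s * dist a b) ^ 2 := by
    rw [dist_comm p a]; exact pow_le_pow_left₀ dist_nonneg h1 2
  have h5 : dist p b ^ 2 ≤ ((1 - s) * dist a b) ^ 2 := pow_le_pow_left₀ dist_nonneg h2 2
  have h6 : dist p (geo s a b) ^ 2 ≤ 0 := by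
    have := hs.1
    have := hs.2
    have g1 := mul_le_mul_of_nonneg_left h4 (show 0 ≤ 1 - s by linarith)
    have g2 := mul_le_mul_of_nonneg_left h5 hs.1
    nlinarith
  have h7 := sq_nonneg (dist p (geo s a b))
  exact pow_eq_zero_iff (two_ne_zero) |>.mp (le_antisymm h6 h7)

theorem swap (h : CN geo) {s : ℝ} (hs : s ∈ Set.Icc (0 : ℝ) 1) (a b : Y) :
    dist (geo (1 - s) b a) (geo s a b) = 0 := by
  have hs' : 1 - s ∈ Set.Icc (0 : ℝ) 1 := ⟨by linarith [hs.2], by linarith [hs.1]⟩
  apply h.uniq hs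
  · have := h.right hs' b a
    rw [dist_comm a, dist_comm a b]
    linarith
  · have := h.left hs' b a
    rw [dist_comm _ b, dist_comm a b]
    exact this

theorem left_eq (h : CN geo) {s : ℝ} (hs : s ∈ Set.Icc (0 : ℝ) 1) (a b : Y) :
    dist a (geo s a b) = s * dist a b := by
  apply le_antisymm (h.left hs a b)
  have h1 := h.right hs a b
  have h2 := dist_triangle a (geo s a b) b
  linarith

theorem right_eq (h : CN geo) {s : ℝ} (hs : s ∈ Set.Icc (0 : ℝ) 1) (a b : Y) :
    dist (geo s a b) b = (1 - s) * dist a b := by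
  apply le_antisymm (h.right hs a b)
  have h1 := h.left hs a b
  have h2 := dist_triangle a (geo s a b) b
  linarith

/-- distance preserving maps respect geodesics -/
theorem isom {Z : Type} [PseudoMetricSpace Z] {geo' : ℝ → Z → Z → Z} (h : CN geo)
    (h' : CN geo') {f : Y → Z} (hf : ∀ a b, dist (f a) (f b) = dist a b) {s : ℝ}
    (hs : s ∈ Set.Icc (0 : ℝ) 1) (a b : Y) :
    dist (f (geo s a b)) (geo' s (f a) (f b)) = 0 := by
  apply h'.uniq hs
  · rw [hf, hf]; exact h.left hs a b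
  · rw [hf, hf]; exact h.right hs a b

/-- quadrilateral inequality with a parameter -/
theorem quad_aux (h : CN geo) (a b c d : Y) {l : ℝ} (hl : 0 < l) :
    dist a c ^ 2 + dist b d ^ 2 ≤
      dist b c ^ 2 + dist a d ^ 2 + l * dist a b ^ 2 + l⁻¹ * dist c d ^ 2 := by
  set s : ℝ := 1 / (1 + l) with hs
  have hs1 : s ∈ Set.Icc (0 : ℝ) 1 := by
    constructor
    · positivity
    · rw [hs, div_le_one (by positivity)]; linarith
  set p := geo s a c with hp
  have h1 := h s hs1 a c b
  have h2 := h s hs1 a c d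
  rw [← hp] at h1 h2
  have h3 : dist b d ^ 2 ≤ (1 + l) * dist b p ^ 2 + (1 + l⁻¹) * dist d p ^ 2 := by
    have t := dist_triangle_right b d p
    have t2 : dist b d ^ 2 ≤ (dist b p + dist d p) ^ 2 := pow_le_pow_left₀ dist_nonneg t 2
    have t3 : (dist b p + dist d p) ^ 2 ≤ (1 + l) * dist b p ^ 2 + (1 + l⁻¹) * dist d p ^ 2 := by
      have e : (1 + l) * dist b p ^ 2 + (1 + l⁻¹) * dist d p ^ 2 - (dist b p + dist d p) ^ 2 =
          (l * dist b p - dist d p) ^ 2 / l := by
        field_simp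
        ring
      have : 0 ≤ (l * dist b p - dist d p) ^ 2 / l := by positivity
      linarith
    exact t2.trans t3
  have h4 := mul_le_mul_of_nonneg_left h1 (show (0 : ℝ) ≤ 1 + l by positivity)
  have h5 := mul_le_mul_of_nonneg_left h2 (show (0 : ℝ) ≤ 1 + l⁻¹ by positivity)
  have e1 : (1 + l) * ((1 - s) * dist b a ^ 2 + s * dist b c ^ 2 - s * (1 - s) * dist a c ^ 2) +
      (1 + l⁻¹) * ((1 - s) * dist d a ^ 2 + s * dist d c ^ 2 - s * (1 - s) * dist a c ^ 2) =
      l * dist b a ^ 2 + dist b c ^ 2 + dist d a ^ 2 + l⁻¹ * dist d c ^ 2 - dist a c ^ 2 := by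
    rw [hs]
    field_simp
    ring
  rw [dist_comm a b, dist_comm a d, dist_comm c d]
  linarith

/-- Berg and Nikolaev's inequality -/
theorem quad (h : CN geo) (a b c d : Y) :
    dist a c ^ 2 + dist b d ^ 2 ≤
      dist b c ^ 2 + dist a d ^ 2 + 2 * dist a b * dist c d := by
  rcases (dist_nonneg (x := a) (y := b)).eq_or_lt with h0 | h0
  · rw [← h0]
    have e1 : dist a c = dist b c := by
      apply le_antisymm
      · have := dist_triangle a b c; linarith
      · have := dist_triangle b a c; rw [dist_comm b a] at this; linarith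
    have e2 : dist a d = dist b d := by
      apply le_antisymm
      · have := dist_triangle a b d; linarith
      · have := dist_triangle b a d; rw [dist_comm b a] at this; linarith
    rw [e1, e2]; simp
  rcases (dist_nonneg (x := c) (y := d)).eq_or_lt with h1 | h1
  · rw [← h1]
    have e1 : dist a c = dist a d := by
      apply le_antisymm
      · have := dist_triangle a d c; rw [dist_comm d c] at this; linarith
      · have := dist_triangle a c d; linarith
    have e2 : dist b c = dist b d := by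
      apply le_antisymm
      · have := dist_triangle b d c; rw [dist_comm d c] at this; linarith
      · have := dist_triangle b c d; linarith
    rw [e1, e2]
    linarith
  have := h.quad_aux a b c d (l := dist c d / dist a b) (by positivity)
  have e : dist c d / dist a b * dist a b ^ 2 + (dist c d / dist a b)⁻¹ * dist c d ^ 2 =
      2 * dist a b * dist c d := by
    field_simp
    ring
  linarith

/-- the pair inequality -/
theorem pair (h : CN geo) {s t : ℝ} (hs : s ∈ Set.Icc (0 : ℝ) 1) (ht : t ∈ Set.Icc (0 : ℝ) 1)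
    (a a' b b' : Y) :
    dist (geo s a a') (geo t b b') ^ 2 + dist (geo (1 - s) a a') (geo (1 - t) b b') ^ 2 ≤
      dist a b ^ 2 + dist a' b' ^ 2
        - ((s - s ^ 2) - (t - t ^ 2)) * (dist a a' ^ 2 - dist b b' ^ 2)
        + (s - t) ^ 2 * (dist a a' ^ 2 + dist b b' ^ 2) := by
  have hs' : 1 - s ∈ Set.Icc (0 : ℝ) 1 := ⟨by linarith [hs.2], by linarith [hs.1]⟩
  have ht' : 1 - t ∈ Set.Icc (0 : ℝ) 1 := ⟨by linarith [ht.2], by linarith [ht.1]⟩
  have key : ∀ {s t : ℝ}, s ∈ Set.Icc (0 : ℝ) 1 → t ∈ Set.Icc (0 : ℝ) 1 →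
      dist (geo s a a') (geo t b b') ^ 2 ≤ (1 - s) * (1 - t) * dist a b ^ 2 +
        (1 - s) * t * dist a b' ^ 2 + s * (1 - t) * dist a' b ^ 2 + s * t * dist a' b' ^ 2 -
        t * (1 - t) * dist b b' ^ 2 - s * (1 - s) * dist a a' ^ 2 := by
    intro s t hs ht
    have h1 := h s hs a a' (geo t b b')
    have h2 := h t ht b b' a
    have h3 := h t ht b b' a'
    rw [dist_comm (geo t b b') (geo s a a'), dist_comm (geo t b b') a,
      dist_comm (geo t b b') a'] at h1
    have g1 := mul_le_mul_of_nonneg_left h2 (show 0 ≤ 1 - s by linarith [hs.2])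
    have g2 := mul_le_mul_of_nonneg_left h3 hs.1
    nlinarith
  have k1 := key hs ht
  have k2 := key hs' ht'
  have q := h.quad a a' b' b
  rw [dist_comm b' b] at q
  have hc : 0 ≤ s + t - 2 * s * t := by
    have := hs.1; have := hs.2; have := ht.1; have := ht.2
    nlinarith [mul_nonneg hs.1 (show 0 ≤ 1 - t by linarith),
      mul_nonneg ht.1 (show 0 ≤ 1 - s by linarith)]
  have q2 := mul_le_mul_of_nonneg_left q hc
  have q3 : (s + t - 2 * s * t) * (2 * dist a a' * dist b b') ≤
      (s + t - 2 * s * t) * (dist a a' ^ 2 + dist b b' ^ 2) := by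
    apply mul_le_mul_of_nonneg_left _ hc
    nlinarith [sq_nonneg (dist a a' - dist b b')]
  nlinarith

theorem same_start (h : CN geo) {s : ℝ} (hs : s ∈ Set.Icc (0 : ℝ) 1) (a b c : Y) :
    dist (geo s a b) (geo s a c) ≤ s * dist b c := by
  have h1 := h s hs a b (geo s a c)
  have h2 := h s hs a c b
  have h3 := h.left hs a c
  have h4 : dist a (geo s a c) ^ 2 ≤ (s * dist a c) ^ 2 := pow_le_pow_left₀ dist_nonneg h3 2
  rw [dist_comm (geo s a c) (geo s a b), dist_comm (geo s a c) a, dist_comm (geo s a c) b] at h1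
  rw [dist_comm b a] at h2
  apply abs_le_of_sq_le_sq' _ (mul_nonneg hs.1 dist_nonneg) |>.2
  have := hs.1
  have := hs.2
  have g1 := mul_le_mul_of_nonneg_left h4 (show 0 ≤ 1 - s by linarith)
  have g2 := mul_le_mul_of_nonneg_left h2 hs.1
  nlinarith

theorem same_end (h : CN geo) {s : ℝ} (hs : s ∈ Set.Icc (0 : ℝ) 1) (a b c : Y) :
    dist (geo s a c) (geo s b c) ≤ (1 - s) * dist a b := by
  have h1 := h s hs a c (geo s b c)
  have h2 := h s hs b c a
  have h3 := h.right hs b c
  have h4 : dist (geo s b c) c ^ 2 ≤ ((1 - s) * dist b c) ^ 2 := pow_le_pow_left₀ dist_nonneg h3 2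
  rw [dist_comm (geo s b c) (geo s a c), dist_comm (geo s b c) a] at h1
  apply abs_le_of_sq_le_sq' _ (mul_nonneg (by linarith [hs.2]) dist_nonneg) |>.2
  have := hs.1
  have := hs.2
  have g1 := mul_le_mul_of_nonneg_left h4 hs.1
  have g2 := mul_le_mul_of_nonneg_left h2 (show 0 ≤ 1 - s by linarith)
  nlinarith

/-- convexity of the distance -/
theorem busemann (h : CN geo) {s : ℝ} (hs : s ∈ Set.Icc (0 : ℝ) 1) (a b a' b' : Y) :
    dist (geo s a b) (geo s a' b') ≤ (1 - s) * dist a a' + s * dist b b' := by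
  have h1 := h.same_start hs a b b'
  have h2 := h.same_end hs a a' b'
  have := dist_triangle (geo s a b) (geo s a b') (geo s a' b')
  linarith

theorem busemann_sq (h : CN geo) {s : ℝ} (hs : s ∈ Set.Icc (0 : ℝ) 1) (a b a' b' : Y) :
    dist (geo s a b) (geo s a' b') ^ 2 ≤ (1 - s) * dist a a' ^ 2 + s * dist b b' ^ 2 := by
  have h1 := pow_le_pow_left₀ dist_nonneg (h.busemann hs a b a' b') 2
  have := hs.1
  have := hs.2
  nlinarith [mul_nonneg hs.1 (show 0 ≤ 1 - s by linarith), sq_nonneg (dist a a' - dist b b'),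
    mul_nonneg (mul_nonneg hs.1 (show 0 ≤ 1 - s by linarith)) (sq_nonneg (dist a a' - dist b b'))]

theorem param (h : CN geo) {s t : ℝ} (hs : s ∈ Set.Icc (0 : ℝ) 1) (ht : t ∈ Set.Icc (0 : ℝ) 1)
    (a b : Y) : dist (geo s a b) (geo t a b) ≤ |s - t| * dist a b := by
  have h1 := h s hs a b (geo t a b)
  have h2 := h.left ht a b
  have h3 := h.right ht a b
  have g2 : dist a (geo t a b) ^ 2 ≤ (t * dist a b) ^ 2 := pow_le_pow_left₀ dist_nonneg h2 2
  have g3 : dist (geo t a b) b ^ 2 ≤ ((1 - t) * dist a b) ^ 2 := pow_le_pow_left₀ dist_nonneg h3 2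
  rw [dist_comm (geo t a b) (geo s a b), dist_comm (geo t a b) a] at h1
  apply abs_le_of_sq_le_sq' _ (mul_nonneg (abs_nonneg _) dist_nonneg) |>.2
  rw [mul_pow, sq_abs]
  have := hs.1
  have := hs.2
  have k1 := mul_le_mul_of_nonneg_left g2 (show 0 ≤ 1 - s by linarith)
  have k2 := mul_le_mul_of_nonneg_left g3 hs.1
  nlinarith

/-- joint continuity of the geodesics -/
theorem tendsto (h : CN geo) {α : Type} {l : Filter α} {s : α → ℝ} {a b : α → Y} {s₀ : ℝ}
    {a₀ b₀ : Y} (hs : ∀ x, s x ∈ Set.Icc (0 : ℝ) 1) (hs₀ : s₀ ∈ Set.Icc (0 : ℝ) 1)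
    (h1 : Tendsto s l (𝓝 s₀)) (h2 : Tendsto a l (𝓝 a₀)) (h3 : Tendsto b l (𝓝 b₀)) :
    Tendsto (fun x => geo (s x) (a x) (b x)) l (𝓝 (geo s₀ a₀ b₀)) := by
  rw [tendsto_iff_dist_tendsto_zero]
  have k1 : Tendsto (fun x => dist (a x) a₀ + dist (b x) b₀ + |s x - s₀| * dist a₀ b₀) l
      (𝓝 0) := by
    have t1 := tendsto_iff_dist_tendsto_zero.mp h2
    have t2 := tendsto_iff_dist_tendsto_zero.mp h3
    have t3 := tendsto_iff_dist_tendsto_zero.mp h1
    simp only [Real.dist_eq] at t3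
    have := (t1.add t2).add (t3.mul_const (dist a₀ b₀))
    simpa using this
  refine squeeze_zero (fun _ => dist_nonneg) (fun x => ?_) k1
  have g1 := h.busemann (hs x) (a x) (b x) a₀ b₀
  have g2 := h.param (hs x) hs₀ a₀ b₀
  have g3 := dist_triangle (geo (s x) (a x) (b x)) (geo (s x) a₀ b₀) (geo s₀ a₀ b₀)
  have := (hs x).1
  have := (hs x).2
  have g4 : (1 - s x) * dist (a x) a₀ ≤ dist (a x) a₀ := by
    nlinarith [dist_nonneg (x := a x) (y := a₀)]
  have g5 : s x * dist (b x) b₀ ≤ dist (b x) b₀ := by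
    nlinarith [dist_nonneg (x := b x) (y := b₀)]
  linarith

end CN

end Pool.Agent.MPd01a95
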