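import Mathlib
import Pool.Agent.Lib.MP_d01a95_gt_H.CN

set_option autoImplicit false
set_option linter.all false

open Filter Topology MeasureTheory
open scoped ENNReal NNReal

namespace Pool.Agent.MPd01a95

/-- square root of an extended nonnegative number -/
noncomputable abbrev rt (a : ℝ≥0∞) : ℝ≥0∞ := a ^ (1 / 2 : ℝ)

theorem rt_le {a b : ℝ≥0∞} (h : a ≤ b) : rt a ≤ rt b := ENNReal.rpow_le_rpow h (by norm_num)

theorem rt_sq (a : ℝ≥0∞) : rt a ^ 2 = a := by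
  rw [rt, ← ENNReal.rpow_natCast, ← ENNReal.rpow_mul]; norm_num

theorem le_of_rt {a b : ℝ≥0∞} (h : rt a ≤ rt b) : a ≤ b := by
  rw [← rt_sq a, ← rt_sq b]; gcongr

theorem rt_top {a : ℝ≥0∞} (h : a ≠ ⊤) : rt a ≠ ⊤ := ENNReal.rpow_ne_top_of_nonneg (by norm_num) h

section unfold

variable {𝔾 : Type} [Group 𝔾] [MeasurableSpace 𝔾] [MeasurableMul₂ 𝔾]
  {μ : Measure 𝔾} [μ.IsMulLeftInvariant]
  {G : Type} [Group G] [Countable G] {σ : G →* 𝔾} {χ : 𝔾 → ℝ≥0∞}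

theorem unfold_lintegral (hχm : Measurable χ) (hχ : ∀ g, ∑' γ, χ (σ γ * g) = 1)
    {ψ : 𝔾 → ℝ≥0∞} (hψ : Measurable ψ) :
    ∫⁻ g, χ g * ∑' γ, ψ (σ γ * g) ∂μ = ∫⁻ g, ψ g ∂μ := by
  have hm : ∀ γ : G, Measurable fun g => σ γ * g := fun γ => measurable_const_mul _
  calc ∫⁻ g, χ g * ∑' γ, ψ (σ γ * g) ∂μ = ∫⁻ g, ∑' γ, χ g * ψ (σ γ * g) ∂μ := by
        simp only [ENNReal.tsum_mul_left]
    _ = ∑' γ, ∫⁻ g, χ g * ψ (σ γ * g) ∂μ :=
        lintegral_tsum fun γ => (hχm.mul (hψ.comp (hm γ))).aemeasurable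
    _ = ∑' γ, ∫⁻ g, χ (σ γ⁻¹ * g) * ψ g ∂μ := by
        congr 1
        ext γ
        rw [← lintegral_mul_left_eq_self (μ := μ) (fun g => χ (σ γ⁻¹ * g) * ψ g) (σ γ)]
        simp [← mul_assoc, ← map_mul]
    _ = ∫⁻ g, ∑' γ, χ (σ γ⁻¹ * g) * ψ g ∂μ :=
        (lintegral_tsum fun γ => ((hχm.comp (hm γ⁻¹)).mul hψ).aemeasurable).symm
    _ = ∫⁻ g, ψ g ∂μ := by
        congr 1
        ext g
        rw [ENNReal.tsum_mul_right]
        have : ∑' γ, χ (σ γ⁻¹ * g) = ∑' γ, χ (σ γ * g) :=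
          (Equiv.inv G).tsum_eq fun γ => χ (σ γ * g)
        rw [this, hχ, one_mul]

theorem cutoff_indep (hχm : Measurable χ) (hχ : ∀ g, ∑' γ, χ (σ γ * g) = 1)
    {χ' : 𝔾 → ℝ≥0∞} (hχm' : Measurable χ') (hχ' : ∀ g, ∑' γ, χ' (σ γ * g) = 1)
    {ψ : 𝔾 → ℝ≥0∞} (hψ : Measurable ψ) (hinv : ∀ γ g, ψ (σ γ * g) = ψ g) :
    ∫⁻ g, χ g * ψ g ∂μ = ∫⁻ g, χ' g * ψ g ∂μ := by
  have h := unfold_lintegral (μ := μ) hχm hχ (ψ := fun g => χ' g * ψ g) (hχm'.mul hψ)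
  rw [← h]
  congr 1
  ext g
  simp only [hinv]
  rw [ENNReal.tsum_mul_right, hχ', one_mul]

theorem lintegral_right (hχm : Measurable χ) (hχ : ∀ g, ∑' γ, χ (σ γ * g) = 1)
    [μ.IsMulRightInvariant] {ψ : 𝔾 → ℝ≥0∞} (hψ : Measurable ψ)
    (hinv : ∀ γ g, ψ (σ γ * g) = ψ g) (x : 𝔾) :
    ∫⁻ g, χ g * ψ (g * x) ∂μ = ∫⁻ g, χ g * ψ g ∂μ := by
  have h1 : ∫⁻ g, χ g * ψ (g * x) ∂μ = ∫⁻ g, χ (g * x⁻¹) * ψ g ∂μ := by
    rw [← lintegral_mul_right_eq_self (μ := μ) (fun g => χ (g * x⁻¹) * ψ g) x]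
    simp
  rw [h1]
  refine (cutoff_indep hχm hχ (hχm.comp (measurable_mul_const x⁻¹)) (fun g => ?_) hψ hinv).symm
  have := hχ (g * x⁻¹)
  simpa [mul_assoc] using this

end unfold

section energy

variable {𝔾 : Type} [Group 𝔾] [MeasurableSpace 𝔾] [MeasurableMul₂ 𝔾]
  (μ : Measure 𝔾) (χ : 𝔾 → ℝ≥0∞)
  {Y : Type} [MetricSpace Y] [SecondCountableTopology Y] [MeasurableSpace Y] [BorelSpace Y]

/-- squared `L²` displacement of `F` under right translation by `x` -/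
noncomputable def eE (F : 𝔾 → Y) (x : 𝔾) : ℝ≥0∞ := ∫⁻ g, χ g * edist (F g) (F (g * x)) ^ 2 ∂μ

/-- squared `L²` distance -/
noncomputable def eD (F F' : 𝔾 → Y) : ℝ≥0∞ := ∫⁻ g, χ g * edist (F g) (F' g) ^ 2 ∂μ

variable {μ χ}

/-- Minkowski's inequality with weight -/
theorem mink (hχm : Measurable χ) {u v w : 𝔾 → ℝ≥0∞} (hu : Measurable u) (hv : Measurable v)
    (h : ∀ g, w g ≤ u g + v g) :
    rt (∫⁻ g, χ g * w g ^ 2 ∂μ) ≤ rt (∫⁻ g, χ g * u g ^ 2 ∂μ) + rt (∫⁻ g, χ g * v g ^ 2 ∂μ) := by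
  have e : ∀ a : ℝ≥0∞, a ^ (2 : ℝ) = a ^ 2 := fun a => by
    rw [← ENNReal.rpow_natCast]; norm_num
  have hs : ∀ g (a : ℝ≥0∞), (rt (χ g) * a) ^ (2 : ℝ) = χ g * a ^ 2 := by
    intro g a
    rw [e, mul_pow, rt_sq]
  have h1 := ENNReal.lintegral_Lp_add_le (μ := μ) (p := 2)
    (f := fun g => rt (χ g) * u g) (g := fun g => rt (χ g) * v g)
    ((hχm.pow_const _).mul hu).aemeasurable ((hχm.pow_const _).mul hv).aemeasurable (by norm_num)
  simp only [hs] at h1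
  refine le_trans (rt_le (lintegral_mono fun g => ?_)) h1
  change χ g * w g ^ 2 ≤ ((fun g => rt (χ g) * u g) g + (fun g => rt (χ g) * v g) g) ^ (2 : ℝ)
  simp only
  rw [← mul_add, hs]
  gcongr
  exact h g

variable {G : Type} [Group G] [Countable G] {σ : G →* 𝔾}
  {a : G → Y → Y}

theorem eE_inv [μ.IsMulLeftInvariant] [μ.IsMulRightInvariant] (hχm : Measurable χ)
    (hχ : ∀ g, ∑' γ, χ (σ γ * g) = 1) (ha : ∀ γ, Isometry (a γ)) {F : 𝔾 → Y}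
    (hF : Measurable F) (hFe : ∀ γ g, F (σ γ * g) = a γ (F g)) (x : 𝔾) :
    eE μ χ F x⁻¹ = eE μ χ F x := by
  have h1 := lintegral_right (μ := μ) hχm hχ
    (ψ := fun g => edist (F g) (F (g * x⁻¹)) ^ 2)
    ((hF.edist (hF.comp (measurable_mul_const _))).pow_const 2)
    (fun γ g => by simp only [mul_assoc, hFe, (ha γ).edist_eq]) x
  rw [eE, ← h1, eE]
  congr 1
  ext g
  rw [mul_inv_cancel_right, edist_comm]

theorem eE_shift [μ.IsMulLeftInvariant] [μ.IsMulRightInvariant] (hχm : Measurable χ)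
    (hχ : ∀ g, ∑' γ, χ (σ γ * g) = 1) (ha : ∀ γ, Isometry (a γ)) {F : 𝔾 → Y}
    (hF : Measurable F) (hFe : ∀ γ g, F (σ γ * g) = a γ (F g)) (x y : 𝔾) :
    ∫⁻ g, χ g * edist (F (g * x)) (F (g * x * y)) ^ 2 ∂μ = eE μ χ F y :=
  lintegral_right (μ := μ) hχm hχ
    (ψ := fun g => edist (F g) (F (g * y)) ^ 2)
    ((hF.edist (hF.comp (measurable_mul_const _))).pow_const 2)
    (fun γ g => by simp only [mul_assoc, hFe, (ha γ).edist_eq]) x

theorem eE_mul [μ.IsMulLeftInvariant] [μ.IsMulRightInvariant] (hχm : Measurable χ)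
    (hχ : ∀ g, ∑' γ, χ (σ γ * g) = 1) (ha : ∀ γ, Isometry (a γ)) {F : 𝔾 → Y}
    (hF : Measurable F) (hFe : ∀ γ g, F (σ γ * g) = a γ (F g)) (x y : 𝔾) :
    rt (eE μ χ F (x * y)) ≤ rt (eE μ χ F x) + rt (eE μ χ F y) := by
  rw [← eE_shift hχm hχ ha hF hFe x y]
  refine mink hχm (hF.edist (hF.comp (measurable_mul_const _)))
    ((hF.comp (measurable_mul_const _)).edist (hF.comp ((measurable_mul_const _).comp
      (measurable_mul_const _)))) fun g => ?_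
  rw [← mul_assoc]
  exact edist_triangle _ _ _

theorem eE_sq [μ.IsMulLeftInvariant] [μ.IsMulRightInvariant] (hχm : Measurable χ)
    (hχ : ∀ g, ∑' γ, χ (σ γ * g) = 1) (ha : ∀ γ, Isometry (a γ)) {F : 𝔾 → Y}
    (hF : Measurable F) (hFe : ∀ γ g, F (σ γ * g) = a γ (F g)) (x : 𝔾) :
    eE μ χ F (x * x) ≤ 4 * eE μ χ F x := by
  have h := eE_mul (μ := μ) hχm hχ ha hF hFe x x
  have h2 : rt (eE μ χ F (x * x)) ^ 2 ≤ (rt (eE μ χ F x) + rt (eE μ χ F x)) ^ 2 := by gcongr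
  rw [rt_sq, ← two_mul, mul_pow, rt_sq] at h2
  norm_num at h2
  exact h2

/-- right translation of the map conjugates the displacement -/
theorem eE_conj [μ.IsMulLeftInvariant] [μ.IsMulRightInvariant] (hχm : Measurable χ)
    (hχ : ∀ g, ∑' γ, χ (σ γ * g) = 1) (ha : ∀ γ, Isometry (a γ)) {F : 𝔾 → Y}
    (hF : Measurable F) (hFe : ∀ γ g, F (σ γ * g) = a γ (F g)) (k x : 𝔾) :
    eE μ χ (fun g => F (g * k)) x = eE μ χ F (k⁻¹ * x * k) := by
  rw [← eE_shift hχm hχ ha hF hFe k (k⁻¹ * x * k), eE]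
  congr 1
  ext g
  congr 4
  group

theorem eD_right [μ.IsMulLeftInvariant] [μ.IsMulRightInvariant] (hχm : Measurable χ)
    (hχ : ∀ g, ∑' γ, χ (σ γ * g) = 1) (ha : ∀ γ, Isometry (a γ)) {F F' : 𝔾 → Y}
    (hF : Measurable F) (hFe : ∀ γ g, F (σ γ * g) = a γ (F g))
    (hF' : Measurable F') (hFe' : ∀ γ g, F' (σ γ * g) = a γ (F' g)) (k : 𝔾) :
    eD μ χ (fun g => F (g * k)) (fun g => F' (g * k)) = eD μ χ F F' :=
  lintegral_right (μ := μ) hχm hχ (ψ := fun g => edist (F g) (F' g) ^ 2)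
    ((hF.edist hF').pow_const 2) (fun γ g => by simp only [hFe, hFe', (ha γ).edist_eq]) k

/-- quasi-convexity of the displacement energies -/
theorem eE_geo (hχm : Measurable χ) {geo : ℝ → Y → Y → Y} (h : CN geo) {F F' : 𝔾 → Y}
    (hF : Measurable F) (hF' : Measurable F') (x : 𝔾) :
    2 * eE μ χ (fun g => geo (1/2) (F g) (F' g)) x ≤ eE μ χ F x + eE μ χ F' x := by
  rw [eE, eE, eE, ← lintegral_add_right, ← lintegral_const_mul' _ _ (by norm_num)]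
  · apply lintegral_mono
    intro g
    have h1 := h.busemann_sq (s := 1/2) (by constructor <;> norm_num) (F g) (F' g)
      (F (g * x)) (F' (g * x))
    have e : ∀ x y : Y, edist x y ^ 2 = ENNReal.ofReal (dist x y ^ 2) := fun x y => by
      rw [edist_dist, ENNReal.ofReal_pow dist_nonneg]
    change 2 * (χ g * _) ≤ χ g * _ + χ g * _
    rw [← mul_add, ← mul_assoc, mul_comm 2, mul_assoc]
    gcongr
    rw [e, e, e, ← ENNReal.ofReal_add (by positivity) (by positivity)]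
    have : (2 : ℝ≥0∞) = ENNReal.ofReal 2 := by simp
    rw [this, ← ENNReal.ofReal_mul (by norm_num)]
    apply ENNReal.ofReal_le_ofReal
    linarith
  · exact hχm.mul ((hF'.edist (hF'.comp (measurable_mul_const _))).pow_const 2)

theorem eE_le_of_eD [μ.IsMulLeftInvariant] [μ.IsMulRightInvariant] (hχm : Measurable χ)
    (hχ : ∀ g, ∑' γ, χ (σ γ * g) = 1) (ha : ∀ γ, Isometry (a γ)) {F F' : 𝔾 → Y}
    (hF : Measurable F) (hFe : ∀ γ g, F (σ γ * g) = a γ (F g))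
    (hF' : Measurable F') (hFe' : ∀ γ g, F' (σ γ * g) = a γ (F' g)) (x : 𝔾) :
    rt (eE μ χ F x) ≤ rt (eE μ χ F' x) + 2 * rt (eD μ χ F F') := by
  have hx := measurable_mul_const x
  have h1 : rt (eE μ χ F x) ≤ rt (eD μ χ F F') +
      rt (∫⁻ g, χ g * edist (F' g) (F (g * x)) ^ 2 ∂μ) :=
    mink hχm (hF.edist hF') (hF'.edist (hF.comp hx)) fun g => edist_triangle _ _ _
  have h2 : rt (∫⁻ g, χ g * edist (F' g) (F (g * x)) ^ 2 ∂μ) ≤ rt (eE μ χ F' x) +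
      rt (∫⁻ g, χ g * edist (F' (g * x)) (F (g * x)) ^ 2 ∂μ) :=
    mink hχm (hF'.edist (hF'.comp hx)) ((hF'.comp hx).edist (hF.comp hx))
      fun g => edist_triangle _ _ _
  have h3 : ∫⁻ g, χ g * edist (F' (g * x)) (F (g * x)) ^ 2 ∂μ = eD μ χ F F' := by
    rw [← eD_right hχm hχ ha hF hFe hF' hFe' x, eD]
    simp only [edist_comm]
  rw [h3] at h2
  refine h1.trans ?_
  calc rt (eD μ χ F F') + rt (∫⁻ g, χ g * edist (F' g) (F (g * x)) ^ 2 ∂μ)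
      ≤ rt (eD μ χ F F') + (rt (eE μ χ F' x) + rt (eD μ χ F F')) := by gcongr
    _ = _ := by ring

/-- lower semicontinuity of the displacement energy along sequences -/
theorem eE_liminf [μ.IsMulLeftInvariant] [μ.IsMulRightInvariant] (hχm : Measurable χ)
    (hχ : ∀ g, ∑' γ, χ (σ γ * g) = 1) (ha : ∀ γ, Isometry (a γ)) {F : 𝔾 → Y}
    (hF : Measurable F) (hFe : ∀ γ g, F (σ γ * g) = a γ (F g)) {u : ℕ → 𝔾 → Y}
    (hu : ∀ n, Measurable (u n)) (hue : ∀ n γ g, u n (σ γ * g) = a γ (u n g))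
    (hlim : Tendsto (fun n => eD μ χ F (u n)) atTop (𝓝 0)) (x : 𝔾) :
    eE μ χ F x ≤ liminf (fun n => eE μ χ (u n) x) atTop := by
  have h1 : ∀ n, rt (eE μ χ F x) ≤ rt (eE μ χ (u n) x) + 2 * rt (eD μ χ F (u n)) := fun n =>
    eE_le_of_eD hχm hχ ha hF hFe (hu n) (hue n) x
  have h2 : Tendsto (fun n => 2 * rt (eD μ χ F (u n))) atTop (𝓝 0) := by
    have h3 : Tendsto (fun n => rt (eD μ χ F (u n))) atTop (𝓝 (rt 0)) :=
      (ENNReal.continuous_rpow_const.tendsto _).comp hlim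
    have h4 : rt (0 : ℝ≥0∞) = 0 := by rw [rt, ENNReal.zero_rpow_of_pos (by norm_num)]
    rw [h4] at h3
    have := ENNReal.Tendsto.const_mul (a := 2) h3 (Or.inr (by norm_num))
    simpa using this
  apply le_of_rt
  have h5 : rt (liminf (fun n => eE μ χ (u n) x) atTop) =
      liminf (fun n => rt (eE μ χ (u n) x)) atTop := by
    have hmono : Monotone fun a : ℝ≥0∞ => rt a := fun a b h => rt_le h
    exact hmono.map_liminf_of_continuousAt _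
      (ENNReal.continuous_rpow_const.continuousAt) (by isBoundedDefault) (by isBoundedDefault)
  rw [h5]
  by_contra hcon
  push Not at hcon
  obtain ⟨c, hc1, hc2⟩ := exists_between hcon
  have hfreq : ∃ᶠ n in atTop, rt (eE μ χ (u n) x) < c := frequently_lt_of_liminf_lt (by isBoundedDefault) hc1
  have hev : ∀ᶠ n in atTop, 2 * rt (eD μ χ F (u n)) < rt (eE μ χ F x) - c :=
    h2.eventually (gt_mem_nhds (tsub_pos_of_lt hc2))
  obtain ⟨n, hn1, hn2⟩ := (hfreq.and_eventually hev).exists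
  have := h1 n
  have h6 : rt (eE μ χ (u n) x) + 2 * rt (eD μ χ F (u n)) < c + (rt (eE μ χ F x) - c) :=
    ENNReal.add_lt_add hn1 hn2
  rw [add_tsub_cancel_of_le hc2.le] at h6
  exact absurd (lt_of_le_of_lt this h6) (lt_irrefl _)

end energy

section total

variable {𝔾 : Type} [Group 𝔾] [MeasurableSpace 𝔾] [MeasurableMul₂ 𝔾]
  (μ : Measure 𝔾) (χ : 𝔾 → ℝ≥0∞)
  {Y : Type} [MetricSpace Y] [SecondCountableTopology Y] [MeasurableSpace Y] [BorelSpace Y]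
  {Θ : Type} [MeasurableSpace Θ] (θ : Measure Θ) (x : ℕ → Θ → 𝔾)

/-- the energy at scale `n` -/
noncomputable def eN (F : 𝔾 → Y) (n : ℕ) : ℝ≥0∞ := 4 ^ n * ∫⁻ ϑ, eE μ χ F (x n ϑ) ∂θ

/-- the energy -/
noncomputable def eT (F : 𝔾 → Y) : ℝ≥0∞ := ⨆ n, eN μ χ θ x F n

variable {μ χ θ x}

variable {G : Type} [Group G] [Countable G] {σ : G →* 𝔾} {a : G → Y → Y}

theorem eN_mono [μ.IsMulLeftInvariant] [μ.IsMulRightInvariant] (hχm : Measurable χ)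
    (hχ : ∀ g, ∑' γ, χ (σ γ * g) = 1) (ha : ∀ γ, Isometry (a γ))
    (hx : ∀ n ϑ, x n ϑ = x (n + 1) ϑ * x (n + 1) ϑ) {F : 𝔾 → Y}
    (hF : Measurable F) (hFe : ∀ γ g, F (σ γ * g) = a γ (F g)) :
    Monotone (eN μ χ θ x F) := by
  refine monotone_nat_of_le_succ fun n => ?_
  have h1 : ∫⁻ ϑ, eE μ χ F (x n ϑ) ∂θ ≤ 4 * ∫⁻ ϑ, eE μ χ F (x (n + 1) ϑ) ∂θ := by
    rw [← lintegral_const_mul' _ _ (by norm_num)]
    apply lintegral_mono
    intro ϑ
    change eE μ χ F (x n ϑ) ≤ 4 * eE μ χ F (x (n + 1) ϑ)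
    rw [hx n ϑ]
    exact eE_sq hχm hχ ha hF hFe _
  rw [eN, eN, pow_succ, mul_assoc]
  gcongr

theorem eN_le_eT (F : 𝔾 → Y) (n : ℕ) : eN μ χ θ x F n ≤ eT μ χ θ x F := le_iSup _ n

theorem eN_tendsto [μ.IsMulLeftInvariant] [μ.IsMulRightInvariant] (hχm : Measurable χ)
    (hχ : ∀ g, ∑' γ, χ (σ γ * g) = 1) (ha : ∀ γ, Isometry (a γ))
    (hx : ∀ n ϑ, x n ϑ = x (n + 1) ϑ * x (n + 1) ϑ) {F : 𝔾 → Y}
    (hF : Measurable F) (hFe : ∀ γ g, F (σ γ * g) = a γ (F g)) :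
    Tendsto (eN μ χ θ x F) atTop (𝓝 (eT μ χ θ x F)) :=
  tendsto_atTop_iSup (eN_mono hχm hχ ha hx hF hFe)

theorem measurable_eE [SFinite μ] (hχm : Measurable χ) {F : 𝔾 → Y} (hF : Measurable F)
    {y : Θ → 𝔾} (hy : Measurable y) : Measurable fun ϑ => eE μ χ F (y ϑ) := by
  unfold eE
  apply Measurable.lintegral_prod_right' (f := fun p : Θ × 𝔾 =>
    χ p.2 * edist (F p.2) (F (p.2 * y p.1)) ^ 2)
  exact (hχm.comp measurable_snd).mul (((hF.comp measurable_snd).edist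
    (hF.comp (measurable_snd.mul (hy.comp measurable_fst)))).pow_const 2)

theorem eT_geo [SFinite μ] (hχm : Measurable χ) (hxm : ∀ n, Measurable (x n))
    {geo : ℝ → Y → Y → Y} (h : CN geo)
    {F F' : 𝔾 → Y} (hF : Measurable F) (hF' : Measurable F') :
    eT μ χ θ x (fun g => geo (1/2) (F g) (F' g)) ≤ max (eT μ χ θ x F) (eT μ χ θ x F') := by
  apply iSup_le
  intro n
  have h1 : 2 * eN μ χ θ x (fun g => geo (1/2) (F g) (F' g)) n ≤
      eN μ χ θ x F n + eN μ χ θ x F' n := by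
    rw [eN, eN, eN, ← mul_add, ← mul_assoc, mul_comm 2, mul_assoc]
    gcongr
    rw [← lintegral_add_right _ (measurable_eE hχm hF' (hxm n)),
      ← lintegral_const_mul' _ _ (by norm_num)]
    apply lintegral_mono
    intro ϑ
    exact eE_geo hχm h hF hF' _
  have h2 : 2 * eN μ χ θ x (fun g => geo (1/2) (F g) (F' g)) n ≤
      2 * max (eT μ χ θ x F) (eT μ χ θ x F') := by
    refine h1.trans ?_
    rw [two_mul]
    gcongr
    · exact (eN_le_eT F n).trans (le_max_left _ _)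
    · exact (eN_le_eT F' n).trans (le_max_right _ _)
  exact (ENNReal.mul_le_mul_iff_right (by norm_num) (by norm_num)).mp h2

theorem eT_liminf [SFinite μ] [μ.IsMulLeftInvariant] [μ.IsMulRightInvariant]
    (hχm : Measurable χ) (hxm : ∀ n, Measurable (x n))
    (hχ : ∀ g, ∑' γ, χ (σ γ * g) = 1) (ha : ∀ γ, Isometry (a γ)) {F : 𝔾 → Y}
    (hF : Measurable F) (hFe : ∀ γ g, F (σ γ * g) = a γ (F g)) {u : ℕ → 𝔾 → Y}
    (hu : ∀ n, Measurable (u n)) (hue : ∀ n γ g, u n (σ γ * g) = a γ (u n g))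
    (hlim : Tendsto (fun n => eD μ χ F (u n)) atTop (𝓝 0)) {c : ℝ≥0∞}
    (hc : ∀ n, eT μ χ θ x (u n) ≤ c) : eT μ χ θ x F ≤ c := by
  apply iSup_le
  intro n
  have h1 : ∫⁻ ϑ, eE μ χ F (x n ϑ) ∂θ ≤ liminf (fun m => ∫⁻ ϑ, eE μ χ (u m) (x n ϑ) ∂θ) atTop :=
    calc ∫⁻ ϑ, eE μ χ F (x n ϑ) ∂θ ≤ ∫⁻ ϑ, liminf (fun m => eE μ χ (u m) (x n ϑ)) atTop ∂θ :=
          lintegral_mono fun ϑ => eE_liminf hχm hχ ha hF hFe hu hue hlim _
      _ ≤ _ := lintegral_liminf_le fun m => measurable_eE hχm (hu m) (hxm n)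
  have h2 : liminf (fun m => ∫⁻ ϑ, eE μ χ (u m) (x n ϑ) ∂θ) atTop ≤ c / 4 ^ n := by
    apply liminf_le_of_frequently_le'
    apply Eventually.frequently
    refine Eventually.of_forall fun m => ?_
    rw [ENNReal.le_div_iff_mul_le (Or.inl (by positivity)) (Or.inl (by simp)), mul_comm]
    exact (eN_le_eT (u m) n).trans (hc m)
  rw [eN]
  calc 4 ^ n * ∫⁻ ϑ, eE μ χ F (x n ϑ) ∂θ ≤ 4 ^ n * (c / 4 ^ n) := by gcongr; exact h1.trans h2
    _ = c := ENNReal.mul_div_cancel (by positivity) (by simp)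

end total

end Pool.Agent.MPd01a95
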