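import Mathlib

set_option autoImplicit false
set_option linter.all false

open Matrix

namespace Pool.Agent.MPd01a95

namespace PDAux

variable {n : Type} [Fintype n] [DecidableEq n]

/-- real spectral theorem -/
theorem spec {A : Matrix n n ℝ} (hA : A.IsHermitian) :
    ∃ (U : Matrix n n ℝ) (a : n → ℝ), U * Uᵀ = 1 ∧ Uᵀ * U = 1 ∧ A = U * diagonal a * Uᵀ := by
  refine ⟨(hA.eigenvectorUnitary : Matrix n n ℝ), hA.eigenvalues, ?_, ?_, ?_⟩
  · have := Unitary.coe_mul_star_self hA.eigenvectorUnitary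
    simpa [star_eq_conjTranspose, conjTranspose_eq_transpose_of_trivial] using this
  · have := Unitary.coe_star_mul_self hA.eigenvectorUnitary
    simpa [star_eq_conjTranspose, conjTranspose_eq_transpose_of_trivial] using this
  · conv_lhs => rw [hA.spectral_theorem, Unitary.conjStarAlgAut_apply]
    simp [star_eq_conjTranspose, conjTranspose_eq_transpose_of_trivial, Function.comp_def]

theorem tr_symm {A : Matrix n n ℝ} (hA : A.PosDef) : Aᵀ = A := by
  have := hA.isHermitian
  rwa [Matrix.IsHermitian, conjTranspose_eq_transpose_of_trivial] at this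

theorem posDef_spec {A : Matrix n n ℝ} (hA : A.PosDef) :
    ∃ (U : Matrix n n ℝ) (a : n → ℝ), U * Uᵀ = 1 ∧ Uᵀ * U = 1 ∧ (∀ i, 0 < a i) ∧
      A = U * diagonal a * Uᵀ := by
  obtain ⟨U, a, h1, h2, h3⟩ := spec hA.isHermitian
  refine ⟨U, a, h1, h2, ?_, h3⟩
  have h4 : (Uᴴ * A * U).PosDef := by
    apply hA.conjTranspose_mul_mul_same
    intro x y hxy
    have := congrArg (Uᵀ *ᵥ ·) hxy
    simpa [mulVec_mulVec, h2] using this
  have h5 : Uᴴ * A * U = diagonal a := by
    rw [conjTranspose_eq_transpose_of_trivial, h3]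
    calc Uᵀ * (U * diagonal a * Uᵀ) * U = (Uᵀ * U) * diagonal a * (Uᵀ * U) := by
          simp only [Matrix.mul_assoc]
      _ = diagonal a := by rw [h2]; simp
  rw [h5] at h4
  exact Matrix.posDef_diagonal_iff.mp h4

theorem cong_posDef {A g : Matrix n n ℝ} (hA : A.PosDef) (hg : IsUnit g.det) :
    (gᵀ * A * g).PosDef := by
  have := hA.conjTranspose_mul_mul_same (B := g) (by
    intro x y hxy
    have := congrArg (g⁻¹ *ᵥ ·) hxy
    simpa [mulVec_mulVec, Matrix.nonsing_inv_mul _ hg] using this)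
  rwa [conjTranspose_eq_transpose_of_trivial] at this

/-- simultaneous diagonalisation -/
theorem simul {A B : Matrix n n ℝ} (hA : A.PosDef) (hB : B.PosDef) :
    ∃ (g : Matrix n n ℝ) (d : n → ℝ), IsUnit g.det ∧ (∀ i, 0 < d i) ∧
      gᵀ * A * g = 1 ∧ gᵀ * B * g = diagonal d := by
  obtain ⟨U, a, h1, h2, ha, h3⟩ := posDef_spec hA
  set S : Matrix n n ℝ := U * diagonal (fun i => (Real.sqrt (a i))⁻¹) with hS
  have hSd : IsUnit S.det := by
    rw [hS, det_mul, det_diagonal]
    refine IsUnit.mul ?_ ?_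
    · exact (Matrix.isUnit_iff_isUnit_det U).mp ⟨⟨U, Uᵀ, h1, h2⟩, rfl⟩
    · rw [isUnit_iff_ne_zero]
      exact Finset.prod_ne_zero_iff.mpr fun i _ => inv_ne_zero (Real.sqrt_ne_zero'.mpr (ha i))
  have hSA : Sᵀ * A * S = 1 := by
    rw [hS, transpose_mul, diagonal_transpose, h3]
    calc diagonal (fun i => (Real.sqrt (a i))⁻¹) * Uᵀ * (U * diagonal a * Uᵀ) *
          (U * diagonal (fun i => (Real.sqrt (a i))⁻¹))
        = diagonal (fun i => (Real.sqrt (a i))⁻¹) * (Uᵀ * U) * diagonal a * (Uᵀ * U) *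
          diagonal (fun i => (Real.sqrt (a i))⁻¹) := by simp only [Matrix.mul_assoc]
      _ = 1 := by
          rw [h2]
          simp only [Matrix.mul_one, diagonal_mul_diagonal]
          rw [← diagonal_one]
          congr 1
          ext i
          have := Real.mul_self_sqrt (ha i).le
          have h := Real.sqrt_ne_zero'.mpr (ha i)
          field_simp
          nlinarith
  obtain ⟨V, d, h4, h5, hd, h6⟩ := posDef_spec (cong_posDef hB hSd)
  refine ⟨S * V, d, ?_, hd, ?_, ?_⟩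
  · rw [det_mul]
    exact hSd.mul ((Matrix.isUnit_iff_isUnit_det V).mp ⟨⟨V, Vᵀ, h4, h5⟩, rfl⟩)
  · rw [transpose_mul]
    calc Vᵀ * Sᵀ * A * (S * V) = Vᵀ * (Sᵀ * A * S) * V := by simp only [Matrix.mul_assoc]
      _ = 1 := by rw [hSA, Matrix.mul_one, h5]
  · rw [transpose_mul]
    calc Vᵀ * Sᵀ * B * (S * V) = Vᵀ * (Sᵀ * B * S) * V := by simp only [Matrix.mul_assoc]
      _ = (Vᵀ * V) * diagonal d * (Vᵀ * V) := by rw [h6]; simp only [Matrix.mul_assoc]
      _ = diagonal d := by rw [h5]; simp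

end PDAux

/-- The square of the distance of two positive definite matrices: the sum of the squares of the
logarithms of the eigenvalues of `A⁻¹ * B`. -/
noncomputable def dsq {n : Type} [Fintype n] [DecidableEq n] (A B : Matrix n n ℝ) : ℝ :=
  (((A⁻¹ * B).charpoly.roots).map (fun x => Real.log x ^ 2)).sum

namespace PDAux

variable {n : Type} [Fintype n] [DecidableEq n]

theorem inv_mul_eq {A B g : Matrix n n ℝ} {d : n → ℝ} (hg : IsUnit g.det)
    (h1 : gᵀ * A * g = 1) (h2 : gᵀ * B * g = diagonal d) :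
    A⁻¹ * B = g * diagonal d * g⁻¹ := by
  have hgt : IsUnit gᵀ.det := by rwa [det_transpose]
  have hA : A = gᵀ⁻¹ * g⁻¹ := by
    calc A = (gᵀ⁻¹ * gᵀ) * A * (g * g⁻¹) := by
          rw [Matrix.nonsing_inv_mul _ hgt, Matrix.mul_nonsing_inv _ hg]; simp
      _ = gᵀ⁻¹ * (gᵀ * A * g) * g⁻¹ := by simp only [Matrix.mul_assoc]
      _ = gᵀ⁻¹ * g⁻¹ := by rw [h1, Matrix.mul_one]
  have hAi : A⁻¹ = g * gᵀ := by
    apply Matrix.inv_eq_right_inv
    rw [hA]
    calc gᵀ⁻¹ * g⁻¹ * (g * gᵀ) = gᵀ⁻¹ * (g⁻¹ * g) * gᵀ := by simp only [Matrix.mul_assoc]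
      _ = 1 := by
        rw [Matrix.nonsing_inv_mul _ hg, Matrix.mul_one, Matrix.nonsing_inv_mul _ hgt]
  have hB : B = gᵀ⁻¹ * diagonal d * g⁻¹ := by
    calc B = (gᵀ⁻¹ * gᵀ) * B * (g * g⁻¹) := by
          rw [Matrix.nonsing_inv_mul _ hgt, Matrix.mul_nonsing_inv _ hg]; simp
      _ = gᵀ⁻¹ * (gᵀ * B * g) * g⁻¹ := by simp only [Matrix.mul_assoc]
      _ = gᵀ⁻¹ * diagonal d * g⁻¹ := by rw [h2]
  rw [hAi, hB]
  calc g * gᵀ * (gᵀ⁻¹ * diagonal d * g⁻¹) = g * (gᵀ * gᵀ⁻¹) * diagonal d * g⁻¹ := by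
        simp only [Matrix.mul_assoc]
    _ = g * diagonal d * g⁻¹ := by rw [Matrix.mul_nonsing_inv _ hgt, Matrix.mul_one]

theorem roots_simul {A B g : Matrix n n ℝ} {d : n → ℝ} (hg : IsUnit g.det)
    (h1 : gᵀ * A * g = 1) (h2 : gᵀ * B * g = diagonal d) :
    (A⁻¹ * B).charpoly.roots = Finset.univ.val.map d := by
  rw [inv_mul_eq hg h1 h2, Matrix.charpoly_mul_comm, ← Matrix.mul_assoc,
    Matrix.nonsing_inv_mul _ hg, Matrix.one_mul, charpoly_diagonal, Polynomial.roots_prod]
  · simp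
  · simp [Finset.prod_ne_zero_iff, Polynomial.X_sub_C_ne_zero]

theorem dsq_simul {A B g : Matrix n n ℝ} {d : n → ℝ} (hg : IsUnit g.det)
    (h1 : gᵀ * A * g = 1) (h2 : gᵀ * B * g = diagonal d) :
    dsq A B = ∑ i, Real.log (d i) ^ 2 := by
  rw [dsq, roots_simul hg h1 h2, Multiset.map_map]
  rfl

theorem dsq_cong (A B g : Matrix n n ℝ) (hg : IsUnit g.det) :
    dsq (gᵀ * A * g) (gᵀ * B * g) = dsq A B := by
  have hgt : IsUnit gᵀ.det := by rwa [det_transpose]
  have : (gᵀ * A * g)⁻¹ * (gᵀ * B * g) = g⁻¹ * (A⁻¹ * B) * g := by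
    rw [Matrix.mul_inv_rev, Matrix.mul_inv_rev]
    calc g⁻¹ * (A⁻¹ * gᵀ⁻¹) * (gᵀ * B * g) = g⁻¹ * A⁻¹ * (gᵀ⁻¹ * gᵀ) * B * g := by
          simp only [Matrix.mul_assoc]
      _ = g⁻¹ * (A⁻¹ * B) * g := by
          rw [Matrix.nonsing_inv_mul _ hgt, Matrix.mul_one]; simp only [Matrix.mul_assoc]
  rw [dsq, dsq, this, Matrix.mul_assoc, Matrix.charpoly_mul_comm, Matrix.mul_assoc,
    Matrix.mul_nonsing_inv _ hg, Matrix.mul_one]

theorem dsq_nonneg {A B : Matrix n n ℝ} (hA : A.PosDef) (hB : B.PosDef) : 0 ≤ dsq A B := by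
  obtain ⟨g, d, hg, -, h1, h2⟩ := simul hA hB
  rw [dsq_simul hg h1 h2]
  exact Finset.sum_nonneg fun i _ => sq_nonneg _

end PDAux

namespace PDAux

variable {n : Type} [Fintype n] [DecidableEq n]

/-- Frobenius norm, squared -/
def hs2 (M : Matrix n n ℝ) : ℝ := ∑ i, ∑ j, M i j ^ 2

/-- Frobenius norm -/
noncomputable def hs (M : Matrix n n ℝ) : ℝ := Real.sqrt (hs2 M)

omit [DecidableEq n] in
theorem hs2_nonneg (M : Matrix n n ℝ) : 0 ≤ hs2 M :=
  Finset.sum_nonneg fun _ _ => Finset.sum_nonneg fun _ _ => sq_nonneg _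

omit [DecidableEq n] in
theorem hs_sq (M : Matrix n n ℝ) : hs M ^ 2 = hs2 M := Real.sq_sqrt (hs2_nonneg M)

omit [DecidableEq n] in
theorem hs_nonneg (M : Matrix n n ℝ) : 0 ≤ hs M := Real.sqrt_nonneg _

omit [DecidableEq n] in
theorem hs2_trace (M : Matrix n n ℝ) : hs2 M = (Mᵀ * M).trace := by
  rw [hs2, Finset.sum_comm, trace]
  simp only [diag_apply, mul_apply, transpose_apply]
  exact Finset.sum_congr rfl fun i _ => Finset.sum_congr rfl fun j _ => by ring

omit [DecidableEq n] in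
theorem hs_triangle (M M' : Matrix n n ℝ) : hs (M + M') ≤ hs M + hs M' := by
  have key : ∀ M : Matrix n n ℝ, hs M = ‖(WithLp.toLp 2 (fun p : n × n => M p.1 p.2) :
      EuclideanSpace ℝ (n × n))‖ := by
    intro M
    rw [hs, EuclideanSpace.norm_eq, hs2, Fintype.sum_prod_type]
    simp [sq_abs]
  rw [key, key, key]
  exact norm_add_le (WithLp.toLp 2 (fun p : n × n => M p.1 p.2) : EuclideanSpace ℝ (n × n))
    (WithLp.toLp 2 (fun p : n × n => M' p.1 p.2))

omit [DecidableEq n] in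
theorem hs_neg (M : Matrix n n ℝ) : hs (-M) = hs M := by
  rw [hs, hs, hs2, hs2]; simp

theorem hs2_orth {U V : Matrix n n ℝ} (hU : U * Uᵀ = 1) (hV : V * Vᵀ = 1) (M : Matrix n n ℝ) :
    hs2 (Uᵀ * M * V) = hs2 M := by
  rw [hs2_trace, hs2_trace, transpose_mul, transpose_mul, transpose_transpose]
  calc (Vᵀ * (Mᵀ * U) * (Uᵀ * M * V)).trace = (Vᵀ * (Mᵀ * (U * Uᵀ) * M * V)).trace := by
        simp only [Matrix.mul_assoc]
    _ = ((Mᵀ * M * V) * Vᵀ).trace := by rw [hU, Matrix.mul_one, trace_mul_comm]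
    _ = (Mᵀ * M).trace := by rw [Matrix.mul_assoc, hV, Matrix.mul_one]

/-- `X` is the logarithm of `A` -/
def IsLog (A X : Matrix n n ℝ) : Prop :=
  ∃ (U : Matrix n n ℝ) (a : n → ℝ), U * Uᵀ = 1 ∧ Uᵀ * U = 1 ∧
    A = U * diagonal (fun i => Real.exp (a i)) * Uᵀ ∧ X = U * diagonal a * Uᵀ

theorem exists_log {A : Matrix n n ℝ} (hA : A.PosDef) : ∃ X, IsLog A X := by
  obtain ⟨U, a, h1, h2, ha, h3⟩ := posDef_spec hA
  refine ⟨_, U, fun i => Real.log (a i), h1, h2, ?_, rfl⟩
  rw [h3]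
  congr 3
  ext i
  exact (Real.exp_log (ha i)).symm

/-- the quantity `tr (A⁻¹ B) + tr (B⁻¹ A) - 2 n` -/
noncomputable def del (A B : Matrix n n ℝ) : ℝ :=
  (A⁻¹ * B).trace + (B⁻¹ * A).trace - 2 * Fintype.card n

theorem inv_spec {U : Matrix n n ℝ} {a : n → ℝ} (h1 : U * Uᵀ = 1) (h2 : Uᵀ * U = 1) :
    (U * diagonal (fun i => Real.exp (a i)) * Uᵀ)⁻¹ =
      U * diagonal (fun i => Real.exp (-a i)) * Uᵀ := by
  apply Matrix.inv_eq_right_inv
  calc U * diagonal (fun i => Real.exp (a i)) * Uᵀ * (U * diagonal (fun i => Real.exp (-a i)) * Uᵀ)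
      = U * diagonal (fun i => Real.exp (a i)) * (Uᵀ * U) *
        diagonal (fun i => Real.exp (-a i)) * Uᵀ := by simp only [Matrix.mul_assoc]
    _ = U * (diagonal (fun i => Real.exp (a i)) * diagonal (fun i => Real.exp (-a i))) * Uᵀ := by
        rw [h2, Matrix.mul_one]; simp only [Matrix.mul_assoc]
    _ = 1 := by
        rw [diagonal_mul_diagonal]
        have : (fun i => Real.exp (a i) * Real.exp (-a i)) = fun _ : n => (1 : ℝ) := by
          ext i; rw [← Real.exp_add]; simp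
        rw [this, diagonal_one, Matrix.mul_one, h1]

theorem trace_two {U V : Matrix n n ℝ} (a b : n → ℝ) :
    ((U * diagonal a * Uᵀ) * (V * diagonal b * Vᵀ)).trace =
      ∑ i, ∑ j, (Uᵀ * V) i j ^ 2 * (a i * b j) := by
  have : ((U * diagonal a * Uᵀ) * (V * diagonal b * Vᵀ)).trace =
      ((diagonal a * (Uᵀ * V) * diagonal b) * (Uᵀ * V)ᵀ).trace := by
    rw [transpose_mul, transpose_transpose]
    calc ((U * diagonal a * Uᵀ) * (V * diagonal b * Vᵀ)).trace
        = (U * (diagonal a * Uᵀ * V * diagonal b * Vᵀ)).trace := by simp only [Matrix.mul_assoc]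
      _ = ((diagonal a * Uᵀ * V * diagonal b * Vᵀ) * U).trace := trace_mul_comm _ _
      _ = _ := by simp only [Matrix.mul_assoc]
  rw [this, trace]
  refine Finset.sum_congr rfl fun i _ => ?_
  rw [diag_apply, mul_apply]
  refine Finset.sum_congr rfl fun j _ => ?_
  rw [mul_diagonal, diagonal_mul, transpose_apply]
  ring

theorem sum_orth {W : Matrix n n ℝ} (hW : W * Wᵀ = 1) : ∑ i, ∑ j, W i j ^ 2 = Fintype.card n := by
  have h : ∀ i, ∑ j, W i j ^ 2 = 1 := by
    intro i
    have := congrFun (congrFun hW i) i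
    rw [mul_apply, one_apply_eq] at this
    rw [← this]
    exact Finset.sum_congr rfl fun j _ => by rw [transpose_apply]; ring
  simp [h]

theorem sq_le_cosh (x : ℝ) : x ^ 2 ≤ Real.exp x + Real.exp (-x) - 2 := by
  have h1 : Real.exp x + Real.exp (-x) - 2 = 4 * Real.sinh (x / 2) ^ 2 := by
    rw [Real.sinh_eq]
    have : Real.exp x = Real.exp (x/2) ^ 2 := by rw [← Real.exp_nat_mul]; congr 1; push_cast; ring
    have h' : Real.exp (-x) = Real.exp (-(x/2)) ^ 2 := by
      rw [← Real.exp_nat_mul]; congr 1; push_cast; ring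
    have h3 : Real.exp (x/2) * Real.exp (-(x/2)) = 1 := by rw [← Real.exp_add]; simp
    rw [this, h']
    nlinarith
  rw [h1]
  have h2 : |x / 2| ≤ |Real.sinh (x / 2)| := by
    rcases le_total 0 (x/2) with h | h
    · rw [abs_of_nonneg h, abs_of_nonneg (Real.sinh_nonneg_iff.mpr h)]
      exact Real.self_le_sinh_iff.mpr h
    · rw [abs_of_nonpos h, abs_of_nonpos (Real.sinh_nonpos_iff.mpr h)]
      have := Real.sinh_le_self_iff.mpr h
      linarith
  have := sq_le_sq' (by have := abs_nonneg (x/2); have := abs_nonneg (Real.sinh (x/2)); linarith) h2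
  rw [sq_abs, sq_abs] at this
  nlinarith

/-- the logarithm is a contraction from `del` -/
theorem log_le_del {A B X Y : Matrix n n ℝ} (hX : IsLog A X) (hY : IsLog B Y) :
    hs2 (Y - X) ≤ del A B := by
  obtain ⟨U, a, h1, h2, h3, h4⟩ := hX
  obtain ⟨V, b, k1, k2, k3, k4⟩ := hY
  set W := Uᵀ * V with hW
  have hWW : W * Wᵀ = 1 := by
    rw [hW, transpose_mul, transpose_transpose]
    calc Uᵀ * V * (Vᵀ * U) = Uᵀ * (V * Vᵀ) * U := by simp only [Matrix.mul_assoc]
      _ = 1 := by rw [k1, Matrix.mul_one, h2]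
  have e1 : hs2 (Y - X) = ∑ i, ∑ j, W i j ^ 2 * (b j - a i) ^ 2 := by
    rw [← hs2_orth h1 k1, hs2]
    refine Finset.sum_congr rfl fun i _ => Finset.sum_congr rfl fun j _ => ?_
    have : Uᵀ * (Y - X) * V = W * diagonal b - diagonal a * W := by
      rw [h4, k4, Matrix.mul_sub, Matrix.sub_mul]
      congr 1
      · calc Uᵀ * (V * diagonal b * Vᵀ) * V = Uᵀ * V * diagonal b * (Vᵀ * V) := by
              simp only [Matrix.mul_assoc]
          _ = W * diagonal b := by rw [k2, Matrix.mul_one]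
      · calc Uᵀ * (U * diagonal a * Uᵀ) * V = (Uᵀ * U) * diagonal a * (Uᵀ * V) := by
              simp only [Matrix.mul_assoc]
          _ = diagonal a * W := by rw [h2, Matrix.one_mul]
    rw [this, Matrix.sub_apply, mul_diagonal, diagonal_mul]
    ring
  have e2 : del A B = ∑ i, ∑ j, W i j ^ 2 *
      (Real.exp (b j - a i) + Real.exp (-(b j - a i)) - 2) := by
    have t1 : (A⁻¹ * B).trace = ∑ i, ∑ j, W i j ^ 2 * Real.exp (b j - a i) := by
      rw [h3, k3, inv_spec h1 h2, trace_two]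
      refine Finset.sum_congr rfl fun i _ => Finset.sum_congr rfl fun j _ => ?_
      rw [← Real.exp_add]; congr 2; ring
    have t2 : (B⁻¹ * A).trace = ∑ i, ∑ j, W i j ^ 2 * Real.exp (-(b j - a i)) := by
      rw [trace_mul_comm, h3, k3, inv_spec k1 k2, trace_two]
      refine Finset.sum_congr rfl fun i _ => Finset.sum_congr rfl fun j _ => ?_
      rw [← Real.exp_add]; congr 2; ring
    have t3 : (2 * Fintype.card n : ℝ) = ∑ i, ∑ j, W i j ^ 2 * 2 := by
      rw [← sum_orth hWW, Finset.mul_sum]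
      refine Finset.sum_congr rfl fun i _ => ?_
      rw [Finset.mul_sum]
      exact Finset.sum_congr rfl fun j _ => by ring
    rw [del, t1, t2, t3, ← Finset.sum_add_distrib, ← Finset.sum_sub_distrib]
    refine Finset.sum_congr rfl fun i _ => ?_
    rw [← Finset.sum_add_distrib, ← Finset.sum_sub_distrib]
    exact Finset.sum_congr rfl fun j _ => by ring
  rw [e1, e2]
  refine Finset.sum_le_sum fun i _ => Finset.sum_le_sum fun j _ => ?_
  exact mul_le_mul_of_nonneg_left (sq_le_cosh _) (sq_nonneg _)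

end PDAux

namespace PDAux

variable {n : Type} [Fintype n] [DecidableEq n]

theorem cosh_bd (x : ℝ) : Real.exp x + Real.exp (-x) - 2 ≤ x ^ 2 * Real.exp (x ^ 2 / 2) := by
  have h1 := Real.cosh_le_exp_half_sq x
  rw [Real.cosh_eq] at h1
  have h2 : Real.exp (x ^ 2 / 2) - 1 ≤ x ^ 2 / 2 * Real.exp (x ^ 2 / 2) := by
    have h3 := Real.add_one_le_exp (-(x ^ 2 / 2))
    have h4 : Real.exp (-(x ^ 2 / 2)) * Real.exp (x ^ 2 / 2) = 1 := by
      rw [← Real.exp_add]; simp
    have h5 := Real.exp_pos (x ^ 2 / 2)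
    nlinarith
  linarith

/-- simultaneous diagonalisation, exponential form -/
theorem simulE {A B : Matrix n n ℝ} (hA : A.PosDef) (hB : B.PosDef) :
    ∃ (g : Matrix n n ℝ) (c : n → ℝ), IsUnit g.det ∧
      gᵀ * A * g = 1 ∧ gᵀ * B * g = diagonal (fun i => Real.exp (c i)) := by
  obtain ⟨g, d, hg, hd, h1, h2⟩ := simul hA hB
  refine ⟨g, fun i => Real.log (d i), hg, h1, ?_⟩
  rw [h2]
  congr 1
  ext i
  exact (Real.exp_log (hd i)).symm

theorem dsqE {A B g : Matrix n n ℝ} {c : n → ℝ} (hg : IsUnit g.det)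
    (h1 : gᵀ * A * g = 1) (h2 : gᵀ * B * g = diagonal (fun i => Real.exp (c i))) :
    dsq A B = ∑ i, c i ^ 2 := by
  rw [dsq_simul hg h1 h2]
  simp

theorem inv_cong {A g : Matrix n n ℝ} (hg : IsUnit g.det) {D : Matrix n n ℝ}
    (h1 : gᵀ * A * g = D) : A = (g⁻¹)ᵀ * D * g⁻¹ := by
  have hgt : IsUnit gᵀ.det := by rwa [det_transpose]
  rw [← h1, Matrix.transpose_nonsing_inv]
  calc A = (gᵀ⁻¹ * gᵀ) * A * (g * g⁻¹) := by
        rw [Matrix.nonsing_inv_mul _ hgt, Matrix.mul_nonsing_inv _ hg]; simp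
    _ = gᵀ⁻¹ * (gᵀ * A * g) * g⁻¹ := by simp only [Matrix.mul_assoc]

theorem delE {A B g : Matrix n n ℝ} {c : n → ℝ} (hg : IsUnit g.det)
    (h1 : gᵀ * A * g = 1) (h2 : gᵀ * B * g = diagonal (fun i => Real.exp (c i))) :
    del A B = ∑ i, (Real.exp (c i) + Real.exp (-c i) - 2) := by
  have e1 : A⁻¹ * B = g * diagonal (fun i => Real.exp (c i)) * g⁻¹ := inv_mul_eq hg h1 h2
  have e2 : B⁻¹ * A = g * diagonal (fun i => Real.exp (-c i)) * g⁻¹ := by
    have hA := inv_cong hg h1
    have hB := inv_cong hg h2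
    have hgt : IsUnit gᵀ.det := by rwa [det_transpose]
    have hBi : B⁻¹ = g * diagonal (fun i => Real.exp (-c i)) * gᵀ := by
      apply Matrix.inv_eq_right_inv
      rw [hB, Matrix.transpose_nonsing_inv]
      calc gᵀ⁻¹ * diagonal (fun i => Real.exp (c i)) * g⁻¹ *
            (g * diagonal (fun i => Real.exp (-c i)) * gᵀ)
          = gᵀ⁻¹ * diagonal (fun i => Real.exp (c i)) * (g⁻¹ * g) *
            diagonal (fun i => Real.exp (-c i)) * gᵀ := by simp only [Matrix.mul_assoc]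
        _ = gᵀ⁻¹ * (diagonal (fun i => Real.exp (c i)) *
            diagonal (fun i => Real.exp (-c i))) * gᵀ := by
              rw [Matrix.nonsing_inv_mul _ hg, Matrix.mul_one]; simp only [Matrix.mul_assoc]
        _ = 1 := by
            rw [diagonal_mul_diagonal]
            have : (fun i => Real.exp (c i) * Real.exp (-c i)) = fun _ : n => (1 : ℝ) := by
              ext i; rw [← Real.exp_add]; simp
            rw [this, diagonal_one, Matrix.mul_one, Matrix.nonsing_inv_mul _ hgt]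
    rw [hBi, hA, Matrix.mul_one, Matrix.transpose_nonsing_inv]
    calc g * diagonal (fun i => Real.exp (-c i)) * gᵀ * (gᵀ⁻¹ * g⁻¹)
        = g * diagonal (fun i => Real.exp (-c i)) * (gᵀ * gᵀ⁻¹) * g⁻¹ := by
          simp only [Matrix.mul_assoc]
      _ = _ := by rw [Matrix.mul_nonsing_inv _ hgt, Matrix.mul_one]
  have tr : ∀ D : Matrix n n ℝ, (g * D * g⁻¹).trace = D.trace := by
    intro D
    rw [trace_mul_comm, ← Matrix.mul_assoc, Matrix.nonsing_inv_mul _ hg, Matrix.one_mul]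
  rw [del, e1, e2, tr, tr, trace_diagonal, trace_diagonal, Finset.sum_sub_distrib,
    Finset.sum_add_distrib]
  simp
  ring

theorem dsq_le_del {A B : Matrix n n ℝ} (hA : A.PosDef) (hB : B.PosDef) :
    dsq A B ≤ del A B := by
  obtain ⟨g, c, hg, h1, h2⟩ := simulE hA hB
  rw [dsqE hg h1 h2, delE hg h1 h2]
  exact Finset.sum_le_sum fun i _ => sq_le_cosh _

theorem del_le {A B : Matrix n n ℝ} (hA : A.PosDef) (hB : B.PosDef) :
    del A B ≤ dsq A B * Real.exp (dsq A B / 2) := by
  obtain ⟨g, c, hg, h1, h2⟩ := simulE hA hB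
  rw [dsqE hg h1 h2, delE hg h1 h2, Finset.sum_mul]
  refine Finset.sum_le_sum fun i _ => (cosh_bd _).trans ?_
  gcongr
  exact Finset.single_le_sum (f := fun i => c i ^ 2) (fun j _ => sq_nonneg _) (Finset.mem_univ i)

/-- the geodesic in diagonalising coordinates -/
noncomputable def ga (g : Matrix n n ℝ) (c : n → ℝ) (t : ℝ) : Matrix n n ℝ :=
  (g⁻¹)ᵀ * diagonal (fun i => Real.exp (t * c i)) * g⁻¹

theorem ga_cong {g : Matrix n n ℝ} (hg : IsUnit g.det) (c : n → ℝ) (t : ℝ) :
    gᵀ * ga g c t * g = diagonal (fun i => Real.exp (t * c i)) := by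
  have hgt : IsUnit gᵀ.det := by rwa [det_transpose]
  rw [ga, Matrix.transpose_nonsing_inv]
  calc gᵀ * (gᵀ⁻¹ * diagonal (fun i => Real.exp (t * c i)) * g⁻¹) * g
      = (gᵀ * gᵀ⁻¹) * diagonal (fun i => Real.exp (t * c i)) * (g⁻¹ * g) := by
        simp only [Matrix.mul_assoc]
    _ = _ := by
        rw [Matrix.mul_nonsing_inv _ hgt, Matrix.nonsing_inv_mul _ hg, Matrix.one_mul,
          Matrix.mul_one]

theorem ga_posDef {g : Matrix n n ℝ} (hg : IsUnit g.det) (c : n → ℝ) (t : ℝ) :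
    (ga g c t).PosDef := by
  have hgi : IsUnit (g⁻¹).det := Matrix.isUnit_nonsing_inv_det _ hg
  exact cong_posDef (Matrix.posDef_diagonal_iff.mpr fun i => Real.exp_pos _) hgi

theorem ga_zero {A g : Matrix n n ℝ} (hg : IsUnit g.det) (h1 : gᵀ * A * g = 1) (c : n → ℝ) :
    ga g c 0 = A := by
  rw [inv_cong hg h1, ga]
  simp

theorem ga_one {B g : Matrix n n ℝ} {c : n → ℝ} (hg : IsUnit g.det)
    (h2 : gᵀ * B * g = diagonal (fun i => Real.exp (c i))) : ga g c 1 = B := by
  rw [inv_cong hg h2, ga]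
  simp

/-- coordinates centred at `ga g c s` -/
noncomputable def sh (g : Matrix n n ℝ) (c : n → ℝ) (s : ℝ) : Matrix n n ℝ :=
  g * diagonal (fun i => Real.exp (-(s * c i) / 2))

theorem sh_det {g : Matrix n n ℝ} (hg : IsUnit g.det) (c : n → ℝ) (s : ℝ) :
    IsUnit (sh g c s).det := by
  rw [sh, det_mul, det_diagonal]
  refine hg.mul ?_
  rw [isUnit_iff_ne_zero]
  exact Finset.prod_ne_zero_iff.mpr fun i _ => (Real.exp_pos _).ne'

theorem sh_cong {g : Matrix n n ℝ} (hg : IsUnit g.det) (c : n → ℝ) (s t : ℝ) :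
    (sh g c s)ᵀ * ga g c t * sh g c s = diagonal (fun i => Real.exp ((t - s) * c i)) := by
  rw [sh, transpose_mul, diagonal_transpose]
  calc diagonal (fun i => Real.exp (-(s * c i) / 2)) * gᵀ * ga g c t *
        (g * diagonal (fun i => Real.exp (-(s * c i) / 2)))
      = diagonal (fun i => Real.exp (-(s * c i) / 2)) * (gᵀ * ga g c t * g) *
        diagonal (fun i => Real.exp (-(s * c i) / 2)) := by simp only [Matrix.mul_assoc]
    _ = _ := by
        rw [ga_cong hg, diagonal_mul_diagonal, diagonal_mul_diagonal]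
        congr 1
        ext i
        rw [← Real.exp_add, ← Real.exp_add]
        congr 1
        ring

theorem sh_cong_self {g : Matrix n n ℝ} (hg : IsUnit g.det) (c : n → ℝ) (s : ℝ) :
    (sh g c s)ᵀ * ga g c s * sh g c s = 1 := by
  rw [sh_cong hg]
  simp

theorem dsq_ga {g : Matrix n n ℝ} (hg : IsUnit g.det) (c : n → ℝ) (s t : ℝ) :
    dsq (ga g c s) (ga g c t) = (t - s) ^ 2 * ∑ i, c i ^ 2 := by
  rw [dsqE (sh_det hg c s) (sh_cong_self hg c s) (sh_cong hg c s t), Finset.mul_sum]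
  exact Finset.sum_congr rfl fun i _ => by ring

theorem log_chain {A B X Y : Matrix n n ℝ} (hA : A.PosDef) (hB : B.PosDef)
    (hX : IsLog A X) (hY : IsLog B Y) (N : ℕ) (hN : 0 < N) :
    hs (Y - X) ≤ N * Real.sqrt (dsq A B / N ^ 2 * Real.exp (dsq A B / N ^ 2 / 2)) := by
  obtain ⟨g, c, hg, h1, h2⟩ := simulE hA hB
  have hex : ∀ k : ℕ, ∃ L, IsLog (ga g c (k / N)) L ∧ (k = 0 → L = X) ∧ (k = N → L = Y) := by
    intro k
    by_cases hk : k = 0
    · refine ⟨X, ?_, fun _ => rfl, fun h => absurd (hk ▸ h) (by omega)⟩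
      rw [hk]; simp only [Nat.cast_zero, zero_div]
      rwa [ga_zero hg h1]
    by_cases hk' : k = N
    · refine ⟨Y, ?_, fun h => absurd h hk, fun _ => rfl⟩
      have hN' : (N : ℝ) ≠ 0 := by positivity
      rw [hk', div_self hN', ga_one hg h2]
      exact hY
    · obtain ⟨L, hL⟩ := exists_log (ga_posDef hg c (k / N))
      exact ⟨L, hL, fun h => absurd h hk, fun h => absurd h hk'⟩
  choose L hL hL0 hLN using hex
  have hstep : ∀ k : ℕ, hs (L (k + 1) - L k) ≤
      Real.sqrt (dsq A B / N ^ 2 * Real.exp (dsq A B / N ^ 2 / 2)) := by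
    intro k
    apply Real.sqrt_le_sqrt
    refine (log_le_del (hL k) (hL (k + 1))).trans ?_
    refine (del_le (ga_posDef hg c _) (ga_posDef hg c _)).trans (le_of_eq ?_)
    have : dsq (ga g c (k / N)) (ga g c ((k + 1 : ℕ) / N)) = dsq A B / N ^ 2 := by
      have hN' : (N : ℝ) ≠ 0 := by positivity
      rw [dsq_ga hg, dsqE hg h1 h2]
      push_cast
      field_simp
      ring
    rw [this]
  have hsum : ∀ k : ℕ, hs (L k - L 0) ≤
      k * Real.sqrt (dsq A B / N ^ 2 * Real.exp (dsq A B / N ^ 2 / 2)) := by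
    intro k
    induction k with
    | zero =>
      have : hs (L 0 - L 0) = 0 := by simp [hs, hs2]
      rw [this]; simp
    | succ k ih =>
      have e : L (k + 1) - L 0 = (L (k + 1) - L k) + (L k - L 0) := by abel
      rw [e]
      refine (hs_triangle _ _).trans ?_
      have := hstep k
      push_cast
      linarith
  have := hsum N
  rwa [hL0 0 rfl, hLN N rfl] at this

/-- exponential metric increasing property -/
theorem emi {A B X Y : Matrix n n ℝ} (hA : A.PosDef) (hB : B.PosDef)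
    (hX : IsLog A X) (hY : IsLog B Y) : hs2 (Y - X) ≤ dsq A B := by
  have h0 := dsq_nonneg hA hB
  have key : ∀ N : ℕ, 0 < N → hs2 (Y - X) ≤ dsq A B * Real.exp (dsq A B / N ^ 2 / 2) := by
    intro N hN
    have h1 := log_chain hA hB hX hY N hN
    have hN' : (0 : ℝ) < N := by positivity
    have h2 : hs (Y - X) ^ 2 ≤ (N * Real.sqrt (dsq A B / N ^ 2 *
        Real.exp (dsq A B / N ^ 2 / 2))) ^ 2 := pow_le_pow_left₀ (hs_nonneg _) h1 2
    rw [hs_sq, mul_pow, Real.sq_sqrt (by positivity)] at h2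
    refine h2.trans (le_of_eq ?_)
    field_simp
  have lim : Filter.Tendsto (fun N : ℕ => dsq A B * Real.exp (dsq A B / (N : ℝ) ^ 2 / 2))
      Filter.atTop (nhds (dsq A B * Real.exp (0 / 2))) := by
    have t1 : Filter.Tendsto (fun N : ℕ => dsq A B / (N : ℝ) ^ 2) Filter.atTop (nhds 0) := by
      apply Filter.Tendsto.div_atTop tendsto_const_nhds
      exact (Filter.tendsto_pow_atTop (by norm_num)).comp tendsto_natCast_atTop_atTop
    exact tendsto_const_nhds.mul ((Real.continuous_exp.tendsto _).comp (t1.div_const 2))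
  simp only [zero_div, Real.exp_zero, mul_one] at lim
  refine ge_of_tendsto lim ?_
  filter_upwards [Filter.eventually_gt_atTop 0] with N hN
  exact key N hN

theorem isLog_one : IsLog (1 : Matrix n n ℝ) 0 := by
  refine ⟨1, fun _ => 0, by simp, by simp, by simp, ?_⟩
  simp [Matrix.diagonal_zero]

theorem isLog_diag (a : n → ℝ) : IsLog (diagonal fun i => Real.exp (a i)) (diagonal a) :=
  ⟨1, a, by simp, by simp, by simp, by simp⟩

theorem dsq_one {B Y : Matrix n n ℝ} (hY : IsLog B Y) : dsq 1 B = hs2 Y := by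
  obtain ⟨U, a, h1, h2, h3, h4⟩ := hY
  have hU : IsUnit U.det := (Matrix.isUnit_iff_isUnit_det U).mp ⟨⟨U, Uᵀ, h1, h2⟩, rfl⟩
  have e1 : dsq 1 B = ∑ i, a i ^ 2 := by
    refine dsqE hU (by rw [Matrix.mul_one, h2]) ?_
    rw [h3]
    calc Uᵀ * (U * diagonal (fun i => Real.exp (a i)) * Uᵀ) * U
        = (Uᵀ * U) * diagonal (fun i => Real.exp (a i)) * (Uᵀ * U) := by
          simp only [Matrix.mul_assoc]
      _ = _ := by rw [h2]; simp
  have e2 : hs2 Y = hs2 (diagonal a) := by
    rw [← hs2_orth h1 h1 Y, h4]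
    congr 1
    calc Uᵀ * (U * diagonal a * Uᵀ) * U = (Uᵀ * U) * diagonal a * (Uᵀ * U) := by
          simp only [Matrix.mul_assoc]
      _ = _ := by rw [h2]; simp
  rw [e1, e2, hs2]
  refine Finset.sum_congr rfl fun i _ => ?_
  rw [Finset.sum_eq_single i]
  · simp
  · intro j _ hj; rw [diagonal_apply_ne _ (Ne.symm hj)]; ring
  · simp

theorem dsq_symm {A B : Matrix n n ℝ} (hA : A.PosDef) (hB : B.PosDef) : dsq A B = dsq B A := by
  obtain ⟨g, c, hg, h1, h2⟩ := simulE hA hB
  have e1 := ga_zero hg h1 c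
  have e2 := ga_one hg h2
  rw [← e1, ← e2, dsq_ga hg, dsq_ga hg]
  ring

theorem dsq_self {A : Matrix n n ℝ} (hA : A.PosDef) : dsq A A = 0 := by
  obtain ⟨g, c, hg, h1, h2⟩ := simulE hA hA
  have e1 := ga_zero hg h1 c
  rw [← e1, dsq_ga hg]
  ring

theorem dsq_tri {A B C : Matrix n n ℝ} (hA : A.PosDef) (hB : B.PosDef) (hC : C.PosDef) :
    Real.sqrt (dsq A C) ≤ Real.sqrt (dsq A B) + Real.sqrt (dsq B C) := by
  obtain ⟨g, c, hg, h1, -⟩ := simulE hA hB
  have hB' := cong_posDef hB hg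
  have hC' := cong_posDef hC hg
  rw [← dsq_cong A C g hg, ← dsq_cong A B g hg, ← dsq_cong B C g hg, h1]
  obtain ⟨X, hX⟩ := exists_log hB'
  obtain ⟨Y, hY⟩ := exists_log hC'
  rw [dsq_one hX, dsq_one hY]
  have e : Y = X + (Y - X) := by abel
  calc Real.sqrt (hs2 Y) = hs Y := rfl
    _ ≤ hs X + hs (Y - X) := by
        conv_lhs => rw [e]
        exact hs_triangle _ _
    _ ≤ Real.sqrt (hs2 X) + Real.sqrt (dsq (gᵀ * B * g) (gᵀ * C * g)) := by
        gcongr
        · rfl
        · exact Real.sqrt_le_sqrt (emi hB' hC' hX hY)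

theorem eq_of_dsq {A B : Matrix n n ℝ} (hA : A.PosDef) (hB : B.PosDef) (h : dsq A B = 0) :
    A = B := by
  obtain ⟨g, c, hg, h1, h2⟩ := simulE hA hB
  rw [dsqE hg h1 h2, Finset.sum_eq_zero_iff_of_nonneg (fun i _ => sq_nonneg _)] at h
  have hc : c = fun _ => 0 := by
    ext i
    have := h i (Finset.mem_univ i)
    exact pow_eq_zero_iff (two_ne_zero) |>.mp this
  rw [hc] at h2
  rw [inv_cong hg h1, inv_cong hg h2]
  simp

end PDAux


/-- The space of real positive definite matrices. -/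
structure PD (n : Type) [Fintype n] [DecidableEq n] where
  /-- the matrix -/
  M : Matrix n n ℝ
  /-- positivity -/
  pos : M.PosDef

namespace PD

open PDAux

variable {n : Type} [Fintype n] [DecidableEq n]

@[ext] theorem ext {A B : PD n} (h : A.M = B.M) : A = B := by
  cases A; cases B; cases h; rfl

noncomputable instance : Dist (PD n) := ⟨fun A B => Real.sqrt (dsq A.M B.M)⟩

theorem dist_def (A B : PD n) : dist A B = Real.sqrt (dsq A.M B.M) := rfl

theorem dist_sq (A B : PD n) : dist A B ^ 2 = dsq A.M B.M :=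
  Real.sq_sqrt (dsq_nonneg A.pos B.pos)

noncomputable instance : MetricSpace (PD n) where
  dist_self A := by rw [dist_def, dsq_self A.pos, Real.sqrt_zero]
  dist_comm A B := by rw [dist_def, dist_def, dsq_symm A.pos B.pos]
  dist_triangle A B C := dsq_tri A.pos B.pos C.pos
  eq_of_dist_eq_zero {A B} h := by
    rw [dist_def, Real.sqrt_eq_zero (dsq_nonneg A.pos B.pos)] at h
    exact PD.ext (eq_of_dsq A.pos B.pos h)

/-- Congruence. -/
def cg (g : Matrix n n ℝ) (hg : IsUnit g.det) (A : PD n) : PD n :=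
  ⟨gᵀ * A.M * g, cong_posDef A.pos hg⟩

theorem dist_cg (g : Matrix n n ℝ) (hg : IsUnit g.det) (A B : PD n) :
    dist (cg g hg A) (cg g hg B) = dist A B := by
  rw [dist_def, dist_def]
  exact congrArg Real.sqrt (dsq_cong A.M B.M g hg)

/-- Inverse. -/
noncomputable def iv (A : PD n) : PD n := ⟨A.M⁻¹, A.pos.inv⟩

theorem dist_iv (A B : PD n) : dist (iv A) (iv B) = dist A B := by
  rw [dist_def, dist_def]
  congr 1
  obtain ⟨g, c, hg, h1, h2⟩ := simulE A.pos B.pos
  have hgt : IsUnit gᵀ.det := by rwa [det_transpose]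
  have hk : IsUnit (gᵀ⁻¹).det := Matrix.isUnit_nonsing_inv_det _ hgt
  rw [dsqE hg h1 h2]
  have e : ∀ (C D : Matrix n n ℝ) (hC : C.PosDef), gᵀ * C * g = D →
      (gᵀ⁻¹)ᵀ * C⁻¹ * gᵀ⁻¹ = D⁻¹ := by
    intro C D hC h
    rw [← h, Matrix.mul_inv_rev, Matrix.mul_inv_rev, Matrix.transpose_nonsing_inv,
      transpose_transpose, Matrix.mul_assoc]
  have h1' := e _ _ A.pos h1
  have h2' := e _ _ B.pos h2
  rw [inv_one] at h1'
  have hd : (diagonal fun i => Real.exp (c i) : Matrix n n ℝ)⁻¹ =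
      diagonal fun i => Real.exp (-c i) := by
    apply Matrix.inv_eq_right_inv
    rw [diagonal_mul_diagonal, ← diagonal_one]
    congr 1
    ext i
    rw [← Real.exp_add]; simp
  rw [hd] at h2'
  have := dsqE hk h1' h2'
  rw [iv, iv, this]
  simp

/-- Geodesics. -/
noncomputable def gd (s : ℝ) (A B : PD n) : PD n :=
  ⟨ga (simulE A.pos B.pos).choose (simulE A.pos B.pos).choose_spec.choose s,
    ga_posDef (simulE A.pos B.pos).choose_spec.choose_spec.1 _ s⟩

/-- The inequality of Bruhat and Tits. -/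
theorem cn (s : ℝ) (hs : s ∈ Set.Icc (0 : ℝ) 1) (a b p : PD n) :
    dist p (gd s a b) ^ 2 ≤
      (1 - s) * dist p a ^ 2 + s * dist p b ^ 2 - s * (1 - s) * dist a b ^ 2 := by
  obtain ⟨hg, h1, h2⟩ := (simulE a.pos b.pos).choose_spec.choose_spec
  set g := (simulE a.pos b.pos).choose
  set c := (simulE a.pos b.pos).choose_spec.choose
  have hM : (gd s a b).M = ga g c s := rfl
  rw [dist_sq, dist_sq, dist_sq, dist_sq, hM]
  have hh := sh_det hg c s
  have ea := ga_zero hg h1 c
  have eb := ga_one hg h2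
  set h := sh g c s with hh'
  have hp' := cong_posDef p.pos hh
  obtain ⟨Y, hY⟩ := exists_log hp'
  have f0 : dsq p.M (ga g c s) = hs2 Y := by
    rw [← dsq_cong _ _ h hh, hh', sh_cong_self hg, ← hh', dsq_symm hp' Matrix.PosDef.one,
      dsq_one hY]
  have f1 : hs2 (diagonal (fun i => -s * c i) - Y) ≤ dsq p.M a.M := by
    have e1 : hᵀ * a.M * h = diagonal (fun i => Real.exp (-s * c i)) := by
      rw [← ea, hh', sh_cong hg]; simp
    rw [← dsq_cong _ _ h hh, e1]
    exact emi hp' (Matrix.posDef_diagonal_iff.mpr fun i => Real.exp_pos _) hY (isLog_diag _)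
  have f2 : hs2 (diagonal (fun i => (1 - s) * c i) - Y) ≤ dsq p.M b.M := by
    have e1 : hᵀ * b.M * h = diagonal (fun i => Real.exp ((1 - s) * c i)) := by
      rw [← eb, hh', sh_cong hg]
    rw [← dsq_cong _ _ h hh, e1]
    exact emi hp' (Matrix.posDef_diagonal_iff.mpr fun i => Real.exp_pos _) hY (isLog_diag _)
  have f3 : dsq a.M b.M = hs2 (diagonal c) := by
    rw [dsqE hg h1 h2, hs2]
    refine Finset.sum_congr rfl fun i _ => ?_
    rw [Finset.sum_eq_single i]
    · simp
    · intro j _ hj; rw [diagonal_apply_ne _ (Ne.symm hj)]; ring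
    · simp
  have key : hs2 Y = (1 - s) * hs2 (diagonal (fun i => -s * c i) - Y) +
      s * hs2 (diagonal (fun i => (1 - s) * c i) - Y) - s * (1 - s) * hs2 (diagonal c) := by
    simp only [hs2, Finset.mul_sum]
    rw [← Finset.sum_add_distrib, ← Finset.sum_sub_distrib]
    refine Finset.sum_congr rfl fun i _ => ?_
    rw [← Finset.sum_add_distrib, ← Finset.sum_sub_distrib]
    refine Finset.sum_congr rfl fun j _ => ?_
    rw [Matrix.sub_apply, Matrix.sub_apply]
    by_cases hij : i = j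
    · subst hij
      simp only [diagonal_apply_eq]
      ring
    · simp only [diagonal_apply_ne _ hij]
      ring
  rw [f0, key, f3]
  have := hs.1
  have := hs.2
  have g1 : (1 - s) * hs2 (diagonal (fun i => -s * c i) - Y) ≤ (1 - s) * dsq p.M a.M :=
    mul_le_mul_of_nonneg_left f1 (by linarith)
  have g2 : s * hs2 (diagonal (fun i => (1 - s) * c i) - Y) ≤ s * dsq p.M b.M :=
    mul_le_mul_of_nonneg_left f2 hs.1
  linarith

end PD


namespace PDAux

variable {n : Type} [Fintype n] [DecidableEq n]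

theorem exp_bd (a : ℝ) : (Real.exp a - 1) ^ 2 ≤ a ^ 2 * Real.exp (2 * |a|) := by
  have h : |Real.exp a - 1| ≤ |a| * Real.exp |a| := by
    rcases le_total 0 a with h | h
    · rw [abs_of_nonneg h, abs_of_nonneg (by linarith [Real.add_one_le_exp a])]
      have h1 := Real.add_one_le_exp (-a)
      have h2 : Real.exp (-a) * Real.exp a = 1 := by rw [← Real.exp_add]; simp
      nlinarith [Real.exp_pos a]
    · have h3 : Real.exp a ≤ 1 := Real.exp_le_one_iff.mpr h
      rw [abs_of_nonpos h, abs_of_nonpos (by linarith)]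
      have h1 := Real.add_one_le_exp a
      have h2 : 1 ≤ Real.exp (-a) := Real.one_le_exp (by linarith)
      nlinarith
  have h2 := pow_le_pow_left₀ (abs_nonneg _) h 2
  rw [sq_abs, mul_pow, sq_abs] at h2
  refine h2.trans (le_of_eq ?_)
  congr 1
  rw [← Real.exp_nat_mul]
  push_cast
  rfl

theorem hs2_diag (a : n → ℝ) : hs2 (diagonal a) = ∑ i, a i ^ 2 := by
  rw [hs2]
  refine Finset.sum_congr rfl fun i _ => ?_
  rw [Finset.sum_eq_single i]
  · simp
  · intro j _ hj; rw [diagonal_apply_ne _ (Ne.symm hj)]; ring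
  · simp

theorem sub_one_bd {B Y : Matrix n n ℝ} (hY : IsLog B Y) :
    hs2 (B - 1) ≤ hs2 Y * Real.exp (2 * Real.sqrt (hs2 Y)) := by
  obtain ⟨U, a, h1, h2, h3, h4⟩ := hY
  have e1 : hs2 (B - 1) = ∑ i, (Real.exp (a i) - 1) ^ 2 := by
    rw [← hs2_orth h1 h1, ← hs2_diag]
    congr 1
    rw [h3, Matrix.mul_sub, Matrix.sub_mul, Matrix.mul_one, h2]
    have : Uᵀ * (U * diagonal (fun i => Real.exp (a i)) * Uᵀ) * U =
        diagonal (fun i => Real.exp (a i)) := by
      calc Uᵀ * (U * diagonal (fun i => Real.exp (a i)) * Uᵀ) * U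
          = (Uᵀ * U) * diagonal (fun i => Real.exp (a i)) * (Uᵀ * U) := by
            simp only [Matrix.mul_assoc]
        _ = _ := by rw [h2]; simp
    rw [this, ← diagonal_one, diagonal_sub]
  have e2 : hs2 Y = ∑ i, a i ^ 2 := by
    rw [← hs2_orth h1 h1, ← hs2_diag, h4]
    congr 1
    calc Uᵀ * (U * diagonal a * Uᵀ) * U = (Uᵀ * U) * diagonal a * (Uᵀ * U) := by
          simp only [Matrix.mul_assoc]
      _ = _ := by rw [h2]; simp
  rw [e1, Finset.sum_congr rfl fun i _ => rfl]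
  conv_rhs => rw [e2, Finset.sum_mul]
  refine Finset.sum_le_sum fun i _ => (exp_bd _).trans ?_
  gcongr
  rw [← Real.sqrt_sq_eq_abs]
  apply Real.sqrt_le_sqrt
  exact Finset.single_le_sum (f := fun i => a i ^ 2) (fun j _ => sq_nonneg _) (Finset.mem_univ i)

theorem entry_le_hs2 (M : Matrix n n ℝ) (i j : n) : M i j ^ 2 ≤ hs2 M :=
  (Finset.single_le_sum (f := fun j => M i j ^ 2) (fun _ _ => sq_nonneg _)
    (Finset.mem_univ j)).trans
    (Finset.single_le_sum (f := fun i => ∑ j, M i j ^ 2)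
      (fun _ _ => Finset.sum_nonneg fun _ _ => sq_nonneg _) (Finset.mem_univ i))

theorem tendsto_of_hs2 {α : Type} {l : Filter α} {f : α → Matrix n n ℝ} {A : Matrix n n ℝ}
    (h : Filter.Tendsto (fun x => hs2 (f x - A)) l (nhds 0)) : Filter.Tendsto f l (nhds A) := by
  refine tendsto_pi_nhds.mpr fun i => tendsto_pi_nhds.mpr fun j => ?_
  rw [tendsto_iff_dist_tendsto_zero]
  have h2 : Filter.Tendsto (fun x => Real.sqrt (hs2 (f x - A))) l (nhds 0) := by
    have := (Real.continuous_sqrt.tendsto 0).comp h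
    rwa [Real.sqrt_zero] at this
  refine squeeze_zero (fun _ => dist_nonneg) (fun x => ?_) h2
  rw [Real.dist_eq]
  apply Real.le_sqrt_of_sq_le
  rw [sq_abs]
  exact entry_le_hs2 (f x - A) i j

end PDAux

namespace PD

open PDAux Filter Topology

variable {n : Type} [Fintype n] [DecidableEq n]

theorem tendsto_M {α : Type} {l : Filter α} {f : α → PD n} {A : PD n} (h : Tendsto f l (𝓝 A)) :
    Tendsto (fun x => (f x).M) l (𝓝 A.M) := by
  obtain ⟨g, c, hg, h1, -⟩ := simulE A.pos A.pos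
  have hd : Tendsto (fun x => dsq A.M (f x).M) l (𝓝 0) := by
    have := (tendsto_iff_dist_tendsto_zero.mp h).pow 2
    simp only [dist_sq] at this
    have e : ∀ x, dsq (f x).M A.M = dsq A.M (f x).M := fun x => dsq_symm (f x).pos A.pos
    simpa [e] using this
  have hB : Tendsto (fun x => gᵀ * (f x).M * g) l (𝓝 1) := by
    apply tendsto_of_hs2
    have lim : Tendsto (fun x => dsq A.M (f x).M * Real.exp (2 * Real.sqrt (dsq A.M (f x).M))) l
        (𝓝 0) := by
      have := hd.mul ((Real.continuous_exp.tendsto _).comp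
        (((Real.continuous_sqrt.tendsto _).comp hd).const_mul 2))
      simpa using this
    refine squeeze_zero (fun _ => hs2_nonneg _) (fun x => ?_) lim
    obtain ⟨Y, hY⟩ := exists_log (cong_posDef (f x).pos hg)
    have e : dsq A.M (f x).M = hs2 Y := by
      rw [← dsq_cong _ _ g hg, h1, dsq_one hY]
    rw [e]
    exact sub_one_bd hY
  have e : ∀ x, (f x).M = (g⁻¹)ᵀ * (gᵀ * (f x).M * g) * g⁻¹ := fun x => inv_cong hg rfl
  have eA : A.M = (g⁻¹)ᵀ * 1 * g⁻¹ := inv_cong hg h1
  rw [eA]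
  have c1 : Continuous fun D : Matrix n n ℝ => (g⁻¹)ᵀ * D * g⁻¹ := by fun_prop
  exact ((c1.tendsto 1).comp hB).congr fun x => (e x).symm

theorem tendsto_inv {α : Type} {l : Filter α} {f : α → Matrix n n ℝ} {A : Matrix n n ℝ}
    (hA : A.det ≠ 0) (h : Tendsto f l (𝓝 A)) : Tendsto (fun x => (f x)⁻¹) l (𝓝 A⁻¹) := by
  have e : ∀ B : Matrix n n ℝ, B⁻¹ = (B.det)⁻¹ • B.adjugate := by
    intro B
    rw [Matrix.inv_def, Ring.inverse_eq_inv']
  simp only [e]
  have c1 : Continuous fun D : Matrix n n ℝ => D.det := by fun_prop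
  have c2 : Continuous fun D : Matrix n n ℝ => D.adjugate := by fun_prop
  exact (((c1.tendsto A).comp h).inv₀ hA).smul ((c2.tendsto A).comp h)

theorem tendsto_of_M {α : Type} {l : Filter α} {f : α → PD n} {A : PD n}
    (h : Tendsto (fun x => (f x).M) l (𝓝 A.M)) : Tendsto f l (𝓝 A) := by
  rw [tendsto_iff_dist_tendsto_zero]
  have hdel : Tendsto (fun x => del (f x).M A.M) l (𝓝 0) := by
    have i1 := tendsto_inv A.pos.det_pos.ne' h
    have c1 : Continuous fun p : Matrix n n ℝ × Matrix n n ℝ => (p.1 * p.2).trace := by fun_prop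
    have t1 := (c1.tendsto (A.M⁻¹, A.M)).comp (i1.prodMk_nhds (tendsto_const_nhds (x := A.M)))
    have t2 := (c1.tendsto (A.M⁻¹, A.M)).comp ((tendsto_const_nhds (x := A.M⁻¹)).prodMk_nhds h)
    have := (t1.add t2).sub_const (2 * (Fintype.card n : ℝ))
    have hA : A.M⁻¹ * A.M = 1 := Matrix.nonsing_inv_mul _ (isUnit_iff_ne_zero.mpr A.pos.det_pos.ne')
    simp only [hA, trace_one] at this
    have e : (Fintype.card n : ℝ) + Fintype.card n - 2 * Fintype.card n = 0 := by ring
    rw [e] at this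
    exact this
  have hs : Tendsto (fun x => Real.sqrt (del (f x).M A.M)) l (𝓝 0) := by
    have := (Real.continuous_sqrt.tendsto 0).comp hdel
    rwa [Real.sqrt_zero] at this
  refine squeeze_zero (fun _ => dist_nonneg) (fun x => ?_) hs
  rw [dist_def]
  exact Real.sqrt_le_sqrt (dsq_le_del (f x).pos A.pos)

theorem isInducing_M : IsInducing (PD.M : PD n → Matrix n n ℝ) := by
  rw [isInducing_iff_nhds]
  intro A
  apply le_antisymm
  · exact (tendsto_M (f := fun x => x) tendsto_id).le_comap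
  · exact tendsto_of_M (f := fun x => x) tendsto_comap

theorem continuous_M : Continuous (PD.M : PD n → Matrix n n ℝ) := isInducing_M.continuous

instance : SecondCountableTopology (PD n) := by
  have : SecondCountableTopology (Matrix n n ℝ) :=
    inferInstanceAs (SecondCountableTopology (n → n → ℝ))
  exact isInducing_M.secondCountableTopology

theorem continuous_iff {α : Type} [TopologicalSpace α] {f : α → PD n} :
    Continuous f ↔ Continuous fun x => (f x).M := isInducing_M.continuous_iff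

end PD


namespace PDAux

variable {n : Type} [Fintype n] [DecidableEq n]

theorem hs2_spec {U : Matrix n n ℝ} {a : n → ℝ} (h1 : U * Uᵀ = 1) (h2 : Uᵀ * U = 1) :
    hs2 (U * diagonal a * Uᵀ) = ∑ i, a i ^ 2 := by
  rw [← hs2_orth h1 h1, ← hs2_diag]
  congr 1
  calc Uᵀ * (U * diagonal a * Uᵀ) * U = (Uᵀ * U) * diagonal a * (Uᵀ * U) := by
        simp only [Matrix.mul_assoc]
    _ = _ := by rw [h2]; simp

/-- `del` is controlled by the logarithms -/
theorem del_le_log {A B X Y : Matrix n n ℝ} (hX : IsLog A X) (hY : IsLog B Y) :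
    del A B ≤ hs2 (Y - X) * Real.exp ((hs X + hs Y) ^ 2 / 2) := by
  obtain ⟨U, a, h1, h2, h3, h4⟩ := hX
  obtain ⟨V, b, k1, k2, k3, k4⟩ := hY
  have ha : ∀ i, |a i| ≤ hs X := by
    intro i
    rw [hs, h4, hs2_spec h1 h2, ← Real.sqrt_sq_eq_abs]
    exact Real.sqrt_le_sqrt (Finset.single_le_sum (f := fun i => a i ^ 2)
      (fun j _ => sq_nonneg _) (Finset.mem_univ i))
  have hb : ∀ i, |b i| ≤ hs Y := by
    intro i
    rw [hs, k4, hs2_spec k1 k2, ← Real.sqrt_sq_eq_abs]
    exact Real.sqrt_le_sqrt (Finset.single_le_sum (f := fun i => b i ^ 2)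
      (fun j _ => sq_nonneg _) (Finset.mem_univ i))
  set W := Uᵀ * V with hW
  have hWW : W * Wᵀ = 1 := by
    rw [hW, transpose_mul, transpose_transpose]
    calc Uᵀ * V * (Vᵀ * U) = Uᵀ * (V * Vᵀ) * U := by simp only [Matrix.mul_assoc]
      _ = 1 := by rw [k1, Matrix.mul_one, h2]
  have e1 : hs2 (Y - X) = ∑ i, ∑ j, W i j ^ 2 * (b j - a i) ^ 2 := by
    rw [← hs2_orth h1 k1, hs2]
    refine Finset.sum_congr rfl fun i _ => Finset.sum_congr rfl fun j _ => ?_
    have : Uᵀ * (Y - X) * V = W * diagonal b - diagonal a * W := by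
      rw [h4, k4, Matrix.mul_sub, Matrix.sub_mul]
      congr 1
      · calc Uᵀ * (V * diagonal b * Vᵀ) * V = Uᵀ * V * diagonal b * (Vᵀ * V) := by
              simp only [Matrix.mul_assoc]
          _ = W * diagonal b := by rw [k2, Matrix.mul_one]
      · calc Uᵀ * (U * diagonal a * Uᵀ) * V = (Uᵀ * U) * diagonal a * (Uᵀ * V) := by
              simp only [Matrix.mul_assoc]
          _ = diagonal a * W := by rw [h2, Matrix.one_mul]
    rw [this, Matrix.sub_apply, mul_diagonal, diagonal_mul]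
    ring
  have e2 : del A B = ∑ i, ∑ j, W i j ^ 2 *
      (Real.exp (b j - a i) + Real.exp (-(b j - a i)) - 2) := by
    have t1 : (A⁻¹ * B).trace = ∑ i, ∑ j, W i j ^ 2 * Real.exp (b j - a i) := by
      rw [h3, k3, inv_spec h1 h2, trace_two]
      refine Finset.sum_congr rfl fun i _ => Finset.sum_congr rfl fun j _ => ?_
      rw [← Real.exp_add]; congr 2; ring
    have t2 : (B⁻¹ * A).trace = ∑ i, ∑ j, W i j ^ 2 * Real.exp (-(b j - a i)) := by
      rw [trace_mul_comm, h3, k3, inv_spec k1 k2, trace_two]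
      refine Finset.sum_congr rfl fun i _ => Finset.sum_congr rfl fun j _ => ?_
      rw [← Real.exp_add]; congr 2; ring
    have t3 : (2 * Fintype.card n : ℝ) = ∑ i, ∑ j, W i j ^ 2 * 2 := by
      rw [← sum_orth hWW, Finset.mul_sum]
      refine Finset.sum_congr rfl fun i _ => ?_
      rw [Finset.mul_sum]
      exact Finset.sum_congr rfl fun j _ => by ring
    rw [del, t1, t2, t3, ← Finset.sum_add_distrib, ← Finset.sum_sub_distrib]
    refine Finset.sum_congr rfl fun i _ => ?_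
    rw [← Finset.sum_add_distrib, ← Finset.sum_sub_distrib]
    exact Finset.sum_congr rfl fun j _ => by ring
  rw [e1, e2, Finset.sum_mul]
  refine Finset.sum_le_sum fun i _ => ?_
  rw [Finset.sum_mul]
  refine Finset.sum_le_sum fun j _ => ?_
  have h5 : (b j - a i) ^ 2 ≤ (hs X + hs Y) ^ 2 := by
    rw [← sq_abs]
    apply pow_le_pow_left₀ (abs_nonneg _)
    have := abs_sub (b j) (a i)
    linarith [ha i, hb j]
  have h6 := cosh_bd (b j - a i)
  have h7 : Real.exp ((b j - a i) ^ 2 / 2) ≤ Real.exp ((hs X + hs Y) ^ 2 / 2) :=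
    Real.exp_le_exp.mpr (by linarith)
  calc W i j ^ 2 * (Real.exp (b j - a i) + Real.exp (-(b j - a i)) - 2)
      ≤ W i j ^ 2 * ((b j - a i) ^ 2 * Real.exp ((hs X + hs Y) ^ 2 / 2)) := by
        apply mul_le_mul_of_nonneg_left _ (sq_nonneg _)
        exact h6.trans (mul_le_mul_of_nonneg_left h7 (sq_nonneg _))
    _ = _ := by ring

theorem isLog_symm {A X : Matrix n n ℝ} (h : IsLog A X) : X.IsHermitian := by
  obtain ⟨U, a, -, -, -, h4⟩ := h
  rw [h4, Matrix.IsHermitian, conjTranspose_eq_transpose_of_trivial]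
  simp only [transpose_mul, transpose_transpose, diagonal_transpose, Matrix.mul_assoc]

theorem exists_exp {X : Matrix n n ℝ} (h : X.IsHermitian) : ∃ A, A.PosDef ∧ IsLog A X := by
  obtain ⟨U, a, h1, h2, h3⟩ := spec h
  refine ⟨_, ?_, U, a, h1, h2, rfl, h3⟩
  have hU : IsUnit (Uᵀ).det := (Matrix.isUnit_iff_isUnit_det _).mp ⟨⟨Uᵀ, U, h2, h1⟩, rfl⟩
  have := cong_posDef (Matrix.posDef_diagonal_iff.mpr fun i => Real.exp_pos (a i)) hU
  rwa [transpose_transpose] at this

theorem del_diff {A B : Matrix n n ℝ} (hA : A.PosDef) (hB : B.PosDef) :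
    del A B = (A⁻¹ * (B - A) * B⁻¹ * (B - A)).trace := by
  have a1 : A⁻¹ * A = 1 := Matrix.nonsing_inv_mul _ (isUnit_iff_ne_zero.mpr hA.det_pos.ne')
  have b1 : B⁻¹ * B = 1 := Matrix.nonsing_inv_mul _ (isUnit_iff_ne_zero.mpr hB.det_pos.ne')
  have b2 : B * B⁻¹ = 1 := Matrix.mul_nonsing_inv _ (isUnit_iff_ne_zero.mpr hB.det_pos.ne')
  have e : A⁻¹ * (B - A) * B⁻¹ * (B - A) = A⁻¹ * B + B⁻¹ * A - 1 - 1 := by
    have : A⁻¹ * (B - A) = A⁻¹ * B - 1 := by rw [Matrix.mul_sub, a1]
    rw [this, Matrix.sub_mul, Matrix.mul_assoc A⁻¹ B B⁻¹, b2, Matrix.mul_one, Matrix.one_mul,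
      Matrix.sub_mul, Matrix.mul_sub, Matrix.mul_sub, a1, b1]
    abel
  rw [e, trace_sub, trace_sub, trace_add, trace_one, del]
  ring

end PDAux

namespace PD

open PDAux Filter Topology

variable {n : Type} [Fintype n] [DecidableEq n]

theorem hs2_le_dist {A B : PD n} {X Y : Matrix n n ℝ} (hX : IsLog A.M X) (hY : IsLog B.M Y) :
    hs2 (Y - X) ≤ dist A B ^ 2 := by
  rw [dist_sq]
  exact emi A.pos B.pos hX hY

instance : CompleteSpace (PD n) := by
  apply Metric.complete_of_cauchySeq_tendsto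
  intro u hu
  have hex : ∀ k, ∃ X, IsLog (u k).M X := fun k => exists_log (u k).pos
  choose X hX using hex
  have hentry : ∀ i j, CauchySeq fun k => X k i j := by
    intro i j
    rw [Metric.cauchySeq_iff]
    intro ε hε
    obtain ⟨N, hN⟩ := Metric.cauchySeq_iff.mp hu ε hε
    refine ⟨N, fun m hm k hk => ?_⟩
    have h1 := hs2_le_dist (hX k) (hX m)
    have h2 := entry_le_hs2 (X m - X k) i j
    have h3 := hN k hk m hm
    rw [Real.dist_eq]
    apply lt_of_le_of_lt _ h3
    apply abs_le_of_sq_le_sq _ dist_nonneg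
    exact h2.trans h1
  choose L hL using fun i j => cauchySeq_tendsto_of_complete (hentry i j)
  have hXL : Tendsto X atTop (𝓝 (Matrix.of L)) :=
    tendsto_pi_nhds.mpr fun i => tendsto_pi_nhds.mpr fun j => hL i j
  have hLs : (Matrix.of L).IsHermitian := by
    ext i j
    rw [conjTranspose_apply]
    have : ∀ k, X k j i = X k i j := by
      intro k
      have := congrFun (congrFun (isLog_symm (hX k)) i) j
      rw [conjTranspose_apply] at this
      simpa using this
    have h1 := hL j i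
    simp only [this] at h1
    simpa using tendsto_nhds_unique h1 (hL i j)
  obtain ⟨A, hA, hAL⟩ := exists_exp hLs
  refine ⟨⟨A, hA⟩, ?_⟩
  rw [tendsto_iff_dist_tendsto_zero]
  have hc : Continuous fun M : Matrix n n ℝ => hs2 (Matrix.of L - M) := by
    unfold hs2; fun_prop
  have hc2 : Continuous fun M : Matrix n n ℝ => hs M := by
    unfold hs hs2; fun_prop
  have t1 : Tendsto (fun k => hs2 (Matrix.of L - X k) *
      Real.exp ((hs (X k) + hs (Matrix.of L)) ^ 2 / 2)) atTop (𝓝 0) := by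
    have a1 := (hc.tendsto _).comp hXL
    have a2 := (hc2.tendsto _).comp hXL
    have a3 : hs2 (Matrix.of L - Matrix.of L) = 0 := by simp [hs2]
    rw [a3] at a1
    have a4 := a1.mul ((Real.continuous_exp.tendsto _).comp
      (((a2.add_const (hs (Matrix.of L))).pow 2).div_const 2))
    rw [zero_mul] at a4
    exact a4
  have t2 : Tendsto (fun k => Real.sqrt (hs2 (Matrix.of L - X k) *
      Real.exp ((hs (X k) + hs (Matrix.of L)) ^ 2 / 2))) atTop (𝓝 0) := by
    have := (Real.continuous_sqrt.tendsto 0).comp t1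
    rwa [Real.sqrt_zero] at this
  refine squeeze_zero (fun _ => dist_nonneg) (fun k => ?_) t2
  rw [dist_def]
  exact Real.sqrt_le_sqrt ((dsq_le_del (u k).pos hA).trans (del_le_log (hX k) hAL))

noncomputable instance : MeasurableSpace (PD n) := borel _

instance : BorelSpace (PD n) := ⟨rfl⟩

/-- the matrix as a function -/
def Mf (A : PD n) : n → n → ℝ := fun i j => A.M i j

theorem isInducing_Mf : IsInducing (Mf : PD n → n → n → ℝ) := isInducing_M

theorem measurable_iff {α : Type} [MeasurableSpace α] {f : α → PD n} :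
    Measurable f ↔ ∀ i j, Measurable fun x => (f x).M i j := by
  have e : borel (PD n) = MeasurableSpace.comap (Mf : PD n → n → n → ℝ)
      (borel (n → n → ℝ)) := by
    have h0 := @borel_comap (PD n) (n → n → ℝ) Mf inferInstance
    rw [← h0, ← (isInducing_Mf (n := n)).eq_induced]
  constructor
  · intro h i j
    have hc : Continuous fun A : PD n => A.M i j :=
      (continuous_apply j).comp ((continuous_apply i).comp (isInducing_Mf (n := n)).continuous)
    exact hc.measurable.comp h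
  · intro h
    have h3 : Measurable fun x => Mf (f x) :=
      measurable_pi_iff.mpr fun i => measurable_pi_iff.mpr fun j => h i j
    intro s hs
    have hs' : @MeasurableSet _ (MeasurableSpace.comap (Mf : PD n → n → n → ℝ)
        (borel (n → n → ℝ))) s := by
      rw [← e]; exact hs
    obtain ⟨t, ht, rfl⟩ := hs'
    rw [← (BorelSpace.measurable_eq (α := n → n → ℝ))] at ht
    exact h3 ht

end PD

end Pool.Agent.MPd01a95
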