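import Mathlib
import Pool.Agent.Lib.MP_d01a95_gt.Defs
import Pool.Agent.Lib.MP_d01a95_gt.Low
import Pool.Agent.Lib.MP_d01a95_gt.Hol
import Pool.Agent.Lib.MP_d01a95_gt_H.PD
import Pool.Agent.Lib.MP_d01a95_gt_H.Energy
import Pool.Agent.Lib.MP_d01a95_gt_H.GU
import Pool.Agent.Lib.MP_d01a95_gt_H.Cut
import Pool.Agent.Lib.MP_d01a95_gt_H.Boost

set_option autoImplicit false
set_option linter.all false

open Matrix Filter Topology MeasureTheory Measure
open scoped ENNReal NNReal ContDiff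

namespace Pool.Agent.MPd01a95

open GU

variable {κ n ι : Type} [Fintype κ] [DecidableEq κ] [Fintype n] [DecidableEq n]
  [Fintype ι] [DecidableEq ι] {G : Type} [Group G]

/-! ### the cone -/

/-- the Hermitian form of signature `(1,m)` -/
noncomputable def hf (v w : κ ⊕ Unit → ℂ) : ℂ :=
  star (v (Sum.inr ())) * w (Sum.inr ()) - ∑ i, star (v (Sum.inl i)) * w (Sum.inl i)

/-- the cone of vectors with positive `nqC` -/
def Cn (κ : Type) [Fintype κ] : Set (κ ⊕ Unit → ℂ) := {v | 0 < LowAux.nqC v}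

/-- `cosh ^ 2` of the distance of two points of complex hyperbolic space -/
noncomputable def sv (v w : κ ⊕ Unit → ℂ) : ℝ :=
  ‖hf v w‖ ^ 2 / (LowAux.nqC v * LowAux.nqC w)

/-- the point of the cone attached to a group element -/
noncomputable def GU.pt (g : GU κ) : κ ⊕ Unit → ℂ := g.M *ᵥ GU.e0

/-- tangent vectors -/
noncomputable def GU.dir (g : GU κ) (p : κ × Bool) : κ ⊕ Unit → ℂ :=
  g.M *ᵥ (GU.wb p.2 • GU.ej p.1)

/-- radial part of the Laplacian -/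
noncomputable def LL (m : ℕ) (β : ℝ → ℝ) (s : ℝ) : ℝ :=
  4 * s * (s - 1) * deriv (deriv β) s + (4 * m * s + 4 * (s - 1)) * deriv β s

/-! ### equivariant maps on the group -/

/-- the action on positive definite matrices -/
noncomputable def ac (ρ : G →* Matrix n n ℝ) (γ : G) (A : PD n) : PD n :=
  PD.cg (ρ γ⁻¹) (by
    have h : ρ γ⁻¹ * ρ γ = 1 := by rw [← map_mul, inv_mul_cancel, map_one]
    have h2 := congrArg Matrix.det h
    rw [Matrix.det_mul, Matrix.det_one] at h2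
    exact IsUnit.of_mul_eq_one _ h2) A

/-- measurable equivariant maps -/
def EqF (σ : G →* GU κ) (ρ : G →* Matrix n n ℝ) (F : GU κ → PD n) : Prop :=
  Measurable F ∧ ∀ γ g, F (σ γ * g) = ac ρ γ (F g)

/-- almost everywhere invariance under the stabiliser -/
def Kinv (μ : Measure (GU κ)) (F : GU κ → PD n) : Prop :=
  ∀ k ∈ KU κ, ∀ᵐ g ∂μ, F (g * k) = F g

/-- directions, as a discrete measurable space -/
def Dr (κ : Type) : Type := κ × Bool

instance : Fintype (Dr κ) := inferInstanceAs (Fintype (κ × Bool))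

instance : MeasurableSpace (Dr κ) := ⊤

instance : DiscreteMeasurableSpace (Dr κ) := ⟨fun _ => trivial⟩

/-- the probability Haar measure of the stabiliser -/
noncomputable def muK (κ : Type) [Fintype κ] [DecidableEq κ] : Measure (KU κ) :=
  haarMeasure ⊤

/-- measure on the parameters -/
noncomputable def th (κ : Type) [Fintype κ] [DecidableEq κ] : Measure (KU κ × Dr κ) :=
  (muK κ).prod count

/-- the displacements -/
noncomputable def xx (N : ℕ) (p : KU κ × Dr κ) : GU κ :=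
  (p.1 : GU κ) * GU.bo ((1 / 2) ^ N) (show κ × Bool from p.2) * (p.1 : GU κ)⁻¹

/-- the energy of an equivariant map -/
noncomputable def EE (μ : Measure (GU κ)) (χ : GU κ → ℝ) (F : GU κ → PD n) : ℝ≥0∞ :=
  eT μ (fun g => ENNReal.ofReal (χ g)) (th κ) xx F

/-- the squared `L²` distance of equivariant maps -/
noncomputable def DD (μ : Measure (GU κ)) (χ : GU κ → ℝ) (F F' : GU κ → PD n) : ℝ≥0∞ :=
  eD μ (fun g => ENNReal.ofReal (χ g)) F F'

/-! ### equivariant maps on the cone -/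

/-- locally Lipschitz equivariant maps on the cone -/
structure EqC (σ : G →* GU κ) (ρ : G →* Matrix n n ℝ)
    (H : (κ ⊕ Unit → ℂ) → Matrix n n ℝ) : Prop where
  pos : ∀ v ∈ Cn κ, (H v).PosDef
  hom : ∀ v ∈ Cn κ, ∀ l : ℂ, l ≠ 0 → H (l • v) = H v
  eqv : ∀ γ, ∀ v ∈ Cn κ, H ((σ γ).M *ᵥ v) = (ρ γ⁻¹)ᵀ * H v * ρ γ⁻¹
  lip : ∀ v ∈ Cn κ, ∃ L : ℝ≥0, ∃ U ∈ 𝓝 v, ∀ i j, LipschitzOnWith L (fun w => H w i j) U

/-- real directional derivative of a matrix valued function, entry by entry -/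
noncomputable def DM {E 𝕜 : Type} [NormedAddCommGroup E] [NormedSpace ℝ E] [RCLike 𝕜]
    (f : E → Matrix n n 𝕜) (v u : E) : Matrix n n 𝕜 :=
  Matrix.of fun i j => fderiv ℝ (fun w => f w i j) v u

/-- derivative of `H` along the direction `p` at `g` -/
noncomputable def XH (H : (κ ⊕ Unit → ℂ) → Matrix n n ℝ) (p : κ × Bool) (g : GU κ) :
    Matrix n n ℝ := DM H g.pt (g.dir p)

/-- the energy density -/
noncomputable def ed (H : (κ ⊕ Unit → ℂ) → Matrix n n ℝ) (g : GU κ) : ℝ :=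
  ∑ p, ((H g.pt)⁻¹ * XH H p g * (H g.pt)⁻¹ * XH H p g).trace

/-- the quadratic part of the tension field -/
noncomputable def QH (H : (κ ⊕ Unit → ℂ) → Matrix n n ℝ) (g : GU κ) : Matrix n n ℝ :=
  ∑ p, XH H p g * (H g.pt)⁻¹ * XH H p g

/-- the energy of a map on the cone -/
noncomputable def En (μ : Measure (GU κ)) (χ : GU κ → ℝ)
    (H : (κ ⊕ Unit → ℂ) → Matrix n n ℝ) : ℝ := ∫ g, χ g * ed H g ∂μ

/-! ### complex derivatives -/

section cx

variable {E : Type} [NormedAddCommGroup E] [NormedSpace ℝ E] [NormedSpace ℂ E]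

/-- smoothness of matrix valued functions, entry by entry -/
def Sm {E 𝕜 : Type} [NormedAddCommGroup E] [NormedSpace ℝ E] [RCLike 𝕜] (k : WithTop ℕ∞)
    (f : E → Matrix n n 𝕜) (Ω : Set E) : Prop := ∀ i j, ContDiffOn ℝ k (fun w => f w i j) Ω

/-- complexification of a real matrix valued function -/
def cH {E : Type} (H : E → Matrix n n ℝ) (v : E) : Matrix n n ℂ := (H v).map ((↑) : ℝ → ℂ)

/-- the derivative `∂_u` -/
noncomputable def dz (f : E → Matrix n n ℂ) (u v : E) : Matrix n n ℂ :=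
  (1 / 2 : ℂ) • (DM f v u - Complex.I • DM f v (Complex.I • u))

/-- the derivative `∂̄_u` -/
noncomputable def dzb (f : E → Matrix n n ℂ) (u v : E) : Matrix n n ℂ :=
  (1 / 2 : ℂ) • (DM f v u + Complex.I • DM f v (Complex.I • u))

/-- the `(1,0)` part of half the logarithmic derivative -/
noncomputable def ph (H : E → Matrix n n ℝ) (u v : E) : Matrix n n ℂ :=
  (1 / 2 : ℂ) • ((cH H v)⁻¹ * dz (cH H) u v)

/-- the `(0,1)` part of half the logarithmic derivative -/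
noncomputable def phb (H : E → Matrix n n ℝ) (u v : E) : Matrix n n ℂ :=
  (1 / 2 : ℂ) • ((cH H v)⁻¹ * dzb (cH H) u v)

/-- commutator -/
def cm (A B : Matrix n n ℂ) : Matrix n n ℂ := A * B - B * A

/-- components of the complex Hessian of the map -/
noncomputable def tt (H : E → Matrix n n ℝ) (u w v : E) : Matrix n n ℂ :=
  dzb (fun v' => ph H u v') w v + cm (phb H w v) (ph H u v)

/-- squared norm with respect to the metric `H v` -/
noncomputable def nm (H : E → Matrix n n ℝ) (v : E) (A : Matrix n n ℂ) : ℝ :=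
  (A * (cH H v)⁻¹ * Aᴴ * cH H v).trace.re

/-- the covariant `∂̄` derivative of an endomorphism valued function -/
noncomputable def nb (H : E → Matrix n n ℝ) (w : E) (A : E → Matrix n n ℂ) (v : E) :
    Matrix n n ℂ := dzb A w v + cm (phb H w v) (A v)

end cx

/-- `∂̄` derivative of a scalar function along the `c`-th coordinate -/
noncomputable def db {α : Type} [Fintype α] [DecidableEq α] (f : (α → ℂ) → ℂ) (c : α)
    (v : α → ℂ) : ℂ :=
  (1 / 2 : ℂ) * (fderiv ℝ f v (Pi.single c 1) + Complex.I * fderiv ℝ f v (Pi.single c Complex.I))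

/-- `w` is a locally uniform limit of smooth functions whose `∂̄` derivatives converge to `f` -/
def Db {α : Type} [Fintype α] [DecidableEq α] (Ω : Set (α → ℂ)) (w : (α → ℂ) → ℂ)
    (f : α → (α → ℂ) → ℂ) : Prop :=
  ∀ C ⊆ Ω, IsCompact C → ∀ ε > 0, ∃ u : (α → ℂ) → ℂ, ContDiff ℝ ∞ u ∧
    ∀ v ∈ C, ‖u v - w v‖ < ε ∧ ∀ c, ‖db u c v - f c v‖ < ε

/-- pluriharmonic maps on the ball -/
structure PHB (J : Matrix n n ℝ) (h : (κ → ℂ) → Matrix n n ℝ) : Prop where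
  pos : ∀ z ∈ HolAux.Bl κ, (h z).PosDef
  hJ : ∀ z ∈ HolAux.Bl κ, h z * J * h z = J
  sm : Sm 1 h (HolAux.Bl κ)
  comm : ∀ a c, ∀ z ∈ HolAux.Bl κ, cm (ph h (Pi.single a 1) z) (ph h (Pi.single c 1) z) = 0
  dbar : ∀ a i j, Db (HolAux.Bl κ) (fun z => ph h (Pi.single a 1) z i j)
    (fun c z => cm (ph h (Pi.single a 1) z) (phb h (Pi.single c 1) z) i j)

/-! ### mollification on the cone -/

/-- average of `H` with respect to a radial kernel -/
noncomputable def mol (μ : Measure (GU κ)) (β : ℝ → ℝ) (H : (κ ⊕ Unit → ℂ) → Matrix n n ℝ)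
    (v : κ ⊕ Unit → ℂ) : Matrix n n ℝ :=
  Matrix.of fun i j => (∫ g, β (sv v g.pt) * H g.pt i j ∂μ) / ∫ g, β (c g ^ 2) ∂μ

/-- the smooth approximations of a harmonic map -/
structure Approx (μ : Measure (GU κ)) (χ : GU κ → ℝ) (σ : G →* GU κ) (ρ : G →* Matrix n n ℝ)
    (H : (κ ⊕ Unit → ℂ) → Matrix n n ℝ) (Hk : ℕ → (κ ⊕ Unit → ℂ) → Matrix n n ℝ) : Prop where
  eqc : ∀ k, EqC σ ρ (Hk k)
  sm : ∀ k, Sm ∞ (Hk k) (Cn κ)
  unif : ∀ C ⊆ Cn κ, IsCompact C → ∀ ε > 0, ∀ᶠ k in atTop, ∀ v ∈ C, ∀ i j,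
    |Hk k v i j - H v i j| < ε
  grad : ∀ C ⊆ Cn κ, IsCompact C → ∃ L : ℝ, ∀ k, ∀ v ∈ C, ∀ u, ∀ i j,
    |DM (Hk k) v u i j| ≤ L * ‖u‖
  gradL : ∀ B : Set (GU κ), IsCompact B → ∀ p i j,
    Tendsto (fun k => ∫ g in B, |XH (Hk k) p g i j - XH H p g i j| ^ 2 ∂μ) atTop (𝓝 0)
  tens : Tendsto (fun k => ∫ g, χ g * nm (Hk k) g.pt
    (∑ a, tt (Hk k) (g.M *ᵥ ej a) (g.M *ᵥ ej a) g.pt) ∂μ) atTop (𝓝 0)

/-! ### the negative plane -/

/-- projection to the negative plane -/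
noncomputable def P2 (h : Matrix (ι ⊕ Fin 2) (ι ⊕ Fin 2) ℝ) :
    Matrix (ι ⊕ Fin 2) (ι ⊕ Fin 2) ℝ := (1 / 2 : ℝ) • (1 - J ι * h)

/-- Gram matrix -/
noncomputable def g2 (h : Matrix (ι ⊕ Fin 2) (ι ⊕ Fin 2) ℝ) (k j : Fin 2) : ℝ :=
  P2 h (Sum.inr k) (Sum.inr j)

/-- isotropic vectors in the complexified negative plane -/
noncomputable def sl (ε : ℝ) (h : Matrix (ι ⊕ Fin 2) (ι ⊕ Fin 2) ℝ) : ι ⊕ Fin 2 → ℂ := fun i =>
  (g2 h 1 1 : ℂ) * (P2 h i (Sum.inr 0) : ℂ) +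
    (-(g2 h 0 1 : ℂ) + ε * Complex.I * (Real.sqrt (g2 h 0 0 * g2 h 1 1 - g2 h 0 1 ^ 2) : ℝ)) *
      (P2 h i (Sum.inr 1) : ℂ)

/-- the symmetric bilinear form -/
def bJ (v w : ι ⊕ Fin 2 → ℂ) : ℂ :=
  ∑ i, v (Sum.inl i) * w (Sum.inl i) - ∑ k, v (Sum.inr k) * w (Sum.inr k)

/-- the involution -/
def thC (h : Matrix (ι ⊕ Fin 2) (ι ⊕ Fin 2) ℝ) : Matrix (ι ⊕ Fin 2) (ι ⊕ Fin 2) ℂ :=
  (J ι * h).map ((↑) : ℝ → ℂ)

end Pool.Agent.MPd01a95
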