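import Mathlib
import Pool.Agent.Lib.MP_d01a95_gt_H.Cut
import Pool.Agent.Lib.MP_d01a95_gt_H.Energy

set_option autoImplicit false
set_option linter.all false

open Matrix Filter Topology MeasureTheory Measure
open scoped ENNReal

namespace Pool.Agent.MPd01a95

variable {κ : Type} [Fintype κ] [DecidableEq κ] {G : Type} [Group G]

open GU

theorem Cut.meas {σ : G →* GU κ} {χ : GU κ → ℝ} (h : Cut σ χ) :
    Measurable fun g => ENNReal.ofReal (χ g) := h.cont.measurable.ennreal_ofReal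

theorem Cut.int_ne_top {σ : G →* GU κ} {χ : GU κ → ℝ} (h : Cut σ χ)
    (μ : Measure (GU κ)) [IsHaarMeasure μ] : ∫⁻ g, ENNReal.ofReal (χ g) ∂μ ≠ ⊤ := by
  obtain ⟨R, hR⟩ := h.supp
  have hK := isCompact_c (κ := κ) R
  obtain ⟨B, hB⟩ := (hK.image h.cont).bddAbove
  have h1 : ∀ g, ENNReal.ofReal (χ g) ≤ {g : GU κ | c g ≤ R}.indicator
      (fun _ => ENNReal.ofReal B) g := by
    intro g
    by_cases hg : c g ≤ R
    · rw [Set.indicator_of_mem (show g ∈ {g : GU κ | c g ≤ R} from hg)]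
      exact ENNReal.ofReal_le_ofReal (hB ⟨g, hg, rfl⟩)
    · have : χ g = 0 := by
        by_contra hne
        exact hg (hR g hne)
      rw [this]; simp
  refine ne_top_of_le_ne_top ?_ (lintegral_mono h1)
  rw [lintegral_indicator hK.measurableSet, setLIntegral_const]
  exact ENNReal.mul_ne_top ENNReal.ofReal_ne_top hK.measure_lt_top.ne

theorem Cut.int_ne_zero {σ : G →* GU κ} {χ : GU κ → ℝ} (h : Cut σ χ)
    (μ : Measure (GU κ)) [IsHaarMeasure μ] : ∫⁻ g, ENNReal.ofReal (χ g) ∂μ ≠ 0 := by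
  intro h0
  rw [lintegral_eq_zero_iff h.meas] at h0
  have h1 : (fun g => χ g) =ᵐ[μ] fun _ => 0 := by
    filter_upwards [h0] with g hg
    have : ENNReal.ofReal (χ g) = 0 := hg
    exact le_antisymm (ENNReal.ofReal_eq_zero.mp this) (h.nonneg g)
  have h2 : χ = fun _ => 0 := (h.cont.ae_eq_iff_eq μ continuous_const).mp h1
  have h3 := h.sum 1
  rw [h2] at h3
  simp at h3

theorem right_inv {σ : G →* GU κ} (hL : Lat σ) (μ : Measure (GU κ)) [IsHaarMeasure μ] :
    μ.IsMulRightInvariant := by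
  haveI := hL.countable
  obtain ⟨χ, hχ⟩ := exists_cut hL
  refine ⟨fun x => ?_⟩
  have h1 : map (· * x) μ = haarScalarFactor (map (· * x) μ) μ • μ :=
    isMulLeftInvariant_eq_smul _ _
  set c := haarScalarFactor (map (· * x) μ) μ with hc
  have h2 : ∫⁻ g, ENNReal.ofReal (χ g) ∂(map (· * x) μ) = ∫⁻ g, ENNReal.ofReal (χ (g * x)) ∂μ :=
    lintegral_map hχ.meas (measurable_mul_const x)
  have h3 : ∫⁻ g, ENNReal.ofReal (χ (g * x)) ∂μ = ∫⁻ g, ENNReal.ofReal (χ g) ∂μ := by
    have := cutoff_indep (μ := μ) (σ := σ) (χ := fun g => ENNReal.ofReal (χ (g * x)))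
      (hχ.meas.comp (measurable_mul_const x)) (fun g => by
        have := hχ.sum (g * x)
        simpa [mul_assoc] using this) hχ.meas hχ.sum (ψ := fun _ => 1) measurable_const
        (fun _ _ => rfl)
    simpa using this
  rw [h3, h1, lintegral_smul_measure] at h2
  have h4 : (c : ℝ≥0∞) * ∫⁻ g, ENNReal.ofReal (χ g) ∂μ = 1 * ∫⁻ g, ENNReal.ofReal (χ g) ∂μ := by
    rw [one_mul]
    exact h2
  have h5 : (c : ℝ≥0∞) = 1 :=
    (ENNReal.mul_left_inj (hχ.int_ne_zero μ) (hχ.int_ne_top μ)).mp h4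
  have h6 : c = 1 := by exact_mod_cast h5
  rw [h1, h6, one_smul]

theorem inv_inv' {σ : G →* GU κ} (hL : Lat σ) (μ : Measure (GU κ)) [IsHaarMeasure μ] :
    μ.IsInvInvariant := by
  haveI := right_inv hL μ
  constructor
  let c : ℝ≥0∞ := haarScalarFactor μ.inv μ
  have hc : μ.inv = c • μ := isMulLeftInvariant_eq_smul μ.inv μ
  have : map Inv.inv (map Inv.inv μ) = c ^ 2 • μ := by
    rw [← inv_def μ, hc, Measure.map_smul, ← inv_def μ, hc, smul_smul, pow_two]
  have μeq : μ = c ^ 2 • μ := by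
    rw [map_map continuous_inv.measurable continuous_inv.measurable] at this
    simpa only [inv_involutive, Function.Involutive.comp_self, Measure.map_id]
  have K : TopologicalSpace.PositiveCompacts (GU κ) := Classical.arbitrary _
  have : c ^ 2 * μ K = 1 ^ 2 * μ K := by
    conv_rhs => rw [μeq]
    simp
  have : c ^ 2 = 1 ^ 2 :=
    (ENNReal.mul_left_inj (measure_pos_of_nonempty_interior _ K.interior_nonempty).ne'
          K.isCompact.measure_lt_top.ne).1 this
  have : c = 1 := (ENNReal.pow_right_strictMono two_ne_zero).injective this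
  rw [hc, this, one_smul]

end Pool.Agent.MPd01a95
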