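import Mathlib
import Pool.Agent.Lib.MP_d01a95_gt_H.HDefs
import Pool.Agent.Lib.MP_d01a95_gt_H.Unimod

/-!
MP_d01a95_gt, project HARMONIC, module LEB: comparison of the Haar measure of `U(m,1)` and of the
Lebesgue measure of the cone.
-/

set_option autoImplicit false
set_option linter.all false

open Matrix Filter Topology MeasureTheory Measure
open scoped ENNReal NNReal ContDiff

namespace Pool.Agent.MPd01a95

open GU

variable {κ n ι α : Type} [Fintype κ] [DecidableEq κ] [Fintype n] [DecidableEq n] [Fintype ι]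
  [DecidableEq ι] [Fintype α] [DecidableEq α] {G : Type} [Group G]

namespace LebAux

theorem cont_nqC : Continuous (LowAux.nqC : (κ ⊕ Unit → ℂ) → ℝ) := by
  unfold LowAux.nqC
  fun_prop

theorem isOpen_Cn : IsOpen (Cn κ) := isOpen_lt continuous_const cont_nqC

theorem mem_iff (g : GU κ) (v : κ ⊕ Unit → ℂ) : g.M *ᵥ v ∈ Cn κ ↔ v ∈ Cn κ := by
  show 0 < LowAux.nqC (g.M *ᵥ v) ↔ 0 < LowAux.nqC v
  rw [LowAux.nqC_iso g.pres]

theorem nqC_e0 : LowAux.nqC (GU.e0 : κ ⊕ Unit → ℂ) = 1 := by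
  simp [LowAux.nqC, GU.e0]

theorem e0_mem : (GU.e0 : κ ⊕ Unit → ℂ) ∈ Cn κ := by
  show 0 < LowAux.nqC _
  rw [nqC_e0]
  norm_num

theorem pt_mem (g : GU κ) : g.pt ∈ Cn κ := (mem_iff g _).mpr e0_mem

theorem cont_act : Continuous fun p : GU κ × (κ ⊕ Unit → ℂ) => p.1.M *ᵥ p.2 :=
  (continuous_M.comp continuous_fst).matrix_mulVec continuous_snd

theorem cont_act' (g : GU κ) : Continuous fun v : κ ⊕ Unit → ℂ => g.M *ᵥ v :=
  cont_act.comp (continuous_const.prodMk continuous_id)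

theorem mp (g : GU κ) :
    MeasurePreserving (fun v : κ ⊕ Unit → ℂ => g.M *ᵥ v) volume volume := by
  have hm : Measurable (fun v : κ ⊕ Unit → ℂ => g.M *ᵥ v) := (cont_act' g).measurable
  refine ⟨hm, ?_⟩
  ext s hs
  rw [Measure.map_apply hm hs]
  have : (fun v : κ ⊕ Unit → ℂ => g.M *ᵥ v) ⁻¹' s = (fun v => (g⁻¹).M *ᵥ v) '' s := by
    ext v
    constructor
    · intro h
      exact ⟨g.M *ᵥ v, h, by
        show (g⁻¹).M *ᵥ (g.M *ᵥ v) = v
        rw [Matrix.mulVec_mulVec, inv_mul_M, Matrix.one_mulVec]⟩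
    · rintro ⟨w, hw, rfl⟩
      show g.M *ᵥ ((g⁻¹).M *ᵥ w) ∈ s
      rw [Matrix.mulVec_mulVec, mul_inv_M, Matrix.one_mulVec]
      exact hw
  rw [this, LowAux.vol_image (g⁻¹).pres]

theorem ee_eq : LowAux.ee κ = (GU.e0 : κ ⊕ Unit → ℂ) := by
  ext i
  rcases i with i | ⟨⟩
  · simp [LowAux.ee, GU.e0]
  · simp [LowAux.ee, GU.e0]

/-- representatives in the group of the points of a compact subset of the cone -/
theorem rep (K : Set (κ ⊕ Unit → ℂ)) (hK : IsCompact K) (hK2 : K ⊆ Cn κ) :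
    ∃ R : ℝ, 1 ≤ R ∧ ∀ w ∈ K, ∃ (h : GU κ) (l : ℂ), l ≠ 0 ∧ w = l • h.pt ∧ c h ≤ R := by
  have hcont : ContinuousOn (fun w : κ ⊕ Unit → ℂ =>
      ‖w (Sum.inr ())‖ / Real.sqrt (LowAux.nqC w)) K := by
    refine ContinuousOn.div (by fun_prop) ?_ ?_
    · exact (Real.continuous_sqrt.comp cont_nqC).continuousOn
    · intro w hw
      exact (Real.sqrt_pos.mpr (hK2 hw)).ne'
  obtain ⟨R, hR⟩ := (hK.image_of_continuousOn hcont).bddAbove
  refine ⟨max 1 R, le_max_left _ _, fun w hw => ?_⟩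
  have hn : 0 < LowAux.nqC w := hK2 hw
  obtain ⟨s, hs⟩ : ∃ s, s = Real.sqrt (LowAux.nqC w) := ⟨_, rfl⟩
  have hs0 : 0 < s := by rw [hs]; exact Real.sqrt_pos.mpr hn
  have hs2 : s ^ 2 = LowAux.nqC w := by rw [hs]; exact Real.sq_sqrt hn.le
  have hsC : (s : ℂ) ≠ 0 := by exact_mod_cast hs0.ne'
  have h1 : LowAux.nqC ((s : ℂ)⁻¹ • w) = 1 := by
    rw [LowAux.nqC]
    simp only [Pi.smul_apply, smul_eq_mul, norm_mul, norm_inv, Complex.norm_real,
      Real.norm_of_nonneg hs0.le, mul_pow]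
    rw [← Finset.mul_sum, ← mul_sub]
    have h2 : ‖w (Sum.inr ())‖ ^ 2 - ∑ i, ‖w (Sum.inl i)‖ ^ 2 = s ^ 2 := by
      rw [hs2, LowAux.nqC]
    rw [h2, inv_pow, inv_mul_cancel₀]
    positivity
  obtain ⟨h, hh, hhe⟩ := LowAux.exists_iso _ h1
  rw [ee_eq] at hhe
  refine ⟨⟨h, hh⟩, s, hsC, ?_, ?_⟩
  · show w = (s : ℂ) • (h *ᵥ GU.e0)
    rw [hhe, smul_smul, mul_inv_cancel₀ hsC, one_smul]
  · show ‖h (Sum.inr ()) (Sum.inr ())‖ ≤ _
    have h3 : h (Sum.inr ()) (Sum.inr ()) = (s : ℂ)⁻¹ * w (Sum.inr ()) := by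
      have h4 := mulVec_e0 h (Sum.inr ())
      rw [hhe] at h4
      rw [← h4]
      rfl
    rw [h3, norm_mul, norm_inv, Complex.norm_real, Real.norm_of_nonneg hs0.le]
    refine le_trans ?_ (le_max_right _ _)
    have h5 : ‖w (Sum.inr ())‖ / Real.sqrt (LowAux.nqC w) ≤ R := hR ⟨w, hw, rfl⟩
    rw [← hs] at h5
    rwa [div_eq_inv_mul] at h5

theorem act_eq {f : (κ ⊕ Unit → ℂ) → ℝ≥0∞} (hf : ∀ v ∈ Cn κ, ∀ l : ℂ, l ≠ 0 → f (l • v) = f v)
    (g h : GU κ) (l : ℂ) (hl : l ≠ 0) : f (g.M *ᵥ (l • h.pt)) = f (g * h).pt := by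
  have e : g.M *ᵥ (l • h.pt) = l • (g * h).pt := by
    rw [Matrix.mulVec_smul]
    congr 1
    show g.M *ᵥ (h.M *ᵥ GU.e0) = (g * h).M *ᵥ GU.e0
    rw [M_mul, Matrix.mulVec_mulVec]
  rw [e, hf _ (pt_mem _) l hl]

theorem cont_pt : Continuous (GU.pt : GU κ → κ ⊕ Unit → ℂ) :=
  cont_act.comp (continuous_id.prodMk continuous_const)

theorem c_one : c (1 : GU κ) = 1 := KU_c 1 (Subgroup.one_mem _)

theorem meas_pos (μ : Measure (GU κ)) [IsHaarMeasure μ] : μ {g : GU κ | c g ≤ 2} ≠ 0 := by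
  have h1 : IsOpen {g : GU κ | c g < 2} := isOpen_lt continuous_c continuous_const
  have h2 : (1 : GU κ) ∈ {g : GU κ | c g < 2} := by
    show c (1 : GU κ) < 2
    rw [c_one]; norm_num
  have h3 := h1.measure_pos μ ⟨1, h2⟩
  exact (lt_of_lt_of_le h3 (measure_mono fun g hg => (show c g < 2 from hg).le)).ne'

end LebAux

open LebAux

/-- module LEB -/
theorem haar_to_leb (μ : Measure (GU κ)) [IsHaarMeasure μ] [μ.IsMulRightInvariant]
    (B : Set (GU κ)) (hB : IsCompact B) : ∃ (A : ℝ≥0∞) (C : Set (κ ⊕ Unit → ℂ)), A ≠ ⊤ ∧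
      IsCompact C ∧ C ⊆ Cn κ ∧ ∀ f : (κ ⊕ Unit → ℂ) → ℝ≥0∞, Measurable f →
        (∀ v ∈ Cn κ, ∀ l : ℂ, l ≠ 0 → f (l • v) = f v) →
        ∫⁻ g in B, f g.pt ∂μ ≤ A * ∫⁻ v in C, f v := by
  obtain ⟨r, hr, hrC⟩ := Metric.nhds_basis_closedBall.mem_iff.mp (isOpen_Cn.mem_nhds
    (e0_mem (κ := κ)))
  obtain ⟨W, hW⟩ : ∃ W : Set (κ ⊕ Unit → ℂ), W = Metric.closedBall GU.e0 r := ⟨_, rfl⟩
  have hWc : IsCompact W := by rw [hW]; exact isCompact_closedBall _ _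
  have hWC : W ⊆ Cn κ := by rw [hW]; exact hrC
  have hW0 : volume W ≠ 0 := by
    rw [hW]; exact (Metric.measure_closedBall_pos volume _ hr).ne'
  have hWt : volume W ≠ ⊤ := hWc.measure_lt_top.ne
  obtain ⟨R, hR1, hR⟩ := rep W hWc hWC
  obtain ⟨R', hR'1, hR'⟩ := exists_bound hB
  obtain ⟨B', hB'⟩ : ∃ B' : Set (GU κ), B' = {g | c g ≤ 2 * R' * R} := ⟨_, rfl⟩
  have hBc : IsCompact B' := by rw [hB']; exact isCompact_c _
  obtain ⟨C, hC⟩ : ∃ C : Set (κ ⊕ Unit → ℂ), C = (fun p : GU κ × (κ ⊕ Unit → ℂ) =>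
    p.1.M *ᵥ p.2) '' (B' ×ˢ W) := ⟨_, rfl⟩
  have hCc : IsCompact C := by rw [hC]; exact (hBc.prod hWc).image cont_act
  refine ⟨(volume W)⁻¹ * μ B', C, ENNReal.mul_ne_top (ENNReal.inv_ne_top.mpr hW0)
    hBc.measure_lt_top.ne, hCc, ?_, ?_⟩
  · rw [hC]
    rintro _ ⟨⟨g, w⟩, ⟨-, hw⟩, rfl⟩
    exact (mem_iff g w).mpr (hWC hw)
  intro f hf hhom
  obtain ⟨I, hI⟩ : ∃ I, I = ∫⁻ g in B, f g.pt ∂μ := ⟨_, rfl⟩
  have h1 : ∀ w ∈ W, I ≤ ∫⁻ g in B', f (g.M *ᵥ w) ∂μ := by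
    intro w hw
    obtain ⟨h, l, hl, rfl, hh⟩ := hR w hw
    rw [hI, ← lintegral_indicator hB.measurableSet, ← lintegral_indicator hBc.measurableSet,
      ← lintegral_mul_right_eq_self (μ := μ) (B.indicator fun g => f g.pt) h]
    refine lintegral_mono fun g => ?_
    by_cases hg : g * h ∈ B
    · have hg' : g ∈ B' := by
        rw [hB']
        have h2 : g = (g * h) * h⁻¹ := by group
        show c g ≤ _
        rw [h2]
        refine (c_mul _ _).trans ?_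
        rw [c_inv]
        have h3 := hR' _ hg
        have h4 := c_ge_one h
        have h5 := c_ge_one (g * h)
        exact mul_le_mul (by linarith) hh (by linarith) (by linarith)
      rw [Set.indicator_of_mem hg, Set.indicator_of_mem hg', act_eq hhom g h l hl]
    · rw [Set.indicator_of_notMem hg]
      exact zero_le
  have h2 : volume W * I ≤ ∫⁻ w in W, ∫⁻ g in B', f (g.M *ᵥ w) ∂μ := by
    rw [mul_comm, ← setLIntegral_const]
    exact setLIntegral_mono' hWc.measurableSet h1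
  have h3 : ∫⁻ w in W, ∫⁻ g in B', f (g.M *ᵥ w) ∂μ = ∫⁻ g in B', (∫⁻ w in W, f (g.M *ᵥ w)) ∂μ := by
    refine lintegral_lintegral_swap ?_
    refine (hf.comp ?_).aemeasurable
    exact (cont_act.comp continuous_swap).measurable
  have h4 : ∀ g ∈ B', ∫⁻ w in W, f (g.M *ᵥ w) ≤ ∫⁻ v in C, f v := by
    intro g hg
    rw [← lintegral_indicator hWc.measurableSet, ← lintegral_indicator hCc.measurableSet,
      ← (mp g).lintegral_comp (hf.indicator hCc.measurableSet)]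
    refine lintegral_mono fun w => ?_
    by_cases hw : w ∈ W
    · have : g.M *ᵥ w ∈ C := by rw [hC]; exact ⟨(g, w), ⟨hg, hw⟩, rfl⟩
      rw [Set.indicator_of_mem hw]
      show _ ≤ C.indicator f (g.M *ᵥ w)
      rw [Set.indicator_of_mem this]
    · rw [Set.indicator_of_notMem hw]
      exact zero_le
  have h5 : ∫⁻ g in B', (∫⁻ w in W, f (g.M *ᵥ w)) ∂μ ≤ (∫⁻ v in C, f v) * μ B' := by
    rw [← setLIntegral_const]
    exact setLIntegral_mono' hBc.measurableSet h4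
  rw [← hI]
  calc I = (volume W)⁻¹ * (volume W * I) := by
        rw [← mul_assoc, ENNReal.inv_mul_cancel hW0 hWt, one_mul]
    _ ≤ (volume W)⁻¹ * ((∫⁻ v in C, f v) * μ B') :=
        mul_le_mul' le_rfl (h2.trans (h3.le.trans h5))
    _ = (volume W)⁻¹ * μ B' * ∫⁻ v in C, f v := by ring

/-- module LEB -/
theorem leb_to_haar (μ : Measure (GU κ)) [IsHaarMeasure μ] [μ.IsMulRightInvariant]
    (C : Set (κ ⊕ Unit → ℂ)) (hC : IsCompact C) (hC2 : C ⊆ Cn κ) :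
    ∃ (A : ℝ≥0∞) (B : Set (GU κ)), A ≠ ⊤ ∧ IsCompact B ∧
      ∀ f : (κ ⊕ Unit → ℂ) → ℝ≥0∞, Measurable f →
        (∀ v ∈ Cn κ, ∀ l : ℂ, l ≠ 0 → f (l • v) = f v) →
        ∫⁻ v in C, f v ≤ A * ∫⁻ g in B, f g.pt ∂μ := by
  obtain ⟨B1, hB1⟩ : ∃ B1 : Set (GU κ), B1 = {g | c g ≤ 2} := ⟨_, rfl⟩
  have hB1c : IsCompact B1 := by rw [hB1]; exact isCompact_c _
  have hB10 : μ B1 ≠ 0 := by rw [hB1]; exact meas_pos μ
  have hB1t : μ B1 ≠ ⊤ := hB1c.measure_lt_top.ne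
  obtain ⟨C1, hC1⟩ : ∃ C1 : Set (κ ⊕ Unit → ℂ), C1 = (fun p : GU κ × (κ ⊕ Unit → ℂ) =>
    (p.1⁻¹).M *ᵥ p.2) '' (B1 ×ˢ C) := ⟨_, rfl⟩
  have hC1c : IsCompact C1 := by
    rw [hC1]
    exact (hB1c.prod hC).image (cont_act.comp ((continuous_inv.comp continuous_fst).prodMk
      continuous_snd))
  have hC1C : C1 ⊆ Cn κ := by
    rw [hC1]
    rintro _ ⟨⟨g, w⟩, ⟨-, hw⟩, rfl⟩
    exact (mem_iff g⁻¹ w).mpr (hC2 hw)
  obtain ⟨R, hR1, hR⟩ := rep C1 hC1c hC1C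
  obtain ⟨B, hB⟩ : ∃ B : Set (GU κ), B = {g | c g ≤ 2 * 2 * R} := ⟨_, rfl⟩
  have hBc : IsCompact B := by rw [hB]; exact isCompact_c _
  refine ⟨(μ B1)⁻¹ * volume C1, B, ENNReal.mul_ne_top (ENNReal.inv_ne_top.mpr hB10)
    hC1c.measure_lt_top.ne, hBc, ?_⟩
  intro f hf hhom
  obtain ⟨X, hX⟩ : ∃ X, X = ∫⁻ v in C, f v := ⟨_, rfl⟩
  have hCf : Measurable (C.indicator f) := hf.indicator hC.measurableSet
  have h1 : X * μ B1 = ∫⁻ g in B1, (∫⁻ w, C.indicator f (g.M *ᵥ w)) ∂μ := by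
    rw [← setLIntegral_const]
    refine setLIntegral_congr_fun hB1c.measurableSet fun g _ => ?_
    rw [(mp g).lintegral_comp hCf, lintegral_indicator hC.measurableSet, hX]
  have h2 : ∫⁻ g in B1, (∫⁻ w, C.indicator f (g.M *ᵥ w)) ∂μ =
      ∫⁻ w, ∫⁻ g in B1, C.indicator f (g.M *ᵥ w) ∂μ := by
    refine lintegral_lintegral_swap ?_
    refine (hCf.comp ?_).aemeasurable
    exact cont_act.measurable
  have h3 : ∀ w, ∫⁻ g in B1, C.indicator f (g.M *ᵥ w) ∂μ ≤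
      C1.indicator (fun _ => ∫⁻ g in B, f g.pt ∂μ) w := by
    intro w
    by_cases hw : w ∈ C1
    · rw [Set.indicator_of_mem hw]
      obtain ⟨h, l, hl, rfl, hh⟩ := hR w hw
      rw [← lintegral_indicator hBc.measurableSet, ← lintegral_indicator hB1c.measurableSet,
        ← lintegral_mul_right_eq_self (μ := μ) (B.indicator fun g => f g.pt) h]
      refine lintegral_mono fun g => ?_
      by_cases hg : g ∈ B1
      · have hg' : g * h ∈ B := by
          rw [hB1] at hg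
          rw [hB]
          refine (c_mul _ _).trans ?_
          have h4 := c_ge_one h
          have h6 : c g ≤ 2 := hg
          have h5 := c_ge_one g
          exact mul_le_mul (by linarith) hh (by linarith) (by linarith)
        rw [Set.indicator_of_mem hg, Set.indicator_of_mem hg', ← act_eq hhom g h l hl]
        exact Set.indicator_le_self _ _ _
      · rw [Set.indicator_of_notMem hg]
        exact zero_le
    · rw [Set.indicator_of_notMem hw]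
      have h4 : ∀ g ∈ B1, C.indicator f (g.M *ᵥ w) = 0 := by
        intro g hg
        rw [Set.indicator_of_notMem]
        intro h
        apply hw
        rw [hC1]
        refine ⟨(g, g.M *ᵥ w), ⟨hg, h⟩, ?_⟩
        show (g⁻¹).M *ᵥ (g.M *ᵥ w) = w
        rw [Matrix.mulVec_mulVec, inv_mul_M, Matrix.one_mulVec]
      rw [setLIntegral_congr_fun hB1c.measurableSet h4]
      simp
  have h5 : X * μ B1 ≤ (∫⁻ g in B, f g.pt ∂μ) * volume C1 := by
    rw [h1, h2]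
    refine (lintegral_mono h3).trans ?_
    rw [lintegral_indicator hC1c.measurableSet, setLIntegral_const]
  rw [← hX]
  calc X = (μ B1)⁻¹ * (X * μ B1) := by
        rw [mul_comm X, ← mul_assoc, ENNReal.inv_mul_cancel hB10 hB1t, one_mul]
    _ ≤ (μ B1)⁻¹ * ((∫⁻ g in B, f g.pt ∂μ) * volume C1) := mul_le_mul' le_rfl h5
    _ = (μ B1)⁻¹ * volume C1 * ∫⁻ g in B, f g.pt ∂μ := by ring

end Pool.Agent.MPd01a95
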