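import Mathlib
import Pool.Agent.Lib.MP_d01a95_gt_H.HDefs
import Pool.Agent.Lib.MP_d01a95_gt_H.Unimod

set_option autoImplicit false
set_option linter.all false

open Matrix Filter Topology MeasureTheory Measure
open scoped ENNReal NNReal ContDiff

namespace Pool.Agent.MPd01a95

open GU

namespace LocLip

variable {κ n ι : Type} [Fintype κ] [DecidableEq κ] [Fintype n] [DecidableEq n]
  [Fintype ι] [DecidableEq ι] {G : Type} [Group G]

/-! ### elementary facts on the cone -/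

theorem continuous_nq : Continuous (LowAux.nqC : (κ ⊕ Unit → ℂ) → ℝ) := by
  unfold LowAux.nqC
  fun_prop

theorem open_Cn : IsOpen (Cn κ) := isOpen_lt continuous_const continuous_nq

theorem e0_eq : (e0 : κ ⊕ Unit → ℂ) = LowAux.ee κ := by
  ext i
  cases i with
  | inl i => simp [e0, LowAux.ee]
  | inr i => simp [e0, LowAux.ee]

theorem nq_e0 : LowAux.nqC (e0 : κ ⊕ Unit → ℂ) = 1 := by
  simp [LowAux.nqC, e0]

theorem nq_pt (g : GU κ) : LowAux.nqC g.pt = 1 := by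
  rw [GU.pt, LowAux.nqC_iso g.pres, nq_e0]

theorem pt_Cn (g : GU κ) : g.pt ∈ Cn κ := by
  change 0 < LowAux.nqC g.pt
  rw [nq_pt]; exact one_pos

theorem nq_smul (l : ℂ) (v : κ ⊕ Unit → ℂ) : LowAux.nqC (l • v) = ‖l‖ ^ 2 * LowAux.nqC v := by
  simp only [LowAux.nqC, Pi.smul_apply, smul_eq_mul, norm_mul, mul_pow]
  rw [mul_sub, Finset.mul_sum]

theorem smul_Cn {v : κ ⊕ Unit → ℂ} (hv : v ∈ Cn κ) {l : ℂ} (hl : l ≠ 0) : l • v ∈ Cn κ := by
  change 0 < LowAux.nqC (l • v)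
  rw [nq_smul]
  have : 0 < ‖l‖ := norm_pos_iff.mpr hl
  have h2 : 0 < LowAux.nqC v := hv
  positivity

theorem mulVec_Cn (g : GU κ) {v : κ ⊕ Unit → ℂ} (hv : v ∈ Cn κ) : g.M *ᵥ v ∈ Cn κ := by
  change 0 < LowAux.nqC (g.M *ᵥ v)
  rw [LowAux.nqC_iso g.pres]; exact hv

theorem pt_mul (g h : GU κ) : (g * h).pt = g.M *ᵥ h.pt := by
  rw [GU.pt, GU.pt, M_mul, Matrix.mulVec_mulVec]

theorem dir_mul (g h : GU κ) (p : κ × Bool) : (g * h).dir p = g.M *ᵥ h.dir p := by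
  rw [GU.dir, GU.dir, M_mul, Matrix.mulVec_mulVec]

theorem inv_M_mulVec (g : GU κ) (v : κ ⊕ Unit → ℂ) : (g⁻¹).M *ᵥ (g.M *ᵥ v) = v := by
  rw [Matrix.mulVec_mulVec, inv_mul_M, Matrix.one_mulVec]

theorem M_inv_mulVec (g : GU κ) (v : κ ⊕ Unit → ℂ) : g.M *ᵥ ((g⁻¹).M *ᵥ v) = v := by
  rw [Matrix.mulVec_mulVec, mul_inv_M, Matrix.one_mulVec]

theorem ex_pt {v : κ ⊕ Unit → ℂ} (hv : v ∈ Cn κ) : ∃ g : GU κ, ∃ l : ℂ, l ≠ 0 ∧ v = l • g.pt := by
  have h0 : 0 < LowAux.nqC v := hv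
  set s : ℝ := Real.sqrt (LowAux.nqC v) with hs
  have hs0 : 0 < s := Real.sqrt_pos.mpr h0
  have hs2 : s ^ 2 = LowAux.nqC v := Real.sq_sqrt h0.le
  have hsC : (s : ℂ) ≠ 0 := by exact_mod_cast hs0.ne'
  obtain ⟨A, hA, hA2⟩ := LowAux.exists_iso ((s : ℂ)⁻¹ • v) (by
    rw [nq_smul, norm_inv, Complex.norm_real, Real.norm_eq_abs, abs_of_pos hs0, ← hs2]
    field_simp)
  obtain ⟨g, hg⟩ : ∃ g : GU κ, g.M = A := ⟨⟨A, hA⟩, rfl⟩
  refine ⟨g, s, hsC, ?_⟩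
  have : g.pt = (s : ℂ)⁻¹ • v := by
    rw [GU.pt, e0_eq, hg]; exact hA2
  rw [this, smul_smul, mul_inv_cancel₀ hsC, one_smul]

/-- `cosh ^ 2` of the distance to the origin, as a function on the cone -/
noncomputable def qv (v : κ ⊕ Unit → ℂ) : ℝ := ‖v (Sum.inr ())‖ ^ 2 / LowAux.nqC v

theorem qv_pt (g : GU κ) {l : ℂ} (hl : l ≠ 0) : qv (l • g.pt) = c g ^ 2 := by
  have h1 : ‖l‖ ≠ 0 := norm_ne_zero_iff.mpr hl
  have h2 : g.pt (Sum.inr ()) = g.M (Sum.inr ()) (Sum.inr ()) := by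
    rw [GU.pt, e0, Matrix.mulVec_single_one]; rfl
  rw [qv, nq_smul, nq_pt, Pi.smul_apply, smul_eq_mul, norm_mul, mul_pow, h2, mul_one,
    mul_div_assoc, mul_comm, div_mul_cancel₀ _ (pow_ne_zero 2 h1)]
  rfl

theorem qv_pt' (g : GU κ) : qv g.pt = c g ^ 2 := by
  have := qv_pt g one_ne_zero
  rwa [one_smul] at this

theorem qv_cont : ContinuousOn (qv : (κ ⊕ Unit → ℂ) → ℝ) (Cn κ) := by
  apply ContinuousOn.div
  · fun_prop
  · exact continuous_nq.continuousOn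
  · intro v hv
    exact (show (0 : ℝ) < LowAux.nqC v from hv).ne'

theorem continuous_pt : Continuous (GU.pt : GU κ → κ ⊕ Unit → ℂ) := by
  unfold GU.pt
  exact continuous_M.matrix_mulVec continuous_const

theorem continuous_dir (p : κ × Bool) : Continuous fun g : GU κ => g.dir p := by
  unfold GU.dir
  exact continuous_M.matrix_mulVec continuous_const

/-! ### locally Lipschitz functions -/

/-- locally Lipschitz at a point -/
def LAt {E : Type} [NormedAddCommGroup E] (f : E → ℝ) (v : E) : Prop :=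
  ∃ L : ℝ≥0, ∃ U ∈ 𝓝 v, LipschitzOnWith L f U

section lat

variable {E : Type} [NormedAddCommGroup E] [NormedSpace ℝ E]

theorem LAt.congr {f f' : E → ℝ} {v : E} (h : LAt f v) (e : f =ᶠ[𝓝 v] f') : LAt f' v := by
  obtain ⟨L, U, hU, hL⟩ := h
  refine ⟨L, U ∩ {w | f w = f' w}, inter_mem hU e, ?_⟩
  intro x hx y hy
  rw [← hx.2, ← hy.2]
  exact hL hx.1 hy.1

theorem LAt.const (a : ℝ) (v : E) : LAt (fun _ : E => a) v :=
  ⟨0, Set.univ, univ_mem, (LipschitzWith.const a).lipschitzOnWith⟩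

theorem LAt.add {f f' : E → ℝ} {v : E} (h : LAt f v) (h' : LAt f' v) :
    LAt (fun w => f w + f' w) v := by
  obtain ⟨L, U, hU, hL⟩ := h
  obtain ⟨L', U', hU', hL'⟩ := h'
  refine ⟨L + L', U ∩ U', inter_mem hU hU', ?_⟩
  refine LipschitzOnWith.of_dist_le_mul fun x hx y hy => ?_
  have h1 := hL.dist_le_mul x hx.1 y hy.1
  have h2 := hL'.dist_le_mul x hx.2 y hy.2
  calc dist (f x + f' x) (f y + f' y) ≤ dist (f x) (f y) + dist (f' x) (f' y) := dist_add_add_le _ _ _ _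
    _ ≤ L * dist x y + L' * dist x y := add_le_add h1 h2
    _ = ((L + L' : ℝ≥0) : ℝ) * dist x y := by push_cast; ring

theorem LAt.mul_left {f : E → ℝ} {v : E} (h : LAt f v) (a : ℝ) :
    LAt (fun w => a * f w) v := by
  obtain ⟨L, U, hU, hL⟩ := h
  refine ⟨‖a‖₊ * L, U, hU, ?_⟩
  refine LipschitzOnWith.of_dist_le_mul fun x hx y hy => ?_
  have h1 := hL.dist_le_mul x hx y hy
  rw [dist_eq_norm, ← mul_sub, norm_mul, ← dist_eq_norm]
  push_cast
  rw [mul_assoc]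
  exact mul_le_mul_of_nonneg_left h1 (norm_nonneg _)

theorem LAt.mul_right {f : E → ℝ} {v : E} (h : LAt f v) (a : ℝ) :
    LAt (fun w => f w * a) v := by
  refine (h.mul_left a).congr ?_
  filter_upwards with w
  ring

theorem LAt.sum {β : Type} (s : Finset β) {f : β → E → ℝ} {v : E} (h : ∀ b ∈ s, LAt (f b) v) :
    LAt (fun w => ∑ b ∈ s, f b w) v := by
  classical
  induction s using Finset.induction_on with
  | empty => simpa using LAt.const 0 v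
  | insert b s hb ih =>
    have h1 := (h b (Finset.mem_insert_self b s)).add
      (ih fun b' hb' => h b' (Finset.mem_insert_of_mem hb'))
    refine h1.congr ?_
    filter_upwards with w
    rw [Finset.sum_insert hb]

theorem LAt.comp_lin {E' : Type} [NormedAddCommGroup E'] [NormedSpace ℝ E'] {f : E' → ℝ} {v : E}
    (T : E →L[ℝ] E') (h : LAt f (T v)) : LAt (fun w => f (T w)) v := by
  obtain ⟨L, U, hU, hL⟩ := h
  refine ⟨L * ‖T‖₊, T ⁻¹' U, T.continuous.continuousAt.preimage_mem_nhds hU, ?_⟩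
  exact hL.comp (T.lipschitz.lipschitzOnWith) (fun x hx => hx)

theorem LAt.fderiv_le {f : E → ℝ} {v : E} (h : LAt f v) :
    ∃ L : ℝ, ∀ᶠ w in 𝓝 v, ‖fderiv ℝ f w‖ ≤ L := by
  obtain ⟨L, U, hU, hL⟩ := h
  refine ⟨L, ?_⟩
  filter_upwards [eventually_mem_nhds_iff.mpr hU] with w hw
  exact norm_fderiv_le_of_lipschitzOn ℝ hw hL

theorem LAt.continuousAt {f : E → ℝ} {v : E} (h : LAt f v) : ContinuousAt f v := by
  obtain ⟨L, U, hU, hL⟩ := h
  exact hL.continuousOn.continuousAt hU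

theorem fderiv_bdd {f : E → ℝ} {C : Set E} (hC : IsCompact C) (h : ∀ v ∈ C, LAt f v) :
    ∃ L : ℝ, 0 ≤ L ∧ ∀ v ∈ C, ‖fderiv ℝ f v‖ ≤ L := by
  have : ∃ L : ℝ, ∀ v ∈ C, ‖fderiv ℝ f v‖ ≤ L := by
    refine hC.induction_on (p := fun s => ∃ L : ℝ, ∀ v ∈ s, ‖fderiv ℝ f v‖ ≤ L) ?_ ?_ ?_ ?_
    · exact ⟨0, fun v hv => hv.elim⟩
    · rintro s t hst ⟨L, hL⟩
      exact ⟨L, fun v hv => hL v (hst hv)⟩
    · rintro s t ⟨L, hL⟩ ⟨L', hL'⟩
      refine ⟨max L L', fun v hv => ?_⟩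
      rcases hv with hv | hv
      · exact (hL v hv).trans (le_max_left _ _)
      · exact (hL' v hv).trans (le_max_right _ _)
    · intro v hv
      obtain ⟨L, hL⟩ := (h v hv).fderiv_le
      exact ⟨{w | ‖fderiv ℝ f w‖ ≤ L}, mem_nhdsWithin_of_mem_nhds hL, L, fun w hw => hw⟩
  obtain ⟨L, hL⟩ := this
  exact ⟨max L 0, le_max_right _ _, fun v hv => (hL v hv).trans (le_max_left _ _)⟩

end lat

theorem null_nondiff {f : (κ ⊕ Unit → ℂ) → ℝ} (h : ∀ v ∈ Cn κ, LAt f v) :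
    volume {v | v ∈ Cn κ ∧ ¬ DifferentiableAt ℝ f v} = 0 := by
  apply measure_null_of_locally_null
  rintro v ⟨hv, -⟩
  obtain ⟨L, U, hU, hL⟩ := h v hv
  obtain ⟨V, hVU, hV, hvV⟩ := mem_nhds_iff.mp hU
  have h1 := (hL.mono hVU).ae_differentiableWithinAt_of_mem (μ := volume)
  refine ⟨V ∩ {v | ¬ DifferentiableAt ℝ f v}, ?_, ?_⟩
  · rw [mem_nhdsWithin]
    exact ⟨V, hV, hvV, fun w hw => ⟨hw.1, hw.2.2⟩⟩
  · have h2 : ∀ᵐ x ∂(volume : Measure (κ ⊕ Unit → ℂ)),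
        ¬ (x ∈ V ∩ {v | ¬ DifferentiableAt ℝ f v}) := by
      filter_upwards [h1] with x hx hx2
      exact hx2.2 ((hx hx2.1).differentiableAt (hV.mem_nhds hx2.1))
    exact measure_eq_zero_iff_ae_notMem.mpr h2

/-- differentiability of homogeneous functions -/
theorem diff_smul {f : (κ ⊕ Unit → ℂ) → ℝ} (hh : ∀ v ∈ Cn κ, ∀ l : ℂ, l ≠ 0 → f (l • v) = f v)
    {v : κ ⊕ Unit → ℂ} (hv : v ∈ Cn κ) {l : ℂ} (hl : l ≠ 0) (hd : DifferentiableAt ℝ f (l • v)) :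
    DifferentiableAt ℝ f v := by
  have h1 : (fun w => f (l • w)) =ᶠ[𝓝 v] f := by
    filter_upwards [open_Cn.mem_nhds hv] with w hw
    exact hh w hw l hl
  have h2 : DifferentiableAt ℝ (fun w : κ ⊕ Unit → ℂ => f (l • w)) v :=
    DifferentiableAt.comp v hd (by fun_prop)
  exact h2.congr_of_eventuallyEq h1.symm

theorem diff_smul_iff {f : (κ ⊕ Unit → ℂ) → ℝ}
    (hh : ∀ v ∈ Cn κ, ∀ l : ℂ, l ≠ 0 → f (l • v) = f v)
    {v : κ ⊕ Unit → ℂ} (hv : v ∈ Cn κ) {l : ℂ} (hl : l ≠ 0) :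
    DifferentiableAt ℝ f (l • v) ↔ DifferentiableAt ℝ f v := by
  refine ⟨diff_smul hh hv hl, fun hd => ?_⟩
  apply diff_smul hh (smul_Cn hv hl) (inv_ne_zero hl)
  rwa [smul_smul, inv_mul_cancel₀ hl, one_smul]

/-- measurability of derivatives along the frame -/
theorem meas_fderiv (f : (κ ⊕ Unit → ℂ) → ℝ) (p : κ × Bool) :
    Measurable fun g : GU κ => fderiv ℝ f g.pt (g.dir p) := by
  have h1 : Measurable fun g : GU κ => fderiv ℝ f g.pt :=
    (measurable_fderiv ℝ f).comp continuous_pt.measurable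
  have h2 : Measurable fun g : GU κ => g.dir p := (continuous_dir p).measurable
  have h3 : Measurable fun g : GU κ => (fderiv ℝ f g.pt, g.dir p) := h1.prodMk h2
  have h4 : Continuous fun q : ((κ ⊕ Unit → ℂ) →L[ℝ] ℝ) × (κ ⊕ Unit → ℂ) => q.1 q.2 :=
    isBoundedBilinearMap_apply.continuous
  exact h4.measurable.comp h3

end LocLip

end Pool.Agent.MPd01a95
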