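import Mathlib
import Pool.Agent.Lib.MP_d01a95_gt_H.HDefs
import Pool.Agent.Lib.MP_d01a95_gt_H.Unimod
import Pool.Agent.Lib.MP_d01a95_gt_H.LocLip
import Pool.Agent.Lib.MP_d01a95_gt_H.Leb

set_option autoImplicit false
set_option linter.all false

open Matrix Filter Topology MeasureTheory Measure
open scoped ENNReal NNReal ContDiff

namespace Pool.Agent.MPd01a95

open GU

variable {κ n ι α : Type} [Fintype κ] [DecidableEq κ] [Fintype n] [DecidableEq n] [Fintype ι]
  [DecidableEq ι] [Fintype α] [DecidableEq α] {G : Type} [Group G]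

namespace AediffAux

open LocLip

/-- Rademacher on the group, scalar version -/
theorem ae_diff_scalar {f : (κ ⊕ Unit → ℂ) → ℝ} (h : ∀ v ∈ Cn κ, LAt f v)
    (hh : ∀ v ∈ Cn κ, ∀ l : ℂ, l ≠ 0 → f (l • v) = f v)
    (μ : Measure (GU κ)) [IsHaarMeasure μ] [μ.IsMulRightInvariant] :
    ∀ᵐ g ∂μ, DifferentiableAt ℝ f g.pt := by
  classical
  set N : Set (κ ⊕ Unit → ℂ) := {v | v ∈ Cn κ ∧ ¬ DifferentiableAt ℝ f v} with hN
  have hNm : MeasurableSet N :=
    open_Cn.measurableSet.inter (measurableSet_of_differentiableAt ℝ f).compl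
  have hN0 : volume N = 0 := null_nondiff h
  have key : ∀ R : ℕ, ∀ᵐ g ∂μ, g ∈ {g : GU κ | c g ≤ R} → g.pt ∉ N := by
    intro R
    have hB := isCompact_c (κ := κ) (R : ℝ)
    obtain ⟨A, C, hA, hC, hC2, hle⟩ := haar_to_leb μ _ hB
    have h1 := hle (N.indicator fun _ => 1) (measurable_const.indicator hNm) (by
      intro v hv l hl
      have : l • v ∈ N ↔ v ∈ N := by
        constructor
        · rintro ⟨-, h2⟩
          exact ⟨hv, fun hd => h2 ((diff_smul_iff hh hv hl).mpr hd)⟩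
        · rintro ⟨-, h2⟩
          exact ⟨smul_Cn hv hl, fun hd => h2 ((diff_smul_iff hh hv hl).mp hd)⟩
      by_cases hv2 : v ∈ N
      · rw [Set.indicator_of_mem hv2, Set.indicator_of_mem (this.mpr hv2)]
      · rw [Set.indicator_of_notMem hv2, Set.indicator_of_notMem fun h3 => hv2 (this.mp h3)])
    have h2 : ∫⁻ v in C, (N.indicator fun _ => (1 : ℝ≥0∞)) v = 0 := by
      rw [lintegral_indicator hNm, setLIntegral_const, one_mul]
      refine le_antisymm ?_ bot_le
      calc (volume.restrict C) N ≤ volume N := restrict_apply_le _ _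
        _ = 0 := hN0
    rw [h2, mul_zero] at h1
    have h3 : ∫⁻ g in {g : GU κ | c g ≤ R}, (N.indicator fun _ => (1 : ℝ≥0∞)) g.pt ∂μ = 0 :=
      le_antisymm h1 bot_le
    have hm : Measurable fun g : GU κ => N.indicator (fun _ => (1 : ℝ≥0∞)) g.pt :=
      (measurable_const.indicator hNm).comp continuous_pt.measurable
    have h3' := (lintegral_eq_zero_iff hm).mp h3
    have h4 := (ae_restrict_iff' hB.measurableSet).mp h3'
    filter_upwards [h4] with g hg hgR hgN
    have h5 := hg hgR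
    simp only [Pi.zero_apply] at h5
    rw [Set.indicator_of_mem hgN] at h5
    exact one_ne_zero h5
  have key2 := ae_all_iff.mpr key
  filter_upwards [key2] with g hg
  obtain ⟨R, hR⟩ := exists_nat_ge (c g)
  by_contra hcon
  exact hg R hR ⟨pt_Cn g, hcon⟩

end AediffAux

/-- module AEDIFF -/
theorem ae_diff {σ : G →* GU κ} {ρ : G →* Matrix n n ℝ} {H : (κ ⊕ Unit → ℂ) → Matrix n n ℝ}
    (hH : EqC σ ρ H) (μ : Measure (GU κ)) [IsHaarMeasure μ] [μ.IsMulRightInvariant] :
    ∀ᵐ g ∂μ, ∀ i j, DifferentiableAt ℝ (fun w => H w i j) g.pt := by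
  refine ae_all_iff.mpr fun i => ae_all_iff.mpr fun j => ?_
  refine AediffAux.ae_diff_scalar ?_ ?_ μ
  · intro v hv
    obtain ⟨L, U, hU, hL⟩ := hH.lip v hv
    exact ⟨L, U, hU, hL i j⟩
  · intro v hv l hl
    change H (l • v) i j = H v i j
    rw [hH.hom v hv l hl]

end Pool.Agent.MPd01a95
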