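import Mathlib
import Pool.Agent.Lib.MP_d01a95_gt_H.HDefs
import Pool.Agent.Lib.MP_d01a95_gt_H.Unimod

set_option autoImplicit false
set_option linter.all false

open Matrix Filter Topology MeasureTheory Measure
open scoped ENNReal NNReal ContDiff

namespace Pool.Agent.MPd01a95

open GU

variable {κ n ι α : Type} [Fintype κ] [DecidableEq κ] [Fintype n] [DecidableEq n]
  [Fintype ι] [DecidableEq ι] [Fintype α] [DecidableEq α] {G : Type} [Group G]

namespace TransAux

open scoped Pointwise

/-- right translation by `y`, as a continuous map depending continuously on `y` -/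
noncomputable def rt (κ : Type) [Fintype κ] [DecidableEq κ] : C(GU κ, C(GU κ, GU κ)) :=
  (ContinuousMap.mk (fun p : GU κ × GU κ => p.2 * p.1)
    (continuous_snd.mul continuous_fst)).curry

theorem rt_apply (y g : GU κ) : rt κ y g = g * y := rfl

/-- continuity of the translations in `L²` -/
theorem tendsto_norm (μ : Measure (GU κ)) [IsHaarMeasure μ] [μ.IsMulRightInvariant]
    {F : GU κ → ℝ} (hF : MemLp F 2 μ) :
    Tendsto (fun y : GU κ => ∫ g, |F (g * y) - F g| ^ 2 ∂μ) (𝓝 1) (𝓝 0) := by
  haveI : TopologicalSpace.MetrizableSpace (GU κ) :=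
    TopologicalSpace.metrizableSpace_of_t3_secondCountable _
  have hmp : ∀ y : GU κ, MeasurePreserving (rt κ y) μ μ := fun y =>
    measurePreserving_mul_right μ y
  have h1 : Continuous fun y : GU κ =>
      Lp.compMeasurePreserving (rt κ y) (hmp y) (hF.toLp F) :=
    continuous_const.compMeasurePreservingLp (rt κ).continuous hmp (by norm_num)
  have h2 : Tendsto (fun y : GU κ => ‖Lp.compMeasurePreserving (rt κ y) (hmp y) (hF.toLp F) -
      hF.toLp F‖ ^ 2) (𝓝 1) (𝓝 0) := by
    have h3 : Lp.compMeasurePreserving (rt κ 1) (hmp 1) (hF.toLp F) = hF.toLp F := by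
      rw [Lp.toLp_compMeasurePreserving]
      congr 1
      ext g
      simp [rt_apply]
    have h4 := ((h1.sub continuous_const).norm.pow 2).tendsto (1 : GU κ)
      (f := fun y : GU κ => ‖Lp.compMeasurePreserving (rt κ y) (hmp y) (hF.toLp F) -
        hF.toLp F‖ ^ 2)
    rw [h3] at h4
    simpa using h4
  refine h2.congr fun y => ?_
  have hFy : MemLp (fun g => F (g * y)) 2 μ := hF.comp_measurePreserving (hmp y)
  have h5 : Lp.compMeasurePreserving (rt κ y) (hmp y) (hF.toLp F) - hF.toLp F =
      (hFy.sub hF).toLp _ := by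
    rw [Lp.toLp_compMeasurePreserving, MemLp.toLp_sub hFy hF]
    rfl
  rw [h5, ← real_inner_self_eq_norm_sq, L2.inner_def]
  refine integral_congr_ae ?_
  filter_upwards [(hFy.sub hF).coeFn_toLp] with g hg
  rw [hg]
  simp only [Pi.sub_apply, sq_abs]
  rw [real_inner_self_eq_norm_sq, Real.norm_eq_abs, sq_abs]

end TransAux

open TransAux

open scoped Pointwise in
/-- module TRANS: functions of the group which are bounded on compact sets -/
theorem trans_cont (μ : Measure (GU κ)) [IsHaarMeasure μ] [μ.IsMulRightInvariant]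
    {f : GU κ → ℝ} (hf : Measurable f) (hb : ∀ B, IsCompact B → ∃ A : ℝ, ∀ g ∈ B, |f g| ≤ A)
    (B : Set (GU κ)) (hB : IsCompact B) (ε : ℝ) (hε : 0 < ε) :
    ∃ U ∈ 𝓝 (1 : GU κ), ∀ y ∈ U, ∫ g in B, |f (g * y) - f g| ^ 2 ∂μ < ε := by
  classical
  obtain ⟨W, hWc, hW1⟩ := exists_compact_mem_nhds (1 : GU κ)
  have hBW : IsCompact (B * W) := hB.mul hWc
  obtain ⟨A, hA⟩ := hb (B * W) hBW
  have hFm : Measurable ((B * W).indicator f) := hf.indicator hBW.measurableSet
  have hF : MemLp ((B * W).indicator f) 2 μ := by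
    rw [memLp_indicator_iff_restrict hBW.measurableSet]
    haveI : IsFiniteMeasure (μ.restrict (B * W)) :=
      ⟨by rw [Measure.restrict_apply_univ]; exact hBW.measure_lt_top⟩
    refine MemLp.of_bound hf.aestronglyMeasurable A ?_
    rw [ae_restrict_iff' hBW.measurableSet]
    exact Eventually.of_forall fun g hg => hA g hg
  have h1 := tendsto_norm μ hF
  have h2 : ∀ᶠ y in 𝓝 (1 : GU κ), ∫ g, |(B * W).indicator f (g * y) -
      (B * W).indicator f g| ^ 2 ∂μ < ε := h1.eventually (gt_mem_nhds hε)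
  refine ⟨_, inter_mem hW1 h2, fun y hy => ?_⟩
  refine lt_of_le_of_lt ?_ hy.2
  have h3 : ∫ g in B, |f (g * y) - f g| ^ 2 ∂μ =
      ∫ g in B, |(B * W).indicator f (g * y) - (B * W).indicator f g| ^ 2 ∂μ := by
    refine setIntegral_congr_fun hB.measurableSet fun g hg => ?_
    have e1 : g * y ∈ B * W := Set.mul_mem_mul hg hy.1
    have e2 : g ∈ B * W := by
      have := Set.mul_mem_mul hg (mem_of_mem_nhds hW1)
      rwa [mul_one] at this
    rw [Set.indicator_of_mem e1, Set.indicator_of_mem e2]
  rw [h3]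
  refine setIntegral_le_integral ?_ (Eventually.of_forall fun g => by positivity)
  have hFy : MemLp (fun g => (B * W).indicator f (g * y)) 2 μ :=
    hF.comp_measurePreserving (measurePreserving_mul_right μ y)
  have h4 := (hFy.sub hF).integrable_sq
  refine h4.congr (Eventually.of_forall fun g => ?_)
  simp only [Pi.sub_apply, sq_abs]

/-- module TRANS: elements with small displacement are close to the stabiliser -/
theorem near_K (U : Set (GU κ)) (hU : U ∈ 𝓝 1) : ∃ δ > 0, ∀ x : GU κ, c x ^ 2 < 1 + δ →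
    ∃ y ∈ U, ∃ k ∈ KU κ, x = y * k := by
  rcases isEmpty_or_nonempty κ with hκ | ⟨⟨j⟩⟩
  · refine ⟨1, one_pos, fun x _ => ⟨1, mem_of_mem_nhds hU, x, ⟨fun i => isEmptyElim i,
      fun i => isEmptyElim i⟩, (one_mul x).symm⟩⟩
  · have h1 : ∀ᶠ t : ℝ in 𝓝 0, ∀ k ∈ (KU κ : Set (GU κ)), k * bo t (j, true) * k⁻¹ ∈ U := by
      refine isCompact_KU.eventually_forall_of_forall_eventually fun k hk => ?_
      have h2 : Continuous fun p : ℝ × GU κ => p.2 * bo p.1 (j, true) * p.2⁻¹ :=
        ((continuous_snd.mul ((continuous_bo (j, true)).comp continuous_fst)).mul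
          continuous_snd.inv)
      have h3 : k * bo 0 (j, true) * k⁻¹ = 1 := by
        simp [bo_zero]
      have h4 := h2.tendsto ((0 : ℝ), k)
      simp only [h3] at h4
      exact h4.eventually hU
    obtain ⟨η, hη, h2⟩ := Metric.eventually_nhds_iff.1 h1
    have hη' : (1 : ℝ) < Real.cosh η := by
      have := Real.one_lt_cosh.2 hη.ne'
      exact this
    refine ⟨Real.cosh η ^ 2 - 1, by nlinarith, fun x hx => ?_⟩
    obtain ⟨k, hk, k', hk', t, ht, hxe, hct⟩ := kak j x
    have h3 : Real.cosh t < Real.cosh η := by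
      rw [hct]
      have : 0 ≤ c x := by linarith [c_ge_one x]
      nlinarith
    have h4 : |t| < η := by
      have := Real.cosh_lt_cosh.1 h3
      rwa [abs_of_pos hη] at this
    refine ⟨k * bo t (j, true) * k⁻¹, h2 (by simpa using h4) k hk, k * k', mul_mem hk hk', ?_⟩
    rw [hxe]
    group

end Pool.Agent.MPd01a95
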