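import Mathlib
import Pool.Agent.Lib.MP_d01a95_gt_H.HDefs
import Pool.Agent.Lib.MP_d01a95_gt_H.Unimod
import Pool.Agent.Lib.MP_d01a95_gt_H.Trans

set_option autoImplicit false
set_option linter.all false

open Matrix Filter Topology MeasureTheory Measure
open scoped ENNReal NNReal ContDiff

namespace Pool.Agent.MPd01a95

open GU

variable {κ n ι α : Type} [Fintype κ] [DecidableEq κ] [Fintype n] [DecidableEq n] [Fintype ι]
  [DecidableEq ι] [Fintype α] [DecidableEq α] {G : Type} [Group G]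

namespace AvgAux

theorem hf_eq (v w : κ ⊕ Unit → ℂ) : hf v w = -(star v ⬝ᵥ (JC κ *ᵥ w)) := by
  rw [hf, dotProduct, Fintype.sum_sum_type]
  simp only [LowAux.JC_mulVec_inl, Pi.star_apply, Finset.univ_unique, Finset.sum_singleton]
  have h : (default : Unit) = () := rfl
  rw [h, LowAux.JC_mulVec_inr]
  ring

theorem hf_inv' (g : GU κ) (v w : κ ⊕ Unit → ℂ) : hf (g.M *ᵥ v) (g.M *ᵥ w) = hf v w := by
  rw [hf_eq, hf_eq, Matrix.star_mulVec, ← Matrix.dotProduct_mulVec, Matrix.mulVec_mulVec,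
    Matrix.mulVec_mulVec, g.pres]

theorem nqC_inv' (g : GU κ) (v : κ ⊕ Unit → ℂ) : LowAux.nqC (g.M *ᵥ v) = LowAux.nqC v :=
  LowAux.nqC_iso g.pres v

theorem nqC_e0' : LowAux.nqC (e0 : κ ⊕ Unit → ℂ) = 1 := by
  simp [LowAux.nqC, e0]

theorem sv_pt (g x : GU κ) : sv g.pt x.pt = c (g⁻¹ * x) ^ 2 := by
  have e : x.pt = g.M *ᵥ (g⁻¹ * x).pt := by
    rw [GU.pt, GU.pt, Matrix.mulVec_mulVec, ← M_mul, mul_inv_cancel_left]
  rw [e]
  unfold sv
  rw [GU.pt, hf_inv', nqC_inv', nqC_inv', nqC_e0', GU.pt, nqC_inv', nqC_e0']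
  have h1 : hf (e0 : κ ⊕ Unit → ℂ) ((g⁻¹ * x).M *ᵥ e0) =
      (g⁻¹ * x).M (Sum.inr ()) (Sum.inr ()) := by
    rw [hf, mulVec_e0]
    simp [e0]
  rw [h1]
  simp [c, cc]

/-- weighted Jensen inequality for squares -/
theorem jensen {X : Type} [MeasurableSpace X] (μ : Measure X) {b u : X → ℝ} (hb0 : ∀ x, 0 ≤ b x)
    (hb : Integrable b μ) (hm : 0 < ∫ x, b x ∂μ) (h1 : Integrable (fun x => b x * u x) μ)
    (h2 : Integrable (fun x => b x * |u x| ^ 2) μ) :
    |(∫ x, b x * u x ∂μ) / (∫ x, b x ∂μ)| ^ 2 ≤ (∫ x, b x * |u x| ^ 2 ∂μ) / ∫ x, b x ∂μ := by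
  set m := ∫ x, b x ∂μ with hmd
  set I := ∫ x, b x * u x ∂μ with hI
  set a := I / m with ha
  have h3 : 0 ≤ ∫ x, b x * (u x - a) ^ 2 ∂μ :=
    integral_nonneg fun x => mul_nonneg (hb0 x) (sq_nonneg _)
  have h4 : ∫ x, b x * (u x - a) ^ 2 ∂μ = ∫ x, b x * |u x| ^ 2 ∂μ - 2 * a * I + a ^ 2 * m := by
    have e : ∀ x, b x * (u x - a) ^ 2 = (b x * |u x| ^ 2 - (2 * a) * (b x * u x)) + a ^ 2 * b x := by
      intro x; rw [sq_abs]; ring
    simp only [e]
    have h6 : Integrable (fun x => b x * |u x| ^ 2 - (2 * a) * (b x * u x)) μ :=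
      h2.sub (h1.const_mul _)
    rw [integral_add h6 (hb.const_mul _), integral_sub h2 (h1.const_mul _), integral_const_mul,
      integral_const_mul]
  have h5 : a * m = I := by rw [ha]; field_simp
  rw [sq_abs, le_div_iff₀ hm]
  have h7 : a * I = a ^ 2 * m := by rw [← h5]; ring
  rw [h4] at h3
  have h8 : 2 * a * I = 2 * (a ^ 2 * m) := by rw [← h7]; ring
  linarith

theorem main (μ : Measure (GU κ)) [IsHaarMeasure μ] {φ : GU κ → ℝ} (hφ : Measurable φ) {A : ℝ}
    (hA : ∀ g, |φ g| ≤ A) {b : GU κ → ℝ} (hbc : Continuous b) (hb0 : ∀ x, 0 ≤ b x)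
    (hbs : HasCompactSupport b) (hm : 0 < ∫ x, b x ∂μ) {B : Set (GU κ)} (hB : IsCompact B)
    {ε : ℝ} (hε : ∀ x, b x ≠ 0 → ∫ g in B, |φ (g * x) - φ g| ^ 2 ∂μ ≤ ε) :
    ∫ g in B, |(∫ x, b x * φ (g * x) ∂μ) / (∫ x, b x ∂μ) - φ g| ^ 2 ∂μ ≤ ε := by
  have hbi : Integrable b μ := hbc.integrable_of_hasCompactSupport hbs
  haveI : IsFiniteMeasure (μ.restrict B) := ⟨by
    rw [Measure.restrict_apply_univ]; exact hB.measure_lt_top⟩
  have hmm : Measurable fun z : GU κ × GU κ => φ (z.1 * z.2) := hφ.comp measurable_mul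
  have hA0 : 0 ≤ A := (abs_nonneg _).trans (hA 1)
  have hd : ∀ g x : GU κ, |φ (g * x) - φ g| ≤ 2 * A := fun g x => by
    have := abs_sub (φ (g * x)) (φ g)
    linarith [hA (g * x), hA g, this]
  have hint : Integrable (fun z : GU κ × GU κ => b z.2 * |φ (z.1 * z.2) - φ z.1| ^ 2)
      ((μ.restrict B).prod μ) := by
    refine Integrable.mono' ((integrable_const (μ := μ.restrict B) ((2 * A) ^ 2)).mul_prod hbi)
      ?_ (Eventually.of_forall fun z => ?_)
    · exact ((hbc.measurable.comp measurable_snd).mul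
        ((continuous_abs.measurable.comp (hmm.sub (hφ.comp measurable_fst))).pow_const 2)).aestronglyMeasurable
    · rw [Real.norm_eq_abs, abs_of_nonneg (mul_nonneg (hb0 _) (by positivity)), mul_comm]
      exact mul_le_mul_of_nonneg_right (pow_le_pow_left₀ (abs_nonneg _) (hd _ _) 2) (hb0 _)
  have hx1 : ∀ g, Integrable (fun x => b x * φ (g * x)) μ := fun g => by
    refine Integrable.mono' (hbi.const_mul A) (hbc.measurable.mul
      (hφ.comp (measurable_const_mul g))).aestronglyMeasurable (Eventually.of_forall fun x => ?_)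
    rw [Real.norm_eq_abs, abs_mul, abs_of_nonneg (hb0 x), mul_comm]
    exact mul_le_mul_of_nonneg_right (hA _) (hb0 _)
  have hx2 : ∀ g, Integrable (fun x => b x * (φ (g * x) - φ g)) μ := fun g => by
    have := (hx1 g).sub (hbi.mul_const (φ g))
    refine this.congr (Eventually.of_forall fun x => ?_)
    simp only [Pi.sub_apply]
    ring
  have hx3 : ∀ g, Integrable (fun x => b x * |φ (g * x) - φ g| ^ 2) μ := fun g => by
    refine Integrable.mono' (hbi.const_mul ((2 * A) ^ 2)) (hbc.measurable.mul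
      ((continuous_abs.measurable.comp ((hφ.comp (measurable_const_mul g)).sub_const _)).pow_const
        2)).aestronglyMeasurable (Eventually.of_forall fun x => ?_)
    rw [Real.norm_eq_abs, abs_of_nonneg (mul_nonneg (hb0 _) (by positivity)), mul_comm]
    exact mul_le_mul_of_nonneg_right (pow_le_pow_left₀ (abs_nonneg _) (hd _ _) 2) (hb0 _)
  set m := ∫ x, b x ∂μ with hmd
  have hj : ∀ g, |(∫ x, b x * φ (g * x) ∂μ) / m - φ g| ^ 2 ≤
      (∫ x, b x * |φ (g * x) - φ g| ^ 2 ∂μ) / m := by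
    intro g
    have h := jensen μ hb0 hbi hm (hx2 g) (hx3 g)
    have e : (∫ x, b x * (φ (g * x) - φ g) ∂μ) / m = (∫ x, b x * φ (g * x) ∂μ) / m - φ g := by
      have e1 : ∫ x, b x * (φ (g * x) - φ g) ∂μ = ∫ x, b x * φ (g * x) ∂μ - m * φ g := by
        rw [hmd, ← integral_mul_const, ← integral_sub (hx1 g) (hbi.mul_const _)]
        exact integral_congr_ae (Eventually.of_forall fun x => by ring)
      rw [e1, sub_div, mul_div_cancel_left₀ _ hm.ne']
    rw [e] at h
    exact h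
  calc ∫ g in B, |(∫ x, b x * φ (g * x) ∂μ) / m - φ g| ^ 2 ∂μ
      ≤ ∫ g in B, (∫ x, b x * |φ (g * x) - φ g| ^ 2 ∂μ) / m ∂μ :=
        integral_mono_of_nonneg (Eventually.of_forall fun g => by positivity)
          (hint.integral_prod_left.div_const m) (Eventually.of_forall hj)
    _ = (∫ g in B, ∫ x, b x * |φ (g * x) - φ g| ^ 2 ∂μ ∂μ) / m := integral_div _ _
    _ = (∫ x, ∫ g in B, b x * |φ (g * x) - φ g| ^ 2 ∂μ ∂μ) / m := by
        rw [integral_integral_swap hint]
    _ = (∫ x, b x * ∫ g in B, |φ (g * x) - φ g| ^ 2 ∂μ ∂μ) / m := by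
        congr 1
        refine integral_congr_ae (Eventually.of_forall fun x => ?_)
        exact integral_const_mul _ _
    _ ≤ (∫ x, b x * ε ∂μ) / m := by
        refine div_le_div_of_nonneg_right ?_ hm.le
        refine integral_mono_of_nonneg (Eventually.of_forall fun x => ?_) (hbi.mul_const _)
          (Eventually.of_forall fun x => ?_)
        · exact mul_nonneg (hb0 x) (integral_nonneg fun g => by positivity)
        · by_cases hx : b x = 0
          · simp [hx]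
          · exact mul_le_mul_of_nonneg_left (hε x hx) (hb0 x)
    _ = ε := by
        rw [integral_mul_const, mul_comm, mul_div_assoc, div_self hm.ne', mul_one]

end AvgAux

open AvgAux

/-- module AVG: radial approximate identity in `L²` -/
theorem avg_tendsto (μ : Measure (GU κ)) [IsHaarMeasure μ] [μ.IsMulRightInvariant]
    [μ.IsInvInvariant] {f : GU κ → ℝ} (hf : Measurable f)
    (hb : ∀ B, IsCompact B → ∃ A : ℝ, ∀ g ∈ B, |f g| ≤ A)
    (hK : ∀ g, ∀ k ∈ KU κ, f (g * k) = f g) (β : ℕ → ℝ → ℝ) (hβ : ∀ k, Continuous (β k))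
    (hβ0 : ∀ k s, 0 ≤ β k s) (hβ1 : ∀ k, 0 < β k 1)
    (hβs : ∀ (k : ℕ) (s : ℝ), 1 ≤ (k : ℝ) * |s - 1| → β k s = 0)
    (B : Set (GU κ)) (hB : IsCompact B) :
    Tendsto (fun k => ∫ g in B, |(∫ x, β k (sv g.pt x.pt) * f x ∂μ) / (∫ x, β k (c x ^ 2) ∂μ)
      - f g| ^ 2 ∂μ) atTop (𝓝 0) := by
  obtain ⟨R, hR1, hR⟩ := exists_bound hB
  set B' : Set (GU κ) := {g | c g ≤ 4 * R} with hB'd
  have hB' : IsCompact B' := isCompact_c (4 * R)
  obtain ⟨A, hA⟩ := hb B' hB'
  set φ := B'.indicator f with hφd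
  have hφm : Measurable φ := hf.indicator hB'.measurableSet
  have hφA : ∀ g, |φ g| ≤ max A 0 := by
    intro g
    by_cases hg : g ∈ B'
    · rw [hφd, Set.indicator_of_mem hg]
      exact (hA g hg).trans (le_max_left _ _)
    · rw [hφd, Set.indicator_of_notMem hg, abs_zero]
      exact le_max_right _ _
  have hBB : ∀ g ∈ B, φ g = f g := fun g hg => by
    have h : g ∈ B' := by
      have := hR g hg
      change c g ≤ 4 * R
      linarith
    rw [hφd, Set.indicator_of_mem h]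
  have hBx : ∀ g ∈ B, ∀ x, c x ≤ 2 → φ (g * x) = f (g * x) := fun g hg x hx => by
    have h : g * x ∈ B' := by
      have h1 := hR g hg
      have h4 := c_mul g x
      have h5 := c_ge_one x
      have h6 := c_ge_one g
      change c (g * x) ≤ 4 * R
      nlinarith
    rw [hφd, Set.indicator_of_mem h]
  rw [Metric.tendsto_atTop]
  intro ε hε
  obtain ⟨U, hU, hU2⟩ := trans_cont μ hf hb B hB (ε / 2) (by positivity)
  obtain ⟨δ, hδ, hδ2⟩ := near_K U hU
  obtain ⟨N, hN⟩ := exists_nat_gt (max 1 (1 / δ))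
  refine ⟨N, fun k hk => ?_⟩
  have hk1 : (1 : ℝ) < k := lt_of_lt_of_le (lt_of_le_of_lt (le_max_left _ _) hN)
    (by exact_mod_cast hk)
  have hk2 : 1 / δ < (k : ℝ) := lt_of_lt_of_le (lt_of_le_of_lt (le_max_right _ _) hN)
    (by exact_mod_cast hk)
  have hkδ : 1 < k * δ := by
    rw [div_lt_iff₀ hδ] at hk2
    exact hk2
  set b : GU κ → ℝ := fun x => β k (c x ^ 2) with hbd
  have hbc : Continuous b := (hβ k).comp (continuous_c.pow 2)
  have hb0 : ∀ x, 0 ≤ b x := fun x => hβ0 k _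
  have hbn : ∀ x, b x ≠ 0 → c x ^ 2 < 1 + δ ∧ c x ≤ 2 := by
    intro x hx
    have h1 : (k : ℝ) * |c x ^ 2 - 1| < 1 := by
      by_contra h
      exact hx (hβs k _ (not_lt.mp h))
    have h2 := c_ge_one x
    have h3 : 0 ≤ c x ^ 2 - 1 := by nlinarith
    rw [abs_of_nonneg h3] at h1
    constructor
    · by_contra h
      have h4 : δ ≤ c x ^ 2 - 1 := by linarith
      nlinarith
    · by_contra h
      have h4 : 1 ≤ c x ^ 2 - 1 := by nlinarith
      nlinarith
  have hbs : HasCompactSupport b := by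
    refine HasCompactSupport.intro (isCompact_c 2) fun x hx => ?_
    by_contra h
    exact hx (hbn x h).2
  have hm : 0 < ∫ x, b x ∂μ := by
    refine hbc.integral_pos_of_hasCompactSupport_nonneg_nonzero (x := 1) hbs hb0 ?_
    have := KU_c (1 : GU κ) (one_mem _)
    rw [hbd]
    simp only [this]
    rw [one_pow]
    exact (hβ1 k).ne'
  have h1 := main μ hφm hφA hbc hb0 hbs hm hB (ε := ε / 2) (fun x hx => by
    obtain ⟨hx1, hx2⟩ := hbn x hx
    obtain ⟨y, hy, k', hk', he⟩ := hδ2 x hx1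
    have e : ∫ g in B, |φ (g * x) - φ g| ^ 2 ∂μ = ∫ g in B, |f (g * y) - f g| ^ 2 ∂μ := by
      refine setIntegral_congr_fun hB.measurableSet fun g hg => ?_
      simp only [hBB g hg, hBx g hg x hx2]
      rw [he, ← mul_assoc, hK _ k' hk']
    rw [e]
    exact (hU2 y hy).le)
  have e : ∫ g in B, |(∫ x, β k (sv g.pt x.pt) * f x ∂μ) / (∫ x, β k (c x ^ 2) ∂μ)
      - f g| ^ 2 ∂μ = ∫ g in B, |(∫ x, b x * φ (g * x) ∂μ) / (∫ x, b x ∂μ) - φ g| ^ 2 ∂μ := by
    refine setIntegral_congr_fun hB.measurableSet fun g hg => ?_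
    have e1 : ∫ x, β k (sv g.pt x.pt) * f x ∂μ = ∫ x, b x * φ (g * x) ∂μ := by
      rw [← integral_mul_left_eq_self (fun x => β k (sv g.pt x.pt) * f x) g]
      refine integral_congr_ae (Eventually.of_forall fun x => ?_)
      simp only [sv_pt, inv_mul_cancel_left]
      by_cases hx : b x = 0
      · have hx' : β k (c x ^ 2) = 0 := hx
        rw [hx, hx', zero_mul, zero_mul]
      · rw [hBx g hg x (hbn x hx).2]
    simp only [e1, hBB g hg]
    rfl
  rw [Real.dist_eq, sub_zero, abs_of_nonneg (integral_nonneg fun g => by positivity), e]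
  linarith

end Pool.Agent.MPd01a95
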