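import Mathlib
import Pool.Agent.Lib.MP_d01a95_gt_H.HDefs
import Pool.Agent.Lib.MP_d01a95_gt_H.Unimod

set_option autoImplicit false
set_option linter.all false

open Matrix Filter Topology MeasureTheory Measure
open scoped ENNReal NNReal ContDiff

namespace Pool.Agent.MPd01a95

open GU

variable {κ n ι α : Type} [Fintype κ] [DecidableEq κ] [Fintype n] [DecidableEq n]
  [Fintype ι] [DecidableEq ι] [Fintype α] [DecidableEq α] {G : Type} [Group G]

namespace ConeAux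

theorem continuous_nqC : Continuous (LowAux.nqC : (κ ⊕ Unit → ℂ) → ℝ) := by
  unfold LowAux.nqC
  fun_prop

theorem nqC_e0 : LowAux.nqC (e0 : κ ⊕ Unit → ℂ) = 1 := by
  simp [LowAux.nqC, e0]

theorem nqC_smul (l : ℂ) (v : κ ⊕ Unit → ℂ) :
    LowAux.nqC (l • v) = ‖l‖ ^ 2 * LowAux.nqC v := by
  simp only [LowAux.nqC, Pi.smul_apply, smul_eq_mul, norm_mul, mul_pow, mul_sub, Finset.mul_sum]

theorem hf_eq (v w : κ ⊕ Unit → ℂ) : hf v w = -(star v ⬝ᵥ (JC κ *ᵥ w)) := by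
  rw [LowAux.herm, hf]
  ring

theorem hf_smul (l l' : ℂ) (v w : κ ⊕ Unit → ℂ) :
    hf (l • v) (l' • w) = star l * l' * hf v w := by
  simp only [hf, Pi.smul_apply, smul_eq_mul, star_mul', mul_sub, Finset.mul_sum]
  congr 1
  · ring
  · refine Finset.sum_congr rfl fun i _ => ?_
    ring

theorem hf_star (v w : κ ⊕ Unit → ℂ) : hf w v = star (hf v w) := by
  simp only [hf, star_sub, star_sum, star_mul', star_star]
  congr 1
  · ring
  · refine Finset.sum_congr rfl fun i _ => ?_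
    ring

end ConeAux

open ConeAux

/-- module CONE -/
theorem isOpen_Cn : IsOpen (Cn κ) := isOpen_lt continuous_const continuous_nqC

/-- module CONE -/
theorem pt_mem (g : GU κ) : g.pt ∈ Cn κ ∧ LowAux.nqC g.pt = 1 := by
  have h : LowAux.nqC g.pt = 1 := by
    rw [GU.pt, LowAux.nqC_iso g.pres, nqC_e0]
  refine ⟨?_, h⟩
  show 0 < LowAux.nqC g.pt
  rw [h]
  norm_num

/-- module CONE -/
theorem hf_inv (g : GU κ) (v w : κ ⊕ Unit → ℂ) : hf (g.M *ᵥ v) (g.M *ᵥ w) = hf v w := by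
  rw [hf_eq, hf_eq, Matrix.star_mulVec, ← Matrix.dotProduct_mulVec, Matrix.mulVec_mulVec,
    Matrix.mulVec_mulVec, g.pres]

/-- module CONE -/
theorem sv_inv (g : GU κ) (v w : κ ⊕ Unit → ℂ) : sv (g.M *ᵥ v) (g.M *ᵥ w) = sv v w := by
  rw [sv, sv, hf_inv, LowAux.nqC_iso g.pres, LowAux.nqC_iso g.pres]

/-- module CONE -/
theorem sv_smul {l l' : ℂ} (hl : l ≠ 0) (hl' : l' ≠ 0) (v w : κ ⊕ Unit → ℂ) :
    sv (l • v) (l' • w) = sv v w := by
  have h1 : 0 < ‖l‖ := norm_pos_iff.mpr hl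
  have h2 : 0 < ‖l'‖ := norm_pos_iff.mpr hl'
  rw [sv, sv, hf_smul, nqC_smul, nqC_smul, norm_mul, norm_mul, norm_star]
  have h3 : (‖l‖ * ‖l'‖ * ‖hf v w‖) ^ 2 = (‖l‖ ^ 2 * ‖l'‖ ^ 2) * ‖hf v w‖ ^ 2 := by ring
  have h4 : ‖l‖ ^ 2 * LowAux.nqC v * (‖l'‖ ^ 2 * LowAux.nqC w) =
      (‖l‖ ^ 2 * ‖l'‖ ^ 2) * (LowAux.nqC v * LowAux.nqC w) := by ring
  rw [h3, h4]
  exact mul_div_mul_left _ _ (by positivity)

/-- module CONE -/
theorem sv_symm (v w : κ ⊕ Unit → ℂ) : sv v w = sv w v := by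
  rw [sv, sv, hf_star v w, norm_star, mul_comm (LowAux.nqC v)]

/-- module CONE -/
theorem sv_e0 (g : GU κ) : sv e0 g.pt = c g ^ 2 := by
  have h1 : hf e0 g.pt = g.M (Sum.inr ()) (Sum.inr ()) := by
    rw [hf, GU.pt, mulVec_e0]
    simp [e0]
  rw [sv, h1, nqC_e0, (pt_mem g).2, mul_one, div_one]
  rfl

/-- module CONE: a vector of the cone is a multiple of a point of the group -/
theorem exists_pt (v : κ ⊕ Unit → ℂ) (hv : v ∈ Cn κ) :
    ∃ g : GU κ, ∃ l : ℂ, l ≠ 0 ∧ v = l • g.pt := by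
  have hv' : 0 < LowAux.nqC v := hv
  set s : ℝ := Real.sqrt (LowAux.nqC v) with hs
  have hs0 : 0 < s := Real.sqrt_pos.mpr hv'
  have hs2 : s ^ 2 = LowAux.nqC v := Real.sq_sqrt hv'.le
  have hsC : (s : ℂ) ≠ 0 := by exact_mod_cast hs0.ne'
  have h1 : LowAux.nqC ((s : ℂ)⁻¹ • v) = 1 := by
    rw [nqC_smul, norm_inv, Complex.norm_real, Real.norm_of_nonneg hs0.le, ← hs2]
    field_simp
  obtain ⟨h, hh, he⟩ := LowAux.exists_iso _ h1
  refine ⟨⟨h, hh⟩, (s : ℂ), hsC, ?_⟩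
  have h2 : GU.pt (⟨h, hh⟩ : GU κ) = (s : ℂ)⁻¹ • v := by
    rw [← he]
    show h *ᵥ e0 = h *ᵥ LowAux.ee κ
    congr 1
    funext i
    rcases i with i | i
    · simp [e0, LowAux.ee]
    · simp [e0, LowAux.ee]
  rw [h2, smul_smul, mul_inv_cancel₀ hsC, one_smul]

/-- module CONE: elements with the same point differ by the stabiliser -/
theorem pt_eq_iff (g g' : GU κ) (l : ℂ) (h : g.pt = l • g'.pt) : g'⁻¹ * g ∈ KU κ := by
  set u : GU κ := g'⁻¹ * g with hu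
  have h0 : u.M *ᵥ e0 = l • (e0 : κ ⊕ Unit → ℂ) := by
    rw [hu, M_mul, ← Matrix.mulVec_mulVec]
    show (g'⁻¹).M *ᵥ g.pt = _
    rw [h, GU.pt, Matrix.mulVec_smul, Matrix.mulVec_mulVec, inv_mul_M, Matrix.one_mulVec]
  have hl : ‖l‖ ^ 2 = 1 := by
    have h1 := LowAux.nqC_iso u.pres (e0 : κ ⊕ Unit → ℂ)
    rw [h0, nqC_smul, nqC_e0, mul_one] at h1
    exact h1
  have hl1 : ‖l‖ = 1 := by
    have := norm_nonneg l
    nlinarith
  have h1 : ∀ i, u.M (Sum.inl i) (Sum.inr ()) = 0 := fun i => by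
    have h2 := mulVec_e0 u.M (Sum.inl i)
    rw [h0] at h2
    rw [← h2]; simp [e0]
  have h2 : u.M (Sum.inr ()) (Sum.inr ()) = l := by
    have h2 := mulVec_e0 u.M (Sum.inr ())
    rw [h0] at h2
    rw [← h2]; simp [e0]
  refine ⟨h1, fun i => ?_⟩
  have h3 := HypAux.row_n u.M u.pres
  have h4 : cc u.M = 1 := by unfold cc; rw [h2, hl1]
  rw [h4] at h3
  have h5 : ∑ i, ‖u.M (Sum.inr ()) (Sum.inl i)‖ ^ 2 = 0 := by linarith
  have h6 := (Finset.sum_eq_zero_iff_of_nonneg (fun i _ => by positivity)).mp h5 i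
    (Finset.mem_univ i)
  have h7 : ‖u.M (Sum.inr ()) (Sum.inl i)‖ = 0 := pow_eq_zero_iff (two_ne_zero) |>.mp h6
  exact norm_eq_zero.mp h7

/-- module CONE: a Lipschitz section, compactness -/
theorem compact_lift (C : Set (κ ⊕ Unit → ℂ)) (hC : C ⊆ Cn κ) (hCc : IsCompact C) :
    ∃ R : ℝ, ∀ g : GU κ, (∃ l : ℂ, l ≠ 0 ∧ l • g.pt ∈ C) → c g ≤ R := by
  rcases C.eq_empty_or_nonempty with hE | hne
  · refine ⟨0, fun g hg => ?_⟩
    obtain ⟨l, _, hl⟩ := hg
    rw [hE] at hl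
    exact absurd hl (Set.notMem_empty _)
  obtain ⟨v₀, hv₀, hmin⟩ := hCc.exists_isMinOn hne continuous_nqC.continuousOn
  have hδ : 0 < LowAux.nqC v₀ := hC hv₀
  obtain ⟨R, hR⟩ := hCc.isBounded.exists_norm_le
  set δ := Real.sqrt (LowAux.nqC v₀) with hδd
  have hδ0 : 0 < δ := Real.sqrt_pos.mpr hδ
  refine ⟨R / δ, fun g hg => ?_⟩
  obtain ⟨l, _, hl⟩ := hg
  have h1 : LowAux.nqC v₀ ≤ ‖l‖ ^ 2 := by
    have := hmin hl
    simp only [Set.mem_setOf_eq] at this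
    rwa [nqC_smul, (pt_mem g).2, mul_one] at this
  have h2 : δ ≤ ‖l‖ := by
    rw [hδd]
    exact Real.sqrt_le_iff.mpr ⟨norm_nonneg _, h1⟩
  have h3 : ‖l‖ * c g ≤ R := by
    have h4 := norm_le_pi_norm (l • g.pt) (Sum.inr ())
    have h5 : ‖(l • g.pt) (Sum.inr ())‖ = ‖l‖ * c g := by
      rw [Pi.smul_apply, smul_eq_mul, norm_mul, GU.pt, mulVec_e0]
      rfl
    rw [h5] at h4
    exact h4.trans (hR _ hl)
  rw [le_div_iff₀ hδ0]
  have h6 := c_ge_one g
  nlinarith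

/-- module CONE: the directions form a frame -/
theorem frame_span (B : Set (GU κ)) (hB : IsCompact B) : ∃ A : ℝ, ∀ g ∈ B,
    ∀ u : κ ⊕ Unit → ℂ, ∃ (r : κ × Bool → ℝ) (l : ℂ), u = ∑ p, r p • g.dir p + l • g.pt ∧
      ∀ p, |r p| ≤ A * ‖u‖ := by
  obtain ⟨R, hR1, hR⟩ := exists_bound hB
  refine ⟨Fintype.card (κ ⊕ Unit) * (2 * R), fun g hg u => ?_⟩
  set w : κ ⊕ Unit → ℂ := (g⁻¹).M *ᵥ u with hw
  have hu : g.M *ᵥ w = u := by
    rw [hw, Matrix.mulVec_mulVec, mul_inv_M, Matrix.one_mulVec]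
  refine ⟨fun p => if p.2 then (w (Sum.inl p.1)).re else (w (Sum.inl p.1)).im,
    w (Sum.inr ()), ?_, ?_⟩
  · have h1 : w = ∑ p : κ × Bool, (if p.2 then (w (Sum.inl p.1)).re else
        (w (Sum.inl p.1)).im) • (wb p.2 • ej p.1) + w (Sum.inr ()) • e0 := by
      funext i
      rw [Fintype.sum_prod_type]
      simp only [Fintype.sum_bool, Pi.add_apply, Finset.sum_apply, Pi.smul_apply, wb, if_true,
        if_false, Bool.false_eq_true, smul_eq_mul]
      rcases i with i | i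
      · have h2 : ∀ x : κ, ((w (Sum.inl x)).re • (1 * (ej x : κ ⊕ Unit → ℂ) (Sum.inl i)) +
            (w (Sum.inl x)).im • (Complex.I * (ej x : κ ⊕ Unit → ℂ) (Sum.inl i))) =
            if x = i then w (Sum.inl i) else 0 := by
          intro x
          by_cases hx : x = i
          · subst hx
            simp only [ej, Pi.single_eq_same, if_true, Complex.real_smul, mul_one]
            exact Complex.re_add_im _
          · have hx' : (Sum.inl i : κ ⊕ Unit) ≠ Sum.inl x := fun h => hx (Sum.inl.inj h).symm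
            simp [ej, Pi.single_eq_of_ne hx', hx]
        simp only [h2, Finset.sum_ite_eq', Finset.mem_univ, if_true]
        simp [e0]
      · have h2 : ∀ x : κ, ((w (Sum.inl x)).re • (1 * (ej x : κ ⊕ Unit → ℂ) (Sum.inr i)) +
            (w (Sum.inl x)).im • (Complex.I * (ej x : κ ⊕ Unit → ℂ) (Sum.inr i))) = 0 := by
          intro x
          simp [ej]
        simp only [h2, Finset.sum_const_zero, zero_add]
        simp [e0]
    have h3 : g.M *ᵥ (∑ p : κ × Bool, (if p.2 then (w (Sum.inl p.1)).re else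
        (w (Sum.inl p.1)).im) • (wb p.2 • ej p.1) + w (Sum.inr ()) • e0) =
        ∑ p : κ × Bool, (if p.2 then (w (Sum.inl p.1)).re else
        (w (Sum.inl p.1)).im) • g.dir p + w (Sum.inr ()) • g.pt := by
      rw [Matrix.mulVec_add, Matrix.mulVec_smul, Matrix.mulVec_sum]
      congr 1
      refine Finset.sum_congr rfl fun p _ => ?_
      rw [Matrix.mulVec_smul]
      rfl
    rw [← h3, ← h1, hu]
  · intro p
    have h1 : ‖w (Sum.inl p.1)‖ ≤ Fintype.card (κ ⊕ Unit) * (2 * R) * ‖u‖ := by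
      have h2 : ‖w (Sum.inl p.1)‖ ≤ ∑ k : κ ⊕ Unit, ‖(g⁻¹).M (Sum.inl p.1) k‖ * ‖u k‖ := by
        rw [hw, Matrix.mulVec, dotProduct]
        refine (norm_sum_le _ _).trans (Finset.sum_le_sum fun k _ => ?_)
        rw [norm_mul]
      have h3 : ∀ k ∈ (Finset.univ : Finset (κ ⊕ Unit)),
          ‖(g⁻¹).M (Sum.inl p.1) k‖ * ‖u k‖ ≤ 2 * R * ‖u‖ := by
        intro k _
        have h4 := entry_le g⁻¹ (Sum.inl p.1) k
        rw [c_inv] at h4
        have h5 := hR g hg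
        have h6 := norm_le_pi_norm u k
        apply mul_le_mul (by linarith) h6 (norm_nonneg _) (by linarith)
      have h4 := Finset.sum_le_sum h3
      rw [Finset.sum_const, Finset.card_univ, nsmul_eq_mul] at h4
      linarith
    refine le_trans ?_ h1
    dsimp only
    split_ifs
    · exact Complex.abs_re_le_norm _
    · exact Complex.abs_im_le_norm _

/-- module CONE: Lipschitz estimates on compact sets, `H` locally Lipschitz -/
theorem EqC.lip_compact {σ : G →* GU κ} {ρ : G →* Matrix n n ℝ}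
    {H : (κ ⊕ Unit → ℂ) → Matrix n n ℝ} (hH : EqC σ ρ H) (C : Set (κ ⊕ Unit → ℂ))
    (hC : C ⊆ Cn κ) (hCc : IsCompact C) : ∃ L : ℝ, ∀ v ∈ C, ∀ w ∈ C, ∀ i j,
      |H v i j - H w i j| ≤ L * ‖v - w‖ := by
  have h1 : ∀ i j, ∃ K : ℝ≥0, LipschitzOnWith K (fun w => H w i j) C := by
    intro i j
    apply LocallyLipschitzOn.exists_lipschitzOnWith_of_compact hCc
    intro v hv
    obtain ⟨L, U, hU, hL⟩ := hH.lip v (hC hv)
    exact ⟨L, U, mem_nhdsWithin_of_mem_nhds hU, hL i j⟩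
  choose K hK using h1
  refine ⟨∑ i, ∑ j, (K i j : ℝ), fun v hv w hw i j => ?_⟩
  have h2 := (hK i j).dist_le_mul v hv w hw
  rw [Real.dist_eq, dist_eq_norm] at h2
  refine h2.trans (mul_le_mul_of_nonneg_right ?_ (norm_nonneg _))
  have h3 : (K i j : ℝ) ≤ ∑ j, (K i j : ℝ) :=
    Finset.single_le_sum (f := fun j => (K i j : ℝ)) (fun _ _ => NNReal.coe_nonneg _)
      (Finset.mem_univ j)
  refine h3.trans ?_
  exact Finset.single_le_sum (f := fun i => ∑ j, (K i j : ℝ))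
    (fun _ _ => Finset.sum_nonneg fun _ _ => NNReal.coe_nonneg _) (Finset.mem_univ i)

end Pool.Agent.MPd01a95
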