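import Mathlib
import Pool.Agent.Lib.MP_d01a95_gt_H.HDefs
import Pool.Agent.Lib.MP_d01a95_gt_H.Unimod
import Pool.Agent.Lib.MP_d01a95_gt_H.Cone

set_option autoImplicit false
set_option linter.all false

open Matrix Filter Topology MeasureTheory Measure
open scoped ENNReal NNReal ContDiff

namespace Pool.Agent.MPd01a95

open GU

variable {κ n ι α : Type} [Fintype κ] [DecidableEq κ] [Fintype n] [DecidableEq n]
  [Fintype ι] [DecidableEq ι] [Fintype α] [DecidableEq α] {G : Type} [Group G]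

namespace Mol1Aux

open ConeAux

/-! ### smoothness of the elementary functions -/

theorem contDiff_coord (i : κ ⊕ Unit) : ContDiff ℝ ∞ fun v : κ ⊕ Unit → ℂ => v i :=
  contDiff_apply ℝ ℂ i

theorem contDiff_star {E : Type} [NormedAddCommGroup E] [NormedSpace ℝ E] {f : E → ℂ}
    (hf : ContDiff ℝ ∞ f) : ContDiff ℝ ∞ fun v => star (f v) :=
  (Complex.conjCLE : ℂ ≃L[ℝ] ℂ).contDiff.comp hf

theorem contDiff_nqC : ContDiff ℝ ∞ (LowAux.nqC : (κ ⊕ Unit → ℂ) → ℝ) := by
  unfold LowAux.nqC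
  refine ((contDiff_norm_sq ℝ).comp (contDiff_coord (Sum.inr ()))).sub ?_
  exact ContDiff.sum fun i _ => (contDiff_norm_sq ℝ).comp (contDiff_coord (Sum.inl i))

theorem contDiff_hf : ContDiff ℝ ∞
    fun p : (κ ⊕ Unit → ℂ) × (κ ⊕ Unit → ℂ) => hf p.1 p.2 := by
  unfold hf
  have h1 : ∀ i : κ ⊕ Unit, ContDiff ℝ ∞
      fun p : (κ ⊕ Unit → ℂ) × (κ ⊕ Unit → ℂ) => star (p.1 i) * p.2 i := fun i =>
    (contDiff_star ((contDiff_coord i).comp contDiff_fst)).mul
      ((contDiff_coord i).comp contDiff_snd)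
  exact (h1 _).sub (ContDiff.sum fun i _ => h1 _)

theorem contDiffOn_sv : ContDiffOn ℝ ∞
    (fun p : (κ ⊕ Unit → ℂ) × (κ ⊕ Unit → ℂ) => sv p.1 p.2) (Cn κ ×ˢ Cn κ) := by
  unfold sv
  refine (((contDiff_norm_sq ℝ).comp contDiff_hf).contDiffOn).div
    (((contDiff_nqC.comp contDiff_fst).mul (contDiff_nqC.comp contDiff_snd)).contDiffOn) ?_
  rintro ⟨v, w⟩ ⟨hv, hw⟩
  exact (mul_pos hv hw).ne'

theorem continuous_pt : Continuous (GU.pt : GU κ → κ ⊕ Unit → ℂ) := by
  unfold GU.pt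
  exact continuous_M.matrix_mulVec continuous_const

/-- norm of the point -/
theorem norm_pt_le (g : GU κ) : ‖g.pt‖ ≤ 2 * c g := by
  refine (pi_norm_le_iff_of_nonneg (by linarith [c_ge_one g])).mpr fun i => ?_
  rw [GU.pt, mulVec_e0]
  exact entry_le g i _

/-- the distance controls the displacement -/
theorem sv_bound {C : Set (κ ⊕ Unit → ℂ)} (hC : C ⊆ Cn κ) (hCc : IsCompact C) (M : ℝ) :
    ∃ R : ℝ, ∀ v ∈ C, ∀ g : GU κ, sv v g.pt ≤ M → c g ≤ R := by
  obtain ⟨R₀, hR₀⟩ := compact_lift C hC hCc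
  refine ⟨2 * R₀ * Real.sqrt M, fun v hv g hg => ?_⟩
  obtain ⟨g', l, hl, hvl⟩ := exists_pt v (hC hv)
  have h1 : c g' ≤ R₀ := hR₀ g' ⟨l, hl, hvl ▸ hv⟩
  have h2 : sv v g.pt = c (g'⁻¹ * g) ^ 2 := by
    have e1 : sv v g.pt = sv g'.pt g.pt := by
      have := sv_smul hl (one_ne_zero (α := ℂ)) g'.pt g.pt
      rw [one_smul] at this
      rw [hvl, this]
    have e2 := sv_inv (g'⁻¹) g'.pt g.pt
    have e3 : (g'⁻¹).M *ᵥ g'.pt = e0 := by
      rw [GU.pt, Matrix.mulVec_mulVec, inv_mul_M, Matrix.one_mulVec]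
    have e4 : (g'⁻¹).M *ᵥ g.pt = (g'⁻¹ * g).pt := by
      rw [GU.pt, GU.pt, Matrix.mulVec_mulVec, M_mul]
    rw [e3, e4, sv_e0] at e2
    rw [e1, ← e2]
  have h3 : c (g'⁻¹ * g) ≤ Real.sqrt M := by
    rw [h2] at hg
    exact Real.le_sqrt_of_sq_le hg
  have h4 : c g ≤ 2 * c g' * c (g'⁻¹ * g) := by
    have := c_mul g' (g'⁻¹ * g)
    rwa [mul_inv_cancel_left] at this
  have h5 := c_ge_one g'
  have h6 := c_ge_one (g'⁻¹ * g)
  calc c g ≤ 2 * c g' * c (g'⁻¹ * g) := h4
    _ ≤ 2 * R₀ * Real.sqrt M := by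
        have : 0 ≤ R₀ := by linarith
        gcongr

/-- a cutoff function -/
theorem exists_cutoff (R : ℝ) : ∃ ζ : (κ ⊕ Unit → ℂ) → ℝ, ∃ K : Set (κ ⊕ Unit → ℂ),
    ContDiff ℝ ∞ ζ ∧ IsCompact K ∧ K ⊆ Cn κ ∧ (∀ w ∉ K, ζ w = 0) ∧
      ∀ g : GU κ, c g ≤ R → ζ g.pt = 1 := by
  let f1 : ContDiffBump (1 : ℝ) := ⟨1 / 4, 1 / 2, by norm_num, by norm_num⟩
  let f2 : ContDiffBump (0 : κ ⊕ Unit → ℂ) :=
    ⟨2 * |R| + 1, 2 * |R| + 2, by positivity, by linarith⟩
  refine ⟨fun w => f1 (LowAux.nqC w) * f2 w,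
    {w | 1 / 2 ≤ LowAux.nqC w} ∩ Metric.closedBall 0 (2 * |R| + 2), ?_, ?_, ?_, ?_, ?_⟩
  · exact (f1.contDiff.comp contDiff_nqC).mul f2.contDiff
  · exact (isCompact_closedBall _ _).inter_left (isClosed_le continuous_const continuous_nqC)
  · rintro w ⟨hw, -⟩
    exact lt_of_lt_of_le (show (0 : ℝ) < 1 / 2 by norm_num) hw
  · intro w hw
    by_cases h1 : 1 / 2 ≤ LowAux.nqC w
    · have h2 : w ∉ Metric.closedBall (0 : κ ⊕ Unit → ℂ) (2 * |R| + 2) := fun h => hw ⟨h1, h⟩
      have h3 : f2 w = 0 := by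
        apply f2.zero_of_le_dist
        rw [Metric.mem_closedBall, not_le] at h2
        exact h2.le
      simp [h3]
    · have h3 : f1 (LowAux.nqC w) = 0 := by
        apply f1.zero_of_le_dist
        rw [Real.dist_eq, abs_sub_comm]
        refine le_trans ?_ (le_abs_self _)
        show (1 / 2 : ℝ) ≤ _
        linarith [not_le.mp h1]
      simp [h3]
  · intro g hg
    have h1 : f1 (LowAux.nqC g.pt) = 1 := by
      rw [(pt_mem g).2]
      exact f1.one_of_mem_closedBall (Metric.mem_closedBall_self (by norm_num [f1]))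
    have h2 : f2 g.pt = 1 := by
      apply f2.one_of_mem_closedBall
      rw [Metric.mem_closedBall, dist_zero_right]
      show _ ≤ 2 * |R| + 1
      linarith [norm_pt_le g, le_abs_self R]
    simp [h1, h2]

/-- continuity of an equivariant map -/
theorem eqc_cont {σ : G →* GU κ} {ρ : G →* Matrix n n ℝ}
    {H : (κ ⊕ Unit → ℂ) → Matrix n n ℝ} (hH : EqC σ ρ H) (i j : n) :
    ContinuousOn (fun w => H w i j) (Cn κ) := by
  intro v hv
  obtain ⟨L, U, hU, hLU⟩ := hH.lip v hv
  exact ((hLU i j).continuousOn.continuousAt hU).continuousWithinAt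

theorem eqc_cont_pt {σ : G →* GU κ} {ρ : G →* Matrix n n ℝ}
    {H : (κ ⊕ Unit → ℂ) → Matrix n n ℝ} (hH : EqC σ ρ H) (i j : n) :
    Continuous fun g : GU κ => H g.pt i j :=
  (eqc_cont hH i j).comp_continuous continuous_pt fun g => (pt_mem g).1

/-- `sv` at a point is continuous on the group -/
theorem sv_cont_pt (v : κ ⊕ Unit → ℂ) (hv : v ∈ Cn κ) :
    Continuous fun g : GU κ => sv v g.pt := by
  have h := (contDiffOn_sv (κ := κ)).continuousOn.comp_continuous
    (f := fun g : GU κ => (v, g.pt)) (continuous_const.prodMk continuous_pt)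
    fun g => ⟨hv, (pt_mem g).1⟩
  exact h

/-- the kernel is compactly supported on the group -/
theorem ker_supp {β : ℝ → ℝ} (hβc : HasCompactSupport β) {C : Set (κ ⊕ Unit → ℂ)}
    (hC : C ⊆ Cn κ) (hCc : IsCompact C) :
    ∃ R : ℝ, ∀ v ∈ C, ∀ g : GU κ, β (sv v g.pt) ≠ 0 → c g ≤ R := by
  obtain ⟨M, hM⟩ := hβc.isCompact.bddAbove
  obtain ⟨R, hR⟩ := sv_bound hC hCc M
  refine ⟨R, fun v hv g hg => hR v hv g (hM (subset_tsupport _ hg))⟩

/-- integrals against the kernel are smooth -/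
theorem smooth_aux (μ : Measure (GU κ)) [IsHaarMeasure μ]
    {β : ℝ → ℝ} (hβ : ContDiff ℝ ∞ β) (hβc : HasCompactSupport β)
    {h : (κ ⊕ Unit → ℂ) → ℝ} (hh : ContinuousOn h (Cn κ)) :
    ContDiffOn ℝ ∞ (fun v => ∫ g, β (sv v g.pt) * h g.pt ∂μ) (Cn κ) := by
  intro v₀ hv₀
  apply ContDiffAt.contDiffWithinAt
  obtain ⟨r, hr, hrC⟩ := Metric.nhds_basis_closedBall.mem_iff.mp (isOpen_Cn.mem_nhds hv₀)
  have hCc : IsCompact (Metric.closedBall v₀ r) := isCompact_closedBall _ _
  obtain ⟨R, hR⟩ := ker_supp hβc hrC hCc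
  obtain ⟨ζ, K, hζ, hK, hKC, hζ0, hζ1⟩ := exists_cutoff (κ := κ) R
  -- the measure and the function
  set ν : Measure (κ ⊕ Unit → ℂ) := map (GU.pt : GU κ → _) μ with hν
  set Q : Set (κ ⊕ Unit → ℂ) := {w | LowAux.nqC w = 1} with hQ
  have hQc : IsClosed Q := isClosed_eq continuous_nqC continuous_const
  have hQC : Q ⊆ Cn κ := fun w hw => by
    show 0 < LowAux.nqC w
    rw [show LowAux.nqC w = 1 from hw]; norm_num
  set f : (κ ⊕ Unit → ℂ) → ℝ := Q.indicator h with hf
  have hptm : Measurable (GU.pt : GU κ → _) := continuous_pt.measurable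
  have hfm : Measurable f := by
    have h1 : Continuous (Q.domRestrict h) :=
      continuousOn_iff_continuous_domRestrict.mp (hh.mono hQC)
    rw [hf]
    exact measurable_of_restrict_of_restrict_compl hQc.measurableSet
      (by
        have : Q.domRestrict (Q.indicator h) = Q.domRestrict h := by
          funext x
          exact Set.indicator_of_mem x.2 h
        rw [this]; exact h1.measurable)
      (by
        have : (Qᶜ).domRestrict (Q.indicator h) = fun _ => 0 := by
          funext x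
          exact Set.indicator_of_notMem x.2 h
        rw [this]; exact measurable_const)
  have hνc : ∀ B : Set (κ ⊕ Unit → ℂ), IsCompact B → ν B < ⊤ := by
    intro B hB
    obtain ⟨D, hD⟩ := hB.isBounded.exists_norm_le
    rw [hν, map_apply hptm hB.isClosed.measurableSet]
    refine lt_of_le_of_lt (measure_mono ?_) (isCompact_c (κ := κ) D).measure_lt_top
    intro g hg
    have h1 := hD _ hg
    have h2 := norm_le_pi_norm g.pt (Sum.inr ())
    rw [GU.pt, mulVec_e0] at h2
    exact le_trans h2 h1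
  haveI : IsFiniteMeasureOnCompacts ν := ⟨fun B hB => hνc B hB⟩
  have hfl : LocallyIntegrable f ν := by
    rw [locallyIntegrable_iff]
    intro B hB
    have hBQ : IsCompact (B ∩ Q) := hB.inter_right hQc
    obtain ⟨D, hD⟩ := (hBQ.image_of_continuousOn
      ((hh.mono (Set.inter_subset_right.trans hQC)))).isBounded.exists_norm_le
    refine Measure.integrableOn_of_bounded (M := max D 0) (hνc B hB).ne
      hfm.aestronglyMeasurable ?_
    refine (ae_restrict_iff' hB.isClosed.measurableSet).mpr (Eventually.of_forall fun w hw => ?_)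
    by_cases hwQ : w ∈ Q
    · rw [hf, Set.indicator_of_mem hwQ]
      exact (hD _ ⟨w, ⟨hw, hwQ⟩, rfl⟩).trans (le_max_left _ _)
    · rw [hf, Set.indicator_of_notMem hwQ]
      simp
  -- the kernel
  set g : (κ ⊕ Unit → ℂ) → (κ ⊕ Unit → ℂ) → ℝ := fun p x => β (sv p (-x)) * ζ (-x) with hg
  have hKn : IsCompact ((fun x : κ ⊕ Unit → ℂ => -x) '' K) := hK.image continuous_neg
  have hgs : ∀ p, ∀ x, p ∈ Metric.ball v₀ r → x ∉ (fun x : κ ⊕ Unit → ℂ => -x) '' K →
      g p x = 0 := by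
    intro p x _ hx
    have : -x ∉ K := fun h => hx ⟨-x, h, neg_neg x⟩
    simp [hg, hζ0 _ this]
  have hgc : ContDiffOn ℝ ((⊤ : ℕ∞) : WithTop ℕ∞) (Function.uncurry g)
      (Metric.ball v₀ r ×ˢ Set.univ) := by
    rintro ⟨p, x⟩ ⟨hp, -⟩
    apply ContDiffAt.contDiffWithinAt
    have hpC : p ∈ Cn κ := hrC (Metric.ball_subset_closedBall hp)
    by_cases hx : -x ∈ K
    · have h1 : ContDiffAt ℝ ∞ (fun q : (κ ⊕ Unit → ℂ) × (κ ⊕ Unit → ℂ) => sv q.1 (-q.2))
          (p, x) := by
        have h2 : ContDiffAt ℝ ∞ (fun p : (κ ⊕ Unit → ℂ) × (κ ⊕ Unit → ℂ) => sv p.1 p.2)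
            (p, -x) := contDiffOn_sv.contDiffAt
          ((isOpen_Cn.prod isOpen_Cn).mem_nhds ⟨hpC, hKC hx⟩)
        exact h2.comp (p, x) (f := fun q : (κ ⊕ Unit → ℂ) × (κ ⊕ Unit → ℂ) => (q.1, -q.2))
          (contDiff_fst.prodMk contDiff_snd.neg).contDiffAt
      exact (hβ.contDiffAt.comp (p, x) h1).mul
        ((hζ.comp contDiff_snd.neg).contDiffAt)
    · have h1 : (Function.uncurry g) =ᶠ[𝓝 (p, x)] fun _ => 0 := by
        have h2 : {q : (κ ⊕ Unit → ℂ) × (κ ⊕ Unit → ℂ) | -q.2 ∉ K} ∈ 𝓝 (p, x) := by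
          refine IsOpen.mem_nhds ?_ hx
          exact hK.isClosed.isOpen_compl.preimage continuous_snd.neg
        filter_upwards [h2] with q hq
        simp [Function.uncurry, hg, hζ0 _ hq]
      exact contDiffAt_const.congr_of_eventuallyEq h1
  have key := contDiffOn_convolution_right_with_param_comp (μ := ν) (n := (⊤ : ℕ∞))
    (ContinuousLinearMap.mul ℝ ℝ) (s := Metric.ball v₀ r)
    (v := fun _ : κ ⊕ Unit → ℂ => (0 : κ ⊕ Unit → ℂ)) contDiffOn_const
    Metric.isOpen_ball hKn hgs hfl hgc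
  have hmem : Metric.ball v₀ r ∈ 𝓝 v₀ := Metric.ball_mem_nhds _ hr
  refine (key.contDiffAt hmem).congr_of_eventuallyEq ?_
  filter_upwards [hmem] with p hp
  have hpC : p ∈ Cn κ := hrC (Metric.ball_subset_closedBall hp)
  rw [convolution_def]
  have hgm : Measurable fun t => g p (0 - t) := by
    have h1 : Continuous fun t : κ ⊕ Unit → ℂ => g p (0 - t) := by
      have h2 : ContinuousOn (Function.uncurry g) (Metric.ball v₀ r ×ˢ Set.univ) :=
        hgc.continuousOn
      exact h2.comp_continuous (f := fun t : κ ⊕ Unit → ℂ => (p, 0 - t))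
        (continuous_const.prodMk (continuous_const.sub continuous_id)) fun t => ⟨hp, trivial⟩
    exact h1.measurable
  rw [hν, integral_map hptm.aemeasurable]
  · refine integral_congr_ae (Eventually.of_forall fun x => ?_)
    have h1 : f x.pt = h x.pt := by
      rw [hf, Set.indicator_of_mem (show x.pt ∈ Q from (pt_mem x).2)]
    show β (sv p x.pt) * h x.pt = f x.pt * g p (0 - x.pt)
    rw [h1, hg]
    simp only [zero_sub, neg_neg]
    by_cases h0 : β (sv p x.pt) = 0
    · simp [h0]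
    · rw [hζ1 x (hR p (Metric.ball_subset_closedBall hp) x h0)]
      ring
  · exact (hfm.mul hgm).aestronglyMeasurable

/-- the integrand of the mollification is integrable -/
theorem integrable_aux (μ : Measure (GU κ)) [IsHaarMeasure μ]
    {β : ℝ → ℝ} (hβ : Continuous β) (hβc : HasCompactSupport β) (v : κ ⊕ Unit → ℂ) (hv : v ∈ Cn κ)
    {h : GU κ → ℝ} (hh : Continuous h) : Integrable (fun g => β (sv v g.pt) * h g) μ := by
  obtain ⟨R, hR⟩ := ker_supp hβc (C := {v}) (Set.singleton_subset_iff.mpr hv) isCompact_singleton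
  have h1 : Continuous fun g : GU κ => β (sv v g.pt) * h g :=
    (hβ.comp (sv_cont_pt v hv)).mul hh
  refine h1.integrable_of_hasCompactSupport ?_
  refine HasCompactSupport.intro (isCompact_c (κ := κ) R) fun g hg => ?_
  by_contra hne
  exact hg (hR v rfl g (left_ne_zero_of_mul hne))

/-- positivity of the integral -/
theorem integral_pos_aux (μ : Measure (GU κ)) [IsHaarMeasure μ]
    {β : ℝ → ℝ} (hβ : Continuous β) (hβc : HasCompactSupport β) (hβ0 : ∀ s, 0 ≤ β s)
    (hβ1 : 0 < β 1) (v : κ ⊕ Unit → ℂ) (hv : v ∈ Cn κ)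
    {h : GU κ → ℝ} (hh : Continuous h) (hpos : ∀ g, 0 < h g) :
    0 < ∫ g, β (sv v g.pt) * h g ∂μ := by
  have h1 : Continuous fun g : GU κ => β (sv v g.pt) * h g :=
    (hβ.comp (sv_cont_pt v hv)).mul hh
  obtain ⟨g', l, hl, hvl⟩ := exists_pt v hv
  have h2 : sv v g'.pt = 1 := by
    have e1 := sv_smul hl (one_ne_zero (α := ℂ)) g'.pt g'.pt
    rw [one_smul] at e1
    have e2 := sv_inv (g'⁻¹) g'.pt g'.pt
    have e3 : (g'⁻¹).M *ᵥ g'.pt = e0 := by
      rw [GU.pt, Matrix.mulVec_mulVec, inv_mul_M, Matrix.one_mulVec]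
    have e4 := sv_e0 (1 : GU κ)
    have e5 : (1 : GU κ).pt = e0 := by
      rw [GU.pt, M_one, Matrix.one_mulVec]
    have e6 : c (1 : GU κ) = 1 := KU_c 1 (KU κ).one_mem
    rw [e5, e6] at e4
    rw [e3, e4] at e2
    rw [hvl, e1, ← e2]; norm_num
  refine h1.integral_pos_of_hasCompactSupport_nonneg_nonzero ?_ ?_ (x := g') ?_
  · obtain ⟨R, hR⟩ := ker_supp hβc (C := {v}) (Set.singleton_subset_iff.mpr hv)
      isCompact_singleton
    refine HasCompactSupport.intro (isCompact_c (κ := κ) R) fun g hg => ?_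
    by_contra hne
    exact hg (hR v rfl g (left_ne_zero_of_mul hne))
  · intro g
    exact mul_nonneg (hβ0 _) (hpos g).le
  · rw [h2]
    exact (mul_pos hβ1 (hpos g')).ne'

end Mol1Aux

open Mol1Aux ConeAux

section mol

variable {σ : G →* GU κ} (hL : Lat σ) (μ : Measure (GU κ)) [IsHaarMeasure μ]
  {χ : GU κ → ℝ} (hχ : Cut σ χ) {ρ : G →* Matrix n n ℝ}
  {H : (κ ⊕ Unit → ℂ) → Matrix n n ℝ} (hH : EqC σ ρ H)
  {β : ℝ → ℝ} (hβ : ContDiff ℝ ∞ β) (hβc : HasCompactSupport β) (hβ0 : ∀ s, 0 ≤ β s)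
  (hβ1 : 0 < β 1)

include hL hH hβ hβc

/-- module MOL1: smoothness -/
theorem mol_smooth : Sm ∞ (mol μ β H) (Cn κ) := by
  intro i j
  have h1 := smooth_aux μ hβ hβc (eqc_cont hH i j)
  have h2 : (fun w => mol μ β H w i j) =
      fun w => (∫ g, β (sv w g.pt) * H g.pt i j ∂μ) * (∫ g, β (c g ^ 2) ∂μ)⁻¹ := by
    funext w
    simp [mol, Matrix.of_apply, div_eq_mul_inv]
  rw [h2]
  exact h1.mul contDiffOn_const

include hβ0 hβ1

/-- module MOL1: the mollification is equivariant and positive -/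
theorem mol_eqc : EqC σ ρ (mol μ β H) := by
  have hD : 0 < ∫ g, β (c g ^ 2) ∂μ := by
    have h1 := integral_pos_aux μ hβ.continuous hβc hβ0 hβ1 e0
      (by show 0 < LowAux.nqC _; rw [nqC_e0]; norm_num) (h := fun _ => 1) continuous_const
      (fun _ => one_pos)
    simpa [sv_e0] using h1
  constructor
  · intro v hv
    refine Matrix.PosDef.of_dotProduct_mulVec_pos ?_ ?_
    · ext i j
      rw [Matrix.conjTranspose_apply]
      simp only [mol, Matrix.of_apply, star_trivial]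
      congr 1
      refine integral_congr_ae (Eventually.of_forall fun g => ?_)
      have := congrFun (congrFun (PDAux.tr_symm (hH.pos g.pt (pt_mem g).1)) i) j
      rw [Matrix.transpose_apply] at this
      show β _ * _ = β _ * _
      rw [this]
    · intro x hx
      have h1 : star x ⬝ᵥ (mol μ β H v *ᵥ x) =
          (∫ g, β (sv v g.pt) * (star x ⬝ᵥ (H g.pt *ᵥ x)) ∂μ) / ∫ g, β (c g ^ 2) ∂μ := by
        have h2 : ∀ g : GU κ, β (sv v g.pt) * (star x ⬝ᵥ (H g.pt *ᵥ x)) =
            ∑ i, ∑ j, x i * x j * (β (sv v g.pt) * H g.pt i j) := by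
          intro g
          simp only [dotProduct, mulVec, Finset.mul_sum, star_trivial, Pi.star_apply]
          refine Finset.sum_congr rfl fun i _ => Finset.sum_congr rfl fun j _ => ?_
          ring
        simp only [h2]
        rw [integral_finset_sum _ fun i _ => integrable_finset_sum _ fun j _ =>
          (integrable_aux μ hβ.continuous hβc v hv (eqc_cont_pt hH i j)).const_mul _]
        rw [Finset.sum_div]
        simp only [dotProduct, mulVec, mol, Matrix.of_apply, Finset.mul_sum]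
        refine Finset.sum_congr rfl fun i _ => ?_
        rw [integral_finset_sum _ fun j _ =>
          (integrable_aux μ hβ.continuous hβc v hv (eqc_cont_pt hH i j)).const_mul _]
        rw [Finset.sum_div]
        refine Finset.sum_congr rfl fun j _ => ?_
        rw [integral_const_mul]
        simp only [Pi.star_apply, star_trivial]
        ring
      rw [h1]
      refine div_pos (integral_pos_aux μ hβ.continuous hβc hβ0 hβ1 v hv ?_ ?_) hD
      · have h3 : ∀ g : GU κ, (star x ⬝ᵥ (H g.pt *ᵥ x)) =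
            ∑ i, ∑ j, x i * x j * (H g.pt i j) := by
          intro g
          simp only [dotProduct, mulVec, Finset.mul_sum, star_trivial, Pi.star_apply]
          refine Finset.sum_congr rfl fun i _ => Finset.sum_congr rfl fun j _ => ?_
          ring
        simp only [h3]
        exact continuous_finset_sum _ fun i _ => continuous_finset_sum _ fun j _ =>
          continuous_const.mul (eqc_cont_pt hH i j)
      · intro g
        exact (hH.pos g.pt (pt_mem g).1).dotProduct_mulVec_pos hx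
  · intro v hv l hl
    ext i j
    simp only [mol, Matrix.of_apply]
    congr 1
    refine integral_congr_ae (Eventually.of_forall fun g => ?_)
    have := sv_smul hl (one_ne_zero (α := ℂ)) v g.pt
    rw [one_smul] at this
    show β _ * _ = β _ * _
    rw [this]
  · intro γ v hv
    ext i j
    have h1 : ∀ g : GU κ, β (sv ((σ γ).M *ᵥ v) (σ γ * g).pt) * H (σ γ * g).pt i j =
        ∑ a, ∑ b, ((ρ γ⁻¹)ᵀ i a * ρ γ⁻¹ b j) * (β (sv v g.pt) * H g.pt a b) := by
      intro g
      have e1 : (σ γ * g).pt = (σ γ).M *ᵥ g.pt := by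
        rw [GU.pt, GU.pt, Matrix.mulVec_mulVec, M_mul]
      rw [e1, sv_inv, hH.eqv γ g.pt (pt_mem g).1]
      simp only [Matrix.mul_apply, Finset.mul_sum, Finset.sum_mul]
      rw [Finset.sum_comm]
      refine Finset.sum_congr rfl fun a _ => Finset.sum_congr rfl fun b _ => ?_
      ring
    have h2 := integral_mul_left_eq_self (μ := μ)
      (fun g : GU κ => β (sv ((σ γ).M *ᵥ v) g.pt) * H g.pt i j) (σ γ)
    have h3 : ∫ g, β (sv ((σ γ).M *ᵥ v) g.pt) * H g.pt i j ∂μ =
        ∑ a, ∑ b, ((ρ γ⁻¹)ᵀ i a * ρ γ⁻¹ b j) * ∫ g, β (sv v g.pt) * H g.pt a b ∂μ := by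
      rw [← h2, integral_congr_ae (Eventually.of_forall h1)]
      rw [integral_finset_sum _ fun a _ => integrable_finset_sum _ fun b _ =>
        (integrable_aux μ hβ.continuous hβc v hv (eqc_cont_pt hH a b)).const_mul _]
      refine Finset.sum_congr rfl fun a _ => ?_
      rw [integral_finset_sum _ fun b _ =>
        (integrable_aux μ hβ.continuous hβc v hv (eqc_cont_pt hH a b)).const_mul _]
      refine Finset.sum_congr rfl fun b _ => ?_
      rw [integral_const_mul]
    have h4 : mol μ β H ((σ γ).M *ᵥ v) i j =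
        (∫ g, β (sv ((σ γ).M *ᵥ v) g.pt) * H g.pt i j ∂μ) / ∫ g, β (c g ^ 2) ∂μ := rfl
    rw [h4, h3]
    simp only [Matrix.mul_apply, Finset.sum_mul, Finset.sum_div]
    rw [Finset.sum_comm]
    refine Finset.sum_congr rfl fun b _ => Finset.sum_congr rfl fun a _ => ?_
    have h5 : mol μ β H v a b =
        (∫ g, β (sv v g.pt) * H g.pt a b ∂μ) / ∫ g, β (c g ^ 2) ∂μ := rfl
    rw [h5]
    ring
  · intro v hv
    have h1 : ∀ i j, ∃ K : ℝ≥0, ∃ t ∈ 𝓝 v, LipschitzOnWith K (fun w => mol μ β H w i j) t := by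
      intro i j
      have h2 : ContDiffAt ℝ 1 (fun w => mol μ β H w i j) v :=
        ((mol_smooth hL μ hH hβ hβc i j).contDiffAt (isOpen_Cn.mem_nhds hv)).of_le (by exact_mod_cast le_top)
      exact h2.exists_lipschitzOnWith
    choose K t ht hK using h1
    refine ⟨∑ i, ∑ j, K i j, ⋂ i, ⋂ j, t i j, ?_, ?_⟩
    · exact (Filter.iInter_mem).mpr fun i => (Filter.iInter_mem).mpr fun j => ht i j
    · intro i j
      refine ((hK i j).mono (Set.iInter_subset_of_subset i (Set.iInter_subset _ j))).weaken ?_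
      calc K i j ≤ ∑ j, K i j := Finset.single_le_sum (fun _ _ => zero_le) (Finset.mem_univ j)
        _ ≤ ∑ i, ∑ j, K i j :=
          Finset.single_le_sum (f := fun i => ∑ j, K i j) (fun _ _ => zero_le)
            (Finset.mem_univ i)

end mol

end Pool.Agent.MPd01a95
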