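import Mathlib
import Pool.Agent.Lib.MP_d01a95_gt_H.HDefs
import Pool.Agent.Lib.MP_d01a95_gt_H.Unimod
import Pool.Agent.Lib.MP_d01a95_gt_H.Cone
import Pool.Agent.Lib.MP_d01a95_gt_H.Mol1
import Pool.Agent.Lib.MP_d01a95_gt_H.Aediff

set_option autoImplicit false
set_option linter.all false

open Matrix Filter Topology MeasureTheory Measure
open scoped ENNReal NNReal ContDiff

namespace Pool.Agent.MPd01a95

open GU

variable {κ n ι α : Type} [Fintype κ] [DecidableEq κ] [Fintype n] [DecidableEq n]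
  [Fintype ι] [DecidableEq ι] [Fintype α] [DecidableEq α] {G : Type} [Group G]

namespace Mol2Aux

theorem pt_mul (g h : GU κ) : (g * h).pt = g.M *ᵥ h.pt := by
  rw [GU.pt, GU.pt, M_mul, ← Matrix.mulVec_mulVec]

theorem continuous_pt : Continuous (GU.pt : GU κ → (κ ⊕ Unit → ℂ)) := by
  unfold GU.pt
  exact continuous_M.matrix_mulVec continuous_const

theorem sv_pt (g x : GU κ) : sv g.pt (g * x).pt = c x ^ 2 := by
  rw [pt_mul, GU.pt, sv_inv, sv_e0]

/-- the derivative of the boost matrices -/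
theorem hasDerivAt_boM (t : ℝ) (p : κ × Bool) (v : κ ⊕ Unit → ℂ) :
    HasDerivAt (fun t : ℝ => boM t p *ᵥ v)
      (((Real.sinh t : ℝ) : ℂ) • (PM p *ᵥ v) + ((Real.cosh t : ℝ) : ℂ) • (XM p *ᵥ v)) t := by
  have h1 : HasDerivAt (fun t : ℝ => ((Real.cosh t - 1 : ℝ) : ℂ)) ((Real.sinh t : ℝ) : ℂ) t :=
    ((Real.hasDerivAt_cosh t).sub_const 1).ofReal_comp
  have h2 : HasDerivAt (fun t : ℝ => ((Real.sinh t : ℝ) : ℂ)) ((Real.cosh t : ℝ) : ℂ) t :=
    (Real.hasDerivAt_sinh t).ofReal_comp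
  have h3 := ((h1.smul_const (PM p *ᵥ v)).add (h2.smul_const (XM p *ᵥ v))).const_add v
  have e : (fun t : ℝ => boM t p *ᵥ v) = fun x : ℝ => v +
      ((fun y : ℝ => ((Real.cosh y - 1 : ℝ) : ℂ) • (PM p *ᵥ v)) +
        fun y : ℝ => ((Real.sinh y : ℝ) : ℂ) • (XM p *ᵥ v)) x := by
    funext s
    rw [boM, Matrix.add_mulVec, Matrix.add_mulVec, Matrix.smul_mulVec, Matrix.smul_mulVec,
      Matrix.one_mulVec, Pi.add_apply, add_assoc]
  rw [e]
  exact h3

/-- multiplication by a matrix as a continuous real linear map -/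
noncomputable def mL (A : Matrix (κ ⊕ Unit) (κ ⊕ Unit) ℂ) :
    (κ ⊕ Unit → ℂ) →L[ℝ] (κ ⊕ Unit → ℂ) :=
  LinearMap.toContinuousLinearMap ((Matrix.mulVecLin A).restrictScalars ℝ)

theorem mL_apply (A : Matrix (κ ⊕ Unit) (κ ⊕ Unit) ℂ) (v : κ ⊕ Unit → ℂ) :
    mL A v = A *ᵥ v := rfl

theorem hasDerivAt_curve (g x : GU κ) (t : ℝ) (p : κ × Bool) :
    HasDerivAt (fun t : ℝ => (g * bo t p * x).pt)
      (g.M *ᵥ (((Real.sinh t : ℝ) : ℂ) • (PM p *ᵥ x.pt) +
        ((Real.cosh t : ℝ) : ℂ) • (XM p *ᵥ x.pt))) t := by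
  have h1 := (mL g.M).hasFDerivAt.comp_hasDerivAt t (hasDerivAt_boM t p x.pt)
  rw [mL_apply] at h1
  have e : (fun t : ℝ => (g * bo t p * x).pt) = ⇑(mL g.M) ∘ fun t : ℝ => boM t p *ᵥ x.pt := by
    funext s
    rw [Function.comp_apply, mL_apply, mul_assoc, pt_mul, pt_mul, bo_M]
  rw [e]
  exact h1

theorem hasDerivAt_curve0 (g x : GU κ) (p : κ × Bool) :
    HasDerivAt (fun t : ℝ => (g * bo t p * x).pt) (g.M *ᵥ (XM p *ᵥ x.pt)) 0 := by
  have h := hasDerivAt_curve g x 0 p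
  simpa using h

theorem dir_eq (g : GU κ) (p : κ × Bool) : g.dir p = g.M *ᵥ (XM p *ᵥ e0) := by
  have h2 : XM p *ᵥ (e0 : κ ⊕ Unit → ℂ) = wb p.2 • ej p.1 := by
    rw [XM, Matrix.add_mulVec, Matrix.smul_mulVec, Matrix.smul_mulVec, Matrix.vecMulVec_mulVec,
      Matrix.vecMulVec_mulVec, ej_e0, e0_e0]
    simp
  rw [h2]
  rfl

theorem pt_one : (1 : GU κ).pt = e0 := by
  rw [GU.pt, M_one, Matrix.one_mulVec]

theorem hasDerivAt_dir (g : GU κ) (p : κ × Bool) :
    HasDerivAt (fun t : ℝ => (g * bo t p).pt) (g.dir p) 0 := by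
  have h := hasDerivAt_curve0 g 1 p
  rw [pt_one, ← dir_eq] at h
  simpa using h

end Mol2Aux

open Mol2Aux

section mol

variable {σ : G →* GU κ} (hL : Lat σ) (μ : Measure (GU κ)) [IsHaarMeasure μ]
  {χ : GU κ → ℝ} (hχ : Cut σ χ) {ρ : G →* Matrix n n ℝ}
  {H : (κ ⊕ Unit → ℂ) → Matrix n n ℝ} (hH : EqC σ ρ H)
  {β : ℝ → ℝ} (hβ : ContDiff ℝ ∞ β) (hβc : HasCompactSupport β) (hβ0 : ∀ s, 0 ≤ β s)
  (hβ1 : 0 < β 1)

include hL hH hβ hβc

/-- module MOL2: the mollification as a right average -/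
theorem mol_right (g : GU κ) (i j : n) : mol μ β H g.pt i j =
    (∫ x, β (c x ^ 2) * H (g * x).pt i j ∂μ) / ∫ x, β (c x ^ 2) ∂μ := by
  have h1 := integral_mul_left_eq_self (μ := μ) (fun x => β (sv g.pt x.pt) * H x.pt i j) g
  simp only [sv_pt] at h1
  rw [h1]
  rfl

include hβ0 hβ1

/-- module MOL2: the derivative of the mollification -/
theorem mol_deriv (g : GU κ) (p : κ × Bool) (i j : n) : XH (mol μ β H) p g i j =
    (∫ x, β (c x ^ 2) * DM H (g * x).pt (g.M *ᵥ (XM p *ᵥ x.pt)) i j ∂μ) /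
      ∫ x, β (c x ^ 2) ∂μ := by
  haveI := right_inv hL μ
  -- the left side
  have hd : DifferentiableAt ℝ (fun w => mol μ β H w i j) g.pt :=
    ((mol_smooth hL μ hH hβ hβc i j).contDiffAt (isOpen_Cn.mem_nhds (pt_mem g).1)).differentiableAt
      (by norm_num)
  have hl : HasDerivAt (fun t : ℝ => mol μ β H (g * bo t p).pt i j) (XH (mol μ β H) p g i j) 0 := by
    have h0 : (g * bo 0 p).pt = g.pt := by rw [bo_zero, mul_one]
    have h1 : HasFDerivAt (fun w => mol μ β H w i j) (fderiv ℝ (fun w => mol μ β H w i j) g.pt)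
        ((fun t : ℝ => (g * bo t p).pt) 0) := by
      show HasFDerivAt _ _ (g * bo 0 p).pt
      rw [h0]
      exact hd.hasFDerivAt
    exact h1.comp_hasDerivAt 0 (hasDerivAt_dir g p)
  -- bound of the support
  obtain ⟨R, hR⟩ : ∃ R : ℝ, ∀ x : GU κ, β (c x ^ 2) ≠ 0 → c x ≤ R := by
    obtain ⟨R, hR⟩ := hβc.isCompact.isBounded.bddAbove
    refine ⟨R, fun x hx => ?_⟩
    have h1 : c x ^ 2 ≤ R := hR (subset_tsupport _ hx)
    have h2 := c_ge_one x
    nlinarith
  -- compact set of points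
  set B : Set (GU κ) := {x | c x ≤ R} with hB
  have hBc : IsCompact B := isCompact_c R
  set C : Set (κ ⊕ Unit → ℂ) := (fun q : ℝ × GU κ => (g * bo q.1 p * q.2).pt) ''
    (Set.Icc (-1 : ℝ) 1 ×ˢ B) with hC
  have hcont : Continuous (fun q : ℝ × GU κ => (g * bo q.1 p * q.2).pt) :=
    continuous_pt.comp ((continuous_const.mul ((continuous_bo p).comp continuous_fst)).mul
      continuous_snd)
  have hCc : IsCompact C := (isCompact_Icc.prod hBc).image hcont
  have hCC : C ⊆ Cn κ := by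
    rintro _ ⟨q, -, rfl⟩
    exact (pt_mem _).1
  obtain ⟨L, hLip⟩ := hH.lip_compact C hCC hCc
  obtain ⟨A, hA⟩ : ∃ A : ℝ, ∀ q ∈ Set.Icc (-1 : ℝ) 1 ×ˢ B,
      ‖g.M *ᵥ (((Real.sinh q.1 : ℝ) : ℂ) • (PM p *ᵥ q.2.pt) +
        ((Real.cosh q.1 : ℝ) : ℂ) • (XM p *ᵥ q.2.pt))‖ ≤ A := by
    have hc2 : Continuous (fun q : ℝ × GU κ =>
        ‖g.M *ᵥ (((Real.sinh q.1 : ℝ) : ℂ) • (PM p *ᵥ q.2.pt) +
          ((Real.cosh q.1 : ℝ) : ℂ) • (XM p *ᵥ q.2.pt))‖) := by
      refine continuous_norm.comp ?_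
      refine continuous_const.matrix_mulVec ?_
      refine Continuous.add ?_ ?_
      · exact (Complex.continuous_ofReal.comp (Real.continuous_sinh.comp continuous_fst)).smul
          (continuous_const.matrix_mulVec (continuous_pt.comp continuous_snd))
      · exact (Complex.continuous_ofReal.comp (Real.continuous_cosh.comp continuous_fst)).smul
          (continuous_const.matrix_mulVec (continuous_pt.comp continuous_snd))
    obtain ⟨A, hA⟩ := ((isCompact_Icc.prod hBc).image hc2).bddAbove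
    exact ⟨A, fun q hq => hA ⟨q, hq, rfl⟩⟩
  obtain ⟨Bb, hBb⟩ : ∃ Bb : ℝ, ∀ s, |β s| ≤ Bb := by
    obtain ⟨Bb, hBb⟩ := hβc.exists_bound_of_continuous hβ.continuous
    exact ⟨Bb, hBb⟩
  -- Lipschitz bound along the curve
  have hcurve : ∀ x ∈ B, ∀ s ∈ Set.Icc (-1 : ℝ) 1, ∀ t ∈ Set.Icc (-1 : ℝ) 1,
      ‖(g * bo s p * x).pt - (g * bo t p * x).pt‖ ≤ A * ‖s - t‖ := by
    intro x hx s hs t ht
    exact (convex_Icc (-1 : ℝ) 1).norm_image_sub_le_of_norm_hasDerivWithin_le
      (f := fun t : ℝ => (g * bo t p * x).pt)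
      (fun u hu => (hasDerivAt_curve g x u p).hasDerivWithinAt)
      (fun u hu => hA (u, x) ⟨hu, hx⟩) ht hs
  have hlip : ∀ x : GU κ, ∀ s ∈ Set.Icc (-1 : ℝ) 1, ∀ t ∈ Set.Icc (-1 : ℝ) 1,
      |β (c x ^ 2) * H (g * bo s p * x).pt i j - β (c x ^ 2) * H (g * bo t p * x).pt i j| ≤
        (B.indicator (fun _ => |Bb| * (|L| * |A|)) x) * |s - t| := by
    intro x s hs t ht
    by_cases hx : x ∈ B
    · rw [Set.indicator_of_mem hx, ← mul_sub, abs_mul]
      have h1 : |H (g * bo s p * x).pt i j - H (g * bo t p * x).pt i j| ≤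
          |L| * (|A| * |s - t|) := by
        refine (hLip _ ⟨(s, x), ⟨hs, hx⟩, rfl⟩ _ ⟨(t, x), ⟨ht, hx⟩, rfl⟩ i j).trans ?_
        refine (mul_le_mul_of_nonneg_right (le_abs_self L) (norm_nonneg _)).trans ?_
        refine mul_le_mul_of_nonneg_left ?_ (abs_nonneg L)
        refine (hcurve x hx s hs t ht).trans ?_
        exact mul_le_mul_of_nonneg_right (le_abs_self A) (norm_nonneg _)
      have h2 : |β (c x ^ 2)| ≤ |Bb| := (hBb _).trans (le_abs_self _)
      calc |β (c x ^ 2)| * |H (g * bo s p * x).pt i j - H (g * bo t p * x).pt i j|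
          ≤ |Bb| * (|L| * (|A| * |s - t|)) :=
            mul_le_mul h2 h1 (abs_nonneg _) (abs_nonneg _)
        _ = |Bb| * (|L| * |A|) * |s - t| := by ring
    · have h0 : β (c x ^ 2) = 0 := by
        by_contra h
        exact hx (hR x h)
      rw [h0, Set.indicator_of_notMem hx]
      simp
  -- measurability
  have hmeas : ∀ t : ℝ, t ∈ Set.Icc (-1 : ℝ) 1 →
      Continuous fun x : GU κ => β (c x ^ 2) * H (g * bo t p * x).pt i j := by
    intro t ht
    refine (hβ.continuous.comp (continuous_c.pow 2)).mul ?_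
    have hHc : ContinuousOn (fun v => H v i j) (Cn κ) := by
      intro v hv
      obtain ⟨L', U, hU, hL'⟩ := hH.lip v hv
      exact ((hL' i j).continuousOn.continuousAt hU).continuousWithinAt
    exact hHc.comp_continuous (continuous_pt.comp (continuous_const.mul continuous_id))
      (fun x => (pt_mem _).1)
  have hcs : ∀ t : ℝ, HasCompactSupport fun x : GU κ => β (c x ^ 2) * H (g * bo t p * x).pt i j := by
    intro t
    refine HasCompactSupport.intro hBc (fun x hx => ?_)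
    have h0 : β (c x ^ 2) = 0 := by
      by_contra h
      exact hx (hR x h)
    rw [h0, zero_mul]
  have hIcc : Set.Icc (-1 : ℝ) 1 ∈ 𝓝 (0 : ℝ) := Icc_mem_nhds (by norm_num) (by norm_num)
  -- differentiability almost everywhere
  have hae : ∀ᵐ x ∂μ, HasDerivAt (fun t : ℝ => β (c x ^ 2) * H (g * bo t p * x).pt i j)
      (β (c x ^ 2) * DM H (g * x).pt (g.M *ᵥ (XM p *ᵥ x.pt)) i j) 0 := by
    have h1 : ∀ᵐ x ∂μ, ∀ i j, DifferentiableAt ℝ (fun w => H w i j) (g * x).pt :=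
      (quasiMeasurePreserving_mul_left μ g).ae (ae_diff hH μ)
    filter_upwards [h1] with x hx
    have h0 : (g * bo 0 p * x).pt = (g * x).pt := by rw [bo_zero, mul_one]
    have h2 : HasFDerivAt (fun w => H w i j) (fderiv ℝ (fun w => H w i j) (g * x).pt)
        ((fun t : ℝ => (g * bo t p * x).pt) 0) := by
      show HasFDerivAt _ _ (g * bo 0 p * x).pt
      rw [h0]
      exact (hx i j).hasFDerivAt
    exact (h2.comp_hasDerivAt 0 (hasDerivAt_curve0 g x p)).const_mul (β (c x ^ 2))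
  have hF' : AEStronglyMeasurable (fun x : GU κ =>
      β (c x ^ 2) * DM H (g * x).pt (g.M *ᵥ (XM p *ᵥ x.pt)) i j) μ := by
    refine aestronglyMeasurable_of_tendsto_ae (u := atTop) (f := fun (k : ℕ) (x : GU κ) =>
      ((1 : ℝ) / (k + 1))⁻¹ • (β (c x ^ 2) * H (g * bo (0 + 1 / (k + 1)) p * x).pt i j -
        β (c x ^ 2) * H (g * bo 0 p * x).pt i j)) ?_ ?_
    · intro k
      have hk : (0 : ℝ) + 1 / (k + 1) ∈ Set.Icc (-1 : ℝ) 1 := by
        have : (0 : ℝ) < k + 1 := by positivity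
        constructor
        · have : (0 : ℝ) < 1 / (k + 1) := by positivity
          linarith
        · rw [zero_add, div_le_one this]
          have : (0 : ℝ) ≤ k := by positivity
          linarith
      have hc3 : Continuous fun x : GU κ =>
          β (c x ^ 2) * H (g * bo (0 + 1 / ((k : ℝ) + 1)) p * x).pt i j -
            β (c x ^ 2) * H (g * bo 0 p * x).pt i j :=
        (hmeas _ hk).sub (hmeas 0 (by constructor <;> norm_num))
      exact (hc3.const_smul (((1 : ℝ) / (k + 1))⁻¹)).aestronglyMeasurable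
    · filter_upwards [hae] with x hx
      have h1 := hx.tendsto_slope_zero
      have h2 : Tendsto (fun k : ℕ => (1 : ℝ) / (k + 1)) atTop (𝓝[≠] 0) :=
        tendsto_nhdsWithin_iff.mpr ⟨tendsto_one_div_add_atTop_nhds_zero_nat,
          Eventually.of_forall fun k => by
            have : (0 : ℝ) < 1 / (k + 1) := by positivity
            exact this.ne'⟩
      exact h1.comp h2
  have hr : HasDerivAt (fun t : ℝ => ∫ x, β (c x ^ 2) * H (g * bo t p * x).pt i j ∂μ)
      (∫ x, β (c x ^ 2) * DM H (g * x).pt (g.M *ᵥ (XM p *ᵥ x.pt)) i j ∂μ) 0 := by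
    refine (hasDerivAt_integral_of_dominated_loc_of_lip (μ := μ)
      (bound := B.indicator (fun _ => |Bb| * (|L| * |A|))) hIcc ?_ ?_ hF' ?_ ?_ hae).2
    · filter_upwards [hIcc] with t ht
      exact (hmeas t ht).aestronglyMeasurable
    · exact (hmeas 0 (by constructor <;> norm_num)).integrable_of_hasCompactSupport (hcs 0)
    · refine Eventually.of_forall fun x => ?_
      refine LipschitzOnWith.of_dist_le_mul fun s hs t ht => ?_
      have h1 := hlip x s hs t ht
      rw [Real.dist_eq, Real.dist_eq]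
      refine h1.trans (mul_le_mul_of_nonneg_right ?_ (abs_nonneg _))
      exact Real.le_coe_toNNReal _ |>.trans (by
        rw [Real.coe_nnabs, Real.coe_toNNReal']
        exact max_le (le_abs_self _) (abs_nonneg _))
    · exact (integrable_indicator_iff hBc.measurableSet).mpr
        (integrableOn_const hBc.measure_lt_top.ne)
  have hr2 := hr.div_const (∫ x, β (c x ^ 2) ∂μ)
  have e : (fun t : ℝ => mol μ β H (g * bo t p).pt i j) = fun t : ℝ =>
      (∫ x, β (c x ^ 2) * H (g * bo t p * x).pt i j ∂μ) / ∫ x, β (c x ^ 2) ∂μ := by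
    funext t
    exact mol_right hL μ hH hβ hβc (g * bo t p) i j
  rw [e] at hl
  exact hl.unique hr2

end mol

end Pool.Agent.MPd01a95
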