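import Mathlib
import Pool.Agent.Lib.MP_d01a95_gt_H.HDefs
import Pool.Agent.Lib.MP_d01a95_gt_H.Unimod
import Pool.Agent.Lib.MP_d01a95_gt_H.Cone

/-! Module KER of project HARMONIC: derivatives of radial functions along the boosts. -/

set_option autoImplicit false
set_option linter.all false

open Matrix Filter Topology MeasureTheory Measure
open scoped ENNReal NNReal ContDiff

namespace Pool.Agent.MPd01a95

open GU

variable {κ n ι α : Type} [Fintype κ] [DecidableEq κ] [Fintype n] [DecidableEq n]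
  [Fintype ι] [DecidableEq ι] [Fintype α] [DecidableEq α] {G : Type} [Group G]

namespace KerAux

theorem two_le_inf : (2 : WithTop ℕ∞) ≤ ((⊤ : ℕ∞) : WithTop ℕ∞) := by
  have h : ((2 : ℕ∞) : WithTop ℕ∞) ≤ ((⊤ : ℕ∞) : WithTop ℕ∞) := WithTop.coe_le_coe.2 le_top
  exact h

theorem boM_ej (t : ℝ) (p : κ × Bool) : boM t p *ᵥ (wb p.2 • ej p.1) =
    (Real.sinh t : ℂ) • e0 + (Real.cosh t : ℂ) • (wb p.2 • ej p.1) := by
  have h1 : PM p *ᵥ ej p.1 = ej p.1 := by
    rw [PM, Matrix.add_mulVec, Matrix.vecMulVec_mulVec, Matrix.vecMulVec_mulVec, ej_ej, e0_ej]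
    simp
  have h2 : XM p *ᵥ ej p.1 = star (wb p.2) • e0 := by
    rw [XM, Matrix.add_mulVec, Matrix.smul_mulVec, Matrix.smul_mulVec, Matrix.vecMulVec_mulVec,
      Matrix.vecMulVec_mulVec, ej_ej, e0_ej]
    simp
  have h3 := wb_mul p.2
  rw [boM, Matrix.add_mulVec, Matrix.add_mulVec, Matrix.smul_mulVec, Matrix.smul_mulVec]
  simp only [Matrix.mulVec_smul, h1, h2, Matrix.one_mulVec]
  rw [smul_smul (wb p.2), h3, one_smul]
  push_cast
  module

theorem pt_bo (g : GU κ) (p : κ × Bool) (t : ℝ) :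
    (g * bo t p).pt = Real.cosh t • g.pt + Real.sinh t • g.dir p := by
  have h : (g * bo t p).pt = (Real.cosh t : ℂ) • g.pt + (Real.sinh t : ℂ) • g.dir p := by
    rw [GU.pt, GU.pt, GU.dir, M_mul, ← Matrix.mulVec_mulVec, bo_M, boM_e0, Matrix.mulVec_add,
      Matrix.mulVec_smul, mul_smul, Matrix.mulVec_smul]
  rw [h]
  ext i
  simp [Complex.real_smul]

theorem dir_bo (g : GU κ) (p : κ × Bool) (t : ℝ) :
    (g * bo t p).dir p = Real.sinh t • g.pt + Real.cosh t • g.dir p := by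
  have h : (g * bo t p).dir p = (Real.sinh t : ℂ) • g.pt + (Real.cosh t : ℂ) • g.dir p := by
    rw [GU.pt, GU.dir, GU.dir, M_mul, ← Matrix.mulVec_mulVec, bo_M, boM_ej, Matrix.mulVec_add,
      Matrix.mulVec_smul, Matrix.mulVec_smul]
  rw [h]
  ext i
  simp [Complex.real_smul]

theorem hasDerivAt_pt (g : GU κ) (p : κ × Bool) (t : ℝ) :
    HasDerivAt (fun t : ℝ => (g * bo t p).pt) ((g * bo t p).dir p) t := by
  simp only [pt_bo, dir_bo]
  exact ((Real.hasDerivAt_cosh t).smul_const _).add ((Real.hasDerivAt_sinh t).smul_const _)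

theorem hasDerivAt_dir (g : GU κ) (p : κ × Bool) (t : ℝ) :
    HasDerivAt (fun t : ℝ => (g * bo t p).dir p) ((g * bo t p).pt) t := by
  simp only [pt_bo, dir_bo]
  exact ((Real.hasDerivAt_sinh t).smul_const _).add ((Real.hasDerivAt_cosh t).smul_const _)

/-- second derivative along a boost of a homogeneous function on the cone -/
theorem second_gen {φ : (κ ⊕ Unit → ℂ) → ℝ} (hφ : ContDiffOn ℝ 2 φ (Cn κ))
    (hh : ∀ w ∈ Cn κ, ∀ r : ℝ, 0 < r → φ (r • w) = φ w) (g : GU κ) (p : κ × Bool) :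
    iteratedDeriv 2 (fun t : ℝ => φ (g * bo t p).pt) 0 =
      fderiv ℝ (fun w => fderiv ℝ φ w (g.dir p)) g.pt (g.dir p) := by
  have hd0 : ∀ g' : GU κ, DifferentiableAt ℝ φ g'.pt := fun g' =>
    (hφ.contDiffAt (isOpen_Cn.mem_nhds (pt_mem g').1)).differentiableAt (by norm_num)
  have hφ1 : ContDiffOn ℝ 1 (fderiv ℝ φ) (Cn κ) :=
    hφ.fderiv_of_isOpen isOpen_Cn (by norm_num)
  have hd1 : ∀ g' : GU κ, DifferentiableAt ℝ (fderiv ℝ φ) g'.pt := fun g' =>
    (hφ1.contDiffAt (isOpen_Cn.mem_nhds (pt_mem g').1)).differentiableAt (by norm_num)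
  have h0 : ∀ t : ℝ, HasDerivAt (fun t : ℝ => φ (g * bo t p).pt)
      (fderiv ℝ φ (g * bo t p).pt ((g * bo t p).dir p)) t := fun t =>
    HasFDerivAt.comp_hasDerivAt (l := φ) (l' := fderiv ℝ φ (g * bo t p).pt)
      (f := fun t : ℝ => (g * bo t p).pt) t (hd0 (g * bo t p)).hasFDerivAt (hasDerivAt_pt g p t)
  have h1 : ∀ t : ℝ, HasDerivAt (fun t : ℝ => fderiv ℝ φ (g * bo t p).pt ((g * bo t p).dir p))
      (fderiv ℝ (fderiv ℝ φ) (g * bo t p).pt ((g * bo t p).dir p) ((g * bo t p).dir p) +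
        fderiv ℝ φ (g * bo t p).pt (g * bo t p).pt) t := fun t =>
    (HasFDerivAt.comp_hasDerivAt (l := fderiv ℝ φ) (l' := fderiv ℝ (fderiv ℝ φ) (g * bo t p).pt)
      (f := fun t : ℝ => (g * bo t p).pt) t (hd1 (g * bo t p)).hasFDerivAt
        (hasDerivAt_pt g p t)).clm_apply (hasDerivAt_dir g p t)
  have e1 : deriv (fun t : ℝ => φ (g * bo t p).pt) =
      fun t => fderiv ℝ φ (g * bo t p).pt ((g * bo t p).dir p) := funext fun t => (h0 t).deriv
  have h2 := (h1 0).deriv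
  rw [bo_zero, mul_one] at h2
  rw [iteratedDeriv_succ, iteratedDeriv_one, e1, h2]
  -- the radial derivative vanishes
  have h3 : fderiv ℝ φ g.pt g.pt = 0 := by
    have h4 : HasDerivAt (fun r : ℝ => φ ((1 + r) • g.pt)) (fderiv ℝ φ g.pt g.pt) 0 := by
      have h5 : HasDerivAt (fun r : ℝ => (1 + r) • g.pt) ((1 : ℝ) • g.pt) 0 :=
        ((hasDerivAt_id (0 : ℝ)).const_add 1).smul_const _
      rw [one_smul] at h5
      have h6 : HasFDerivAt φ (fderiv ℝ φ g.pt) ((1 + (0 : ℝ)) • g.pt) := by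
        rw [add_zero, one_smul]
        exact (hd0 g).hasFDerivAt
      exact h6.comp_hasDerivAt 0 h5
    have h7 : (fun r : ℝ => φ ((1 + r) • g.pt)) =ᶠ[𝓝 0] fun _ => φ g.pt := by
      have : ∀ᶠ r : ℝ in 𝓝 0, -1 < r := lt_mem_nhds (by norm_num)
      filter_upwards [this] with r hr
      exact hh _ (pt_mem g).1 _ (by linarith)
    have h8 : HasDerivAt (fun r : ℝ => φ ((1 + r) • g.pt)) 0 0 :=
      (hasDerivAt_const (0 : ℝ) (φ g.pt)).congr_of_eventuallyEq h7
    exact h4.unique h8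
  rw [h3, add_zero]
  have h9 : HasFDerivAt (fun w => fderiv ℝ φ w (g.dir p))
      ((fderiv ℝ (fderiv ℝ φ) g.pt).flip (g.dir p)) g.pt := by
    have := (hd1 g).hasFDerivAt.clm_apply (hasFDerivAt_const (g.dir p) g.pt)
    simpa using this
  rw [h9.fderiv]
  rfl

theorem nqC_cd : ContDiff ℝ ∞ (LowAux.nqC : (κ ⊕ Unit → ℂ) → ℝ) := by
  unfold LowAux.nqC
  refine ContDiff.sub ?_ (ContDiff.sum fun i _ => ?_)
  · exact (contDiff_apply ℝ ℂ (Sum.inr ())).norm_sq ℝ
  · exact (contDiff_apply ℝ ℂ (Sum.inl i)).norm_sq ℝ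

theorem sv_cd (v : κ ⊕ Unit → ℂ) (hv : v ∈ Cn κ) :
    ContDiffOn ℝ ∞ (fun w => sv v w) (Cn κ) := by
  unfold sv
  refine ContDiffOn.div ?_ ?_ ?_
  · refine ContDiff.contDiffOn ?_
    refine ContDiff.norm_sq ℝ ?_
    unfold hf
    refine ContDiff.sub ?_ (ContDiff.sum fun i _ => ?_)
    · exact contDiff_const.mul (contDiff_apply ℝ ℂ (Sum.inr ()))
    · exact contDiff_const.mul (contDiff_apply ℝ ℂ (Sum.inl i))
  · exact (contDiff_const.mul nqC_cd).contDiffOn
  · intro w hw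
    have h1 : 0 < LowAux.nqC v := hv
    have h2 : 0 < LowAux.nqC w := hw
    positivity

theorem sv_real {v w : κ ⊕ Unit → ℂ} {r : ℝ} (hr : 0 < r) : sv v (r • w) = sv v w := by
  have h := sv_smul (one_ne_zero (α := ℂ)) (show (r : ℂ) ≠ 0 by exact_mod_cast hr.ne') v w
  rw [one_smul] at h
  rw [← h]
  congr 1

/-- the invariance of the Hermitian form in coordinates -/
theorem form_sum (g : GU κ) (v : κ ⊕ Unit → ℂ) :
    ∑ j, ‖hf v (g.M *ᵥ ej j)‖ ^ 2 = ‖hf v g.pt‖ ^ 2 - LowAux.nqC v := by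
  set u : κ ⊕ Unit → ℂ := (g⁻¹).M *ᵥ v with hu
  have hv : g.M *ᵥ u = v := by
    rw [hu, Matrix.mulVec_mulVec, mul_inv_M, Matrix.one_mulVec]
  rw [← hv, LowAux.nqC_iso g.pres, GU.pt, hf_inv]
  have h1 : hf u e0 = star (u (Sum.inr ())) := by
    rw [hf]; simp [e0]
  have h2 : ∀ j, hf (g.M *ᵥ u) (g.M *ᵥ ej j) = - star (u (Sum.inl j)) := by
    intro j
    rw [hf_inv, hf]
    simp [ej, Pi.single_apply]
  simp only [h1, h2, norm_neg, norm_star, LowAux.nqC]
  ring

theorem hf_dir (g : GU κ) (v : κ ⊕ Unit → ℂ) (p : κ × Bool) :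
    hf v (g.dir p) = wb p.2 * hf v (g.M *ᵥ ej p.1) := by
  have h := ConeAux.hf_smul 1 (wb p.2) v (g.M *ᵥ ej p.1)
  rw [one_smul, star_one, one_mul] at h
  rw [GU.dir, Matrix.mulVec_smul, h]

theorem hf_bo (g : GU κ) (v : κ ⊕ Unit → ℂ) (p : κ × Bool) (t : ℝ) :
    hf v (g * bo t p).pt = (Real.cosh t : ℂ) * hf v g.pt + (Real.sinh t : ℂ) * hf v (g.dir p) := by
  rw [pt_bo]
  simp only [hf, Pi.add_apply, Pi.smul_apply, Complex.real_smul, mul_add, Finset.sum_add_distrib,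
    mul_sub, Finset.mul_sum]
  have e : ∀ (a b c : ℂ), a * (b * c) = b * (a * c) := fun a b c => by ring
  simp only [e (star _) (Real.cosh t : ℂ), e (star _) (Real.sinh t : ℂ)]
  ring

theorem norm_lin (a b : ℝ) (A B : ℂ) : ‖(a : ℂ) * A + (b : ℂ) * B‖ ^ 2 =
    a ^ 2 * ‖A‖ ^ 2 + 2 * a * b * (star A * B).re + b ^ 2 * ‖B‖ ^ 2 := by
  rw [← Complex.normSq_eq_norm_sq, ← Complex.normSq_eq_norm_sq, ← Complex.normSq_eq_norm_sq]
  simp only [Complex.normSq_apply, Complex.add_re, Complex.add_im, Complex.mul_re, Complex.mul_im,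
    Complex.ofReal_re, Complex.ofReal_im, Complex.star_def, Complex.conj_re, Complex.conj_im]
  ring

theorem sv_bo (g : GU κ) (v : κ ⊕ Unit → ℂ) (p : κ × Bool) (t : ℝ) :
    sv v (g * bo t p).pt = (Real.cosh t ^ 2 * ‖hf v g.pt‖ ^ 2 +
      2 * Real.cosh t * Real.sinh t * (star (hf v g.pt) * hf v (g.dir p)).re +
      Real.sinh t ^ 2 * ‖hf v (g.dir p)‖ ^ 2) / LowAux.nqC v := by
  rw [sv, (pt_mem _).2, mul_one, hf_bo, norm_lin]

/-- the second derivative of a composition with a function of one variable -/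
theorem iter_comp {β s s' : ℝ → ℝ} {x : ℝ} (hβ : ContDiff ℝ 2 β)
    (h1 : ∀ t, HasDerivAt s (s' t) t) (h2 : HasDerivAt s' x 0) :
    iteratedDeriv 2 (fun t => β (s t)) 0 =
      deriv (deriv β) (s 0) * s' 0 ^ 2 + deriv β (s 0) * x := by
  have hβ1 : Differentiable ℝ β := hβ.differentiable (by norm_num)
  have hβ2 : Differentiable ℝ (deriv β) := by
    exact hβ.differentiable_deriv_two
  have e1 : deriv (fun t => β (s t)) = fun t => deriv β (s t) * s' t := by
    funext t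
    exact ((hβ1 (s t)).hasDerivAt.comp t (h1 t)).deriv
  rw [iteratedDeriv_succ, iteratedDeriv_one, e1]
  have h3 : HasDerivAt (fun t => deriv β (s t) * s' t)
      (deriv (deriv β) (s 0) * s' 0 * s' 0 + deriv β (s 0) * x) 0 :=
    ((hβ2 (s 0)).hasDerivAt.comp 0 (h1 0)).mul h2
  rw [h3.deriv]
  ring

theorem iter_sv {β : ℝ → ℝ} (hβ : ContDiff ℝ 2 β) (g : GU κ) (v : κ ⊕ Unit → ℂ)
    (p : κ × Bool) :
    iteratedDeriv 2 (fun t : ℝ => β (sv v (g * bo t p).pt)) 0 =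
      deriv (deriv β) (sv v g.pt) *
        (2 * (star (hf v g.pt) * hf v (g.dir p)).re / LowAux.nqC v) ^ 2 +
      deriv β (sv v g.pt) *
        ((2 * ‖hf v g.pt‖ ^ 2 + 2 * ‖hf v (g.dir p)‖ ^ 2) / LowAux.nqC v) := by
  set a := ‖hf v g.pt‖ ^ 2 with ha
  set b := (star (hf v g.pt) * hf v (g.dir p)).re with hb
  set d := ‖hf v (g.dir p)‖ ^ 2 with hd
  set q := LowAux.nqC v with hq
  have e : (fun t : ℝ => β (sv v (g * bo t p).pt)) = fun t => β ((fun t : ℝ =>
      (Real.cosh t ^ 2 * a + 2 * Real.cosh t * Real.sinh t * b + Real.sinh t ^ 2 * d) / q) t) := by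
    funext t
    rw [sv_bo]
  have e0 : sv v g.pt = (Real.cosh 0 ^ 2 * a + 2 * Real.cosh 0 * Real.sinh 0 * b +
      Real.sinh 0 ^ 2 * d) / q := by
    have := sv_bo g v p 0
    rw [bo_zero, mul_one] at this
    rw [this]
  have h1 : ∀ t : ℝ, HasDerivAt (fun t : ℝ =>
      (Real.cosh t ^ 2 * a + 2 * Real.cosh t * Real.sinh t * b + Real.sinh t ^ 2 * d) / q)
      ((2 * Real.cosh t * Real.sinh t * (a + d) +
        2 * (Real.cosh t ^ 2 + Real.sinh t ^ 2) * b) / q) t := by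
    intro t
    have hc := Real.hasDerivAt_cosh t
    have hs := Real.hasDerivAt_sinh t
    have h := (((hc.pow 2).mul_const a).add (((hc.const_mul 2).mul hs).mul_const b)).add
      ((hs.pow 2).mul_const d)
    have h' := h.div_const q
    refine HasDerivAt.congr_deriv (h'.congr_of_eventuallyEq ?_) ?_
    · exact Eventually.of_forall fun t => by simp
    · simp only [Nat.cast_ofNat, Nat.add_one_sub_one, pow_one]
      ring
  have h2 : HasDerivAt (fun t : ℝ => (2 * Real.cosh t * Real.sinh t * (a + d) +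
        2 * (Real.cosh t ^ 2 + Real.sinh t ^ 2) * b) / q) ((2 * a + 2 * d) / q) 0 := by
    have hc := Real.hasDerivAt_cosh 0
    have hs := Real.hasDerivAt_sinh 0
    have h := (((hc.const_mul 2).mul hs).mul_const (a + d)).add
      ((((hc.pow 2).add (hs.pow 2)).const_mul 2).mul_const b)
    have h' := h.div_const q
    refine HasDerivAt.congr_deriv (h'.congr_of_eventuallyEq ?_) ?_
    · exact Eventually.of_forall fun t => by simp
    · simp only [Real.cosh_zero, Real.sinh_zero]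
      simp
      ring
  rw [e, iter_comp hβ h1 h2, ← e0]
  simp only [Real.cosh_zero, Real.sinh_zero]
  congr 2
  simp

end KerAux

open KerAux

/-- module KER: first and second derivatives of a radial function along the boosts -/
theorem ker_deriv {β : ℝ → ℝ} (hβ : ContDiff ℝ 2 β) (v : κ ⊕ Unit → ℂ) (hv : v ∈ Cn κ)
    (g : GU κ) :
    (∀ p, iteratedDeriv 2 (fun t : ℝ => β (sv v (g * bo t p).pt)) 0 =
      fderiv ℝ (fun w => fderiv ℝ (fun w' => β (sv v w')) w (g.dir p)) g.pt (g.dir p)) ∧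
    ∑ p, iteratedDeriv 2 (fun t : ℝ => β (sv v (g * bo t p).pt)) 0 =
      LL (Fintype.card κ) β (sv v g.pt) := by
  refine ⟨fun p => ?_, ?_⟩
  · refine second_gen (φ := fun w' => β (sv v w')) ?_ ?_ g p
    · exact hβ.comp_contDiffOn ((sv_cd v hv).of_le two_le_inf)
    · intro w hw r hr
      show β (sv v (r • w)) = β (sv v w)
      rw [sv_real hr]
  · have hq : 0 < LowAux.nqC v := hv
    have hs : sv v g.pt = ‖hf v g.pt‖ ^ 2 / LowAux.nqC v := by
      rw [sv, (pt_mem g).2, mul_one]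
    simp only [iter_sv hβ]
    rw [Finset.sum_add_distrib, ← Finset.mul_sum, ← Finset.mul_sum, Fintype.sum_prod_type,
      Fintype.sum_prod_type]
    have h1 : ∀ j : κ, ∑ b : Bool, (2 * (star (hf v g.pt) * hf v (g.dir (j, b))).re /
        LowAux.nqC v) ^ 2 = 4 * ‖hf v g.pt‖ ^ 2 / LowAux.nqC v ^ 2 *
          ‖hf v (g.M *ᵥ ej j)‖ ^ 2 := by
      intro j
      rw [Fintype.sum_bool, hf_dir, hf_dir]
      have hz : ∀ z w : ℂ, (z * w).re ^ 2 + (z * (Complex.I * w)).re ^ 2 =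
          ‖z‖ ^ 2 * ‖w‖ ^ 2 := by
        intro z w
        rw [← Complex.normSq_eq_norm_sq, ← Complex.normSq_eq_norm_sq]
        simp only [Complex.normSq_apply, Complex.mul_re, Complex.mul_im, Complex.I_re,
          Complex.I_im]
        ring
      have := hz (star (hf v g.pt)) (hf v (g.M *ᵥ ej j))
      rw [norm_star] at this
      simp only [wb, if_true, Bool.false_eq_true, if_false, one_mul]
      rw [div_pow, div_pow, ← add_div, mul_pow, mul_pow, ← mul_add, this]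
      ring
    have h2 : ∀ j : κ, ∑ b : Bool, (2 * ‖hf v g.pt‖ ^ 2 + 2 * ‖hf v (g.dir (j, b))‖ ^ 2) /
        LowAux.nqC v = 4 * ‖hf v g.pt‖ ^ 2 / LowAux.nqC v +
          4 / LowAux.nqC v * ‖hf v (g.M *ᵥ ej j)‖ ^ 2 := by
      intro j
      rw [Fintype.sum_bool, hf_dir, hf_dir]
      simp only [wb, if_true, Bool.false_eq_true, if_false, one_mul, norm_mul, Complex.norm_I]
      ring
    simp only [h1, h2]
    rw [← Finset.mul_sum, Finset.sum_add_distrib, ← Finset.mul_sum, Finset.sum_const,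
      Finset.card_univ, form_sum, LL, hs, nsmul_eq_mul]
    field_simp

/-- module KER: smoothness in both variables -/
theorem sv_smooth : ContDiffOn ℝ ∞ (fun p : (κ ⊕ Unit → ℂ) × (κ ⊕ Unit → ℂ) => sv p.1 p.2)
    (Cn κ ×ˢ Cn κ) := by
  unfold sv
  have h1 : ∀ i, ContDiff ℝ ∞ fun p : (κ ⊕ Unit → ℂ) × (κ ⊕ Unit → ℂ) => star (p.1 i) * p.2 i := by
    intro i
    have e1 : ContDiff ℝ ∞ fun p : (κ ⊕ Unit → ℂ) × (κ ⊕ Unit → ℂ) => p.1 i :=
      (contDiff_apply ℝ ℂ i).comp contDiff_fst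
    have e2 : ContDiff ℝ ∞ fun p : (κ ⊕ Unit → ℂ) × (κ ⊕ Unit → ℂ) => p.2 i :=
      (contDiff_apply ℝ ℂ i).comp contDiff_snd
    have e3 : ContDiff ℝ ∞ fun p : (κ ⊕ Unit → ℂ) × (κ ⊕ Unit → ℂ) => star (p.1 i) :=
      (Complex.conjCLE.contDiff).comp e1
    exact e3.mul e2
  refine ContDiffOn.div ?_ ?_ ?_
  · refine ContDiff.contDiffOn ?_
    refine ContDiff.norm_sq ℝ ?_
    unfold hf
    exact ContDiff.sub (h1 _) (ContDiff.sum fun i _ => h1 _)
  · exact ((nqC_cd.comp contDiff_fst).mul (nqC_cd.comp contDiff_snd)).contDiffOn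
  · rintro ⟨v, w⟩ ⟨hv, hw⟩
    have h1 : 0 < LowAux.nqC v := hv
    have h2 : 0 < LowAux.nqC w := hw
    positivity

/-- module KER: for a homogeneous function the second derivative along a boost is the second
derivative in the direction of the boost -/
theorem second_hom {σ : G →* GU κ} {ρ : G →* Matrix n n ℝ} {H : (κ ⊕ Unit → ℂ) → Matrix n n ℝ}
    (hH : EqC σ ρ H) (hs : Sm ∞ H (Cn κ)) (g : GU κ) (p : κ × Bool) (i j : n) :
    iteratedDeriv 2 (fun t : ℝ => H ((g * bo t p).pt) i j) 0 =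
      DM (fun v => DM H v (g.dir p)) g.pt (g.dir p) i j := by
  refine second_gen (φ := fun w => H w i j) ((hs i j).of_le two_le_inf) ?_ g p
  intro w hw r hr
  show H (r • w) i j = H w i j
  have h := hH.hom w hw (r : ℂ) (by exact_mod_cast hr.ne')
  rw [← h]
  congr 2

end Pool.Agent.MPd01a95
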