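import Mathlib
import Pool.Agent.Lib.MP_d01a95_gt_H.HDefs
import Pool.Agent.Lib.MP_d01a95_gt_H.Unimod
import Pool.Agent.Lib.MP_d01a95_gt_H.Cone
import Pool.Agent.Lib.MP_d01a95_gt_H.Mol1
import Pool.Agent.Lib.MP_d01a95_gt_H.Ker
set_option autoImplicit false
set_option linter.all false
open Matrix Filter Topology MeasureTheory Measure
open scoped ENNReal NNReal ContDiff
namespace Pool.Agent.MPd01a95
open GU
variable {κ n ι α : Type} [Fintype κ] [DecidableEq κ] [Fintype n] [DecidableEq n] [Fintype ι] [DecidableEq ι] [Fintype α] [DecidableEq α] {G : Type} [Group G]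

namespace Mol3Aux

theorem cont_pt : Continuous (GU.pt : GU κ → κ ⊕ Unit → ℂ) :=
  continuous_M.matrix_mulVec continuous_const

theorem pt_mul (g h : GU κ) : (g * h).pt = g.M *ᵥ h.pt := by
  rw [GU.pt, GU.pt, M_mul, Matrix.mulVec_mulVec]

theorem sv_pt (y x : GU κ) : sv y.pt x.pt = c (y⁻¹ * x) ^ 2 := by
  rw [← sv_e0, pt_mul, ← sv_inv y e0, Matrix.mulVec_mulVec, mul_inv_M, Matrix.one_mulVec]
  rfl

theorem hcont {σ : G →* GU κ} {ρ : G →* Matrix n n ℝ} {H : (κ ⊕ Unit → ℂ) → Matrix n n ℝ}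
    (hH : EqC σ ρ H) (i j : n) : Continuous fun g : GU κ => H g.pt i j := by
  rw [continuous_iff_continuousAt]
  intro g
  obtain ⟨L, U, hU, hL⟩ := hH.lip g.pt (pt_mem g).1
  have h1 : ContinuousAt (fun w => H w i j) g.pt :=
    ((hL i j).continuousOn.continuousAt hU)
  exact ContinuousAt.comp (f := GU.pt) (g := fun w => H w i j) h1 cont_pt.continuousAt

/-- differentiation of an integral with compact support depending on a parameter -/
theorem param (μ : Measure (GU κ)) [IsHaarMeasure μ] {φ φ' : ℝ → GU κ → ℝ} {K : Set (GU κ)}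
    (hK : IsCompact K) (hc : ∀ t, Continuous (φ t))
    (hc' : Continuous fun q : ℝ × GU κ => φ' q.1 q.2)
    (hd : ∀ t x, HasDerivAt (fun t => φ t x) (φ' t x) t)
    (hs : ∀ t, |t| < 1 → ∀ x, x ∉ K → φ t x = 0) :
    (∀ t, |t| < 1 → HasDerivAt (fun t => ∫ x, φ t x ∂μ) (∫ x, φ' t x ∂μ) t) ∧
      ∀ t, |t| < 1 → ∀ x, x ∉ K → φ' t x = 0 := by
  have hball : ∀ t : ℝ, t ∈ Metric.ball (0 : ℝ) 1 ↔ |t| < 1 := fun t => by
    rw [mem_ball_zero_iff, Real.norm_eq_abs]
  have hz : ∀ t, |t| < 1 → ∀ x, x ∉ K → φ' t x = 0 := by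
    intro t ht x hx
    have h1 : (fun t => φ t x) =ᶠ[𝓝 t] fun _ => 0 := by
      filter_upwards [Metric.isOpen_ball.mem_nhds ((hball t).2 ht)] with s hs'
      exact hs s ((hball s).1 hs') x hx
    exact (hd t x).unique ((hasDerivAt_const t (0 : ℝ)).congr_of_eventuallyEq h1)
  refine ⟨fun t ht => ?_, hz⟩
  obtain ⟨C, hC⟩ := ((isCompact_Icc (a := (-1 : ℝ)) (b := 1)).prod hK).exists_bound_of_continuousOn
    hc'.continuousOn
  have hint : ∀ s, |s| < 1 → Integrable (φ s) μ := fun s hs' =>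
    (hc s).integrable_of_hasCompactSupport (HasCompactSupport.intro hK (hs s hs'))
  have hKm : MeasurableSet K := hK.measurableSet
  refine (hasDerivAt_integral_of_dominated_loc_of_deriv_le (μ := μ) (F := φ) (F' := φ')
    (x₀ := t) (s := Metric.ball (0 : ℝ) 1) (bound := Set.indicator K (fun _ => C))
    (Metric.isOpen_ball.mem_nhds ((hball t).2 ht))
    (Eventually.of_forall fun s => (hc s).aestronglyMeasurable) (hint t ht)
    (Continuous.aestronglyMeasurable (hc'.comp (continuous_const.prodMk continuous_id)))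
    (Eventually.of_forall fun x s hs' => ?_) ?_ (Eventually.of_forall fun x s _ => hd s x)).2
  · by_cases hx : x ∈ K
    · rw [Set.indicator_of_mem hx]
      have h2 := abs_le.1 ((hball s).1 hs').le
      exact hC (s, x) ⟨h2, hx⟩
    · rw [Set.indicator_of_notMem hx, hz s ((hball s).1 hs') x hx]
      simp
  · rw [integrable_indicator_iff hKm]
    exact integrableOn_const hK.measure_lt_top.ne

/-! ### the kernel along a boost -/

/-- coefficients -/
noncomputable def ca (g : GU κ) (x : GU κ) : ℝ := Complex.normSq (hf x.pt g.pt)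
noncomputable def cb (g : GU κ) (p : κ × Bool) (x : GU κ) : ℝ :=
  (hf x.pt g.pt * star (hf x.pt (g.dir p))).re
noncomputable def cd (g : GU κ) (p : κ × Bool) (x : GU κ) : ℝ :=
  Complex.normSq (hf x.pt (g.dir p))

theorem cont_hf (w : κ ⊕ Unit → ℂ) : Continuous fun x : GU κ => hf x.pt w := by
  have h : ∀ k, Continuous fun x : GU κ => x.pt k := fun k => (continuous_apply k).comp cont_pt
  unfold hf
  refine ((h _).star.mul continuous_const).sub ?_
  exact continuous_finset_sum _ fun i _ => (h _).star.mul continuous_const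

theorem cont_ca (g : GU κ) : Continuous (ca g) := by
  unfold ca; exact Complex.continuous_normSq.comp (cont_hf _)

theorem cont_cb (g : GU κ) (p : κ × Bool) : Continuous (cb g p) := by
  unfold cb; exact Complex.continuous_re.comp ((cont_hf _).mul (cont_hf _).star)

theorem cont_cd (g : GU κ) (p : κ × Bool) : Continuous (cd g p) := by
  unfold cd; exact Complex.continuous_normSq.comp (cont_hf _)

theorem bo_pt (g : GU κ) (t : ℝ) (p : κ × Bool) : (g * bo t p).pt =
    (Real.cosh t : ℂ) • g.pt + (Real.sinh t : ℂ) • g.dir p := by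
  rw [pt_mul, GU.pt, bo_M, boM_e0, Matrix.mulVec_add, Matrix.mulVec_smul, Matrix.mulVec_smul,
    GU.dir, GU.pt, Matrix.mulVec_smul, smul_smul]

theorem hf_lin (v w w' : κ ⊕ Unit → ℂ) (r s : ℂ) :
    hf v (r • w + s • w') = r * hf v w + s * hf v w' := by
  unfold hf
  simp only [Pi.add_apply, Pi.smul_apply, smul_eq_mul, mul_add, Finset.sum_add_distrib, mul_sub,
    Finset.mul_sum]
  have e1 : ∀ i, star (v i) * (r * w i) = r * (star (v i) * w i) := fun i => by ring
  have e2 : ∀ i, star (v i) * (s * w' i) = s * (star (v i) * w' i) := fun i => by ring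
  simp only [e1, e2]
  ring

/-- the argument of the kernel and its derivatives -/
noncomputable def S0 (a b d t : ℝ) : ℝ :=
  a * Real.cosh t ^ 2 + 2 * b * (Real.cosh t * Real.sinh t) + d * Real.sinh t ^ 2
noncomputable def S1 (a b d t : ℝ) : ℝ :=
  2 * a * (Real.cosh t * Real.sinh t) + 2 * b * (Real.cosh t ^ 2 + Real.sinh t ^ 2) +
    2 * d * (Real.cosh t * Real.sinh t)
noncomputable def S2 (a b d t : ℝ) : ℝ :=
  2 * a * (Real.cosh t ^ 2 + Real.sinh t ^ 2) + 8 * b * (Real.cosh t * Real.sinh t) +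
    2 * d * (Real.cosh t ^ 2 + Real.sinh t ^ 2)

theorem dS0 (a b d t : ℝ) : HasDerivAt (S0 a b d) (S1 a b d t) t := by
  have hc := Real.hasDerivAt_cosh t
  have hs := Real.hasDerivAt_sinh t
  have h := (((hc.pow 2).const_mul a).add ((hc.mul hs).const_mul (2 * b))).add
    ((hs.pow 2).const_mul d)
  refine h.congr_deriv ?_
  unfold S1
  simp
  ring

theorem dS1 (a b d t : ℝ) : HasDerivAt (S1 a b d) (S2 a b d t) t := by
  have hc := Real.hasDerivAt_cosh t
  have hs := Real.hasDerivAt_sinh t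
  have h := (((hc.mul hs).const_mul (2 * a)).add
    (((hc.pow 2).add (hs.pow 2)).const_mul (2 * b))).add ((hc.mul hs).const_mul (2 * d))
  refine h.congr_deriv ?_
  unfold S2
  simp
  ring

theorem sv_bo (g x : GU κ) (p : κ × Bool) (t : ℝ) :
    sv x.pt (g * bo t p).pt = S0 (ca g x) (cb g p x) (cd g p x) t := by
  rw [sv, (pt_mem x).2, (pt_mem _).2, bo_pt, hf_lin, mul_one, div_one, ← Complex.normSq_eq_norm_sq,
    Complex.normSq_add, Complex.normSq_mul, Complex.normSq_mul, S0, ca, cb, cd]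
  simp only [Complex.normSq_ofReal, map_mul, Complex.conj_ofReal]
  have e : ((Real.cosh t : ℂ) * hf x.pt g.pt * ((Real.sinh t : ℂ) * (starRingEnd ℂ) (hf x.pt (g.dir p)))).re
      = (Real.cosh t * Real.sinh t) * (hf x.pt g.pt * star (hf x.pt (g.dir p))).re := by
    rw [show (Real.cosh t : ℂ) * hf x.pt g.pt * ((Real.sinh t : ℂ) *
        (starRingEnd ℂ) (hf x.pt (g.dir p))) =
        ((Real.cosh t * Real.sinh t : ℝ) : ℂ) * (hf x.pt g.pt * star (hf x.pt (g.dir p))) by
      push_cast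
      rw [Complex.star_def]
      ring]
    rw [Complex.re_ofReal_mul]
  rw [e]
  ring

theorem it2 {f f1 : ℝ → ℝ} {f2 : ℝ} (h1 : ∀ t, |t| < 1 → HasDerivAt f (f1 t) t)
    (h2 : HasDerivAt f1 f2 0) : iteratedDeriv 2 f 0 = f2 := by
  rw [iteratedDeriv_succ, iteratedDeriv_one]
  have e : deriv f =ᶠ[𝓝 0] f1 := by
    filter_upwards [Metric.isOpen_ball.mem_nhds (Metric.mem_ball_self (x := (0 : ℝ)) one_pos)]
      with t ht
    rw [mem_ball_zero_iff, Real.norm_eq_abs] at ht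
    exact (h1 t ht).deriv
  rw [e.deriv_eq]
  exact h2.deriv

theorem mol_bo (μ : Measure (GU κ)) [IsHaarMeasure μ] (β : ℝ → ℝ)
    (H : (κ ⊕ Unit → ℂ) → Matrix n n ℝ) (g : GU κ) (p : κ × Bool) (t : ℝ) (i j : n) :
    mol μ β H (g * bo t p).pt i j =
      (∫ x, β (S0 (ca g x) (cb g p x) (cd g p x) t) * H x.pt i j ∂μ) /
        ∫ x, β (c x ^ 2) ∂μ := by
  have e : ∀ x : GU κ, β (sv (g * bo t p).pt x.pt) * H x.pt i j =
      β (S0 (ca g x) (cb g p x) (cd g p x) t) * H x.pt i j := by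
    intro x
    rw [sv_symm, sv_bo]
  rw [mol, Matrix.of_apply]
  simp only [e]

/-- continuity of the arguments -/
theorem cont_S0 (g : GU κ) (p : κ × Bool) :
    Continuous fun q : ℝ × GU κ => S0 (ca g q.2) (cb g p q.2) (cd g p q.2) q.1 := by
  have h1 := (cont_ca g).comp (continuous_snd (X := ℝ))
  have h2 := (cont_cb g p).comp (continuous_snd (X := ℝ))
  have h3 := (cont_cd g p).comp (continuous_snd (X := ℝ))
  have h4 := Real.continuous_cosh.comp (continuous_fst (Y := GU κ))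
  have h5 := Real.continuous_sinh.comp (continuous_fst (Y := GU κ))
  exact ((h1.mul (h4.pow 2)).add ((continuous_const.mul h2).mul (h4.mul h5))).add
    (h3.mul (h5.pow 2))

theorem cont_S1 (g : GU κ) (p : κ × Bool) :
    Continuous fun q : ℝ × GU κ => S1 (ca g q.2) (cb g p q.2) (cd g p q.2) q.1 := by
  have h1 := (cont_ca g).comp (continuous_snd (X := ℝ))
  have h2 := (cont_cb g p).comp (continuous_snd (X := ℝ))
  have h3 := (cont_cd g p).comp (continuous_snd (X := ℝ))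
  have h4 := Real.continuous_cosh.comp (continuous_fst (Y := GU κ))
  have h5 := Real.continuous_sinh.comp (continuous_fst (Y := GU κ))
  exact (((continuous_const.mul h1).mul (h4.mul h5)).add
    ((continuous_const.mul h2).mul ((h4.pow 2).add (h5.pow 2)))).add
    ((continuous_const.mul h3).mul (h4.mul h5))

theorem cont_S2 (g : GU κ) (p : κ × Bool) :
    Continuous fun q : ℝ × GU κ => S2 (ca g q.2) (cb g p q.2) (cd g p q.2) q.1 := by
  have h1 := (cont_ca g).comp (continuous_snd (X := ℝ))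
  have h2 := (cont_cb g p).comp (continuous_snd (X := ℝ))
  have h3 := (cont_cd g p).comp (continuous_snd (X := ℝ))
  have h4 := Real.continuous_cosh.comp (continuous_fst (Y := GU κ))
  have h5 := Real.continuous_sinh.comp (continuous_fst (Y := GU κ))
  exact (((continuous_const.mul h1).mul ((h4.pow 2).add (h5.pow 2))).add
    ((continuous_const.mul h2).mul (h4.mul h5))).add
    ((continuous_const.mul h3).mul ((h4.pow 2).add (h5.pow 2)))

/-- the support of the kernel along a boost -/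
theorem supp_bo (g : GU κ) (p : κ × Bool) {β : ℝ → ℝ} {R₀ : ℝ} (hR₀ : ∀ s, β s ≠ 0 → s ≤ R₀) :
    ∃ K : Set (GU κ), IsCompact K ∧ ∀ t, |t| < 1 → ∀ x, x ∉ K →
      β (S0 (ca g x) (cb g p x) (cd g p x) t) = 0 := by
  obtain ⟨C, hC⟩ := (isCompact_Icc (a := (-1 : ℝ)) (b := 1)).exists_bound_of_continuousOn
    ((continuous_c.comp ((continuous_const (y := g)).mul (continuous_bo p))).continuousOn)
  refine ⟨{x | c x ≤ 2 * C * R₀}, isCompact_c _, ?_⟩
  intro t ht x hx
  by_contra h1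
  have h2 := hR₀ _ h1
  have h3 : S0 (ca g x) (cb g p x) (cd g p x) t = c ((g * bo t p)⁻¹ * x) ^ 2 := by
    rw [← sv_pt, sv_symm, sv_bo]
  rw [h3] at h2
  have h4 := c_ge_one ((g * bo t p)⁻¹ * x)
  have h5 : c ((g * bo t p)⁻¹ * x) ≤ R₀ := by nlinarith
  have h6 : c (g * bo t p) ≤ C := by
    have := hC t (abs_le.1 ht.le)
    exact (le_abs_self _).trans this
  have h7 := c_mul (g * bo t p) ((g * bo t p)⁻¹ * x)
  rw [mul_inv_cancel_left] at h7
  have h8 := c_ge_one (g * bo t p)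
  apply hx
  show c x ≤ 2 * C * R₀
  calc c x ≤ 2 * c (g * bo t p) * c ((g * bo t p)⁻¹ * x) := h7
    _ ≤ 2 * C * R₀ := by
      have : 0 ≤ c ((g * bo t p)⁻¹ * x) := by linarith
      have : 0 ≤ C := by linarith
      gcongr

/-- second derivative of the integral along a boost -/
theorem second_int (μ : Measure (GU κ)) [IsHaarMeasure μ] {β β1 β2 : ℝ → ℝ}
    (dβ : ∀ s, HasDerivAt β (β1 s) s) (dβ1 : ∀ s, HasDerivAt β1 (β2 s) s)
    (cβ2 : Continuous β2) {R₀ : ℝ} (hR₀ : ∀ s, β s ≠ 0 → s ≤ R₀) {h : GU κ → ℝ}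
    (ch : Continuous h) (M : ℝ) (g : GU κ) (p : κ × Bool) :
    iteratedDeriv 2 (fun t : ℝ =>
      (∫ x, β (S0 (ca g x) (cb g p x) (cd g p x) t) * h x ∂μ) / M) 0 =
      (∫ x, iteratedDeriv 2 (fun t : ℝ => β (sv x.pt (g * bo t p).pt)) 0 * h x ∂μ) / M ∧
    Integrable (fun x => iteratedDeriv 2 (fun t : ℝ => β (sv x.pt (g * bo t p).pt)) 0 * h x)
      μ := by
  have cβ : Continuous β := continuous_iff_continuousAt.2 fun s => (dβ s).continuousAt
  have cβ1 : Continuous β1 := continuous_iff_continuousAt.2 fun s => (dβ1 s).continuousAt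
  obtain ⟨K, hKc, hs⟩ := supp_bo g p hR₀
  have db : ∀ t x, HasDerivAt (fun t => β (S0 (ca g x) (cb g p x) (cd g p x) t))
      (β1 (S0 (ca g x) (cb g p x) (cd g p x) t) * S1 (ca g x) (cb g p x) (cd g p x) t) t :=
    fun t x => HasDerivAt.comp (h₂ := β) (h := S0 (ca g x) (cb g p x) (cd g p x)) t
      (dβ _) (dS0 _ _ _ t)
  have db1 : ∀ t x, HasDerivAt (fun t => β1 (S0 (ca g x) (cb g p x) (cd g p x) t))
      (β2 (S0 (ca g x) (cb g p x) (cd g p x) t) * S1 (ca g x) (cb g p x) (cd g p x) t) t :=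
    fun t x => HasDerivAt.comp (h₂ := β1) (h := S0 (ca g x) (cb g p x) (cd g p x)) t
      (dβ1 _) (dS0 _ _ _ t)
  have db2 : ∀ t x, HasDerivAt (fun t => β1 (S0 (ca g x) (cb g p x) (cd g p x) t) *
      S1 (ca g x) (cb g p x) (cd g p x) t)
      (β2 (S0 (ca g x) (cb g p x) (cd g p x) t) * S1 (ca g x) (cb g p x) (cd g p x) t *
        S1 (ca g x) (cb g p x) (cd g p x) t + β1 (S0 (ca g x) (cb g p x) (cd g p x) t) *
        S2 (ca g x) (cb g p x) (cd g p x) t) t :=
    fun t x => (db1 t x).mul (dS1 _ _ _ t)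
  have chh : Continuous fun q : ℝ × GU κ => h q.2 := ch.comp continuous_snd
  have hc0 : ∀ t : ℝ, Continuous fun x : GU κ => (t, x) := fun t =>
    Continuous.prodMk_right t
  have k0 : ∀ t : ℝ, Continuous fun x : GU κ => S0 (ca g x) (cb g p x) (cd g p x) t := by
    intro t
    have := (cont_S0 g p).comp (hc0 t)
    exact this
  have k1 : ∀ t : ℝ, Continuous fun x : GU κ => S1 (ca g x) (cb g p x) (cd g p x) t := by
    intro t
    have := (cont_S1 g p).comp (hc0 t)
    exact this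
  have k2 : ∀ t : ℝ, Continuous fun x : GU κ => S2 (ca g x) (cb g p x) (cd g p x) t := by
    intro t
    have := (cont_S2 g p).comp (hc0 t)
    exact this
  have cφ0 : Continuous fun q : ℝ × GU κ =>
      β (S0 (ca g q.2) (cb g p q.2) (cd g p q.2) q.1) * h q.2 := (cβ.comp (cont_S0 g p)).mul chh
  have cφ1 : Continuous fun q : ℝ × GU κ =>
      β1 (S0 (ca g q.2) (cb g p q.2) (cd g p q.2) q.1) *
        S1 (ca g q.2) (cb g p q.2) (cd g p q.2) q.1 * h q.2 :=
    ((cβ1.comp (cont_S0 g p)).mul (cont_S1 g p)).mul chh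
  have cφ2 : Continuous fun q : ℝ × GU κ =>
      (β2 (S0 (ca g q.2) (cb g p q.2) (cd g p q.2) q.1) *
        S1 (ca g q.2) (cb g p q.2) (cd g p q.2) q.1 *
        S1 (ca g q.2) (cb g p q.2) (cd g p q.2) q.1 +
        β1 (S0 (ca g q.2) (cb g p q.2) (cd g p q.2) q.1) *
        S2 (ca g q.2) (cb g p q.2) (cd g p q.2) q.1) * h q.2 :=
    ((((cβ2.comp (cont_S0 g p)).mul (cont_S1 g p)).mul (cont_S1 g p)).add
      ((cβ1.comp (cont_S0 g p)).mul (cont_S2 g p))).mul chh
  have c0 : ∀ t : ℝ, Continuous fun x : GU κ =>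
      β (S0 (ca g x) (cb g p x) (cd g p x) t) * h x := fun t => (cβ.comp (k0 t)).mul ch
  have c1 : ∀ t : ℝ, Continuous fun x : GU κ =>
      β1 (S0 (ca g x) (cb g p x) (cd g p x) t) * S1 (ca g x) (cb g p x) (cd g p x) t * h x :=
    fun t => ((cβ1.comp (k0 t)).mul (k1 t)).mul ch
  have c2 : ∀ t : ℝ, Continuous fun x : GU κ =>
      (β2 (S0 (ca g x) (cb g p x) (cd g p x) t) *
        S1 (ca g x) (cb g p x) (cd g p x) t *
        S1 (ca g x) (cb g p x) (cd g p x) t + β1 (S0 (ca g x) (cb g p x) (cd g p x) t) *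
        S2 (ca g x) (cb g p x) (cd g p x) t) * h x :=
    fun t => ((((cβ2.comp (k0 t)).mul (k1 t)).mul (k1 t)).add
      ((cβ1.comp (k0 t)).mul (k2 t))).mul ch
  obtain ⟨i0, z1⟩ := param μ
    (φ := fun t x => β (S0 (ca g x) (cb g p x) (cd g p x) t) * h x)
    (φ' := fun t x => β1 (S0 (ca g x) (cb g p x) (cd g p x) t) *
        S1 (ca g x) (cb g p x) (cd g p x) t * h x) hKc c0 cφ1
    (fun t x => (db t x).mul_const (h x)) (fun t ht x hx => by
      show β (S0 (ca g x) (cb g p x) (cd g p x) t) * h x = 0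
      rw [hs t ht x hx, zero_mul])
  obtain ⟨i1, z2⟩ := param μ
    (φ := fun t x => β1 (S0 (ca g x) (cb g p x) (cd g p x) t) *
        S1 (ca g x) (cb g p x) (cd g p x) t * h x)
    (φ' := fun t x => (β2 (S0 (ca g x) (cb g p x) (cd g p x) t) *
        S1 (ca g x) (cb g p x) (cd g p x) t *
        S1 (ca g x) (cb g p x) (cd g p x) t + β1 (S0 (ca g x) (cb g p x) (cd g p x) t) *
        S2 (ca g x) (cb g p x) (cd g p x) t) * h x) hKc c1 cφ2
    (fun t x => (db2 t x).mul_const (h x)) z1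
  have e0 : ∀ x, iteratedDeriv 2 (fun t : ℝ => β (sv x.pt (g * bo t p).pt)) 0 =
      β2 (S0 (ca g x) (cb g p x) (cd g p x) 0) *
        S1 (ca g x) (cb g p x) (cd g p x) 0 *
        S1 (ca g x) (cb g p x) (cd g p x) 0 + β1 (S0 (ca g x) (cb g p x) (cd g p x) 0) *
        S2 (ca g x) (cb g p x) (cd g p x) 0 := by
    intro x
    have h1 : (fun t : ℝ => β (sv x.pt (g * bo t p).pt)) =
        fun t => β (S0 (ca g x) (cb g p x) (cd g p x) t) := by
      funext t; rw [sv_bo]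
    rw [h1]
    exact it2 (fun t _ => db t x) (db2 0 x)
  simp only [e0]
  refine ⟨?_, ?_⟩
  · exact it2 (fun t ht => (i0 t ht).div_const M) ((i1 0 (by simp)).div_const M)
  · exact (c2 0).integrable_of_hasCompactSupport (HasCompactSupport.intro hKc (z2 0 (by simp)))

end Mol3Aux

open Mol3Aux

section mol

variable {σ : G →* GU κ} (hL : Lat σ) (μ : Measure (GU κ)) [IsHaarMeasure μ]
  {χ : GU κ → ℝ} (hχ : Cut σ χ) {ρ : G →* Matrix n n ℝ}
  {H : (κ ⊕ Unit → ℂ) → Matrix n n ℝ} (hH : EqC σ ρ H)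
  {β : ℝ → ℝ} (hβ : ContDiff ℝ ∞ β) (hβc : HasCompactSupport β) (hβ0 : ∀ s, 0 ≤ β s)
  (hβ1 : 0 < β 1)

include hL hH hβ hβc hβ0 hβ1

/-- module MOL3: the Laplacian of the mollification -/
theorem mol_lap (hw : ∀ β : ℝ → ℝ, ContDiff ℝ ∞ β → HasCompactSupport β → ∀ v ∈ Cn κ, ∀ i j,
      ∫ g, LL (Fintype.card κ) β (sv v g.pt) * H g.pt i j ∂μ =
        ∫ g, β (sv v g.pt) * QH H g i j ∂μ) (g : GU κ) (i j : n) :
    ∑ p, DM (fun v => DM (mol μ β H) v (g.dir p)) g.pt (g.dir p) i j =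
      (∫ x, β (sv g.pt x.pt) * QH H x i j ∂μ) / ∫ x, β (c x ^ 2) ∂μ := by
  have hβ2 : ContDiff ℝ 2 β := hβ.of_le (WithTop.coe_le_coe.2 le_top)
  have hd1 : ContDiff ℝ 1 (deriv β) :=
    ((contDiff_succ_iff_deriv (n := 1)).1 (by simpa [one_add_one_eq_two] using hβ2)).2.2
  have dβ : ∀ s, HasDerivAt β (deriv β s) s := fun s =>
    ((hβ2.differentiable (by norm_num)) s).hasDerivAt
  have dβ1 : ∀ s, HasDerivAt (deriv β) (deriv (deriv β) s) s := fun s =>
    ((hd1.differentiable (by norm_num)) s).hasDerivAt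
  have cβ2 : Continuous (deriv (deriv β)) := hd1.continuous_deriv le_rfl
  obtain ⟨R₀, hR₀⟩ : ∃ R₀ : ℝ, ∀ s, β s ≠ 0 → s ≤ R₀ := by
    obtain ⟨R₀, hR⟩ := hβc.isCompact.bddAbove
    exact ⟨R₀, fun s hs => hR (subset_tsupport _ hs)⟩
  have key := fun p : κ × Bool => second_int μ dβ dβ1 cβ2 hR₀ (hcont hH i j)
    (∫ x, β (c x ^ 2) ∂μ) g p
  have hfirst : ∀ p : κ × Bool, DM (fun v => DM (mol μ β H) v (g.dir p)) g.pt (g.dir p) i j =
      (∫ x, iteratedDeriv 2 (fun t : ℝ => β (sv x.pt (g * bo t p).pt)) 0 * H x.pt i j ∂μ) /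
        ∫ x, β (c x ^ 2) ∂μ := by
    intro p
    have h1 := second_hom (mol_eqc hL μ hH hβ hβc hβ0 hβ1) (mol_smooth hL μ hH hβ hβc) g p i j
    rw [← h1, ← (key p).1]
    have h2 : (fun t : ℝ => mol μ β H (g * bo t p).pt i j) = fun t : ℝ =>
        (∫ x, β (S0 (ca g x) (cb g p x) (cd g p x) t) * H x.pt i j ∂μ) /
          ∫ x, β (c x ^ 2) ∂μ := funext fun t => mol_bo μ β H g p t i j
    rw [h2]
  have hsum : ∑ p, DM (fun v => DM (mol μ β H) v (g.dir p)) g.pt (g.dir p) i j =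
      ∑ p, (∫ x, iteratedDeriv 2 (fun t : ℝ => β (sv x.pt (g * bo t p).pt)) 0 * H x.pt i j ∂μ) /
        ∫ x, β (c x ^ 2) ∂μ := Finset.sum_congr rfl fun p _ => hfirst p
  have hint : ∫ x, ∑ p, iteratedDeriv 2 (fun t : ℝ => β (sv x.pt (g * bo t p).pt)) 0 *
      H x.pt i j ∂μ =
      ∑ p, ∫ x, iteratedDeriv 2 (fun t : ℝ => β (sv x.pt (g * bo t p).pt)) 0 *
        H x.pt i j ∂μ := integral_finset_sum _ fun p _ => (key p).2
  have e : ∀ x : GU κ, ∑ p, iteratedDeriv 2 (fun t : ℝ => β (sv x.pt (g * bo t p).pt)) 0 *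
      H x.pt i j = LL (Fintype.card κ) β (sv g.pt x.pt) * H x.pt i j := by
    intro x
    rw [← Finset.sum_mul, (ker_deriv hβ2 x.pt (pt_mem x).1 g).2, sv_symm]
  rw [hsum, ← Finset.sum_div, ← hint]
  simp only [e]
  rw [hw β hβ hβc g.pt (pt_mem g).1 i j]

end mol

end Pool.Agent.MPd01a95
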