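import Mathlib
import Pool.Agent.Lib.MP_d01a95_gt_H.HDefs
import Pool.Agent.Lib.MP_d01a95_gt_H.Unimod
set_option autoImplicit false
set_option linter.all false
open Matrix Filter Topology MeasureTheory Measure
open scoped ENNReal NNReal ContDiff
namespace Pool.Agent.MPd01a95
open GU
variable {κ n ι α : Type} [Fintype κ] [DecidableEq κ] [Fintype n] [DecidableEq n] [Fintype ι] [DecidableEq ι] [Fintype α] [DecidableEq α] {G : Type} [Group G]

namespace McalcAux

variable {𝕜 : Type} [RCLike 𝕜]

theorem det_cd {k : WithTop ℕ∞} {F : Type} [NormedAddCommGroup F] [NormedSpace ℝ F]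
    (g : F → n → n → 𝕜) (hg : ∀ i j, ContDiff ℝ k (fun x => g x i j)) :
    ContDiff ℝ k (fun x => (Matrix.of (g x)).det) := by
  simp only [Matrix.det_apply']
  refine ContDiff.sum fun σ _ => ?_
  refine contDiff_const.mul ?_
  exact contDiff_prod fun i _ => hg _ _

theorem ent_cd {k : WithTop ℕ∞} (i j : n) : ContDiff ℝ k (fun M : n → n → 𝕜 => M i j) :=
  (contDiff_pi.1 ((contDiff_pi.1 (contDiff_id (𝕜 := ℝ) (E := n → n → 𝕜))) i)) j

theorem inv_cd {k : WithTop ℕ∞} (i j : n) (M : n → n → 𝕜) (hM : (Matrix.of M).det ≠ 0) :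
    ContDiffAt ℝ k (fun M : n → n → 𝕜 => (Matrix.of M)⁻¹ i j) M := by
  have e : (fun M : n → n → 𝕜 => (Matrix.of M)⁻¹ i j) =
      fun M => ((Matrix.of M).det)⁻¹ * (Matrix.of M).adjugate i j := by
    funext M
    rw [Matrix.inv_def, Ring.inverse_eq_inv']; rfl
  rw [e]
  refine ContDiffAt.mul (ContDiffAt.inv (det_cd _ fun i j => ent_cd i j).contDiffAt hM) ?_
  have e2 : (fun M : n → n → 𝕜 => (Matrix.of M).adjugate i j) =
      fun M => (Matrix.of fun a b => if a = j then (Pi.single i (1 : 𝕜) : n → 𝕜) b else M a b).det := by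
    funext M
    rw [Matrix.adjugate_apply]
    congr 1
    ext a b
    simp [Matrix.updateRow_apply]
  rw [e2]
  refine (det_cd _ fun a b => ?_).contDiffAt
  by_cases h : a = j
  · simp only [h, if_true]; exact contDiff_const
  · simp only [h, if_false]; exact ent_cd a b

end McalcAux

open McalcAux

section mcalc

variable {E : Type} [NormedAddCommGroup E] [NormedSpace ℂ E]
variable {𝕜 : Type} [RCLike 𝕜]

/-- module MCALC: product rule -/
theorem DM_mul {f f' : E → Matrix n n 𝕜} {v : E}
    (hf : ∀ i j, DifferentiableAt ℝ (fun w => f w i j) v)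
    (hf' : ∀ i j, DifferentiableAt ℝ (fun w => f' w i j) v) (u : E) :
    DM (fun w => f w * f' w) v u = DM f v u * f' v + f v * DM f' v u := by
  ext i j
  have e : (fun w => (f w * f' w) i j) = fun w => ∑ k, f w i k * f' w k j := by
    funext w; rw [Matrix.mul_apply]
  show fderiv ℝ (fun w => (f w * f' w) i j) v u = _
  rw [e, fderiv_fun_sum (fun k _ => (hf i k).fun_mul (hf' k j)), ContinuousLinearMap.sum_apply,
    Matrix.add_apply, Matrix.mul_apply, Matrix.mul_apply, ← Finset.sum_add_distrib]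
  refine Finset.sum_congr rfl fun k _ => ?_
  rw [fderiv_fun_mul (hf i k) (hf' k j)]
  simp only [ContinuousLinearMap.add_apply, ContinuousLinearMap.smul_apply, smul_eq_mul, DM,
    Matrix.of_apply]
  ring

/-- module MCALC: smoothness of products -/
theorem Sm.mul {k : WithTop ℕ∞} {f f' : E → Matrix n n 𝕜} {Ω : Set E} (h : Sm k f Ω)
    (h' : Sm k f' Ω) : Sm k (fun w => f w * f' w) Ω := by
  intro i j
  have e : (fun w => (f w * f' w) i j) = fun w => ∑ k, f w i k * f' w k j := by
    funext w; rw [Matrix.mul_apply]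
  rw [e]
  exact ContDiffOn.sum fun l _ => (h i l).mul (h' l j)

/-- module MCALC: smoothness of the inverse -/
theorem Sm.inv {k : WithTop ℕ∞} {f : E → Matrix n n 𝕜} {Ω : Set E} (h : Sm k f Ω)
    (hd : ∀ v ∈ Ω, IsUnit (f v).det) : Sm k (fun w => (f w)⁻¹) Ω := by
  intro i j v hv
  have h1 : ContDiffWithinAt ℝ k (fun w => fun a b => f w a b) Ω v :=
    contDiffWithinAt_pi.2 fun a => contDiffWithinAt_pi.2 fun b => h a b v hv
  exact (inv_cd (k := k) i j (fun a b => f v a b) (hd v hv).ne_zero).comp_contDiffWithinAt v h1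

/-- module MCALC: derivative of the inverse -/
theorem DM_inv {f : E → Matrix n n 𝕜} {v : E}
    (hf : ∀ i j, DifferentiableAt ℝ (fun w => f w i j) v) (hd : IsUnit (f v).det) (u : E) :
    DM (fun w => (f w)⁻¹) v u = -((f v)⁻¹ * DM f v u * (f v)⁻¹) := by
  have h1 : DifferentiableAt ℝ (fun w => fun a b => f w a b) v :=
    differentiableAt_pi.2 fun a => differentiableAt_pi.2 fun b => hf a b
  have hi : ∀ i j, DifferentiableAt ℝ (fun w => (f w)⁻¹ i j) v := fun i j =>
    DifferentiableAt.comp (g := fun M : n → n → 𝕜 => (Matrix.of M)⁻¹ i j)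
      (f := fun w => fun a b => f w a b) v
      ((inv_cd (k := 1) i j (fun a b => f v a b) hd.ne_zero).differentiableAt (by simp)) h1
  have hc : ContinuousAt (fun w => (f w).det) v :=
    ((det_cd (k := 0) _ fun i j => ent_cd i j).continuous.continuousAt).comp
      (f := fun w => fun a b => f w a b) h1.continuousAt
  have hev : ∀ᶠ w in 𝓝 v, (f w).det ≠ 0 := hc.eventually_ne hd.ne_zero
  have h0 : DM (fun w => f w * (f w)⁻¹) v u = 0 := by
    ext i j
    show fderiv ℝ (fun w => (f w * (f w)⁻¹) i j) v u = 0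
    have e : (fun w => (f w * (f w)⁻¹) i j) =ᶠ[𝓝 v] fun _ => (1 : Matrix n n 𝕜) i j := by
      filter_upwards [hev] with w hw
      rw [Matrix.mul_nonsing_inv _ (isUnit_iff_ne_zero.2 hw)]
    rw [e.fderiv_eq]
    simp
  rw [DM_mul hf hi] at h0
  have h2 := congrArg (fun X => (f v)⁻¹ * X) h0
  simp only [Matrix.mul_add, Matrix.mul_zero] at h2
  rw [← Matrix.mul_assoc, ← Matrix.mul_assoc, Matrix.nonsing_inv_mul _ hd, Matrix.one_mul] at h2
  exact (neg_eq_of_add_eq_zero_right h2).symm

/-- module MCALC: symmetry of second derivatives -/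
theorem DM_comm {f : E → Matrix n n 𝕜} {Ω : Set E} (hΩ : IsOpen Ω) (h : Sm 2 f Ω) {v : E}
    (hv : v ∈ Ω) (u w : E) :
    DM (fun v' => DM f v' u) v w = DM (fun v' => DM f v' w) v u := by
  ext i j
  have h1 : ContDiffAt ℝ 2 (fun w => f w i j) v := (h i j).contDiffAt (hΩ.mem_nhds hv)
  have hsym := h1.isSymmSndFDerivAt (by simp)
  have hd : DifferentiableAt ℝ (fderiv ℝ (fun w => f w i j)) v :=
    (h1.fderiv_right (m := 1) (by norm_num [one_add_one_eq_two])).differentiableAt (by simp)
  have e : ∀ u : E, fderiv ℝ (fun v' => fderiv ℝ (fun w => f w i j) v' u) v =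
      (fderiv ℝ (fderiv ℝ (fun w => f w i j)) v).flip u := by
    intro u
    rw [fderiv_clm_apply hd (differentiableAt_const u)]
    simp
  show fderiv ℝ (fun v' => fderiv ℝ (fun w => f w i j) v' u) v w =
    fderiv ℝ (fun v' => fderiv ℝ (fun w => f w i j) v' w) v u
  rw [e, e]
  exact hsym.eq w u

end mcalc

end Pool.Agent.MPd01a95
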