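import Mathlib
import Pool.Agent.Lib.MP_d01a95_gt_H.HDefs
import Pool.Agent.Lib.MP_d01a95_gt_H.Unimod
import Pool.Agent.Lib.MP_d01a95_gt_H.Mcalc
set_option autoImplicit false
set_option linter.all false
open Matrix Filter Topology MeasureTheory Measure
open scoped ENNReal NNReal ContDiff
namespace Pool.Agent.MPd01a95
open GU
variable {κ n ι α : Type} [Fintype κ] [DecidableEq κ] [Fintype n] [DecidableEq n] [Fintype ι] [DecidableEq ι] [Fintype α] [DecidableEq α] {G : Type} [Group G]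

namespace CurvAux

variable {E : Type} [NormedAddCommGroup E] [NormedSpace ℂ E]

/-- entrywise differentiability -/
def Df (f : E → Matrix n n ℂ) (v : E) : Prop := ∀ i j, DifferentiableAt ℝ (fun w => f w i j) v

theorem Sm.df {f : E → Matrix n n ℂ} {Ω : Set E} (hΩ : IsOpen Ω) (h : Sm ∞ f Ω) {v : E}
    (hv : v ∈ Ω) : Df f v := fun i j =>
  ((h i j).contDiffAt (hΩ.mem_nhds hv)).differentiableAt (by simp)

theorem sm_DM {f : E → Matrix n n ℂ} {Ω : Set E} (hΩ : IsOpen Ω) (h : Sm ∞ f Ω) (u : E) :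
    Sm ∞ (fun v => DM f v u) Ω := by
  intro i j
  have h1 : ContDiffOn ℝ ∞ (fderiv ℝ (fun w => f w i j)) Ω :=
    (h i j).fderiv_of_isOpen hΩ (by simp)
  exact h1.clm_apply contDiffOn_const

theorem sm_add {f g : E → Matrix n n ℂ} {Ω : Set E} (h : Sm ∞ f Ω) (h' : Sm ∞ g Ω) :
    Sm ∞ (fun v => f v + g v) Ω := fun i j => (h i j).add (h' i j)

theorem sm_sub {f g : E → Matrix n n ℂ} {Ω : Set E} (h : Sm ∞ f Ω) (h' : Sm ∞ g Ω) :
    Sm ∞ (fun v => f v - g v) Ω := fun i j => (h i j).sub (h' i j)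

theorem sm_smul {f : E → Matrix n n ℂ} {Ω : Set E} (c : ℂ) (h : Sm ∞ f Ω) :
    Sm ∞ (fun v => c • f v) Ω := fun i j => contDiffOn_const.mul (h i j)

theorem sm_dz {f : E → Matrix n n ℂ} {Ω : Set E} (hΩ : IsOpen Ω) (h : Sm ∞ f Ω) (u : E) :
    Sm ∞ (fun v => dz f u v) Ω :=
  sm_smul _ (sm_sub (sm_DM hΩ h _) (sm_smul _ (sm_DM hΩ h _)))

theorem sm_dzb {f : E → Matrix n n ℂ} {Ω : Set E} (hΩ : IsOpen Ω) (h : Sm ∞ f Ω) (u : E) :
    Sm ∞ (fun v => dzb f u v) Ω :=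
  sm_smul _ (sm_add (sm_DM hΩ h _) (sm_smul _ (sm_DM hΩ h _)))

theorem sm_cH {H : E → Matrix n n ℝ} {Ω : Set E} (h : Sm ∞ H Ω) : Sm ∞ (cH H) Ω := fun i j =>
  Complex.ofRealCLM.contDiff.comp_contDiffOn (h i j)

theorem DM_add {f g : E → Matrix n n ℂ} {v : E} (hf : Df f v) (hg : Df g v) (u : E) :
    DM (fun w => f w + g w) v u = DM f v u + DM g v u := by
  ext i j
  show fderiv ℝ (fun w => f w i j + g w i j) v u = _
  rw [fderiv_fun_add (hf i j) (hg i j)]; rfl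

theorem DM_sub {f g : E → Matrix n n ℂ} {v : E} (hf : Df f v) (hg : Df g v) (u : E) :
    DM (fun w => f w - g w) v u = DM f v u - DM g v u := by
  ext i j
  show fderiv ℝ (fun w => f w i j - g w i j) v u = _
  rw [fderiv_fun_sub (hf i j) (hg i j)]; rfl

theorem DM_smul {f : E → Matrix n n ℂ} {v : E} (c : ℂ) (hf : Df f v) (u : E) :
    DM (fun w => c • f w) v u = c • DM f v u := by
  ext i j
  show fderiv ℝ (fun w => c * f w i j) v u = _
  rw [fderiv_const_mul (hf i j)]; rfl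

theorem DM_star (f : E → Matrix n n ℂ) (v u : E) :
    DM (fun w => (f w)ᴴ) v u = (DM f v u)ᴴ := by
  ext i j
  show fderiv ℝ (fun w => star (f w j i)) v u = star (fderiv ℝ (fun w => f w j i) v u)
  rw [fderiv_star]; rfl

theorem DM_congr {f g : E → Matrix n n ℂ} {Ω : Set E} (hΩ : IsOpen Ω) {v : E} (hv : v ∈ Ω)
    (h : ∀ w ∈ Ω, f w = g w) (u : E) : DM f v u = DM g v u := by
  ext i j
  show fderiv ℝ (fun w => f w i j) v u = fderiv ℝ (fun w => g w i j) v u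
  have : (fun w => f w i j) =ᶠ[𝓝 v] (fun w => g w i j) := by
    filter_upwards [hΩ.mem_nhds hv] with w hw
    rw [h w hw]
  rw [this.fderiv_eq]

theorem Df.add {f g : E → Matrix n n ℂ} {v : E} (hf : Df f v) (hg : Df g v) :
    Df (fun w => f w + g w) v := fun i j => (hf i j).add (hg i j)

theorem Df.sub {f g : E → Matrix n n ℂ} {v : E} (hf : Df f v) (hg : Df g v) :
    Df (fun w => f w - g w) v := fun i j => (hf i j).sub (hg i j)

theorem Df.smul {f : E → Matrix n n ℂ} {v : E} (c : ℂ) (hf : Df f v) :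
    Df (fun w => c • f w) v := fun i j => (hf i j).const_mul c

theorem dz_congr {f g : E → Matrix n n ℂ} {Ω : Set E} (hΩ : IsOpen Ω) {v : E} (hv : v ∈ Ω)
    (h : ∀ w ∈ Ω, f w = g w) (u : E) : dz f u v = dz g u v := by
  simp only [dz, DM_congr hΩ hv h]

theorem dzb_congr {f g : E → Matrix n n ℂ} {Ω : Set E} (hΩ : IsOpen Ω) {v : E} (hv : v ∈ Ω)
    (h : ∀ w ∈ Ω, f w = g w) (u : E) : dzb f u v = dzb g u v := by
  simp only [dzb, DM_congr hΩ hv h]

theorem dzb_mul {f g : E → Matrix n n ℂ} {v : E} (hf : Df f v) (hg : Df g v) (u : E) :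
    dzb (fun w => f w * g w) u v = dzb f u v * g v + f v * dzb g u v := by
  simp only [dzb, DM_mul hf hg, add_mul, mul_add, smul_mul_assoc, mul_smul_comm, smul_add]
  module

theorem dzb_add {f g : E → Matrix n n ℂ} {v : E} (hf : Df f v) (hg : Df g v) (u : E) :
    dzb (fun w => f w + g w) u v = dzb f u v + dzb g u v := by
  simp only [dzb, DM_add hf hg]
  module

theorem dzb_sub {f g : E → Matrix n n ℂ} {v : E} (hf : Df f v) (hg : Df g v) (u : E) :
    dzb (fun w => f w - g w) u v = dzb f u v - dzb g u v := by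
  simp only [dzb, DM_sub hf hg]
  module

theorem dzb_smul {f : E → Matrix n n ℂ} {v : E} (c : ℂ) (hf : Df f v) (u : E) :
    dzb (fun w => c • f w) u v = c • dzb f u v := by
  simp only [dzb, DM_smul c hf]
  module

theorem dzb_inv {f : E → Matrix n n ℂ} {v : E} (hf : Df f v) (hd : IsUnit (f v).det) (u : E) :
    dzb (fun w => (f w)⁻¹) u v = -((f v)⁻¹ * dzb f u v * (f v)⁻¹) := by
  simp only [dzb, DM_inv hf hd, add_mul, mul_add, smul_mul_assoc, mul_smul_comm, smul_add]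
  module

theorem dz_star (f : E → Matrix n n ℂ) (u v : E) : (dz f u v)ᴴ = dzb (fun w => (f w)ᴴ) u v := by
  simp only [dz, dzb, DM_star, Matrix.conjTranspose_smul, Matrix.conjTranspose_sub]
  simp
  try module

theorem dzb_star (f : E → Matrix n n ℂ) (u v : E) : (dzb f u v)ᴴ = dz (fun w => (f w)ᴴ) u v := by
  simp only [dz, dzb, DM_star, Matrix.conjTranspose_smul, Matrix.conjTranspose_add]
  simp
  try module

section comm

variable {f : E → Matrix n n ℂ} {Ω : Set E} (hΩ : IsOpen Ω) (h : Sm ∞ f Ω) {v : E} (hv : v ∈ Ω)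
include hΩ h hv

theorem dm_comm (u w : E) : DM (fun v' => DM f v' u) v w = DM (fun v' => DM f v' w) v u :=
  DM_comm hΩ (fun i j => (h i j).of_le
    (show ((2 : ℕ∞) : WithTop ℕ∞) ≤ ((⊤ : ℕ∞) : WithTop ℕ∞) from
      WithTop.coe_le_coe.2 le_top)) hv u w

theorem DM_dz (u w : E) : DM (fun v' => dz f u v') v w =
    (1 / 2 : ℂ) • (DM (fun v' => DM f v' u) v w -
      Complex.I • DM (fun v' => DM f v' (Complex.I • u)) v w) := by
  have h1 := Sm.df hΩ (sm_DM hΩ h u) hv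
  have h2 := Sm.df hΩ (sm_DM hΩ h (Complex.I • u)) hv
  simp only [dz]
  rw [DM_smul _ (h1.sub (h2.smul _)), DM_sub h1 (h2.smul _), DM_smul _ h2]

theorem DM_dzb (u w : E) : DM (fun v' => dzb f u v') v w =
    (1 / 2 : ℂ) • (DM (fun v' => DM f v' u) v w +
      Complex.I • DM (fun v' => DM f v' (Complex.I • u)) v w) := by
  have h1 := Sm.df hΩ (sm_DM hΩ h u) hv
  have h2 := Sm.df hΩ (sm_DM hΩ h (Complex.I • u)) hv
  simp only [dzb]
  rw [DM_smul _ (h1.add (h2.smul _)), DM_add h1 (h2.smul _), DM_smul _ h2]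

theorem dzb_dz (u w : E) : dzb (fun v' => dz f u v') w v = dz (fun v' => dzb f w v') u v := by
  rw [dzb, dz, DM_dz hΩ h hv, DM_dz hΩ h hv, DM_dzb hΩ h hv, DM_dzb hΩ h hv,
    dm_comm hΩ h hv w u, dm_comm hΩ h hv w (Complex.I • u),
    dm_comm hΩ h hv (Complex.I • w) u, dm_comm hΩ h hv (Complex.I • w) (Complex.I • u)]
  module

theorem dzb_dzb (u w : E) : dzb (fun v' => dzb f u v') w v = dzb (fun v' => dzb f w v') u v := by
  rw [dzb, dzb, DM_dzb hΩ h hv, DM_dzb hΩ h hv, DM_dzb hΩ h hv, DM_dzb hΩ h hv,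
    dm_comm hΩ h hv w u, dm_comm hΩ h hv w (Complex.I • u),
    dm_comm hΩ h hv (Complex.I • w) u, dm_comm hΩ h hv (Complex.I • w) (Complex.I • u)]
  module

end comm

section H

variable {H : E → Matrix n n ℝ} {Ω : Set E}
  (hΩ : IsOpen Ω) (hp : ∀ v ∈ Ω, (H v).PosDef) (hs : Sm ∞ H Ω)
include hΩ hp hs

theorem cH_det {v : E} (hv : v ∈ Ω) : IsUnit (cH H v).det := by
  have h1 : (cH H v).det = (((H v).det : ℝ) : ℂ) := by
    show ((H v).map ((↑) : ℝ → ℂ)).det = _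
    have := (RingHom.map_det Complex.ofRealHom (H v)).symm
    exact this
  rw [h1]
  exact isUnit_iff_ne_zero.2 (by exact_mod_cast (hp v hv).det_pos.ne')

theorem cH_star {v : E} (hv : v ∈ Ω) : (cH H v)ᴴ = cH H v := by
  ext i j
  have h := (hp v hv).isHermitian
  have h2 : H v j i = H v i j := by
    have := congrFun (congrFun h i) j
    simpa [Matrix.conjTranspose_apply] using this
  simp [cH, Matrix.conjTranspose_apply, h2]

theorem sm_inv : Sm ∞ (fun v => (cH H v)⁻¹) Ω :=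
  Sm.inv (sm_cH hs) fun v hv => cH_det hΩ hp hs hv

theorem dz_cH_star {v : E} (hv : v ∈ Ω) (u : E) : (dz (cH H) u v)ᴴ = dzb (cH H) u v := by
  rw [dz_star]
  exact dzb_congr hΩ hv (fun w hw => cH_star hΩ hp hs hw) u

theorem dzb_cH_star {v : E} (hv : v ∈ Ω) (u : E) : (dzb (cH H) u v)ᴴ = dz (cH H) u v := by
  rw [dzb_star]
  exact dz_congr hΩ hv (fun w hw => cH_star hΩ hp hs hw) u

theorem dd_star {v : E} (hv : v ∈ Ω) (u w : E) :
    (dzb (fun v' => dz (cH H) u v') w v)ᴴ = dzb (fun v' => dz (cH H) w v') u v := by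
  rw [dzb_star, dz_congr hΩ hv (fun v' hv' => dz_cH_star hΩ hp hs hv' u) w,
    ← dzb_dz hΩ (sm_cH hs) hv]

theorem inv_star {v : E} (hv : v ∈ Ω) : ((cH H v)⁻¹)ᴴ = (cH H v)⁻¹ := by
  rw [Matrix.conjTranspose_nonsing_inv, cH_star hΩ hp hs hv]

theorem inv_mul' {v : E} (hv : v ∈ Ω) : (cH H v)⁻¹ * cH H v = 1 :=
  Matrix.nonsing_inv_mul _ (cH_det hΩ hp hs hv)

theorem mul_inv' {v : E} (hv : v ∈ Ω) : cH H v * (cH H v)⁻¹ = 1 :=
  Matrix.mul_nonsing_inv _ (cH_det hΩ hp hs hv)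

theorem ph_sm (u : E) : Sm ∞ (fun v => ph H u v) Ω :=
  sm_smul _ (Sm.mul (sm_inv hΩ hp hs) (sm_dz hΩ (sm_cH hs) u))

theorem phb_sm (u : E) : Sm ∞ (fun v => phb H u v) Ω :=
  sm_smul _ (Sm.mul (sm_inv hΩ hp hs) (sm_dzb hΩ (sm_cH hs) u))

theorem dzb_ph {v : E} (hv : v ∈ Ω) (u w : E) : dzb (fun v' => ph H u v') w v =
    (1 / 2 : ℂ) • ((cH H v)⁻¹ * dzb (fun v' => dz (cH H) u v') w v) -
      (2 : ℂ) • (phb H w v * ph H u v) := by
  have hi := Sm.df hΩ (sm_inv hΩ hp hs) hv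
  have hd := Sm.df hΩ (sm_dz hΩ (sm_cH hs) u) hv
  have hm := Sm.df hΩ (Sm.mul (sm_inv hΩ hp hs) (sm_dz hΩ (sm_cH hs) u)) hv
  simp only [ph, phb]
  rw [dzb_smul _ hm, dzb_mul hi hd, dzb_inv (Sm.df hΩ (sm_cH hs) hv) (cH_det hΩ hp hs hv)]
  simp only [smul_mul_assoc, mul_smul_comm, neg_mul, Matrix.mul_assoc]
  module

theorem dzb_phb {v : E} (hv : v ∈ Ω) (u w : E) : dzb (fun v' => phb H u v') w v =
    (1 / 2 : ℂ) • ((cH H v)⁻¹ * dzb (fun v' => dzb (cH H) u v') w v) -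
      (2 : ℂ) • (phb H w v * phb H u v) := by
  have hi := Sm.df hΩ (sm_inv hΩ hp hs) hv
  have hd := Sm.df hΩ (sm_dzb hΩ (sm_cH hs) u) hv
  have hm := Sm.df hΩ (Sm.mul (sm_inv hΩ hp hs) (sm_dzb hΩ (sm_cH hs) u)) hv
  simp only [phb]
  rw [dzb_smul _ hm, dzb_mul hi hd, dzb_inv (Sm.df hΩ (sm_cH hs) hv) (cH_det hΩ hp hs hv)]
  simp only [smul_mul_assoc, mul_smul_comm, neg_mul, Matrix.mul_assoc]
  module

end H

end CurvAux

open CurvAux

section pt

variable {E : Type} [NormedAddCommGroup E] [NormedSpace ℂ E] {H : E → Matrix n n ℝ} {Ω : Set E}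
  (hΩ : IsOpen Ω) (hp : ∀ v ∈ Ω, (H v).PosDef) (hs : Sm ∞ H Ω)

include hΩ hp hs

/-- module CURV: `ph` is smooth -/
theorem ph_smooth (u : E) : Sm ∞ (fun v => ph H u v) Ω ∧ Sm ∞ (fun v => phb H u v) Ω ∧
    ∀ w, Sm ∞ (fun v => tt H u w v) Ω := by
  refine ⟨ph_sm hΩ hp hs u, phb_sm hΩ hp hs u, fun w => ?_⟩
  exact sm_add (sm_dzb hΩ (ph_sm hΩ hp hs u) w)
    (sm_sub (Sm.mul (phb_sm hΩ hp hs w) (ph_sm hΩ hp hs u))
      (Sm.mul (ph_sm hΩ hp hs u) (phb_sm hΩ hp hs w)))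

/-- module CURV: adjoints -/
theorem ph_adj {v : E} (hv : v ∈ Ω) (u : E) :
    (cH H v)⁻¹ * (ph H u v)ᴴ * cH H v = phb H u v := by
  have h1 := inv_mul' hΩ hp hs hv
  simp only [ph, phb, Matrix.conjTranspose_smul, Matrix.conjTranspose_mul,
    inv_star hΩ hp hs hv, dz_cH_star hΩ hp hs hv]
  rw [mul_smul_comm, smul_mul_assoc, Matrix.mul_assoc, Matrix.mul_assoc, h1, Matrix.mul_one]
  simp

/-- module CURV: explicit formula -/
theorem tt_eq {v : E} (hv : v ∈ Ω) (u w : E) :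
    tt H u w v = (1 / 2 : ℂ) • ((cH H v)⁻¹ * dzb (fun v' => dz (cH H) u v') w v) -
      phb H w v * ph H u v - ph H u v * phb H w v := by
  rw [tt, dzb_ph hΩ hp hs hv, cm]
  module

/-- module CURV: the adjoint of `t(u,w)` is `t(w,u)` -/
theorem tt_adj {v : E} (hv : v ∈ Ω) (u w : E) :
    (cH H v)⁻¹ * (tt H u w v)ᴴ * cH H v = tt H w u v := by
  have h1 := inv_mul' hΩ hp hs hv
  have h2 := mul_inv' hΩ hp hs hv
  have key : ∀ X Y : Matrix n n ℂ, (cH H v)⁻¹ * (X * Y) * cH H v =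
      ((cH H v)⁻¹ * X * cH H v) * ((cH H v)⁻¹ * Y * cH H v) := by
    intro X Y
    calc (cH H v)⁻¹ * (X * Y) * cH H v = (cH H v)⁻¹ * X * 1 * Y * cH H v := by
          simp only [Matrix.mul_one, Matrix.mul_assoc]
      _ = _ := by rw [← h2]; simp only [Matrix.mul_assoc]
  have a1 := ph_adj hΩ hp hs hv u
  have a2 : (cH H v)⁻¹ * (phb H w v)ᴴ * cH H v = ph H w v := by
    simp only [ph, phb, Matrix.conjTranspose_smul, Matrix.conjTranspose_mul,
      inv_star hΩ hp hs hv, dzb_cH_star hΩ hp hs hv]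
    rw [mul_smul_comm, smul_mul_assoc, Matrix.mul_assoc, Matrix.mul_assoc, h1, Matrix.mul_one]
    simp
  rw [tt_eq hΩ hp hs hv, tt_eq hΩ hp hs hv]
  simp only [Matrix.conjTranspose_sub, Matrix.conjTranspose_smul, Matrix.conjTranspose_mul,
    inv_star hΩ hp hs hv, dd_star hΩ hp hs hv, Matrix.mul_sub, Matrix.sub_mul]
  rw [key, key, a1, a2, mul_smul_comm, smul_mul_assoc, Matrix.mul_assoc, Matrix.mul_assoc, h1,
    Matrix.mul_one]
  simp only [star_div₀, star_one, star_ofNat]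
  try abel

/-- module CURV: curvature -/
theorem nb_comm {A : E → Matrix n n ℂ} (hA : Sm ∞ A Ω) {v : E} (hv : v ∈ Ω) (u w : E) :
    nb H w (fun v' => nb H u A v') v - nb H u (fun v' => nb H w A v') v =
      - cm (cm (phb H w v) (phb H u v)) (A v) := by
  have e : ∀ u w : E, dzb (fun v' => nb H u A v') w v = dzb (fun v' => dzb A u v') w v +
      (dzb (fun v' => phb H u v') w v * A v + phb H u v * dzb A w v -
        (dzb A w v * phb H u v + A v * dzb (fun v' => phb H u v') w v)) := by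
    intro u w
    have d1 := Sm.df hΩ (sm_dzb hΩ hA u) hv
    have d2 := Sm.df hΩ hA hv
    have d3 := Sm.df hΩ (phb_sm hΩ hp hs u) hv
    have d4 := Sm.df hΩ (Sm.mul (phb_sm hΩ hp hs u) hA) hv
    have d5 := Sm.df hΩ (Sm.mul hA (phb_sm hΩ hp hs u)) hv
    simp only [nb, cm]
    rw [dzb_add d1 (d4.sub d5), dzb_sub d4 d5, dzb_mul d3 d2, dzb_mul d2 d3]
  show dzb (fun v' => nb H u A v') w v + cm (phb H w v) (nb H u A v) -
    (dzb (fun v' => nb H w A v') u v + cm (phb H u v) (nb H w A v)) = _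
  rw [e, e, dzb_phb hΩ hp hs hv, dzb_phb hΩ hp hs hv, dzb_dzb hΩ hA hv u w,
    dzb_dzb hΩ (sm_cH hs) hv u w]
  simp only [nb, cm, Matrix.mul_add, Matrix.mul_sub, Matrix.add_mul, Matrix.sub_mul,
    smul_mul_assoc, mul_smul_comm, Matrix.mul_assoc]
  module

/-- module CURV: Leibniz rule for the trace -/
theorem nb_trace {A B : E → Matrix n n ℂ} (hA : Sm ∞ A Ω) (hB : Sm ∞ B Ω) {v : E} (hv : v ∈ Ω)
    (w : E) : (1 / 2 : ℂ) * (fderiv ℝ (fun v' => (A v' * B v').trace) v w +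
        Complex.I * fderiv ℝ (fun v' => (A v' * B v').trace) v (Complex.I • w)) =
      (nb H w A v * B v).trace + (A v * nb H w B v).trace := by
  have d := Sm.df hΩ (Sm.mul hA hB) hv
  have t : ∀ u : E, fderiv ℝ (fun v' => (A v' * B v').trace) v u =
      (DM (fun v' => A v' * B v') v u).trace := by
    intro u
    have : (fun v' => (A v' * B v').trace) = fun v' => ∑ i, (A v' * B v') i i := rfl
    rw [this, fderiv_fun_sum (fun i _ => d i i), ContinuousLinearMap.sum_apply]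
    rfl
  rw [t, t]
  have h1 : (1 / 2 : ℂ) * ((DM (fun v' => A v' * B v') v w).trace +
      Complex.I * (DM (fun v' => A v' * B v') v (Complex.I • w)).trace) =
      (dzb (fun v' => A v' * B v') w v).trace := by
    rw [dzb, Matrix.trace_smul, Matrix.trace_add, Matrix.trace_smul]; rfl
  rw [h1, dzb_mul (Sm.df hΩ hA hv) (Sm.df hΩ hB hv)]
  simp only [nb, cm, Matrix.mul_add, Matrix.mul_sub, Matrix.add_mul, Matrix.sub_mul,
    Matrix.trace_add, Matrix.trace_sub]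
  have c1 : (phb H w v * A v * B v).trace = (A v * B v * phb H w v).trace := by
    rw [Matrix.mul_assoc, Matrix.trace_mul_comm]
  rw [c1]
  simp only [Matrix.mul_assoc]
  ring

end pt

end Pool.Agent.MPd01a95
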