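import Mathlib
import Pool.Agent.Lib.MP_d01a95_gt_H.HDefs
import Pool.Agent.Lib.MP_d01a95_gt_H.Unimod
import Pool.Agent.Lib.MP_d01a95_gt_H.Mcalc
import Pool.Agent.Lib.MP_d01a95_gt_H.Curv
import Pool.Agent.Lib.MP_d01a95_gt_H.Cone

/-! Module MOL4 of project HARMONIC (helper74): the tension field in complex terms. -/

set_option autoImplicit false
set_option linter.all false

open Matrix Filter Topology MeasureTheory Measure
open scoped ENNReal NNReal ContDiff

namespace Pool.Agent.MPd01a95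

open GU

variable {κ n ι α : Type} [Fintype κ] [DecidableEq κ] [Fintype n] [DecidableEq n]
  [Fintype ι] [DecidableEq ι] [Fintype α] [DecidableEq α] {G : Type} [Group G]

namespace Mol4Aux

open CurvAux

section

variable {E : Type} [NormedAddCommGroup E] [NormedSpace ℂ E] {H : E → Matrix n n ℝ} {Ω : Set E}
  (hΩ : IsOpen Ω) (hp : ∀ v ∈ Ω, (H v).PosDef) (hs : Sm ∞ H Ω)

/-- Complexification commutes with differentiation. -/
theorem DM_cast {f : E → Matrix n n ℝ} {v : E}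
    (hf : ∀ i j, DifferentiableAt ℝ (fun w => f w i j) v) (u : E) :
    DM (fun w => (f w).map ((↑) : ℝ → ℂ)) v u = (DM f v u).map ((↑) : ℝ → ℂ) := by
  ext i j
  show fderiv ℝ (fun w => ((f w i j : ℝ) : ℂ)) v u = ((fderiv ℝ (fun w => f w i j) v u : ℝ) : ℂ)
  have h1 : HasFDerivAt (fun w => ((f w i j : ℝ) : ℂ))
      (Complex.ofRealCLM.comp (fderiv ℝ (fun w => f w i j) v)) v :=
    Complex.ofRealCLM.hasFDerivAt.comp v (hf i j).hasFDerivAt
  rw [h1.fderiv]
  rfl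

include hΩ hs in
theorem diff_of_sm {v : E} (hv : v ∈ Ω) (i j : n) : DifferentiableAt ℝ (fun w => H w i j) v :=
  ((hs i j).contDiffAt (hΩ.mem_nhds hv)).differentiableAt (by simp)

include hΩ hs in
theorem diff_DM {v : E} (hv : v ∈ Ω) (u : E) (i j : n) :
    DifferentiableAt ℝ (fun w => DM H w u i j) v := by
  have h1 : ContDiffOn ℝ ∞ (fderiv ℝ (fun w => H w i j)) Ω :=
    (hs i j).fderiv_of_isOpen hΩ (by simp)
  have h2 : ContDiffOn ℝ ∞ (fun w => fderiv ℝ (fun w => H w i j) w u) Ω :=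
    h1.clm_apply contDiffOn_const
  exact (h2.contDiffAt (hΩ.mem_nhds hv)).differentiableAt (by simp)

include hΩ hs in
/-- second derivatives of the complexification -/
theorem DM2_cast {v : E} (hv : v ∈ Ω) (u w : E) :
    DM (fun v' => DM (cH H) v' u) v w =
      (DM (fun v' => DM H v' u) v w).map ((↑) : ℝ → ℂ) := by
  rw [← DM_cast (diff_DM hΩ hs hv u) w]
  exact DM_congr hΩ hv (fun v' hv' => DM_cast (diff_of_sm hΩ hs hv') u) w

include hΩ hp hs in
/-- The diagonal components of the complex Hessian. -/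
theorem tt_diag {v : E} (hv : v ∈ Ω) (u : E) :
    tt H u u v = (1 / 8 : ℂ) • ((cH H v)⁻¹ *
      ((DM (fun v' => DM H v' u) v u + DM (fun v' => DM H v' (Complex.I • u)) v (Complex.I • u)) -
        (DM H v u * (H v)⁻¹ * DM H v u +
          DM H v (Complex.I • u) * (H v)⁻¹ * DM H v (Complex.I • u))).map ((↑) : ℝ → ℂ)) := by
  have hI : Complex.I * Complex.I = -1 := Complex.I_mul_I
  have hinv : ((H v)⁻¹).map ((↑) : ℝ → ℂ) = (cH H v)⁻¹ := by
    have h1 : ((H v)⁻¹).map ((↑) : ℝ → ℂ) * cH H v = 1 := by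
      have h2 : (((H v)⁻¹) * (H v)).map ((↑) : ℝ → ℂ) =
          ((H v)⁻¹).map ((↑) : ℝ → ℂ) * (H v).map ((↑) : ℝ → ℂ) :=
        Matrix.map_mul (f := Complex.ofRealHom)
      rw [cH, ← h2, Matrix.nonsing_inv_mul _ (isUnit_iff_ne_zero.2 (hp v hv).det_pos.ne')]
      exact Matrix.map_one _ (by simp) (by simp)
    exact (Matrix.inv_eq_left_inv h1).symm
  have hmul : ∀ A B : Matrix n n ℝ, (A * B).map ((↑) : ℝ → ℂ) =
      A.map ((↑) : ℝ → ℂ) * B.map ((↑) : ℝ → ℂ) := fun A B =>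
    Matrix.map_mul (f := Complex.ofRealHom)
  have hadd : ∀ A B : Matrix n n ℝ, (A + B).map ((↑) : ℝ → ℂ) =
      A.map ((↑) : ℝ → ℂ) + B.map ((↑) : ℝ → ℂ) := fun A B => by
    ext i j; simp
  have hsub : ∀ A B : Matrix n n ℝ, (A - B).map ((↑) : ℝ → ℂ) =
      A.map ((↑) : ℝ → ℂ) - B.map ((↑) : ℝ → ℂ) := fun A B => by
    ext i j; simp
  have hX := DM_cast (diff_of_sm hΩ hs hv) u
  have hY := DM_cast (diff_of_sm hΩ hs hv) (Complex.I • u)
  rw [hsub, hadd, hadd, hmul, hmul, hmul, hmul, ← DM2_cast hΩ hs hv, ← DM2_cast hΩ hs hv,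
    ← hX, ← hY, hinv]
  change _ = (1 / 8 : ℂ) • ((cH H v)⁻¹ *
      ((DM (fun v' => DM (cH H) v' u) v u +
        DM (fun v' => DM (cH H) v' (Complex.I • u)) v (Complex.I • u)) -
        (DM (cH H) v u * (cH H v)⁻¹ * DM (cH H) v u +
          DM (cH H) v (Complex.I • u) * (cH H v)⁻¹ * DM (cH H) v (Complex.I • u))))
  have hcs := sm_cH hs
  rw [tt_eq hΩ hp hs hv, dzb, DM_dz hΩ hcs hv, DM_dz hΩ hcs hv, ph, phb, dz, dzb,
    dm_comm hΩ hcs hv (Complex.I • u) u]
  generalize DM (fun v' => DM (cH H) v' u) v u = A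
  generalize DM (fun v' => DM (cH H) v' (Complex.I • u)) v (Complex.I • u) = B
  generalize DM (fun v' => DM (cH H) v' u) v (Complex.I • u) = C
  generalize DM (cH H) v u = X
  generalize DM (cH H) v (Complex.I • u) = Y
  generalize (cH H v)⁻¹ = P
  simp only [smul_mul_assoc, mul_smul_comm, mul_add, mul_sub, add_mul, sub_mul, smul_add,
    smul_sub, smul_smul, Matrix.mul_assoc]
  have e1 : Complex.I ^ 2 = -1 := Complex.I_sq
  match_scalars <;> (ring_nf; try rw [e1]; try ring)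

end

end Mol4Aux

open Mol4Aux in
/-- module MOL4: the tension field in complex notation -/
theorem tens_formula {σ : G →* GU κ} {ρ : G →* Matrix n n ℝ}
    {H : (κ ⊕ Unit → ℂ) → Matrix n n ℝ} (hH : EqC σ ρ H) (hs : Sm ∞ H (Cn κ)) (g : GU κ) :
    ∑ a, tt H (g.M *ᵥ ej a) (g.M *ᵥ ej a) g.pt = (1 / 8 : ℂ) • ((cH H g.pt)⁻¹ *
      ((∑ p, DM (fun v => DM H v (g.dir p)) g.pt (g.dir p)) - QH H g).map ((↑) : ℝ → ℂ)) := by
  have hsum : ∀ f : κ → Matrix n n ℝ, (∑ a, f a).map ((↑) : ℝ → ℂ) =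
      ∑ a, (f a).map ((↑) : ℝ → ℂ) := by
    intro f
    exact map_sum (Complex.ofRealHom.mapMatrix : Matrix n n ℝ →+* Matrix n n ℂ) f Finset.univ
  have ht : ∀ a, g.dir (a, true) = g.M *ᵥ ej a := by
    intro a
    simp [GU.dir, wb]
  have hf : ∀ a, g.dir (a, false) = Complex.I • (g.M *ᵥ ej a) := by
    intro a
    simp [GU.dir, wb, Matrix.mulVec_smul]
  have e1 : (∑ p, DM (fun v => DM H v (g.dir p)) g.pt (g.dir p)) - QH H g =
      ∑ a, ((DM (fun v' => DM H v' (g.M *ᵥ ej a)) g.pt (g.M *ᵥ ej a) +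
        DM (fun v' => DM H v' (Complex.I • (g.M *ᵥ ej a))) g.pt (Complex.I • (g.M *ᵥ ej a))) -
        (DM H g.pt (g.M *ᵥ ej a) * (H g.pt)⁻¹ * DM H g.pt (g.M *ᵥ ej a) +
          DM H g.pt (Complex.I • (g.M *ᵥ ej a)) * (H g.pt)⁻¹ *
            DM H g.pt (Complex.I • (g.M *ᵥ ej a)))) := by
    rw [QH, Fintype.sum_prod_type, Fintype.sum_prod_type, ← Finset.sum_sub_distrib]
    refine Finset.sum_congr rfl fun a _ => ?_
    rw [Fintype.sum_bool, Fintype.sum_bool]
    simp only [XH, ht, hf]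
  rw [e1, hsum, Finset.mul_sum, Finset.smul_sum]
  exact Finset.sum_congr rfl fun a _ => tt_diag isOpen_Cn hH.pos hs (pt_mem g).1 _

end Pool.Agent.MPd01a95
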