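import Mathlib
import Pool.Agent.Lib.MP_d01a95_gt_H.HDefs
import Pool.Agent.Lib.MP_d01a95_gt_H.Unimod
import Pool.Agent.Lib.MP_d01a95_gt_H.LocLip

set_option autoImplicit false
set_option linter.all false

open Matrix Filter Topology MeasureTheory Measure
open scoped ENNReal NNReal ContDiff

namespace Pool.Agent.MPd01a95

open GU

variable {κ n ι α : Type} [Fintype κ] [DecidableEq κ] [Fintype n] [DecidableEq n] [Fintype ι]
  [DecidableEq ι] [Fintype α] [DecidableEq α] {G : Type} [Group G]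

namespace Mol5Aux

open LocLip

theorem XH_def (H : (κ ⊕ Unit → ℂ) → Matrix n n ℝ) (p : κ × Bool) (g : GU κ) (i j : n) :
    Pool.Agent.MPd01a95.XH H p g i j = fderiv ℝ (fun w => H w i j) g.pt (g.dir p) := rfl

theorem lat {σ : G →* GU κ} {ρ : G →* Matrix n n ℝ} {H : (κ ⊕ Unit → ℂ) → Matrix n n ℝ}
    (hH : EqC σ ρ H) (i j : n) : ∀ v ∈ Cn κ, LAt (fun w => H w i j) v := by
  intro v hv
  obtain ⟨L, U, hU, hL⟩ := hH.lip v hv
  exact ⟨L, U, hU, hL i j⟩

theorem cont_entry {f : (κ ⊕ Unit → ℂ) → ℝ} (h : ∀ v ∈ Cn κ, LAt f v) :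
    Continuous fun g : GU κ => f g.pt := by
  rw [continuous_iff_continuousAt]
  intro g
  exact ContinuousAt.comp (f := GU.pt) (g := f) (h _ (pt_Cn g)).continuousAt
    continuous_pt.continuousAt

theorem cont_H {σ : G →* GU κ} {ρ : G →* Matrix n n ℝ} {H : (κ ⊕ Unit → ℂ) → Matrix n n ℝ}
    (hH : EqC σ ρ H) : Continuous fun g : GU κ => H g.pt := by
  refine continuous_pi fun i => continuous_pi fun j => cont_entry (lat hH i j)

theorem cont_inv {σ : G →* GU κ} {ρ : G →* Matrix n n ℝ} {H : (κ ⊕ Unit → ℂ) → Matrix n n ℝ}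
    (hH : EqC σ ρ H) : Continuous fun g : GU κ => (H g.pt)⁻¹ := by
  have h1 := cont_H hH
  have h2 : ∀ g : GU κ, (H g.pt)⁻¹ = ((H g.pt).det)⁻¹ • (H g.pt).adjugate := by
    intro g
    rw [Matrix.inv_def, Ring.inverse_eq_inv']
  simp only [h2]
  refine Continuous.smul (Continuous.inv₀ h1.matrix_det fun g => ?_) h1.matrix_adjugate
  exact (hH.pos _ (pt_Cn g)).det_pos.ne'

/-- derivatives of homogeneous functions -/
theorem fderiv_smul {f : (κ ⊕ Unit → ℂ) → ℝ}
    (hh : ∀ v ∈ Cn κ, ∀ l : ℂ, l ≠ 0 → f (l • v) = f v)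
    {v : κ ⊕ Unit → ℂ} (hv : v ∈ Cn κ) {l : ℂ} (hl : l ≠ 0) (u : κ ⊕ Unit → ℂ) :
    fderiv ℝ f (l • v) (l • u) = fderiv ℝ f v u := by
  set T : (κ ⊕ Unit → ℂ) ≃L[ℝ] (κ ⊕ Unit → ℂ) :=
    ContinuousLinearEquiv.smulLeft (Units.mk0 l hl) with hT
  have hTa : ∀ w, T w = l • w := fun w => rfl
  have h1 : (f ∘ T) =ᶠ[𝓝 v] f := by
    filter_upwards [open_Cn.mem_nhds hv] with w hw
    change f (T w) = f w
    rw [hTa, hh w hw l hl]
  have h2 := T.comp_right_fderiv (f := f) (x := v)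
  rw [h1.fderiv_eq] at h2
  rw [h2]
  simp [hTa]

theorem DM_smul {σ : G →* GU κ} {ρ : G →* Matrix n n ℝ} {H : (κ ⊕ Unit → ℂ) → Matrix n n ℝ}
    (hH : EqC σ ρ H) {v : κ ⊕ Unit → ℂ} (hv : v ∈ Cn κ) {l : ℂ} (hl : l ≠ 0)
    (u : κ ⊕ Unit → ℂ) : DM H (l • v) (l • u) = DM H v u := by
  ext i j
  exact fderiv_smul (f := fun w => H w i j) (fun v hv l hl => by
    change H (l • v) i j = H v i j
    rw [hH.hom v hv l hl]) hv hl u

theorem DM_add (H : (κ ⊕ Unit → ℂ) → Matrix n n ℝ) (v u u' : κ ⊕ Unit → ℂ) :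
    DM H v (u + u') = DM H v u + DM H v u' := by
  ext i j; simp [DM]

theorem DM_rsmul (H : (κ ⊕ Unit → ℂ) → Matrix n n ℝ) (v u : κ ⊕ Unit → ℂ) (r : ℝ) :
    DM H v (r • u) = r • DM H v u := by
  ext i j; simp [DM]

theorem DM_sum {β : Type} (s : Finset β) (H : (κ ⊕ Unit → ℂ) → Matrix n n ℝ)
    (v : κ ⊕ Unit → ℂ) (u : β → κ ⊕ Unit → ℂ) :
    DM H v (∑ b ∈ s, u b) = ∑ b ∈ s, DM H v (u b) := by
  ext i j
  rw [Matrix.sum_apply]
  simp [DM]

/-- the real orthogonal matrix attached to a unitary one -/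
noncomputable def RR (a : κ → κ → ℂ) (q p : κ × Bool) : ℝ :=
  if p.2 then (wb q.2 * a p.1 q.1).re else (wb q.2 * a p.1 q.1).im

theorem RR_orth {a : κ → κ → ℂ}
    (ha : ∀ i i', ∑ j, a i j * star (a i' j) = if i = i' then 1 else 0) (p p' : κ × Bool) :
    ∑ q, RR a q p * RR a q p' = if p = p' then 1 else 0 := by
  obtain ⟨i, s⟩ := p
  obtain ⟨i', s'⟩ := p'
  have h0 := ha i i'
  have hre := congrArg Complex.re h0
  have him := congrArg Complex.im h0
  rw [Complex.re_sum] at hre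
  rw [Complex.im_sum] at him
  rw [Fintype.sum_prod_type]
  simp only [Fintype.sum_bool, RR, wb]
  have e1 : ∀ j, (a i j * star (a i' j)).re = (a i j).re * (a i' j).re + (a i j).im * (a i' j).im := by
    intro j; simp [Complex.mul_re]
  have e2 : ∀ j, (a i j * star (a i' j)).im = (a i j).im * (a i' j).re - (a i j).re * (a i' j).im := by
    intro j; simp [Complex.mul_im]; ring
  simp only [e1] at hre
  simp only [e2] at him
  cases s <;> cases s'
  · simp
    have : (∑ x, ((a i x).im * (a i' x).im + (a i x).re * (a i' x).re)) =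
        ∑ x, ((a i x).re * (a i' x).re + (a i x).im * (a i' x).im) :=
      Finset.sum_congr rfl fun _ _ => by ring
    rw [this, hre]
    split_ifs <;> simp
  · simp
    have : (∑ x, ((a i x).im * (a i' x).re + -((a i x).re * (a i' x).im))) =
        ∑ x, ((a i x).im * (a i' x).re - (a i x).re * (a i' x).im) :=
      Finset.sum_congr rfl fun _ _ => by ring
    rw [this, him]
    split_ifs <;> simp
  · simp
    have : (∑ x, ((a i x).re * (a i' x).im + -((a i x).im * (a i' x).re))) =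
        - ∑ x, ((a i x).im * (a i' x).re - (a i x).re * (a i' x).im) := by
      rw [← Finset.sum_neg_distrib]
      exact Finset.sum_congr rfl fun _ _ => by ring
    rw [this, him]
    split_ifs <;> simp
  · simp
    rw [hre]
    split_ifs <;> simp

theorem unit_rows (k : GU κ) (hk : k ∈ KU κ) (i i' : κ) :
    ∑ j, k.M (Sum.inl i) (Sum.inl j) * star (k.M (Sum.inl i') (Sum.inl j)) =
      if i = i' then 1 else 0 := by
  have h1 := congrFun (congrFun (mul_inv_M k) (Sum.inl i)) (Sum.inl i')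
  rw [M_inv, Matrix.mul_apply, Fintype.sum_sum_type] at h1
  have e1 : ∀ j, (JC κ * k.Mᴴ * JC κ) (Sum.inl j) (Sum.inl i') = star (k.M (Sum.inl i') (Sum.inl j)) := by
    intro j
    rw [Matrix.mul_apply, Fintype.sum_sum_type]
    simp [JC, Matrix.mul_apply, Matrix.fromBlocks, Matrix.one_apply, Matrix.conjTranspose_apply]
  simp only [e1, Finset.univ_unique, Finset.sum_singleton] at h1
  have e2 : k.M (Sum.inl i) (Sum.inr default) = 0 := hk.1 i
  rw [e2, zero_mul, add_zero] at h1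
  rw [h1, Matrix.one_apply]
  simp

theorem K_pt (g k : GU κ) (hk : k ∈ KU κ) :
    (g * k).pt = k.M (Sum.inr ()) (Sum.inr ()) • g.pt := by
  rw [pt_mul]
  have : k.pt = k.M (Sum.inr ()) (Sum.inr ()) • e0 := by
    rw [GU.pt]
    ext s
    rw [e0, Matrix.mulVec_single_one]
    cases s with
    | inl i => simp [Matrix.col_apply, hk.1 i]
    | inr i => simp [Matrix.col_apply]
  rw [this, Matrix.mulVec_smul, GU.pt]

theorem K_dir (g k : GU κ) (hk : k ∈ KU κ) (q : κ × Bool) (l : ℂ) :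
    l⁻¹ • (g * k).dir q =
      ∑ p, RR (fun i j => l⁻¹ * k.M (Sum.inl i) (Sum.inl j)) q p • g.dir p := by
  have h1 : k.M *ᵥ (wb q.2 • ej q.1) =
      ∑ i, (wb q.2 * k.M (Sum.inl i) (Sum.inl q.1)) • (ej i : κ ⊕ Unit → ℂ) := by
    rw [Matrix.mulVec_smul, ej, Matrix.mulVec_single_one]
    ext s
    rw [Finset.sum_apply]
    cases s with
    | inl i =>
      simp only [Pi.smul_apply, smul_eq_mul, Matrix.col_apply, ej]
      rw [Finset.sum_eq_single i]
      · simp
      · intro b _ hb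
        rw [Pi.single_eq_of_ne (by simpa using hb.symm)]; simp
      · intro h; exact absurd (Finset.mem_univ i) h
    | inr i =>
      simp [Matrix.col_apply, hk.2, ej]
  have h2 : l⁻¹ • (g * k).dir q = ∑ i, g.M *ᵥ
      ((wb q.2 * (l⁻¹ * k.M (Sum.inl i) (Sum.inl q.1))) • (ej i : κ ⊕ Unit → ℂ)) := by
    rw [dir_mul, GU.dir, h1, ← Matrix.mulVec_smul, Finset.smul_sum, Matrix.mulVec_sum]
    refine Finset.sum_congr rfl fun i _ => ?_
    rw [smul_smul]
    congr 2
    ring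
  rw [h2, Fintype.sum_prod_type]
  refine Finset.sum_congr rfl fun i _ => ?_
  rw [Fintype.sum_bool]
  simp only [RR, GU.dir, wb]
  set z : ℂ := (if q.2 = true then (1 : ℂ) else Complex.I) *
    (l⁻¹ * k.M (Sum.inl i) (Sum.inl q.1)) with hz
  simp only [if_true, Bool.false_eq_true, if_false]
  rw [← Matrix.mulVec_smul, ← Matrix.mulVec_smul, ← Matrix.mulVec_add]
  congr 1
  ext s
  simp only [Pi.smul_apply, Pi.add_apply, smul_eq_mul, Complex.real_smul]
  conv_lhs => rw [← Complex.re_add_im z]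
  ring

theorem QH_K {σ : G →* GU κ} {ρ : G →* Matrix n n ℝ} {H : (κ ⊕ Unit → ℂ) → Matrix n n ℝ}
    (hH : EqC σ ρ H) (g k : GU κ) (hk : k ∈ KU κ) : QH H (g * k) = QH H g := by
  classical
  set l : ℂ := k.M (Sum.inr ()) (Sum.inr ()) with hl
  have hl1 : ‖l‖ = 1 := KU_c k hk
  have hl0 : l ≠ 0 := by
    intro h
    rw [h, norm_zero] at hl1
    exact zero_ne_one hl1
  set a : κ → κ → ℂ := fun i j => l⁻¹ * k.M (Sum.inl i) (Sum.inl j) with ha
  have hll : l⁻¹ * star l⁻¹ = 1 := by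
    have h1 : l⁻¹ * star l⁻¹ = ((‖l⁻¹‖ ^ 2 : ℝ) : ℂ) := by
      simpa using Complex.mul_conj' l⁻¹
    rw [h1, norm_inv, hl1]; norm_num
  have haa : ∀ i i', ∑ j, a i j * star (a i' j) = if i = i' then 1 else 0 := by
    intro i i'
    have h1 := unit_rows k hk i i'
    rw [← h1]
    refine Finset.sum_congr rfl fun j _ => ?_
    simp only [ha, star_mul']
    calc l⁻¹ * k.M (Sum.inl i) (Sum.inl j) * (star l⁻¹ * star (k.M (Sum.inl i') (Sum.inl j)))
        = (l⁻¹ * star l⁻¹) * (k.M (Sum.inl i) (Sum.inl j) * star (k.M (Sum.inl i') (Sum.inl j))) := by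
          ring
      _ = _ := by rw [hll, one_mul]
  have hpt : (g * k).pt = l • g.pt := K_pt g k hk
  have hHpt : H (g * k).pt = H g.pt := by rw [hpt, hH.hom _ (pt_Cn g) l hl0]
  have hX : ∀ q, Pool.Agent.MPd01a95.XH H q (g * k) =
      ∑ p, RR a q p • Pool.Agent.MPd01a95.XH H p g := by
    intro q
    have e1 : (g * k).dir q = l • (l⁻¹ • (g * k).dir q) := by
      rw [smul_smul, mul_inv_cancel₀ hl0, one_smul]
    unfold Pool.Agent.MPd01a95.XH
    rw [hpt, e1, DM_smul hH (pt_Cn g) hl0, K_dir g k hk q l, DM_sum]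
    refine Finset.sum_congr rfl fun p _ => ?_
    rw [DM_rsmul]
  unfold QH
  rw [hHpt]
  simp only [hX]
  have e2 : ∀ q : κ × Bool, (∑ p, RR a q p • Pool.Agent.MPd01a95.XH H p g) * (H g.pt)⁻¹ *
      (∑ p, RR a q p • Pool.Agent.MPd01a95.XH H p g) =
      ∑ p, ∑ p', (RR a q p * RR a q p') • (Pool.Agent.MPd01a95.XH H p g * (H g.pt)⁻¹ *
        Pool.Agent.MPd01a95.XH H p' g) := by
    intro q
    rw [Finset.sum_mul, Finset.sum_mul]
    refine Finset.sum_congr rfl fun p _ => ?_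
    rw [Finset.mul_sum]
    refine Finset.sum_congr rfl fun p' _ => ?_
    rw [Matrix.smul_mul, Matrix.smul_mul, Matrix.mul_smul, smul_smul]
  simp only [e2]
  rw [Finset.sum_comm]
  refine Finset.sum_congr rfl fun p _ => ?_
  rw [Finset.sum_comm]
  have e3 : ∀ p', ∑ q, (RR a q p * RR a q p') • (Pool.Agent.MPd01a95.XH H p g * (H g.pt)⁻¹ *
        Pool.Agent.MPd01a95.XH H p' g) = if p = p' then (Pool.Agent.MPd01a95.XH H p g * (H g.pt)⁻¹ *
        Pool.Agent.MPd01a95.XH H p' g) else 0 := by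
    intro p'
    rw [← Finset.sum_smul, RR_orth haa]
    split_ifs <;> simp
  simp only [e3]
  simp

end Mol5Aux

open Mol5Aux LocLip in
/-- module MOL5: derivatives of `H` are bounded and measurable -/
theorem XH_bdd {σ : G →* GU κ} {ρ : G →* Matrix n n ℝ}
    {H : (κ ⊕ Unit → ℂ) → Matrix n n ℝ} (hH : EqC σ ρ H) :
    (∀ p i j, Measurable fun g => XH H p g i j) ∧
    (∀ C ⊆ Cn κ, IsCompact C → ∃ L : ℝ, ∀ v ∈ C, ∀ u, ∀ i j, |DM H v u i j| ≤ L * ‖u‖) ∧
    (∀ i j, Measurable fun g => QH H g i j) ∧ (∀ g, ∀ k ∈ KU κ, QH H (g * k) = QH H g) := by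
  have h1 : ∀ p i j, Measurable fun g => Pool.Agent.MPd01a95.XH H p g i j :=
    fun p i j => meas_fderiv _ p
  refine ⟨h1, ?_, ?_, fun g k hk => QH_K hH g k hk⟩
  · intro C hC hCc
    have h2 : ∀ i j, ∃ L : ℝ, 0 ≤ L ∧ ∀ v ∈ C, ‖fderiv ℝ (fun w => H w i j) v‖ ≤ L :=
      fun i j => fderiv_bdd hCc fun v hv => lat hH i j v (hC hv)
    choose L hL0 hL using h2
    refine ⟨∑ i, ∑ j, L i j, fun v hv u i j => ?_⟩
    have h3 : L i j ≤ ∑ i, ∑ j, L i j :=
      (Finset.single_le_sum (f := fun j => L i j) (fun j _ => hL0 i j) (Finset.mem_univ j)).trans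
        (Finset.single_le_sum (f := fun i => ∑ j, L i j)
          (fun i _ => Finset.sum_nonneg fun j _ => hL0 i j) (Finset.mem_univ i))
    calc |DM H v u i j| = ‖fderiv ℝ (fun w => H w i j) v u‖ := rfl
      _ ≤ ‖fderiv ℝ (fun w => H w i j) v‖ * ‖u‖ := ContinuousLinearMap.le_opNorm _ _
      _ ≤ (∑ i, ∑ j, L i j) * ‖u‖ :=
        mul_le_mul_of_nonneg_right ((hL i j v hv).trans h3) (norm_nonneg _)
  · intro i j
    have h2 : ∀ i j, Measurable fun g : GU κ => (H g.pt)⁻¹ i j := fun i j =>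
      ((continuous_apply j).comp ((continuous_apply i).comp (cont_inv hH))).measurable
    simp only [QH, Matrix.sum_apply, Matrix.mul_apply]
    refine Finset.measurable_fun_sum _ fun p _ => Finset.measurable_fun_sum _ fun a _ => ?_
    exact (Finset.measurable_fun_sum _ fun b _ => (h1 p _ _).mul (h2 _ _)).mul (h1 p _ _)

end Pool.Agent.MPd01a95
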