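import Mathlib
import Pool.Agent.Lib.MP_d01a95_gt_H.HDefs
import Pool.Agent.Lib.MP_d01a95_gt_H.Unimod
import Pool.Agent.Lib.MP_d01a95_gt_H.Cone
import Pool.Agent.Lib.MP_d01a95_gt_H.Trans
import Pool.Agent.Lib.MP_d01a95_gt_H.Avg
import Pool.Agent.Lib.MP_d01a95_gt_H.Mol1
import Pool.Agent.Lib.MP_d01a95_gt_H.Mol4
import Pool.Agent.Lib.MP_d01a95_gt_H.Mol5
import Pool.Agent.Lib.MP_d01a95_gt_H.Mol2
import Pool.Agent.Lib.MP_d01a95_gt_H.Mol3

set_option autoImplicit false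
set_option linter.all false

open Matrix Filter Topology MeasureTheory Measure
open scoped ENNReal NNReal ContDiff

namespace Pool.Agent.MPd01a95

open GU

variable {κ n ι α : Type} [Fintype κ] [DecidableEq κ] [Fintype n] [DecidableEq n]
  [Fintype ι] [DecidableEq ι] [Fintype α] [DecidableEq α] {G : Type} [Group G]

namespace ApproxAux


/-! ### averages -/

theorem avg_est {X : Type} [MeasurableSpace X] (ν : Measure X) {w : X → ℝ}
    (hw : Integrable w ν) (hw0 : ∀ x, 0 ≤ w x) (hm : 0 < ∫ x, w x ∂ν) {f : X → ℝ}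
    (hf : AEStronglyMeasurable f ν) {a ε : ℝ} (h : ∀ x, w x ≠ 0 → |f x - a| ≤ ε) :
    |(∫ x, w x * f x ∂ν) / (∫ x, w x ∂ν) - a| ≤ ε := by
  have hb : ∀ x, ‖w x * f x‖ ≤ w x * (|a| + ε) := by
    intro x
    rw [norm_mul, Real.norm_eq_abs, Real.norm_eq_abs, abs_of_nonneg (hw0 x)]
    by_cases hx : w x = 0
    · rw [hx]; simp
    · refine mul_le_mul_of_nonneg_left ?_ (hw0 x)
      have h1 := h x hx
      have h2 : |f x| ≤ |f x - a| + |a| := by
        have := abs_add_le (f x - a) a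
        simpa using this
      linarith
  have hi : Integrable (fun x => w x * f x) ν :=
    (hw.mul_const (|a| + ε)).mono' (hw.aestronglyMeasurable.mul hf) (Eventually.of_forall hb)
  have e1 : (∫ x, w x * f x ∂ν) / (∫ x, w x ∂ν) - a =
      (∫ x, w x * (f x - a) ∂ν) / (∫ x, w x ∂ν) := by
    have e2 : ∫ x, w x * (f x - a) ∂ν = (∫ x, w x * f x ∂ν) - (∫ x, w x ∂ν) * a := by
      rw [← integral_mul_const, ← integral_sub hi (hw.mul_const a)]
      congr 1; ext x; ring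
    rw [e2]
    field_simp
  rw [e1, abs_div, abs_of_pos hm, div_le_iff₀ hm]
  have h3 : |∫ x, w x * (f x - a) ∂ν| ≤ ∫ x, w x * ε ∂ν := by
    have := norm_integral_le_of_norm_le (hw.mul_const ε) (f := fun x => w x * (f x - a))
      (Eventually.of_forall fun x => ?_)
    · exact this
    · rw [norm_mul, Real.norm_eq_abs, Real.norm_eq_abs, abs_of_nonneg (hw0 x)]
      by_cases hx : w x = 0
      · rw [hx]; simp
      · exact mul_le_mul_of_nonneg_left (h x hx) (hw0 x)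
  rw [integral_mul_const] at h3
  linarith

theorem cs {X : Type} [MeasurableSpace X] (ν : Measure X) {w : X → ℝ}
    (hw : Integrable w ν) (hw0 : ∀ x, 0 ≤ w x) (hm : 0 < ∫ x, w x ∂ν) {f : X → ℝ}
    (hf : AEStronglyMeasurable f ν) {A : ℝ} (h : ∀ x, w x ≠ 0 → |f x| ≤ A) :
    ((∫ x, w x * f x ∂ν) / (∫ x, w x ∂ν)) ^ 2 ≤ (∫ x, w x * f x ^ 2 ∂ν) / (∫ x, w x ∂ν) := by
  set m := ∫ x, w x ∂ν with hmd
  have hi : Integrable (fun x => w x * f x) ν := by
    refine (hw.mul_const A).mono' (hw.aestronglyMeasurable.mul hf) (Eventually.of_forall fun x => ?_)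
    rw [norm_mul, Real.norm_eq_abs, Real.norm_eq_abs, abs_of_nonneg (hw0 x)]
    by_cases hx : w x = 0
    · rw [hx]; simp
    · exact mul_le_mul_of_nonneg_left (h x hx) (hw0 x)
  have hi2 : Integrable (fun x => w x * f x ^ 2) ν := by
    refine (hw.mul_const (A ^ 2)).mono' (hw.aestronglyMeasurable.mul (hf.pow 2))
      (Eventually.of_forall fun x => ?_)
    rw [norm_mul, Real.norm_eq_abs, Real.norm_eq_abs, abs_of_nonneg (hw0 x)]
    by_cases hx : w x = 0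
    · rw [hx]; simp
    · refine mul_le_mul_of_nonneg_left ?_ (hw0 x)
      rw [abs_pow]
      exact pow_le_pow_left₀ (abs_nonneg _) (h x hx) 2
  set t := (∫ x, w x * f x ∂ν) / m with ht
  have h0 : 0 ≤ ∫ x, w x * (f x - t) ^ 2 ∂ν :=
    integral_nonneg fun x => mul_nonneg (hw0 x) (sq_nonneg _)
  have e1 : ∫ x, w x * (f x - t) ^ 2 ∂ν = (∫ x, w x * f x ^ 2 ∂ν) - 2 * t * (∫ x, w x * f x ∂ν)
      + t ^ 2 * m := by
    have ea : (∫ x, w x * f x ^ 2 ∂ν) - 2 * t * (∫ x, w x * f x ∂ν) =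
        ∫ x, (w x * f x ^ 2 - 2 * t * (w x * f x)) ∂ν := by
      rw [integral_sub hi2 (hi.const_mul _), integral_const_mul]
    have eb : t ^ 2 * m = ∫ x, t ^ 2 * w x ∂ν := by rw [integral_const_mul]
    rw [ea, eb, ← integral_add (f := fun x => w x * f x ^ 2 - 2 * t * (w x * f x))
      (hi2.sub (hi.const_mul _)) (hw.const_mul _)]
    congr 1; ext x; ring
  have e2 : ∫ x, w x * f x ∂ν = t * m := by rw [ht]; field_simp
  rw [e1, e2] at h0
  rw [le_div_iff₀ hm]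
  nlinarith

theorem jens {X Y : Type} [MeasurableSpace X] [MeasurableSpace Y] (ν : Measure X) [SFinite ν]
    (μ : Measure Y) [SFinite μ] {B : Set Y} (hB : MeasurableSet B) (hBf : μ B ≠ ⊤) {w : X → ℝ}
    (hw : Integrable w ν) (hw0 : ∀ x, 0 ≤ w x) (hm : 0 < ∫ x, w x ∂ν) {F : Y × X → ℝ}
    (hF : Measurable F) {A ε : ℝ} (hA : ∀ y ∈ B, ∀ x, w x ≠ 0 → |F (y, x)| ≤ A)
    (h : ∀ x, w x ≠ 0 → ∫ y in B, F (y, x) ^ 2 ∂μ ≤ ε) :
    ∫ y in B, ((∫ x, w x * F (y, x) ∂ν) / (∫ x, w x ∂ν)) ^ 2 ∂μ ≤ ε := by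
  haveI : IsFiniteMeasure (μ.restrict B) := ⟨by rw [Measure.restrict_apply_univ]; exact hBf.lt_top⟩
  set m := ∫ x, w x ∂ν with hmd
  have hwm : AEStronglyMeasurable w ν := hw.aestronglyMeasurable
  have hFx : ∀ y, Measurable fun x => F (y, x) := fun y => hF.comp measurable_prodMk_left
  have hae : ∀ᵐ p ∂((μ.restrict B).prod ν), p.1 ∈ B :=
    (quasiMeasurePreserving_fst (μ := μ.restrict B) (ν := ν)).ae (ae_restrict_mem hB)
  have hwi : Integrable (fun p : Y × X => w p.2) ((μ.restrict B).prod ν) := hw.comp_snd _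
  have hpi : Integrable (fun p : Y × X => w p.2 * F p ^ 2) ((μ.restrict B).prod ν) := by
    refine (hwi.mul_const (A ^ 2)).mono' (hwi.aestronglyMeasurable.mul
      (hF.pow_const 2).aestronglyMeasurable) ?_
    filter_upwards [hae] with p hp
    rw [norm_mul, Real.norm_eq_abs, Real.norm_eq_abs, abs_of_nonneg (hw0 p.2)]
    by_cases hx : w p.2 = 0
    · rw [hx]; simp
    · refine mul_le_mul_of_nonneg_left ?_ (hw0 _)
      rw [abs_pow]
      exact pow_le_pow_left₀ (abs_nonneg _) (hA p.1 hp p.2 hx) 2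
  have h1 : ∫ y in B, ((∫ x, w x * F (y, x) ∂ν) / m) ^ 2 ∂μ ≤
      ∫ y in B, (∫ x, w x * F (y, x) ^ 2 ∂ν) / m ∂μ := by
    refine integral_mono_of_nonneg (Eventually.of_forall fun y => sq_nonneg _)
      (hpi.integral_prod_left.div_const m) ?_
    filter_upwards [ae_restrict_mem hB] with y hy
    exact cs ν hw hw0 hm (hFx y).aestronglyMeasurable (hA y hy)
  refine h1.trans ?_
  rw [integral_div, div_le_iff₀ hm]
  rw [integral_integral_swap (f := fun y x => w x * F (y, x) ^ 2) hpi]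
  have h2 : ∀ x, ∫ y in B, w x * F (y, x) ^ 2 ∂μ ≤ w x * ε := by
    intro x
    rw [integral_const_mul]
    by_cases hx : w x = 0
    · rw [hx]; simp
    · exact mul_le_mul_of_nonneg_left (h x hx) (hw0 x)
  have h3 : ∫ x, ∫ y in B, w x * F (y, x) ^ 2 ∂μ ∂ν ≤ ∫ x, w x * ε ∂ν :=
    integral_mono_of_nonneg (Eventually.of_forall fun x => integral_nonneg fun y =>
      mul_nonneg (hw0 x) (sq_nonneg _)) (hw.mul_const ε) (Eventually.of_forall h2)
  rw [integral_mul_const] at h3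
  linarith


/-! ### the stabiliser, homogeneity -/

theorem cont_mulVec (A : Matrix (κ ⊕ Unit) (κ ⊕ Unit) ℂ) :
    Continuous fun v : κ ⊕ Unit → ℂ => A *ᵥ v := by fun_prop

theorem cont_pt : Continuous (GU.pt : GU κ → κ ⊕ Unit → ℂ) := by
  unfold GU.pt
  exact Continuous.matrix_mulVec continuous_M continuous_const

theorem cont_dir (p : κ × Bool) : Continuous fun g : GU κ => g.dir p := by
  unfold GU.dir
  exact Continuous.matrix_mulVec continuous_M continuous_const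

theorem pt_mul (g x : GU κ) : (g * x).pt = g.M *ᵥ x.pt := by
  unfold GU.pt
  rw [M_mul, Matrix.mulVec_mulVec]

theorem XM_e0 (p : κ × Bool) : XM p *ᵥ (e0 : κ ⊕ Unit → ℂ) = wb p.2 • ej p.1 := by
  rw [XM, Matrix.add_mulVec, Matrix.smul_mulVec, Matrix.smul_mulVec, Matrix.vecMulVec_mulVec,
    Matrix.vecMulVec_mulVec, ej_e0, e0_e0]
  simp

theorem dir_eq (g : GU κ) (p : κ × Bool) : g.dir p = g.M *ᵥ (XM p *ᵥ e0) := by
  rw [XM_e0]; rfl

theorem K_e0 (k : GU κ) (hk : k ∈ KU κ) : ∃ l : ℂ, l ≠ 0 ∧ k.pt = l • e0 := by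
  refine ⟨k.M (Sum.inr ()) (Sum.inr ()), ?_, ?_⟩
  · intro h
    have h1 := KU_c k hk
    unfold c cc at h1
    rw [h] at h1
    simp at h1
  · ext i
    unfold GU.pt
    rw [mulVec_e0]
    cases i with
    | inl i => rw [hk.1 i]; simp [e0]
    | inr i => cases i; simp [e0]

theorem pt_K (g k : GU κ) (hk : k ∈ KU κ) : ∃ l : ℂ, l ≠ 0 ∧ (g * k).pt = l • g.pt ∧
    k.pt = l • e0 := by
  obtain ⟨l, hl, h⟩ := K_e0 k hk
  refine ⟨l, hl, ?_, h⟩
  rw [pt_mul, h, Matrix.mulVec_smul]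
  rfl

theorem cone_smul {v : κ ⊕ Unit → ℂ} (hv : v ∈ Cn κ) {l : ℂ} (hl : l ≠ 0) : l • v ∈ Cn κ := by
  unfold Cn at *
  simp only [Set.mem_setOf_eq, LowAux.nqC, Pi.smul_apply, smul_eq_mul, norm_mul, mul_pow] at *
  rw [← Finset.mul_sum, ← mul_sub]
  have : 0 < ‖l‖ := norm_pos_iff.mpr hl
  positivity

theorem nqC_smul (v : κ ⊕ Unit → ℂ) (l : ℂ) : LowAux.nqC (l • v) = ‖l‖ ^ 2 * LowAux.nqC v := by
  simp only [LowAux.nqC, Pi.smul_apply, smul_eq_mul, norm_mul, mul_pow]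
  rw [← Finset.mul_sum, ← mul_sub]

theorem cont_nqC : Continuous (LowAux.nqC : (κ ⊕ Unit → ℂ) → ℝ) := by
  unfold LowAux.nqC
  fun_prop

/-- the derivative of a homogeneous function -/
theorem DM_hom {H : (κ ⊕ Unit → ℂ) → Matrix n n ℝ}
    (hh : ∀ v ∈ Cn κ, ∀ l : ℂ, l ≠ 0 → H (l • v) = H v) {v : κ ⊕ Unit → ℂ} (hv : v ∈ Cn κ)
    {l : ℂ} (hl : l ≠ 0) (u : κ ⊕ Unit → ℂ) : DM H (l • v) (l • u) = DM H v u := by
  ext i j
  simp only [DM, Matrix.of_apply]
  set f : (κ ⊕ Unit → ℂ) → ℝ := fun w => H w i j with hf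
  set e : (κ ⊕ Unit → ℂ) ≃L[ℝ] (κ ⊕ Unit → ℂ) :=
    (ContinuousLinearEquiv.smulLeft (Units.mk0 l hl) : (κ ⊕ Unit → ℂ) ≃L[ℂ] _).restrictScalars ℝ
    with he
  have hev : ∀ w, e w = l • w := fun w => rfl
  have h1 : f =ᶠ[𝓝 v] f ∘ e := by
    filter_upwards [isOpen_Cn.mem_nhds hv] with w hw
    change H w i j = H (e w) i j
    rw [hev, hh w hw l hl]
  rw [h1.fderiv_eq, e.comp_right_fderiv]
  simp [hev]

theorem DM_hom' {H : (κ ⊕ Unit → ℂ) → Matrix n n ℝ}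
    (hh : ∀ v ∈ Cn κ, ∀ l : ℂ, l ≠ 0 → H (l • v) = H v) {v : κ ⊕ Unit → ℂ} (hv : v ∈ Cn κ)
    {l : ℂ} (hl : l ≠ 0) (u : κ ⊕ Unit → ℂ) : DM H (l • v) u = DM H v (l⁻¹ • u) := by
  rw [← DM_hom hh hv hl, smul_smul, mul_inv_cancel₀ hl, one_smul]

/-- Euler relation -/
theorem DM_self {H : (κ ⊕ Unit → ℂ) → Matrix n n ℝ}
    (hh : ∀ v ∈ Cn κ, ∀ l : ℂ, l ≠ 0 → H (l • v) = H v) {v : κ ⊕ Unit → ℂ} (hv : v ∈ Cn κ)
    (l : ℂ) : DM H v (l • v) = 0 := by
  ext i j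
  simp only [DM, Matrix.of_apply, Matrix.zero_apply]
  set f : (κ ⊕ Unit → ℂ) → ℝ := fun w => H w i j with hf
  by_cases hd : DifferentiableAt ℝ f v
  · have h1 : HasDerivAt (fun t : ℝ => v + t • (l • v)) (l • v) 0 := by
      have := ((hasDerivAt_id (0 : ℝ)).smul_const (l • v)).const_add v
      simpa using this
    have h2 : HasDerivAt (fun t : ℝ => f (v + t • (l • v))) (fderiv ℝ f v (l • v)) 0 := by
      have h3 : HasFDerivAt f (fderiv ℝ f v) (v + (0 : ℝ) • (l • v)) := by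
        simpa using hd.hasFDerivAt
      exact h3.comp_hasDerivAt (0 : ℝ) h1
    have h4 : (fun t : ℝ => f (v + t • (l • v))) =ᶠ[𝓝 0] fun _ => f v := by
      have hc : Continuous fun t : ℝ => (1 : ℂ) + (t : ℂ) * l := by fun_prop
      have h5 : ∀ᶠ t : ℝ in 𝓝 0, (1 : ℂ) + (t : ℂ) * l ≠ 0 := by
        refine hc.continuousAt.eventually_ne ?_
        simp
      filter_upwards [h5] with t ht
      have e1 : v + t • (l • v) = ((1 : ℂ) + (t : ℂ) * l) • v := by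
        rw [add_smul, one_smul, mul_smul]
        congr 1
      simp only [hf]
      rw [e1, hh v hv _ ht]
    have h6 : HasDerivAt (fun t : ℝ => f (v + t • (l • v))) 0 0 :=
      (hasDerivAt_const (0 : ℝ) (f v)).congr_of_eventuallyEq h4
    exact h2.unique h6
  · rw [fderiv_zero_of_not_differentiableAt hd]; rfl

theorem cont_H {σ : G →* GU κ} {ρ : G →* Matrix n n ℝ} {H : (κ ⊕ Unit → ℂ) → Matrix n n ℝ}
    (hH : EqC σ ρ H) (i j : n) : ContinuousOn (fun v => H v i j) (Cn κ) := by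
  intro v hv
  obtain ⟨L, U, hU, h⟩ := hH.lip v hv
  exact ((h i j).continuousOn.continuousAt hU).continuousWithinAt

theorem cont_Hg {σ : G →* GU κ} {ρ : G →* Matrix n n ℝ} {H : (κ ⊕ Unit → ℂ) → Matrix n n ℝ}
    (hH : EqC σ ρ H) (i j : n) : Continuous fun g : GU κ => H g.pt i j :=
  (cont_H hH i j).comp_continuous cont_pt fun g => (pt_mem g).1

theorem H_K {σ : G →* GU κ} {ρ : G →* Matrix n n ℝ} {H : (κ ⊕ Unit → ℂ) → Matrix n n ℝ}
    (hH : EqC σ ρ H) (g k : GU κ) (hk : k ∈ KU κ) : H (g * k).pt = H g.pt := by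
  obtain ⟨l, hl, h, -⟩ := pt_K g k hk
  rw [h, hH.hom _ (pt_mem g).1 l hl]

/-! ### uniform continuity near the identity -/

theorem unif_one {F : GU κ × GU κ → ℝ} (hF : Continuous F) (h1 : ∀ g, F (g, 1) = 0)
    {B : Set (GU κ)} (hB : IsCompact B) {ε : ℝ} (hε : 0 < ε) :
    ∃ U ∈ 𝓝 (1 : GU κ), ∀ g ∈ B, ∀ y ∈ U, |F (g, y)| < ε := by
  have h2 : ∀ᶠ y in 𝓝 (1 : GU κ), ∀ g ∈ B, |F (g, y)| < ε := by
    refine hB.eventually_forall_of_forall_eventually fun g hg => ?_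
    have h3 : Continuous fun z : GU κ × GU κ => |F (z.2, z.1)| := by
      have : Continuous fun z : GU κ × GU κ => F (z.2, z.1) := by fun_prop
      exact this.abs
    have h4 : ∀ᶠ z in 𝓝 ((1 : GU κ), g), |F (z.2, z.1)| < ε := by
      refine h3.continuousAt.eventually_lt continuousAt_const ?_
      simp [h1, hε]
    first
      | exact h4
      | (rw [nhds_prod_eq] at h4; exact h4)
  exact ⟨_, h2, fun g hg y hy => hy g hg⟩


/-! ### the kernels -/

noncomputable def bp (k : ℕ) : ContDiffBump (1 : ℝ) where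
  rIn := 1 / (2 * ((k : ℝ) + 1))
  rOut := 1 / ((k : ℝ) + 1)
  rIn_pos := by positivity
  rIn_lt_rOut := by
    have : (0 : ℝ) < (k : ℝ) + 1 := by positivity
    exact one_div_lt_one_div_of_lt this (by linarith)

noncomputable def be (k : ℕ) (s : ℝ) : ℝ := bp k s

theorem be_smooth (k : ℕ) : ContDiff ℝ ∞ (be k) := (bp k).contDiff

theorem be_supp (k : ℕ) : HasCompactSupport (be k) := (bp k).hasCompactSupport

theorem be_nonneg (k : ℕ) (s : ℝ) : 0 ≤ be k s := (bp k).nonneg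

theorem be_one (k : ℕ) : 0 < be k 1 :=
  (bp k).pos_of_mem_ball (Metric.mem_ball_self (bp k).rOut_pos)

theorem be_zero {k : ℕ} {s : ℝ} (h : 1 / ((k : ℝ) + 1) ≤ |s - 1|) : be k s = 0 :=
  (bp k).zero_of_le_dist h

theorem be_zero' (k : ℕ) (s : ℝ) (h : 1 ≤ (k : ℝ) * |s - 1|) : be k s = 0 := by
  refine be_zero ?_
  have h1 : (0 : ℝ) < (k : ℝ) + 1 := by positivity
  rw [div_le_iff₀ h1]
  nlinarith [abs_nonneg (s - 1)]

theorem c_one : c (1 : GU κ) = 1 := KU_c 1 (one_mem _)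

theorem be_ne {k : ℕ} {x : GU κ} (h : be k (c x ^ 2) ≠ 0) : c x ^ 2 < 1 + 1 / ((k : ℝ) + 1) := by
  by_contra h1
  push Not at h1
  refine h (be_zero ?_)
  have : 1 / ((k : ℝ) + 1) ≤ c x ^ 2 - 1 := by linarith
  exact this.trans (le_abs_self _)

theorem be_ne2 {k : ℕ} {x : GU κ} (h : be k (c x ^ 2) ≠ 0) : c x ≤ 2 := by
  have h1 := be_ne h
  have h2 : 1 / ((k : ℝ) + 1) ≤ 1 := by
    rw [div_le_one (by positivity)]
    have : (0 : ℝ) ≤ k := Nat.cast_nonneg k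
    linarith
  have h3 := c_ge_one x
  nlinarith

theorem be_cont (k : ℕ) : Continuous fun x : GU κ => be k (c x ^ 2) :=
  (be_smooth k).continuous.comp (continuous_c.pow 2)

theorem be_cs (k : ℕ) : HasCompactSupport fun x : GU κ => be k (c x ^ 2) :=
  HasCompactSupport.intro (isCompact_c 2) fun x hx => by
    by_contra h
    exact hx (be_ne2 h)

theorem be_int (μ : Measure (GU κ)) [IsHaarMeasure μ] (k : ℕ) :
    Integrable (fun x : GU κ => be k (c x ^ 2)) μ :=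
  (be_cont k).integrable_of_hasCompactSupport (be_cs k)

theorem be_pos (μ : Measure (GU κ)) [IsHaarMeasure μ] (k : ℕ) :
    0 < ∫ x : GU κ, be k (c x ^ 2) ∂μ := by
  refine (be_cont k).integral_pos_of_hasCompactSupport_nonneg_nonzero (be_cs k)
    (fun x => be_nonneg k _) (x := 1) ?_
  rw [c_one, one_pow]
  exact (be_one k).ne'

theorem be_ev {δ : ℝ} (hδ : 0 < δ) : ∀ᶠ k : ℕ in atTop, ∀ x : GU κ, be k (c x ^ 2) ≠ 0 →
    c x ^ 2 < 1 + δ := by
  have h1 : Tendsto (fun k : ℕ => 1 / ((k : ℝ) + 1)) atTop (𝓝 0) :=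
    tendsto_one_div_add_atTop_nhds_zero_nat
  filter_upwards [h1.eventually_lt_const hδ] with k hk x hx
  have := be_ne hx
  linarith

theorem meas_D (H : (κ ⊕ Unit → ℂ) → Matrix n n ℝ) (p : κ × Bool) (i j : n) :
    Measurable fun z : GU κ × GU κ => DM H (z.1 * z.2).pt (z.1.M *ᵥ (XM p *ᵥ z.2.pt)) i j := by
  have h1 : Measurable (fderiv ℝ (fun w => H w i j)) := measurable_fderiv ℝ _
  have h2 : Measurable fun z : GU κ × GU κ => (z.1 * z.2).pt :=
    (cont_pt.comp (continuous_fst.mul continuous_snd)).measurable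
  have h3 : Measurable fun z : GU κ × GU κ => z.1.M *ᵥ (XM p *ᵥ z.2.pt) := by
    refine Continuous.measurable ?_
    refine Continuous.matrix_mulVec (continuous_M.comp continuous_fst) ?_
    exact Continuous.matrix_mulVec continuous_const (cont_pt.comp continuous_snd)
  exact ContinuousLinearMap.measurable_apply₂.comp ((h1.comp h2).prodMk h3)

theorem meas_Dx (H : (κ ⊕ Unit → ℂ) → Matrix n n ℝ) (g : GU κ) (p : κ × Bool) (i j : n) :
    Measurable fun x : GU κ => DM H (g * x).pt (g.M *ᵥ (XM p *ᵥ x.pt)) i j := by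
  have h1 : Measurable (fderiv ℝ (fun w => H w i j)) := measurable_fderiv ℝ _
  have h2 : Measurable fun z : GU κ => (g * z).pt :=
    (cont_pt.comp (continuous_const.mul continuous_id)).measurable
  have h3 : Measurable fun z : GU κ => g.M *ᵥ (XM p *ᵥ z.pt) := by
    refine Continuous.measurable ?_
    refine Continuous.matrix_mulVec continuous_const ?_
    exact Continuous.matrix_mulVec continuous_const cont_pt
  exact ContinuousLinearMap.measurable_apply₂.comp ((h1.comp h2).prodMk h3)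

/-! ### uniform convergence -/

section

variable {σ : G →* GU κ} (hL : Lat σ) (μ : Measure (GU κ)) [IsHaarMeasure μ]
  {χ : GU κ → ℝ} {ρ : G →* Matrix n n ℝ}
  {H : (κ ⊕ Unit → ℂ) → Matrix n n ℝ} (hH : EqC σ ρ H)

include hL hH

theorem molc (k : ℕ) : EqC σ ρ (mol μ (be k) H) :=
  mol_eqc hL μ hH (be_smooth k) (be_supp k) (be_nonneg k) (be_one k)

theorem unif_g {B : Set (GU κ)} (hB : IsCompact B) {ε : ℝ} (hε : 0 < ε) :
    ∀ᶠ k in atTop, ∀ g ∈ B, ∀ i j, |mol μ (be k) H g.pt i j - H g.pt i j| ≤ ε := by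
  have key : ∀ i j, ∀ᶠ k in atTop, ∀ g ∈ B, |mol μ (be k) H g.pt i j - H g.pt i j| ≤ ε := by
    intro i j
    have hc := cont_Hg hH i j
    obtain ⟨U, hU, hU2⟩ := unif_one (F := fun z : GU κ × GU κ => H (z.1 * z.2).pt i j -
      H z.1.pt i j) ((hc.comp (continuous_fst.mul continuous_snd)).sub (hc.comp continuous_fst))
      (fun g => by simp) hB hε
    obtain ⟨δ, hδ, hδ2⟩ := near_K U hU
    filter_upwards [be_ev (κ := κ) hδ] with k hk g hg
    rw [mol_right hL μ hH (be_smooth k) (be_supp k)]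
    refine avg_est μ (be_int μ k) (fun x => be_nonneg k _) (be_pos μ k) (f := fun x =>
      H (g * x).pt i j) ?_ ?_
    · exact (hc.comp (continuous_const.mul continuous_id)).aestronglyMeasurable
    · intro x hx
      obtain ⟨y, hy, k', hk', e⟩ := hδ2 x (hk x hx)
      rw [e, ← mul_assoc, H_K hH _ _ hk']
      exact (hU2 g hg y hy).le
  have h2 : ∀ᶠ k in atTop, ∀ i j, ∀ g ∈ B, |mol μ (be k) H g.pt i j - H g.pt i j| ≤ ε := by
    rw [eventually_all]
    intro i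
    rw [eventually_all]
    exact key i
  filter_upwards [h2] with k hk g hg i j using hk i j g hg

theorem unif_C {C : Set (κ ⊕ Unit → ℂ)} (hC : C ⊆ Cn κ) (hCc : IsCompact C) {ε : ℝ} (hε : 0 < ε) :
    ∀ᶠ k in atTop, ∀ v ∈ C, ∀ i j, |mol μ (be k) H v i j - H v i j| < ε := by
  obtain ⟨R, hR⟩ := compact_lift C hC hCc
  filter_upwards [unif_g hL μ hH (isCompact_c R) (half_pos hε)] with k hk v hv i j
  obtain ⟨g, l, hl, e⟩ := exists_pt v (hC hv)
  have h1 : g ∈ {g : GU κ | c g ≤ R} := hR g ⟨l, hl, e ▸ hv⟩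
  rw [e, (molc hL μ hH k).hom _ (pt_mem g).1 l hl, hH.hom _ (pt_mem g).1 l hl]
  have := hk g h1 i j
  linarith

/-! ### gradient bound -/

theorem grad_g {B : Set (GU κ)} (hB : IsCompact B) : ∃ A : ℝ, ∀ k, ∀ g ∈ B, ∀ p i j,
    |XH (mol μ (be k) H) p g i j| ≤ A := by
  have hS := isCompact_c (κ := κ) 2
  set C : Set (κ ⊕ Unit → ℂ) := (fun z : GU κ × GU κ => (z.1 * z.2).pt) '' (B ×ˢ {x | c x ≤ 2})
    with hCd
  have hCc : IsCompact C := (hB.prod hS).image (cont_pt.comp (continuous_fst.mul continuous_snd))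
  have hC : C ⊆ Cn κ := by
    rintro v ⟨z, -, rfl⟩
    exact (pt_mem _).1
  obtain ⟨L, hLL⟩ := (XH_bdd hH).2.1 C hC hCc
  have hM : ∀ p : κ × Bool, ∃ M : ℝ, ∀ z ∈ B ×ˢ {x : GU κ | c x ≤ 2},
      ‖z.1.M *ᵥ (XM p *ᵥ z.2.pt)‖ ≤ M := by
    intro p
    have hc : Continuous fun z : GU κ × GU κ => ‖z.1.M *ᵥ (XM p *ᵥ z.2.pt)‖ := by
      refine continuous_norm.comp (Continuous.matrix_mulVec (continuous_M.comp continuous_fst) ?_)
      exact Continuous.matrix_mulVec continuous_const (cont_pt.comp continuous_snd)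
    obtain ⟨M, hM⟩ := ((hB.prod hS).image hc).bddAbove
    exact ⟨M, fun z hz => hM ⟨z, hz, rfl⟩⟩
  choose M hM using hM
  refine ⟨|L| * ∑ p, |M p|, fun k g hg p i j => ?_⟩
  rw [mol_deriv hL μ hH (be_smooth k) (be_supp k) (be_nonneg k) (be_one k)]
  have hmf : Measurable fun x : GU κ => DM H (g * x).pt (g.M *ᵥ (XM p *ᵥ x.pt)) i j :=
    meas_Dx H g p i j
  have := avg_est μ (be_int μ k) (fun x => be_nonneg k _) (be_pos μ k)
    (f := fun x => DM H (g * x).pt (g.M *ᵥ (XM p *ᵥ x.pt)) i j) (a := 0)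
    (ε := |L| * ∑ p, |M p|) hmf.aestronglyMeasurable ?_
  · simpa using this
  · intro x hx
    have hx2 : c x ≤ 2 := be_ne2 hx
    rw [sub_zero]
    have h1 := hLL (g * x).pt ⟨(g, x), ⟨hg, hx2⟩, rfl⟩ (g.M *ᵥ (XM p *ᵥ x.pt)) i j
    refine h1.trans ?_
    refine mul_le_mul (le_abs_self _) ?_ (norm_nonneg _) (abs_nonneg _)
    have h2 := hM p (g, x) ⟨hg, hx2⟩
    refine h2.trans ((le_abs_self _).trans ?_)
    exact Finset.single_le_sum (f := fun p => |M p|) (fun q _ => abs_nonneg _) (Finset.mem_univ p)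

theorem grad_C {C : Set (κ ⊕ Unit → ℂ)} (hC : C ⊆ Cn κ) (hCc : IsCompact C) :
    ∃ L : ℝ, ∀ k, ∀ v ∈ C, ∀ u, ∀ i j, |DM (mol μ (be k) H) v u i j| ≤ L * ‖u‖ := by
  obtain ⟨R, hR⟩ := compact_lift C hC hCc
  have hB := isCompact_c (κ := κ) R
  obtain ⟨A, hA⟩ := grad_g hL μ hH hB
  obtain ⟨A', hA'⟩ := frame_span _ hB
  obtain ⟨q, hq, hq2⟩ : ∃ q : ℝ, 0 < q ∧ ∀ v ∈ C, q ≤ LowAux.nqC v := by
    rcases C.eq_empty_or_nonempty with h0 | h0
    · exact ⟨1, one_pos, by rw [h0]; simp⟩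
    · obtain ⟨v, hv, h⟩ := hCc.exists_isMinOn h0 cont_nqC.continuousOn
      exact ⟨_, hC hv, fun w hw => h hw⟩
  refine ⟨(Fintype.card (κ × Bool)) * (|A'| * |A|) * (Real.sqrt q)⁻¹, fun k v hv u i j => ?_⟩
  obtain ⟨g, l, hl, e⟩ := exists_pt v (hC hv)
  have h1 : g ∈ {g : GU κ | c g ≤ R} := hR g ⟨l, hl, e ▸ hv⟩
  have hH' := molc hL μ hH k
  have hnl : Real.sqrt q ≤ ‖l‖ := by
    have h2 := hq2 v hv
    rw [e, nqC_smul, (pt_mem g).2, mul_one] at h2
    exact Real.sqrt_le_left (norm_nonneg _) |>.mpr h2 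
  have hsq : 0 < Real.sqrt q := Real.sqrt_pos.mpr hq
  rw [e, DM_hom' hH'.hom (pt_mem g).1 hl]
  obtain ⟨r, l', hu, hr⟩ := hA' g h1 (l⁻¹ • u)
  have h3 : DM (mol μ (be k) H) g.pt (l⁻¹ • u) i j =
      ∑ p, r p * XH (mol μ (be k) H) p g i j := by
    have h4 := congrFun (congrFun (DM_self hH'.hom (pt_mem g).1 l') i) j
    have h5 : ∀ a b, DM (mol μ (be k) H) g.pt (a + b) i j = DM (mol μ (be k) H) g.pt a i j +
        DM (mol μ (be k) H) g.pt b i j := fun a b => by simp [DM]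
    rw [hu, h5, h4]
    simp only [Matrix.zero_apply, add_zero]
    simp only [DM, XH, Matrix.of_apply]
    rw [_root_.map_sum]
    refine Finset.sum_congr rfl fun p _ => ?_
    rw [_root_.map_smul, smul_eq_mul]
  rw [h3]
  refine (Finset.abs_sum_le_sum_abs _ _).trans ?_
  have h6 : ∀ p ∈ Finset.univ, |r p * XH (mol μ (be k) H) p g i j| ≤
      (|A'| * |A|) * ((Real.sqrt q)⁻¹ * ‖u‖) := by
    intro p _
    rw [abs_mul]
    have h7 : |r p| ≤ |A'| * ((Real.sqrt q)⁻¹ * ‖u‖) := by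
      refine (hr p).trans ?_
      rw [norm_smul, norm_inv]
      refine mul_le_mul (le_abs_self _) ?_ (by positivity) (abs_nonneg _)
      refine mul_le_mul_of_nonneg_right ?_ (norm_nonneg _)
      exact inv_anti₀ hsq hnl
    have h8 : |XH (mol μ (be k) H) p g i j| ≤ |A| := (hA k g h1 p i j).trans (le_abs_self _)
    calc |r p| * |XH (mol μ (be k) H) p g i j| ≤ (|A'| * ((Real.sqrt q)⁻¹ * ‖u‖)) * |A| :=
          mul_le_mul h7 h8 (abs_nonneg _) (by positivity)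
      _ = _ := by ring
  refine (Finset.sum_le_sum h6).trans (le_of_eq ?_)
  rw [Finset.sum_const, Finset.card_univ, nsmul_eq_mul]
  ring

end


theorem jens2 {X Y : Type} [MeasurableSpace X] [MeasurableSpace Y] (ν : Measure X) [SFinite ν]
    (μ : Measure Y) [SFinite μ] {B : Set Y} (hB : MeasurableSet B) (hBf : μ B ≠ ⊤) {w : X → ℝ}
    (hw : Integrable w ν) (hw0 : ∀ x, 0 ≤ w x) (hm : 0 < ∫ x, w x ∂ν) {F : Y × X → ℝ}
    (hF : Measurable F) {a : Y → ℝ} (ha : Measurable a) {A A' ε : ℝ}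
    (hA : ∀ y ∈ B, ∀ x, w x ≠ 0 → |F (y, x)| ≤ A) (hA' : ∀ y ∈ B, |a y| ≤ A')
    (h : ∀ x, w x ≠ 0 → ∫ y in B, (F (y, x) - a y) ^ 2 ∂μ ≤ ε) :
    ∫ y in B, ((∫ x, w x * F (y, x) ∂ν) / (∫ x, w x ∂ν) - a y) ^ 2 ∂μ ≤ ε := by
  have h1 := jens ν μ hB hBf hw hw0 hm (F := fun p => F p - a p.1)
    (hF.sub (ha.comp measurable_fst)) (A := A + A') (ε := ε) ?_ h
  · refine (le_of_eq ?_).trans h1
    refine setIntegral_congr_fun hB fun y hy => ?_
    have hi : Integrable (fun x => w x * F (y, x)) ν := by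
      refine (hw.mul_const A).mono' (hw.aestronglyMeasurable.mul
        (hF.comp measurable_prodMk_left).aestronglyMeasurable) (Eventually.of_forall fun x => ?_)
      rw [norm_mul, Real.norm_eq_abs, Real.norm_eq_abs, abs_of_nonneg (hw0 x)]
      by_cases hx : w x = 0
      · rw [hx]; simp
      · exact mul_le_mul_of_nonneg_left (hA y hy x hx) (hw0 x)
    have e : ∫ x, w x * (F (y, x) - a y) ∂ν = (∫ x, w x * F (y, x) ∂ν) - (∫ x, w x ∂ν) * a y := by
      rw [← integral_mul_const, ← integral_sub hi (hw.mul_const (a y))]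
      congr 1; ext x; ring
    simp only []
    rw [e]
    congr 1
    field_simp
  · intro y hy x hx
    exact (abs_sub _ _).trans (add_le_add (hA y hy x hx) (hA' y hy))

theorem tend0 {a : ℕ → ℝ} (h : ∀ ε > 0, ∀ᶠ k in atTop, |a k| ≤ ε) : Tendsto a atTop (𝓝 0) := by
  rw [Metric.tendsto_atTop']
  intro ε hε
  have h1 := h (ε / 2) (half_pos hε)
  obtain ⟨N, hN⟩ := eventually_atTop.mp h1
  refine ⟨N, fun k hk => ?_⟩
  rw [Real.dist_eq, sub_zero]
  have := hN k hk.le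
  linarith

theorem intB (μ : Measure (GU κ)) [IsHaarMeasure μ] {B : Set (GU κ)} (hB : IsCompact B)
    {f : GU κ → ℝ} (hf : Measurable f) {A : ℝ} (hA : ∀ g ∈ B, |f g| ≤ A) :
    IntegrableOn f B μ := by
  refine Measure.integrableOn_of_bounded (M := A) hB.measure_lt_top.ne hf.aestronglyMeasurable ?_
  filter_upwards [ae_restrict_mem hB.measurableSet] with g hg using hA g hg

theorem sq_add_le (μ : Measure (GU κ)) [IsHaarMeasure μ] {B : Set (GU κ)} (hB : IsCompact B)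
    {f f' : GU κ → ℝ} (hf : Measurable f) (hf' : Measurable f') {A A' : ℝ}
    (hA : ∀ g ∈ B, |f g| ≤ A) (hA' : ∀ g ∈ B, |f' g| ≤ A') :
    ∫ g in B, (f g + f' g) ^ 2 ∂μ ≤ 2 * ∫ g in B, f g ^ 2 ∂μ + 2 * ∫ g in B, f' g ^ 2 ∂μ := by
  have h1 : IntegrableOn (fun g => f g ^ 2) B μ := by
    refine intB μ hB (hf.pow_const 2) (A := A ^ 2) fun g hg => ?_
    rw [abs_pow]
    exact pow_le_pow_left₀ (abs_nonneg _) (hA g hg) 2
  have h2 : IntegrableOn (fun g => f' g ^ 2) B μ := by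
    refine intB μ hB (hf'.pow_const 2) (A := A' ^ 2) fun g hg => ?_
    rw [abs_pow]
    exact pow_le_pow_left₀ (abs_nonneg _) (hA' g hg) 2
  rw [← integral_const_mul, ← integral_const_mul, ← integral_add (h1.const_mul 2) (h2.const_mul 2)]
  refine integral_mono_of_nonneg (Eventually.of_forall fun _ => sq_nonneg _)
    ((h1.const_mul 2).add (h2.const_mul 2)) (Eventually.of_forall fun g => ?_)
  change (f g + f' g) ^ 2 ≤ 2 * f g ^ 2 + 2 * f' g ^ 2
  nlinarith [sq_nonneg (f g - f' g)]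

theorem meas_Dy (H : (κ ⊕ Unit → ℂ) → Matrix n n ℝ) (y : GU κ) (p : κ × Bool) (i j : n) :
    Measurable fun g : GU κ => DM H (g * y).pt (g.M *ᵥ (XM p *ᵥ y.pt)) i j := by
  have h1 : Measurable (fderiv ℝ (fun w => H w i j)) := measurable_fderiv ℝ _
  have h2 : Measurable fun g : GU κ => (g * y).pt :=
    (cont_pt.comp (continuous_id.mul continuous_const)).measurable
  have h3 : Measurable fun g : GU κ => g.M *ᵥ (XM p *ᵥ y.pt) := by
    refine Continuous.measurable ?_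
    exact Continuous.matrix_mulVec continuous_M continuous_const
  exact ContinuousLinearMap.measurable_apply₂.comp ((h1.comp h2).prodMk h3)

theorem D_bdd {σ : G →* GU κ} {ρ : G →* Matrix n n ℝ} {H : (κ ⊕ Unit → ℂ) → Matrix n n ℝ}
    (hH : EqC σ ρ H) {B S : Set (GU κ)} (hB : IsCompact B) (hS : IsCompact S) (p : κ × Bool)
    (i j : n) : ∃ A : ℝ, ∀ g ∈ B, ∀ x ∈ S,
      |DM H (g * x).pt (g.M *ᵥ (XM p *ᵥ x.pt)) i j| ≤ A := by
  set C : Set (κ ⊕ Unit → ℂ) := (fun z : GU κ × GU κ => (z.1 * z.2).pt) '' (B ×ˢ S) with hCd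
  have hCc : IsCompact C := (hB.prod hS).image (cont_pt.comp (continuous_fst.mul continuous_snd))
  have hC : C ⊆ Cn κ := by
    rintro v ⟨z, -, rfl⟩
    exact (pt_mem _).1
  obtain ⟨L, hLL⟩ := (XH_bdd hH).2.1 C hC hCc
  have hc : Continuous fun z : GU κ × GU κ => ‖z.1.M *ᵥ (XM p *ᵥ z.2.pt)‖ := by
    refine continuous_norm.comp (Continuous.matrix_mulVec (continuous_M.comp continuous_fst) ?_)
    exact Continuous.matrix_mulVec continuous_const (cont_pt.comp continuous_snd)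
  obtain ⟨M, hM⟩ := ((hB.prod hS).image hc).bddAbove
  refine ⟨|L| * |M|, fun g hg x hx => ?_⟩
  refine (hLL (g * x).pt ⟨(g, x), ⟨hg, hx⟩, rfl⟩ _ i j).trans ?_
  exact mul_le_mul (le_abs_self _) ((hM ⟨(g, x), ⟨hg, hx⟩, rfl⟩).trans (le_abs_self _))
    (norm_nonneg _) (abs_nonneg _)

theorem XH_eq (H : (κ ⊕ Unit → ℂ) → Matrix n n ℝ) (p : κ × Bool) (g : GU κ) (i j : n) :
    XH H p g i j = DM H (g * 1).pt (g.M *ᵥ (XM p *ᵥ (1 : GU κ).pt)) i j := by
  have e : (1 : GU κ).pt = e0 := by unfold GU.pt; simp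
  rw [e, mul_one, ← dir_eq]
  rfl

theorem XH_bd {σ : G →* GU κ} {ρ : G →* Matrix n n ℝ} {H : (κ ⊕ Unit → ℂ) → Matrix n n ℝ}
    (hH : EqC σ ρ H) (p : κ × Bool) (i j : n) (B : Set (GU κ)) (hB : IsCompact B) :
    ∃ A : ℝ, ∀ g ∈ B, |XH H p g i j| ≤ A := by
  obtain ⟨A, hA⟩ := D_bdd hH hB (isCompact_singleton (x := (1 : GU κ))) p i j
  refine ⟨A, fun g hg => ?_⟩
  rw [XH_eq]
  exact hA g hg 1 rfl

section

variable {σ : G →* GU κ} (hL : Lat σ) (μ : Measure (GU κ)) [IsHaarMeasure μ]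
  {χ : GU κ → ℝ} {ρ : G →* Matrix n n ℝ}
  {H : (κ ⊕ Unit → ℂ) → Matrix n n ℝ} (hH : EqC σ ρ H)

include hL hH

theorem near_L2 (p : κ × Bool) (i j : n) {B : Set (GU κ)} (hB : IsCompact B) {ε : ℝ}
    (hε : 0 < ε) : ∃ δ > 0, ∀ x : GU κ, c x ^ 2 < 1 + δ →
      ∫ g in B, (DM H (g * x).pt (g.M *ᵥ (XM p *ᵥ x.pt)) i j - XH H p g i j) ^ 2 ∂μ ≤ ε := by
  haveI := right_inv hL μ
  have hfm : Measurable fun g : GU κ => XH H p g i j := (XH_bdd hH).1 p i j
  have hfb := XH_bd hH p i j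
  obtain ⟨U1, hU1, hU1'⟩ := trans_cont μ hfm hfb B hB (ε / 4) (by linarith)
  have hS := isCompact_c (κ := κ) 2
  have hSn : {x : GU κ | c x ≤ 2} ∈ 𝓝 (1 : GU κ) := by
    have h1 : ∀ᶠ x in 𝓝 (1 : GU κ), c x < 2 :=
      continuous_c.continuousAt.eventually_lt continuousAt_const (by rw [c_one]; norm_num)
    exact h1.mono fun x hx => hx.le
  set C : Set (κ ⊕ Unit → ℂ) := (fun z : GU κ × GU κ => (z.1 * z.2).pt) '' (B ×ˢ {x | c x ≤ 2})
    with hCd
  have hCc : IsCompact C := (hB.prod hS).image (cont_pt.comp (continuous_fst.mul continuous_snd))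
  have hC : C ⊆ Cn κ := by
    rintro v ⟨z, -, rfl⟩
    exact (pt_mem _).1
  obtain ⟨L, hLL⟩ := (XH_bdd hH).2.1 C hC hCc
  set M : ℝ := (μ B).toReal with hM
  have hM0 : 0 ≤ M := ENNReal.toReal_nonneg
  set η : ℝ := min 1 (ε / (4 * (L ^ 2 + 1) * (M + 1))) with hη
  have hη0 : 0 < η := lt_min one_pos (by positivity)
  have hη1 : η ≤ 1 := min_le_left _ _
  have hη2 : η * (4 * (L ^ 2 + 1) * (M + 1)) ≤ ε := by
    have : η ≤ ε / (4 * (L ^ 2 + 1) * (M + 1)) := min_le_right _ _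
    rwa [le_div_iff₀ (by positivity)] at this
  have hsm : (L * η) ^ 2 * M ≤ ε / 4 := by
    have h1 : (L * η) ^ 2 * M ≤ (L ^ 2 + 1) * η * (M + 1) := by
      have h2 : (L * η) ^ 2 ≤ (L ^ 2 + 1) * η := by
        have h3 : η ^ 2 ≤ η := by nlinarith
        calc (L * η) ^ 2 = L ^ 2 * η ^ 2 := by ring
          _ ≤ L ^ 2 * η := mul_le_mul_of_nonneg_left h3 (sq_nonneg _)
          _ ≤ (L ^ 2 + 1) * η := mul_le_mul_of_nonneg_right (by linarith) hη0.le
      exact mul_le_mul h2 (by linarith) hM0 (by positivity)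
    nlinarith
  obtain ⟨U2, hU2, hU2'⟩ := unif_one (F := fun z : GU κ × GU κ =>
    ‖z.1.M *ᵥ (XM p *ᵥ z.2.pt) - (z.1 * z.2).dir p‖) (by
      refine continuous_norm.comp (Continuous.sub ?_
        ((cont_dir p).comp (continuous_fst.mul continuous_snd)))
      refine Continuous.matrix_mulVec (continuous_M.comp continuous_fst) ?_
      exact Continuous.matrix_mulVec continuous_const (cont_pt.comp continuous_snd))
    (fun g => by
      have e : (1 : GU κ).pt = e0 := by unfold GU.pt; simp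
      simp only []
      rw [e, mul_one, ← dir_eq, sub_self, norm_zero]) hB hη0
  obtain ⟨δ, hδ, hδ2⟩ := near_K _ (inter_mem (inter_mem hU1 hU2) hSn)
  refine ⟨δ, hδ, fun x hx => ?_⟩
  obtain ⟨y, ⟨⟨hy1, hy2⟩, hy3⟩, k', hk', e⟩ := hδ2 x hx
  obtain ⟨l, hl, -, hk0⟩ := pt_K 1 k' hk'
  have e1 : ∀ g : GU κ, DM H (g * x).pt (g.M *ᵥ (XM p *ᵥ x.pt)) =
      DM H (g * y).pt (g.M *ᵥ (XM p *ᵥ y.pt)) := by
    intro g
    have e2 : x.pt = l • y.pt := by
      rw [e, pt_mul, hk0, Matrix.mulVec_smul]; rfl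
    rw [pt_mul, e2, Matrix.mulVec_smul, Matrix.mulVec_smul, Matrix.mulVec_smul, ← pt_mul,
      DM_hom hH.hom (pt_mem _).1 hl]
  simp only [e1]
  have hm1 : Measurable fun g : GU κ => DM H (g * y).pt (g.M *ᵥ (XM p *ᵥ y.pt)) i j - 
      XH H p (g * y) i j := by
    exact Measurable.sub (meas_Dy H y p i j) (hfm.comp (measurable_mul_const y))
  have hb1 : ∀ g ∈ B, |DM H (g * y).pt (g.M *ᵥ (XM p *ᵥ y.pt)) i j - XH H p (g * y) i j| ≤
      |L * η| := by
    intro g hg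
    have h1 : DM H (g * y).pt (g.M *ᵥ (XM p *ᵥ y.pt)) i j - XH H p (g * y) i j =
        DM H (g * y).pt (g.M *ᵥ (XM p *ᵥ y.pt) - (g * y).dir p) i j := by
      simp only [DM, XH, Matrix.of_apply, map_sub]
    rw [h1]
    refine (hLL (g * y).pt ⟨(g, y), ⟨hg, hy3⟩, rfl⟩ _ i j).trans ?_
    have h2 := hU2' g hg y hy2
    rw [abs_norm] at h2
    rw [abs_mul, abs_of_pos hη0]
    exact mul_le_mul (le_abs_self _) h2.le (norm_nonneg _) (abs_nonneg _)
  have hm2 : Measurable fun g : GU κ => XH H p (g * y) i j - XH H p g i j :=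
    (hfm.comp (measurable_mul_const y)).sub hfm
  obtain ⟨A1, hA1⟩ := hfb B hB
  obtain ⟨A2, hA2⟩ := hfb _ (hB.image (continuous_mul_const y))
  have hb2 : ∀ g ∈ B, |XH H p (g * y) i j - XH H p g i j| ≤ A2 + A1 := fun g hg =>
    (abs_sub _ _).trans (add_le_add (hA2 _ ⟨g, hg, rfl⟩) (hA1 g hg))
  have h3 := sq_add_le μ hB hm1 hm2 hb1 hb2
  have e3 : ∀ g : GU κ, DM H (g * y).pt (g.M *ᵥ (XM p *ᵥ y.pt)) i j - XH H p (g * y) i j +
      (XH H p (g * y) i j - XH H p g i j) =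
      DM H (g * y).pt (g.M *ᵥ (XM p *ᵥ y.pt)) i j - XH H p g i j := fun g => by ring
  simp only [e3] at h3
  refine h3.trans ?_
  have h4 := hU1' y hy1
  simp only [sq_abs] at h4
  have h5 : ∫ g in B, (DM H (g * y).pt (g.M *ᵥ (XM p *ᵥ y.pt)) i j -
      XH H p (g * y) i j) ^ 2 ∂μ ≤ ε / 4 := by
    refine le_trans ?_ hsm
    have h6 : ∫ g in B, (DM H (g * y).pt (g.M *ᵥ (XM p *ᵥ y.pt)) i j -
      XH H p (g * y) i j) ^ 2 ∂μ ≤ ∫ g in B, (L * η) ^ 2 ∂μ := by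
      refine integral_mono_of_nonneg (Eventually.of_forall fun _ => sq_nonneg _) ?_ ?_
      · exact integrableOn_const hB.measure_lt_top.ne
      · filter_upwards [ae_restrict_mem hB.measurableSet] with g hg
        have := hb1 g hg
        rw [← sq_abs (L * η), ← sq_abs (DM H (g * y).pt _ i j - _)]
        exact pow_le_pow_left₀ (abs_nonneg _) this 2
    refine h6.trans (le_of_eq ?_)
    rw [setIntegral_const, smul_eq_mul, mul_comm]
    rfl
  linarith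

theorem gradL (p : κ × Bool) (i j : n) {B : Set (GU κ)} (hB : IsCompact B) :
    Tendsto (fun k => ∫ g in B, |XH (mol μ (be k) H) p g i j - XH H p g i j| ^ 2 ∂μ) atTop
      (𝓝 0) := by
  refine tend0 fun ε hε => ?_
  obtain ⟨δ, hδ, hδ2⟩ := near_L2 hL μ hH p i j hB hε
  obtain ⟨A, hA⟩ := D_bdd hH hB (isCompact_c (κ := κ) 2) p i j
  obtain ⟨A', hA'⟩ := XH_bd hH p i j B hB
  filter_upwards [be_ev (κ := κ) hδ] with k hk
  simp only [sq_abs]
  rw [abs_of_nonneg (integral_nonneg fun _ => sq_nonneg _)]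
  have h1 := jens2 μ μ hB.measurableSet hB.measure_lt_top.ne (be_int μ k)
    (fun x => be_nonneg k _) (be_pos μ k) (meas_D H p i j) ((XH_bdd hH).1 p i j)
    (fun g hg x hx => hA g hg x (be_ne2 hx)) hA' (ε := ε) (fun x hx => hδ2 x (hk x hx))
  simp only [mol_deriv hL μ hH (be_smooth k) (be_supp k) (be_nonneg k) (be_one k)]
  exact h1

end


/-! ### null sequences -/

/-- measurable functions which are bounded on `B` -/
def Bk (B : Set (GU κ)) (f : ℕ → GU κ → ℝ) : Prop :=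
  (∀ k, Measurable (f k)) ∧ ∀ k, ∃ A : ℝ, ∀ g ∈ B, |f k g| ≤ A

/-- eventually uniformly bounded on `B` -/
def Ub (B : Set (GU κ)) (f : ℕ → GU κ → ℝ) : Prop :=
  Bk B f ∧ ∃ A : ℝ, 0 ≤ A ∧ ∀ᶠ k in atTop, ∀ g ∈ B, |f k g| ≤ A

/-- null sequences in the mean -/
def Nl (μ : Measure (GU κ)) (B : Set (GU κ)) (f : ℕ → GU κ → ℝ) : Prop :=
  Bk B f ∧ Tendsto (fun k => ∫ g in B, f k g ^ 2 ∂μ) atTop (𝓝 0)

theorem Bk.add {B : Set (GU κ)} {f f' : ℕ → GU κ → ℝ} (h : Bk B f) (h' : Bk B f') :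
    Bk B fun k g => f k g + f' k g := by
  refine ⟨fun k => (h.1 k).add (h'.1 k), fun k => ?_⟩
  obtain ⟨A, hA⟩ := h.2 k
  obtain ⟨A', hA'⟩ := h'.2 k
  exact ⟨A + A', fun g hg => (abs_add_le _ _).trans (add_le_add (hA g hg) (hA' g hg))⟩

theorem Bk.mul {B : Set (GU κ)} {f f' : ℕ → GU κ → ℝ} (h : Bk B f) (h' : Bk B f') :
    Bk B fun k g => f k g * f' k g := by
  refine ⟨fun k => (h.1 k).mul (h'.1 k), fun k => ?_⟩
  obtain ⟨A, hA⟩ := h.2 k
  obtain ⟨A', hA'⟩ := h'.2 k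
  refine ⟨|A| * |A'|, fun g hg => ?_⟩
  rw [abs_mul]
  exact mul_le_mul ((hA g hg).trans (le_abs_self _)) ((hA' g hg).trans (le_abs_self _))
    (abs_nonneg _) (abs_nonneg _)

theorem Bk.sum {β : Type} (s : Finset β) {B : Set (GU κ)} {f : β → ℕ → GU κ → ℝ}
    (h : ∀ b ∈ s, Bk B (f b)) : Bk B fun k g => ∑ b ∈ s, f b k g := by
  classical
  induction s using Finset.induction_on with
  | empty => exact ⟨fun k => by simp, fun k => ⟨0, fun g hg => by simp⟩⟩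
  | insert a s ha ih =>
    have h1 := (h a (Finset.mem_insert_self _ _)).add
      (ih fun b hb => h b (Finset.mem_insert_of_mem hb))
    simpa only [Finset.sum_insert ha] using h1

theorem Ub.mul {B : Set (GU κ)} {f f' : ℕ → GU κ → ℝ} (h : Ub B f) (h' : Ub B f') :
    Ub B fun k g => f k g * f' k g := by
  refine ⟨h.1.mul h'.1, ?_⟩
  obtain ⟨A, hA0, hA⟩ := h.2
  obtain ⟨A', hA0', hA'⟩ := h'.2
  refine ⟨A * A', mul_nonneg hA0 hA0', ?_⟩
  filter_upwards [hA, hA'] with k hk hk' g hg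
  rw [abs_mul]
  exact mul_le_mul (hk g hg) (hk' g hg) (abs_nonneg _) hA0

theorem Ub.add {B : Set (GU κ)} {f f' : ℕ → GU κ → ℝ} (h : Ub B f) (h' : Ub B f') :
    Ub B fun k g => f k g + f' k g := by
  refine ⟨h.1.add h'.1, ?_⟩
  obtain ⟨A, hA0, hA⟩ := h.2
  obtain ⟨A', hA0', hA'⟩ := h'.2
  refine ⟨A + A', add_nonneg hA0 hA0', ?_⟩
  filter_upwards [hA, hA'] with k hk hk' g hg
  exact (abs_add_le _ _).trans (add_le_add (hk g hg) (hk' g hg))

theorem Ub.const {B : Set (GU κ)} {f : GU κ → ℝ} (hf : Measurable f) {A : ℝ}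
    (hA : ∀ g ∈ B, |f g| ≤ A) : Ub B fun _ => f :=
  ⟨⟨fun _ => hf, fun _ => ⟨A, hA⟩⟩, |A|, abs_nonneg _,
    Eventually.of_forall fun _ g hg => (hA g hg).trans (le_abs_self _)⟩

theorem Bk.int (μ : Measure (GU κ)) [IsHaarMeasure μ] {B : Set (GU κ)} (hB : IsCompact B)
    {f : ℕ → GU κ → ℝ} (h : Bk B f) (k : ℕ) : IntegrableOn (f k) B μ := by
  obtain ⟨A, hA⟩ := h.2 k
  exact intB μ hB (h.1 k) hA

theorem Bk.int2 (μ : Measure (GU κ)) [IsHaarMeasure μ] {B : Set (GU κ)} (hB : IsCompact B)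
    {f : ℕ → GU κ → ℝ} (h : Bk B f) (k : ℕ) : IntegrableOn (fun g => f k g ^ 2) B μ := by
  have := (h.mul h).int μ hB k
  simpa only [pow_two] using this

theorem Nl.mul {μ : Measure (GU κ)} [IsHaarMeasure μ] {B : Set (GU κ)} (hB : IsCompact B)
    {f f' : ℕ → GU κ → ℝ} (h : Ub B f) (h' : Nl μ B f') : Nl μ B fun k g => f k g * f' k g := by
  refine ⟨h.1.mul h'.1, ?_⟩
  obtain ⟨A, hA0, hA⟩ := h.2
  have h1 : Tendsto (fun k => A ^ 2 * ∫ g in B, f' k g ^ 2 ∂μ) atTop (𝓝 0) := by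
    simpa using h'.2.const_mul (A ^ 2)
  refine squeeze_zero' (Eventually.of_forall fun k => integral_nonneg fun _ => sq_nonneg _) ?_ h1
  filter_upwards [hA] with k hk
  rw [← integral_const_mul]
  refine integral_mono_of_nonneg (Eventually.of_forall fun _ => sq_nonneg _)
    ((h'.1.int2 μ hB k).const_mul _) ?_
  filter_upwards [ae_restrict_mem hB.measurableSet] with g hg
  rw [mul_pow]
  refine mul_le_mul_of_nonneg_right ?_ (sq_nonneg _)
  rw [← sq_abs (f k g)]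
  exact pow_le_pow_left₀ (abs_nonneg _) (hk g hg) 2

theorem Nl.mul' {μ : Measure (GU κ)} [IsHaarMeasure μ] {B : Set (GU κ)} (hB : IsCompact B)
    {f f' : ℕ → GU κ → ℝ} (h : Nl μ B f) (h' : Ub B f') : Nl μ B fun k g => f k g * f' k g := by
  have := Nl.mul hB h' h
  simpa only [mul_comm] using this

theorem Nl.add {μ : Measure (GU κ)} [IsHaarMeasure μ] {B : Set (GU κ)} (hB : IsCompact B)
    {f f' : ℕ → GU κ → ℝ} (h : Nl μ B f) (h' : Nl μ B f') : Nl μ B fun k g => f k g + f' k g := by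
  refine ⟨h.1.add h'.1, ?_⟩
  have h1 : Tendsto (fun k => 2 * ∫ g in B, f k g ^ 2 ∂μ + 2 * ∫ g in B, f' k g ^ 2 ∂μ) atTop
      (𝓝 0) := by
    simpa using (h.2.const_mul 2).add (h'.2.const_mul 2)
  refine squeeze_zero (fun k => integral_nonneg fun _ => sq_nonneg _) (fun k => ?_) h1
  obtain ⟨A, hA⟩ := h.1.2 k
  obtain ⟨A', hA'⟩ := h'.1.2 k
  exact sq_add_le μ hB (h.1.1 k) (h'.1.1 k) hA hA'

theorem Nl.zero {μ : Measure (GU κ)} {B : Set (GU κ)} : Nl μ B fun _ _ => 0 :=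
  ⟨⟨fun k => measurable_const, fun k => ⟨0, fun g hg => by simp⟩⟩, by simp⟩

theorem Nl.sum {μ : Measure (GU κ)} [IsHaarMeasure μ] {β : Type} (s : Finset β) {B : Set (GU κ)}
    (hB : IsCompact B) {f : β → ℕ → GU κ → ℝ} (h : ∀ b ∈ s, Nl μ B (f b)) :
    Nl μ B fun k g => ∑ b ∈ s, f b k g := by
  classical
  induction s using Finset.induction_on with
  | empty => simpa using Nl.zero
  | insert a s ha ih =>
    have h1 := Nl.add hB (h a (Finset.mem_insert_self _ _))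
      (ih fun b hb => h b (Finset.mem_insert_of_mem hb))
    simpa only [Finset.sum_insert ha] using h1

theorem Nl.unif {μ : Measure (GU κ)} [IsHaarMeasure μ] {B : Set (GU κ)} (hB : IsCompact B)
    {f : ℕ → GU κ → ℝ} (h : Bk B f) (h' : ∀ ε > 0, ∀ᶠ k in atTop, ∀ g ∈ B, |f k g| ≤ ε) :
    Nl μ B f := by
  refine ⟨h, tend0 fun ε hε => ?_⟩
  set M : ℝ := (μ B).toReal with hM
  have hM0 : 0 ≤ M := ENNReal.toReal_nonneg
  set η : ℝ := min 1 (ε / (M + 1)) with hη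
  have hη0 : 0 < η := lt_min one_pos (by positivity)
  have hη1 : η ≤ 1 := min_le_left _ _
  have hη2 : η * (M + 1) ≤ ε := by
    have : η ≤ ε / (M + 1) := min_le_right _ _
    rwa [le_div_iff₀ (by positivity)] at this
  filter_upwards [h' η hη0] with k hk
  rw [abs_of_nonneg (integral_nonneg fun _ => sq_nonneg _)]
  have h6 : ∫ g in B, f k g ^ 2 ∂μ ≤ ∫ g in B, η ^ 2 ∂μ := by
    refine integral_mono_of_nonneg (Eventually.of_forall fun _ => sq_nonneg _) ?_ ?_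
    · exact integrableOn_const hB.measure_lt_top.ne
    · filter_upwards [ae_restrict_mem hB.measurableSet] with g hg
      rw [← sq_abs (f k g)]
      exact pow_le_pow_left₀ (abs_nonneg _) (hk g hg) 2
  refine h6.trans ?_
  rw [setIntegral_const, smul_eq_mul]
  have h7 : μ.real B = M := rfl
  rw [h7]
  nlinarith

theorem Nl.prod {μ : Measure (GU κ)} [IsHaarMeasure μ] {B : Set (GU κ)} (hB : IsCompact B)
    {f f' : ℕ → GU κ → ℝ} (h : Nl μ B f) (h' : Nl μ B f') :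
    Tendsto (fun k => ∫ g in B, f k g * f' k g ∂μ) atTop (𝓝 0) := by
  have h1 : Tendsto (fun k => (∫ g in B, f k g ^ 2 ∂μ) + ∫ g in B, f' k g ^ 2 ∂μ) atTop
      (𝓝 0) := by
    simpa using h.2.add h'.2
  refine squeeze_zero_norm (fun k => ?_) h1
  have e : (∫ g in B, f k g ^ 2 ∂μ) + ∫ g in B, f' k g ^ 2 ∂μ =
      ∫ g in B, (f k g ^ 2 + f' k g ^ 2) ∂μ :=
    (integral_add (h.1.int2 μ hB k) (h'.1.int2 μ hB k)).symm
  rw [e]
  refine norm_integral_le_of_norm_le ((h.1.int2 μ hB k).add (h'.1.int2 μ hB k))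
    (Eventually.of_forall fun g => ?_)
  rw [norm_mul, Real.norm_eq_abs, Real.norm_eq_abs]
  change |f k g| * |f' k g| ≤ f k g ^ 2 + f' k g ^ 2
  rw [← sq_abs (f k g), ← sq_abs (f' k g)]
  nlinarith [sq_nonneg (|f k g| - |f' k g|), abs_nonneg (f k g), abs_nonneg (f' k g)]

/-! ### inverses -/

theorem inv_cont {A : n → n → ℝ} (hA : (Matrix.of A).det ≠ 0) (i j : n) :
    ContinuousAt (fun A : n → n → ℝ => (Matrix.of A)⁻¹ i j) A := by
  have e : (fun A : n → n → ℝ => (Matrix.of A)⁻¹ i j) = fun A : n → n → ℝ =>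
      ((Matrix.of A).det)⁻¹ * (Matrix.of A).adjugate i j := by
    ext A
    rw [Matrix.inv_def, Ring.inverse_eq_inv']
    rfl
  rw [e]
  have hid : Continuous fun A : n → n → ℝ => (Matrix.of A : Matrix n n ℝ) := continuous_id
  refine ContinuousAt.mul (ContinuousAt.inv₀ hid.matrix_det.continuousAt hA) ?_
  exact ((continuous_apply j).comp ((continuous_apply i).comp hid.matrix_adjugate)).continuousAt

theorem inv_unif {K : Set (n → n → ℝ)} (hK : IsCompact K) (hd : ∀ A ∈ K, (Matrix.of A).det ≠ 0)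
    {ε : ℝ} (hε : 0 < ε) : ∃ δ > 0, ∀ A ∈ K, ∀ A' : n → n → ℝ, (∀ i j, |A' i j - A i j| ≤ δ) →
      ∀ i j, |(Matrix.of A')⁻¹ i j - (Matrix.of A)⁻¹ i j| ≤ ε := by
  have key : ∀ i j : n, ∃ δ > 0, ∀ A ∈ K, ∀ A' : n → n → ℝ, (∀ i j, |A' i j - A i j| ≤ δ) →
      |(Matrix.of A')⁻¹ i j - (Matrix.of A)⁻¹ i j| ≤ ε := by
    intro i j
    have h1 := hK.uniformContinuousAt_of_continuousAt
      (fun A : n → n → ℝ => (Matrix.of A)⁻¹ i j) (fun A hA => inv_cont (hd A hA) i j)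
      (Metric.dist_mem_uniformity hε)
    obtain ⟨δ, hδ, h2⟩ := Metric.mem_uniformity_dist.mp h1
    refine ⟨δ / 2, half_pos hδ, fun A hA A' hAA => ?_⟩
    have h3 : dist A A' < δ := by
      refine (dist_pi_lt_iff hδ).mpr fun a => (dist_pi_lt_iff hδ).mpr fun b => ?_
      rw [dist_comm, Real.dist_eq]
      have := hAA a b
      linarith
    have h4 := h2 h3 hA
    simp only [Set.mem_setOf_eq] at h4
    rw [dist_comm, Real.dist_eq] at h4
    exact h4.le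
  choose δ hδ hδ2 using key
  rcases isEmpty_or_nonempty n with h0 | h0
  · exact ⟨1, one_pos, fun A _ A' _ i => (h0.false i).elim⟩
  · refine ⟨Finset.univ.inf' Finset.univ_nonempty fun z : n × n => δ z.1 z.2, ?_, ?_⟩
    · rw [gt_iff_lt, Finset.lt_inf'_iff]
      exact fun z _ => hδ z.1 z.2
    · intro A hA A' hAA i j
      refine hδ2 i j A hA A' fun a b => (hAA a b).trans ?_
      exact Finset.inf'_le (fun z : n × n => δ z.1 z.2) (Finset.mem_univ (i, j))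


theorem sv_eq (g x : GU κ) : sv g.pt x.pt = c (g⁻¹ * x) ^ 2 := by
  have e : x.pt = g.M *ᵥ (g⁻¹ * x).pt := by rw [← pt_mul]; group
  have e2 : g.pt = g.M *ᵥ e0 := rfl
  rw [e, e2, sv_inv, sv_e0]

section

variable {σ : G →* GU κ} (hL : Lat σ) (μ : Measure (GU κ)) [IsHaarMeasure μ]
  {χ : GU κ → ℝ} {ρ : G →* Matrix n n ℝ}
  {H : (κ ⊕ Unit → ℂ) → Matrix n n ℝ} (hH : EqC σ ρ H)

omit [DecidableEq n] in
theorem avg_Bk {f : GU κ → ℝ} (hf : Measurable f)
    (hb : ∀ B, IsCompact B → ∃ A : ℝ, ∀ g ∈ B, |f g| ≤ A) {B : Set (GU κ)} (hB : IsCompact B) :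
    Bk B fun k g => (∫ x, be k (sv g.pt x.pt) * f x ∂μ) / (∫ x, be k (c x ^ 2) ∂μ) := by
  refine ⟨fun k => ?_, fun k => ?_⟩
  · refine Measurable.div_const ?_ _
    have h1 : Measurable fun z : GU κ × GU κ => be k (sv z.1.pt z.2.pt) * f z.2 := by
      refine Measurable.mul ?_ (hf.comp measurable_snd)
      simp only [sv_eq]
      refine Continuous.measurable ?_
      exact (be_cont k).comp (continuous_fst.inv.mul continuous_snd)
    exact (h1.stronglyMeasurable.integral_prod_right (ν := μ)).measurable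
  · obtain ⟨A, hA⟩ := hb _ ((hB.prod (isCompact_c (κ := κ) 2)).image
      (continuous_fst.mul continuous_snd))
    refine ⟨A, fun g hg => ?_⟩
    have e1 : ∫ x, be k (sv g.pt x.pt) * f x ∂μ = ∫ x, be k (c x ^ 2) * f (g * x) ∂μ := by
      rw [← integral_mul_left_eq_self (μ := μ) (fun x => be k (sv g.pt x.pt) * f x) g]
      simp only [sv_eq, inv_mul_cancel_left]
    beta_reduce
    rw [e1]
    have h2 := avg_est μ (be_int μ k) (fun x => be_nonneg k _) (be_pos μ k)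
      (f := fun x => f (g * x)) (a := 0) (ε := A)
      (hf.comp (measurable_const_mul g)).aestronglyMeasurable ?_
    · simpa using h2
    · intro x hx
      rw [sub_zero]
      exact hA (g * x) ⟨(g, x), ⟨hg, be_ne2 hx⟩, rfl⟩

theorem cont_inv {σ : G →* GU κ} {ρ : G →* Matrix n n ℝ} {H : (κ ⊕ Unit → ℂ) → Matrix n n ℝ}
    (hH : EqC σ ρ H) (i j : n) : Continuous fun g : GU κ => (H g.pt)⁻¹ i j := by
  rw [continuous_iff_continuousAt]
  intro g
  have h1 : Continuous fun g : GU κ => (fun i j => H g.pt i j : n → n → ℝ) :=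
    continuous_pi fun i => continuous_pi fun j => cont_Hg hH i j
  have h2 := inv_cont (A := fun i j => H g.pt i j) (hH.pos _ (pt_mem g).1).det_pos.ne' i j
  exact ContinuousAt.comp (g := fun A : n → n → ℝ => (Matrix.of A)⁻¹ i j)
    (f := fun g : GU κ => (fun i j => H g.pt i j : n → n → ℝ)) h2 h1.continuousAt

theorem bd_of_cont {f : GU κ → ℝ} (hf : Continuous f) {B : Set (GU κ)} (hB : IsCompact B) :
    ∃ A : ℝ, ∀ g ∈ B, |f g| ≤ A := by
  obtain ⟨A, hA⟩ := (hB.image hf.abs).bddAbove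
  exact ⟨A, fun g hg => hA ⟨g, hg, rfl⟩⟩

include hL hH

theorem hk_Ub {B : Set (GU κ)} (hB : IsCompact B) (i j : n) :
    Ub B fun k g => mol μ (be k) H g.pt i j := by
  have hc := fun k => cont_Hg (molc hL μ hH k) i j
  refine ⟨⟨fun k => (hc k).measurable, fun k => bd_of_cont (hc k) hB⟩, ?_⟩
  obtain ⟨A, hA⟩ := bd_of_cont (cont_Hg hH i j) hB
  refine ⟨|A| + 1, by positivity, ?_⟩
  filter_upwards [unif_g hL μ hH hB one_pos] with k hk g hg
  have h1 := hk g hg i j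
  have h2 := hA g hg
  have h3 := le_abs_self A
  have h4 : |mol μ (be k) H g.pt i j| ≤ |mol μ (be k) H g.pt i j - H g.pt i j| + |H g.pt i j| := by
    have := abs_add_le (mol μ (be k) H g.pt i j - H g.pt i j) (H g.pt i j)
    simpa using this
  linarith

theorem inv_conv {B : Set (GU κ)} (hB : IsCompact B) {ε : ℝ} (hε : 0 < ε) :
    ∀ᶠ k in atTop, ∀ g ∈ B, ∀ i j, |(mol μ (be k) H g.pt)⁻¹ i j - (H g.pt)⁻¹ i j| ≤ ε := by
  have h1 : Continuous fun g : GU κ => (fun i j => H g.pt i j : n → n → ℝ) :=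
    continuous_pi fun i => continuous_pi fun j => cont_Hg hH i j
  obtain ⟨δ, hδ, h2⟩ := inv_unif (hB.image h1) (by
    rintro A ⟨g, -, rfl⟩
    exact (hH.pos _ (pt_mem g).1).det_pos.ne') hε
  filter_upwards [unif_g hL μ hH hB hδ] with k hk g hg i j
  exact h2 _ ⟨g, hg, rfl⟩ (fun i j => mol μ (be k) H g.pt i j) (hk g hg) i j

theorem ik_Ub {B : Set (GU κ)} (hB : IsCompact B) (i j : n) :
    Ub B fun k g => (mol μ (be k) H g.pt)⁻¹ i j := by
  have hc := fun k => cont_inv (molc hL μ hH k) i j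
  refine ⟨⟨fun k => (hc k).measurable, fun k => bd_of_cont (hc k) hB⟩, ?_⟩
  obtain ⟨A, hA⟩ := bd_of_cont (cont_inv hH i j) hB
  refine ⟨|A| + 1, by positivity, ?_⟩
  filter_upwards [inv_conv hL μ hH hB one_pos] with k hk g hg
  have h1 := hk g hg i j
  have h2 := hA g hg
  have h3 := le_abs_self A
  have h4 : |(mol μ (be k) H g.pt)⁻¹ i j| ≤
      |(mol μ (be k) H g.pt)⁻¹ i j - (H g.pt)⁻¹ i j| + |(H g.pt)⁻¹ i j| := by
    have := abs_add_le ((mol μ (be k) H g.pt)⁻¹ i j - (H g.pt)⁻¹ i j) ((H g.pt)⁻¹ i j)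
    simpa using this
  linarith

theorem ik_Nl {B : Set (GU κ)} (hB : IsCompact B) (i j : n) :
    Nl μ B fun k g => (mol μ (be k) H g.pt)⁻¹ i j - (H g.pt)⁻¹ i j := by
  refine Nl.unif hB ⟨fun k => ((cont_inv (molc hL μ hH k) i j).sub
    (cont_inv hH i j)).measurable, fun k => bd_of_cont ((cont_inv (molc hL μ hH k) i j).sub
    (cont_inv hH i j)) hB⟩ fun ε hε => ?_
  filter_upwards [inv_conv hL μ hH hB hε] with k hk g hg using hk g hg i j

theorem Xk_Ub {B : Set (GU κ)} (hB : IsCompact B) (p : κ × Bool) (i j : n) :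
    Ub B fun k g => XH (mol μ (be k) H) p g i j := by
  obtain ⟨A, hA⟩ := grad_g hL μ hH hB
  exact ⟨⟨fun k => (XH_bdd (molc hL μ hH k)).1 p i j, fun k => ⟨A, fun g hg => hA k g hg p i j⟩⟩,
    |A|, abs_nonneg _, Eventually.of_forall fun k g hg => (hA k g hg p i j).trans (le_abs_self _)⟩

theorem Xk_Nl {B : Set (GU κ)} (hB : IsCompact B) (p : κ × Bool) (i j : n) :
    Nl μ B fun k g => XH (mol μ (be k) H) p g i j - XH H p g i j := by
  obtain ⟨A, hA⟩ := grad_g hL μ hH hB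
  obtain ⟨A', hA'⟩ := XH_bd hH p i j B hB
  refine ⟨⟨fun k => ((XH_bdd (molc hL μ hH k)).1 p i j).sub ((XH_bdd hH).1 p i j), fun k =>
    ⟨A + A', fun g hg => (abs_sub _ _).trans (add_le_add (hA k g hg p i j) (hA' g hg))⟩⟩, ?_⟩
  have := gradL hL μ hH p i j hB
  simpa only [sq_abs] using this

omit hL in
theorem X_Ub {B : Set (GU κ)} (hB : IsCompact B) (p : κ × Bool) (i j : n) :
    Ub B fun (_ : ℕ) g => XH H p g i j := by
  obtain ⟨A', hA'⟩ := XH_bd hH p i j B hB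
  exact Ub.const ((XH_bdd hH).1 p i j) hA'

omit hL in
theorem i_Ub {B : Set (GU κ)} (hB : IsCompact B) (i j : n) :
    Ub B fun (_ : ℕ) (g : GU κ) => (H g.pt)⁻¹ i j := by
  obtain ⟨A', hA'⟩ := bd_of_cont (cont_inv hH i j) hB
  exact Ub.const (cont_inv hH i j).measurable hA'

omit hL hH in
theorem QH_apply (H : (κ ⊕ Unit → ℂ) → Matrix n n ℝ) (g : GU κ) (i j : n) :
    QH H g i j = ∑ p, ∑ b, ∑ a, XH H p g i a * (H g.pt)⁻¹ a b * XH H p g b j := by
  unfold QH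
  rw [Matrix.sum_apply]
  refine Finset.sum_congr rfl fun p _ => ?_
  rw [Matrix.mul_apply]
  refine Finset.sum_congr rfl fun b _ => ?_
  rw [Matrix.mul_apply, Finset.sum_mul]

theorem Q_Nl {B : Set (GU κ)} (hB : IsCompact B) (i j : n) :
    Nl μ B fun k g => QH H g i j - QH (mol μ (be k) H) g i j := by
  have key : ∀ (p : κ × Bool) (a b : n), Nl μ B fun k g =>
      XH (mol μ (be k) H) p g i a * (mol μ (be k) H g.pt)⁻¹ a b * XH (mol μ (be k) H) p g b j -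
        XH H p g i a * (H g.pt)⁻¹ a b * XH H p g b j := by
    intro p a b
    have h1 := Nl.mul' hB (Nl.mul' hB (Xk_Nl hL μ hH hB p i a) (ik_Ub hL μ hH hB a b))
      (Xk_Ub hL μ hH hB p b j)
    have h2 := Nl.mul' hB (Nl.mul hB (X_Ub hH hB p i a) (ik_Nl hL μ hH hB a b))
      (Xk_Ub hL μ hH hB p b j)
    have h3 := Nl.mul hB (Ub.mul (X_Ub hH hB p i a) (i_Ub hH hB a b))
      (Xk_Nl hL μ hH hB p b j)
    have h4 := Nl.add hB (Nl.add hB h1 h2) h3
    refine (congrArg (Nl μ B) ?_).mp h4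
    funext k g
    ring
  have h5 := Nl.sum Finset.univ hB fun p _ => Nl.sum Finset.univ hB fun b _ =>
    Nl.sum Finset.univ hB fun a _ => key p a b
  have h6 := Nl.mul hB (Ub.const (B := B) (f := fun _ => (-1 : ℝ)) measurable_const (A := 1)
    (fun g _ => by simp)) h5
  refine (congrArg (Nl μ B) ?_).mp h6
  funext k g
  rw [QH_apply, QH_apply]
  simp only [Finset.sum_sub_distrib]
  ring

omit hL in
theorem QH_bd (i j : n) (B : Set (GU κ)) (hB : IsCompact B) :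
    ∃ A : ℝ, ∀ g ∈ B, |QH H g i j| ≤ A := by
  have key : ∀ (p : κ × Bool) (a b : n), Bk B fun (_ : ℕ) g =>
      XH H p g i a * (H g.pt)⁻¹ a b * XH H p g b j := fun p a b =>
    (((X_Ub hH hB p i a).mul (i_Ub hH hB a b)).mul (X_Ub hH hB p b j)).1
  have h5 := Bk.sum Finset.univ fun p _ => Bk.sum Finset.univ fun b _ =>
    Bk.sum Finset.univ fun a _ => key p a b
  obtain ⟨A, hA⟩ := h5.2 0
  refine ⟨A, fun g hg => ?_⟩
  rw [QH_apply]
  exact hA g hg

theorem A_Nl {B : Set (GU κ)} (hB : IsCompact B) (i j : n) :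
    Nl μ B fun k g => (∫ x, be k (sv g.pt x.pt) * QH H x i j ∂μ) / (∫ x, be k (c x ^ 2) ∂μ) -
      QH H g i j := by
  haveI := right_inv hL μ
  haveI := inv_inv' hL μ
  have hm := (XH_bdd hH).2.2.1 i j
  have h1 := avg_Bk μ hm (QH_bd hH i j) hB
  obtain ⟨A, hA⟩ := QH_bd hH i j B hB
  refine ⟨⟨fun k => (h1.1 k).sub hm, fun k => ?_⟩, ?_⟩
  · obtain ⟨A', hA'⟩ := h1.2 k
    exact ⟨A' + A, fun g hg => (abs_sub _ _).trans (add_le_add (hA' g hg) (hA g hg))⟩
  · have h2 := avg_tendsto μ hm (QH_bd hH i j) (fun g k hk => by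
      rw [(XH_bdd hH).2.2.2 g k hk]) be (fun k => (be_smooth k).continuous) be_nonneg be_one
      be_zero' B hB
    simpa only [sq_abs] using h2

end


theorem map_inv' {h : Matrix n n ℝ} (hd : IsUnit h.det) :
    (h.map ((↑) : ℝ → ℂ))⁻¹ = (h⁻¹).map ((↑) : ℝ → ℂ) := by
  refine Matrix.inv_eq_right_inv ?_
  have e := (Matrix.map_mul (L := h) (M := h⁻¹) (f := Complex.ofRealHom)).symm
  rw [Matrix.mul_nonsing_inv h hd] at e
  refine e.trans ?_
  ext i j
  by_cases hij : i = j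
  · subst hij; simp
  · simp [hij]

theorem nm_real (H : (κ ⊕ Unit → ℂ) → Matrix n n ℝ) (v : κ ⊕ Unit → ℂ)
    (hd : IsUnit (H v).det) (E : Matrix n n ℝ) :
    nm H v ((1 / 8 : ℂ) • ((cH H v)⁻¹ * E.map ((↑) : ℝ → ℂ))) =
      (((1 / 8 : ℝ) • ((H v)⁻¹ * E)) * (H v)⁻¹ * ((1 / 8 : ℝ) • ((H v)⁻¹ * E))ᵀ * H v).trace := by
  have mm : ∀ A B : Matrix n n ℝ, A.map ((↑) : ℝ → ℂ) * B.map ((↑) : ℝ → ℂ) =
      (A * B).map ((↑) : ℝ → ℂ) := fun A B =>
    (Matrix.map_mul (L := A) (M := B) (f := Complex.ofRealHom)).symm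
  unfold nm cH
  rw [map_inv' hd, mm]
  have e1 : (1 / 8 : ℂ) • ((H v)⁻¹ * E).map ((↑) : ℝ → ℂ) =
      ((1 / 8 : ℝ) • ((H v)⁻¹ * E)).map ((↑) : ℝ → ℂ) := by
    ext i j
    simp [Matrix.map_apply, Matrix.smul_apply]
  have e2 : ∀ A : Matrix n n ℝ, (A.map ((↑) : ℝ → ℂ))ᴴ = (Aᵀ).map ((↑) : ℝ → ℂ) := by
    intro A
    ext i j
    simp [Matrix.map_apply, Matrix.conjTranspose_apply]
  rw [e1, e2, mm, mm, mm]
  have e3 : ∀ A : Matrix n n ℝ, (A.map ((↑) : ℝ → ℂ)).trace.re = A.trace := by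
    intro A
    simp [Matrix.trace]
  exact e3 _

theorem trace_four (A B C D : Matrix n n ℝ) : (A * B * Cᵀ * D).trace =
    ∑ a, ∑ d, ∑ c, ∑ b, A a b * B b c * C d c * D d a := by
  rw [Matrix.trace]
  refine Finset.sum_congr rfl fun a _ => ?_
  rw [Matrix.diag_apply, Matrix.mul_apply]
  refine Finset.sum_congr rfl fun d _ => ?_
  rw [Matrix.mul_apply, Finset.sum_mul]
  refine Finset.sum_congr rfl fun c _ => ?_
  rw [Matrix.mul_apply, Finset.sum_mul, Finset.sum_mul]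
  rfl

theorem sum_lim (μ : Measure (GU κ)) [IsHaarMeasure μ] {β : Type} (s : Finset β)
    {B : Set (GU κ)} (hB : IsCompact B) {f : β → ℕ → GU κ → ℝ} (h : ∀ b ∈ s, Bk B (f b) ∧
      Tendsto (fun k => ∫ g in B, f b k g ∂μ) atTop (𝓝 0)) :
    Bk B (fun k g => ∑ b ∈ s, f b k g) ∧
      Tendsto (fun k => ∫ g in B, ∑ b ∈ s, f b k g ∂μ) atTop (𝓝 0) := by
  refine ⟨Bk.sum s fun b hb => (h b hb).1, ?_⟩
  have e : ∀ k, ∫ g in B, ∑ b ∈ s, f b k g ∂μ = ∑ b ∈ s, ∫ g in B, f b k g ∂μ := fun k =>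
    integral_finset_sum s fun b hb => (h b hb).1.int μ hB k
  simp only [e]
  have := tendsto_finset_sum s fun b hb => (h b hb).2
  simpa using this

section

variable {σ : G →* GU κ} (hL : Lat σ) (μ : Measure (GU κ)) [IsHaarMeasure μ]
  {χ : GU κ → ℝ} (hχ : Cut σ χ) {ρ : G →* Matrix n n ℝ}
  {H : (κ ⊕ Unit → ℂ) → Matrix n n ℝ} (hH : EqC σ ρ H)
  (hw : ∀ β : ℝ → ℝ, ContDiff ℝ ∞ β → HasCompactSupport β → ∀ v ∈ Cn κ, ∀ i j,
      ∫ g, LL (Fintype.card κ) β (sv v g.pt) * H g.pt i j ∂μ =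
        ∫ g, β (sv v g.pt) * QH H g i j ∂μ)

include hL hH hw

theorem E_Nl {B : Set (GU κ)} (hB : IsCompact B) (i j : n) :
    Nl μ B fun k g => ((∑ p, DM (fun v => DM (mol μ (be k) H) v (g.dir p)) g.pt (g.dir p)) -
      QH (mol μ (be k) H) g) i j := by
  have h1 := Nl.add hB (A_Nl hL μ hH hB i j) (Q_Nl hL μ hH hB i j)
  refine (congrArg (Nl μ B) ?_).mp h1
  funext k g
  rw [Matrix.sub_apply, Matrix.sum_apply,
    mol_lap hL μ hH (be_smooth k) (be_supp k) (be_nonneg k) (be_one k) hw g i j]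
  ring

theorem T_Nl {B : Set (GU κ)} (hB : IsCompact B) (i j : n) :
    Nl μ B fun k g => ((1 / 8 : ℝ) • ((mol μ (be k) H g.pt)⁻¹ *
      ((∑ p, DM (fun v => DM (mol μ (be k) H) v (g.dir p)) g.pt (g.dir p)) -
      QH (mol μ (be k) H) g))) i j := by
  have h1 := Nl.sum Finset.univ hB fun a _ => Nl.mul hB (ik_Ub hL μ hH hB i a)
    (E_Nl hL μ hH hw hB a j)
  have h2 := Nl.mul hB (Ub.const (B := B) (f := fun _ => (1 / 8 : ℝ)) measurable_const (A := 1 / 8)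
    (fun g _ => by norm_num)) h1
  refine (congrArg (Nl μ B) ?_).mp h2
  funext k g
  rw [Matrix.smul_apply, smul_eq_mul, Matrix.mul_apply]

include hχ

theorem tens : Tendsto (fun k => ∫ g, χ g * nm (mol μ (be k) H) g.pt
    (∑ a, tt (mol μ (be k) H) (g.M *ᵥ ej a) (g.M *ᵥ ej a) g.pt) ∂μ) atTop (𝓝 0) := by
  obtain ⟨R, hR⟩ := hχ.supp
  set B : Set (GU κ) := {g | c g ≤ R} with hBd
  have hB : IsCompact B := isCompact_c R
  obtain ⟨X, hX⟩ := bd_of_cont hχ.cont hB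
  have hχU : Ub B fun (_ : ℕ) g => χ g := Ub.const hχ.cont.measurable hX
  have e1 : ∀ k, ∫ g, χ g * nm (mol μ (be k) H) g.pt
      (∑ a, tt (mol μ (be k) H) (g.M *ᵥ ej a) (g.M *ᵥ ej a) g.pt) ∂μ =
      ∫ g in B, χ g * nm (mol μ (be k) H) g.pt
      (∑ a, tt (mol μ (be k) H) (g.M *ᵥ ej a) (g.M *ᵥ ej a) g.pt) ∂μ := by
    intro k
    refine (setIntegral_eq_integral_of_forall_compl_eq_zero fun g hg => ?_).symm
    have : χ g = 0 := by
      by_contra h
      exact hg (hR g h)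
    rw [this, zero_mul]
  simp only [e1]
  have e2 : ∀ k g, χ g * nm (mol μ (be k) H) g.pt
      (∑ a, tt (mol μ (be k) H) (g.M *ᵥ ej a) (g.M *ᵥ ej a) g.pt) =
      ∑ a, ∑ d, ∑ c, ∑ b, (χ g * (((1 / 8 : ℝ) • ((mol μ (be k) H g.pt)⁻¹ *
      ((∑ p, DM (fun v => DM (mol μ (be k) H) v (g.dir p)) g.pt (g.dir p)) -
      QH (mol μ (be k) H) g))) a b * (mol μ (be k) H g.pt)⁻¹ b c * mol μ (be k) H g.pt d a)) *
      ((1 / 8 : ℝ) • ((mol μ (be k) H g.pt)⁻¹ *
      ((∑ p, DM (fun v => DM (mol μ (be k) H) v (g.dir p)) g.pt (g.dir p)) -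
      QH (mol μ (be k) H) g))) d c := by
    intro k g
    rw [tens_formula (molc hL μ hH k) (mol_smooth hL μ hH (be_smooth k) (be_supp k)) g,
      nm_real _ _ ((molc hL μ hH k).pos _ (pt_mem g).1).det_pos.ne'.isUnit, trace_four]
    simp only [Finset.mul_sum]
    refine Finset.sum_congr rfl fun a _ => Finset.sum_congr rfl fun d _ =>
      Finset.sum_congr rfl fun c _ => Finset.sum_congr rfl fun b _ => ?_
    ring
  simp only [e2]
  refine (sum_lim μ Finset.univ hB fun a _ => sum_lim μ Finset.univ hB fun d _ =>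
    sum_lim μ Finset.univ hB fun c _ => sum_lim μ Finset.univ hB fun b _ => ?_).2
  have h1 := Nl.mul hB hχU (Nl.mul' hB (Nl.mul' hB (T_Nl hL μ hH hw hB a b)
    (ik_Ub hL μ hH hB b c)) (hk_Ub hL μ hH hB d a))
  have h2 := T_Nl hL μ hH hw hB d c
  exact ⟨h1.1.mul h2.1, Nl.prod hB h1 h2⟩

end

end ApproxAux

open ApproxAux

/-- module APPROX: assembly -/
theorem exists_approx (hκ : 0 < Fintype.card κ) {σ : G →* GU κ} (hL : Lat σ)
    (μ : Measure (GU κ)) [IsHaarMeasure μ] {χ : GU κ → ℝ} (hχ : Cut σ χ)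
    (ρ : G →* Matrix n n ℝ) {H : (κ ⊕ Unit → ℂ) → Matrix n n ℝ} (hH : EqC σ ρ H)
    (hw : ∀ β : ℝ → ℝ, ContDiff ℝ ∞ β → HasCompactSupport β → ∀ v ∈ Cn κ, ∀ i j,
      ∫ g, LL (Fintype.card κ) β (sv v g.pt) * H g.pt i j ∂μ =
        ∫ g, β (sv v g.pt) * QH H g i j ∂μ) :
    ∃ Hk, Approx μ χ σ ρ H Hk :=
  ⟨fun k => mol μ (be k) H,
    { eqc := fun k => molc hL μ hH k
      sm := fun k => mol_smooth hL μ hH (be_smooth k) (be_supp k)
      unif := fun C hC hCc ε hε => unif_C hL μ hH hC hCc hε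
      grad := fun C hC hCc => grad_C hL μ hH hC hCc
      gradL := fun B hB p i j => gradL hL μ hH p i j hB
      tens := tens hL μ hχ hH hw }⟩

end Pool.Agent.MPd01a95
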