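import Mathlib
import Pool.Agent.Lib.MP_d01a95_gt_H.HDefs
import Pool.Agent.Lib.MP_d01a95_gt_H.Unimod
import Pool.Agent.Lib.MP_d01a95_gt_H.Cone

/-! Module BASE of project HARMONIC (helper74): a locally Lipschitz equivariant map. -/

set_option autoImplicit false
set_option linter.all false

open Matrix Filter Topology MeasureTheory Measure
open scoped ENNReal NNReal ContDiff

namespace Pool.Agent.MPd01a95

open GU

variable {κ n ι α : Type} [Fintype κ] [DecidableEq κ] [Fintype n] [DecidableEq n]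
  [Fintype ι] [DecidableEq ι] [Fintype α] [DecidableEq α] {G : Type} [Group G]

namespace BaseAux

/-! ### local Lipschitz conditions -/

/-- Lipschitz near a point. -/
def LL1 {E : Type} [PseudoEMetricSpace E] (f : E → ℝ) (v : E) : Prop :=
  ∃ L : ℝ≥0, ∃ U ∈ 𝓝 v, LipschitzOnWith L f U

theorem LL1.comp {E : Type} [PseudoEMetricSpace E] {f : E → ℝ} {v : E} (hf : LL1 f v)
    {K : ℝ≥0} {g : ℝ → ℝ} (hg : LipschitzWith K g) : LL1 (fun w => g (f w)) v := by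
  obtain ⟨L, U, hU, h⟩ := hf
  exact ⟨K * L, U, hU, hg.comp_lipschitzOnWith h⟩

theorem LL1.add {E : Type} [PseudoEMetricSpace E] {f g : E → ℝ} {v : E} (hf : LL1 f v)
    (hg : LL1 g v) : LL1 (fun w => f w + g w) v := by
  obtain ⟨L, U, hU, h⟩ := hf
  obtain ⟨L', U', hU', h'⟩ := hg
  exact ⟨L + L', U ∩ U', inter_mem hU hU',
    (h.mono Set.inter_subset_left).add (h'.mono Set.inter_subset_right)⟩

theorem LL1.mul_const {E : Type} [PseudoEMetricSpace E] {f : E → ℝ} {v : E} (hf : LL1 f v)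
    (b : ℝ) : LL1 (fun w => f w * b) v := by
  apply hf.comp (K := ‖b‖₊) (g := fun x => x * b)
  apply LipschitzWith.of_dist_le_mul
  intro x y
  rw [Real.dist_eq, Real.dist_eq, ← sub_mul, abs_mul, coe_nnnorm, Real.norm_eq_abs, mul_comm]

theorem LL1.sum {E β : Type} [PseudoEMetricSpace E] {v : E} (s : Finset β) (f : β → E → ℝ)
    (hf : ∀ b ∈ s, LL1 (f b) v) : LL1 (fun w => ∑ b ∈ s, f b w) v := by
  classical
  induction s using Finset.induction_on with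
  | empty =>
    refine ⟨0, Set.univ, univ_mem, ?_⟩
    simp only [Finset.sum_empty]
    exact (LipschitzWith.const 0).lipschitzOnWith
  | insert b s hb ih =>
    simp only [Finset.sum_insert hb]
    exact (hf b (Finset.mem_insert_self b s)).add
      (ih fun b' hb' => hf b' (Finset.mem_insert_of_mem hb'))

theorem LL1.congr {E : Type} [PseudoEMetricSpace E] {f g : E → ℝ} {v : E} (hf : LL1 f v)
    (h : ∀ᶠ w in 𝓝 v, g w = f w) : LL1 g v := by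
  obtain ⟨L, U, hU, h1⟩ := hf
  refine ⟨L, U ∩ {w | g w = f w}, inter_mem hU h, ?_⟩
  intro x hx y hy
  rw [hx.2, hy.2]
  exact h1 hx.1 hy.1

theorem LL1.unif {E β : Type} [Fintype β] [PseudoEMetricSpace E] {v : E} (f : β → E → ℝ)
    (hf : ∀ b, LL1 (f b) v) : ∃ L : ℝ≥0, ∃ U ∈ 𝓝 v, ∀ b, LipschitzOnWith L (f b) U := by
  choose L U hU h using hf
  refine ⟨∑ b, L b, ⋂ b, U b, Filter.iInter_mem.2 hU, fun b => ?_⟩
  refine ((h b).mono (Set.iInter_subset _ b)).weaken ?_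
  exact Finset.single_le_sum (f := L) (fun _ _ => bot_le) (Finset.mem_univ b)

/-! ### the function `sv` -/

theorem nqC_cd {k : WithTop ℕ∞} : ContDiff ℝ k (LowAux.nqC : (κ ⊕ Unit → ℂ) → ℝ) := by
  unfold LowAux.nqC
  have h : ∀ i : κ ⊕ Unit, ContDiff ℝ k (fun v : κ ⊕ Unit → ℂ => ‖v i‖ ^ 2) := fun i =>
    (contDiff_apply ℝ ℂ i).norm_sq ℝ
  exact (h _).sub (ContDiff.sum fun i _ => h _)

theorem hf_cd {k : WithTop ℕ∞} (p : κ ⊕ Unit → ℂ) :
    ContDiff ℝ k (fun v : κ ⊕ Unit → ℂ => hf v p) := by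
  unfold hf
  have h : ∀ i : κ ⊕ Unit, ContDiff ℝ k (fun v : κ ⊕ Unit → ℂ => star (v i)) := fun i =>
    (starL' ℝ : ℂ ≃L[ℝ] ℂ).contDiff.comp (contDiff_apply ℝ ℂ i)
  exact ((h _).mul contDiff_const).sub (ContDiff.sum fun i _ => (h _).mul contDiff_const)

theorem sv_LL1 (p : κ ⊕ Unit → ℂ) (hp : p ∈ Cn κ) (v : κ ⊕ Unit → ℂ) (hv : v ∈ Cn κ) :
    LL1 (fun w => sv w p) v := by
  have h1 : ContDiffAt ℝ 1 (fun w : κ ⊕ Unit → ℂ => sv w p) v := by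
    unfold sv
    refine ContDiffAt.div ((hf_cd p).norm_sq ℝ).contDiffAt
      (nqC_cd.mul contDiff_const).contDiffAt ?_
    have a1 : 0 < LowAux.nqC v := hv
    have a2 : 0 < LowAux.nqC p := hp
    positivity
  exact h1.exists_lipschitzOnWith

theorem sv_pt (g h : GU κ) : sv g.pt h.pt = c (g⁻¹ * h) ^ 2 := by
  rw [← sv_e0, ← sv_inv g⁻¹ g.pt h.pt]
  congr 1
  · rw [GU.pt, Matrix.mulVec_mulVec, inv_mul_M, Matrix.one_mulVec]
  · rw [GU.pt, GU.pt, Matrix.mulVec_mulVec, M_mul]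

/-- the cut off -/
noncomputable def ps (R : ℝ) (s : ℝ) : ℝ := max 0 (R - s)

theorem ps_lip (R : ℝ) : LipschitzWith 1 (ps R) := by
  apply LipschitzWith.of_dist_le_mul
  intro x y
  rw [Real.dist_eq, Real.dist_eq, NNReal.coe_one, one_mul]
  unfold ps
  have h := abs_max_sub_max_le_max 0 (R - x) 0 (R - y)
  refine h.trans ?_
  rw [sub_self, abs_zero]
  apply max_le (abs_nonneg _)
  rw [show R - x - (R - y) = -(x - y) by ring, abs_neg]

theorem ps_nonneg (R s : ℝ) : 0 ≤ ps R s := le_max_left _ _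

theorem ps_zero {R s : ℝ} (h : R ≤ s) : ps R s = 0 := max_eq_left (by linarith)

theorem ps_pos {R s : ℝ} (h : s < R) : 0 < ps R s := lt_of_lt_of_le (by linarith) (le_max_right _ _)

/-- Local finiteness. -/
theorem loc_fin {σ : G →* GU κ} (hL : Lat σ) (R : ℝ) (C : Set (κ ⊕ Unit → ℂ)) (hC : C ⊆ Cn κ)
    (hCc : IsCompact C) : {γ : G | ∃ v ∈ C, ps R (sv v (σ γ).pt) ≠ 0}.Finite := by
  obtain ⟨S, hS⟩ := compact_lift C hC hCc
  refine (hL.finite_c (2 * S * Real.sqrt R)).subset ?_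
  rintro γ ⟨v, hv, hne⟩
  obtain ⟨g, l, hl, hvg⟩ := exists_pt v (hC hv)
  have h1 : c g ≤ S := hS g ⟨l, hl, hvg ▸ hv⟩
  have h2 : sv v (σ γ).pt = c (g⁻¹ * σ γ) ^ 2 := by
    rw [hvg, ← sv_pt, ← sv_smul hl one_ne_zero g.pt (σ γ).pt, one_smul]
  rw [h2] at hne
  have h3 : c (g⁻¹ * σ γ) ^ 2 < R := by
    by_contra hcon
    exact hne (ps_zero (not_lt.1 hcon))
  have h4 : c (g⁻¹ * σ γ) ≤ Real.sqrt R := Real.le_sqrt_of_sq_le h3.le
  have h5 := c_mul g (g⁻¹ * σ γ)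
  rw [mul_inv_cancel_left] at h5
  have h6 := c_ge_one g
  have h7 := c_ge_one (g⁻¹ * σ γ)
  show c (σ γ) ≤ 2 * S * Real.sqrt R
  have h8 : 0 ≤ Real.sqrt R := Real.sqrt_nonneg R
  nlinarith

/-- the term of a group element -/
noncomputable def tm (σ : G →* GU κ) (ρ : G →* Matrix n n ℝ) (R : ℝ) (v : κ ⊕ Unit → ℂ) (γ : G) :
    Matrix n n ℝ := ps R (sv v (σ γ).pt) • ((ρ γ⁻¹)ᵀ * ρ γ⁻¹)

/-- the map -/
noncomputable def HB (σ : G →* GU κ) (ρ : G →* Matrix n n ℝ) (R : ℝ) (v : κ ⊕ Unit → ℂ) :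
    Matrix n n ℝ := ∑ᶠ γ, tm σ ρ R v γ

theorem tm_zero {σ : G →* GU κ} {ρ : G →* Matrix n n ℝ} {R : ℝ} {v : κ ⊕ Unit → ℂ} {γ : G}
    (h : tm σ ρ R v γ ≠ 0) : ps R (sv v (σ γ).pt) ≠ 0 := by
  intro h0
  apply h
  unfold tm
  rw [h0, zero_smul]

theorem HB_eq {σ : G →* GU κ} (ρ : G →* Matrix n n ℝ) (R : ℝ) {C : Set (κ ⊕ Unit → ℂ)}
    (hfin : {γ : G | ∃ v ∈ C, ps R (sv v (σ γ).pt) ≠ 0}.Finite) {v : κ ⊕ Unit → ℂ} (hv : v ∈ C) :
    HB σ ρ R v = ∑ γ ∈ hfin.toFinset, tm σ ρ R v γ := by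
  apply finsum_eq_sum_of_support_subset
  intro γ hγ
  simp only [Set.Finite.coe_toFinset, Set.mem_setOf_eq]
  exact ⟨v, hv, tm_zero hγ⟩

theorem tm_fin {σ : G →* GU κ} (hL : Lat σ) (ρ : G →* Matrix n n ℝ) (R : ℝ)
    {v : κ ⊕ Unit → ℂ} (hv : v ∈ Cn κ) : (Function.support (tm σ ρ R v)).Finite := by
  refine (loc_fin hL R {v} (Set.singleton_subset_iff.2 hv) isCompact_singleton).subset ?_
  intro γ hγ
  exact ⟨v, rfl, tm_zero hγ⟩

theorem tm_psd (σ : G →* GU κ) (ρ : G →* Matrix n n ℝ) (R : ℝ) (v : κ ⊕ Unit → ℂ) (γ : G) :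
    (tm σ ρ R v γ).PosSemidef := by
  unfold tm
  refine Matrix.PosSemidef.smul ?_ (ps_nonneg _ _)
  have := Matrix.posSemidef_conjTranspose_mul_self (ρ γ⁻¹)
  rwa [Matrix.conjTranspose_eq_transpose_of_trivial] at this

theorem tm_pd (σ : G →* GU κ) (ρ : G →* Matrix n n ℝ) (R : ℝ) (v : κ ⊕ Unit → ℂ) (γ : G)
    (h : 0 < ps R (sv v (σ γ).pt)) : (tm σ ρ R v γ).PosDef := by
  unfold tm
  refine Matrix.PosDef.smul ?_ h
  have h1 : Function.Injective (ρ γ⁻¹).mulVec := by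
    intro x y hxy
    have h2 : ρ γ * ρ γ⁻¹ = 1 := by rw [← map_mul, mul_inv_cancel, map_one]
    have h3 := congrArg (fun z => ρ γ *ᵥ z) hxy
    simp only [Matrix.mulVec_mulVec] at h3
    rwa [h2, Matrix.one_mulVec, Matrix.one_mulVec] at h3
  have := Matrix.PosDef.conjTranspose_mul_self (ρ γ⁻¹) h1
  rwa [Matrix.conjTranspose_eq_transpose_of_trivial] at this

end BaseAux

open BaseAux in
/-- module BASE: a smooth equivariant map -/
theorem exists_base {σ : G →* GU κ} (hL : Lat σ) (ρ : G →* Matrix n n ℝ) :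
    ∃ H : (κ ⊕ Unit → ℂ) → Matrix n n ℝ, EqC σ ρ H := by
  classical
  obtain ⟨R, hR⟩ := hL.coc
  refine ⟨HB σ ρ (R ^ 2 + 1), ?_, ?_, ?_, ?_⟩
  · intro v hv
    obtain ⟨g, l, hl, hvg⟩ := exists_pt v hv
    obtain ⟨γ, hγ⟩ := hR g
    have h1 : sv v (σ γ⁻¹).pt = c (σ γ * g) ^ 2 := by
      rw [hvg, ← c_inv (σ γ * g), _root_.mul_inv_rev, ← map_inv, ← sv_pt,
        ← sv_smul hl one_ne_zero g.pt (σ γ⁻¹).pt, one_smul]
    have h2 : 0 < ps (R ^ 2 + 1) (sv v (σ γ⁻¹).pt) := by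
      apply ps_pos
      rw [h1]
      have := c_ge_one (σ γ * g)
      nlinarith
    have hfin := loc_fin hL (R ^ 2 + 1) {v} (Set.singleton_subset_iff.2 hv) isCompact_singleton
    rw [HB_eq ρ (R ^ 2 + 1) hfin (Set.mem_singleton v)]
    have hmem : γ⁻¹ ∈ hfin.toFinset := by
      rw [Set.Finite.mem_toFinset]
      exact ⟨v, rfl, h2.ne'⟩
    rw [← Finset.add_sum_erase _ _ hmem]
    refine (tm_pd σ ρ _ v γ⁻¹ h2).add_posSemidef ?_
    exact Matrix.posSemidef_sum _ fun γ' _ => tm_psd σ ρ _ v γ'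
  · intro v hv l hl
    unfold HB
    congr 1
    funext γ
    unfold tm
    rw [show sv (l • v) (σ γ).pt = sv v (σ γ).pt from by
      rw [← sv_smul hl one_ne_zero v (σ γ).pt, one_smul]]
  · intro δ v hv
    unfold HB
    have h1 : (∑ᶠ γ, tm σ ρ (R ^ 2 + 1) ((σ δ).M *ᵥ v) γ) =
        ∑ᶠ γ, tm σ ρ (R ^ 2 + 1) ((σ δ).M *ᵥ v) (δ * γ) :=
      (finsum_comp_equiv (Equiv.mulLeft δ)).symm
    rw [h1]
    have h2 : ∀ γ, tm σ ρ (R ^ 2 + 1) ((σ δ).M *ᵥ v) (δ * γ) =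
        (ρ δ⁻¹)ᵀ * tm σ ρ (R ^ 2 + 1) v γ * ρ δ⁻¹ := by
      intro γ
      unfold tm
      have h3 : (σ (δ * γ)).pt = (σ δ).M *ᵥ (σ γ).pt := by
        rw [GU.pt, GU.pt, map_mul, M_mul, Matrix.mulVec_mulVec]
      rw [h3, sv_inv, _root_.mul_inv_rev, map_mul, Matrix.transpose_mul]
      simp only [Matrix.mul_smul, Matrix.smul_mul, Matrix.mul_assoc]
    simp only [h2]
    have h4 := AddMonoidHom.map_finsum (f := tm σ ρ (R ^ 2 + 1) v)
      ((AddMonoidHom.mulRight (ρ δ⁻¹)).comp (AddMonoidHom.mulLeft ((ρ δ⁻¹)ᵀ)))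
      (tm_fin hL ρ (R ^ 2 + 1) hv)
    simp only [AddMonoidHom.comp_apply, AddMonoidHom.coe_mulLeft,
      AddMonoidHom.coe_mulRight] at h4
    exact h4.symm
  · intro v hv
    have h1 : ∀ p : n × n, LL1 (fun w => HB σ ρ (R ^ 2 + 1) w p.1 p.2) v := by
      intro p
      obtain ⟨C, hC1, hC3⟩ := (compact_basis_nhds v).mem_iff.1 (isOpen_Cn.mem_nhds hv)
      have hfin := loc_fin hL (R ^ 2 + 1) C hC3 hC1.2
      have h2 : LL1 (fun w => ∑ γ ∈ hfin.toFinset,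
          ps (R ^ 2 + 1) (sv w (σ γ).pt) * ((ρ γ⁻¹)ᵀ * ρ γ⁻¹) p.1 p.2) v := by
        apply LL1.sum
        intro γ _
        apply LL1.mul_const
        exact (sv_LL1 _ (pt_mem (σ γ)).1 v hv).comp (ps_lip _)
      refine h2.congr ?_
      filter_upwards [hC1.1] with w hw
      rw [HB_eq ρ (R ^ 2 + 1) hfin hw, Matrix.sum_apply]
      rfl
    obtain ⟨L, U, hU, h⟩ := LL1.unif (fun p : n × n => fun w => HB σ ρ (R ^ 2 + 1) w p.1 p.2) h1
    exact ⟨L, U, hU, fun i j => h (i, j)⟩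

end Pool.Agent.MPd01a95
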