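import Mathlib
import Pool.Agent.Lib.MP_d01a95_gt_H.HDefs
import Pool.Agent.Lib.MP_d01a95_gt_H.Unimod

set_option autoImplicit false
set_option linter.all false

open Matrix Filter Topology MeasureTheory Measure
open scoped ENNReal NNReal ContDiff

namespace Pool.Agent.MPd01a95

open GU

variable {κ n ι : Type} [Fintype κ] [DecidableEq κ] [Fintype n] [DecidableEq n]
  [Fintype ι] [DecidableEq ι] {G : Type} [Group G]

theorem ac_M (ρ : G →* Matrix n n ℝ) (γ : G) (A : PD n) :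
    (ac ρ γ A).M = (ρ γ⁻¹)ᵀ * A.M * ρ γ⁻¹ := rfl

theorem ac_dist (ρ : G →* Matrix n n ℝ) (γ : G) (A B : PD n) :
    dist (ac ρ γ A) (ac ρ γ B) = dist A B := PD.dist_cg _ _ A B

theorem ac_isom (ρ : G →* Matrix n n ℝ) (γ : G) : Isometry (ac ρ γ) :=
  Isometry.of_dist_eq fun A B => ac_dist ρ γ A B

theorem rho_inv_mul (ρ : G →* Matrix n n ℝ) (γ : G) : ρ γ⁻¹ * ρ γ = 1 := by
  rw [← map_mul, inv_mul_cancel, map_one]

theorem rho_mul_inv (ρ : G →* Matrix n n ℝ) (γ : G) : ρ γ * ρ γ⁻¹ = 1 := by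
  rw [← map_mul, mul_inv_cancel, map_one]

theorem ac_mul (ρ : G →* Matrix n n ℝ) (γ γ' : G) (A : PD n) :
    ac ρ (γ * γ') A = ac ρ γ (ac ρ γ' A) := by
  apply PD.ext
  rw [ac_M, ac_M, ac_M, _root_.mul_inv_rev, map_mul, Matrix.transpose_mul]
  simp only [Matrix.mul_assoc]

theorem ac_one (ρ : G →* Matrix n n ℝ) (A : PD n) : ac ρ 1 A = A := by
  apply PD.ext
  rw [ac_M]; simp

theorem ac_ac_inv (ρ : G →* Matrix n n ℝ) (γ : G) (A : PD n) :
    ac ρ γ (ac ρ γ⁻¹ A) = A := by rw [← ac_mul, mul_inv_cancel, ac_one]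

theorem ac_inv_ac (ρ : G →* Matrix n n ℝ) (γ : G) (A : PD n) :
    ac ρ γ⁻¹ (ac ρ γ A) = A := by rw [← ac_mul, inv_mul_cancel, ac_one]

theorem cnPD : CN (PD.gd (n := n)) := fun s hs a b p => PD.cn s hs a b p

theorem gd_ac (ρ : G →* Matrix n n ℝ) (γ : G) {s : ℝ} (hs : s ∈ Set.Icc (0 : ℝ) 1)
    (A B : PD n) : PD.gd s (ac ρ γ A) (ac ρ γ B) = ac ρ γ (PD.gd s A B) := by
  have := cnPD.isom (cnPD (n := n)) (f := ac ρ γ) (fun a b => ac_dist ρ γ a b) hs A B
  exact (dist_eq_zero.mp this).symm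

theorem continuous_gd {s : ℝ} (hs : s ∈ Set.Icc (0 : ℝ) 1) :
    Continuous fun p : PD n × PD n => PD.gd s p.1 p.2 := by
  rw [continuous_iff_continuousAt]
  intro p
  exact cnPD.tendsto (fun _ => hs) hs tendsto_const_nhds continuous_fst.continuousAt
    continuous_snd.continuousAt

theorem measurable_gd {s : ℝ} (hs : s ∈ Set.Icc (0 : ℝ) 1) {α : Type} [MeasurableSpace α]
    {f f' : α → PD n} (hf : Measurable f) (hf' : Measurable f') :
    Measurable fun x => PD.gd s (f x) (f' x) :=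
  Measurable.comp (g := fun p : PD n × PD n => PD.gd s p.1 p.2) (f := fun x => (f x, f' x))
    (Continuous.measurable (continuous_gd hs)) (hf.prodMk hf')

theorem EqF.geo {σ : G →* GU κ} {ρ : G →* Matrix n n ℝ} {F F' : GU κ → PD n}
    (h : EqF σ ρ F) (h' : EqF σ ρ F') {s : ℝ} (hs : s ∈ Set.Icc (0 : ℝ) 1) :
    EqF σ ρ (fun g => PD.gd s (F g) (F' g)) :=
  ⟨measurable_gd hs h.1 h'.1, fun γ g => by
    change PD.gd s (F (σ γ * g)) (F' (σ γ * g)) = ac ρ γ (PD.gd s (F g) (F' g))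
    rw [h.2, h'.2, gd_ac ρ γ hs]⟩

/-- limits of equivariant maps -/
theorem EqF.lim {σ : G →* GU κ} {ρ : G →* Matrix n n ℝ} {F₀ : GU κ → PD n}
    (h₀ : EqF σ ρ F₀) {u : ℕ → GU κ → PD n} (hu : ∀ k, EqF σ ρ (u k)) :
    ∃ f, EqF σ ρ f ∧ ∀ g, (∃ y, Tendsto (fun k => u k g) atTop (𝓝 y)) →
      Tendsto (fun k => u k g) atTop (𝓝 (f g)) := by
  classical
  set E : Set (GU κ) := {g | ∃ y, Tendsto (fun k => u k g) atTop (𝓝 y)} with hE
  have hEm : MeasurableSet E := measurableSet_exists_tendsto fun k => (hu k).1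
  have hEinv : ∀ γ g, σ γ * g ∈ E ↔ g ∈ E := by
    have key : ∀ γ g, g ∈ E → σ γ * g ∈ E := by
      rintro γ g ⟨y, hy⟩
      refine ⟨ac ρ γ y, ?_⟩
      simp only [(hu _).2]
      exact ((ac_isom ρ γ).continuous.tendsto y).comp hy
    intro γ g
    refine ⟨fun h => ?_, key γ g⟩
    have := key γ⁻¹ _ h
    rwa [← mul_assoc, ← map_mul, inv_mul_cancel, map_one, one_mul] at this
  set f : GU κ → PD n := fun g => if h : g ∈ E then h.choose else F₀ g with hf
  have hft : ∀ g, g ∈ E → Tendsto (fun k => u k g) atTop (𝓝 (f g)) := by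
    intro g hg
    simp only [hf, dif_pos hg]
    exact hg.choose_spec
  refine ⟨f, ⟨?_, fun γ g => ?_⟩, hft⟩
  · have h1 : ∀ k, Measurable fun g => if g ∈ E then u k g else F₀ g := fun k =>
      Measurable.ite hEm (hu k).1 h₀.1
    refine measurable_of_tendsto_metrizable h1 ?_
    rw [tendsto_pi_nhds]
    intro g
    by_cases hg : g ∈ E
    · simpa [hg] using hft g hg
    · simp [hg, hf]
  · by_cases hg : g ∈ E
    · have h1 := hft _ ((hEinv γ g).mpr hg)
      have h2 := ((ac_isom ρ γ).continuous.tendsto (f g)).comp (hft g hg)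
      simp only [(hu _).2] at h1
      exact tendsto_nhds_unique h1 h2
    · have h1 : σ γ * g ∉ E := fun h => hg ((hEinv γ g).mp h)
      simp only [hf, dif_neg hg, dif_neg h1]
      exact h₀.2 γ g

/-- right translations -/
theorem EqF.right {σ : G →* GU κ} {ρ : G →* Matrix n n ℝ} {F : GU κ → PD n}
    (h : EqF σ ρ F) (k : GU κ) : EqF σ ρ (fun g => F (g * k)) :=
  ⟨h.1.comp (measurable_mul_const k), fun γ g => by
    change F (σ γ * g * k) = ac ρ γ (F (g * k))
    rw [mul_assoc, h.2]⟩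

instance : IsProbabilityMeasure (muK κ) := by
  refine ⟨?_⟩
  have h : muK κ ((⊤ : TopologicalSpace.PositiveCompacts (KU κ)) : Set (KU κ)) = 1 :=
    haarMeasure_self
  simpa using h

instance : IsHaarMeasure (muK κ) := by
  unfold muK; infer_instance

theorem measurable_bo_right : Measurable fun p : KU κ × Dr κ => (p.1 : GU κ) := by
  exact continuous_subtype_val.measurable.comp measurable_fst

theorem xx_meas (N : ℕ) : Measurable (xx N : KU κ × Dr κ → GU κ) := by
  unfold xx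
  refine ((measurable_bo_right.mul ?_).mul measurable_bo_right.inv)
  exact (Measurable.of_discrete (f := fun q : Dr κ =>
    (bo ((1 / 2) ^ N) (show κ × Bool from q) : GU κ))).comp measurable_snd

theorem xx_two (N : ℕ) (p : KU κ × Dr κ) : xx N p = xx (N + 1) p * xx (N + 1) p := by
  unfold xx
  have e : (1 / 2 : ℝ) ^ N = (1 / 2) ^ (N + 1) + (1 / 2) ^ (N + 1) := by
    rw [pow_succ]; ring
  rw [e, ← bo_add]
  group

/-- invariance of the energy under right translations by the stabiliser -/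
theorem EE_right {σ : G →* GU κ} (hL : Lat σ) (μ : Measure (GU κ)) [IsHaarMeasure μ]
    {χ : GU κ → ℝ} (hχ : Cut σ χ) {ρ : G →* Matrix n n ℝ} {F : GU κ → PD n}
    (hF : EqF σ ρ F) (k : GU κ) (hk : k ∈ KU κ) :
    EE μ χ (fun g => F (g * k)) = EE μ χ F := by
  haveI := hL.countable
  haveI := right_inv hL μ
  unfold EE eT
  congr 1
  ext N
  unfold eN
  congr 1
  have h1 : ∀ p : KU κ × Dr κ, eE μ (fun g => ENNReal.ofReal (χ g)) (fun g => F (g * k))
      (xx N p) = eE μ (fun g => ENNReal.ofReal (χ g)) F (xx N ((⟨k, hk⟩ : KU κ)⁻¹ * p.1, p.2)) := by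
    intro p
    rw [eE_conj hχ.meas hχ.sum (ac_isom ρ) hF.1 hF.2 k (xx N p)]
    congr 1
    unfold xx
    push_cast
    group
  simp only [h1]
  have hm : Measurable fun p : KU κ × Dr κ => eE μ (fun g => ENNReal.ofReal (χ g)) F (xx N p) :=
    measurable_eE hχ.meas hF.1 (xx_meas N)
  unfold th
  have e1 := lintegral_prod_symm (μ := muK κ) (ν := (count : Measure (Dr κ)))
    (fun p => eE μ (fun g => ENNReal.ofReal (χ g)) F (xx N ((⟨k, hk⟩ : KU κ)⁻¹ * p.1, p.2))) ?_
  · have e2 := lintegral_prod_symm (μ := muK κ) (ν := (count : Measure (Dr κ)))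
      (fun p => eE μ (fun g => ENNReal.ofReal (χ g)) F (xx N p)) hm.aemeasurable
    rw [e1, e2]
    congr 1
    ext q
    exact lintegral_mul_left_eq_self (μ := muK κ)
      (fun k' => eE μ (fun g => ENNReal.ofReal (χ g)) F (xx N (k', q))) _
  · exact (hm.comp ((measurable_const_mul _).comp measurable_fst |>.prodMk
      measurable_snd)).aemeasurable

/-- invariance of the energy under isometries of the target -/
theorem EE_isom (μ : Measure (GU κ)) {χ : GU κ → ℝ} (f : PD n → PD n)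
    (hf : ∀ a b, dist (f a) (f b) = dist a b) (F : GU κ → PD n) :
    EE μ χ (fun g => f (F g)) = EE μ χ F := by
  unfold EE eT eN eE
  simp only [edist_dist, hf]

end Pool.Agent.MPd01a95
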