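import Mathlib
import Pool.Agent.Lib.MP_d01a95_gt_H.HDefs
import Pool.Agent.Lib.MP_d01a95_gt_H.Unimod

set_option autoImplicit false
set_option linter.all false

open Matrix Filter Topology MeasureTheory Measure
open scoped ENNReal NNReal ContDiff

namespace Pool.Agent.MPd01a95

open GU

variable {κ n ι α : Type} [Fintype κ] [DecidableEq κ] [Fintype n] [DecidableEq n]
  [Fintype ι] [DecidableEq ι] [Fintype α] [DecidableEq α] {G : Type} [Group G]

namespace CauchyAux

/-- coordinates: the real derivative through `db` -/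
theorem fderiv_db (u : (α → ℂ) → ℂ) (q z : α → ℂ) :
    fderiv ℝ u q z + Complex.I * fderiv ℝ u q (Complex.I • z) =
      2 * ∑ c, star (z c) * db u c q := by
  set L := fderiv ℝ u q with hL
  have hdec : ∀ y : α → ℂ, L y = ∑ c, (((y c).re : ℂ) * L (Pi.single c 1) +
      ((y c).im : ℂ) * L (Pi.single c Complex.I)) := by
    intro y
    have h1 : y = ∑ c, ((y c).re • (Pi.single c (1 : ℂ) : α → ℂ) +
        (y c).im • (Pi.single c Complex.I : α → ℂ)) := by
      funext d
      rw [Finset.sum_apply, Finset.sum_eq_single d]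
      · simp only [Pi.add_apply, Pi.smul_apply, Pi.single_eq_same, Complex.real_smul, mul_one]
        exact (Complex.re_add_im (y d)).symm
      · intro c _ hc
        simp [Pi.single_eq_of_ne hc.symm]
      · intro h; exact absurd (Finset.mem_univ d) h
    conv_lhs => rw [h1]
    rw [_root_.map_sum]
    refine Finset.sum_congr rfl fun c _ => ?_
    rw [map_add, map_smul, map_smul, Complex.real_smul, Complex.real_smul]
  rw [hdec z, hdec (Complex.I • z), Finset.mul_sum, Finset.mul_sum, ← Finset.sum_add_distrib]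
  refine Finset.sum_congr rfl fun c _ => ?_
  have h2 : star (z c) = ((z c).re : ℂ) - (z c).im * Complex.I := by
    apply Complex.ext <;> simp
  simp only [Pi.smul_apply, smul_eq_mul, Complex.mul_re, Complex.I_re, Complex.I_im,
    Complex.mul_im, zero_mul, one_mul, zero_sub, zero_add, add_zero]
  rw [h2, db, ← hL]
  have h3 : Complex.I * Complex.I = -1 := Complex.I_mul_I
  push_cast
  linear_combination (((z c).im : ℂ) * L (Pi.single c Complex.I)) * h3

/-- rotations preserve the volume -/
theorem rot_preserving (θ : ℝ) : MeasurePreserving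
    (fun z : α → ℂ => (Complex.exp (θ * Complex.I)) • z) volume volume := by
  have h1 : ∀ i : α, MeasurePreserving (fun w : ℂ => Complex.exp (θ * Complex.I) * w)
      volume volume := by
    intro i
    have h2 := (rotation (Circle.exp θ)).measurePreserving
    have h3 : (fun w : ℂ => Complex.exp (θ * Complex.I) * w) = ⇑(rotation (Circle.exp θ)) := by
      funext w
      rw [rotation_apply, Circle.coe_exp]
    rw [h3]
    exact h2
  have h4 := volume_preserving_pi h1
  exact h4

/-- a smooth radial kernel -/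
theorem exists_kernel (α : Type) [Fintype α] [DecidableEq α] [Nonempty α] :
    ∃ k : (α → ℂ) → ℝ, ContDiff ℝ ∞ k ∧ (∀ z, 0 ≤ k z) ∧
    (∀ z, k z ≠ 0 → 1 ≤ ‖z‖ ∧ ‖z‖ ≤ (Fintype.card α : ℝ) + 1) ∧ HasCompactSupport k ∧
    (∀ θ : ℝ, ∀ z, k ((Complex.exp (θ * Complex.I)) • z) = k z) ∧ ∫ z, k z = 1 := by
  set N : ℝ := (Fintype.card α : ℝ) with hN
  have hN1 : 1 ≤ N := by
    have : 1 ≤ Fintype.card α := Fintype.card_pos
    rw [hN]; exact_mod_cast this
  let b : ContDiffBump (N + 1 / 2 : ℝ) := ⟨1 / 4, 1 / 2, by norm_num, by norm_num⟩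
  set k0 : (α → ℂ) → ℝ := fun z => b (∑ c, ‖z c‖ ^ 2) with hk0
  have hsm : ContDiff ℝ ∞ k0 := by
    apply b.contDiff.comp
    apply ContDiff.sum
    intro c _
    exact (contDiff_apply ℝ ℂ c).norm_sq ℝ
  have hnn : ∀ z, 0 ≤ k0 z := fun z => b.nonneg
  have hsup : ∀ z, k0 z ≠ 0 → 1 ≤ ‖z‖ ∧ ‖z‖ ≤ N + 1 := by
    intro z hz
    have h1 : (∑ c, ‖z c‖ ^ 2) ∈ Metric.ball (N + 1 / 2 : ℝ) (1 / 2) := by
      have : (∑ c, ‖z c‖ ^ 2) ∈ Function.support b := hz
      rwa [b.support_eq] at this
    rw [Metric.mem_ball, Real.dist_eq, abs_lt] at h1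
    constructor
    · by_contra hcon
      push Not at hcon
      have h2 : ∑ c, ‖z c‖ ^ 2 ≤ ∑ c : α, (1 : ℝ) := by
        apply Finset.sum_le_sum
        intro c _
        have h3 : ‖z c‖ ≤ 1 := le_trans (norm_le_pi_norm z c) hcon.le
        have h4 := norm_nonneg (z c)
        nlinarith
      rw [Finset.sum_const, Finset.card_univ, nsmul_eq_mul, mul_one, ← hN] at h2
      linarith [h1.1]
    · rw [pi_norm_le_iff_of_nonneg (by linarith)]
      intro c
      have h2 : ‖z c‖ ^ 2 ≤ ∑ c, ‖z c‖ ^ 2 :=
        Finset.single_le_sum (f := fun c => ‖z c‖ ^ 2) (fun _ _ => sq_nonneg _)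
          (Finset.mem_univ c)
      have h3 := norm_nonneg (z c)
      by_contra hcon
      push Not at hcon
      nlinarith [h1.2]
  have hcs : HasCompactSupport k0 := by
    apply HasCompactSupport.of_support_subset_isCompact
      (isCompact_closedBall (0 : α → ℂ) (N + 1))
    intro z hz
    rw [Metric.mem_closedBall, dist_zero_right]
    exact (hsup z hz).2
  have hpos : 0 < ∫ z, k0 z := by
    apply hsm.continuous.integral_pos_of_hasCompactSupport_nonneg_nonzero hcs hnn
      (x := fun _ => ((Real.sqrt ((N + 1 / 2) / N) : ℝ) : ℂ))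
    have h1 : (∑ c : α, ‖((Real.sqrt ((N + 1 / 2) / N) : ℝ) : ℂ)‖ ^ 2) = N + 1 / 2 := by
      rw [Finset.sum_const, Finset.card_univ, nsmul_eq_mul, ← hN, Complex.norm_real,
        Real.norm_eq_abs, sq_abs, Real.sq_sqrt (by positivity)]
      field_simp
    show b (∑ c : α, ‖((Real.sqrt ((N + 1 / 2) / N) : ℝ) : ℂ)‖ ^ 2) ≠ 0
    rw [h1, b.one_of_mem_closedBall]
    · exact one_ne_zero
    · rw [Metric.mem_closedBall, dist_self]; exact b.rIn_pos.le
  refine ⟨fun z => (∫ z, k0 z)⁻¹ * k0 z, contDiff_const.mul hsm,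
    fun z => mul_nonneg (inv_nonneg.2 hpos.le) (hnn z), ?_, ?_, ?_, ?_⟩
  · intro z hz
    exact hsup z (right_ne_zero_of_mul hz)
  · exact hcs.mul_left
  · intro θ z
    simp only [hk0, Pi.smul_apply, smul_eq_mul, norm_mul, Complex.norm_exp_ofReal_mul_I,
      one_mul]
  · rw [integral_const_mul, inv_mul_cancel₀ hpos.ne']

/-- the angular derivative has integral zero -/
theorem angular {k : (α → ℂ) → ℝ} (hk : ContDiff ℝ ∞ k) (hkc : HasCompactSupport k)
    (hrot : ∀ θ : ℝ, ∀ z, k ((Complex.exp (θ * Complex.I)) • z) = k z)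
    {u : (α → ℂ) → ℂ} (hu : ContDiff ℝ ∞ u) (huc : HasCompactSupport u) (p : α → ℂ)
    {t : ℝ} (ht : t ≠ 0) :
    ∫ z, (k z : ℂ) * fderiv ℝ u (p + t • z) (Complex.I • z) = 0 := by
  -- bound for the derivative
  obtain ⟨C, hC⟩ : ∃ C, ∀ q, ‖fderiv ℝ u q‖ ≤ C :=
    (huc.fderiv (𝕜 := ℝ)).exists_bound_of_continuous (hu.continuous_fderiv (by simp))
  have hC0 : 0 ≤ C := le_trans (norm_nonneg _) (hC 0)
  set g : ℝ → (α → ℂ) → ℂ := fun θ z =>
    (k z : ℂ) * u (p + t • ((Complex.exp (θ * Complex.I)) • z)) with hg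
  set g' : ℝ → (α → ℂ) → ℂ := fun θ z =>
    (k z : ℂ) * fderiv ℝ u (p + t • ((Complex.exp (θ * Complex.I)) • z))
      (t • ((Complex.exp (θ * Complex.I) * Complex.I) • z)) with hg'
  have hcont : ∀ θ, Continuous (g θ) := by
    intro θ
    apply (Complex.continuous_ofReal.comp hk.continuous).mul
    apply hu.continuous.comp
    fun_prop
  have hcs : ∀ θ, HasCompactSupport (g θ) := by
    intro θ
    apply HasCompactSupport.mul_right
    exact hkc.comp_left (g := fun x : ℝ => (x : ℂ)) (by simp)
  have hconst : ∀ θ, ∫ z, g θ z = ∫ z, (k z : ℂ) * u (p + t • z) := by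
    intro θ
    have h1 : ∀ z, g θ z = (fun z => (k z : ℂ) * u (p + t • z))
        ((Complex.exp (θ * Complex.I)) • z) := by
      intro z
      simp only [hg, hrot]
    rw [integral_congr_ae (Eventually.of_forall h1)]
    have hemb : MeasurableEmbedding (fun z : α → ℂ => (Complex.exp (θ * Complex.I)) • z) := by
      have hne : Complex.exp (θ * Complex.I) ≠ 0 := Complex.exp_ne_zero _
      exact (Homeomorph.smulOfNeZero (Complex.exp (θ * Complex.I)) hne
        (α := α → ℂ)).measurableEmbedding
    exact (rot_preserving θ).integral_comp hemb (fun z => (k z : ℂ) * u (p + t • z))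
  have hderiv : HasDerivAt (fun θ => ∫ z, g θ z) (∫ z, g' 0 z) 0 := by
    refine (hasDerivAt_integral_of_dominated_loc_of_deriv_le
      (bound := fun z => ‖k z‖ * (C * (|t| * ‖z‖))) (Metric.ball_mem_nhds (0 : ℝ) one_pos)
      ?_ ?_ ?_ ?_ ?_ ?_).2
    · exact Eventually.of_forall fun θ => (hcont θ).aestronglyMeasurable
    · exact (hcont 0).integrable_of_hasCompactSupport (hcs 0)
    · apply Continuous.aestronglyMeasurable
      apply (Complex.continuous_ofReal.comp hk.continuous).mul
      apply Continuous.clm_apply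
      · apply (hu.continuous_fderiv (by simp)).comp
        fun_prop
      · fun_prop
    · refine Eventually.of_forall fun z θ _ => ?_
      rw [hg', norm_mul, Complex.norm_real]
      refine mul_le_mul_of_nonneg_left ?_ (norm_nonneg _)
      refine le_trans (ContinuousLinearMap.le_opNorm _ _) ?_
      refine mul_le_mul (hC _) ?_ (norm_nonneg _) hC0
      rw [norm_smul, norm_smul, norm_mul, Complex.norm_exp_ofReal_mul_I, Complex.norm_I,
        one_mul, one_mul, Real.norm_eq_abs]
    · apply Continuous.integrable_of_hasCompactSupport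
      · exact hk.continuous.norm.mul (by fun_prop)
      · exact hkc.norm.mul_right
    · refine Eventually.of_forall fun z θ _ => ?_
      apply HasDerivAt.const_mul
      have h1 : HasDerivAt (fun θ : ℝ => p + t • ((Complex.exp (θ * Complex.I)) • z))
          (t • ((Complex.exp (θ * Complex.I) * Complex.I) • z)) θ := by
        apply HasDerivAt.const_add
        apply HasDerivAt.fun_const_smul
        apply HasDerivAt.smul_const
        have h2 : HasDerivAt (fun θ : ℝ => (θ : ℂ) * Complex.I) Complex.I θ := by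
          simpa using (Complex.ofRealCLM.hasDerivAt (x := θ)).mul_const Complex.I
        exact h2.cexp
      have h3 : HasFDerivAt u (fderiv ℝ u (p + t • ((Complex.exp (θ * Complex.I)) • z)))
          (p + t • ((Complex.exp (θ * Complex.I)) • z)) :=
        ((hu.differentiable (by simp)) _).hasFDerivAt
      exact h3.comp_hasDerivAt θ h1
  have hz : HasDerivAt (fun θ => ∫ z, g θ z) 0 0 := by
    have : (fun θ => ∫ z, g θ z) = fun _ => ∫ z, (k z : ℂ) * u (p + t • z) := by
      funext θ; exact hconst θ
    rw [this]; exact hasDerivAt_const _ _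
  have h4 := hderiv.unique hz
  have h5 : ∀ z, g' 0 z = (t : ℂ) * ((k z : ℂ) * fderiv ℝ u (p + t • z) (Complex.I • z)) := by
    intro z
    simp only [hg', Complex.ofReal_zero, zero_mul, Complex.exp_zero, one_smul, one_mul, map_smul,
      Complex.real_smul]
    ring
  rw [integral_congr_ae (Eventually.of_forall h5), integral_const_mul] at h4
  exact (mul_eq_zero.1 h4).resolve_left (by exact_mod_cast ht)

end CauchyAux

open CauchyAux in
/-- module CAUCHY -/
theorem cauchy_avg (α : Type) [Fintype α] [DecidableEq α] [Nonempty α] :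
    ∃ k : (α → ℂ) → ℝ, ContDiff ℝ ∞ k ∧ (∀ z, 0 ≤ k z) ∧
    (∃ R : ℝ, ∀ z, k z ≠ 0 → 1 ≤ ‖z‖ ∧ ‖z‖ ≤ R) ∧
    ∀ u : (α → ℂ) → ℂ, ContDiff ℝ ∞ u → HasCompactSupport u → ∀ p,
      u p = -2 * ∫ t in Set.Ioi (0 : ℝ), ∫ z, (k z : ℂ) * ∑ c, star (z c) * db u c (p + t • z) := by
  obtain ⟨k, hk, hk0, hkR, hkc, hrot, hint⟩ := exists_kernel α
  refine ⟨k, hk, hk0, ⟨_, hkR⟩, ?_⟩
  intro u hu huc p
  -- continuity of the integrands
  have hcd : Continuous (fderiv ℝ u) := hu.continuous_fderiv (by simp)
  have hkC : HasCompactSupport (fun z => (k z : ℂ)) :=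
    hkc.comp_left (g := fun x : ℝ => (x : ℂ)) (by simp)
  have hkcont : Continuous (fun z => (k z : ℂ)) := Complex.continuous_ofReal.comp hk.continuous
  set A : ℝ → (α → ℂ) → ℂ := fun t z => (k z : ℂ) * fderiv ℝ u (p + t • z) z with hA
  have hAint : ∀ t, Integrable (A t) := by
    intro t
    apply Continuous.integrable_of_hasCompactSupport
    · apply hkcont.mul
      apply Continuous.clm_apply
      · exact hcd.comp (by fun_prop)
      · fun_prop
    · exact hkC.mul_right
  have hBint : ∀ t : ℝ, Integrable (fun z => (k z : ℂ) * fderiv ℝ u (p + t • z)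
      (Complex.I • z)) := by
    intro t
    apply Continuous.integrable_of_hasCompactSupport
    · apply hkcont.mul
      apply Continuous.clm_apply
      · exact hcd.comp (by fun_prop)
      · fun_prop
    · exact hkC.mul_right
  have h1 : ∀ t ∈ Set.Ioi (0 : ℝ), ∫ z, (k z : ℂ) * ∑ c, star (z c) * db u c (p + t • z) =
      (1 / 2 : ℂ) * ∫ z, A t z := by
    intro t ht
    have h2 : ∀ z, (k z : ℂ) * ∑ c, star (z c) * db u c (p + t • z) =
        (1 / 2 : ℂ) * A t z + (Complex.I / 2) * ((k z : ℂ) * fderiv ℝ u (p + t • z)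
          (Complex.I • z)) := by
      intro z
      have h3 := fderiv_db u (p + t • z) z
      simp only [hA]
      linear_combination (-(1 / 2 : ℂ) * (k z : ℂ)) * h3
    rw [integral_congr_ae (Eventually.of_forall h2), integral_add ((hAint t).const_mul _)
      ((hBint t).const_mul _), integral_const_mul, integral_const_mul,
      angular hk hkc hrot hu huc p (ne_of_gt ht), mul_zero, add_zero]
  rw [setIntegral_congr_fun measurableSet_Ioi h1, integral_const_mul]
  -- Fubini
  obtain ⟨T, hT⟩ : ∃ T : ℝ, ∀ q, T ≤ ‖q‖ → fderiv ℝ u q = 0 := by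
    have h3 : HasCompactSupport (fderiv ℝ u) := huc.fderiv (𝕜 := ℝ)
    obtain ⟨T, hT⟩ := h3.isCompact.isBounded.subset_ball 0
    refine ⟨T, fun q hq => ?_⟩
    by_contra hne
    have h4 : q ∈ tsupport (fderiv ℝ u) := subset_tsupport _ hne
    have h5 := hT h4
    rw [Metric.mem_ball, dist_zero_right] at h5
    linarith
  have hjoint : Continuous (Function.uncurry A) := by
    apply (hkcont.comp continuous_snd).mul
    apply Continuous.clm_apply
    · exact hcd.comp (by fun_prop)
    · exact continuous_snd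
  have hjcs : HasCompactSupport (Function.uncurry A) := by
    apply HasCompactSupport.of_support_subset_isCompact
      ((isCompact_closedBall (0 : ℝ) (T + ‖p‖)).prod
        (isCompact_closedBall (0 : α → ℂ) (Fintype.card α + 1)))
    rintro ⟨t, z⟩ htz
    have h6 : (k z : ℂ) * fderiv ℝ u (p + t • z) z ≠ 0 := htz
    have h7 : k z ≠ 0 := by exact_mod_cast left_ne_zero_of_mul h6
    have h8 := hkR z h7
    refine ⟨?_, ?_⟩
    · show t ∈ Metric.closedBall (0 : ℝ) (T + ‖p‖)
      rw [Metric.mem_closedBall, dist_zero_right, Real.norm_eq_abs]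
      by_contra hcon
      push Not at hcon
      have h9 : T ≤ ‖p + t • z‖ := by
        have h10 : ‖t • z‖ ≤ ‖p + t • z‖ + ‖p‖ := by
          have := norm_sub_le (p + t • z) p
          rwa [add_sub_cancel_left] at this
        rw [norm_smul, Real.norm_eq_abs] at h10
        nlinarith [h8.1, abs_nonneg t]
      rw [hT _ h9] at h6
      simp at h6
    · show z ∈ Metric.closedBall (0 : α → ℂ) (Fintype.card α + 1)
      rw [Metric.mem_closedBall, dist_zero_right]
      exact h8.2
  have hI : Integrable (Function.uncurry A) ((volume.restrict (Set.Ioi (0 : ℝ))).prod volume) := by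
    have h11 : Integrable (Function.uncurry A) ((volume : Measure ℝ).prod volume) :=
      hjoint.integrable_of_hasCompactSupport hjcs
    have h12 := h11.restrict (s := Set.Ioi (0 : ℝ) ×ˢ (Set.univ : Set (α → ℂ)))
    rwa [← Measure.prod_restrict, Measure.restrict_univ] at h12
  rw [integral_integral_swap hI]
  have h13 : ∀ z, ∫ t in Set.Ioi (0 : ℝ), A t z = (k z : ℂ) * (- u p) := by
    intro z
    by_cases hz : k z = 0
    · simp [hA, hz]
    simp only [hA]
    rw [integral_const_mul]
    congr 1
    have h14 : ContDiff ℝ 1 (fun t : ℝ => u (p + t • z)) := by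
      apply (hu.of_le (by simp)).comp
      fun_prop
    have h8 := hkR z hz
    obtain ⟨T', hT'⟩ : ∃ T : ℝ, ∀ q, T ≤ ‖q‖ → u q = 0 := by
      obtain ⟨T, hT⟩ := huc.isCompact.isBounded.subset_ball 0
      refine ⟨T, fun q hq => ?_⟩
      by_contra hne
      have h4 : q ∈ tsupport u := subset_tsupport _ hne
      have h5 := hT h4
      rw [Metric.mem_ball, dist_zero_right] at h5
      linarith
    have h15 : HasCompactSupport (fun t : ℝ => u (p + t • z)) := by
      apply HasCompactSupport.of_support_subset_isCompact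
        (isCompact_closedBall (0 : ℝ) (T' + ‖p‖))
      intro t ht
      rw [Metric.mem_closedBall, dist_zero_right, Real.norm_eq_abs]
      by_contra hcon
      push Not at hcon
      apply ht
      apply hT'
      have h10 : ‖t • z‖ ≤ ‖p + t • z‖ + ‖p‖ := by
        have := norm_sub_le (p + t • z) p
        rwa [add_sub_cancel_left] at this
      rw [norm_smul, Real.norm_eq_abs] at h10
      nlinarith [h8.1, abs_nonneg t]
    have h16 := h15.integral_Ioi_deriv_eq h14 0
    have h17 : ∀ t : ℝ, deriv (fun t : ℝ => u (p + t • z)) t = fderiv ℝ u (p + t • z) z := by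
      intro t
      have h18 : HasDerivAt (fun t : ℝ => p + t • z) z t := by
        apply HasDerivAt.const_add
        simpa using (hasDerivAt_id t).smul_const z
      have h19 : HasFDerivAt u (fderiv ℝ u (p + t • z)) (p + t • z) :=
        ((hu.differentiable (by simp)) _).hasFDerivAt
      exact (h19.comp_hasDerivAt t h18).deriv
    simp only [h17] at h16
    rw [h16]
    simp
  rw [integral_congr_ae (Eventually.of_forall h13), integral_mul_const,
    integral_complex_ofReal, hint]
  push_cast
  ring

end Pool.Agent.MPd01a95
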