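import Mathlib
import Pool.Agent.Lib.MP_d01a95_gt.Hyp
import Pool.Agent.Lib.MP_d01a95_gt_H.HDefs
import Pool.Agent.Lib.MP_d01a95_gt_H.Unimod
import Pool.Agent.Lib.MP_d01a95_gt_H.Basic

set_option autoImplicit false
set_option linter.all false

open Matrix Filter Topology MeasureTheory Measure
open scoped ENNReal NNReal

namespace Pool.Agent.MPd01a95

open GU

variable {κ n ι : Type} [Fintype κ] [DecidableEq κ] [Fintype n] [DecidableEq n]
  [Fintype ι] [DecidableEq ι] {G : Type} [Group G]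

namespace LdispAux

/-- integrals over compact sets are bounded by the energy integrals -/
theorem cpt_bd {σ : G →* GU κ} (hL : Lat σ) (μ : Measure (GU κ)) [IsHaarMeasure μ]
    {χ : GU κ → ℝ} (hχ : Cut σ χ) (R : ℝ) : ∃ N : ℝ≥0∞, N ≠ ⊤ ∧ ∀ ψ : GU κ → ℝ≥0∞,
      Measurable ψ → (∀ γ g, ψ (σ γ * g) = ψ g) →
      ∫⁻ g in {g | c g ≤ R}, ψ g ∂μ ≤ N * ∫⁻ g, ENNReal.ofReal (χ g) * ψ g ∂μ := by
  haveI := hL.countable
  set B : Set (GU κ) := {g | c g ≤ R} with hB
  have hm : MeasurableSet B := (isCompact_c R).measurableSet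
  have hfin := hL.finite_meet R R
  set T : Finset G := hfin.toFinset with hT
  refine ⟨(T.card : ℝ≥0∞), ENNReal.natCast_ne_top _, fun ψ hψ hinv => ?_⟩
  have h1 := unfold_lintegral (μ := μ) hχ.meas hχ.sum (ψ := B.indicator ψ) (hψ.indicator hm)
  rw [← lintegral_indicator hm, ← h1, ← lintegral_const_mul' _ _ (ENNReal.natCast_ne_top _)]
  apply lintegral_mono
  intro g
  simp only
  rw [← mul_assoc, mul_comm (T.card : ℝ≥0∞), mul_assoc]
  gcongr
  by_cases hg : ∃ γ₀, σ γ₀ * g ∈ B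
  · obtain ⟨γ₀, hγ₀⟩ := hg
    have h2 : ∑' γ, B.indicator ψ (σ γ * g) ≤ ∑ γ ∈ T.map (Equiv.mulRight γ₀).toEmbedding,
        B.indicator ψ (σ γ * g) := by
      rw [tsum_eq_sum]
      intro γ hγ
      by_contra hne
      apply hγ
      rw [Finset.mem_map]
      refine ⟨γ * γ₀⁻¹, ?_, by simp⟩
      rw [hT, Set.Finite.mem_toFinset]
      refine ⟨σ γ₀ * g, hγ₀, ?_⟩
      have h3 : σ γ * g ∈ B := by
        by_contra h4
        exact hne (Set.indicator_of_notMem h4 _)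
      rw [← mul_assoc, ← map_mul, inv_mul_cancel_right]
      exact h3
    refine h2.trans ?_
    refine (Finset.sum_le_card_nsmul _ _ (ψ g) fun γ _ => ?_).trans ?_
    · by_cases h4 : σ γ * g ∈ B
      · rw [Set.indicator_of_mem h4, hinv]
      · rw [Set.indicator_of_notMem h4]; exact bot_le
    · rw [Finset.card_map, nsmul_eq_mul]
  · push Not at hg
    have h2 : ∀ γ, B.indicator ψ (σ γ * g) = 0 := fun γ => Set.indicator_of_notMem (hg γ) _
    simp [h2]

/-- the law of cosines, as an inequality -/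
theorem c_mul_le (g h : GU κ) : c (g * h) ≤ c g * c h +
    Real.sqrt (c g ^ 2 - 1) * Real.sqrt (c h ^ 2 - 1) := by
  have h1 := HypAux.row_n g.M g.pres
  have h2 := HypAux.col_n h.M h.pres
  change _ = c g ^ 2 - 1 at h1
  change _ = c h ^ 2 - 1 at h2
  rw [← h1, ← h2]
  have e : (g * h).M (Sum.inr ()) (Sum.inr ()) =
      g.M (Sum.inr ()) (Sum.inr ()) * h.M (Sum.inr ()) (Sum.inr ()) +
      ∑ k, g.M (Sum.inr ()) (Sum.inl k) * h.M (Sum.inl k) (Sum.inr ()) := by
    rw [M_mul, Matrix.mul_apply, Fintype.sum_sum_type]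
    simp [add_comm]
  have h3 : c (g * h) ≤ c g * c h +
      ∑ k, ‖g.M (Sum.inr ()) (Sum.inl k)‖ * ‖h.M (Sum.inl k) (Sum.inr ())‖ := by
    change ‖(g * h).M (Sum.inr ()) (Sum.inr ())‖ ≤ _
    rw [e]
    refine (norm_add_le _ _).trans (add_le_add ?_ ?_)
    · rw [norm_mul]; exact le_rfl
    · refine (norm_sum_le _ _).trans (Finset.sum_le_sum fun k _ => ?_)
      rw [norm_mul]
  refine h3.trans (add_le_add le_rfl ?_)
  exact Real.sum_mul_le_sqrt_mul_sqrt _ _ _

/-- conjugates of small elements by elements of a compact set are small -/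
theorem conj_small (κ : Type) [Fintype κ] [DecidableEq κ] (R : ℝ) : ∃ C : ℝ, 0 < C ∧
    ∀ (g y : GU κ) (ε : ℝ), 0 < ε → c g ≤ R →
      (∀ i j, ‖y.M i j - (1 : Matrix (κ ⊕ Unit) (κ ⊕ Unit) ℂ) i j‖ ≤ ε) →
      c (g⁻¹ * y * g) ^ 2 ≤ 1 + C * ε ^ 2 := by
  set m : ℝ := ((Fintype.card (κ ⊕ Unit) : ℕ) : ℝ) with hm
  have hm0 : 0 ≤ m := by rw [hm]; positivity
  refine ⟨1 + Fintype.card κ * (m * (m * (2 * R * (2 * R)))) ^ 2, by positivity,
    fun g y ε hε hg hy => ?_⟩
  have hR : 0 ≤ R := le_trans (by linarith [c_ge_one g]) hg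
  have e1 : (g⁻¹ * y * g).M - 1 = (g⁻¹).M * (y.M - 1) * g.M := by
    rw [M_mul, M_mul, Matrix.mul_sub, Matrix.sub_mul, Matrix.mul_one, inv_mul_M]
  have h1 : ∀ i j, ‖((g⁻¹ * y * g).M - 1) i j‖ ≤ m * (m * (2 * R * (2 * R))) * ε := by
    intro i j
    rw [e1, Matrix.mul_apply]
    refine (norm_sum_le _ _).trans ?_
    have h2 : ∀ k, ‖((g⁻¹).M * (y.M - 1)) i k * g.M k j‖ ≤ m * (2 * R * (2 * R)) * ε := by
      intro k
      rw [norm_mul, Matrix.mul_apply]
      have h3 : ‖∑ l, (g⁻¹).M i l * (y.M - 1) l k‖ ≤ m * (2 * R * ε) := by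
        refine (norm_sum_le _ _).trans ?_
        have h4 : ∀ l ∈ (Finset.univ : Finset (κ ⊕ Unit)),
            ‖(g⁻¹).M i l * (y.M - 1) l k‖ ≤ 2 * R * ε := by
          intro l _
          rw [norm_mul]
          have h5 := entry_le g⁻¹ i l
          rw [c_inv] at h5
          have h6 := hy l k
          rw [Matrix.sub_apply]
          exact mul_le_mul (h5.trans (by linarith)) h6 (norm_nonneg _) (by positivity)
        refine (Finset.sum_le_card_nsmul _ _ _ h4).trans ?_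
        rw [nsmul_eq_mul, Finset.card_univ]
      have h7 := (entry_le g k j).trans (show 2 * c g ≤ 2 * R by linarith)
      calc _ ≤ m * (2 * R * ε) * (2 * R) := mul_le_mul h3 h7 (norm_nonneg _) (by positivity)
        _ = _ := by ring
    refine (Finset.sum_le_card_nsmul _ _ _ fun k _ => h2 k).trans ?_
    rw [nsmul_eq_mul, Finset.card_univ, ← hm]
    apply le_of_eq; ring
  have h2 := HypAux.col_n (g⁻¹ * y * g).M (g⁻¹ * y * g).pres
  change _ = c (g⁻¹ * y * g) ^ 2 - 1 at h2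
  have h3 : ∑ k : κ, ‖(g⁻¹ * y * g).M (Sum.inl k) (Sum.inr ())‖ ^ 2 ≤
      Fintype.card κ * (m * (m * (2 * R * (2 * R))) * ε) ^ 2 := by
    refine (Finset.sum_le_card_nsmul _ _ ((m * (m * (2 * R * (2 * R))) * ε) ^ 2)
      fun k _ => ?_).trans ?_
    · have h4 := h1 (Sum.inl k) (Sum.inr ())
      rw [Matrix.sub_apply, Matrix.one_apply_ne (by simp), sub_zero] at h4
      gcongr
    · rw [nsmul_eq_mul, Finset.card_univ]
  rw [mul_pow _ ε 2] at h3
  have h5 : 0 ≤ ε ^ 2 := by positivity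
  nlinarith

theorem sq_tri {Y : Type} [PseudoEMetricSpace Y] (a b d : Y) :
    edist a b ^ 2 ≤ 2 * edist a d ^ 2 + 2 * edist d b ^ 2 := by
  have t := edist_triangle a d b
  have t2 : edist a b ^ 2 ≤ (edist a d + edist d b) ^ 2 := by gcongr
  refine t2.trans ?_
  have h6 := ENNReal.rpow_add_le_mul_rpow_add_rpow (edist a d) (edist d b) (p := 2) (by norm_num)
  have e : ∀ a : ℝ≥0∞, a ^ (2 : ℝ) = a ^ 2 := fun a => by
    rw [← ENNReal.rpow_natCast]; norm_num
  rw [e, e, e] at h6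
  norm_num at h6
  rw [mul_add] at h6
  exact h6

end LdispAux

end Pool.Agent.MPd01a95
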