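import Mathlib
import Pool.Agent.Lib.MP_d01a95_gt_H.HDefs
import Pool.Agent.Lib.MP_d01a95_gt_H.Cauchy

set_option autoImplicit false
set_option linter.all false

open Matrix Filter Topology MeasureTheory Measure
open scoped ENNReal NNReal ContDiff

/-!
Mollification of functions on `α → ℂ` and its interaction with `db`.
-/

namespace Pool.Agent.MPd01a95

open GU

variable {α : Type} [Fintype α] [DecidableEq α]

namespace DbM

/-! ### cutoff functions -/

/-- a smooth cutoff function equal to `1` near the closed `δ`-neighbourhood of `C` -/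
theorem exists_cutoff {Ω C : Set (α → ℂ)} (hΩ : IsOpen Ω) (hC : C ⊆ Ω) (hCc : IsCompact C) :
    ∃ χ : (α → ℂ) → ℝ, ∃ δ > 0, ContDiff ℝ ∞ χ ∧ HasCompactSupport χ ∧ tsupport χ ⊆ Ω ∧
      (∀ v, 0 ≤ χ v ∧ χ v ≤ 1) ∧
      (∀ v ∈ C, ∀ y, dist y v ≤ δ → χ y = 1 ∧ y ∈ Ω) := by
  obtain ⟨δ, hδ, hsub⟩ := hCc.exists_cthickening_subset_open hΩ hC
  have h1 : Metric.cthickening (δ / 2) C ⊆ interior (Metric.cthickening δ C) := by
    refine subset_trans (Metric.cthickening_subset_thickening' hδ (by linarith) C) ?_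
    exact Metric.isOpen_thickening.subset_interior_iff.2 (Metric.thickening_subset_cthickening _ _)
  obtain ⟨f, hf1, hf2, hf3⟩ := exists_contMDiffMap_one_nhds_of_subset_interior
    (n := ⊤) (modelWithCornersSelf ℝ (α → ℂ)) Metric.isClosed_cthickening h1
  have hcth : IsCompact (Metric.cthickening δ C) := hCc.cthickening
  have hsupp : Function.support (f : (α → ℂ) → ℝ) ⊆ Metric.cthickening δ C := by
    intro v hv
    by_contra hcon
    exact hv (hf2 v hcon)
  have hts : tsupport (f : (α → ℂ) → ℝ) ⊆ Metric.cthickening δ C :=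
    closure_minimal hsupp Metric.isClosed_cthickening
  refine ⟨f, δ / 2, by positivity, contMDiff_iff_contDiff.1 f.contMDiff,
    HasCompactSupport.of_support_subset_isCompact hcth hsupp, hts.trans hsub,
    fun v => ⟨(hf3 v).1, (hf3 v).2⟩, ?_⟩
  intro v hv y hy
  have hy2 : y ∈ Metric.cthickening (δ / 2) C :=
    Metric.mem_cthickening_of_dist_le y v (δ / 2) C hv hy
  exact ⟨hf1.self_of_nhdsSet y hy2, hsub (Metric.cthickening_mono (by linarith) C hy2)⟩

/-- the product of a cutoff function and a function continuous on `Ω` is continuous -/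
theorem cutoff_continuous {F : Type} [NormedAddCommGroup F] [NormedSpace ℝ F]
    {Ω : Set (α → ℂ)} (hΩ : IsOpen Ω) {χ : (α → ℂ) → ℝ} (hχ : Continuous χ)
    (hs : tsupport χ ⊆ Ω) {w : (α → ℂ) → F} (hw : ContinuousOn w Ω) :
    Continuous (fun v => χ v • w v) := by
  rw [continuous_iff_continuousAt]
  intro v
  by_cases hv : v ∈ Ω
  · exact hχ.continuousAt.smul (hw.continuousAt (hΩ.mem_nhds hv))
  · have h1 : v ∉ tsupport χ := fun h => hv (hs h)
    have h2 : (fun v => χ v • w v) =ᶠ[𝓝 v] fun _ => 0 := by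
      filter_upwards [notMem_tsupport_iff_eventuallyEq.1 h1] with y hy
      rw [hy]; simp
    exact (continuousAt_const).congr h2.symm

/-- the same for differentiability -/
theorem cutoff_contDiff {F : Type} [NormedAddCommGroup F] [NormedSpace ℝ F] {n : ℕ∞}
    {Ω : Set (α → ℂ)} (hΩ : IsOpen Ω) {χ : (α → ℂ) → ℝ} (hχ : ContDiff ℝ n χ)
    (hs : tsupport χ ⊆ Ω) {w : (α → ℂ) → F} (hw : ContDiffOn ℝ n w Ω) :
    ContDiff ℝ n (fun v => χ v • w v) := by
  rw [contDiff_iff_contDiffAt]
  intro v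
  by_cases hv : v ∈ Ω
  · exact hχ.contDiffAt.smul (hw.contDiffAt (hΩ.mem_nhds hv))
  · have h1 : v ∉ tsupport χ := fun h => hv (hs h)
    have h2 : (fun v => χ v • w v) =ᶠ[𝓝 v] fun _ => 0 := by
      filter_upwards [notMem_tsupport_iff_eventuallyEq.1 h1] with y hy
      rw [hy]; simp
    exact (contDiffAt_const).congr_of_eventuallyEq h2

/-! ### the mollifier -/

/-- a bump function of radius `d` -/
noncomputable def bmp (α : Type) [Fintype α] (d : ℝ) (hd : 0 < d) : ContDiffBump (0 : α → ℂ) :=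
  ⟨d / 2, d, by positivity, by linarith⟩

/-- the normalised bump function -/
noncomputable def rho (α : Type) [Fintype α] (d : ℝ) (hd : 0 < d) : (α → ℂ) → ℝ :=
  (bmp α d hd).normed volume

theorem rho_smooth {d : ℝ} (hd : 0 < d) : ContDiff ℝ ∞ (rho α d hd) :=
  (bmp α d hd).contDiff_normed

theorem rho_cs {d : ℝ} (hd : 0 < d) : HasCompactSupport (rho α d hd) :=
  (bmp α d hd).hasCompactSupport_normed

theorem rho_nonneg {d : ℝ} (hd : 0 < d) (v : α → ℂ) : 0 ≤ rho α d hd v :=
  (bmp α d hd).nonneg_normed v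

theorem rho_int {d : ℝ} (hd : 0 < d) : ∫ v, rho α d hd v = 1 :=
  (bmp α d hd).integral_normed

theorem rho_support {d : ℝ} (hd : 0 < d) :
    Function.support (rho α d hd) = Metric.ball 0 d :=
  (bmp α d hd).support_normed_eq

theorem rho_tsupport {d : ℝ} (hd : 0 < d) :
    tsupport (rho α d hd) = Metric.closedBall 0 d :=
  (bmp α d hd).tsupport_normed_eq

theorem rho_zero {d : ℝ} (hd : 0 < d) {v : α → ℂ} (hv : d ≤ ‖v‖) : rho α d hd v = 0 := by
  by_contra hne
  have h1 : v ∈ Function.support (rho α d hd) := hne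
  rw [rho_support, Metric.mem_ball, dist_zero_right] at h1
  linarith

section mo

variable {F : Type} [NormedAddCommGroup F] [NormedSpace ℝ F] [CompleteSpace F]

/-- mollification -/
noncomputable def mo (ρ : (α → ℂ) → ℝ) (W : (α → ℂ) → F) (v : α → ℂ) : F :=
  ∫ t, ρ (v - t) • W t

omit [DecidableEq α] [CompleteSpace F] in
theorem mo_eq (ρ : (α → ℂ) → ℝ) (W : (α → ℂ) → F) :
    mo ρ W = convolution ρ W (ContinuousLinearMap.lsmul ℝ ℝ) volume := by
  funext v
  rw [mo, convolution_lsmul_swap]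

/-- mollification is local -/
theorem mo_congr {d : ℝ} (hd : 0 < d) {W W' : (α → ℂ) → F} {v : α → ℂ}
    (h : ∀ y, dist y v < d → W y = W' y) : mo (rho α d hd) W v = mo (rho α d hd) W' v := by
  rw [mo, mo]
  congr 1
  funext t
  by_cases ht : dist t v < d
  · rw [h t ht]
  · push Not at ht
    rw [rho_zero hd (by rwa [dist_comm, dist_eq_norm] at ht), zero_smul, zero_smul]

theorem mo_smooth {d : ℝ} (hd : 0 < d) {W : (α → ℂ) → F} (hW : Continuous W) :
    ContDiff ℝ ∞ (mo (rho α d hd) W) := by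
  rw [mo_eq]
  exact (rho_cs hd).contDiff_convolution_left _ (rho_smooth hd) hW.locallyIntegrable

/-- the derivative falls on the kernel -/
theorem mo_fderiv {d : ℝ} (hd : 0 < d) {W : (α → ℂ) → F} (hW : Continuous W) (v e : α → ℂ) :
    fderiv ℝ (mo (rho α d hd) W) v e = ∫ t, (fderiv ℝ (rho α d hd) (v - t) e) • W t := by
  have h0 : mo (rho α d hd) W =
      convolution W (rho α d hd) (ContinuousLinearMap.lsmul ℝ ℝ : ℝ →L[ℝ] F →L[ℝ] F).flip
        volume := by
    rw [mo_eq, convolution_flip]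
  have h1 := (rho_cs hd).hasFDerivAt_convolution_right (μ := volume)
    (ContinuousLinearMap.lsmul ℝ ℝ : ℝ →L[ℝ] F →L[ℝ] F).flip hW.locallyIntegrable
    ((rho_smooth (α := α) hd).of_le (by simp)) v
  rw [h0, h1.fderiv, convolution_precompR_apply _ hW.locallyIntegrable
    ((rho_cs hd).fderiv ℝ) ((rho_smooth hd).continuous_fderiv (by simp))]
  rfl

/-- the derivative falls on the function -/
theorem mo_fderiv' {d : ℝ} (hd : 0 < d) {W : (α → ℂ) → F} (hW : ContDiff ℝ 1 W)
    (hWc : HasCompactSupport W) (v e : α → ℂ) :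
    fderiv ℝ (mo (rho α d hd) W) v e = mo (rho α d hd) (fun y => fderiv ℝ W y e) v := by
  have h1 := hWc.hasFDerivAt_convolution_right (μ := volume)
    (ContinuousLinearMap.lsmul ℝ ℝ : ℝ →L[ℝ] F →L[ℝ] F)
    (rho_smooth (α := α) hd).continuous.locallyIntegrable hW v
  rw [mo_eq, h1.fderiv, convolution_precompR_apply _
    (rho_smooth (α := α) hd).continuous.locallyIntegrable
    (hWc.fderiv ℝ) (hW.continuous_fderiv (by simp)), mo_eq]

/-- mollifications converge uniformly -/
theorem mo_approx {W : (α → ℂ) → F} (hW : Continuous W) (hWc : HasCompactSupport W)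
    {ε : ℝ} (hε : 0 < ε) : ∃ d₀ > 0, ∀ d (hd : 0 < d), d ≤ d₀ → ∀ v,
      ‖mo (rho α d hd) W v - W v‖ ≤ ε := by
  have huc : UniformContinuous W := hWc.uniformContinuous_of_continuous hW
  rw [Metric.uniformContinuous_iff] at huc
  obtain ⟨d₀, hd₀, h⟩ := huc ε hε
  refine ⟨d₀, hd₀, fun d hd hdd v => ?_⟩
  rw [← dist_eq_norm, mo_eq]
  apply (bmp α d hd).dist_normed_convolution_le hW.aestronglyMeasurable
  intro y hy
  exact (h (lt_of_lt_of_le hy hdd)).le

end mo

/-! ### the kernel as a test function -/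

/-- the mollifier centred at `v` as a complex valued function -/
noncomputable def kr {d : ℝ} (hd : 0 < d) (v : α → ℂ) : (α → ℂ) → ℂ :=
  fun y => ((rho α d hd (v - y) : ℝ) : ℂ)

theorem kr_smooth {d : ℝ} (hd : 0 < d) (v : α → ℂ) : ContDiff ℝ ∞ (kr hd v) := by
  apply Complex.ofRealCLM.contDiff.comp
  apply (rho_smooth hd).comp
  exact contDiff_const.sub contDiff_id

theorem kr_supp {d : ℝ} (hd : 0 < d) (v : α → ℂ) :
    Function.support (kr hd v) ⊆ Metric.closedBall v d := by
  intro y hy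
  rw [Metric.mem_closedBall]
  by_contra hcon
  push Not at hcon
  apply hy
  have : rho α d hd (v - y) = 0 := rho_zero hd (by rw [← dist_eq_norm, dist_comm]; exact hcon.le)
  rw [kr, this]; simp

theorem kr_cs {d : ℝ} (hd : 0 < d) (v : α → ℂ) : HasCompactSupport (kr hd v) :=
  HasCompactSupport.of_support_subset_isCompact (isCompact_closedBall v d) (kr_supp hd v)

theorem kr_tsupp {d : ℝ} (hd : 0 < d) (v : α → ℂ) :
    tsupport (kr hd v) ⊆ Metric.closedBall v d :=
  closure_minimal (kr_supp hd v) Metric.isClosed_closedBall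

theorem kr_fderiv {d : ℝ} (hd : 0 < d) (v y e : α → ℂ) :
    fderiv ℝ (kr hd v) y e = - ((fderiv ℝ (rho α d hd) (v - y) e : ℝ) : ℂ) := by
  have h1 : HasFDerivAt (rho α d hd) (fderiv ℝ (rho α d hd) (v - y)) (v - y) :=
    (((rho_smooth hd).differentiable (by simp)) _).hasFDerivAt
  have h2 : HasFDerivAt (fun y : α → ℂ => v - y) (- ContinuousLinearMap.id ℝ (α → ℂ)) y := by
    simpa using (hasFDerivAt_id (𝕜 := ℝ) y).const_sub v
  have h3 := h1.comp y h2
  have h4 := (Complex.ofRealCLM.hasFDerivAt).comp y h3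
  have h5 : kr hd v = (⇑Complex.ofRealCLM ∘ (rho α d hd ∘ fun y => v - y)) := rfl
  rw [h5, h4.fderiv]
  simp

theorem db_kr {d : ℝ} (hd : 0 < d) (v y : α → ℂ) (c : α) :
    db (kr hd v) c y = - ((1 / 2 : ℂ) * (((fderiv ℝ (rho α d hd) (v - y) (Pi.single c 1) : ℝ) : ℂ)
      + Complex.I * ((fderiv ℝ (rho α d hd) (v - y) (Pi.single c Complex.I) : ℝ) : ℂ))) := by
  rw [db, kr_fderiv, kr_fderiv]
  ring

/-- `db` of a mollified function -/
theorem db_mo {d : ℝ} (hd : 0 < d) {W : (α → ℂ) → ℂ} (hW : Continuous W) (c : α)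
    (v : α → ℂ) : db (mo (rho α d hd) W) c v = - ∫ y, db (kr hd v) c y * W y := by
  rw [db, mo_fderiv hd hW, mo_fderiv hd hW]
  have hint : ∀ e : α → ℂ, Integrable (fun t => fderiv ℝ (rho α d hd) (v - t) e • W t) := by
    intro e
    have c1 : Continuous (fun t : α → ℂ => fderiv ℝ (rho α d hd) (v - t) e) := by
      have h1 : Continuous (fderiv ℝ (rho α d hd)) := (rho_smooth hd).continuous_fderiv (by simp)
      exact (h1.comp (by fun_prop : Continuous fun t : α → ℂ => v - t)).clm_apply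
        continuous_const
    have c2 : HasCompactSupport (fun t : α → ℂ => fderiv ℝ (rho α d hd) (v - t) e) := by
      have h2 : HasCompactSupport (fun y => fderiv ℝ (rho α d hd) y e) :=
        (rho_cs hd).fderiv_apply (𝕜 := ℝ) e
      exact h2.comp_homeomorph (Homeomorph.subLeft v)
    exact Continuous.integrable_of_hasCompactSupport (c1.smul hW) c2.smul_right
  rw [← integral_const_mul, ← integral_add (hint _) ((hint _).const_mul _), ← integral_const_mul,
    ← integral_neg]
  congr 1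
  funext y
  rw [db_kr, Complex.real_smul, Complex.real_smul]
  ring

/-- `db` of the mollification of a cut-off weak solution -/
theorem db_mo_weak {Ω : Set (α → ℂ)} (hΩ : IsOpen Ω) {w : (α → ℂ) → ℂ} {f : α → (α → ℂ) → ℂ}
    (hw : ContinuousOn w Ω)
    (hweak : ∀ ψ : (α → ℂ) → ℂ, ContDiff ℝ ∞ ψ → HasCompactSupport ψ → tsupport ψ ⊆ Ω →
      ∀ c, ∫ v, db ψ c v * w v = - ∫ v, ψ v * f c v)
    {χ : (α → ℂ) → ℝ} (hχ : Continuous χ) (hs : tsupport χ ⊆ Ω) {d : ℝ} (hd : 0 < d)
    {v : α → ℂ} (hv : ∀ y, dist y v ≤ d → χ y = 1 ∧ y ∈ Ω) (c : α) :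
    db (mo (rho α d hd) (fun y => χ y • w y)) c v =
      mo (rho α d hd) (fun y => χ y • f c y) v := by
  rw [db_mo hd (cutoff_continuous hΩ hχ hs hw)]
  have hts : tsupport (kr hd v) ⊆ Ω := fun y hy => (hv y (kr_tsupp hd v hy)).2
  have h1 : ∀ y, db (kr hd v) c y * (χ y • w y) = db (kr hd v) c y * w y := by
    intro y
    by_cases hy : dist y v ≤ d
    · rw [(hv y hy).1, one_smul]
    · have h2 : y ∉ tsupport (kr hd v) := fun h => hy (kr_tsupp hd v h)
      have h3 : fderiv ℝ (kr hd v) y = 0 := by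
        have h4 := notMem_tsupport_iff_eventuallyEq.1 h2
        rw [h4.fderiv_eq]
        simp
      rw [db, h3]
      simp
  rw [integral_congr_ae (Eventually.of_forall h1),
    hweak (kr hd v) (kr_smooth hd v) (kr_cs hd v) hts c, neg_neg, mo]
  congr 1
  funext y
  by_cases hy : dist y v ≤ d
  · rw [(hv y hy).1, one_smul, kr, Complex.real_smul]
  · have h5 : rho α d hd (v - y) = 0 := by
      apply rho_zero hd
      rw [← dist_eq_norm, dist_comm]
      push Not at hy
      exact hy.le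
    rw [kr, h5]
    simp

end DbM

end Pool.Agent.MPd01a95
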