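import Mathlib
import Pool.Agent.Lib.MP_d01a95_gt_H.HDefs
import Pool.Agent.Lib.MP_d01a95_gt_H.Unimod
import Pool.Agent.Lib.MP_d01a95_gt_H.DbM

set_option autoImplicit false
set_option linter.all false

open Matrix Filter Topology MeasureTheory Measure
open scoped ENNReal NNReal ContDiff

namespace Pool.Agent.MPd01a95

open GU

variable {κ n ι α : Type} [Fintype κ] [DecidableEq κ] [Fintype n] [DecidableEq n]
  [Fintype ι] [DecidableEq ι] [Fintype α] [DecidableEq α] {G : Type} [Group G]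

/-- module DB1 -/
theorem db_of_weak {Ω : Set (α → ℂ)} (hΩ : IsOpen Ω) {w : (α → ℂ) → ℂ} {f : α → (α → ℂ) → ℂ}
    (hw : ContinuousOn w Ω) (hf : ∀ c, ContinuousOn (f c) Ω)
    (hweak : ∀ ψ : (α → ℂ) → ℂ, ContDiff ℝ ∞ ψ → HasCompactSupport ψ → tsupport ψ ⊆ Ω →
      ∀ c, ∫ v, db ψ c v * w v = - ∫ v, ψ v * f c v) : Db Ω w f := by
  intro C hC hCc ε hε
  obtain ⟨χ, δ, hδ, hχ, hχc, hs, hχ01, hχ1⟩ := DbM.exists_cutoff hΩ hC hCc
  have hWc : Continuous (fun v => χ v • w v) := DbM.cutoff_continuous hΩ hχ.continuous hs hw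
  have hWcs : HasCompactSupport (fun v => χ v • w v) := hχc.smul_right
  obtain ⟨d0, hd0, h0⟩ := DbM.mo_approx hWc hWcs (half_pos hε)
  have hF : ∀ c, ∃ d₀ > 0, ∀ d (hd : 0 < d), d ≤ d₀ → ∀ v,
      ‖DbM.mo (DbM.rho α d hd) (fun v => χ v • f c v) v - χ v • f c v‖ ≤ ε / 2 := fun c =>
    DbM.mo_approx (DbM.cutoff_continuous hΩ hχ.continuous hs (hf c)) hχc.smul_right
      (half_pos hε)
  choose dc hdc hcc using hF
  obtain ⟨d, hd, hdd0, hdδ, hddc⟩ : ∃ d > 0, d ≤ d0 ∧ d ≤ δ ∧ ∀ c, d ≤ dc c := by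
    have h1 : ∀ᶠ d in 𝓝[>] (0 : ℝ), 0 < d ∧ d ≤ d0 ∧ d ≤ δ ∧ ∀ c, d ≤ dc c := by
      have a1 : ∀ᶠ d in 𝓝[>] (0 : ℝ), 0 < d := self_mem_nhdsWithin
      have a2 : ∀ᶠ d in 𝓝[>] (0 : ℝ), d ≤ d0 :=
        (eventually_le_nhds hd0).filter_mono nhdsWithin_le_nhds
      have a3 : ∀ᶠ d in 𝓝[>] (0 : ℝ), d ≤ δ :=
        (eventually_le_nhds hδ).filter_mono nhdsWithin_le_nhds
      have a4 : ∀ᶠ d in 𝓝[>] (0 : ℝ), ∀ c, d ≤ dc c :=
        eventually_all.2 fun c => (eventually_le_nhds (hdc c)).filter_mono nhdsWithin_le_nhds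
      exact a1.and (a2.and (a3.and a4))
    obtain ⟨d, h⟩ := h1.exists
    exact ⟨d, h.1, h.2⟩
  refine ⟨DbM.mo (DbM.rho α d hd) (fun v => χ v • w v), DbM.mo_smooth hd hWc, ?_⟩
  intro v hv
  have hv1 : ∀ y, dist y v ≤ d → χ y = 1 ∧ y ∈ Ω := fun y hy => hχ1 v hv y (hy.trans hdδ)
  have hχv : χ v = 1 := (hv1 v (by rw [dist_self]; exact hd.le)).1
  constructor
  · have h2 := h0 d hd hdd0 v
    rw [hχv, one_smul] at h2
    linarith
  · intro c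
    rw [DbM.db_mo_weak hΩ hw hweak hχ.continuous hs hd hv1 c]
    have h2 := hcc c d hd (hddc c) v
    rw [hχv, one_smul] at h2
    linarith

end Pool.Agent.MPd01a95
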