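import Mathlib
import Pool.Agent.Lib.MP_d01a95_gt_H.HDefs
import Pool.Agent.Lib.MP_d01a95_gt_H.Unimod
set_option autoImplicit false
set_option linter.all false
open Matrix Filter Topology MeasureTheory Measure
open scoped ENNReal NNReal ContDiff
namespace Pool.Agent.MPd01a95
open GU
variable {κ n ι α : Type} [Fintype κ] [DecidableEq κ] [Fintype n] [DecidableEq n] [Fintype ι] [DecidableEq ι] [Fintype α] [DecidableEq α] {G : Type} [Group G]

namespace DB2Aux

theorem db_continuous {u : (α → ℂ) → ℂ} (hu : ContDiff ℝ ∞ u) (c : α) :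
    Continuous (fun v => db u c v) := by
  unfold db
  have h1 := hu.continuous_fderiv (by simp)
  fun_prop

theorem db_compact {u : (α → ℂ) → ℂ} (hu : HasCompactSupport u) (c : α) :
    HasCompactSupport (fun v => db u c v) := by
  have h1 := hu.fderiv (𝕜 := ℝ)
  refine h1.comp_left (g := fun L : (α → ℂ) →L[ℝ] ℂ => (1 / 2 : ℂ) * (L (Pi.single c 1) +
    Complex.I * L (Pi.single c Complex.I))) ?_
  simp

/-- integration by parts for smooth functions -/
theorem by_parts {ψ u : (α → ℂ) → ℂ} (hψ : ContDiff ℝ ∞ ψ) (hψc : HasCompactSupport ψ)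
    (hu : ContDiff ℝ ∞ u) (c : α) : ∫ v, db ψ c v * u v = - ∫ v, ψ v * db u c v := by
  have hψ1 := hψ.continuous_fderiv (by simp)
  have hu1 := hu.continuous_fderiv (by simp)
  have hψd : Differentiable ℝ ψ := hψ.differentiable (by simp)
  have hud : Differentiable ℝ u := hu.differentiable (by simp)
  have hψc1 : ∀ e, HasCompactSupport (fun v => fderiv ℝ ψ v e) := fun e =>
    hψc.fderiv_apply (𝕜 := ℝ) e
  have i1 : ∀ e, Integrable (fun v => fderiv ℝ ψ v e * u v) := fun e =>
    (by fun_prop : Continuous (fun v => fderiv ℝ ψ v e * u v)).integrable_of_hasCompactSupport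
      (hψc1 e).mul_right
  have i2 : ∀ e, Integrable (fun v => ψ v * fderiv ℝ u v e) := fun e =>
    ((by fun_prop : Continuous (fun v => fderiv ℝ u v e)) |> fun h =>
      hψ.continuous.mul h).integrable_of_hasCompactSupport hψc.mul_right
  have i3 : Integrable (fun v => ψ v * u v) :=
    (hψ.continuous.mul hu.continuous).integrable_of_hasCompactSupport hψc.mul_right
  have key : ∀ e, ∫ v, fderiv ℝ ψ v e * u v = - ∫ v, ψ v * fderiv ℝ u v e := by
    intro e
    have := integral_mul_fderiv_eq_neg_fderiv_mul_of_integrable (μ := volume) (f := ψ) (g := u)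
      (v := e) (i1 e) (i2 e) i3 (fun x _ => hψd x) (fun x _ => hud x)
    rw [this, neg_neg]
  have e1 : (fun v => db ψ c v * u v) = fun v => (1 / 2 : ℂ) * (fderiv ℝ ψ v (Pi.single c 1) * u v)
      + (1 / 2 : ℂ) * Complex.I * (fderiv ℝ ψ v (Pi.single c Complex.I) * u v) := by
    funext v
    unfold db
    ring
  have e2 : (fun v => ψ v * db u c v) = fun v => (1 / 2 : ℂ) * (ψ v * fderiv ℝ u v (Pi.single c 1))
      + (1 / 2 : ℂ) * Complex.I * (ψ v * fderiv ℝ u v (Pi.single c Complex.I)) := by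
    funext v
    unfold db
    ring
  rw [e1, e2, integral_add ((i1 _).const_mul _) ((i1 _).const_mul _),
    integral_add ((i2 _).const_mul _) ((i2 _).const_mul _), integral_const_mul,
    integral_const_mul, integral_const_mul, integral_const_mul, key, key]
  ring

end DB2Aux

open DB2Aux

/-- module DB2 -/
theorem weak_of_db {Ω : Set (α → ℂ)} (hΩ : IsOpen Ω) {w : (α → ℂ) → ℂ} {f : α → (α → ℂ) → ℂ}
    (h : Db Ω w f) (ψ : (α → ℂ) → ℂ) (hψ : ContDiff ℝ ∞ ψ) (hψc : HasCompactSupport ψ)
    (hψΩ : tsupport ψ ⊆ Ω) (c : α) : ∫ v, db ψ c v * w v = - ∫ v, ψ v * f c v := by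
  have hcpt : IsCompact (tsupport ψ) := hψc
  have hex : ∀ k : ℕ, ∃ u : (α → ℂ) → ℂ, ContDiff ℝ ∞ u ∧
      ∀ v ∈ tsupport ψ, ‖u v - w v‖ < 1 / ((k : ℝ) + 1) ∧
        ∀ c, ‖db u c v - f c v‖ < 1 / ((k : ℝ) + 1) :=
    fun k => h (tsupport ψ) hψΩ hcpt _ (by positivity)
  choose u hu huv using hex
  have hlim0 : Tendsto (fun k : ℕ => 1 / ((k : ℝ) + 1)) atTop (𝓝 0) :=
    tendsto_one_div_add_atTop_nhds_zero_nat
  have hle1 : ∀ k : ℕ, 1 / ((k : ℝ) + 1) ≤ 1 := by
    intro k
    rw [div_le_one (by positivity)]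
    linarith [(Nat.cast_nonneg k : (0 : ℝ) ≤ k)]
  -- bounds from the first approximation
  obtain ⟨B, hB⟩ := hcpt.exists_bound_of_continuousOn
    (f := fun v => ‖u 0 v‖ + ‖db (u 0) c v‖) (by
      exact ((hu 0).continuous.norm.add (db_continuous (hu 0) c).norm).continuousOn)
  have hB' : ∀ v ∈ tsupport ψ, ‖u 0 v‖ ≤ B ∧ ‖db (u 0) c v‖ ≤ B := by
    intro v hv
    have h1 := hB v hv
    rw [Real.norm_eq_abs, abs_of_nonneg (by positivity)] at h1
    exact ⟨by linarith [norm_nonneg (db (u 0) c v)], by linarith [norm_nonneg (u 0 v)]⟩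
  have tri : ∀ a b x : ℂ, ‖a - x‖ ≤ 1 → ‖b - x‖ ≤ 1 → ‖b‖ ≤ B → ‖a‖ ≤ B + 2 := by
    intro a b x h1 h2 h3
    have e : a = (a - x) - (b - x) + b := by ring
    rw [e]
    refine (norm_add_le _ _).trans ?_
    have := norm_sub_le (a - x) (b - x)
    linarith
  have hub : ∀ k, ∀ v ∈ tsupport ψ, ‖u k v‖ ≤ B + 2 ∧ ‖db (u k) c v‖ ≤ B + 2 := by
    intro k v hv
    exact ⟨tri _ _ _ ((huv k v hv).1.le.trans (hle1 k)) ((huv 0 v hv).1.le.trans (hle1 0))
        (hB' v hv).1,
      tri _ _ _ (((huv k v hv).2 c).le.trans (hle1 k)) (((huv 0 v hv).2 c).le.trans (hle1 0))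
        (hB' v hv).2⟩
  have hdb0 : ∀ v, v ∉ tsupport ψ → db ψ c v = 0 := by
    intro v hv
    unfold db
    have : fderiv ℝ ψ v = 0 := by
      by_contra hne
      exact hv (support_fderiv_subset ℝ hne)
    simp [this]
  have hψ0 : ∀ v, v ∉ tsupport ψ → ψ v = 0 := fun v hv => image_eq_zero_of_notMem_tsupport hv
  have t1 : Tendsto (fun k => ∫ v, db ψ c v * u k v) atTop (𝓝 (∫ v, db ψ c v * w v)) := by
    refine tendsto_integral_of_dominated_convergence (fun v => ‖db ψ c v‖ * (B + 2)) ?_ ?_ ?_ ?_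
    · intro k
      exact ((db_continuous hψ c).mul (hu k).continuous).aestronglyMeasurable
    · refine Integrable.mul_const ?_ _
      exact ((db_continuous hψ c).norm).integrable_of_hasCompactSupport (db_compact hψc c).norm
    · intro k
      refine Filter.Eventually.of_forall fun v => ?_
      by_cases hv : v ∈ tsupport ψ
      · rw [norm_mul]
        exact mul_le_mul_of_nonneg_left (hub k v hv).1 (norm_nonneg _)
      · simp [hdb0 v hv]
    · refine Filter.Eventually.of_forall fun v => ?_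
      by_cases hv : v ∈ tsupport ψ
      · refine Tendsto.const_mul _ ?_
        rw [tendsto_iff_norm_sub_tendsto_zero]
        exact squeeze_zero (fun _ => norm_nonneg _) (fun k => (huv k v hv).1.le) hlim0
      · simp [hdb0 v hv]
  have t2 : Tendsto (fun k => ∫ v, ψ v * db (u k) c v) atTop (𝓝 (∫ v, ψ v * f c v)) := by
    refine tendsto_integral_of_dominated_convergence (fun v => ‖ψ v‖ * (B + 2)) ?_ ?_ ?_ ?_
    · intro k
      exact (hψ.continuous.mul (db_continuous (hu k) c)).aestronglyMeasurable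
    · refine Integrable.mul_const ?_ _
      exact (hψ.continuous.norm).integrable_of_hasCompactSupport hψc.norm
    · intro k
      refine Filter.Eventually.of_forall fun v => ?_
      by_cases hv : v ∈ tsupport ψ
      · rw [norm_mul]
        exact mul_le_mul_of_nonneg_left (hub k v hv).2 (norm_nonneg _)
      · simp [hψ0 v hv]
    · refine Filter.Eventually.of_forall fun v => ?_
      by_cases hv : v ∈ tsupport ψ
      · refine Tendsto.const_mul _ ?_
        rw [tendsto_iff_norm_sub_tendsto_zero]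
        exact squeeze_zero (fun _ => norm_nonneg _) (fun k => ((huv k v hv).2 c).le) hlim0
      · simp [hψ0 v hv]
  have t3 : Tendsto (fun k => ∫ v, db ψ c v * u k v) atTop (𝓝 (-∫ v, ψ v * f c v)) := by
    have : (fun k => ∫ v, db ψ c v * u k v) = fun k => -∫ v, ψ v * db (u k) c v := by
      funext k
      exact by_parts hψ hψc (hu k) c
    rw [this]
    exact t2.neg
  exact tendsto_nhds_unique t1 t3

end Pool.Agent.MPd01a95
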