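import Mathlib
import Pool.Agent.Lib.MP_d01a95_gt_H.HDefs
import Pool.Agent.Lib.MP_d01a95_gt_H.Unimod
set_option autoImplicit false
set_option linter.all false
open Matrix Filter Topology MeasureTheory Measure
open scoped ENNReal NNReal ContDiff
namespace Pool.Agent.MPd01a95
open GU
variable {κ n ι α : Type} [Fintype κ] [DecidableEq κ] [Fintype n] [DecidableEq n] [Fintype ι] [DecidableEq ι] [Fintype α] [DecidableEq α] {G : Type} [Group G]

namespace DB3Aux

theorem db_continuous {u : (α → ℂ) → ℂ} (hu : ContDiff ℝ ∞ u) (c : α) :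
    Continuous (fun v => db u c v) := by
  unfold db
  have h1 := hu.continuous_fderiv (by simp)
  fun_prop

theorem db_add {u v : (α → ℂ) → ℂ} {z : α → ℂ} (c : α) (hu : DifferentiableAt ℝ u z)
    (hv : DifferentiableAt ℝ v z) :
    db (fun z => u z + v z) c z = db u c z + db v c z := by
  unfold db
  rw [fderiv_fun_add hu hv]
  simp only [ContinuousLinearMap.add_apply]
  ring

theorem db_mul {u v : (α → ℂ) → ℂ} {z : α → ℂ} (c : α) (hu : DifferentiableAt ℝ u z)
    (hv : DifferentiableAt ℝ v z) :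
    db (fun z => u z * v z) c z = db u c z * v z + u z * db v c z := by
  unfold db
  rw [fderiv_fun_mul hu hv]
  simp only [ContinuousLinearMap.add_apply, ContinuousLinearMap.smul_apply, smul_eq_mul]
  ring

theorem exists_bound {Ω : Set (α → ℂ)} {w : (α → ℂ) → ℂ} {f : α → (α → ℂ) → ℂ}
    (h : Db Ω w f) {C : Set (α → ℂ)} (hC : C ⊆ Ω) (hCc : IsCompact C) :
    ∃ B : ℝ, 0 ≤ B ∧ ∀ v ∈ C, ‖w v‖ ≤ B ∧ ∀ c, ‖f c v‖ ≤ B := by
  obtain ⟨u, hu, huv⟩ := h C hC hCc 1 one_pos
  obtain ⟨B, hB⟩ := hCc.exists_bound_of_continuousOn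
    (f := fun v => ‖u v‖ + ∑ c, ‖db u c v‖) (by
      refine Continuous.continuousOn ?_
      refine hu.continuous.norm.add ?_
      exact continuous_finset_sum _ fun c _ => (db_continuous hu c).norm)
  refine ⟨|B| + 1, by positivity, ?_⟩
  intro v hv
  have h1 := hB v hv
  have hs : 0 ≤ ∑ c, ‖db u c v‖ := Finset.sum_nonneg fun c _ => norm_nonneg _
  rw [Real.norm_eq_abs, abs_of_nonneg (by positivity)] at h1
  have h2 := (huv v hv)
  constructor
  · have h4 : w v = u v - (u v - w v) := by ring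
    rw [h4]
    refine (norm_sub_le _ _).trans ?_
    have := h2.1
    have := le_abs_self B
    linarith
  · intro c
    have h4 : f c v = db u c v - (db u c v - f c v) := by ring
    rw [h4]
    refine (norm_sub_le _ _).trans ?_
    have h5 := h2.2 c
    have h6 := le_abs_self B
    have h7 : ‖db u c v‖ ≤ ∑ c, ‖db u c v‖ :=
      Finset.single_le_sum (f := fun c => ‖db u c v‖) (fun c _ => norm_nonneg _) (Finset.mem_univ c)
    linarith [norm_nonneg (u v)]

end DB3Aux

open DB3Aux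

/-- module DB3 -/
theorem Db.add {Ω : Set (α → ℂ)} {w w' : (α → ℂ) → ℂ} {f f' : α → (α → ℂ) → ℂ}
    (h : Db Ω w f) (h' : Db Ω w' f') :
    Db Ω (fun v => w v + w' v) (fun c v => f c v + f' c v) := by
  intro C hC hCc ε hε
  obtain ⟨u, hu, huv⟩ := h C hC hCc (ε / 2) (by positivity)
  obtain ⟨u', hu', huv'⟩ := h' C hC hCc (ε / 2) (by positivity)
  refine ⟨fun v => u v + u' v, hu.add hu', ?_⟩
  intro v hv
  constructor
  · have e : u v + u' v - (w v + w' v) = (u v - w v) + (u' v - w' v) := by ring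
    rw [e]
    refine (norm_add_le _ _).trans_lt ?_
    linarith [(huv v hv).1, (huv' v hv).1]
  · intro c
    rw [db_add c (hu.differentiable (by simp) v) (hu'.differentiable (by simp) v)]
    have e : db u c v + db u' c v - (f c v + f' c v) =
      (db u c v - f c v) + (db u' c v - f' c v) := by ring
    rw [e]
    refine (norm_add_le _ _).trans_lt ?_
    linarith [(huv v hv).2 c, (huv' v hv).2 c]

/-- module DB3 -/
theorem Db.continuousOn {Ω : Set (α → ℂ)} (hΩ : IsOpen Ω) {w : (α → ℂ) → ℂ}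
    {f : α → (α → ℂ) → ℂ} (h : Db Ω w f) : ContinuousOn w Ω ∧ ∀ c, ContinuousOn (f c) Ω := by
  have key : ∀ v ∈ Ω, ∃ K, IsCompact K ∧ K ∈ 𝓝 v ∧ K ⊆ Ω := by
    intro v hv
    obtain ⟨K, hK, hKΩ, hKc⟩ := local_compact_nhds (hΩ.mem_nhds hv)
    exact ⟨K, hKc, hK, hKΩ⟩
  constructor
  · intro v hv
    obtain ⟨K, hKc, hKv, hKΩ⟩ := key v hv
    have h1 : ContinuousOn w K := by
      refine continuousOn_of_uniform_approx_of_continuousOn ?_
      intro U hU
      obtain ⟨ε, hε, hεU⟩ := Metric.mem_uniformity_dist.1 hU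
      obtain ⟨u, hu, huv⟩ := h K hKΩ hKc ε hε
      refine ⟨u, hu.continuous.continuousOn, fun y hy => hεU ?_⟩
      rw [dist_comm, dist_eq_norm]
      exact (huv y hy).1
    exact (h1.continuousAt hKv).continuousWithinAt
  · intro c v hv
    obtain ⟨K, hKc, hKv, hKΩ⟩ := key v hv
    have h1 : ContinuousOn (f c) K := by
      refine continuousOn_of_uniform_approx_of_continuousOn ?_
      intro U hU
      obtain ⟨ε, hε, hεU⟩ := Metric.mem_uniformity_dist.1 hU
      obtain ⟨u, hu, huv⟩ := h K hKΩ hKc ε hε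
      refine ⟨fun v => db u c v, (db_continuous hu c).continuousOn, fun y hy => hεU ?_⟩
      rw [dist_comm, dist_eq_norm]
      exact (huv y hy).2 c
    exact (h1.continuousAt hKv).continuousWithinAt

/-- module DB3 -/
theorem Db.mul {Ω : Set (α → ℂ)} (hΩ : IsOpen Ω) {w w' : (α → ℂ) → ℂ} {f f' : α → (α → ℂ) → ℂ}
    (h : Db Ω w f) (h' : Db Ω w' f') :
    Db Ω (fun v => w v * w' v) (fun c v => f c v * w' v + w v * f' c v) := by
  intro C hC hCc ε hε
  obtain ⟨B, hB0, hB⟩ := exists_bound h hC hCc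
  obtain ⟨B', hB'0, hB'⟩ := exists_bound h' hC hCc
  set D : ℝ := 2 * (B + B' + 1) with hD
  have hD0 : 0 < D := by positivity
  set δ : ℝ := min 1 (ε / (2 * D)) with hδ
  have hδ0 : 0 < δ := lt_min one_pos (by positivity)
  have hδ1 : δ ≤ 1 := min_le_left _ _
  have hδD : δ * D < ε := by
    have : δ ≤ ε / (2 * D) := min_le_right _ _
    calc δ * D ≤ ε / (2 * D) * D := by gcongr
      _ = ε / 2 := by field_simp
      _ < ε := by linarith
  obtain ⟨u, hu, huv⟩ := h C hC hCc δ hδ0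
  obtain ⟨u', hu', huv'⟩ := h' C hC hCc δ hδ0
  refine ⟨fun v => u v * u' v, hu.mul hu', ?_⟩
  intro v hv
  obtain ⟨hw, hf⟩ := hB v hv
  obtain ⟨hw', hf'⟩ := hB' v hv
  obtain ⟨a1, a2⟩ := huv v hv
  obtain ⟨b1, b2⟩ := huv' v hv
  have hu'n : ‖u' v‖ ≤ B' + δ := by
    have e : u' v = w' v + (u' v - w' v) := by ring
    rw [e]
    exact (norm_add_le _ _).trans (add_le_add hw' b1.le)
  have hun : ‖u v‖ ≤ B + δ := by
    have e : u v = w v + (u v - w v) := by ring
    rw [e]
    exact (norm_add_le _ _).trans (add_le_add hw a1.le)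
  constructor
  · have e : u v * u' v - w v * w' v = (u v - w v) * u' v + w v * (u' v - w' v) := by ring
    rw [e]
    refine (norm_add_le _ _).trans_lt ?_
    rw [norm_mul, norm_mul]
    calc ‖u v - w v‖ * ‖u' v‖ + ‖w v‖ * ‖u' v - w' v‖ ≤ δ * (B' + δ) + B * δ := by gcongr
      _ ≤ δ * D := by rw [hD]; nlinarith
      _ < ε := hδD
  · intro c
    rw [db_mul c (hu.differentiable (by simp) v) (hu'.differentiable (by simp) v)]
    have e : db u c v * u' v + u v * db u' c v - (f c v * w' v + w v * f' c v) =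
      ((db u c v - f c v) * u' v + f c v * (u' v - w' v)) +
        ((u v - w v) * f' c v + u v * (db u' c v - f' c v)) := by ring
    rw [e]
    refine (norm_add_le _ _).trans_lt ?_
    have h1 : ‖(db u c v - f c v) * u' v + f c v * (u' v - w' v)‖ ≤ δ * (B' + δ) + B * δ := by
      refine (norm_add_le _ _).trans ?_
      rw [norm_mul, norm_mul]
      have := a2 c
      have := hf c
      gcongr
    have h2 : ‖(u v - w v) * f' c v + u v * (db u' c v - f' c v)‖ ≤ δ * B' + (B + δ) * δ := by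
      refine (norm_add_le _ _).trans ?_
      rw [norm_mul, norm_mul]
      have := b2 c
      have := hf' c
      gcongr
    have h3 : (δ * (B' + δ) + B * δ) + (δ * B' + (B + δ) * δ) ≤ δ * D := by
      rw [hD]; nlinarith
    linarith

/-- module DB3 -/
theorem Db.congr {Ω : Set (α → ℂ)} {w w' : (α → ℂ) → ℂ} {f f' : α → (α → ℂ) → ℂ}
    (h : Db Ω w f) (h1 : ∀ v ∈ Ω, w v = w' v) (h2 : ∀ c, ∀ v ∈ Ω, f c v = f' c v) :
    Db Ω w' f' := by
  intro C hC hCc ε hε
  obtain ⟨u, hu, huv⟩ := h C hC hCc ε hε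
  refine ⟨u, hu, fun v hv => ?_⟩
  obtain ⟨a, b⟩ := huv v hv
  refine ⟨by rw [← h1 v (hC hv)]; exact a, fun c => ?_⟩
  rw [← h2 c v (hC hv)]
  exact b c

end Pool.Agent.MPd01a95
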