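import Mathlib
import Pool.Agent.Lib.MP_d01a95_gt_H.HDefs
import Pool.Agent.Lib.MP_d01a95_gt_H.Unimod
import Pool.Agent.Lib.MP_d01a95_gt_H.DbM
import Pool.Agent.Lib.MP_d01a95_gt_H.DB1

set_option autoImplicit false
set_option linter.all false

open Matrix Filter Topology MeasureTheory Measure
open scoped ENNReal NNReal ContDiff

namespace Pool.Agent.MPd01a95

open GU

variable {κ n ι α : Type} [Fintype κ] [DecidableEq κ] [Fintype n] [DecidableEq n]
  [Fintype ι] [DecidableEq ι] [Fintype α] [DecidableEq α] {G : Type} [Group G]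

namespace DB4Aux

/-- continuity of a product with a test function -/
theorem mulcut {Ω : Set (α → ℂ)} (hΩ : IsOpen Ω) {ψ w : (α → ℂ) → ℂ} (hψ : Continuous ψ)
    (hs : tsupport ψ ⊆ Ω) (hw : ContinuousOn w Ω) : Continuous (fun v => ψ v * w v) := by
  rw [continuous_iff_continuousAt]
  intro v
  by_cases hv : v ∈ Ω
  · exact hψ.continuousAt.mul (hw.continuousAt (hΩ.mem_nhds hv))
  · have h1 : v ∉ tsupport ψ := fun h => hv (hs h)
    have h2 : (fun v => ψ v * w v) =ᶠ[𝓝 v] fun _ => 0 := by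
      filter_upwards [notMem_tsupport_iff_eventuallyEq.1 h1] with y hy
      rw [hy]; simp
    exact (continuousAt_const).congr h2.symm

/-- integrability of a product with a test function -/
theorem mulcut_int {Ω : Set (α → ℂ)} (hΩ : IsOpen Ω) {ψ w : (α → ℂ) → ℂ} (hψ : Continuous ψ)
    (hψc : HasCompactSupport ψ) (hs : tsupport ψ ⊆ Ω) (hw : ContinuousOn w Ω) :
    Integrable (fun v => ψ v * w v) :=
  (mulcut hΩ hψ hs hw).integrable_of_hasCompactSupport hψc.mul_right

/-- integration by parts against a test function, for a `C¹` function -/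
theorem parts {Ω : Set (α → ℂ)} (hΩ : IsOpen Ω) {w : (α → ℂ) → ℂ} (hw : ContDiffOn ℝ 1 w Ω)
    {ψ : (α → ℂ) → ℂ} (hψ : ContDiff ℝ ∞ ψ) (hψc : HasCompactSupport ψ) (hs : tsupport ψ ⊆ Ω)
    (c : α) : ∫ v, db ψ c v * w v = - ∫ v, ψ v * db w c v := by
  have hw0 : ContinuousOn w Ω := hw.continuousOn
  have hwd : ∀ e : α → ℂ, ContinuousOn (fun v => fderiv ℝ w v e) Ω := fun e =>
    (hw.continuousOn_fderiv_of_isOpen hΩ (by simp)).clm_apply continuousOn_const
  have hψd : ∀ e : α → ℂ, Continuous (fun v => fderiv ℝ ψ v e) := fun e =>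
    (hψ.continuous_fderiv (by simp)).clm_apply continuous_const
  have hψdc : ∀ e : α → ℂ, HasCompactSupport (fun v => fderiv ℝ ψ v e) := fun e =>
    hψc.fderiv_apply (𝕜 := ℝ) e
  have hψds : ∀ e : α → ℂ, tsupport (fun v => fderiv ℝ ψ v e) ⊆ Ω := fun e =>
    (tsupport_fderiv_apply_subset ℝ e).trans hs
  have key : ∀ e : α → ℂ, ∫ v, ψ v * fderiv ℝ w v e = - ∫ v, fderiv ℝ ψ v e * w v := by
    intro e
    apply integral_mul_fderiv_eq_neg_fderiv_mul_of_integrable
    · exact mulcut_int hΩ (hψd e) (hψdc e) (hψds e) hw0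
    · exact mulcut_int hΩ hψ.continuous hψc hs (hwd e)
    · exact mulcut_int hΩ hψ.continuous hψc hs hw0
    · exact fun x _ => (hψ.differentiable (by simp)) x
    · exact fun x hx => (hw.contDiffAt (hΩ.mem_nhds (hs hx))).differentiableAt (by simp)
  have i1 : ∀ e : α → ℂ, Integrable (fun v => fderiv ℝ ψ v e * w v) := fun e =>
    mulcut_int hΩ (hψd e) (hψdc e) (hψds e) hw0
  have i2 : ∀ e : α → ℂ, Integrable (fun v => ψ v * fderiv ℝ w v e) := fun e =>
    mulcut_int hΩ hψ.continuous hψc hs (hwd e)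
  have e1 : ∀ v, db ψ c v * w v = (1 / 2 : ℂ) * (fderiv ℝ ψ v (Pi.single c 1) * w v) +
      (Complex.I / 2) * (fderiv ℝ ψ v (Pi.single c Complex.I) * w v) := by
    intro v; rw [db]; ring
  have e2 : ∀ v, ψ v * db w c v = (1 / 2 : ℂ) * (ψ v * fderiv ℝ w v (Pi.single c 1)) +
      (Complex.I / 2) * (ψ v * fderiv ℝ w v (Pi.single c Complex.I)) := by
    intro v; rw [db]; ring
  rw [integral_congr_ae (Eventually.of_forall e1), integral_congr_ae (Eventually.of_forall e2),
    integral_add ((i1 _).const_mul _) ((i1 _).const_mul _),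
    integral_add ((i2 _).const_mul _) ((i2 _).const_mul _), integral_const_mul,
    integral_const_mul, integral_const_mul, integral_const_mul, key, key]
  ring

end DB4Aux

/-- module DB4 -/
theorem db_of_C1 {Ω : Set (α → ℂ)} (hΩ : IsOpen Ω) {w : (α → ℂ) → ℂ}
    (hw : ContDiffOn ℝ 1 w Ω) : Db Ω w (fun c v => db w c v) := by
  apply db_of_weak hΩ hw.continuousOn
  · intro c
    have hwd : ∀ e : α → ℂ, ContinuousOn (fun v => fderiv ℝ w v e) Ω := fun e =>
      (hw.continuousOn_fderiv_of_isOpen hΩ (by simp)).clm_apply continuousOn_const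
    exact continuousOn_const.mul ((hwd _).add (continuousOn_const.mul (hwd _)))
  · intro ψ hψ hψc hs c
    exact DB4Aux.parts hΩ hw hψ hψc hs c

/-- module DB4: composition with a complex affine map -/
theorem Db.affine {α' : Type} [Fintype α'] [DecidableEq α'] {Ω : Set (α → ℂ)}
    {w : (α → ℂ) → ℂ} {f : α → (α → ℂ) → ℂ} (h : Db Ω w f) (L : (α' → ℂ) →L[ℂ] (α → ℂ))
    (v₀ : α → ℂ) {Ω' : Set (α' → ℂ)} (hΩ' : ∀ z ∈ Ω', v₀ + L z ∈ Ω) :
    Db Ω' (fun z => w (v₀ + L z))
      (fun c z => ∑ a, star (L (Pi.single c 1) a) * f a (v₀ + L z)) := by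
  intro C hC hCc ε hε
  have hcont : Continuous (fun z : α' → ℂ => v₀ + L z) := continuous_const.add L.continuous
  set M : ℝ := ∑ c, ∑ a, ‖L (Pi.single c 1) a‖ with hM
  have hM0 : 0 ≤ M := Finset.sum_nonneg fun c _ => Finset.sum_nonneg fun a _ => norm_nonneg _
  obtain ⟨u, hu, hu2⟩ := h ((fun z => v₀ + L z) '' C)
    (by rintro _ ⟨z, hz, rfl⟩; exact hΩ' z (hC hz)) (hCc.image hcont) (ε / (M + 1))
    (div_pos hε (by linarith))
  have hle : ε / (M + 1) ≤ ε := by
    rw [div_le_iff₀ (by linarith)]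
    nlinarith
  refine ⟨fun z => u (v₀ + L z), ?_, ?_⟩
  · exact hu.comp (contDiff_const.add (L.restrictScalars ℝ).contDiff)
  intro z hz
  have h1 := hu2 (v₀ + L z) ⟨z, hz, rfl⟩
  refine ⟨lt_of_lt_of_le h1.1 hle, fun c => ?_⟩
  have hder : ∀ y, fderiv ℝ (fun z => u (v₀ + L z)) z y = fderiv ℝ u (v₀ + L z) (L y) := by
    intro y
    have h2 : HasFDerivAt u (fderiv ℝ u (v₀ + L z)) (v₀ + L z) :=
      ((hu.differentiable (by simp)) _).hasFDerivAt
    have h3 : HasFDerivAt (fun z : α' → ℂ => v₀ + L z) (L.restrictScalars ℝ) z :=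
      ((L.restrictScalars ℝ).hasFDerivAt).const_add v₀
    have h4 := h2.comp z h3
    have h5 : fderiv ℝ (fun z => u (v₀ + L z)) z =
        (fderiv ℝ u (v₀ + L z)).comp (L.restrictScalars ℝ) := h4.fderiv
    rw [h5]
    rfl
  have hdb : db (fun z => u (v₀ + L z)) c z =
      ∑ a, star (L (Pi.single c 1) a) * db u a (v₀ + L z) := by
    have h6 := CauchyAux.fderiv_db u (v₀ + L z) (L (Pi.single c 1))
    have h7 : L (Pi.single c Complex.I) = Complex.I • L (Pi.single c 1) := by
      rw [← map_smul]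
      congr 1
      funext d
      by_cases hd : d = c
      · subst hd; simp
      · simp [Pi.single_eq_of_ne hd]
    rw [db, hder, hder, h7]
    linear_combination (1 / 2 : ℂ) * h6
  rw [hdb, ← Finset.sum_sub_distrib]
  have h8 : ∀ a, ‖star (L (Pi.single c 1) a) * db u a (v₀ + L z) -
      star (L (Pi.single c 1) a) * f a (v₀ + L z)‖ ≤
      ‖L (Pi.single c 1) a‖ * (ε / (M + 1)) := by
    intro a
    rw [← mul_sub, norm_mul, norm_star]
    exact mul_le_mul_of_nonneg_left (h1.2 a).le (norm_nonneg _)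
  refine lt_of_le_of_lt (norm_sum_le_of_le _ fun a _ => h8 a) ?_
  rw [← Finset.sum_mul]
  have h9 : ∑ a, ‖L (Pi.single c 1) a‖ ≤ M :=
    Finset.single_le_sum (f := fun c => ∑ a, ‖L (Pi.single c 1) a‖)
      (fun c _ => Finset.sum_nonneg fun a _ => norm_nonneg _) (Finset.mem_univ c)
  calc (∑ a, ‖L (Pi.single c 1) a‖) * (ε / (M + 1)) ≤ M * (ε / (M + 1)) :=
        mul_le_mul_of_nonneg_right h9 (by positivity)
    _ < (M + 1) * (ε / (M + 1)) := by
        apply mul_lt_mul_of_pos_right (by linarith)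
        exact div_pos hε (by linarith)
    _ = ε := by field_simp

end Pool.Agent.MPd01a95
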