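import Mathlib
import Pool.Agent.Lib.MP_d01a95_gt_H.HDefs
import Pool.Agent.Lib.MP_d01a95_gt_H.Unimod
import Pool.Agent.Lib.MP_d01a95_gt_H.DbM
import Pool.Agent.Lib.MP_d01a95_gt_H.DB2
import Pool.Agent.Lib.MP_d01a95_gt_H.DB3

set_option autoImplicit false
set_option linter.all false

open Matrix Filter Topology MeasureTheory Measure
open scoped ENNReal NNReal ContDiff

namespace Pool.Agent.MPd01a95

open GU

variable {κ n ι α : Type} [Fintype κ] [DecidableEq κ] [Fintype n] [DecidableEq n]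
  [Fintype ι] [DecidableEq ι] [Fintype α] [DecidableEq α] {G : Type} [Group G]

/-- module DB6 -/
theorem moll2 {Ω : Set (α → ℂ)} (hΩ : IsOpen Ω) {u : (α → ℂ) → ℝ} (hu : ContDiffOn ℝ 1 u Ω)
    {g : α → α → (α → ℂ) → ℂ}
    (h : ∀ a, Db Ω (fun v => (1 / 2 : ℂ) * (fderiv ℝ u v (Pi.single a 1) -
      Complex.I * fderiv ℝ u v (Pi.single a Complex.I))) (g a))
    (C : Set (α → ℂ)) (hC : C ⊆ Ω) (hCc : IsCompact C) (ε : ℝ) (hε : 0 < ε) :
    ∃ U : (α → ℂ) → ℝ, ContDiff ℝ ∞ U ∧ ∀ v ∈ C, |U v - u v| < ε ∧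
      ∀ a c, ‖db (fun v' => (1 / 2 : ℂ) * (fderiv ℝ U v' (Pi.single a 1) -
      Complex.I * fderiv ℝ U v' (Pi.single a Complex.I))) c v - g a c v‖ < ε := by
  obtain ⟨χ, δ, hδ, hχ, hχc, hs, hχ01, hχ1⟩ := DbM.exists_cutoff hΩ hC hCc
  set W : (α → ℂ) → ℝ := fun v => χ v • u v with hW
  have hW1 : ContDiff ℝ 1 W := by
    have := DbM.cutoff_contDiff (n := 1) hΩ (hχ.of_le (by simp)) hs hu
    exact this
  have hWcs : HasCompactSupport W := hχc.smul_right
  set w : α → (α → ℂ) → ℂ := fun a v => (1 / 2 : ℂ) * (fderiv ℝ u v (Pi.single a 1) -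
      Complex.I * fderiv ℝ u v (Pi.single a Complex.I)) with hw
  have hwc : ∀ a, ContinuousOn (w a) Ω := fun a => (Db.continuousOn hΩ (h a)).1
  have hgc : ∀ a c, ContinuousOn (g a c) Ω := fun a => (Db.continuousOn hΩ (h a)).2
  obtain ⟨d0, hd0, h0⟩ := DbM.mo_approx hW1.continuous hWcs (half_pos hε)
  have hF : ∀ p : α × α, ∃ d₀ > 0, ∀ d (hd : 0 < d), d ≤ d₀ → ∀ v,
      ‖DbM.mo (DbM.rho α d hd) (fun v => χ v • g p.1 p.2 v) v - χ v • g p.1 p.2 v‖ ≤ ε / 2 :=
    fun p => DbM.mo_approx (DbM.cutoff_continuous hΩ hχ.continuous hs (hgc p.1 p.2))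
      hχc.smul_right (half_pos hε)
  choose dc hdc hcc using hF
  obtain ⟨d, hd, hdd0, hdδ, hddc⟩ : ∃ d > 0, d ≤ d0 ∧ d ≤ δ / 2 ∧ ∀ c, d ≤ dc c := by
    have h1 : ∀ᶠ d in 𝓝[>] (0 : ℝ), 0 < d ∧ d ≤ d0 ∧ d ≤ δ / 2 ∧ ∀ c, d ≤ dc c := by
      have a1 : ∀ᶠ d in 𝓝[>] (0 : ℝ), 0 < d := self_mem_nhdsWithin
      have a2 : ∀ᶠ d in 𝓝[>] (0 : ℝ), d ≤ d0 :=
        (eventually_le_nhds hd0).filter_mono nhdsWithin_le_nhds
      have a3 : ∀ᶠ d in 𝓝[>] (0 : ℝ), d ≤ δ / 2 :=
        (eventually_le_nhds (half_pos hδ)).filter_mono nhdsWithin_le_nhds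
      have a4 : ∀ᶠ d in 𝓝[>] (0 : ℝ), ∀ c, d ≤ dc c :=
        eventually_all.2 fun c => (eventually_le_nhds (hdc c)).filter_mono nhdsWithin_le_nhds
      exact a1.and (a2.and (a3.and a4))
    obtain ⟨d, h⟩ := h1.exists
    exact ⟨d, h.1, h.2⟩
  refine ⟨DbM.mo (DbM.rho α d hd) W, DbM.mo_smooth hd hW1.continuous, ?_⟩
  intro v hv
  have hv1 : ∀ y, dist y v ≤ d → χ y = 1 ∧ y ∈ Ω := fun y hy => hχ1 v hv y (by linarith)
  have hχv : χ v = 1 := (hv1 v (by rw [dist_self]; exact hd.le)).1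
  constructor
  · have h2 := h0 d hd hdd0 v
    simp only [hW, hχv, one_smul] at h2
    rw [Real.norm_eq_abs] at h2
    have h3 : |DbM.mo (DbM.rho α d hd) W v - u v| ≤ ε / 2 := h2
    linarith
  · intro a c
    -- the complex derivative of the mollification near `v`
    have hWu : ∀ y, dist y v < δ → fderiv ℝ W y = fderiv ℝ u y := by
      intro y hy
      apply Filter.EventuallyEq.fderiv_eq
      have : Metric.ball v δ ∈ 𝓝 y := Metric.isOpen_ball.mem_nhds hy
      filter_upwards [this] with z hz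
      rw [hW]
      simp only
      rw [(hχ1 v hv z (le_of_lt hz)).1, one_smul]
    have hcontW : ∀ e : α → ℂ, Continuous (fun y => fderiv ℝ W y e) := fun e =>
      (hW1.continuous_fderiv (by simp)).clm_apply continuous_const
    have hcsW : ∀ e : α → ℂ, HasCompactSupport (fun y => fderiv ℝ W y e) := fun e =>
      hWcs.fderiv_apply (𝕜 := ℝ) e
    have hint : ∀ (v' e : α → ℂ), Integrable
        (fun t => DbM.rho α d hd (v' - t) • ((fderiv ℝ W t e : ℝ) : ℂ)) := by
      intro v' e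
      apply Continuous.integrable_of_hasCompactSupport
      · have c1 : Continuous (fun t : α → ℂ => DbM.rho α d hd (v' - t)) :=
          (DbM.rho_smooth hd).continuous.comp (by fun_prop)
        exact c1.smul (Complex.continuous_ofReal.comp (hcontW e))
      · have c2 : HasCompactSupport (fun t => ((fderiv ℝ W t e : ℝ) : ℂ)) :=
          (hcsW e).comp_left (g := fun x : ℝ => (x : ℂ)) (by simp)
        exact c2.smul_left (f := fun t : α → ℂ => DbM.rho α d hd (v' - t))
    have hcast : ∀ v' e : α → ℂ, ((DbM.mo (DbM.rho α d hd) (fun y => fderiv ℝ W y e) v' : ℝ) : ℂ)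
        = ∫ t, DbM.rho α d hd (v' - t) • ((fderiv ℝ W t e : ℝ) : ℂ) := by
      intro v' e
      rw [DbM.mo, ← integral_complex_ofReal]
      congr 1
      funext t
      simp
    have heq : (fun v' => (1 / 2 : ℂ) * (fderiv ℝ (DbM.mo (DbM.rho α d hd) W) v' (Pi.single a 1) -
        Complex.I * fderiv ℝ (DbM.mo (DbM.rho α d hd) W) v' (Pi.single a Complex.I))) =ᶠ[𝓝 v]
        DbM.mo (DbM.rho α d hd) (fun y => χ y • w a y) := by
      have : Metric.ball v (δ / 2) ∈ 𝓝 v := Metric.ball_mem_nhds v (half_pos hδ)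
      filter_upwards [this] with v' hv'
      rw [DbM.mo_fderiv' hd hW1 hWcs, DbM.mo_fderiv' hd hW1 hWcs, hcast, hcast,
        ← integral_const_mul, ← integral_sub (hint _ _) ((hint _ _).const_mul _),
        ← integral_const_mul, DbM.mo]
      congr 1
      funext t
      by_cases ht : dist t v' < d
      · have h5 : dist t v < δ := by
          have := dist_triangle t v' v
          rw [Metric.mem_ball] at hv'
          linarith
        rw [hWu t h5, (hχ1 v hv t h5.le).1, one_smul]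
        simp only [hw, Complex.real_smul]
        ring
      · have h6 : DbM.rho α d hd (v' - t) = 0 := by
          apply DbM.rho_zero hd
          push Not at ht
          rwa [← dist_eq_norm, dist_comm]
        rw [h6]
        simp
    have h7 : db (fun v' => (1 / 2 : ℂ) *
        (fderiv ℝ (DbM.mo (DbM.rho α d hd) W) v' (Pi.single a 1) -
        Complex.I * fderiv ℝ (DbM.mo (DbM.rho α d hd) W) v' (Pi.single a Complex.I))) c v =
        db (DbM.mo (DbM.rho α d hd) (fun y => χ y • w a y)) c v := by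
      rw [db, db, heq.fderiv_eq]
    rw [h7, DbM.db_mo_weak hΩ (hwc a) (fun ψ hψ hψc hψs c => weak_of_db hΩ (h a) ψ hψ hψc hψs c)
      hχ.continuous hs hd hv1 c]
    have h2 := hcc (a, c) d hd (hddc (a, c)) v
    simp only [hχv, one_smul] at h2
    linarith

end Pool.Agent.MPd01a95
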