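import Mathlib
import Pool.Agent.Lib.MP_d01a95_gt_H.HDefs
import Pool.Agent.Lib.MP_d01a95_gt_H.Unimod

set_option autoImplicit false
set_option linter.all false

open Matrix Filter Topology MeasureTheory Measure
open scoped ENNReal NNReal ContDiff

namespace Pool.Agent.MPd01a95

open GU

variable {κ n ι α : Type} [Fintype κ] [DecidableEq κ] [Fintype n] [DecidableEq n]
  [Fintype ι] [DecidableEq ι] [Fintype α] [DecidableEq α] {G : Type} [Group G]

namespace TcAux

/-- bounded transform of the entries -/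
noncomputable def fa (F : GU κ → PD n) (g : GU κ) : n → n → ℝ :=
  fun i j => Real.arctan ((F g).M i j)

theorem measurable_fa {F : GU κ → PD n} (hF : Measurable F) : Measurable (fa F) :=
  measurable_pi_iff.mpr fun i => measurable_pi_iff.mpr fun j =>
    Real.measurable_arctan.comp (PD.measurable_iff.mp hF i j)

theorem norm_fa (F : GU κ → PD n) (g : GU κ) : ‖fa F g‖ ≤ Real.pi / 2 := by
  have hp := Real.pi_pos
  rw [pi_norm_le_iff_of_nonneg (by positivity)]
  intro i
  rw [pi_norm_le_iff_of_nonneg (by positivity)]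
  intro j
  rw [Real.norm_eq_abs, abs_le]
  exact ⟨(Real.neg_pi_div_two_lt_arctan _).le, (Real.arctan_lt_pi_div_two _).le⟩

theorem tendsto_of_fa {F : GU κ → PD n} {u : ℕ → GU κ} {g : GU κ}
    (h : Tendsto (fun N => fa F (u N)) atTop (𝓝 (fa F g))) :
    Tendsto (fun N => F (u N)) atTop (𝓝 (F g)) := by
  apply PD.tendsto_of_M
  refine tendsto_pi_nhds.mpr fun i => tendsto_pi_nhds.mpr fun j => ?_
  have h1 : Tendsto (fun N => fa F (u N) i j) atTop (𝓝 (fa F g i j)) :=
    (tendsto_pi_nhds.mp ((tendsto_pi_nhds.mp h) i)) j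
  have h2 : ContinuousAt Real.tan (fa F g i j) :=
    Real.continuousAt_tan.mpr (Real.cos_arctan_pos _).ne'
  have h3 := h2.tendsto.comp h1
  have e : ∀ x : GU κ, Real.tan (fa F x i j) = (F x).M i j := fun x => Real.tan_arctan _
  rw [e] at h3
  refine h3.congr fun N => ?_
  exact e _

end TcAux

open TcAux in
/-- module TC: translations converge almost everywhere along subsequences -/
theorem trans_ae (μ : Measure (GU κ)) [IsHaarMeasure μ] [μ.IsMulRightInvariant]
    {F : GU κ → PD n} (hF : Measurable F) {y : ℕ → GU κ} {y₀ : GU κ}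
    (hy : Tendsto y atTop (𝓝 y₀)) (B : Set (GU κ)) (hB : IsCompact B) :
    ∃ s : ℕ → ℕ, StrictMono s ∧
      ∀ᵐ g ∂(μ.restrict B), Tendsto (fun N => F (g * y (s N))) atTop (𝓝 (F (g * y₀))) := by
  classical
  set B' : Set (GU κ) := (fun p : GU κ × GU κ => p.1 * p.2) '' (B ×ˢ (insert y₀ (Set.range y)))
    with hB'
  have hcB' : IsCompact B' := (hB.prod hy.isCompact_insert_range).image continuous_mul
  have hmemN : ∀ g ∈ B, ∀ N, g * y N ∈ B' := fun g hg N =>
    ⟨(g, y N), ⟨hg, Set.mem_insert_of_mem _ (Set.mem_range_self N)⟩, rfl⟩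
  have hmem0 : ∀ g ∈ B, g * y₀ ∈ B' := fun g hg => ⟨(g, y₀), ⟨hg, Set.mem_insert _ _⟩, rfl⟩
  haveI : IsFiniteMeasure (μ.restrict B') := ⟨by
    rw [Measure.restrict_apply_univ]
    exact hcB'.measure_lt_top⟩
  have hmeas := measurable_fa hF
  have hLp : MemLp (B'.indicator (fa F)) 1 μ :=
    (memLp_indicator_iff_restrict hcB'.measurableSet).mpr
      (MemLp.of_bound hmeas.aestronglyMeasurable (Real.pi / 2)
        (Eventually.of_forall fun g => norm_fa F g))
  set f : Lp (n → n → ℝ) 1 μ := hLp.toLp _ with hf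
  have hmp : ∀ z : GU κ, MeasurePreserving (fun g : GU κ => g * z) μ μ := fun z =>
    measurePreserving_mul_right μ z
  -- the right translations as a continuous family
  let T : GU κ → C(GU κ, GU κ) :=
    (ContinuousMap.mk (fun a : GU κ × GU κ => a.2 * a.1) (by fun_prop)).curry
  have hT : Continuous T := ContinuousMap.continuous _
  have hT0 : ∀ z, (T z : GU κ → GU κ) = fun g => g * z := fun z => rfl
  have hmpT : ∀ z, MeasurePreserving (T z) μ μ := fun z => hmp z
  have hconv : Tendsto (fun N => Lp.compMeasurePreserving (T (y N)) (hmpT (y N)) f) atTop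
      (𝓝 (Lp.compMeasurePreserving (T y₀) (hmpT y₀) f)) :=
    Filter.Tendsto.compMeasurePreservingLp (p := 1) tendsto_const_nhds
      ((hT.tendsto y₀).comp hy) (fun N => hmpT (y N)) (hmpT y₀) (by norm_num)
  obtain ⟨s, hs, hs2⟩ := (tendstoInMeasure_of_tendsto_Lp hconv).exists_seq_tendsto_ae
  refine ⟨s, hs, ?_⟩
  have hco : ∀ z, (Lp.compMeasurePreserving (T z) (hmpT z) f : GU κ → n → n → ℝ) =ᵐ[μ]
      fun g => B'.indicator (fa F) (g * z) := by
    intro z
    have h1 := Lp.coeFn_compMeasurePreserving f (hmpT z)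
    have h2 : (f : GU κ → n → n → ℝ) ∘ (T z) =ᵐ[μ] (B'.indicator (fa F)) ∘ (T z) :=
      (hmpT z).quasiMeasurePreserving.ae_eq_comp hLp.coeFn_toLp
    exact h1.trans h2
  have hall : ∀ᵐ g ∂μ, ∀ N, (Lp.compMeasurePreserving (T (y N)) (hmpT (y N)) f :
      GU κ → n → n → ℝ) g = B'.indicator (fa F) (g * y N) :=
    ae_all_iff.mpr fun N => hco (y N)
  rw [ae_restrict_iff' hB.measurableSet]
  filter_upwards [hs2, hall, hco y₀] with g h1 h2 h3 hg
  apply tendsto_of_fa
  rw [h3, Set.indicator_of_mem (hmem0 g hg)] at h1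
  refine h1.congr fun N => ?_
  rw [h2, Set.indicator_of_mem (hmemN g hg _)]

end Pool.Agent.MPd01a95
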