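import Mathlib
import Pool.Agent.Lib.MP_d01a95_gt_H.HDefs
import Pool.Agent.Lib.MP_d01a95_gt_H.Unimod
import Pool.Agent.Lib.MP_d01a95_gt_H.Tc

set_option autoImplicit false
set_option linter.all false

open Matrix Filter Topology MeasureTheory Measure
open scoped ENNReal NNReal ContDiff

namespace Pool.Agent.MPd01a95

open GU

variable {κ n ι α : Type} [Fintype κ] [DecidableEq κ] [Fintype n] [DecidableEq n]
  [Fintype ι] [DecidableEq ι] [Fintype α] [DecidableEq α] {G : Type} [Group G]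

namespace DispAux

theorem ac_isometry (ρ : G →* Matrix n n ℝ) (γ : G) : Isometry (ac ρ γ : PD n → PD n) :=
  Isometry.of_dist_eq fun A B => PD.dist_cg _ _ A B

section

variable {σ : G →* GU κ} (hL : Lat σ) (μ : Measure (GU κ)) [IsHaarMeasure μ]
  {χ : GU κ → ℝ} (hχ : Cut σ χ) (ρ : G →* Matrix n n ℝ) {F : GU κ → PD n}

/-- right invariance under the stabiliser -/
theorem eE_mul_K [μ.IsMulRightInvariant] (hK : Kinv μ F) (x k : GU κ) (hk : k ∈ KU κ) :
    eE μ (fun g => ENNReal.ofReal (χ g)) F (x * k) =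
      eE μ (fun g => ENNReal.ofReal (χ g)) F x := by
  unfold eE
  apply lintegral_congr_ae
  have h1 : ∀ᵐ g ∂μ, F (g * x * k) = F (g * x) :=
    (quasiMeasurePreserving_mul_right μ x).ae (hK k hk)
  filter_upwards [h1] with g hg
  rw [← mul_assoc, hg]

include hL hχ in
/-- left invariance under the stabiliser -/
theorem eE_K_mul (hF : EqF σ ρ F) (hK : Kinv μ F) (x k : GU κ) (hk : k ∈ KU κ) :
    eE μ (fun g => ENNReal.ofReal (χ g)) F (k * x) =
      eE μ (fun g => ENNReal.ofReal (χ g)) F x := by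
  haveI := right_inv hL μ
  haveI := hL.countable
  rw [← eE_shift hχ.meas hχ.sum (fun γ => ac_isometry ρ γ) hF.1 hF.2 k x]
  unfold eE
  apply lintegral_congr_ae
  filter_upwards [hK k hk] with g hg
  rw [hg, ← mul_assoc]

theorem muK_univ : (muK κ) Set.univ = 1 := by
  have h := haarMeasure_self (G := KU κ) (K₀ := ⊤)
  exact h

include hL hχ in
/-- the energy bounds the displacement of a small boost -/
theorem bo_le (hF : EqF σ ρ F) (hK : Kinv μ F) (p : κ × Bool) (N : ℕ) :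
    4 ^ N * eE μ (fun g => ENNReal.ofReal (χ g)) F (bo ((1 / 2) ^ N) p) ≤ EE μ χ F := by
  refine le_trans ?_ (eN_le_eT F N)
  unfold eN
  gcongr
  have h1 : ∀ ϑ ∈ (Set.univ : Set (KU κ)) ×ˢ ({(show Dr κ from p)} : Set (Dr κ)),
      eE μ (fun g => ENNReal.ofReal (χ g)) F (xx N ϑ) =
        eE μ (fun g => ENNReal.ofReal (χ g)) F (bo ((1 / 2) ^ N) p) := by
    rintro ⟨k, q⟩ ⟨_, hq⟩
    have hq' : q = (show Dr κ from p) := hq
    subst hq'
    haveI := right_inv hL μ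
    unfold xx
    rw [eE_mul_K μ hK _ _ ((KU κ).inv_mem k.2)]
    exact eE_K_mul hL μ hχ ρ hF hK _ _ k.2
  have hms : MeasurableSet ((Set.univ : Set (KU κ)) ×ˢ ({(show Dr κ from p)} : Set (Dr κ))) :=
    MeasurableSet.univ.prod (MeasurableSet.of_discrete)
  calc eE μ (fun g => ENNReal.ofReal (χ g)) F (bo ((1 / 2) ^ N) p)
      = ∫⁻ ϑ in (Set.univ : Set (KU κ)) ×ˢ ({(show Dr κ from p)} : Set (Dr κ)),
          eE μ (fun g => ENNReal.ofReal (χ g)) F (bo ((1 / 2) ^ N) p) ∂(th κ) := by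
        rw [setLIntegral_const]
        have : (th κ) ((Set.univ : Set (KU κ)) ×ˢ ({(show Dr κ from p)} : Set (Dr κ))) = 1 := by
          unfold th
          rw [Measure.prod_prod, muK_univ, count_singleton, one_mul]
        rw [this, mul_one]
    _ = ∫⁻ ϑ in (Set.univ : Set (KU κ)) ×ˢ ({(show Dr κ from p)} : Set (Dr κ)),
          eE μ (fun g => ENNReal.ofReal (χ g)) F (xx N ϑ) ∂(th κ) :=
        setLIntegral_congr_fun hms fun ϑ hϑ => (h1 ϑ hϑ).symm
    _ ≤ ∫⁻ ϑ, eE μ (fun g => ENNReal.ofReal (χ g)) F (xx N ϑ) ∂(th κ) :=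
        setLIntegral_le_lintegral _ _

theorem eE_one : eE μ (fun g => ENNReal.ofReal (χ g)) F 1 = 0 := by
  unfold eE
  simp

theorem rt_zero : rt 0 = 0 := by
  rw [rt, ENNReal.zero_rpow_of_pos (by norm_num)]

theorem rt_sq' (a : ℝ≥0∞) : rt (a ^ 2) = a := by
  rw [rt, ← ENNReal.rpow_natCast, ← ENNReal.rpow_mul]; norm_num

theorem rt_mul (a b : ℝ≥0∞) : rt (a * b) = rt a * rt b :=
  ENNReal.mul_rpow_of_nonneg _ _ (by norm_num)

include hL hχ in
theorem bo_nsmul (hF : EqF σ ρ F) (p : κ × Bool) (s : ℝ) (m : ℕ) :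
    rt (eE μ (fun g => ENNReal.ofReal (χ g)) F (bo (m * s) p)) ≤
      m * rt (eE μ (fun g => ENNReal.ofReal (χ g)) F (bo s p)) := by
  haveI := right_inv hL μ
  haveI := hL.countable
  induction m with
  | zero => simp [bo_zero, eE_one, rt_zero]
  | succ m ih =>
    have e : bo ((m + 1 : ℕ) * s) p = bo (m * s) p * bo s p := by
      rw [bo_add]; congr 1; push_cast; ring
    rw [e]
    refine (eE_mul hχ.meas hχ.sum (fun γ => ac_isometry ρ γ) hF.1 hF.2 _ _).trans ?_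
    push_cast
    rw [add_mul, one_mul]
    gcongr

include hL hχ in
/-- displacement along dyadic boosts -/
theorem bo_dyadic (hF : EqF σ ρ F) (hK : Kinv μ F) (p : κ × Bool) (m N : ℕ) :
    eE μ (fun g => ENNReal.ofReal (χ g)) F (bo (m * (1 / 2) ^ N) p) ≤
      ENNReal.ofReal ((m * (1 / 2) ^ N) ^ 2) * EE μ χ F := by
  have h1 := bo_nsmul hL μ hχ ρ hF p ((1 / 2) ^ N) m
  have h2 := bo_le hL μ hχ ρ hF hK p N
  have h3 : rt (4 ^ N * eE μ (fun g => ENNReal.ofReal (χ g)) F (bo ((1 / 2) ^ N) p)) ≤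
      rt (EE μ χ F) := rt_le h2
  have h4 : rt (4 ^ N : ℝ≥0∞) = 2 ^ N := by
    have : (4 : ℝ≥0∞) ^ N = (2 ^ N) ^ 2 := by
      rw [← pow_mul, mul_comm, pow_mul]; norm_num
    rw [this, rt_sq']
  rw [rt_mul, h4] at h3
  have h5 : ENNReal.ofReal ((1 / 2 : ℝ) ^ N) * 2 ^ N = 1 := by
    have : (2 : ℝ≥0∞) ^ N = ENNReal.ofReal (2 ^ N) := by
      rw [ENNReal.ofReal_pow (by norm_num)]; simp
    rw [this, ← ENNReal.ofReal_mul (by positivity), ← mul_pow]
    norm_num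
  have h6 : rt (eE μ (fun g => ENNReal.ofReal (χ g)) F (bo ((1 / 2) ^ N) p)) ≤
      ENNReal.ofReal ((1 / 2 : ℝ) ^ N) * rt (EE μ χ F) := by
    calc rt (eE μ (fun g => ENNReal.ofReal (χ g)) F (bo ((1 / 2) ^ N) p))
        = ENNReal.ofReal ((1 / 2 : ℝ) ^ N) *
            (2 ^ N * rt (eE μ (fun g => ENNReal.ofReal (χ g)) F (bo ((1 / 2) ^ N) p))) := by
          rw [← mul_assoc, h5, one_mul]
      _ ≤ _ := by gcongr
  have h7 : rt (eE μ (fun g => ENNReal.ofReal (χ g)) F (bo (m * (1 / 2) ^ N) p)) ≤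
      ENNReal.ofReal (m * (1 / 2) ^ N) * rt (EE μ χ F) := by
    refine h1.trans ?_
    rw [ENNReal.ofReal_mul (by positivity), ENNReal.ofReal_natCast, mul_assoc]
    gcongr
  calc eE μ (fun g => ENNReal.ofReal (χ g)) F (bo (m * (1 / 2) ^ N) p)
      = rt (eE μ (fun g => ENNReal.ofReal (χ g)) F (bo (m * (1 / 2) ^ N) p)) ^ 2 := (rt_sq _).symm
    _ ≤ (ENNReal.ofReal (m * (1 / 2) ^ N) * rt (EE μ χ F)) ^ 2 := by gcongr
    _ = _ := by rw [mul_pow, rt_sq, ENNReal.ofReal_pow (by positivity)]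

include hL hχ in
/-- lower semicontinuity of the displacement energy in the group element -/
theorem eE_lsc (hF : EqF σ ρ F) {y : ℕ → GU κ} {y₀ : GU κ} (hy : Tendsto y atTop (𝓝 y₀))
    {C : ℝ≥0∞} (hC : ∀ N, eE μ (fun g => ENNReal.ofReal (χ g)) F (y N) ≤ C) :
    eE μ (fun g => ENNReal.ofReal (χ g)) F y₀ ≤ C := by
  haveI := right_inv hL μ
  obtain ⟨R, hR⟩ := hχ.supp
  obtain ⟨s, hs, hs2⟩ := trans_ae μ hF.1 hy {g | c g ≤ R} (isCompact_c R)
  rw [ae_restrict_iff' (isCompact_c (κ := κ) R).measurableSet] at hs2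
  have h1 : ∀ᵐ g ∂μ, ENNReal.ofReal (χ g) * edist (F g) (F (g * y₀)) ^ 2 ≤
      liminf (fun N => ENNReal.ofReal (χ g) * edist (F g) (F (g * y (s N))) ^ 2) atTop := by
    filter_upwards [hs2] with g hg
    by_cases hg0 : χ g = 0
    · rw [hg0]; simp
    · have h2 := hg (hR g hg0)
      have h3 : Tendsto (fun N => edist (F g) (F (g * y (s N)))) atTop
          (𝓝 (edist (F g) (F (g * y₀)))) := tendsto_const_nhds.edist h2
      have h4 : Tendsto (fun N => ENNReal.ofReal (χ g) * edist (F g) (F (g * y (s N))) ^ 2) atTop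
          (𝓝 (ENNReal.ofReal (χ g) * edist (F g) (F (g * y₀)) ^ 2)) :=
        ENNReal.Tendsto.const_mul (((ENNReal.continuous_pow 2).tendsto _).comp h3)
          (Or.inr ENNReal.ofReal_ne_top)
      exact h4.liminf_eq.ge
  calc eE μ (fun g => ENNReal.ofReal (χ g)) F y₀
      ≤ ∫⁻ g, liminf (fun N => ENNReal.ofReal (χ g) * edist (F g) (F (g * y (s N))) ^ 2) atTop ∂μ :=
        lintegral_mono_ae h1
    _ ≤ liminf (fun N => ∫⁻ g, ENNReal.ofReal (χ g) * edist (F g) (F (g * y (s N))) ^ 2 ∂μ)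
          atTop := lintegral_liminf_le fun N => hχ.meas.mul
            ((hF.1.edist (hF.1.comp (measurable_mul_const _))).pow_const 2)
    _ ≤ C := by
        apply liminf_le_of_frequently_le'
        exact (Eventually.of_forall fun N => hC (s N)).frequently

include hL hχ in
theorem bo_real (hF : EqF σ ρ F) (hK : Kinv μ F) (p : κ × Bool) {t : ℝ} (ht : 0 ≤ t) :
    eE μ (fun g => ENNReal.ofReal (χ g)) F (bo t p) ≤ ENNReal.ofReal (t ^ 2) * EE μ χ F := by
  set u : ℕ → ℝ := fun N => (⌊t * 2 ^ N⌋₊ : ℝ) * (1 / 2) ^ N with hu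
  have hule : ∀ N, u N ≤ t := by
    intro N
    have h1 : (⌊t * 2 ^ N⌋₊ : ℝ) ≤ t * 2 ^ N := Nat.floor_le (by positivity)
    calc u N ≤ (t * 2 ^ N) * (1 / 2) ^ N := by simp only [hu]; gcongr
      _ = t * ((2 : ℝ) * (1 / 2)) ^ N := by rw [mul_pow]; ring
      _ = t := by norm_num
  have hu0 : ∀ N, 0 ≤ u N := fun N => by simp only [hu]; positivity
  have huge : ∀ N, t - (1 / 2) ^ N ≤ u N := by
    intro N
    have h1 : t * 2 ^ N - 1 ≤ (⌊t * 2 ^ N⌋₊ : ℝ) := by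
      have := Nat.lt_floor_add_one (t * 2 ^ N)
      linarith
    have h2 : (t * 2 ^ N - 1) * (1 / 2) ^ N ≤ u N := by simp only [hu]; gcongr
    have h3 : (t * 2 ^ N - 1) * (1 / 2) ^ N = t * ((2 : ℝ) * (1 / 2)) ^ N - (1 / 2) ^ N := by
      rw [mul_pow]; ring
    rw [h3] at h2
    norm_num at h2 ⊢
    linarith
  have hut : Tendsto u atTop (𝓝 t) := by
    have h1 : Tendsto (fun N : ℕ => t - (1 / 2 : ℝ) ^ N) atTop (𝓝 (t - 0)) :=
      tendsto_const_nhds.sub (tendsto_pow_atTop_nhds_zero_of_lt_one (by norm_num) (by norm_num))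
    rw [sub_zero] at h1
    exact tendsto_of_tendsto_of_tendsto_of_le_of_le h1 tendsto_const_nhds huge hule
  refine eE_lsc hL μ hχ ρ hF (((continuous_bo p).tendsto t).comp hut) fun N => ?_
  refine (bo_dyadic hL μ hχ ρ hF hK p _ N).trans ?_
  gcongr
  exact hule N

end

end DispAux

open DispAux in
/-- module DISP: displacement energies are quadratic -/
theorem disp_quad {σ : G →* GU κ} (hL : Lat σ) (hκ : 0 < Fintype.card κ)
    (μ : Measure (GU κ)) [IsHaarMeasure μ] {χ : GU κ → ℝ} (hχ : Cut σ χ)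
    (ρ : G →* Matrix n n ℝ) {F : GU κ → PD n} (hF : EqF σ ρ F) (hK : Kinv μ F) {t : ℝ}
    (ht : 0 ≤ t) (x : GU κ) (hx : c x ≤ Real.cosh t) :
    eE μ (fun g => ENNReal.ofReal (χ g)) F x ≤ ENNReal.ofReal (t ^ 2) * EE μ χ F := by
  haveI := right_inv hL μ
  obtain ⟨j⟩ := Fintype.card_pos_iff.mp hκ
  obtain ⟨k, hk, k', hk', t', ht', hx', hc⟩ := kak j x
  have h1 : t' ≤ t := by
    rw [← hc, Real.cosh_le_cosh, abs_of_nonneg ht', abs_of_nonneg ht] at hx
    exact hx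
  rw [hx', eE_mul_K μ hK _ _ hk', eE_K_mul hL μ hχ ρ hF hK _ _ hk]
  refine (bo_real hL μ hχ ρ hF hK _ ht').trans ?_
  gcongr

end Pool.Agent.MPd01a95
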