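import Mathlib
import Pool.Agent.Lib.MP_d01a95_gt_H.HDefs
import Pool.Agent.Lib.MP_d01a95_gt_H.Unimod
import Pool.Agent.Lib.MP_d01a95_gt_H.Disp

set_option autoImplicit false
set_option linter.all false

open Matrix Filter Topology MeasureTheory Measure
open scoped ENNReal NNReal ContDiff

namespace Pool.Agent.MPd01a95

open GU

variable {κ n ι α : Type} [Fintype κ] [DecidableEq κ] [Fintype n] [DecidableEq n]
  [Fintype ι] [DecidableEq ι] [Fintype α] [DecidableEq α] {G : Type} [Group G]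

namespace DblAux

/-- integrals of invariant functions over bounded sets are bounded by the integral over the
quotient -/
theorem int_B_le {σ : G →* GU κ} (hL : Lat σ) (μ : Measure (GU κ)) [IsHaarMeasure μ]
    {χ : GU κ → ℝ} (hχ : Cut σ χ) (R : ℝ) : ∃ N : ℝ≥0∞, N ≠ ⊤ ∧ ∀ ψ : GU κ → ℝ≥0∞,
      Measurable ψ → (∀ γ g, ψ (σ γ * g) = ψ g) →
      ∫⁻ g in {g | c g ≤ R}, ψ g ∂μ ≤ N * ∫⁻ g, ENNReal.ofReal (χ g) * ψ g ∂μ := by
  classical
  haveI := hL.countable
  obtain ⟨S, hS⟩ := hχ.supp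
  have hfin := hL.finite_meet R S
  refine ⟨(hfin.toFinset.card : ℝ≥0∞), ENNReal.natCast_ne_top _, fun ψ hψ hinv => ?_⟩
  have hB : MeasurableSet {g : GU κ | c g ≤ R} := (isCompact_c (κ := κ) R).measurableSet
  rw [← lintegral_indicator hB]
  rw [← unfold_lintegral (μ := μ) hχ.meas hχ.sum (hψ.indicator hB)]
  rw [← lintegral_const_mul' _ _ (ENNReal.natCast_ne_top _)]
  apply lintegral_mono
  intro g
  change ENNReal.ofReal (χ g) * ∑' γ, {g : GU κ | c g ≤ R}.indicator ψ (σ γ * g) ≤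
    (hfin.toFinset.card : ℝ≥0∞) * (ENNReal.ofReal (χ g) * ψ g)
  by_cases hg : χ g = 0
  · rw [hg]; simp
  have hgS := hS g hg
  have h1 : ∑' γ, {g : GU κ | c g ≤ R}.indicator ψ (σ γ * g) =
      ∑ γ ∈ hfin.toFinset, {g : GU κ | c g ≤ R}.indicator ψ (σ γ * g) := by
    apply tsum_eq_sum
    intro γ hγ
    rw [Set.Finite.mem_toFinset] at hγ
    apply Set.indicator_of_notMem
    intro hmem
    exact hγ ⟨g, hgS, hmem⟩
  have h2 : ∑ γ ∈ hfin.toFinset, {g : GU κ | c g ≤ R}.indicator ψ (σ γ * g) ≤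
      hfin.toFinset.card * ψ g := by
    rw [← nsmul_eq_mul]
    apply Finset.sum_le_card_nsmul
    intro γ _
    refine (Set.indicator_le_self _ _ _).trans ?_
    rw [hinv]
  rw [h1]
  calc ENNReal.ofReal (χ g) * ∑ γ ∈ hfin.toFinset, {g : GU κ | c g ≤ R}.indicator ψ (σ γ * g)
      ≤ ENNReal.ofReal (χ g) * (hfin.toFinset.card * ψ g) := by gcongr
    _ = _ := by ring

theorem meas_pair {F : GU κ → PD n} (hF : Measurable F) (x : GU κ) :
    Measurable fun g => edist (F g) (F (g * x)) ^ 2 :=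
  (hF.edist (hF.comp (measurable_mul_const x))).pow_const 2

theorem meas_pair2 {F : GU κ → PD n} (hF : Measurable F) :
    Measurable fun p : GU κ × GU κ => edist (F p.1) (F (p.1 * p.2)) ^ 2 :=
  ((hF.comp measurable_fst).edist (hF.comp (measurable_fst.mul measurable_snd))).pow_const 2

theorem pair_inv {σ : G →* GU κ} {ρ : G →* Matrix n n ℝ} {F : GU κ → PD n} (hF : EqF σ ρ F)
    (x : GU κ) (γ : G) (g : GU κ) :
    edist (F (σ γ * g)) (F (σ γ * g * x)) ^ 2 = edist (F g) (F (g * x)) ^ 2 := by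
  rw [mul_assoc, hF.2, hF.2, (DispAux.ac_isometry ρ γ).edist_eq]

end DblAux

open DblAux in
/-- module DBL -/
theorem double_bd {σ : G →* GU κ} (hL : Lat σ) (hκ : 0 < Fintype.card κ)
    (μ : Measure (GU κ)) [IsHaarMeasure μ] {χ : GU κ → ℝ} (hχ : Cut σ χ)
    (ρ : G →* Matrix n n ℝ) (R : ℝ) : ∃ A : ℝ≥0∞, A ≠ ⊤ ∧ ∀ F : GU κ → PD n, EqF σ ρ F →
      Kinv μ F → ∫⁻ g in {g | c g ≤ R}, ∫⁻ g' in {g | c g ≤ R}, edist (F g) (F g') ^ 2 ∂μ ∂μ ≤
        A * EE μ χ F := by
  classical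
  obtain ⟨N, hN, hN2⟩ := int_B_le hL μ hχ R
  set t := Real.arcosh (max 1 (2 * R * R)) with ht
  have htc : Real.cosh t = max 1 (2 * R * R) := Real.cosh_arcosh (le_max_left _ _)
  have ht0 : 0 ≤ t := Real.arcosh_nonneg (le_max_left _ _)
  set D : Set (GU κ) := {x | c x ≤ 2 * R * R} with hD
  set B : Set (GU κ) := {g | c g ≤ R} with hB
  have hDm : MeasurableSet D := (isCompact_c (κ := κ) (2 * R * R)).measurableSet
  have hBm : MeasurableSet B := (isCompact_c (κ := κ) R).measurableSet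
  refine ⟨μ D * (N * ENNReal.ofReal (t ^ 2)), ENNReal.mul_ne_top
    (isCompact_c (κ := κ) (2 * R * R)).measure_lt_top.ne
    (ENNReal.mul_ne_top hN ENNReal.ofReal_ne_top), fun F hF hK => ?_⟩
  have h1 : ∀ g ∈ B, ∫⁻ g' in B, edist (F g) (F g') ^ 2 ∂μ ≤
      ∫⁻ x in D, edist (F g) (F (g * x)) ^ 2 ∂μ := by
    intro g hg
    rw [← lintegral_indicator hBm, ← lintegral_indicator hDm,
      ← lintegral_mul_left_eq_self (μ := μ) (B.indicator fun g' => edist (F g) (F g') ^ 2) g]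
    apply lintegral_mono
    intro x
    change B.indicator (fun g' => edist (F g) (F g') ^ 2) (g * x) ≤
      D.indicator (fun x => edist (F g) (F (g * x)) ^ 2) x
    by_cases hx : g * x ∈ B
    · have hxD : x ∈ D := by
        have h2 := c_mul g⁻¹ (g * x)
        rw [inv_mul_cancel_left, c_inv] at h2
        have h3 : c g ≤ R := hg
        have h4 : c (g * x) ≤ R := hx
        have h5 := c_ge_one g
        have h6 := c_ge_one (g * x)
        change c x ≤ 2 * R * R
        calc c x ≤ 2 * c g * c (g * x) := h2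
          _ ≤ 2 * R * R := by
            have : 0 ≤ R := by linarith
            gcongr
      rw [Set.indicator_of_mem hx, Set.indicator_of_mem hxD]
    · rw [Set.indicator_of_notMem hx]
      exact bot_le
  calc ∫⁻ g in B, ∫⁻ g' in B, edist (F g) (F g') ^ 2 ∂μ ∂μ
      ≤ ∫⁻ g in B, ∫⁻ x in D, edist (F g) (F (g * x)) ^ 2 ∂μ ∂μ :=
        setLIntegral_mono' hBm h1
    _ = ∫⁻ x in D, ∫⁻ g in B, edist (F g) (F (g * x)) ^ 2 ∂μ ∂μ :=
        lintegral_lintegral_swap (meas_pair2 hF.1).aemeasurable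
    _ ≤ ∫⁻ x in D, N * (ENNReal.ofReal (t ^ 2) * EE μ χ F) ∂μ := by
        apply setLIntegral_mono' hDm
        intro x hx
        refine (hN2 _ (meas_pair hF.1 x) (pair_inv hF x)).trans ?_
        gcongr
        exact disp_quad hL hκ μ hχ ρ hF hK ht0 x (by rw [htc]; exact hx.trans (le_max_right _ _))
    _ = μ D * (N * ENNReal.ofReal (t ^ 2)) * EE μ χ F := by
        rw [setLIntegral_const]; ring

end Pool.Agent.MPd01a95
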