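import Mathlib
import Pool.Agent.Lib.MP_d01a95_gt_H.HDefs
import Pool.Agent.Lib.MP_d01a95_gt_H.Unimod

/-!
Project HARMONIC, module DIV: the integral of a right derivative of an invariant function
against a cutoff function vanishes.
-/

set_option autoImplicit false
set_option linter.all false

open Matrix Filter Topology MeasureTheory Measure
open scoped ENNReal NNReal ContDiff

namespace Pool.Agent.MPd01a95

open GU

variable {κ n ι α : Type} [Fintype κ] [DecidableEq κ] [Fintype n] [DecidableEq n]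
  [Fintype ι] [DecidableEq ι] [Fintype α] [DecidableEq α] {G : Type} [Group G]

namespace DivAux

theorem cut_compact {σ : G →* GU κ} {χ : GU κ → ℝ} (h : Cut σ χ) : HasCompactSupport χ := by
  obtain ⟨R, hR⟩ := h.supp
  refine HasCompactSupport.intro (isCompact_c (κ := κ) R) fun g hg => ?_
  by_contra hne
  exact hg (hR g hne)

theorem bdd {σ : G →* GU κ} (hL : Lat σ) {E : Type} [NormedAddCommGroup E] {f : GU κ → E}
    (hf : Continuous f) (hinv : ∀ γ g, f (σ γ * g) = f g) : ∃ B : ℝ, ∀ g, ‖f g‖ ≤ B := by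
  obtain ⟨R, hR⟩ := hL.coc
  obtain ⟨B, hB⟩ := ((isCompact_c (κ := κ) R).image hf.norm).bddAbove
  refine ⟨B, fun g => ?_⟩
  obtain ⟨γ, hγ⟩ := hR g
  rw [← hinv γ g]
  exact hB ⟨_, hγ, rfl⟩

theorem intg {σ : G →* GU κ} (μ : Measure (GU κ)) [IsHaarMeasure μ] {χ : GU κ → ℝ}
    (hχ : Cut σ χ) {f : GU κ → ℂ} (hf : Continuous f) :
    Integrable (fun g => (χ g : ℂ) * f g) μ := by
  refine Continuous.integrable_of_hasCompactSupport
    ((Complex.continuous_ofReal.comp hχ.cont).mul hf) ?_
  have h1 : HasCompactSupport fun g => (χ g : ℂ) :=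
    (cut_compact hχ).comp_left (g := fun x : ℝ => (x : ℂ)) (by simp)
  exact h1.mul_right

theorem intgR {σ : G →* GU κ} (μ : Measure (GU κ)) [IsHaarMeasure μ] {χ : GU κ → ℝ}
    (hχ : Cut σ χ) {f : GU κ → ℝ} (hf : Continuous f) :
    Integrable (fun g => χ g * f g) μ :=
  Continuous.integrable_of_hasCompactSupport (hχ.cont.mul hf) (cut_compact hχ).mul_right

theorem right_nonneg {σ : G →* GU κ} (hL : Lat σ) (μ : Measure (GU κ)) [IsHaarMeasure μ]
    {χ : GU κ → ℝ} (hχ : Cut σ χ) {f : GU κ → ℝ} (hf : Continuous f) (h0 : ∀ g, 0 ≤ f g)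
    (hinv : ∀ γ g, f (σ γ * g) = f g) (x : GU κ) :
    ∫ g, χ g * f (g * x) ∂μ = ∫ g, χ g * f g ∂μ := by
  haveI := right_inv hL μ
  haveI := hL.countable
  rw [integral_eq_lintegral_of_nonneg_ae
      (Eventually.of_forall fun g => mul_nonneg (hχ.nonneg g) (h0 _))
      (hχ.cont.mul (hf.comp (continuous_mul_const x))).aestronglyMeasurable,
    integral_eq_lintegral_of_nonneg_ae
      (Eventually.of_forall fun g => mul_nonneg (hχ.nonneg g) (h0 _))
      (hχ.cont.mul hf).aestronglyMeasurable]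
  congr 1
  have e : ∀ g h, ENNReal.ofReal (χ g * f h) = ENNReal.ofReal (χ g) * ENNReal.ofReal (f h) :=
    fun g h => ENNReal.ofReal_mul (hχ.nonneg g)
  simp only [e]
  exact lintegral_right (μ := μ) (σ := σ) hχ.meas hχ.sum
    (ψ := fun g => ENNReal.ofReal (f g)) hf.measurable.ennreal_ofReal
    (fun γ g => by simp only [hinv]) x

theorem right_real {σ : G →* GU κ} (hL : Lat σ) (μ : Measure (GU κ)) [IsHaarMeasure μ]
    {χ : GU κ → ℝ} (hχ : Cut σ χ) {f : GU κ → ℝ} (hf : Continuous f)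
    (hinv : ∀ γ g, f (σ γ * g) = f g) (x : GU κ) :
    ∫ g, χ g * f (g * x) ∂μ = ∫ g, χ g * f g ∂μ := by
  obtain ⟨B, hB⟩ := bdd hL hf hinv
  have h1 := right_nonneg hL μ hχ (f := fun g => f g + B) (hf.add continuous_const)
    (fun g => by have := (abs_le.mp ((Real.norm_eq_abs _).symm.le.trans (hB g))).1; linarith)
    (fun γ g => by simp only [hinv]) x
  simp only [mul_add] at h1
  have i1 : Integrable (fun g => χ g * f (g * x)) μ :=
    intgR μ hχ (hf.comp (continuous_mul_const x))
  have i2 : Integrable (fun g => χ g * B) μ := intgR μ hχ continuous_const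
  rw [integral_add i1 i2, integral_add (intgR μ hχ hf) i2] at h1
  exact add_right_cancel h1

theorem right_cx {σ : G →* GU κ} (hL : Lat σ) (μ : Measure (GU κ)) [IsHaarMeasure μ]
    {χ : GU κ → ℝ} (hχ : Cut σ χ) {f : GU κ → ℂ} (hf : Continuous f)
    (hinv : ∀ γ g, f (σ γ * g) = f g) (x : GU κ) :
    ∫ g, (χ g : ℂ) * f (g * x) ∂μ = ∫ g, (χ g : ℂ) * f g ∂μ := by
  have hfx : Continuous fun g => f (g * x) := hf.comp (continuous_mul_const x)
  have i1 := intg μ hχ hfx
  have i2 := intg μ hχ hf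
  have hre := right_real hL μ hχ (f := fun g => (f g).re) (Complex.continuous_re.comp hf)
    (fun γ g => by simp only [hinv]) x
  have him := right_real hL μ hχ (f := fun g => (f g).im) (Complex.continuous_im.comp hf)
    (fun γ g => by simp only [hinv]) x
  apply Complex.ext
  · have e1 := integral_re i1
    have e2 := integral_re i2
    simp only [RCLike.re_to_complex, Complex.re_ofReal_mul] at e1 e2
    rw [← e1, ← e2]
    exact hre
  · have e1 := integral_im i1
    have e2 := integral_im i2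
    simp only [RCLike.im_to_complex, Complex.im_ofReal_mul] at e1 e2
    rw [← e1, ← e2]
    exact him

theorem deriv_at {p : κ × Bool} {f f' : GU κ → ℂ}
    (hd : ∀ g, HasDerivAt (fun t : ℝ => f (g * bo t p)) (f' g) 0) (g : GU κ) (t : ℝ) :
    HasDerivAt (fun t : ℝ => f (g * bo t p)) (f' (g * bo t p)) t := by
  have h1 := hd (g * bo t p)
  have h2 : (fun s : ℝ => f (g * bo t p * bo s p)) = fun s : ℝ => f (g * bo (t + s) p) := by
    ext s
    rw [mul_assoc, bo_add]
  rw [h2] at h1
  have h3 : HasDerivAt (fun s : ℝ => s - t) 1 t := (hasDerivAt_id t).sub_const t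
  have h4 : HasDerivAt (fun s : ℝ => f (g * bo (t + s) p)) (f' (g * bo t p))
      ((fun s : ℝ => s - t) t) := by
    simp only [sub_self]; exact h1
  have h5 := HasDerivAt.scomp (h := fun s : ℝ => s - t) t h4 h3
  rw [one_smul] at h5
  refine h5.congr_of_eventuallyEq (Eventually.of_forall fun s => ?_)
  simp

end DivAux

open DivAux

/-- module DIV -/
theorem div_zero' {σ : G →* GU κ} (hL : Lat σ) (μ : Measure (GU κ)) [IsHaarMeasure μ]
    {χ : GU κ → ℝ} (hχ : Cut σ χ) (p : κ × Bool) (f f' : GU κ → ℂ) (hf : Continuous f)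
    (hf' : Continuous f') (hinv : ∀ γ g, f (σ γ * g) = f g)
    (hd : ∀ g, HasDerivAt (fun t : ℝ => f (g * bo t p)) (f' g) 0) :
    ∫ g, (χ g : ℂ) * f' g ∂μ = 0 := by
  have hinv' : ∀ γ g, f' (σ γ * g) = f' g := by
    intro γ g
    have h1 := hd (σ γ * g)
    simp only [mul_assoc, hinv] at h1
    exact h1.unique (hd g)
  obtain ⟨B, hB⟩ := bdd hL hf' hinv'
  have hcb : ∀ t, Continuous fun g : GU κ => g * bo t p := fun t => continuous_mul_const _
  have hD := hasDerivAt_integral_of_dominated_loc_of_deriv_le (μ := μ) (𝕜 := ℝ)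
    (F := fun (t : ℝ) (g : GU κ) => (χ g : ℂ) * f (g * bo t p))
    (F' := fun (t : ℝ) (g : GU κ) => (χ g : ℂ) * f' (g * bo t p)) (x₀ := (0 : ℝ))
    (s := Set.univ) (bound := fun g => χ g * B) Filter.univ_mem
    (Eventually.of_forall fun t => (intg μ hχ (hf.comp (hcb t))).aestronglyMeasurable)
    (intg μ hχ (hf.comp (hcb 0)))
    (intg μ hχ (hf'.comp (hcb 0))).aestronglyMeasurable
    (Eventually.of_forall fun g t _ => by
      rw [norm_mul, Complex.norm_real, Real.norm_eq_abs, abs_of_nonneg (hχ.nonneg g)]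
      exact mul_le_mul_of_nonneg_left (hB _) (hχ.nonneg g))
    (intgR μ hχ continuous_const)
    (Eventually.of_forall fun g t _ => (deriv_at hd g t).const_mul _)
  have h2 := hD.2
  have h3 : (fun t : ℝ => ∫ g, (χ g : ℂ) * f (g * bo t p) ∂μ) =
      fun _ => ∫ g, (χ g : ℂ) * f g ∂μ := by
    ext t
    exact right_cx hL μ hχ hf hinv _
  rw [h3] at h2
  have h4 := h2.unique (hasDerivAt_const (0 : ℝ) _)
  simpa [bo_zero] using h4

end Pool.Agent.MPd01a95
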