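import Mathlib
import Pool.Agent.Lib.MP_d01a95_gt_H.HDefs
import Pool.Agent.Lib.MP_d01a95_gt_H.Unimod
import Pool.Agent.Lib.MP_d01a95_gt_H.Cone

set_option autoImplicit false
set_option linter.all false

open Matrix Filter Topology MeasureTheory Measure
open scoped ENNReal NNReal ContDiff

namespace Pool.Agent.MPd01a95

open GU

variable {κ n ι α : Type} [Fintype κ] [DecidableEq κ] [Fintype n] [DecidableEq n]
  [Fintype ι] [DecidableEq ι] [Fintype α] [DecidableEq α] {G : Type} [Group G]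

namespace EqfAux

theorem continuous_pt : Continuous fun g : GU κ => g.pt := by
  unfold GU.pt
  exact (GU.continuous_M (κ := κ)).matrix_mulVec continuous_const

theorem pt_mul (g k : GU κ) : (g * k).pt = g.M *ᵥ k.pt := by
  rw [GU.pt, GU.pt, GU.M_mul, Matrix.mulVec_mulVec]

theorem pt_K (k : GU κ) (hk : k ∈ KU κ) :
    k.pt = k.M (Sum.inr ()) (Sum.inr ()) • (e0 : κ ⊕ Unit → ℂ) := by
  ext i
  rw [GU.pt, mulVec_e0]
  cases i with
  | inl i => rw [hk.1 i]; simp [e0]
  | inr i => simp [e0]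

theorem K_ne (k : GU κ) (hk : k ∈ KU κ) : k.M (Sum.inr ()) (Sum.inr ()) ≠ 0 := by
  intro h
  have h1 := KU_c k hk
  unfold c cc at h1
  rw [h] at h1
  simp at h1

/-- the maps of the cone are continuous -/
theorem continuousAt_H {σ : G →* GU κ} {ρ : G →* Matrix n n ℝ}
    {H : (κ ⊕ Unit → ℂ) → Matrix n n ℝ} (hH : EqC σ ρ H) (v : κ ⊕ Unit → ℂ) (hv : v ∈ Cn κ)
    (i j : n) : ContinuousAt (fun w => H w i j) v := by
  obtain ⟨L, U, hU, hL⟩ := hH.lip v hv
  exact (hL i j).continuousOn.continuousAt hU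

/-- the directional derivatives are symmetric -/
theorem XH_symm {σ : G →* GU κ} {ρ : G →* Matrix n n ℝ}
    {H : (κ ⊕ Unit → ℂ) → Matrix n n ℝ} (hH : EqC σ ρ H) (p : κ × Bool) (g : GU κ) :
    (XH H p g)ᵀ = XH H p g := by
  ext i j
  have h1 : (fun w => H w j i) =ᶠ[𝓝 g.pt] fun w => H w i j := by
    filter_upwards [isOpen_Cn.mem_nhds (pt_mem g).1] with w hw
    have h2 := congrFun (congrFun (PDAux.tr_symm (hH.pos w hw)) i) j
    exact h2
  simp only [XH, DM, Matrix.transpose_apply, Matrix.of_apply]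
  rw [h1.fderiv_eq]

theorem trace_nonneg {A X : Matrix n n ℝ} (hA : A.PosDef) (hX : Xᵀ = X) :
    0 ≤ (A⁻¹ * X * A⁻¹ * X).trace := by
  obtain ⟨U, a, h1, h2, ha, h3⟩ := PDAux.posDef_spec hA.inv
  set S : Matrix n n ℝ := U * diagonal (fun i => Real.sqrt (a i)) with hS
  have hSS : A⁻¹ = S * Sᵀ := by
    rw [h3, hS, transpose_mul, diagonal_transpose]
    calc U * diagonal a * Uᵀ = U * (diagonal (fun i => Real.sqrt (a i)) *
          diagonal (fun i => Real.sqrt (a i))) * Uᵀ := by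
          rw [diagonal_mul_diagonal]
          congr 3
          ext i
          exact (Real.mul_self_sqrt (ha i).le).symm
      _ = _ := by simp only [Matrix.mul_assoc]
  clear_value S
  have h4 : (A⁻¹ * X * A⁻¹ * X).trace = PDAux.hs2 (Sᵀ * X * S) := by
    rw [PDAux.hs2_trace, hSS]
    have h5 : (Sᵀ * X * S)ᵀ = Sᵀ * X * S := by
      rw [transpose_mul, transpose_mul, transpose_transpose, hX]
      simp only [Matrix.mul_assoc]
    rw [h5]
    calc (S * Sᵀ * X * (S * Sᵀ) * X).trace = (S * (Sᵀ * X * S * Sᵀ * X)).trace := by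
          simp only [Matrix.mul_assoc]
      _ = ((Sᵀ * X * S * Sᵀ * X) * S).trace := Matrix.trace_mul_comm _ _
      _ = _ := by simp only [Matrix.mul_assoc]
  rw [h4]
  exact PDAux.hs2_nonneg _

end EqfAux

open EqfAux

/-- module EQF: the maps on the group attached to maps on the cone -/
theorem eqF_of_eqC {σ : G →* GU κ} {ρ : G →* Matrix n n ℝ} {H : (κ ⊕ Unit → ℂ) → Matrix n n ℝ}
    (hH : EqC σ ρ H) {F : GU κ → PD n} (hF : ∀ g, (F g).M = H g.pt) :
    EqF σ ρ F ∧ Continuous F ∧ ∀ g, ∀ k ∈ KU κ, F (g * k) = F g := by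
  have hc : Continuous F := by
    rw [PD.continuous_iff]
    refine continuous_pi fun i => continuous_pi fun j => ?_
    rw [continuous_iff_continuousAt]
    intro g
    have h1 : (fun g => (F g).M i j) = (fun w => H w i j) ∘ fun g : GU κ => g.pt := by
      ext g
      rw [hF]
      rfl
    rw [h1]
    exact (continuousAt_H hH g.pt (pt_mem g).1 i j).comp continuous_pt.continuousAt
  refine ⟨⟨hc.measurable, fun γ g => ?_⟩, hc, fun g k hk => ?_⟩
  · apply PD.ext
    rw [hF, pt_mul, hH.eqv γ _ (pt_mem g).1, ← hF]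
    rfl
  · apply PD.ext
    rw [hF, hF, pt_mul, pt_K k hk, Matrix.mulVec_smul]
    exact hH.hom _ (pt_mem g).1 _ (K_ne k hk)

/-- module EQF -/
theorem DD_fin {σ : G →* GU κ} (μ : Measure (GU κ)) [IsHaarMeasure μ]
    {χ : GU κ → ℝ} (hχ : Cut σ χ) {F F' : GU κ → PD n} (hF : Continuous F) (hF' : Continuous F') :
    DD μ χ F F' ≠ ⊤ := by
  obtain ⟨R, hR⟩ := hχ.supp
  have hK := isCompact_c (κ := κ) R
  have hcont : Continuous fun g => χ g * dist (F g) (F' g) ^ 2 :=
    hχ.cont.mul ((hF.dist hF').pow 2)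
  obtain ⟨B, hB⟩ := (hK.image hcont).bddAbove
  have h1 : ∀ g, ENNReal.ofReal (χ g) * edist (F g) (F' g) ^ 2 ≤
      {g : GU κ | c g ≤ R}.indicator (fun _ => ENNReal.ofReal B) g := by
    intro g
    by_cases hg : c g ≤ R
    · rw [Set.indicator_of_mem (show g ∈ {g : GU κ | c g ≤ R} from hg), edist_dist,
        ← ENNReal.ofReal_pow dist_nonneg, ← ENNReal.ofReal_mul (hχ.nonneg g)]
      exact ENNReal.ofReal_le_ofReal (hB ⟨g, hg, rfl⟩)
    · have : χ g = 0 := by
        by_contra hne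
        exact hg (hR g hne)
      rw [this]; simp
  refine ne_top_of_le_ne_top ?_ (lintegral_mono h1)
  rw [lintegral_indicator hK.measurableSet, setLIntegral_const]
  exact ENNReal.mul_ne_top ENNReal.ofReal_ne_top hK.measure_lt_top.ne

/-- module EQF: the energy only depends on the almost everywhere class -/
theorem EE_congr (μ : Measure (GU κ)) [IsHaarMeasure μ] [μ.IsMulRightInvariant] (χ : GU κ → ℝ)
    {F F' : GU κ → PD n} (h : F =ᵐ[μ] F') : EE μ χ F = EE μ χ F' := by
  have h1 : ∀ x : GU κ, eE μ (fun g => ENNReal.ofReal (χ g)) F x =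
      eE μ (fun g => ENNReal.ofReal (χ g)) F' x := by
    intro x
    have h2 : ∀ᵐ g ∂μ, F (g * x) = F' (g * x) :=
      (measurePreserving_mul_right μ x).quasiMeasurePreserving.ae h
    refine lintegral_congr_ae ?_
    filter_upwards [h, h2] with g hg hg'
    rw [hg, hg']
  unfold EE eT eN
  simp only [h1]

/-- module EQF -/
theorem En_nonneg (μ : Measure (GU κ)) {σ : G →* GU κ} {ρ : G →* Matrix n n ℝ}
    {χ : GU κ → ℝ} (hχ : Cut σ χ) {H : (κ ⊕ Unit → ℂ) → Matrix n n ℝ} (hH : EqC σ ρ H) :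
    0 ≤ En μ χ H :=
  integral_nonneg fun g => mul_nonneg (hχ.nonneg g) (Finset.sum_nonneg fun p _ =>
    trace_nonneg (hH.pos _ (pt_mem g).1) (XH_symm hH p g))

end Pool.Agent.MPd01a95
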