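import Mathlib
import Pool.Agent.Lib.MP_d01a95_gt_H.HDefs
import Pool.Agent.Lib.MP_d01a95_gt_H.Unimod
import Pool.Agent.Lib.MP_d01a95_gt_H.Basic
import Pool.Agent.Lib.MP_d01a95_gt_H.Cone
import Pool.Agent.Lib.MP_d01a95_gt_H.Eqf
import Pool.Agent.Lib.MP_d01a95_gt_H.Aediff
set_option autoImplicit false
set_option linter.all false
open Matrix Filter Topology MeasureTheory Measure
open scoped ENNReal NNReal ContDiff
namespace Pool.Agent.MPd01a95
open GU
variable {κ n ι α : Type} [Fintype κ] [DecidableEq κ] [Fintype n] [DecidableEq n] [Fintype ι] [DecidableEq ι] [Fintype α] [DecidableEq α] {G : Type} [Group G]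

namespace EnfAux

open PDAux

theorem continuous_pt : Continuous (GU.pt : GU κ → κ ⊕ Unit → ℂ) := by
  unfold GU.pt
  exact Continuous.matrix_mulVec continuous_M continuous_const

theorem continuous_dir (p : κ × Bool) : Continuous (fun g : GU κ => g.dir p) := by
  unfold GU.dir
  exact Continuous.matrix_mulVec continuous_M continuous_const

theorem pt_bo (g : GU κ) (t : ℝ) (p : κ × Bool) :
    (g * bo t p).pt = Real.cosh t • g.pt + Real.sinh t • g.dir p := by
  unfold GU.pt GU.dir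
  rw [M_mul, ← Matrix.mulVec_mulVec, bo_M, boM_e0, Matrix.mulVec_add, Matrix.mulVec_smul,
    Matrix.mulVec_smul, Matrix.mulVec_smul, mul_smul]
  rfl

theorem hasDerivAt_curve (g : GU κ) (p : κ × Bool) :
    HasDerivAt (fun t : ℝ => (g * bo t p).pt) (g.dir p) 0 := by
  have e : (fun t : ℝ => (g * bo t p).pt) =
      fun t : ℝ => Real.cosh t • g.pt + Real.sinh t • g.dir p := funext fun t => pt_bo g t p
  rw [e]
  have h1 := (Real.hasDerivAt_cosh 0).smul_const g.pt
  have h2 := (Real.hasDerivAt_sinh 0).smul_const (g.dir p)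
  have h3 := h1.add h2
  rw [Real.sinh_zero, Real.cosh_zero, zero_smul, one_smul, zero_add] at h3
  exact h3

theorem lim_quot {H : (κ ⊕ Unit → ℂ) → Matrix n n ℝ} (g : GU κ) (p : κ × Bool)
    (hd : ∀ i j, DifferentiableAt ℝ (fun w => H w i j) g.pt) (i j : n) :
    Tendsto (fun N : ℕ => (2 : ℝ) ^ N * (H (g * bo ((1 / 2) ^ N) p).pt i j - H g.pt i j)) atTop
      (𝓝 (XH H p g i j)) := by
  have h0 : (g * bo 0 p).pt = g.pt := by rw [bo_zero, mul_one]
  have h1 : HasDerivAt (fun t : ℝ => H (g * bo t p).pt i j)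
      (fderiv ℝ (fun w => H w i j) g.pt (g.dir p)) 0 := by
    have h2 : HasFDerivAt (fun w => H w i j) (fderiv ℝ (fun w => H w i j) g.pt)
        ((g * bo 0 p).pt) := by rw [h0]; exact (hd i j).hasFDerivAt
    exact h2.comp_hasDerivAt (0 : ℝ) (hasDerivAt_curve g p)
  have h3 := h1.tendsto_slope_zero
  have h4 : Tendsto (fun N : ℕ => ((1 : ℝ) / 2) ^ N) atTop (𝓝[≠] 0) := by
    rw [tendsto_nhdsWithin_iff]
    refine ⟨tendsto_pow_atTop_nhds_zero_of_lt_one (by norm_num) (by norm_num),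
      Eventually.of_forall fun N => ?_⟩
    have : (0 : ℝ) < (1 / 2) ^ N := by positivity
    exact this.ne'
  refine (h3.comp h4).congr fun N => ?_
  simp only [Function.comp_apply, zero_add, smul_eq_mul]
  rw [h0]
  congr 1
  rw [one_div, inv_pow, inv_inv]

theorem dsq_lim {A : Matrix n n ℝ} (hA : A.PosDef) {B : ℕ → Matrix n n ℝ}
    (hB : ∀ N, (B N).PosDef) {X : Matrix n n ℝ} (h1 : Tendsto B atTop (𝓝 A))
    (h2 : Tendsto (fun N => (2 : ℝ) ^ N • (B N - A)) atTop (𝓝 X)) :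
    Tendsto (fun N => (4 : ℝ) ^ N * dsq A (B N)) atTop (𝓝 (A⁻¹ * X * A⁻¹ * X).trace) := by
  have hinv := PD.tendsto_inv hA.det_pos.ne' h1
  have ht : Tendsto (fun N => (4 : ℝ) ^ N * del A (B N)) atTop
      (𝓝 (A⁻¹ * X * A⁻¹ * X).trace) := by
    have c1 : Continuous fun p : Matrix n n ℝ × Matrix n n ℝ =>
        (A⁻¹ * p.1 * p.2 * p.1).trace := by fun_prop
    have h3 := (c1.tendsto (X, A⁻¹)).comp (h2.prodMk_nhds hinv)
    refine h3.congr fun N => ?_
    simp only [Function.comp_apply]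
    rw [del_diff hA (hB N)]
    simp only [Matrix.mul_smul, Matrix.smul_mul, smul_smul, trace_smul, smul_eq_mul, ← mul_pow]
    norm_num
  have hdsq : Tendsto (fun N => dsq A (B N)) atTop (𝓝 0) := by
    have h4 : Tendsto (fun N : ℕ => ((1 : ℝ) / 4) ^ N) atTop (𝓝 0) :=
      tendsto_pow_atTop_nhds_zero_of_lt_one (by norm_num) (by norm_num)
    have h5 := h4.mul ht
    rw [zero_mul] at h5
    refine squeeze_zero (fun N => dsq_nonneg hA (hB N)) (fun N => ?_) h5
    refine (dsq_le_del hA (hB N)).trans (le_of_eq ?_)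
    rw [← mul_assoc, ← mul_pow]
    norm_num
  have hlow : Tendsto (fun N => ((4 : ℝ) ^ N * del A (B N)) * Real.exp (-(dsq A (B N) / 2))) atTop
      (𝓝 (A⁻¹ * X * A⁻¹ * X).trace) := by
    have h6 := ht.mul ((Real.continuous_exp.tendsto _).comp ((hdsq.div_const 2).neg))
    simpa using h6
  refine tendsto_of_tendsto_of_tendsto_of_le_of_le hlow ht (fun N => ?_) (fun N => ?_)
  · change ((4 : ℝ) ^ N * del A (B N)) * Real.exp (-(dsq A (B N) / 2)) ≤ (4 : ℝ) ^ N * dsq A (B N)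
    have h7 := del_le hA (hB N)
    calc ((4 : ℝ) ^ N * del A (B N)) * Real.exp (-(dsq A (B N) / 2))
        ≤ ((4 : ℝ) ^ N * (dsq A (B N) * Real.exp (dsq A (B N) / 2))) *
          Real.exp (-(dsq A (B N) / 2)) := by gcongr
      _ = (4 : ℝ) ^ N * dsq A (B N) *
          (Real.exp (dsq A (B N) / 2) * Real.exp (-(dsq A (B N) / 2))) := by ring
      _ = _ := by rw [← Real.exp_add]; simp
  · change (4 : ℝ) ^ N * dsq A (B N) ≤ (4 : ℝ) ^ N * del A (B N)
    have h7 := dsq_le_del hA (hB N)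
    gcongr

theorem mul_bd {P Q : Matrix n n ℝ} {a b : ℝ} (hP : ∀ i j, |P i j| ≤ a)
    (hQ : ∀ i j, |Q i j| ≤ b) (i j : n) : |(P * Q) i j| ≤ Fintype.card n * (a * b) := by
  rw [Matrix.mul_apply]
  refine (Finset.abs_sum_le_sum_abs _ _).trans ?_
  have : ∀ k ∈ (Finset.univ : Finset n), |P i k * Q k j| ≤ a * b := by
    intro k _
    rw [abs_mul]
    have h1 := hP i k
    have h2 := hQ k j
    have h3 := abs_nonneg (P i k)
    have h4 := abs_nonneg (Q k j)
    nlinarith
  refine (Finset.sum_le_sum this).trans ?_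
  rw [Finset.sum_const, nsmul_eq_mul, Finset.card_univ]

theorem trace_bd {P : Matrix n n ℝ} {a : ℝ} (hP : ∀ i j, |P i j| ≤ a) :
    P.trace ≤ Fintype.card n * a := by
  rw [Matrix.trace]
  have : ∀ k ∈ (Finset.univ : Finset n), P.diag k ≤ a := fun k _ => (le_abs_self _).trans (hP k k)
  refine (Finset.sum_le_sum this).trans ?_
  rw [Finset.sum_const, nsmul_eq_mul, Finset.card_univ]

theorem sinh_bd {t : ℝ} (ht : t ∈ Set.Icc (0 : ℝ) 1) :
    |Real.sinh t| ≤ 2 * t ∧ |Real.cosh t - 1| ≤ 2 * t := by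
  have h1 := Real.abs_exp_sub_one_le (x := t) (by rw [abs_of_nonneg ht.1]; exact ht.2)
  have h2 := Real.abs_exp_sub_one_le (x := -t) (by rw [abs_neg, abs_of_nonneg ht.1]; exact ht.2)
  rw [abs_neg] at h2
  rw [abs_of_nonneg ht.1, abs_le] at h1 h2
  rw [Real.sinh_eq, Real.cosh_eq, abs_le, abs_le]
  refine ⟨⟨?_, ?_⟩, ?_, ?_⟩ <;> linarith [h1.1, h1.2, h2.1, h2.2]

theorem dsq_bd {σ : G →* GU κ} {ρ : G →* Matrix n n ℝ} {H : (κ ⊕ Unit → ℂ) → Matrix n n ℝ}
    (hH : EqC σ ρ H) {F : GU κ → PD n} (hF : ∀ g, (F g).M = H g.pt) (hFc : Continuous F)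
    (R : ℝ) : ∃ C : ℝ, ∀ g : GU κ, c g ≤ R → ∀ p, ∀ t ∈ Set.Icc (0 : ℝ) 1,
      dsq (H g.pt) (H (g * bo t p).pt) ≤ C * t ^ 2 := by
  set R' : ℝ := 2 * |R| * Real.cosh 1 + |R| with hR'
  have hK : IsCompact {g : GU κ | c g ≤ R'} := isCompact_c R'
  have hc0 : IsCompact (GU.pt '' {g : GU κ | c g ≤ R'}) := hK.image continuous_pt
  have hcs : GU.pt '' {g : GU κ | c g ≤ R'} ⊆ Cn κ := by
    rintro _ ⟨g, -, rfl⟩
    exact (pt_mem g).1
  obtain ⟨L, hL⟩ := hH.lip_compact _ hcs hc0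
  have hic : Continuous fun g => (fun i j => ((F g).M)⁻¹ i j : n → n → ℝ) := by
    rw [continuous_iff_continuousAt]
    intro g
    exact PD.tendsto_inv (F g).pos.det_pos.ne' ((PD.continuous_M.comp hFc).continuousAt)
  obtain ⟨M, hM⟩ := hK.exists_bound_of_continuousOn hic.continuousOn
  obtain ⟨D, hD⟩ := hK.exists_bound_of_continuousOn (continuous_pt (κ := κ)).continuousOn
  have hdir : ∀ p : κ × Bool, ∃ E : ℝ, ∀ g : GU κ, c g ≤ R' → ‖g.dir p‖ ≤ E := fun p =>
    hK.exists_bound_of_continuousOn (continuous_dir p).continuousOn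
  choose E hE using hdir
  set D' : ℝ := |D| + ∑ p, |E p| with hD'
  set B : ℝ := |L| * (2 * D') with hB
  set N : ℝ := (Fintype.card n : ℝ) with hN
  refine ⟨N * (N * (N * (N * (M * B) * M) * B)), fun g hg p t ht => ?_⟩
  have hg1 := c_ge_one g
  have hRa : R ≤ |R| := le_abs_self R
  have hR0 : 0 ≤ |R| := abs_nonneg R
  have hch : Real.cosh t ≤ Real.cosh 1 := by
    rw [Real.cosh_le_cosh, abs_of_nonneg ht.1, abs_one]; exact ht.2
  have hch1 := Real.one_le_cosh (1 : ℝ)
  have hcht := Real.one_le_cosh t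
  have hgR' : c g ≤ R' := by
    rw [hR']
    have : 0 ≤ 2 * |R| * Real.cosh 1 := by positivity
    linarith
  have hgb : c (g * bo t p) ≤ R' := by
    refine (c_mul g (bo t p)).trans ?_
    rw [c_bo, hR']
    calc 2 * c g * Real.cosh t ≤ 2 * |R| * Real.cosh 1 := by gcongr; exact hg.trans hRa
      _ ≤ _ := by linarith
  have hA := hF g ▸ (F g).pos
  have hBp := hF (g * bo t p) ▸ (F (g * bo t p)).pos
  have hdiff : ‖(g * bo t p).pt - g.pt‖ ≤ 2 * D' * t := by
    have e : (g * bo t p).pt - g.pt = (Real.cosh t - 1) • g.pt + Real.sinh t • g.dir p := by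
      rw [pt_bo, sub_smul, one_smul]; abel
    rw [e]
    refine (norm_add_le _ _).trans ?_
    rw [norm_smul, norm_smul, Real.norm_eq_abs, Real.norm_eq_abs]
    obtain ⟨hs, hc⟩ := sinh_bd ht
    have h1 : ‖g.pt‖ ≤ |D| := (hD g hgR').trans (le_abs_self D)
    have h2 : ‖g.dir p‖ ≤ ∑ p, |E p| :=
      ((hE p g hgR').trans (le_abs_self _)).trans
        (Finset.single_le_sum (f := fun p => |E p|) (fun _ _ => abs_nonneg _) (Finset.mem_univ p))
    have ht0 := ht.1
    calc |Real.cosh t - 1| * ‖g.pt‖ + |Real.sinh t| * ‖g.dir p‖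
        ≤ (2 * t) * |D| + (2 * t) * ∑ p, |E p| := by gcongr
      _ = _ := by rw [hD']; ring
  have hent : ∀ i j, |(H (g * bo t p).pt - H g.pt) i j| ≤ B * t := by
    intro i j
    rw [Matrix.sub_apply]
    refine (hL _ ⟨_, hgb, rfl⟩ _ ⟨_, hgR', rfl⟩ i j).trans ?_
    calc L * ‖(g * bo t p).pt - g.pt‖ ≤ |L| * ‖(g * bo t p).pt - g.pt‖ := by
          gcongr; exact le_abs_self L
      _ ≤ |L| * (2 * D' * t) := by gcongr
      _ = _ := by rw [hB]; ring
  have hinv : ∀ g : GU κ, c g ≤ R' → ∀ i j, |(H g.pt)⁻¹ i j| ≤ M := by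
    intro g hg i j
    have h1 := hM g hg
    have h2 := (norm_le_pi_norm (fun i j => ((F g).M)⁻¹ i j : n → n → ℝ) i).trans h1
    have h3 := (norm_le_pi_norm (fun j => ((F g).M)⁻¹ i j : n → ℝ) j).trans h2
    rw [hF g, Real.norm_eq_abs] at h3
    exact h3
  refine (dsq_le_del hA hBp).trans ?_
  rw [del_diff hA hBp]
  have b1 := mul_bd (hinv g hgR') hent
  have b2 := mul_bd b1 (hinv _ hgb)
  have b3 := mul_bd b2 hent
  refine (trace_bd b3).trans (le_of_eq ?_)
  rw [hN]
  ring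

theorem eE_xx {σ : G →* GU κ} (μ : Measure (GU κ)) [μ.IsMulRightInvariant] {χ : GU κ → ℝ}
    (hχ : Cut σ χ) {F : GU κ → PD n} (hK : ∀ g, ∀ k ∈ KU κ, F (g * k) = F g) (N : ℕ)
    (q : KU κ × Dr κ) : eE μ (fun g => ENNReal.ofReal (χ g)) F (xx N q) =
      eE μ (fun g => ENNReal.ofReal (χ g)) F (bo ((1 / 2) ^ N) (show κ × Bool from q.2)) := by
  have hk := q.1.2
  have hk' : (q.1 : GU κ)⁻¹ ∈ KU κ := (KU κ).inv_mem hk
  unfold eE xx
  rw [← lintegral_mul_right_eq_self (μ := μ) (fun g => ENNReal.ofReal (χ g) * edist (F g)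
    (F (g * ((q.1 : GU κ) * bo ((1 / 2) ^ N) (show κ × Bool from q.2) * (q.1 : GU κ)⁻¹))) ^ 2)
    (q.1 : GU κ)⁻¹]
  congr 1
  ext g
  have e : g * (q.1 : GU κ)⁻¹ * ((q.1 : GU κ) * bo ((1 / 2) ^ N) (show κ × Bool from q.2) *
      (q.1 : GU κ)⁻¹) = g * bo ((1 / 2) ^ N) (show κ × Bool from q.2) * (q.1 : GU κ)⁻¹ := by group
  rw [e, hK _ _ hk', hK _ _ hk', hχ.kinv _ _ hk']

end EnfAux

open EnfAux PDAux in
/-- module ENF -/
theorem energy_formula {σ : G →* GU κ} (hL : Lat σ)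
    (μ : Measure (GU κ)) [IsHaarMeasure μ] {χ : GU κ → ℝ} (hχ : Cut σ χ)
    (ρ : G →* Matrix n n ℝ) {H : (κ ⊕ Unit → ℂ) → Matrix n n ℝ} (hH : EqC σ ρ H)
    {F : GU κ → PD n} (hF : ∀ g, (F g).M = H g.pt) :
    EE μ χ F = ENNReal.ofReal (En μ χ H) := by
  haveI := hL.countable
  haveI := right_inv hL μ
  obtain ⟨hE, hFc, hK⟩ := eqF_of_eqC hH hF
  have hT : Tendsto (eN μ (fun g => ENNReal.ofReal (χ g)) (th κ) xx F) atTop (𝓝 (EE μ χ F)) :=
    eN_tendsto hχ.meas hχ.sum (ac_isom ρ) xx_two hE.1 hE.2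
  obtain ⟨R, hR⟩ := hχ.supp
  have hχi : Integrable χ μ := hχ.cont.integrable_of_hasCompactSupport
    (HasCompactSupport.intro (isCompact_c R) fun g hg => by
      by_contra hne
      exact hg (hR g hne))
  have hcont : ∀ (N : ℕ) (p : κ × Bool),
      Continuous fun g => (4 : ℝ) ^ N * dist (F g) (F (g * bo ((1 / 2) ^ N) p)) ^ 2 := by
    intro N p
    exact continuous_const.mul ((hFc.dist (hFc.comp (continuous_id.mul continuous_const))).pow 2)
  set f : ℕ → GU κ → ℝ := fun N g =>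
    χ g * ∑ p : κ × Bool, 4 ^ N * dist (F g) (F (g * bo ((1 / 2) ^ N) p)) ^ 2 with hf
  have hfc : ∀ N, Continuous (f N) := fun N =>
    hχ.cont.mul (continuous_finset_sum _ fun p _ => hcont N p)
  have hf0 : ∀ N g, 0 ≤ f N g := fun N g =>
    mul_nonneg (hχ.nonneg g) (Finset.sum_nonneg fun p _ => by positivity)
  obtain ⟨C, hC⟩ := dsq_bd hH hF hFc R
  have hbd : ∀ N g, f N g ≤ (Fintype.card (κ × Bool) * C) * χ g := by
    intro N g
    by_cases hg : χ g = 0
    · simp only [hf, hg, zero_mul, mul_zero, le_refl]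
    · have h1 : ∀ p ∈ (Finset.univ : Finset (κ × Bool)),
          (4 : ℝ) ^ N * dist (F g) (F (g * bo ((1 / 2) ^ N) p)) ^ 2 ≤ C := by
        intro p _
        have h2 := hC g (hR g hg) p ((1 / 2) ^ N)
          ⟨by positivity, pow_le_one₀ (by norm_num) (by norm_num)⟩
        rw [PD.dist_sq, hF, hF]
        calc (4 : ℝ) ^ N * dsq (H g.pt) (H (g * bo ((1 / 2) ^ N) p).pt)
            ≤ 4 ^ N * (C * ((1 / 2) ^ N) ^ 2) := by gcongr
          _ = C * (4 * (1 / 2) ^ 2) ^ N := by rw [mul_pow, ← pow_mul, ← pow_mul, mul_comm N 2]; ring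
          _ = C := by norm_num
      have h3 := Finset.sum_le_sum h1
      rw [Finset.sum_const, nsmul_eq_mul, Finset.card_univ] at h3
      change χ g * _ ≤ _
      rw [mul_comm (_ * C) (χ g)]
      exact mul_le_mul_of_nonneg_left h3 (hχ.nonneg g)
  have hfi : ∀ N, Integrable (f N) μ := fun N =>
    (hχi.const_mul (Fintype.card (κ × Bool) * C)).mono' (hfc N).aestronglyMeasurable
      (Eventually.of_forall fun g => by
        rw [Real.norm_eq_abs, abs_of_nonneg (hf0 N g)]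
        exact hbd N g)
  have h1 : ∀ N, eN μ (fun g => ENNReal.ofReal (χ g)) (th κ) xx F N =
      ENNReal.ofReal (∫ g, f N g ∂μ) := by
    intro N
    rw [ofReal_integral_eq_lintegral_ofReal (hfi N) (Eventually.of_forall (hf0 N))]
    unfold eN
    have e1 : ∫⁻ q, eE μ (fun g => ENNReal.ofReal (χ g)) F (xx N q) ∂(th κ) =
        ∑ p : κ × Bool, eE μ (fun g => ENNReal.ofReal (χ g)) F (bo ((1 / 2) ^ N) p) := by
      have hm : Measurable fun q : KU κ × Dr κ =>
        eE μ (fun g => ENNReal.ofReal (χ g)) F (xx N q) := measurable_eE hχ.meas hE.1 (xx_meas N)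
      unfold th
      rw [lintegral_prod _ hm.aemeasurable]
      have e2 : ∀ k : KU κ, ∫⁻ d, eE μ (fun g => ENNReal.ofReal (χ g)) F (xx N (k, d))
          ∂(count : Measure (Dr κ)) =
          ∑ p : κ × Bool, eE μ (fun g => ENNReal.ofReal (χ g)) F (bo ((1 / 2) ^ N) p) := by
        intro k
        rw [lintegral_count, tsum_fintype]
        refine Finset.sum_congr rfl fun d _ => ?_
        exact eE_xx μ hχ hK N (k, d)
      simp only [e2]
      rw [lintegral_const, measure_univ, mul_one]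
    rw [e1]
    have e3 : ∀ g, ENNReal.ofReal (f N g) = ∑ p : κ × Bool, 4 ^ N * (ENNReal.ofReal (χ g) *
        edist (F g) (F (g * bo ((1 / 2) ^ N) p)) ^ 2) := by
      intro g
      simp only [hf]
      rw [ENNReal.ofReal_mul (hχ.nonneg g), ENNReal.ofReal_sum_of_nonneg
        (fun p _ => by positivity), Finset.mul_sum]
      refine Finset.sum_congr rfl fun p _ => ?_
      rw [ENNReal.ofReal_mul (by positivity), ENNReal.ofReal_pow (by norm_num),
        ENNReal.ofReal_pow dist_nonneg, edist_dist]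
      norm_num
      ring
    simp only [e3]
    rw [lintegral_finset_sum _ fun p _ => ?_]
    · rw [Finset.mul_sum]
      refine Finset.sum_congr rfl fun p _ => ?_
      rw [lintegral_const_mul' _ _ (by finiteness)]
      rfl
    · exact ((hχ.meas.mul ((hFc.measurable.edist (hFc.measurable.comp
        (measurable_mul_const _))).pow_const 2)).const_mul _)
  have h2 : Tendsto (fun N => ∫ g, f N g ∂μ) atTop (𝓝 (En μ χ H)) := by
    unfold En
    refine tendsto_integral_of_dominated_convergence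
      (fun g => (Fintype.card (κ × Bool) * C) * χ g) (fun N => (hfc N).aestronglyMeasurable)
      (hχi.const_mul _) (fun N => Eventually.of_forall fun g => ?_) ?_
    · rw [Real.norm_eq_abs, abs_of_nonneg (hf0 N g)]
      exact hbd N g
    · filter_upwards [ae_diff hH μ] with g hd
      refine Tendsto.const_mul _ (tendsto_finset_sum _ fun p _ => ?_)
      have hA := hF g ▸ (F g).pos
      have hB : ∀ N : ℕ, (H (g * bo ((1 / 2) ^ N) p).pt).PosDef := fun N =>
        hF (g * bo ((1 / 2) ^ N) p) ▸ (F (g * bo ((1 / 2) ^ N) p)).pos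
      have h3 : Tendsto (fun N : ℕ => H (g * bo ((1 / 2) ^ N) p).pt) atTop (𝓝 (H g.pt)) := by
        have h4 : Tendsto (fun N : ℕ => ((1 : ℝ) / 2) ^ N) atTop (𝓝 0) :=
          tendsto_pow_atTop_nhds_zero_of_lt_one (by norm_num) (by norm_num)
        have h5 : Continuous fun t : ℝ => (F (g * bo t p)).M :=
          PD.continuous_M.comp (hFc.comp (continuous_const.mul (continuous_bo p)))
        have h6 := (h5.tendsto 0).comp h4
        rw [bo_zero, mul_one, hF] at h6
        exact h6.congr fun N => hF _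
      have h7 := dsq_lim hA hB h3 (X := XH H p g)
        (tendsto_pi_nhds.mpr fun i => tendsto_pi_nhds.mpr fun j => lim_quot g p hd i j)
      refine h7.congr fun N => ?_
      rw [PD.dist_sq, hF, hF]
  have h3 : Tendsto (fun N => ENNReal.ofReal (∫ g, f N g ∂μ)) atTop
      (𝓝 (ENNReal.ofReal (En μ χ H))) := (ENNReal.continuous_ofReal.tendsto _).comp h2
  refine tendsto_nhds_unique hT ?_
  rw [funext h1]
  exact h3

end Pool.Agent.MPd01a95
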