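import Mathlib
import Pool.Agent.Lib.MP_d01a95_gt_H.HDefs
import Pool.Agent.Lib.MP_d01a95_gt_H.Unimod

set_option autoImplicit false
set_option linter.all false

open Matrix Filter Topology MeasureTheory Measure
open scoped ENNReal NNReal ContDiff

namespace Pool.Agent.MPd01a95

open GU

variable {κ n ι α : Type} [Fintype κ] [DecidableEq κ] [Fintype n] [DecidableEq n]
  [Fintype ι] [DecidableEq ι] [Fintype α] [DecidableEq α] {G : Type} [Group G]

namespace StaticAux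

/-- signs -/
def jr : ι ⊕ Fin 2 → ℝ := Sum.elim (fun _ => 1) (fun _ => -1)

theorem jr_sq (i : ι ⊕ Fin 2) : jr i * jr i = 1 := by
  rcases i with i | i <;> simp [jr]

theorem J_diag : J ι = Matrix.diagonal jr := by
  ext i j
  rcases i with i | i <;> rcases j with j | j <;>
    simp [J, Matrix.fromBlocks, jr, Matrix.diagonal, Matrix.one_apply]
  split_ifs <;> simp

theorem J_mul (A : Matrix (ι ⊕ Fin 2) (ι ⊕ Fin 2) ℝ) (i j : ι ⊕ Fin 2) :
    (J ι * A) i j = jr i * A i j := by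
  rw [J_diag, Matrix.diagonal_mul]

theorem J_J : J ι * J ι = 1 := by
  ext i j
  rw [J_mul, J_diag]
  by_cases h : i = j
  · subst h
    rw [Matrix.diagonal_apply_eq, Matrix.one_apply_eq, jr_sq]
  · rw [Matrix.diagonal_apply_ne _ h, Matrix.one_apply_ne h, mul_zero]

theorem bJ_eq (v w : ι ⊕ Fin 2 → ℂ) : bJ v w = ∑ i, (jr i : ℂ) * v i * w i := by
  unfold bJ
  rw [Fintype.sum_sum_type]
  simp only [jr, Sum.elim_inl, Sum.elim_inr, Complex.ofReal_one, Complex.ofReal_neg, one_mul,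
    neg_mul, Finset.sum_neg_distrib, sub_eq_add_neg]

theorem bJ_comm (v w : ι ⊕ Fin 2 → ℂ) : bJ v w = bJ w v := by
  rw [bJ_eq, bJ_eq]
  exact Finset.sum_congr rfl fun i _ => by ring

theorem bJ_add_left (v v' w : ι ⊕ Fin 2 → ℂ) : bJ (v + v') w = bJ v w + bJ v' w := by
  rw [bJ_eq, bJ_eq, bJ_eq, ← Finset.sum_add_distrib]
  exact Finset.sum_congr rfl fun i _ => by rw [Pi.add_apply]; ring

theorem bJ_smul_left (c : ℂ) (v w : ι ⊕ Fin 2 → ℂ) : bJ (c • v) w = c * bJ v w := by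
  rw [bJ_eq, bJ_eq, Finset.mul_sum]
  exact Finset.sum_congr rfl fun i _ => by rw [Pi.smul_apply, smul_eq_mul]; ring

theorem bJ_add_right (v w w' : ι ⊕ Fin 2 → ℂ) : bJ v (w + w') = bJ v w + bJ v w' := by
  rw [bJ_comm, bJ_add_left, bJ_comm w, bJ_comm w']

theorem bJ_smul_right (c : ℂ) (v w : ι ⊕ Fin 2 → ℂ) : bJ v (c • w) = c * bJ v w := by
  rw [bJ_comm, bJ_smul_left, bJ_comm w]

/-- columns of the projection -/
noncomputable def pp (h : Matrix (ι ⊕ Fin 2) (ι ⊕ Fin 2) ℝ) (k : Fin 2) : ι ⊕ Fin 2 → ℂ :=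
  fun i => (P2 h i (Sum.inr k) : ℂ)

/-- the coefficient -/
noncomputable def bb (ε : ℝ) (h : Matrix (ι ⊕ Fin 2) (ι ⊕ Fin 2) ℝ) : ℂ :=
  -(g2 h 0 1 : ℂ) + ε * Complex.I * (Real.sqrt (g2 h 0 0 * g2 h 1 1 - g2 h 0 1 ^ 2) : ℝ)

theorem sl_eq (ε : ℝ) (h : Matrix (ι ⊕ Fin 2) (ι ⊕ Fin 2) ℝ) :
    sl ε h = (g2 h 1 1 : ℂ) • pp h 0 + bb ε h • pp h 1 := by
  funext i
  simp only [sl, pp, bb, Pi.add_apply, Pi.smul_apply, smul_eq_mul]

theorem P2_apply (h : Matrix (ι ⊕ Fin 2) (ι ⊕ Fin 2) ℝ) (i j : ι ⊕ Fin 2) :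
    P2 h i j = (1 / 2) * ((1 : Matrix (ι ⊕ Fin 2) (ι ⊕ Fin 2) ℝ) i j - jr i * h i j) := by
  unfold P2
  rw [Matrix.smul_apply, Matrix.sub_apply, J_mul, smul_eq_mul]

section

variable {h : Matrix (ι ⊕ Fin 2) (ι ⊕ Fin 2) ℝ}

theorem symm_of (hp : h.PosDef) (i j : ι ⊕ Fin 2) : h i j = h j i := by
  have := hp.1
  have h2 := congrFun (congrFun this j) i
  simpa [Matrix.conjTranspose_apply] using h2

theorem th_sq (hJ : h * J ι * h = J ι) : (J ι * h) * (J ι * h) = 1 := by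
  have : (J ι * h) * (J ι * h) = J ι * (h * J ι * h) := by
    simp only [Matrix.mul_assoc]
  rw [this, hJ, J_J]

theorem th_P (hJ : h * J ι * h = J ι) : (J ι * h) * P2 h = - P2 h := by
  unfold P2
  rw [Matrix.mul_smul, Matrix.mul_sub, th_sq hJ, Matrix.mul_one, ← smul_neg, neg_sub]

theorem th_pp (hJ : h * J ι * h = J ι) (k : Fin 2) : thC h *ᵥ pp h k = - pp h k := by
  funext i
  have h1 := congrFun (congrFun (th_P hJ) i) (Sum.inr k)
  rw [Matrix.mul_apply, Matrix.neg_apply] at h1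
  simp only [Matrix.mulVec, dotProduct, thC, Matrix.map_apply, pp, Pi.neg_apply]
  rw [← Complex.ofReal_neg, ← h1]
  push_cast
  rfl

theorem jP_symm (hp : h.PosDef) (i j : ι ⊕ Fin 2) : jr i * P2 h i j = jr j * P2 h j i := by
  rw [P2_apply, P2_apply, symm_of hp j i]
  by_cases hij : i = j
  · subst hij; rfl
  · rw [Matrix.one_apply_ne hij, Matrix.one_apply_ne (Ne.symm hij)]
    have h1 := jr_sq i
    have h2 := jr_sq j
    linear_combination (-(1 / 2) * h i j) * h1 + ((1 / 2) * h i j) * h2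

theorem bJ_pp (hp : h.PosDef) (hJ : h * J ι * h = J ι) (k : Fin 2) {x : ι ⊕ Fin 2 → ℂ}
    (hx : thC h *ᵥ x = - x) : bJ (pp h k) x = - x (Sum.inr k) := by
  rw [bJ_eq]
  have h1 : ∀ i, (jr i : ℂ) * pp h k i * x i = - ((P2 h (Sum.inr k) i : ℂ) * x i) := by
    intro i
    have h2 := jP_symm hp i (Sum.inr k)
    have h3 : (jr (Sum.inr k : ι ⊕ Fin 2) : ℝ) = -1 := rfl
    rw [h3] at h2
    have h4 : (jr i : ℂ) * pp h k i = - (P2 h (Sum.inr k) i : ℂ) := by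
      simp only [pp]
      rw [← Complex.ofReal_mul, h2]
      push_cast
      ring
    rw [h4]
    ring
  rw [Finset.sum_congr rfl fun i _ => h1 i, Finset.sum_neg_distrib, neg_inj]
  have h5 : ∀ i, (P2 h (Sum.inr k) i : ℂ) * x i =
      (1 / 2) * ((if (Sum.inr k : ι ⊕ Fin 2) = i then x i else 0) -
        thC h (Sum.inr k) i * x i) := by
    intro i
    rw [P2_apply]
    simp only [thC, Matrix.map_apply]
    rw [J_mul]
    by_cases hij : (Sum.inr k : ι ⊕ Fin 2) = i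
    · subst hij
      rw [Matrix.one_apply_eq, if_pos rfl]
      push_cast
      ring
    · rw [Matrix.one_apply_ne hij, if_neg hij]
      push_cast
      ring
  rw [Finset.sum_congr rfl fun i _ => h5 i, ← Finset.mul_sum, Finset.sum_sub_distrib,
    Finset.sum_ite_eq]
  have h6 := congrFun hx (Sum.inr k)
  simp only [Matrix.mulVec, dotProduct, Pi.neg_apply] at h6
  rw [h6, if_pos (Finset.mem_univ _)]
  ring

theorem bJ_pp_pp (hp : h.PosDef) (hJ : h * J ι * h = J ι) (k j : Fin 2) :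
    bJ (pp h k) (pp h j) = - (g2 h k j : ℂ) := by
  rw [bJ_pp hp hJ k (th_pp hJ j)]
  rfl

theorem g2_eq (k j : Fin 2) :
    g2 h k j = (1 / 2) * ((1 : Matrix (Fin 2) (Fin 2) ℝ) k j + h (Sum.inr k) (Sum.inr j)) := by
  unfold g2
  rw [P2_apply]
  have h3 : (jr (Sum.inr k : ι ⊕ Fin 2) : ℝ) = -1 := rfl
  rw [h3]
  by_cases hkj : k = j
  · subst hkj
    rw [Matrix.one_apply_eq, Matrix.one_apply_eq]
    ring
  · rw [Matrix.one_apply_ne hkj, Matrix.one_apply_ne (fun hh => hkj (Sum.inr_injective hh))]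
    ring

theorem g2_symm (hp : h.PosDef) : g2 h 1 0 = g2 h 0 1 := by
  rw [g2_eq, g2_eq, symm_of hp, Matrix.one_apply_ne (by decide), Matrix.one_apply_ne (by decide)]

theorem quad (hp : h.PosDef) (a b : ℝ) (hab : a ≠ 0 ∨ b ≠ 0) :
    0 < a ^ 2 * h (Sum.inr 0) (Sum.inr 0) + 2 * a * b * h (Sum.inr 0) (Sum.inr 1) +
      b ^ 2 * h (Sum.inr 1) (Sum.inr 1) := by
  have hx : (Sum.elim (fun _ => (0 : ℝ)) ![a, b] : ι ⊕ Fin 2 → ℝ) ≠ 0 := by
    intro hh
    rcases hab with h1 | h1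
    · exact h1 (by simpa using congrFun hh (Sum.inr 0))
    · exact h1 (by simpa using congrFun hh (Sum.inr 1))
  have h2 := hp.dotProduct_mulVec_pos hx
  simp only [dotProduct, Matrix.mulVec, Fintype.sum_sum_type, Sum.elim_inl, Sum.elim_inr,
    Pi.star_apply, star_trivial, zero_mul, mul_zero, Finset.sum_const_zero, zero_add,
    Fin.sum_univ_two, Matrix.cons_val_zero, Matrix.cons_val_one] at h2
  rw [symm_of hp (Sum.inr 1) (Sum.inr 0)] at h2
  nlinarith [h2]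

theorem g11_pos (hp : h.PosDef) : 0 < g2 h 1 1 := by
  have := quad hp 0 1 (Or.inr one_ne_zero)
  rw [g2_eq, Matrix.one_apply_eq]
  nlinarith

theorem Delta_pos (hp : h.PosDef) : 0 < g2 h 0 0 * g2 h 1 1 - g2 h 0 1 ^ 2 := by
  have h1 := quad hp 0 1 (Or.inr one_ne_zero)
  have h0 := quad hp 1 0 (Or.inl one_ne_zero)
  have h11 : 0 < h (Sum.inr 1) (Sum.inr 1) := by nlinarith
  have h00 : 0 < h (Sum.inr 0) (Sum.inr 0) := by nlinarith
  have h2 := quad hp (h (Sum.inr 1) (Sum.inr 1)) (-(h (Sum.inr 0) (Sum.inr 1))) (Or.inl h11.ne')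
  have h3 : 0 < h (Sum.inr 1) (Sum.inr 1) *
      (h (Sum.inr 0) (Sum.inr 0) * h (Sum.inr 1) (Sum.inr 1) - h (Sum.inr 0) (Sum.inr 1) ^ 2) := by
    nlinarith [h2]
  have h4 : 0 < h (Sum.inr 0) (Sum.inr 0) * h (Sum.inr 1) (Sum.inr 1) -
      h (Sum.inr 0) (Sum.inr 1) ^ 2 := by
    by_contra hc
    rw [not_lt] at hc
    have := mul_nonpos_of_nonneg_of_nonpos h11.le hc
    linarith
  rw [g2_eq, g2_eq, g2_eq, Matrix.one_apply_eq, Matrix.one_apply_eq,
    Matrix.one_apply_ne (by decide)]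
  nlinarith

/-- square root of the determinant -/
theorem sq_sqrt (hp : h.PosDef) :
    ((Real.sqrt (g2 h 0 0 * g2 h 1 1 - g2 h 0 1 ^ 2) : ℝ) : ℂ) ^ 2 =
      (g2 h 0 0 : ℂ) * g2 h 1 1 - (g2 h 0 1 : ℂ) ^ 2 := by
  rw [← Complex.ofReal_pow, Real.sq_sqrt (Delta_pos hp).le]
  push_cast
  rfl

theorem bJ_sl_sl (hp : h.PosDef) (hJ : h * J ι * h = J ι) (ε δ : ℝ) :
    bJ (sl ε h) (sl δ h) = -(g2 h 1 1 : ℂ) *
      ((g2 h 1 1 : ℂ) * g2 h 0 0 + (bb ε h + bb δ h) * g2 h 0 1 + bb ε h * bb δ h) := by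
  rw [sl_eq, sl_eq]
  simp only [bJ_add_left, bJ_add_right, bJ_smul_left, bJ_smul_right]
  rw [bJ_pp_pp hp hJ, bJ_pp_pp hp hJ, bJ_pp_pp hp hJ, bJ_pp_pp hp hJ, g2_symm hp]
  ring

theorem eps_cast {ε : ℝ} (hε : ε ^ 2 = 1) : (ε : ℂ) ^ 2 = 1 := by
  rw [← Complex.ofReal_pow, hε, Complex.ofReal_one]

theorem cross (hp : h.PosDef) (hJ : h * J ι * h = J ι) {ε : ℝ} (hε : ε ^ 2 = 1) :
    bJ (sl ε h) (sl (-ε) h) =
      ((-2 * g2 h 1 1 * (g2 h 0 0 * g2 h 1 1 - g2 h 0 1 ^ 2) : ℝ) : ℂ) := by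
  rw [bJ_sl_sl hp hJ]
  unfold bb
  have h1 := sq_sqrt hp
  have h2 := eps_cast hε
  have h3 := Complex.I_sq
  push_cast at h1 ⊢
  generalize ((Real.sqrt (g2 h 0 0 * g2 h 1 1 - g2 h 0 1 ^ 2) : ℝ) : ℂ) = s at *
  generalize (ε : ℂ) = e at *
  linear_combination (-(g2 h 1 1 : ℂ)) * h1 + (- (g2 h 1 1 : ℂ) * s ^ 2) * h2 +
    ((g2 h 1 1 : ℂ) * s ^ 2 * e ^ 2) * h3

end

end StaticAux

open StaticAux

section

variable {h : Matrix (ι ⊕ Fin 2) (ι ⊕ Fin 2) ℝ} (hp : h.PosDef) (hJ : h * J ι * h = J ι)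

include hp hJ

/-- module STATIC -/
theorem th_sl (ε : ℝ) : thC h *ᵥ sl ε h = - sl ε h := by
  rw [sl_eq, Matrix.mulVec_add, Matrix.mulVec_smul, Matrix.mulVec_smul, th_pp hJ, th_pp hJ,
    smul_neg, smul_neg, neg_add]

/-- module STATIC -/
theorem sl_iso {ε : ℝ} (hε : ε ^ 2 = 1) : bJ (sl ε h) (sl ε h) = 0 := by
  rw [bJ_sl_sl hp hJ]
  unfold bb
  have h1 := sq_sqrt hp
  have h2 := eps_cast hε
  have h3 := Complex.I_sq
  generalize ((Real.sqrt (g2 h 0 0 * g2 h 1 1 - g2 h 0 1 ^ 2) : ℝ) : ℂ) = s at *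
  generalize (ε : ℂ) = e at *
  linear_combination ((g2 h 1 1 : ℂ)) * h1 + ((g2 h 1 1 : ℂ) * s ^ 2) * h2 +
    (-(g2 h 1 1 : ℂ) * s ^ 2 * e ^ 2) * h3

/-- module STATIC -/
theorem sl_conj (ε : ℝ) : star (sl ε h) = sl (-ε) h := by
  funext i
  simp only [sl, Pi.star_apply, star_add, star_mul', RCLike.star_def, Complex.conj_ofReal,
    Complex.conj_I, map_neg, map_mul, map_add]
  push_cast
  ring

/-- module STATIC -/
theorem sl_neg {ε : ℝ} (hε : ε ^ 2 = 1) : ∑ i, ‖sl ε h (Sum.inl i)‖ ^ 2 <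
    ‖sl ε h (Sum.inr 0)‖ ^ 2 + ‖sl ε h (Sum.inr 1)‖ ^ 2 := by
  have h1 := cross hp hJ hε
  rw [← sl_conj hp hJ] at h1
  unfold bJ at h1
  simp only [Pi.star_apply, RCLike.star_def, Complex.mul_conj] at h1
  rw [Fin.sum_univ_two] at h1
  simp only [Complex.normSq_eq_norm_sq] at h1
  have h2 : ∑ i, ‖sl ε h (Sum.inl i)‖ ^ 2 -
      (‖sl ε h (Sum.inr 0)‖ ^ 2 + ‖sl ε h (Sum.inr 1)‖ ^ 2) =
      -2 * g2 h 1 1 * (g2 h 0 0 * g2 h 1 1 - g2 h 0 1 ^ 2) := by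
    exact_mod_cast h1
  have h3 := mul_pos (g11_pos hp) (Delta_pos hp)
  nlinarith

/-- module STATIC -/
theorem sl_coord {ε : ℝ} (hε : ε ^ 2 = 1) :
    sl ε h (Sum.inr 0) - ε * Complex.I * sl ε h (Sum.inr 1) ≠ 0 := by
  intro h0
  have e1 : sl ε h (Sum.inr 0) - ε * Complex.I * sl ε h (Sum.inr 1) =
      (((g2 h 0 0 * g2 h 1 1 - g2 h 0 1 ^ 2) +
        Real.sqrt (g2 h 0 0 * g2 h 1 1 - g2 h 0 1 ^ 2) * g2 h 1 1 : ℝ) : ℂ) +
      ((ε * Real.sqrt (g2 h 0 0 * g2 h 1 1 - g2 h 0 1 ^ 2) * g2 h 0 1 : ℝ) : ℂ) * Complex.I := by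
    have h1 := sq_sqrt hp
    have h2 := eps_cast hε
    have h3 := Complex.I_sq
    have a0 : sl ε h (Sum.inr 0) = (g2 h 1 1 : ℂ) * g2 h 0 0 + bb ε h * g2 h 0 1 := rfl
    have a1 : sl ε h (Sum.inr 1) = (g2 h 1 1 : ℂ) * g2 h 1 0 + bb ε h * g2 h 1 1 := rfl
    rw [a0, a1, g2_symm hp]
    unfold bb
    push_cast
    generalize ((Real.sqrt (g2 h 0 0 * g2 h 1 1 - g2 h 0 1 ^ 2) : ℝ) : ℂ) = s at *
    generalize (ε : ℂ) = e at *
    linear_combination (- s * (g2 h 1 1 : ℂ) * e ^ 2) * h3 + (s * (g2 h 1 1 : ℂ)) * h2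
  rw [e1] at h0
  have h4 := congrArg Complex.re h0
  rw [Complex.add_re, Complex.ofReal_re, Complex.re_ofReal_mul, Complex.I_re, mul_zero, add_zero,
    Complex.zero_re] at h4
  have h5 := Delta_pos hp
  have h6 := mul_pos (Real.sqrt_pos.2 h5) (g11_pos hp)
  linarith

/-- module STATIC -/
theorem sl_cross : bJ (sl 1 h) (sl (-1) h) ≠ 0 := by
  rw [cross hp hJ (by norm_num)]
  intro h0
  have h1 := Complex.ofReal_eq_zero.1 h0
  have h3 := mul_pos (g11_pos hp) (Delta_pos hp)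
  nlinarith

omit hJ in
theorem StaticAux.real_zero {x : ι ⊕ Fin 2 → ℝ} (hx : (J ι * h) *ᵥ x = - x)
    (h0 : ∀ k, x (Sum.inr k) = 0) : x = 0 := by
  by_contra hne
  have h1 := hp.dotProduct_mulVec_pos hne
  have h2 : h *ᵥ x = - (J ι *ᵥ x) := by
    have h3 := congrArg (fun y => J ι *ᵥ y) hx
    simp only [Matrix.mulVec_mulVec, Matrix.mulVec_neg] at h3
    rw [← Matrix.mul_assoc, J_J, Matrix.one_mul] at h3
    exact h3
  rw [h2, dotProduct_neg] at h1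
  have h4 : star x ⬝ᵥ (J ι *ᵥ x) = ∑ i, x (Sum.inl i) ^ 2 := by
    simp only [dotProduct, Pi.star_apply, star_trivial]
    rw [Fintype.sum_sum_type]
    simp only [h0, zero_mul, Finset.sum_const_zero, add_zero]
    refine Finset.sum_congr rfl fun i _ => ?_
    rw [J_diag, Matrix.mulVec_diagonal]
    simp only [jr, Sum.elim_inl, one_mul]
    ring
  rw [h4] at h1
  have h5 : 0 ≤ ∑ i, x (Sum.inl i) ^ 2 := Finset.sum_nonneg fun i _ => sq_nonneg _
  linarith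

omit hJ in
theorem StaticAux.cplx_zero {x : ι ⊕ Fin 2 → ℂ} (hx : thC h *ᵥ x = - x)
    (h0 : ∀ k, x (Sum.inr k) = 0) : x = 0 := by
  have hr : (fun i => (x i).re) = 0 := by
    refine StaticAux.real_zero hp ?_ fun k => by simp [h0]
    funext i
    have h1 := congrArg Complex.re (congrFun hx i)
    simp only [Matrix.mulVec, dotProduct, thC, Matrix.map_apply, Pi.neg_apply, Complex.re_sum,
      Complex.re_ofReal_mul, Complex.neg_re] at h1
    simpa [Matrix.mulVec, dotProduct] using h1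
  have hi : (fun i => (x i).im) = 0 := by
    refine StaticAux.real_zero hp ?_ fun k => by simp [h0]
    funext i
    have h1 := congrArg Complex.im (congrFun hx i)
    simp only [Matrix.mulVec, dotProduct, thC, Matrix.map_apply, Pi.neg_apply, Complex.im_sum,
      Complex.im_ofReal_mul, Complex.neg_im] at h1
    simpa [Matrix.mulVec, dotProduct] using h1
  funext i
  exact Complex.ext (congrFun hr i) (congrFun hi i)

/-- module STATIC -/
theorem sl_span {w : ι ⊕ Fin 2 → ℂ} (hw : thC h *ᵥ w = -w) :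
    ∃ a b : ℂ, w = a • sl 1 h + b • sl (-1) h := by
  set c := bJ (sl 1 h) (sl (-1) h) with hc
  have hc0 : c ≠ 0 := sl_cross hp hJ
  have hc' : bJ (sl (-1) h) (sl 1 h) = c := by rw [hc, bJ_comm]
  have i1 : bJ (sl 1 h) (sl 1 h) = 0 := sl_iso hp hJ (by norm_num)
  have i2 : bJ (sl (-1) h) (sl (-1) h) = 0 := sl_iso hp hJ (by norm_num)
  refine ⟨bJ w (sl (-1) h) / c, bJ w (sl 1 h) / c, ?_⟩
  set a := bJ w (sl (-1) h) / c with ha
  set b := bJ w (sl 1 h) / c with hb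
  obtain ⟨w', hw'⟩ : ∃ w', w' = w + (-a) • sl 1 h + (-b) • sl (-1) h := ⟨_, rfl⟩
  have hth : thC h *ᵥ w' = - w' := by
    rw [hw', Matrix.mulVec_add, Matrix.mulVec_add, Matrix.mulVec_smul, Matrix.mulVec_smul, hw,
      th_sl hp hJ, th_sl hp hJ, smul_neg, smul_neg, neg_add, neg_add]
  have z1 : bJ w' (sl 1 h) = 0 := by
    rw [hw', bJ_add_left, bJ_add_left, bJ_smul_left, bJ_smul_left, i1, hc', hb]
    field_simp
    ring
  have z2 : bJ w' (sl (-1) h) = 0 := by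
    rw [hw', bJ_add_left, bJ_add_left, bJ_smul_left, bJ_smul_left, i2, ← hc, ha]
    field_simp
    ring
  have q : ∀ ε, bJ w' (sl ε h) = - ((g2 h 1 1 : ℂ) * w' (Sum.inr 0) + bb ε h * w' (Sum.inr 1)) := by
    intro ε
    rw [bJ_comm, sl_eq, bJ_add_left, bJ_smul_left, bJ_smul_left, bJ_pp hp hJ 0 hth,
      bJ_pp hp hJ 1 hth]
    ring
  rw [q] at z1 z2
  have g1 : (g2 h 1 1 : ℂ) ≠ 0 := Complex.ofReal_ne_zero.2 (g11_pos hp).ne'
  have s1 : ((Real.sqrt (g2 h 0 0 * g2 h 1 1 - g2 h 0 1 ^ 2) : ℝ) : ℂ) ≠ 0 :=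
    Complex.ofReal_ne_zero.2 (Real.sqrt_pos.2 (Delta_pos hp)).ne'
  have w1 : w' (Sum.inr 1) = 0 := by
    have h5 : (2 * Complex.I * ((Real.sqrt (g2 h 0 0 * g2 h 1 1 - g2 h 0 1 ^ 2) : ℝ) : ℂ)) *
        w' (Sum.inr 1) = 0 := by
      unfold bb at z1 z2
      push_cast at z1 z2 ⊢
      linear_combination z2 - z1
    rcases mul_eq_zero.1 h5 with h6 | h6
    · exfalso
      rcases mul_eq_zero.1 h6 with h7 | h7
      · rcases mul_eq_zero.1 h7 with h8 | h8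
        · exact two_ne_zero h8
        · exact Complex.I_ne_zero h8
      · exact s1 h7
    · exact h6
  have w0 : w' (Sum.inr 0) = 0 := by
    rw [w1, mul_zero, add_zero, neg_eq_zero] at z1
    rcases mul_eq_zero.1 z1 with h8 | h8
    · exact absurd h8 g1
    · exact h8
  have hz : w' = 0 := by
    refine StaticAux.cplx_zero hp hth fun k => ?_
    fin_cases k
    · exact w0
    · exact w1
  rw [hw'] at hz
  have h9 : w = a • sl 1 h + b • sl (-1) h +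
      (w + (-a) • sl 1 h + (-b) • sl (-1) h) := by
    rw [neg_smul, neg_smul]
    abel
  rw [hz, add_zero] at h9
  exact h9

/-- module STATIC -/
theorem sl_iso_cases {w : ι ⊕ Fin 2 → ℂ} (hw : thC h *ᵥ w = -w) (h0 : bJ w w = 0) :
    (∃ c : ℂ, w = c • sl 1 h) ∨ ∃ c : ℂ, w = c • sl (-1) h := by
  obtain ⟨a, b, hab⟩ := sl_span hp hJ hw
  have i1 : bJ (sl 1 h) (sl 1 h) = 0 := sl_iso hp hJ (by norm_num)
  have i2 : bJ (sl (-1) h) (sl (-1) h) = 0 := sl_iso hp hJ (by norm_num)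
  rw [hab] at h0
  simp only [bJ_add_left, bJ_add_right, bJ_smul_left, bJ_smul_right] at h0
  rw [i1, i2, bJ_comm (sl (-1) h) (sl 1 h)] at h0
  have h1 : (2 * a * b) * bJ (sl 1 h) (sl (-1) h) = 0 := by linear_combination h0
  rcases mul_eq_zero.1 h1 with h2 | h2
  · rcases mul_eq_zero.1 h2 with h3 | h3
    · right
      refine ⟨b, ?_⟩
      have : a = 0 := by
        rcases mul_eq_zero.1 h3 with h4 | h4
        · exact absurd h4 two_ne_zero
        · exact h4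
      rw [hab, this, zero_smul, zero_add]
    · left
      refine ⟨a, ?_⟩
      rw [hab, h3, zero_smul, add_zero]
  · exact absurd h2 (sl_cross hp hJ)

/-- module STATIC -/
theorem sl_perp {w : ι ⊕ Fin 2 → ℂ} {ε : ℝ} (hε : ε ^ 2 = 1) (hw : thC h *ᵥ w = -w)
    (h0 : bJ w (sl ε h) = 0) : ∃ c : ℂ, w = c • sl ε h := by
  obtain ⟨a, b, hab⟩ := sl_span hp hJ hw
  have i1 : bJ (sl 1 h) (sl 1 h) = 0 := sl_iso hp hJ (by norm_num)
  have i2 : bJ (sl (-1) h) (sl (-1) h) = 0 := sl_iso hp hJ (by norm_num)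
  have hε' : ε = 1 ∨ ε = -1 := by
    have h5 : (ε - 1) * (ε + 1) = 0 := by linear_combination hε
    rcases mul_eq_zero.1 h5 with h6 | h6
    · exact Or.inl (by linarith)
    · exact Or.inr (by linarith)
  rcases hε' with rfl | rfl
  · rw [hab, bJ_add_left, bJ_smul_left, bJ_smul_left, i1, bJ_comm (sl (-1) h) (sl 1 h), mul_zero,
      zero_add] at h0
    rcases mul_eq_zero.1 h0 with h4 | h4
    · exact ⟨a, by rw [hab, h4, zero_smul, add_zero]⟩
    · exact absurd h4 (sl_cross hp hJ)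
  · rw [hab, bJ_add_left, bJ_smul_left, bJ_smul_left, i2, mul_zero, add_zero] at h0
    rcases mul_eq_zero.1 h0 with h4 | h4
    · exact ⟨b, by rw [hab, h4, zero_smul, zero_add]⟩
    · exact absurd h4 (sl_cross hp hJ)

end

end Pool.Agent.MPd01a95
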