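import Mathlib
import Pool.Agent.Lib.MP_d01a95_gt_H.HDefs
import Pool.Agent.Lib.MP_d01a95_gt_H.Unimod
import Pool.Agent.Lib.MP_d01a95_gt_H.Static
import Pool.Agent.Lib.MP_d01a95_gt_H.Mcalc
set_option autoImplicit false
set_option linter.all false
open Matrix Filter Topology MeasureTheory Measure
open scoped ENNReal NNReal ContDiff
namespace Pool.Agent.MPd01a95
open GU
variable {κ n ι α : Type} [Fintype κ] [DecidableEq κ] [Fintype n] [DecidableEq n] [Fintype ι] [DecidableEq ι] [Fintype α] [DecidableEq α] {G : Type} [Group G]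

namespace PhiAux

/-- complexification of a matrix -/
def cx (A : Matrix n n ℝ) : Matrix n n ℂ := A.map ((↑) : ℝ → ℂ)

theorem cx_apply (A : Matrix n n ℝ) (i j : n) : cx A i j = (A i j : ℂ) := rfl

theorem cx_mul (A B : Matrix n n ℝ) : cx (A * B) = cx A * cx B := by
  ext i j
  simp [cx, Matrix.mul_apply]

theorem cx_add (A B : Matrix n n ℝ) : cx (A + B) = cx A + cx B := by
  ext i j
  simp [cx]

theorem cx_neg (A : Matrix n n ℝ) : cx (-A) = -cx A := by
  ext i j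
  simp [cx]

theorem cx_smul (r : ℝ) (A : Matrix n n ℝ) : cx (r • A) = (r : ℂ) • cx A := by
  ext i j
  simp [cx]

theorem cx_one : cx (1 : Matrix n n ℝ) = 1 := by
  ext i j
  by_cases h : i = j
  · subst h; simp [cx]
  · simp [cx, Matrix.one_apply_ne h]

theorem cx_inv {A : Matrix n n ℝ} (hA : IsUnit A.det) : (cx A)⁻¹ = cx A⁻¹ := by
  refine Matrix.inv_eq_left_inv ?_
  rw [← cx_mul, Matrix.nonsing_inv_mul _ hA, cx_one]

theorem isOpen_Bl : IsOpen (HolAux.Bl κ) := by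
  have : Continuous fun z : κ → ℂ => ∑ i, ‖z i‖ ^ 2 := by fun_prop
  exact isOpen_lt this continuous_const

section

variable {E : Type} [NormedAddCommGroup E] [NormedSpace ℝ E] [NormedSpace ℂ E]

theorem DM_cH {h : E → Matrix n n ℝ} {z : E} (hd : ∀ i j, DifferentiableAt ℝ (fun w => h w i j) z)
    (u : E) : DM (cH h) z u = cx (DM h z u) := by
  ext i j
  show fderiv ℝ (fun w => ((h w i j : ℝ) : ℂ)) z u = ((fderiv ℝ (fun w => h w i j) z u : ℝ) : ℂ)
  have h1 : HasFDerivAt (fun w => ((h w i j : ℝ) : ℂ))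
      (Complex.ofRealCLM.comp (fderiv ℝ (fun w => h w i j) z)) z :=
    (Complex.ofRealCLM.hasFDerivAt).comp z (hd i j).hasFDerivAt
  rw [h1.fderiv]
  rfl

theorem ph_eq {h : E → Matrix n n ℝ} {z : E} (hd : ∀ i j, DifferentiableAt ℝ (fun w => h w i j) z)
    (hu : IsUnit (h z).det) (u : E) :
    ph h u z = (1 / 4 : ℂ) • (cx (h z)⁻¹ * cx (DM h z u) -
      Complex.I • (cx (h z)⁻¹ * cx (DM h z (Complex.I • u)))) := by
  have e : (cH h z)⁻¹ = cx (h z)⁻¹ := cx_inv hu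
  rw [ph, dz, e, DM_cH hd, DM_cH hd, Matrix.mul_smul, smul_smul, Matrix.mul_sub, Matrix.mul_smul]
  norm_num

theorem phb_eq {h : E → Matrix n n ℝ} {z : E} (hd : ∀ i j, DifferentiableAt ℝ (fun w => h w i j) z)
    (hu : IsUnit (h z).det) (u : E) :
    phb h u z = (1 / 4 : ℂ) • (cx (h z)⁻¹ * cx (DM h z u) +
      Complex.I • (cx (h z)⁻¹ * cx (DM h z (Complex.I • u)))) := by
  have e : (cH h z)⁻¹ = cx (h z)⁻¹ := cx_inv hu
  rw [phb, dzb, e, DM_cH hd, DM_cH hd, Matrix.mul_smul, smul_smul, Matrix.mul_add, Matrix.mul_smul]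
  norm_num

theorem DM_add (h : E → Matrix n n ℝ) (z u u' : E) : DM h z (u + u') = DM h z u + DM h z u' := by
  ext i j
  simp [DM]

theorem DM_smul (h : E → Matrix n n ℝ) (z : E) (r : ℝ) (u : E) : DM h z (r • u) = r • DM h z u := by
  ext i j
  simp [DM]

end

/-- the real identity behind all the statements -/
theorem DM_J {h : (κ → ℂ) → Matrix (ι ⊕ Fin 2) (ι ⊕ Fin 2) ℝ} (hh : PHB (J ι) h)
    {z : κ → ℂ} (hz : z ∈ HolAux.Bl κ) (u : κ → ℂ) :
    DM h z u * J ι * h z + h z * J ι * DM h z u = 0 := by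
  have hd : ∀ i j, DifferentiableAt ℝ (fun w => h w i j) z := fun i j =>
    ((hh.sm i j).contDiffAt (isOpen_Bl.mem_nhds hz)).differentiableAt (by simp)
  have hdJ : ∀ i j, DifferentiableAt ℝ (fun w => (J ι * h w) i j) z := by
    intro i j
    have e : (fun w => (J ι * h w) i j) = fun w => ∑ k, J ι i k * h w k j := by
      funext w; rw [Matrix.mul_apply]
    rw [e]
    exact DifferentiableAt.fun_sum fun k _ => (hd k j).const_mul _
  have h1 : DM (fun w => h w * (J ι * h w)) z u = DM h z u * (J ι * h z) +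
      h z * DM (fun w => J ι * h w) z u := DM_mul hd hdJ u
  have h2 : DM (fun w => J ι * h w) z u = J ι * DM h z u := by
    ext i j
    show fderiv ℝ (fun w => (J ι * h w) i j) z u = _
    have e : (fun w => (J ι * h w) i j) = fun w => ∑ k, J ι i k * h w k j := by
      funext w; rw [Matrix.mul_apply]
    rw [e, fderiv_fun_sum fun k _ => (hd k j).const_mul _]
    simp only [ContinuousLinearMap.coe_sum', Finset.sum_apply, Matrix.mul_apply]
    refine Finset.sum_congr rfl fun k _ => ?_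
    rw [fderiv_const_mul (hd k j)]
    rfl
  have h3 : DM (fun w => h w * (J ι * h w)) z u = 0 := by
    ext i j
    show fderiv ℝ (fun w => (h w * (J ι * h w)) i j) z u = 0
    have e : (fun w => (h w * (J ι * h w)) i j) =ᶠ[𝓝 z] fun _ => J ι i j := by
      filter_upwards [isOpen_Bl.mem_nhds hz] with w hw
      rw [← Matrix.mul_assoc, hh.hJ w hw]
    rw [e.fderiv_eq]
    simp
  rw [h3, h2, ← Matrix.mul_assoc, ← Matrix.mul_assoc] at h1
  exact h1.symm

section

variable {H X J₀ : Matrix n n ℝ}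

theorem real_anti (hu : IsUnit H.det) (hX : X * J₀ * H + H * J₀ * X = 0) :
    J₀ * H * (H⁻¹ * X) = -(H⁻¹ * X * (J₀ * H)) := by
  have e1 : J₀ * H * (H⁻¹ * X) = J₀ * X := by
    rw [Matrix.mul_assoc, ← Matrix.mul_assoc H, Matrix.mul_nonsing_inv _ hu, Matrix.one_mul]
  have e2 : H⁻¹ * X * (J₀ * H) = H⁻¹ * (X * J₀ * H) := by
    simp only [Matrix.mul_assoc]
  have e3 : X * J₀ * H = -(H * J₀ * X) := eq_neg_of_add_eq_zero_left hX
  rw [e1, e2, e3, Matrix.mul_neg, neg_neg, ← Matrix.mul_assoc, ← Matrix.mul_assoc,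
    Matrix.nonsing_inv_mul _ hu, Matrix.one_mul]

theorem real_skew (hu : IsUnit H.det) (hs : Hᵀ = H) (hXs : Xᵀ = X) (hJ : H * J₀ * H = J₀)
    (hX : X * J₀ * H + H * J₀ * X = 0) :
    (H⁻¹ * X)ᵀ * J₀ = -(J₀ * (H⁻¹ * X)) := by
  have e1 : H⁻¹ * J₀ = J₀ * H := by
    have this : H⁻¹ * (H * J₀ * H) = H⁻¹ * J₀ := by rw [hJ]
    rw [← this, ← Matrix.mul_assoc, ← Matrix.mul_assoc, Matrix.nonsing_inv_mul _ hu,
      Matrix.one_mul]
  have e2 : J₀ * H⁻¹ = H * J₀ := by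
    have this : (H * J₀ * H) * H⁻¹ = J₀ * H⁻¹ := by rw [hJ]
    rw [← this, Matrix.mul_assoc, Matrix.mul_nonsing_inv _ hu, Matrix.mul_one]
  rw [Matrix.transpose_mul, Matrix.transpose_nonsing_inv, hs, hXs, Matrix.mul_assoc, e1,
    ← Matrix.mul_assoc J₀, e2, ← Matrix.mul_assoc X]
  exact eq_neg_of_add_eq_zero_left hX

end

theorem bJ_dot (v w : ι ⊕ Fin 2 → ℂ) : bJ v w = v ⬝ᵥ (cx (J ι) *ᵥ w) := by
  rw [StaticAux.bJ_eq]
  have e : cx (J ι) = Matrix.diagonal fun i => (StaticAux.jr i : ℂ) := by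
    rw [StaticAux.J_diag]
    ext i j
    by_cases h : i = j
    · subst h; simp [cx]
    · simp [cx, Matrix.diagonal_apply_ne _ h]
  rw [e, dotProduct]
  refine Finset.sum_congr rfl fun i _ => ?_
  rw [Matrix.mulVec_diagonal]
  ring

theorem bJ_skew_of {A : Matrix (ι ⊕ Fin 2) (ι ⊕ Fin 2) ℂ}
    (hA : Aᵀ * cx (J ι) = -(cx (J ι) * A)) (v w : ι ⊕ Fin 2 → ℂ) :
    bJ (A *ᵥ v) w = - bJ v (A *ᵥ w) := by
  have e1 : bJ (A *ᵥ v) w = (Aᵀ *ᵥ (cx (J ι) *ᵥ w)) ⬝ᵥ v := by
    rw [bJ_dot, dotProduct_comm, Matrix.dotProduct_mulVec, ← Matrix.mulVec_transpose]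
  rw [e1, bJ_dot, Matrix.mulVec_mulVec, Matrix.mulVec_mulVec, hA, Matrix.neg_mulVec,
    neg_dotProduct, dotProduct_comm]

/-- the hypotheses at a point -/
theorem basic {h : (κ → ℂ) → Matrix (ι ⊕ Fin 2) (ι ⊕ Fin 2) ℝ} (hh : PHB (J ι) h)
    {z : κ → ℂ} (hz : z ∈ HolAux.Bl κ) :
    (∀ i j, DifferentiableAt ℝ (fun w => h w i j) z) ∧ IsUnit (h z).det ∧ (h z)ᵀ = h z ∧
    ∀ u, (DM h z u)ᵀ = DM h z u := by
  have hd : ∀ i j, DifferentiableAt ℝ (fun w => h w i j) z := fun i j =>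
    ((hh.sm i j).contDiffAt (isOpen_Bl.mem_nhds hz)).differentiableAt (by simp)
  refine ⟨hd, (hh.pos z hz).det_pos.ne'.isUnit, ?_, ?_⟩
  · ext i j
    exact (StaticAux.symm_of (hh.pos z hz) i j).symm
  · intro u
    ext i j
    show fderiv ℝ (fun w => h w j i) z u = fderiv ℝ (fun w => h w i j) z u
    have e : (fun w => h w j i) =ᶠ[𝓝 z] fun w => h w i j := by
      filter_upwards [isOpen_Bl.mem_nhds hz] with w hw
      exact StaticAux.symm_of (hh.pos w hw) j i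
    rw [e.fderiv_eq]

theorem cx_anti {h : (κ → ℂ) → Matrix (ι ⊕ Fin 2) (ι ⊕ Fin 2) ℝ} (hh : PHB (J ι) h)
    {z : κ → ℂ} (hz : z ∈ HolAux.Bl κ) (u : κ → ℂ) :
    thC (h z) * (cx (h z)⁻¹ * cx (DM h z u)) = -(cx (h z)⁻¹ * cx (DM h z u) * thC (h z)) := by
  obtain ⟨hd, hu, hs, hX⟩ := basic hh hz
  have h1 := real_anti hu (DM_J hh hz u)
  have h2 := congrArg cx h1
  rw [cx_neg, cx_mul (J ι * h z), cx_mul _ (J ι * h z), cx_mul (h z)⁻¹] at h2
  exact h2

theorem cx_skew {h : (κ → ℂ) → Matrix (ι ⊕ Fin 2) (ι ⊕ Fin 2) ℝ} (hh : PHB (J ι) h)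
    {z : κ → ℂ} (hz : z ∈ HolAux.Bl κ) (u : κ → ℂ) :
    (cx (h z)⁻¹ * cx (DM h z u))ᵀ * cx (J ι) = -(cx (J ι) * (cx (h z)⁻¹ * cx (DM h z u))) := by
  obtain ⟨hd, hu, hs, hX⟩ := basic hh hz
  have h1 := real_skew hu hs (hX u) (hh.hJ z hz) (DM_J hh hz u)
  have h2 := congrArg cx h1
  rw [cx_neg, cx_mul, cx_mul (J ι), cx_mul (h z)⁻¹] at h2
  have h3 : cx ((h z)⁻¹ * DM h z u)ᵀ = (cx (h z)⁻¹ * cx (DM h z u))ᵀ := by
    rw [← cx_mul]; rfl
  rw [h3] at h2
  exact h2

end PhiAux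

open PhiAux

section phi

variable {h : (κ → ℂ) → Matrix (ι ⊕ Fin 2) (ι ⊕ Fin 2) ℝ} (hh : PHB (J ι) h)

include hh

/-- module PHI -/
theorem phi_anti {z : κ → ℂ} (hz : z ∈ HolAux.Bl κ) (u : κ → ℂ) :
    thC (h z) * ph h u z = -(ph h u z * thC (h z)) ∧
    thC (h z) * phb h u z = -(phb h u z * thC (h z)) := by
  obtain ⟨hd, hu, hs, hX⟩ := basic hh hz
  have h1 := cx_anti hh hz u
  have h2 := cx_anti hh hz (Complex.I • u)
  constructor
  · rw [ph_eq hd hu, Matrix.mul_smul, Matrix.mul_sub, Matrix.mul_smul, h1, h2, Matrix.smul_mul,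
      Matrix.sub_mul, Matrix.smul_mul, ← smul_neg]
    congr 1
    rw [smul_neg, neg_sub, sub_neg_eq_add, neg_add_eq_sub]
  · rw [phb_eq hd hu, Matrix.mul_smul, Matrix.mul_add, Matrix.mul_smul, h1, h2, Matrix.smul_mul,
      Matrix.add_mul, Matrix.smul_mul, ← smul_neg]
    congr 1
    rw [smul_neg, neg_add]

/-- module PHI -/
theorem phi_skew {z : κ → ℂ} (hz : z ∈ HolAux.Bl κ) (u : κ → ℂ) (v w : ι ⊕ Fin 2 → ℂ) :
    bJ (ph h u z *ᵥ v) w = - bJ v (ph h u z *ᵥ w) ∧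
    bJ (phb h u z *ᵥ v) w = - bJ v (phb h u z *ᵥ w) := by
  obtain ⟨hd, hu, hs, hX⟩ := basic hh hz
  have h1 := cx_skew hh hz u
  have h2 := cx_skew hh hz (Complex.I • u)
  constructor
  · refine bJ_skew_of ?_ v w
    rw [ph_eq hd hu, Matrix.transpose_smul, Matrix.transpose_sub, Matrix.transpose_smul,
      Matrix.smul_mul, Matrix.sub_mul, Matrix.smul_mul, h1, h2, Matrix.mul_smul, Matrix.mul_sub,
      Matrix.mul_smul, ← smul_neg]
    congr 1
    rw [smul_neg, neg_sub, sub_neg_eq_add, neg_add_eq_sub]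
  · refine bJ_skew_of ?_ v w
    rw [phb_eq hd hu, Matrix.transpose_smul, Matrix.transpose_add, Matrix.transpose_smul,
      Matrix.smul_mul, Matrix.add_mul, Matrix.smul_mul, h1, h2, Matrix.mul_smul, Matrix.mul_add,
      Matrix.mul_smul, ← smul_neg]
    congr 1
    rw [smul_neg, neg_add]

/-- module PHI -/
theorem phi_conj {z : κ → ℂ} (hz : z ∈ HolAux.Bl κ) (u : κ → ℂ) :
    phb h u z = (ph h u z).map star := by
  obtain ⟨hd, hu, hs, hX⟩ := basic hh hz
  rw [ph_eq hd hu, phb_eq hd hu]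
  ext i j
  simp only [← cx_mul, Matrix.smul_apply, Matrix.add_apply, Matrix.sub_apply, Matrix.map_apply,
    cx_apply, smul_eq_mul, RCLike.star_def, map_mul, map_sub, Complex.conj_ofReal,
    Complex.conj_I]
  have : (starRingEnd ℂ) (1 / 4 : ℂ) = 1 / 4 := by
    rw [map_div₀, map_one]
    congr 1
    exact Complex.conj_ofNat 4
  rw [this]
  ring

/-- module PHI -/
theorem phi_deriv {z : κ → ℂ} (hz : z ∈ HolAux.Bl κ) (u : κ → ℂ) :
    (DM h z u).map ((↑) : ℝ → ℂ) = (2 : ℂ) • (cH h z * (ph h u z + phb h u z)) ∧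
    (∀ l : ℂ, ph h (l • u) z = l • ph h u z) ∧
    (∀ u', ph h (u + u') z = ph h u z + ph h u' z) ∧
    ContinuousOn (fun z => ph h u z) (HolAux.Bl κ) := by
  obtain ⟨hd, hu, hs, hX⟩ := basic hh hz
  have hcx : cH h z * cx (h z)⁻¹ = 1 := by
    show cx (h z) * cx (h z)⁻¹ = 1
    rw [← cx_mul, Matrix.mul_nonsing_inv _ hu, cx_one]
  refine ⟨?_, ?_, ?_, ?_⟩
  · rw [ph_eq hd hu, phb_eq hd hu, ← smul_add, sub_add_add_cancel, ← two_smul ℂ (cx (h z)⁻¹ * _),
      smul_smul, Matrix.mul_smul, smul_smul, ← Matrix.mul_assoc, hcx, Matrix.one_mul]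
    norm_num
    rfl
  · intro l
    rw [ph_eq hd hu, ph_eq hd hu]
    have e1 : l • u = l.re • u + l.im • (Complex.I • u) := by
      funext k
      simp only [Pi.smul_apply, Pi.add_apply, smul_eq_mul, Complex.real_smul]
      conv_lhs => rw [← Complex.re_add_im l]
      ring
    have e2 : Complex.I • l • u = l.re • (Complex.I • u) + (-l.im) • u := by
      funext k
      simp only [Pi.smul_apply, Pi.add_apply, smul_eq_mul, Complex.real_smul]
      conv_lhs => rw [← Complex.re_add_im l]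
      push_cast
      linear_combination (-(l.im : ℂ) * u k) * (-Complex.I_sq)
    rw [e2, e1, DM_add, DM_smul, DM_smul, DM_add, DM_smul, DM_smul, cx_add, cx_smul, cx_smul,
      cx_add, cx_smul, cx_smul, smul_comm l (1 / 4 : ℂ)]
    congr 1
    ext i j
    simp only [Matrix.mul_add, Matrix.mul_smul, Matrix.sub_apply, Matrix.add_apply,
      Matrix.smul_apply, smul_eq_mul]
    set a := (cx (h z)⁻¹ * cx (DM h z u)) i j
    set b := (cx (h z)⁻¹ * cx (DM h z (Complex.I • u))) i j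
    conv_rhs => rw [← Complex.re_add_im l]
    push_cast
    linear_combination (-(l.im : ℂ) * b) * (-Complex.I_sq)
  · intro u'
    rw [ph_eq hd hu, ph_eq hd hu, ph_eq hd hu, smul_add Complex.I, DM_add, DM_add, cx_add, cx_add,
      Matrix.mul_add, Matrix.mul_add]
    simp only [smul_add, smul_sub]
    abel
  · have hinv := Sm.inv hh.sm fun v hv => (hh.pos v hv).det_pos.ne'.isUnit
    have h1 : ∀ i j, ContinuousOn (fun z => (h z)⁻¹ i j) (HolAux.Bl κ) := fun i j =>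
      (hinv i j).continuousOn
    have h2 : ∀ u i j, ContinuousOn (fun z => DM h z u i j) (HolAux.Bl κ) := by
      intro u i j
      have := (hh.sm i j).continuousOn_fderiv_of_isOpen isOpen_Bl (by simp)
      exact this.clm_apply continuousOn_const
    have h3 : ContinuousOn (fun z => (1 / 4 : ℂ) • (cx (h z)⁻¹ * cx (DM h z u) -
      Complex.I • (cx (h z)⁻¹ * cx (DM h z (Complex.I • u))))) (HolAux.Bl κ) := by
      refine continuousOn_pi.2 fun i => continuousOn_pi.2 fun j => ?_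
      have h4 : ∀ u, ContinuousOn (fun z => (cx (h z)⁻¹ * cx (DM h z u)) i j) (HolAux.Bl κ) := by
        intro u
        have e : (fun z => (cx (h z)⁻¹ * cx (DM h z u)) i j) =
            fun z => ∑ k, (((h z)⁻¹ i k : ℝ) : ℂ) * ((DM h z u k j : ℝ) : ℂ) := by
          funext z; rw [Matrix.mul_apply]; rfl
        rw [e]
        refine continuousOn_finset_sum _ fun k _ => ?_
        exact (Complex.continuous_ofReal.comp_continuousOn (h1 i k)).mul
          (Complex.continuous_ofReal.comp_continuousOn (h2 u k j))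
      exact continuousOn_const.mul ((h4 u).sub (continuousOn_const.mul (h4 (Complex.I • u))))
    refine h3.congr fun z hz => ?_
    obtain ⟨hd, hu, -, -⟩ := basic hh hz
    exact ph_eq hd hu u

end phi

end Pool.Agent.MPd01a95
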