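import Mathlib
import Pool.Agent.Lib.MP_d01a95_gt_H.HDefs
import Pool.Agent.Lib.MP_d01a95_gt_H.Unimod
import Pool.Agent.Lib.MP_d01a95_gt_H.Static
import Pool.Agent.Lib.MP_d01a95_gt_H.Phi

set_option autoImplicit false
set_option linter.all false

open Matrix Filter Topology MeasureTheory Measure
open scoped ENNReal NNReal ContDiff

namespace Pool.Agent.MPd01a95

open GU

variable {κ n ι α : Type} [Fintype κ] [DecidableEq κ] [Fintype n] [DecidableEq n]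
  [Fintype ι] [DecidableEq ι] [Fintype α] [DecidableEq α] {G : Type} [Group G]

namespace EquivAux

/-! ### the ball -/

theorem mem_cone {z : κ → ℂ} :
    z ∈ HolAux.Bl κ ↔ 0 < LowAux.nqC (Sum.elim z fun _ => 1 : κ ⊕ Unit → ℂ) := by
  simp [HolAux.Bl, LowAux.nqC]

theorem isOpen_Bl : IsOpen (HolAux.Bl κ) := by
  have : Continuous fun z : κ → ℂ => ∑ i, ‖z i‖ ^ 2 := by fun_prop
  exact isOpen_lt this continuous_const

theorem preconn_Bl : IsPreconnected (HolAux.Bl κ) := by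
  have hc : Convex ℝ (HolAux.Bl κ) := by
    intro x hx y hy a b ha hb hab
    simp only [HolAux.Bl, Set.mem_setOf_eq] at *
    have key : ∀ i, ‖(a • x + b • y) i‖ ^ 2 ≤ a * ‖x i‖ ^ 2 + b * ‖y i‖ ^ 2 := by
      intro i
      have h1 : ‖(a • x + b • y) i‖ ≤ a * ‖x i‖ + b * ‖y i‖ := by
        simp only [Pi.add_apply, Pi.smul_apply]
        refine (norm_add_le _ _).trans (le_of_eq ?_)
        rw [norm_smul, norm_smul, Real.norm_of_nonneg ha, Real.norm_of_nonneg hb]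
      have h2 : (a * ‖x i‖ + b * ‖y i‖) ^ 2 ≤ a * ‖x i‖ ^ 2 + b * ‖y i‖ ^ 2 := by
        have hb' : b = 1 - a := by linarith
        subst hb'
        nlinarith [mul_nonneg (mul_nonneg ha hb) (sq_nonneg (‖x i‖ - ‖y i‖))]
      exact (pow_le_pow_left₀ (norm_nonneg _) h1 2).trans h2
    calc ∑ i, ‖(a • x + b • y) i‖ ^ 2 ≤ ∑ i, (a * ‖x i‖ ^ 2 + b * ‖y i‖ ^ 2) :=
          Finset.sum_le_sum fun i _ => key i
      _ = a * ∑ i, ‖x i‖ ^ 2 + b * ∑ i, ‖y i‖ ^ 2 := by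
          rw [Finset.sum_add_distrib, Finset.mul_sum, Finset.mul_sum]
      _ < 1 := by
          rcases ha.eq_or_lt with h0 | h0
          · have : b = 1 := by linarith
            rw [← h0, this]; linarith
          · nlinarith
  exact hc.isPreconnected

theorem den_ne {A : Matrix (κ ⊕ Unit) (κ ⊕ Unit) ℂ} (hA : Aᴴ * JC κ * A = JC κ) {z : κ → ℂ}
    (hz : z ∈ HolAux.Bl κ) : (A *ᵥ Sum.elim z fun _ => 1) (Sum.inr ()) ≠ 0 := by
  intro h0
  have h1 := mem_cone.mp hz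
  rw [← LowAux.nqC_iso hA, LowAux.nqC, h0, norm_zero] at h1
  have h2 : 0 ≤ ∑ i, ‖(A *ᵥ Sum.elim z fun _ => 1) (Sum.inl i)‖ ^ 2 :=
    Finset.sum_nonneg fun i _ => sq_nonneg _
  linarith

theorem act_mem {A : Matrix (κ ⊕ Unit) (κ ⊕ Unit) ℂ} (hA : Aᴴ * JC κ * A = JC κ) {z : κ → ℂ}
    (hz : z ∈ HolAux.Bl κ) : act A z ∈ HolAux.Bl κ := by
  have h0 := den_ne hA hz
  have h1 := mem_cone.mp hz
  rw [← LowAux.nqC_iso hA, LowAux.nqC] at h1
  show ∑ i, ‖act A z i‖ ^ 2 < 1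
  simp only [act, norm_div, div_pow]
  rw [← Finset.sum_div, div_lt_one (by positivity)]
  linarith

theorem act_diff {A : Matrix (κ ⊕ Unit) (κ ⊕ Unit) ℂ} (hA : Aᴴ * JC κ * A = JC κ) {z : κ → ℂ}
    (hz : z ∈ HolAux.Bl κ) : DifferentiableAt ℂ (act A) z := by
  have h0 := den_ne hA hz
  have key : ∀ j, DifferentiableAt ℂ
      (fun z : κ → ℂ => (A *ᵥ Sum.elim z fun _ => 1) j) z := by
    intro j
    have e : (fun z : κ → ℂ => (A *ᵥ Sum.elim z fun _ => 1) j) =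
        fun z : κ → ℂ => ∑ k, A j (Sum.inl k) * z k + A j (Sum.inr ()) := by
      funext z
      simp [Matrix.mulVec, dotProduct, Fintype.sum_sum_type]
    rw [e]
    fun_prop
  rw [differentiableAt_pi]
  intro i
  have h2 : DifferentiableAt ℂ
      (fun z : κ → ℂ => ((A *ᵥ Sum.elim z fun _ => 1) (Sum.inr ()))⁻¹) z :=
    (differentiableAt_inv h0).comp z (key (Sum.inr ()))
  have h3 := (key (Sum.inl i)).mul h2
  exact h3

/-! ### chain rule -/

theorem map_mulC {m l k : Type} [Fintype l] (A : Matrix m l ℝ) (B : Matrix l k ℝ) :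
    (A * B).map ((↑) : ℝ → ℂ) = A.map ((↑) : ℝ → ℂ) * B.map ((↑) : ℝ → ℂ) := by
  ext i j
  simp [Matrix.mul_apply]

theorem DM_cH {E : Type} [NormedAddCommGroup E] [NormedSpace ℂ E] {h : E → Matrix n n ℝ} {z : E}
    (hh : ∀ i j, DifferentiableAt ℝ (fun w => h w i j) z) (u : E) :
    DM (cH h) z u = (DM h z u).map ((↑) : ℝ → ℂ) := by
  ext i j
  simp only [DM, Matrix.of_apply, Matrix.map_apply, cH]
  have h1 := (hh i j).hasFDerivAt
  have h2 : HasFDerivAt (fun w => ((h w i j : ℝ) : ℂ))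
      (Complex.ofRealCLM.comp (fderiv ℝ (fun w => h w i j) z)) z :=
    Complex.ofRealCLM.hasFDerivAt.comp z h1
  rw [h2.fderiv]
  simp

theorem DM_chain {h : (κ → ℂ) → Matrix n n ℝ} {T : (κ → ℂ) → (κ → ℂ)} {z : κ → ℂ}
    {A : Matrix n n ℝ} (hT : DifferentiableAt ℂ T z)
    (hh : ∀ i j, DifferentiableAt ℝ (fun w => h w i j) (T z))
    (heq : ∀ᶠ z' in 𝓝 z, h z' = Aᵀ * h (T z') * A) (u : κ → ℂ) :
    (∀ i j, DifferentiableAt ℝ (fun w => h w i j) z) ∧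
    DM h z u = Aᵀ * DM h (T z) (fderiv ℂ T z u) * A := by
  have hTr : HasFDerivAt T ((fderiv ℂ T z).restrictScalars ℝ) z :=
    hT.hasFDerivAt.restrictScalars ℝ
  have h1 : ∀ i j, HasFDerivAt (fun w => h (T w) i j)
      ((fderiv ℝ (fun w => h w i j) (T z)).comp ((fderiv ℂ T z).restrictScalars ℝ)) z :=
    fun i j => (hh i j).hasFDerivAt.comp z hTr
  have h2 : ∀ i j, HasFDerivAt (fun w => h w i j)
      (∑ l, ∑ k, (A k i * A l j) • ((fderiv ℝ (fun w => h w k l) (T z)).comp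
        ((fderiv ℂ T z).restrictScalars ℝ))) z := by
    intro i j
    have e : (fun w => h w i j) =ᶠ[𝓝 z] fun w => ∑ l, ∑ k, (A k i * A l j) * h (T w) k l := by
      filter_upwards [heq] with w hw
      rw [hw]
      simp only [Matrix.mul_apply, Matrix.transpose_apply, Finset.sum_mul]
      exact Finset.sum_congr rfl fun l _ => Finset.sum_congr rfl fun k _ => by ring
    refine HasFDerivAt.congr_of_eventuallyEq ?_ e
    refine HasFDerivAt.fun_sum fun l _ => HasFDerivAt.fun_sum fun k _ => ?_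
    exact (h1 k l).const_mul _
  refine ⟨fun i j => (h2 i j).differentiableAt, ?_⟩
  ext i j
  simp only [DM, Matrix.of_apply, (h2 i j).fderiv]
  simp only [Matrix.mul_apply, Matrix.transpose_apply, Finset.sum_mul, Matrix.of_apply,
    ContinuousLinearMap.sum_apply, ContinuousLinearMap.smul_apply, ContinuousLinearMap.comp_apply,
    smul_eq_mul]
  exact Finset.sum_congr rfl fun l _ => Finset.sum_congr rfl fun k _ => by
    simp only [ContinuousLinearMap.coe_restrictScalars']; ring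

theorem ph_chain {h : (κ → ℂ) → Matrix n n ℝ} {T : (κ → ℂ) → (κ → ℂ)} {z : κ → ℂ}
    {A : Matrix n n ℝ} (hA : IsUnit A.det) (hT : DifferentiableAt ℂ T z)
    (hh : ∀ i j, DifferentiableAt ℝ (fun w => h w i j) (T z))
    (heq : ∀ᶠ z' in 𝓝 z, h z' = Aᵀ * h (T z') * A) (u : κ → ℂ) :
    A.map ((↑) : ℝ → ℂ) * ph h u z = ph h (fderiv ℂ T z u) (T z) * A.map ((↑) : ℝ → ℂ) := by
  have h1 := fun u => DM_chain hT hh heq u
  have h2 : ∀ u, DM (cH h) z u = (A.map ((↑) : ℝ → ℂ))ᵀ * DM (cH h) (T z) (fderiv ℂ T z u) *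
      A.map ((↑) : ℝ → ℂ) := by
    intro u
    rw [DM_cH (h1 u).1, DM_cH hh, (h1 u).2, map_mulC, map_mulC, Matrix.transpose_map]
  have h3 : dz (cH h) u z = (A.map ((↑) : ℝ → ℂ))ᵀ * dz (cH h) (fderiv ℂ T z u) (T z) *
      A.map ((↑) : ℝ → ℂ) := by
    simp only [dz, h2, map_smul]
    simp only [Matrix.mul_smul, Matrix.smul_mul, Matrix.mul_sub, Matrix.sub_mul]
  have h4 : cH h z = (A.map ((↑) : ℝ → ℂ))ᵀ * cH h (T z) * A.map ((↑) : ℝ → ℂ) := by
    simp only [cH]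
    rw [heq.self_of_nhds, map_mulC, map_mulC, Matrix.transpose_map]
  have hAu : IsUnit (A.map ((↑) : ℝ → ℂ)).det := by
    have : (A.map ((↑) : ℝ → ℂ)).det = ((A.det : ℝ) : ℂ) := by
      exact (Complex.ofRealHom.map_det A).symm
    rw [this]
    exact (Complex.ofRealHom : ℝ →+* ℂ).isUnit_map hA
  have hAt : IsUnit ((A.map ((↑) : ℝ → ℂ))ᵀ).det := by rwa [Matrix.det_transpose]
  rw [ph, ph, h3, h4, Matrix.mul_inv_rev, Matrix.mul_inv_rev, Matrix.mul_smul, Matrix.smul_mul]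
  congr 1
  set AC := A.map ((↑) : ℝ → ℂ)
  calc AC * (AC⁻¹ * ((cH h (T z))⁻¹ * ACᵀ⁻¹) * (ACᵀ * dz (cH h) (fderiv ℂ T z u) (T z) * AC))
      = (AC * AC⁻¹) * (cH h (T z))⁻¹ * (ACᵀ⁻¹ * ACᵀ) * dz (cH h) (fderiv ℂ T z u) (T z) * AC := by
        simp only [Matrix.mul_assoc]
    _ = (cH h (T z))⁻¹ * dz (cH h) (fderiv ℂ T z u) (T z) * AC := by
        rw [Matrix.mul_nonsing_inv _ hAu, Matrix.nonsing_inv_mul _ hAt, Matrix.one_mul,
          Matrix.mul_one]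

/-! ### the bilinear form -/

theorem J_mul_J : J ι * J ι = 1 := by
  simp [J, Matrix.fromBlocks_multiply]

theorem map_oneC : (1 : Matrix n n ℝ).map ((↑) : ℝ → ℂ) = 1 := by
  rw [Matrix.map_one _ Complex.ofReal_zero Complex.ofReal_one]

theorem bJ_eq (v w : ι ⊕ Fin 2 → ℂ) : bJ v w = v ⬝ᵥ ((J ι).map ((↑) : ℝ → ℂ) *ᵥ w) := by
  have h1 : ∀ i, ((J ι).map ((↑) : ℝ → ℂ) *ᵥ w) (Sum.inl i) = w (Sum.inl i) := by
    intro i
    simp [Matrix.mulVec, dotProduct, Fintype.sum_sum_type, J, Matrix.fromBlocks, Matrix.one_apply,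
      apply_ite ((↑) : ℝ → ℂ)]
  have h2 : ∀ i, ((J ι).map ((↑) : ℝ → ℂ) *ᵥ w) (Sum.inr i) = - w (Sum.inr i) := by
    intro i
    fin_cases i <;>
    simp [Matrix.mulVec, dotProduct, Fintype.sum_sum_type, J, Matrix.fromBlocks, Matrix.one_apply]
  rw [bJ, dotProduct, Fintype.sum_sum_type]
  simp only [h1, h2]
  rw [sub_eq_add_neg, ← Finset.sum_neg_distrib]
  congr 1
  exact Finset.sum_congr rfl fun i _ => by ring

theorem bJ_add_left (v v' w : ι ⊕ Fin 2 → ℂ) : bJ (v + v') w = bJ v w + bJ v' w := by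
  simp [bJ_eq, add_dotProduct]

theorem bJ_smul_left (c : ℂ) (v w : ι ⊕ Fin 2 → ℂ) : bJ (c • v) w = c * bJ v w := by
  simp [bJ_eq, smul_dotProduct]

theorem bJ_comm (v w : ι ⊕ Fin 2 → ℂ) : bJ v w = bJ w v := by
  simp only [bJ]
  congr 1 <;> exact Finset.sum_congr rfl fun i _ => mul_comm _ _

theorem bJ_pres {A : Matrix (ι ⊕ Fin 2) (ι ⊕ Fin 2) ℝ} (hA : Aᵀ * J ι * A = J ι)
    (v w : ι ⊕ Fin 2 → ℂ) :
    bJ (A.map ((↑) : ℝ → ℂ) *ᵥ v) (A.map ((↑) : ℝ → ℂ) *ᵥ w) = bJ v w := by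
  rw [bJ_eq, bJ_eq, Matrix.dotProduct_mulVec, Matrix.dotProduct_mulVec, Matrix.vecMul_mulVec,
    ← Matrix.dotProduct_mulVec]
  conv_rhs => rw [← hA]
  rw [map_mulC, map_mulC, Matrix.transpose_map]
  rw [← Matrix.dotProduct_mulVec]
  simp [Matrix.mulVec_mulVec, Matrix.mul_assoc]

/-! ### an endomorphism killing the negative plane vanishes -/

theorem thC_sq {h : Matrix (ι ⊕ Fin 2) (ι ⊕ Fin 2) ℝ} (hJ : h * J ι * h = J ι) :
    thC h * thC h = 1 := by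
  rw [thC, ← map_mulC, show J ι * h * (J ι * h) = J ι * (h * J ι * h) by
    simp only [Matrix.mul_assoc], hJ, J_mul_J, map_oneC]

theorem kill {h : Matrix (ι ⊕ Fin 2) (ι ⊕ Fin 2) ℝ} (hp : h.PosDef) (hJ : h * J ι * h = J ι)
    {φ : Matrix (ι ⊕ Fin 2) (ι ⊕ Fin 2) ℂ} (h1 : thC h * φ = -(φ * thC h))
    (h2 : ∀ v w, bJ (φ *ᵥ v) w = - bJ v (φ *ᵥ w)) (k1 : φ *ᵥ sl 1 h = 0)
    (k2 : φ *ᵥ sl (-1) h = 0) : φ = 0 := by
  -- vectors of the negative space
  have hneg : ∀ w, thC h *ᵥ w = -w → φ *ᵥ w = 0 := by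
    intro w hw
    obtain ⟨a, b, rfl⟩ := sl_span hp hJ hw
    rw [Matrix.mulVec_add, Matrix.mulVec_smul, Matrix.mulVec_smul, k1, k2]
    simp
  have hpos : ∀ v, thC h *ᵥ v = v → φ *ᵥ v = 0 := by
    intro v hv
    have e1 : thC h *ᵥ (φ *ᵥ v) = -(φ *ᵥ v) := by
      rw [Matrix.mulVec_mulVec, h1, Matrix.neg_mulVec, ← Matrix.mulVec_mulVec, hv]
    obtain ⟨a, b, hab⟩ := sl_span hp hJ e1
    have e2 : ∀ w, thC h *ᵥ w = -w → bJ (φ *ᵥ v) w = 0 := by
      intro w hw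
      rw [h2, hneg w hw, bJ_comm]
      simp [bJ]
    have c := sl_cross hp hJ
    have hb : b = 0 := by
      have e3 := e2 _ (th_sl hp hJ 1)
      rw [hab, bJ_add_left, bJ_smul_left, bJ_smul_left, sl_iso hp hJ (by norm_num),
        bJ_comm (sl (-1) h)] at e3
      simpa [c] using e3
    have ha : a = 0 := by
      have e3 := e2 _ (th_sl hp hJ (-1))
      rw [hab, bJ_add_left, bJ_smul_left, bJ_smul_left, sl_iso hp hJ (by norm_num)] at e3
      simpa [c] using e3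
    rw [hab, ha, hb]; simp
  have hall : ∀ v, φ *ᵥ v = 0 := by
    intro v
    have d1 : thC h *ᵥ (v + thC h *ᵥ v) = v + thC h *ᵥ v := by
      rw [Matrix.mulVec_add, Matrix.mulVec_mulVec, thC_sq hJ, Matrix.one_mulVec, add_comm]
    have d2 : thC h *ᵥ (v - thC h *ᵥ v) = -(v - thC h *ᵥ v) := by
      rw [Matrix.mulVec_sub, Matrix.mulVec_mulVec, thC_sq hJ, Matrix.one_mulVec, neg_sub]
    have d3 := hpos _ d1
    have d4 := hneg _ d2
    rw [Matrix.mulVec_add] at d3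
    rw [Matrix.mulVec_sub] at d4
    have d5 : (2 : ℂ) • (φ *ᵥ v) = 0 := by
      rw [two_smul]
      have := congrArg₂ (· + ·) d3 d4
      simpa using this
    simpa using d5
  ext i j
  have := congrFun (hall (Pi.single j 1)) i
  simpa using this

end EquivAux

open EquivAux in
/-- module EQUIV -/
theorem lift_equiv {h : (κ → ℂ) → Matrix (ι ⊕ Fin 2) (ι ⊕ Fin 2) ℝ} (hh : PHB (J ι) h)
    (hκ : 1 ≤ Fintype.card κ) {ρ : G →* Matrix (ι ⊕ Fin 2) (ι ⊕ Fin 2) ℝ}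
    (hρ : ∀ g, (ρ g)ᵀ * J ι * ρ g = J ι)
    (σ : G →* Matrix (κ ⊕ Unit) (κ ⊕ Unit) ℂ) (hσ : ∀ g, (σ g)ᴴ * JC κ * σ g = JC κ)
    (heq : ∀ g, ∀ z ∈ HolAux.Bl κ, h (act (σ g) z) = (ρ g⁻¹)ᵀ * h z * ρ g⁻¹)
    (hinj : ∃ z₀ ∈ HolAux.Bl κ, ∀ ξ : κ → ℂ, ∑ a, ξ a • ph h (Pi.single a 1) z₀ = 0 → ξ = 0)
    {ε : ℝ} (hε : ε ^ 2 = 1)
    (h0 : ∀ z ∈ HolAux.Bl κ, ∀ a, ph h (Pi.single a 1) z *ᵥ sl (-ε) (h z) = 0)
    (g : G) (z : κ → ℂ) (hz : z ∈ HolAux.Bl κ) :
    ∃ c : ℂ, sl ε (h (act (σ g) z)) = c • ((ρ g).map ((↑) : ℝ → ℂ) *ᵥ sl ε (h z)) := by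
  set A := ρ g with hA
  set B := ρ g⁻¹ with hB
  have hBA : B * A = 1 := by rw [hA, hB, ← map_mul, inv_mul_cancel, map_one]
  have hAB : A * B = 1 := by rw [hA, hB, ← map_mul, mul_inv_cancel, map_one]
  set AC := A.map ((↑) : ℝ → ℂ) with hAC
  set BC := B.map ((↑) : ℝ → ℂ) with hBC
  have hBAC : BC * AC = 1 := by rw [hAC, hBC, ← map_mulC, hBA, map_oneC]
  have hABC : AC * BC = 1 := by rw [hAC, hBC, ← map_mulC, hAB, map_oneC]
  set T := act (σ g) with hT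
  have hTm : ∀ z ∈ HolAux.Bl κ, T z ∈ HolAux.Bl κ := fun z hz => act_mem (hσ g) hz
  have hTd : ∀ z ∈ HolAux.Bl κ, DifferentiableAt ℂ T z := fun z hz => act_diff (hσ g) hz
  -- the involution
  have hJB : J ι * Bᵀ = A * J ι := by
    have e1 : Bᵀ * J ι * B = J ι := hρ g⁻¹
    have e2 : Bᵀ * J ι = J ι * A := by
      calc Bᵀ * J ι = Bᵀ * J ι * (B * A) := by rw [hBA, Matrix.mul_one]
        _ = (Bᵀ * J ι * B) * A := by simp only [Matrix.mul_assoc]
        _ = J ι * A := by rw [e1]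
    calc J ι * Bᵀ = J ι * (Bᵀ * J ι) * J ι := by
          rw [Matrix.mul_assoc, Matrix.mul_assoc, J_mul_J, Matrix.mul_one]
      _ = A * J ι := by
          rw [e2, ← Matrix.mul_assoc, J_mul_J, Matrix.one_mul]
  have hth : ∀ z ∈ HolAux.Bl κ, thC (h (T z)) = AC * thC (h z) * BC := by
    intro z hz
    rw [thC, heq g z hz, ← hB, thC, hAC, hBC, ← map_mulC, ← map_mulC]
    congr 1
    rw [← Matrix.mul_assoc, ← Matrix.mul_assoc, hJB]
    simp only [Matrix.mul_assoc]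
  set s := fun z => sl ε (h z) with hs
  set w := fun z => AC *ᵥ sl ε (h z) with hw
  have hp := fun z (hz : z ∈ HolAux.Bl κ) => hh.pos z hz
  have hJ := fun z (hz : z ∈ HolAux.Bl κ) => hh.hJ z hz
  have w1 : ∀ z ∈ HolAux.Bl κ, thC (h (T z)) *ᵥ w z = - w z := by
    intro z hz
    rw [hth z hz]
    show (AC * thC (h z) * BC) *ᵥ (AC *ᵥ sl ε (h z)) = -(AC *ᵥ sl ε (h z))
    rw [Matrix.mulVec_mulVec, Matrix.mul_assoc, hBAC, Matrix.mul_one, ← Matrix.mulVec_mulVec,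
      th_sl (hp z hz) (hJ z hz), Matrix.mulVec_neg]
  have w2 : ∀ z ∈ HolAux.Bl κ, bJ (w z) (w z) = 0 := by
    intro z hz
    show bJ (AC *ᵥ sl ε (h z)) (AC *ᵥ sl ε (h z)) = 0
    rw [hAC, bJ_pres (hρ g), sl_iso (hp z hz) (hJ z hz) hε]
  have hs0 : ∀ z ∈ HolAux.Bl κ, sl ε (h z) ≠ 0 := by
    intro z hz h1
    have := sl_neg (hp z hz) (hJ z hz) hε
    simp [h1] at this
  have w3 : ∀ z ∈ HolAux.Bl κ, w z ≠ 0 := by
    intro z hz h1
    apply hs0 z hz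
    have h2 : BC *ᵥ w z = 0 := by rw [h1, Matrix.mulVec_zero]
    simp only [hw, Matrix.mulVec_mulVec, hBAC, Matrix.one_mulVec] at h2
    exact h2
  have hε' : ε = 1 ∨ ε = -1 := by
    have : (ε - 1) * (ε + 1) = 0 := by ring_nf; linarith
    rcases mul_eq_zero.mp this with h1 | h1
    · left; linarith
    · right; linarith
  have cross : ∀ z ∈ HolAux.Bl κ, bJ (sl ε (h z)) (sl (-ε) (h z)) ≠ 0 := by
    intro z hz
    rcases hε' with rfl | rfl
    · exact sl_cross (hp z hz) (hJ z hz)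
    · rw [neg_neg, bJ_comm]; exact sl_cross (hp z hz) (hJ z hz)
  have w4 : ∀ z ∈ HolAux.Bl κ, (∃ c : ℂ, c ≠ 0 ∧ w z = c • sl ε (h (T z))) ∨
      ∃ c : ℂ, c ≠ 0 ∧ w z = c • sl (-ε) (h (T z)) := by
    intro z hz
    have hc : ∀ c : ℂ, ∀ v : ι ⊕ Fin 2 → ℂ, w z = c • v → c ≠ 0 := by
      intro c v hv h1
      apply w3 z hz
      rw [hv, h1, zero_smul]
    rcases sl_iso_cases (hp _ (hTm z hz)) (hJ _ (hTm z hz)) (w1 z hz) (w2 z hz) with
      ⟨c, h1⟩ | ⟨c, h1⟩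
    · rcases hε' with rfl | rfl
      · exact Or.inl ⟨c, hc c _ h1, h1⟩
      · exact Or.inr ⟨c, hc c _ h1, by rw [neg_neg]; exact h1⟩
    · rcases hε' with rfl | rfl
      · exact Or.inr ⟨c, hc c _ h1, h1⟩
      · exact Or.inl ⟨c, hc c _ h1, h1⟩
  have hne : (-ε) ^ 2 = 1 := by rw [neg_sq]; exact hε
  set P := fun z => bJ (w z) (sl ε (h (T z))) with hP
  set Q := fun z => bJ (w z) (sl (-ε) (h (T z))) with hQ
  have caseA : ∀ z ∈ HolAux.Bl κ, ∀ c : ℂ, c ≠ 0 → w z = c • sl ε (h (T z)) →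
      P z = 0 ∧ Q z ≠ 0 := by
    intro z hz c hc hwz
    constructor
    · show bJ (w z) (sl ε (h (T z))) = 0
      rw [hwz, bJ_smul_left, sl_iso (hp _ (hTm z hz)) (hJ _ (hTm z hz)) hε, mul_zero]
    · show bJ (w z) (sl (-ε) (h (T z))) ≠ 0
      rw [hwz, bJ_smul_left]
      exact mul_ne_zero hc (cross _ (hTm z hz))
  have caseB : ∀ z ∈ HolAux.Bl κ, ∀ c : ℂ, c ≠ 0 → w z = c • sl (-ε) (h (T z)) →
      P z ≠ 0 ∧ Q z = 0 := by
    intro z hz c hc hwz
    constructor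
    · show bJ (w z) (sl ε (h (T z))) ≠ 0
      rw [hwz, bJ_smul_left, bJ_comm]
      exact mul_ne_zero hc (cross _ (hTm z hz))
    · show bJ (w z) (sl (-ε) (h (T z))) = 0
      rw [hwz, bJ_smul_left, sl_iso (hp _ (hTm z hz)) (hJ _ (hTm z hz)) hne, mul_zero]
  -- continuity
  have hslc : ∀ e : ℝ, ∀ i, ContinuousOn (fun z => sl e (h z) i) (HolAux.Bl κ) := by
    intro e i
    have hc : ∀ i j, ContinuousOn (fun z => h z i j) (HolAux.Bl κ) := fun i j =>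
      (hh.sm i j).continuousOn
    have hP2 : ∀ i j, ContinuousOn (fun z => P2 (h z) i j) (HolAux.Bl κ) := by
      intro i j
      have e1 : (fun z => P2 (h z) i j) =
          fun z => (1 / 2 : ℝ) * ((1 : Matrix (ι ⊕ Fin 2) (ι ⊕ Fin 2) ℝ) i j -
            ∑ k, J ι i k * h z k j) := by
        funext z
        simp [P2, Matrix.mul_apply]
      rw [e1]
      exact continuousOn_const.mul (continuousOn_const.sub
        (continuousOn_finset_sum _ fun k _ => continuousOn_const.mul (hc k j)))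
    have hofr : ∀ {f : (κ → ℂ) → ℝ}, ContinuousOn f (HolAux.Bl κ) →
        ContinuousOn (fun z => ((f z : ℝ) : ℂ)) (HolAux.Bl κ) := fun hf =>
      Complex.continuous_ofReal.comp_continuousOn hf
    simp only [sl, g2]
    have r1 := hP2 (Sum.inr 1) (Sum.inr 1)
    have r2 := hP2 (Sum.inr 0) (Sum.inr 1)
    have r3 := hP2 (Sum.inr 0) (Sum.inr 0)
    have r4 := (Real.continuous_sqrt.comp_continuousOn ((r3.mul r1).sub (r2.pow 2)))
    exact ((hofr r1).mul (hofr (hP2 i (Sum.inr 0)))).add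
      (((hofr r2).neg.add (continuousOn_const.mul (hofr r4))).mul (hofr (hP2 i (Sum.inr 1))))
  have hTc : ContinuousOn T (HolAux.Bl κ) := fun z hz => (hTd z hz).continuousAt.continuousWithinAt
  have hwc : ∀ i, ContinuousOn (fun z => w z i) (HolAux.Bl κ) := by
    intro i
    show ContinuousOn (fun z => (AC *ᵥ sl ε (h z)) i) (HolAux.Bl κ)
    simp only [Matrix.mulVec, dotProduct]
    exact continuousOn_finset_sum _ fun k _ => continuousOn_const.mul (hslc ε k)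
  have hslT : ∀ e : ℝ, ∀ i, ContinuousOn (fun z => sl e (h (T z)) i) (HolAux.Bl κ) :=
    fun e i => (hslc e i).comp hTc hTm
  have hbc : ∀ e : ℝ, ContinuousOn (fun z => bJ (w z) (sl e (h (T z)))) (HolAux.Bl κ) := by
    intro e
    simp only [bJ]
    exact (continuousOn_finset_sum _ fun k _ => (hwc _).mul (hslT e _)).sub
      (continuousOn_finset_sum _ fun k _ => (hwc _).mul (hslT e _))
  have hPo : IsOpen (HolAux.Bl κ ∩ P ⁻¹' {0}ᶜ) :=
    (hbc ε).isOpen_inter_preimage isOpen_Bl isOpen_compl_singleton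
  have hQo : IsOpen (HolAux.Bl κ ∩ Q ⁻¹' {0}ᶜ) :=
    (hbc (-ε)).isOpen_inter_preimage isOpen_Bl isOpen_compl_singleton
  have hdisj : Disjoint (HolAux.Bl κ ∩ P ⁻¹' {0}ᶜ) (HolAux.Bl κ ∩ Q ⁻¹' {0}ᶜ) := by
    rw [Set.disjoint_left]
    rintro z ⟨hz, h1⟩ ⟨_, h2⟩
    rcases w4 z hz with ⟨c, hc, h3⟩ | ⟨c, hc, h3⟩
    · exact h1 (caseA z hz c hc h3).1
    · exact h2 (caseB z hz c hc h3).2
  have hcov : HolAux.Bl κ ⊆ (HolAux.Bl κ ∩ P ⁻¹' {0}ᶜ) ∪ (HolAux.Bl κ ∩ Q ⁻¹' {0}ᶜ) := by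
    intro z hz
    rcases w4 z hz with ⟨c, hc, h3⟩ | ⟨c, hc, h3⟩
    · exact Or.inr ⟨hz, (caseA z hz c hc h3).2⟩
    · exact Or.inl ⟨hz, (caseB z hz c hc h3).1⟩
  rcases (preconn_Bl (κ := κ)).subset_or_subset hPo hQo hdisj hcov with hcase | hcase
  · -- excluded case
    exfalso
    obtain ⟨z₀, hz₀, hinj⟩ := hinj
    have hP0 : P z₀ ≠ 0 := (hcase hz₀).2
    obtain ⟨c, hc, hw0⟩ : ∃ c : ℂ, c ≠ 0 ∧ w z₀ = c • sl (-ε) (h (T z₀)) := by
      rcases w4 z₀ hz₀ with ⟨c, hc, h3⟩ | h3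
      · exact absurd (caseA z₀ hz₀ c hc h3).1 hP0
      · exact h3
    have hAu : IsUnit A.det := by
      have := congrArg Matrix.det hAB
      rw [Matrix.det_mul, Matrix.det_one] at this
      exact IsUnit.of_mul_eq_one _ this
    have hTz := hTm z₀ hz₀
    have hdiff : ∀ i j, DifferentiableAt ℝ (fun w => h w i j) (T z₀) := fun i j =>
      ((hh.sm i j).contDiffAt (isOpen_Bl.mem_nhds hTz)).differentiableAt (by norm_num)
    have hev : ∀ᶠ z' in 𝓝 z₀, h z' = Aᵀ * h (T z') * A := by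
      filter_upwards [isOpen_Bl.mem_nhds hz₀] with z' hz'
      rw [heq g z' hz']
      calc h z' = (B * A)ᵀ * h z' * (B * A) := by
            rw [hBA, Matrix.transpose_one, Matrix.one_mul, Matrix.mul_one]
        _ = Aᵀ * (Bᵀ * h z' * B) * A := by
            rw [Matrix.transpose_mul]; simp only [Matrix.mul_assoc]
    have hlin : ∀ u : κ → ℂ, ph h u (T z₀) *ᵥ sl (-ε) (h (T z₀)) = 0 := by
      intro u
      have hadd := fun u u' => (phi_deriv hh hTz u).2.2.1 u'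
      have hsm := fun u l => (phi_deriv hh hTz u).2.1 l
      let L : (κ → ℂ) →ₗ[ℂ] Matrix (ι ⊕ Fin 2) (ι ⊕ Fin 2) ℂ :=
        { toFun := fun u => ph h u (T z₀)
          map_add' := fun u u' => hadd u u'
          map_smul' := fun l u => hsm u l }
      have e1 : ph h u (T z₀) = ∑ a, u a • ph h (Pi.single a 1) (T z₀) := by
        have e2 : L u = ∑ a, u a • L (Pi.single a 1) := by
          conv_lhs => rw [← Finset.univ_sum_single u]
          rw [_root_.map_sum]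
          refine Finset.sum_congr rfl fun a _ => ?_
          rw [← map_smul]
          congr 1
          ext b
          by_cases hb : b = a
          · subst hb; simp
          · simp [Pi.single_eq_of_ne hb]
        exact e2
      rw [e1, Matrix.sum_mulVec]
      refine Finset.sum_eq_zero fun a _ => ?_
      rw [Matrix.smul_mulVec, h0 _ hTz a, smul_zero]
    have hk : ∀ a, ph h (Pi.single a 1) z₀ *ᵥ sl ε (h z₀) = 0 := by
      intro a
      have e1 := ph_chain hAu (hTd z₀ hz₀) hdiff hev (Pi.single a 1)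
      have e2 : AC *ᵥ (ph h (Pi.single a 1) z₀ *ᵥ sl ε (h z₀)) = 0 := by
        rw [Matrix.mulVec_mulVec, hAC, e1, ← Matrix.mulVec_mulVec]
        show _ *ᵥ w z₀ = 0
        rw [hw0, Matrix.mulVec_smul, hlin, smul_zero]
      have e3 : BC *ᵥ (AC *ᵥ (ph h (Pi.single a 1) z₀ *ᵥ sl ε (h z₀))) = 0 := by
        rw [e2, Matrix.mulVec_zero]
      rwa [Matrix.mulVec_mulVec, hBAC, Matrix.one_mulVec] at e3
    have hzero : ∀ a, ph h (Pi.single a 1) z₀ = 0 := by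
      intro a
      apply kill (hp z₀ hz₀) (hJ z₀ hz₀) (phi_anti hh hz₀ _).1
        (fun v w => (phi_skew hh hz₀ _ v w).1)
      · rcases hε' with rfl | rfl
        · exact hk a
        · simpa using h0 z₀ hz₀ a
      · rcases hε' with rfl | rfl
        · exact h0 z₀ hz₀ a
        · exact hk a
    have hpos : 0 < Fintype.card κ := hκ
    obtain ⟨a⟩ := Fintype.card_pos_iff.mp hpos
    have e1 := hinj (Pi.single a 1) (by
      refine Finset.sum_eq_zero fun b _ => ?_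
      rw [hzero, smul_zero])
    have e2 := congrFun e1 a
    simp at e2
  · have hQ0 : Q z ≠ 0 := (hcase hz).2
    obtain ⟨c, hc, hw0⟩ : ∃ c : ℂ, c ≠ 0 ∧ w z = c • sl ε (h (T z)) := by
      rcases w4 z hz with h3 | ⟨c, hc, h3⟩
      · exact h3
      · exact absurd (caseB z hz c hc h3).2 hQ0
    refine ⟨c⁻¹, ?_⟩
    have e1 : AC *ᵥ sl ε (h z) = c • sl ε (h (T z)) := hw0
    rw [e1, smul_smul, inv_mul_cancel₀ hc, one_smul]

end Pool.Agent.MPd01a95
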