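import Mathlib
import Pool.Agent.Lib.MP_d01a95_gt_H.CN

set_option autoImplicit false
set_option linter.all false

open Filter Topology

namespace Pool.Agent.MPd01a95

variable {Y : Type} [PseudoMetricSpace Y] {geo : ℝ → Y → Y → Y}

theorem half_mem : (1 / 2 : ℝ) ∈ Set.Icc (0 : ℝ) 1 := by constructor <;> norm_num

theorem CN.mid (h : CN geo) (a b p : Y) : dist p (geo (1/2) a b) ^ 2 ≤
    (dist p a ^ 2 + dist p b ^ 2) / 2 - dist a b ^ 2 / 4 := by
  have := h (1/2) half_mem a b p
  linarith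

/-- A convex function on a complete CN space: if a decreasing sequence of nonempty closed
midpoint-convex sets meets a fixed ball, the intersection is not empty. -/
theorem nested (h : CN geo) [CompleteSpace Y] (C : ℕ → Set Y) (hcl : ∀ k, IsClosed (C k))
    (hmid : ∀ k, ∀ a ∈ C k, ∀ b ∈ C k, geo (1/2) a b ∈ C k) (hanti : Antitone C)
    (o : Y) (R : ℝ) (hR : ∀ k, ∃ y ∈ C k, dist o y ≤ R) : ∃ y, ∀ k, y ∈ C k := by
  -- the distances to the sets
  set r : ℕ → ℝ := fun k => sInf ((fun y => dist o y ^ 2) '' C k) with hr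
  have hbdd : ∀ k, BddBelow ((fun y => dist o y ^ 2) '' C k) := fun k =>
    ⟨0, by rintro _ ⟨y, -, rfl⟩; positivity⟩
  have hne : ∀ k, ((fun y => dist o y ^ 2) '' C k).Nonempty := fun k => by
    obtain ⟨y, hy, -⟩ := hR k; exact ⟨_, y, hy, rfl⟩
  have hrle : ∀ k, ∀ y ∈ C k, r k ≤ dist o y ^ 2 := fun k y hy => csInf_le (hbdd k) ⟨y, hy, rfl⟩
  have hRb : ∀ k, r k ≤ R ^ 2 := by
    intro k
    obtain ⟨y, hy, hy2⟩ := hR k
    exact (hrle k y hy).trans (pow_le_pow_left₀ dist_nonneg hy2 2)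
  have hmono : Monotone r := by
    intro j k hjk
    exact csInf_le_csInf (hbdd j) (hne k) (Set.image_mono (hanti hjk))
  obtain ⟨l, hl⟩ : ∃ l, Tendsto r atTop (𝓝 l) :=
    ⟨_, tendsto_atTop_ciSup hmono ⟨R ^ 2, by rintro _ ⟨k, rfl⟩; exact hRb k⟩⟩
  have hchoose : ∀ k : ℕ, ∃ y ∈ C k, dist o y ^ 2 ≤ r k + 1 / (k + 1) := by
    intro k
    have : r k < r k + 1 / ((k : ℝ) + 1) := by
      have : (0 : ℝ) < 1 / ((k : ℝ) + 1) := by positivity
      linarith
    obtain ⟨_, ⟨y, hy, rfl⟩, h2⟩ := exists_lt_of_csInf_lt (hne k) this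
    exact ⟨y, hy, h2.le⟩
  choose y hy hy2 using hchoose
  have hest : ∀ j k, j ≤ k → dist (y j) (y k) ^ 2 ≤ 4 * ((r k - r j) + 1 / (j + 1)) := by
    intro j k hjk
    have h1 := h.mid (y j) (y k) o
    have h2 := hrle j _ (hmid j _ (hy j) _ (hanti hjk (hy k)))
    have h3 := hy2 j
    have h4 := hy2 k
    have h5 : (1 : ℝ) / (k + 1) ≤ 1 / (j + 1) := by
      apply one_div_le_one_div_of_le (by positivity)
      have : (j : ℝ) ≤ k := by exact_mod_cast hjk
      linarith
    have h6 := hmono hjk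
    nlinarith
  have hcau : CauchySeq y := by
    rw [Metric.cauchySeq_iff']
    intro ε hε
    have hlim : Tendsto (fun j : ℕ => 4 * ((l - r j) + 1 / ((j : ℝ) + 1))) atTop (𝓝 0) := by
      have := ((hl.const_sub l).add tendsto_one_div_add_atTop_nhds_zero_nat).const_mul 4
      simpa using this
    obtain ⟨j, hj⟩ := ((hlim.eventually (gt_mem_nhds (show (0 : ℝ) < ε ^ 2 by positivity)))).exists
    refine ⟨j, fun k hk => ?_⟩
    have h1 := hest j k hk
    have h2 : r k ≤ l := hmono.ge_of_tendsto hl k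
    rw [dist_comm]
    apply lt_of_pow_lt_pow_left₀ 2 hε.le
    calc dist (y j) (y k) ^ 2 ≤ 4 * ((r k - r j) + 1 / (j + 1)) := h1
      _ ≤ 4 * ((l - r j) + 1 / (j + 1)) := by linarith
      _ < ε ^ 2 := hj
  obtain ⟨z, hz⟩ := cauchySeq_tendsto_of_complete hcau
  refine ⟨z, fun k => ?_⟩
  refine (hcl k).mem_of_tendsto hz ?_
  filter_upwards [eventually_ge_atTop k] with j hj
  exact hanti hj (hy j)

/-- A convex lower semicontinuous function with a bounded minimising sequence attains its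
minimum. -/
theorem exists_min (h : CN geo) [CompleteSpace Y] (E : Y → ENNReal)
    (hconv : ∀ a b, E (geo (1/2) a b) ≤ max (E a) (E b)) (hlsc : LowerSemicontinuous E)
    (o : Y) (R : ℝ) (hR : ∀ c, (∃ y, E y < c) → ∃ y, E y < c ∧ dist o y ≤ R) :
    ∃ y, ∀ y', E y ≤ E y' := by
  set m : ENNReal := ⨅ y, E y with hm
  by_cases htop : m = ⊤
  · refine ⟨o, fun y' => ?_⟩
    have : E y' = ⊤ := by
      have := iInf_le E y'
      rw [← hm, htop] at this
      exact top_le_iff.mp this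
    rw [this]; exact le_top
  set C : ℕ → Set Y := fun k => {y | E y ≤ m + ((k : ENNReal) + 1)⁻¹} with hC
  have hpos : ∀ k : ℕ, (0 : ENNReal) < ((k : ENNReal) + 1)⁻¹ := fun k => by
    rw [ENNReal.inv_pos]
    exact ENNReal.add_ne_top.mpr ⟨ENNReal.natCast_ne_top k, ENNReal.one_ne_top⟩
  obtain ⟨y, hy⟩ := nested h C (fun k => by
      have := hlsc.isClosed_preimage (m + ((k : ENNReal) + 1)⁻¹)
      exact this)
    (fun k a ha b hb => (hconv a b).trans (max_le ha hb))
    (fun j k hjk y hy => by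
      have hy' : E y ≤ m + ((k : ENNReal) + 1)⁻¹ := hy
      change E y ≤ m + ((j : ENNReal) + 1)⁻¹
      refine le_trans hy' ?_
      gcongr) o R (fun k => by
      have hlt : m < m + ((k : ENNReal) + 1)⁻¹ := ENNReal.lt_add_right htop (hpos k).ne'
      have h1 : ∃ y, E y < m + ((k : ENNReal) + 1)⁻¹ := iInf_lt_iff.mp hlt
      obtain ⟨y, h2, h3⟩ := hR _ h1
      exact ⟨y, h2.le, h3⟩)
  refine ⟨y, fun y' => ?_⟩
  have hle : E y ≤ m := by
    apply ENNReal.le_of_forall_pos_le_add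
    intro ε hε _
    obtain ⟨k, hk⟩ := ENNReal.exists_inv_nat_lt (show (ε : ENNReal) ≠ 0 by
      simpa using hε.ne')
    refine (hy k).trans ?_
    gcongr
    refine le_trans ?_ hk.le
    apply ENNReal.inv_le_inv.mpr
    exact le_self_add
  exact hle.trans (iInf_le E y')

/-- Bruhat-Tits fixed point theorem, for a group of distance preserving maps with a bounded
orbit, in a closed midpoint-convex subset. -/
theorem bruhat_tits (h : CN geo) [CompleteSpace Y] {K : Type} [Group K] (T : K → Y → Y)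
    (hT : ∀ k a b, dist (T k a) (T k b) = dist a b) (hmul : ∀ k k' a, dist (T (k * k') a) (T k (T k' a)) = 0)
    (C : Set Y) (hcl : IsClosed C) (hmid : ∀ a ∈ C, ∀ b ∈ C, geo (1/2) a b ∈ C)
    (hTC : ∀ k, ∀ a ∈ C, T k a ∈ C) (y₀ : Y) (hy₀ : y₀ ∈ C) (R : ℝ)
    (hR : ∀ k, dist y₀ (T k y₀) ≤ R) : ∃ y ∈ C, ∀ k, dist y (T k y) = 0 := by
  -- radius function
  set S : Y → Set ℝ := fun y => Set.range fun k => dist y (T k y₀) with hS
  set r : Y → ℝ := fun y => sSup (S y) with hr
  have hbdd : ∀ y, BddAbove (S y) := fun y => ⟨dist y y₀ + R, by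
    rintro _ ⟨k, rfl⟩
    have := dist_triangle y y₀ (T k y₀)
    have := hR k
    linarith⟩
  have hne : ∀ y, (S y).Nonempty := fun y => ⟨_, 1, rfl⟩
  have hle : ∀ y k, dist y (T k y₀) ≤ r y := fun y k => le_csSup (hbdd y) ⟨k, rfl⟩
  have hnn : ∀ y, 0 ≤ r y := fun y => dist_nonneg.trans (hle y 1)
  -- convexity
  have hconv : ∀ a b, r (geo (1/2) a b) ^ 2 ≤ (r a ^ 2 + r b ^ 2) / 2 - dist a b ^ 2 / 4 := by
    intro a b
    have hX : 0 ≤ (r a ^ 2 + r b ^ 2) / 2 - dist a b ^ 2 / 4 := by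
      have h1 := h.mid a b (T 1 y₀)
      have h2 := hle a 1
      have h3 := hle b 1
      rw [dist_comm (T 1 y₀) a, dist_comm (T 1 y₀) b] at h1
      have h4 := pow_le_pow_left₀ dist_nonneg h2 2
      have h5 := pow_le_pow_left₀ dist_nonneg h3 2
      nlinarith [sq_nonneg (dist (T 1 y₀) (geo (1/2) a b))]
    have h6 : r (geo (1/2) a b) ≤ Real.sqrt ((r a ^ 2 + r b ^ 2) / 2 - dist a b ^ 2 / 4) := by
      apply csSup_le (hne _)
      rintro _ ⟨k, rfl⟩
      apply Real.le_sqrt_of_sq_le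
      have h1 := h.mid a b (T k y₀)
      rw [dist_comm (T k y₀) a, dist_comm (T k y₀) b, dist_comm (T k y₀)] at h1
      have h4 := pow_le_pow_left₀ dist_nonneg (hle a k) 2
      have h5 := pow_le_pow_left₀ dist_nonneg (hle b k) 2
      linarith
    have h7 := pow_le_pow_left₀ (hnn _) h6 2
    rwa [Real.sq_sqrt hX] at h7
  -- invariance
  have hrT : ∀ k y, r (T k y) ≤ r y := by
    intro k y
    apply csSup_le (hne _)
    rintro _ ⟨k', rfl⟩
    have h1 : dist (T k y) (T k' y₀) = dist y (T (k⁻¹ * k') y₀) := by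
      rw [← hT k y (T (k⁻¹ * k') y₀)]
      have h2 := hmul k (k⁻¹ * k') y₀
      rw [mul_inv_cancel_left] at h2
      apply le_antisymm
      · have := dist_triangle (T k y) (T k (T (k⁻¹ * k') y₀)) (T k' y₀)
        rw [dist_comm (T k (T (k⁻¹ * k') y₀)) (T k' y₀), h2] at this
        linarith
      · have := dist_triangle (T k y) (T k' y₀) (T k (T (k⁻¹ * k') y₀))
        rw [h2] at this
        linarith
    change dist (T k y) (T k' y₀) ≤ r y
    rw [h1]
    exact hle y _
  -- Lipschitz continuity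
  have hlip : ∀ a b, r a ≤ r b + dist a b := by
    intro a b
    apply csSup_le (hne _)
    rintro _ ⟨k, rfl⟩
    have := dist_triangle a b (T k y₀)
    have := hle b k
    change dist a (T k y₀) ≤ _
    linarith
  set m : ℝ := sInf ((fun y => r y ^ 2) '' C) with hm
  have hbb : BddBelow ((fun y => r y ^ 2) '' C) := ⟨0, by rintro _ ⟨y, -, rfl⟩; positivity⟩
  have hnC : ((fun y => r y ^ 2) '' C).Nonempty := ⟨_, y₀, hy₀, rfl⟩
  have hm0 : 0 ≤ m := le_csInf hnC (by rintro _ ⟨y, -, rfl⟩; positivity)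
  have hmle : ∀ y ∈ C, m ≤ r y ^ 2 := fun y hy => csInf_le hbb ⟨y, hy, rfl⟩
  have hclose : ∀ a ∈ C, ∀ b ∈ C, ∀ ε, r a ^ 2 ≤ m + ε → r b ^ 2 ≤ m + ε →
      dist a b ^ 2 ≤ 4 * ε := by
    intro a ha b hb ε h1 h2
    have h3 := hmle _ (hmid a ha b hb)
    have h4 := hconv a b
    linarith
  obtain ⟨y, hyC, hym⟩ : ∃ y ∈ C, r y ^ 2 ≤ m := by
    obtain ⟨y, hy⟩ := nested h (fun k : ℕ => {y ∈ C | r y ^ 2 ≤ m + 1 / ((k : ℝ) + 1)})
      (fun k => by
        have hc : Continuous r := by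
          rw [Metric.continuous_iff]
          intro b ε hε
          refine ⟨ε, hε, fun a ha => ?_⟩
          rw [Real.dist_eq, abs_lt]
          have h1 := hlip a b
          have h2 := hlip b a
          rw [dist_comm b a] at h2
          constructor <;> linarith
        exact hcl.inter (isClosed_le (hc.pow 2) continuous_const))
      (fun k a ha b hb => ⟨hmid a ha.1 b hb.1, by
        have := hconv a b
        have h1 := ha.2
        have h2 := hb.2
        nlinarith [sq_nonneg (dist a b)]⟩)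
      (fun j k hjk y hy => ⟨hy.1, hy.2.trans (by
        have : (1 : ℝ) / (k + 1) ≤ 1 / (j + 1) := by
          apply one_div_le_one_div_of_le (by positivity)
          have : (j : ℝ) ≤ k := by exact_mod_cast hjk
          linarith
        linarith)⟩) (T 1 y₀) (Real.sqrt (m + 1)) (fun k => by
        have hk : (0 : ℝ) < 1 / ((k : ℝ) + 1) := by positivity
        obtain ⟨_, ⟨y, hy, rfl⟩, h2⟩ := exists_lt_of_csInf_lt hnC
          (show m < m + 1 / ((k : ℝ) + 1) by linarith)
        refine ⟨y, ⟨hy, h2.le⟩, ?_⟩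
        apply Real.le_sqrt_of_sq_le
        rw [dist_comm]
        have h3 := pow_le_pow_left₀ dist_nonneg (hle y 1) 2
        have h4 : (1 : ℝ) / ((k : ℝ) + 1) ≤ 1 := by
          rw [div_le_one (by positivity)]
          have : (0 : ℝ) ≤ k := Nat.cast_nonneg k
          linarith
        linarith [h2.le])
    refine ⟨y, (hy 0).1, ?_⟩
    have hlim : Tendsto (fun k : ℕ => m + 1 / ((k : ℝ) + 1)) atTop (𝓝 m) := by
      have := tendsto_one_div_add_atTop_nhds_zero_nat (𝕜 := ℝ)
      simpa using this.const_add m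
    exact ge_of_tendsto' hlim fun k => (hy k).2
  refine ⟨y, hyC, fun k => ?_⟩
  have h1 := hclose y hyC (T k y) (hTC k y hyC) 0 (by linarith)
    (by have := pow_le_pow_left₀ (hnn _) (hrT k y) 2; linarith)
  have h2 := sq_nonneg (dist y (T k y))
  exact pow_eq_zero_iff (two_ne_zero) |>.mp (le_antisymm (by linarith) h2)

end Pool.Agent.MPd01a95
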