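import Mathlib
import Pool.Agent.Lib.MP_d01a95_gt_H.Fix

set_option autoImplicit false
set_option linter.all false

open Filter Topology

namespace Pool.Agent.MPd01a95

/-- Existence of an invariant minimiser. -/
theorem exists_min_fixed {Y : Type} [PseudoMetricSpace Y] [CompleteSpace Y]
    {geo : ℝ → Y → Y → Y} (h : CN geo) (E : Y → ENNReal)
    (hconv : ∀ a b, E (geo (1/2) a b) ≤ max (E a) (E b)) (hlsc : LowerSemicontinuous E)
    {K : Type} [Group K] (T : K → Y → Y)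
    (hT : ∀ k a b, dist (T k a) (T k b) = dist a b)
    (hmul : ∀ k k' a, dist (T (k * k') a) (T k (T k' a)) = 0)
    (hE : ∀ k a, E (T k a) ≤ E a) (hbd : ∀ a, ∃ R, ∀ k, dist a (T k a) ≤ R)
    (o : Y) (a₀ : Y) (R : ℝ)
    (hne : ∀ a, (∀ k, dist a (T k a) = 0) → E a ≤ E a₀ → dist o a ≤ R) :
    ∃ a, (∀ k, dist a (T k a) = 0) ∧ ∀ b, E a ≤ E b := by
  have key : ∀ b, ∃ c, (∀ k, dist c (T k c) = 0) ∧ E c ≤ E b := by
    intro b
    obtain ⟨R', hR'⟩ := hbd b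
    obtain ⟨c, hc1, hc2⟩ := bruhat_tits h T hT hmul {y | E y ≤ E b}
      (hlsc.isClosed_preimage (E b)) (fun x hx y hy => (hconv x y).trans (max_le hx hy))
      (fun k x hx => (hE k x).trans hx) b (le_refl (E b)) R' hR'
    exact ⟨c, hc2, hc1⟩
  obtain ⟨y, hy⟩ := exists_min h E hconv hlsc o R (fun c hc => by
    obtain ⟨y, hy⟩ := hc
    by_cases hle : E y ≤ E a₀
    · obtain ⟨z, hz1, hz2⟩ := key y
      exact ⟨z, lt_of_le_of_lt hz2 hy, hne z hz1 (hz2.trans hle)⟩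
    · obtain ⟨z, hz1, hz2⟩ := key a₀
      push Not at hle
      exact ⟨z, lt_of_le_of_lt hz2 (hle.trans hy), hne z hz1 hz2⟩)
  obtain ⟨z, hz1, hz2⟩ := key y
  exact ⟨z, hz1, fun b => hz2.trans (hy b)⟩

end Pool.Agent.MPd01a95
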