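import Mathlib
import Pool.Agent.Lib.MP_d01a95_gt_H.HDefs

set_option autoImplicit false
set_option linter.all false

open Matrix Filter Topology MeasureTheory Measure
open scoped ENNReal NNReal ContDiff

namespace Pool.Agent.MPd01a95

open GU

variable {κ n : Type} [Fintype κ] [DecidableEq κ] [Fintype n] [DecidableEq n]
  {G : Type} [Group G]

/-- second derivative of a function on matrices, averaged over all boost directions -/
noncomputable def Lam (f : ((κ ⊕ Unit) → (κ ⊕ Unit) → ℂ) → ℝ) (g : GU κ) : ℝ :=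
  ∫ k : KU κ, ∑ p : κ × Bool,
    iteratedDeriv 2 (fun t : ℝ => f ((g * k * bo t p * (k : GU κ)⁻¹).M)) 0 ∂(muK κ)

/-- symmetric equivariant Lipschitz fields on the cone -/
structure SyC (σ : G →* GU κ) (ρ : G →* Matrix n n ℝ)
    (K : (κ ⊕ Unit → ℂ) → Matrix n n ℝ) : Prop where
  sym : ∀ v ∈ Cn κ, (K v)ᵀ = K v
  hom : ∀ v ∈ Cn κ, ∀ l : ℂ, l ≠ 0 → K (l • v) = K v
  eqv : ∀ γ, ∀ v ∈ Cn κ, K ((σ γ).M *ᵥ v) = (ρ γ⁻¹)ᵀ * K v * ρ γ⁻¹
  lip : ∀ v ∈ Cn κ, ∃ L : ℝ≥0, ∃ U ∈ 𝓝 v, ∀ i j, LipschitzOnWith L (fun w => K w i j) U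

/-- the first variation density -/
noncomputable def fv (H K : (κ ⊕ Unit → ℂ) → Matrix n n ℝ) (g : GU κ) : ℝ :=
  ∑ p, (((H g.pt)⁻¹ * XH H p g * (H g.pt)⁻¹ * XH K p g).trace -
    ((H g.pt)⁻¹ * XH H p g * (H g.pt)⁻¹ * XH H p g * (H g.pt)⁻¹ * K g.pt).trace)

end Pool.Agent.MPd01a95
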