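import Mathlib
import Pool.Agent.Lib.MP_d01a95_gt_H.HDefs
import Pool.Agent.Lib.MP_d01a95_gt_H.HDefs2
import Pool.Agent.Lib.MP_d01a95_gt_H.Unimod
import Pool.Agent.Lib.MP_d01a95_gt_H.Mcalc
import Pool.Agent.Lib.MP_d01a95_gt_H.Aediff
set_option autoImplicit false
set_option linter.all false
open Matrix Filter Topology MeasureTheory Measure
open scoped ENNReal NNReal ContDiff
namespace Pool.Agent.MPd01a95
open GU
variable {κ n ι α : Type} [Fintype κ] [DecidableEq κ] [Fintype n] [DecidableEq n] [Fintype ι] [DecidableEq ι] [Fintype α] [DecidableEq α] {G : Type} [Group G]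

namespace FV1Aux

/-! ### the cone -/

theorem isOpen_Cn : IsOpen (Cn κ) := by
  have : Continuous (LowAux.nqC (κ := κ)) := by
    unfold LowAux.nqC
    fun_prop
  exact isOpen_lt continuous_const this

theorem pt_nq (g : GU κ) : LowAux.nqC g.pt = 1 := by
  rw [GU.pt, LowAux.nqC_iso g.pres]
  simp [LowAux.nqC, e0]

theorem pt_mem (g : GU κ) : g.pt ∈ Cn κ := by
  show 0 < LowAux.nqC g.pt
  rw [pt_nq]; exact one_pos

theorem e0_eq : (e0 : κ ⊕ Unit → ℂ) = LowAux.ee κ := by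
  ext i
  rcases i with i | i <;> simp [e0, LowAux.ee]

theorem exists_pt (v : κ ⊕ Unit → ℂ) (hv : v ∈ Cn κ) :
    ∃ g : GU κ, ∃ l : ℂ, l ≠ 0 ∧ v = l • g.pt := by
  have hv' : 0 < LowAux.nqC v := hv
  set s : ℝ := Real.sqrt (LowAux.nqC v) with hs
  have hs0 : 0 < s := Real.sqrt_pos.2 hv'
  have hs2 : s ^ 2 = LowAux.nqC v := Real.sq_sqrt hv'.le
  have hsC : (s : ℂ) ≠ 0 := by exact_mod_cast hs0.ne'
  have hn : LowAux.nqC ((s : ℂ)⁻¹ • v) = 1 := by
    rw [LowAux.nqC]
    simp only [Pi.smul_apply, smul_eq_mul, norm_mul, norm_inv, Complex.norm_real,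
      Real.norm_of_nonneg hs0.le, mul_pow]
    rw [← Finset.mul_sum, ← mul_sub]
    have h1 : ‖v (Sum.inr ())‖ ^ 2 - ∑ i, ‖v (Sum.inl i)‖ ^ 2 = s ^ 2 := by
      rw [hs2, LowAux.nqC]
    rw [h1, inv_pow, inv_mul_cancel₀]
    positivity
  obtain ⟨h, hh, hhe⟩ := LowAux.exists_iso _ hn
  refine ⟨⟨h, hh⟩, s, hsC, ?_⟩
  have : GU.pt (⟨h, hh⟩ : GU κ) = (s : ℂ)⁻¹ • v := by
    rw [GU.pt, e0_eq]; exact hhe
  rw [this, smul_smul, mul_inv_cancel₀ hsC, one_smul]

theorem cont_pt : Continuous (GU.pt : GU κ → κ ⊕ Unit → ℂ) :=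
  continuous_M.matrix_mulVec continuous_const

theorem cont_dir (p : κ × Bool) : Continuous fun g : GU κ => g.dir p :=
  continuous_M.matrix_mulVec continuous_const

theorem pt_mul (g h : GU κ) : (g * h).pt = g.M *ᵥ h.pt := by
  rw [GU.pt, GU.pt, M_mul, Matrix.mulVec_mulVec]

/-- locally Lipschitz on the cone -/
def LipC (F : (κ ⊕ Unit → ℂ) → Matrix n n ℝ) : Prop :=
  ∀ v ∈ Cn κ, ∃ L : ℝ≥0, ∃ U ∈ 𝓝 v, ∀ i j, LipschitzOnWith L (fun w => F w i j) U

theorem LipC.cont {F : (κ ⊕ Unit → ℂ) → Matrix n n ℝ} (h : LipC F) (i j : n) :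
    Continuous fun g : GU κ => F g.pt i j := by
  rw [continuous_iff_continuousAt]
  intro g
  obtain ⟨L, U, hU, hL⟩ := h g.pt (pt_mem g)
  have h1 : ContinuousAt (fun w => F w i j) g.pt :=
    ((hL i j).continuousOn.continuousAt hU)
  exact ContinuousAt.comp (f := GU.pt) (g := fun w => F w i j) h1 cont_pt.continuousAt

theorem LipC.dbound {F : (κ ⊕ Unit → ℂ) → Matrix n n ℝ} (h : LipC F) (R : ℝ) :
    ∃ C : ℝ, ∀ g : GU κ, c g ≤ R → ∀ p i j, |XH F p g i j| ≤ C := by
  have key : ∃ C : ℝ, ∀ g ∈ {g : GU κ | c g ≤ R}, ∀ p i j, |XH F p g i j| ≤ C := by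
    refine (isCompact_c (κ := κ) R).induction_on
      (p := fun s => ∃ C : ℝ, ∀ g ∈ s, ∀ p i j, |XH F p g i j| ≤ C) ?_ ?_ ?_ ?_
    · exact ⟨0, by simp⟩
    · rintro s t hst ⟨C, hC⟩
      exact ⟨C, fun g hg => hC g (hst hg)⟩
    · rintro s t ⟨C, hC⟩ ⟨D, hD⟩
      refine ⟨max C D, fun g hg p i j => ?_⟩
      rcases hg with hg | hg
      · exact (hC g hg p i j).trans (le_max_left _ _)
      · exact (hD g hg p i j).trans (le_max_right _ _)
    · intro x _
      obtain ⟨L, U, hU, hL⟩ := h x.pt (pt_mem x)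
      set D : ℝ := ∑ p : κ × Bool, (‖x.dir p‖ + 1) with hD
      have hb : ∀ᶠ g in 𝓝 x, ∀ p : κ × Bool, ‖g.dir p‖ < ‖x.dir p‖ + 1 := by
        rw [eventually_all]
        intro p
        exact (cont_dir p).norm.continuousAt.eventually_lt continuousAt_const (by simp)
      have hU' : ∀ᶠ g in 𝓝 x, U ∈ 𝓝 (GU.pt g) :=
        cont_pt.continuousAt.eventually (eventually_mem_nhds_iff.2 hU)
      refine ⟨{g | (∀ p : κ × Bool, ‖g.dir p‖ < ‖x.dir p‖ + 1) ∧ U ∈ 𝓝 (GU.pt g)},
        mem_nhdsWithin_of_mem_nhds (hb.and hU'), L * D, ?_⟩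
      rintro g ⟨hg1, hg2⟩ p i j
      have h1 : ‖fderiv ℝ (fun w => F w i j) g.pt‖ ≤ L :=
        norm_fderiv_le_of_lipschitzOn ℝ hg2 (hL i j)
      have h2 : ‖g.dir p‖ ≤ D := (hg1 p).le.trans
        (Finset.single_le_sum (f := fun p : κ × Bool => ‖x.dir p‖ + 1)
          (fun q _ => by positivity) (Finset.mem_univ p))
      calc |XH F p g i j| = ‖fderiv ℝ (fun w => F w i j) g.pt (g.dir p)‖ := rfl
        _ ≤ ‖fderiv ℝ (fun w => F w i j) g.pt‖ * ‖g.dir p‖ := ContinuousLinearMap.le_opNorm _ _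
        _ ≤ L * D := by gcongr
  exact key

theorem meas_XH (F : (κ ⊕ Unit → ℂ) → Matrix n n ℝ) (p : κ × Bool) (i j : n) :
    Measurable fun g : GU κ => XH F p g i j := by
  have h1 : Measurable fun g : GU κ => fderiv ℝ (fun w => F w i j) g.pt :=
    (measurable_fderiv ℝ (fun w => F w i j)).comp cont_pt.measurable
  have h2 : Measurable fun g : GU κ => g.dir p := (cont_dir p).measurable
  have h3 : Continuous fun q : ((κ ⊕ Unit → ℂ) →L[ℝ] ℝ) × (κ ⊕ Unit → ℂ) => q.1 q.2 :=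
    isBoundedBilinearMap_apply.continuous
  exact h3.measurable.comp (h1.prodMk h2)

/-! ### bounded and measurable families of matrices -/

/-- bounded families -/
def BD {X : Type} (S : Set X) (A : X → Matrix n n ℝ) : Prop :=
  ∃ C : ℝ, ∀ x ∈ S, ∀ i j, |A x i j| ≤ C

theorem BD.mul {X : Type} {S : Set X} {A B : X → Matrix n n ℝ} (hA : BD S A) (hB : BD S B) :
    BD S (fun x => A x * B x) := by
  obtain ⟨C, hC⟩ := hA
  obtain ⟨D, hD⟩ := hB
  refine ⟨∑ _k : n, C * D, fun x hx i j => ?_⟩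
  show |(A x * B x) i j| ≤ _
  rw [Matrix.mul_apply]
  refine (Finset.abs_sum_le_sum_abs _ _).trans (Finset.sum_le_sum fun k _ => ?_)
  rw [abs_mul]
  have h0 : 0 ≤ C := (abs_nonneg _).trans (hC x hx i k)
  exact mul_le_mul (hC x hx i k) (hD x hx k j) (abs_nonneg _) h0

theorem BD.add {X : Type} {S : Set X} {A B : X → Matrix n n ℝ} (hA : BD S A) (hB : BD S B) :
    BD S (fun x => A x + B x) := by
  obtain ⟨C, hC⟩ := hA
  obtain ⟨D, hD⟩ := hB
  refine ⟨C + D, fun x hx i j => ?_⟩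
  show |(A x + B x) i j| ≤ _
  rw [Matrix.add_apply]
  exact (abs_add_le _ _).trans (add_le_add (hC x hx i j) (hD x hx i j))

theorem BD.smul {X : Type} {S : Set X} {A : X → Matrix n n ℝ} (hA : BD S A) (s : X → ℝ)
    (hs : ∃ T : ℝ, ∀ x ∈ S, |s x| ≤ T) : BD S (fun x => s x • A x) := by
  obtain ⟨C, hC⟩ := hA
  obtain ⟨T, hT⟩ := hs
  refine ⟨T * C, fun x hx i j => ?_⟩
  show |(s x • A x) i j| ≤ _
  rw [Matrix.smul_apply, smul_eq_mul, abs_mul]
  have h0 : 0 ≤ T := (abs_nonneg _).trans (hT x hx)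
  exact mul_le_mul (hT x hx) (hC x hx i j) (abs_nonneg _) h0

theorem BD.trace {X : Type} {S : Set X} {A : X → Matrix n n ℝ} (hA : BD S A) :
    ∃ C : ℝ, ∀ x ∈ S, |(A x).trace| ≤ C := by
  obtain ⟨C, hC⟩ := hA
  refine ⟨∑ _k : n, C, fun x hx => ?_⟩
  rw [Matrix.trace]
  exact (Finset.abs_sum_le_sum_abs _ _).trans (Finset.sum_le_sum fun k _ => hC x hx k k)

/-- measurable families -/
def ME {X : Type} [MeasurableSpace X] (A : X → Matrix n n ℝ) : Prop :=
  ∀ i j, Measurable fun x => A x i j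

theorem ME.mul {X : Type} [MeasurableSpace X] {A B : X → Matrix n n ℝ} (hA : ME A) (hB : ME B) :
    ME (fun x => A x * B x) := by
  intro i j
  simp only [Matrix.mul_apply]
  exact Finset.measurable_sum _ fun k _ => (hA i k).mul (hB k j)

theorem ME.add {X : Type} [MeasurableSpace X] {A B : X → Matrix n n ℝ} (hA : ME A) (hB : ME B) :
    ME (fun x => A x + B x) := fun i j => (hA i j).add (hB i j)

theorem ME.smul {X : Type} [MeasurableSpace X] {A : X → Matrix n n ℝ} (hA : ME A) (t : ℝ) :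
    ME (fun x => t • A x) := fun i j => (hA i j).const_mul t

theorem ME.trace {X : Type} [MeasurableSpace X] {A : X → Matrix n n ℝ} (hA : ME A) :
    Measurable fun x => (A x).trace := by
  simp only [Matrix.trace, Matrix.diag]
  exact Finset.measurable_sum _ fun k _ => hA k k

theorem inv_cont {X : Type} [TopologicalSpace X] {A : X → Matrix n n ℝ} {x : X}
    (hA : ∀ i j, ContinuousAt (fun y => A y i j) x) (hd : (A x).det ≠ 0) (i j : n) :
    ContinuousAt (fun y => (A y)⁻¹ i j) x := by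
  have h1 : ContinuousAt (fun y => fun a b => A y a b) x :=
    continuousAt_pi.2 fun a => continuousAt_pi.2 fun b => hA a b
  exact ContinuousAt.comp (g := fun M : n → n → ℝ => (Matrix.of M)⁻¹ i j)
    (f := fun y => fun a b => A y a b)
    (McalcAux.inv_cd (k := 0) i j (fun a b => A x a b) hd).continuousAt h1

/-! ### derivatives of curves of matrices -/

/-- entrywise derivative of a curve -/
def HD (A : ℝ → Matrix n n ℝ) (A' : Matrix n n ℝ) (t : ℝ) : Prop :=
  ∀ i j, HasDerivAt (fun s => A s i j) (A' i j) t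

theorem HD.mul {A B : ℝ → Matrix n n ℝ} {A' B' : Matrix n n ℝ} {t : ℝ} (hA : HD A A' t)
    (hB : HD B B' t) : HD (fun s => A s * B s) (A' * B t + A t * B') t := by
  intro i j
  have e : (fun s => (A s * B s) i j) = fun s => ∑ k, A s i k * B s k j := by
    funext s; rw [Matrix.mul_apply]
  rw [e, Matrix.add_apply, Matrix.mul_apply, Matrix.mul_apply, ← Finset.sum_add_distrib]
  exact HasDerivAt.fun_sum fun k _ => (hA i k).mul (hB k j)

theorem HD.lin (P K : Matrix n n ℝ) (t : ℝ) : HD (fun s => P + s • K) K t := by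
  intro i j
  have h := ((hasDerivAt_id t).mul_const (K i j)).const_add (P i j)
  simpa using h

theorem HD.trace {A : ℝ → Matrix n n ℝ} {A' : Matrix n n ℝ} {t : ℝ} (hA : HD A A' t) :
    HasDerivAt (fun s => (A s).trace) A'.trace t := by
  simp only [Matrix.trace, Matrix.diag]
  exact HasDerivAt.fun_sum fun k _ => hA k k

theorem HD.inv {A : ℝ → Matrix n n ℝ} {A' : Matrix n n ℝ} {t : ℝ} (hA : HD A A' t)
    (hd : IsUnit (A t).det) : HD (fun s => (A s)⁻¹) (-((A t)⁻¹ * A' * (A t)⁻¹)) t := by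
  have h1 : DifferentiableAt ℝ (fun s => fun a b => A s a b) t :=
    differentiableAt_pi.2 fun a => differentiableAt_pi.2 fun b => (hA a b).differentiableAt
  have hi : ∀ i j, DifferentiableAt ℝ (fun s => (A s)⁻¹ i j) t := fun i j =>
    DifferentiableAt.comp (g := fun M : n → n → ℝ => (Matrix.of M)⁻¹ i j)
      (f := fun s => fun a b => A s a b) t
      ((McalcAux.inv_cd (k := 1) i j (fun a b => A t a b) hd.ne_zero).differentiableAt
        (by simp)) h1
  set B' : Matrix n n ℝ := Matrix.of fun i j => deriv (fun s => (A s)⁻¹ i j) t with hB'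
  have hB : HD (fun s => (A s)⁻¹) B' t := fun i j => (hi i j).hasDerivAt
  have hc : ContinuousAt (fun s => (A s).det) t :=
    ((McalcAux.det_cd (k := 0) _ fun i j => McalcAux.ent_cd i j).continuous.continuousAt).comp
      (f := fun s => fun a b => A s a b) h1.continuousAt
  have hev : ∀ᶠ s in 𝓝 t, (A s).det ≠ 0 := hc.eventually_ne hd.ne_zero
  have hm := hA.mul hB
  have h0 : A' * (A t)⁻¹ + A t * B' = 0 := by
    ext i j
    have e : (fun s => (A s * (A s)⁻¹) i j) =ᶠ[𝓝 t] fun _ => (1 : Matrix n n ℝ) i j := by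
      filter_upwards [hev] with w hw
      rw [Matrix.mul_nonsing_inv _ (isUnit_iff_ne_zero.2 hw)]
    have h3 : HasDerivAt (fun s => (A s * (A s)⁻¹) i j) 0 t :=
      (hasDerivAt_const t ((1 : Matrix n n ℝ) i j)).congr_of_eventuallyEq e
    exact (hm i j).unique h3
  have h2 := congrArg (fun X => (A t)⁻¹ * X) h0
  simp only [Matrix.mul_add, Matrix.mul_zero] at h2
  rw [← Matrix.mul_assoc, ← Matrix.mul_assoc, Matrix.nonsing_inv_mul _ hd, Matrix.one_mul] at h2
  rw [← (neg_eq_of_add_eq_zero_right h2)] at hB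
  exact hB

/-- the density -/
noncomputable def psi (P X : Matrix n n ℝ) : ℝ := (P⁻¹ * X * P⁻¹ * X).trace

/-- its derivative -/
noncomputable def dpsi (P X K b : Matrix n n ℝ) : ℝ :=
  2 * ((P⁻¹ * X * P⁻¹ * b).trace - (P⁻¹ * X * P⁻¹ * X * P⁻¹ * K).trace)

theorem psi_deriv (P K a b : Matrix n n ℝ) (t : ℝ) (hd : IsUnit (P + t • K).det) :
    HasDerivAt (fun s : ℝ => psi (P + s • K) (a + s • b)) (dpsi (P + t • K) (a + t • b) K b) t := by
  have h1 := (HD.lin P K t).inv hd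
  have h2 := h1.mul (HD.lin a b t)
  have h3 := (h2.mul h2).trace
  have e : (fun s : ℝ => psi (P + s • K) (a + s • b)) = fun s : ℝ =>
      ((P + s • K)⁻¹ * (a + s • b) * ((P + s • K)⁻¹ * (a + s • b))).trace := by
    funext s
    rw [psi, Matrix.mul_assoc ((P + s • K)⁻¹ * (a + s • b))]
  rw [e]
  convert h3 using 1
  set Q := (P + t • K)⁻¹
  set X := a + t • b
  have c1 : (Q * X * Q * X * Q * K).trace = (Q * K * Q * X * (Q * X)).trace := by
    rw [show Q * X * Q * X * Q * K = (Q * X) * (Q * X) * (Q * K) by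
      simp only [Matrix.mul_assoc], Matrix.trace_mul_comm]
    simp only [Matrix.mul_assoc]
  have c2 : (Q * X * (Q * K * Q * X)).trace = (Q * K * Q * X * (Q * X)).trace :=
    Matrix.trace_mul_comm _ _
  have c3 : (Q * b * (Q * X)).trace = (Q * X * Q * b).trace := by
    rw [Matrix.trace_mul_comm]; simp only [Matrix.mul_assoc]
  have c4 : (Q * X * (Q * b)).trace = (Q * X * Q * b).trace := by
    simp only [Matrix.mul_assoc]
  rw [dpsi, c1]
  simp only [Matrix.add_mul, Matrix.mul_add, Matrix.trace_add, Matrix.neg_mul, Matrix.mul_neg,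
    Matrix.trace_neg]
  rw [c2, c3, c4]
  ring

/-! ### positivity -/

variable {σ : G →* GU κ} {ρ : G →* Matrix n n ℝ} {H K : (κ ⊕ Unit → ℂ) → Matrix n n ℝ}

theorem quad_cont {F : (κ ⊕ Unit → ℂ) → Matrix n n ℝ} (h : LipC F) :
    Continuous fun q : GU κ × (n → ℝ) => q.2 ⬝ᵥ (F q.1.pt *ᵥ q.2) := by
  simp only [dotProduct, Matrix.mulVec]
  refine continuous_finset_sum _ fun i _ => ?_
  refine ((continuous_apply i).comp continuous_snd).mul ?_
  refine continuous_finset_sum _ fun j _ => ?_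
  exact ((h.cont i j).comp continuous_fst).mul ((continuous_apply j).comp continuous_snd)

theorem exists_t0 (hL : Lat σ) (hH : EqC σ ρ H) (hK : SyC σ ρ K) :
    ∃ t₀ : ℝ, 0 < t₀ ∧ ∀ t : ℝ, |t| ≤ t₀ → ∀ v ∈ Cn κ, (H v + t • K v).PosDef := by
  obtain ⟨R, hR⟩ := hL.coc
  set S : Set (GU κ × (n → ℝ)) := {g : GU κ | c g ≤ R} ×ˢ Metric.sphere (0 : n → ℝ) 1 with hS
  have hSc : IsCompact S := (isCompact_c R).prod (isCompact_sphere _ _)
  have hHc := quad_cont (F := H) hH.lip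
  have hKc := quad_cont (F := K) hK.lip
  -- lower bound for `H`
  obtain ⟨c₀, hc₀, hc₁⟩ : ∃ c₀ : ℝ, 0 < c₀ ∧ ∀ q ∈ S, c₀ ≤ q.2 ⬝ᵥ (H q.1.pt *ᵥ q.2) := by
    rcases S.eq_empty_or_nonempty with he | hne
    · exact ⟨1, one_pos, fun q hq => by rw [he] at hq; exact absurd hq (Set.notMem_empty _)⟩
    · obtain ⟨q, hq, hmin⟩ := hSc.exists_isMinOn hne hHc.continuousOn
      refine ⟨_, ?_, fun q' hq' => hmin hq'⟩
      have h1 : q.2 ≠ 0 := by
        intro h0
        have := hq.2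
        rw [h0] at this
        simp at this
      have := (hH.pos q.1.pt (pt_mem _)).dotProduct_mulVec_pos h1
      simpa using this
  obtain ⟨C, hC⟩ := hSc.exists_bound_of_continuousOn hKc.continuousOn
  have hC0 : 0 ≤ |C| := abs_nonneg _
  refine ⟨c₀ / (2 * (|C| + 1)), by positivity, ?_⟩
  intro t ht
  -- positivity on `S`
  have hpS : ∀ q ∈ S, 0 < q.2 ⬝ᵥ ((H q.1.pt + t • K q.1.pt) *ᵥ q.2) := by
    intro q hq
    rw [Matrix.add_mulVec, Matrix.smul_mulVec, dotProduct_add, dotProduct_smul, smul_eq_mul]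
    have h1 := hc₁ q hq
    have h2 := hC q hq
    rw [Real.norm_eq_abs] at h2
    have h3 : |t * q.2 ⬝ᵥ (K q.1.pt *ᵥ q.2)| ≤ c₀ / 2 := by
      rw [abs_mul]
      have h4 : |t| * |q.2 ⬝ᵥ (K q.1.pt *ᵥ q.2)| ≤ c₀ / (2 * (|C| + 1)) * (|C| + 1) := by
        apply mul_le_mul ht _ (abs_nonneg _) (by positivity)
        linarith [le_abs_self C]
      refine h4.trans (le_of_eq ?_)
      field_simp
    have h5 := neg_abs_le (t * q.2 ⬝ᵥ (K q.1.pt *ᵥ q.2))
    linarith
  have hpB : ∀ g : GU κ, c g ≤ R → (H g.pt + t • K g.pt).PosDef := by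
    intro g hg
    refine Matrix.PosDef.of_dotProduct_mulVec_pos ?_ ?_
    · have h1 := (hH.pos g.pt (pt_mem _)).isHermitian
      have h2 := hK.sym g.pt (pt_mem _)
      rw [Matrix.IsHermitian, Matrix.conjTranspose_add, h1.eq, Matrix.conjTranspose_smul,
        Matrix.conjTranspose_eq_transpose_of_trivial, h2]
      simp
    · intro x hx
      have hn : ‖x‖ ≠ 0 := norm_ne_zero_iff.2 hx
      have h1 := hpS (g, ‖x‖⁻¹ • x) ⟨hg, by
        rw [mem_sphere_zero_iff_norm, norm_smul, norm_inv, norm_norm, inv_mul_cancel₀ hn]⟩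
      rw [Matrix.mulVec_smul, dotProduct_smul, smul_dotProduct, smul_eq_mul, smul_eq_mul,
        ← mul_assoc] at h1
      have h2 : 0 < ‖x‖⁻¹ * ‖x‖⁻¹ := by positivity
      have h3 : 0 < x ⬝ᵥ ((H g.pt + t • K g.pt) *ᵥ x) := (pos_iff_pos_of_mul_pos h1).1 h2
      simpa using h3
  intro v hv
  obtain ⟨g, l, hl, rfl⟩ := exists_pt v hv
  rw [hH.hom _ (pt_mem g) l hl, hK.hom _ (pt_mem g) l hl]
  obtain ⟨γ, hγ⟩ := hR g
  have h1 := hpB _ hγ
  rw [pt_mul, hH.eqv γ _ (pt_mem g), hK.eqv γ _ (pt_mem g)] at h1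
  have hinv : ρ γ⁻¹ * ρ γ = 1 := by rw [← map_mul, inv_mul_cancel, map_one]
  have hinv' : (ρ γ)ᵀ * (ρ γ⁻¹)ᵀ = 1 := by
    rw [← Matrix.transpose_mul, hinv, Matrix.transpose_one]
  have hu : IsUnit (ρ γ) := by
    have h2 := congrArg Matrix.det hinv
    rw [Matrix.det_mul, Matrix.det_one] at h2
    exact (Matrix.isUnit_iff_isUnit_det _).2 (IsUnit.of_mul_eq_one_right _ h2)
  have h2 := Matrix.PosDef.conjTranspose_mul_mul_same h1 (B := ρ γ)
    (Matrix.mulVec_injective_of_isUnit hu)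
  rw [Matrix.conjTranspose_eq_transpose_of_trivial] at h2
  convert h2 using 1
  have h3 : ∀ A : Matrix n n ℝ, (ρ γ)ᵀ * ((ρ γ⁻¹)ᵀ * A * ρ γ⁻¹) * ρ γ = A := by
    intro A
    calc (ρ γ)ᵀ * ((ρ γ⁻¹)ᵀ * A * ρ γ⁻¹) * ρ γ
        = ((ρ γ)ᵀ * (ρ γ⁻¹)ᵀ) * A * (ρ γ⁻¹ * ρ γ) := by simp only [Matrix.mul_assoc]
      _ = A := by rw [hinv, hinv', Matrix.one_mul, Matrix.mul_one]
  rw [Matrix.mul_add, Matrix.add_mul, h3, Matrix.mul_smul, Matrix.smul_mul, h3]

theorem eqc_t (hH : EqC σ ρ H) (hK : SyC σ ρ K) (t : ℝ)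
    (hp : ∀ v ∈ Cn κ, (H v + t • K v).PosDef) : EqC σ ρ (fun v => H v + t • K v) where
  pos := hp
  hom v hv l hl := by
    show H (l • v) + t • K (l • v) = H v + t • K v
    rw [hH.hom v hv l hl, hK.hom v hv l hl]
  eqv γ v hv := by
    show H ((σ γ).M *ᵥ v) + t • K ((σ γ).M *ᵥ v) = _
    rw [hH.eqv γ v hv, hK.eqv γ v hv, Matrix.mul_add, Matrix.add_mul, Matrix.mul_smul,
      Matrix.smul_mul]
  lip v hv := by
    obtain ⟨L, U, hU, hL⟩ := hH.lip v hv
    obtain ⟨L', U', hU', hL'⟩ := hK.lip v hv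
    refine ⟨L + ‖t‖₊ * L', U ∩ U', inter_mem hU hU', fun i j => ?_⟩
    have h1 := (hL i j).mono Set.inter_subset_left (s := U ∩ U')
    have h2 := (hL' i j).mono Set.inter_subset_right (s := U ∩ U')
    refine LipschitzOnWith.of_dist_le_mul fun x hx y hy => ?_
    have a1 := h1.dist_le_mul x hx y hy
    have a2 := h2.dist_le_mul x hx y hy
    rw [Real.dist_eq] at a1 a2 ⊢
    simp only [Matrix.add_apply, Matrix.smul_apply, smul_eq_mul]
    have e : H x i j + t * K x i j - (H y i j + t * K y i j) =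
        (H x i j - H y i j) + t * (K x i j - K y i j) := by ring
    rw [e]
    refine (abs_add_le _ _).trans ?_
    rw [abs_mul]
    push_cast
    rw [add_mul, Real.norm_eq_abs, mul_assoc]
    exact add_le_add a1 (mul_le_mul_of_nonneg_left a2 (abs_nonneg _))

end FV1Aux

open FV1Aux

/-- module FV1 -/
theorem first_var {σ : G →* GU κ} (hL : Lat σ)
    (μ : Measure (GU κ)) [IsHaarMeasure μ] {χ : GU κ → ℝ} (hχ : Cut σ χ)
    (ρ : G →* Matrix n n ℝ) {H : (κ ⊕ Unit → ℂ) → Matrix n n ℝ} (hH : EqC σ ρ H)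
    (hmin : ∀ H', EqC σ ρ H' → En μ χ H ≤ En μ χ H')
    {K : (κ ⊕ Unit → ℂ) → Matrix n n ℝ} (hK : SyC σ ρ K) :
    ∫ g, χ g * fv H K g ∂μ = 0 := by
  haveI := hL.countable
  haveI := right_inv hL μ
  obtain ⟨t₀, ht₀, hpos⟩ := exists_t0 hL hH hK
  have hpos' : ∀ t : ℝ, |t| ≤ t₀ → ∀ g : GU κ, (H g.pt + t • K g.pt).det ≠ 0 :=
    fun t ht g => (hpos t ht g.pt (pt_mem g)).det_pos.ne'
  obtain ⟨R, hR⟩ := hχ.supp
  set S : Set (ℝ × GU κ) := Set.Icc (-t₀) t₀ ×ˢ {g : GU κ | c g ≤ R} with hS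
  have hSc : IsCompact S := isCompact_Icc.prod (isCompact_c R)
  have hHl : LipC H := hH.lip
  have hKl : LipC K := hK.lip
  -- bounded families
  have bP : BD S (fun x : ℝ × GU κ => (H x.2.pt + x.1 • K x.2.pt)⁻¹) := by
    have hc : ∀ i j, ContinuousOn (fun x : ℝ × GU κ => (H x.2.pt + x.1 • K x.2.pt)⁻¹ i j) S := by
      intro i j x hx
      refine ContinuousAt.continuousWithinAt ?_
      refine inv_cont (A := fun x : ℝ × GU κ => H x.2.pt + x.1 • K x.2.pt) (fun a b => ?_)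
        (hpos' x.1 (abs_le.2 hx.1) x.2) i j
      exact (((hHl.cont a b).comp continuous_snd).add
        (continuous_fst.mul ((hKl.cont a b).comp continuous_snd))).continuousAt
    have h1 : ∀ i j, ∃ C : ℝ, ∀ x ∈ S, ‖(H x.2.pt + x.1 • K x.2.pt)⁻¹ i j‖ ≤ C := fun i j =>
      hSc.exists_bound_of_continuousOn (hc i j)
    choose C hC using h1
    refine ⟨∑ i, ∑ j, |C i j|, fun x hx i j => ?_⟩
    calc |(H x.2.pt + x.1 • K x.2.pt)⁻¹ i j| ≤ C i j := hC i j x hx
      _ ≤ |C i j| := le_abs_self _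
      _ ≤ ∑ j, |C i j| := Finset.single_le_sum (f := fun j => |C i j|)
          (fun j _ => abs_nonneg _) (Finset.mem_univ j)
      _ ≤ ∑ i, ∑ j, |C i j| := Finset.single_le_sum (f := fun i => ∑ j, |C i j|)
          (fun i _ => Finset.sum_nonneg fun j _ => abs_nonneg _) (Finset.mem_univ i)
  have bK : BD S (fun x : ℝ × GU κ => K x.2.pt) := by
    have h1 : ∀ i j, ∃ C : ℝ, ∀ x ∈ S, ‖K x.2.pt i j‖ ≤ C := fun i j =>
      hSc.exists_bound_of_continuousOn ((hKl.cont i j).comp continuous_snd).continuousOn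
    choose C hC using h1
    refine ⟨∑ i, ∑ j, |C i j|, fun x hx i j => ?_⟩
    calc |K x.2.pt i j| ≤ C i j := hC i j x hx
      _ ≤ |C i j| := le_abs_self _
      _ ≤ ∑ j, |C i j| := Finset.single_le_sum (f := fun j => |C i j|)
          (fun j _ => abs_nonneg _) (Finset.mem_univ j)
      _ ≤ ∑ i, ∑ j, |C i j| := Finset.single_le_sum (f := fun i => ∑ j, |C i j|)
          (fun i _ => Finset.sum_nonneg fun j _ => abs_nonneg _) (Finset.mem_univ i)
  have ba : ∀ p, BD S (fun x : ℝ × GU κ => XH H p x.2) := by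
    intro p
    obtain ⟨C, hC⟩ := hHl.dbound R
    exact ⟨C, fun x hx i j => hC x.2 hx.2 p i j⟩
  have bb : ∀ p, BD S (fun x : ℝ × GU κ => XH K p x.2) := by
    intro p
    obtain ⟨C, hC⟩ := hKl.dbound R
    exact ⟨C, fun x hx i j => hC x.2 hx.2 p i j⟩
  have bX : ∀ p, BD S (fun x : ℝ × GU κ => XH H p x.2 + x.1 • XH K p x.2) := fun p =>
    (ba p).add ((bb p).smul (fun x => x.1) ⟨t₀, fun x hx => abs_le.2 hx.1⟩)
  -- the functions
  set F : ℝ → GU κ → ℝ := fun t g =>
    χ g * ∑ p, psi (H g.pt + t • K g.pt) (XH H p g + t • XH K p g) with hF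
  set F' : ℝ → GU κ → ℝ := fun t g =>
    χ g * ∑ p, dpsi (H g.pt + t • K g.pt) (XH H p g + t • XH K p g) (K g.pt) (XH K p g) with hF'
  have b1 : ∀ p, ∃ C : ℝ, ∀ x ∈ S,
      |psi (H x.2.pt + x.1 • K x.2.pt) (XH H p x.2 + x.1 • XH K p x.2)| ≤ C := fun p =>
    (((bP.mul (bX p)).mul bP).mul (bX p)).trace
  have b2 : ∀ p, ∃ C : ℝ, ∀ x ∈ S,
      |dpsi (H x.2.pt + x.1 • K x.2.pt) (XH H p x.2 + x.1 • XH K p x.2) (K x.2.pt)
        (XH K p x.2)| ≤ C := by
    intro p
    obtain ⟨C, hC⟩ := (((bP.mul (bX p)).mul bP).mul (bb p)).trace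
    obtain ⟨D, hD⟩ := (((((bP.mul (bX p)).mul bP).mul (bX p)).mul bP).mul bK).trace
    refine ⟨2 * (C + D), fun x hx => ?_⟩
    rw [dpsi, abs_mul, abs_two]
    have := (abs_sub _ _).trans (add_le_add (hC x hx) (hD x hx))
    linarith
  have bχ : ∃ C : ℝ, ∀ g : GU κ, c g ≤ R → ‖χ g‖ ≤ C :=
    (isCompact_c R).exists_bound_of_continuousOn hχ.cont.continuousOn
  choose C1 hC1 using b1
  choose C2 hC2 using b2
  obtain ⟨C3, hC3⟩ := bχ
  have hzero : ∀ g, ¬ c g ≤ R → χ g = 0 := fun g hg => by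
    by_contra h
    exact hg (hR g h)
  set bd : ℝ → GU κ → ℝ := fun D => Set.indicator {g : GU κ | c g ≤ R} (fun _ => D) with hbd
  have hbdi : ∀ D, Integrable (bd D) μ := by
    intro D
    have hm : MeasurableSet {g : GU κ | c g ≤ R} :=
      measurableSet_le continuous_c.measurable measurable_const
    rw [integrable_indicator_iff hm]
    exact integrableOn_const (isCompact_c R).measure_lt_top.ne
  have bF : ∀ t : ℝ, |t| ≤ t₀ → ∀ g, ‖F t g‖ ≤ bd (C3 * ∑ p, C1 p) g := by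
    intro t ht g
    by_cases hg : c g ≤ R
    · simp only [hbd, Set.indicator, Set.mem_setOf_eq, hg, if_true]
      rw [hF, norm_mul]
      have h0 : 0 ≤ C3 := (norm_nonneg _).trans (hC3 g hg)
      refine mul_le_mul (hC3 g hg) ?_ (norm_nonneg _) h0
      refine (norm_sum_le _ _).trans (Finset.sum_le_sum fun p _ => ?_)
      exact hC1 p (t, g) ⟨abs_le.1 ht, hg⟩
    · simp only [hbd, Set.indicator, Set.mem_setOf_eq, hg, if_false]
      simp [hF, hzero g hg]
  have bF' : ∀ t : ℝ, |t| ≤ t₀ → ∀ g, ‖F' t g‖ ≤ bd (C3 * ∑ p, C2 p) g := by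
    intro t ht g
    by_cases hg : c g ≤ R
    · simp only [hbd, Set.indicator, Set.mem_setOf_eq, hg, if_true]
      rw [hF', norm_mul]
      have h0 : 0 ≤ C3 := (norm_nonneg _).trans (hC3 g hg)
      refine mul_le_mul (hC3 g hg) ?_ (norm_nonneg _) h0
      refine (norm_sum_le _ _).trans (Finset.sum_le_sum fun p _ => ?_)
      exact hC2 p (t, g) ⟨abs_le.1 ht, hg⟩
    · simp only [hbd, Set.indicator, Set.mem_setOf_eq, hg, if_false]
      simp [hF', hzero g hg]
  -- measurability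
  have mP : ∀ t : ℝ, |t| ≤ t₀ → ME (fun g : GU κ => (H g.pt + t • K g.pt)⁻¹) := by
    intro t ht i j
    refine Continuous.measurable ?_
    rw [continuous_iff_continuousAt]
    intro g
    refine inv_cont (A := fun g : GU κ => H g.pt + t • K g.pt) (fun a b => ?_)
      (hpos' t ht g) i j
    exact ((hHl.cont a b).add (continuous_const.mul (hKl.cont a b))).continuousAt
  have mK : ME (fun g : GU κ => K g.pt) := fun i j => (hKl.cont i j).measurable
  have mX : ∀ (t : ℝ) p, ME (fun g : GU κ => XH H p g + t • XH K p g) := fun t p =>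
    ME.add (fun i j => meas_XH H p i j) (ME.smul (fun i j => meas_XH K p i j) t)
  have mb : ∀ p, ME (fun g : GU κ => XH K p g) := fun p i j => meas_XH K p i j
  have mF : ∀ t : ℝ, |t| ≤ t₀ → AEStronglyMeasurable (F t) μ := by
    intro t ht
    refine (hχ.cont.measurable.mul (Finset.measurable_sum _ fun p _ => ?_)).aestronglyMeasurable
    exact ((((mP t ht).mul (mX t p)).mul (mP t ht)).mul (mX t p)).trace
  have mF' : ∀ t : ℝ, |t| ≤ t₀ → AEStronglyMeasurable (F' t) μ := by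
    intro t ht
    refine (hχ.cont.measurable.mul (Finset.measurable_sum _ fun p _ => ?_)).aestronglyMeasurable
    refine Measurable.const_mul (Measurable.sub ?_ ?_) 2
    · exact ((((mP t ht).mul (mX t p)).mul (mP t ht)).mul (mb p)).trace
    · exact ((((((mP t ht).mul (mX t p)).mul (mP t ht)).mul (mX t p)).mul (mP t ht)).mul mK).trace
  have h00 : |(0 : ℝ)| ≤ t₀ := by simpa using ht₀.le
  have iF : Integrable (F 0) μ :=
    (hbdi _).mono' (mF 0 h00) (Eventually.of_forall (bF 0 h00))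
  -- differentiate
  have hball : Metric.ball (0 : ℝ) t₀ ∈ 𝓝 (0 : ℝ) := Metric.ball_mem_nhds _ ht₀
  have hlt : ∀ t ∈ Metric.ball (0 : ℝ) t₀, |t| ≤ t₀ := fun t ht => by
    have := mem_ball_zero_iff.1 ht
    rw [Real.norm_eq_abs] at this
    exact this.le
  have hder := (hasDerivAt_integral_of_dominated_loc_of_deriv_le (μ := μ) (F := F) (F' := F')
    (x₀ := 0) (s := Metric.ball (0 : ℝ) t₀) (bound := bd (C3 * ∑ p, C2 p)) hball
    (by filter_upwards [hball] with t ht using mF t (hlt t ht)) iF (mF' 0 h00)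
    (Eventually.of_forall fun g t ht => bF' t (hlt t ht) g) (hbdi _)
    (Eventually.of_forall fun g t ht => by
      refine HasDerivAt.const_mul (χ g) ?_
      refine HasDerivAt.fun_sum fun p _ => ?_
      exact psi_deriv _ _ _ _ t (isUnit_iff_ne_zero.2 (hpos' t (hlt t ht) g)))).2
  -- the integrals are energies
  have hdiffH := ae_diff hH μ
  have hdiffT := ae_diff (eqc_t hH hK t₀ (hpos t₀ (by rw [abs_of_pos ht₀]))) μ
  have hen : ∀ t : ℝ, ∫ g, F t g ∂μ = En μ χ (fun v => H v + t • K v) := by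
    intro t
    refine integral_congr_ae ?_
    filter_upwards [hdiffH, hdiffT] with g h1 h2
    have h3 : ∀ i j, DifferentiableAt ℝ (fun w => K w i j) g.pt := by
      intro i j
      have h4 : DifferentiableAt ℝ (fun w => t₀⁻¹ * ((H w + t₀ • K w) i j - H w i j)) g.pt :=
        ((h2 i j).fun_sub (h1 i j)).const_mul t₀⁻¹
      have e4 : (fun w => t₀⁻¹ * ((H w + t₀ • K w) i j - H w i j)) = fun w => K w i j := by
        funext w
        simp only [Matrix.add_apply, Matrix.smul_apply, smul_eq_mul]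
        field_simp
        ring
      rw [e4] at h4
      exact h4
    have hX : ∀ p, XH (fun v => H v + t • K v) p g = XH H p g + t • XH K p g := by
      intro p
      ext i j
      show fderiv ℝ (fun w => H w i j + t * K w i j) g.pt (g.dir p) =
        fderiv ℝ (fun w => H w i j) g.pt (g.dir p) +
          t * fderiv ℝ (fun w => K w i j) g.pt (g.dir p)
      rw [fderiv_fun_add (h1 i j) ((h3 i j).const_mul t), fderiv_const_mul (h3 i j)]
      rfl
    show χ g * ∑ p, psi (H g.pt + t • K g.pt) (XH H p g + t • XH K p g) =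
      χ g * ed (fun v => H v + t • K v) g
    rw [ed]
    congr 1
    refine Finset.sum_congr rfl fun p _ => ?_
    rw [hX p, psi]
  have h0e : ∫ g, F 0 g ∂μ = En μ χ H := by
    rw [hen 0]
    congr 1
    funext v
    simp
  have hloc : IsLocalMin (fun t => ∫ g, F t g ∂μ) 0 := by
    filter_upwards [hball] with t ht
    rw [h0e, hen t]
    exact hmin _ (eqc_t hH hK t (hpos t (hlt t ht)))
  have hz := hloc.hasDerivAt_eq_zero hder
  have e2 : ∀ g, F' 0 g = 2 * (χ g * fv H K g) := by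
    intro g
    simp only [hF', fv, dpsi, zero_smul, add_zero]
    rw [← Finset.mul_sum]
    ring
  simp only [e2] at hz
  rw [integral_const_mul] at hz
  linarith

end Pool.Agent.MPd01a95
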