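import Mathlib
import Pool.Agent.Lib.MP_d01a95_gt_H.HDefs
import Pool.Agent.Lib.MP_d01a95_gt_H.HDefs2
import Pool.Agent.Lib.MP_d01a95_gt_H.Unimod
import Pool.Agent.Lib.MP_d01a95_gt_H.LocLip
import Pool.Agent.Lib.MP_d01a95_gt_H.Aediff
import Pool.Agent.Lib.MP_d01a95_gt_H.Mol5

set_option autoImplicit false
set_option linter.all false

open Matrix Filter Topology MeasureTheory Measure
open scoped ENNReal NNReal ContDiff

namespace Pool.Agent.MPd01a95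

open GU

variable {κ n ι α : Type} [Fintype κ] [DecidableEq κ] [Fintype n] [DecidableEq n] [Fintype ι]
  [DecidableEq ι] [Fintype α] [DecidableEq α] {G : Type} [Group G]

namespace FV2Aux

open LocLip Mol5Aux

/-- translates of a matrix field -/
noncomputable def TT (σ : G →* GU κ) (ρ : G →* Matrix n n ℝ) (K : (κ ⊕ Unit → ℂ) → Matrix n n ℝ) (γ : G)
    (v : κ ⊕ Unit → ℂ) : Matrix n n ℝ := (ρ γ⁻¹)ᵀ * K ((σ γ⁻¹).M *ᵥ v) * ρ γ⁻¹

/-- the sum of the translates -/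
noncomputable def KG (σ : G →* GU κ) (ρ : G →* Matrix n n ℝ)
    (K : (κ ⊕ Unit → ℂ) → Matrix n n ℝ) (v : κ ⊕ Unit → ℂ) : Matrix n n ℝ :=
  ∑ᶠ γ, TT σ ρ K γ v

theorem sig_inv (σ : G →* GU κ) (γ : G) (g : GU κ) : σ γ * (σ γ⁻¹ * g) = g := by
  rw [← mul_assoc, ← map_mul, mul_inv_cancel, map_one, one_mul]

theorem sig_inv' (σ : G →* GU κ) (γ : G) (g : GU κ) : σ γ⁻¹ * (σ γ * g) = g := by
  rw [← mul_assoc, ← map_mul, inv_mul_cancel, map_one, one_mul]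

theorem TT_entry (σ : G →* GU κ) (ρ : G →* Matrix n n ℝ)
    (K : (κ ⊕ Unit → ℂ) → Matrix n n ℝ) (γ : G) (v : κ ⊕ Unit → ℂ) (i j : n) :
    TT σ ρ K γ v i j = ∑ b, (∑ a, ρ γ⁻¹ a i * K ((σ γ⁻¹).M *ᵥ v) a b) * ρ γ⁻¹ b j := by
  simp only [TT, Matrix.mul_apply, Matrix.transpose_apply]

/-- the action of a matrix as a real continuous linear map -/
noncomputable def ML (A : Matrix (κ ⊕ Unit) (κ ⊕ Unit) ℂ) : (κ ⊕ Unit → ℂ) →L[ℝ] (κ ⊕ Unit → ℂ) :=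
  (LinearMap.toContinuousLinearMap (Matrix.mulVecLin A)).restrictScalars ℝ

theorem ML_apply (A : Matrix (κ ⊕ Unit) (κ ⊕ Unit) ℂ) (v : κ ⊕ Unit → ℂ) : ML A v = A *ᵥ v := rfl

theorem TT_lat (σ : G →* GU κ) (ρ : G →* Matrix n n ℝ)
    {K : (κ ⊕ Unit → ℂ) → Matrix n n ℝ} (hK : ∀ i j, ∀ v ∈ Cn κ, LAt (fun w => K w i j) v)
    (γ : G) (i j : n) : ∀ v ∈ Cn κ, LAt (fun w => TT σ ρ K γ w i j) v := by
  intro v hv
  simp only [TT_entry]
  refine LAt.sum _ fun b _ => LAt.mul_right (LAt.sum _ fun a _ => LAt.mul_left ?_ _) _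
  exact LAt.comp_lin (f := fun w => K w a b) (ML (σ γ⁻¹).M) (hK a b _ (mulVec_Cn _ hv))

theorem DM_TT (σ : G →* GU κ) (ρ : G →* Matrix n n ℝ)
    {K : (κ ⊕ Unit → ℂ) → Matrix n n ℝ} (γ : G) (v u : κ ⊕ Unit → ℂ)
    (hd : ∀ i j, DifferentiableAt ℝ (fun w => K w i j) ((σ γ⁻¹).M *ᵥ v)) :
    (∀ i j, DifferentiableAt ℝ (fun w => TT σ ρ K γ w i j) v) ∧
    DM (TT σ ρ K γ) v u = (ρ γ⁻¹)ᵀ * DM K ((σ γ⁻¹).M *ᵥ v) ((σ γ⁻¹).M *ᵥ u) * ρ γ⁻¹ := by
  have h1 : ∀ a b, HasFDerivAt (fun w => K ((σ γ⁻¹).M *ᵥ w) a b)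
      ((fderiv ℝ (fun w => K w a b) ((σ γ⁻¹).M *ᵥ v)).comp (ML (σ γ⁻¹).M)) v := by
    intro a b
    have h2 : HasFDerivAt (fun w => K w a b)
      (fderiv ℝ (fun w => K w a b) (ML (σ γ⁻¹).M v)) (ML (σ γ⁻¹).M v) := (hd a b).hasFDerivAt
    exact h2.comp v (ML (σ γ⁻¹).M).hasFDerivAt
  have h3 : ∀ i j, HasFDerivAt (fun w => TT σ ρ K γ w i j)
      (∑ b, ρ γ⁻¹ b j • ∑ a, ρ γ⁻¹ a i •
        ((fderiv ℝ (fun w => K w a b) ((σ γ⁻¹).M *ᵥ v)).comp (ML (σ γ⁻¹).M))) v := by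
    intro i j
    simp only [TT_entry]
    refine HasFDerivAt.fun_sum fun b _ => ?_
    exact HasFDerivAt.mul_const (HasFDerivAt.fun_sum fun a _ => (h1 a b).const_mul _) _
  refine ⟨fun i j => (h3 i j).differentiableAt, ?_⟩
  ext i j
  change fderiv ℝ (fun w => TT σ ρ K γ w i j) v u = _
  rw [(h3 i j).fderiv]
  simp only [Matrix.mul_apply, Matrix.transpose_apply, ContinuousLinearMap.sum_apply,
    ContinuousLinearMap.smul_apply, ContinuousLinearMap.comp_apply, smul_eq_mul, ML_apply, DM,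
    Matrix.of_apply]
  refine Finset.sum_congr rfl fun b _ => ?_
  rw [mul_comm]

theorem XH_TT (σ : G →* GU κ) (ρ : G →* Matrix n n ℝ)
    {K : (κ ⊕ Unit → ℂ) → Matrix n n ℝ} (γ : G) (g : GU κ) (p : κ × Bool)
    (hd : ∀ i j, DifferentiableAt ℝ (fun w => K w i j) (σ γ⁻¹ * g).pt) :
    Pool.Agent.MPd01a95.XH (TT σ ρ K γ) p g =
      (ρ γ⁻¹)ᵀ * Pool.Agent.MPd01a95.XH K p (σ γ⁻¹ * g) * ρ γ⁻¹ := by
  unfold Pool.Agent.MPd01a95.XH
  rw [pt_mul] at hd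
  rw [(DM_TT σ ρ γ g.pt (g.dir p) hd).2, pt_mul, dir_mul]

theorem H_TT {σ : G →* GU κ} {ρ : G →* Matrix n n ℝ} {H : (κ ⊕ Unit → ℂ) → Matrix n n ℝ}
    (hH : EqC σ ρ H) (γ : G) {v : κ ⊕ Unit → ℂ} (hv : v ∈ Cn κ) : TT σ ρ H γ v = H v := by
  have h1 := hH.eqv γ ((σ γ⁻¹).M *ᵥ v) (mulVec_Cn _ hv)
  rw [TT, ← h1, map_inv, M_inv_mulVec]

theorem XH_H {σ : G →* GU κ} {ρ : G →* Matrix n n ℝ} {H : (κ ⊕ Unit → ℂ) → Matrix n n ℝ}
    (hH : EqC σ ρ H) (γ : G) (g : GU κ) (p : κ × Bool)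
    (hd : ∀ i j, DifferentiableAt ℝ (fun w => H w i j) (σ γ⁻¹ * g).pt) :
    Pool.Agent.MPd01a95.XH H p g =
      (ρ γ⁻¹)ᵀ * Pool.Agent.MPd01a95.XH H p (σ γ⁻¹ * g) * ρ γ⁻¹ := by
  rw [← XH_TT σ ρ γ g p hd]
  ext i j
  rw [XH_def, XH_def]
  have : (fun w => H w i j) =ᶠ[𝓝 g.pt] fun w => TT σ ρ H γ w i j := by
    filter_upwards [open_Cn.mem_nhds (pt_Cn g)] with w hw
    rw [H_TT hH γ hw]
  rw [this.fderiv_eq]

theorem conj_step {P A X : Matrix n n ℝ} (hP : IsUnit P.det) :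
    (Pᵀ * A * P)⁻¹ * (Pᵀ * X * P) = P⁻¹ * (A⁻¹ * X) * P := by
  have h1 : (Pᵀ)⁻¹ * Pᵀ = 1 := Matrix.nonsing_inv_mul _ (by rwa [Matrix.det_transpose])
  rw [Matrix.mul_inv_rev, Matrix.mul_inv_rev]
  calc P⁻¹ * (A⁻¹ * Pᵀ⁻¹) * (Pᵀ * X * P) = P⁻¹ * (A⁻¹ * (Pᵀ⁻¹ * Pᵀ) * X) * P := by
        simp only [Matrix.mul_assoc]
    _ = _ := by rw [h1, Matrix.mul_one]

theorem conj_mul {P U V : Matrix n n ℝ} (hP : IsUnit P.det) :
    (P⁻¹ * U * P) * (P⁻¹ * V * P) = P⁻¹ * (U * V) * P := by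
  have h1 : P * P⁻¹ = 1 := Matrix.mul_nonsing_inv _ hP
  calc (P⁻¹ * U * P) * (P⁻¹ * V * P) = P⁻¹ * (U * (P * P⁻¹) * V) * P := by
        simp only [Matrix.mul_assoc]
    _ = _ := by rw [h1, Matrix.mul_one]

theorem conj_tr {P U : Matrix n n ℝ} (hP : IsUnit P.det) : (P⁻¹ * U * P).trace = U.trace := by
  have h1 : P * P⁻¹ = 1 := Matrix.mul_nonsing_inv _ hP
  rw [Matrix.mul_assoc, Matrix.trace_mul_comm, Matrix.mul_assoc, h1, Matrix.mul_one]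

theorem det_rho (ρ : G →* Matrix n n ℝ) (γ : G) : IsUnit (ρ γ).det := by
  have h : ρ γ * ρ γ⁻¹ = 1 := by rw [← map_mul, mul_inv_cancel, map_one]
  have h2 := congrArg Matrix.det h
  rw [Matrix.det_mul, Matrix.det_one] at h2
  exact IsUnit.of_mul_eq_one _ h2

theorem fv_TT {σ : G →* GU κ} {ρ : G →* Matrix n n ℝ} {H K : (κ ⊕ Unit → ℂ) → Matrix n n ℝ}
    (hH : EqC σ ρ H) (γ : G) (g : GU κ)
    (hd : ∀ i j, DifferentiableAt ℝ (fun w => H w i j) (σ γ⁻¹ * g).pt)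
    (hd' : ∀ i j, DifferentiableAt ℝ (fun w => K w i j) (σ γ⁻¹ * g).pt) :
    fv H (TT σ ρ K γ) g = fv H K (σ γ⁻¹ * g) := by
  have hP := det_rho ρ γ⁻¹
  set P := ρ γ⁻¹ with hPd
  set g' := σ γ⁻¹ * g with hg'
  have e1 : H g.pt = Pᵀ * H g'.pt * P := by
    rw [← H_TT hH γ (pt_Cn g), TT, hg', pt_mul]
  have e2 : TT σ ρ K γ g.pt = Pᵀ * K g'.pt * P := by
    rw [TT, hg', pt_mul]
  unfold fv
  refine Finset.sum_congr rfl fun p _ => ?_
  rw [XH_H hH γ g p hd, XH_TT σ ρ γ g p hd', e1, e2]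
  rw [← hPd, ← hg']
  set X := Pool.Agent.MPd01a95.XH H p g'
  set Y := Pool.Agent.MPd01a95.XH K p g'
  set A := H g'.pt
  set B := K g'.pt
  have h1 : (Pᵀ * A * P)⁻¹ * (Pᵀ * X * P) * (Pᵀ * A * P)⁻¹ * (Pᵀ * Y * P) =
      P⁻¹ * (A⁻¹ * X * (A⁻¹ * Y)) * P := by
    rw [Matrix.mul_assoc ((Pᵀ * A * P)⁻¹ * (Pᵀ * X * P)), conj_step hP, conj_step hP, conj_mul hP]
  have h2 : (Pᵀ * A * P)⁻¹ * (Pᵀ * X * P) * (Pᵀ * A * P)⁻¹ * (Pᵀ * X * P) * (Pᵀ * A * P)⁻¹ *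
      (Pᵀ * B * P) = P⁻¹ * (A⁻¹ * X * (A⁻¹ * X) * (A⁻¹ * B)) * P := by
    rw [Matrix.mul_assoc ((Pᵀ * A * P)⁻¹ * (Pᵀ * X * P) * (Pᵀ * A * P)⁻¹ * (Pᵀ * X * P)),
      Matrix.mul_assoc ((Pᵀ * A * P)⁻¹ * (Pᵀ * X * P)), conj_step hP, conj_step hP, conj_mul hP,
      conj_mul hP]
  rw [h1, h2, conj_tr hP, conj_tr hP]
  simp only [Matrix.mul_assoc]

/-- linearity of the first variation in the field -/
theorem fv_sum {H K : (κ ⊕ Unit → ℂ) → Matrix n n ℝ} (g : GU κ) (F : Finset G)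
    (T : G → (κ ⊕ Unit → ℂ) → Matrix n n ℝ)
    (h1 : K g.pt = ∑ γ ∈ F, T γ g.pt)
    (h2 : ∀ p, Pool.Agent.MPd01a95.XH K p g = ∑ γ ∈ F, Pool.Agent.MPd01a95.XH (T γ) p g) :
    fv H K g = ∑ γ ∈ F, fv H (T γ) g := by
  unfold fv
  rw [Finset.sum_comm]
  refine Finset.sum_congr rfl fun p _ => ?_
  rw [h1, h2, Matrix.mul_sum, Matrix.mul_sum, Matrix.trace_sum, Matrix.trace_sum,
    ← Finset.sum_sub_distrib]

/-! ### measurable functions which are bounded on a set -/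

/-- measurable and bounded on `B` -/
def Good (B : Set (GU κ)) (f : GU κ → ℝ) : Prop := Measurable f ∧ ∃ M : ℝ, ∀ g ∈ B, |f g| ≤ M

theorem Good.add {B : Set (GU κ)} {f f' : GU κ → ℝ} (h : Good B f) (h' : Good B f') :
    Good B (fun g => f g + f' g) := by
  obtain ⟨hm, M, hM⟩ := h
  obtain ⟨hm', M', hM'⟩ := h'
  exact ⟨hm.add hm', M + M', fun g hg => (abs_add_le _ _).trans (add_le_add (hM g hg) (hM' g hg))⟩

theorem Good.sub {B : Set (GU κ)} {f f' : GU κ → ℝ} (h : Good B f) (h' : Good B f') :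
    Good B (fun g => f g - f' g) := by
  obtain ⟨hm, M, hM⟩ := h
  obtain ⟨hm', M', hM'⟩ := h'
  exact ⟨hm.sub hm', M + M', fun g hg => (abs_sub _ _).trans (add_le_add (hM g hg) (hM' g hg))⟩

theorem Good.mul {B : Set (GU κ)} {f f' : GU κ → ℝ} (h : Good B f) (h' : Good B f') :
    Good B (fun g => f g * f' g) := by
  obtain ⟨hm, M, hM⟩ := h
  obtain ⟨hm', M', hM'⟩ := h'
  refine ⟨hm.mul hm', M * M', fun g hg => ?_⟩
  rw [abs_mul]
  exact mul_le_mul (hM g hg) (hM' g hg) (abs_nonneg _) ((abs_nonneg _).trans (hM g hg))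

theorem Good.sum {B : Set (GU κ)} {β : Type} (s : Finset β) {f : β → GU κ → ℝ}
    (h : ∀ b, Good B (f b)) : Good B (fun g => ∑ b ∈ s, f b g) := by
  classical
  induction s using Finset.induction_on with
  | empty => exact ⟨by simpa using measurable_const, 0, fun g _ => by simp⟩
  | insert b s hb ih =>
    have h1 := (h b).add ih
    have e : (fun g => ∑ b ∈ insert b s, f b g) = fun g => f b g + ∑ b ∈ s, f b g := by
      ext g; rw [Finset.sum_insert hb]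
    rw [e]; exact h1

theorem Good.of_cont {B : Set (GU κ)} (hB : IsCompact B) {f : GU κ → ℝ} (h : Continuous f) :
    Good B f := by
  refine ⟨h.measurable, ?_⟩
  obtain ⟨M, hM⟩ := (hB.image h.abs).bddAbove
  exact ⟨M, fun g hg => hM ⟨g, hg, rfl⟩⟩

theorem Good.mmul {B : Set (GU κ)} {A A' : GU κ → Matrix n n ℝ}
    (h : ∀ i j, Good B (fun g => A g i j)) (h' : ∀ i j, Good B (fun g => A' g i j)) (i j : n) :
    Good B (fun g => (A g * A' g) i j) := by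
  simp only [Matrix.mul_apply]
  exact Good.sum _ fun b => (h i b).mul (h' b j)

theorem good_fderiv {B : Set (GU κ)} (hB : IsCompact B) {f : (κ ⊕ Unit → ℂ) → ℝ}
    (hf : ∀ v ∈ Cn κ, LAt f v) (p : κ × Bool) : Good B fun g => fderiv ℝ f g.pt (g.dir p) := by
  refine ⟨meas_fderiv f p, ?_⟩
  have hC : IsCompact (GU.pt '' B) := hB.image continuous_pt
  obtain ⟨L, hL0, hL⟩ := fderiv_bdd hC (f := f) (by
    rintro v ⟨g, -, rfl⟩
    exact hf _ (pt_Cn g))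
  obtain ⟨M, hM⟩ := (hB.image (continuous_dir p).norm).bddAbove
  refine ⟨L * M, fun g hg => ?_⟩
  calc |fderiv ℝ f g.pt (g.dir p)| = ‖fderiv ℝ f g.pt (g.dir p)‖ := rfl
    _ ≤ ‖fderiv ℝ f g.pt‖ * ‖g.dir p‖ := ContinuousLinearMap.le_opNorm _ _
    _ ≤ L * M := mul_le_mul (hL _ ⟨g, hg, rfl⟩) (hM ⟨g, hg, rfl⟩) (norm_nonneg _) hL0

theorem good_fv {σ : G →* GU κ} {ρ : G →* Matrix n n ℝ} {H K : (κ ⊕ Unit → ℂ) → Matrix n n ℝ}
    (hH : EqC σ ρ H) (hK : ∀ i j, ∀ v ∈ Cn κ, LAt (fun w => K w i j) v) {B : Set (GU κ)}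
    (hB : IsCompact B) : Good B (fv H K) := by
  have hI : ∀ i j, Good B fun g : GU κ => (H g.pt)⁻¹ i j := fun i j =>
    Good.of_cont hB ((continuous_apply j).comp ((continuous_apply i).comp (cont_inv hH)))
  have hX : ∀ p i j, Good B fun g => Pool.Agent.MPd01a95.XH H p g i j := fun p i j =>
    good_fderiv hB (lat hH i j) p
  have hY : ∀ p i j, Good B fun g => Pool.Agent.MPd01a95.XH K p g i j := fun p i j =>
    good_fderiv hB (hK i j) p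
  have hKc : ∀ i j, Good B fun g : GU κ => K g.pt i j := fun i j =>
    Good.of_cont hB (cont_entry (hK i j))
  unfold fv
  refine Good.sum _ fun p => Good.sub ?_ ?_
  · simp only [Matrix.trace, Matrix.diag_apply]
    refine Good.sum _ fun i => ?_
    exact Good.mmul (Good.mmul (Good.mmul hI (hX p)) hI) (hY p) i i
  · simp only [Matrix.trace, Matrix.diag_apply]
    refine Good.sum _ fun i => ?_
    exact Good.mmul (Good.mmul (Good.mmul (Good.mmul (Good.mmul hI (hX p)) hI) (hX p)) hI) hKc i i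

/-! ### unfolding -/

theorem chi_le {σ : G →* GU κ} {χ : GU κ → ℝ} (hχ : Cut σ χ) (g : GU κ) : χ g ≤ 1 := by
  have h1 := ENNReal.le_tsum (f := fun γ => ENNReal.ofReal (χ (σ γ * g))) 1
  rw [hχ.sum g] at h1
  simp only [map_one, one_mul] at h1
  exact ENNReal.ofReal_le_one.mp h1

theorem unfold_real {σ : G →* GU κ} {χ : GU κ → ℝ} (hχ : Cut σ χ)
    (μ : Measure (GU κ)) [IsHaarMeasure μ] {l : GU κ → ℝ} (hl : Integrable l μ) (F : Finset G)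
    (hF : ∀ g, l g ≠ 0 → ∀ γ, χ (σ γ * g) ≠ 0 → γ ∈ F) :
    ∫ g, χ g * ∑ γ ∈ F, l (σ γ⁻¹ * g) ∂μ = ∫ g, l g ∂μ := by
  have hint : ∀ γ, Integrable (fun g => χ (σ γ * g) * l g) μ := by
    intro γ
    refine hl.bdd_mul (c := 1) ((hχ.cont.comp (continuous_const.mul continuous_id)).aestronglyMeasurable) ?_
    filter_upwards with g
    rw [Real.norm_eq_abs, abs_of_nonneg (hχ.nonneg _)]
    exact chi_le hχ _
  have h1 : ∀ γ, ∫ g, χ g * l (σ γ⁻¹ * g) ∂μ = ∫ g, χ (σ γ * g) * l g ∂μ := by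
    intro γ
    rw [← integral_mul_left_eq_self (fun g => χ (σ γ * g) * l g) (σ γ⁻¹)]
    simp only [sig_inv]
  have hint2 : ∀ γ, Integrable (fun g => χ g * l (σ γ⁻¹ * g)) μ := by
    intro γ
    have := (hint γ).comp_mul_left (σ γ⁻¹)
    simpa only [sig_inv] using this
  simp only [Finset.mul_sum]
  rw [integral_finset_sum _ fun γ _ => hint2 γ]
  simp only [h1]
  rw [← integral_finset_sum _ fun γ _ => hint γ]
  congr 1
  ext g
  rw [← Finset.sum_mul]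
  by_cases hg : l g = 0
  · rw [hg, mul_zero]
  · have h2 := hχ.sum g
    have h3 : ∑' γ, ENNReal.ofReal (χ (σ γ * g)) = ∑ γ ∈ F, ENNReal.ofReal (χ (σ γ * g)) := by
      refine tsum_eq_sum fun γ hγ => ?_
      have : χ (σ γ * g) = 0 := by
        by_contra hcon
        exact hγ (hF g hg γ hcon)
      rw [this, ENNReal.ofReal_zero]
    rw [h3, ← ENNReal.ofReal_sum_of_nonneg fun γ _ => hχ.nonneg _] at h2
    have h4 : ∑ γ ∈ F, χ (σ γ * g) = 1 := ENNReal.ofReal_eq_one.mp h2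
    rw [h4, one_mul]

/-! ### the sum of the translates -/

section kg

variable {σ : G →* GU κ} (hL : Lat σ) (ρ : G →* Matrix n n ℝ)
  {K : (κ ⊕ Unit → ℂ) → Matrix n n ℝ}
  (hhom : ∀ v ∈ Cn κ, ∀ l : ℂ, l ≠ 0 → K (l • v) = K v)
  {R : ℝ} (hR : ∀ g : GU κ, K g.pt ≠ 0 → c g ≤ R)

include hL in
theorem fin_S (R S : ℝ) : {γ : G | ∃ g : GU κ, c g ≤ S ∧ c (σ γ⁻¹ * g) ≤ R}.Finite := by
  have h1 := hL.finite_meet R S
  have h2 : {γ : G | ∃ g : GU κ, c g ≤ S ∧ c (σ γ⁻¹ * g) ≤ R} =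
      (fun γ => γ⁻¹) ⁻¹' {γ : G | ∃ g : GU κ, c g ≤ S ∧ c (σ γ * g) ≤ R} := rfl
  rw [h2]
  exact h1.preimage (inv_injective.injOn)

include hhom hR

theorem TT_zero {S : ℝ} (hS : 0 ≤ S) {v : κ ⊕ Unit → ℂ} (hv : v ∈ Cn κ) (hq : qv v ≤ S ^ 2)
    {γ : G} (hγ : ¬ ∃ g : GU κ, c g ≤ S ∧ c (σ γ⁻¹ * g) ≤ R) : TT σ ρ K γ v = 0 := by
  obtain ⟨g, l, hl, rfl⟩ := ex_pt hv
  rw [qv_pt g hl] at hq
  have h1 : c g ≤ S := by
    have := c_ge_one g
    exact (pow_le_pow_iff_left₀ (by linarith) hS two_ne_zero).mp hq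
  have h2 : K (σ γ⁻¹ * g).pt = 0 := by
    by_contra hcon
    exact hγ ⟨g, h1, hR _ hcon⟩
  rw [TT, Matrix.mulVec_smul, hhom _ (mulVec_Cn _ (pt_Cn g)) l hl, ← pt_mul, h2, Matrix.mul_zero,
    Matrix.zero_mul]

theorem KG_eq {S : ℝ} (hS : 0 ≤ S) {F : Finset G}
    (hF : ∀ γ, (∃ g : GU κ, c g ≤ S ∧ c (σ γ⁻¹ * g) ≤ R) → γ ∈ F) {v : κ ⊕ Unit → ℂ}
    (hv : v ∈ Cn κ) (hq : qv v ≤ S ^ 2) : KG σ ρ K v = ∑ γ ∈ F, TT σ ρ K γ v := by
  rw [KG]
  refine finsum_eq_sum_of_support_subset _ ?_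
  intro γ hγ
  by_contra hcon
  exact hγ (TT_zero ρ hhom hR hS hv hq fun h => hcon (hF γ h))

include hL in
theorem TT_fin {v : κ ⊕ Unit → ℂ} (hv : v ∈ Cn κ) :
    (Function.support fun γ => TT σ ρ K γ v).Finite := by
  have hq0 : 0 ≤ qv v := div_nonneg (by positivity) (show (0 : ℝ) < LowAux.nqC v from hv).le
  refine (fin_S hL R (Real.sqrt (qv v))).subset ?_
  intro γ hγ
  by_contra hcon
  exact hγ (TT_zero ρ hhom hR (Real.sqrt_nonneg _) hv (by rw [Real.sq_sqrt hq0]) hcon)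

include hL in
theorem KG_near (S : ℝ) (hS : 0 ≤ S) : ∃ F : Finset G,
    (∀ γ, (∃ g : GU κ, c g ≤ S ∧ c (σ γ⁻¹ * g) ≤ R) → γ ∈ F) ∧
    ∀ v ∈ Cn κ, qv v < S ^ 2 → (fun w => KG σ ρ K w) =ᶠ[𝓝 v] fun w => ∑ γ ∈ F, TT σ ρ K γ w := by
  have h1 := fin_S (σ := σ) hL R S
  refine ⟨h1.toFinset, fun γ hγ => h1.mem_toFinset.mpr hγ, fun v hv hq => ?_⟩
  have h2 : ∀ᶠ w in 𝓝 v, qv w < S ^ 2 :=
    (qv_cont.continuousAt (open_Cn.mem_nhds hv)).eventually (gt_mem_nhds hq)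
  filter_upwards [h2, open_Cn.mem_nhds hv] with w hw hw2
  exact KG_eq ρ hhom hR hS (fun γ hγ => h1.mem_toFinset.mpr hγ) hw2 hw.le

include hL in
theorem KG_SyC (hs : ∀ v ∈ Cn κ, (K v)ᵀ = K v)
    (hlip : ∀ i j, ∀ v ∈ Cn κ, LAt (fun w => K w i j) v) : SyC σ ρ (KG σ ρ K) := by
  constructor
  · intro v hv
    have h1 := TT_fin hL ρ hhom hR hv
    rw [KG]
    have h2 := (Matrix.transposeAddEquiv n n ℝ).toAddMonoidHom.map_finsum h1
    have h3 : (∑ᶠ γ, TT σ ρ K γ v)ᵀ = ∑ᶠ γ, (TT σ ρ K γ v)ᵀ := h2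
    rw [h3]
    congr 1
    ext1 γ
    rw [TT, Matrix.transpose_mul, Matrix.transpose_mul, Matrix.transpose_transpose,
      hs _ (mulVec_Cn _ hv), Matrix.mul_assoc]
  · intro v hv l hl
    rw [KG, KG]
    congr 1
    ext1 γ
    rw [TT, TT, Matrix.mulVec_smul, hhom _ (mulVec_Cn _ hv) l hl]
  · intro γ₀ v hv
    have h1 := TT_fin hL ρ hhom hR hv
    have h2 : ∀ γ, TT σ ρ K (γ₀ * γ) ((σ γ₀).M *ᵥ v) = (ρ γ₀⁻¹)ᵀ * TT σ ρ K γ v * ρ γ₀⁻¹ := by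
      intro γ
      have e1 : (σ (γ₀ * γ)⁻¹).M *ᵥ ((σ γ₀).M *ᵥ v) = (σ γ⁻¹).M *ᵥ v := by
        rw [_root_.mul_inv_rev, map_mul, M_mul, ← Matrix.mulVec_mulVec, map_inv σ γ₀, inv_M_mulVec]
      rw [TT, TT, e1, _root_.mul_inv_rev, map_mul, Matrix.transpose_mul]
      simp only [Matrix.mul_assoc]
    have h3 : KG σ ρ K ((σ γ₀).M *ᵥ v) = ∑ᶠ γ, (ρ γ₀⁻¹)ᵀ * TT σ ρ K γ v * ρ γ₀⁻¹ := by
      rw [KG, ← finsum_comp_equiv (Equiv.mulLeft γ₀)]
      congr 1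
      ext1 γ
      exact h2 γ
    rw [h3, KG]
    have h4 : (fun γ => (ρ γ₀⁻¹)ᵀ * TT σ ρ K γ v * ρ γ₀⁻¹) =
        fun γ => ((AddMonoidHom.mulRight (ρ γ₀⁻¹)).comp (AddMonoidHom.mulLeft (ρ γ₀⁻¹)ᵀ))
          (TT σ ρ K γ v) := rfl
    rw [h4, ← AddMonoidHom.map_finsum _ h1]
    rfl
  · intro v hv
    have hq0 : 0 ≤ qv v := div_nonneg (by positivity) (show (0 : ℝ) < LowAux.nqC v from hv).le
    set S : ℝ := Real.sqrt (qv v + 1) with hS
    have hS2 : S ^ 2 = qv v + 1 := Real.sq_sqrt (by linarith)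
    obtain ⟨F, -, hF2⟩ := KG_near hL ρ hhom hR S (Real.sqrt_nonneg _)
    have h1 := hF2 v hv (by rw [hS2]; linarith)
    have h2 : ∀ i j, LAt (fun w => KG σ ρ K w i j) v := by
      intro i j
      have h3 : LAt (fun w => ∑ γ ∈ F, TT σ ρ K γ w i j) v :=
        LAt.sum F fun γ _ => TT_lat σ ρ hlip γ i j v hv
      refine h3.congr ?_
      filter_upwards [h1] with w hw
      rw [hw, Matrix.sum_apply]
    choose L U hU hLU using h2
    refine ⟨∑ i, ∑ j, L i j, ⋂ i, ⋂ j, U i j, ?_, fun i j => ?_⟩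
    · exact Filter.iInter_mem.mpr fun i => Filter.iInter_mem.mpr fun j => hU i j
    · refine ((hLU i j).mono ((Set.iInter_subset (fun i => ⋂ j, U i j) i).trans
        (Set.iInter_subset (fun j => U i j) j))).weaken ?_
      exact (Finset.single_le_sum (f := fun j => L i j) (fun j _ => bot_le) (Finset.mem_univ j)).trans
        (Finset.single_le_sum (f := fun i => ∑ j, L i j) (fun i _ => bot_le) (Finset.mem_univ i))

end kg

end FV2Aux

open FV2Aux LocLip Mol5Aux in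
/-- module FV2: compactly supported variations -/
theorem first_var_c {σ : G →* GU κ} (hL : Lat σ)
    (μ : Measure (GU κ)) [IsHaarMeasure μ] {χ : GU κ → ℝ} (hχ : Cut σ χ)
    (ρ : G →* Matrix n n ℝ) {H : (κ ⊕ Unit → ℂ) → Matrix n n ℝ} (hH : EqC σ ρ H)
    (hfv : ∀ K, SyC σ ρ K → ∫ g, χ g * fv H K g ∂μ = 0)
    {K : (κ ⊕ Unit → ℂ) → Matrix n n ℝ} (hs : ∀ v ∈ Cn κ, (K v)ᵀ = K v)
    (hhom : ∀ v ∈ Cn κ, ∀ l : ℂ, l ≠ 0 → K (l • v) = K v)
    (hlip : ∀ v ∈ Cn κ, ∃ L : ℝ≥0, ∃ U ∈ 𝓝 v, ∀ i j, LipschitzOnWith L (fun w => K w i j) U)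
    (hsupp : ∃ R : ℝ, ∀ g : GU κ, K g.pt ≠ 0 → c g ≤ R) :
    ∫ g, fv H K g ∂μ = 0 := by
  haveI := hL.countable
  haveI := right_inv hL μ
  obtain ⟨R, hR⟩ := hsupp
  obtain ⟨R', hR'⟩ := hχ.supp
  have hlat : ∀ i j, ∀ v ∈ Cn κ, LAt (fun w => K w i j) v := by
    intro i j v hv
    obtain ⟨L, U, hU, hL⟩ := hlip v hv
    exact ⟨L, U, hU, hL i j⟩
  have hB := isCompact_c (κ := κ) R
  have hgood := good_fv hH hlat hB
  -- vanishing outside the support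
  have hzero : ∀ g : GU κ, R < c g → fv H K g = 0 := by
    intro g hg
    have h1 : ∀ᶠ w in 𝓝 g.pt, K w = 0 := by
      have h2 : ∀ᶠ w in 𝓝 g.pt, R < Real.sqrt (qv w) := by
        have h3 : ContinuousAt (fun w => Real.sqrt (qv w)) g.pt :=
          (qv_cont.continuousAt (open_Cn.mem_nhds (pt_Cn g))).sqrt
        refine h3.eventually (lt_mem_nhds ?_)
        change R < Real.sqrt (qv g.pt)
        rw [qv_pt', Real.sqrt_sq (by linarith [c_ge_one g])]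
        exact hg
      filter_upwards [h2, open_Cn.mem_nhds (pt_Cn g)] with w hw hw2
      obtain ⟨g', l, hl, rfl⟩ := ex_pt hw2
      rw [qv_pt g' hl, Real.sqrt_sq (by linarith [c_ge_one g'])] at hw
      rw [hhom _ (pt_Cn g') l hl]
      by_contra hcon
      exact absurd (hR g' hcon) (not_le.mpr hw)
    have h2 : K g.pt = 0 := h1.self_of_nhds
    have h3 : ∀ p, Pool.Agent.MPd01a95.XH K p g = 0 := by
      intro p
      ext i j
      rw [XH_def]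
      have h4 : (fun w => K w i j) =ᶠ[𝓝 g.pt] fun _ => (0 : ℝ) := by
        filter_upwards [h1] with w hw
        rw [hw]; rfl
      rw [h4.fderiv_eq]
      simp
    unfold fv
    refine Finset.sum_eq_zero fun p _ => ?_
    rw [h2, h3]
    simp
  have hint : Integrable (fv H K) μ := by
    obtain ⟨M, hM⟩ := hgood.2
    have h1 : IntegrableOn (fv H K) {g : GU κ | c g ≤ R} μ := by
      refine Measure.integrableOn_of_bounded (M := M) hB.measure_lt_top.ne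
        hgood.1.aestronglyMeasurable ?_
      filter_upwards [ae_restrict_mem hB.measurableSet] with g hg
      exact hM g hg
    refine (integrableOn_iff_integrable_of_support_subset ?_).mp h1
    intro g hg
    by_contra hcon
    exact hg (hzero g (not_le.mp hcon))
  set S : ℝ := max R' 0 + 1 with hSd
  have hS0 : 0 ≤ S := by positivity
  obtain ⟨F, hF1, hF2⟩ := KG_near hL ρ hhom hR S hS0
  rw [← unfold_real hχ μ hint F ?_, ← hfv _ (KG_SyC hL ρ hhom hR hs hlat)]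
  · have hdH := ae_diff hH μ
    have hdK : ∀ᵐ g ∂μ, ∀ i j, DifferentiableAt ℝ (fun w => K w i j) g.pt := by
      refine ae_all_iff.mpr fun i => ae_all_iff.mpr fun j => ?_
      refine AediffAux.ae_diff_scalar (hlat i j) ?_ μ
      intro v hv l hl
      change K (l • v) i j = K v i j
      rw [hhom v hv l hl]
    have hd : ∀ᵐ g ∂μ, ∀ γ : G, (∀ i j, DifferentiableAt ℝ (fun w => H w i j) (σ γ⁻¹ * g).pt) ∧
        ∀ i j, DifferentiableAt ℝ (fun w => K w i j) (σ γ⁻¹ * g).pt := by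
      refine ae_all_iff.mpr fun γ => ?_
      exact (measurePreserving_mul_left μ (σ γ⁻¹)).quasiMeasurePreserving.ae (hdH.and hdK)
    refine integral_congr_ae ?_
    filter_upwards [hd] with g hg
    by_cases hc : χ g = 0
    · rw [hc, zero_mul, zero_mul]
    · have h1 : c g < S := by
        have := hR' g hc
        rw [hSd]
        linarith [le_max_left R' 0]
      have h2 : qv g.pt < S ^ 2 := by
        rw [qv_pt']
        exact pow_lt_pow_left₀ h1 (by linarith [c_ge_one g]) two_ne_zero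
      have h3 := hF2 g.pt (pt_Cn g) h2
      congr 1
      rw [fv_sum g F (TT σ ρ K) h3.self_of_nhds]
      · refine Finset.sum_congr rfl fun γ _ => ?_
        exact (fv_TT hH γ g (hg γ).1 (hg γ).2).symm
      · intro p
        have hdT : ∀ γ i j, DifferentiableAt ℝ (fun w => TT σ ρ K γ w i j) g.pt := by
          intro γ i j
          have := (hg γ).2
          rw [pt_mul] at this
          exact (DM_TT σ ρ γ g.pt (g.dir p) this).1 i j
        ext i j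
        rw [XH_def, Matrix.sum_apply]
        have h4 : (fun w => KG σ ρ K w i j) =ᶠ[𝓝 g.pt] fun w => ∑ γ ∈ F, TT σ ρ K γ w i j := by
          filter_upwards [h3] with w hw
          rw [hw, Matrix.sum_apply]
        rw [h4.fderiv_eq, fderiv_fun_sum fun γ _ => hdT γ i j]
        simp only [ContinuousLinearMap.sum_apply, XH_def]
  · intro g hg γ hγ
    have h1 : c g ≤ R := by
      by_contra hcon
      exact hg (hzero g (not_le.mp hcon))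
    refine hF1 γ ⟨σ γ * g, ?_, ?_⟩
    · have := hR' _ hγ
      rw [hSd]
      linarith [le_max_left R' 0]
    · rw [sig_inv']; exact h1

end Pool.Agent.MPd01a95
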