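import Mathlib
import Pool.Agent.Lib.MP_d01a95_gt_H.HDefs
import Pool.Agent.Lib.MP_d01a95_gt_H.HDefs2
import Pool.Agent.Lib.MP_d01a95_gt_H.Unimod
import Pool.Agent.Lib.MP_d01a95_gt_H.Cone
import Pool.Agent.Lib.MP_d01a95_gt_H.Mcalc
import Pool.Agent.Lib.MP_d01a95_gt_H.Ker
import Pool.Agent.Lib.MP_d01a95_gt_H.Aediff

/-! Module FV3 of project HARMONIC: the weak form of the harmonic map equation. -/

set_option autoImplicit false
set_option linter.all false

open Matrix Filter Topology MeasureTheory Measure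
open scoped ENNReal NNReal ContDiff

namespace Pool.Agent.MPd01a95

open GU

variable {κ n ι α : Type} [Fintype κ] [DecidableEq κ] [Fintype n] [DecidableEq n]
  [Fintype ι] [DecidableEq ι] [Fintype α] [DecidableEq α] {G : Type} [Group G]

namespace FV3Aux

/-! ### derivatives along the boosts -/

theorem boM_ej (t : ℝ) (p : κ × Bool) : boM t p *ᵥ (wb p.2 • ej p.1) =
    (Real.sinh t : ℂ) • e0 + (Real.cosh t : ℂ) • (wb p.2 • ej p.1) := by
  have h1 : PM p *ᵥ ej p.1 = ej p.1 := by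
    rw [PM, Matrix.add_mulVec, Matrix.vecMulVec_mulVec, Matrix.vecMulVec_mulVec, ej_ej, e0_ej]
    simp
  have h2 : XM p *ᵥ ej p.1 = star (wb p.2) • e0 := by
    rw [XM, Matrix.add_mulVec, Matrix.smul_mulVec, Matrix.smul_mulVec, Matrix.vecMulVec_mulVec,
      Matrix.vecMulVec_mulVec, ej_ej, e0_ej]
    simp
  have h3 := wb_mul p.2
  rw [boM, Matrix.add_mulVec, Matrix.add_mulVec, Matrix.smul_mulVec, Matrix.smul_mulVec]
  simp only [Matrix.mulVec_smul, h1, h2, Matrix.one_mulVec]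
  rw [smul_smul (wb p.2), h3, one_smul]
  push_cast
  module

theorem pt_bo (g : GU κ) (p : κ × Bool) (t : ℝ) :
    (g * bo t p).pt = Real.cosh t • g.pt + Real.sinh t • g.dir p := by
  have h : (g * bo t p).pt = (Real.cosh t : ℂ) • g.pt + (Real.sinh t : ℂ) • g.dir p := by
    rw [GU.pt, GU.pt, GU.dir, M_mul, ← Matrix.mulVec_mulVec, bo_M, boM_e0, Matrix.mulVec_add,
      Matrix.mulVec_smul, mul_smul, Matrix.mulVec_smul]
  rw [h]
  ext i
  simp [Complex.real_smul]

theorem dir_bo (g : GU κ) (p : κ × Bool) (t : ℝ) :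
    (g * bo t p).dir p = Real.sinh t • g.pt + Real.cosh t • g.dir p := by
  have h : (g * bo t p).dir p = (Real.sinh t : ℂ) • g.pt + (Real.cosh t : ℂ) • g.dir p := by
    rw [GU.pt, GU.dir, GU.dir, M_mul, ← Matrix.mulVec_mulVec, bo_M, boM_ej, Matrix.mulVec_add,
      Matrix.mulVec_smul, Matrix.mulVec_smul]
  rw [h]
  ext i
  simp [Complex.real_smul]

theorem hasDerivAt_pt (g : GU κ) (p : κ × Bool) (t : ℝ) :
    HasDerivAt (fun t : ℝ => (g * bo t p).pt) ((g * bo t p).dir p) t := by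
  simp only [pt_bo, dir_bo]
  exact ((Real.hasDerivAt_cosh t).smul_const _).add ((Real.hasDerivAt_sinh t).smul_const _)

theorem hasDerivAt_dir (g : GU κ) (p : κ × Bool) (t : ℝ) :
    HasDerivAt (fun t : ℝ => (g * bo t p).dir p) ((g * bo t p).pt) t := by
  simp only [pt_bo, dir_bo]
  exact ((Real.hasDerivAt_sinh t).smul_const _).add ((Real.hasDerivAt_cosh t).smul_const _)

theorem continuous_pt : Continuous fun g : GU κ => g.pt := by
  unfold GU.pt
  exact continuous_M.matrix_mulVec continuous_const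

theorem continuous_dir (p : κ × Bool) : Continuous fun g : GU κ => g.dir p := by
  unfold GU.dir
  exact continuous_M.matrix_mulVec continuous_const

/-! ### the kernel -/

theorem nqC_cd : ContDiff ℝ ∞ (LowAux.nqC : (κ ⊕ Unit → ℂ) → ℝ) := by
  unfold LowAux.nqC
  refine ContDiff.sub ?_ (ContDiff.sum fun i _ => ?_)
  · exact (contDiff_apply ℝ ℂ (Sum.inr ())).norm_sq ℝ
  · exact (contDiff_apply ℝ ℂ (Sum.inl i)).norm_sq ℝ

theorem sv_cd (v : κ ⊕ Unit → ℂ) (hv : v ∈ Cn κ) :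
    ContDiffOn ℝ ∞ (fun w => sv v w) (Cn κ) := by
  unfold sv
  refine ContDiffOn.div ?_ ?_ ?_
  · refine ContDiff.contDiffOn ?_
    refine ContDiff.norm_sq ℝ ?_
    unfold hf
    refine ContDiff.sub ?_ (ContDiff.sum fun i _ => ?_)
    · exact contDiff_const.mul (contDiff_apply ℝ ℂ (Sum.inr ()))
    · exact contDiff_const.mul (contDiff_apply ℝ ℂ (Sum.inl i))
  · exact (contDiff_const.mul nqC_cd).contDiffOn
  · intro w hw
    have h1 : 0 < LowAux.nqC v := hv
    have h2 : 0 < LowAux.nqC w := hw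
    positivity

/-- the kernel, as a function of the second variable -/
noncomputable def Bf (β : ℝ → ℝ) (v w : κ ⊕ Unit → ℂ) : ℝ := β (sv v w)

/-- first derivative along the boost -/
noncomputable def b1 (β : ℝ → ℝ) (v : κ ⊕ Unit → ℂ) (p : κ × Bool) (g : GU κ) : ℝ :=
  fderiv ℝ (Bf β v) g.pt (g.dir p)

/-- second derivative along the boost -/
noncomputable def b2 (β : ℝ → ℝ) (v : κ ⊕ Unit → ℂ) (p : κ × Bool) (g : GU κ) : ℝ :=
  fderiv ℝ (fderiv ℝ (Bf β v)) g.pt (g.dir p) (g.dir p) + fderiv ℝ (Bf β v) g.pt g.pt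

section kernel

variable {β : ℝ → ℝ} (hβ : ContDiff ℝ ∞ β) {v : κ ⊕ Unit → ℂ} (hv : v ∈ Cn κ)

include hβ hv

theorem Bf_cd : ContDiffOn ℝ ∞ (Bf β v) (Cn κ) := hβ.comp_contDiffOn (sv_cd v hv)

theorem Bf_d1 (g : GU κ) : HasFDerivAt (Bf β v) (fderiv ℝ (Bf β v) g.pt) g.pt :=
  (((Bf_cd hβ hv).contDiffAt (isOpen_Cn.mem_nhds (pt_mem g).1)).differentiableAt
    (by simp)).hasFDerivAt

theorem dBf_cd : ContDiffOn ℝ ∞ (fderiv ℝ (Bf β v)) (Cn κ) :=
  (Bf_cd hβ hv).fderiv_of_isOpen isOpen_Cn (by simp)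

theorem Bf_d2 (g : GU κ) : HasFDerivAt (fderiv ℝ (Bf β v))
    (fderiv ℝ (fderiv ℝ (Bf β v)) g.pt) g.pt :=
  (((dBf_cd hβ hv).contDiffAt (isOpen_Cn.mem_nhds (pt_mem g).1)).differentiableAt
    (by simp)).hasFDerivAt

theorem ddBf_cd : ContDiffOn ℝ ∞ (fderiv ℝ (fderiv ℝ (Bf β v))) (Cn κ) :=
  (dBf_cd hβ hv).fderiv_of_isOpen isOpen_Cn (by simp)

theorem hasDerivAt_b0 (g : GU κ) (p : κ × Bool) (t : ℝ) :
    HasDerivAt (fun t : ℝ => β (sv v (g * bo t p).pt)) (b1 β v p (g * bo t p)) t := by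
  have h1 : HasDerivAt (fun t : ℝ => Bf β v (g * bo t p).pt)
      (fderiv ℝ (Bf β v) (g * bo t p).pt ((g * bo t p).dir p)) t :=
    HasFDerivAt.comp_hasDerivAt (l := Bf β v) (l' := fderiv ℝ (Bf β v) (g * bo t p).pt)
      (f := fun t : ℝ => (g * bo t p).pt) t (Bf_d1 hβ hv (g * bo t p)) (hasDerivAt_pt g p t)
  exact h1

theorem hasDerivAt_b1 (g : GU κ) (p : κ × Bool) (t : ℝ) :
    HasDerivAt (fun t : ℝ => b1 β v p (g * bo t p)) (b2 β v p (g * bo t p)) t := by
  have h1 : HasDerivAt (fun t : ℝ => fderiv ℝ (Bf β v) (g * bo t p).pt)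
      (fderiv ℝ (fderiv ℝ (Bf β v)) (g * bo t p).pt ((g * bo t p).dir p)) t :=
    (Bf_d2 hβ hv (g * bo t p)).comp_hasDerivAt t (hasDerivAt_pt g p t)
  exact h1.clm_apply (hasDerivAt_dir g p t)

theorem iter2 (g : GU κ) (p : κ × Bool) :
    iteratedDeriv 2 (fun t : ℝ => β (sv v (g * bo t p).pt)) 0 = b2 β v p g := by
  have h1 : deriv (fun t : ℝ => β (sv v (g * bo t p).pt)) = fun t => b1 β v p (g * bo t p) :=
    funext fun t => (hasDerivAt_b0 hβ hv g p t).deriv
  have h2 := (hasDerivAt_b1 hβ hv g p 0).deriv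
  rw [bo_zero, mul_one] at h2
  rw [iteratedDeriv_succ, iteratedDeriv_one, h1, h2]

theorem continuous_b0 : Continuous fun g : GU κ => β (sv v g.pt) := by
  refine hβ.continuous.comp ?_
  exact (sv_cd v hv).continuousOn.comp_continuous continuous_pt fun g => (pt_mem g).1

theorem continuous_b1 (p : κ × Bool) : Continuous (b1 β v p) := by
  have h1 : Continuous fun g : GU κ => fderiv ℝ (Bf β v) g.pt :=
    (dBf_cd hβ hv).continuousOn.comp_continuous continuous_pt fun g => (pt_mem g).1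
  exact h1.clm_apply (continuous_dir p)

theorem continuous_b2 (p : κ × Bool) : Continuous (b2 β v p) := by
  have h1 : Continuous fun g : GU κ => fderiv ℝ (Bf β v) g.pt :=
    (dBf_cd hβ hv).continuousOn.comp_continuous continuous_pt fun g => (pt_mem g).1
  have h2 : Continuous fun g : GU κ => fderiv ℝ (fderiv ℝ (Bf β v)) g.pt :=
    (ddBf_cd hβ hv).continuousOn.comp_continuous continuous_pt fun g => (pt_mem g).1
  exact ((h2.clm_apply (continuous_dir p)).clm_apply (continuous_dir p)).add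
    (h1.clm_apply continuous_pt)

omit hβ in
/-- the kernel vanishes near the points outside of its support -/
theorem Bf_ev {g : GU κ} (hg : sv v g.pt ∉ tsupport β) : Bf β v =ᶠ[𝓝 g.pt] fun _ => 0 := by
  have h1 : ContinuousAt (fun w => sv v w) g.pt :=
    (sv_cd v hv).continuousOn.continuousAt (isOpen_Cn.mem_nhds (pt_mem g).1)
  have h2 : β =ᶠ[𝓝 (sv v g.pt)] fun _ => 0 := by
    have := (isClosed_tsupport β).isOpen_compl.mem_nhds hg
    filter_upwards [this] with s hs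
    exact image_eq_zero_of_notMem_tsupport hs
  exact h1.eventually h2

omit hβ in
theorem b0_zero {g : GU κ} (hg : sv v g.pt ∉ tsupport β) : β (sv v g.pt) = 0 :=
  image_eq_zero_of_notMem_tsupport hg

omit hβ in
theorem b1_zero {g : GU κ} (hg : sv v g.pt ∉ tsupport β) (p : κ × Bool) : b1 β v p g = 0 := by
  unfold b1
  rw [(Bf_ev hv hg).fderiv_eq]
  simp

omit hβ in
theorem b2_zero {g : GU κ} (hg : sv v g.pt ∉ tsupport β) (p : κ × Bool) : b2 β v p g = 0 := by
  unfold b2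
  have h1 := (Bf_ev hv hg).fderiv (𝕜 := ℝ)
  rw [(Bf_ev hv hg).fderiv_eq, h1.fderiv_eq]
  simp

omit hβ in
/-- the kernel has compact support on the group -/
theorem exists_supp (hβc : HasCompactSupport β) :
    ∃ B : Set (GU κ), IsCompact B ∧ ∀ g ∉ B, sv v g.pt ∉ tsupport β := by
  obtain ⟨g₀, l, hl, rfl⟩ := exists_pt v hv
  obtain ⟨R, hR⟩ := (show IsCompact (tsupport β) from hβc).isBounded.exists_norm_le
  have h1 : ∀ g : GU κ, sv (l • g₀.pt) g.pt = c (g₀⁻¹ * g) ^ 2 := by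
    intro g
    have e1 : sv (l • g₀.pt) g.pt = sv g₀.pt g.pt := by
      have := sv_smul hl one_ne_zero g₀.pt g.pt
      rwa [one_smul] at this
    rw [e1, ← sv_e0, ← sv_inv g₀ e0]
    congr 1
    show g.pt = g₀.M *ᵥ ((g₀⁻¹ * g).M *ᵥ e0)
    rw [Matrix.mulVec_mulVec, ← M_mul, mul_inv_cancel_left]
    rfl
  refine ⟨(fun g => g₀ * g) '' {g : GU κ | c g ≤ R + 1}, (isCompact_c (R + 1)).image
    (continuous_const_mul g₀), fun g hg hs => hg ?_⟩
  refine ⟨g₀⁻¹ * g, ?_, by simp⟩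
  have h2 := hR _ hs
  rw [h1, Real.norm_eq_abs] at h2
  have h3 := le_of_abs_le h2
  have h4 := c_ge_one (g₀⁻¹ * g)
  show c (g₀⁻¹ * g) ≤ R + 1
  nlinarith

end kernel

/-! ### functions which are measurable and bounded on compact sets -/

/-- measurable functions, bounded on compact sets -/
def Gd (f : GU κ → ℝ) : Prop :=
  Measurable f ∧ ∀ B : Set (GU κ), IsCompact B → ∃ A : ℝ, ∀ g ∈ B, |f g| ≤ A

theorem Gd.of_cont {f : GU κ → ℝ} (hf : Continuous f) : Gd f := by
  refine ⟨hf.measurable, fun B hB => ?_⟩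
  obtain ⟨A, hA⟩ := hB.exists_bound_of_continuousOn hf.continuousOn
  exact ⟨A, fun g hg => hA g hg⟩

theorem Gd.mul {f f' : GU κ → ℝ} (hf : Gd f) (hf' : Gd f') : Gd fun g => f g * f' g := by
  refine ⟨hf.1.mul hf'.1, fun B hB => ?_⟩
  obtain ⟨A, hA⟩ := hf.2 B hB
  obtain ⟨A', hA'⟩ := hf'.2 B hB
  refine ⟨A * A', fun g hg => ?_⟩
  rw [abs_mul]
  exact mul_le_mul (hA g hg) (hA' g hg) (abs_nonneg _) ((abs_nonneg _).trans (hA g hg))

theorem Gd.add {f f' : GU κ → ℝ} (hf : Gd f) (hf' : Gd f') : Gd fun g => f g + f' g := by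
  refine ⟨hf.1.add hf'.1, fun B hB => ?_⟩
  obtain ⟨A, hA⟩ := hf.2 B hB
  obtain ⟨A', hA'⟩ := hf'.2 B hB
  exact ⟨A + A', fun g hg => (abs_add_le _ _).trans (add_le_add (hA g hg) (hA' g hg))⟩

theorem Gd.sum {ι' : Type} (s : Finset ι') {f : ι' → GU κ → ℝ} (hf : ∀ x ∈ s, Gd (f x)) :
    Gd fun g => ∑ x ∈ s, f x g := by
  classical
  induction s using Finset.induction_on with
  | empty => simpa using Gd.of_cont (κ := κ) continuous_const
  | insert a s ha ih =>
    simp only [Finset.sum_insert ha]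
    exact (hf a (Finset.mem_insert_self _ _)).add
      (ih fun x hx => hf x (Finset.mem_insert_of_mem hx))

theorem Gd.int {f : GU κ → ℝ} (hf : Gd f) (μ : Measure (GU κ)) [IsHaarMeasure μ]
    {B : Set (GU κ)} (hB : IsCompact B) (hz : ∀ g ∉ B, f g = 0) : Integrable f μ := by
  obtain ⟨A, hA⟩ := hf.2 B hB
  have h1 : Function.support f ⊆ B := fun g hg => by
    by_contra h
    exact hg (hz g h)
  rw [← integrableOn_iff_integrable_of_support_subset h1]
  refine Measure.integrableOn_of_bounded (M := A) hB.measure_lt_top.ne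
    hf.1.aestronglyMeasurable ?_
  rw [ae_restrict_iff' hB.measurableSet]
  exact Eventually.of_forall fun g hg => hA g hg

/-- Lipschitz estimate along the boosts, uniform on compact sets -/
theorem lip_param {V : Type} [NormedAddCommGroup V] [NormedSpace ℝ V] (p : κ × Bool)
    {f f' : GU κ → V} (hf' : Continuous f')
    (h : ∀ g t, HasDerivAt (fun t : ℝ => f (g * bo t p)) (f' (g * bo t p)) t)
    (B : Set (GU κ)) (hB : IsCompact B) : ∃ L : ℝ, 0 ≤ L ∧ ∀ g ∈ B, ∀ s ∈ Set.Icc (-1 : ℝ) 1,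
      ∀ t ∈ Set.Icc (-1 : ℝ) 1, ‖f (g * bo s p) - f (g * bo t p)‖ ≤ L * |s - t| := by
  have hK : IsCompact ((fun q : GU κ × ℝ => q.1 * bo q.2 p) '' (B ×ˢ Set.Icc (-1) 1)) :=
    (hB.prod isCompact_Icc).image (continuous_fst.mul ((continuous_bo p).comp continuous_snd))
  obtain ⟨L, hL⟩ := hK.exists_bound_of_continuousOn (f := f') hf'.continuousOn
  refine ⟨max L 0, le_max_right _ _, fun g hg s hs t ht => ?_⟩
  have := Convex.norm_image_sub_le_of_norm_hasDerivWithin_le
    (f := fun t : ℝ => f (g * bo t p)) (f' := fun t => f' (g * bo t p)) (C := max L 0)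
    (s := Set.Icc (-1 : ℝ) 1) (x := t) (y := s) (fun r hr => (h g r).hasDerivWithinAt)
    (fun r hr => (hL _ ⟨(g, r), ⟨hg, hr⟩, rfl⟩).trans (le_max_left _ _)) (convex_Icc _ _) ht hs
  rwa [Real.norm_eq_abs] at this

section field

variable {σ : G →* GU κ} {ρ : G →* Matrix n n ℝ} {H : (κ ⊕ Unit → ℂ) → Matrix n n ℝ}
  (hH : EqC σ ρ H)

include hH

theorem H_contOn (i j : n) : ContinuousOn (fun w => H w i j) (Cn κ) := by
  intro v hv
  obtain ⟨L, U, hU, hL⟩ := hH.lip v hv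
  exact ((hL i j).continuousOn.continuousAt hU).continuousWithinAt

theorem H_cont (i j : n) : Continuous fun g : GU κ => H g.pt i j :=
  (H_contOn hH i j).comp_continuous continuous_pt fun g => (pt_mem g).1

theorem H_symm {v : κ ⊕ Unit → ℂ} (hv : v ∈ Cn κ) : (H v)ᵀ = H v := by
  have h := (hH.pos v hv).1
  rwa [Matrix.IsHermitian, Matrix.conjTranspose_eq_transpose_of_trivial] at h

theorem H_det (g : GU κ) : IsUnit (H g.pt).det :=
  isUnit_iff_ne_zero.2 (hH.pos _ (pt_mem g).1).det_pos.ne'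

theorem XH_symm (p : κ × Bool) (g : GU κ) : (Pool.Agent.MPd01a95.XH H p g)ᵀ =
    Pool.Agent.MPd01a95.XH H p g := by
  ext i j
  show fderiv ℝ (fun w => H w j i) g.pt (g.dir p) = fderiv ℝ (fun w => H w i j) g.pt (g.dir p)
  have h : (fun w => H w j i) =ᶠ[𝓝 g.pt] fun w => H w i j := by
    filter_upwards [isOpen_Cn.mem_nhds (pt_mem g).1] with w hw
    have := congrFun (congrFun (H_symm hH hw) i) j
    exact this
  rw [h.fderiv_eq]

omit hH in
theorem XH_meas (p : κ × Bool) (i j : n) :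
    Measurable fun g : GU κ => Pool.Agent.MPd01a95.XH H p g i j := by
  show Measurable fun g : GU κ => fderiv ℝ (fun w => H w i j) g.pt (g.dir p)
  have h1 : Measurable fun g : GU κ => fderiv ℝ (fun w => H w i j) g.pt :=
    (measurable_fderiv ℝ (fun w => H w i j)).comp continuous_pt.measurable
  exact (isBoundedBilinearMap_apply (𝕜 := ℝ) (E := κ ⊕ Unit → ℂ)
    (F := ℝ)).continuous.measurable.comp (h1.prodMk (continuous_dir p).measurable)

theorem XH_gd (p : κ × Bool) (i j : n) : Gd fun g : GU κ => Pool.Agent.MPd01a95.XH H p g i j := by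
  refine ⟨XH_meas p i j, fun B hB => ?_⟩
  have hC : IsCompact ((fun g : GU κ => g.pt) '' B) := hB.image continuous_pt
  have hC2 : (fun g : GU κ => g.pt) '' B ⊆ Cn κ := by
    rintro _ ⟨g, _, rfl⟩
    exact (pt_mem g).1
  obtain ⟨C', hC'c, hC'1, hC'2⟩ := exists_compact_between hC isOpen_Cn hC2
  obtain ⟨L, hL⟩ := hH.lip_compact C' hC'2 hC'c
  obtain ⟨D, hD⟩ := hB.exists_bound_of_continuousOn (continuous_dir p).continuousOn
  refine ⟨max L 0 * D, fun g hg => ?_⟩
  have h1 : g.pt ∈ interior C' := hC'1 ⟨g, hg, rfl⟩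
  have h2 : ‖fderiv ℝ (fun w => H w i j) g.pt‖ ≤ max L 0 := by
    refine norm_fderiv_le_of_lip' ℝ (le_max_right _ _) ?_
    filter_upwards [isOpen_interior.mem_nhds h1] with w hw
    refine (hL w (interior_subset hw) g.pt (interior_subset h1) i j).trans ?_
    exact mul_le_mul_of_nonneg_right (le_max_left _ _) (norm_nonneg _)
  have h3 := (fderiv ℝ (fun w => H w i j) g.pt).le_opNorm (g.dir p)
  exact h3.trans (mul_le_mul h2 (hD g hg) (norm_nonneg _) (le_max_right _ _))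

theorem inv_cont (i j : n) : Continuous fun g : GU κ => (H g.pt)⁻¹ i j := by
  rw [continuous_iff_continuousAt]
  intro g
  have h1 : ContinuousAt (fun g : GU κ => fun a b => H g.pt a b) g := by
    rw [continuousAt_pi]
    intro a
    rw [continuousAt_pi]
    exact fun b => (H_cont hH a b).continuousAt
  exact ContinuousAt.comp (g := fun M : n → n → ℝ => (Matrix.of M)⁻¹ i j)
    (f := fun g : GU κ => fun a b => H g.pt a b)
    (McalcAux.inv_cd (k := 0) i j (fun a b => H g.pt a b) (H_det hH g).ne_zero).continuousAt h1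

theorem QH_gd (i j : n) : Gd fun g : GU κ => QH H g i j := by
  have e : (fun g : GU κ => QH H g i j) = fun g => ∑ p, ∑ k, (∑ l,
      Pool.Agent.MPd01a95.XH H p g i l * (H g.pt)⁻¹ l k) * Pool.Agent.MPd01a95.XH H p g k j := by
    funext g
    rw [QH, Matrix.sum_apply]
    simp only [Matrix.mul_apply]
  rw [e]
  exact Gd.sum _ fun p _ => Gd.sum _ fun k _ => (Gd.sum _ fun l _ =>
    (XH_gd hH p i l).mul (Gd.of_cont (inv_cont hH l k))).mul (XH_gd hH p k j)

theorem QH_symm (g : GU κ) : (QH H g)ᵀ = QH H g := by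
  rw [QH, Matrix.transpose_sum]
  refine Finset.sum_congr rfl fun p _ => ?_
  rw [Matrix.transpose_mul, Matrix.transpose_mul, XH_symm hH, Matrix.transpose_nonsing_inv,
    H_symm hH (pt_mem g).1, Matrix.mul_assoc]

end field

/-! ### integration by parts -/

section ibp

variable {σ : G →* GU κ} {ρ : G →* Matrix n n ℝ} {H : (κ ⊕ Unit → ℂ) → Matrix n n ℝ}
  (hH : EqC σ ρ H) {β : ℝ → ℝ} (hβ : ContDiff ℝ ∞ β) (hβc : HasCompactSupport β)
  {v : κ ⊕ Unit → ℂ} (hv : v ∈ Cn κ) (μ : Measure (GU κ)) [IsHaarMeasure μ]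
  [μ.IsMulRightInvariant]

include hH hβ hβc hv

theorem ibp (hae : ∀ᵐ g ∂μ, ∀ i j, DifferentiableAt ℝ (fun w => H w i j) g.pt)
    (p : κ × Bool) (i j : n) :
    ∫ g, (Pool.Agent.MPd01a95.XH H p g i j * b1 β v p g + H g.pt i j * b2 β v p g) ∂μ = 0 := by
  obtain ⟨B₀, hB₀, hB₀z⟩ := exists_supp hv hβc
  -- the compact sets
  have hmulc : Continuous fun q : GU κ × ℝ => q.1 * bo q.2 p :=
    continuous_fst.mul ((continuous_bo p).comp continuous_snd)
  set B₁ : Set (GU κ) := (fun q : GU κ × ℝ => q.1 * bo q.2 p) '' (B₀ ×ˢ Set.Icc (-1) 1) with hB₁d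
  have hB₁ : IsCompact B₁ := (hB₀.prod isCompact_Icc).image hmulc
  have hout : ∀ g ∉ B₁, ∀ t ∈ Set.Icc (-1 : ℝ) 1, g * bo t p ∉ B₀ := by
    intro g hg t ht h
    refine hg ⟨(g * bo t p, -t), ⟨h, ?_, ?_⟩, ?_⟩
    · show -1 ≤ -t
      linarith [ht.2]
    · show -t ≤ 1
      linarith [ht.1]
    · show g * bo t p * bo (-t) p = g
      rw [mul_assoc, bo_add, add_neg_cancel, bo_zero, mul_one]
  set B₂ : Set (GU κ) := (fun q : GU κ × ℝ => q.1 * bo q.2 p) '' (B₁ ×ˢ Set.Icc (-1) 1) with hB₂d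
  have hB₂ : IsCompact B₂ := (hB₁.prod isCompact_Icc).image hmulc
  have hmem : ∀ g ∈ B₁, ∀ t ∈ Set.Icc (-1 : ℝ) 1, g * bo t p ∈ B₂ := fun g hg t ht =>
    ⟨(g, t), ⟨hg, ht⟩, rfl⟩
  have hC : IsCompact ((fun g : GU κ => g.pt) '' B₂) := hB₂.image continuous_pt
  have hC2 : (fun g : GU κ => g.pt) '' B₂ ⊆ Cn κ := by
    rintro _ ⟨g, _, rfl⟩
    exact (pt_mem g).1
  -- the constants
  obtain ⟨L₁, hL₁⟩ := hH.lip_compact _ hC2 hC
  obtain ⟨L₂, hL₂0, hL₂⟩ := lip_param p (f := fun g : GU κ => g.pt) (continuous_dir p)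
    (fun g t => hasDerivAt_pt g p t) B₁ hB₁
  obtain ⟨L₃, hL₃0, hL₃⟩ := lip_param p (continuous_b2 hβ hv p)
    (fun g t => hasDerivAt_b1 hβ hv g p t) B₁ hB₁
  obtain ⟨A₁, hA₁⟩ := (Gd.of_cont (H_cont hH i j)).2 B₂ hB₂
  obtain ⟨A₂, hA₂⟩ := (Gd.of_cont (continuous_b1 hβ hv p)).2 B₂ hB₂
  set L : ℝ := max A₁ 0 * L₃ + max L₁ 0 * L₂ * max A₂ 0 with hL
  have hL0 : 0 ≤ L := by positivity
  -- the function
  set F : ℝ → GU κ → ℝ := fun t g => H (g * bo t p).pt i j * b1 β v p (g * bo t p) with hF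
  have hFc : ∀ t, Continuous (F t) := fun t =>
    ((H_cont hH i j).comp (continuous_mul_const (bo t p))).mul
      ((continuous_b1 hβ hv p).comp (continuous_mul_const (bo t p)))
  have hFz : ∀ g ∉ B₁, ∀ t ∈ Set.Icc (-1 : ℝ) 1, F t g = 0 := by
    intro g hg t ht
    show H (g * bo t p).pt i j * b1 β v p (g * bo t p) = 0
    rw [b1_zero hv (hB₀z _ (hout g hg t ht)) p, mul_zero]
  have h0mem : (0 : ℝ) ∈ Set.Icc (-1 : ℝ) 1 := by constructor <;> norm_num
  have key := hasDerivAt_integral_of_dominated_loc_of_lip (μ := μ) (F := F) (x₀ := (0 : ℝ))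
    (s := Set.Icc (-1) 1) (bound := B₁.indicator fun _ => L)
    (F' := fun g => Pool.Agent.MPd01a95.XH H p g i j * b1 β v p g + H g.pt i j * b2 β v p g)
    (Icc_mem_nhds (by norm_num) (by norm_num))
    (Eventually.of_forall fun t => (hFc t).aestronglyMeasurable)
    ((Gd.of_cont (hFc 0)).int μ hB₁ fun g hg => hFz g hg 0 h0mem)
    (((XH_meas p i j).mul (continuous_b1 hβ hv p).measurable).add
      ((H_cont hH i j).measurable.mul (continuous_b2 hβ hv p).measurable)).aestronglyMeasurable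
    ?_ ?_ ?_
  · have h1 : ∀ t, ∫ g, F t g ∂μ = ∫ g, F 0 g ∂μ := by
      intro t
      have e1 := integral_mul_right_eq_self (μ := μ)
        (fun g => H g.pt i j * b1 β v p g) (bo t p)
      have e2 := integral_mul_right_eq_self (μ := μ)
        (fun g => H g.pt i j * b1 β v p g) (bo 0 p)
      exact e1.trans e2.symm
    have h2 := key.2
    have h3 : (fun x => ∫ g, F x g ∂μ) = fun _ => ∫ g, F 0 g ∂μ := funext h1
    rw [h3] at h2
    exact (h2.unique (hasDerivAt_const _ _))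
  · refine Eventually.of_forall fun g => ?_
    refine LipschitzOnWith.of_dist_le_mul fun s hs t ht => ?_
    rw [Real.dist_eq, Real.dist_eq]
    by_cases hg : g ∈ B₁
    · rw [Set.indicator_of_mem hg, Real.coe_nnabs, abs_of_nonneg hL0]
      have m1 := hmem g hg s hs
      have m2 := hmem g hg t ht
      have e : F s g - F t g = H (g * bo s p).pt i j *
          (b1 β v p (g * bo s p) - b1 β v p (g * bo t p)) +
          (H (g * bo s p).pt i j - H (g * bo t p).pt i j) * b1 β v p (g * bo t p) := by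
        simp only [hF]; ring
      have a1 : |H (g * bo s p).pt i j| ≤ max A₁ 0 := (hA₁ _ m1).trans (le_max_left _ _)
      have a2 : |b1 β v p (g * bo s p) - b1 β v p (g * bo t p)| ≤ L₃ * |s - t| :=
        hL₃ g hg s hs t ht
      have a3 : |H (g * bo s p).pt i j - H (g * bo t p).pt i j| ≤ max L₁ 0 * (L₂ * |s - t|) := by
        refine (hL₁ _ ⟨_, m1, rfl⟩ _ ⟨_, m2, rfl⟩ i j).trans ?_
        refine mul_le_mul (le_max_left _ _) (hL₂ g hg s hs t ht) (norm_nonneg _)
          (le_max_right _ _)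
      have a4 : |b1 β v p (g * bo t p)| ≤ max A₂ 0 := (hA₂ _ m2).trans (le_max_left _ _)
      rw [e]
      refine (abs_add_le _ _).trans ?_
      rw [abs_mul, abs_mul]
      have b1' := mul_le_mul a1 a2 (abs_nonneg _) (le_max_right _ _)
      have b2' := mul_le_mul a3 a4 (abs_nonneg _) (by positivity)
      calc _ ≤ _ := add_le_add b1' b2'
        _ = L * |s - t| := by rw [hL]; ring
    · rw [hFz g hg s hs, hFz g hg t ht]
      simp
      positivity
  · exact ((integrable_indicator_iff hB₁.measurableSet).2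
      (integrableOn_const hB₁.measure_lt_top.ne))
  · filter_upwards [hae] with g hg
    have h1 : HasDerivAt (fun t : ℝ => H (g * bo t p).pt i j)
        (Pool.Agent.MPd01a95.XH H p g i j) 0 := by
      have h2 : HasFDerivAt (fun w => H w i j) (fderiv ℝ (fun w => H w i j) g.pt)
          (g * bo 0 p).pt := by
        rw [bo_zero, mul_one]
        exact (hg i j).hasFDerivAt
      have h3 := h2.comp_hasDerivAt (0 : ℝ) (hasDerivAt_pt g p 0)
      rw [bo_zero, mul_one] at h3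
      exact h3
    have h4 := hasDerivAt_b1 hβ hv g p 0
    have h5 := h1.mul h4
    rw [bo_zero, mul_one] at h5
    exact h5

end ibp

/-! ### the variation -/

/-- algebra of the first variation -/
theorem alg {A X S : Matrix n n ℝ} (hA : IsUnit A.det) (b b' : ℝ) :
    (A⁻¹ * X * A⁻¹ * (b' • (A * S * A) + b • (X * S * A + A * S * X))).trace -
      (A⁻¹ * X * A⁻¹ * X * A⁻¹ * (b • (A * S * A))).trace =
    b' * (X * S).trace + b * (X * A⁻¹ * X * S).trace := by
  have hl : A⁻¹ * A = 1 := Matrix.nonsing_inv_mul _ hA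
  have hr : A * A⁻¹ = 1 := Matrix.mul_nonsing_inv _ hA
  have e1 : (A⁻¹ * X * A⁻¹ * (A * S * A)).trace = (X * S).trace := by
    have : A⁻¹ * X * A⁻¹ * (A * S * A) = A⁻¹ * (X * S * A) := by
      calc _ = A⁻¹ * X * (A⁻¹ * A) * S * A := by simp only [Matrix.mul_assoc]
        _ = _ := by rw [hl]; simp only [Matrix.mul_assoc, Matrix.one_mul]
    rw [this, Matrix.trace_mul_comm, Matrix.mul_assoc, hr, Matrix.mul_one]
  have e2 : (A⁻¹ * X * A⁻¹ * (X * S * A)).trace = (X * A⁻¹ * X * S).trace := by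
    have : A⁻¹ * X * A⁻¹ * (X * S * A) = A⁻¹ * (X * A⁻¹ * X * S * A) := by
      simp only [Matrix.mul_assoc]
    rw [this, Matrix.trace_mul_comm, Matrix.mul_assoc, hr, Matrix.mul_one]
  have e3 : (A⁻¹ * X * A⁻¹ * (A * S * X)).trace = (X * A⁻¹ * X * S).trace := by
    have : A⁻¹ * X * A⁻¹ * (A * S * X) = (A⁻¹ * X * S) * X := by
      calc _ = A⁻¹ * X * (A⁻¹ * A) * S * X := by simp only [Matrix.mul_assoc]
        _ = _ := by rw [hl, Matrix.mul_one]
    rw [this, Matrix.trace_mul_comm]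
    simp only [Matrix.mul_assoc]
  have e4 : (A⁻¹ * X * A⁻¹ * X * A⁻¹ * (A * S * A)).trace = (X * A⁻¹ * X * S).trace := by
    have : A⁻¹ * X * A⁻¹ * X * A⁻¹ * (A * S * A) = A⁻¹ * (X * A⁻¹ * X * S * A) := by
      calc _ = A⁻¹ * X * A⁻¹ * X * (A⁻¹ * A) * S * A := by simp only [Matrix.mul_assoc]
        _ = _ := by rw [hl, Matrix.mul_one]; simp only [Matrix.mul_assoc]
    rw [this, Matrix.trace_mul_comm, Matrix.mul_assoc, hr, Matrix.mul_one]
  rw [Matrix.mul_add, Matrix.mul_smul, Matrix.mul_smul, Matrix.mul_add, Matrix.mul_smul,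
    Matrix.trace_add, Matrix.trace_smul, Matrix.trace_smul, Matrix.trace_smul, Matrix.trace_add,
    e1, e2, e3, e4]
  simp only [smul_eq_mul]
  ring

/-- the test field -/
noncomputable def Kf (β : ℝ → ℝ) (v : κ ⊕ Unit → ℂ) (H : (κ ⊕ Unit → ℂ) → Matrix n n ℝ)
    (S : Matrix n n ℝ) (w : κ ⊕ Unit → ℂ) : Matrix n n ℝ := β (sv v w) • (H w * S * H w)

section variation

variable {σ : G →* GU κ} {ρ : G →* Matrix n n ℝ} {H : (κ ⊕ Unit → ℂ) → Matrix n n ℝ}
  (hH : EqC σ ρ H) {β : ℝ → ℝ} (hβ : ContDiff ℝ ∞ β)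
  {v : κ ⊕ Unit → ℂ} (hv : v ∈ Cn κ)

include hβ hv in
theorem XK {g : GU κ} (hd : ∀ i j, DifferentiableAt ℝ (fun w => H w i j) g.pt)
    (S : Matrix n n ℝ) (p : κ × Bool) :
    Pool.Agent.MPd01a95.XH (Kf β v H S) p g = b1 β v p g • (H g.pt * S * H g.pt) +
      β (sv v g.pt) • (Pool.Agent.MPd01a95.XH H p g * S * H g.pt +
        H g.pt * S * Pool.Agent.MPd01a95.XH H p g) := by
  have hc : ∀ i j, DifferentiableAt ℝ (fun _ : κ ⊕ Unit → ℂ => S i j) g.pt := fun i j =>
    differentiableAt_const _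
  have hS : ∀ i j, DifferentiableAt ℝ (fun w => (H w * S) i j) g.pt := by
    intro i j
    simp only [Matrix.mul_apply]
    exact DifferentiableAt.fun_sum fun k _ => (hd i k).mul_const _
  have hSS : ∀ i j, DifferentiableAt ℝ (fun w => (H w * S * H w) i j) g.pt := by
    intro i j
    have : (fun w => (H w * S * H w) i j) = fun w => ∑ k, (H w * S) i k * H w k j := by
      funext w
      rw [Matrix.mul_apply]
    rw [this]
    exact DifferentiableAt.fun_sum fun k _ => (hS i k).fun_mul (hd k j)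
  have h1 : DM (fun w => H w * S * H w) g.pt (g.dir p) =
      Pool.Agent.MPd01a95.XH H p g * S * H g.pt +
        H g.pt * S * Pool.Agent.MPd01a95.XH H p g := by
    rw [DM_mul hS hd, DM_mul hd hc]
    have h0 : DM (fun _ : κ ⊕ Unit → ℂ => S) g.pt (g.dir p) = 0 := by
      ext i j
      show fderiv ℝ (fun _ : κ ⊕ Unit → ℂ => S i j) g.pt (g.dir p) = 0
      simp
    rw [h0, Matrix.mul_zero, add_zero]
    rfl
  ext i j
  have hB : DifferentiableAt ℝ (Bf β v) g.pt := (Bf_d1 hβ hv g).differentiableAt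
  have e : fderiv ℝ (fun w => Bf β v w * (H w * S * H w) i j) g.pt (g.dir p) =
      b1 β v p g * (H g.pt * S * H g.pt) i j +
      β (sv v g.pt) * DM (fun w => H w * S * H w) g.pt (g.dir p) i j := by
    rw [fderiv_fun_mul hB (hSS i j)]
    simp only [ContinuousLinearMap.add_apply, ContinuousLinearMap.smul_apply, smul_eq_mul]
    show β (sv v g.pt) * _ + (H g.pt * S * H g.pt) i j * b1 β v p g = _
    rw [add_comm, mul_comm ((H g.pt * S * H g.pt) i j)]
    rfl
  rw [h1] at e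
  exact e

include hH hβ hv in
theorem fv_eq {g : GU κ} (hd : ∀ i j, DifferentiableAt ℝ (fun w => H w i j) g.pt)
    (i j : n) :
    fv H (Kf β v H (Matrix.single i j 1 + Matrix.single j i 1)) g =
      2 * ((∑ p, b1 β v p g * Pool.Agent.MPd01a95.XH H p g i j) +
        β (sv v g.pt) * QH H g i j) := by
  set S : Matrix n n ℝ := Matrix.single i j 1 + Matrix.single j i 1 with hS
  have htr : ∀ A : Matrix n n ℝ, Aᵀ = A → (A * S).trace = 2 * A i j := by
    intro A hA
    have h1 : A j i = A i j := congrFun (congrFun hA i) j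
    rw [hS, Matrix.mul_add, Matrix.trace_add, Matrix.trace_mul_single, Matrix.trace_mul_single]
    simp [h1]
    ring
  have h1 : fv H (Kf β v H S) g = ∑ p, (b1 β v p g * (Pool.Agent.MPd01a95.XH H p g * S).trace +
      β (sv v g.pt) * (Pool.Agent.MPd01a95.XH H p g * (H g.pt)⁻¹ *
        Pool.Agent.MPd01a95.XH H p g * S).trace) := by
    unfold fv
    refine Finset.sum_congr rfl fun p _ => ?_
    rw [XK hβ hv hd S p]
    exact alg (H_det hH g) _ _
  have h2 : ∀ p, (Pool.Agent.MPd01a95.XH H p g * (H g.pt)⁻¹ * Pool.Agent.MPd01a95.XH H p g)ᵀ =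
      Pool.Agent.MPd01a95.XH H p g * (H g.pt)⁻¹ * Pool.Agent.MPd01a95.XH H p g := by
    intro p
    rw [Matrix.transpose_mul, Matrix.transpose_mul, XH_symm hH, Matrix.transpose_nonsing_inv,
      H_symm hH (pt_mem g).1, Matrix.mul_assoc]
  rw [h1, QH, Matrix.sum_apply, Finset.mul_sum, ← Finset.sum_add_distrib, Finset.mul_sum]
  refine Finset.sum_congr rfl fun p _ => ?_
  rw [htr _ (XH_symm hH p g), htr _ (h2 p)]
  ring

/-- compositions of Lipschitz maps with smooth functions -/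
theorem loc_lip {E F : Type} [NormedAddCommGroup E] [NormedAddCommGroup F] [NormedSpace ℝ F]
    {f : E → F} {P : F → ℝ} (hP : ContDiff ℝ 1 P) {L : ℝ≥0} {U : Set E} {x : E} (hU : U ∈ 𝓝 x)
    (hf : LipschitzOnWith L f U) : ∃ L' : ℝ≥0, ∃ U' ∈ 𝓝 x, LipschitzOnWith L' (fun w => P (f w)) U' := by
  obtain ⟨K, t, ht, hK⟩ := (hP.contDiffAt (x := f x)).exists_lipschitzOnWith
  have h1 : f ⁻¹' t ∈ 𝓝 x := (hf.continuousOn.continuousAt hU).preimage_mem_nhds ht
  exact ⟨K * L, U ∩ f ⁻¹' t, inter_mem hU h1,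
    hK.comp (hf.mono Set.inter_subset_left) fun w hw => hw.2⟩

include hH hβ hv in
theorem Kf_lip (S : Matrix n n ℝ) : ∀ w ∈ Cn κ, ∃ L : ℝ≥0, ∃ U ∈ 𝓝 w, ∀ i j,
    LipschitzOnWith L (fun w => Kf β v H S w i j) U := by
  intro w hw
  obtain ⟨L, U, hU, hL⟩ := hH.lip w hw
  obtain ⟨K, V, hV, hK⟩ := (((Bf_cd hβ hv).contDiffAt (isOpen_Cn.mem_nhds hw)).of_le
    (m := 1) (by simp)).exists_lipschitzOnWith
  have h1 : LipschitzOnWith (max K L) (fun w => (Bf β v w, fun a b => H w a b)) (V ∩ U) := by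
    refine LipschitzOnWith.of_dist_le_mul fun x hx y hy => ?_
    have d1 := hK.dist_le_mul x hx.1 y hy.1
    have d2 : dist (fun a b => H x a b : n → n → ℝ) (fun a b => H y a b) ≤ L * dist x y := by
      rw [dist_pi_le_iff (by positivity)]
      intro a
      rw [dist_pi_le_iff (by positivity)]
      exact fun b => (hL a b).dist_le_mul x hx.2 y hy.2
    rw [Prod.dist_eq]
    refine max_le (d1.trans ?_) (d2.trans ?_)
    · exact mul_le_mul_of_nonneg_right (by exact_mod_cast le_max_left _ _) dist_nonneg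
    · exact mul_le_mul_of_nonneg_right (by exact_mod_cast le_max_right _ _) dist_nonneg
  have h2 : ∀ i j, ∃ L' : ℝ≥0, ∃ U' ∈ 𝓝 w, LipschitzOnWith L' (fun w => Kf β v H S w i j) U' := by
    intro i j
    have hP : ContDiff ℝ 1 fun q : ℝ × (n → n → ℝ) =>
        q.1 * ∑ k, (∑ l, q.2 i l * S l k) * q.2 k j := by
      fun_prop
    obtain ⟨L', U', hU', h3⟩ := loc_lip hP (inter_mem hV hU) h1
    refine ⟨L', U', hU', ?_⟩
    have e : (fun w => Kf β v H S w i j) = fun w => Bf β v w * ∑ k, (∑ l, H w i l * S l k) *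
        H w k j := by
      funext w
      rw [Kf, Matrix.smul_apply, Matrix.mul_apply, smul_eq_mul]
      simp only [Matrix.mul_apply]
      rfl
    rw [e]
    exact h3
  choose L' U' hU' h3 using h2
  refine ⟨∑ i, ∑ j, L' i j, ⋂ i, ⋂ j, U' i j, ?_, fun i j => ?_⟩
  · rw [Filter.iInter_mem]
    intro i
    rw [Filter.iInter_mem]
    exact fun j => hU' i j
  · have h4 : L' i j ≤ ∑ i, ∑ j, L' i j :=
      (Finset.single_le_sum (f := fun j => L' i j) (fun _ _ => zero_le)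
        (Finset.mem_univ j)).trans
      (Finset.single_le_sum (f := fun i => ∑ j, L' i j) (fun _ _ => zero_le)
        (Finset.mem_univ i))
    refine ((h3 i j).mono ?_).weaken h4
    exact (Set.iInter_subset _ i).trans (Set.iInter_subset _ j)

end variation

end FV3Aux

open FV3Aux

/-- module FV3: the weak equation -/
theorem weak_eq (hκ : 0 < Fintype.card κ) {σ : G →* GU κ} (hL : Lat σ)
    (μ : Measure (GU κ)) [IsHaarMeasure μ]
    (ρ : G →* Matrix n n ℝ) {H : (κ ⊕ Unit → ℂ) → Matrix n n ℝ} (hH : EqC σ ρ H)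
    (hfv : ∀ K : (κ ⊕ Unit → ℂ) → Matrix n n ℝ, (∀ v ∈ Cn κ, (K v)ᵀ = K v) →
      (∀ v ∈ Cn κ, ∀ l : ℂ, l ≠ 0 → K (l • v) = K v) →
      (∀ v ∈ Cn κ, ∃ L : ℝ≥0, ∃ U ∈ 𝓝 v, ∀ i j, LipschitzOnWith L (fun w => K w i j) U) →
      (∃ R : ℝ, ∀ g : GU κ, K g.pt ≠ 0 → c g ≤ R) → ∫ g, fv H K g ∂μ = 0)
    {β : ℝ → ℝ} (hβ : ContDiff ℝ ∞ β) (hβc : HasCompactSupport β) (v : κ ⊕ Unit → ℂ)
    (hv : v ∈ Cn κ) (i j : n) :
    ∫ g, LL (Fintype.card κ) β (sv v g.pt) * H g.pt i j ∂μ =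
      ∫ g, β (sv v g.pt) * QH H g i j ∂μ := by
  haveI := right_inv hL μ
  have hae := ae_diff hH μ
  obtain ⟨B₀, hB₀, hB₀z⟩ := exists_supp hv hβc
  set S : Matrix n n ℝ := Matrix.single i j 1 + Matrix.single j i 1 with hS
  have hSt : Sᵀ = S := by
    rw [hS, Matrix.transpose_add, Matrix.transpose_single, Matrix.transpose_single, add_comm]
  have h0 := hfv (Kf β v H S) ?_ ?_ (Kf_lip hH hβ hv S) ?_
  rotate_left
  · intro w hw
    rw [Kf, Matrix.transpose_smul, Matrix.transpose_mul, Matrix.transpose_mul, H_symm hH hw, hSt,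
      Matrix.mul_assoc]
  · intro w hw l hl
    have e1 : sv v (l • w) = sv v w := by
      have := sv_smul one_ne_zero hl v w
      rwa [one_smul] at this
    rw [Kf, Kf, e1, hH.hom w hw l hl]
  · obtain ⟨R, _, hR⟩ := exists_bound hB₀
    refine ⟨R, fun g hg => ?_⟩
    by_contra hlt
    apply hg
    have : g ∉ B₀ := fun h => hlt (hR g h)
    rw [Kf, b0_zero hv (hB₀z g this), zero_smul]
  -- the first variation
  have h1 : ∫ g, ((∑ p, b1 β v p g * Pool.Agent.MPd01a95.XH H p g i j) +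
      β (sv v g.pt) * QH H g i j) ∂μ = 0 := by
    have h2 : ∫ g, fv H (Kf β v H S) g ∂μ =
        ∫ g, 2 * ((∑ p, b1 β v p g * Pool.Agent.MPd01a95.XH H p g i j) +
          β (sv v g.pt) * QH H g i j) ∂μ := by
      refine integral_congr_ae ?_
      filter_upwards [hae] with g hg
      exact fv_eq hH hβ hv hg i j
    rw [h2, integral_const_mul] at h0
    linarith
  -- integrability
  have hi1 : ∀ p, Integrable (fun g => b1 β v p g * Pool.Agent.MPd01a95.XH H p g i j) μ :=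
    fun p => ((Gd.of_cont (continuous_b1 hβ hv p)).mul (XH_gd hH p i j)).int μ hB₀ fun g hg => by
      rw [b1_zero hv (hB₀z g hg) p, zero_mul]
  have hi2 : ∀ p, Integrable (fun g => H g.pt i j * b2 β v p g) μ :=
    fun p => ((Gd.of_cont (H_cont hH i j)).mul (Gd.of_cont (continuous_b2 hβ hv p))).int μ hB₀
      fun g hg => by rw [b2_zero hv (hB₀z g hg) p, mul_zero]
  have hi3 : Integrable (fun g => β (sv v g.pt) * QH H g i j) μ :=
    ((Gd.of_cont (continuous_b0 hβ hv)).mul (QH_gd hH i j)).int μ hB₀ fun g hg => by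
      rw [b0_zero hv (hB₀z g hg), zero_mul]
  rw [integral_add (integrable_finset_sum _ fun p _ => hi1 p) hi3,
    integral_finset_sum _ fun p _ => hi1 p] at h1
  -- integration by parts
  have h3 : ∀ p, ∫ g, b1 β v p g * Pool.Agent.MPd01a95.XH H p g i j ∂μ =
      -∫ g, H g.pt i j * b2 β v p g ∂μ := by
    intro p
    have h4 := ibp hH hβ hβc hv μ hae p i j
    have h5 : Integrable (fun g => Pool.Agent.MPd01a95.XH H p g i j * b1 β v p g) μ :=
      (hi1 p).congr (Eventually.of_forall fun g => mul_comm _ _)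
    rw [integral_add h5 (hi2 p)] at h4
    have h6 : ∫ g, b1 β v p g * Pool.Agent.MPd01a95.XH H p g i j ∂μ =
        ∫ g, Pool.Agent.MPd01a95.XH H p g i j * b1 β v p g ∂μ :=
      integral_congr_ae (Eventually.of_forall fun g => mul_comm _ _)
    rw [h6]
    linarith
  have h7 : ∫ g, LL (Fintype.card κ) β (sv v g.pt) * H g.pt i j ∂μ =
      ∑ p, ∫ g, H g.pt i j * b2 β v p g ∂μ := by
    rw [← integral_finset_sum _ fun p _ => hi2 p]
    congr 1
    funext g
    rw [← Finset.mul_sum, mul_comm]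
    congr 1
    have hβ2 : ContDiff ℝ 2 β := by exact_mod_cast contDiff_infty.1 hβ 2
    rw [← (ker_deriv hβ2 v hv g).2]
    exact Finset.sum_congr rfl fun p _ => iter2 hβ hv g p
  rw [h7]
  have h8 : ∑ p, ∫ g, b1 β v p g * Pool.Agent.MPd01a95.XH H p g i j ∂μ =
      -∑ p, ∫ g, H g.pt i j * b2 β v p g ∂μ := by
    rw [← Finset.sum_neg_distrib]
    exact Finset.sum_congr rfl fun p _ => h3 p
  linarith

end Pool.Agent.MPd01a95
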