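import Mathlib
import Pool.Agent.Lib.MP_d01a95_gt_H.HDefs
import Pool.Agent.Lib.MP_d01a95_gt_H.Unimod
import Pool.Agent.Lib.MP_d01a95_gt_H.Mcalc
import Pool.Agent.Lib.MP_d01a95_gt_H.Curv

/-!
Project HARMONIC, helper file for the modules FRAME and GLIM2: linearity of `ph` and `tt` in
the directions, covariance under complex linear maps, vanishing of the radial slots.
-/

set_option autoImplicit false
set_option linter.all false

open Matrix Filter Topology MeasureTheory Measure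
open scoped ENNReal NNReal ContDiff

namespace Pool.Agent.MPd01a95

open GU

variable {κ n ι α : Type} [Fintype κ] [DecidableEq κ] [Fintype n] [DecidableEq n]
  [Fintype ι] [DecidableEq ι] [Fintype α] [DecidableEq α] {G : Type} [Group G]

namespace LinAux

open CurvAux

section

variable {E : Type} [NormedAddCommGroup E] [NormedSpace ℂ E]

theorem DM_add_r (f : E → Matrix n n ℂ) (v u u' : E) :
    DM f v (u + u') = DM f v u + DM f v u' := by
  ext i j
  exact map_add (fderiv ℝ (fun w => f w i j) v) u u'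

theorem DM_cx (f : E → Matrix n n ℂ) (v u : E) (l : ℂ) :
    DM f v (l • u) = (l.re : ℂ) • DM f v u + (l.im : ℂ) • DM f v (Complex.I • u) := by
  have h : l • u = (l.re : ℝ) • u + (l.im : ℝ) • (Complex.I • u) := by
    have h1 : ∀ r : ℝ, ∀ w : E, r • w = (r : ℂ) • w := fun r w => rfl
    rw [h1, h1, smul_smul, ← add_smul]
    congr 1
    exact (Complex.re_add_im l).symm
  ext i j
  show fderiv ℝ (fun w => f w i j) v (l • u) = _
  rw [h, map_add, map_smul, map_smul]
  rfl

theorem DM_zero_r (f : E → Matrix n n ℂ) (v : E) : DM f v 0 = 0 := by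
  ext i j
  exact map_zero (fderiv ℝ (fun w => f w i j) v)

theorem dz_add_r (f : E → Matrix n n ℂ) (v u u' : E) :
    dz f (u + u') v = dz f u v + dz f u' v := by
  simp only [dz, smul_add, DM_add_r]
  module

theorem dzb_add_r (f : E → Matrix n n ℂ) (v u u' : E) :
    dzb f (u + u') v = dzb f u v + dzb f u' v := by
  simp only [dzb, smul_add, DM_add_r]
  module

theorem dz_smul_r (f : E → Matrix n n ℂ) (v u : E) (l : ℂ) :
    dz f (l • u) v = l • dz f u v := by
  have h1 := DM_cx f v u l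
  have h2 := DM_cx f v u (Complex.I * l)
  rw [← smul_smul] at h2
  have h3 : (Complex.I * l).re = - l.im := by simp
  have h4 : (Complex.I * l).im = l.re := by simp
  rw [h3, h4] at h2
  rw [dz, dz, h1, h2]
  have hl : l = l.re + l.im * Complex.I := (Complex.re_add_im l).symm
  generalize DM f v u = X
  generalize DM f v (Complex.I • u) = Y
  have hI : Complex.I ^ 2 = -1 := Complex.I_sq
  generalize hx : l.re = x at *
  generalize hy : l.im = y at *
  rw [hl]
  push_cast
  match_scalars <;> (ring_nf; try rw [hI]; try ring)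

theorem dzb_smul_r (f : E → Matrix n n ℂ) (v u : E) (l : ℂ) :
    dzb f (l • u) v = (star l) • dzb f u v := by
  have h1 := DM_cx f v u l
  have h2 := DM_cx f v u (Complex.I * l)
  rw [← smul_smul] at h2
  have h3 : (Complex.I * l).re = - l.im := by simp
  have h4 : (Complex.I * l).im = l.re := by simp
  rw [h3, h4] at h2
  rw [dzb, dzb, h1, h2]
  have hl : star l = l.re - l.im * Complex.I := by
    apply Complex.ext <;> simp
  generalize DM f v u = X
  generalize DM f v (Complex.I • u) = Y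
  have hI : Complex.I ^ 2 = -1 := Complex.I_sq
  rw [hl]
  generalize hx : l.re = x at *
  generalize hy : l.im = y at *
  push_cast
  match_scalars <;> (ring_nf; try rw [hI]; try ring)

theorem ph_add_r (H : E → Matrix n n ℝ) (u u' v : E) :
    ph H (u + u') v = ph H u v + ph H u' v := by
  simp only [ph, dz_add_r, mul_add, smul_add]

theorem phb_add_r (H : E → Matrix n n ℝ) (u u' v : E) :
    phb H (u + u') v = phb H u v + phb H u' v := by
  simp only [phb, dzb_add_r, mul_add, smul_add]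

theorem ph_smul_r (H : E → Matrix n n ℝ) (l : ℂ) (u v : E) :
    ph H (l • u) v = l • ph H u v := by
  simp only [ph, dz_smul_r, mul_smul_comm]
  module

theorem phb_smul_r (H : E → Matrix n n ℝ) (l : ℂ) (u v : E) :
    phb H (l • u) v = (star l) • phb H u v := by
  simp only [phb, dzb_smul_r, mul_smul_comm]
  module

theorem ph_sum_r {β : Type} (H : E → Matrix n n ℝ) (s : Finset β) (x : β → ℂ) (u : β → E)
    (v : E) : ph H (∑ a ∈ s, x a • u a) v = ∑ a ∈ s, x a • ph H (u a) v := by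
  classical
  induction s using Finset.induction_on with
  | empty =>
    simp only [Finset.sum_empty]
    have h := ph_smul_r H 0 (0 : E) v
    simpa using h
  | insert a s ha ih => rw [Finset.sum_insert ha, Finset.sum_insert ha, ph_add_r, ph_smul_r, ih]

theorem phb_sum_r {β : Type} (H : E → Matrix n n ℝ) (s : Finset β) (x : β → ℂ) (u : β → E)
    (v : E) : phb H (∑ a ∈ s, x a • u a) v = ∑ a ∈ s, (star (x a)) • phb H (u a) v := by
  classical
  induction s using Finset.induction_on with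
  | empty =>
    simp only [Finset.sum_empty]
    have h := phb_smul_r H 0 (0 : E) v
    simpa using h
  | insert a s ha ih => rw [Finset.sum_insert ha, Finset.sum_insert ha, phb_add_r, phb_smul_r, ih]

theorem tt_add_w (H : E → Matrix n n ℝ) (u w w' v : E) :
    tt H u (w + w') v = tt H u w v + tt H u w' v := by
  simp only [tt, dzb_add_r, phb_add_r, cm, add_mul, mul_add]
  abel

theorem tt_smul_w (H : E → Matrix n n ℝ) (l : ℂ) (u w v : E) :
    tt H u (l • w) v = (star l) • tt H u w v := by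
  simp only [tt, dzb_smul_r, phb_smul_r, cm, smul_mul_assoc, mul_smul_comm]
  module

theorem tt_sum_w {β : Type} (H : E → Matrix n n ℝ) (s : Finset β) (x : β → ℂ) (w : β → E)
    (u v : E) : tt H u (∑ a ∈ s, x a • w a) v = ∑ a ∈ s, (star (x a)) • tt H u (w a) v := by
  classical
  induction s using Finset.induction_on with
  | empty =>
    simp only [Finset.sum_empty]
    have h := tt_smul_w H 0 u (0 : E) v
    simpa using h
  | insert a s ha ih => rw [Finset.sum_insert ha, Finset.sum_insert ha, tt_add_w, tt_smul_w, ih]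

theorem cm_smul_smul (x y : ℂ) (A B : Matrix n n ℂ) : cm (x • A) (y • B) = (x * y) • cm A B := by
  simp only [cm, smul_mul_assoc, mul_smul_comm, smul_smul, smul_sub]
  rw [mul_comm y x]

end

section pos

variable {E : Type} [NormedAddCommGroup E] [NormedSpace ℂ E] {H : E → Matrix n n ℝ} {Ω : Set E}
  (hΩ : IsOpen Ω) (hp : ∀ v ∈ Ω, (H v).PosDef) (hs : Sm ∞ H Ω)

include hΩ hp hs

theorem tt_add_u {v : E} (hv : v ∈ Ω) (u u' w : E) :
    tt H (u + u') w v = tt H u w v + tt H u' w v := by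
  have h1 := Sm.df hΩ (ph_sm hΩ hp hs u) hv
  have h2 := Sm.df hΩ (ph_sm hΩ hp hs u') hv
  simp only [tt, ph_add_r]
  rw [dzb_add h1 h2]
  simp only [cm, add_mul, mul_add]
  abel

theorem tt_smul_u {v : E} (hv : v ∈ Ω) (l : ℂ) (u w : E) :
    tt H (l • u) w v = l • tt H u w v := by
  have h1 := Sm.df hΩ (ph_sm hΩ hp hs u) hv
  simp only [tt, ph_smul_r]
  rw [dzb_smul l h1]
  simp only [cm, smul_mul_assoc, mul_smul_comm]
  module

theorem tt_sum_u {β : Type} {v : E} (hv : v ∈ Ω) (s : Finset β) (x : β → ℂ) (u : β → E)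
    (w : E) : tt H (∑ a ∈ s, x a • u a) w v = ∑ a ∈ s, x a • tt H (u a) w v := by
  classical
  induction s using Finset.induction_on with
  | empty =>
    simp only [Finset.sum_empty]
    have h := tt_smul_u hΩ hp hs hv 0 (0 : E) w
    simpa using h
  | insert a s ha ih =>
    rw [Finset.sum_insert ha, Finset.sum_insert ha, tt_add_u hΩ hp hs hv,
      tt_smul_u hΩ hp hs hv, ih]

end pos

/-! ### covariance -/

section cov

variable {E : Type} [NormedAddCommGroup E] [NormedSpace ℂ E]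

/-- derivative of a composition with a complex linear map -/
theorem DM_comp {f g : E → Matrix n n ℂ} {Ω : Set E} (hΩ : IsOpen Ω) (A : E →L[ℂ] E) {v : E}
    (hv : v ∈ Ω) (hf : Df f (A v)) (h : ∀ w ∈ Ω, f (A w) = g w) (u : E) :
    DM f (A v) (A u) = DM g v u := by
  ext i j
  show fderiv ℝ (fun w => f w i j) (A v) (A u) = fderiv ℝ (fun w => g w i j) v u
  have h1 : HasFDerivAt (fun w => f (A w) i j)
      ((fderiv ℝ (fun w => f w i j) (A v)).comp (A.restrictScalars ℝ)) v :=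
    (hf i j).hasFDerivAt.comp v ((A.restrictScalars ℝ).hasFDerivAt (x := v))
  have h2 : (fun w => f (A w) i j) =ᶠ[𝓝 v] (fun w => g w i j) := by
    filter_upwards [hΩ.mem_nhds hv] with w hw
    rw [h w hw]
  rw [← h2.fderiv_eq, h1.fderiv]
  rfl

theorem DM_sandwich {f : E → Matrix n n ℂ} {v : E} (hf : Df f v) (Q P : Matrix n n ℂ) (u : E) :
    DM (fun w => Q * f w * P) v u = Q * DM f v u * P := by
  have hc : ∀ M : Matrix n n ℂ, ∀ i j, DifferentiableAt ℝ (fun _ : E => M i j) v :=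
    fun M i j => differentiableAt_const _
  have h0 : ∀ M : Matrix n n ℂ, DM (fun _ : E => M) v u = 0 := by
    intro M
    ext i j
    show fderiv ℝ (fun _ : E => M i j) v u = 0
    rw [fderiv_fun_const]; rfl
  have h1 : ∀ i j, DifferentiableAt ℝ (fun w => (Q * f w) i j) v := by
    intro i j
    simp only [Matrix.mul_apply]
    exact DifferentiableAt.fun_sum fun k _ => (hf k j).const_mul (Q i k)
  have e1 := DM_mul (f := fun _ : E => Q) (f' := f) (v := v) (hc Q) hf u
  have e2 := DM_mul (f := fun w => Q * f w) (f' := fun _ : E => P) (v := v) h1 (hc P) u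
  rw [e2, e1, h0, h0]
  simp

theorem dz_comp {f g : E → Matrix n n ℂ} {Ω : Set E} (hΩ : IsOpen Ω) (A : E →L[ℂ] E) {v : E}
    (hv : v ∈ Ω) (hf : Df f (A v)) (h : ∀ w ∈ Ω, f (A w) = g w) (u : E) :
    dz f (A u) (A v) = dz g u v := by
  rw [dz, dz, ← map_smul, DM_comp hΩ A hv hf h, DM_comp hΩ A hv hf h]

theorem dzb_comp {f g : E → Matrix n n ℂ} {Ω : Set E} (hΩ : IsOpen Ω) (A : E →L[ℂ] E) {v : E}
    (hv : v ∈ Ω) (hf : Df f (A v)) (h : ∀ w ∈ Ω, f (A w) = g w) (u : E) :
    dzb f (A u) (A v) = dzb g u v := by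
  rw [dzb, dzb, ← map_smul, DM_comp hΩ A hv hf h, DM_comp hΩ A hv hf h]

theorem dz_sandwich {f : E → Matrix n n ℂ} {v : E} (hf : Df f v) (Q P : Matrix n n ℂ) (u : E) :
    dz (fun w => Q * f w * P) u v = Q * dz f u v * P := by
  rw [dz, dz, DM_sandwich hf, DM_sandwich hf]
  simp only [mul_sub, sub_mul, mul_smul_comm, smul_mul_assoc]

theorem dzb_sandwich {f : E → Matrix n n ℂ} {v : E} (hf : Df f v) (Q P : Matrix n n ℂ) (u : E) :
    dzb (fun w => Q * f w * P) u v = Q * dzb f u v * P := by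
  rw [dzb, dzb, DM_sandwich hf, DM_sandwich hf]
  simp only [mul_add, add_mul, mul_smul_comm, smul_mul_assoc]

variable {H : E → Matrix n n ℝ} {Ω : Set E}
  (hΩ : IsOpen Ω) (hp : ∀ v ∈ Ω, (H v).PosDef) (hs : Sm ∞ H Ω) (A : E →L[ℂ] E)
  (hA : ∀ v ∈ Ω, A v ∈ Ω) {Q Q' P P' : Matrix n n ℂ} (hQ : Q' * Q = 1) (hP : P * P' = 1)
  (hQP : ∀ v ∈ Ω, cH H (A v) = Q * cH H v * P)

include hΩ hp hs hA hQ hP hQP

theorem inv_cov {v : E} (hv : v ∈ Ω) : (cH H (A v))⁻¹ = P' * (cH H v)⁻¹ * Q' := by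
  rw [hQP v hv]
  apply Matrix.inv_eq_left_inv
  have h1 := inv_mul' hΩ hp hs hv
  have h2 : P' * P = 1 := mul_eq_one_comm.mp hP
  calc P' * (cH H v)⁻¹ * Q' * (Q * cH H v * P)
      = P' * (cH H v)⁻¹ * (Q' * Q) * cH H v * P := by simp only [Matrix.mul_assoc]
    _ = P' * ((cH H v)⁻¹ * cH H v) * P := by rw [hQ]; simp only [Matrix.mul_assoc, Matrix.one_mul]
    _ = 1 := by rw [h1, Matrix.mul_one, h2]

theorem ph_cov {v : E} (hv : v ∈ Ω) (u : E) : ph H (A u) (A v) = P' * ph H u v * P := by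
  have hd := Sm.df hΩ (sm_cH hs) hv
  have hd' := Sm.df hΩ (sm_cH hs) (hA v hv)
  rw [ph, ph, dz_comp hΩ A hv hd' hQP u, dz_sandwich hd, inv_cov hΩ hp hs A hA hQ hP hQP hv]
  simp only [mul_smul_comm, smul_mul_assoc]
  congr 1
  calc P' * (cH H v)⁻¹ * Q' * (Q * dz (cH H) u v * P)
      = P' * (cH H v)⁻¹ * (Q' * Q) * dz (cH H) u v * P := by simp only [Matrix.mul_assoc]
    _ = _ := by rw [hQ]; simp only [Matrix.mul_assoc, Matrix.one_mul]

theorem phb_cov {v : E} (hv : v ∈ Ω) (u : E) : phb H (A u) (A v) = P' * phb H u v * P := by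
  have hd := Sm.df hΩ (sm_cH hs) hv
  have hd' := Sm.df hΩ (sm_cH hs) (hA v hv)
  rw [phb, phb, dzb_comp hΩ A hv hd' hQP u, dzb_sandwich hd, inv_cov hΩ hp hs A hA hQ hP hQP hv]
  simp only [mul_smul_comm, smul_mul_assoc]
  congr 1
  calc P' * (cH H v)⁻¹ * Q' * (Q * dzb (cH H) u v * P)
      = P' * (cH H v)⁻¹ * (Q' * Q) * dzb (cH H) u v * P := by simp only [Matrix.mul_assoc]
    _ = _ := by rw [hQ]; simp only [Matrix.mul_assoc, Matrix.one_mul]

theorem tt_cov {v : E} (hv : v ∈ Ω) (u w : E) :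
    tt H (A u) (A w) (A v) = P' * tt H u w v * P := by
  have hd := Sm.df hΩ (ph_sm hΩ hp hs u) hv
  have hd' := Sm.df hΩ (ph_sm hΩ hp hs (A u)) (hA v hv)
  have h2 : P * P' = 1 := hP
  have key : ∀ X Y : Matrix n n ℂ, P' * X * P * (P' * Y * P) = P' * (X * Y) * P := by
    intro X Y
    calc P' * X * P * (P' * Y * P) = P' * X * (P * P') * Y * P := by
          simp only [Matrix.mul_assoc]
      _ = _ := by rw [h2]; simp only [Matrix.mul_assoc, Matrix.one_mul]
  rw [tt, tt, dzb_comp hΩ A hv hd' (fun v' hv' => ph_cov hΩ hp hs A hA hQ hP hQP hv' u) w,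
    dzb_sandwich hd, ph_cov hΩ hp hs A hA hQ hP hQP hv, phb_cov hΩ hp hs A hA hQ hP hQP hv]
  simp only [cm, key, mul_add, add_mul, mul_sub, sub_mul]

end cov

/-! ### homogeneous functions -/

section hom

variable {E : Type} [NormedAddCommGroup E] [NormedSpace ℂ E]

/-- the curve `t ↦ (1 + t c) v` -/
theorem DM_radial {f : E → Matrix n n ℂ} {v : E} (hf : Df f v) (c : ℂ) (i j : n) :
    HasDerivAt (fun t : ℝ => f ((1 + (t : ℂ) * c) • v) i j) (DM f v (c • v) i j) 0 := by
  have h1 : HasDerivAt (fun t : ℝ => (1 + (t : ℂ) * c) • v) (c • v) 0 := by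
    have h2 : HasDerivAt (fun t : ℝ => 1 + (t : ℂ) * c) c 0 := by
      have h3 := ((hasDerivAt_id (0 : ℝ)).ofReal_comp).mul_const c
      have h4 := h3.const_add (1 : ℂ)
      simpa using h4
    exact h2.smul_const v
  have h0 : (1 + ((0 : ℝ) : ℂ) * c) • v = v := by simp
  have h5 : HasFDerivAt (fun w => f w i j) (fderiv ℝ (fun w => f w i j) v)
      ((1 + ((0 : ℝ) : ℂ) * c) • v) := by
    rw [h0]; exact (hf i j).hasFDerivAt
  exact h5.comp_hasDerivAt 0 h1

theorem ne_near (c : ℂ) : ∀ᶠ t : ℝ in 𝓝 0, 1 + (t : ℂ) * c ≠ 0 := by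
  have h1 : ContinuousAt (fun t : ℝ => 1 + (t : ℂ) * c) 0 := by fun_prop
  have h2 : (1 + ((0 : ℝ) : ℂ) * c) ≠ 0 := by simp
  exact h1.eventually_ne h2

theorem DM_inv_zero {f : E → Matrix n n ℂ} {v : E} (hf : Df f v)
    (hom : ∀ l : ℂ, l ≠ 0 → f (l • v) = f v) (c : ℂ) : DM f v (c • v) = 0 := by
  ext i j
  have h1 := DM_radial hf c i j
  have h2 : (fun t : ℝ => f ((1 + (t : ℂ) * c) • v) i j) =ᶠ[𝓝 0] fun _ => f v i j := by
    filter_upwards [ne_near c] with t ht
    rw [hom _ ht]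
  exact h1.unique ((hasDerivAt_const (0 : ℝ) (f v i j)).congr_of_eventuallyEq h2)

theorem DM_hom_one {f : E → Matrix n n ℂ} {v : E} (hf : Df f v)
    (hom : ∀ l : ℂ, l ≠ 0 → f (l • v) = l⁻¹ • f v) (c : ℂ) : DM f v (c • v) = (-c) • f v := by
  ext i j
  have h1 := DM_radial hf c i j
  have h2 : (fun t : ℝ => f ((1 + (t : ℂ) * c) • v) i j) =ᶠ[𝓝 0]
      fun t : ℝ => (1 + (t : ℂ) * c)⁻¹ * f v i j := by
    filter_upwards [ne_near c] with t ht
    rw [hom _ ht]; rfl
  have h3 : HasDerivAt (fun t : ℝ => 1 + (t : ℂ) * c) c 0 := by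
    have h3 := ((hasDerivAt_id (0 : ℝ)).ofReal_comp).mul_const c
    have h4 := h3.const_add (1 : ℂ)
    simpa using h4
  have h4 := (h3.inv (by simp)).mul_const (f v i j)
  have h5 := h1.unique (h4.congr_of_eventuallyEq h2)
  rw [h5, Matrix.smul_apply]
  simp

variable {H : E → Matrix n n ℝ} {Ω : Set E}
  (hΩ : IsOpen Ω) (hp : ∀ v ∈ Ω, (H v).PosDef) (hs : Sm ∞ H Ω)
  (hΩ2 : ∀ v ∈ Ω, ∀ l : ℂ, l ≠ 0 → l • v ∈ Ω)
  (hom : ∀ v ∈ Ω, ∀ l : ℂ, l ≠ 0 → H (l • v) = H v)

include hΩ hp hs hΩ2 hom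

theorem cH_hom {v : E} (hv : v ∈ Ω) {l : ℂ} (hl : l ≠ 0) : cH H (l • v) = cH H v := by
  rw [cH, cH, hom v hv l hl]

theorem ph_vv {v : E} (hv : v ∈ Ω) : ph H v v = 0 ∧ phb H v v = 0 := by
  have h0 := DM_inv_zero (Sm.df hΩ (sm_cH hs) hv)
    (fun l hl => cH_hom hΩ hp hs hΩ2 hom hv hl)
  have h1 := h0 1
  rw [one_smul] at h1
  constructor
  · rw [ph, dz, h1, h0 Complex.I]; simp
  · rw [phb, dzb, h1, h0 Complex.I]; simp

theorem ph_lv {v : E} (hv : v ∈ Ω) {l : ℂ} (hl : l ≠ 0) (u : E) :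
    ph H u (l • v) = l⁻¹ • ph H u v := by
  have h := ph_cov hΩ hp hs (l • ContinuousLinearMap.id ℂ E) (fun v hv => hΩ2 v hv l hl)
    (Q := 1) (Q' := 1) (P := 1) (P' := 1) (by simp) (by simp)
    (fun v hv => by
      show cH H (l • v) = _
      rw [cH_hom hΩ hp hs hΩ2 hom hv hl]; simp) hv u
  change ph H (l • u) (l • v) = _ at h
  rw [ph_smul_r, Matrix.one_mul, Matrix.mul_one] at h
  rw [← h, smul_smul, inv_mul_cancel₀ hl, one_smul]

theorem phb_lv {v : E} (hv : v ∈ Ω) {l : ℂ} (hl : l ≠ 0) (u : E) :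
    phb H u (l • v) = (star l)⁻¹ • phb H u v := by
  have h := phb_cov hΩ hp hs (l • ContinuousLinearMap.id ℂ E) (fun v hv => hΩ2 v hv l hl)
    (Q := 1) (Q' := 1) (P := 1) (P' := 1) (by simp) (by simp)
    (fun v hv => by
      show cH H (l • v) = _
      rw [cH_hom hΩ hp hs hΩ2 hom hv hl]; simp) hv u
  change phb H (l • u) (l • v) = _ at h
  rw [phb_smul_r, Matrix.one_mul, Matrix.mul_one] at h
  have hl' : star l ≠ 0 := star_ne_zero.mpr hl
  rw [← h, smul_smul, inv_mul_cancel₀ hl', one_smul]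

theorem tt_lv {v : E} (hv : v ∈ Ω) {l : ℂ} (hl : l ≠ 0) (u w : E) :
    tt H u w (l • v) = (l * star l)⁻¹ • tt H u w v := by
  have h := tt_cov hΩ hp hs (l • ContinuousLinearMap.id ℂ E) (fun v hv => hΩ2 v hv l hl)
    (Q := 1) (Q' := 1) (P := 1) (P' := 1) (by simp) (by simp)
    (fun v hv => by
      show cH H (l • v) = _
      rw [cH_hom hΩ hp hs hΩ2 hom hv hl]; simp) hv u w
  change tt H (l • u) (l • w) (l • v) = _ at h
  have hl' : star l ≠ 0 := star_ne_zero.mpr hl
  rw [tt_smul_u hΩ hp hs (hΩ2 v hv l hl), tt_smul_w, Matrix.one_mul, Matrix.mul_one,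
    smul_smul] at h
  rw [← h, smul_smul, inv_mul_cancel₀ (mul_ne_zero hl hl'), one_smul]

theorem tt_vv {v : E} (hv : v ∈ Ω) (u : E) : tt H u v v = 0 ∧ tt H v u v = 0 := by
  have h1 : tt H u v v = 0 := by
    have h0 := DM_hom_one (f := fun v' => ph H u v') (Sm.df hΩ (ph_sm hΩ hp hs u) hv)
      (fun l hl => ph_lv hΩ hp hs hΩ2 hom hv hl u)
    have h2 := h0 1
    rw [one_smul] at h2
    rw [tt, (ph_vv hΩ hp hs hΩ2 hom hv).2, dzb, h2, h0 Complex.I, cm]
    rw [Matrix.zero_mul, Matrix.mul_zero, sub_zero, add_zero, smul_smul]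
    have hI : Complex.I * -Complex.I = 1 := by rw [mul_neg, Complex.I_mul_I, neg_neg]
    rw [hI, ← add_smul]
    simp
  refine ⟨h1, ?_⟩
  rw [← tt_adj hΩ hp hs hv u v, h1]
  simp

end hom

end LinAux

end Pool.Agent.MPd01a95
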