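import Mathlib
import Pool.Agent.Lib.MP_d01a95_gt.Box
import Pool.Agent.Lib.MP_d01a95_gt_H.HDefs
import Pool.Agent.Lib.MP_d01a95_gt_H.Unimod

set_option autoImplicit false
set_option linter.all false

open Matrix Filter Topology MeasureTheory Measure
open scoped ENNReal NNReal ContDiff

namespace Pool.Agent.MPd01a95

open GU

variable {κ n ι α : Type} [Fintype κ] [DecidableEq κ] [Fintype n] [DecidableEq n]
  [Fintype ι] [DecidableEq ι] [Fintype α] [DecidableEq α] {G : Type} [Group G]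

namespace ProperAux

theorem nqC_smul (l : ℂ) (v : κ ⊕ Unit → ℂ) : LowAux.nqC (l • v) = ‖l‖ ^ 2 * LowAux.nqC v := by
  rw [LowAux.nqC, LowAux.nqC]
  simp only [Pi.smul_apply, smul_eq_mul, norm_mul, mul_pow]
  rw [← Finset.mul_sum, mul_sub]

theorem nqC_M (g : GU κ) (v : κ ⊕ Unit → ℂ) : LowAux.nqC (g.M *ᵥ v) = LowAux.nqC v :=
  LowAux.nqC_iso g.pres v

theorem e0_eq : (GU.e0 : κ ⊕ Unit → ℂ) = LowAux.ee κ := by
  ext i
  cases i with
  | inl i => simp [GU.e0, LowAux.ee]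
  | inr i => simp [GU.e0, LowAux.ee]

theorem nqC_e0 : LowAux.nqC (GU.e0 : κ ⊕ Unit → ℂ) = 1 := by
  rw [e0_eq, LowAux.nqC]
  simp [LowAux.ee]

theorem nqC_pt (g : GU κ) : LowAux.nqC g.pt = 1 := by
  rw [GU.pt, nqC_M, nqC_e0]

theorem pt_Cn (g : GU κ) : g.pt ∈ Cn κ := by
  change 0 < LowAux.nqC g.pt
  rw [nqC_pt]
  norm_num

theorem ne_of_Cn {v : κ ⊕ Unit → ℂ} (hv : v ∈ Cn κ) : v (Sum.inr ()) ≠ 0 := by
  intro h
  have h1 : 0 < LowAux.nqC v := hv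
  rw [LowAux.nqC, h] at h1
  have h2 : 0 ≤ ∑ i, ‖v (Sum.inl i)‖ ^ 2 := Finset.sum_nonneg fun i _ => by positivity
  simp at h1
  linarith

theorem nqC_bl (z : κ → ℂ) :
    LowAux.nqC (Sum.elim z fun _ => 1 : κ ⊕ Unit → ℂ) = 1 - ∑ i, ‖z i‖ ^ 2 := by
  rw [LowAux.nqC]
  simp

theorem bl_Cn {z : κ → ℂ} (hz : z ∈ HolAux.Bl κ) : (Sum.elim z fun _ => 1 : κ ⊕ Unit → ℂ) ∈ Cn κ := by
  change 0 < LowAux.nqC _
  rw [nqC_bl]
  have : ∑ i, ‖z i‖ ^ 2 < 1 := hz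
  linarith

theorem ex_pt (v : κ ⊕ Unit → ℂ) (hv : v ∈ Cn κ) : ∃ g : GU κ, ∃ l : ℂ, l ≠ 0 ∧ v = l • g.pt := by
  have hv' : 0 < LowAux.nqC v := hv
  set s : ℝ := Real.sqrt (LowAux.nqC v) with hs
  have hs2 : s ^ 2 = LowAux.nqC v := Real.sq_sqrt hv'.le
  have hs0 : 0 < s := Real.sqrt_pos.2 hv'
  have hsC : (s : ℂ) ≠ 0 := by exact_mod_cast hs0.ne'
  have hn : LowAux.nqC ((s : ℂ)⁻¹ • v) = 1 := by
    rw [nqC_smul, norm_inv, Complex.norm_real, Real.norm_of_nonneg hs0.le, inv_pow, hs2]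
    exact inv_mul_cancel₀ hv'.ne'
  obtain ⟨h, hh, hhe⟩ := LowAux.exists_iso _ hn
  refine ⟨⟨h, hh⟩, s, hsC, ?_⟩
  rw [GU.pt, e0_eq]
  change v = (s : ℂ) • (h *ᵥ LowAux.ee κ)
  rw [hhe, smul_smul, mul_inv_cancel₀ hsC, one_smul]

theorem pt_mul (g h : GU κ) : (g * h).pt = g.M *ᵥ h.pt := by
  rw [GU.pt, GU.pt, M_mul, Matrix.mulVec_mulVec]

theorem continuous_pt : Continuous (GU.pt : GU κ → κ ⊕ Unit → ℂ) := by
  unfold GU.pt
  exact continuous_M.matrix_mulVec continuous_const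

theorem contAt_H {σ : G →* GU κ} {ρ : G →* Matrix n n ℝ} {H : (κ ⊕ Unit → ℂ) → Matrix n n ℝ}
    (hH : EqC σ ρ H) (v : κ ⊕ Unit → ℂ) (hv : v ∈ Cn κ) (i j : n) :
    ContinuousAt (fun w => H w i j) v := by
  obtain ⟨L, U, hU, h⟩ := hH.lip v hv
  exact (h i j).continuousOn.continuousAt hU

theorem cont_Hpt {σ : G →* GU κ} {ρ : G →* Matrix n n ℝ} {H : (κ ⊕ Unit → ℂ) → Matrix n n ℝ}
    (hH : EqC σ ρ H) (i j : n) : Continuous fun g : GU κ => H g.pt i j := by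
  rw [continuous_iff_continuousAt]
  intro g
  exact ContinuousAt.comp (f := GU.pt) (g := fun w => H w i j) (contAt_H hH _ (pt_Cn g) i j)
    continuous_pt.continuousAt

/-- the quadratic form -/
theorem quad_eq (A : Matrix n n ℝ) (x : n → ℝ) : x ⬝ᵥ (A *ᵥ x) = ∑ i, ∑ j, x i * (A i j * x j) := by
  simp only [dotProduct, Matrix.mulVec, Finset.mul_sum]

/-- uniform lower bound on compact sets -/
theorem lower {σ : G →* GU κ} {ρ : G →* Matrix n n ℝ} {H : (κ ⊕ Unit → ℂ) → Matrix n n ℝ}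
    (hH : EqC σ ρ H) (R : ℝ) : ∃ e > 0, ∀ g : GU κ, c g ≤ R → ∀ x : n → ℝ,
      e * ∑ i, x i ^ 2 ≤ x ⬝ᵥ (H g.pt *ᵥ x) := by
  set S : Set (n → ℝ) := {x | ∑ i, x i ^ 2 = 1} with hS
  have hSc : IsCompact S := by
    have h1 : IsClosed S := isClosed_eq (by fun_prop) continuous_const
    refine (isCompact_univ_pi (fun _ : n => isCompact_Icc (a := (-1 : ℝ)) (b := 1))).of_isClosed_subset
      h1 ?_
    intro x hx i _
    have h2 : x i ^ 2 ≤ ∑ j, x j ^ 2 :=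
      Finset.single_le_sum (f := fun j => x j ^ 2) (fun j _ => sq_nonneg _) (Finset.mem_univ i)
    have h3 : ∑ j, x j ^ 2 = 1 := hx
    rw [Set.mem_Icc]
    constructor <;> nlinarith
  set K : Set (GU κ × (n → ℝ)) := {g : GU κ | c g ≤ R} ×ˢ S with hK
  have hKc : IsCompact K := (isCompact_c R).prod hSc
  set f : GU κ × (n → ℝ) → ℝ := fun p => p.2 ⬝ᵥ (H p.1.pt *ᵥ p.2) with hf
  have hfc : Continuous f := by
    have e : f = fun p => ∑ i, ∑ j, p.2 i * (H p.1.pt i j * p.2 j) := by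
      funext p
      exact quad_eq _ _
    rw [e]
    refine continuous_finsetSum _ fun i _ => continuous_finsetSum _ fun j _ => ?_
    have h1 := (cont_Hpt hH i j).comp (continuous_fst (X := GU κ) (Y := n → ℝ))
    have h2 : Continuous fun p : GU κ × (n → ℝ) => p.2 i := (continuous_apply i).comp continuous_snd
    have h3 : Continuous fun p : GU κ × (n → ℝ) => p.2 j := (continuous_apply j).comp continuous_snd
    exact h2.mul (h1.mul h3)
  have hpos : ∀ g : GU κ, ∀ x : n → ℝ, x ≠ 0 → 0 < x ⬝ᵥ (H g.pt *ᵥ x) := by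
    intro g x hx
    have h1 := (hH.pos _ (pt_Cn g)).dotProduct_mulVec_pos hx
    simpa using h1
  have key : ∃ e > 0, ∀ p ∈ K, e ≤ f p := by
    rcases K.eq_empty_or_nonempty with h0 | hne
    · exact ⟨1, one_pos, fun p hp => by rw [h0] at hp; exact absurd hp (Set.notMem_empty _)⟩
    · obtain ⟨p, hp, hmin⟩ := hKc.exists_isMinOn hne hfc.continuousOn
      refine ⟨f p, ?_, fun q hq => hmin hq⟩
      apply hpos
      intro h0
      have h1 : ∑ i, p.2 i ^ 2 = 1 := hp.2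
      rw [h0] at h1
      simp at h1
  obtain ⟨e, he, hmin⟩ := key
  refine ⟨e, he, fun g hg x => ?_⟩
  set s := ∑ i, x i ^ 2 with hs
  have hs0 : 0 ≤ s := Finset.sum_nonneg fun i _ => sq_nonneg _
  rcases hs0.eq_or_lt with h0 | h0
  · have hx : x = 0 := by
      funext i
      have h1 : x i ^ 2 ≤ s :=
        Finset.single_le_sum (f := fun j => x j ^ 2) (fun j _ => sq_nonneg _) (Finset.mem_univ i)
      rw [← h0] at h1
      have h2 := sq_nonneg (x i)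
      exact pow_eq_zero_iff (two_ne_zero) |>.mp (le_antisymm h1 h2)
    rw [← h0, hx]
    simp
  · set t := Real.sqrt s with ht
    have ht2 : t ^ 2 = s := Real.sq_sqrt hs0
    have ht0 : 0 < t := Real.sqrt_pos.2 h0
    have hy : (t⁻¹ • x) ∈ S := by
      change ∑ i, (t⁻¹ • x) i ^ 2 = 1
      simp only [Pi.smul_apply, smul_eq_mul, mul_pow]
      rw [← Finset.mul_sum, ← hs, ← ht2, inv_pow]
      exact inv_mul_cancel₀ (by positivity)
    have h1 := hmin (g, t⁻¹ • x) ⟨hg, hy⟩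
    change e ≤ (t⁻¹ • x) ⬝ᵥ (H g.pt *ᵥ (t⁻¹ • x)) at h1
    rw [Matrix.mulVec_smul, smul_dotProduct, dotProduct_smul, smul_eq_mul, smul_eq_mul] at h1
    have h2 : t⁻¹ * (t⁻¹ * (x ⬝ᵥ (H g.pt *ᵥ x))) = (x ⬝ᵥ (H g.pt *ᵥ x)) / s := by
      rw [← ht2]
      field_simp
    rw [h2, le_div_iff₀ h0] at h1
    exact h1

/-- the trace of a congruent matrix -/
theorem trace_congr_lower {A B : Matrix n n ℝ} {e : ℝ}
    (h : ∀ x : n → ℝ, e * ∑ i, x i ^ 2 ≤ x ⬝ᵥ (A *ᵥ x)) :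
    e * ∑ j, ∑ i, B i j ^ 2 ≤ (Bᵀ * A * B).trace := by
  rw [Matrix.trace, Finset.mul_sum]
  apply Finset.sum_le_sum
  intro j _
  have h1 := h (fun i => B i j)
  refine h1.trans (le_of_eq ?_)
  rw [quad_eq, Matrix.diag_apply, Matrix.mul_apply]
  simp only [Matrix.mul_apply, Matrix.transpose_apply, Finset.sum_mul]
  rw [Finset.sum_comm]
  refine Finset.sum_congr rfl fun i _ => Finset.sum_congr rfl fun k _ => ?_
  ring

end ProperAux

open ProperAux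

/-- module PROPER -/
theorem act_h {σ : G →* GU κ} {ρ : G →* Matrix n n ℝ} {H : (κ ⊕ Unit → ℂ) → Matrix n n ℝ}
    (hH : EqC σ ρ H) (g : G) (z : κ → ℂ) (hz : z ∈ HolAux.Bl κ) :
    H (Sum.elim (act (σ g).M z) fun _ => 1) =
      (ρ g⁻¹)ᵀ * H (Sum.elim z fun _ => 1) * ρ g⁻¹ := by
  have hv := bl_Cn hz
  set v : κ ⊕ Unit → ℂ := Sum.elim z fun _ => 1 with hvd
  have hw : (σ g).M *ᵥ v ∈ Cn κ := by
    change 0 < LowAux.nqC _
    rw [nqC_M]
    exact hv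
  have hne := ne_of_Cn hw
  rw [← hH.eqv g v hv, ← hH.hom _ hw _ (inv_ne_zero hne)]
  congr 1
  ext i
  cases i with
  | inl i =>
    simp only [Sum.elim_inl, Pi.smul_apply, smul_eq_mul, act]
    rw [div_eq_inv_mul]
  | inr i =>
    simp only [Sum.elim_inr, Pi.smul_apply, smul_eq_mul]
    exact (inv_mul_cancel₀ hne).symm

/-- module PROPER -/
theorem proper_h {σ : G →* GU κ} (hL : Lat σ)
    (ρ : G →* Matrix (ι ⊕ Fin 2) (ι ⊕ Fin 2) ℝ) (hρ : ∀ g, (ρ g)ᵀ * J ι * ρ g = J ι)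
    (hp : PropAdS ρ) {H : (κ ⊕ Unit → ℂ) → Matrix (ι ⊕ Fin 2) (ι ⊕ Fin 2) ℝ}
    (hH : EqC σ ρ H) (R : ℝ) : ∃ r < 1, ∀ z ∈ HolAux.Bl κ,
      (H (Sum.elim z fun _ => 1)).trace ≤ R → ∑ i, ‖z i‖ ^ 2 ≤ r := by
  obtain ⟨R0, hR0⟩ := hL.coc
  obtain ⟨e, he, hlow⟩ := lower hH R0
  set T : ℝ := 1 + |R| / e with hT
  have hT1 : 1 ≤ T := by
    have : 0 ≤ |R| / e := by positivity
    linarith
  set K : Set (ι ⊕ Fin 2 → ℝ) := {x | nq x = 1 ∧ ∀ i, |x i| ≤ T} with hK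
  have hnqc : Continuous (nq : (ι ⊕ Fin 2 → ℝ) → ℝ) := by
    unfold nq
    fun_prop
  have hKc : IsCompact K := by
    have h1 : IsClosed K := by
      have e1 : K = {x | nq x = 1} ∩ ⋂ i, {x : ι ⊕ Fin 2 → ℝ | |x i| ≤ T} := by
        ext x
        simp [hK]
      rw [e1]
      exact (isClosed_eq hnqc continuous_const).inter (isClosed_iInter fun i =>
        isClosed_le (continuous_abs.comp (continuous_apply i)) continuous_const)
    refine (isCompact_univ_pi (fun _ : ι ⊕ Fin 2 => isCompact_Icc (a := -T) (b := T))).of_isClosed_subset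
      h1 ?_
    intro x hx i _
    rw [Set.mem_Icc]
    exact abs_le.1 (hx.2 i)
  have hfin := hp K hKc fun x hx => hx.1
  obtain ⟨M, hM⟩ := (hfin.image fun g => c (σ g)).bddAbove
  set D : ℝ := max 1 (2 * M * R0) with hD
  have hD1 : 1 ≤ D := le_max_left _ _
  refine ⟨1 - 1 / D ^ 2, by have : 0 < 1 / D ^ 2 := by positivity
                            linarith, fun z hz htr => ?_⟩
  obtain ⟨g, l, hl, hv⟩ := ex_pt _ (bl_Cn hz)
  obtain ⟨γ, hγ⟩ := hR0 g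
  have hHv : H (Sum.elim z fun _ => 1) = (ρ γ)ᵀ * H (σ γ * g).pt * ρ γ := by
    rw [hv, hH.hom _ (pt_Cn g) l hl]
    have h1 := hH.eqv γ⁻¹ (σ γ * g).pt (pt_Cn _)
    rw [inv_inv] at h1
    rw [← h1, ← pt_mul]
    congr 2
    rw [map_inv]
    group
  have hB := trace_congr_lower (B := ρ γ) (hlow _ hγ)
  rw [← hHv] at hB
  have hsum : ∑ j, ∑ i, ρ γ i j ^ 2 ≤ |R| / e := by
    rw [le_div_iff₀ he]
    calc (∑ j, ∑ i, ρ γ i j ^ 2) * e = e * ∑ j, ∑ i, ρ γ i j ^ 2 := mul_comm _ _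
      _ ≤ R := hB.trans htr
      _ ≤ |R| := le_abs_self _
  have hent : ∀ i j, |ρ γ i j| ≤ T := by
    intro i j
    have h1 : ρ γ i j ^ 2 ≤ ∑ i, ρ γ i j ^ 2 :=
      Finset.single_le_sum (f := fun i => ρ γ i j ^ 2) (fun _ _ => sq_nonneg _) (Finset.mem_univ i)
    have h2 : ∑ i, ρ γ i j ^ 2 ≤ ∑ j, ∑ i, ρ γ i j ^ 2 :=
      Finset.single_le_sum (f := fun j => ∑ i, ρ γ i j ^ 2)
        (fun _ _ => Finset.sum_nonneg fun _ _ => sq_nonneg _) (Finset.mem_univ j)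
    have h3 : |ρ γ i j| ^ 2 ≤ |R| / e := by
      rw [sq_abs]
      linarith
    have h4 : 0 ≤ |R| / e := by positivity
    rw [hT]
    by_contra hcon
    push Not at hcon
    nlinarith [abs_nonneg (ρ γ i j)]
  set x0 : ι ⊕ Fin 2 → ℝ := Pi.single (Sum.inr 0) 1 with hx0
  have hx0n : nq x0 = 1 := by
    rw [nq, hx0]
    simp
  have hx0K : x0 ∈ K := by
    refine ⟨hx0n, fun i => ?_⟩
    rw [hx0]
    by_cases h : i = Sum.inr 0
    · subst h; simpa using hT1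
    · rw [Pi.single_eq_of_ne h]; simp; linarith
  have hgx : ρ γ *ᵥ x0 ∈ K := by
    refine ⟨?_, fun i => ?_⟩
    · rw [BoxAux.nq_mul (ρ γ) (hρ γ), hx0n]
    · have : (ρ γ *ᵥ x0) i = ρ γ i (Sum.inr 0) := by rw [hx0]; simp
      rw [this]
      exact hent _ _
  have hMγ : c (σ γ) ≤ M := hM ⟨γ, ⟨x0, hx0K, hgx⟩, rfl⟩
  have hcg : c g ≤ D := by
    have h1 := c_mul (σ γ)⁻¹ (σ γ * g)
    rw [inv_mul_cancel_left, c_inv] at h1
    have h2 := c_ge_one (σ γ)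
    have h3 := c_ge_one (σ γ * g)
    calc c g ≤ 2 * c (σ γ) * c (σ γ * g) := h1
      _ ≤ 2 * M * R0 := by
        have : 0 ≤ M := by linarith
        gcongr
      _ ≤ D := le_max_right _ _
  have h1 : LowAux.nqC (Sum.elim z fun _ => 1 : κ ⊕ Unit → ℂ) = ‖l‖ ^ 2 := by
    rw [hv, nqC_smul, nqC_pt, mul_one]
  rw [nqC_bl] at h1
  have h2 : ‖l‖ * c g = 1 := by
    have h3 := congrFun hv (Sum.inr ())
    simp only [Sum.elim_inr, Pi.smul_apply, smul_eq_mul] at h3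
    have h4 : g.pt (Sum.inr ()) = g.M (Sum.inr ()) (Sum.inr ()) := by
      rw [GU.pt, mulVec_e0]
    rw [h4] at h3
    have h5 := congrArg norm h3
    rw [norm_one, norm_mul] at h5
    exact h5.symm
  have hc1 := c_ge_one g
  have h3 : 1 / D ≤ ‖l‖ := by
    have h4 : ‖l‖ = 1 / c g := by
      field_simp
      exact h2
    rw [h4]
    exact one_div_le_one_div_of_le (by linarith) hcg
  have h5 : 1 / D ^ 2 ≤ ‖l‖ ^ 2 := by
    have : 1 / D ^ 2 = (1 / D) ^ 2 := by rw [div_pow, one_pow]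
    rw [this]
    exact pow_le_pow_left₀ (by positivity) h3 2
  linarith

end Pool.Agent.MPd01a95
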