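import Mathlib
import Pool.Agent.Lib.MP_d01a95_gt_H.HDefs
import Pool.Agent.Lib.MP_d01a95_gt_H.Unimod
import Pool.Agent.Lib.MP_d01a95_gt_H.Curv
import Pool.Agent.Lib.MP_d01a95_gt_H.Cone
import Pool.Agent.Lib.MP_d01a95_gt_H.Proper
import Pool.Agent.Lib.MP_d01a95_gt_H.Cpt
import Pool.Agent.Lib.MP_d01a95_gt_H.Div
import Pool.Agent.Lib.MP_d01a95_gt_H.Leb
import Pool.Agent.Lib.MP_d01a95_gt_H.Lin

/-!
Project HARMONIC, module GLIM2: the complex Hessians and the commutators of the Higgs fields of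
the smooth approximations tend to zero in mean square on compact subsets of the cone.
-/

set_option autoImplicit false
set_option linter.all false

open Matrix Filter Topology MeasureTheory Measure
open scoped ENNReal NNReal ContDiff

namespace Pool.Agent.MPd01a95

open GU

variable {κ n ι α : Type} [Fintype κ] [DecidableEq κ] [Fintype n] [DecidableEq n]
  [Fintype ι] [DecidableEq ι] [Fintype α] [DecidableEq α] {G : Type} [Group G]

namespace Glim2Aux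

/-! ### positive semidefinite matrices -/

section psd

open scoped ComplexOrder MatrixOrder

/-- complexification of positive semidefinite matrices -/
theorem psd_map {A : Matrix n n ℝ} (h : A.PosSemidef) : (A.map ((↑) : ℝ → ℂ)).PosSemidef := by
  obtain ⟨B, hB⟩ := CStarAlgebra.nonneg_iff_eq_star_mul_self.mp h.nonneg
  have e : A.map ((↑) : ℝ → ℂ) = (B.map ((↑) : ℝ → ℂ))ᴴ * B.map ((↑) : ℝ → ℂ) := by
    rw [hB]
    ext i j
    simp [Matrix.mul_apply, Matrix.conjTranspose_apply, Matrix.star_apply]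
  rw [e]
  exact Matrix.posSemidef_conjTranspose_mul_self _

/-- the trace of a product of positive semidefinite matrices -/
theorem psd_tr {P Q : Matrix n n ℂ} (hP : P.PosSemidef) (hQ : Q.PosSemidef) :
    0 ≤ (P * Q).trace.re := by
  obtain ⟨B, hB⟩ := CStarAlgebra.nonneg_iff_eq_star_mul_self.mp hP.nonneg
  have h1 : (P * Q).trace = (B * Q * Bᴴ).trace := by
    rw [hB, Matrix.mul_assoc, Matrix.trace_mul_comm]
    rfl
  rw [h1]
  exact (Complex.nonneg_iff.mp (hQ.mul_mul_conjTranspose_same B).trace_nonneg).1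

theorem tr_frob (A : Matrix n n ℂ) : (A * Aᴴ).trace.re = ∑ i, ∑ j, ‖A i j‖ ^ 2 := by
  have h : (A * Aᴴ).trace = ((∑ i, ∑ j, ‖A i j‖ ^ 2 : ℝ) : ℂ) := by
    rw [Matrix.trace]
    push_cast
    refine Finset.sum_congr rfl fun i _ => ?_
    rw [Matrix.diag_apply, Matrix.mul_apply]
    refine Finset.sum_congr rfl fun j _ => ?_
    rw [Matrix.conjTranspose_apply]
    exact Complex.mul_conj' _
  rw [h, Complex.ofReal_re]

/-- bounds for the inverse -/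
theorem inv_lower {M : Matrix n n ℂ} {Λ : ℝ} (hΛ : 0 < Λ) (hd : IsUnit M.det)
    (hM : M.PosSemidef) (h : ((Λ : ℂ) • 1 - M).PosSemidef) :
    (M⁻¹ - ((Λ⁻¹ : ℝ) : ℂ) • 1).PosSemidef := by
  have hi : M⁻¹.PosSemidef := hM.inv
  have h1 := hi.mul_mul_conjTranspose_same (1 - ((Λ⁻¹ : ℝ) : ℂ) • M)
  have h2 : (1 - ((Λ⁻¹ : ℝ) : ℂ) • M)ᴴ = 1 - ((Λ⁻¹ : ℝ) : ℂ) • M := by
    rw [Matrix.conjTranspose_sub, Matrix.conjTranspose_one, Matrix.conjTranspose_smul,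
      hM.isHermitian.eq]
    congr 2
    exact Complex.conj_ofReal _
  rw [h2] at h1
  have h3 : (((Λ⁻¹ ^ 2 : ℝ) : ℂ) • ((Λ : ℂ) • (1 : Matrix n n ℂ) - M)).PosSemidef := by
    apply h.smul
    rw [Complex.zero_le_real]
    positivity
  have h4 := h1.add h3
  have e : (1 - ((Λ⁻¹ : ℝ) : ℂ) • M) * M⁻¹ * (1 - ((Λ⁻¹ : ℝ) : ℂ) • M) +
      ((Λ⁻¹ ^ 2 : ℝ) : ℂ) • ((Λ : ℂ) • (1 : Matrix n n ℂ) - M) =
      M⁻¹ - ((Λ⁻¹ : ℝ) : ℂ) • 1 := by
    have m1 : M * M⁻¹ = 1 := Matrix.mul_nonsing_inv _ hd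
    have m2 : M⁻¹ * M = 1 := Matrix.nonsing_inv_mul _ hd
    have hc : (Λ : ℂ) ≠ 0 := by exact_mod_cast hΛ.ne'
    simp only [Matrix.sub_mul, Matrix.mul_sub, Matrix.one_mul, Matrix.mul_one,
      smul_mul_assoc, mul_smul_comm, m1, m2, Matrix.mul_assoc, smul_smul, smul_sub]
    push_cast
    match_scalars <;> (field_simp; try ring)
  rw [e] at h4
  exact h4

/-- the norm attached to a positive definite matrix is nonnegative and bounded below -/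
theorem nm_lower {M A : Matrix n n ℂ} {l Λ : ℝ} (hl : 0 < l) (hΛ : 0 < Λ) (hd : IsUnit M.det)
    (hM : (M - (l : ℂ) • 1).PosSemidef) (h : ((Λ : ℂ) • 1 - M).PosSemidef) :
    l * Λ⁻¹ * ∑ i, ∑ j, ‖A i j‖ ^ 2 ≤ (A * M⁻¹ * Aᴴ * M).trace.re := by
  have hM0 : M.PosSemidef := by
    have h1 : ((l : ℂ) • (1 : Matrix n n ℂ)).PosSemidef := by
      apply Matrix.PosSemidef.one.smul
      rw [Complex.zero_le_real]
      exact hl.le
    have h2 := hM.add h1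
    simpa using h2
  have hi := inv_lower hΛ hd hM0 h
  have h1 := psd_tr (hM0.inv.mul_mul_conjTranspose_same A) hM
  have h2 := (Complex.nonneg_iff.mp (hi.mul_mul_conjTranspose_same A).trace_nonneg).1
  rw [Matrix.mul_sub, Matrix.trace_sub, Complex.sub_re] at h1
  rw [Matrix.mul_sub, Matrix.sub_mul, Matrix.trace_sub, Complex.sub_re] at h2
  have e1 : (A * M⁻¹ * Aᴴ * ((l : ℂ) • (1 : Matrix n n ℂ))).trace.re =
      l * (A * M⁻¹ * Aᴴ).trace.re := by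
    rw [mul_smul_comm, Matrix.mul_one, Matrix.trace_smul, smul_eq_mul, Complex.re_ofReal_mul]
  have e2 : (A * (((Λ⁻¹ : ℝ) : ℂ) • (1 : Matrix n n ℂ)) * Aᴴ).trace.re =
      Λ⁻¹ * ∑ i, ∑ j, ‖A i j‖ ^ 2 := by
    rw [mul_smul_comm, Matrix.mul_one, smul_mul_assoc, Matrix.trace_smul, smul_eq_mul,
      Complex.re_ofReal_mul, tr_frob]
  rw [e1] at h1
  rw [e2] at h2
  have h3 : l * (Λ⁻¹ * ∑ i, ∑ j, ‖A i j‖ ^ 2) ≤ l * (A * M⁻¹ * Aᴴ).trace.re := by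
    apply mul_le_mul_of_nonneg_left _ hl.le
    linarith
  rw [mul_assoc]
  linarith

theorem cH_psd {E : Type} {H : E → Matrix n n ℝ} {v : E} (h : (H v).PosDef) :
    (cH H v).PosSemidef := psd_map h.posSemidef

theorem cH_unit {E : Type} {H : E → Matrix n n ℝ} {v : E} (h : (H v).PosDef) :
    IsUnit (cH H v).det := by
  have h1 : (cH H v).det = (((H v).det : ℝ) : ℂ) := by
    show ((H v).map ((↑) : ℝ → ℂ)).det = _
    exact (RingHom.map_det Complex.ofRealHom (H v)).symm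
  rw [h1]
  exact isUnit_iff_ne_zero.2 (by exact_mod_cast h.det_pos.ne')

theorem nm_nonneg {E : Type} {H : E → Matrix n n ℝ} {v : E} (h : (H v).PosDef)
    (A : Matrix n n ℂ) : 0 ≤ nm H v A :=
  psd_tr ((cH_psd h).inv.mul_mul_conjTranspose_same A) (cH_psd h)

end psd

/-- real quadratic forms and semidefinite complex matrices -/
theorem psd_of_quad {A : Matrix n n ℝ} (hA : Aᵀ = A) (h : ∀ x : n → ℝ, 0 ≤ x ⬝ᵥ (A *ᵥ x)) :
    A.PosSemidef := by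
  refine Matrix.PosSemidef.of_dotProduct_mulVec_nonneg ?_ ?_
  · rw [Matrix.IsHermitian, Matrix.conjTranspose]
    rw [hA]
    ext i j
    simp
  · intro x
    simpa using h x

theorem quad_bd (A : Matrix n n ℝ) (e : ℝ) (hA : ∀ i j, |A i j| ≤ e) (x : n → ℝ) :
    |x ⬝ᵥ (A *ᵥ x)| ≤ e * Fintype.card n * ∑ i, x i ^ 2 := by
  rw [ProperAux.quad_eq]
  refine (Finset.abs_sum_le_sum_abs _ _).trans ?_
  have h1 : ∀ i, |∑ j, x i * (A i j * x j)| ≤ ∑ j, e * ((x i ^ 2 + x j ^ 2) / 2) := by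
    intro i
    refine (Finset.abs_sum_le_sum_abs _ _).trans (Finset.sum_le_sum fun j _ => ?_)
    rw [abs_mul, abs_mul]
    have h2 : |x i| * |x j| ≤ (x i ^ 2 + x j ^ 2) / 2 := by
      have := sq_nonneg (|x i| - |x j|)
      have a1 := sq_abs (x i)
      have a2 := sq_abs (x j)
      nlinarith
    have h0 : 0 ≤ e := (abs_nonneg _).trans (hA i j)
    calc |x i| * (|A i j| * |x j|) = |A i j| * (|x i| * |x j|) := by ring
      _ ≤ e * ((x i ^ 2 + x j ^ 2) / 2) :=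
        mul_le_mul (hA i j) h2 (by positivity) h0
  refine (Finset.sum_le_sum fun i _ => h1 i).trans (le_of_eq ?_)
  simp only [← Finset.mul_sum, ← Finset.sum_div, Finset.sum_add_distrib, Finset.sum_const,
    Finset.card_univ, nsmul_eq_mul]
  ring

/-! ### uniform bounds for the approximations -/

theorem mem_C (R : ℝ) : IsCompact (GU.pt '' {g : GU κ | c g ≤ R}) ∧
    GU.pt '' {g : GU κ | c g ≤ R} ⊆ Cn κ := by
  refine ⟨(isCompact_c R).image ProperAux.continuous_pt, ?_⟩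
  rintro _ ⟨g, -, rfl⟩
  exact (pt_mem g).1

open scoped ComplexOrder in
theorem hk_lower {σ : G →* GU κ} {μ : Measure (GU κ)} {χ : GU κ → ℝ} {ρ : G →* Matrix n n ℝ}
    {H : (κ ⊕ Unit → ℂ) → Matrix n n ℝ} (hH : EqC σ ρ H)
    {Hk : ℕ → (κ ⊕ Unit → ℂ) → Matrix n n ℝ} (ha : Approx μ χ σ ρ H Hk) (R : ℝ) :
    ∃ c0 > 0, ∀ᶠ k in atTop, ∀ g : GU κ, c g ≤ R → ∀ A : Matrix n n ℂ,
      c0 * ∑ i, ∑ j, ‖A i j‖ ^ 2 ≤ nm (Hk k) g.pt A := by
  obtain ⟨e, he, hlow⟩ := ProperAux.lower hH R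
  set N : ℝ := ((Fintype.card n : ℕ) : ℝ) with hN
  have hN0 : 0 ≤ N := by rw [hN]; positivity
  set ε : ℝ := e / (2 * (N + 1)) with hε
  have hε0 : 0 < ε := by positivity
  have hεN : ε * N ≤ e / 2 := by
    rw [hε, div_mul_eq_mul_div, div_le_div_iff₀ (by positivity) (by norm_num)]
    nlinarith
  obtain ⟨L, hL⟩ : ∃ L : ℝ, ∀ g : GU κ, c g ≤ R → ∀ i j, |H g.pt i j| ≤ L := by
    have hc : Continuous fun g : GU κ => ∑ i, ∑ j, |H g.pt i j| :=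
      continuous_finsetSum _ fun i _ => continuous_finsetSum _ fun j _ =>
        (ProperAux.cont_Hpt hH i j).abs
    obtain ⟨L, hL⟩ := ((isCompact_c (κ := κ) R).image hc).bddAbove
    refine ⟨L, fun g hg i j => ?_⟩
    have h1 : ∑ i, ∑ j, |H g.pt i j| ≤ L := hL ⟨g, hg, rfl⟩
    have h2 : |H g.pt i j| ≤ ∑ j, |H g.pt i j| :=
      Finset.single_le_sum (f := fun j => |H g.pt i j|) (fun _ _ => abs_nonneg _)
        (Finset.mem_univ j)
    have h3 : ∑ j, |H g.pt i j| ≤ ∑ i, ∑ j, |H g.pt i j| :=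
      Finset.single_le_sum (f := fun i => ∑ j, |H g.pt i j|)
        (fun _ _ => Finset.sum_nonneg fun _ _ => abs_nonneg _) (Finset.mem_univ i)
    linarith
  set L' : ℝ := |L| + ε with hL'
  set Λ : ℝ := L' * N + 1 with hΛ
  have hΛ0 : 0 < Λ := by positivity
  refine ⟨e / 2 * Λ⁻¹, by positivity, ?_⟩
  have hunif := ha.unif _ (mem_C (κ := κ) R).2 (mem_C R).1 ε hε0
  filter_upwards [hunif] with k hk g hg A
  have hclose : ∀ i j, |(Hk k g.pt - H g.pt) i j| ≤ ε := fun i j =>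
    (hk g.pt ⟨g, hg, rfl⟩ i j).le
  have hpd := (ha.eqc k).pos _ (pt_mem g).1
  have hsym : (Hk k g.pt)ᵀ = Hk k g.pt := by
    have := hpd.isHermitian
    rw [Matrix.IsHermitian, Matrix.conjTranspose] at this
    ext i j
    have h2 := congrFun (congrFun this i) j
    simpa using h2
  have hb : ∀ i j, |Hk k g.pt i j| ≤ L' := by
    intro i j
    have h1 := hclose i j
    have h2 := hL g hg i j
    rw [Matrix.sub_apply] at h1
    have h3 : Hk k g.pt i j = (Hk k g.pt i j - H g.pt i j) + H g.pt i j := by ring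
    rw [h3]
    refine (abs_add_le _ _).trans ?_
    have := le_abs_self L
    linarith
  have hsumI : ∀ (r : ℝ) (x : n → ℝ), x ⬝ᵥ ((r • (1 : Matrix n n ℝ)) *ᵥ x) =
      r * ∑ i, x i ^ 2 := by
    intro r x
    rw [Matrix.smul_mulVec, Matrix.one_mulVec, dotProduct_smul, smul_eq_mul, dotProduct]
    congr 1
    exact Finset.sum_congr rfl fun i _ => by ring
  have p1 : (Hk k g.pt - (e / 2) • (1 : Matrix n n ℝ)).PosSemidef := by
    apply psd_of_quad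
    · rw [Matrix.transpose_sub, hsym, Matrix.transpose_smul, Matrix.transpose_one]
    · intro x
      have h1 := hlow g hg x
      have h2 := (abs_le.mp (quad_bd _ ε hclose x)).1
      rw [Matrix.sub_mulVec, dotProduct_sub] at h2
      rw [Matrix.sub_mulVec, dotProduct_sub, hsumI]
      have hs : 0 ≤ ∑ i, x i ^ 2 := Finset.sum_nonneg fun i _ => sq_nonneg _
      have h3 : ε * N * ∑ i, x i ^ 2 ≤ e / 2 * ∑ i, x i ^ 2 :=
        mul_le_mul_of_nonneg_right hεN hs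
      rw [← hN] at h2
      linarith
  have p2 : (Λ • (1 : Matrix n n ℝ) - Hk k g.pt).PosSemidef := by
    apply psd_of_quad
    · rw [Matrix.transpose_sub, hsym, Matrix.transpose_smul, Matrix.transpose_one]
    · intro x
      have h2 := (abs_le.mp (quad_bd _ L' hb x)).2
      rw [Matrix.sub_mulVec, dotProduct_sub, hsumI]
      have hs : 0 ≤ ∑ i, x i ^ 2 := Finset.sum_nonneg fun i _ => sq_nonneg _
      rw [← hN] at h2
      have h3 : Λ * ∑ i, x i ^ 2 = L' * N * ∑ i, x i ^ 2 + ∑ i, x i ^ 2 := by rw [hΛ]; ring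
      linarith
  have q1 : (cH (Hk k) g.pt - ((e / 2 : ℝ) : ℂ) • 1).PosSemidef := by
    have h1 := psd_map p1
    convert h1 using 1
    ext i j
    by_cases hij : i = j <;> simp [cH, Matrix.one_apply, hij]
  have q2 : ((Λ : ℂ) • 1 - cH (Hk k) g.pt).PosSemidef := by
    have h1 := psd_map p2
    convert h1 using 1
    ext i j
    by_cases hij : i = j <;> simp [cH, Matrix.one_apply, hij]
  exact nm_lower (by positivity) hΛ0 (cH_unit hpd) q1 q2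

/-- private copy of the invariance theorem of the module FRAME -/
theorem finv {H : (κ ⊕ Unit → ℂ) → Matrix n n ℝ} {σ : G →* GU κ} {ρ : G →* Matrix n n ℝ}
    (hH : EqC σ ρ H) (hs : Sm ∞ H (Cn κ)) (γ : G) (u w v : κ ⊕ Unit → ℂ) (hv : v ∈ Cn κ) :
    ph H ((σ γ).M *ᵥ u) ((σ γ).M *ᵥ v) =
      (ρ γ).map ((↑) : ℝ → ℂ) * ph H u v * (ρ γ⁻¹).map ((↑) : ℝ → ℂ) ∧
    tt H ((σ γ).M *ᵥ u) ((σ γ).M *ᵥ w) ((σ γ).M *ᵥ v) =
      (ρ γ).map ((↑) : ℝ → ℂ) * tt H u w v * (ρ γ⁻¹).map ((↑) : ℝ → ℂ) := by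
  have hmul : ∀ A B : Matrix n n ℝ, (A * B).map ((↑) : ℝ → ℂ) =
      A.map ((↑) : ℝ → ℂ) * B.map ((↑) : ℝ → ℂ) := fun A B =>
    Matrix.map_mul (f := Complex.ofRealHom)
  have hone : (1 : Matrix n n ℝ).map ((↑) : ℝ → ℂ) = 1 := Matrix.map_one _ (by simp) (by simp)
  have hgi' : ∀ γ : G, ρ γ⁻¹ * ρ γ = 1 := fun γ => by rw [← map_mul, inv_mul_cancel, map_one]
  set A : (κ ⊕ Unit → ℂ) →L[ℂ] (κ ⊕ Unit → ℂ) :=
    LinearMap.toContinuousLinearMap (Matrix.mulVecLin (σ γ).M) with hAdef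
  have hA : ∀ v, A v = (σ γ).M *ᵥ v := fun v => rfl
  have hAΩ : ∀ v ∈ Cn κ, A v ∈ Cn κ := by
    intro v hv
    rw [hA]
    change 0 < LowAux.nqC ((σ γ).M *ᵥ v)
    rw [LowAux.nqC_iso (σ γ).pres]
    exact hv
  have hQ : ((ρ γ).map ((↑) : ℝ → ℂ))ᵀ * ((ρ γ⁻¹).map ((↑) : ℝ → ℂ))ᵀ = 1 := by
    rw [← Matrix.transpose_mul, ← hmul, hgi', hone, Matrix.transpose_one]
  have hP : ((ρ γ⁻¹).map ((↑) : ℝ → ℂ)) * ((ρ γ).map ((↑) : ℝ → ℂ)) = 1 := by
    rw [← hmul, hgi', hone]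
  have hQP : ∀ v ∈ Cn κ, cH H (A v) =
      ((ρ γ⁻¹).map ((↑) : ℝ → ℂ))ᵀ * cH H v * (ρ γ⁻¹).map ((↑) : ℝ → ℂ) := by
    intro v hv
    rw [cH, hA, hH.eqv γ v hv, hmul, hmul]
    rfl
  exact ⟨LinAux.ph_cov isOpen_Cn hH.pos hs A hAΩ hQ hP hQP hv u,
    LinAux.tt_cov isOpen_Cn hH.pos hs A hAΩ hQ hP hQP hv u w⟩

/-- invariance of the norm -/
theorem nm_inv {H : (κ ⊕ Unit → ℂ) → Matrix n n ℝ} {σ : G →* GU κ} {ρ : G →* Matrix n n ℝ}
    (hH : EqC σ ρ H) (γ : G) (v : κ ⊕ Unit → ℂ) (hv : v ∈ Cn κ) (X : Matrix n n ℂ) :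
    nm H ((σ γ).M *ᵥ v)
      ((ρ γ).map ((↑) : ℝ → ℂ) * X * (ρ γ⁻¹).map ((↑) : ℝ → ℂ)) = nm H v X := by
  have hmul : ∀ A B : Matrix n n ℝ, (A * B).map ((↑) : ℝ → ℂ) =
      A.map ((↑) : ℝ → ℂ) * B.map ((↑) : ℝ → ℂ) := fun A B =>
    Matrix.map_mul (f := Complex.ofRealHom)
  have hone : (1 : Matrix n n ℝ).map ((↑) : ℝ → ℂ) = 1 := Matrix.map_one _ (by simp) (by simp)
  have hgi' : ∀ γ : G, ρ γ⁻¹ * ρ γ = 1 := fun γ => by rw [← map_mul, inv_mul_cancel, map_one]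
  have hreal : ∀ A : Matrix n n ℝ, (A.map ((↑) : ℝ → ℂ))ᴴ = (A.map ((↑) : ℝ → ℂ))ᵀ := by
    intro A
    ext i j
    simp [Matrix.conjTranspose_apply]
  have hQP : cH H ((σ γ).M *ᵥ v) =
      ((ρ γ⁻¹).map ((↑) : ℝ → ℂ))ᵀ * cH H v * (ρ γ⁻¹).map ((↑) : ℝ → ℂ) := by
    rw [cH, hH.eqv γ v hv, hmul, hmul]
    rfl
  have hPP : ((ρ γ⁻¹).map ((↑) : ℝ → ℂ)) * ((ρ γ).map ((↑) : ℝ → ℂ)) = 1 := by
    rw [← hmul, hgi', hone]
  have hQQ : ((ρ γ).map ((↑) : ℝ → ℂ))ᵀ * ((ρ γ⁻¹).map ((↑) : ℝ → ℂ))ᵀ = 1 := by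
    rw [← Matrix.transpose_mul, hPP, Matrix.transpose_one]
  have hd : IsUnit (cH H v).det := cH_unit (hH.pos v hv)
  have m1 : cH H v * (cH H v)⁻¹ = 1 := Matrix.mul_nonsing_inv _ hd
  rw [nm, nm, hQP, Matrix.conjTranspose_mul, Matrix.conjTranspose_mul, hreal, hreal]
  set Q := (ρ γ⁻¹).map ((↑) : ℝ → ℂ) with hQ
  set P := (ρ γ).map ((↑) : ℝ → ℂ) with hP
  set M := cH H v with hM
  have hinv : (Qᵀ * M * Q)⁻¹ = P * M⁻¹ * Pᵀ := by
    apply Matrix.inv_eq_left_inv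
    have m2 : M⁻¹ * M = 1 := Matrix.nonsing_inv_mul _ hd
    have hPQ : P * Q = 1 := mul_eq_one_comm.mp hPP
    calc P * M⁻¹ * Pᵀ * (Qᵀ * M * Q) = P * M⁻¹ * (Pᵀ * Qᵀ) * M * Q := by
          simp only [Matrix.mul_assoc]
      _ = P * (M⁻¹ * M) * Q := by rw [hQQ]; simp only [Matrix.mul_assoc, Matrix.one_mul]
      _ = 1 := by rw [m2, Matrix.mul_one, hPQ]
  rw [hinv]
  congr 1
  calc (P * X * Q * (P * M⁻¹ * Pᵀ) * (Qᵀ * (Xᴴ * Pᵀ)) * (Qᵀ * M * Q)).trace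
      = (P * (X * (Q * P) * M⁻¹ * (Pᵀ * Qᵀ) * Xᴴ * (Pᵀ * Qᵀ) * M * Q)).trace := by
        simp only [Matrix.mul_assoc]
    _ = (P * (X * M⁻¹ * Xᴴ * M * Q)).trace := by
        rw [hPP, hQQ]
        simp only [Matrix.one_mul, Matrix.mul_one]
    _ = (X * M⁻¹ * Xᴴ * M * Q * P).trace := by rw [Matrix.trace_mul_comm]
    _ = (X * M⁻¹ * Xᴴ * M * (Q * P)).trace := by rw [Matrix.mul_assoc _ Q P]
    _ = _ := by rw [hPP, Matrix.mul_one]

/-! ### tensors -/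

/-- abstract version of the tensors `tt H` and `[ph H, ph H]` -/
structure Tn (σ : G →* GU κ) (ρ : G →* Matrix n n ℝ)
    (T : (κ ⊕ Unit → ℂ) → (κ ⊕ Unit → ℂ) → (κ ⊕ Unit → ℂ) → Matrix n n ℂ) : Prop where
  su : ∀ v ∈ Cn κ, ∀ (x : κ ⊕ Unit → ℂ) (u : κ ⊕ Unit → κ ⊕ Unit → ℂ) (w : κ ⊕ Unit → ℂ),
    T (∑ a, x a • u a) w v = ∑ a, x a • T (u a) w v
  sw : ∃ s : ℂ → ℂ, Continuous s ∧ (∀ x, ‖s x‖ = ‖x‖) ∧ ∀ v ∈ Cn κ,
    ∀ (x : κ ⊕ Unit → ℂ) (w : κ ⊕ Unit → κ ⊕ Unit → ℂ) (u : κ ⊕ Unit → ℂ),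
    T u (∑ a, x a • w a) v = ∑ a, s (x a) • T u (w a) v
  z1 : ∀ v ∈ Cn κ, ∀ w, T v w v = 0
  z2 : ∀ v ∈ Cn κ, ∀ u, T u v v = 0
  sc : ∀ v ∈ Cn κ, ∀ l : ℂ, l ≠ 0 → ∀ u w i j,
    ‖T u w (l • v) i j‖ = (‖l‖ ^ 2)⁻¹ * ‖T u w v i j‖
  ct : ∀ u w i j, ContinuousOn (fun v => T u w v i j) (Cn κ)
  iv : ∀ γ, ∀ v ∈ Cn κ, ∀ u w, T ((σ γ).M *ᵥ u) ((σ γ).M *ᵥ w) ((σ γ).M *ᵥ v) =
    (ρ γ).map ((↑) : ℝ → ℂ) * T u w v * (ρ γ⁻¹).map ((↑) : ℝ → ℂ)

theorem Cn_smul {v : κ ⊕ Unit → ℂ} (hv : v ∈ Cn κ) (l : ℂ) (hl : l ≠ 0) : l • v ∈ Cn κ := by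
  change 0 < LowAux.nqC (l • v)
  rw [ProperAux.nqC_smul]
  have h : 0 < LowAux.nqC v := hv
  have : 0 < ‖l‖ := norm_pos_iff.mpr hl
  positivity

theorem tn_tt {σ : G →* GU κ} {ρ : G →* Matrix n n ℝ} {H : (κ ⊕ Unit → ℂ) → Matrix n n ℝ}
    (hH : EqC σ ρ H) (hs : Sm ∞ H (Cn κ)) : Tn σ ρ (tt H) where
  su v hv x u w := LinAux.tt_sum_u isOpen_Cn hH.pos hs hv Finset.univ x u w
  sw := ⟨star, continuous_star, fun x => norm_star x, fun v hv x w u =>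
    LinAux.tt_sum_w H Finset.univ x w u v⟩
  z1 v hv w := (LinAux.tt_vv isOpen_Cn hH.pos hs (fun v hv l hl => Cn_smul hv l hl) hH.hom hv w).2
  z2 v hv w := (LinAux.tt_vv isOpen_Cn hH.pos hs (fun v hv l hl => Cn_smul hv l hl) hH.hom hv w).1
  sc v hv l hl u w i j := by
    rw [LinAux.tt_lv isOpen_Cn hH.pos hs (fun v hv l hl => Cn_smul hv l hl) hH.hom hv hl,
      Matrix.smul_apply, smul_eq_mul, norm_mul, norm_inv, norm_mul, norm_star, pow_two]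
  ct u w i j := ((ph_smooth isOpen_Cn hH.pos hs u).2.2 w i j).continuousOn
  iv γ v hv u w := (finv hH hs γ u w v hv).2

theorem cm_sum_left {β : Type} (s : Finset β) (x : β → ℂ) (A : β → Matrix n n ℂ)
    (B : Matrix n n ℂ) : cm (∑ a ∈ s, x a • A a) B = ∑ a ∈ s, x a • cm (A a) B := by
  simp only [cm, Finset.sum_mul, Finset.mul_sum, smul_mul_assoc, mul_smul_comm, smul_sub,
    Finset.sum_sub_distrib]

theorem cm_sum_right {β : Type} (s : Finset β) (x : β → ℂ) (A : β → Matrix n n ℂ)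
    (B : Matrix n n ℂ) : cm B (∑ a ∈ s, x a • A a) = ∑ a ∈ s, x a • cm B (A a) := by
  simp only [cm, Finset.sum_mul, Finset.mul_sum, smul_mul_assoc, mul_smul_comm, smul_sub,
    Finset.sum_sub_distrib]

theorem tn_cm {σ : G →* GU κ} {ρ : G →* Matrix n n ℝ} {H : (κ ⊕ Unit → ℂ) → Matrix n n ℝ}
    (hH : EqC σ ρ H) (hs : Sm ∞ H (Cn κ)) : Tn σ ρ (fun u w v => cm (ph H u v) (ph H w v)) where
  su v hv x u w := by rw [LinAux.ph_sum_r, cm_sum_left]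
  sw := ⟨fun x => x, continuous_id, fun x => rfl, fun v hv x w u => by
    rw [LinAux.ph_sum_r, cm_sum_right]⟩
  z1 v hv w := by
    rw [(LinAux.ph_vv isOpen_Cn hH.pos hs (fun v hv l hl => Cn_smul hv l hl) hH.hom hv).1, cm]
    simp
  z2 v hv w := by
    rw [(LinAux.ph_vv isOpen_Cn hH.pos hs (fun v hv l hl => Cn_smul hv l hl) hH.hom hv).1, cm]
    simp
  sc v hv l hl u w i j := by
    rw [LinAux.ph_lv isOpen_Cn hH.pos hs (fun v hv l hl => Cn_smul hv l hl) hH.hom hv hl,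
      LinAux.ph_lv isOpen_Cn hH.pos hs (fun v hv l hl => Cn_smul hv l hl) hH.hom hv hl,
      LinAux.cm_smul_smul, Matrix.smul_apply, smul_eq_mul, norm_mul, norm_mul, norm_inv, pow_two,
      mul_inv]
  ct u w i j := by
    have h1 := (ph_smooth isOpen_Cn hH.pos hs u).1
    have h2 := (ph_smooth isOpen_Cn hH.pos hs w).1
    exact ((CurvAux.sm_sub (Sm.mul h1 h2) (Sm.mul h2 h1)) i j).continuousOn
  iv γ v hv u w := by
    have hmul : ∀ A B : Matrix n n ℝ, (A * B).map ((↑) : ℝ → ℂ) =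
        A.map ((↑) : ℝ → ℂ) * B.map ((↑) : ℝ → ℂ) := fun A B =>
      Matrix.map_mul (f := Complex.ofRealHom)
    have hone : (1 : Matrix n n ℝ).map ((↑) : ℝ → ℂ) = 1 := Matrix.map_one _ (by simp) (by simp)
    have hPP : ((ρ γ⁻¹).map ((↑) : ℝ → ℂ)) * ((ρ γ).map ((↑) : ℝ → ℂ)) = 1 := by
      rw [← hmul, ← map_mul, inv_mul_cancel, map_one, hone]
    rw [(finv hH hs γ u u v hv).1, (finv hH hs γ w w v hv).1]
    have key : ∀ X Y : Matrix n n ℂ, (ρ γ).map ((↑) : ℝ → ℂ) * X * (ρ γ⁻¹).map ((↑) : ℝ → ℂ) *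
        ((ρ γ).map ((↑) : ℝ → ℂ) * Y * (ρ γ⁻¹).map ((↑) : ℝ → ℂ)) =
        (ρ γ).map ((↑) : ℝ → ℂ) * (X * Y) * (ρ γ⁻¹).map ((↑) : ℝ → ℂ) := by
      intro X Y
      calc (ρ γ).map ((↑) : ℝ → ℂ) * X * (ρ γ⁻¹).map ((↑) : ℝ → ℂ) *
          ((ρ γ).map ((↑) : ℝ → ℂ) * Y * (ρ γ⁻¹).map ((↑) : ℝ → ℂ)) =
          (ρ γ).map ((↑) : ℝ → ℂ) * X * ((ρ γ⁻¹).map ((↑) : ℝ → ℂ) *
          (ρ γ).map ((↑) : ℝ → ℂ)) * Y * (ρ γ⁻¹).map ((↑) : ℝ → ℂ) := by
            simp only [Matrix.mul_assoc]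
        _ = _ := by rw [hPP]; simp only [Matrix.mul_assoc, Matrix.one_mul]
    simp only [cm, key, mul_sub, sub_mul]

theorem mulVec_exp (A : Matrix (κ ⊕ Unit) (κ ⊕ Unit) ℂ) (x : κ ⊕ Unit → ℂ) :
    A *ᵥ x = ∑ b, x b • (A *ᵥ Pi.single b 1) := by
  ext i
  simp only [Matrix.mulVec, dotProduct, Finset.sum_apply, Pi.smul_apply, smul_eq_mul,
    Pi.single_apply, mul_ite, mul_one, mul_zero, Finset.sum_ite_eq', Finset.mem_univ, if_true]
  exact Finset.sum_congr rfl fun j _ => mul_comm _ _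

theorem single_exp (g : GU κ) (a : κ ⊕ Unit) : (Pi.single a 1 : κ ⊕ Unit → ℂ) =
    ∑ b, (g⁻¹).M b a • (g.M *ᵥ Pi.single b 1) := by
  have h1 : (Pi.single a 1 : κ ⊕ Unit → ℂ) = g.M *ᵥ ((g⁻¹).M *ᵥ Pi.single a 1) := by
    rw [Matrix.mulVec_mulVec, mul_inv_M, Matrix.one_mulVec]
  rw [h1, mulVec_exp g.M]
  refine Finset.sum_congr rfl fun b _ => ?_
  congr 1
  simp [Matrix.mulVec, dotProduct, Pi.single_apply]

theorem frame_exp (A : Matrix (κ ⊕ Unit) (κ ⊕ Unit) ℂ) (b : κ ⊕ Unit) :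
    A *ᵥ Pi.single b 1 = ∑ a, A a b • (Pi.single a 1 : κ ⊕ Unit → ℂ) := by
  ext i
  simp [Matrix.mulVec, dotProduct, Pi.single_apply]

section tn

variable {σ : G →* GU κ} {ρ : G →* Matrix n n ℝ}
  {T : (κ ⊕ Unit → ℂ) → (κ ⊕ Unit → ℂ) → (κ ⊕ Unit → ℂ) → Matrix n n ℂ} (hT : Tn σ ρ T)

include hT

theorem Tn.cont (b d : κ ⊕ Unit) (i j : n) : Continuous fun g : GU κ =>
    T (g.M *ᵥ Pi.single b 1) (g.M *ᵥ Pi.single d 1) g.pt i j := by
  obtain ⟨s, hs, -, hs2⟩ := hT.sw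
  have e : (fun g : GU κ => T (g.M *ᵥ Pi.single b 1) (g.M *ᵥ Pi.single d 1) g.pt i j) =
      fun g : GU κ => ∑ a, g.M a b * ∑ c, s (g.M c d) *
        T (Pi.single a 1) (Pi.single c 1) g.pt i j := by
    funext g
    rw [frame_exp g.M b, hT.su _ (pt_mem g).1, Matrix.sum_apply]
    refine Finset.sum_congr rfl fun a _ => ?_
    rw [Matrix.smul_apply, smul_eq_mul, frame_exp g.M d, hs2 _ (pt_mem g).1, Matrix.sum_apply]
    rfl
  rw [e]
  have h1 : ∀ a c, Continuous fun g : GU κ => T (Pi.single a 1) (Pi.single c 1) g.pt i j :=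
    fun a c => (hT.ct _ _ i j).comp_continuous ProperAux.continuous_pt fun g => (pt_mem g).1
  have h2 : ∀ a b, Continuous fun g : GU κ => g.M a b := fun a b => continuous_M.matrix_elem a b
  exact continuous_finsetSum _ fun a _ => (h2 a b).mul <| continuous_finsetSum _ fun c _ =>
    (hs.comp (h2 c d)).mul (h1 a c)

theorem Tn.bd (R : ℝ) (g : GU κ) (hg : c g ≤ R) (a e : κ ⊕ Unit) (i j : n) :
    ‖T (Pi.single a 1) (Pi.single e 1) g.pt i j‖ ≤ (2 * R) ^ 2 * ∑ b : κ, ∑ d : κ,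
      ‖T (g.M *ᵥ ej b) (g.M *ᵥ ej d) g.pt i j‖ := by
  obtain ⟨s, hs, hs1, hs2⟩ := hT.sw
  have hR : 0 ≤ R := le_trans (by linarith [c_ge_one g]) hg
  have hM : ∀ a b, ‖(g⁻¹).M a b‖ ≤ 2 * R := by
    intro a b
    have := entry_le g⁻¹ a b
    rw [c_inv] at this
    linarith
  have e1 : T (Pi.single a 1) (Pi.single e 1) g.pt = ∑ b : κ, ∑ d : κ,
      ((g⁻¹).M (Sum.inl b) a * s ((g⁻¹).M (Sum.inl d) e)) •
        T (g.M *ᵥ ej b) (g.M *ᵥ ej d) g.pt := by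
    have z1 : T (g.M *ᵥ Pi.single (Sum.inr ()) 1) (Pi.single e 1) g.pt = 0 :=
      hT.z1 _ (pt_mem g).1 _
    have z2 : ∀ u, T u (g.M *ᵥ Pi.single (Sum.inr ()) 1) g.pt = 0 := fun u =>
      hT.z2 _ (pt_mem g).1 u
    conv_lhs => rw [single_exp g a, hT.su _ (pt_mem g).1]
    rw [Fintype.sum_sum_type]
    simp only [Finset.univ_unique, Finset.sum_singleton]
    change _ + _ • T (g.M *ᵥ Pi.single (Sum.inr ()) 1) (Pi.single e 1) g.pt = _
    rw [z1, smul_zero, add_zero]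
    refine Finset.sum_congr rfl fun b _ => ?_
    conv_lhs => rw [single_exp g e, hs2 _ (pt_mem g).1]
    rw [Fintype.sum_sum_type]
    simp only [Finset.univ_unique, Finset.sum_singleton]
    change _ • (_ + _ • T (g.M *ᵥ Pi.single (Sum.inl b) 1)
      (g.M *ᵥ Pi.single (Sum.inr ()) 1) g.pt) = _
    rw [z2, smul_zero, add_zero, Finset.smul_sum]
    refine Finset.sum_congr rfl fun d _ => ?_
    rw [smul_smul]
    rfl
  rw [e1, Matrix.sum_apply, Finset.mul_sum]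
  refine (norm_sum_le _ _).trans (Finset.sum_le_sum fun b _ => ?_)
  rw [Matrix.sum_apply, Finset.mul_sum]
  refine (norm_sum_le _ _).trans (Finset.sum_le_sum fun d _ => ?_)
  rw [Matrix.smul_apply, smul_eq_mul, norm_mul, norm_mul, hs1]
  apply mul_le_mul_of_nonneg_right _ (norm_nonneg _)
  rw [pow_two]
  exact mul_le_mul (hM _ _) (hM _ _) (norm_nonneg _) (by positivity)

theorem Tn.bd2 (R : ℝ) (g : GU κ) (hg : c g ≤ R) (a e : κ ⊕ Unit) (i j : n) :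
    ‖T (Pi.single a 1) (Pi.single e 1) g.pt i j‖ ^ 2 ≤
      ((2 * R) ^ 2) ^ 2 * (Fintype.card κ : ℝ) ^ 2 * ∑ b : κ, ∑ d : κ,
      ‖T (g.M *ᵥ ej b) (g.M *ᵥ ej d) g.pt i j‖ ^ 2 := by
  have h1 := Tn.bd hT R g hg a e i j
  have h2 : ‖T (Pi.single a 1) (Pi.single e 1) g.pt i j‖ ^ 2 ≤
      ((2 * R) ^ 2 * ∑ b : κ, ∑ d : κ, ‖T (g.M *ᵥ ej b) (g.M *ᵥ ej d) g.pt i j‖) ^ 2 := by
    gcongr
  refine h2.trans ?_
  rw [mul_pow, mul_assoc]
  apply mul_le_mul_of_nonneg_left _ (by positivity)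
  have h3 := sq_sum_le_card_mul_sum_sq (s := (Finset.univ : Finset κ))
    (f := fun b => ∑ d : κ, ‖T (g.M *ᵥ ej b) (g.M *ᵥ ej d) g.pt i j‖)
  have h4 : ∀ b : κ, (∑ d : κ, ‖T (g.M *ᵥ ej b) (g.M *ᵥ ej d) g.pt i j‖) ^ 2 ≤
      Fintype.card κ * ∑ d : κ, ‖T (g.M *ᵥ ej b) (g.M *ᵥ ej d) g.pt i j‖ ^ 2 := fun b =>
    sq_sum_le_card_mul_sum_sq (s := (Finset.univ : Finset κ))
      (f := fun d => ‖T (g.M *ᵥ ej b) (g.M *ᵥ ej d) g.pt i j‖)
  refine h3.trans ?_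
  rw [Finset.card_univ, pow_two, mul_assoc]
  apply mul_le_mul_of_nonneg_left _ (by positivity)
  rw [Finset.mul_sum]
  exact Finset.sum_le_sum fun b _ => h4 b

variable {H : (κ ⊕ Unit → ℂ) → Matrix n n ℝ} (hH : EqC σ ρ H) (hs : Sm ∞ H (Cn κ))

include hH hs

theorem Tn.cont_nm (b d : κ) : Continuous fun g : GU κ =>
    nm H g.pt (T (g.M *ᵥ ej b) (g.M *ᵥ ej d) g.pt) := by
  have h1 : Continuous fun g : GU κ => T (g.M *ᵥ ej b) (g.M *ᵥ ej d) g.pt :=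
    continuous_matrix fun i j => hT.cont (Sum.inl b) (Sum.inl d) i j
  have h2 : Continuous fun g : GU κ => cH H g.pt :=
    continuous_matrix fun i j => ((CurvAux.sm_cH hs) i j).continuousOn.comp_continuous
      ProperAux.continuous_pt fun g => (pt_mem g).1
  have h3 : Continuous fun g : GU κ => (cH H g.pt)⁻¹ :=
    continuous_matrix fun i j =>
      ((CurvAux.sm_inv isOpen_Cn hH.pos hs) i j).continuousOn.comp_continuous
      ProperAux.continuous_pt fun g => (pt_mem g).1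
  unfold nm
  exact Complex.continuous_re.comp
    (((h1.matrix_mul h3).matrix_mul h1.matrix_conjTranspose).matrix_mul h2).matrix_trace

theorem Tn.nm_invariant (b d : κ) (γ : G) (g : GU κ) :
    nm H (σ γ * g).pt (T ((σ γ * g).M *ᵥ ej b) ((σ γ * g).M *ᵥ ej d) (σ γ * g).pt) =
      nm H g.pt (T (g.M *ᵥ ej b) (g.M *ᵥ ej d) g.pt) := by
  rw [ProperAux.pt_mul, M_mul, ← Matrix.mulVec_mulVec, ← Matrix.mulVec_mulVec,
    hT.iv γ _ (pt_mem g).1, nm_inv hH γ _ (pt_mem g).1]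

end tn

/-! ### the main estimate -/

theorem main_abs {σ : G →* GU κ} (hL : Lat σ) (μ : Measure (GU κ)) [IsHaarMeasure μ]
    {χ : GU κ → ℝ} (hχ : Cut σ χ) {ρ : G →* Matrix n n ℝ}
    {H : (κ ⊕ Unit → ℂ) → Matrix n n ℝ} (hH : EqC σ ρ H)
    {Hk : ℕ → (κ ⊕ Unit → ℂ) → Matrix n n ℝ} (ha : Approx μ χ σ ρ H Hk)
    (T : ℕ → (κ ⊕ Unit → ℂ) → (κ ⊕ Unit → ℂ) → (κ ⊕ Unit → ℂ) → Matrix n n ℂ)
    (hT : ∀ k, Tn σ ρ (T k))
    (hlim : ∀ b d : κ, Tendsto (fun k => ∫ g, χ g * nm (Hk k) g.pt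
      (T k (g.M *ᵥ ej b) (g.M *ᵥ ej d) g.pt) ∂μ) atTop (𝓝 0))
    (C : Set (κ ⊕ Unit → ℂ)) (hC : C ⊆ Cn κ) (hCc : IsCompact C) (a e : κ ⊕ Unit) (i j : n) :
    Tendsto (fun k => ∫ v in C, ‖T k (Pi.single a 1) (Pi.single e 1) v i j‖ ^ 2)
      atTop (𝓝 0) := by
  haveI := right_inv hL μ
  obtain ⟨A, B, hA, hB, hleb⟩ := leb_to_haar μ C hCc hC
  obtain ⟨R, hR1, hR⟩ := exists_bound hB
  obtain ⟨N, hN, hcpt⟩ := LdispAux.cpt_bd hL μ hχ R
  obtain ⟨c0, hc0, hlow⟩ := hk_lower hH ha R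
  obtain ⟨δ, hδ, hδ2⟩ : ∃ δ > 0, ∀ v ∈ C, δ ≤ LowAux.nqC v := by
    rcases C.eq_empty_or_nonempty with h0 | hne
    · exact ⟨1, one_pos, fun v hv => by rw [h0] at hv; exact absurd hv (Set.notMem_empty _)⟩
    · obtain ⟨v, hv, hmin⟩ := hCc.exists_isMinOn hne (f := LowAux.nqC)
        (LebAux.cont_nqC (κ := κ)).continuousOn
      exact ⟨LowAux.nqC v, hC hv, fun w hw => hmin hw⟩
  have hCnm : MeasurableSet (Cn κ) := (isOpen_Cn (κ := κ)).measurableSet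
  have hCm : MeasurableSet C := hCc.measurableSet
  have hRset : MeasurableSet {g : GU κ | c g ≤ R} := (isCompact_c R).measurableSet
  set K1 : ℝ := ((2 * R) ^ 2) ^ 2 * (Fintype.card κ : ℝ) ^ 2 with hK1
  have hK10 : 0 ≤ K1 := by positivity
  set K2 : ℝ := K1 * c0⁻¹ with hK2
  have hK20 : 0 ≤ K2 := by positivity
  set nn : ℕ → κ → κ → GU κ → ℝ := fun k b d g => nm (Hk k) g.pt
    (T k (g.M *ᵥ ej b) (g.M *ᵥ ej d) g.pt) with hnn
  have hnn0 : ∀ k b d g, 0 ≤ nn k b d g := fun k b d g =>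
    nm_nonneg ((ha.eqc k).pos _ (pt_mem g).1) _
  have hnnc : ∀ k b d, Continuous (nn k b d) := fun k b d =>
    (hT k).cont_nm (ha.eqc k) (ha.sm k) b d
  have hnni : ∀ k b d γ g, nn k b d (σ γ * g) = nn k b d g := fun k b d γ g =>
    (hT k).nm_invariant (ha.eqc k) (ha.sm k) b d γ g
  set I : ℕ → ℝ := fun k => K2 * ∑ b, ∑ d, ∫ g, χ g * nn k b d g ∂μ with hI
  have hI0 : Tendsto I atTop (𝓝 0) := by
    have h1 : Tendsto I atTop (𝓝 (K2 * ∑ b : κ, ∑ d : κ, (0 : ℝ))) :=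
      Tendsto.const_mul K2 (tendsto_finsetSum _ fun b _ => tendsto_finsetSum _ fun d _ =>
        hlim b d)
    simpa using h1
  have hInn : ∀ k, 0 ≤ I k := fun k => mul_nonneg hK20 <| Finset.sum_nonneg fun b _ =>
    Finset.sum_nonneg fun d _ => integral_nonneg fun g => mul_nonneg (hχ.nonneg g) (hnn0 k b d g)
  -- the invariant function on the group
  have hgrp : ∀ᶠ k in atTop, ∫⁻ g in {g : GU κ | c g ≤ R},
      ENNReal.ofReal (‖T k (Pi.single a 1) (Pi.single e 1) g.pt i j‖ ^ 2) ∂μ ≤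
      N * ENNReal.ofReal (I k) := by
    filter_upwards [hlow] with k hk
    set Ψ : GU κ → ℝ := fun g => K2 * ∑ b, ∑ d, nn k b d g with hΨ
    have hΨc : Continuous Ψ := continuous_const.mul <| continuous_finsetSum _ fun b _ =>
      continuous_finsetSum _ fun d _ => hnnc k b d
    have hΨ0 : ∀ g, 0 ≤ Ψ g := fun g => mul_nonneg hK20 <| Finset.sum_nonneg fun b _ =>
      Finset.sum_nonneg fun d _ => hnn0 k b d g
    have hΨi : ∀ γ g, Ψ (σ γ * g) = Ψ g := fun γ g => by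
      simp only [hΨ, hnni]
    have s1 : ∫⁻ g in {g : GU κ | c g ≤ R},
        ENNReal.ofReal (‖T k (Pi.single a 1) (Pi.single e 1) g.pt i j‖ ^ 2) ∂μ ≤
        ∫⁻ g in {g : GU κ | c g ≤ R}, ENNReal.ofReal (Ψ g) ∂μ := by
      refine setLIntegral_mono' hRset fun g hg => ?_
      apply ENNReal.ofReal_le_ofReal
      refine ((hT k).bd2 R g hg a e i j).trans ?_
      rw [hΨ]
      simp only
      rw [hK2, ← hK1, mul_assoc K1 c0⁻¹]
      apply mul_le_mul_of_nonneg_left _ hK10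
      rw [Finset.mul_sum]
      refine Finset.sum_le_sum fun b _ => ?_
      rw [Finset.mul_sum]
      refine Finset.sum_le_sum fun d _ => ?_
      have h1 := hk g hg (T k (g.M *ᵥ ej b) (g.M *ᵥ ej d) g.pt)
      have h2 : ‖T k (g.M *ᵥ ej b) (g.M *ᵥ ej d) g.pt i j‖ ^ 2 ≤
          ∑ i, ∑ j, ‖T k (g.M *ᵥ ej b) (g.M *ᵥ ej d) g.pt i j‖ ^ 2 := by
        refine (Finset.single_le_sum (f := fun j =>
          ‖T k (g.M *ᵥ ej b) (g.M *ᵥ ej d) g.pt i j‖ ^ 2) (fun _ _ => by positivity)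
          (Finset.mem_univ j)).trans ?_
        exact Finset.single_le_sum (f := fun i => ∑ j,
          ‖T k (g.M *ᵥ ej b) (g.M *ᵥ ej d) g.pt i j‖ ^ 2)
          (fun _ _ => Finset.sum_nonneg fun _ _ => by positivity) (Finset.mem_univ i)
      have h3 : c0 * ‖T k (g.M *ᵥ ej b) (g.M *ᵥ ej d) g.pt i j‖ ^ 2 ≤ nn k b d g :=
        (mul_le_mul_of_nonneg_left h2 hc0.le).trans h1
      rw [← div_eq_inv_mul, le_div_iff₀ hc0, mul_comm]
      exact h3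
    have s2 := hcpt (fun g => ENNReal.ofReal (Ψ g)) hΨc.measurable.ennreal_ofReal
      (fun γ g => by rw [hΨi])
    refine (s1.trans s2).trans (le_of_eq ?_)
    congr 1
    have s3 : ∀ g, ENNReal.ofReal (χ g) * ENNReal.ofReal (Ψ g) = ENNReal.ofReal (χ g * Ψ g) :=
      fun g => (ENNReal.ofReal_mul (hχ.nonneg g)).symm
    simp only [s3]
    rw [← ofReal_integral_eq_lintegral_ofReal (DivAux.intgR μ hχ hΨc)
      (Eventually.of_forall fun g => mul_nonneg (hχ.nonneg g) (hΨ0 g))]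
    congr 1
    have s4 : ∀ g, χ g * Ψ g = ∑ b, ∑ d, K2 * (χ g * nn k b d g) := by
      intro g
      simp only [hΨ, Finset.mul_sum]
      refine Finset.sum_congr rfl fun b _ => Finset.sum_congr rfl fun d _ => ?_
      ring
    simp only [s4]
    rw [integral_finsetSum _ fun b _ => integrable_finsetSum _ fun d _ =>
      (DivAux.intgR μ hχ (hnnc k b d)).const_mul K2]
    rw [hI]
    simp only [Finset.mul_sum]
    refine Finset.sum_congr rfl fun b _ => ?_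
    rw [integral_finsetSum _ fun d _ => (DivAux.intgR μ hχ (hnnc k b d)).const_mul K2]
    refine Finset.sum_congr rfl fun d _ => ?_
    rw [integral_const_mul]
  -- transfer to the cone
  have hcone : ∀ᶠ k in atTop, ∫⁻ v in C,
      ENNReal.ofReal (‖T k (Pi.single a 1) (Pi.single e 1) v i j‖ ^ 2) ≤
      ENNReal.ofReal ((δ ^ 2)⁻¹) * (A * (N * ENNReal.ofReal (I k))) := by
    filter_upwards [hgrp] with k hk
    set F : (κ ⊕ Unit → ℂ) → ℝ := fun v => LowAux.nqC v ^ 2 *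
      ‖T k (Pi.single a 1) (Pi.single e 1) v i j‖ ^ 2 with hF
    have hFc : ContinuousOn F (Cn κ) :=
      ((LebAux.cont_nqC (κ := κ)).pow 2).continuousOn.mul (((hT k).ct _ _ i j).norm.pow 2)
    set f : (κ ⊕ Unit → ℂ) → ℝ≥0∞ := (Cn κ).indicator (fun v => ENNReal.ofReal (F v)) with hf
    have hfm : Measurable f := by
      classical
      have h1 : ContinuousOn (fun v => ENNReal.ofReal (F v)) (Cn κ) :=
        ENNReal.continuous_ofReal.comp_continuousOn hFc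
      have h2 := h1.measurable_piecewise (g := fun _ => (0 : ℝ≥0∞)) continuousOn_const hCnm
      convert h2 using 1
      rw [hf]
      funext v
      by_cases hv : v ∈ Cn κ <;> simp [Set.indicator, Set.piecewise, hv]
    have hfh : ∀ v ∈ Cn κ, ∀ l : ℂ, l ≠ 0 → f (l • v) = f v := by
      intro v hv l hl
      rw [hf, Set.indicator_of_mem (Cn_smul hv l hl), Set.indicator_of_mem hv]
      congr 1
      simp only [hF]
      rw [ProperAux.nqC_smul, (hT k).sc v hv l hl]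
      have : ‖l‖ ≠ 0 := norm_ne_zero_iff.mpr hl
      field_simp
    have h1 := hleb f hfm hfh
    have h2 : ∀ g : GU κ, f g.pt =
        ENNReal.ofReal (‖T k (Pi.single a 1) (Pi.single e 1) g.pt i j‖ ^ 2) := by
      intro g
      rw [hf, Set.indicator_of_mem (pt_mem g).1]
      simp only [hF]
      rw [(pt_mem g).2, one_pow, one_mul]
    simp only [h2] at h1
    have h3 : ∫⁻ g in B, ENNReal.ofReal (‖T k (Pi.single a 1) (Pi.single e 1) g.pt i j‖ ^ 2) ∂μ ≤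
        ∫⁻ g in {g : GU κ | c g ≤ R},
        ENNReal.ofReal (‖T k (Pi.single a 1) (Pi.single e 1) g.pt i j‖ ^ 2) ∂μ :=
      lintegral_mono_set fun g hg => hR g hg
    have h4 : ∫⁻ v in C, ENNReal.ofReal (‖T k (Pi.single a 1) (Pi.single e 1) v i j‖ ^ 2) ≤
        ∫⁻ v in C, ENNReal.ofReal ((δ ^ 2)⁻¹) * f v := by
      refine setLIntegral_mono' hCm fun v hv => ?_
      rw [hf, Set.indicator_of_mem (hC hv), ← ENNReal.ofReal_mul (by positivity)]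
      apply ENNReal.ofReal_le_ofReal
      simp only [hF]
      have h5 := hδ2 v hv
      have h6 : δ ^ 2 ≤ LowAux.nqC v ^ 2 := by gcongr
      have h7 : 1 ≤ (δ ^ 2)⁻¹ * LowAux.nqC v ^ 2 := by
        rw [← div_eq_inv_mul, le_div_iff₀ (by positivity)]
        linarith
      calc ‖T k (Pi.single a 1) (Pi.single e 1) v i j‖ ^ 2
          = 1 * ‖T k (Pi.single a 1) (Pi.single e 1) v i j‖ ^ 2 := by ring
        _ ≤ ((δ ^ 2)⁻¹ * LowAux.nqC v ^ 2) *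
            ‖T k (Pi.single a 1) (Pi.single e 1) v i j‖ ^ 2 := by gcongr
        _ = _ := by ring
    rw [lintegral_const_mul _ hfm] at h4
    refine h4.trans ?_
    gcongr
    exact h1.trans (by gcongr; exact h3.trans hk)
  have hfin : ∀ᶠ k in atTop, ∫ v in C, ‖T k (Pi.single a 1) (Pi.single e 1) v i j‖ ^ 2 ≤
      (δ ^ 2)⁻¹ * (A.toReal * (N.toReal * I k)) := by
    filter_upwards [hcone] with k hk
    have hmeas : AEStronglyMeasurable (fun v => ‖T k (Pi.single a 1) (Pi.single e 1) v i j‖ ^ 2)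
        (volume.restrict C) :=
      ((((hT k).ct _ _ i j).norm.pow 2).mono hC).aestronglyMeasurable hCm
    rw [integral_eq_lintegral_of_nonneg_ae (Eventually.of_forall fun v => by positivity) hmeas]
    have h1 := ENNReal.toReal_mono (by
      refine ENNReal.mul_ne_top ENNReal.ofReal_ne_top (ENNReal.mul_ne_top hA
        (ENNReal.mul_ne_top hN ENNReal.ofReal_ne_top))) hk
    refine h1.trans (le_of_eq ?_)
    rw [ENNReal.toReal_mul, ENNReal.toReal_mul, ENNReal.toReal_mul,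
      ENNReal.toReal_ofReal (by positivity), ENNReal.toReal_ofReal (hInn k)]
  refine tendsto_of_tendsto_of_tendsto_of_le_of_le' tendsto_const_nhds
    (h := fun k => (δ ^ 2)⁻¹ * (A.toReal * (N.toReal * I k))) ?_
    (Eventually.of_forall fun k => integral_nonneg fun v => by positivity) hfin
  have h1 := ((hI0.const_mul N.toReal).const_mul A.toReal).const_mul (δ ^ 2)⁻¹
  simpa using h1

end Glim2Aux

section lim

variable {σ : G →* GU κ} (hL : Lat σ)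
    (μ : Measure (GU κ)) [IsHaarMeasure μ] {χ : GU κ → ℝ} (hχ : Cut σ χ)
    (ρ : G →* Matrix n n ℝ) {H : (κ ⊕ Unit → ℂ) → Matrix n n ℝ} (hH : EqC σ ρ H)
    {Hk : ℕ → (κ ⊕ Unit → ℂ) → Matrix n n ℝ} (ha : Approx μ χ σ ρ H Hk)

include hL hχ hH ha

/-- module GLIM2: the complex Hessians and the commutators tend to zero -/
theorem tt_tendsto (hss : ∀ k, (∑ a, ∑ c, ∫ g, χ g * nm (Hk k) g.pt
        (tt (Hk k) (g.M *ᵥ ej a) (g.M *ᵥ ej c) g.pt) ∂μ) +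
      (∑ a, ∑ c, ∫ g, χ g * nm (Hk k) g.pt
        (cm (ph (Hk k) (g.M *ᵥ ej a) g.pt) (ph (Hk k) (g.M *ᵥ ej c) g.pt)) ∂μ) =
      ∫ g, χ g * nm (Hk k) g.pt (∑ a, tt (Hk k) (g.M *ᵥ ej a) (g.M *ᵥ ej a) g.pt) ∂μ)
    (C : Set (κ ⊕ Unit → ℂ)) (hC : C ⊆ Cn κ) (hCc : IsCompact C) (a c : κ ⊕ Unit) (i j : n) :
    Tendsto (fun k => ∫ v in C, ‖tt (Hk k) (Pi.single a 1) (Pi.single c 1) v i j‖ ^ 2)
      atTop (𝓝 0) ∧
    Tendsto (fun k => ∫ v in C, ‖cm (ph (Hk k) (Pi.single a 1) v)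
      (ph (Hk k) (Pi.single c 1) v) i j‖ ^ 2) atTop (𝓝 0) := by
  have t0 : ∀ k b d, 0 ≤ ∫ g, χ g * nm (Hk k) g.pt
      (tt (Hk k) (g.M *ᵥ ej b) (g.M *ᵥ ej d) g.pt) ∂μ := fun k b d =>
    integral_nonneg fun g => mul_nonneg (hχ.nonneg g)
      (Glim2Aux.nm_nonneg ((ha.eqc k).pos _ (pt_mem g).1) _)
  have c0 : ∀ k b d, 0 ≤ ∫ g, χ g * nm (Hk k) g.pt
      (cm (ph (Hk k) (g.M *ᵥ ej b) g.pt) (ph (Hk k) (g.M *ᵥ ej d) g.pt)) ∂μ := fun k b d =>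
    integral_nonneg fun g => mul_nonneg (hχ.nonneg g)
      (Glim2Aux.nm_nonneg ((ha.eqc k).pos _ (pt_mem g).1) _)
  have t1 : ∀ k b d, ∫ g, χ g * nm (Hk k) g.pt
      (tt (Hk k) (g.M *ᵥ ej b) (g.M *ᵥ ej d) g.pt) ∂μ ≤
      ∑ a, ∑ c, ∫ g, χ g * nm (Hk k) g.pt
        (tt (Hk k) (g.M *ᵥ ej a) (g.M *ᵥ ej c) g.pt) ∂μ := fun k b d =>
    (Finset.single_le_sum (f := fun d => ∫ g, χ g * nm (Hk k) g.pt
      (tt (Hk k) (g.M *ᵥ ej b) (g.M *ᵥ ej d) g.pt) ∂μ) (fun _ _ => t0 k b _)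
      (Finset.mem_univ d)).trans
    (Finset.single_le_sum (f := fun b => ∑ d, ∫ g, χ g * nm (Hk k) g.pt
      (tt (Hk k) (g.M *ᵥ ej b) (g.M *ᵥ ej d) g.pt) ∂μ)
      (fun _ _ => Finset.sum_nonneg fun _ _ => t0 k _ _) (Finset.mem_univ b))
  have c1 : ∀ k b d, ∫ g, χ g * nm (Hk k) g.pt
      (cm (ph (Hk k) (g.M *ᵥ ej b) g.pt) (ph (Hk k) (g.M *ᵥ ej d) g.pt)) ∂μ ≤
      ∑ a, ∑ c, ∫ g, χ g * nm (Hk k) g.pt
        (cm (ph (Hk k) (g.M *ᵥ ej a) g.pt) (ph (Hk k) (g.M *ᵥ ej c) g.pt)) ∂μ := fun k b d =>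
    (Finset.single_le_sum (f := fun d => ∫ g, χ g * nm (Hk k) g.pt
      (cm (ph (Hk k) (g.M *ᵥ ej b) g.pt) (ph (Hk k) (g.M *ᵥ ej d) g.pt)) ∂μ)
      (fun _ _ => c0 k b _) (Finset.mem_univ d)).trans
    (Finset.single_le_sum (f := fun b => ∑ d, ∫ g, χ g * nm (Hk k) g.pt
      (cm (ph (Hk k) (g.M *ᵥ ej b) g.pt) (ph (Hk k) (g.M *ᵥ ej d) g.pt)) ∂μ)
      (fun _ _ => Finset.sum_nonneg fun _ _ => c0 k _ _) (Finset.mem_univ b))
  have ts : ∀ k, 0 ≤ ∑ a, ∑ c, ∫ g, χ g * nm (Hk k) g.pt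
        (tt (Hk k) (g.M *ᵥ ej a) (g.M *ᵥ ej c) g.pt) ∂μ := fun k =>
    Finset.sum_nonneg fun b _ => Finset.sum_nonneg fun d _ => t0 k b d
  have cs : ∀ k, 0 ≤ ∑ a, ∑ c, ∫ g, χ g * nm (Hk k) g.pt
        (cm (ph (Hk k) (g.M *ᵥ ej a) g.pt) (ph (Hk k) (g.M *ᵥ ej c) g.pt)) ∂μ := fun k =>
    Finset.sum_nonneg fun b _ => Finset.sum_nonneg fun d _ => c0 k b d
  constructor
  · refine Glim2Aux.main_abs hL μ hχ hH ha (fun k => tt (Hk k))
      (fun k => Glim2Aux.tn_tt (ha.eqc k) (ha.sm k)) (fun b d => ?_) C hC hCc a c i j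
    refine squeeze_zero (fun k => t0 k b d) (fun k => ?_) ha.tens
    rw [← hss k]
    linarith [t1 k b d, cs k]
  · refine Glim2Aux.main_abs hL μ hχ hH ha
      (fun k => fun u w v => cm (ph (Hk k) u v) (ph (Hk k) w v))
      (fun k => Glim2Aux.tn_cm (ha.eqc k) (ha.sm k)) (fun b d => ?_) C hC hCc a c i j
    refine squeeze_zero (fun k => c0 k b d) (fun k => ?_) ha.tens
    rw [← hss k]
    linarith [c1 k b d, ts k]

end lim

end Pool.Agent.MPd01a95
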