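import Mathlib
import Pool.Agent.Lib.MP_d01a95_gt_H.HDefs
import Pool.Agent.Lib.MP_d01a95_gt_H.Unimod
import Pool.Agent.Lib.MP_d01a95_gt_H.Curv

set_option autoImplicit false
set_option linter.all false

open Matrix Filter Topology MeasureTheory Measure
open scoped ENNReal NNReal ContDiff

namespace Pool.Agent.MPd01a95

open GU

variable {κ n ι α : Type} [Fintype κ] [DecidableEq κ] [Fintype n] [DecidableEq n]
  [Fintype ι] [DecidableEq ι] [Fintype α] [DecidableEq α] {G : Type} [Group G]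

namespace Glim3Aux

/-! ### sequences tending to zero in `L¹` and in `L²` -/

section lp

variable {X : Type} [MeasurableSpace X] {μ : Measure X}

/-- convergence to zero in `L¹` -/
def N1 (μ : Measure X) (f : ℕ → X → ℂ) : Prop :=
  (∀ k, Integrable (f k) μ) ∧ Tendsto (fun k => ∫ v, ‖f k v‖ ∂μ) atTop (𝓝 0)

/-- convergence to zero in `L²` -/
def N2 (μ : Measure X) (f : ℕ → X → ℂ) : Prop :=
  (∀ k, AEStronglyMeasurable (f k) μ) ∧ (∀ k, Integrable (fun v => ‖f k v‖ ^ 2) μ) ∧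
    Tendsto (fun k => ∫ v, ‖f k v‖ ^ 2 ∂μ) atTop (𝓝 0)

theorem N1.add {f g : ℕ → X → ℂ} (h : N1 μ f) (h' : N1 μ g) :
    N1 μ (fun k v => f k v + g k v) := by
  refine ⟨fun k => (h.1 k).add (h'.1 k), ?_⟩
  have h1 := h.2.add h'.2
  rw [add_zero] at h1
  refine squeeze_zero (fun k => integral_nonneg fun v => norm_nonneg _) (fun k => ?_) h1
  rw [← integral_add (h.1 k).norm (h'.1 k).norm]
  exact integral_mono ((h.1 k).add (h'.1 k)).norm ((h.1 k).norm.add (h'.1 k).norm)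
    fun v => norm_add_le _ _

theorem N1.neg {f : ℕ → X → ℂ} (h : N1 μ f) : N1 μ (fun k v => - f k v) := by
  refine ⟨fun k => (h.1 k).neg, ?_⟩
  simpa only [norm_neg] using h.2

theorem N1.sub {f g : ℕ → X → ℂ} (h : N1 μ f) (h' : N1 μ g) :
    N1 μ (fun k v => f k v - g k v) := by
  simpa only [sub_eq_add_neg] using h.add h'.neg

theorem N1.zero : N1 μ (fun _ _ => (0 : ℂ)) :=
  ⟨fun _ => integrable_zero _ _ _, by simp⟩

theorem N1.sum {β : Type} (S : Finset β) {f : β → ℕ → X → ℂ} (h : ∀ b, N1 μ (f b)) :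
    N1 μ (fun k v => ∑ b ∈ S, f b k v) := by
  classical
  induction S using Finset.induction_on with
  | empty => simpa using N1.zero
  | insert a S ha ih =>
    have := (h a).add ih
    simpa only [Finset.sum_insert ha] using this

theorem N1.bmul {f : ℕ → X → ℂ} (h : N1 μ f) {g : X → ℂ} (hg : AEStronglyMeasurable g μ) {A : ℝ}
    (hA : ∀ᵐ v ∂μ, ‖g v‖ ≤ A) : N1 μ (fun k v => g v * f k v) := by
  have hi : ∀ k, Integrable (fun v => g v * f k v) μ := fun k => (h.1 k).bdd_mul hg hA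
  refine ⟨hi, ?_⟩
  have h1 := h.2.const_mul A
  rw [mul_zero] at h1
  refine squeeze_zero (fun k => integral_nonneg fun v => norm_nonneg _) (fun k => ?_) h1
  rw [← integral_const_mul]
  refine integral_mono_ae (hi k).norm ((h.1 k).norm.const_mul A) ?_
  filter_upwards [hA] with v hv
  rw [norm_mul]
  exact mul_le_mul_of_nonneg_right hv (norm_nonneg _)

theorem N2.mul {f g : ℕ → X → ℂ} (h : N2 μ f) (h' : N2 μ g) :
    N1 μ (fun k v => f k v * g k v) := by
  have hb : ∀ k v, ‖f k v * g k v‖ ≤ ‖f k v‖ ^ 2 + ‖g k v‖ ^ 2 := by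
    intro k v
    rw [norm_mul]
    nlinarith [norm_nonneg (f k v), norm_nonneg (g k v), sq_nonneg (‖f k v‖ - ‖g k v‖)]
  have hi : ∀ k, Integrable (fun v => f k v * g k v) μ := fun k =>
    Integrable.mono' ((h.2.1 k).add (h'.2.1 k)) ((h.1 k).mul (h'.1 k))
      (Eventually.of_forall fun v => hb k v)
  refine ⟨hi, ?_⟩
  have h1 := h.2.2.add h'.2.2
  rw [add_zero] at h1
  refine squeeze_zero (fun k => integral_nonneg fun v => norm_nonneg _) (fun k => ?_) h1
  rw [← integral_add (h.2.1 k) (h'.2.1 k)]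
  exact integral_mono (hi k).norm ((h.2.1 k).add (h'.2.1 k)) fun v => hb k v

theorem N2.n1 [IsFiniteMeasure μ] {f : ℕ → X → ℂ} (h : N2 μ f) : N1 μ f := by
  have hb : ∀ δ : ℝ, 0 < δ → ∀ k v, ‖f k v‖ ≤ δ / 2 + (1 / (2 * δ)) * ‖f k v‖ ^ 2 := by
    intro δ hδ k v
    have h1 : 0 ≤ (1 / (2 * δ)) * (‖f k v‖ - δ) ^ 2 := by positivity
    have h2 : (1 / (2 * δ)) * (‖f k v‖ - δ) ^ 2 =
        δ / 2 + (1 / (2 * δ)) * ‖f k v‖ ^ 2 - ‖f k v‖ := by
      field_simp
      ring
    linarith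
  have hi : ∀ k, Integrable (f k) μ := fun k =>
    Integrable.mono' ((integrable_const _).add ((h.2.1 k).const_mul _)) (h.1 k)
      (Eventually.of_forall fun v => hb 1 one_pos k v)
  refine ⟨hi, ?_⟩
  rw [Metric.tendsto_atTop]
  intro ε hε
  have hm : 0 ≤ μ.real Set.univ := measureReal_nonneg
  obtain ⟨δ, hδ, hδ2⟩ : ∃ δ : ℝ, 0 < δ ∧ δ * μ.real Set.univ < ε := by
    refine ⟨ε / (μ.real Set.univ + 1), by positivity, ?_⟩
    rw [div_mul_eq_mul_div, div_lt_iff₀ (by linarith)]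
    nlinarith
  obtain ⟨N, hN⟩ := (Metric.tendsto_atTop.1 h.2.2) (ε * δ) (by positivity)
  refine ⟨N, fun k hk => ?_⟩
  have h1 := hN k hk
  have h0 : 0 ≤ ∫ v, ‖f k v‖ ∂μ := integral_nonneg fun v => norm_nonneg _
  have h00 : 0 ≤ ∫ v, ‖f k v‖ ^ 2 ∂μ := integral_nonneg fun v => by positivity
  rw [Real.dist_eq, sub_zero, abs_of_nonneg h00] at h1
  rw [Real.dist_eq, sub_zero, abs_of_nonneg h0]
  have h2 : ∫ v, ‖f k v‖ ∂μ ≤ δ / 2 * μ.real Set.univ + (1 / (2 * δ)) * ∫ v, ‖f k v‖ ^ 2 ∂μ := by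
    calc ∫ v, ‖f k v‖ ∂μ ≤ ∫ v, (δ / 2 + (1 / (2 * δ)) * ‖f k v‖ ^ 2) ∂μ :=
          integral_mono (hi k).norm ((integrable_const _).add ((h.2.1 k).const_mul _))
            fun v => hb δ hδ k v
      _ = δ / 2 * μ.real Set.univ + (1 / (2 * δ)) * ∫ v, ‖f k v‖ ^ 2 ∂μ := by
          rw [integral_add (integrable_const _) ((h.2.1 k).const_mul _), integral_const,
            integral_const_mul, smul_eq_mul]
          ring
  have h3 : (1 / (2 * δ)) * ∫ v, ‖f k v‖ ^ 2 ∂μ < ε / 2 := by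
    rw [one_div, inv_mul_lt_iff₀ (by positivity)]
    linarith
  linarith

theorem N1.tendsto {f : ℕ → X → ℂ} {g : X → ℂ} (h : N1 μ (fun k v => f k v - g v))
    (hf : ∀ k, Integrable (f k) μ) (hg : Integrable g μ) :
    Tendsto (fun k => ∫ v, f k v ∂μ) atTop (𝓝 (∫ v, g v ∂μ)) := by
  rw [tendsto_iff_norm_sub_tendsto_zero]
  refine squeeze_zero (fun k => norm_nonneg _) (fun k => ?_) h.2
  rw [← integral_sub (hf k) hg]
  exact norm_integral_le_integral_norm _

theorem N1.ae_zero {f : ℕ → X → ℂ} {g : X → ℂ} (h : N1 μ (fun k v => f k v - g v))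
    (h' : N1 μ f) (hg : Integrable g μ) : ∀ᵐ v ∂μ, g v = 0 := by
  have h1 := (h'.sub h).2
  have h2 : (fun k : ℕ => ∫ v, ‖f k v - (f k v - g v)‖ ∂μ) = fun _ => ∫ v, ‖g v‖ ∂μ := by
    funext k
    congr 1
    funext v
    congr 1
    ring
  rw [h2] at h1
  have h3 : ∫ v, ‖g v‖ ∂μ = 0 := tendsto_nhds_unique tendsto_const_nhds h1
  rw [integral_eq_zero_iff_of_nonneg (fun v => norm_nonneg _) hg.norm] at h3
  filter_upwards [h3] with v hv
  exact norm_eq_zero.1 hv

end lp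

/-! ### regularity -/

theorem open_Cn : IsOpen (Cn κ) := by
  have hc : Continuous (fun v : κ ⊕ Unit → ℂ => LowAux.nqC v) := by
    unfold LowAux.nqC
    fun_prop
  exact hc.isOpen_preimage _ isOpen_Ioi

theorem ae_cone {P : (κ ⊕ Unit → ℂ) → Prop}
    (h : ∀ K ⊆ Cn κ, IsCompact K → ∀ᵐ v ∂(volume.restrict K), P v) :
    ∀ᵐ v ∂(volume.restrict (Cn κ)), P v := by
  rw [ae_restrict_iff' open_Cn.measurableSet]
  show volume {v | ¬ (v ∈ Cn κ → P v)} = 0
  refine measure_null_of_locally_null _ fun x hx => ?_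
  have hxC : x ∈ Cn κ := by
    by_contra hc
    exact hx fun h => absurd h hc
  obtain ⟨K, hK, hKx, hKC⟩ := exists_compact_subset open_Cn hxC
  refine ⟨K ∩ {v | ¬ (v ∈ Cn κ → P v)}, ?_, ?_⟩
  · exact Filter.inter_mem (mem_nhdsWithin_of_mem_nhds (mem_interior_iff_mem_nhds.1 hKx))
      self_mem_nhdsWithin
  · have h1 := h K hKC hK
    rw [ae_restrict_iff' hK.measurableSet] at h1
    refine measure_mono_null ?_ h1
    intro v hv
    obtain ⟨hv1, hv2⟩ := hv
    show ¬ (v ∈ K → P v)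
    intro h2
    exact hv2 fun _ => h2 hv1

section reg

variable {σ : G →* GU κ} {ρ : G →* Matrix n n ℝ} {H : (κ ⊕ Unit → ℂ) → Matrix n n ℝ}
  (hH : EqC σ ρ H)

include hH

theorem cont_H (i j : n) : ContinuousOn (fun v => H v i j) (Cn κ) := by
  intro v hv
  obtain ⟨L, U, hU, hL⟩ := hH.lip v hv
  exact ((hL i j).continuousOn.continuousAt hU).continuousWithinAt

theorem det_cH {v : κ ⊕ Unit → ℂ} (hv : v ∈ Cn κ) : IsUnit (cH H v).det := by
  have h1 : (cH H v).det = (((H v).det : ℝ) : ℂ) := by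
    unfold cH
    exact (RingHom.map_det Complex.ofRealHom (H v)).symm
  rw [h1, isUnit_iff_ne_zero]
  exact_mod_cast (hH.pos v hv).det_pos.ne'

theorem cont_inv (i j : n) : ContinuousOn (fun v => (cH H v)⁻¹ i j) (Cn κ) := by
  have h0 : Sm 0 (cH H) (Cn κ) := fun i j =>
    contDiffOn_zero.2 (Complex.continuous_ofReal.comp_continuousOn (cont_H hH i j))
  exact contDiffOn_zero.1 (h0.inv (fun v hv => det_cH hH hv) i j)

theorem fd_bdd {K : Set (κ ⊕ Unit → ℂ)} (hK : K ⊆ Cn κ) (hKc : IsCompact K) :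
    ∃ L : ℝ, ∀ v ∈ K, ∀ i j, ‖fderiv ℝ (fun w => cH H w i j) v‖ ≤ L := by
  refine hKc.induction_on (p := fun S => ∃ L : ℝ, ∀ v ∈ S, ∀ i j,
    ‖fderiv ℝ (fun w => cH H w i j) v‖ ≤ L) ⟨0, fun v hv => absurd hv (Set.notMem_empty v)⟩ ?_ ?_ ?_
  · rintro s t hst ⟨L, hL⟩
    exact ⟨L, fun v hv => hL v (hst hv)⟩
  · rintro s t ⟨L, hL⟩ ⟨L', hL'⟩
    refine ⟨max L L', fun v hv i j => ?_⟩
    rcases hv with hv | hv
    · exact (hL v hv i j).trans (le_max_left _ _)
    · exact (hL' v hv i j).trans (le_max_right _ _)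
  · intro x hx
    obtain ⟨L, U, hU, hL⟩ := hH.lip x (hK hx)
    refine ⟨interior U, mem_nhdsWithin_of_mem_nhds (interior_mem_nhds.2 hU), L, fun v hv i j => ?_⟩
    have h1 : LipschitzOnWith L (fun w => cH H w i j) U := by
      have h2 := (Complex.isometry_ofReal.lipschitz).comp_lipschitzOnWith (hL i j)
      rw [one_mul] at h2
      exact h2
    exact norm_fderiv_le_of_lipschitzOn ℝ (mem_interior_iff_mem_nhds.1 hv) h1

theorem DM_meas (i j : n) (u : κ ⊕ Unit → ℂ) : Measurable (fun v => DM (cH H) v u i j) :=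
  measurable_fderiv_apply_const ℝ (fun w => cH H w i j) u

theorem ph_reg {K : Set (κ ⊕ Unit → ℂ)} (hK : K ⊆ Cn κ) (hKc : IsCompact K)
    (u : κ ⊕ Unit → ℂ) (i j : n) :
    (AEStronglyMeasurable (fun v => ph H u v i j) (volume.restrict K) ∧
      ∃ A : ℝ, ∀ v ∈ K, ‖ph H u v i j‖ ≤ A) ∧
    (AEStronglyMeasurable (fun v => phb H u v i j) (volume.restrict K) ∧
      ∃ A : ℝ, ∀ v ∈ K, ‖phb H u v i j‖ ≤ A) := by
  have hinv : ∀ p, AEStronglyMeasurable (fun v => (cH H v)⁻¹ i p) (volume.restrict K) := fun p =>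
    ((cont_inv hH i p).mono hK).aestronglyMeasurable hKc.measurableSet
  have hinvb : ∀ p, ∃ A : ℝ, ∀ v ∈ K, ‖(cH H v)⁻¹ i p‖ ≤ A := fun p =>
    hKc.exists_bound_of_continuousOn ((cont_inv hH i p).mono hK)
  choose B hB using hinvb
  obtain ⟨L, hL⟩ := fd_bdd hH hK hKc
  have hDb : ∀ (w : κ ⊕ Unit → ℂ) (p : n), ∀ v ∈ K, ‖DM (cH H) v w p j‖ ≤ L * ‖w‖ := by
    intro w p v hv
    exact (ContinuousLinearMap.le_opNorm _ _).trans
      (mul_le_mul_of_nonneg_right (hL v hv p j) (norm_nonneg _))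
  constructor
  · have e : (fun v => ph H u v i j) = fun v => (1 / 2 : ℂ) * ∑ p, (cH H v)⁻¹ i p *
        ((1 / 2 : ℂ) * (DM (cH H) v u p j - Complex.I * DM (cH H) v (Complex.I • u) p j)) := rfl
    constructor
    · rw [e]
      refine AEStronglyMeasurable.const_mul ?_ _
      refine Finset.aestronglyMeasurable_fun_sum _ fun p _ => (hinv p).mul ?_
      exact (((DM_meas hH p j u).sub ((DM_meas hH p j _).const_mul _)).const_mul _).aestronglyMeasurable
    · refine ⟨‖(1 / 2 : ℂ)‖ * ∑ p, B p * (‖(1 / 2 : ℂ)‖ * (L * ‖u‖ + ‖Complex.I‖ *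
        (L * ‖Complex.I • u‖))), fun v hv => ?_⟩
      rw [congrFun e v, norm_mul]
      refine mul_le_mul_of_nonneg_left ?_ (norm_nonneg _)
      refine (norm_sum_le _ _).trans (Finset.sum_le_sum fun p _ => ?_)
      rw [norm_mul, norm_mul]
      refine mul_le_mul (hB p v hv) ?_ (by positivity) ((norm_nonneg _).trans (hB p v hv))
      refine mul_le_mul_of_nonneg_left ?_ (norm_nonneg _)
      refine (norm_sub_le _ _).trans (add_le_add (hDb u p v hv) ?_)
      rw [norm_mul]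
      exact mul_le_mul_of_nonneg_left (hDb _ p v hv) (norm_nonneg _)
  · have e : (fun v => phb H u v i j) = fun v => (1 / 2 : ℂ) * ∑ p, (cH H v)⁻¹ i p *
        ((1 / 2 : ℂ) * (DM (cH H) v u p j + Complex.I * DM (cH H) v (Complex.I • u) p j)) := rfl
    constructor
    · rw [e]
      refine AEStronglyMeasurable.const_mul ?_ _
      refine Finset.aestronglyMeasurable_fun_sum _ fun p _ => (hinv p).mul ?_
      exact (((DM_meas hH p j u).add ((DM_meas hH p j _).const_mul _)).const_mul _).aestronglyMeasurable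
    · refine ⟨‖(1 / 2 : ℂ)‖ * ∑ p, B p * (‖(1 / 2 : ℂ)‖ * (L * ‖u‖ + ‖Complex.I‖ *
        (L * ‖Complex.I • u‖))), fun v hv => ?_⟩
      rw [congrFun e v, norm_mul]
      refine mul_le_mul_of_nonneg_left ?_ (norm_nonneg _)
      refine (norm_sum_le _ _).trans (Finset.sum_le_sum fun p _ => ?_)
      rw [norm_mul, norm_mul]
      refine mul_le_mul (hB p v hv) ?_ (by positivity) ((norm_nonneg _).trans (hB p v hv))
      refine mul_le_mul_of_nonneg_left ?_ (norm_nonneg _)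
      refine (norm_add_le _ _).trans (add_le_add (hDb u p v hv) ?_)
      rw [norm_mul]
      exact mul_le_mul_of_nonneg_left (hDb _ p v hv) (norm_nonneg _)

end reg

/-! ### bounded measurable functions on a compact set -/

/-- bounded and measurable on `K` -/
def BM (K : Set (κ ⊕ Unit → ℂ)) (f : (κ ⊕ Unit → ℂ) → ℂ) : Prop :=
  AEStronglyMeasurable f (volume.restrict K) ∧ ∃ A : ℝ, ∀ v ∈ K, ‖f v‖ ≤ A

section bm

variable {K : Set (κ ⊕ Unit → ℂ)} {f g : (κ ⊕ Unit → ℂ) → ℂ}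

theorem BM.sub (hf : BM K f) (hg : BM K g) : BM K (fun v => f v - g v) := by
  obtain ⟨h1, A, hA⟩ := hf
  obtain ⟨h2, B, hB⟩ := hg
  exact ⟨h1.sub h2, A + B, fun v hv => (norm_sub_le _ _).trans (add_le_add (hA v hv) (hB v hv))⟩

theorem BM.add (hf : BM K f) (hg : BM K g) : BM K (fun v => f v + g v) := by
  obtain ⟨h1, A, hA⟩ := hf
  obtain ⟨h2, B, hB⟩ := hg
  exact ⟨h1.add h2, A + B, fun v hv => (norm_add_le _ _).trans (add_le_add (hA v hv) (hB v hv))⟩

theorem BM.mul (hf : BM K f) (hg : BM K g) : BM K (fun v => f v * g v) := by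
  obtain ⟨h1, A, hA⟩ := hf
  obtain ⟨h2, B, hB⟩ := hg
  refine ⟨h1.mul h2, A * B, fun v hv => ?_⟩
  rw [norm_mul]
  exact mul_le_mul (hA v hv) (hB v hv) (norm_nonneg _) ((norm_nonneg _).trans (hA v hv))

theorem BM.sum {β : Type} (S : Finset β) {F : β → (κ ⊕ Unit → ℂ) → ℂ} (h : ∀ b, BM K (F b)) :
    BM K (fun v => ∑ b ∈ S, F b v) := by
  classical
  induction S using Finset.induction_on with
  | empty =>
    refine ⟨?_, 0, fun v _ => by simp⟩
    simpa using (aestronglyMeasurable_const : AEStronglyMeasurable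
      (fun _ : κ ⊕ Unit → ℂ => (0 : ℂ)) (volume.restrict K))
  | insert a S ha ih =>
    have := (h a).add ih
    simpa only [Finset.sum_insert ha] using this

theorem BM.ae (hf : BM K f) (hK : IsCompact K) : ∃ A : ℝ, ∀ᵐ v ∂(volume.restrict K), ‖f v‖ ≤ A := by
  obtain ⟨h1, A, hA⟩ := hf
  exact ⟨A, (ae_restrict_iff' hK.measurableSet).2 (Eventually.of_forall hA)⟩

theorem fin_K (hK : IsCompact K) : IsFiniteMeasure (volume.restrict K) :=
  ⟨by rw [Measure.restrict_apply_univ]; exact hK.measure_lt_top⟩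

theorem BM.int (hf : BM K f) (hK : IsCompact K) : Integrable f (volume.restrict K) := by
  haveI := fin_K hK
  obtain ⟨A, hA⟩ := hf.ae hK
  exact Integrable.of_bound hf.1 A hA

theorem BM.int_sq (hf : BM K f) (hK : IsCompact K) :
    Integrable (fun v => ‖f v‖ ^ 2) (volume.restrict K) := by
  haveI := fin_K hK
  obtain ⟨A, hA⟩ := hf.ae hK
  refine Integrable.of_bound (hf.1.norm.pow 2) (A ^ 2) ?_
  filter_upwards [hA] with v hv
  rw [Real.norm_eq_abs, abs_of_nonneg (by positivity)]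
  exact pow_le_pow_left₀ (norm_nonneg _) hv 2

theorem BM.cont (hf : ContinuousOn f (Cn κ)) (hKC : K ⊆ Cn κ) (hK : IsCompact K) : BM K f :=
  ⟨(hf.mono hKC).aestronglyMeasurable hK.measurableSet,
    hK.exists_bound_of_continuousOn (hf.mono hKC)⟩

theorem BM.mulM {X Y : (κ ⊕ Unit → ℂ) → Matrix n n ℂ} (hX : ∀ i j, BM K (fun v => X v i j))
    (hY : ∀ i j, BM K (fun v => Y v i j)) (i j : n) : BM K (fun v => (X v * Y v) i j) := by
  simp only [Matrix.mul_apply]
  exact BM.sum _ fun p => (hX i p).mul (hY p j)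

theorem BM.cm {X Y : (κ ⊕ Unit → ℂ) → Matrix n n ℂ} (hX : ∀ i j, BM K (fun v => X v i j))
    (hY : ∀ i j, BM K (fun v => Y v i j)) (i j : n) : BM K (fun v => cm (X v) (Y v) i j) :=
  (BM.mulM hX hY i j).sub (BM.mulM hY hX i j)

theorem N1.mulM (hK : IsCompact K) {X Y : (κ ⊕ Unit → ℂ) → Matrix n n ℂ}
    {Xk Yk : ℕ → (κ ⊕ Unit → ℂ) → Matrix n n ℂ}
    (hX : ∀ i j, BM K (fun v => X v i j)) (hY : ∀ i j, BM K (fun v => Y v i j))
    (h1 : ∀ i j, N2 (volume.restrict K) (fun k v => Xk k v i j - X v i j))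
    (h2 : ∀ i j, N2 (volume.restrict K) (fun k v => Yk k v i j - Y v i j)) (i j : n) :
    N1 (volume.restrict K) (fun k v => (Xk k v * Yk k v) i j - (X v * Y v) i j) := by
  haveI := fin_K hK
  have e : (fun (k : ℕ) (v : κ ⊕ Unit → ℂ) => (Xk k v * Yk k v) i j - (X v * Y v) i j) =
      fun k v => ∑ p, ((Xk k v i p - X v i p) * (Yk k v p j - Y v p j) +
        (X v i p * (Yk k v p j - Y v p j) + Y v p j * (Xk k v i p - X v i p))) := by
    funext k v
    rw [Matrix.mul_apply, Matrix.mul_apply, ← Finset.sum_sub_distrib]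
    exact Finset.sum_congr rfl fun p _ => by ring
  rw [e]
  refine N1.sum _ fun p => ?_
  obtain ⟨A, hA⟩ := (hX i p).ae hK
  obtain ⟨B, hB⟩ := (hY p j).ae hK
  exact ((h1 i p).mul (h2 p j)).add (((h2 p j).n1.bmul (hX i p).1 hA).add
    ((h1 i p).n1.bmul (hY p j).1 hB))

theorem N1.cmM (hK : IsCompact K) {X Y : (κ ⊕ Unit → ℂ) → Matrix n n ℂ}
    {Xk Yk : ℕ → (κ ⊕ Unit → ℂ) → Matrix n n ℂ}
    (hX : ∀ i j, BM K (fun v => X v i j)) (hY : ∀ i j, BM K (fun v => Y v i j))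
    (h1 : ∀ i j, N2 (volume.restrict K) (fun k v => Xk k v i j - X v i j))
    (h2 : ∀ i j, N2 (volume.restrict K) (fun k v => Yk k v i j - Y v i j)) (i j : n) :
    N1 (volume.restrict K) (fun k v => MPd01a95.cm (Xk k v) (Yk k v) i j -
      MPd01a95.cm (X v) (Y v) i j) := by
  have e : (fun (k : ℕ) (v : κ ⊕ Unit → ℂ) => MPd01a95.cm (Xk k v) (Yk k v) i j -
      MPd01a95.cm (X v) (Y v) i j) = fun k v => ((Xk k v * Yk k v) i j - (X v * Y v) i j) -
        ((Yk k v * Xk k v) i j - (Y v * X v) i j) := by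
    funext k v
    unfold MPd01a95.cm
    rw [Matrix.sub_apply, Matrix.sub_apply]
    ring
  rw [e]
  exact (N1.mulM hK hX hY h1 h2 i j).sub (N1.mulM hK hY hX h2 h1 i j)

end bm

/-! ### integration by parts -/

theorem ibp {ψ f : (κ ⊕ Unit → ℂ) → ℂ} (hψ : ContDiff ℝ ∞ ψ) (hψc : HasCompactSupport ψ)
    (hs : tsupport ψ ⊆ Cn κ) (hf : ContDiffOn ℝ ∞ f (Cn κ)) (u : κ ⊕ Unit → ℂ) :
    Integrable (fun v => fderiv ℝ ψ v u * f v) ∧ Integrable (fun v => ψ v * fderiv ℝ f v u) ∧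
    ∫ v, ψ v * fderiv ℝ f v u = - ∫ v, fderiv ℝ ψ v u * f v := by
  have hcut : ∀ {a b : (κ ⊕ Unit → ℂ) → ℂ}, Continuous a → tsupport a ⊆ tsupport ψ →
      ContinuousOn b (Cn κ) → Integrable (fun v => a v * b v) := by
    intro a b ha hsa hb
    have hc : HasCompactSupport a := hψc.mono' (subset_closure.trans hsa)
    have h1 : Continuous (fun v => a v * b v) := by
      rw [continuous_iff_continuousAt]
      intro v
      by_cases hv : v ∈ tsupport a
      · exact ha.continuousAt.mul (hb.continuousAt (open_Cn.mem_nhds (hs (hsa hv))))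
      · have h2 : (fun v => a v * b v) =ᶠ[𝓝 v] fun _ => 0 := by
          filter_upwards [(isClosed_tsupport a).isOpen_compl.mem_nhds hv] with w hw
          rw [image_eq_zero_of_notMem_tsupport hw, zero_mul]
        exact continuousAt_const.congr h2.symm
    exact h1.integrable_of_hasCompactSupport hc.mul_right
  have hdf : ContinuousOn (fun v => fderiv ℝ f v u) (Cn κ) :=
    (hf.continuousOn_fderiv_of_isOpen open_Cn (by simp)).clm_apply continuousOn_const
  have hdψ : Continuous (fun v => fderiv ℝ ψ v u) :=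
    (hψ.continuous_fderiv (by simp)).clm_apply continuous_const
  have hsψ : tsupport (fun v => fderiv ℝ ψ v u) ⊆ tsupport ψ :=
    tsupport_fderiv_apply_subset ℝ u
  have i1 := hcut hdψ hsψ hf.continuousOn
  have i2 := hcut hψ.continuous subset_rfl hdf
  have i3 := hcut hψ.continuous subset_rfl hf.continuousOn
  exact ⟨i1, i2, integral_mul_fderiv_eq_neg_fderiv_mul_of_integrable i1 i2 i3
    (fun x _ => hψ.differentiable (by simp) x)
    (fun x hx => (hf.contDiffAt (open_Cn.mem_nhds (hs hx))).differentiableAt (by simp))⟩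

theorem ibp_db {ψ : (κ ⊕ Unit → ℂ) → ℂ} (hψ : ContDiff ℝ ∞ ψ) (hψc : HasCompactSupport ψ)
    (hs : tsupport ψ ⊆ Cn κ) {F : (κ ⊕ Unit → ℂ) → Matrix n n ℂ} (hF : Sm ∞ F (Cn κ))
    (c : κ ⊕ Unit) (i j : n) :
    ∫ v, db ψ c v * F v i j = - ∫ v, ψ v * dzb F (Pi.single c 1) v i j := by
  obtain ⟨a1, a2, a3⟩ := ibp hψ hψc hs (hF i j) (Pi.single c 1)
  obtain ⟨b1, b2, b3⟩ := ibp hψ hψc hs (hF i j) (Pi.single c Complex.I)
  have hI : Complex.I • (Pi.single c 1 : κ ⊕ Unit → ℂ) = Pi.single c Complex.I := by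
    rw [← Pi.single_smul, smul_eq_mul, mul_one]
  have e1 : (fun v => db ψ c v * F v i j) = fun v => (1 / 2 : ℂ) *
      (fderiv ℝ ψ v (Pi.single c 1) * F v i j) + (1 / 2 : ℂ) * Complex.I *
        (fderiv ℝ ψ v (Pi.single c Complex.I) * F v i j) := by
    funext v
    unfold db
    ring
  have e2 : (fun v => ψ v * dzb F (Pi.single c 1) v i j) = fun v => (1 / 2 : ℂ) *
      (ψ v * fderiv ℝ (fun w => F w i j) v (Pi.single c 1)) + (1 / 2 : ℂ) * Complex.I *
        (ψ v * fderiv ℝ (fun w => F w i j) v (Pi.single c Complex.I)) := by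
    funext v
    have : dzb F (Pi.single c 1) v i j = (1 / 2 : ℂ) * (fderiv ℝ (fun w => F w i j) v (Pi.single c 1)
      + Complex.I * fderiv ℝ (fun w => F w i j) v (Complex.I • Pi.single c 1)) := rfl
    rw [this, hI]
    ring
  rw [e1, e2, integral_add (a1.const_mul _) (b1.const_mul _),
    integral_add (a2.const_mul _) (b2.const_mul _), integral_const_mul, integral_const_mul,
    integral_const_mul, integral_const_mul, a3, b3]
  ring

end Glim3Aux

open Glim3Aux

section lim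

variable {σ : G →* GU κ} (hL : Lat σ)
    (μ : Measure (GU κ)) [IsHaarMeasure μ] {χ : GU κ → ℝ} (hχ : Cut σ χ)
    (ρ : G →* Matrix n n ℝ) {H : (κ ⊕ Unit → ℂ) → Matrix n n ℝ} (hH : EqC σ ρ H)
    {Hk : ℕ → (κ ⊕ Unit → ℂ) → Matrix n n ℝ} (ha : Approx μ χ σ ρ H Hk)

include hL hχ hH ha

/-- module GLIM3: weak equations on the cone -/
theorem weak_cone
    (h1 : ∀ C ⊆ Cn κ, IsCompact C → ∀ (a : κ ⊕ Unit) (i j : n),
      Tendsto (fun k => ∫ v in C, ‖ph (Hk k) (Pi.single a 1) v i j -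
        ph H (Pi.single a 1) v i j‖ ^ 2) atTop (𝓝 0) ∧
      Tendsto (fun k => ∫ v in C, ‖phb (Hk k) (Pi.single a 1) v i j -
        phb H (Pi.single a 1) v i j‖ ^ 2) atTop (𝓝 0))
    (h2 : ∀ C ⊆ Cn κ, IsCompact C → ∀ (a c : κ ⊕ Unit) (i j : n),
      Tendsto (fun k => ∫ v in C, ‖tt (Hk k) (Pi.single a 1) (Pi.single c 1) v i j‖ ^ 2)
        atTop (𝓝 0) ∧
      Tendsto (fun k => ∫ v in C, ‖cm (ph (Hk k) (Pi.single a 1) v)
        (ph (Hk k) (Pi.single c 1) v) i j‖ ^ 2) atTop (𝓝 0)) (a c : κ ⊕ Unit) :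
    (∀ᵐ v ∂(volume.restrict (Cn κ)),
      cm (ph H (Pi.single a 1) v) (ph H (Pi.single c 1) v) = 0) ∧
    ∀ ψ : (κ ⊕ Unit → ℂ) → ℂ, ContDiff ℝ ∞ ψ → HasCompactSupport ψ → tsupport ψ ⊆ Cn κ →
      ∀ i j, ∫ v, db ψ c v * ph H (Pi.single a 1) v i j =
        - ∫ v, ψ v * cm (ph H (Pi.single a 1) v) (phb H (Pi.single c 1) v) i j := by
  have bph : ∀ {K : Set (κ ⊕ Unit → ℂ)}, K ⊆ Cn κ → IsCompact K → ∀ u i j,
      BM K (fun v => ph H u v i j) := fun hK hKc u i j => (ph_reg hH hK hKc u i j).1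
  have bphb : ∀ {K : Set (κ ⊕ Unit → ℂ)}, K ⊆ Cn κ → IsCompact K → ∀ u i j,
      BM K (fun v => phb H u v i j) := fun hK hKc u i j => (ph_reg hH hK hKc u i j).2
  have kph : ∀ {K : Set (κ ⊕ Unit → ℂ)}, K ⊆ Cn κ → IsCompact K → ∀ k u i j,
      BM K (fun v => ph (Hk k) u v i j) := fun hK hKc k u i j => (ph_reg (ha.eqc k) hK hKc u i j).1
  have kphb : ∀ {K : Set (κ ⊕ Unit → ℂ)}, K ⊆ Cn κ → IsCompact K → ∀ k u i j,
      BM K (fun v => phb (Hk k) u v i j) := fun hK hKc k u i j =>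
    (ph_reg (ha.eqc k) hK hKc u i j).2
  have n2 : ∀ {K : Set (κ ⊕ Unit → ℂ)}, K ⊆ Cn κ → IsCompact K → ∀ (a : κ ⊕ Unit) (i j : n),
      N2 (volume.restrict K) (fun k v => ph (Hk k) (Pi.single a 1) v i j -
        ph H (Pi.single a 1) v i j) := fun hK hKc a i j =>
    ⟨fun k => ((kph hK hKc k _ i j).sub (bph hK hKc _ i j)).1,
      fun k => ((kph hK hKc k _ i j).sub (bph hK hKc _ i j)).int_sq hKc, (h1 _ hK hKc a i j).1⟩
  have n2b : ∀ {K : Set (κ ⊕ Unit → ℂ)}, K ⊆ Cn κ → IsCompact K → ∀ (a : κ ⊕ Unit) (i j : n),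
      N2 (volume.restrict K) (fun k v => phb (Hk k) (Pi.single a 1) v i j -
        phb H (Pi.single a 1) v i j) := fun hK hKc a i j =>
    ⟨fun k => ((kphb hK hKc k _ i j).sub (bphb hK hKc _ i j)).1,
      fun k => ((kphb hK hKc k _ i j).sub (bphb hK hKc _ i j)).int_sq hKc, (h1 _ hK hKc a i j).2⟩
  have hsm := fun k u => ph_smooth (open_Cn (κ := κ)) (ha.eqc k).pos (ha.sm k) u
  constructor
  · refine ae_cone fun K hK hKc => ?_
    have hij : ∀ i j, ∀ᵐ v ∂(volume.restrict K),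
        cm (ph H (Pi.single a 1) v) (ph H (Pi.single c 1) v) i j = 0 := by
      intro i j
      haveI := fin_K hKc
      have hk : ∀ k, BM K (fun v => cm (ph (Hk k) (Pi.single a 1) v)
        (ph (Hk k) (Pi.single c 1) v) i j) := fun k =>
          BM.cm (fun i j => kph hK hKc k _ i j) (fun i j => kph hK hKc k _ i j) i j
      have m1 : N1 (volume.restrict K) (fun k v => cm (ph (Hk k) (Pi.single a 1) v)
        (ph (Hk k) (Pi.single c 1) v) i j) :=
        N2.n1 ⟨fun k => (hk k).1, fun k => (hk k).int_sq hKc, (h2 K hK hKc a c i j).2⟩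
      exact N1.ae_zero (N1.cmM hKc (fun i j => bph hK hKc _ i j) (fun i j => bph hK hKc _ i j)
        (n2 hK hKc a) (n2 hK hKc c) i j) m1
        ((BM.cm (fun i j => bph hK hKc _ i j) (fun i j => bph hK hKc _ i j) i j).int hKc)
    have hall : ∀ᵐ v ∂(volume.restrict K), ∀ i j,
        cm (ph H (Pi.single a 1) v) (ph H (Pi.single c 1) v) i j = 0 :=
      ae_all_iff.2 fun i => ae_all_iff.2 fun j => hij i j
    filter_upwards [hall] with v hv
    ext i j
    exact hv i j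
  · intro ψ hψ hψc hs i j
    obtain ⟨K, hKd⟩ : ∃ K, K = tsupport ψ := ⟨_, rfl⟩
    have hK : K ⊆ Cn κ := hKd ▸ hs
    have hKc : IsCompact K := hKd ▸ hψc
    haveI := fin_K hKc
    -- restriction to the support
    have hout : ∀ v ∉ K, ψ v = 0 ∧ db ψ c v = 0 := by
      intro v hv
      rw [hKd] at hv
      refine ⟨image_eq_zero_of_notMem_tsupport hv, ?_⟩
      have h3 : ∀ u, fderiv ℝ ψ v u = 0 := fun u => by
        have h4 : v ∉ tsupport (fun v => fderiv ℝ ψ v u) := fun h5 =>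
          hv (tsupport_fderiv_apply_subset ℝ u h5)
        exact image_eq_zero_of_notMem_tsupport (f := fun v => fderiv ℝ ψ v u) h4
      unfold db
      rw [h3, h3]
      simp
    have hr1 : ∀ f : (κ ⊕ Unit → ℂ) → ℂ, ∫ v, db ψ c v * f v = ∫ v in K, db ψ c v * f v := fun f =>
      (setIntegral_eq_integral_of_forall_compl_eq_zero fun v hv => by
        rw [(hout v hv).2, zero_mul]).symm
    have hr2 : ∀ f : (κ ⊕ Unit → ℂ) → ℂ, ∫ v, ψ v * f v = ∫ v in K, ψ v * f v := fun f =>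
      (setIntegral_eq_integral_of_forall_compl_eq_zero fun v hv => by
        rw [(hout v hv).1, zero_mul]).symm
    have hdbc : Continuous (fun v => db ψ c v) := by
      have h3 : ∀ u, Continuous (fun v => fderiv ℝ ψ v u) := fun u =>
        (hψ.continuous_fderiv (by simp)).clm_apply continuous_const
      unfold db
      exact continuous_const.mul ((h3 _).add (continuous_const.mul (h3 _)))
    have bdb : BM K (fun v => db ψ c v) := BM.cont hdbc.continuousOn hK hKc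
    have bψ : BM K ψ := BM.cont hψ.continuous.continuousOn hK hKc
    -- left side
    have hl : Tendsto (fun k => ∫ v in K, db ψ c v * ph (Hk k) (Pi.single a 1) v i j) atTop
        (𝓝 (∫ v in K, db ψ c v * ph H (Pi.single a 1) v i j)) := by
      obtain ⟨A, hA⟩ := bdb.ae hKc
      have h3 := (n2 hK hKc a i j).n1.bmul bdb.1 hA
      simp only [mul_sub] at h3
      exact N1.tendsto h3 (fun k => (bdb.mul (kph hK hKc k _ i j)).int hKc)
        ((bdb.mul (bph hK hKc _ i j)).int hKc)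
    -- right side
    have bt : ∀ k, BM K (fun v => tt (Hk k) (Pi.single a 1) (Pi.single c 1) v i j) := fun k =>
      BM.cont ((hsm k _).2.2 _ i j).continuousOn hK hKc
    have bck : ∀ k, BM K (fun v => cm (ph (Hk k) (Pi.single a 1) v)
        (phb (Hk k) (Pi.single c 1) v) i j) := fun k =>
      BM.cm (fun i j => kph hK hKc k _ i j) (fun i j => kphb hK hKc k _ i j) i j
    have bc : BM K (fun v => cm (ph H (Pi.single a 1) v) (phb H (Pi.single c 1) v) i j) :=
      BM.cm (fun i j => bph hK hKc _ i j) (fun i j => bphb hK hKc _ i j) i j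
    have hr : Tendsto (fun k => ∫ v in K, ψ v * (tt (Hk k) (Pi.single a 1) (Pi.single c 1) v i j +
        cm (ph (Hk k) (Pi.single a 1) v) (phb (Hk k) (Pi.single c 1) v) i j)) atTop
        (𝓝 (∫ v in K, ψ v * cm (ph H (Pi.single a 1) v) (phb H (Pi.single c 1) v) i j)) := by
      obtain ⟨A, hA⟩ := bψ.ae hKc
      have m1 : N1 (volume.restrict K) (fun k v =>
          tt (Hk k) (Pi.single a 1) (Pi.single c 1) v i j) :=
        N2.n1 ⟨fun k => (bt k).1, fun k => (bt k).int_sq hKc, (h2 K hK hKc a c i j).1⟩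
      have m2 := N1.cmM hKc (fun i j => bph hK hKc (Pi.single a 1) i j)
        (fun i j => bphb hK hKc (Pi.single c 1) i j) (n2 hK hKc a) (n2b hK hKc c) i j
      have m3 := (m1.add m2).bmul bψ.1 hA
      refine N1.tendsto ?_ (fun k => (bψ.mul ((bt k).add (bck k))).int hKc) ((bψ.mul bc).int hKc)
      refine (iff_of_eq (congrArg _ ?_)).1 m3
      funext k v
      ring
    have hk : ∀ k, ∫ v in K, db ψ c v * ph (Hk k) (Pi.single a 1) v i j =
        - ∫ v in K, ψ v * (tt (Hk k) (Pi.single a 1) (Pi.single c 1) v i j +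
        cm (ph (Hk k) (Pi.single a 1) v) (phb (Hk k) (Pi.single c 1) v) i j) := by
      intro k
      have h3 := ibp_db hψ hψc hs (hsm k (Pi.single a 1)).1 c i j
      rw [← hr1, h3, ← hr2]
      congr 2
      funext v
      congr 1
      unfold tt cm
      simp only [Matrix.add_apply, Matrix.sub_apply]
      ring
    rw [hr1, hr2]
    refine tendsto_nhds_unique hl ?_
    simp only [hk]
    exact hr.neg

end lim

end Pool.Agent.MPd01a95
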