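import Mathlib
import Pool.Agent.Lib.MP_d01a95_gt_H.HDefs
import Pool.Agent.Lib.MP_d01a95_gt_H.Unimod

set_option autoImplicit false
set_option linter.all false

open Matrix Filter Topology MeasureTheory Measure
open scoped ENNReal NNReal ContDiff

namespace Pool.Agent.MPd01a95

open GU

variable {κ n ι α : Type} [Fintype κ] [DecidableEq κ] [Fintype n] [DecidableEq n]
  [Fintype ι] [DecidableEq ι] [Fintype α] [DecidableEq α] {G : Type} [Group G]

namespace GoneAux

section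

variable {E : Type} [NormedAddCommGroup E] [NormedSpace ℝ E] [FiniteDimensional ℝ E]
  [MeasurableSpace E] [BorelSpace E] (μ : Measure E) [IsAddHaarMeasure μ]

/-- along a segment -/
theorem seg {g : E → ℝ} {K : ℝ≥0} (hg : LipschitzWith K g) (D0 : E →L[ℝ] ℝ) {ε : ℝ}
    (p h : E) (hp : ∀ᵐ t : ℝ, t ∈ Set.Icc (0 : ℝ) 1 →
      ∃ A : E →L[ℝ] ℝ, HasFDerivAt g A (p + t • h) ∧ ‖A - D0‖ ≤ ε) :
    |g (p + h) - g p - D0 h| ≤ ε * ‖h‖ := by
  have hl : LipschitzWith ‖h‖₊ (fun t : ℝ => p + t • h) := by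
    refine LipschitzWith.of_dist_le_mul fun s t => ?_
    rw [dist_add_left, dist_eq_norm, ← sub_smul, norm_smul, dist_eq_norm, mul_comm]
    rfl
  have h1 : LipschitzWith (K * ‖h‖₊) (fun t : ℝ => g (p + t • h)) := hg.comp hl
  have h2 : LipschitzWith (‖D0 h‖₊) (fun t : ℝ => t * D0 h) := by
    refine LipschitzWith.of_dist_le_mul fun s t => ?_
    rw [dist_eq_norm, ← sub_mul, norm_mul, dist_eq_norm, mul_comm]
    rfl
  have h3 := (h1.lipschitzOnWith (s := Set.uIcc (0 : ℝ) 1)).absolutelyContinuousOnInterval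
  have h4 := (h2.lipschitzOnWith (s := Set.uIcc (0 : ℝ) 1)).absolutelyContinuousOnInterval
  have h5 := (h3.sub h4).integral_deriv_eq_sub
  have h6 : ∀ᵐ t : ℝ, t ∈ Set.uIoc (0 : ℝ) 1 →
      ‖deriv ((fun t : ℝ => g (p + t • h)) - fun t : ℝ => t * D0 h) t‖ ≤ ε * ‖h‖ := by
    filter_upwards [hp] with t ht hti
    rw [Set.uIoc_of_le zero_le_one] at hti
    obtain ⟨A, hA, hA2⟩ := ht ⟨hti.1.le, hti.2⟩
    have hd : HasDerivAt (fun t : ℝ => p + t • h) h t := by
      have := ((hasDerivAt_id t).smul_const h).const_add p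
      simpa using this
    have hd1 : HasDerivAt (fun t : ℝ => g (p + t • h)) (A h) t := hA.comp_hasDerivAt t hd
    have hd2 : HasDerivAt (fun t : ℝ => t * D0 h) (D0 h) t := by
      have := (hasDerivAt_id t).mul_const (D0 h)
      simpa using this
    rw [(hd1.sub hd2).deriv]
    calc ‖A h - D0 h‖ = ‖(A - D0) h‖ := rfl
      _ ≤ ‖A - D0‖ * ‖h‖ := (A - D0).le_opNorm h
      _ ≤ ε * ‖h‖ := mul_le_mul_of_nonneg_right hA2 (norm_nonneg _)
  have h7 := intervalIntegral.norm_integral_le_of_norm_le_const_ae h6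
  rw [h5] at h7
  simp only [Pi.sub_apply, one_smul, one_mul, zero_smul, add_zero, zero_mul, sub_zero, abs_one,
    mul_one, Real.norm_eq_abs] at h7
  have e1 : g (p + h) - D0 h - g p = g (p + h) - g p - D0 h := by ring
  rwa [e1] at h7

/-- a Lipschitz function whose derivative is almost everywhere close to a linear map -/
theorem close {g : E → ℝ} {K : ℝ≥0} (hg : LipschitzWith K g) (D0 : E →L[ℝ] ℝ) {ε : ℝ}
    {v : E} {r : ℝ}
    (h : ∀ᵐ x ∂μ, x ∈ Metric.ball v r →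
      ∃ A : E →L[ℝ] ℝ, HasFDerivAt g A x ∧ ‖A - D0‖ ≤ ε)
    {x y : E} (hx : x ∈ Metric.ball v r) (hy : y ∈ Metric.ball v r) :
    |g y - g x - D0 (y - x)| ≤ ε * ‖y - x‖ := by
  set N : Set E := {x | ¬ (x ∈ Metric.ball v r →
      ∃ A : E →L[ℝ] ℝ, HasFDerivAt g A x ∧ ‖A - D0‖ ≤ ε)} with hN
  have hN0 : μ N = 0 := h
  set s : Set E := (toMeasurable μ N)ᶜ with hs
  have hsm : MeasurableSet s := (measurableSet_toMeasurable μ N).compl
  have hsa : ∀ᵐ x ∂μ, x ∈ s := by
    rw [ae_iff]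
    have : {a | a ∉ s} = toMeasurable μ N := by
      ext a
      simp [hs]
    rw [this, measure_toMeasurable, hN0]
  let L : ℝ →ₗ[ℝ] E := LinearMap.toSpanSingleton ℝ E (y - x)
  have hf := (ae_ae_add_linearMap_mem_iff L (volume : Measure ℝ) μ hsm).2 hsa
  have hd : Dense {p : E | ∀ᵐ t : ℝ, p + L t ∈ s} := dense_of_ae hf
  by_contra hcon
  rw [not_le] at hcon
  set W : Set E := {p | p ∈ Metric.ball v r ∧ p + (y - x) ∈ Metric.ball v r ∧
    ε * ‖y - x‖ < |g (p + (y - x)) - g p - D0 (y - x)|} with hW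
  have hWo : IsOpen W := by
    refine Metric.isOpen_ball.inter ((Metric.isOpen_ball.preimage
      (continuous_id.add continuous_const)).inter ?_)
    have hc1 : Continuous fun p : E => g (p + (y - x)) :=
      hg.continuous.comp (continuous_id.add continuous_const)
    have hc2 : Continuous fun p : E => |g (p + (y - x)) - g p - D0 (y - x)| :=
      ((hc1.sub hg.continuous).sub continuous_const).abs
    exact isOpen_lt continuous_const hc2
  have hxW : x ∈ W := by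
    refine ⟨hx, ?_, ?_⟩
    · rw [add_sub_cancel]; exact hy
    · rw [add_sub_cancel]; exact hcon
  obtain ⟨p, hpW, hps⟩ := hd.inter_open_nonempty W hWo ⟨x, hxW⟩
  obtain ⟨p1, p2, p3⟩ := hpW
  refine absurd (seg hg D0 p (y - x) ?_) (not_le.2 p3)
  filter_upwards [hps] with t ht hti
  have h8 : p + t • (y - x) ∉ N := by
    intro h9
    exact ht (subset_toMeasurable μ N h9)
  simp only [hN, Set.mem_setOf_eq, not_not] at h8
  apply h8
  have h10 := (convex_ball v r).add_smul_sub_mem p1 p2 hti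
  rwa [add_sub_cancel_left] at h10

/-- pointwise derivative -/
theorem point {Ω : Set E} (hΩ : IsOpen Ω) {u : E → ℝ}
    (hu : ∀ v ∈ Ω, ∃ L : ℝ≥0, ∃ U ∈ 𝓝 v, LipschitzOnWith L u U)
    {D : E → E →L[ℝ] ℝ} (hD : ContinuousOn D Ω)
    (h : ∀ᵐ v ∂(μ.restrict Ω), fderiv ℝ u v = D v) {v : E} (hv : v ∈ Ω) :
    HasFDerivAt u (D v) v := by
  obtain ⟨K, U, hU, hL⟩ := hu v hv
  obtain ⟨r, hr, hrU⟩ := Metric.mem_nhds_iff.1 (Filter.inter_mem hU (hΩ.mem_nhds hv))
  obtain ⟨g, hg, hgu⟩ := (hL.mono (hrU.trans Set.inter_subset_left)).extend_real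
  rw [hasFDerivAt_iff_isLittleO, Asymptotics.isLittleO_iff]
  intro c hc
  have hcont : ∀ᶠ x in 𝓝 v, ‖D x - D v‖ ≤ c := by
    have h1 : Tendsto D (𝓝 v) (𝓝 (D v)) := (hD.continuousAt (hΩ.mem_nhds hv))
    have h2 := h1.eventually (Metric.closedBall_mem_nhds (D v) hc)
    filter_upwards [h2] with x hx
    rwa [dist_eq_norm] at hx
  obtain ⟨δ, hδ, hδc⟩ := Metric.eventually_nhds_iff_ball.1 hcont
  have hae : ∀ᵐ x ∂μ, x ∈ Metric.ball v (min r δ) →
      ∃ A : E →L[ℝ] ℝ, HasFDerivAt g A x ∧ ‖A - D v‖ ≤ c := by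
    have h3 := (ae_restrict_iff' hΩ.measurableSet).1 h
    filter_upwards [h3, hg.ae_differentiableAt (μ := μ)] with x hx1 hx2 hx3
    have hxr : x ∈ Metric.ball v r := Metric.ball_subset_ball (min_le_left _ _) hx3
    have hxδ : x ∈ Metric.ball v δ := Metric.ball_subset_ball (min_le_right _ _) hx3
    have h4 : u =ᶠ[𝓝 x] g := by
      filter_upwards [Metric.isOpen_ball.mem_nhds hxr] with z hz
      exact hgu hz
    have h5 : fderiv ℝ g x = D x := by
      rw [← h4.fderiv_eq, hx1 (hrU hxr).2]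
    refine ⟨D x, ?_, hδc x hxδ⟩
    rw [← h5]
    exact hx2.hasFDerivAt
  have hvm : v ∈ Metric.ball v (min r δ) := Metric.mem_ball_self (lt_min hr hδ)
  filter_upwards [Metric.ball_mem_nhds v (lt_min hr hδ)] with x hx
  have h6 := close μ hg (D v) hae hvm hx
  rw [hgu (Metric.ball_subset_ball (min_le_left _ _) hx),
    hgu (Metric.ball_subset_ball (min_le_left _ _) hvm)]
  exact h6

end

end GoneAux

open GoneAux

/-- module GONE: a Lipschitz function whose derivative agrees almost everywhere with continuous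
functions is continuously differentiable -/
theorem C1_of_ae {Ω : Set (α → ℂ)} (hΩ : IsOpen Ω) {u : (α → ℂ) → ℝ}
    (hu : ∀ v ∈ Ω, ∃ L : ℝ≥0, ∃ U ∈ 𝓝 v, LipschitzOnWith L u U)
    {D : (α → ℂ) → (α → ℂ) →L[ℝ] ℝ} (hD : ContinuousOn D Ω)
    (h : ∀ᵐ v ∂(volume.restrict Ω), fderiv ℝ u v = D v) :
    ContDiffOn ℝ 1 u Ω ∧ ∀ v ∈ Ω, HasFDerivAt u (D v) v := by
  have h1 : ∀ v ∈ Ω, HasFDerivAt u (D v) v := fun v hv => point volume hΩ hu hD h hv
  refine ⟨?_, h1⟩
  have h2 : (1 : WithTop ℕ∞) = 0 + 1 := by norm_num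
  rw [h2, contDiffOn_succ_iff_fderiv_of_isOpen hΩ]
  refine ⟨fun v hv => (h1 v hv).differentiableAt.differentiableWithinAt, by simp, ?_⟩
  rw [contDiffOn_zero]
  exact hD.congr fun v hv => (h1 v hv).fderiv

end Pool.Agent.MPd01a95
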