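import Mathlib
import Pool.Agent.Lib.MP_d01a95_gt_H.HDefs
import Pool.Agent.Lib.MP_d01a95_gt_H.Unimod
import Pool.Agent.Lib.MP_d01a95_gt_H.Mcalc

set_option autoImplicit false
set_option linter.all false

open Matrix Filter Topology MeasureTheory Measure
open scoped ENNReal NNReal ContDiff

/-! Pointwise facts about the fields `ph`, `phb` of a locally Lipschitz matrix valued function:
measurability, local boundedness, complex linearity, the derivative in terms of `ph`. -/

namespace Pool.Agent.MPd01a95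

open GU

namespace PhLoc

variable {n α : Type} [Fintype n] [DecidableEq n] [Fintype α] [DecidableEq α]

/-! ### local boundedness -/

/-- locally bounded functions -/
def LB {E F : Type} [TopologicalSpace E] [NormedAddCommGroup F] (Ω : Set E) (f : E → F) : Prop :=
  ∀ v ∈ Ω, ∃ A : ℝ, ∀ᶠ w in 𝓝 v, ‖f w‖ ≤ A

section

variable {E F : Type} [TopologicalSpace E] [NormedAddCommGroup F] {Ω : Set E}

theorem LB.compact {f : E → F} (h : LB Ω f) {C : Set E} (hC : C ⊆ Ω) (hCc : IsCompact C) :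
    ∃ A : ℝ, ∀ v ∈ C, ‖f v‖ ≤ A := by
  refine hCc.induction_on (p := fun s => ∃ A : ℝ, ∀ v ∈ s, ‖f v‖ ≤ A) ⟨0, by simp⟩ ?_ ?_ ?_
  · rintro s t hst ⟨A, hA⟩
    exact ⟨A, fun v hv => hA v (hst hv)⟩
  · rintro s t ⟨A, hA⟩ ⟨B, hB⟩
    refine ⟨max A B, fun v hv => ?_⟩
    rcases hv with hv | hv
    · exact (hA v hv).trans (le_max_left _ _)
    · exact (hB v hv).trans (le_max_right _ _)
  · intro v hv
    obtain ⟨A, hA⟩ := h v (hC hv)
    exact ⟨{w | ‖f w‖ ≤ A}, mem_nhdsWithin_of_mem_nhds hA, A, fun w hw => hw⟩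

theorem LB.add {f g : E → F} (hf : LB Ω f) (hg : LB Ω g) : LB Ω fun v => f v + g v := by
  intro v hv
  obtain ⟨A, hA⟩ := hf v hv
  obtain ⟨B, hB⟩ := hg v hv
  refine ⟨A + B, ?_⟩
  filter_upwards [hA, hB] with w h1 h2
  exact (norm_add_le _ _).trans (add_le_add h1 h2)

theorem LB.neg {f : E → F} (hf : LB Ω f) : LB Ω fun v => - f v := by
  intro v hv
  obtain ⟨A, hA⟩ := hf v hv
  refine ⟨A, ?_⟩
  filter_upwards [hA] with w h1
  rwa [norm_neg]

theorem LB.sub {f g : E → F} (hf : LB Ω f) (hg : LB Ω g) : LB Ω fun v => f v - g v := by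
  have h := hf.add hg.neg
  simpa [sub_eq_add_neg] using h

theorem LB.sum {ι' : Type} (s : Finset ι') {f : ι' → E → F} (hf : ∀ i ∈ s, LB Ω (f i)) :
    LB Ω fun v => ∑ i ∈ s, f i v := by
  classical
  induction s using Finset.induction_on with
  | empty =>
    intro v hv
    exact ⟨0, by simp⟩
  | insert a s ha ih =>
    have h1 := (hf a (Finset.mem_insert_self a s)).add
      (ih fun i hi => hf i (Finset.mem_insert_of_mem hi))
    simpa [Finset.sum_insert ha] using h1

theorem LB.mul {𝕜 : Type} [RCLike 𝕜] {f g : E → 𝕜} (hf : LB Ω f) (hg : LB Ω g) :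
    LB Ω fun v => f v * g v := by
  intro v hv
  obtain ⟨A, hA⟩ := hf v hv
  obtain ⟨B, hB⟩ := hg v hv
  refine ⟨|A| * |B|, ?_⟩
  filter_upwards [hA, hB] with w h1 h2
  rw [norm_mul]
  exact mul_le_mul (h1.trans (le_abs_self _)) (h2.trans (le_abs_self _)) (norm_nonneg _)
    (abs_nonneg _)

theorem LB.const (c : F) : LB Ω fun _ : E => c := fun v hv => ⟨‖c‖, by simp⟩

theorem LB.of_cont (hΩ : IsOpen Ω) {f : E → F} (hf : ContinuousOn f Ω) : LB Ω f := by
  intro v hv
  refine ⟨‖f v‖ + 1, ?_⟩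
  have h1 : Tendsto (fun w => ‖f w‖) (𝓝 v) (𝓝 ‖f v‖) :=
    (hf.continuousAt (hΩ.mem_nhds hv)).norm
  exact h1.eventually (eventually_le_nhds (by linarith))

theorem LB.mono {f : E → F} {g : E → F} (hf : LB Ω f) (h : ∀ v, ‖g v‖ ≤ ‖f v‖) : LB Ω g := by
  intro v hv
  obtain ⟨A, hA⟩ := hf v hv
  refine ⟨A, ?_⟩
  filter_upwards [hA] with w h1
  exact (h w).trans h1

end

/-! ### derivatives -/

theorem fd_cast (f : (α → ℂ) → ℝ) (v u : α → ℂ) :
    fderiv ℝ (fun w => (f w : ℂ)) v u = ((fderiv ℝ f v u : ℝ) : ℂ) := by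
  by_cases h : DifferentiableAt ℝ f v
  · have h1 := (Complex.ofRealCLM.hasFDerivAt (x := f v)).comp v h.hasFDerivAt
    have h2 : (fun w => (f w : ℂ)) = Complex.ofRealCLM ∘ f := rfl
    rw [h2, h1.fderiv]
    rfl
  · have h2 : ¬ DifferentiableAt ℝ (fun w => (f w : ℂ)) v := by
      intro h3
      apply h
      have h4 := (Complex.reCLM.differentiableAt (x := (f v : ℂ))).comp v h3
      exact h4
    rw [fderiv_zero_of_not_differentiableAt h, fderiv_zero_of_not_differentiableAt h2]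
    simp

variable (H : (α → ℂ) → Matrix n n ℝ)

theorem dz_apply (u v : α → ℂ) (i j : n) : dz (cH H) u v i j =
    (1 / 2 : ℂ) * ((fderiv ℝ (fun w => H w i j) v u : ℝ) -
      Complex.I * (fderiv ℝ (fun w => H w i j) v (Complex.I • u) : ℝ)) := by
  have h1 : (fun w => cH H w i j) = fun w => ((H w i j : ℝ) : ℂ) := rfl
  simp only [dz, DM, Matrix.smul_apply, Matrix.sub_apply, Matrix.of_apply, smul_eq_mul, h1,
    fd_cast]

theorem dzb_apply (u v : α → ℂ) (i j : n) : dzb (cH H) u v i j =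
    (1 / 2 : ℂ) * ((fderiv ℝ (fun w => H w i j) v u : ℝ) +
      Complex.I * (fderiv ℝ (fun w => H w i j) v (Complex.I • u) : ℝ)) := by
  have h1 : (fun w => cH H w i j) = fun w => ((H w i j : ℝ) : ℂ) := rfl
  simp only [dzb, DM, Matrix.smul_apply, Matrix.add_apply, Matrix.of_apply, smul_eq_mul, h1,
    fd_cast]

theorem dzb_conj (u v : α → ℂ) (i j : n) :
    dzb (cH H) u v i j = star (dz (cH H) u v i j) := by
  rw [dz_apply, dzb_apply]
  simp only [RCLike.star_def, map_mul, map_sub, map_add, Complex.conj_ofReal, Complex.conj_I,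
    map_div₀, map_one, map_ofNat]
  ring

theorem fd_eq (u v : α → ℂ) (i j : n) :
    fderiv ℝ (fun w => H w i j) v u = 2 * (dz (cH H) u v i j).re := by
  rw [dz_apply]
  have h1 : ((1 / 2 : ℂ) * ((fderiv ℝ (fun w => H w i j) v u : ℝ) -
      Complex.I * (fderiv ℝ (fun w => H w i j) v (Complex.I • u) : ℝ))) =
      ((fderiv ℝ (fun w => H w i j) v u / 2 : ℝ) : ℂ) +
      ((-(fderiv ℝ (fun w => H w i j) v (Complex.I • u)) / 2 : ℝ) : ℂ) * Complex.I := by
    push_cast
    ring
  rw [h1, Complex.add_re, Complex.ofReal_re, Complex.re_ofReal_mul, Complex.I_re]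
  ring

theorem map_mul' (A B : Matrix n n ℝ) :
    (A * B).map ((↑) : ℝ → ℂ) = A.map ((↑) : ℝ → ℂ) * B.map ((↑) : ℝ → ℂ) := by
  ext i j
  simp only [Matrix.map_apply, Matrix.mul_apply]
  push_cast
  rfl

theorem cH_inv {v : α → ℂ} (hv : IsUnit (H v).det) :
    (cH H v)⁻¹ = ((H v)⁻¹).map ((↑) : ℝ → ℂ) := by
  refine Matrix.inv_eq_left_inv ?_
  unfold cH
  rw [← map_mul', Matrix.nonsing_inv_mul _ hv]
  ext i j
  rw [Matrix.map_apply, Matrix.one_apply, Matrix.one_apply]
  split_ifs <;> simp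

theorem cH_det {v : α → ℂ} (hv : IsUnit (H v).det) : IsUnit (cH H v).det := by
  refine Matrix.isUnit_det_of_left_inverse (B := ((H v)⁻¹).map ((↑) : ℝ → ℂ)) ?_
  unfold cH
  rw [← map_mul', Matrix.nonsing_inv_mul _ hv]
  ext i j
  rw [Matrix.map_apply, Matrix.one_apply, Matrix.one_apply]
  split_ifs <;> simp

theorem ph_apply (u v : α → ℂ) (i j : n) : ph H u v i j =
    (1 / 2 : ℂ) * ∑ k, (cH H v)⁻¹ i k * dz (cH H) u v k j := by
  unfold ph
  rw [Matrix.smul_apply, Matrix.mul_apply, smul_eq_mul]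

theorem phb_apply (u v : α → ℂ) (i j : n) : phb H u v i j =
    (1 / 2 : ℂ) * ∑ k, (cH H v)⁻¹ i k * dzb (cH H) u v k j := by
  unfold phb
  rw [Matrix.smul_apply, Matrix.mul_apply, smul_eq_mul]

theorem phb_conj {v : α → ℂ} (hv : IsUnit (H v).det) (u : α → ℂ) (i j : n) :
    phb H u v i j = star (ph H u v i j) := by
  rw [ph_apply, phb_apply, cH_inv H hv]
  simp only [dzb_conj, RCLike.star_def, map_mul, _root_.map_sum, Matrix.map_apply, Complex.conj_ofReal,
    map_div₀, map_one, map_ofNat]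

theorem dz_eq {v : α → ℂ} (hv : IsUnit (H v).det) (u : α → ℂ) (i j : n) :
    dz (cH H) u v i j = 2 * ∑ k, (H v i k : ℂ) * ph H u v k j := by
  have h1 : cH H v * ph H u v = (1 / 2 : ℂ) • dz (cH H) u v := by
    unfold ph
    rw [Matrix.mul_smul, ← Matrix.mul_assoc, Matrix.mul_nonsing_inv _ (cH_det H hv),
      Matrix.one_mul]
  have h2 := congrFun (congrFun h1 i) j
  rw [Matrix.mul_apply, Matrix.smul_apply, smul_eq_mul] at h2
  have h3 : ∀ k, cH H v i k = (H v i k : ℂ) := fun k => rfl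
  simp only [h3] at h2
  rw [h2]
  ring

theorem clin (T : (α → ℂ) →L[ℝ] ℝ) (u : α → ℂ) :
    (T u : ℂ) - Complex.I * (T (Complex.I • u) : ℝ) =
      ∑ a, u a * ((T (Pi.single a 1) : ℂ) - Complex.I * (T (Complex.I • Pi.single a 1) : ℝ)) := by
  have h1 : ∀ u : α → ℂ, T u = ∑ a, ((u a).re * T (Pi.single a 1) +
      (u a).im * T (Complex.I • Pi.single a 1)) := by
    intro u
    have h2 : u = ∑ a, ((u a).re • (Pi.single a 1 : α → ℂ) +
        (u a).im • (Complex.I • (Pi.single a 1 : α → ℂ))) := by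
      funext b
      rw [Finset.sum_apply, Finset.sum_eq_single b]
      · simp only [Pi.add_apply, Pi.smul_apply, Pi.single_eq_same, Complex.real_smul, smul_eq_mul,
          mul_one]
        exact (Complex.re_add_im (u b)).symm
      · intro c _ hc
        simp [Pi.single_eq_of_ne (Ne.symm hc)]
      · simp
    conv_lhs => rw [h2]
    rw [_root_.map_sum]
    refine Finset.sum_congr rfl fun a _ => ?_
    rw [map_add, map_smul, map_smul, smul_eq_mul, smul_eq_mul]
  rw [h1 u, h1 (Complex.I • u)]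
  push_cast
  rw [Finset.mul_sum, ← Finset.sum_sub_distrib]
  refine Finset.sum_congr rfl fun a _ => ?_
  have h3 : ((Complex.I • u) a).re = -(u a).im := by simp
  have h4 : ((Complex.I • u) a).im = (u a).re := by simp
  rw [h3, h4]
  conv_rhs => rw [← Complex.re_add_im (u a)]
  push_cast
  linear_combination (((u a).im : ℂ) * (T (Complex.I • Pi.single a 1) : ℂ)) * Complex.I_sq

theorem dz_lin (u v : α → ℂ) (i j : n) :
    dz (cH H) u v i j = ∑ a, u a * dz (cH H) (Pi.single a 1) v i j := by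
  rw [dz_apply, clin, Finset.mul_sum]
  refine Finset.sum_congr rfl fun a _ => ?_
  rw [dz_apply]
  ring

theorem ph_lin (u v : α → ℂ) (i j : n) :
    ph H u v i j = ∑ a, u a * ph H (Pi.single a 1) v i j := by
  simp only [ph_apply]
  simp only [dz_lin H u]
  simp only [Finset.mul_sum]
  rw [Finset.sum_comm]
  refine Finset.sum_congr rfl fun a _ => Finset.sum_congr rfl fun k _ => ?_
  ring

/-- the derivative in terms of `ph` -/
theorem fd_ph {v : α → ℂ} (hv : IsUnit (H v).det) (u : α → ℂ) (i j : n) :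
    fderiv ℝ (fun w => H w i j) v u =
      ∑ k, ∑ a, 4 * H v i k * (u a * ph H (Pi.single a 1) v k j).re := by
  rw [fd_eq, dz_eq H hv]
  have h1 : ∀ k, ph H u v k j = ∑ a, u a * ph H (Pi.single a 1) v k j := fun k => ph_lin H u v k j
  have h2 : ((2 : ℂ) * ∑ k, (H v i k : ℂ) * ph H u v k j).re =
      2 * ∑ k, ∑ a, H v i k * (u a * ph H (Pi.single a 1) v k j).re := by
    have h3 : ((2 : ℂ) * ∑ k, (H v i k : ℂ) * ph H u v k j).re =
        2 * (∑ k, (H v i k : ℂ) * ph H u v k j).re := by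
      rw [Complex.mul_re]
      simp
    rw [h3, Complex.re_sum]
    congr 1
    refine Finset.sum_congr rfl fun k _ => ?_
    rw [Complex.re_ofReal_mul, h1, Complex.re_sum, Finset.mul_sum]
  rw [h2, ← mul_assoc, Finset.mul_sum]
  refine Finset.sum_congr rfl fun k _ => ?_
  rw [Finset.mul_sum]
  refine Finset.sum_congr rfl fun a _ => ?_
  ring

end PhLoc

end Pool.Agent.MPd01a95
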