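import Mathlib
import Pool.Agent.Lib.MP_d01a95_gt_H.HDefs
import Pool.Agent.Lib.MP_d01a95_gt_H.Unimod
import Pool.Agent.Lib.MP_d01a95_gt_H.Cauchy
set_option autoImplicit false
set_option linter.all false
open Matrix Filter Topology MeasureTheory Measure
open scoped ENNReal NNReal ContDiff Convolution
namespace Pool.Agent.MPd01a95
open GU
variable {κ n ι α : Type} [Fintype κ] [DecidableEq κ] [Fintype n] [DecidableEq n] [Fintype ι] [DecidableEq ι] [Fintype α] [DecidableEq α] {G : Type} [Group G]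

namespace RootAux

/-! ### general facts -/

theorem inner_cont {κ : (α → ℂ) → ℂ} (hκ : Continuous κ) (hκs : HasCompactSupport κ)
    {f : (α → ℂ) → ℂ} (hf : LocallyIntegrable f volume) {t : ℝ} (ht : 0 < t) :
    Continuous fun p : α → ℂ => ∫ z, κ z * f (p + t • z) := by
  have hs : HasCompactSupport (fun s : α → ℂ => κ (-(t⁻¹ • s))) := by
    have h1 : (fun s : α → ℂ => κ (-(t⁻¹ • s))) = κ ∘ (fun s => (-t⁻¹) • s) := by
      funext s
      simp
    rw [h1]
    exact hκs.comp_homeomorph (Homeomorph.smulOfNeZero (-t⁻¹) (neg_ne_zero.2 (inv_ne_zero ht.ne')))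
  have hc : Continuous (fun s : α → ℂ => κ (-(t⁻¹ • s))) := by fun_prop
  have e : (fun p : α → ℂ => ∫ z, κ z * f (p + t • z)) =
      fun p => |(t ^ Module.finrank ℝ (α → ℂ))⁻¹| •
        (f ⋆[ContinuousLinearMap.mul ℝ ℂ, volume] (fun s => κ (-(t⁻¹ • s)))) p := by
    funext p
    have h1 := Measure.integral_comp_smul (volume : Measure (α → ℂ))
      (fun y => κ (t⁻¹ • y) * f (p + y)) t
    simp only [smul_smul, inv_mul_cancel₀ ht.ne', one_smul] at h1
    rw [h1]
    congr 1
    rw [← integral_sub_right_eq_self (fun y => κ (t⁻¹ • y) * f (p + y)) p, convolution_def]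
    refine integral_congr_ae (Eventually.of_forall fun y => ?_)
    simp only [ContinuousLinearMap.mul_apply']
    rw [mul_comm]
    congr 2
    · abel
    · rw [← smul_neg, neg_sub]
  rw [e]
  have h := hs.continuous_convolution_right (ContinuousLinearMap.mul ℝ ℂ) hf hc
  exact h.const_smul (|(t ^ Module.finrank ℝ (α → ℂ))⁻¹| : ℝ)

theorem integrable_of_bdd {g : (α → ℂ) → ℂ} (hg : Measurable g) {B R : ℝ}
    (hb : ∀ v, ‖g v‖ ≤ B) (h0 : ∀ v, R < ‖v‖ → g v = 0) : Integrable g volume := by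
  have h1 : IntegrableOn g (Metric.closedBall 0 R) volume := by
    refine Measure.integrableOn_of_bounded (M := B) ?_ hg.aestronglyMeasurable ?_
    · exact (isCompact_closedBall 0 R).measure_lt_top.ne
    · exact Eventually.of_forall hb
  refine h1.integrable_of_forall_notMem_eq_zero fun v hv => h0 v ?_
  simpa using hv


/-! ### mollification -/

/-- mollification -/
noncomputable def mo (ρ : ContDiffBump (0 : α → ℂ)) (f : (α → ℂ) → ℂ) : (α → ℂ) → ℂ :=
  ρ.normed volume ⋆[ContinuousLinearMap.lsmul ℝ ℝ, volume] f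

theorem mo_apply (ρ : ContDiffBump (0 : α → ℂ)) (f : (α → ℂ) → ℂ) (x : α → ℂ) :
    mo ρ f x = ∫ t, ρ.normed volume (x - t) • f t := by
  unfold mo
  rw [convolution_eq_swap]
  rfl

theorem mo_apply' (ρ : ContDiffBump (0 : α → ℂ)) (f : (α → ℂ) → ℂ) (x : α → ℂ) :
    mo ρ f x = ∫ t, ρ.normed volume t • f (x - t) := by
  unfold mo
  rw [convolution_def]
  rfl

theorem mo_smooth (ρ : ContDiffBump (0 : α → ℂ)) {f : (α → ℂ) → ℂ}
    (hf : LocallyIntegrable f volume) : ContDiff ℝ ∞ (mo ρ f) :=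
  ρ.hasCompactSupport_normed.contDiff_convolution_left _ ρ.contDiff_normed hf

theorem mo_zero (ρ : ContDiffBump (0 : α → ℂ)) (hρ : ρ.rOut ≤ 1) {f : (α → ℂ) → ℂ} {R : ℝ}
    (h0 : ∀ v, R < ‖v‖ → f v = 0) (x : α → ℂ) (hx : R + 1 < ‖x‖) : mo ρ f x = 0 := by
  rw [mo_apply]
  refine integral_eq_zero_of_ae (Eventually.of_forall fun t => ?_)
  dsimp only
  by_cases ht : R < ‖t‖
  · rw [h0 t ht, smul_zero]
    rfl
  · have h1 : ρ.normed volume (x - t) = 0 := by
      rw [← Function.notMem_support, ρ.support_normed_eq]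
      rw [Metric.mem_ball, dist_zero_right]
      have h2 := norm_sub_norm_le x t
      linarith
    rw [h1, zero_smul]
    rfl

theorem mo_bound (ρ : ContDiffBump (0 : α → ℂ)) {f : (α → ℂ) → ℂ} {A : ℝ}
    (hA : ∀ v, ‖f v‖ ≤ A) (x : α → ℂ) : ‖mo ρ f x‖ ≤ A := by
  rw [mo_apply']
  have h1 : Integrable (fun t => ρ.normed volume t * A) (volume : Measure (α → ℂ)) :=
    (ρ.continuous_normed.integrable_of_hasCompactSupport ρ.hasCompactSupport_normed).mul_const A
  refine (norm_integral_le_of_norm_le h1 (Eventually.of_forall fun t => ?_)).trans ?_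
  · rw [norm_smul, Real.norm_of_nonneg (ρ.nonneg_normed t)]
    exact mul_le_mul_of_nonneg_left (hA _) (ρ.nonneg_normed t)
  · rw [integral_mul_const, ρ.integral_normed, one_mul]

theorem mo_compact (ρ : ContDiffBump (0 : α → ℂ)) (hρ : ρ.rOut ≤ 1) {f : (α → ℂ) → ℂ} {R : ℝ}
    (h0 : ∀ v, R < ‖v‖ → f v = 0) : HasCompactSupport (mo ρ f) := by
  refine HasCompactSupport.intro (isCompact_closedBall (0 : α → ℂ) (R + 1)) fun x hx => ?_
  refine mo_zero ρ hρ h0 x ?_
  simpa using hx

theorem mo_fderiv (ρ : ContDiffBump (0 : α → ℂ)) {f : (α → ℂ) → ℂ}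
    (hf : LocallyIntegrable f volume) (x v : α → ℂ) :
    fderiv ℝ (mo ρ f) x v = ∫ t, (fderiv ℝ (ρ.normed volume) (x - t) v) • f t := by
  have h1 := (ρ.hasCompactSupport_normed (μ := volume)).hasFDerivAt_convolution_left
    (ContinuousLinearMap.lsmul ℝ ℝ) (ρ.contDiff_normed (n := 1)) hf x
  have h2 : fderiv ℝ (mo ρ f) x = _ := h1.fderiv
  rw [h2, convolution_eq_swap]
  have hex : ConvolutionExistsAt (fderiv ℝ (ρ.normed volume)) f x
      ((ContinuousLinearMap.lsmul ℝ ℝ : ℝ →L[ℝ] ℂ →L[ℝ] ℂ).precompL (α → ℂ)) volume :=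
    ((ρ.hasCompactSupport_normed (μ := volume)).fderiv ℝ).convolutionExists_left _
      ((ρ.contDiff_normed (n := 1)).continuous_fderiv one_ne_zero) hf x
  rw [convolutionExistsAt_iff_integrable_swap] at hex
  rw [ContinuousLinearMap.integral_apply hex]
  rfl


theorem mo_integrable (ρ : ContDiffBump (0 : α → ℂ)) {f : (α → ℂ) → ℂ}
    (hf : LocallyIntegrable f volume) (x v : α → ℂ) :
    Integrable (fun t => (fderiv ℝ (ρ.normed volume) (x - t) v) • f t) volume := by
  have hex : ConvolutionExistsAt (fderiv ℝ (ρ.normed volume)) f x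
      ((ContinuousLinearMap.lsmul ℝ ℝ : ℝ →L[ℝ] ℂ →L[ℝ] ℂ).precompL (α → ℂ)) volume :=
    ((ρ.hasCompactSupport_normed (μ := volume)).fderiv ℝ).convolutionExists_left _
      ((ρ.contDiff_normed (n := 1)).continuous_fderiv one_ne_zero) hf x
  rw [convolutionExistsAt_iff_integrable_swap] at hex
  exact hex.apply_continuousLinearMap v

theorem mo_db (ρ : ContDiffBump (0 : α → ℂ)) {W F : (α → ℂ) → ℂ} {c : α}
    (hW : LocallyIntegrable W volume)
    (hweak : ∀ ψ : (α → ℂ) → ℂ, ContDiff ℝ ∞ ψ → HasCompactSupport ψ →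
      ∫ v, db ψ c v * W v = - ∫ v, ψ v * F v) (x : α → ℂ) :
    db (mo ρ W) c x = mo ρ F x := by
  have hρs : ContDiff ℝ ∞ (ρ.normed volume) := ρ.contDiff_normed
  set ψ : (α → ℂ) → ℂ := fun t => ((ρ.normed volume (x - t) : ℝ) : ℂ) with hψ
  have h1 : ContDiff ℝ ∞ ψ := by
    refine Complex.ofRealCLM.contDiff.comp (hρs.comp ?_)
    exact contDiff_const.sub contDiff_id
  have h2 : HasCompactSupport ψ := by
    have h3 : HasCompactSupport (fun t => ρ.normed volume (x - t)) :=
      (ρ.hasCompactSupport_normed (μ := volume)).comp_homeomorph (Homeomorph.subLeft x)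
    exact h3.comp_left (g := fun r : ℝ => (r : ℂ)) Complex.ofReal_zero
  have h3 : ∀ t v, fderiv ℝ ψ t v = -((fderiv ℝ (ρ.normed volume) (x - t) v : ℝ) : ℂ) := by
    intro t v
    have h4 : HasFDerivAt (fun t => ρ.normed volume (x - t))
        ((fderiv ℝ (ρ.normed volume) (x - t)).comp (-ContinuousLinearMap.id ℝ (α → ℂ))) t := by
      have h5 : HasFDerivAt (fun t : α → ℂ => x - t) (-ContinuousLinearMap.id ℝ (α → ℂ)) t :=
        (hasFDerivAt_id t).const_sub x
      have h6 : HasFDerivAt (ρ.normed volume) (fderiv ℝ (ρ.normed volume) (x - t)) (x - t) :=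
        ((hρs.differentiable (by simp)) (x - t)).hasFDerivAt
      exact h6.comp t h5
    have h7 : HasFDerivAt ψ (Complex.ofRealCLM.comp
        ((fderiv ℝ (ρ.normed volume) (x - t)).comp (-ContinuousLinearMap.id ℝ (α → ℂ)))) t :=
      Complex.ofRealCLM.hasFDerivAt.comp t h4
    rw [h7.fderiv]
    simp
  have h4 := hweak ψ h1 h2
  have e1 : mo ρ F x = ∫ v, ψ v * F v := by
    rw [mo_apply]
    rfl
  rw [e1]
  have e2 : ∫ v, ψ v * F v = - ∫ v, db ψ c v * W v := by rw [h4, neg_neg]
  rw [e2, ← integral_neg]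
  unfold db
  rw [mo_fderiv ρ hW, mo_fderiv ρ hW, ← integral_const_mul, ← integral_add
    (mo_integrable ρ hW x _) ((mo_integrable ρ hW x _).const_mul _), ← integral_const_mul]
  refine integral_congr_ae (Eventually.of_forall fun t => ?_)
  dsimp only
  rw [h3, h3]
  simp only [Complex.real_smul]
  ring


/-! ### the kernel -/

/-- the inner integral -/
noncomputable def inn (k : (α → ℂ) → ℝ) (H : α → (α → ℂ) → ℂ) (p : α → ℂ) (t : ℝ) : ℂ :=
  ∫ z, (k z : ℂ) * ∑ c, star (z c) * H c (p + t • z)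

/-- the kernel as a bound -/
noncomputable def kb (k : (α → ℂ) → ℝ) (z : α → ℂ) : ℝ := k z * ∑ c, ‖z c‖

section kern

variable {k : (α → ℂ) → ℝ} (hk : Continuous k) (hk0 : ∀ z, 0 ≤ k z) {Rk : ℝ}
  (hkR : ∀ z, k z ≠ 0 → 1 ≤ ‖z‖ ∧ ‖z‖ ≤ Rk)

include hkR in
theorem k_compact : HasCompactSupport k := by
  refine HasCompactSupport.intro (isCompact_closedBall (0 : α → ℂ) Rk) fun x hx => ?_
  by_contra hcon
  exact hx (by simpa using (hkR x hcon).2)

include hk hkR in
theorem kb_integrable : Integrable (kb k) (volume : Measure (α → ℂ)) := by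
  refine Continuous.integrable_of_hasCompactSupport ?_ ?_
  · unfold kb
    exact hk.mul (continuous_finset_sum _ fun c _ => (continuous_apply c).norm)
  · exact (k_compact hkR).mul_right

include hk0 in
theorem inn_le {H : α → (α → ℂ) → ℂ} {A : ℝ} (hA : ∀ c v, ‖H c v‖ ≤ A) (p : α → ℂ) (t : ℝ)
    (z : α → ℂ) : ‖(k z : ℂ) * ∑ c, star (z c) * H c (p + t • z)‖ ≤ kb k z * A := by
  rw [norm_mul, Complex.norm_real, Real.norm_of_nonneg (hk0 z)]
  unfold kb
  rw [mul_assoc, Finset.sum_mul]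
  refine mul_le_mul_of_nonneg_left ((norm_sum_le _ _).trans (Finset.sum_le_sum fun c _ => ?_))
    (hk0 z)
  rw [norm_mul, norm_star]
  exact mul_le_mul_of_nonneg_left (hA _ _) (norm_nonneg _)

include hk hk0 hkR in
theorem inn_bound {H : α → (α → ℂ) → ℂ} {A : ℝ} (hA : ∀ c v, ‖H c v‖ ≤ A) (p : α → ℂ)
    (t : ℝ) : ‖inn k H p t‖ ≤ ∫ z, kb k z * A :=
  norm_integral_le_of_norm_le ((kb_integrable hk hkR).mul_const A)
    (Eventually.of_forall fun z => inn_le hk0 hA p t z)

include hkR in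
theorem inn_zero {H : α → (α → ℂ) → ℂ} {R : ℝ} (h0 : ∀ c v, R < ‖v‖ → H c v = 0) {p : α → ℂ}
    {t : ℝ} (ht : 0 < t) (hT : ‖p‖ + R < t) : inn k H p t = 0 := by
  unfold inn
  refine integral_eq_zero_of_ae (Eventually.of_forall fun z => ?_)
  dsimp only
  by_cases hz : k z = 0
  · rw [hz, Complex.ofReal_zero, zero_mul]
    rfl
  · have h1 := (hkR z hz).1
    have h2 : R < ‖p + t • z‖ := by
      have h3 : ‖t • z‖ = t * ‖z‖ := by rw [norm_smul, Real.norm_of_nonneg ht.le]
      have h4 : ‖t • z‖ ≤ ‖p + t • z‖ + ‖p‖ := by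
        calc ‖t • z‖ = ‖(p + t • z) - p‖ := by congr 1; abel
          _ ≤ _ := norm_sub_le _ _
      nlinarith
    have h3 : ∑ c, star (z c) * H c (p + t • z) = 0 := by
      refine Finset.sum_eq_zero fun c _ => ?_
      rw [h0 c _ h2, mul_zero]
    rw [h3, mul_zero]
    rfl

include hk in
theorem inn_meas {H : α → (α → ℂ) → ℂ} (hH : ∀ c, Measurable (H c)) (p : α → ℂ) :
    StronglyMeasurable (inn k H p) := by
  have h1 : StronglyMeasurable (fun q : ℝ × (α → ℂ) =>
      (k q.2 : ℂ) * ∑ c, star (q.2 c) * H c (p + q.1 • q.2)) := by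
    refine Measurable.stronglyMeasurable ?_
    refine ((Complex.measurable_ofReal.comp hk.measurable).comp measurable_snd).mul ?_
    refine Finset.measurable_fun_sum _ fun c _ => ?_
    refine Measurable.mul ?_ ((hH c).comp ?_)
    · exact (continuous_star.measurable).comp ((measurable_pi_apply c).comp measurable_snd)
    · exact Continuous.measurable (by fun_prop)
  exact h1.integral_prod_right'

include hk hk0 hkR in
theorem inn_cont {H : α → (α → ℂ) → ℂ} (hH : ∀ c, Measurable (H c)) {A R : ℝ}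
    (hA : ∀ c v, ‖H c v‖ ≤ A) (h0 : ∀ c v, R < ‖v‖ → H c v = 0) {t : ℝ} (ht : 0 < t) :
    Continuous fun p => inn k H p t := by
  have e : (fun p => inn k H p t) =
      fun p => ∑ c, ∫ z, ((k z : ℂ) * star (z c)) * H c (p + t • z) := by
    funext p
    unfold inn
    rw [← integral_finset_sum]
    · refine integral_congr_ae (Eventually.of_forall fun z => ?_)
      dsimp only
      rw [Finset.mul_sum]
      exact Finset.sum_congr rfl fun c _ => by ring
    · intro c _
      refine ((kb_integrable hk hkR).mul_const A).mono' ?_ (Eventually.of_forall fun z => ?_)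
      · refine Measurable.aestronglyMeasurable ?_
        refine Measurable.mul (Measurable.mul (Complex.measurable_ofReal.comp hk.measurable) ?_)
          ((hH c).comp ?_)
        · exact (continuous_star.measurable).comp (measurable_pi_apply c)
        · exact Continuous.measurable (by fun_prop)
      · rw [norm_mul, norm_mul, norm_star, Complex.norm_real, Real.norm_of_nonneg (hk0 z)]
        unfold kb
        have h1 : ‖z c‖ ≤ ∑ c, ‖z c‖ :=
          Finset.single_le_sum (f := fun c => ‖z c‖) (fun c _ => norm_nonneg _)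
            (Finset.mem_univ c)
        have h2 := hA c (p + t • z)
        have h3 := norm_nonneg (H c (p + t • z))
        have h4 := hk0 z
        have h5 := norm_nonneg (z c)
        exact mul_le_mul (mul_le_mul_of_nonneg_left h1 h4) h2 h3
          (mul_nonneg h4 (h5.trans h1))
  rw [e]
  refine continuous_finset_sum _ fun c _ => ?_
  refine inner_cont (κ := fun z => (k z : ℂ) * star (z c)) ?_ ?_ ?_ ht
  · exact (Complex.continuous_ofReal.comp hk).mul (continuous_star.comp (continuous_apply c))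
  · have h1 : HasCompactSupport (fun z : α → ℂ => (k z : ℂ)) :=
      (k_compact hkR).comp_left (g := fun r : ℝ => (r : ℂ)) Complex.ofReal_zero
    exact h1.mul_right
  · exact (integrable_of_bdd (hH c) (hA c) (h0 c)).locallyIntegrable

end kern


/-! ### the core -/

/-- mollifiers -/
noncomputable def fi (α : Type) [Fintype α] (n : ℕ) : ContDiffBump (0 : α → ℂ) where
  rIn := 1 / (2 * ((n : ℝ) + 1))
  rOut := 1 / ((n : ℝ) + 1)
  rIn_pos := by positivity
  rIn_lt_rOut := by
    refine one_div_lt_one_div_of_lt (by positivity) ?_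
    have : (0 : ℝ) < (n : ℝ) + 1 := by positivity
    linarith

theorem fi_out (n : ℕ) : (fi α n).rOut ≤ 1 := by
  change 1 / ((n : ℝ) + 1) ≤ 1
  rw [div_le_one (by positivity)]
  have : (0 : ℝ) ≤ (n : ℝ) := by positivity
  linarith

theorem mo_lim {f : (α → ℂ) → ℂ} (hf : LocallyIntegrable f volume) :
    ∀ᵐ x, Tendsto (fun n => mo (fi α n) f x) atTop (𝓝 (f x)) := by
  refine ContDiffBump.ae_convolution_tendsto_right_of_locallyIntegrable (φ := fi α) (K := 2)
    ?_ ?_ hf
  · exact tendsto_one_div_add_atTop_nhds_zero_nat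
  · refine Eventually.of_forall fun n => ?_
    change 1 / ((n : ℝ) + 1) ≤ 2 * (1 / (2 * ((n : ℝ) + 1)))
    have : (0 : ℝ) < (n : ℝ) + 1 := by positivity
    field_simp
    exact le_refl _

theorem ae_shift {P : (α → ℂ) → Prop} (h : ∀ᵐ y, P y) (p : α → ℂ) {t : ℝ} (ht : 0 < t) :
    ∀ᵐ z, P (p + t • z) := by
  rw [ae_iff] at h ⊢
  have e : {z : α → ℂ | ¬ P (p + t • z)} =
      (fun z => t • z) ⁻¹' ((fun h => p + h) ⁻¹' {y | ¬ P y}) := rfl
  rw [e, Measure.addHaar_preimage_smul _ ht.ne', measure_preimage_add, h, mul_zero]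

theorem core [Nonempty α] {W : (α → ℂ) → ℂ} {F : α → (α → ℂ) → ℂ} {A R : ℝ}
    (hW : Measurable W) (hF : ∀ c, Measurable (F c)) (hWA : ∀ v, ‖W v‖ ≤ A)
    (hFA : ∀ c v, ‖F c v‖ ≤ A) (hW0 : ∀ v, R < ‖v‖ → W v = 0)
    (hF0 : ∀ c v, R < ‖v‖ → F c v = 0)
    (hweak : ∀ ψ : (α → ℂ) → ℂ, ContDiff ℝ ∞ ψ → HasCompactSupport ψ → ∀ c,
      ∫ v, db ψ c v * W v = - ∫ v, ψ v * F c v) :
    ∃ G : (α → ℂ) → ℂ, Continuous G ∧ ∀ᵐ v, W v = G v := by
  obtain ⟨k, hks, hk0, ⟨Rk, hkR⟩, hC⟩ := cauchy_avg α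
  have hk : Continuous k := hks.continuous
  have hWl : LocallyIntegrable W volume := (integrable_of_bdd hW hWA hW0).locallyIntegrable
  have hFl : ∀ c, LocallyIntegrable (F c) volume := fun c =>
    (integrable_of_bdd (hF c) (hFA c) (hF0 c)).locallyIntegrable
  set B : ℝ := ∫ z, kb k z * A with hB
  -- the mollified functions
  have hM1 : ∀ n c v, ‖mo (fi α n) (F c) v‖ ≤ A := fun n c v => mo_bound _ (hFA c) v
  have hM2 : ∀ n c v, R + 1 < ‖v‖ → mo (fi α n) (F c) v = 0 := fun n c v hv =>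
    mo_zero _ (fi_out n) (hF0 c) v hv
  have hM3 : ∀ n c, Continuous (mo (fi α n) (F c)) := fun n c =>
    (mo_smooth _ (hFl c)).continuous
  have hM4 : ∀ n p, mo (fi α n) W p =
      -2 * ∫ t in Set.Ioi (0 : ℝ), inn k (fun c => mo (fi α n) (F c)) p t := by
    intro n p
    rw [hC (mo (fi α n) W) (mo_smooth _ hWl) (mo_compact _ (fi_out n) hW0) p]
    congr 1
    refine integral_congr_ae (Eventually.of_forall fun t => ?_)
    dsimp only
    unfold inn
    refine integral_congr_ae (Eventually.of_forall fun z => ?_)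
    dsimp only
    congr 1
    refine Finset.sum_congr rfl fun c _ => ?_
    rw [mo_db (fi α n) hWl (fun ψ h1 h2 => hweak ψ h1 h2 c)]
  -- limits
  have hL1 : ∀ p t, 0 < t → Tendsto (fun n => inn k (fun c => mo (fi α n) (F c)) p t) atTop
      (𝓝 (inn k F p t)) := by
    intro p t ht
    refine tendsto_integral_of_dominated_convergence (fun z => kb k z * A) ?_
      ((kb_integrable hk hkR).mul_const A) ?_ ?_
    · intro n
      refine Continuous.aestronglyMeasurable ?_
      refine (Complex.continuous_ofReal.comp hk).mul (continuous_finset_sum _ fun c _ => ?_)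
      refine (continuous_star.comp (continuous_apply c)).mul ((hM3 n c).comp ?_)
      fun_prop
    · intro n
      exact Eventually.of_forall fun z => inn_le hk0 (hM1 n) p t z
    · have h1 : ∀ᵐ z : α → ℂ, ∀ c, Tendsto (fun n => mo (fi α n) (F c) (p + t • z)) atTop
          (𝓝 (F c (p + t • z))) := by
        rw [ae_all_iff]
        intro c
        exact ae_shift (mo_lim (hFl c)) p ht
      filter_upwards [h1] with z hz
      exact (tendsto_finset_sum _ fun c _ => (hz c).const_mul _).const_mul _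
  have hbd : ∀ (H : α → (α → ℂ) → ℂ), (∀ c v, ‖H c v‖ ≤ A) → (∀ c v, R + 1 < ‖v‖ → H c v = 0) →
      ∀ (T : ℝ) (p : α → ℂ), ‖p‖ + (R + 1) ≤ T → ∀ t ∈ Set.Ioi (0 : ℝ),
        ‖inn k H p t‖ ≤ (Set.Iic T).indicator (fun _ => B) t := by
    intro H h1 h2 T p hT t ht
    by_cases htT : t ≤ T
    · rw [Set.indicator_of_mem (show t ∈ Set.Iic T from htT)]
      exact inn_bound hk hk0 hkR h1 p t
    · push Not at htT
      rw [inn_zero hkR h2 ht (lt_of_le_of_lt hT htT), norm_zero]
      refine Set.indicator_nonneg (fun _ _ => ?_) _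
      exact (norm_nonneg _).trans (inn_bound hk hk0 hkR h1 p t)
  have hbi : ∀ T : ℝ, Integrable ((Set.Iic T).indicator (fun _ => B))
      (volume.restrict (Set.Ioi (0 : ℝ))) := by
    intro T
    rw [integrable_indicator_iff measurableSet_Iic]
    rw [IntegrableOn, Measure.restrict_restrict measurableSet_Iic]
    have h1 : Set.Iic T ∩ Set.Ioi 0 = Set.Ioc 0 T := by
      ext t
      simp [and_comm]
    rw [h1]
    exact integrable_const B
  have hF0' : ∀ c v, R + 1 < ‖v‖ → F c v = 0 := fun c v hv => hF0 c v (by linarith)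
  have hL2 : ∀ p, Tendsto (fun n => mo (fi α n) W p) atTop
      (𝓝 (-2 * ∫ t in Set.Ioi (0 : ℝ), inn k F p t)) := by
    intro p
    simp only [hM4]
    refine Tendsto.const_mul _ ?_
    refine tendsto_integral_of_dominated_convergence
      ((Set.Iic (‖p‖ + (R + 1))).indicator (fun _ => B)) ?_ (hbi _) ?_ ?_
    · intro n
      exact (inn_meas hk (fun c => (hM3 n c).measurable) p).aestronglyMeasurable
    · intro n
      refine (ae_restrict_iff' measurableSet_Ioi).2 (Eventually.of_forall fun t ht => ?_)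
      exact hbd _ (hM1 n) (hM2 n) _ p le_rfl t ht
    · refine (ae_restrict_iff' measurableSet_Ioi).2 (Eventually.of_forall fun t ht => ?_)
      exact hL1 p t ht
  refine ⟨fun p => -2 * ∫ t in Set.Ioi (0 : ℝ), inn k F p t, ?_, ?_⟩
  · refine continuous_iff_continuousAt.2 fun p₀ => ?_
    refine ContinuousAt.mul continuousAt_const ?_
    refine continuousAt_of_dominated (bound := (Set.Iic (‖p₀‖ + 1 + (R + 1))).indicator
      (fun _ => B)) ?_ ?_ (hbi _) ?_
    · exact Eventually.of_forall fun p => (inn_meas hk hF p).aestronglyMeasurable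
    · filter_upwards [Metric.ball_mem_nhds p₀ one_pos] with p hp
      refine (ae_restrict_iff' measurableSet_Ioi).2 (Eventually.of_forall fun t ht => ?_)
      refine hbd F hFA hF0' _ p ?_ t ht
      have h1 : ‖p‖ ≤ ‖p₀‖ + 1 := by
        have h2 := norm_sub_norm_le p p₀
        rw [Metric.mem_ball, dist_eq_norm] at hp
        linarith
      linarith
    · refine (ae_restrict_iff' measurableSet_Ioi).2 (Eventually.of_forall fun t ht => ?_)
      exact (inn_cont hk hk0 hkR hF hFA hF0 ht).continuousAt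
  · filter_upwards [mo_lim hWl] with p hp
    exact tendsto_nhds_unique hp (hL2 p)


/-! ### localisation -/

theorem rep {Ω C : Set (α → ℂ)} (hC : MeasurableSet C) (hCΩ : C ⊆ Ω) {f : (α → ℂ) → ℂ} {A : ℝ}
    (hΩ : MeasurableSet Ω) (hf : AEStronglyMeasurable f (volume.restrict Ω))
    (hb : ∀ v ∈ C, ‖f v‖ ≤ A) (hA : 0 ≤ A) :
    ∃ g : (α → ℂ) → ℂ, Measurable g ∧ (∀ v, ‖g v‖ ≤ A) ∧ (∀ v, v ∉ C → g v = 0) ∧
      ∀ᵐ v, v ∈ C → f v = g v := by
  have hm : Measurable (hf.mk f) := hf.stronglyMeasurable_mk.measurable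
  refine ⟨(C ∩ {v | ‖hf.mk f v‖ ≤ A}).indicator (hf.mk f), ?_, ?_, ?_, ?_⟩
  · exact hm.indicator (hC.inter (measurableSet_le hm.norm measurable_const))
  · intro v
    by_cases hv : v ∈ C ∩ {v | ‖hf.mk f v‖ ≤ A}
    · rw [Set.indicator_of_mem hv]
      exact hv.2
    · rw [Set.indicator_of_notMem hv, norm_zero]
      exact hA
  · intro v hv
    exact Set.indicator_of_notMem (fun h => hv h.1) _
  · filter_upwards [(ae_restrict_iff' hΩ).1 hf.ae_eq_mk] with v hv hvC
    have h1 := hv (hCΩ hvC)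
    have h2 : v ∈ C ∩ {v | ‖hf.mk f v‖ ≤ A} := ⟨hvC, by
      change ‖hf.mk f v‖ ≤ A
      rw [← h1]
      exact hb v hvC⟩
    rw [Set.indicator_of_mem h2, h1]

theorem db_mul {f g : (α → ℂ) → ℂ} {v : α → ℂ} (hf : DifferentiableAt ℝ f v)
    (hg : DifferentiableAt ℝ g v) (c : α) :
    db (fun v => f v * g v) c v = f v * db g c v + g v * db f c v := by
  unfold db
  rw [fderiv_fun_mul hf hg]
  simp only [ContinuousLinearMap.add_apply, ContinuousLinearMap.smul_apply, smul_eq_mul]
  ring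

theorem db_cont {f : (α → ℂ) → ℂ} (hf : ContDiff ℝ ∞ f) (c : α) : Continuous (db f c) := by
  have h := hf.continuous_fderiv (by simp)
  unfold db
  refine Continuous.mul continuous_const (Continuous.add ?_ (Continuous.mul continuous_const ?_))
  · exact h.clm_apply continuous_const
  · exact h.clm_apply continuous_const

theorem db_compact {f : (α → ℂ) → ℂ} (hf : HasCompactSupport f) (c : α) :
    HasCompactSupport (db f c) := by
  refine (hf.fderiv ℝ).comp_left (g := fun L : (α → ℂ) →L[ℝ] ℂ =>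
    (1 / 2 : ℂ) * (L (Pi.single c 1) + Complex.I * L (Pi.single c Complex.I))) ?_
  simp

theorem db_zero {f : (α → ℂ) → ℂ} {v : α → ℂ} (hv : v ∉ tsupport f) (c : α) :
    db f c v = 0 := by
  unfold db
  rw [fderiv_of_notMem_tsupport ℝ hv]
  simp

theorem loc [Nonempty α] {Ω : Set (α → ℂ)} (hΩ : IsOpen Ω) {w : (α → ℂ) → ℂ}
    {f : α → (α → ℂ) → ℂ} (hwm : AEStronglyMeasurable w (volume.restrict Ω))
    (hfm : ∀ c, AEStronglyMeasurable (f c) (volume.restrict Ω))
    (hwb : ∀ C ⊆ Ω, IsCompact C → ∃ A : ℝ, ∀ v ∈ C, ‖w v‖ ≤ A)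
    (hfb : ∀ C ⊆ Ω, IsCompact C → ∃ A : ℝ, ∀ c, ∀ v ∈ C, ‖f c v‖ ≤ A)
    (hweak : ∀ ψ : (α → ℂ) → ℂ, ContDiff ℝ ∞ ψ → HasCompactSupport ψ → tsupport ψ ⊆ Ω →
      ∀ c, ∫ v, db ψ c v * w v = - ∫ v, ψ v * f c v) (v₀ : α → ℂ) (hv₀ : v₀ ∈ Ω) :
    ∃ r : ℝ, ∃ G : (α → ℂ) → ℂ, 0 < r ∧ Continuous G ∧ Metric.ball v₀ r ⊆ Ω ∧
      ∀ᵐ v, v ∈ Metric.ball v₀ r → w v = G v := by
  obtain ⟨ε, hε, hsub⟩ := Metric.isOpen_iff.1 hΩ v₀ hv₀
  set r : ℝ := ε / 4 with hr
  have hr0 : 0 < r := by positivity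
  set C : Set (α → ℂ) := Metric.closedBall v₀ (2 * r) with hC
  have hCΩ : C ⊆ Ω := (Metric.closedBall_subset_ball (by linarith)).trans hsub
  have hCc : IsCompact C := isCompact_closedBall _ _
  have hCm : MeasurableSet C := Metric.isClosed_closedBall.measurableSet
  obtain ⟨A1, hA1⟩ := hwb C hCΩ hCc
  obtain ⟨A2, hA2⟩ := hfb C hCΩ hCc
  set A0 : ℝ := max (max A1 A2) 0 with hA0
  have hA00 : 0 ≤ A0 := le_max_right _ _
  obtain ⟨w1, hw1, hw2, hw3, hw4⟩ := rep (A := A0) hCm hCΩ hΩ.measurableSet hwm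
    (fun v hv => (hA1 v hv).trans ((le_max_left _ _).trans (le_max_left _ _))) hA00
  have hfr := fun c => rep (A := A0) hCm hCΩ hΩ.measurableSet (hfm c)
    (fun v hv => (hA2 c v hv).trans ((le_max_right _ _).trans (le_max_left _ _))) hA00
  choose f1 hf1 hf2 hf3 hf4 using hfr
  -- the cutoff
  let x : ContDiffBump v₀ := ⟨r, 2 * r, hr0, by linarith⟩
  set X : (α → ℂ) → ℂ := fun v => (x v : ℂ) with hX
  have hXs : ContDiff ℝ ∞ X := Complex.ofRealCLM.contDiff.comp x.contDiff
  have hXc : HasCompactSupport X :=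
    x.hasCompactSupport.comp_left (g := fun r : ℝ => (r : ℂ)) Complex.ofReal_zero
  have hXt : tsupport X ⊆ C := by
    have h1 : tsupport X ⊆ tsupport x := by
      refine closure_mono fun v hv => ?_
      rw [Function.mem_support] at hv ⊢
      intro h
      exact hv (by rw [hX]; simp [h])
    rw [x.tsupport_eq] at h1
    exact h1
  have hX0 : ∀ v, v ∉ C → X v = 0 := fun v hv => image_eq_zero_of_notMem_tsupport fun h =>
    hv (hXt h)
  have hX1 : ∀ v, ‖X v‖ ≤ 1 := by
    intro v
    rw [hX]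
    dsimp only
    rw [Complex.norm_real, Real.norm_of_nonneg x.nonneg]
    exact x.le_one
  have hdX0 : ∀ c v, v ∉ C → db X c v = 0 := fun c v hv => db_zero (fun h => hv (hXt h)) c
  have hdXM : ∃ M : ℝ, 0 ≤ M ∧ ∀ c v, ‖db X c v‖ ≤ M := by
    have h1 : ∀ c, ∃ M : ℝ, ∀ v, ‖db X c v‖ ≤ M := fun c =>
      (db_compact hXc c).exists_bound_of_continuous (db_cont hXs c)
    choose M hM using h1
    refine ⟨∑ c, |M c|, Finset.sum_nonneg fun c _ => abs_nonneg _, fun c v => ?_⟩
    exact (hM c v).trans ((le_abs_self _).trans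
      (Finset.single_le_sum (f := fun c => |M c|) (fun c _ => abs_nonneg _)
        (Finset.mem_univ c)))
  obtain ⟨M, hM0, hM⟩ := hdXM
  have hnC : ∀ v : α → ℂ, ‖v₀‖ + 2 * r < ‖v‖ → v ∉ C := by
    intro v hv h
    rw [hC, Metric.mem_closedBall, dist_eq_norm] at h
    have h2 := norm_sub_norm_le v v₀
    linarith
  have hXm : Measurable X := hXs.continuous.measurable
  have key := core (W := fun v => X v * w1 v) (F := fun c v => X v * f1 c v + w1 v * db X c v)
    (A := A0 + A0 * M) (R := ‖v₀‖ + 2 * r) (hXm.mul hw1)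
    (fun c => (hXm.mul (hf1 c)).add (hw1.mul (db_cont hXs c).measurable)) ?_ ?_ ?_ ?_ ?_
  · obtain ⟨G, hG, hGe⟩ := key
    refine ⟨r, G, hr0, hG, (Metric.ball_subset_closedBall.trans
      (Metric.closedBall_subset_closedBall (by linarith))).trans hCΩ, ?_⟩
    filter_upwards [hGe, hw4] with v h1 h2 hv
    have hvC : v ∈ C := Metric.ball_subset_closedBall.trans
      (Metric.closedBall_subset_closedBall (by linarith)) hv
    have h3 : X v = 1 := by
      rw [hX]
      dsimp only
      rw [x.one_of_mem_closedBall (Metric.ball_subset_closedBall hv), Complex.ofReal_one]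
    rw [h2 hvC, ← h1, h3, one_mul]
  · intro v
    rw [norm_mul]
    have h1 := hX1 v
    have h2 := hw2 v
    have h3 := norm_nonneg (w1 v)
    have h4 := norm_nonneg (X v)
    nlinarith [mul_nonneg hA00 hM0]
  · intro c v
    refine (norm_add_le _ _).trans ?_
    rw [norm_mul, norm_mul]
    have h1 := hX1 v
    have h2 := hw2 v
    have h3 := norm_nonneg (w1 v)
    have h4 := norm_nonneg (X v)
    have h5 := hf2 c v
    have h6 := norm_nonneg (f1 c v)
    have h7 := hM c v
    have h8 := norm_nonneg (db X c v)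
    have h9 : ‖X v‖ * ‖f1 c v‖ ≤ 1 * A0 := mul_le_mul h1 h5 h6 zero_le_one
    have h10 : ‖w1 v‖ * ‖db X c v‖ ≤ A0 * M := mul_le_mul h2 h7 h8 hA00
    linarith
  · intro v hv
    rw [hw3 v (hnC v hv), mul_zero]
  · intro c v hv
    rw [hw3 v (hnC v hv), hf3 c v (hnC v hv), mul_zero, zero_mul, add_zero]
  · intro ψ hψ hψc c
    have h1 := hweak (fun v => ψ v * X v) (hψ.mul hXs) hψc.mul_right
      ((tsupport_mul_subset_right (f := ψ) (g := X)).trans (hXt.trans hCΩ)) c
    obtain ⟨Mψ, hMψ⟩ := hψc.exists_bound_of_continuous hψ.continuous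
    obtain ⟨Md, hMd⟩ := (db_compact hψc c).exists_bound_of_continuous (db_cont hψ c)
    have hψd := hψ.differentiable (by simp)
    have hXd := hXs.differentiable (by simp)
    have i1 : Integrable (fun v => ψ v * (db X c v * w1 v)) (volume : Measure (α → ℂ)) := by
      refine integrable_of_bdd (B := Mψ * (M * A0)) (R := ‖v₀‖ + 2 * r)
        (hψ.continuous.measurable.mul ((db_cont hXs c).measurable.mul hw1)) ?_ ?_
      · intro v
        rw [norm_mul, norm_mul]
        exact mul_le_mul (hMψ v) (mul_le_mul (hM c v) (hw2 v) (norm_nonneg _) hM0)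
          (mul_nonneg (norm_nonneg _) (norm_nonneg _)) ((norm_nonneg _).trans (hMψ v))
      · intro v hv
        rw [hw3 v (hnC v hv), mul_zero, mul_zero]
    have i2 : Integrable (fun v => db ψ c v * (X v * w1 v)) (volume : Measure (α → ℂ)) := by
      refine integrable_of_bdd (B := Md * (1 * A0)) (R := ‖v₀‖ + 2 * r)
        ((db_cont hψ c).measurable.mul (hXm.mul hw1)) ?_ ?_
      · intro v
        rw [norm_mul, norm_mul]
        exact mul_le_mul (hMd v) (mul_le_mul (hX1 v) (hw2 v) (norm_nonneg _) zero_le_one)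
          (mul_nonneg (norm_nonneg _) (norm_nonneg _)) ((norm_nonneg _).trans (hMd v))
      · intro v hv
        rw [hw3 v (hnC v hv), mul_zero, mul_zero]
    have i3 : Integrable (fun v => ψ v * (X v * f1 c v)) (volume : Measure (α → ℂ)) := by
      refine integrable_of_bdd (B := Mψ * (1 * A0)) (R := ‖v₀‖ + 2 * r)
        (hψ.continuous.measurable.mul (hXm.mul (hf1 c))) ?_ ?_
      · intro v
        rw [norm_mul, norm_mul]
        exact mul_le_mul (hMψ v) (mul_le_mul (hX1 v) (hf2 c v) (norm_nonneg _) zero_le_one)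
          (mul_nonneg (norm_nonneg _) (norm_nonneg _)) ((norm_nonneg _).trans (hMψ v))
      · intro v hv
        rw [hf3 c v (hnC v hv), mul_zero, mul_zero]
    have e1 : ∫ v, db (fun v => ψ v * X v) c v * w v =
        (∫ v, ψ v * (db X c v * w1 v)) + ∫ v, db ψ c v * (X v * w1 v) := by
      rw [← integral_add i1 i2]
      refine integral_congr_ae ?_
      filter_upwards [hw4] with v hv
      rw [db_mul (hψd v) (hXd v)]
      by_cases hvC : v ∈ C
      · rw [hv hvC]
        ring
      · rw [hX0 v hvC, hdX0 c v hvC]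
        ring
    have e2 : ∫ v, (ψ v * X v) * f c v = ∫ v, ψ v * (X v * f1 c v) := by
      refine integral_congr_ae ?_
      filter_upwards [hf4 c] with v hv
      by_cases hvC : v ∈ C
      · rw [hv hvC]
        ring
      · rw [hX0 v hvC]
        ring
    rw [e1, e2] at h1
    have e3 : ∫ v, ψ v * (X v * f1 c v + w1 v * db X c v) =
        (∫ v, ψ v * (X v * f1 c v)) + ∫ v, ψ v * (db X c v * w1 v) := by
      rw [← integral_add i3 i1]
      refine integral_congr_ae (Eventually.of_forall fun v => ?_)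
      dsimp only
      ring
    rw [e3]
    linear_combination h1

end RootAux

open RootAux

/-- module ROOT: a bounded function with bounded weak `∂̄` derivatives is continuous -/
theorem cont_of_weak {Ω : Set (α → ℂ)} (hΩ : IsOpen Ω) {w : (α → ℂ) → ℂ}
    {f : α → (α → ℂ) → ℂ} (hwm : AEStronglyMeasurable w (volume.restrict Ω))
    (hfm : ∀ c, AEStronglyMeasurable (f c) (volume.restrict Ω))
    (hwb : ∀ C ⊆ Ω, IsCompact C → ∃ A : ℝ, ∀ v ∈ C, ‖w v‖ ≤ A)
    (hfb : ∀ C ⊆ Ω, IsCompact C → ∃ A : ℝ, ∀ c, ∀ v ∈ C, ‖f c v‖ ≤ A)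
    (hweak : ∀ ψ : (α → ℂ) → ℂ, ContDiff ℝ ∞ ψ → HasCompactSupport ψ → tsupport ψ ⊆ Ω →
      ∀ c, ∫ v, db ψ c v * w v = - ∫ v, ψ v * f c v) :
    ∃ w' : (α → ℂ) → ℂ, ContinuousOn w' Ω ∧ ∀ᵐ v ∂(volume.restrict Ω), w v = w' v := by
  rcases isEmpty_or_nonempty α with hα | hα
  · refine ⟨w, ?_, Eventually.of_forall fun _ => rfl⟩
    have : DiscreteTopology (α → ℂ) := Subsingleton.discreteTopology
    exact continuous_of_discreteTopology.continuousOn
  · have hl := loc hΩ hwm hfm hwb hfb hweak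
    choose! r G hr hG hsub hae using hl
    have key : ∀ v ∈ Ω, ∀ u ∈ Metric.ball v (r v), G u u = G v u := by
      intro v hv u hu
      have hu' : u ∈ Ω := hsub v hv hu
      have hU : IsOpen (Metric.ball v (r v) ∩ Metric.ball u (r u)) :=
        Metric.isOpen_ball.inter Metric.isOpen_ball
      refine Measure.eqOn_open_of_ae_eq (μ := volume) (f := G u) (g := G v) ?_ hU
        (hG u hu').continuousOn (hG v hv).continuousOn ⟨hu, Metric.mem_ball_self (hr u hu')⟩
      refine (ae_restrict_iff' hU.measurableSet).2 ?_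
      filter_upwards [hae v hv, hae u hu'] with y h1 h2 hy
      rw [← h1 hy.1, ← h2 hy.2]
    refine ⟨fun v => G v v, ?_, ?_⟩
    · intro v hv
      refine ContinuousAt.continuousWithinAt ?_
      have h1 : ContinuousAt (G v) v := (hG v hv).continuousAt
      refine h1.congr ?_
      filter_upwards [Metric.ball_mem_nhds v (hr v hv)] with u hu
      exact (key v hv u hu).symm
    · refine (ae_restrict_iff' hΩ.measurableSet).2 ?_
      rw [ae_iff]
      refine measure_null_of_locally_null _ fun v hv => ?_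
      have hvΩ : v ∈ Ω := by
        by_contra hcon
        exact hv fun h => absurd h hcon
      refine ⟨{a | ¬ (a ∈ Ω → w a = G a a)} ∩ Metric.ball v (r v),
        inter_mem self_mem_nhdsWithin (mem_nhdsWithin_of_mem_nhds
          (Metric.ball_mem_nhds v (hr v hvΩ))), ?_⟩
      refine measure_mono_null ?_ (ae_iff.1 (hae v hvΩ))
      rintro u ⟨h1, h2⟩ h3
      refine h1 fun _ => ?_
      rw [h3 h2, key v hvΩ u h2]

end Pool.Agent.MPd01a95
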