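import Mathlib
import Pool.Agent.Lib.MP_d01a95_gt_H.HDefs
import Pool.Agent.Lib.MP_d01a95_gt_H.Unimod
import Pool.Agent.Lib.MP_d01a95_gt_H.Cone
import Pool.Agent.Lib.MP_d01a95_gt_H.PhLoc
import Pool.Agent.Lib.MP_d01a95_gt_H.Root
import Pool.Agent.Lib.MP_d01a95_gt_H.Gone
import Pool.Agent.Lib.MP_d01a95_gt_H.DB1

set_option autoImplicit false
set_option linter.all false

open Matrix Filter Topology MeasureTheory Measure
open scoped ENNReal NNReal ContDiff

namespace Pool.Agent.MPd01a95

open GU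

variable {κ n ι α : Type} [Fintype κ] [DecidableEq κ] [Fintype n] [DecidableEq n]
  [Fintype ι] [DecidableEq ι] [Fintype α] [DecidableEq α] {G : Type} [Group G]

namespace GregAux

open PhLoc

section

variable {σ : G →* GU κ} {ρ : G →* Matrix n n ℝ} {H : (κ ⊕ Unit → ℂ) → Matrix n n ℝ}
  (hH : EqC σ ρ H)

include hH

theorem unitH {v : κ ⊕ Unit → ℂ} (hv : v ∈ Cn κ) : IsUnit (H v).det :=
  (hH.pos v hv).det_pos.ne'.isUnit

theorem contH (i j : n) : ContinuousOn (fun w => H w i j) (Cn κ) := by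
  intro v hv
  obtain ⟨L, U, hU, hL⟩ := hH.lip v hv
  exact ((hL i j).continuousOn.continuousAt hU).continuousWithinAt

theorem contcH (i j : n) : ContinuousOn (fun w => cH H w i j) (Cn κ) :=
  Complex.continuous_ofReal.comp_continuousOn (contH hH i j)

theorem contInv (i j : n) : ContinuousOn (fun w => (cH H w)⁻¹ i j) (Cn κ) := by
  have h1 : Sm (𝕜 := ℂ) 0 (cH H) (Cn κ) := fun i j => contDiffOn_zero.2 (contcH hH i j)
  have h2 := Sm.inv h1 fun v hv => cH_det H (unitH hH hv)
  exact contDiffOn_zero.1 (h2 i j)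

theorem LB_fd (u : κ ⊕ Unit → ℂ) (i j : n) :
    LB (Cn κ) fun v => ((fderiv ℝ (fun w => H w i j) v u : ℝ) : ℂ) := by
  intro v hv
  obtain ⟨L, U, hU, hL⟩ := hH.lip v hv
  refine ⟨L * ‖u‖, ?_⟩
  filter_upwards [eventually_mem_nhds_iff.2 hU] with w hw
  rw [Complex.norm_real]
  exact ((fderiv ℝ (fun w => H w i j) w).le_opNorm u).trans
    (mul_le_mul_of_nonneg_right (norm_fderiv_le_of_lipschitzOn ℝ hw (hL i j)) (norm_nonneg _))

theorem LB_dz (u : κ ⊕ Unit → ℂ) (i j : n) : LB (Cn κ) fun v => dz (cH H) u v i j := by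
  simp only [dz_apply]
  exact (LB.const _).mul ((LB_fd hH u i j).sub ((LB.const _).mul (LB_fd hH _ i j)))

theorem LB_dzb (u : κ ⊕ Unit → ℂ) (i j : n) : LB (Cn κ) fun v => dzb (cH H) u v i j := by
  simp only [dzb_apply]
  exact (LB.const _).mul ((LB_fd hH u i j).add ((LB.const _).mul (LB_fd hH _ i j)))

theorem LB_ph (u : κ ⊕ Unit → ℂ) (i j : n) : LB (Cn κ) fun v => ph H u v i j := by
  simp only [ph_apply]
  exact (LB.const _).mul (LB.sum _ fun k _ => (LB.of_cont isOpen_Cn (contInv hH i k)).mul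
    (LB_dz hH u k j))

theorem LB_phb (u : κ ⊕ Unit → ℂ) (i j : n) : LB (Cn κ) fun v => phb H u v i j := by
  simp only [phb_apply]
  exact (LB.const _).mul (LB.sum _ fun k _ => (LB.of_cont isOpen_Cn (contInv hH i k)).mul
    (LB_dzb hH u k j))

theorem meas_dz (u : κ ⊕ Unit → ℂ) (i j : n) : Measurable fun v => dz (cH H) u v i j := by
  simp only [dz_apply]
  have h1 := measurable_fderiv_apply_const ℝ (fun w : κ ⊕ Unit → ℂ => H w i j) u
  have h2 := measurable_fderiv_apply_const ℝ (fun w : κ ⊕ Unit → ℂ => H w i j) (Complex.I • u)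
  exact ((Complex.measurable_ofReal.comp h1).sub
    ((Complex.measurable_ofReal.comp h2).const_mul _)).const_mul _

theorem meas_dzb (u : κ ⊕ Unit → ℂ) (i j : n) : Measurable fun v => dzb (cH H) u v i j := by
  simp only [dzb_apply]
  have h1 := measurable_fderiv_apply_const ℝ (fun w : κ ⊕ Unit → ℂ => H w i j) u
  have h2 := measurable_fderiv_apply_const ℝ (fun w : κ ⊕ Unit → ℂ => H w i j) (Complex.I • u)
  exact ((Complex.measurable_ofReal.comp h1).add
    ((Complex.measurable_ofReal.comp h2).const_mul _)).const_mul _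

theorem meas_inv (i j : n) :
    AEStronglyMeasurable (fun v => (cH H v)⁻¹ i j) (volume.restrict (Cn κ)) :=
  (contInv hH i j).aestronglyMeasurable isOpen_Cn.measurableSet

theorem meas_ph (u : κ ⊕ Unit → ℂ) (i j : n) :
    AEStronglyMeasurable (fun v => ph H u v i j) (volume.restrict (Cn κ)) := by
  simp only [ph_apply]
  refine AEStronglyMeasurable.const_mul ?_ _
  refine Finset.aestronglyMeasurable_fun_sum _ fun k _ => ?_
  exact (meas_inv hH i k).mul (meas_dz hH u k j).aestronglyMeasurable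

theorem meas_phb (u : κ ⊕ Unit → ℂ) (i j : n) :
    AEStronglyMeasurable (fun v => phb H u v i j) (volume.restrict (Cn κ)) := by
  simp only [phb_apply]
  refine AEStronglyMeasurable.const_mul ?_ _
  refine Finset.aestronglyMeasurable_fun_sum _ fun k _ => ?_
  exact (meas_inv hH i k).mul (meas_dzb hH u k j).aestronglyMeasurable

end

theorem cm_apply (A B : Matrix n n ℂ) (i j : n) :
    cm A B i j = ∑ k, A i k * B k j - ∑ k, B i k * A k j := by
  unfold cm
  rw [Matrix.sub_apply, Matrix.mul_apply, Matrix.mul_apply]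

theorem LB_cm {E : Type} [TopologicalSpace E] {Ω : Set E} {A B : E → Matrix n n ℂ}
    (hA : ∀ i j, LB Ω fun v => A v i j) (hB : ∀ i j, LB Ω fun v => B v i j) (i j : n) :
    LB Ω fun v => cm (A v) (B v) i j := by
  simp only [cm_apply]
  exact (LB.sum _ fun k _ => (hA i k).mul (hB k j)).sub
    (LB.sum _ fun k _ => (hB i k).mul (hA k j))

theorem meas_cm {A B : (α → ℂ) → Matrix n n ℂ} {μ : Measure (α → ℂ)}
    (hA : ∀ i j, AEStronglyMeasurable (fun v => A v i j) μ)
    (hB : ∀ i j, AEStronglyMeasurable (fun v => B v i j) μ) (i j : n) :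
    AEStronglyMeasurable (fun v => cm (A v) (B v) i j) μ := by
  simp only [cm_apply]
  exact (Finset.aestronglyMeasurable_fun_sum _ fun k _ => (hA i k).mul (hB k j)).sub
    (Finset.aestronglyMeasurable_fun_sum _ fun k _ => (hB i k).mul (hA k j))

theorem cont_cm {E : Type} [TopologicalSpace E] {Ω : Set E} {A B : E → Matrix n n ℂ}
    (hA : ∀ i j, ContinuousOn (fun v => A v i j) Ω) (hB : ∀ i j, ContinuousOn (fun v => B v i j) Ω)
    (i j : n) : ContinuousOn (fun v => cm (A v) (B v) i j) Ω := by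
  simp only [cm_apply]
  exact (continuousOn_finset_sum _ fun k _ => (hA i k).mul (hB k j)).sub
    (continuousOn_finset_sum _ fun k _ => (hB i k).mul (hA k j))

/-- the real linear form `u ↦ Re (u a * z)` -/
noncomputable def rl (a : α) (z : ℂ) : (α → ℂ) →L[ℝ] ℝ :=
  z.re • (Complex.reCLM.comp (ContinuousLinearMap.proj (R := ℝ) (φ := fun _ : α => ℂ) a)) -
    z.im • (Complex.imCLM.comp (ContinuousLinearMap.proj (R := ℝ) (φ := fun _ : α => ℂ) a))

theorem rl_apply (a : α) (z : ℂ) (u : α → ℂ) : rl a z u = (u a * z).re := by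
  simp only [rl, ContinuousLinearMap.sub_apply, ContinuousLinearMap.smul_apply,
    ContinuousLinearMap.comp_apply, ContinuousLinearMap.proj_apply, smul_eq_mul,
    Complex.reCLM_apply, Complex.imCLM_apply, Complex.mul_re]
  ring

theorem rl_cont (a : α) : Continuous (rl a) := by
  unfold rl
  exact (Complex.continuous_re.smul continuous_const).sub
    (Complex.continuous_im.smul continuous_const)

end GregAux

open GregAux PhLoc

/-- module GREG: regularity of the limit -/
theorem reg_cone {σ : G →* GU κ} {ρ : G →* Matrix n n ℝ} {H : (κ ⊕ Unit → ℂ) → Matrix n n ℝ}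
    (hH : EqC σ ρ H) (hc : ∀ a c : κ ⊕ Unit, ∀ᵐ v ∂(volume.restrict (Cn κ)),
      cm (ph H (Pi.single a 1) v) (ph H (Pi.single c 1) v) = 0)
    (hw : ∀ ψ : (κ ⊕ Unit → ℂ) → ℂ, ContDiff ℝ ∞ ψ → HasCompactSupport ψ → tsupport ψ ⊆ Cn κ →
      ∀ a c, ∀ i j, ∫ v, db ψ c v * ph H (Pi.single a 1) v i j =
        - ∫ v, ψ v * cm (ph H (Pi.single a 1) v) (phb H (Pi.single c 1) v) i j) :
    Sm 1 H (Cn κ) ∧ (∀ a c : κ ⊕ Unit, ∀ v ∈ Cn κ,
      cm (ph H (Pi.single a 1) v) (ph H (Pi.single c 1) v) = 0) ∧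
    ∀ (a : κ ⊕ Unit) (i j : n), Db (Cn κ) (fun v => ph H (Pi.single a 1) v i j)
      (fun c v => cm (ph H (Pi.single a 1) v) (phb H (Pi.single c 1) v) i j) := by
  have hroot : ∀ (a : κ ⊕ Unit) (i j : n), ∃ w' : (κ ⊕ Unit → ℂ) → ℂ, ContinuousOn w' (Cn κ) ∧
      ∀ᵐ v ∂(volume.restrict (Cn κ)), ph H (Pi.single a 1) v i j = w' v := by
    intro a i j
    refine cont_of_weak isOpen_Cn (f := fun c v => cm (ph H (Pi.single a 1) v)
      (phb H (Pi.single c 1) v) i j) (meas_ph hH _ i j)
      (fun c => meas_cm (meas_ph hH _) (meas_phb hH _) i j)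
      (fun C hC hCc => (LB_ph hH _ i j).compact hC hCc) ?_
      (fun ψ h1 h2 h3 c => hw ψ h1 h2 h3 a c i j)
    intro C hC hCc
    have h1 : ∀ c : κ ⊕ Unit, ∃ A : ℝ, ∀ v ∈ C, ‖cm (ph H (Pi.single a 1) v)
        (phb H (Pi.single c 1) v) i j‖ ≤ A := fun c =>
      (LB_cm (LB_ph hH _) (LB_phb hH _) i j).compact hC hCc
    choose A hA using h1
    refine ⟨∑ c, |A c|, fun c v hv => (hA c v hv).trans ((le_abs_self _).trans ?_)⟩
    exact Finset.single_le_sum (f := fun c => |A c|) (fun _ _ => abs_nonneg _) (Finset.mem_univ c)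
  choose P hPc hPa using hroot
  have hPall : ∀ᵐ v ∂(volume.restrict (Cn κ)), ∀ a i j,
      ph H (Pi.single a 1) v i j = P a i j v := by
    rw [ae_all_iff]
    intro a
    rw [ae_all_iff]
    intro i
    rw [ae_all_iff]
    intro j
    exact hPa a i j
  -- the derivative
  let D : n → n → (κ ⊕ Unit → ℂ) → (κ ⊕ Unit → ℂ) →L[ℝ] ℝ := fun i j v =>
    ∑ k, ∑ a, (4 * H v i k) • rl a (P a k j v)
  have hDapp : ∀ i j v u, D i j v u = ∑ k, ∑ a, 4 * H v i k * (u a * P a k j v).re := by
    intro i j v u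
    simp only [D, ContinuousLinearMap.sum_apply, ContinuousLinearMap.smul_apply, rl_apply,
      smul_eq_mul]
  have hDc : ∀ i j, ContinuousOn (D i j) (Cn κ) := by
    intro i j
    refine continuousOn_finset_sum _ fun k _ => continuousOn_finset_sum _ fun a _ => ?_
    exact (continuousOn_const.mul (contH hH i k)).smul
      ((rl_cont a).comp_continuousOn (hPc a k j))
  have hmain : ∀ i j, ContDiffOn ℝ 1 (fun w => H w i j) (Cn κ) ∧
      ∀ v ∈ Cn κ, HasFDerivAt (fun w => H w i j) (D i j v) v := by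
    intro i j
    refine C1_of_ae isOpen_Cn ?_ (hDc i j) ?_
    · intro v hv
      obtain ⟨L, U, hU, hL⟩ := hH.lip v hv
      exact ⟨L, U, hU, hL i j⟩
    · filter_upwards [hPall, ae_restrict_mem isOpen_Cn.measurableSet] with v hv hvC
      ext u
      rw [fd_ph H (unitH hH hvC), hDapp]
      refine Finset.sum_congr rfl fun k _ => Finset.sum_congr rfl fun a _ => ?_
      rw [hv]
  -- `ph` agrees with the continuous representative
  have hph : ∀ v ∈ Cn κ, ∀ a i j, ph H (Pi.single a 1) v i j = P a i j v := by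
    intro v hv a i j
    have h2 : dz (cH H) (Pi.single a 1) v =
        (2 : ℂ) • (cH H v * Matrix.of fun l j => P a l j v) := by
      ext k j'
      rw [Matrix.smul_apply, Matrix.mul_apply, smul_eq_mul]
      have hdz' : dz (cH H) (Pi.single a 1) v k j' = 2 * ∑ l, (H v k l : ℂ) * P a l j' v := by
        rw [dz_apply, ((hmain k j').2 v hv).fderiv, hDapp, hDapp]
        have e1 : ∀ l, ∑ b, 4 * H v k l * ((Pi.single a 1 : κ ⊕ Unit → ℂ) b * P b l j' v).re =
            4 * H v k l * (P a l j' v).re := by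
          intro l
          rw [Finset.sum_eq_single a]
          · rw [Pi.single_eq_same, one_mul]
          · intro b _ hb
            rw [Pi.single_eq_of_ne hb, zero_mul, Complex.zero_re, mul_zero]
          · simp
        have e2 : ∀ l, ∑ b, 4 * H v k l *
            ((Complex.I • (Pi.single a 1 : κ ⊕ Unit → ℂ)) b * P b l j' v).re =
            4 * H v k l * (-(P a l j' v).im) := by
          intro l
          rw [Finset.sum_eq_single a]
          · rw [Pi.smul_apply, Pi.single_eq_same, smul_eq_mul, mul_one, Complex.I_mul_re]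
          · intro b _ hb
            rw [Pi.smul_apply, Pi.single_eq_of_ne hb, smul_zero, zero_mul, Complex.zero_re,
              mul_zero]
          · simp
        rw [Finset.sum_congr rfl fun l _ => e1 l, Finset.sum_congr rfl fun l _ => e2 l]
        push_cast
        rw [Finset.mul_sum, ← Finset.sum_sub_distrib, Finset.mul_sum, Finset.mul_sum]
        refine Finset.sum_congr rfl fun l _ => ?_
        conv_rhs => rw [← Complex.re_add_im (P a l j' v)]
        ring
      rw [hdz']
      rfl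
    unfold ph
    rw [h2, Matrix.mul_smul, ← Matrix.mul_assoc,
      Matrix.nonsing_inv_mul _ (cH_det H (unitH hH hv)), Matrix.one_mul, smul_smul]
    norm_num
  have hphc : ∀ a i j, ContinuousOn (fun v => ph H (Pi.single a 1) v i j) (Cn κ) :=
    fun a i j => (hPc a i j).congr fun v hv => hph v hv a i j
  have hphbc : ∀ a i j, ContinuousOn (fun v => phb H (Pi.single a 1) v i j) (Cn κ) :=
    fun a i j => ((hphc a i j).star).congr fun v hv => phb_conj H (unitH hH hv) _ i j
  refine ⟨fun i j => (hmain i j).1, ?_, ?_⟩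
  · intro a c v hv
    ext i j
    have h5 : (fun v => cm (ph H (Pi.single a 1) v) (ph H (Pi.single c 1) v) i j)
        =ᵐ[volume.restrict (Cn κ)] fun _ => (0 : ℂ) := by
      filter_upwards [hc a c] with v hv
      rw [hv]
      rfl
    exact eqOn_open_of_ae_eq h5 isOpen_Cn (cont_cm (hphc a) (hphc c) i j) continuousOn_const hv
  · intro a i j
    exact db_of_weak isOpen_Cn (hphc a i j) (fun c => cont_cm (hphc a) (hphbc c) i j)
      fun ψ h1 h2 h3 c => hw ψ h1 h2 h3 a c i j

end Pool.Agent.MPd01a95
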