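import Mathlib
import Pool.Agent.Lib.MP_d01a95_gt_H.HDefs
import Pool.Agent.Lib.MP_d01a95_gt_H.Unimod

set_option autoImplicit false
set_option linter.all false

open Matrix Filter Topology MeasureTheory Measure
open scoped ENNReal NNReal ContDiff

namespace Pool.Agent.MPd01a95

open GU

variable {κ n ι α : Type} [Fintype κ] [DecidableEq κ] [Fintype n] [DecidableEq n]
  [Fintype ι] [DecidableEq ι] [Fintype α] [DecidableEq α] {G : Type} [Group G]

namespace GresAux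

theorem isOpen_Cn' : IsOpen (Cn κ) := by
  unfold Cn LowAux.nqC
  refine isOpen_lt continuous_const ?_
  fun_prop

theorem isOpen_Bl : IsOpen (HolAux.Bl κ) := by
  unfold HolAux.Bl
  refine isOpen_lt ?_ continuous_const
  fun_prop

/-- the linear part of the affine chart -/
noncomputable def Lc (κ : Type) [Fintype κ] : (κ → ℂ) →L[ℂ] (κ ⊕ Unit → ℂ) :=
  LinearMap.toContinuousLinearMap
    { toFun := fun z => Sum.elim z fun _ => 0
      map_add' := fun x y => by
        funext i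
        rcases i with i | i <;> simp
      map_smul' := fun c x => by
        funext i
        rcases i with i | i <;> simp }

theorem Lc_apply (z : κ → ℂ) : Lc κ z = Sum.elim z fun _ => 0 := rfl

/-- base point of the affine chart -/
def vc (κ : Type) : κ ⊕ Unit → ℂ := Sum.elim (fun _ => 0) fun _ => 1

theorem chart (z : κ → ℂ) : (Sum.elim z fun _ => 1 : κ ⊕ Unit → ℂ) = vc κ + Lc κ z := by
  funext i
  rcases i with i | i <;> simp [vc, Lc_apply]

theorem Lc_single (a : κ) (x : ℂ) : Lc κ (Pi.single a x) = Pi.single (Sum.inl a) x := by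
  funext i
  rw [Lc_apply]
  rcases i with i | i
  · by_cases h : i = a
    · subst h; simp
    · simp [h]
  · simp

theorem chart_mem {z : κ → ℂ} (hz : z ∈ HolAux.Bl κ) : vc κ + Lc κ z ∈ Cn κ := by
  rw [← chart]
  show 0 < LowAux.nqC (Sum.elim z fun _ => 1 : κ ⊕ Unit → ℂ)
  unfold LowAux.nqC
  have h : ∑ i, ‖z i‖ ^ 2 < 1 := hz
  simp only [Sum.elim_inl, Sum.elim_inr, norm_one, one_pow]
  linarith

theorem DM_chart {𝕜 : Type} [RCLike 𝕜] {f : (κ ⊕ Unit → ℂ) → Matrix n n 𝕜} {z : κ → ℂ}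
    (hf : ∀ i j, DifferentiableAt ℝ (fun w => f w i j) (vc κ + Lc κ z)) (u : κ → ℂ) :
    DM (fun z' => f (vc κ + Lc κ z')) z u = DM f (vc κ + Lc κ z) (Lc κ u) := by
  ext i j
  simp only [DM, Matrix.of_apply]
  have h1 : HasFDerivAt (fun z' : κ → ℂ => vc κ + Lc κ z') ((Lc κ).restrictScalars ℝ) z := by
    have := ((Lc κ).restrictScalars ℝ).hasFDerivAt (x := z)
    exact this.const_add (vc κ)
  have h2 := ((hf i j).hasFDerivAt).comp z h1
  have h3 : (fun z' => f (vc κ + Lc κ z') i j) =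
      (fun w => f w i j) ∘ fun z' : κ → ℂ => vc κ + Lc κ z' := rfl
  rw [h3, h2.fderiv]
  rfl

section

variable {H : (κ ⊕ Unit → ℂ) → Matrix n n ℝ} {z : κ → ℂ}
  (hf : ∀ i j, DifferentiableAt ℝ (fun w => H w i j) (vc κ + Lc κ z))

include hf

theorem cdiff (i j : n) :
    DifferentiableAt ℝ (fun w => cH H w i j) (vc κ + Lc κ z) := by
  have h1 : (fun w => cH H w i j) = fun w => ((H w i j : ℝ) : ℂ) := rfl
  rw [h1]
  exact Complex.ofRealCLM.differentiableAt.comp _ (hf i j)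

theorem dz_chart (u : κ → ℂ) : dz (cH fun z' => H (vc κ + Lc κ z')) u z =
    dz (cH H) (Lc κ u) (vc κ + Lc κ z) := by
  have h1 : (cH fun z' => H (vc κ + Lc κ z')) = fun z' => cH H (vc κ + Lc κ z') := rfl
  unfold dz
  rw [h1, DM_chart (cdiff hf), DM_chart (cdiff hf), map_smul]

theorem dzb_chart (u : κ → ℂ) : dzb (cH fun z' => H (vc κ + Lc κ z')) u z =
    dzb (cH H) (Lc κ u) (vc κ + Lc κ z) := by
  have h1 : (cH fun z' => H (vc κ + Lc κ z')) = fun z' => cH H (vc κ + Lc κ z') := rfl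
  unfold dzb
  rw [h1, DM_chart (cdiff hf), DM_chart (cdiff hf), map_smul]

theorem ph_chart (u : κ → ℂ) : ph (fun z' => H (vc κ + Lc κ z')) u z =
    ph H (Lc κ u) (vc κ + Lc κ z) := by
  unfold ph
  rw [dz_chart hf]
  rfl

theorem phb_chart (u : κ → ℂ) : phb (fun z' => H (vc κ + Lc κ z')) u z =
    phb H (Lc κ u) (vc κ + Lc κ z) := by
  unfold phb
  rw [dzb_chart hf]
  rfl

end

/-- derivative of the composition with the chart -/
theorem db_chart {u : (κ ⊕ Unit → ℂ) → ℂ} (hu : ContDiff ℝ ∞ u) (c : κ) (z : κ → ℂ) :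
    db (fun z' : κ → ℂ => u (vc κ + Lc κ z')) c z = db u (Sum.inl c) (vc κ + Lc κ z) := by
  have h1 : HasFDerivAt (fun z' : κ → ℂ => vc κ + Lc κ z') ((Lc κ).restrictScalars ℝ) z := by
    have := ((Lc κ).restrictScalars ℝ).hasFDerivAt (x := z)
    exact this.const_add (vc κ)
  have h2 := ((hu.differentiable (by simp)) (vc κ + Lc κ z)).hasFDerivAt.comp z h1
  have h3 : (fun z' : κ → ℂ => u (vc κ + Lc κ z')) =
      u ∘ fun z' : κ → ℂ => vc κ + Lc κ z' := rfl
  unfold db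
  rw [h3, h2.fderiv, ContinuousLinearMap.comp_apply, ContinuousLinearMap.comp_apply]
  have h4 : ∀ x : ℂ, ((Lc κ).restrictScalars ℝ) (Pi.single c x) = Pi.single (Sum.inl c) x :=
    fun x => Lc_single c x
  rw [h4, h4]

/-- restriction of approximable functions to the chart -/
theorem Db_chart {w : (κ ⊕ Unit → ℂ) → ℂ} {f : κ ⊕ Unit → (κ ⊕ Unit → ℂ) → ℂ}
    (h : Db (Cn κ) w f) :
    Db (HolAux.Bl κ) (fun z => w (vc κ + Lc κ z)) fun c z => f (Sum.inl c) (vc κ + Lc κ z) := by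
  intro C hC hCc ε hε
  have hcont : Continuous fun z : κ → ℂ => vc κ + Lc κ z :=
    continuous_const.add (Lc κ).continuous
  obtain ⟨u, hu, hu2⟩ := h ((fun z : κ → ℂ => vc κ + Lc κ z) '' C)
    (by rintro _ ⟨z, hz, rfl⟩; exact chart_mem (hC hz)) (hCc.image hcont) ε hε
  refine ⟨fun z => u (vc κ + Lc κ z), ?_, ?_⟩
  · exact hu.comp (contDiff_const.add ((Lc κ).restrictScalars ℝ).contDiff)
  · intro z hz
    obtain ⟨h1, h2⟩ := hu2 _ ⟨z, hz, rfl⟩
    refine ⟨h1, fun c => ?_⟩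
    rw [db_chart hu]
    exact h2 (Sum.inl c)

theorem Db_congr' {Ω : Set (α → ℂ)} {w w' : (α → ℂ) → ℂ} {f f' : α → (α → ℂ) → ℂ}
    (h : Db Ω w f) (h1 : ∀ v ∈ Ω, w v = w' v) (h2 : ∀ c, ∀ v ∈ Ω, f c v = f' c v) :
    Db Ω w' f' := by
  intro C hC hCc ε hε
  obtain ⟨u, hu, hu2⟩ := h C hC hCc ε hε
  refine ⟨u, hu, fun v hv => ?_⟩
  rw [← h1 v (hC hv)]
  refine ⟨(hu2 v hv).1, fun c => ?_⟩
  rw [← h2 c v (hC hv)]
  exact (hu2 v hv).2 c

end GresAux

open GresAux

/-- module GRES: restriction to the ball -/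
theorem restrict_ball {σ : G →* GU κ} {ρ : G →* Matrix n n ℝ}
    {H : (κ ⊕ Unit → ℂ) → Matrix n n ℝ}
    (hH : EqC σ ρ H) (J₀ : Matrix n n ℝ) (hJ : ∀ v ∈ Cn κ, H v * J₀ * H v = J₀)
    (h1 : Sm 1 H (Cn κ)) (h2 : ∀ a c : κ ⊕ Unit, ∀ v ∈ Cn κ,
      cm (ph H (Pi.single a 1) v) (ph H (Pi.single c 1) v) = 0)
    (h3 : ∀ (a : κ ⊕ Unit) (i j : n), Db (Cn κ) (fun v => ph H (Pi.single a 1) v i j)
      (fun c v => cm (ph H (Pi.single a 1) v) (phb H (Pi.single c 1) v) i j)) :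
    PHB J₀ (fun z : κ → ℂ => H (Sum.elim z fun _ => 1)) := by
  have hch : (fun z : κ → ℂ => H (Sum.elim z fun _ => 1)) = fun z => H (vc κ + Lc κ z) := by
    funext z
    rw [chart]
  rw [hch]
  have hd : ∀ z ∈ HolAux.Bl κ, ∀ i j,
      DifferentiableAt ℝ (fun w => H w i j) (vc κ + Lc κ z) := fun z hz i j =>
    ((h1 i j).contDiffAt (isOpen_Cn'.mem_nhds (chart_mem hz))).differentiableAt (by simp)
  refine ⟨fun z hz => hH.pos _ (chart_mem hz), fun z hz => hJ _ (chart_mem hz), ?_, ?_, ?_⟩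
  · intro i j
    have h4 : ContDiff ℝ 1 fun z : κ → ℂ => vc κ + Lc κ z :=
      contDiff_const.add ((Lc κ).restrictScalars ℝ).contDiff
    exact (h1 i j).comp h4.contDiffOn fun z hz => chart_mem hz
  · intro a c z hz
    rw [ph_chart (hd z hz), ph_chart (hd z hz), Lc_single, Lc_single]
    exact h2 _ _ _ (chart_mem hz)
  · intro a i j
    refine Db_congr' (Db_chart (h3 (Sum.inl a) i j)) ?_ ?_
    · intro z hz
      rw [ph_chart (hd z hz), Lc_single]
    · intro c z hz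
      rw [ph_chart (hd z hz), phb_chart (hd z hz), Lc_single, Lc_single]

end Pool.Agent.MPd01a95
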