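import Mathlib
import Pool.Agent.Lib.MP_d01a95_gt.Irr
import Pool.Agent.Lib.MP_d01a95_gt_H.HDefs
import Pool.Agent.Lib.MP_d01a95_gt_H.Unimod

set_option autoImplicit false
set_option linter.all false

open Matrix Filter Topology MeasureTheory Measure
open scoped ENNReal NNReal ContDiff

namespace Pool.Agent.MPd01a95

open GU

variable {κ n ι α : Type} [Fintype κ] [DecidableEq κ] [Fintype n] [DecidableEq n] [Fintype ι]
  [DecidableEq ι] [Fintype α] [DecidableEq α] {G : Type} [Group G]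

namespace IrrSAux

/-- The orthogonal complement for the dot product. -/
def perp (U : Submodule ℝ (n → ℝ)) : Submodule ℝ (n → ℝ) where
  carrier := {x | ∀ u ∈ U, x ⬝ᵥ u = 0}
  add_mem' := by
    intro a b ha hb u hu
    rw [add_dotProduct, ha u hu, hb u hu, add_zero]
  zero_mem' := by
    intro u hu
    exact zero_dotProduct u
  smul_mem' := by
    intro c a ha u hu
    rw [smul_dotProduct, ha u hu, smul_zero]

/-- Skew matrices killing `V`. -/
def W1 (V : Submodule ℝ (n → ℝ)) : Submodule ℝ (Matrix n n ℝ) where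
  carrier := {S | Sᵀ = -S ∧ ∀ x ∈ V, S *ᵥ x = 0}
  add_mem' := by
    rintro a b ⟨ha, ha'⟩ ⟨hb, hb'⟩
    refine ⟨by rw [transpose_add, ha, hb, neg_add], fun x hx => ?_⟩
    rw [add_mulVec, ha' x hx, hb' x hx, add_zero]
  zero_mem' := ⟨by simp, fun x _ => zero_mulVec x⟩
  smul_mem' := by
    rintro c a ⟨ha, ha'⟩
    refine ⟨by rw [transpose_smul, ha, smul_neg], fun x hx => ?_⟩
    rw [smul_mulVec, ha' x hx, smul_zero]

/-- Skew matrices vanishing on pairs of vectors of `V`. -/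
def W2 (V : Submodule ℝ (n → ℝ)) : Submodule ℝ (Matrix n n ℝ) where
  carrier := {S | Sᵀ = -S ∧ ∀ x ∈ V, ∀ y ∈ V, x ⬝ᵥ (S *ᵥ y) = 0}
  add_mem' := by
    rintro a b ⟨ha, ha'⟩ ⟨hb, hb'⟩
    refine ⟨by rw [transpose_add, ha, hb, neg_add], fun x hx y hy => ?_⟩
    rw [add_mulVec, dotProduct_add, ha' x hx y hy, hb' x hx y hy, add_zero]
  zero_mem' := ⟨by simp, fun x _ y _ => by simp⟩
  smul_mem' := by
    rintro c a ⟨ha, ha'⟩
    refine ⟨by rw [transpose_smul, ha, smul_neg], fun x hx y hy => ?_⟩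
    rw [smul_mulVec, dotProduct_smul, ha' x hx y hy, smul_zero]

lemma mem_perp {U : Submodule ℝ (n → ℝ)} {x : n → ℝ} : x ∈ perp U ↔ ∀ u ∈ U, x ⬝ᵥ u = 0 :=
  Iff.rfl

lemma mem_W1 {V : Submodule ℝ (n → ℝ)} {S : Matrix n n ℝ} :
    S ∈ W1 V ↔ Sᵀ = -S ∧ ∀ x ∈ V, S *ᵥ x = 0 := Iff.rfl

lemma mem_W2 {V : Submodule ℝ (n → ℝ)} {S : Matrix n n ℝ} :
    S ∈ W2 V ↔ Sᵀ = -S ∧ ∀ x ∈ V, ∀ y ∈ V, x ⬝ᵥ (S *ᵥ y) = 0 := Iff.rfl

/-- The elementary skew matrix of two vectors. -/
def sk (u v : n → ℝ) : Matrix n n ℝ := vecMulVec u v - vecMulVec v u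

lemma sk_transpose (u v : n → ℝ) : (sk u v)ᵀ = -sk u v := by
  ext i j
  simp [sk, vecMulVec_apply]
  ring

lemma sk_mulVec (u v x : n → ℝ) : sk u v *ᵥ x = (v ⬝ᵥ x) • u - (u ⬝ᵥ x) • v := by
  ext i
  rw [sk, sub_mulVec]
  simp only [Pi.sub_apply, Pi.smul_apply, smul_eq_mul, mulVec, dotProduct,
    vecMulVec_apply, Finset.sum_mul]
  congr 1 <;> exact Finset.sum_congr rfl (fun j _ => by ring)

lemma skew_conj (h S : Matrix n n ℝ) (hS : Sᵀ = -S) : (h * S * hᵀ)ᵀ = -(h * S * hᵀ) := by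
  rw [transpose_mul, transpose_mul, transpose_transpose, hS, Matrix.mul_assoc]
  simp

lemma perp_inv {U : Submodule ℝ (n → ℝ)} {h : Matrix n n ℝ} (hU : ∀ u ∈ U, h *ᵥ u ∈ U)
    {x : n → ℝ} (hx : x ∈ perp U) : hᵀ *ᵥ x ∈ perp U := by
  intro u hu
  rw [mulVec_transpose, ← dotProduct_mulVec]
  exact hx _ (hU u hu)

end IrrSAux

open IrrSAux in
/-- module IRR -/
theorem irr_std (hι : 3 ≤ Fintype.card ι) (ρ : G →* Matrix (ι ⊕ Fin 2) (ι ⊕ Fin 2) ℝ)
    (hz : ZDense ρ) (U : Submodule ℝ (ι ⊕ Fin 2 → ℝ)) (hU : ∀ g, ∀ u ∈ U, ρ g *ᵥ u ∈ U) :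
    U = ⊥ ∨ U = ⊤ := by
  classical
  by_contra hcon
  push Not at hcon
  obtain ⟨h1, h2⟩ := hcon
  have hcard : 5 ≤ Fintype.card (ι ⊕ Fin 2) := by
    rw [Fintype.card_sum, Fintype.card_fin]; omega
  by_cases hA : ∃ u ∈ U, ∃ v ∈ U, sk u v ≠ 0
  · obtain ⟨u, hu, v, hv, huv⟩ := hA
    have hall := irr hι ρ hz ⊤ inferInstance (W1 (perp U)) (fun S hS => hS.1)
      ⟨sk u v, ⟨sk_transpose u v, fun x hx => by
        rw [sk_mulVec, dotProduct_comm v x, dotProduct_comm u x, hx v hv, hx u hu]; simp⟩, huv⟩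
      (fun g _ S hS => ⟨skew_conj _ _ hS.1, fun x hx => by
        rw [← mulVec_mulVec, ← mulVec_mulVec, hS.2 _ (perp_inv (hU g) hx), mulVec_zero]⟩)
    obtain ⟨f, hf0, hf⟩ := Submodule.exists_le_ker_of_lt_top U (lt_top_iff_ne_top.2 h2)
    set x : ι ⊕ Fin 2 → ℝ := fun i => f (Pi.single i 1) with hx
    have hfx : ∀ v, f v = x ⬝ᵥ v := by
      intro v
      conv_lhs => rw [← Finset.univ_sum_single v]
      rw [_root_.map_sum, dotProduct]
      refine Finset.sum_congr rfl (fun i _ => ?_)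
      rw [show (Pi.single i (v i) : ι ⊕ Fin 2 → ℝ) = v i • Pi.single i 1 by
        rw [← Pi.single_smul]; simp, map_smul, smul_eq_mul, hx, mul_comm]
    have hxU : x ∈ perp U := fun u hu => by
      rw [← hfx]; exact hf hu
    have hx0 : ∃ i, x i ≠ 0 := by
      by_contra h
      push Not at h
      apply hf0
      ext i
      simpa [hx] using h i
    obtain ⟨i, hi⟩ := hx0
    have key : ∀ y : ι ⊕ Fin 2 → ℝ, (y ⬝ᵥ x) • x = (x ⬝ᵥ x) • y := by
      intro y
      have := (hall (sk x y) (sk_transpose x y)).2 x hxU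
      rw [sk_mulVec] at this
      exact sub_eq_zero.1 this
    have hxx : 0 < x ⬝ᵥ x := by
      rw [dotProduct]
      refine Finset.sum_pos' (fun j _ => mul_self_nonneg _) ⟨i, Finset.mem_univ _, ?_⟩
      exact mul_self_pos.2 hi
    obtain ⟨j, hj⟩ : ∃ j, j ≠ i := by
      have : Nontrivial (ι ⊕ Fin 2) := Fintype.one_lt_card_iff_nontrivial.1 (by omega)
      exact exists_ne i
    have e1 := congrFun (key (Pi.single j 1)) j
    have e2 := congrFun (key (Pi.single j 1)) i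
    simp [hj.symm] at e1 e2
    rcases e2 with e2 | e2
    · rw [e2] at e1
      simp at e1
      exact hxx.ne' e1.symm
    · exact hi e2
  · push Not at hA
    obtain ⟨u, hu, hu0⟩ := (Submodule.ne_bot_iff U).1 h1
    obtain ⟨j, hj⟩ : ∃ j, u j ≠ 0 := by
      by_contra h
      push Not at h
      exact hu0 (funext h)
    obtain ⟨i, hi⟩ : ∃ i, i ≠ j := by
      have : Nontrivial (ι ⊕ Fin 2) := Fintype.one_lt_card_iff_nontrivial.1 (by omega)
      exact exists_ne j
    obtain ⟨i', hi'⟩ : ∃ i', i' ∉ ({i, j} : Finset (ι ⊕ Fin 2)) := by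
      by_contra h
      push Not at h
      have h3 : Fintype.card (ι ⊕ Fin 2) ≤ ({i, j} : Finset (ι ⊕ Fin 2)).card := by
        rw [← Finset.card_univ]
        exact Finset.card_le_card (fun a _ => h a)
      have h4 := Finset.card_le_two (a := i) (b := j)
      omega
    simp only [Finset.mem_insert, Finset.mem_singleton, not_or] at hi'
    have hall := irr hι ρ hz ⊤ inferInstance (W2 (perp U)) (fun S hS => hS.1)
      ⟨sk u (Pi.single i 1), ⟨sk_transpose _ _, fun x hx y hy => by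
        rw [sk_mulVec, dotProduct_sub, dotProduct_smul, dotProduct_smul, hx u hu,
          dotProduct_comm u y, hy u hu]; simp⟩, fun h => by
        have := congrFun (congrFun h j) i
        simp [sk, vecMulVec_apply, hi.symm, hi, hj] at this⟩
      (fun g _ S hS => ⟨skew_conj _ _ hS.1, fun x hx y hy => by
        rw [← mulVec_mulVec, ← mulVec_mulVec, dotProduct_mulVec, ← mulVec_transpose]
        exact hS.2 _ (perp_inv (hU g) hx) _ (perp_inv (hU g) hy)⟩)
    have hdep : ∀ v ∈ U, ∀ a b, u a * v b = v a * u b := by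
      intro v hv a b
      have := congrFun (congrFun (hA u hu v hv) a) b
      simp [sk, vecMulVec_apply] at this
      linarith
    have hmem : ∀ a, u j • (Pi.single a 1 : ι ⊕ Fin 2 → ℝ) - u a • Pi.single j 1 ∈ perp U := by
      intro a v hv
      have := hdep v hv j a
      rw [sub_dotProduct, smul_dotProduct, smul_dotProduct, single_dotProduct, single_dotProduct]
      simp only [smul_eq_mul, one_mul]
      have h3 := hdep v hv a j
      linarith
    have hfin := (hall (sk (Pi.single i 1) (Pi.single i' 1)) (sk_transpose _ _)).2 _ (hmem i) _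
      (hmem i')
    rw [sk_mulVec] at hfin
    simp [dotProduct_sub, sub_dotProduct, hi, hi.symm, hi'.1, hi'.2, Ne.symm hi'.1,
      Ne.symm hi'.2, hj] at hfin

end Pool.Agent.MPd01a95
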