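import Mathlib
import Pool.Agent.Lib.MP_d01a95_gt_H.CN
import Pool.Agent.Lib.MP_d01a95_gt_H.Fix

set_option autoImplicit false
set_option linter.all false

open Filter Topology MeasureTheory
open scoped ENNReal NNReal

namespace Pool.Agent.MPd01a95

/-- an admissible class of maps -/
structure Adm {Ω Y : Type} [MeasurableSpace Ω] [MetricSpace Y] [MeasurableSpace Y]
    (ν : Measure Ω) (geo : ℝ → Y → Y → Y) where
  /-- the maps -/
  S : Set (Ω → Y)
  meas : ∀ f ∈ S, Measurable f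
  geo_mem : ∀ s ∈ Set.Icc (0 : ℝ) 1, ∀ f ∈ S, ∀ f' ∈ S, (fun ω => geo s (f ω) (f' ω)) ∈ S
  lim_mem : ∀ u : ℕ → Ω → Y, (∀ n, u n ∈ S) →
    (∀ᵐ ω ∂ν, ∃ y, Tendsto (fun n => u n ω) atTop (𝓝 y)) →
    ∃ f ∈ S, ∀ᵐ ω ∂ν, Tendsto (fun n => u n ω) atTop (𝓝 (f ω))

/-- maps at finite `L²` distance from a given map -/
structure LT {Ω Y : Type} [MeasurableSpace Ω] [MetricSpace Y] [MeasurableSpace Y]
    {ν : Measure Ω} {geo : ℝ → Y → Y → Y} (A : Adm ν geo) (F₀ : Ω → Y) where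
  /-- the map -/
  f : Ω → Y
  mem : f ∈ A.S
  fin : ∫⁻ ω, edist (f ω) (F₀ ω) ^ 2 ∂ν ≠ ⊤

namespace LT

variable {Ω Y : Type} [MeasurableSpace Ω] [MetricSpace Y] [CompleteSpace Y]
  [SecondCountableTopology Y] [MeasurableSpace Y] [BorelSpace Y]
  {ν : Measure Ω} {geo : ℝ → Y → Y → Y} {A : Adm ν geo} {F₀ : Ω → Y}

/-- squared `L²` distance -/
noncomputable def D2 (ν : Measure Ω) (f f' : Ω → Y) : ℝ≥0∞ := ∫⁻ ω, edist (f ω) (f' ω) ^ 2 ∂ν

theorem D2_tri {f g h : Ω → Y} (hf : Measurable f) (hg : Measurable g) (hh : Measurable h) :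
    (D2 ν f h) ^ (1 / 2 : ℝ) ≤ (D2 ν f g) ^ (1 / 2 : ℝ) + (D2 ν g h) ^ (1 / 2 : ℝ) := by
  have h1 := ENNReal.lintegral_Lp_add_le (μ := ν) (p := 2)
    (f := fun ω => edist (f ω) (g ω)) (g := fun ω => edist (g ω) (h ω))
    (hf.edist hg).aemeasurable (hg.edist hh).aemeasurable (by norm_num)
  have h2 : (D2 ν f h) ^ (1 / 2 : ℝ) ≤
      (∫⁻ ω, (edist (f ω) (g ω) + edist (g ω) (h ω)) ^ (2 : ℝ) ∂ν) ^ (1 / 2 : ℝ) := by
    apply ENNReal.rpow_le_rpow _ (by norm_num)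
    apply lintegral_mono
    intro ω
    change edist (f ω) (h ω) ^ 2 ≤ _
    have : edist (f ω) (h ω) ^ 2 = edist (f ω) (h ω) ^ (2 : ℝ) := by
      rw [← ENNReal.rpow_natCast]; norm_num
    rw [this]
    exact ENNReal.rpow_le_rpow (edist_triangle _ _ _) (by norm_num)
  refine h2.trans (h1.trans (le_of_eq ?_))
  have e : ∀ a : ℝ≥0∞, a ^ (2 : ℝ) = a ^ 2 := fun a => by
    rw [← ENNReal.rpow_natCast]; norm_num
  simp only [e, D2, one_div]

theorem D2_comm (f g : Ω → Y) : D2 ν f g = D2 ν g f := by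
  simp only [D2, edist_comm]

theorem rpow_half_ne_top {a : ℝ≥0∞} (h : a ≠ ⊤) : a ^ (1 / 2 : ℝ) ≠ ⊤ :=
  ENNReal.rpow_ne_top_of_nonneg (by norm_num) h

theorem ne_top_of_rpow_half {a : ℝ≥0∞} (h : a ^ (1 / 2 : ℝ) ≠ ⊤) : a ≠ ⊤ := by
  intro ha
  rw [ha, ENNReal.top_rpow_of_pos (by norm_num)] at h
  exact h rfl

theorem D2_ne_top {f g h : Ω → Y} (hf : Measurable f) (hg : Measurable g) (hh : Measurable h)
    (h1 : D2 ν f g ≠ ⊤) (h2 : D2 ν g h ≠ ⊤) : D2 ν f h ≠ ⊤ := by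
  apply ne_top_of_rpow_half
  exact ne_top_of_le_ne_top
    (ENNReal.add_ne_top.mpr ⟨rpow_half_ne_top h1, rpow_half_ne_top h2⟩) (D2_tri hf hg hh)

/-- the class contains the base map up to finite distance: all members are at finite distance -/
theorem D2_fin (hF₀ : Measurable F₀) (a b : LT A F₀) : D2 ν a.f b.f ≠ ⊤ :=
  D2_ne_top (A.meas _ a.mem) hF₀ (A.meas _ b.mem) a.fin (by rw [D2_comm]; exact b.fin)

/-- the pseudometric -/
@[instance_reducible] noncomputable def pm (hF₀ : Measurable F₀) : PseudoMetricSpace (LT A F₀) :=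
  letI : PseudoEMetricSpace (LT A F₀) :=
    { edist := fun a b => (D2 ν a.f b.f) ^ (1 / 2 : ℝ)
      edist_self := fun a => by
        simp only [D2, edist_self]
        simp
      edist_comm := fun a b => by rw [D2_comm]
      edist_triangle := fun a b c => D2_tri (A.meas _ a.mem) (A.meas _ b.mem) (A.meas _ c.mem) }
  PseudoEMetricSpace.toPseudoMetricSpace fun a b => rpow_half_ne_top (D2_fin hF₀ a b)

theorem pm_edist (hF₀ : Measurable F₀) (a b : LT A F₀) :
    @edist _ (pm hF₀).toPseudoEMetricSpace.toEDist a b = (D2 ν a.f b.f) ^ (1 / 2 : ℝ) := rfl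

theorem pm_dist_sq (hF₀ : Measurable F₀) (a b : LT A F₀) :
    (@dist _ (pm hF₀).toDist a b) ^ 2 = (D2 ν a.f b.f).toReal := by
  have h : @dist _ (pm hF₀).toDist a b = ((D2 ν a.f b.f) ^ (1 / 2 : ℝ)).toReal := rfl
  rw [h, ← ENNReal.toReal_pow, ← ENNReal.rpow_natCast, ← ENNReal.rpow_mul]
  norm_num

theorem pm_dist_le (hF₀ : Measurable F₀) (a b : LT A F₀) {R : ℝ≥0∞} (hR : R ≠ ⊤)
    (h : D2 ν a.f b.f ≤ R) : @dist _ (pm hF₀).toDist a b ≤ (R ^ (1 / 2 : ℝ)).toReal := by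
  have e : @dist _ (pm hF₀).toDist a b = ((D2 ν a.f b.f) ^ (1 / 2 : ℝ)).toReal := rfl
  rw [e]
  exact ENNReal.toReal_mono (rpow_half_ne_top hR) (ENNReal.rpow_le_rpow h (by norm_num))

theorem pm_dist_zero (hF₀ : Measurable F₀) (a b : LT A F₀)
    (h : @dist _ (pm hF₀).toDist a b = 0) : a.f =ᵐ[ν] b.f := by
  have h1 := pm_dist_sq hF₀ a b
  rw [h] at h1
  have h2 : D2 ν a.f b.f = 0 := by
    have := (ENNReal.toReal_eq_zero_iff _).mp (by rw [← h1]; norm_num : (D2 ν a.f b.f).toReal = 0)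
    exact this.resolve_right (D2_fin hF₀ a b)
  have hm : Measurable fun ω => edist (a.f ω) (b.f ω) ^ 2 :=
    ((A.meas _ a.mem).edist (A.meas _ b.mem)).pow_const 2
  rw [D2, lintegral_eq_zero_iff hm] at h2
  filter_upwards [h2] with ω hω
  have : edist (a.f ω) (b.f ω) ^ 2 = 0 := hω
  exact edist_eq_zero.mp (pow_eq_zero_iff (two_ne_zero) |>.mp this)

/-- integrated inequality of Bruhat and Tits -/
theorem D2_cn (h : CN geo) {s : ℝ} (hs : s ∈ Set.Icc (0 : ℝ) 1) {a b p : Ω → Y}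
    (ha : Measurable a) (hb : Measurable b) (hp : Measurable p) :
    D2 ν p (fun ω => geo s (a ω) (b ω)) + ENNReal.ofReal (s * (1 - s)) * D2 ν a b ≤
      ENNReal.ofReal (1 - s) * D2 ν p a + ENNReal.ofReal s * D2 ν p b := by
  have m1 : Measurable fun ω => edist (a ω) (b ω) ^ 2 := (ha.edist hb).pow_const 2
  have m2 : Measurable fun ω => edist (p ω) (a ω) ^ 2 := (hp.edist ha).pow_const 2
  have m3 : Measurable fun ω => edist (p ω) (b ω) ^ 2 := (hp.edist hb).pow_const 2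
  rw [D2, D2, D2, D2, ← lintegral_const_mul _ m1, ← lintegral_const_mul _ m2,
    ← lintegral_const_mul _ m3, ← lintegral_add_right _ (m1.const_mul _),
    ← lintegral_add_right _ (m3.const_mul _)]
  apply lintegral_mono
  intro ω
  have h1 := h s hs (a ω) (b ω) (p ω)
  have hs1 : 0 ≤ 1 - s := by linarith [hs.2]
  have hs0 := hs.1
  have e : ∀ x y : Y, edist x y ^ 2 = ENNReal.ofReal (dist x y ^ 2) := fun x y => by
    rw [edist_dist, ENNReal.ofReal_pow dist_nonneg]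
  simp only [e]
  rw [← ENNReal.ofReal_mul (mul_nonneg hs0 hs1), ← ENNReal.ofReal_mul hs1,
    ← ENNReal.ofReal_mul hs0, ← ENNReal.ofReal_add (by positivity) (by positivity),
    ← ENNReal.ofReal_add (by positivity) (by positivity)]
  apply ENNReal.ofReal_le_ofReal
  linarith

/-- geodesics in the `L²` space -/
noncomputable def lgeo (h : CN geo) (hF₀ : Measurable F₀) (s : ℝ) (a b : LT A F₀) : LT A F₀ :=
  if hs : s ∈ Set.Icc (0 : ℝ) 1 then
    { f := fun ω => geo s (a.f ω) (b.f ω)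
      mem := A.geo_mem s hs _ a.mem _ b.mem
      fin := by
        have h1 := D2_cn (ν := ν) h hs (A.meas _ a.mem) (A.meas _ b.mem) hF₀
        have h2 : D2 ν F₀ (fun ω => geo s (a.f ω) (b.f ω)) ≠ ⊤ := by
          refine ne_top_of_le_ne_top ?_ (le_trans le_self_add h1)
          refine ENNReal.add_ne_top.mpr ⟨ENNReal.mul_ne_top ENNReal.ofReal_ne_top ?_,
            ENNReal.mul_ne_top ENNReal.ofReal_ne_top ?_⟩
          · rw [D2_comm]; exact a.fin
          · rw [D2_comm]; exact b.fin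
        rw [D2_comm] at h2
        exact h2 }
  else a

theorem lgeo_f (h : CN geo) (hF₀ : Measurable F₀) {s : ℝ} (hs : s ∈ Set.Icc (0 : ℝ) 1)
    (a b : LT A F₀) : (lgeo h hF₀ s a b).f = fun ω => geo s (a.f ω) (b.f ω) := by
  rw [lgeo, dif_pos hs]

theorem lcn (h : CN geo) (hF₀ : Measurable F₀) :
    @CN (LT A F₀) (pm hF₀) (lgeo h hF₀) := by
  intro s hs a b p
  letI := pm (A := A) hF₀
  rw [pm_dist_sq, pm_dist_sq, pm_dist_sq, pm_dist_sq, lgeo_f h hF₀ hs]
  have h1 := D2_cn (ν := ν) h hs (A.meas _ a.mem) (A.meas _ b.mem) (A.meas _ p.mem)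
  have fa := D2_fin hF₀ p a
  have fb := D2_fin hF₀ p b
  have fab := D2_fin hF₀ a b
  have fg := D2_fin hF₀ p (lgeo h hF₀ s a b)
  rw [lgeo_f h hF₀ hs] at fg
  have h2 := ENNReal.toReal_mono (ENNReal.add_ne_top.mpr
    ⟨ENNReal.mul_ne_top ENNReal.ofReal_ne_top fa, ENNReal.mul_ne_top ENNReal.ofReal_ne_top fb⟩) h1
  rw [ENNReal.toReal_add fg (ENNReal.mul_ne_top ENNReal.ofReal_ne_top fab),
    ENNReal.toReal_add (ENNReal.mul_ne_top ENNReal.ofReal_ne_top fa)
      (ENNReal.mul_ne_top ENNReal.ofReal_ne_top fb), ENNReal.toReal_mul, ENNReal.toReal_mul,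
    ENNReal.toReal_mul] at h2
  have hs1 : 0 ≤ 1 - s := by linarith [hs.2]
  have e1 : (ENNReal.ofReal (1 - s)).toReal = 1 - s := ENNReal.toReal_ofReal hs1
  have e2 : (ENNReal.ofReal s).toReal = s := ENNReal.toReal_ofReal hs.1
  have e3 : (ENNReal.ofReal (s * (1 - s))).toReal = s * (1 - s) :=
    ENNReal.toReal_ofReal (mul_nonneg hs.1 hs1)
  rw [e1, e2, e3] at h2
  linarith

/-- completeness of the `L²` space -/
theorem complete (hF₀ : Measurable F₀) :
    @CompleteSpace (LT A F₀) (pm hF₀).toUniformSpace := by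
  letI := pm (A := A) hF₀
  refine Metric.complete_of_convergent_controlled_sequences (fun n => (1 / 2 : ℝ) ^ n)
    (fun n => by positivity) ?_
  intro u hu
  -- consecutive distances
  have hD : ∀ m n : ℕ, D2 ν (u m).f (u n).f ≤
      ENNReal.ofReal (((1 / 2 : ℝ) ^ (min m n)) ^ 2) := by
    intro m n
    have h1 := hu (min m n) m n (min_le_left _ _) (min_le_right _ _)
    have h2 := pm_dist_sq hF₀ (u m) (u n)
    rw [← ENNReal.ofReal_toReal (D2_fin hF₀ (u m) (u n)), ← h2]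
    apply ENNReal.ofReal_le_ofReal
    exact pow_le_pow_left₀ dist_nonneg h1.le 2
  have hmeas : ∀ m n, Measurable fun ω => edist ((u m).f ω) ((u n).f ω) ^ 2 := fun m n =>
    ((A.meas _ (u m).mem).edist (A.meas _ (u n).mem)).pow_const 2
  have hsum : ∫⁻ ω, ∑' n : ℕ, (2 : ℝ≥0∞) ^ n * edist ((u n).f ω) ((u (n + 1)).f ω) ^ 2 ∂ν ≠ ⊤ := by
    rw [lintegral_tsum fun n => ((hmeas n (n + 1)).const_mul _).aemeasurable]
    have hb : ∀ n : ℕ, ∫⁻ ω, (2 : ℝ≥0∞) ^ n * edist ((u n).f ω) ((u (n + 1)).f ω) ^ 2 ∂ν ≤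
        ENNReal.ofReal ((1 / 2 : ℝ) ^ n) := by
      intro n
      rw [lintegral_const_mul _ (hmeas n (n + 1))]
      have h1 := hD n (n + 1)
      rw [min_eq_left (Nat.le_succ n)] at h1
      calc (2 : ℝ≥0∞) ^ n * ∫⁻ ω, edist ((u n).f ω) ((u (n + 1)).f ω) ^ 2 ∂ν
          ≤ (2 : ℝ≥0∞) ^ n * ENNReal.ofReal (((1 / 2 : ℝ) ^ n) ^ 2) := by gcongr; exact h1
        _ = ENNReal.ofReal ((1 / 2 : ℝ) ^ n) := by
            have : (2 : ℝ≥0∞) ^ n = ENNReal.ofReal ((2 : ℝ) ^ n) := by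
              rw [ENNReal.ofReal_pow (by norm_num)]; simp
            rw [this, ← ENNReal.ofReal_mul (by positivity)]
            congr 1
            rw [sq, ← mul_assoc, ← mul_pow]
            norm_num
    refine ne_top_of_le_ne_top ?_ (ENNReal.tsum_le_tsum hb)
    rw [← ENNReal.ofReal_tsum_of_nonneg (fun n => by positivity)
      (summable_geometric_of_lt_one (by norm_num) (by norm_num))]
    exact ENNReal.ofReal_ne_top
  have hae : ∀ᵐ ω ∂ν, ∑' n : ℕ, (2 : ℝ≥0∞) ^ n *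
      edist ((u n).f ω) ((u (n + 1)).f ω) ^ 2 < ⊤ := by
    apply ae_lt_top _ hsum
    exact Measurable.ennreal_tsum fun n => (hmeas n (n + 1)).const_mul _
  have hlim : ∀ᵐ ω ∂ν, ∃ y, Tendsto (fun n => (u n).f ω) atTop (𝓝 y) := by
    filter_upwards [hae] with ω hω
    set B := ∑' n : ℕ, (2 : ℝ≥0∞) ^ n * edist ((u n).f ω) ((u (n + 1)).f ω) ^ 2 with hB
    have hn : ∀ n : ℕ, dist ((u n).f ω) ((u (n + 1)).f ω) ≤
        Real.sqrt B.toReal * (Real.sqrt (1 / 2)) ^ n := by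
      intro n
      have h1 : (2 : ℝ≥0∞) ^ n * edist ((u n).f ω) ((u (n + 1)).f ω) ^ 2 ≤ B :=
        ENNReal.le_tsum n
      have h2 := ENNReal.toReal_mono hω.ne h1
      rw [ENNReal.toReal_mul, ENNReal.toReal_pow, ENNReal.toReal_pow, edist_dist,
        ENNReal.toReal_ofReal dist_nonneg] at h2
      apply abs_le_of_sq_le_sq' _ (by positivity) |>.2
      rw [mul_pow, Real.sq_sqrt ENNReal.toReal_nonneg, ← pow_mul, mul_comm n 2, pow_mul,
        Real.sq_sqrt (by norm_num)]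
      have h3 : (0 : ℝ) < 2 ^ n := by positivity
      have h4 : ((1 / 2 : ℝ)) ^ n = 1 / 2 ^ n := by rw [one_div, inv_pow, one_div]
      rw [h4]
      have h5 : ((2 : ℝ≥0∞).toReal) ^ n = 2 ^ n := by simp
      rw [h5] at h2
      rw [mul_one_div, le_div_iff₀ h3]
      linarith
    have hlt : Real.sqrt (1 / 2) < 1 := by
      rw [Real.sqrt_lt' one_pos]; norm_num
    exact cauchySeq_tendsto_of_complete (cauchySeq_of_le_geometric _ _ hlt hn)
  obtain ⟨f, hf, hft⟩ := A.lim_mem (fun n => (u n).f) (fun n => (u n).mem) hlim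
  -- Fatou
  have hfatou : ∀ n : ℕ, D2 ν (u n).f f ≤ ENNReal.ofReal (((1 / 2 : ℝ) ^ n) ^ 2) := by
    intro n
    have h1 : D2 ν (u n).f f ≤ liminf (fun m => D2 ν (u n).f (u m).f) atTop := by
      calc D2 ν (u n).f f = ∫⁻ ω, liminf (fun m => edist ((u n).f ω) ((u m).f ω) ^ 2) atTop ∂ν := by
            apply lintegral_congr_ae
            filter_upwards [hft] with ω hω
            have : Tendsto (fun m => edist ((u n).f ω) ((u m).f ω) ^ 2) atTop
                (𝓝 (edist ((u n).f ω) (f ω) ^ 2)) := by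
              apply ((ENNReal.continuous_pow 2).tendsto _).comp
              exact (tendsto_const_nhds).edist hω
            exact this.liminf_eq.symm
        _ ≤ liminf (fun m => D2 ν (u n).f (u m).f) atTop :=
            lintegral_liminf_le fun m => hmeas n m
    refine h1.trans ?_
    apply liminf_le_of_frequently_le'
    apply Eventually.frequently
    filter_upwards [eventually_ge_atTop n] with m hm
    have := hD n m
    rwa [min_eq_left hm] at this
  have hfin : ∫⁻ ω, edist (f ω) (F₀ ω) ^ 2 ∂ν ≠ ⊤ := by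
    have h1 : D2 ν f (u 0).f ≠ ⊤ := by
      rw [D2_comm]; exact ne_top_of_le_ne_top ENNReal.ofReal_ne_top (hfatou 0)
    exact D2_ne_top (A.meas _ hf) (A.meas _ (u 0).mem) hF₀ h1 (u 0).fin
  refine ⟨⟨f, hf, hfin⟩, ?_⟩
  rw [tendsto_iff_dist_tendsto_zero]
  refine squeeze_zero (fun _ => dist_nonneg) (fun n => ?_)
    (tendsto_pow_atTop_nhds_zero_of_lt_one (by norm_num : (0 : ℝ) ≤ 1 / 2) (by norm_num))
  apply abs_le_of_sq_le_sq' _ (by positivity) |>.2
  rw [pm_dist_sq]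
  have := ENNReal.toReal_mono ENNReal.ofReal_ne_top (hfatou n)
  rwa [ENNReal.toReal_ofReal (by positivity)] at this

end LT

end Pool.Agent.MPd01a95
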