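import Mathlib
import Pool.Agent.Lib.MP_d01a95_gt_H.HDefs
import Pool.Agent.Lib.MP_d01a95_gt_H.Unimod
import Pool.Agent.Lib.MP_d01a95_gt_H.DB3
import Pool.Agent.Lib.MP_d01a95_gt_H.DB4
import Pool.Agent.Lib.MP_d01a95_gt_H.DB6
set_option autoImplicit false
set_option linter.all false
open Matrix Filter Topology MeasureTheory Measure
open scoped ENNReal NNReal ContDiff
namespace Pool.Agent.MPd01a95
open GU
variable {κ n ι α : Type} [Fintype κ] [DecidableEq κ] [Fintype n] [DecidableEq n] [Fintype ι] [DecidableEq ι] [Fintype α] [DecidableEq α] {G : Type} [Group G]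

namespace LeviAux

/-- decomposition of a vector -/
theorem decomp (x : κ → ℂ) : x = ∑ c, ((x c).re • (Pi.single c 1 : κ → ℂ) +
    (x c).im • (Pi.single c Complex.I : κ → ℂ)) := by
  funext i
  rw [Finset.sum_apply, Finset.sum_eq_single i]
  · simp only [Pi.add_apply, Pi.smul_apply, Pi.single_eq_same, Complex.real_smul, mul_one]
    exact (Complex.re_add_im (x i)).symm
  · intro b _ hb
    simp [Pi.single_apply, Ne.symm hb]
  · intro h
    exact absurd (Finset.mem_univ i) h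

theorem decompI (x : κ → ℂ) : Complex.I • x = ∑ c, ((x c).re • (Pi.single c Complex.I : κ → ℂ) -
    (x c).im • (Pi.single c 1 : κ → ℂ)) := by
  have h := decomp (Complex.I • x)
  rw [h]
  refine Finset.sum_congr rfl fun c _ => ?_
  simp only [Pi.smul_apply, smul_eq_mul, Complex.mul_re, Complex.mul_im, Complex.I_re,
    Complex.I_im, zero_mul, one_mul, zero_sub, zero_add, add_zero, neg_smul]
  abel

theorem lin_real (L : (κ → ℂ) →L[ℝ] ℝ) (x : κ → ℂ) :
    L x = 2 * (∑ a, x a * ((1 / 2 : ℂ) * ((L (Pi.single a 1) : ℝ) -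
      Complex.I * (L (Pi.single a Complex.I) : ℝ)))).re := by
  conv_lhs => rw [decomp x]
  rw [_root_.map_sum, Complex.re_sum, Finset.mul_sum]
  refine Finset.sum_congr rfl fun c _ => ?_
  rw [map_add, map_smul, map_smul]
  simp [Complex.mul_re, Complex.mul_im]
  ring

theorem lin_realI (L : (κ → ℂ) →L[ℝ] ℝ) (x : κ → ℂ) :
    L (Complex.I • x) = -2 * (∑ a, x a * ((1 / 2 : ℂ) * ((L (Pi.single a 1) : ℝ) -
      Complex.I * (L (Pi.single a Complex.I) : ℝ)))).im := by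
  rw [decompI x, _root_.map_sum, Complex.im_sum, Finset.mul_sum]
  refine Finset.sum_congr rfl fun c _ => ?_
  rw [map_sub, map_smul, map_smul]
  simp [Complex.mul_re, Complex.mul_im]
  ring

theorem lin_cx (L : (κ → ℂ) →L[ℝ] ℂ) (x : κ → ℂ) :
    L x + Complex.I * L (Complex.I • x) = 2 * ∑ c, star (x c) * ((1 / 2 : ℂ) *
      (L (Pi.single c 1) + Complex.I * L (Pi.single c Complex.I))) := by
  have h1 : L x = ∑ c, (((x c).re : ℂ) * L (Pi.single c 1) +
      ((x c).im : ℂ) * L (Pi.single c Complex.I)) := by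
    conv_lhs => rw [decomp x]
    rw [_root_.map_sum]
    refine Finset.sum_congr rfl fun c _ => ?_
    rw [map_add, map_smul, map_smul]
    simp
  have h2 : L (Complex.I • x) = ∑ c, (((x c).re : ℂ) * L (Pi.single c Complex.I) -
      ((x c).im : ℂ) * L (Pi.single c 1)) := by
    rw [decompI x, _root_.map_sum]
    refine Finset.sum_congr rfl fun c _ => ?_
    rw [map_sub, map_smul, map_smul]
    simp
  rw [h1, h2, Finset.mul_sum, Finset.mul_sum, ← Finset.sum_add_distrib]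
  refine Finset.sum_congr rfl fun c _ => ?_
  have h3 : (star (x c) : ℂ) = ((x c).re : ℂ) - ((x c).im : ℂ) * Complex.I := by
    apply Complex.ext <;> simp
  rw [h3]
  linear_combination ((x c).im : ℂ) * L (Pi.single c Complex.I) * Complex.I_mul_I

/-- the second derivative test -/
theorem sec_test {U : (κ → ℂ) → ℝ} (hU : ContDiff ℝ ∞ U) (z x : κ → ℂ) (a b c : ℝ)
    (h : IsLocalMin (fun s : ℝ => U (z + s • x) + a + b * s + c * s ^ 2) 0) :
    0 ≤ fderiv ℝ (fun z' => fderiv ℝ U z' x) z x + 2 * c := by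
  set f : ℝ → ℝ := fun s : ℝ => U (z + s • x) + a + b * s + c * s ^ 2 with hf
  have hU1 : Differentiable ℝ U := hU.differentiable (by simp)
  have hline : ∀ s : ℝ, HasDerivAt (fun s : ℝ => z + s • x) x s := by
    intro s
    simpa using ((hasDerivAt_id s).smul_const x).const_add z
  have hd1 : ∀ s, HasDerivAt f (fderiv ℝ U (z + s • x) x + b + 2 * c * s) s := by
    intro s
    have h1 : HasDerivAt (fun s : ℝ => U (z + s • x)) (fderiv ℝ U (z + s • x) x) s :=
      ((hU1 (z + s • x)).hasFDerivAt).comp_hasDerivAt s (hline s)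
    have h2 : HasDerivAt (fun s : ℝ => b * s) b s := by
      simpa using (hasDerivAt_id s).const_mul b
    have h3 : HasDerivAt (fun s : ℝ => c * s ^ 2) (2 * c * s) s := by
      have := (hasDerivAt_pow 2 s).const_mul c
      have h4 : c * (((2 : ℕ) : ℝ) * s ^ (2 - 1)) = 2 * c * s := by
        norm_num
        ring
      rw [h4] at this
      exact this
    have := ((h1.add_const a).add h2).add h3
    exact this
  have hd1' : deriv f = fun s => fderiv ℝ U (z + s • x) x + b + 2 * c * s :=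
    funext fun s => (hd1 s).deriv
  have hg : Differentiable ℝ (fun z' => fderiv ℝ U z' x) := by
    have : ContDiff ℝ ∞ (fderiv ℝ U) := hU.fderiv_right (by simp)
    exact (this.differentiable (by simp)).clm_apply (differentiable_const x)
  have hd2 : HasDerivAt (deriv f) (fderiv ℝ (fun z' => fderiv ℝ U z' x) z x + 2 * c) 0 := by
    rw [hd1']
    have h1 : HasDerivAt (fun s : ℝ => fderiv ℝ U (z + s • x) x)
        (fderiv ℝ (fun z' => fderiv ℝ U z' x) z x) 0 := by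
      have := ((hg (z + (0:ℝ) • x)).hasFDerivAt).comp_hasDerivAt (0:ℝ) (hline 0)
      simp only [zero_smul, add_zero] at this
      exact this
    have h2 : HasDerivAt (fun s : ℝ => 2 * c * s) (2 * c) 0 := by
      simpa using (hasDerivAt_id (0:ℝ)).const_mul (2 * c)
    exact (h1.add_const b).add h2
  by_contra hneg
  push Not at hneg
  have h0 : deriv f 0 = 0 := h.deriv_eq_zero
  have hmax : IsLocalMax f 0 := isLocalMax_of_deriv_deriv_neg (by rw [hd2.deriv]; exact hneg) h0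
    (hd1 0).continuousAt
  have hconst : f =ᶠ[𝓝 0] fun _ => f 0 := by
    filter_upwards [h, hmax] with s h1 h2
    exact le_antisymm h2 h1
  have hdc : deriv f =ᶠ[𝓝 0] fun _ => 0 := by
    have := hconst.deriv
    refine this.trans ?_
    simp
  have := hdc.deriv_eq
  rw [hd2.deriv] at this
  simp at this
  linarith

/-- the Laplacian along a complex line -/
theorem lap_id {U : (κ → ℂ) → ℝ} (hU : ContDiff ℝ ∞ U) (z ξ : κ → ℂ) :
    fderiv ℝ (fun z' => fderiv ℝ U z' ξ) z ξ +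
      fderiv ℝ (fun z' => fderiv ℝ U z' (Complex.I • ξ)) z (Complex.I • ξ) =
    4 * (∑ c, ∑ a, star (ξ c) * ξ a * db (fun v' => (1 / 2 : ℂ) *
      (fderiv ℝ U v' (Pi.single a 1) - Complex.I * fderiv ℝ U v' (Pi.single a Complex.I))) c z).re := by
  have hsm : ContDiff ℝ ∞ (fderiv ℝ U) := hU.fderiv_right (by simp)
  have hd : Differentiable ℝ (fderiv ℝ U) := hsm.differentiable (by simp)
  set D : κ → (κ → ℂ) → ℂ := fun a v' => (1 / 2 : ℂ) *
      (fderiv ℝ U v' (Pi.single a 1) - Complex.I * fderiv ℝ U v' (Pi.single a Complex.I)) with hD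
  have hofR : ∀ x : κ → ℂ, Differentiable ℝ (fun v' => ((fderiv ℝ U v' x : ℝ) : ℂ)) := by
    intro x
    exact Complex.ofRealCLM.differentiable.comp (hd.clm_apply (differentiable_const x))
  have hDd : ∀ a, Differentiable ℝ (D a) := by
    intro a
    exact ((hofR _).sub ((hofR _).const_mul _)).const_mul _
  set P : (κ → ℂ) → ℂ := fun v' => ∑ a, ξ a * D a v' with hP
  have hPd : Differentiable ℝ P := by
    have : P = ∑ a, (fun v' => ξ a * D a v') := by
      funext v'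
      simp [hP, Finset.sum_apply]
    rw [this]
    exact Differentiable.sum fun a _ => (hDd a).const_mul _
  have h1 : (fun z' => fderiv ℝ U z' ξ) = fun z' => 2 * (P z').re := by
    funext z'
    exact lin_real (fderiv ℝ U z') ξ
  have h2 : (fun z' => fderiv ℝ U z' (Complex.I • ξ)) = fun z' => -2 * (P z').im := by
    funext z'
    exact lin_realI (fderiv ℝ U z') ξ
  have h3 : fderiv ℝ (fun z' => fderiv ℝ U z' ξ) z ξ = 2 * (fderiv ℝ P z ξ).re := by
    rw [h1]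
    have hh : HasFDerivAt (fun z' => 2 * (P z').re)
        ((2:ℝ) • (Complex.reCLM.comp (fderiv ℝ P z))) z :=
      (Complex.reCLM.hasFDerivAt.comp z (hPd z).hasFDerivAt).const_mul 2
    rw [hh.fderiv]
    simp
  have h4 : fderiv ℝ (fun z' => fderiv ℝ U z' (Complex.I • ξ)) z (Complex.I • ξ) =
      -2 * (fderiv ℝ P z (Complex.I • ξ)).im := by
    rw [h2]
    have hh : HasFDerivAt (fun z' => -2 * (P z').im)
        ((-2:ℝ) • (Complex.imCLM.comp (fderiv ℝ P z))) z :=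
      (Complex.imCLM.hasFDerivAt.comp z (hPd z).hasFDerivAt).const_mul (-2)
    rw [hh.fderiv]
    simp
  have h5 := lin_cx (fderiv ℝ P z) ξ
  have h6 : ∀ x, fderiv ℝ P z x = ∑ a, ξ a * fderiv ℝ (D a) z x := by
    intro x
    have hh : HasFDerivAt P (∑ a, ξ a • fderiv ℝ (D a) z) z := by
      have := HasFDerivAt.sum (u := Finset.univ) (A := fun a v' => ξ a * D a v')
        (A' := fun a => ξ a • fderiv ℝ (D a) z) (x := z)
        (fun a _ => ((hDd a) z).hasFDerivAt.const_mul (ξ a))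
      have hfun : P = ∑ a, (fun v' => ξ a * D a v') := by
        funext v'
        simp [hP, Finset.sum_apply]
      rw [hfun]
      exact this
    rw [hh.fderiv]
    simp
  have h7 : ∑ c, ∑ a, star (ξ c) * ξ a * db (D a) c z =
      ∑ c, star (ξ c) * ((1 / 2 : ℂ) *
      (fderiv ℝ P z (Pi.single c 1) + Complex.I * fderiv ℝ P z (Pi.single c Complex.I))) := by
    refine Finset.sum_congr rfl fun c _ => ?_
    rw [h6, h6, Finset.mul_sum, ← Finset.sum_add_distrib, Finset.mul_sum, Finset.mul_sum]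
    refine Finset.sum_congr rfl fun a _ => ?_
    rw [db]
    ring
  rw [h3, h4, h7]
  set S := ∑ c, star (ξ c) * ((1 / 2 : ℂ) *
      (fderiv ℝ P z (Pi.single c 1) + Complex.I * fderiv ℝ P z (Pi.single c Complex.I))) with hS
  have h8 := congrArg Complex.re h5
  rw [Complex.add_re, Complex.mul_re Complex.I, Complex.I_re, Complex.I_im, Complex.mul_re 2] at h8
  simp only [Complex.re_ofNat, Complex.im_ofNat, zero_mul, one_mul, zero_sub, sub_zero] at h8
  linarith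

theorem Db_const {Ω : Set (κ → ℂ)} (r : ℂ) : Db Ω (fun _ => r) (fun _ _ => 0) := by
  intro C _ _ ε hε
  refine ⟨fun _ => r, contDiff_const, fun v _ => ⟨by simpa using hε, fun c => ?_⟩⟩
  simpa [db] using hε

theorem Db_cmul {Ω : Set (κ → ℂ)} (hΩ : IsOpen Ω) (r : ℂ) {w : (κ → ℂ) → ℂ}
    {f : κ → (κ → ℂ) → ℂ} (h : Db Ω w f) : Db Ω (fun z => r * w z) (fun c z => r * f c z) :=
  (Db.mul hΩ (Db_const r) h).congr (fun _ _ => rfl) (fun c z _ => by ring)

theorem Db_sum {Ω : Set (κ → ℂ)} (hΩ : IsOpen Ω) {α : Type} (s : Finset α)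
    {w : α → (κ → ℂ) → ℂ} {f : α → κ → (κ → ℂ) → ℂ} (h : ∀ i ∈ s, Db Ω (w i) (f i)) :
    Db Ω (fun z => ∑ i ∈ s, w i z) (fun c z => ∑ i ∈ s, f i c z) := by
  classical
  induction s using Finset.induction_on with
  | empty => simpa using Db_const (Ω := Ω) 0
  | insert i s hi ih =>
    have h1 := ih fun j hj => h j (Finset.mem_insert_of_mem hj)
    have h2 := h i (Finset.mem_insert_self i s)
    exact (h2.add h1).congr (fun z _ => by rw [Finset.sum_insert hi])
      (fun c z _ => by rw [Finset.sum_insert hi])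

/-- the maximum principle argument -/
theorem levi_abs {Ω : Set (κ → ℂ)} (hΩ : IsOpen Ω) {u : (κ → ℂ) → ℝ} (hu : ContDiffOn ℝ 1 u Ω)
    {g : κ → κ → (κ → ℂ) → ℂ}
    (h : ∀ a, Db Ω (fun v => (1 / 2 : ℂ) * (fderiv ℝ u v (Pi.single a 1) -
      Complex.I * fderiv ℝ u v (Pi.single a Complex.I))) (g a))
    {z₀ : κ → ℂ} (hz₀ : z₀ ∈ Ω)
    (hmin : ∀ z ∈ Ω, u z₀ - 1 / 2 * ∑ i, ‖z₀ i‖ ^ 2 ≤ u z - 1 / 2 * ∑ i, ‖z i‖ ^ 2)
    (ξ : κ → ℂ) (hG : ∑ c, ∑ a, star (ξ c) * ξ a * g a c z₀ = 0) : ξ = 0 := by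
  by_contra hξ
  set N : ℝ := ∑ i, ‖ξ i‖ ^ 2 with hN
  have hNpos : 0 < N := by
    obtain ⟨i, hi⟩ := Function.ne_iff.mp hξ
    have h1 : 0 < ‖ξ i‖ ^ 2 := by
      have : ξ i ≠ 0 := hi
      positivity
    exact lt_of_lt_of_le h1
      (Finset.single_le_sum (f := fun i => ‖ξ i‖ ^ 2) (fun _ _ => by positivity) (Finset.mem_univ i))
  set Gf : (κ → ℂ) → ℂ := fun z => ∑ c, ∑ a, star (ξ c) * ξ a * g a c z with hGf
  have hGc : ContinuousOn Gf Ω := by
    refine continuousOn_finset_sum _ fun c _ => continuousOn_finset_sum _ fun a _ => ?_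
    exact continuousOn_const.mul ((Db.continuousOn hΩ (h a)).2 c)
  have hG0 : Gf z₀ = 0 := hG
  set ℓ : ℂ → (κ → ℂ) := fun ζ => z₀ + ζ • ξ with hℓ
  have hℓc : Continuous ℓ := by
    rw [hℓ]
    fun_prop
  have hℓ0 : ℓ 0 = z₀ := by simp [hℓ]
  -- the radius
  have hnb : ∀ᶠ ζ in 𝓝 (0 : ℂ), ℓ ζ ∈ Ω ∧ ‖Gf (ℓ ζ)‖ < N / 8 := by
    have h1 : ∀ᶠ z in 𝓝 z₀, z ∈ Ω ∧ ‖Gf z‖ < N / 8 := by
      have h2 : ContinuousAt Gf z₀ := hGc.continuousAt (hΩ.mem_nhds hz₀)
      have h3 : ∀ᶠ z in 𝓝 z₀, ‖Gf z‖ < N / 8 := by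
        have h4 : Tendsto (fun z => ‖Gf z‖) (𝓝 z₀) (𝓝 ‖Gf z₀‖) := h2.norm
        rw [hG0, norm_zero] at h4
        exact h4.eventually (gt_mem_nhds (by positivity))
      have h6 : ∀ᶠ z in 𝓝 z₀, z ∈ Ω := hΩ.mem_nhds hz₀
      exact h6.and h3
    have h5 : Tendsto ℓ (𝓝 0) (𝓝 z₀) := by
      have := hℓc.tendsto 0
      rwa [hℓ0] at this
    exact h5.eventually h1
  obtain ⟨δ, hδ, hball⟩ := Metric.eventually_nhds_iff.mp hnb
  set δ' := δ / 2 with hδ'
  have hδ'p : 0 < δ' := by positivity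
  have hin : ∀ ζ : ℂ, ‖ζ‖ ≤ δ' → ℓ ζ ∈ Ω ∧ ‖Gf (ℓ ζ)‖ < N / 8 := by
    intro ζ hζ
    refine hball ?_
    rw [dist_zero_right]
    linarith
  set B : ℝ := (∑ i, ‖ξ i‖) ^ 2 with hB
  have hBn : 0 ≤ B := by positivity
  obtain ⟨ε, hε, hε1, hε2⟩ : ∃ ε : ℝ, 0 < ε ∧ 4 * (ε * B) ≤ N / 2 ∧ 2 * ε < N / 8 * δ' ^ 2 := by
    refine ⟨min (N / (8 * (B + 1))) (N / 32 * δ' ^ 2), by positivity, ?_, ?_⟩
    · have h1 : min (N / (8 * (B + 1))) (N / 32 * δ' ^ 2) ≤ N / (8 * (B + 1)) := min_le_left _ _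
      have h2 : N / (8 * (B + 1)) * B ≤ N / 8 := by
        rw [div_mul_eq_mul_div, div_le_div_iff₀ (by positivity) (by positivity)]
        nlinarith
      nlinarith [mul_le_mul_of_nonneg_right h1 hBn]
    · have h1 : min (N / (8 * (B + 1))) (N / 32 * δ' ^ 2) ≤ N / 32 * δ' ^ 2 := min_le_right _ _
      have h2 : 0 < N * δ' ^ 2 := by positivity
      linarith
  set C : Set (κ → ℂ) := ℓ '' Metric.closedBall 0 δ' with hC
  have hCc : IsCompact C := (isCompact_closedBall (0 : ℂ) δ').image hℓc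
  have hCs : C ⊆ Ω := by
    rintro _ ⟨ζ, hζ, rfl⟩
    exact (hin ζ (by simpa using hζ)).1
  obtain ⟨U, hU, hUC⟩ := moll2 hΩ hu h C hCs hCc ε hε
  set η : ℝ := N / 8 with hη
  set w : ℂ → ℝ := fun ζ => U (ℓ ζ) - 1 / 2 * ∑ i, ‖ℓ ζ i‖ ^ 2 + η * ‖ζ‖ ^ 2 with hw
  have hwc : Continuous w := by
    have h1 : Continuous U := hU.continuous
    rw [hw]
    fun_prop
  obtain ⟨ζs, hζs, hζmin⟩ := (isCompact_closedBall (0 : ℂ) δ').exists_isMinOn
    ⟨0, by simp [hδ'p.le]⟩ hwc.continuousOn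
  have hζs' : ‖ζs‖ ≤ δ' := by simpa using hζs
  have hmemC : ∀ ζ : ℂ, ‖ζ‖ ≤ δ' → ℓ ζ ∈ C := fun ζ hζ => ⟨ζ, by simpa using hζ, rfl⟩
  have hlt : ‖ζs‖ < δ' := by
    refine lt_of_le_of_ne hζs' fun heq => ?_
    have h1 : w ζs ≤ w 0 := hζmin (by simp [hδ'p.le])
    have h2 := (abs_lt.mp (hUC _ (hmemC ζs hζs')).1).1
    have h3 := (abs_lt.mp (hUC _ (hmemC 0 (by simp [hδ'p.le]))).1).2
    have h4 := hmin _ (hin ζs hζs').1
    simp only [hw] at h1
    rw [heq] at h1
    rw [hℓ0] at h1 h3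
    rw [norm_zero] at h1
    have : N / 8 * δ' ^ 2 ≤ 2 * ε := by
      nlinarith
    linarith
  have hloc : ∀ᶠ ζ in 𝓝 ζs, w ζs ≤ w ζ := by
    have : ∀ᶠ ζ in 𝓝 ζs, ‖ζ‖ < δ' := (continuous_norm.tendsto ζs).eventually (gt_mem_nhds hlt)
    filter_upwards [this] with ζ hζ
    exact hζmin (by simpa using hζ.le)
  -- second derivatives in a unit direction
  have key : ∀ e : ℂ, ‖e‖ = 1 →
      0 ≤ fderiv ℝ (fun z' => fderiv ℝ U z' (e • ξ)) (ℓ ζs) (e • ξ) + 2 * (η - N / 2) := by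
    intro e he
    have hq : ∀ s : ℝ, ∑ i, ‖ℓ (ζs + s * e) i‖ ^ 2 = ∑ i, ‖ℓ ζs i‖ ^ 2 +
        2 * s * (∑ i, (star (ℓ ζs i) * (e * ξ i))).re + s ^ 2 * N := by
      intro s
      rw [Complex.re_sum, hN, Finset.mul_sum, Finset.mul_sum, ← Finset.sum_add_distrib,
        ← Finset.sum_add_distrib]
      refine Finset.sum_congr rfl fun i _ => ?_
      have h1 : ℓ (ζs + s * e) i = ℓ ζs i + (s : ℂ) * (e * ξ i) := by
        simp only [hℓ, Pi.add_apply, Pi.smul_apply, smul_eq_mul]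
        ring
      have h2 : ‖ξ i‖ ^ 2 = ‖e * ξ i‖ ^ 2 := by
        rw [norm_mul, he, one_mul]
      rw [h1, h2]
      generalize ℓ ζs i = p
      generalize e * ξ i = q
      rw [← Complex.normSq_eq_norm_sq, ← Complex.normSq_eq_norm_sq, ← Complex.normSq_eq_norm_sq,
        Complex.normSq_apply, Complex.normSq_apply, Complex.normSq_apply]
      simp
      ring
    have hq2 : ∀ s : ℝ, ‖ζs + s * e‖ ^ 2 = ‖ζs‖ ^ 2 + 2 * s * (star ζs * e).re + s ^ 2 := by
      intro s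
      have h3 : (1 : ℝ) = ‖e‖ ^ 2 := by rw [he]; norm_num
      have h4 : s ^ 2 = s ^ 2 * ‖e‖ ^ 2 := by rw [← h3, mul_one]
      rw [h4, ← Complex.normSq_eq_norm_sq, ← Complex.normSq_eq_norm_sq,
        ← Complex.normSq_eq_norm_sq, Complex.normSq_apply, Complex.normSq_apply,
        Complex.normSq_apply]
      simp
      ring
    have hm : IsLocalMin (fun s : ℝ => U (ℓ ζs + s • (e • ξ)) +
        (- (1 / 2) * ∑ i, ‖ℓ ζs i‖ ^ 2 + η * ‖ζs‖ ^ 2) +
        (-(∑ i, (star (ℓ ζs i) * (e * ξ i))).re + 2 * η * (star ζs * e).re) * s +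
        (η - N / 2) * s ^ 2) 0 := by
      have hfe : (fun s : ℝ => U (ℓ ζs + s • (e • ξ)) +
        (- (1 / 2) * ∑ i, ‖ℓ ζs i‖ ^ 2 + η * ‖ζs‖ ^ 2) +
        (-(∑ i, (star (ℓ ζs i) * (e * ξ i))).re + 2 * η * (star ζs * e).re) * s +
        (η - N / 2) * s ^ 2) = fun s : ℝ => w (ζs + s * e) := by
        funext s
        simp only [hw]
        rw [hq s, hq2 s]
        have h5 : ℓ (ζs + s * e) = ℓ ζs + s • (e • ξ) := by
          funext i
          simp only [hℓ, Pi.add_apply, Pi.smul_apply, smul_eq_mul, Complex.real_smul]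
          ring
        rw [h5]
        ring
      rw [hfe]
      have ht : Tendsto (fun s : ℝ => ζs + s * e) (𝓝 0) (𝓝 ζs) := by
        have : Continuous fun s : ℝ => ζs + (s : ℂ) * e := by fun_prop
        have h6 := this.tendsto 0
        simpa using h6
      have h7 := ht.eventually hloc
      show ∀ᶠ s : ℝ in 𝓝 0, w (ζs + ((0 : ℝ) : ℂ) * e) ≤ w (ζs + s * e)
      simpa using h7
    exact sec_test hU _ _ _ _ _ hm
  have k1 := key 1 (by simp)
  have k2 := key Complex.I (by simp)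
  rw [one_smul] at k1
  have hlap := lap_id hU (ℓ ζs) ξ
  set S : ℂ := ∑ c, ∑ a, star (ξ c) * ξ a * db (fun v' => (1 / 2 : ℂ) *
      (fderiv ℝ U v' (Pi.single a 1) - Complex.I * fderiv ℝ U v' (Pi.single a Complex.I))) c
      (ℓ ζs) with hS
  have hdiff : ‖S - Gf (ℓ ζs)‖ ≤ ε * B := by
    have h1 : S - Gf (ℓ ζs) = ∑ c, ∑ a, star (ξ c) * ξ a * (db (fun v' => (1 / 2 : ℂ) *
      (fderiv ℝ U v' (Pi.single a 1) - Complex.I * fderiv ℝ U v' (Pi.single a Complex.I))) c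
      (ℓ ζs) - g a c (ℓ ζs)) := by
      rw [hS, hGf, ← Finset.sum_sub_distrib]
      refine Finset.sum_congr rfl fun c _ => ?_
      rw [← Finset.sum_sub_distrib]
      refine Finset.sum_congr rfl fun a _ => ?_
      ring
    rw [h1]
    refine (norm_sum_le _ _).trans ?_
    have h2 : ε * B = ∑ c, ∑ a, ‖ξ c‖ * ‖ξ a‖ * ε := by
      rw [hB, sq, Finset.sum_mul_sum, Finset.mul_sum]
      refine Finset.sum_congr rfl fun c _ => ?_
      rw [Finset.mul_sum]
      refine Finset.sum_congr rfl fun a _ => ?_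
      ring
    rw [h2]
    refine Finset.sum_le_sum fun c _ => (norm_sum_le _ _).trans
      (Finset.sum_le_sum fun a _ => ?_)
    rw [norm_mul, norm_mul, norm_star]
    exact mul_le_mul_of_nonneg_left ((hUC _ (hmemC ζs hζs')).2 a c).le (by positivity)
  have hGs := (hin ζs hζs').2
  have hSn : ‖S‖ ≤ N / 8 + ε * B := by
    have : S = (S - Gf (ℓ ζs)) + Gf (ℓ ζs) := by ring
    rw [this]
    refine (norm_add_le _ _).trans ?_
    linarith
  have hSre : S.re ≤ N / 8 + ε * B := (Complex.re_le_norm S).trans hSn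
  have : 0 ≤ 4 * S.re + 4 * η - 2 * N := by
    linarith
  nlinarith

end LeviAux

/-- injectivity of the derivative at a point -/
theorem levi {J₀ : Matrix n n ℝ} {h : (κ → ℂ) → Matrix n n ℝ} (hh : PHB J₀ h)
    (hprop : ∀ R : ℝ, ∃ r < 1, ∀ z ∈ HolAux.Bl κ, (h z).trace ≤ R → ∑ i, ‖z i‖ ^ 2 ≤ r) :
    ∃ z₀ ∈ HolAux.Bl κ, ∀ ξ : κ → ℂ, ∑ a, ξ a • ph h (Pi.single a 1) z₀ = 0 → ξ = 0 := by
  set Ω := HolAux.Bl κ with hΩdef
  have hsq : Continuous fun z : κ → ℂ => ∑ i, ‖z i‖ ^ 2 := by fun_prop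
  have hΩ : IsOpen Ω := isOpen_lt hsq continuous_const
  have h0Ω : (0 : κ → ℂ) ∈ Ω := by
    show ∑ i, ‖(0 : κ → ℂ) i‖ ^ 2 < 1
    simp
  have hent : ∀ i j, ContDiffOn ℝ 1 (fun z => h z i j) Ω := hh.sm
  set u : (κ → ℂ) → ℝ := fun z => (h z).trace with hu
  have hus : ContDiffOn ℝ 1 u Ω := by
    have : u = fun z => ∑ i, h z i i := rfl
    rw [this]
    exact ContDiffOn.sum fun i _ => hent i i
  -- the minimum
  obtain ⟨z₀, hz₀, hmin⟩ : ∃ z₀ ∈ Ω, ∀ z ∈ Ω,
      u z₀ - 1 / 2 * ∑ i, ‖z₀ i‖ ^ 2 ≤ u z - 1 / 2 * ∑ i, ‖z i‖ ^ 2 := by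
    obtain ⟨r, hr, hR⟩ := hprop (u 0 + 1)
    set K : Set (κ → ℂ) := {z | ∑ i, ‖z i‖ ^ 2 ≤ max r 0} with hK
    have hKs : K ⊆ Ω := fun z hz => lt_of_le_of_lt hz (max_lt hr one_pos)
    have hKc : IsCompact K := by
      refine Metric.isCompact_of_isClosed_isBounded (isClosed_le hsq continuous_const) ?_
      refine (Metric.isBounded_closedBall (x := (0 : κ → ℂ)) (r := 1)).subset fun z hz => ?_
      rw [mem_closedBall_zero_iff]
      refine (pi_norm_le_iff_of_nonneg zero_le_one).mpr fun i => ?_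
      have h1 : ‖z i‖ ^ 2 ≤ ∑ i, ‖z i‖ ^ 2 :=
        Finset.single_le_sum (f := fun i => ‖z i‖ ^ 2) (fun _ _ => by positivity)
          (Finset.mem_univ i)
      have h2 : ∑ i, ‖z i‖ ^ 2 < 1 := hKs hz
      have h3 : ‖z i‖ ^ 2 ≤ 1 := by linarith
      exact (sq_le_one_iff₀ (norm_nonneg _)).mp h3
    have h0K : (0 : κ → ℂ) ∈ K := by
      show ∑ i, ‖(0 : κ → ℂ) i‖ ^ 2 ≤ max r 0
      simp
    have hc : ContinuousOn (fun z => u z - 1 / 2 * ∑ i, ‖z i‖ ^ 2) K :=
      (hus.continuousOn.mono hKs).sub (continuous_const.mul hsq).continuousOn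
    obtain ⟨z₀, hz₀, hm⟩ := hKc.exists_isMinOn ⟨0, h0K⟩ hc
    refine ⟨z₀, hKs hz₀, fun z hz => ?_⟩
    by_cases hzK : z ∈ K
    · exact hm hzK
    · have h1 : u z₀ - 1 / 2 * ∑ i, ‖z₀ i‖ ^ 2 ≤ u 0 - 1 / 2 * ∑ i, ‖(0 : κ → ℂ) i‖ ^ 2 :=
        hm h0K
      have h2 : ∑ i, ‖(0 : κ → ℂ) i‖ ^ 2 = 0 := by simp
      have h3 : u 0 + 1 < u z := by
        by_contra hcon
        exact hzK ((hR z hz (not_lt.mp hcon)).trans (le_max_left _ _))
      have h4 : ∑ i, ‖z i‖ ^ 2 < 1 := hz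
      rw [h2] at h1
      linarith
  refine ⟨z₀, hz₀, fun ξ hξ => ?_⟩
  -- differentiability of the entries
  have hdiff : ∀ i j, ∀ z ∈ Ω, DifferentiableAt ℝ (fun z => h z i j) z := fun i j z hz =>
    ((hent i j).contDiffAt (hΩ.mem_nhds hz)).differentiableAt (by simp)
  have hentC : ∀ i j, ContDiffOn ℝ 1 (fun z => ((h z i j : ℝ) : ℂ)) Ω := fun i j =>
    Complex.ofRealCLM.contDiff.comp_contDiffOn (hent i j)
  have hfC : ∀ i j, ∀ z ∈ Ω, ∀ x, fderiv ℝ (fun w => ((h w i j : ℝ) : ℂ)) z x =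
      ((fderiv ℝ (fun w => h w i j) z x : ℝ) : ℂ) := by
    intro i j z hz x
    have h1 : HasFDerivAt (fun w => ((h w i j : ℝ) : ℂ))
        (Complex.ofRealCLM.comp (fderiv ℝ (fun w => h w i j) z)) z :=
      Complex.ofRealCLM.hasFDerivAt.comp z (hdiff i j z hz).hasFDerivAt
    rw [h1.fderiv]
    rfl
  have hfu : ∀ z ∈ Ω, ∀ x, fderiv ℝ u z x = ∑ i, fderiv ℝ (fun w => h w i i) z x := by
    intro z hz x
    have h1 : HasFDerivAt (fun w => ∑ i, h w i i) (∑ i, fderiv ℝ (fun w => h w i i) z) z := by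
      have := HasFDerivAt.sum (u := Finset.univ) (A := fun i w => h w i i)
        (A' := fun i => fderiv ℝ (fun w => h w i i) z) (x := z)
        (fun i _ => (hdiff i i z hz).hasFDerivAt)
      have hfun : (fun w => ∑ i, h w i i) = ∑ i, (fun w => h w i i) := by
        funext v'
        simp [Finset.sum_apply]
      rw [hfun]
      exact this
    have h2 : u = fun w => ∑ i, h w i i := rfl
    rw [h2, h1.fderiv]
    simp
  -- first derivatives through the form
  have hfirst : ∀ a, ∀ z ∈ Ω, (1 / 2 : ℂ) * (fderiv ℝ u z (Pi.single a 1) -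
      Complex.I * fderiv ℝ u z (Pi.single a Complex.I)) =
      2 * ∑ i, ∑ j, ((h z i j : ℝ) : ℂ) * ph h (Pi.single a 1) z j i := by
    intro a z hz
    have hdet : IsUnit (cH h z).det := by
      have h1 : (cH h z).det = ((h z).det : ℂ) := by
        rw [cH]
        exact (RingHom.map_det (Complex.ofRealHom) (h z)).symm
      rw [h1]
      exact isUnit_iff_ne_zero.mpr (Complex.ofReal_ne_zero.mpr (hh.pos z hz).det_pos.ne')
    have h2 : cH h z * ph h (Pi.single a 1) z = (1 / 2 : ℂ) • dz (cH h) (Pi.single a 1) z := by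
      rw [ph, Matrix.mul_smul, Matrix.mul_nonsing_inv_cancel_left _ _ hdet]
    have h3 : ∑ i, ∑ j, ((h z i j : ℝ) : ℂ) * ph h (Pi.single a 1) z j i =
        (cH h z * ph h (Pi.single a 1) z).trace := by
      rw [Matrix.trace]
      refine Finset.sum_congr rfl fun i _ => ?_
      rw [Matrix.diag_apply, Matrix.mul_apply]
      rfl
    have hI : Complex.I • (Pi.single a (1 : ℂ) : κ → ℂ) = Pi.single a Complex.I := by
      rw [← Pi.single_smul]
      simp
    rw [h3, h2, Matrix.trace_smul, Matrix.trace, hfu z hz, hfu z hz]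
    push_cast
    rw [Finset.mul_sum, ← Finset.sum_sub_distrib, Finset.mul_sum, Finset.smul_sum, Finset.mul_sum]
    refine Finset.sum_congr rfl fun i _ => ?_
    have h4 : dz (cH h) (Pi.single a 1) z i i = (1 / 2 : ℂ) *
        ((fderiv ℝ (fun w => h w i i) z (Pi.single a 1) : ℝ) -
          Complex.I * (fderiv ℝ (fun w => h w i i) z (Pi.single a Complex.I) : ℝ)) := by
      have h5 : ∀ x, DM (cH h) z x i i = ((fderiv ℝ (fun w => h w i i) z x : ℝ) : ℂ) := by
        intro x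
        rw [← hfC i i z hz x]
        rfl
      rw [dz, Matrix.smul_apply, Matrix.sub_apply, Matrix.smul_apply, h5, h5, hI, smul_eq_mul,
        smul_eq_mul]
    rw [Matrix.diag_apply, h4, smul_eq_mul]
    ring
  -- the second derivatives
  set g : κ → κ → (κ → ℂ) → ℂ := fun a c z => 2 * ∑ i, ∑ j,
    (db (fun w => ((h w i j : ℝ) : ℂ)) c z * ph h (Pi.single a 1) z j i +
      ((h z i j : ℝ) : ℂ) * cm (ph h (Pi.single a 1) z) (phb h (Pi.single c 1) z) j i) with hg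
  have hDb : ∀ a, Db Ω (fun v => (1 / 2 : ℂ) * (fderiv ℝ u v (Pi.single a 1) -
      Complex.I * fderiv ℝ u v (Pi.single a Complex.I))) (g a) := by
    intro a
    have h1 : ∀ i j, Db Ω (fun z => ((h z i j : ℝ) : ℂ) * ph h (Pi.single a 1) z j i)
        (fun c z => db (fun w => ((h w i j : ℝ) : ℂ)) c z * ph h (Pi.single a 1) z j i +
      ((h z i j : ℝ) : ℂ) * cm (ph h (Pi.single a 1) z) (phb h (Pi.single c 1) z) j i) :=
      fun i j => Db.mul hΩ (db_of_C1 hΩ (hentC i j)) (hh.dbar a j i)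
    have h2 := LeviAux.Db_cmul hΩ 2 (LeviAux.Db_sum hΩ Finset.univ fun i _ =>
      LeviAux.Db_sum hΩ Finset.univ fun j _ => h1 i j)
    exact h2.congr (fun z hz => (hfirst a z hz).symm) (fun c z _ => rfl)
  refine LeviAux.levi_abs hΩ hus hDb hz₀ hmin ξ ?_
  refine Finset.sum_eq_zero fun c _ => ?_
  have hΦ : ∀ i j, ∑ a, ξ a * ph h (Pi.single a 1) z₀ i j = 0 := by
    intro i j
    have h1 := congrFun (congrFun hξ i) j
    rw [Matrix.sum_apply] at h1
    simpa using h1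
  have hcm : ∀ i j, ∑ a, ξ a * cm (ph h (Pi.single a 1) z₀) (phb h (Pi.single c 1) z₀) i j
      = 0 := by
    intro i j
    have h1 : ∑ a, ξ a • cm (ph h (Pi.single a 1) z₀) (phb h (Pi.single c 1) z₀) = 0 := by
      have h2 : ∑ a, ξ a • cm (ph h (Pi.single a 1) z₀) (phb h (Pi.single c 1) z₀) =
          cm (∑ a, ξ a • ph h (Pi.single a 1) z₀) (phb h (Pi.single c 1) z₀) := by
        simp only [cm, smul_sub, Finset.sum_sub_distrib, Finset.sum_mul, Finset.mul_sum,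
          Matrix.smul_mul, Matrix.mul_smul]
      rw [h2, hξ, cm]
      simp
    have h3 := congrFun (congrFun h1 i) j
    rw [Matrix.sum_apply] at h3
    simpa using h3
  have : ∑ a, star (ξ c) * ξ a * g a c z₀ = star (ξ c) * (2 * ∑ i, ∑ j,
      (db (fun w => ((h w i j : ℝ) : ℂ)) c z₀ * (∑ a, ξ a * ph h (Pi.single a 1) z₀ j i) +
      ((h z₀ i j : ℝ) : ℂ) * ∑ a, ξ a *
        cm (ph h (Pi.single a 1) z₀) (phb h (Pi.single c 1) z₀) j i)) := by
    have e1 : ∀ i j, (db (fun w => ((h w i j : ℝ) : ℂ)) c z₀ *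
        (∑ a, ξ a * ph h (Pi.single a 1) z₀ j i) +
      ((h z₀ i j : ℝ) : ℂ) * ∑ a, ξ a *
        cm (ph h (Pi.single a 1) z₀) (phb h (Pi.single c 1) z₀) j i) = ∑ a, ξ a *
        (db (fun w => ((h w i j : ℝ) : ℂ)) c z₀ * ph h (Pi.single a 1) z₀ j i +
      ((h z₀ i j : ℝ) : ℂ) * cm (ph h (Pi.single a 1) z₀) (phb h (Pi.single c 1) z₀) j i) := by
      intro i j
      rw [Finset.mul_sum, Finset.mul_sum, ← Finset.sum_add_distrib]
      refine Finset.sum_congr rfl fun a _ => ?_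
      ring
    simp only [e1]
    have e2 : ∑ i, ∑ j, ∑ a, ξ a *
        (db (fun w => ((h w i j : ℝ) : ℂ)) c z₀ * ph h (Pi.single a 1) z₀ j i +
      ((h z₀ i j : ℝ) : ℂ) * cm (ph h (Pi.single a 1) z₀) (phb h (Pi.single c 1) z₀) j i) =
      ∑ a, ∑ i, ∑ j, ξ a *
        (db (fun w => ((h w i j : ℝ) : ℂ)) c z₀ * ph h (Pi.single a 1) z₀ j i +
      ((h z₀ i j : ℝ) : ℂ) * cm (ph h (Pi.single a 1) z₀) (phb h (Pi.single c 1) z₀) j i) := by
      rw [Finset.sum_comm (s := (Finset.univ : Finset κ))]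
      exact Finset.sum_congr rfl fun i _ => Finset.sum_comm
    rw [e2, Finset.mul_sum, Finset.mul_sum]
    refine Finset.sum_congr rfl fun a _ => ?_
    simp only [hg]
    simp only [← Finset.mul_sum]
    ring
  rw [this]
  simp only [hΦ, hcm, mul_zero, add_zero, Finset.sum_const_zero]

end Pool.Agent.MPd01a95
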