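import Mathlib
import Pool.Agent.Lib.MP_d01a95_gt_H.HDefs
import Pool.Agent.Lib.MP_d01a95_gt_H.Unimod
import Pool.Agent.Lib.MP_d01a95_gt_H.Static
import Pool.Agent.Lib.MP_d01a95_gt_H.Phi
set_option autoImplicit false
set_option linter.all false
open Matrix Filter Topology MeasureTheory Measure
open scoped ENNReal NNReal ContDiff
namespace Pool.Agent.MPd01a95
open GU
variable {κ n ι α : Type} [Fintype κ] [DecidableEq κ] [Fintype n] [DecidableEq n] [Fintype ι] [DecidableEq ι] [Fintype α] [DecidableEq α] {G : Type} [Group G]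

namespace ParAux

theorem db_mul {u v : (α → ℂ) → ℂ} {z : α → ℂ} (c : α) (hu : DifferentiableAt ℝ u z)
    (hv : DifferentiableAt ℝ v z) :
    db (fun z => u z * v z) c z = db u c z * v z + u z * db v c z := by
  unfold db
  rw [fderiv_fun_mul hu hv]
  simp only [ContinuousLinearMap.add_apply, ContinuousLinearMap.smul_apply, smul_eq_mul]
  ring

theorem db_sum {N : Type} [Fintype N] {u : N → (α → ℂ) → ℂ} {z : α → ℂ} (c : α)
    (hu : ∀ k, DifferentiableAt ℝ (u k) z) :
    db (fun z => ∑ k, u k z) c z = ∑ k, db (u k) c z := by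
  unfold db
  rw [fderiv_fun_sum fun k _ => hu k]
  simp only [ContinuousLinearMap.coe_sum', Finset.sum_apply]
  rw [Finset.mul_sum, ← Finset.sum_add_distrib, Finset.mul_sum]

theorem db_congr {u v : (α → ℂ) → ℂ} {z : α → ℂ} (c : α) (h : u =ᶠ[𝓝 z] v) :
    db u c z = db v c z := by
  unfold db
  rw [h.fderiv_eq]

theorem db_neg (u : (α → ℂ) → ℂ) (z : α → ℂ) (c : α) : db (fun z => - u z) c z = - db u c z := by
  unfold db
  rw [fderiv_fun_neg]
  simp only [ContinuousLinearMap.neg_apply]
  ring

theorem db_const (a : ℂ) (z : α → ℂ) (c : α) : db (fun _ => a) c z = 0 := by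
  unfold db
  simp

theorem db_const_mul {u : (α → ℂ) → ℂ} {z : α → ℂ} (a : ℂ) (c : α) (hu : DifferentiableAt ℝ u z) :
    db (fun z => a * u z) c z = a * db u c z := by
  rw [db_mul c (differentiableAt_const a) hu, db_const, zero_mul, zero_add]

theorem db_cH {h : (κ → ℂ) → Matrix n n ℝ} {z : κ → ℂ} (hu : IsUnit (h z).det) (c : κ) (i j : n) :
    db (fun z => cH h z i j) c z = (2 : ℂ) * (cH h z * phb h (Pi.single c 1) z) i j := by
  have e : (cH h z)⁻¹ = PhiAux.cx (h z)⁻¹ := PhiAux.cx_inv hu
  have e2 : cH h z * (cH h z)⁻¹ = 1 := by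
    rw [e]
    show PhiAux.cx (h z) * PhiAux.cx (h z)⁻¹ = 1
    rw [← PhiAux.cx_mul, Matrix.mul_nonsing_inv _ hu, PhiAux.cx_one]
  have e3 : (Complex.I • Pi.single c 1 : κ → ℂ) = Pi.single c Complex.I := by
    rw [← Pi.single_smul, smul_eq_mul, mul_one]
  rw [phb, Matrix.mul_smul, ← Matrix.mul_assoc, e2, Matrix.one_mul, Matrix.smul_apply, dzb, e3]
  simp only [Matrix.smul_apply, Matrix.add_apply, smul_eq_mul, db, DM, Matrix.of_apply]
  ring

end ParAux

open ParAux PhiAux

section phi

variable {h : (κ → ℂ) → Matrix (ι ⊕ Fin 2) (ι ⊕ Fin 2) ℝ} (hh : PHB (J ι) h)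

include hh

/-- module PAR -/
theorem sl_C1 {ε : ℝ} (hε : ε ^ 2 = 1) (i : ι ⊕ Fin 2) :
    ContDiffOn ℝ 1 (fun z => sl ε (h z) i) (HolAux.Bl κ) := by
  have hP : ∀ i j, ContDiffOn ℝ 1 (fun z => P2 (h z) i j) (HolAux.Bl κ) := by
    intro i j
    have e : (fun z => P2 (h z) i j) = fun z => (1 / 2 : ℝ) * ((1 : Matrix _ _ ℝ) i j -
        StaticAux.jr i * h z i j) := by
      funext z
      rw [P2, Matrix.smul_apply, Matrix.sub_apply, StaticAux.J_mul, smul_eq_mul]
    rw [e]
    exact contDiffOn_const.mul (contDiffOn_const.sub (contDiffOn_const.mul (hh.sm i j)))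
  have hg : ∀ k j, ContDiffOn ℝ 1 (fun z => g2 (h z) k j) (HolAux.Bl κ) := fun k j => hP _ _
  have hS : ContDiffOn ℝ 1 (fun z => Real.sqrt (g2 (h z) 0 0 * g2 (h z) 1 1 - g2 (h z) 0 1 ^ 2))
      (HolAux.Bl κ) := by
    refine ContDiffOn.sqrt (((hg 0 0).mul (hg 1 1)).sub ((hg 0 1).pow 2)) ?_
    intro z hz
    exact (StaticAux.Delta_pos (hh.pos z hz)).ne'
  have hc : ∀ {f : (κ → ℂ) → ℝ}, ContDiffOn ℝ 1 f (HolAux.Bl κ) →
      ContDiffOn ℝ 1 (fun z => ((f z : ℝ) : ℂ)) (HolAux.Bl κ) := fun {f} hf =>
    Complex.ofRealCLM.contDiff.comp_contDiffOn hf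
  unfold sl
  exact ((hc (hg 1 1)).mul (hc (hP _ _))).add
    (((hc (hg 0 1)).neg.add (contDiffOn_const.mul (hc hS))).mul (hc (hP _ _)))

/-- module PAR: the isotropic lines are parallel -/
theorem sl_par {ε : ℝ} (hε : ε ^ 2 = 1) :
    ∃ m : κ → (κ → ℂ) → ℂ, (∀ c, ContinuousOn (m c) (HolAux.Bl κ)) ∧
      ∀ c, ∀ z ∈ HolAux.Bl κ, ∀ i, db (fun z => sl ε (h z) i) c z +
        (phb h (Pi.single c 1) z *ᵥ sl ε (h z)) i = m c z * sl ε (h z) i := by
  set s : (κ → ℂ) → ι ⊕ Fin 2 → ℂ := fun z => sl ε (h z) with hs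
  set ds : κ → (κ → ℂ) → ι ⊕ Fin 2 → ℂ := fun c z i => db (fun z => s z i) c z with hds
  set N : κ → (κ → ℂ) → ι ⊕ Fin 2 → ℂ := fun c z => ds c z + phb h (Pi.single c 1) z *ᵥ s z with hN
  set lin : (ι ⊕ Fin 2 → ℂ) → ℂ := fun w => w (Sum.inr 0) - ε * Complex.I * w (Sum.inr 1) with hlin
  have hsd : ∀ z ∈ HolAux.Bl κ, ∀ i, DifferentiableAt ℝ (fun z => s z i) z := fun z hz i =>
    ((sl_C1 hh hε i).contDiffAt (isOpen_Bl.mem_nhds hz)).differentiableAt (by simp)
  have hlin0 : ∀ z ∈ HolAux.Bl κ, lin (s z) ≠ 0 := fun z hz =>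
    sl_coord (hh.pos z hz) (hh.hJ z hz) hε
  -- the pointwise statement
  have key : ∀ c, ∀ z ∈ HolAux.Bl κ, ∃ a : ℂ, N c z = a • s z := by
    intro c z hz
    obtain ⟨hd, hu, -, -⟩ := basic hh hz
    have hpos := hh.pos z hz
    have hJz := hh.hJ z hz
    have hcd : ∀ i j, DifferentiableAt ℝ (fun z => cH h z i j) z := by
      intro i j
      exact (Complex.ofRealCLM.differentiableAt).comp z (hd i j)
    -- derivative of `thC`
    have hth : ∀ w i j, thC (h w) i j = (StaticAux.jr i : ℂ) * cH h w i j := by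
      intro w i j
      show ((((J ι * h w) i j : ℝ)) : ℂ) = _
      rw [StaticAux.J_mul]
      push_cast
      rfl
    have hthd : ∀ i j, DifferentiableAt ℝ (fun w => thC (h w) i j) z := by
      intro i j
      have e : (fun w => thC (h w) i j) = fun w => (StaticAux.jr i : ℂ) * cH h w i j := by
        funext w; exact hth w i j
      rw [e]
      exact (hcd i j).const_mul _
    have hdth : ∀ i j, db (fun w => thC (h w) i j) c z =
        (2 : ℂ) * (thC (h z) * phb h (Pi.single c 1) z) i j := by
      intro i j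
      have e : (fun w => thC (h w) i j) = fun w => (StaticAux.jr i : ℂ) * cH h w i j := by
        funext w; exact hth w i j
      rw [e, db_const_mul _ c (hcd i j), db_cH hu, Matrix.mul_apply, Matrix.mul_apply,
        Finset.mul_sum, Finset.mul_sum, Finset.mul_sum]
      refine Finset.sum_congr rfl fun k _ => ?_
      rw [hth]
      ring
    -- (a)
    have ha : thC (h z) *ᵥ N c z = - N c z := by
      have h1 : (2 : ℂ) • ((thC (h z) * phb h (Pi.single c 1) z) *ᵥ s z) + thC (h z) *ᵥ ds c z =
          - ds c z := by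
        funext i
        have h2 : db (fun w => (thC (h w) *ᵥ s w) i) c z = db (fun w => - s w i) c z := by
          refine db_congr c ?_
          filter_upwards [isOpen_Bl.mem_nhds hz] with w hw
          rw [hs]
          have := th_sl (hh.pos w hw) (hh.hJ w hw) ε
          simp only [this, Pi.neg_apply]
        rw [db_neg] at h2
        have h3 : (fun w => (thC (h w) *ᵥ s w) i) = fun w => ∑ k, thC (h w) i k * s w k := rfl
        rw [h3, db_sum c fun k => (hthd i k).fun_mul (hsd z hz k)] at h2
        have h4 : ∀ k, db (fun w => thC (h w) i k * s w k) c z =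
            (2 : ℂ) * (thC (h z) * phb h (Pi.single c 1) z) i k * s z k +
              thC (h z) i k * ds c z k := by
          intro k
          rw [db_mul c (hthd i k) (hsd z hz k), hdth]
        simp only [h4, Finset.sum_add_distrib] at h2
        simp only [Pi.add_apply, Pi.smul_apply, Matrix.mulVec, dotProduct, smul_eq_mul,
          Pi.neg_apply, Finset.mul_sum]
        rw [← h2]
        congr 1
        exact Finset.sum_congr rfl fun k _ => by ring
      have h5 : (thC (h z) * phb h (Pi.single c 1) z) *ᵥ s z =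
          phb h (Pi.single c 1) z *ᵥ s z := by
        rw [(phi_anti hh hz _).2, Matrix.neg_mulVec, ← Matrix.mulVec_mulVec, hs]
        simp only
        rw [th_sl hpos hJz ε, Matrix.mulVec_neg, neg_neg]
      rw [h5] at h1
      have h6 : thC (h z) *ᵥ ds c z = - ds c z - (2 : ℂ) • (phb h (Pi.single c 1) z *ᵥ s z) := by
        rw [← h1]; abel
      rw [hN]
      simp only
      rw [Matrix.mulVec_add, h6, Matrix.mulVec_mulVec, h5, two_smul]
      abel
    -- (b)
    have hb : bJ (N c z) (s z) = 0 := by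
      have h1 : db (fun w => bJ (s w) (s w)) c z = 0 := by
        have : (fun w => bJ (s w) (s w)) =ᶠ[𝓝 z] fun _ => 0 := by
          filter_upwards [isOpen_Bl.mem_nhds hz] with w hw
          exact sl_iso (hh.pos w hw) (hh.hJ w hw) hε
        rw [db_congr c this, db_const]
      have h2 : (fun w => bJ (s w) (s w)) = fun w => ∑ i, (StaticAux.jr i : ℂ) * (s w i * s w i) := by
        funext w
        rw [StaticAux.bJ_eq]
        exact Finset.sum_congr rfl fun i _ => by ring
      have h3 : ∀ i, db (fun w => (StaticAux.jr i : ℂ) * (s w i * s w i)) c z =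
          2 * ((StaticAux.jr i : ℂ) * ds c z i * s z i) := by
        intro i
        rw [db_const_mul _ c ((hsd z hz i).fun_mul (hsd z hz i)), db_mul c (hsd z hz i) (hsd z hz i)]
        simp only [hds]
        ring
      rw [h2, db_sum c fun i => ((hsd z hz i).fun_mul (hsd z hz i)).const_mul _] at h1
      simp only [h3] at h1
      rw [← Finset.mul_sum, ← StaticAux.bJ_eq] at h1
      have h4 : bJ (ds c z) (s z) = 0 := by
        rcases mul_eq_zero.1 h1 with h | h
        · norm_num at h
        · exact h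
      have h5 : bJ (phb h (Pi.single c 1) z *ᵥ s z) (s z) = 0 := by
        have h6 := (phi_skew hh hz (Pi.single c 1) (s z) (s z)).2
        rw [StaticAux.bJ_comm (s z)] at h6
        have h7 : (2 : ℂ) * bJ (phb h (Pi.single c 1) z *ᵥ s z) (s z) = 0 := by
          linear_combination h6
        rcases mul_eq_zero.1 h7 with h | h
        · norm_num at h
        · exact h
      rw [hN]
      simp only
      rw [StaticAux.bJ_add_left, h4, h5, add_zero]
    exact sl_perp hpos hJz hε ha hb
  refine ⟨fun c z => lin (N c z) / lin (s z), ?_, ?_⟩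
  · intro c
    have hsc : ∀ i, ContinuousOn (fun z => s z i) (HolAux.Bl κ) := fun i =>
      (sl_C1 hh hε i).continuousOn
    have hdsc : ∀ i, ContinuousOn (fun z => ds c z i) (HolAux.Bl κ) := by
      intro i
      have h1 := (sl_C1 hh hε i).continuousOn_fderiv_of_isOpen isOpen_Bl (by simp)
      simp only [hds, db]
      exact continuousOn_const.mul ((h1.clm_apply continuousOn_const).add
        (continuousOn_const.mul (h1.clm_apply continuousOn_const)))
    have hphb : ∀ i j, ContinuousOn (fun z => phb h (Pi.single c 1) z i j) (HolAux.Bl κ) := by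
      intro i j
      by_cases hne : (HolAux.Bl κ).Nonempty
      · obtain ⟨z₁, hz₁⟩ := hne
        have h1 := (phi_deriv hh hz₁ (Pi.single c 1)).2.2.2
        have h2 : ContinuousOn (fun z => ph h (Pi.single c 1) z i j) (HolAux.Bl κ) :=
          continuousOn_pi.1 (continuousOn_pi.1 h1 i) j
        have h3 : ContinuousOn (fun z => star (ph h (Pi.single c 1) z i j)) (HolAux.Bl κ) :=
          continuous_star.comp_continuousOn h2
        refine h3.congr fun z hz => ?_
        rw [phi_conj hh hz]
        rfl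
      · rw [Set.not_nonempty_iff_eq_empty.1 hne]
        exact continuousOn_empty _
    have hNc : ∀ i, ContinuousOn (fun z => N c z i) (HolAux.Bl κ) := by
      intro i
      have e : (fun z => N c z i) = fun z => ds c z i +
          ∑ k, phb h (Pi.single c 1) z i k * s z k := rfl
      rw [e]
      exact (hdsc i).add (continuousOn_finset_sum _ fun k _ => (hphb i k).mul (hsc k))
    refine ContinuousOn.div ?_ ?_ fun z hz => hlin0 z hz
    · exact (hNc _).sub (continuousOn_const.mul (hNc _))
    · exact (hsc _).sub (continuousOn_const.mul (hsc _))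
  · intro c z hz i
    obtain ⟨a, ha⟩ := key c z hz
    have h1 : lin (N c z) = a * lin (s z) := by
      rw [ha]
      simp only [hlin, Pi.smul_apply, smul_eq_mul]
      ring
    have h2 : lin (N c z) / lin (s z) = a := by
      rw [h1, mul_div_assoc, div_self (hlin0 z hz), mul_one]
    have h3 : N c z i = a * s z i := by
      rw [ha]; rfl
    show N c z i = lin (N c z) / lin (s z) * s z i
    rw [h2]
    exact h3

end phi

end Pool.Agent.MPd01a95
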