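import Mathlib
import Pool.Agent.Lib.MP_d01a95_gt_H.HDefs
import Pool.Agent.Lib.MP_d01a95_gt_H.Unimod
import Pool.Agent.Lib.MP_d01a95_gt_H.Static
import Pool.Agent.Lib.MP_d01a95_gt_H.Phi
import Pool.Agent.Lib.MP_d01a95_gt_H.Par

set_option autoImplicit false
set_option linter.all false

open Matrix Filter Topology MeasureTheory Measure
open scoped ENNReal NNReal ContDiff

namespace Pool.Agent.MPd01a95

open GU

variable {κ n ι α : Type} [Fintype κ] [DecidableEq κ] [Fintype n] [DecidableEq n] [Fintype ι]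
  [DecidableEq ι] [Fintype α] [DecidableEq α] {G : Type} [Group G]

namespace LiftAux

lemma isOpen_Bl : IsOpen (HolAux.Bl κ) := by
  have : Continuous fun z : κ → ℂ => ∑ i, ‖z i‖ ^ 2 := by fun_prop
  exact isOpen_lt this continuous_const

lemma single_split (c : κ) (w : ℂ) : (Pi.single c w : κ → ℂ) =
    w.re • (Pi.single c 1 : κ → ℂ) + w.im • (Pi.single c Complex.I : κ → ℂ) := by
  funext d
  by_cases hd : d = c
  · subst hd
    simp only [Pi.add_apply, Pi.smul_apply, Pi.single_eq_same, Complex.real_smul, mul_one]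
    exact (Complex.re_add_im w).symm
  · simp [hd]

lemma holo_of_db {F : (κ → ℂ) → ℂ} {z : κ → ℂ} (hF : DifferentiableAt ℝ F z)
    (h : ∀ c, db F c z = 0) : DifferentiableAt ℂ F z := by
  have hI : ∀ c, fderiv ℝ F z (Pi.single c Complex.I) =
      Complex.I * fderiv ℝ F z (Pi.single c 1) := by
    intro c
    have h1 := h c
    unfold db at h1
    have h2 : fderiv ℝ F z (Pi.single c 1) +
        Complex.I * fderiv ℝ F z (Pi.single c Complex.I) = 0 := by
      rcases mul_eq_zero.1 h1 with h3 | h3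
      · norm_num at h3
      · exact h3
    linear_combination (-Complex.I) * h2 + (fderiv ℝ F z (Pi.single c Complex.I)) * Complex.I_sq
  rw [differentiableAt_iff_restrictScalars ℝ hF]
  refine ⟨∑ c, (fderiv ℝ F z (Pi.single c 1)) • (ContinuousLinearMap.proj (R := ℂ) c), ?_⟩
  ext v
  simp only [ContinuousLinearMap.coe_restrictScalars', ContinuousLinearMap.coe_sum',
    Finset.sum_apply, ContinuousLinearMap.coe_smul', Pi.smul_apply,
    ContinuousLinearMap.proj_apply, smul_eq_mul]
  conv_rhs => rw [← Finset.univ_sum_single v, _root_.map_sum]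
  refine Finset.sum_congr rfl fun c _ => ?_
  rw [single_split c (v c), map_add, map_smul, map_smul, hI c, Complex.real_smul,
    Complex.real_smul]
  conv_lhs => rw [← Complex.re_add_im (v c)]
  ring

lemma db_mul {f g : (κ → ℂ) → ℂ} {z : κ → ℂ} (hf : DifferentiableAt ℝ f z)
    (hg : DifferentiableAt ℝ g z) (c : κ) :
    db (fun z => f z * g z) c z = db f c z * g z + f z * db g c z := by
  unfold db
  have h1 : fderiv ℝ (fun z => f z * g z) z = f z • fderiv ℝ g z + g z • fderiv ℝ f z :=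
    fderiv_fun_mul hf hg
  rw [h1]
  simp only [ContinuousLinearMap.add_apply, ContinuousLinearMap.smul_apply, smul_eq_mul]
  ring

lemma db_lin {f g : (κ → ℂ) → ℂ} {z : κ → ℂ} (hf : DifferentiableAt ℝ f z)
    (hg : DifferentiableAt ℝ g z) (l : ℂ) (c : κ) :
    db (fun z => f z - l * g z) c z = db f c z - l * db g c z := by
  unfold db
  have h1 : fderiv ℝ (fun z => f z - l * g z) z = fderiv ℝ f z - l • fderiv ℝ g z := by
    rw [fderiv_fun_sub hf (hg.const_mul l), fderiv_const_mul hg]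
  rw [h1]
  simp only [ContinuousLinearMap.sub_apply, ContinuousLinearMap.smul_apply, smul_eq_mul]
  ring

end LiftAux

section phi

variable {h : (κ → ℂ) → Matrix (ι ⊕ Fin 2) (ι ⊕ Fin 2) ℝ} (hh : PHB (J ι) h)

include hh

open LiftAux in
/-- module LIFT -/
theorem lift_hol {ε : ℝ} (hε : ε ^ 2 = 1)
    (h0 : ∀ z ∈ HolAux.Bl κ, ∀ a, ph h (Pi.single a 1) z *ᵥ sl (-ε) (h z) = 0) (i : ι ⊕ Fin 2) :
    DifferentiableOn ℂ (fun z => sl ε (h z) i /
      (sl ε (h z) (Sum.inr 0) - ε * Complex.I * sl ε (h z) (Sum.inr 1))) (HolAux.Bl κ) := by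
  intro z hz
  apply DifferentiableAt.differentiableWithinAt
  have hopen := isOpen_Bl (κ := κ)
  have hd : ∀ j, DifferentiableAt ℝ (fun z => sl ε (h z) j) z := fun j =>
    (((sl_C1 hh hε j).differentiableOn one_ne_zero) z hz).differentiableAt
      (hopen.mem_nhds hz)
  have hlin : DifferentiableAt ℝ (fun z => sl ε (h z) (Sum.inr 0) -
      ε * Complex.I * sl ε (h z) (Sum.inr 1)) z :=
    (hd (Sum.inr 0)).sub ((hd (Sum.inr 1)).const_mul _)
  have hne : ∀ z ∈ HolAux.Bl κ, sl ε (h z) (Sum.inr 0) -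
      ε * Complex.I * sl ε (h z) (Sum.inr 1) ≠ 0 := fun z hz =>
    sl_coord (hh.pos z hz) (hh.hJ z hz) hε
  have hF : DifferentiableAt ℝ (fun z => sl ε (h z) i /
      (sl ε (h z) (Sum.inr 0) - ε * Complex.I * sl ε (h z) (Sum.inr 1))) z :=
    by
    simp only [div_eq_mul_inv]
    exact (hd i).fun_mul (hlin.fun_inv (hne z hz))
  apply holo_of_db hF
  intro c
  obtain ⟨m, -, hm⟩ := sl_par hh hε
  have hphb : phb h (Pi.single c 1) z *ᵥ sl ε (h z) = 0 := by
    have h1 := congrArg star (h0 z hz c)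
    rw [star_zero] at h1
    rw [phi_conj hh hz]
    funext j
    have h2 := congrFun h1 j
    have h3 : sl ε (h z) = star (sl (-ε) (h z)) := by
      rw [sl_conj (hh.pos z hz) (hh.hJ z hz), neg_neg]
    rw [h3]
    simp only [mulVec, dotProduct, Pi.star_apply, star_sum, star_mul', Pi.zero_apply,
      Matrix.map_apply] at h2 ⊢
    exact h2
  have hm' : ∀ j, db (fun z => sl ε (h z) j) c z = m c z * sl ε (h z) j := by
    intro j
    have := hm c z hz j
    rw [hphb] at this
    simpa using this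
  have e1 := db_lin (hd (Sum.inr 0)) (hd (Sum.inr 1)) (ε * Complex.I) c
  rw [hm', hm'] at e1
  have e2 := db_mul hF hlin c
  have e3 : db (fun z => sl ε (h z) i / (sl ε (h z) (Sum.inr 0) -
      ε * Complex.I * sl ε (h z) (Sum.inr 1)) * (sl ε (h z) (Sum.inr 0) -
      ε * Complex.I * sl ε (h z) (Sum.inr 1))) c z = db (fun z => sl ε (h z) i) c z := by
    have : (fun z => sl ε (h z) i / (sl ε (h z) (Sum.inr 0) -
      ε * Complex.I * sl ε (h z) (Sum.inr 1)) * (sl ε (h z) (Sum.inr 0) -
      ε * Complex.I * sl ε (h z) (Sum.inr 1))) =ᶠ[𝓝 z] (fun z => sl ε (h z) i) := by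
      filter_upwards [hopen.mem_nhds hz] with w hw
      exact div_mul_cancel₀ _ (hne w hw)
    unfold db
    rw [this.fderiv_eq]
  rw [e3, hm', e1] at e2
  have e4 : db (fun z => sl ε (h z) i / (sl ε (h z) (Sum.inr 0) -
      ε * Complex.I * sl ε (h z) (Sum.inr 1))) c z * (sl ε (h z) (Sum.inr 0) -
      ε * Complex.I * sl ε (h z) (Sum.inr 1)) = 0 := by
    have h5 : sl ε (h z) i / (sl ε (h z) (Sum.inr 0) -
      ε * Complex.I * sl ε (h z) (Sum.inr 1)) * (m c z * sl ε (h z) (Sum.inr 0) -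
      ε * Complex.I * (m c z * sl ε (h z) (Sum.inr 1))) = m c z * sl ε (h z) i := by
      have := hne z hz
      field_simp
    linear_combination -e2 - h5
  exact (mul_eq_zero.1 e4).resolve_right (hne z hz)

end phi

end Pool.Agent.MPd01a95
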