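import Mathlib
import Pool.Agent.Lib.MP_d01a95_gt_H.HDefs
import Pool.Agent.Lib.MP_d01a95_gt_H.Unimod

/-!
# MP_d01a95_gt: radial integrals on the group
-/

set_option autoImplicit false
set_option linter.all false

open Matrix Filter Topology MeasureTheory Measure
open scoped ENNReal NNReal ContDiff

namespace Pool.Agent.MPd01a95

open GU

variable {κ n ι α : Type} [Fintype κ] [DecidableEq κ] [Fintype n] [DecidableEq n]
  [Fintype ι] [DecidableEq ι] [Fintype α] [DecidableEq α] {G : Type} [Group G]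

namespace RvolAux


theorem st_one {s : ℝ} (hs : 3 / 4 ≤ s) : Real.smoothTransition (4 * s - 2) = 1 :=
  Real.smoothTransition.one_of_one_le (by linarith)

theorem ws_contDiff : ContDiff ℝ 1 fun s : ℝ => Real.smoothTransition (4 * s - 2) / s := by
  rw [contDiff_iff_contDiffAt]
  intro s
  rcases lt_or_ge s (1 / 2) with h | h
  · have : (fun s : ℝ => Real.smoothTransition (4 * s - 2) / s) =ᶠ[𝓝 s] fun _ => 0 := by
      filter_upwards [Iio_mem_nhds h] with x hx
      rw [Real.smoothTransition.zero_of_nonpos (by rw [Set.mem_Iio] at hx; linarith), zero_div]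
    exact contDiffAt_const.congr_of_eventuallyEq this
  · refine ContDiffAt.div ?_ contDiffAt_id (by linarith)
    have h1 : ContDiff ℝ 1 Real.smoothTransition := Real.smoothTransition.contDiff
    exact (h1.comp ((contDiff_const.mul contDiff_id).sub contDiff_const)).contDiffAt

theorem F_lin (k : ℕ) (φ : ℝ → ℝ) (a ε : ℝ) (h1 : ∀ s ≤ 1 + ε, φ s = a) (s : ℝ) (hs : 1 ≤ s)
    (hs2 : s ≤ 1 + ε) :
    (∫ x in (1 : ℝ)..s, φ x * (x - 1) ^ k) = a * (s - 1) ^ (k + 1) / (k + 1) := by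
  have e1 : (∫ x in (1 : ℝ)..s, φ x * (x - 1) ^ k) = ∫ x in (1 : ℝ)..s, a * (x - 1) ^ k := by
    refine intervalIntegral.integral_congr fun x hx => ?_
    rw [Set.uIcc_of_le hs] at hx
    rw [h1 x (hx.2.trans hs2)]
  rw [e1, intervalIntegral.integral_const_mul,
    intervalIntegral.integral_comp_sub_right (fun x => x ^ k) 1, integral_pow]
  simp only [sub_self]
  rw [zero_pow (Nat.succ_ne_zero k)]
  ring

theorem ode (k : ℕ) (φ : ℝ → ℝ) (hφ : Continuous φ) (ε S : ℝ) (hε : 0 < ε)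
    (hS : 1 < S) (h1 : ∀ s ≤ 1 + ε, φ s = φ 1) (h2 : ∀ s, S ≤ s → φ s = 0)
    (h3 : ∫ s in Set.Ioi (1 : ℝ), φ s * (s - 1) ^ k = 0) :
    ∃ β : ℝ → ℝ, ContDiff ℝ 2 β ∧ (∀ s, S ≤ s → β s = 0) ∧
      ∀ s, 1 ≤ s → LL (k + 1) β s = φ s := by
  set a := φ 1 with ha
  have hcont : Continuous fun x : ℝ => φ x * (x - 1) ^ k := by fun_prop
  obtain ⟨F, hF⟩ : ∃ F : ℝ → ℝ, F = fun s => ∫ x in (1 : ℝ)..s, φ x * (x - 1) ^ k := ⟨_, rfl⟩
  have hFd : ∀ s, HasDerivAt F (φ s * (s - 1) ^ k) s := fun s => by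
    rw [hF]; exact (hcont.integral_hasStrictDerivAt 1 s).hasDerivAt
  have hF1 : ContDiff ℝ 1 F := by
    rw [contDiff_one_iff_deriv]
    refine ⟨fun s => (hFd s).differentiableAt, ?_⟩
    have : deriv F = fun x : ℝ => φ x * (x - 1) ^ k := funext fun s => (hFd s).deriv
    rw [this]; exact hcont
  have hFS : ∀ s, S ≤ s → F s = 0 := by
    intro s hs
    rw [hF]
    simp only
    rw [intervalIntegral.integral_of_le (by linarith), ← h3]
    refine (setIntegral_eq_of_subset_of_forall_sdiff_eq_zero measurableSet_Ioi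
      Set.Ioc_subset_Ioi_self fun x hx => ?_).symm
    have : s < x := by
      by_contra h
      exact hx.2 ⟨hx.1, not_lt.mp h⟩
    rw [h2 x (by linarith), zero_mul]
  have hFl : ∀ s, 1 ≤ s → s ≤ 1 + ε → F s = a * (s - 1) ^ (k + 1) / (k + 1) := fun s hs hs2 => by
    rw [hF]; exact F_lin k φ a ε h1 s hs hs2
  obtain ⟨Q, hQ⟩ : ∃ Q : ℝ → ℝ, Q = fun s => if s ≤ 1 + ε / 2 then a / (k + 1)
      else F s / (s - 1) ^ (k + 1) := ⟨_, rfl⟩
  have hk0 : ((k : ℝ) + 1) ≠ 0 := by positivity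
  have hQ1 : ∀ s, s < 1 + ε → Q s = a / (k + 1) := by
    intro s hs
    rw [hQ]
    simp only
    split_ifs with h
    · rfl
    · rw [hFl s (by linarith) hs.le]
      have : (s - 1) ^ (k + 1) ≠ 0 := pow_ne_zero _ (by linarith [not_le.mp h])
      field_simp
  have hQ2 : ∀ s, 1 + ε / 2 < s → Q s = F s / (s - 1) ^ (k + 1) := by
    intro s hs
    rw [hQ]
    simp only
    rw [if_neg (not_le.mpr hs)]
  have hQc : ContDiff ℝ 1 Q := by
    rw [contDiff_iff_contDiffAt]
    intro s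
    rcases lt_or_ge s (1 + ε) with h | h
    · refine (contDiffAt_const (c := a / ((k : ℝ) + 1))).congr_of_eventuallyEq ?_
      filter_upwards [Iio_mem_nhds h] with x hx using hQ1 x hx
    · have e : Q =ᶠ[𝓝 s] fun s => F s / (s - 1) ^ (k + 1) := by
        filter_upwards [Ioi_mem_nhds (show 1 + ε / 2 < s by linarith)] with x hx using hQ2 x hx
      refine ContDiffAt.congr_of_eventuallyEq (ContDiffAt.div hF1.contDiffAt ?_ ?_) e
      · exact ((contDiff_id.sub contDiff_const).pow (k + 1)).contDiffAt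
      · exact pow_ne_zero _ (by linarith)
  obtain ⟨b, hb⟩ : ∃ b : ℝ → ℝ, b = fun s => Real.smoothTransition (4 * s - 2) / s * Q s / 4 :=
    ⟨_, rfl⟩
  have hbc : ContDiff ℝ 1 b := by
    rw [hb]; exact (ws_contDiff.mul hQc).div_const 4
  obtain ⟨β, hβ⟩ : ∃ β : ℝ → ℝ, β = fun s => ∫ x in S..s, b x := ⟨_, rfl⟩
  have hβd : ∀ s, HasDerivAt β (b s) s := fun s => by
    rw [hβ]; exact (hbc.continuous.integral_hasStrictDerivAt S s).hasDerivAt
  have hβd' : deriv β = b := funext fun s => (hβd s).deriv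
  refine ⟨β, ?_, ?_, ?_⟩
  · rw [show (2 : WithTop ℕ∞) = 1 + 1 by norm_num, contDiff_succ_iff_deriv]
    refine ⟨fun s => (hβd s).differentiableAt, fun h => ?_, ?_⟩
    · exact absurd h (by decide)
    · rw [hβd']; exact hbc
  · intro s hs
    rw [hβ]
    simp only
    rw [intervalIntegral.integral_congr (g := fun _ => 0)]
    · simp
    · intro x hx
      rw [Set.uIcc_of_le hs] at hx
      simp only [hb]
      rcases le_or_gt x (1 + ε / 2) with h | h
      · have e1 := hQ1 x (by linarith)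
        have e2 : a = 0 := by
          rw [← h1 x (by linarith)]
          exact h2 x hx.1
        rw [e1, e2]; simp
      · rw [hQ2 x h, hFS x hx.1]; simp
  · intro s hs
    unfold LL
    rw [hβd']
    rcases lt_or_ge s (1 + ε) with h | h
    · have e : b =ᶠ[𝓝 s] fun x => x⁻¹ * (a / (4 * (k + 1))) := by
        filter_upwards [Iio_mem_nhds h, Ioi_mem_nhds (show (3 / 4 : ℝ) < s by linarith)]
          with x hx hx2
        rw [hb]
        simp only
        rw [hQ1 x hx, st_one (le_of_lt hx2)]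
        have : x ≠ 0 := by
          intro h0; rw [h0, Set.mem_Ioi] at hx2; norm_num at hx2
        field_simp
      have hs0 : s ≠ 0 := by linarith
      have d : HasDerivAt b (-(s ^ 2)⁻¹ * (a / (4 * (k + 1)))) s :=
        ((hasDerivAt_inv hs0).mul_const _).congr_of_eventuallyEq e
      rw [d.deriv, e.eq_of_nhds, h1 s h.le]
      push_cast
      field_simp
      ring
    · have e : b =ᶠ[𝓝 s] fun x => F x / (4 * x * (x - 1) ^ (k + 1)) := by
        filter_upwards [Ioi_mem_nhds (show 1 + ε / 2 < s by linarith)] with x hx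
        rw [Set.mem_Ioi] at hx
        rw [hb]
        simp only
        rw [hQ2 x hx, st_one (by linarith)]
        have : x ≠ 0 := by linarith
        have : (x - 1) ^ (k + 1) ≠ 0 := pow_ne_zero _ (by linarith)
        field_simp
      have hs0 : s ≠ 0 := by linarith
      have hs1 : s - 1 ≠ 0 := by linarith
      have d1 : HasDerivAt (fun x : ℝ => (x - 1) ^ (k + 1)) ((k + 1 : ℝ) * (s - 1) ^ k) s := by
        have h := ((hasDerivAt_id s).sub_const 1).fun_pow (k + 1)
        refine h.congr_deriv ?_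
        simp
      have d2 : HasDerivAt (fun x : ℝ => 4 * x * (x - 1) ^ (k + 1))
          (4 * (s - 1) ^ (k + 1) + 4 * s * ((k + 1 : ℝ) * (s - 1) ^ k)) s := by
        have h := ((hasDerivAt_id s).const_mul 4).fun_mul d1
        refine h.congr_deriv ?_
        simp
      have d := ((hFd s).div d2 (mul_ne_zero (mul_ne_zero (by norm_num) hs0)
        (pow_ne_zero _ hs1))).congr_of_eventuallyEq e
      rw [d.deriv, e.eq_of_nhds]
      push_cast
      have : (s - 1) ^ k ≠ 0 := pow_ne_zero _ hs1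
      field_simp
      ring


/-! ### differentiation under the integral sign -/

theorem diff_int (μ : Measure (GU κ)) [IsHaarMeasure μ] (f f' : GU κ → ℝ → ℝ)
    (B : Set (GU κ)) (hB : IsCompact B) (hf : Continuous fun p : GU κ × ℝ => f p.1 p.2)
    (hf' : Continuous fun p : GU κ × ℝ => f' p.1 p.2)
    (hd : ∀ g t, HasDerivAt (f g) (f' g t) t)
    (h0 : ∀ g ∉ B, ∀ t : ℝ, |t| < 1 → f g t = 0) (C : ℝ)
    (hc : ∀ t : ℝ, |t| < 1 → ∫ g, f g t ∂μ = C) (t0 : ℝ) (ht0 : |t0| < 1) :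
    ∫ g, f' g t0 ∂μ = 0 := by
  have hnb : {t : ℝ | |t| < 1} ∈ 𝓝 t0 := (isOpen_lt continuous_abs continuous_const).mem_nhds ht0
  have h0' : ∀ g ∉ B, ∀ t : ℝ, |t| < 1 → f' g t = 0 := by
    intro g hg t ht
    have hnt : {t : ℝ | |t| < 1} ∈ 𝓝 t :=
      (isOpen_lt continuous_abs continuous_const).mem_nhds ht
    have e : f g =ᶠ[𝓝 t] fun _ => 0 := by
      filter_upwards [hnt] with x hx using h0 g hg x hx
    exact (hd g t).unique ((hasDerivAt_const t (0 : ℝ)).congr_of_eventuallyEq e)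
  obtain ⟨A, hA⟩ := ((hB.prod (isCompact_Icc (a := (-1 : ℝ)) (b := 1))).image hf'.norm).bddAbove
  have hbd : ∀ g ∈ B, ∀ t : ℝ, |t| < 1 → ‖f' g t‖ ≤ A := by
    intro g hg t ht
    exact hA ⟨(g, t), ⟨hg, (abs_lt.mp ht).1.le, (abs_lt.mp ht).2.le⟩, rfl⟩
  have hsec : ∀ t, Continuous fun g => f' g t := fun t =>
    hf'.comp (continuous_id.prodMk continuous_const)
  have hsec0 : ∀ t, Continuous fun g => f g t := fun t =>
    hf.comp (continuous_id.prodMk continuous_const)
  have key := hasDerivAt_integral_of_dominated_loc_of_deriv_le (μ := μ) (x₀ := t0)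
    (F := fun t g => f g t) (F' := fun t g => f' g t) (s := {t : ℝ | |t| < 1})
    (bound := B.indicator fun _ => A) hnb
    (Eventually.of_forall fun t => (hsec0 t).aestronglyMeasurable)
    ((hsec0 t0).integrable_of_hasCompactSupport (HasCompactSupport.intro hB fun g hg =>
      h0 g hg t0 ht0)) (hsec t0).aestronglyMeasurable
    (Eventually.of_forall fun g t ht => by
      by_cases hg : g ∈ B
      · rw [Set.indicator_of_mem hg]; exact hbd g hg t ht
      · rw [Set.indicator_of_notMem hg, h0' g hg t ht, norm_zero])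
    ((integrable_indicator_iff hB.measurableSet).mpr
      (integrableOn_const hB.measure_lt_top.ne))
    (Eventually.of_forall fun g t _ => hd g t)
  have e : (fun t => ∫ g, f g t ∂μ) =ᶠ[𝓝 t0] fun _ => C := by
    filter_upwards [hnb] with t ht using hc t ht
  exact key.2.unique ((hasDerivAt_const t0 C).congr_of_eventuallyEq e)

/-! ### the radial function along a boost -/

/-- the entries -/
noncomputable def qa (g : GU κ) : ℂ := g.M (Sum.inr ()) (Sum.inr ())

noncomputable def qb (p : κ × Bool) (g : GU κ) : ℂ := g.M (Sum.inr ()) (Sum.inl p.1) * wb p.2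

noncomputable def cP (p : κ × Bool) (g : GU κ) : ℝ := (‖qa g‖ ^ 2 - ‖qb p g‖ ^ 2) / 2

noncomputable def cQ (p : κ × Bool) (g : GU κ) : ℝ := (‖qa g‖ ^ 2 + ‖qb p g‖ ^ 2) / 2

noncomputable def cR (p : κ × Bool) (g : GU κ) : ℝ :=
  (qa g).re * (qb p g).re + (qa g).im * (qb p g).im

noncomputable def hh (p : κ × Bool) (g : GU κ) (t : ℝ) : ℝ :=
  cP p g + cQ p g * Real.cosh (2 * t) + cR p g * Real.sinh (2 * t)

noncomputable def hh1 (p : κ × Bool) (g : GU κ) (t : ℝ) : ℝ :=
  2 * cQ p g * Real.sinh (2 * t) + 2 * cR p g * Real.cosh (2 * t)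

noncomputable def hh2 (p : κ × Bool) (g : GU κ) (t : ℝ) : ℝ :=
  4 * cQ p g * Real.cosh (2 * t) + 4 * cR p g * Real.sinh (2 * t)

theorem continuous_entry (i j : κ ⊕ Unit) : Continuous fun g : GU κ => g.M i j :=
  (continuous_apply _).comp ((continuous_apply _).comp continuous_M)

theorem continuous_qa : Continuous (qa : GU κ → ℂ) := continuous_entry _ _

theorem continuous_qb (p : κ × Bool) : Continuous (qb p : GU κ → ℂ) :=
  (continuous_entry _ _).mul continuous_const

theorem continuous_cP (p : κ × Bool) : Continuous (cP p : GU κ → ℝ) :=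
  ((continuous_qa.norm.pow 2).sub ((continuous_qb p).norm.pow 2)).div_const 2

theorem continuous_cQ (p : κ × Bool) : Continuous (cQ p : GU κ → ℝ) :=
  ((continuous_qa.norm.pow 2).add ((continuous_qb p).norm.pow 2)).div_const 2

theorem continuous_cR (p : κ × Bool) : Continuous (cR p : GU κ → ℝ) :=
  ((Complex.continuous_re.comp continuous_qa).mul
    (Complex.continuous_re.comp (continuous_qb p))).add
  ((Complex.continuous_im.comp continuous_qa).mul
    (Complex.continuous_im.comp (continuous_qb p)))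

theorem hh_eq (p : κ × Bool) (g : GU κ) (t : ℝ) : c (g * bo t p) ^ 2 = hh p g t := by
  have e : (g * bo t p).M (Sum.inr ()) (Sum.inr ()) =
      qa g * (Real.cosh t : ℂ) + qb p g * (Real.sinh t : ℂ) := by
    have h1 := mulVec_e0 (g * bo t p).M (Sum.inr ())
    rw [← h1, M_mul, ← Matrix.mulVec_mulVec, bo_M, boM_e0, Matrix.mulVec_add,
      Matrix.mulVec_smul, Matrix.mulVec_smul, Pi.add_apply, Pi.smul_apply, Pi.smul_apply,
      mulVec_e0]
    have h2 : (g.M *ᵥ ej p.1) (Sum.inr ()) = g.M (Sum.inr ()) (Sum.inl p.1) := by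
      simp [ej]
    rw [h2, qa, qb, smul_eq_mul, smul_eq_mul]
    ring
  have h3 : c (g * bo t p) ^ 2 = ‖qa g * (Real.cosh t : ℂ) + qb p g * (Real.sinh t : ℂ)‖ ^ 2 := by
    rw [← e]; rfl
  rw [h3, hh, cP, cQ, cR, ← Complex.normSq_eq_norm_sq, ← Complex.normSq_eq_norm_sq,
    ← Complex.normSq_eq_norm_sq, Complex.normSq_apply, Complex.normSq_apply,
    Complex.normSq_apply, Real.cosh_two_mul, Real.sinh_two_mul]
  have h4 := Real.cosh_sq t
  simp only [Complex.add_re, Complex.add_im, Complex.mul_re, Complex.mul_im, Complex.ofReal_re,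
    Complex.ofReal_im, mul_zero, sub_zero, add_zero]
  linear_combination ((qa g).re * (qa g).re + (qa g).im * (qa g).im) * h4 / 2 -
    ((qb p g).re * (qb p g).re + (qb p g).im * (qb p g).im) * h4 / 2 + 0 * h4

theorem hh_zero (p : κ × Bool) (g : GU κ) : hh p g 0 = c g ^ 2 := by
  rw [← hh_eq, bo_zero, mul_one]

theorem hh_d (p : κ × Bool) (g : GU κ) (t : ℝ) : HasDerivAt (hh p g) (hh1 p g t) t := by
  have h2 : HasDerivAt (fun t : ℝ => 2 * t) 2 t := by
    simpa using (hasDerivAt_id t).const_mul (2 : ℝ)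
  have hc := (h2.cosh.const_mul (cQ p g))
  have hs := (h2.sinh.const_mul (cR p g))
  have h := (hc.const_add (cP p g)).fun_add hs
  refine h.congr_deriv ?_
  rw [hh1]; ring

theorem hh1_d (p : κ × Bool) (g : GU κ) (t : ℝ) : HasDerivAt (hh1 p g) (hh2 p g t) t := by
  have h2 : HasDerivAt (fun t : ℝ => 2 * t) 2 t := by
    simpa using (hasDerivAt_id t).const_mul (2 : ℝ)
  have hc := (h2.sinh.const_mul (2 * cQ p g))
  have hs := (h2.cosh.const_mul (2 * cR p g))
  have h := hc.fun_add hs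
  refine h.congr_deriv ?_
  rw [hh2]; ring

theorem continuous_hh (p : κ × Bool) : Continuous fun q : GU κ × ℝ => hh p q.1 q.2 := by
  have h1 := (continuous_cP p).comp (continuous_fst (X := GU κ) (Y := ℝ))
  have h2 := (continuous_cQ p).comp (continuous_fst (X := GU κ) (Y := ℝ))
  have h3 := (continuous_cR p).comp (continuous_fst (X := GU κ) (Y := ℝ))
  have h4 : Continuous fun q : GU κ × ℝ => 2 * q.2 := continuous_const.mul continuous_snd
  exact (h1.add (h2.mul (Real.continuous_cosh.comp h4))).add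
    (h3.mul (Real.continuous_sinh.comp h4))

theorem continuous_hh1 (p : κ × Bool) : Continuous fun q : GU κ × ℝ => hh1 p q.1 q.2 := by
  have h2 := (continuous_cQ p).comp (continuous_fst (X := GU κ) (Y := ℝ))
  have h3 := (continuous_cR p).comp (continuous_fst (X := GU κ) (Y := ℝ))
  have h4 : Continuous fun q : GU κ × ℝ => 2 * q.2 := continuous_const.mul continuous_snd
  exact ((continuous_const.mul h2).mul (Real.continuous_sinh.comp h4)).add
    ((continuous_const.mul h3).mul (Real.continuous_cosh.comp h4))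

theorem continuous_hh2 (p : κ × Bool) : Continuous fun q : GU κ × ℝ => hh2 p q.1 q.2 := by
  have h2 := (continuous_cQ p).comp (continuous_fst (X := GU κ) (Y := ℝ))
  have h3 := (continuous_cR p).comp (continuous_fst (X := GU κ) (Y := ℝ))
  have h4 : Continuous fun q : GU κ × ℝ => 2 * q.2 := continuous_const.mul continuous_snd
  exact ((continuous_const.mul h2).mul (Real.continuous_cosh.comp h4)).add
    ((continuous_const.mul h3).mul (Real.continuous_sinh.comp h4))

/-- elements moved far by a small boost -/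
theorem far (S : ℝ) (hS : 1 ≤ S) (p : κ × Bool) (g : GU κ)
    (hg : 2 * Real.cosh 1 * S < c g) (t : ℝ) (ht : |t| < 1) : S < hh p g t := by
  have h1 : c g ≤ 2 * c (g * bo t p) * Real.cosh t := by
    have h := c_mul (g * bo t p) (bo (-t) p)
    rw [mul_assoc, bo_add, add_neg_cancel, bo_zero, mul_one, c_bo, Real.cosh_neg] at h
    exact h
  have h2 : Real.cosh t ≤ Real.cosh 1 := by
    rw [Real.cosh_le_cosh, abs_one]; exact ht.le
  have h3 : 0 < Real.cosh 1 := Real.cosh_pos 1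
  have h4 := c_ge_one (g * bo t p)
  have h5 : c g ≤ 2 * c (g * bo t p) * Real.cosh 1 :=
    h1.trans (mul_le_mul_of_nonneg_left h2 (by linarith))
  have h6 : S < c (g * bo t p) := by
    by_contra hle
    have := mul_le_mul_of_nonneg_right (not_lt.mp hle) (by positivity : 0 ≤ 2 * Real.cosh 1)
    nlinarith
  rw [← hh_eq]
  nlinarith


theorem int_inv (μ : Measure (GU κ)) [IsHaarMeasure μ] [μ.IsMulRightInvariant] (β : ℝ → ℝ)
    (p : κ × Bool) (t : ℝ) : ∫ g, β (hh p g t) ∂μ = ∫ g, β (c g ^ 2) ∂μ := by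
  have h := integral_mul_right_eq_self (μ := μ) (fun g => β (c g ^ 2)) (bo t p)
  rw [← h]
  refine integral_congr_ae (Eventually.of_forall fun g => ?_)
  change β (hh p g t) = β (c (g * bo t p) ^ 2)
  rw [hh_eq]

/-- the hypotheses on the test function -/
structure C2 (β : ℝ → ℝ) (β1 β2 : ℝ → ℝ) (S : ℝ) : Prop where
  d1 : ∀ s, HasDerivAt β (β1 s) s
  d2 : ∀ s, HasDerivAt β1 (β2 s) s
  c1 : Continuous β1
  c2 : Continuous β2
  z0 : ∀ s, S ≤ s → β s = 0
  z1 : ∀ s, S < s → β1 s = 0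
  z2 : ∀ s, S < s → β2 s = 0

theorem first_zero (μ : Measure (GU κ)) [IsHaarMeasure μ] [μ.IsMulRightInvariant]
    {β β1 β2 : ℝ → ℝ} {S : ℝ} (h : C2 β β1 β2 S) (hS : 1 ≤ S) (p : κ × Bool) (t : ℝ)
    (ht : |t| < 1) : ∫ g, β1 (hh p g t) * hh1 p g t ∂μ = 0 := by
  have c0 : Continuous β := continuous_iff_continuousAt.mpr fun s => (h.d1 s).continuousAt
  have m0 : Continuous fun q : GU κ × ℝ => β (hh p q.1 q.2) := c0.comp (continuous_hh p)
  have m1 : Continuous fun q : GU κ × ℝ => β1 (hh p q.1 q.2) * hh1 p q.1 q.2 :=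
    (h.c1.comp (continuous_hh p)).mul (continuous_hh1 p)
  refine diff_int μ (fun g t => β (hh p g t)) (fun g t => β1 (hh p g t) * hh1 p g t)
    {g | c g ≤ 2 * Real.cosh 1 * S} (isCompact_c _) m0 m1 ?_ ?_ (∫ g, β (c g ^ 2) ∂μ) ?_ t ht
  · intro g t
    exact (h.d1 (hh p g t)).comp t (hh_d p g t)
  · intro g hg s hs
    exact h.z0 _ (far S hS p g (not_le.mp hg) s hs).le
  · intro s _
    exact int_inv μ β p s

theorem second_zero (μ : Measure (GU κ)) [IsHaarMeasure μ] [μ.IsMulRightInvariant]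
    {β β1 β2 : ℝ → ℝ} {S : ℝ} (h : C2 β β1 β2 S) (hS : 1 ≤ S) (p : κ × Bool) :
    ∫ g, ((β2 (hh p g 0) * hh1 p g 0) * hh1 p g 0 + β1 (hh p g 0) * hh2 p g 0) ∂μ = 0 := by
  have m1 : Continuous fun q : GU κ × ℝ => β1 (hh p q.1 q.2) * hh1 p q.1 q.2 :=
    (h.c1.comp (continuous_hh p)).mul (continuous_hh1 p)
  have m2 : Continuous fun q : GU κ × ℝ =>
      (β2 (hh p q.1 q.2) * hh1 p q.1 q.2) * hh1 p q.1 q.2 +
        β1 (hh p q.1 q.2) * hh2 p q.1 q.2 :=
    (((h.c2.comp (continuous_hh p)).mul (continuous_hh1 p)).mul (continuous_hh1 p)).add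
      ((h.c1.comp (continuous_hh p)).mul (continuous_hh2 p))
  refine diff_int μ (fun g t => β1 (hh p g t) * hh1 p g t)
    (fun g t => (β2 (hh p g t) * hh1 p g t) * hh1 p g t + β1 (hh p g t) * hh2 p g t)
    {g | c g ≤ 2 * Real.cosh 1 * S} (isCompact_c _) m1 m2 ?_ ?_ 0 ?_ 0 (by simp)
  · intro g t
    exact ((h.d2 (hh p g t)).comp t (hh_d p g t)).fun_mul (hh1_d p g t)
  · intro g hg s hs
    have e : β1 (hh p g s) = 0 := h.z1 _ (far S hS p g (not_le.mp hg) s hs)
    simp only [e, zero_mul]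
  · intro s hs
    exact first_zero μ h hS p s hs

theorem zero_int (μ : Measure (GU κ)) [IsHaarMeasure μ] [μ.IsMulRightInvariant]
    {β β1 β2 : ℝ → ℝ} {S : ℝ} (h : C2 β β1 β2 S) (hS : 1 ≤ S) (p : κ × Bool) :
    ∫ g, (β2 (c g ^ 2) * (2 * cR p g) ^ 2 + β1 (c g ^ 2) * (4 * cQ p g)) ∂μ = 0 := by
  rw [← second_zero μ h hS p]
  refine integral_congr_ae (Eventually.of_forall fun g => ?_)
  simp only [hh_zero, hh1, hh2, mul_zero, Real.sinh_zero, Real.cosh_zero, zero_add, mul_one,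
    add_zero]
  ring

theorem sum_R (g : GU κ) : ∑ p : κ × Bool, (2 * cR p g) ^ 2 = 4 * c g ^ 2 * (c g ^ 2 - 1) := by
  have hrow : ∑ k : κ, ‖g.M (Sum.inr ()) (Sum.inl k)‖ ^ 2 = c g ^ 2 - 1 :=
    HypAux.row_n g.M g.pres
  rw [Fintype.sum_prod_type, ← hrow, Finset.mul_sum]
  refine Finset.sum_congr rfl fun j _ => ?_
  rw [Fintype.sum_bool]
  have e1 : c g ^ 2 = (qa g).re * (qa g).re + (qa g).im * (qa g).im := by
    rw [← Complex.normSq_apply, Complex.normSq_eq_norm_sq]; rfl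
  rw [e1, ← Complex.normSq_eq_norm_sq, Complex.normSq_apply, cR, cR, qb, qb]
  simp [wb]
  ring

theorem sum_Q (g : GU κ) : ∑ p : κ × Bool, 4 * cQ p g =
    4 * (Fintype.card κ : ℝ) * c g ^ 2 + 4 * (c g ^ 2 - 1) := by
  have hrow : ∑ k : κ, ‖g.M (Sum.inr ()) (Sum.inl k)‖ ^ 2 = c g ^ 2 - 1 :=
    HypAux.row_n g.M g.pres
  have h1 : 4 * (Fintype.card κ : ℝ) * c g ^ 2 = ∑ _j : κ, 4 * c g ^ 2 := by
    rw [Finset.sum_const, Finset.card_univ, nsmul_eq_mul]; ring
  rw [Fintype.sum_prod_type, ← hrow, Finset.mul_sum, h1, ← Finset.sum_add_distrib]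
  refine Finset.sum_congr rfl fun j _ => ?_
  rw [Fintype.sum_bool]
  have e1 : c g = ‖qa g‖ := rfl
  have e2 : ∀ b, ‖qb (j, b) g‖ = ‖g.M (Sum.inr ()) (Sum.inl j)‖ := by
    intro b
    rw [qb, norm_mul]
    cases b <;> simp [wb]
  rw [cQ, cQ, e2, e2, e1]
  ring

theorem LL_int (μ : Measure (GU κ)) [IsHaarMeasure μ] [μ.IsMulRightInvariant] {β : ℝ → ℝ}
    (hβ : ContDiff ℝ 2 β) (S : ℝ) (hS : 1 ≤ S) (h0 : ∀ s, S ≤ s → β s = 0) :
    ∫ g, LL (Fintype.card κ) β (c g ^ 2) ∂μ = 0 := by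
  have hβ1 : ContDiff ℝ 1 (deriv β) := by
    rw [show (2 : WithTop ℕ∞) = 1 + 1 by norm_num, contDiff_succ_iff_deriv] at hβ
    exact hβ.2.2
  have d1 : ∀ s, HasDerivAt β (deriv β s) s := fun s =>
    (hβ.differentiable (by norm_num) s).hasDerivAt
  have d2 : ∀ s, HasDerivAt (deriv β) (deriv (deriv β) s) s := fun s =>
    (hβ1.differentiable (by norm_num) s).hasDerivAt
  have c1 : Continuous (deriv β) := hβ1.continuous
  have c2 : Continuous (deriv (deriv β)) := hβ1.continuous_deriv (by norm_num)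
  have h1 : ∀ s, S < s → deriv β s = 0 := by
    intro s hs
    have e : β =ᶠ[𝓝 s] fun _ => 0 := by
      filter_upwards [Ioi_mem_nhds hs] with x hx using h0 x (le_of_lt hx)
    rw [e.deriv_eq, deriv_const]
  have h2 : ∀ s, S < s → deriv (deriv β) s = 0 := by
    intro s hs
    have e : deriv β =ᶠ[𝓝 s] fun _ => 0 := by
      filter_upwards [Ioi_mem_nhds hs] with x hx using h1 x hx
    rw [e.deriv_eq, deriv_const]
  have hC : C2 β (deriv β) (deriv (deriv β)) S := ⟨d1, d2, c1, c2, h0, h1, h2⟩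
  have hcc : Continuous fun g : GU κ => c g ^ 2 := continuous_c.pow 2
  have s1 : ∀ p : κ × Bool, Integrable (fun g : GU κ =>
      deriv (deriv β) (c g ^ 2) * (2 * cR p g) ^ 2 + deriv β (c g ^ 2) * (4 * cQ p g)) μ := by
    intro p
    have s1 : Continuous fun g : GU κ =>
        deriv (deriv β) (c g ^ 2) * (2 * cR p g) ^ 2 + deriv β (c g ^ 2) * (4 * cQ p g) :=
      ((c2.comp hcc).mul ((continuous_const.mul (continuous_cR p)).pow 2)).add
        ((c1.comp hcc).mul (continuous_const.mul (continuous_cQ p)))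
    refine s1.integrable_of_hasCompactSupport ?_
    refine HasCompactSupport.intro (isCompact_c (κ := κ) S) fun g hg => ?_
    have h3 : S < c g := not_le.mp hg
    have h4 : S < c g ^ 2 := by nlinarith
    rw [h1 _ h4, h2 _ h4]; simp
  have e : (fun g : GU κ => LL (Fintype.card κ) β (c g ^ 2)) = fun g => ∑ p : κ × Bool,
      (deriv (deriv β) (c g ^ 2) * (2 * cR p g) ^ 2 + deriv β (c g ^ 2) * (4 * cQ p g)) := by
    funext g
    rw [Finset.sum_add_distrib, ← Finset.mul_sum, ← Finset.mul_sum, sum_R, sum_Q, LL]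
    ring
  rw [e, integral_finset_sum _ fun p _ => s1 p]
  exact Finset.sum_eq_zero fun p _ => zero_int μ hC hS p

/-- the class of test functions -/
structure Tst (φ : ℝ → ℝ) (ε S : ℝ) : Prop where
  cont : Continuous φ
  low : ∀ s ≤ 1 + ε, φ s = φ 1
  high : ∀ s, S ≤ s → φ s = 0

/-- the weight integral -/
noncomputable def W (k : ℕ) (φ : ℝ → ℝ) : ℝ := ∫ s in Set.Ioi (1 : ℝ), φ s * (s - 1) ^ k

theorem tst_zero {k : ℕ} (hk : Fintype.card κ = k + 1) (μ : Measure (GU κ)) [IsHaarMeasure μ]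
    [μ.IsMulRightInvariant] {φ : ℝ → ℝ} {ε S : ℝ} (hε : 0 < ε) (hS : 1 < S) (h : Tst φ ε S)
    (h3 : W k φ = 0) : ∫ g, φ (c g ^ 2) ∂μ = 0 := by
  obtain ⟨β, hβ, h0, hL⟩ := ode k φ h.cont ε S hε hS h.low h.high h3
  rw [← LL_int μ hβ S hS.le h0]
  refine integral_congr_ae (Eventually.of_forall fun g => ?_)
  change φ (c g ^ 2) = LL (Fintype.card κ) β (c g ^ 2)
  rw [hk, hL]
  have := c_ge_one g
  nlinarith

theorem int_W (k : ℕ) {φ : ℝ → ℝ} {S : ℝ} (hc : Continuous φ) (h2 : ∀ s, S ≤ s → φ s = 0) :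
    IntegrableOn (fun s => φ s * (s - 1) ^ k) (Set.Ioi (1 : ℝ)) := by
  have h1 : IntegrableOn (fun s => φ s * (s - 1) ^ k) (Set.Icc (1 : ℝ) S) :=
    (Continuous.continuousOn (by fun_prop)).integrableOn_compact isCompact_Icc
  refine h1.of_forall_diff_eq_zero measurableSet_Ioi fun x hx => ?_
  have : S ≤ x := by
    by_contra h
    exact hx.2 ⟨le_of_lt hx.1, (not_le.mp h).le⟩
  rw [h2 x this, zero_mul]

theorem int_T (μ : Measure (GU κ)) [IsHaarMeasure μ] {φ : ℝ → ℝ} {S : ℝ} (hS : 1 ≤ S)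
    (hc : Continuous φ) (h2 : ∀ s, S ≤ s → φ s = 0) :
    Integrable (fun g : GU κ => φ (c g ^ 2)) μ := by
  have h1 : Continuous fun g : GU κ => φ (c g ^ 2) := hc.comp (continuous_c.pow 2)
  refine h1.integrable_of_hasCompactSupport ?_
  refine HasCompactSupport.intro (isCompact_c (κ := κ) S) fun g hg => h2 _ ?_
  have h3 : S < c g := not_le.mp hg
  nlinarith

/-- the reference function -/
noncomputable def f0 (s : ℝ) : ℝ := max 0 (min 1 (3 - s))

theorem f0_cont : Continuous f0 := by unfold f0; fun_prop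

theorem f0_nonneg (s : ℝ) : 0 ≤ f0 s := le_max_left _ _

theorem f0_low {s : ℝ} (hs : s ≤ 2) : f0 s = 1 := by
  unfold f0
  rw [min_eq_left (by linarith), max_eq_right zero_le_one]

theorem f0_high {s : ℝ} (hs : 3 ≤ s) : f0 s = 0 := by
  unfold f0
  exact max_eq_left ((min_le_right _ _).trans (by linarith))

theorem W_pos (k : ℕ) : 0 < W k f0 := by
  have h1 : IntegrableOn (fun s => f0 s * (s - 1) ^ k) (Set.Ioi (1 : ℝ)) :=
    int_W k f0_cont fun s hs => f0_high hs
  have h2 : ∫ s in Set.Ioc (1 : ℝ) 2, f0 s * (s - 1) ^ k ≤ W k f0 := by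
    refine setIntegral_mono_set h1 ?_ (HasSubset.Subset.eventuallyLE Set.Ioc_subset_Ioi_self)
    filter_upwards [ae_restrict_mem measurableSet_Ioi] with s hs
    exact mul_nonneg (f0_nonneg s) (pow_nonneg (sub_nonneg.mpr (le_of_lt hs)) k)
  have h3 : ∫ s in Set.Ioc (1 : ℝ) 2, f0 s * (s - 1) ^ k = 1 / (k + 1) := by
    rw [← intervalIntegral.integral_of_le (by norm_num),
      F_lin k f0 1 1 (fun s hs => f0_low (by linarith)) 2 (by norm_num) (by norm_num)]
    norm_num
  rw [h3] at h2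
  exact lt_of_lt_of_le (by positivity) h2

theorem T_pos (μ : Measure (GU κ)) [IsHaarMeasure μ] : 0 < ∫ g : GU κ, f0 (c g ^ 2) ∂μ := by
  have h1 : Continuous fun g : GU κ => f0 (c g ^ 2) := f0_cont.comp (continuous_c.pow 2)
  refine h1.integral_pos_of_hasCompactSupport_nonneg_nonzero (x := 1) ?_
    (fun g => f0_nonneg _) ?_
  · refine HasCompactSupport.intro (isCompact_c (κ := κ) 3) fun g hg => f0_high ?_
    have h3 : 3 < c g := not_le.mp hg
    nlinarith
  · have e : c (1 : GU κ) = 1 := KU_c 1 (KU κ).one_mem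
    rw [e, f0_low (by norm_num)]
    exact one_ne_zero

theorem tst_eq {k : ℕ} (hk : Fintype.card κ = k + 1) (μ : Measure (GU κ)) [IsHaarMeasure μ]
    [μ.IsMulRightInvariant] {φ : ℝ → ℝ} {ε S : ℝ} (hε : 0 < ε) (hS : 1 < S) (h : Tst φ ε S) :
    ∫ g, φ (c g ^ 2) ∂μ = (∫ g : GU κ, f0 (c g ^ 2) ∂μ) / W k f0 * W k φ := by
  have hW := W_pos k
  set r := W k φ / W k f0 with hr
  have hψ : Tst (fun s => φ s - r * f0 s) (min ε 1) (max S 3) := by
    refine ⟨h.cont.sub (continuous_const.mul f0_cont), fun s hs => ?_, fun s hs => ?_⟩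
    · have h1 : s ≤ 1 + ε := hs.trans (by linarith [min_le_left ε 1])
      have h2 : s ≤ 2 := hs.trans (by linarith [min_le_right ε 1])
      rw [h.low s h1, f0_low h2, f0_low (by norm_num)]
    · have h1 : S ≤ s := (le_max_left _ _).trans hs
      have h2 : 3 ≤ s := (le_max_right _ _).trans hs
      rw [h.high s h1, f0_high h2]; ring
  have h0 : W k (fun s => φ s - r * f0 s) = 0 := by
    unfold W
    have e : (fun s : ℝ => (φ s - r * f0 s) * (s - 1) ^ k) =
        fun s => φ s * (s - 1) ^ k - r * (f0 s * (s - 1) ^ k) := by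
      funext s; ring
    rw [e, integral_sub (int_W k h.cont h.high)
      ((int_W k f0_cont fun s hs => f0_high hs).const_mul r), integral_const_mul]
    change W k φ - r * W k f0 = 0
    rw [hr]; field_simp; ring
  have h1 := tst_zero hk μ (lt_min hε one_pos) (lt_of_lt_of_le hS (le_max_left _ _)) hψ h0
  rw [integral_sub (int_T μ hS.le h.cont h.high)
    ((int_T μ (by norm_num) f0_cont fun s hs => f0_high hs).const_mul r),
    integral_const_mul] at h1
  have h2 : ∫ g, φ (c g ^ 2) ∂μ = r * ∫ g : GU κ, f0 (c g ^ 2) ∂μ := by linarith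
  rw [h2, hr]
  ring

theorem cutoff {β : ℝ → ℝ} (hs : HasCompactSupport β) :
    ∃ S : ℝ, 3 ≤ S ∧ ∀ s, S ≤ s → β s = 0 := by
  obtain ⟨b, hb⟩ := hs.isCompact.bddAbove
  refine ⟨max (b + 1) 3, le_max_right _ _, fun s h => ?_⟩
  refine image_eq_zero_of_notMem_tsupport fun hm => ?_
  have h1 := hb hm
  have h2 : b + 1 ≤ s := (le_max_left _ _).trans h
  linarith

end RvolAux

open RvolAux in
/-- radial integrals -/
theorem radial_vol {σ : G →* GU κ} (hL : Lat σ) (hκ : 0 < Fintype.card κ)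
    (μ : Measure (GU κ)) [IsHaarMeasure μ] :
    ∃ A : ℝ, 0 < A ∧ ∀ β : ℝ → ℝ, Continuous β → HasCompactSupport β →
      ∫ g, β (c g ^ 2) ∂μ =
        A * ∫ s in Set.Ioi (1 : ℝ), β s * (s - 1) ^ (Fintype.card κ - 1) := by
  haveI := right_inv hL μ
  obtain ⟨k, hk⟩ : ∃ k, Fintype.card κ = k + 1 := ⟨Fintype.card κ - 1, by omega⟩
  refine ⟨(∫ g : GU κ, f0 (c g ^ 2) ∂μ) / W k f0, div_pos (T_pos μ) (W_pos k),
    fun β hβ hs => ?_⟩
  rw [hk, Nat.add_sub_cancel]
  change _ = _ * W k β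
  set A := (∫ g : GU κ, f0 (c g ^ 2) ∂μ) / W k f0 with hA
  obtain ⟨S, hS3, hS⟩ := cutoff hs
  obtain ⟨M, hM⟩ := hs.exists_bound_of_continuous hβ
  have hS1 : (1 : ℝ) < S := by linarith
  obtain ⟨φ, hφ⟩ : ∃ φ : ℕ → ℝ → ℝ, φ = fun (j : ℕ) (s : ℝ) =>
      β (max s (1 + 1 / ((j : ℝ) + 1))) := ⟨_, rfl⟩
  have hj1 : ∀ j : ℕ, 1 / ((j : ℝ) + 1) ≤ 1 := fun j => by
    rw [div_le_one (by positivity)]
    have : (0 : ℝ) ≤ j := Nat.cast_nonneg j
    linarith
  have hTst : ∀ j, Tst (φ j) (1 / ((j : ℝ) + 1)) S := by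
    intro j
    have hp : 0 < 1 / ((j : ℝ) + 1) := by positivity
    have hq := hj1 j
    rw [hφ]
    refine ⟨hβ.comp (continuous_id.max continuous_const), fun s h => ?_, fun s h => ?_⟩
    · simp only
      rw [max_eq_right h, max_eq_right (by linarith)]
    · simp only
      rw [max_eq_left (by linarith)]
      exact hS s h
  have hlim : ∀ s, 1 ≤ s → Tendsto (fun j => φ j s) atTop (𝓝 (β s)) := by
    intro s h
    have h1 : Tendsto (fun j : ℕ => max s (1 + 1 / ((j : ℝ) + 1))) atTop (𝓝 s) := by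
      have h2 : Tendsto (fun j : ℕ => 1 + 1 / ((j : ℝ) + 1)) atTop (𝓝 (1 + 0)) :=
        tendsto_const_nhds.add tendsto_one_div_add_atTop_nhds_zero_nat
      have h3 := (tendsto_const_nhds (x := s)).max h2
      rwa [add_zero, max_eq_left h] at h3
    rw [hφ]
    exact (hβ.tendsto s).comp h1
  have hcc : Continuous fun g : GU κ => c g ^ 2 := continuous_c.pow 2
  have hT : Tendsto (fun j => ∫ g, φ j (c g ^ 2) ∂μ) atTop (𝓝 (∫ g, β (c g ^ 2) ∂μ)) := by
    refine tendsto_integral_of_dominated_convergence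
      ({g : GU κ | c g ≤ S}.indicator fun _ => M) (fun j =>
        ((hTst j).cont.comp hcc).aestronglyMeasurable) ?_ (fun j => ?_) ?_
    · exact (integrable_indicator_iff (isCompact_c S).measurableSet).mpr
        (integrableOn_const (isCompact_c S).measure_lt_top.ne)
    · refine Eventually.of_forall fun g => ?_
      by_cases hg : c g ≤ S
      · rw [Set.indicator_of_mem (show g ∈ {g : GU κ | c g ≤ S} from hg)]
        rw [hφ]
        exact hM _
      · rw [Set.indicator_of_notMem (show g ∉ {g : GU κ | c g ≤ S} from hg)]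
        rw [(hTst j).high, norm_zero]
        have := not_le.mp hg
        nlinarith
    · refine Eventually.of_forall fun g => hlim _ ?_
      have := c_ge_one g
      nlinarith
  have hWl : Tendsto (fun j => W k (φ j)) atTop (𝓝 (W k β)) := by
    unfold W
    refine tendsto_integral_of_dominated_convergence
      ((Set.Icc (1 : ℝ) S).indicator fun s => M * (s - 1) ^ k) (fun j =>
        (Continuous.aestronglyMeasurable (by have := (hTst j).cont; fun_prop))) ?_
      (fun j => ?_) ?_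
    · refine Integrable.restrict ?_
      refine (integrable_indicator_iff measurableSet_Icc).mpr ?_
      exact (Continuous.continuousOn (by fun_prop)).integrableOn_compact isCompact_Icc
    · filter_upwards [ae_restrict_mem measurableSet_Ioi] with s hs1
      rw [Set.mem_Ioi] at hs1
      by_cases h : s ≤ S
      · rw [Set.indicator_of_mem (show s ∈ Set.Icc (1 : ℝ) S from ⟨hs1.le, h⟩), norm_mul,
          Real.norm_of_nonneg (pow_nonneg (sub_nonneg.mpr hs1.le) k)]
        refine mul_le_mul_of_nonneg_right ?_ (pow_nonneg (sub_nonneg.mpr hs1.le) k)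
        rw [hφ]
        exact hM _
      · rw [Set.indicator_of_notMem (fun hm => h hm.2), (hTst j).high s (not_le.mp h).le,
          zero_mul, norm_zero]
    · filter_upwards [ae_restrict_mem measurableSet_Ioi] with s hs1
      rw [Set.mem_Ioi] at hs1
      exact (hlim s hs1.le).mul_const _
  have he : ∀ j, ∫ g, φ j (c g ^ 2) ∂μ = A * W k (φ j) := fun j =>
    tst_eq hk μ (by positivity) hS1 (hTst j)
  simp only [he] at hT
  exact tendsto_nhds_unique hT (hWl.const_mul A)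

namespace RvolAux

/-- plateau functions -/
noncomputable def uu (ρ s : ℝ) : ℝ := max 0 (min 1 (2 - |s - 1| / ρ))

theorem uu_cont (ρ : ℝ) : Continuous (uu ρ) := by unfold uu; fun_prop

theorem uu_nonneg (ρ s : ℝ) : 0 ≤ uu ρ s := le_max_left _ _

theorem uu_le (ρ s : ℝ) : uu ρ s ≤ 1 := max_le zero_le_one (min_le_left _ _)

theorem uu_one {ρ s : ℝ} (hρ : 0 < ρ) (h : |s - 1| ≤ ρ) : uu ρ s = 1 := by
  unfold uu
  have : |s - 1| / ρ ≤ 1 := (div_le_one hρ).mpr h
  rw [min_eq_left (by linarith), max_eq_right zero_le_one]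

theorem uu_zero {ρ s : ℝ} (hρ : 0 < ρ) (h : 2 * ρ ≤ |s - 1|) : uu ρ s = 0 := by
  unfold uu
  have : 2 ≤ |s - 1| / ρ := (le_div_iff₀ hρ).mpr h
  exact max_eq_left ((min_le_right _ _).trans (by linarith))

theorem uu_supp {ρ : ℝ} (hρ : 0 < ρ) : HasCompactSupport (uu ρ) := by
  refine HasCompactSupport.intro (isCompact_Icc (a := 1 - 2 * ρ) (b := 1 + 2 * ρ)) fun s hs => ?_
  refine uu_zero hρ ?_
  by_contra h
  have h1 := abs_lt.mp (not_le.mp h)
  exact hs ⟨by linarith [h1.1], by linarith [h1.2]⟩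

theorem uu_lower (k : ℕ) {ρ : ℝ} (hρ : 0 < ρ) : ρ ^ (k + 1) / (k + 1) ≤ W k (uu ρ) := by
  have h1 : IntegrableOn (fun s => uu ρ s * (s - 1) ^ k) (Set.Ioi (1 : ℝ)) :=
    int_W k (S := 1 + 2 * ρ) (uu_cont ρ) fun s hs => uu_zero hρ (by
      rw [abs_of_nonneg (by linarith)]; linarith)
  have h2 : ∫ s in Set.Ioc (1 : ℝ) (1 + ρ), uu ρ s * (s - 1) ^ k ≤ W k (uu ρ) := by
    refine setIntegral_mono_set h1 ?_ (HasSubset.Subset.eventuallyLE Set.Ioc_subset_Ioi_self)
    filter_upwards [ae_restrict_mem measurableSet_Ioi] with s hs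
    exact mul_nonneg (uu_nonneg ρ s) (pow_nonneg (sub_nonneg.mpr (le_of_lt hs)) k)
  have h3 : ∫ s in Set.Ioc (1 : ℝ) (1 + ρ), uu ρ s * (s - 1) ^ k = ρ ^ (k + 1) / (k + 1) := by
    have e : ∫ s in Set.Ioc (1 : ℝ) (1 + ρ), uu ρ s * (s - 1) ^ k =
        ∫ s in Set.Ioc (1 : ℝ) (1 + ρ), (fun _ => (1 : ℝ)) s * (s - 1) ^ k := by
      refine setIntegral_congr_fun measurableSet_Ioc fun s hs => ?_
      simp only
      rw [uu_one hρ (by rw [abs_of_nonneg (by linarith [hs.1])]; linarith [hs.2])]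
    rw [e, ← intervalIntegral.integral_of_le (by linarith),
      F_lin k (fun _ => 1) 1 ρ (fun s _ => rfl) (1 + ρ) (by linarith) le_rfl]
    rw [one_mul, add_sub_cancel_left]
  rwa [h3] at h2

theorem uu_upper (k : ℕ) {ρ : ℝ} (hρ : 0 < ρ) : W k (uu ρ) ≤ (2 * ρ) ^ (k + 1) / (k + 1) := by
  have h1 : IntegrableOn (fun s => uu ρ s * (s - 1) ^ k) (Set.Ioi (1 : ℝ)) :=
    int_W k (S := 1 + 2 * ρ) (uu_cont ρ) fun s hs => uu_zero hρ (by
      rw [abs_of_nonneg (by linarith)]; linarith)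
  have h2 : W k (uu ρ) = ∫ s in Set.Ioc (1 : ℝ) (1 + 2 * ρ), uu ρ s * (s - 1) ^ k := by
    refine setIntegral_eq_of_subset_of_forall_sdiff_eq_zero measurableSet_Ioi
      Set.Ioc_subset_Ioi_self fun s hs => ?_
    have h3 : 1 + 2 * ρ < s := by
      by_contra h
      exact hs.2 ⟨hs.1, not_lt.mp h⟩
    rw [uu_zero hρ (by rw [abs_of_nonneg (by linarith)]; linarith), zero_mul]
  rw [h2]
  have h4 : ∫ s in Set.Ioc (1 : ℝ) (1 + 2 * ρ), (fun _ => (1 : ℝ)) s * (s - 1) ^ k =
      (2 * ρ) ^ (k + 1) / (k + 1) := by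
    rw [← intervalIntegral.integral_of_le (by linarith),
      F_lin k (fun _ => 1) 1 (2 * ρ) (fun s _ => rfl) (1 + 2 * ρ) (by linarith) le_rfl]
    rw [one_mul, add_sub_cancel_left]
  rw [← h4]
  refine setIntegral_mono_on (h1.mono_set Set.Ioc_subset_Ioi_self) ?_ measurableSet_Ioc
    fun s hs => ?_
  · exact ((Continuous.continuousOn (by fun_prop)).integrableOn_compact
      (isCompact_Icc (a := (1 : ℝ)) (b := 1 + 2 * ρ))).mono_set Set.Ioc_subset_Icc_self
  · exact mul_le_mul_of_nonneg_right (uu_le ρ s) (pow_nonneg (by linarith [hs.1]) k)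

theorem isCompact_sq (S : ℝ) : IsCompact {g : GU κ | c g ^ 2 ≤ S} := by
  refine (isCompact_c (κ := κ) (max 1 S)).of_isClosed_subset
    (isClosed_le (continuous_c.pow 2) continuous_const) fun g hg => ?_
  have h1 : c g ^ 2 ≤ S := hg
  have h2 := c_ge_one g
  have h3 : c g ≤ S := by nlinarith
  exact h3.trans (le_max_right _ _)

end RvolAux

open RvolAux in
/-- doubling -/
theorem doubling {σ : G →* GU κ} (hL : Lat σ) (hκ : 0 < Fintype.card κ)
    (μ : Measure (GU κ)) [IsHaarMeasure μ] : ∃ A : ℝ≥0∞, A ≠ ⊤ ∧ ∀ r : ℝ, 0 < r → r ≤ 1 →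
      μ {g | c g ^ 2 ≤ 1 + 16 * r} ≤ A * μ {g | c g ^ 2 ≤ 1 + r} := by
  obtain ⟨A, hA, hrad⟩ := radial_vol hL hκ μ
  obtain ⟨k, hk⟩ : ∃ k, Fintype.card κ = k + 1 := ⟨Fintype.card κ - 1, by omega⟩
  rw [hk, Nat.add_sub_cancel] at hrad
  have hT : ∀ ρ, 0 < ρ → ∫ g, uu ρ (c g ^ 2) ∂μ = A * W k (uu ρ) := fun ρ hρ =>
    hrad _ (uu_cont ρ) (uu_supp hρ)
  have hI : ∀ ρ, 0 < ρ → Integrable (fun g : GU κ => uu ρ (c g ^ 2)) μ := fun ρ hρ =>
    int_T μ (S := 1 + 2 * ρ) (by linarith) (uu_cont ρ) fun s hs => uu_zero hρ (by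
      rw [abs_of_nonneg (by linarith)]; linarith)
  refine ⟨ENNReal.ofReal (64 ^ (k + 1)), ENNReal.ofReal_ne_top, fun r hr _ => ?_⟩
  have h1 : (μ {g : GU κ | c g ^ 2 ≤ 1 + 16 * r}).toReal ≤ ∫ g, uu (16 * r) (c g ^ 2) ∂μ := by
    have e : (μ {g : GU κ | c g ^ 2 ≤ 1 + 16 * r}).toReal =
        ∫ g, ({g : GU κ | c g ^ 2 ≤ 1 + 16 * r}.indicator fun _ => (1 : ℝ)) g ∂μ := by
      rw [integral_indicator (isCompact_sq _).measurableSet, setIntegral_const, smul_eq_mul,
        mul_one]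
      rfl
    rw [e]
    refine integral_mono ((integrable_indicator_iff (isCompact_sq _).measurableSet).mpr
      (integrableOn_const (isCompact_sq _).measure_lt_top.ne)) (hI _ (by positivity))
      fun g => ?_
    by_cases hg : c g ^ 2 ≤ 1 + 16 * r
    · rw [Set.indicator_of_mem (show g ∈ {g : GU κ | c g ^ 2 ≤ 1 + 16 * r} from hg)]
      have h2 := c_ge_one g
      rw [uu_one (by positivity) (by rw [abs_of_nonneg (by nlinarith)]; linarith)]
    · rw [Set.indicator_of_notMem (show g ∉ {g : GU κ | c g ^ 2 ≤ 1 + 16 * r} from hg)]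
      exact uu_nonneg _ _
  have h2 : ∫ g, uu (r / 2) (c g ^ 2) ∂μ ≤ (μ {g : GU κ | c g ^ 2 ≤ 1 + r}).toReal := by
    have e : (μ {g : GU κ | c g ^ 2 ≤ 1 + r}).toReal =
        ∫ g, ({g : GU κ | c g ^ 2 ≤ 1 + r}.indicator fun _ => (1 : ℝ)) g ∂μ := by
      rw [integral_indicator (isCompact_sq _).measurableSet, setIntegral_const, smul_eq_mul,
        mul_one]
      rfl
    rw [e]
    refine integral_mono (hI _ (by positivity))
      ((integrable_indicator_iff (isCompact_sq _).measurableSet).mpr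
      (integrableOn_const (isCompact_sq _).measure_lt_top.ne)) fun g => ?_
    by_cases hg : c g ^ 2 ≤ 1 + r
    · rw [Set.indicator_of_mem (show g ∈ {g : GU κ | c g ^ 2 ≤ 1 + r} from hg)]
      exact uu_le _ _
    · rw [Set.indicator_of_notMem (show g ∉ {g : GU κ | c g ^ 2 ≤ 1 + r} from hg)]
      have h3 := not_le.mp hg
      rw [uu_zero (by positivity) (by rw [abs_of_nonneg (by linarith)]; linarith)]
  have h3 : (μ {g : GU κ | c g ^ 2 ≤ 1 + 16 * r}).toReal ≤
      64 ^ (k + 1) * (μ {g : GU κ | c g ^ 2 ≤ 1 + r}).toReal := by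
    rw [hT _ (by positivity)] at h1 h2
    have h4 := uu_upper k (show 0 < 16 * r by positivity)
    have h5 := uu_lower k (show 0 < r / 2 by positivity)
    calc (μ {g : GU κ | c g ^ 2 ≤ 1 + 16 * r}).toReal ≤ A * W k (uu (16 * r)) := h1
      _ ≤ A * ((2 * (16 * r)) ^ (k + 1) / (k + 1)) := mul_le_mul_of_nonneg_left h4 hA.le
      _ = 64 ^ (k + 1) * (A * ((r / 2) ^ (k + 1) / (k + 1))) := by
          have e : (2 * (16 * r)) = 64 * (r / 2) := by ring
          rw [e, mul_pow]; ring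
      _ ≤ 64 ^ (k + 1) * (A * W k (uu (r / 2))) :=
          mul_le_mul_of_nonneg_left (mul_le_mul_of_nonneg_left h5 hA.le) (by positivity)
      _ ≤ _ := mul_le_mul_of_nonneg_left h2 (by positivity)
  have f1 : μ {g : GU κ | c g ^ 2 ≤ 1 + 16 * r} ≠ ⊤ := (isCompact_sq _).measure_lt_top.ne
  have f2 : μ {g : GU κ | c g ^ 2 ≤ 1 + r} ≠ ⊤ := (isCompact_sq _).measure_lt_top.ne
  rw [← ENNReal.ofReal_toReal f1, ← ENNReal.ofReal_toReal f2,
    ← ENNReal.ofReal_mul (by positivity)]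
  exact ENNReal.ofReal_le_ofReal h3

end Pool.Agent.MPd01a95
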