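import Mathlib
import Pool.Agent.Lib.MP_d01a95_gt.Hyp
import Pool.Agent.Lib.MP_d01a95_gt_H.HDefs
import Pool.Agent.Lib.MP_d01a95_gt_H.Unimod
import Pool.Agent.Lib.MP_d01a95_gt_H.Basic
import Pool.Agent.Lib.MP_d01a95_gt_H.Cpt
import Pool.Agent.Lib.MP_d01a95_gt_H.Disp
import Pool.Agent.Lib.MP_d01a95_gt_H.Rvol

set_option autoImplicit false
set_option linter.all false

open Matrix Filter Topology MeasureTheory Measure
open scoped ENNReal NNReal

namespace Pool.Agent.MPd01a95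

open GU

variable {κ n ι : Type} [Fintype κ] [DecidableEq κ] [Fintype n] [DecidableEq n]
  [Fintype ι] [DecidableEq ι] {G : Type} [Group G]


namespace LdispAux

theorem c_mul_sq {r : ℝ} (hr : 0 ≤ r) (hr1 : r ≤ 1) (z x : GU κ) (hz : c z ^ 2 ≤ 1 + r)
    (hx : c x ^ 2 ≤ 1 + r) : c (z⁻¹ * x) ^ 2 ≤ 1 + 16 * r := by
  have h1 := c_mul_le z⁻¹ x
  rw [c_inv] at h1
  have hz1 := c_ge_one z
  have hx1 := c_ge_one x
  have hw1 := c_ge_one (z⁻¹ * x)
  have h2 : c z * c x ≤ 1 + r := by nlinarith [sq_nonneg (c z - c x)]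
  have h3 : Real.sqrt (c z ^ 2 - 1) * Real.sqrt (c x ^ 2 - 1) ≤ r := by
    have h4 : Real.sqrt (c z ^ 2 - 1) ≤ Real.sqrt r := Real.sqrt_le_sqrt (by linarith)
    have h5 : Real.sqrt (c x ^ 2 - 1) ≤ Real.sqrt r := Real.sqrt_le_sqrt (by linarith)
    calc _ ≤ Real.sqrt r * Real.sqrt r := mul_le_mul h4 h5 (Real.sqrt_nonneg _) (Real.sqrt_nonneg _)
      _ = r := Real.mul_self_sqrt hr
  have h4 : c (z⁻¹ * x) ≤ 1 + 2 * r := by linarith
  nlinarith

/-- the displacement energy of a small element -/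
theorem disp_small {σ : G →* GU κ} (hL : Lat σ) (hκ : 0 < Fintype.card κ)
    (μ : Measure (GU κ)) [IsHaarMeasure μ] {χ : GU κ → ℝ} (hχ : Cut σ χ)
    (ρ : G →* Matrix n n ℝ) {F : GU κ → PD n} (hF : EqF σ ρ F) (hK : Kinv μ F) {r : ℝ}
    (hr : 0 ≤ r) (x : GU κ) (hx : c x ^ 2 ≤ 1 + r) :
    eE μ (fun g => ENNReal.ofReal (χ g)) F x ≤ ENNReal.ofReal r * EE μ χ F := by
  have hx1 := c_ge_one x
  have h0 : 0 ≤ Real.arcosh (c x) := Real.arcosh_nonneg hx1
  have h1 := disp_quad hL hκ μ hχ ρ hF hK h0 x (Real.cosh_arcosh hx1).ge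
  refine h1.trans ?_
  gcongr
  have h2 : Real.arcosh (c x) ≤ Real.sinh (Real.arcosh (c x)) := Real.self_le_sinh_iff.mpr h0
  have h3 := Real.cosh_sq' (Real.arcosh (c x))
  rw [Real.cosh_arcosh hx1] at h3
  nlinarith

end LdispAux

open LdispAux

/-- module LDISP: displacement under small left translations -/
theorem left_disp {σ : G →* GU κ} (hL : Lat σ) (hκ : 0 < Fintype.card κ)
    (μ : Measure (GU κ)) [IsHaarMeasure μ] {χ : GU κ → ℝ} (hχ : Cut σ χ)
    (ρ : G →* Matrix n n ℝ) {F : GU κ → PD n} (hF : EqF σ ρ F) (hK : Kinv μ F)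
    (hE : EE μ χ F ≠ ⊤) (R : ℝ) : ∃ A : ℝ≥0∞, A ≠ ⊤ ∧ ∃ δ > 0, ∀ (y : GU κ) (ε : ℝ),
      0 < ε → ε ≤ δ → (∀ i j, ‖y.M i j - (1 : Matrix (κ ⊕ Unit) (κ ⊕ Unit) ℂ) i j‖ ≤ ε) →
      ∫⁻ g in {g | c g ≤ R}, edist (F g) (F (y * g)) ^ 2 ∂μ ≤ A * ENNReal.ofReal (ε ^ 2) := by
  haveI := hL.countable
  haveI := right_inv hL μ
  haveI := inv_inv' hL μ
  obtain ⟨N, hN, hN2⟩ := cpt_bd hL μ hχ R
  obtain ⟨N', hN', hN2'⟩ := cpt_bd hL μ hχ (4 * R)
  obtain ⟨D, hD, hD2⟩ := doubling hL hκ μ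
  obtain ⟨C, hC, hC2⟩ := conj_small κ R
  have hFm := hF.1
  set χ' : GU κ → ℝ≥0∞ := fun g => ENNReal.ofReal (χ g) with hχ'
  have hEtop : N * (ENNReal.ofReal C * EE μ χ F) ≠ ⊤ :=
    ENNReal.mul_ne_top hN (ENNReal.mul_ne_top ENNReal.ofReal_ne_top hE)
  refine ⟨2 * (N * (ENNReal.ofReal C * EE μ χ F)) +
    2 * (D * (N' * (ENNReal.ofReal (16 * C) * EE μ χ F))), ?_, min 1 (Real.sqrt C)⁻¹, ?_, ?_⟩
  · refine ENNReal.add_ne_top.mpr ⟨ENNReal.mul_ne_top (by norm_num) hEtop, ?_⟩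
    exact ENNReal.mul_ne_top (by norm_num) (ENNReal.mul_ne_top hD (ENNReal.mul_ne_top hN'
      (ENNReal.mul_ne_top ENNReal.ofReal_ne_top hE)))
  · exact lt_min one_pos (inv_pos.mpr (Real.sqrt_pos.mpr hC))
  intro y ε hε hεδ hy
  have hε1 : ε ≤ 1 := hεδ.trans (min_le_left _ _)
  have hε2 : ε ≤ (Real.sqrt C)⁻¹ := hεδ.trans (min_le_right _ _)
  set r : ℝ := C * ε ^ 2 with hr
  have hr0 : 0 < r := by positivity
  have hr1 : r ≤ 1 := by
    have h1 : Real.sqrt C * ε ≤ 1 := by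
      calc Real.sqrt C * ε ≤ Real.sqrt C * (Real.sqrt C)⁻¹ :=
            mul_le_mul_of_nonneg_left hε2 (Real.sqrt_nonneg _)
        _ = 1 := mul_inv_cancel₀ (Real.sqrt_pos.mpr hC).ne'
    have h2 : (Real.sqrt C * ε) ^ 2 ≤ 1 := by
      have : 0 ≤ Real.sqrt C * ε := by positivity
      nlinarith
    rw [mul_pow, Real.sq_sqrt hC.le] at h2
    exact h2
  set B : Set (GU κ) := {g | c g ≤ R} with hB
  set B' : Set (GU κ) := {g | c g ≤ 4 * R} with hB'
  set Z : Set (GU κ) := {g | c g ^ 2 ≤ 1 + r} with hZ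
  set W : Set (GU κ) := {g | c g ^ 2 ≤ 1 + 16 * r} with hW
  have hBm : MeasurableSet B := (isCompact_c R).measurableSet
  have hBm' : MeasurableSet B' := (isCompact_c (4 * R)).measurableSet
  have hZm : MeasurableSet Z := measurableSet_le (continuous_c.measurable.pow_const 2)
    measurable_const
  have hWm : MeasurableSet W := measurableSet_le (continuous_c.measurable.pow_const 2)
    measurable_const
  have hcy : c y ≤ 2 := by
    have h1 := hy (Sum.inr ()) (Sum.inr ())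
    rw [Matrix.one_apply_eq] at h1
    have h2 := norm_add_le (y.M (Sum.inr ()) (Sum.inr ()) - 1) 1
    rw [sub_add_cancel, norm_one] at h2
    change ‖y.M (Sum.inr ()) (Sum.inr ())‖ ≤ 2
    linarith
  have hyB : ∀ g ∈ B, y * g ∈ B' := by
    intro g hg
    have h1 := c_mul y g
    have h2 := c_ge_one g
    have h3 : c g ≤ R := hg
    change c (y * g) ≤ 4 * R
    have h4 : 2 * c y * c g ≤ 4 * c g := mul_le_mul_of_nonneg_right (by linarith) (by linarith)
    linarith
  -- measure of the small ball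
  have hZ0 : μ Z ≠ 0 := by
    have hint : (interior Z).Nonempty := by
      refine ⟨1, mem_interior.mpr ⟨{g | c g ^ 2 < 1 + r}, fun g (hg : c g ^ 2 < 1 + r) =>
        (show c g ^ 2 ≤ 1 + r from hg.le),
        isOpen_lt (continuous_c.pow 2) continuous_const, ?_⟩⟩
      change c (1 : GU κ) ^ 2 < 1 + r
      rw [KU_c 1 (KU κ).one_mem]; linarith
    exact (Measure.measure_pos_of_nonempty_interior _ hint).ne'
  have hZtop : μ Z ≠ ⊤ := by
    refine ((measure_mono ?_).trans_lt (isCompact_c (κ := κ) 2).measure_lt_top).ne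
    intro g hg
    have h1 : c g ^ 2 ≤ 1 + r := hg
    have h2 := c_ge_one g
    change c g ≤ 2
    nlinarith
  have hj : Measurable fun p : GU κ × GU κ => edist (F p.1) (F (p.1 * p.2)) ^ 2 :=
    ((hFm.comp measurable_fst).edist (hFm.comp (measurable_fst.mul measurable_snd))).pow_const 2
  have hinvx : ∀ x : GU κ, ∀ γ g, edist (F (σ γ * g)) (F (σ γ * g * x)) ^ 2 =
      edist (F g) (F (g * x)) ^ 2 := by
    intro x γ g
    rw [mul_assoc, hF.2, hF.2, (ac_isom ρ γ).edist_eq]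
  -- first term
  have first : ∫⁻ g in B, ∫⁻ z in Z, edist (F g) (F (g * z)) ^ 2 ∂μ ∂μ ≤
      μ Z * (N * (ENNReal.ofReal r * EE μ χ F)) := by
    rw [lintegral_lintegral_swap hj.aemeasurable]
    calc ∫⁻ z in Z, ∫⁻ g in B, edist (F g) (F (g * z)) ^ 2 ∂μ ∂μ
        ≤ ∫⁻ z in Z, N * (ENNReal.ofReal r * EE μ χ F) ∂μ := by
          refine lintegral_mono_ae ((ae_restrict_mem hZm).mono fun z hz => ?_)
          refine (hN2 (fun g => edist (F g) (F (g * z)) ^ 2)
            ((hFm.edist (hFm.comp (measurable_mul_const z))).pow_const 2) (hinvx z)).trans ?_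
          gcongr
          exact disp_small hL hκ μ hχ ρ hF hK hr0.le z hz
      _ = μ Z * (N * (ENNReal.ofReal r * EE μ χ F)) := by
          rw [lintegral_const, Measure.restrict_apply MeasurableSet.univ, Set.univ_inter, mul_comm]
  -- second term
  have hj2 : Measurable fun p : GU κ × GU κ => edist (F (p.1 * p.2⁻¹)) (F p.1) ^ 2 :=
    ((hFm.comp (measurable_fst.mul measurable_snd.inv)).edist
      (hFm.comp measurable_fst)).pow_const 2
  have sub1 : ∀ g ∈ B, ∫⁻ z in Z, edist (F (g * z)) (F (y * g)) ^ 2 ∂μ ≤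
      ∫⁻ w in W, edist (F (y * g * w⁻¹)) (F (y * g)) ^ 2 ∂μ := by
    intro g hg
    set x := g⁻¹ * y * g with hx
    have hxr : c x ^ 2 ≤ 1 + r := hC2 g y ε hε hg hy
    rw [← lintegral_indicator hZm, ← lintegral_indicator hWm,
      ← lintegral_mul_left_eq_self (μ := μ) (Z.indicator fun z => edist (F (g * z)) (F (y * g)) ^ 2) x,
      ← lintegral_inv_eq_self (μ := μ)]
    apply lintegral_mono
    intro w
    simp only
    by_cases hw : x * w⁻¹ ∈ Z
    · have hwW : w ∈ W := by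
        have h1 := c_mul_sq hr0.le hr1 (x * w⁻¹) x hw hxr
        have e : (x * w⁻¹)⁻¹ * x = w := by group
        rw [e] at h1
        exact h1
      rw [Set.indicator_of_mem hw, Set.indicator_of_mem hwW]
      have e : g * (x * w⁻¹) = y * g * w⁻¹ := by rw [hx]; group
      rw [e]
    · rw [Set.indicator_of_notMem hw]; exact bot_le
  have second : ∫⁻ g in B, ∫⁻ z in Z, edist (F (g * z)) (F (y * g)) ^ 2 ∂μ ∂μ ≤
      μ Z * (D * (N' * (ENNReal.ofReal (16 * r) * EE μ χ F))) := by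
    have hK2 : Measurable fun g' : GU κ => ∫⁻ w in W, edist (F (g' * w⁻¹)) (F g') ^ 2 ∂μ :=
      hj2.lintegral_prod_right'
    calc ∫⁻ g in B, ∫⁻ z in Z, edist (F (g * z)) (F (y * g)) ^ 2 ∂μ ∂μ
        ≤ ∫⁻ g in B, ∫⁻ w in W, edist (F (y * g * w⁻¹)) (F (y * g)) ^ 2 ∂μ ∂μ :=
          lintegral_mono_ae ((ae_restrict_mem hBm).mono sub1)
      _ ≤ ∫⁻ g' in B', ∫⁻ w in W, edist (F (g' * w⁻¹)) (F g') ^ 2 ∂μ ∂μ := by
          rw [← lintegral_indicator hBm, ← lintegral_indicator hBm']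
          refine le_trans ?_ (lintegral_mul_left_eq_self (μ := μ) (B'.indicator
            fun g' => ∫⁻ w in W, edist (F (g' * w⁻¹)) (F g') ^ 2 ∂μ) y).le
          apply lintegral_mono
          intro g
          by_cases hg : g ∈ B
          · simp only [Set.indicator_of_mem hg, Set.indicator_of_mem (hyB g hg)]
            exact le_rfl
          · simp only [Set.indicator_of_notMem hg]
            exact bot_le
      _ = ∫⁻ w in W, ∫⁻ g' in B', edist (F (g' * w⁻¹)) (F g') ^ 2 ∂μ ∂μ :=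
          lintegral_lintegral_swap hj2.aemeasurable
      _ ≤ ∫⁻ w in W, N' * (ENNReal.ofReal (16 * r) * EE μ χ F) ∂μ := by
          refine lintegral_mono_ae ((ae_restrict_mem hWm).mono fun w hw => ?_)
          have h1 : ∀ g', edist (F (g' * w⁻¹)) (F g') ^ 2 = edist (F g') (F (g' * w⁻¹)) ^ 2 :=
            fun g' => by rw [edist_comm]
          simp only [h1]
          refine (hN2' (fun g => edist (F g) (F (g * w⁻¹)) ^ 2)
            ((hFm.edist (hFm.comp (measurable_mul_const w⁻¹))).pow_const 2) (hinvx w⁻¹)).trans ?_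
          gcongr
          refine disp_small hL hκ μ hχ ρ hF hK (by positivity) w⁻¹ ?_
          rw [c_inv]
          exact hw
      _ = μ W * (N' * (ENNReal.ofReal (16 * r) * EE μ χ F)) := by
          rw [lintegral_const, Measure.restrict_apply MeasurableSet.univ, Set.univ_inter, mul_comm]
      _ ≤ (D * μ Z) * (N' * (ENNReal.ofReal (16 * r) * EE μ χ F)) := by
          gcongr
          exact hD2 r hr0 hr1
      _ = _ := by ring
  -- assembly
  have e1 : μ Z * ∫⁻ g in B, edist (F g) (F (y * g)) ^ 2 ∂μ =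
      ∫⁻ g in B, ∫⁻ z in Z, edist (F g) (F (y * g)) ^ 2 ∂μ ∂μ := by
    simp only [lintegral_const, Measure.restrict_apply MeasurableSet.univ, Set.univ_inter]
    rw [lintegral_mul_const' _ _ hZtop, mul_comm]
  have key : μ Z * ∫⁻ g in B, edist (F g) (F (y * g)) ^ 2 ∂μ ≤
      μ Z * (2 * (N * (ENNReal.ofReal r * EE μ χ F)) +
        2 * (D * (N' * (ENNReal.ofReal (16 * r) * EE μ χ F)))) := by
    rw [e1]
    calc ∫⁻ g in B, ∫⁻ z in Z, edist (F g) (F (y * g)) ^ 2 ∂μ ∂μ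
        ≤ ∫⁻ g in B, (2 * ∫⁻ z in Z, edist (F g) (F (g * z)) ^ 2 ∂μ +
            2 * ∫⁻ z in Z, edist (F (g * z)) (F (y * g)) ^ 2 ∂μ) ∂μ := by
          apply lintegral_mono
          intro g
          simp only
          rw [← lintegral_const_mul' _ _ (by norm_num), ← lintegral_const_mul' _ _ (by norm_num),
            ← lintegral_add_left]
          · apply lintegral_mono
            intro z
            exact sq_tri _ _ _
          · exact (hj.comp (measurable_const.prodMk measurable_id)).const_mul 2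
      _ = 2 * ∫⁻ g in B, ∫⁻ z in Z, edist (F g) (F (g * z)) ^ 2 ∂μ ∂μ +
            2 * ∫⁻ g in B, ∫⁻ z in Z, edist (F (g * z)) (F (y * g)) ^ 2 ∂μ ∂μ := by
          rw [lintegral_add_left, lintegral_const_mul' _ _ (by norm_num),
            lintegral_const_mul' _ _ (by norm_num)]
          exact (hj.lintegral_prod_right').const_mul 2
      _ ≤ 2 * (μ Z * (N * (ENNReal.ofReal r * EE μ χ F))) +
            2 * (μ Z * (D * (N' * (ENNReal.ofReal (16 * r) * EE μ χ F)))) := by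
          gcongr
      _ = _ := by ring
  have key2 := (ENNReal.mul_le_mul_iff_right hZ0 hZtop).mp key
  refine key2.trans (le_of_eq ?_)
  rw [hr, ENNReal.ofReal_mul hC.le, ← mul_assoc (16 : ℝ), ENNReal.ofReal_mul (by positivity)]
  ring

end Pool.Agent.MPd01a95
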