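import Mathlib
import Pool.Agent.Lib.MP_d01a95_gt_H.HDefs
import Pool.Agent.Lib.MP_d01a95_gt_H.Unimod

set_option autoImplicit false
set_option linter.all false

open Matrix Filter Topology MeasureTheory Measure
open scoped ENNReal NNReal ContDiff

namespace Pool.Agent.MPd01a95

open GU

variable {κ n ι α : Type} [Fintype κ] [DecidableEq κ] [Fintype n] [DecidableEq n]
  [Fintype ι] [DecidableEq ι] [Fintype α] [DecidableEq α] {G : Type} [Group G]

namespace LiprAux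

/-! ### entries of positive definite matrices and the distance -/

theorem entry_bd (A B : PD n) (i j : n) :
    |B.M i j - A.M i j| ≤ (A.M i i + A.M j j) / 2 * (dist A B * Real.exp (dist A B)) := by
  obtain ⟨g, d, hg, hd, h1, h2⟩ := PDAux.simul A.pos B.pos
  obtain ⟨P, hP⟩ : ∃ P, P = g⁻¹ := ⟨_, rfl⟩
  have hPg : g * P = 1 := by rw [hP, Matrix.mul_nonsing_inv _ hg]
  have hC : ∀ C D : Matrix n n ℝ, gᵀ * C * g = D → C = Pᵀ * D * P := by
    intro C D h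
    calc C = (g * P)ᵀ * C * (g * P) := by rw [hPg]; simp
      _ = Pᵀ * (gᵀ * C * g) * P := by rw [transpose_mul]; simp only [Matrix.mul_assoc]
      _ = Pᵀ * D * P := by rw [h]
  have hA : A.M = Pᵀ * P := by
    have := hC _ _ h1
    rwa [Matrix.mul_one] at this
  have hB : B.M = Pᵀ * diagonal d * P := hC _ _ h2
  have hdist : dist A B ^ 2 = ∑ k, Real.log (d k) ^ 2 := by
    rw [PD.dist_sq, PDAux.dsq_simul hg h1 h2]
  obtain ⟨D, hD⟩ : ∃ D, D = dist A B * Real.exp (dist A B) := ⟨_, rfl⟩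
  have hD0 : 0 ≤ D := hD ▸ mul_nonneg dist_nonneg (Real.exp_pos _).le
  have hdk : ∀ k, |d k - 1| ≤ D := by
    intro k
    have h3 : Real.log (d k) ^ 2 ≤ dist A B ^ 2 := by
      rw [hdist]
      exact Finset.single_le_sum (f := fun k => Real.log (d k) ^ 2)
        (fun _ _ => sq_nonneg _) (Finset.mem_univ k)
    have h4 : |Real.log (d k)| ≤ dist A B := abs_le_of_sq_le_sq h3 dist_nonneg
    have h5 := PDAux.exp_bd (Real.log (d k))
    rw [Real.exp_log (hd k)] at h5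
    have h6 : Real.exp (2 * |Real.log (d k)|) ≤ Real.exp (dist A B) ^ 2 := by
      rw [← Real.exp_nat_mul]
      apply Real.exp_le_exp.mpr
      push_cast
      linarith
    apply abs_le_of_sq_le_sq _ hD0
    refine h5.trans ?_
    rw [hD, mul_pow]
    exact mul_le_mul h3 h6 (Real.exp_pos _).le (sq_nonneg _)
  have e1 : ∀ i j, A.M i j = ∑ k, P k i * P k j := by
    intro i j
    rw [hA, Matrix.mul_apply]
    rfl
  have e2 : B.M i j - A.M i j = ∑ k, P k i * P k j * (d k - 1) := by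
    rw [e1, hB, Matrix.mul_apply, ← Finset.sum_sub_distrib]
    refine Finset.sum_congr rfl fun k _ => ?_
    rw [Matrix.mul_diagonal, Matrix.transpose_apply]
    ring
  have e3 : A.M i i + A.M j j = ∑ k, (P k i ^ 2 + P k j ^ 2) := by
    rw [e1, e1, ← Finset.sum_add_distrib]
    exact Finset.sum_congr rfl fun k _ => by ring
  rw [e2, e3, ← hD, Finset.sum_div, Finset.sum_mul]
  refine (Finset.abs_sum_le_sum_abs _ _).trans (Finset.sum_le_sum fun k _ => ?_)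
  rw [abs_mul]
  refine mul_le_mul ?_ (hdk k) (abs_nonneg _) (by positivity)
  rw [abs_mul]
  have h7 := sq_nonneg (|P k i| - |P k j|)
  have h8 := sq_abs (P k i)
  have h9 := sq_abs (P k j)
  nlinarith

/-! ### the sum of the norms of the entries -/

/-- the sum of the norms of the entries -/
noncomputable def nn (X : Matrix (κ ⊕ Unit) (κ ⊕ Unit) ℂ) : ℝ := ∑ i, ∑ j, ‖X i j‖

theorem nn_nonneg (X : Matrix (κ ⊕ Unit) (κ ⊕ Unit) ℂ) : 0 ≤ nn X :=
  Finset.sum_nonneg fun _ _ => Finset.sum_nonneg fun _ _ => norm_nonneg _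

theorem row_le_nn (X : Matrix (κ ⊕ Unit) (κ ⊕ Unit) ℂ) (i : κ ⊕ Unit) :
    ∑ j, ‖X i j‖ ≤ nn X :=
  Finset.single_le_sum (f := fun i => ∑ j, ‖X i j‖)
    (fun _ _ => Finset.sum_nonneg fun _ _ => norm_nonneg _) (Finset.mem_univ i)

theorem entry_le_nn (X : Matrix (κ ⊕ Unit) (κ ⊕ Unit) ℂ) (i j : κ ⊕ Unit) :
    ‖X i j‖ ≤ nn X :=
  (Finset.single_le_sum (f := fun j => ‖X i j‖) (fun _ _ => norm_nonneg _)
    (Finset.mem_univ j)).trans (row_le_nn X i)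

theorem nn_mul (X Y : Matrix (κ ⊕ Unit) (κ ⊕ Unit) ℂ) : nn (X * Y) ≤ nn X * nn Y := by
  unfold nn
  rw [Finset.sum_mul]
  refine Finset.sum_le_sum fun i _ => ?_
  rw [Finset.sum_mul]
  calc ∑ j, ‖(X * Y) i j‖ ≤ ∑ j, ∑ k, ‖X i k‖ * ‖Y k j‖ := by
        refine Finset.sum_le_sum fun j _ => ?_
        rw [Matrix.mul_apply]
        refine (norm_sum_le _ _).trans (Finset.sum_le_sum fun k _ => ?_)
        rw [norm_mul]
    _ = ∑ k, ‖X i k‖ * ∑ j, ‖Y k j‖ := by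
        rw [Finset.sum_comm]
        exact Finset.sum_congr rfl fun k _ => by rw [Finset.mul_sum]
    _ ≤ ∑ k, ‖X i k‖ * ∑ i, ∑ j, ‖Y i j‖ :=
        Finset.sum_le_sum fun k _ => mul_le_mul_of_nonneg_left (row_le_nn Y k) (norm_nonneg _)

theorem nn_zero : nn (0 : Matrix (κ ⊕ Unit) (κ ⊕ Unit) ℂ) = 0 := by
  simp [nn]

theorem eq_zero_of_nn {X : Matrix (κ ⊕ Unit) (κ ⊕ Unit) ℂ} (h : nn X = 0) : X = 0 := by
  ext i j
  have := entry_le_nn X i j
  rw [h] at this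
  simpa using this

theorem nn_le_of_entries {X : Matrix (κ ⊕ Unit) (κ ⊕ Unit) ℂ} {a : ℝ}
    (h : ∀ i j, ‖X i j‖ ≤ a) : nn X ≤ (Fintype.card (κ ⊕ Unit) : ℝ) ^ 2 * a := by
  unfold nn
  refine (Finset.sum_le_sum fun i _ => Finset.sum_le_sum fun j _ => h i j).trans ?_
  simp only [Finset.sum_const, Finset.card_univ, nsmul_eq_mul]
  exact le_of_eq (by ring)

theorem continuous_nn : Continuous (nn : Matrix (κ ⊕ Unit) (κ ⊕ Unit) ℂ → ℝ) := by
  unfold nn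
  fun_prop

/-- size of an element -/
noncomputable def dd (y : GU κ) : ℝ := nn (y.M - 1)

theorem continuous_dd : Continuous (dd : GU κ → ℝ) :=
  continuous_nn.comp (continuous_M.sub continuous_const)

theorem dd_nonneg (y : GU κ) : 0 ≤ dd y := nn_nonneg _

theorem dd_one : dd (1 : GU κ) = 0 := by
  unfold dd
  rw [M_one, sub_self, nn_zero]

theorem eq_one_of_dd {y : GU κ} (h : dd y = 0) : y = 1 :=
  GU.ext (sub_eq_zero.mp (eq_zero_of_nn h))

theorem dd_le (g g' : GU κ) : dd (g' * g⁻¹) ≤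
    nn (g'.M - g.M) * ((Fintype.card (κ ⊕ Unit) : ℝ) ^ 2 * (2 * c g)) := by
  have e : (g' * g⁻¹).M - 1 = (g'.M - g.M) * (g⁻¹).M := by
    rw [Matrix.sub_mul, M_mul, mul_inv_M]
  unfold dd
  rw [e]
  refine (nn_mul _ _).trans (mul_le_mul_of_nonneg_left ?_ (nn_nonneg _))
  apply nn_le_of_entries
  intro i j
  have := entry_le g⁻¹ i j
  rwa [c_inv] at this

/-! ### from almost everywhere to everywhere -/

theorem le_of_ae' (μ : Measure (GU κ)) [IsOpenPosMeasure μ] {φ : GU κ → ℝ}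
    (hφ : Continuous φ) {R a : ℝ} (h : ∀ᵐ g ∂μ, c g ≤ R → φ g ≤ a) {g : GU κ} (hg : c g < R) :
    φ g ≤ a := by
  by_contra hcon
  rw [not_le] at hcon
  have h1 : Dense {g | c g ≤ R → φ g ≤ a} := dense_of_ae h
  have h2 : IsOpen {g : GU κ | c g < R ∧ a < φ g} :=
    (isOpen_lt continuous_c continuous_const).inter (isOpen_lt continuous_const hφ)
  obtain ⟨x, hx, hx2⟩ := h1.inter_open_nonempty _ h2 ⟨g, hg, hcon⟩
  exact absurd (hx2 hx.1.le) (not_le.mpr hx.2)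

/-- the hypothesis -/
def HB (μ : Measure (GU κ)) (F : GU κ → PD n) : Prop :=
  ∀ R : ℝ, ∃ A : ℝ, ∃ δ > 0, 0 ≤ A ∧ ∀ y : GU κ, dd y ≤ δ →
      ∀ᵐ g ∂μ, c g ≤ R → dist (F g) (F (y * g)) ≤ A * dd y

theorem hb_of (μ : Measure (GU κ)) {F : GU κ → PD n}
    (hb : ∀ R : ℝ, ∃ A : ℝ, ∃ δ > 0, ∀ (y : GU κ) (ε : ℝ), 0 < ε → ε ≤ δ →
      (∀ i j, ‖y.M i j - (1 : Matrix (κ ⊕ Unit) (κ ⊕ Unit) ℂ) i j‖ ≤ ε) →
      ∀ᵐ g ∂(μ.restrict {g | c g ≤ R}), dist (F g) (F (y * g)) ≤ A * ε) : HB μ F := by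
  intro R
  obtain ⟨A, δ, hδ, h⟩ := hb R
  refine ⟨|A|, δ, hδ, abs_nonneg _, fun y hy => ?_⟩
  rcases (dd_nonneg y).eq_or_lt with h0 | h0
  · have h1 := eq_one_of_dd h0.symm
    rw [h1, dd_one]
    filter_upwards with g _
    simp
  · have h1 := h y (dd y) h0 hy (fun i j => entry_le_nn (y.M - 1) i j)
    rw [ae_restrict_iff' (isCompact_c R).measurableSet] at h1
    filter_upwards [h1] with g hg hgR
    refine (hg hgR).trans ?_
    exact mul_le_mul_of_nonneg_right (le_abs_self A) (dd_nonneg y)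

theorem ae_ae (μ : Measure (GU κ)) [IsHaarMeasure μ] [μ.IsMulRightInvariant] {F : GU κ → PD n}
    (hF : Measurable F) {R A δ : ℝ}
    (h : ∀ y : GU κ, dd y ≤ δ → ∀ᵐ g ∂μ, c g ≤ R → dist (F g) (F (y * g)) ≤ A * dd y) :
    ∀ᵐ g ∂μ, ∀ᵐ g' ∂μ, dd (g' * g⁻¹) ≤ δ → c g ≤ R →
      dist (F g) (F g') ≤ A * dd (g' * g⁻¹) := by
  have h1 : ∀ᵐ y ∂μ, ∀ᵐ g ∂μ, dd y ≤ δ → c g ≤ R → dist (F g) (F (y * g)) ≤ A * dd y := by
    filter_upwards with y
    by_cases hy : dd y ≤ δ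
    · filter_upwards [h y hy] with g hg _
      exact hg
    · filter_upwards with g hg
      exact absurd hg hy
  have hmeas : MeasurableSet {p : GU κ × GU κ | dd p.1 ≤ δ → c p.2 ≤ R →
      dist (F p.2) (F (p.1 * p.2)) ≤ A * dd p.1} := by
    refine MeasurableSet.imp ?_ (MeasurableSet.imp ?_ ?_)
    · exact measurableSet_le (continuous_dd.measurable.comp measurable_fst) measurable_const
    · exact measurableSet_le (continuous_c.measurable.comp measurable_snd) measurable_const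
    · refine measurableSet_le (Measurable.dist (hF.comp measurable_snd)
        (hF.comp (measurable_fst.mul measurable_snd))) ?_
      exact (continuous_dd.measurable.comp measurable_fst).const_mul A
  rw [ae_ae_comm hmeas] at h1
  filter_upwards [h1] with g hg
  have h2 := (measurePreserving_mul_right μ g⁻¹).quasiMeasurePreserving.ae hg
  filter_upwards [h2] with g' hg'
  rwa [inv_mul_cancel_right] at hg'

/-- the key estimate on a conull set -/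
theorem key (μ : Measure (GU κ)) [IsHaarMeasure μ] {F : GU κ → PD n} {R A δ : ℝ} (hδ : 0 < δ)
    (hA : 0 ≤ A) {g₁ g₂ : GU κ} (h1 : ∀ᵐ g' ∂μ, dd (g' * g₁⁻¹) ≤ δ → c g₁ ≤ R →
      dist (F g₁) (F g') ≤ A * dd (g' * g₁⁻¹)) (h2 : ∀ᵐ g' ∂μ, dd (g' * g₂⁻¹) ≤ δ → c g₂ ≤ R →
      dist (F g₂) (F g') ≤ A * dd (g' * g₂⁻¹)) (hc1 : c g₁ ≤ R) (hc2 : c g₂ ≤ R)
    (h3 : dd (g₁ * g₂⁻¹) < δ) : dist (F g₁) (F g₂) ≤ A * dd (g₁ * g₂⁻¹) := by
  have hd := dense_of_ae (h1.and h2)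
  have hne := mem_closure_iff_nhdsWithin_neBot.mp (hd g₁)
  have hc : ∀ g : GU κ, Continuous fun g' : GU κ => dd (g' * g⁻¹) := fun g =>
    continuous_dd.comp (continuous_id.mul continuous_const)
  have ht : Tendsto (fun g' => A * dd (g' * g₁⁻¹) + A * dd (g' * g₂⁻¹)) (𝓝 g₁)
      (𝓝 (A * dd (g₁ * g₁⁻¹) + A * dd (g₁ * g₂⁻¹))) :=
    ((((hc g₁).const_mul A).add ((hc g₂).const_mul A))).tendsto g₁
  rw [mul_inv_cancel, dd_one, mul_zero, zero_add] at ht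
  refine @ge_of_tendsto _ _ _ _ _ _ _ _ _ hne (ht.mono_left nhdsWithin_le_nhds) ?_
  have e1 : ∀ᶠ g' in 𝓝 g₁, dd (g' * g₁⁻¹) < δ := by
    have := (hc g₁).tendsto g₁
    rw [mul_inv_cancel, dd_one] at this
    exact this.eventually (gt_mem_nhds hδ)
  have e2 : ∀ᶠ g' in 𝓝 g₁, dd (g' * g₂⁻¹) < δ :=
    ((hc g₂).tendsto g₁).eventually (gt_mem_nhds h3)
  filter_upwards [e1.filter_mono nhdsWithin_le_nhds, e2.filter_mono nhdsWithin_le_nhds,
    self_mem_nhdsWithin] with g' h4 h5 h6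
  have h7 := h6.1 h4.le hc1
  have h8 := h6.2 h5.le hc2
  have := dist_triangle_right (F g₁) (F g₂) (F g')
  linarith

/-- the continuous representative -/
theorem exists_rep (μ : Measure (GU κ)) [IsHaarMeasure μ] [μ.IsMulRightInvariant]
    {F : GU κ → PD n} (hF : Measurable F) (hb : HB μ F) :
    ∃ h : GU κ → PD n, Continuous h ∧ ∀ᵐ g ∂μ, h g = F g := by
  choose A δ hδ hA hb using fun R : ℕ => hb (R : ℝ)
  have hS : ∀ᵐ g ∂μ, ∀ R : ℕ, ∀ᵐ g' ∂μ, dd (g' * g⁻¹) ≤ δ R → c g ≤ R →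
      dist (F g) (F g') ≤ A R * dd (g' * g⁻¹) :=
    ae_all_iff.mpr fun R => ae_ae μ hF (hb R)
  obtain ⟨S, hSdef⟩ : ∃ S : Set (GU κ), S = {g | ∀ R : ℕ, ∀ᵐ g' ∂μ, dd (g' * g⁻¹) ≤ δ R →
      c g ≤ R → dist (F g) (F g') ≤ A R * dd (g' * g⁻¹)} := ⟨_, rfl⟩
  have hSd : Dense S := by
    rw [hSdef]
    exact dense_of_ae hS
  have hmem : ∀ g ∈ S, ∀ R : ℕ, ∀ᵐ g' ∂μ, dd (g' * g⁻¹) ≤ δ R → c g ≤ R →
      dist (F g) (F g') ≤ A R * dd (g' * g⁻¹) := by
    intro g hg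
    rw [hSdef] at hg
    exact hg
  have di := hSd.isDenseInducing_val
  have hlim : ∀ b : GU κ, ∃ y, Tendsto (fun x : S => F x) (comap Subtype.val (𝓝 b)) (𝓝 y) := by
    intro b
    haveI := di.comap_nhds_neBot b
    rw [← cauchy_map_iff_exists_tendsto, Metric.cauchy_iff]
    refine ⟨inferInstance, fun ε hε => ?_⟩
    obtain ⟨R, hR⟩ := exists_nat_gt (c b)
    have hcont : Continuous fun p : GU κ × GU κ => dd (p.1 * p.2⁻¹) :=
      continuous_dd.comp (continuous_fst.mul continuous_snd.inv)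
    have h0 : dd (b * b⁻¹) < min (δ R) (ε / (A R + 1)) := by
      rw [mul_inv_cancel, dd_one]
      have := hA R
      exact lt_min (hδ R) (by positivity)
    have h1 : ∀ᶠ p : GU κ × GU κ in 𝓝 (b, b), dd (p.1 * p.2⁻¹) < min (δ R) (ε / (A R + 1)) :=
      (hcont.tendsto (b, b)).eventually (gt_mem_nhds h0)
    rw [nhds_prod_eq] at h1
    obtain ⟨t, ht, ht2⟩ := mem_prod_self_iff.mp h1
    have ht3 : ∀ x ∈ t, ∀ y ∈ t, dd (x * y⁻¹) < min (δ R) (ε / (A R + 1)) := by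
      intro x hx y hy
      have := ht2 (Set.mk_mem_prod hx hy)
      exact this
    have h2 : ∀ᶠ x in 𝓝 b, c x < R := (continuous_c.tendsto b).eventually (gt_mem_nhds hR)
    refine ⟨(fun x : S => F x) '' (Subtype.val ⁻¹' (t ∩ {x | c x < R})), ?_, ?_⟩
    · exact image_mem_map (preimage_mem_comap (inter_mem ht h2))
    · rintro _ ⟨x, ⟨hx1, hx2⟩, rfl⟩ _ ⟨y, ⟨hy1, hy2⟩, rfl⟩
      have h3 : dd ((x : GU κ) * (y : GU κ)⁻¹) < min (δ R) (ε / (A R + 1)) :=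
        ht3 x hx1 y hy1
      have h4 := key μ (hδ R) (hA R) (hmem x x.2 R) (hmem y y.2 R) (le_of_lt hx2) (le_of_lt hy2)
        (h3.trans_le (min_le_left _ _))
      refine h4.trans_lt ?_
      have h5 := h3.trans_le (min_le_right _ _)
      have h6 := hA R
      have h7 : A R * dd ((x : GU κ) * (y : GU κ)⁻¹) ≤ A R * (ε / (A R + 1)) :=
        mul_le_mul_of_nonneg_left h5.le h6
      refine h7.trans_lt ?_
      have h8 : A R * (ε / (A R + 1)) = ε - ε / (A R + 1) := by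
        field_simp
        ring
      have h9 : 0 < ε / (A R + 1) := by positivity
      rw [h8]
      linarith
  refine ⟨di.extend (fun x : S => F x), di.continuous_extend hlim, ?_⟩
  filter_upwards [hS] with g hg
  have hgS : g ∈ S := by
    rw [hSdef]
    exact hg
  obtain ⟨y, hy⟩ := hlim g
  have e := di.extend_eq_at' (f := fun x : S => F x) (a := ⟨g, hgS⟩) y (by
    rw [nhds_subtype]
    exact hy)
  exact e

/-- the representative is locally Lipschitz -/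
theorem rep_lip (μ : Measure (GU κ)) [IsHaarMeasure μ] {F h : GU κ → PD n} (hb : HB μ F)
    (hh : Continuous h) (hae : ∀ᵐ g ∂μ, h g = F g) (g₀ : GU κ) :
    ∃ L : ℝ, 0 ≤ L ∧ ∃ N ∈ 𝓝 g₀, ∀ g ∈ N, ∀ g' ∈ N,
      dist (h g) (h g') ≤ L * nn (g'.M - g.M) := by
  obtain ⟨R, hR⟩ : ∃ R : ℝ, c g₀ < R := ⟨c g₀ + 1, by linarith⟩
  have hR0 : 0 ≤ R := by
    have := c_ge_one g₀
    linarith
  obtain ⟨A, δ, hδ, hA, hb⟩ := hb R
  have h1 : ∀ y, dd y ≤ δ → ∀ g, c g < R → dist (h g) (h (y * g)) ≤ A * dd y := by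
    intro y hy g hg
    refine le_of_ae' μ (φ := fun g => dist (h g) (h (y * g)))
      (hh.dist (hh.comp (continuous_const.mul continuous_id))) ?_ hg
    have h2 := (measurePreserving_mul_left μ y).quasiMeasurePreserving.ae hae
    filter_upwards [hb y hy, hae, h2] with x hx1 hx2 hx3 hxR
    rw [hx2, hx3]
    exact hx1 hxR
  have hcont : Continuous fun p : GU κ × GU κ => dd (p.2 * p.1⁻¹) :=
    continuous_dd.comp (continuous_snd.mul continuous_fst.inv)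
  have h0 : dd (g₀ * g₀⁻¹) < δ := by
    rw [mul_inv_cancel, dd_one]
    exact hδ
  have h3 : ∀ᶠ p : GU κ × GU κ in 𝓝 (g₀, g₀), dd (p.2 * p.1⁻¹) < δ :=
    (hcont.tendsto (g₀, g₀)).eventually (gt_mem_nhds h0)
  rw [nhds_prod_eq] at h3
  obtain ⟨t, ht, ht2⟩ := mem_prod_self_iff.mp h3
  have ht3 : ∀ x ∈ t, ∀ y ∈ t, dd (y * x⁻¹) < δ := by
    intro x hx y hy
    have := ht2 (Set.mk_mem_prod hx hy)
    exact this
  have h2 : ∀ᶠ x in 𝓝 g₀, c x < R := (continuous_c.tendsto g₀).eventually (gt_mem_nhds hR)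
  refine ⟨A * ((Fintype.card (κ ⊕ Unit) : ℝ) ^ 2 * (2 * R)), by positivity,
    t ∩ {x | c x < R}, inter_mem ht h2, ?_⟩
  rintro g ⟨hg1, hg2⟩ g' ⟨hg'1, hg'2⟩
  have hg2' : c g < R := hg2
  have h4 := h1 (g' * g⁻¹) (ht3 g hg1 g' hg'1).le g hg2'
  rw [inv_mul_cancel_right] at h4
  refine h4.trans ?_
  have h5 := dd_le g g'
  have h6 : nn (g'.M - g.M) * ((Fintype.card (κ ⊕ Unit) : ℝ) ^ 2 * (2 * c g)) ≤
      nn (g'.M - g.M) * ((Fintype.card (κ ⊕ Unit) : ℝ) ^ 2 * (2 * R)) := by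
    refine mul_le_mul_of_nonneg_left ?_ (nn_nonneg _)
    refine mul_le_mul_of_nonneg_left ?_ (by positivity)
    linarith
  calc A * dd (g' * g⁻¹) ≤
      A * (nn (g'.M - g.M) * ((Fintype.card (κ ⊕ Unit) : ℝ) ^ 2 * (2 * R))) :=
        mul_le_mul_of_nonneg_left (h5.trans h6) hA
    _ = _ := by ring

theorem rep_eqv (μ : Measure (GU κ)) [IsHaarMeasure μ] {σ : G →* GU κ}
    {ρ : G →* Matrix n n ℝ} {F h : GU κ → PD n} (hF : EqF σ ρ F)
    (hh : Continuous h) (hae : ∀ᵐ g ∂μ, h g = F g) (γ : G) (g : GU κ) :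
    h (σ γ * g) = ac ρ γ (h g) := by
  have hc : Continuous (ac ρ γ : PD n → PD n) :=
    (Isometry.of_dist_eq fun A B => PD.dist_cg _ _ A B).continuous
  have h1 : (fun g => h (σ γ * g)) =ᵐ[μ] fun g => ac ρ γ (h g) := by
    have h2 := (measurePreserving_mul_left μ (σ γ)).quasiMeasurePreserving.ae hae
    filter_upwards [hae, h2] with x hx1 hx2
    rw [hx2, hx1, hF.2]
  exact congrFun ((Continuous.ae_eq_iff_eq μ (hh.comp (continuous_const.mul continuous_id))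
    (hc.comp hh)).mp h1) g

theorem rep_K (μ : Measure (GU κ)) [IsHaarMeasure μ] [μ.IsMulRightInvariant]
    {F h : GU κ → PD n} (hK : Kinv μ F) (hh : Continuous h) (hae : ∀ᵐ g ∂μ, h g = F g)
    {k : GU κ} (hk : k ∈ KU κ) (g : GU κ) : h (g * k) = h g := by
  have h1 : (fun g => h (g * k)) =ᵐ[μ] fun g => h g := by
    have h2 := (measurePreserving_mul_right μ k).quasiMeasurePreserving.ae hae
    filter_upwards [hae, h2, hK k hk] with x hx1 hx2 hx3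
    rw [hx2, hx1, hx3]
  exact congrFun ((Continuous.ae_eq_iff_eq μ (hh.comp (continuous_id.mul continuous_const))
    hh).mp h1) g

/-! ### points of the cone -/

theorem nqC_e0 : LowAux.nqC (e0 : κ ⊕ Unit → ℂ) = 1 := by
  simp [LowAux.nqC, e0]

theorem nqC_pt (g : GU κ) : LowAux.nqC g.pt = 1 := by
  unfold GU.pt
  rw [LowAux.nqC_iso g.pres, nqC_e0]

theorem pt_mem (g : GU κ) : g.pt ∈ Cn κ := by
  show 0 < LowAux.nqC g.pt
  rw [nqC_pt]
  norm_num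

theorem nqC_smul (l : ℂ) (v : κ ⊕ Unit → ℂ) :
    LowAux.nqC (l • v) = ‖l‖ ^ 2 * LowAux.nqC v := by
  simp [LowAux.nqC, mul_pow, mul_sub, Finset.mul_sum]

theorem mem_KU_of_smul {g : GU κ} {z : ℂ} (h : g.M *ᵥ e0 = z • e0) : g ∈ KU κ := by
  have h1 : ∀ i, g.M (Sum.inl i) (Sum.inr ()) = 0 := fun i => by
    have h2 := mulVec_e0 g.M (Sum.inl i)
    rw [h] at h2
    rw [← h2]; simp [e0]
  have h2 : g.M (Sum.inr ()) (Sum.inr ()) = z := by
    have h2 := mulVec_e0 g.M (Sum.inr ())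
    rw [h] at h2
    rw [← h2]; simp [e0]
  have hz : ‖z‖ ^ 2 = 1 := by
    have h3 := LowAux.nqC_iso g.pres (e0 : κ ⊕ Unit → ℂ)
    rw [h, nqC_smul, nqC_e0] at h3
    linarith
  refine ⟨h1, fun i => ?_⟩
  have h3 := HypAux.row_n g.M g.pres
  have h4 : cc g.M ^ 2 = 1 := by unfold cc; rw [h2]; exact hz
  rw [h4] at h3
  have h5 : ∑ i, ‖g.M (Sum.inr ()) (Sum.inl i)‖ ^ 2 = 0 := by linarith
  have h6 := (Finset.sum_eq_zero_iff_of_nonneg (fun i _ => by positivity)).mp h5 i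
    (Finset.mem_univ i)
  have h7 : ‖g.M (Sum.inr ()) (Sum.inl i)‖ = 0 := pow_eq_zero_iff (two_ne_zero) |>.mp h6
  exact norm_eq_zero.mp h7

theorem same_pt {g g' : GU κ} {z : ℂ} (h : g'.pt = z • g.pt) : ∃ k ∈ KU κ, g' = g * k := by
  refine ⟨g⁻¹ * g', mem_KU_of_smul (z := z) ?_, by group⟩
  rw [M_mul, ← mulVec_mulVec]
  change (g⁻¹).M *ᵥ g'.pt = _
  rw [h, mulVec_smul]
  unfold GU.pt
  rw [mulVec_mulVec, inv_mul_M, one_mulVec]

/-! ### the section -/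

theorem refl (w : κ ⊕ Unit → ℂ) (b : ℝ) (hb : 0 < b) (hw : LowAux.nqC w = 1)
    (hw0 : w (Sum.inr ()) = -(b : ℂ)) (S : Matrix (κ ⊕ Unit) (κ ⊕ Unit) ℂ)
    (hS : S = 1 + (((1 + b)⁻¹ : ℝ) : ℂ) • (vecMulVec (e0 - w) (star (e0 - w)) * JC κ)) :
    Sᴴ * JC κ * S = JC κ ∧ S *ᵥ e0 = w := by
  obtain ⟨u, hu⟩ : ∃ u : κ ⊕ Unit → ℂ, u = e0 - w := ⟨_, rfl⟩
  obtain ⟨t, ht⟩ : ∃ t : ℂ, t = (((1 + b)⁻¹ : ℝ) : ℂ) := ⟨_, rfl⟩
  rw [← hu, ← ht] at hS
  have hb1 : (1 + (b : ℂ)) ≠ 0 := by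
    have : (1 + b : ℝ) ≠ 0 := by positivity
    exact_mod_cast this
  have htb : t * (1 + (b : ℂ)) = 1 := by
    rw [ht]
    push_cast
    exact inv_mul_cancel₀ hb1
  have hts : star t = t := by
    rw [ht]
    simp
  have hu0 : u (Sum.inr ()) = 1 + (b : ℂ) := by
    rw [hu, Pi.sub_apply, hw0]
    simp [e0]
  have hui : ∀ i, u (Sum.inl i) = - w (Sum.inl i) := fun i => by
    rw [hu, Pi.sub_apply]
    simp [e0]
  have haa : star u ⬝ᵥ (JC κ *ᵥ u) = -(2 + 2 * (b : ℂ)) := by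
    rw [LowAux.herm_self, LowAux.nqC, hu0]
    simp only [hui, norm_neg]
    have h1 : ‖(1 + (b : ℂ))‖ = 1 + b := by
      have h4 : (1 + (b : ℂ)) = ((1 + b : ℝ) : ℂ) := by push_cast; ring
      rw [h4, Complex.norm_real, Real.norm_of_nonneg (by positivity)]
    have h2 : ∑ i, ‖w (Sum.inl i)‖ ^ 2 = b ^ 2 - 1 := by
      rw [LowAux.nqC, hw0, norm_neg, Complex.norm_real, Real.norm_of_nonneg hb.le] at hw
      linarith
    rw [h1, h2]
    push_cast
    ring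
  obtain ⟨P, hP⟩ : ∃ P : Matrix (κ ⊕ Unit) (κ ⊕ Unit) ℂ, P = Matrix.vecMulVec u (star u) :=
    ⟨_, rfl⟩
  rw [← hP] at hS
  have hPH : Pᴴ = P := by
    rw [hP, Matrix.conjTranspose_vecMulVec, star_star]
  have hPJP : P * JC κ * P = (-(2 + 2 * (b : ℂ))) • P := by
    rw [← haa, hP, Matrix.mul_assoc, Matrix.mul_vecMulVec, Matrix.vecMulVec_mul_vecMulVec]
    ext i j
    simp [Matrix.vecMulVec_apply]
    try ring
  constructor
  · rw [hS, Matrix.conjTranspose_add, Matrix.conjTranspose_one, Matrix.conjTranspose_smul,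
      Matrix.conjTranspose_mul, hPH, LowAux.JC_conj, hts]
    have h1 : (1 + t • (JC κ * P)) * JC κ * (1 + t • (P * JC κ))
        = JC κ + t • (JC κ * P * JC κ) + t • (JC κ * P * JC κ)
          + (t * t) • (JC κ * (P * JC κ * P) * JC κ) := by
      have e1 : JC κ * (P * JC κ) = JC κ * P * JC κ := by rw [Matrix.mul_assoc]
      have e2 : (JC κ * P) * JC κ * (P * JC κ) = JC κ * (P * JC κ * P) * JC κ := by
        simp only [Matrix.mul_assoc]
      rw [Matrix.add_mul, Matrix.one_mul, Matrix.add_mul, Matrix.mul_add, Matrix.mul_add,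
        Matrix.mul_one, Matrix.mul_one, Matrix.smul_mul, Matrix.mul_smul, Matrix.smul_mul,
        Matrix.mul_smul, smul_smul, e1, e2]
      abel
    rw [h1, hPJP, Matrix.mul_smul, Matrix.smul_mul, smul_smul]
    have h3 : t * t * (-(2 + 2 * (b : ℂ))) = -(t + t) := by
      calc t * t * (-(2 + 2 * (b : ℂ))) = -(2 * t * (t * (1 + (b : ℂ)))) := by ring
        _ = -(t + t) := by rw [htb]; ring
    rw [h3, neg_smul, add_smul]
    abel
  · rw [hS, Matrix.add_mulVec, Matrix.one_mulVec, Matrix.smul_mulVec, ← Matrix.mulVec_mulVec,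
      JC_e0, hP, Matrix.vecMulVec_mulVec]
    have h1 : star u ⬝ᵥ (-(e0 : κ ⊕ Unit → ℂ)) = -(1 + (b : ℂ)) := by
      have h2 : star u ⬝ᵥ (e0 : κ ⊕ Unit → ℂ) = star (u (Sum.inr ())) := by
        simp [e0]
      rw [dotProduct_neg, h2, hu0]
      simp
    rw [h1]
    ext i
    simp only [Pi.add_apply, Pi.smul_apply, smul_eq_mul, MulOpposite.smul_eq_mul_unop,
      MulOpposite.unop_op]
    have h4 : t * (u i * -(1 + (b : ℂ))) = -u i := by
      calc t * (u i * -(1 + (b : ℂ))) = -((t * (1 + (b : ℂ))) * u i) := by ring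
        _ = -u i := by rw [htb, one_mul]
    rw [h4, hu, Pi.sub_apply]
    ring

/-- normalising factor -/
noncomputable def fac (v : κ ⊕ Unit → ℂ) : ℂ :=
  -((starRingEnd ℂ) (v (Sum.inr ())) *
    (((‖v (Sum.inr ())‖ * Real.sqrt (LowAux.nqC v))⁻¹ : ℝ) : ℂ))

/-- the matrix of the section -/
noncomputable def sM (v : κ ⊕ Unit → ℂ) : Matrix (κ ⊕ Unit) (κ ⊕ Unit) ℂ :=
  1 + (((1 + ‖v (Sum.inr ())‖ / Real.sqrt (LowAux.nqC v))⁻¹ : ℝ) : ℂ) •
    (vecMulVec (e0 - fac v • v) (star (e0 - fac v • v)) * JC κ)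

theorem ne_of_cn {v : κ ⊕ Unit → ℂ} (hv : v ∈ Cn κ) : v (Sum.inr ()) ≠ 0 := by
  intro h0
  have h1 : 0 < LowAux.nqC v := hv
  rw [LowAux.nqC, h0] at h1
  have : 0 ≤ ∑ i, ‖v (Sum.inl i)‖ ^ 2 := Finset.sum_nonneg fun i _ => by positivity
  simp at h1
  linarith

theorem norm_fac {v : κ ⊕ Unit → ℂ} (hv : v ∈ Cn κ) :
    ‖fac v‖ = (Real.sqrt (LowAux.nqC v))⁻¹ := by
  have h0 := norm_ne_zero_iff.mpr (ne_of_cn hv)
  have h1 : 0 < LowAux.nqC v := hv
  unfold fac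
  rw [norm_neg, norm_mul, Complex.norm_real, Real.norm_of_nonneg (by positivity)]
  have h2 : ‖(starRingEnd ℂ) (v (Sum.inr ()))‖ = ‖v (Sum.inr ())‖ := by simp
  rw [h2, mul_inv, ← mul_assoc, mul_inv_cancel₀ h0, one_mul]

theorem fac_ne {v : κ ⊕ Unit → ℂ} (hv : v ∈ Cn κ) : fac v ≠ 0 := by
  rw [← norm_ne_zero_iff, norm_fac hv]
  have h1 : 0 < LowAux.nqC v := hv
  have := Real.sqrt_pos.mpr h1
  positivity

theorem sM_iso {v : κ ⊕ Unit → ℂ} (hv : v ∈ Cn κ) :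
    (sM v)ᴴ * JC κ * sM v = JC κ ∧ sM v *ᵥ e0 = fac v • v := by
  have h0 := norm_ne_zero_iff.mpr (ne_of_cn hv)
  have h1 : 0 < LowAux.nqC v := hv
  have h2 := Real.sqrt_pos.mpr h1
  have h3 : 0 < ‖v (Sum.inr ())‖ := lt_of_le_of_ne (norm_nonneg _) (Ne.symm h0)
  refine refl (fac v • v) (‖v (Sum.inr ())‖ / Real.sqrt (LowAux.nqC v)) (by positivity) ?_ ?_
    (sM v) rfl
  · rw [nqC_smul, norm_fac hv, inv_pow, Real.sq_sqrt h1.le, inv_mul_cancel₀ h1.ne']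
  · rw [Pi.smul_apply, smul_eq_mul]
    unfold fac
    have h4 : (starRingEnd ℂ) (v (Sum.inr ())) * v (Sum.inr ()) =
        ((‖v (Sum.inr ())‖ ^ 2 : ℝ) : ℂ) := by
      rw [mul_comm, Complex.mul_conj, Complex.normSq_eq_norm_sq]
    calc -((starRingEnd ℂ) (v (Sum.inr ())) *
          (((‖v (Sum.inr ())‖ * Real.sqrt (LowAux.nqC v))⁻¹ : ℝ) : ℂ)) * v (Sum.inr ())
        = -(((starRingEnd ℂ) (v (Sum.inr ())) * v (Sum.inr ())) *
          (((‖v (Sum.inr ())‖ * Real.sqrt (LowAux.nqC v))⁻¹ : ℝ) : ℂ)) := by ring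
      _ = -((‖v (Sum.inr ())‖ / Real.sqrt (LowAux.nqC v) : ℝ) : ℂ) := by
          rw [h4, ← Complex.ofReal_mul]
          congr 2
          field_simp

/-- an isometry as an element of the group -/
def mk (A : Matrix (κ ⊕ Unit) (κ ⊕ Unit) ℂ) (hA : Aᴴ * JC κ * A = JC κ) : GU κ := ⟨A, hA⟩

theorem mk_M (A : Matrix (κ ⊕ Unit) (κ ⊕ Unit) ℂ) (hA : Aᴴ * JC κ * A = JC κ) :
    (mk A hA).M = A := rfl

open Classical in
/-- the section -/
noncomputable def sec (v : κ ⊕ Unit → ℂ) : GU κ :=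
  if hv : v ∈ Cn κ then mk (sM v) (sM_iso hv).1 else 1

theorem sec_M {v : κ ⊕ Unit → ℂ} (hv : v ∈ Cn κ) : (sec v).M = sM v := by
  unfold sec
  rw [dif_pos hv, mk_M]

theorem sec_pt {v : κ ⊕ Unit → ℂ} (hv : v ∈ Cn κ) : (sec v).pt = fac v • v := by
  unfold GU.pt
  rw [sec_M hv, (sM_iso hv).2]

theorem cd_nqC : ContDiff ℝ 1 (LowAux.nqC : (κ ⊕ Unit → ℂ) → ℝ) := by
  unfold LowAux.nqC
  exact ((contDiff_apply ℝ ℂ _).norm_sq ℝ).sub
    (ContDiff.sum fun i _ => (contDiff_apply ℝ ℂ _).norm_sq ℝ)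

theorem isOpen_Cn : IsOpen (Cn κ) := isOpen_lt continuous_const cd_nqC.continuous

theorem cd_fac {v : κ ⊕ Unit → ℂ} (hv : v ∈ Cn κ) : ContDiffAt ℝ 1 fac v := by
  have h0 := ne_of_cn hv
  have h0' := norm_ne_zero_iff.mpr h0
  have h1 : 0 < LowAux.nqC v := hv
  have h2 := Real.sqrt_pos.mpr h1
  unfold fac
  have a0 : ContDiffAt ℝ 1 (fun v : κ ⊕ Unit → ℂ => v (Sum.inr ())) v :=
    (contDiff_apply ℝ ℂ _).contDiffAt
  have a1 : ContDiffAt ℝ 1 (fun v : κ ⊕ Unit → ℂ =>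
      ‖v (Sum.inr ())‖ * Real.sqrt (LowAux.nqC v)) v :=
    (a0.norm ℝ h0).mul (cd_nqC.contDiffAt.sqrt h1.ne')
  have a2 := a1.inv (mul_ne_zero h0' h2.ne')
  have a3 := Complex.ofRealCLM.contDiff.contDiffAt.comp v a2
  have a4 := Complex.conjCLE.contDiff.contDiffAt.comp v a0
  exact (a4.mul a3).neg

theorem cd_sM {v : κ ⊕ Unit → ℂ} (hv : v ∈ Cn κ) :
    ContDiffAt ℝ 1 (fun v => (fun i j => sM v i j : (κ ⊕ Unit) → (κ ⊕ Unit) → ℂ)) v := by
  have h0 := ne_of_cn hv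
  have h0' := norm_ne_zero_iff.mpr h0
  have h1 : 0 < LowAux.nqC v := hv
  have h2 := Real.sqrt_pos.mpr h1
  rw [contDiffAt_pi]
  intro i
  rw [contDiffAt_pi]
  intro j
  have hap : ∀ i, ContDiffAt ℝ 1 (fun v : κ ⊕ Unit → ℂ => v i) v := fun i =>
    (contDiff_apply ℝ ℂ _).contDiffAt
  have hu : ∀ i, ContDiffAt ℝ 1 (fun v : κ ⊕ Unit → ℂ =>
      ((e0 : κ ⊕ Unit → ℂ) - fac v • v) i) v := fun i =>
    contDiffAt_const.sub ((cd_fac hv).mul (hap i))
  have hus : ∀ i, ContDiffAt ℝ 1 (fun v : κ ⊕ Unit → ℂ =>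
      star (((e0 : κ ⊕ Unit → ℂ) - fac v • v) i)) v :=
    fun i => Complex.conjCLE.contDiff.contDiffAt.comp v (hu i)
  have ht : ContDiffAt ℝ 1 (fun v : κ ⊕ Unit → ℂ =>
      (((1 + ‖v (Sum.inr ())‖ / Real.sqrt (LowAux.nqC v))⁻¹ : ℝ) : ℂ)) v := by
    have b1 : ContDiffAt ℝ 1 (fun v : κ ⊕ Unit → ℂ =>
        1 + ‖v (Sum.inr ())‖ / Real.sqrt (LowAux.nqC v)) v :=
      contDiffAt_const.add (((hap (Sum.inr ())).norm ℝ h0).div
        (cd_nqC.contDiffAt.sqrt h1.ne') h2.ne')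
    have b2 := b1.inv (by positivity)
    exact Complex.ofRealCLM.contDiff.contDiffAt.comp v b2
  have e : (fun v : κ ⊕ Unit → ℂ => sM v i j) = fun v => (1 : Matrix (κ ⊕ Unit) (κ ⊕ Unit) ℂ) i j +
      (((1 + ‖v (Sum.inr ())‖ / Real.sqrt (LowAux.nqC v))⁻¹ : ℝ) : ℂ) *
      ∑ k, (((e0 : κ ⊕ Unit → ℂ) - fac v • v) i *
        star (((e0 : κ ⊕ Unit → ℂ) - fac v • v) k)) * JC κ k j := by
    funext v
    unfold sM
    rw [Matrix.add_apply, Matrix.smul_apply, Matrix.mul_apply, smul_eq_mul]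
    rfl
  rw [e]
  exact contDiffAt_const.add (ht.mul (ContDiffAt.sum fun k _ =>
    ((hu i).mul (hus k)).mul contDiffAt_const))

theorem continuousAt_sec {v : κ ⊕ Unit → ℂ} (hv : v ∈ Cn κ) : ContinuousAt sec v := by
  rw [isClosedEmbedding_M.isInducing.continuousAt_iff]
  have h1 : ContinuousAt (fun v => (fun i j => sM v i j : (κ ⊕ Unit) → (κ ⊕ Unit) → ℂ)) v :=
    (cd_sM hv).continuousAt
  have h2 : (fun v => (sec v).M) =ᶠ[𝓝 v] fun v => sM v := by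
    filter_upwards [isOpen_Cn.mem_nhds hv] with x hx
    exact sec_M hx
  exact ContinuousAt.congr (f := fun v => sM v) h1 h2.symm

theorem lip_sec {v : κ ⊕ Unit → ℂ} (hv : v ∈ Cn κ) : ∃ K : ℝ, 0 ≤ K ∧ ∃ t ∈ 𝓝 v, t ⊆ Cn κ ∧
    ∀ x ∈ t, ∀ y ∈ t, nn ((sec y).M - (sec x).M) ≤ K * dist x y := by
  obtain ⟨K, t, ht, hK⟩ := (cd_sM hv).exists_lipschitzOnWith
  refine ⟨(Fintype.card (κ ⊕ Unit) : ℝ) ^ 2 * K, by positivity, t ∩ Cn κ,
    inter_mem ht (isOpen_Cn.mem_nhds hv), Set.inter_subset_right, ?_⟩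
  rintro x ⟨hx1, hx2⟩ y ⟨hy1, hy2⟩
  rw [sec_M hx2, sec_M hy2, mul_assoc]
  apply nn_le_of_entries
  intro i j
  have h1 := hK.dist_le_mul x hx1 y hy1
  refine le_trans ?_ h1
  rw [Matrix.sub_apply, norm_sub_rev, ← dist_eq_norm]
  exact (dist_le_pi_dist (fun j => sM x i j) (fun j => sM y i j) j).trans
    (dist_le_pi_dist (fun i j => sM x i j) (fun i j => sM y i j) i)

end LiprAux

open LiprAux

/-- module LIPR: from almost everywhere bounds to a Lipschitz representative on the cone -/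
theorem lip_of_ae {σ : G →* GU κ} (hL : Lat σ)
    (μ : Measure (GU κ)) [IsHaarMeasure μ]
    (ρ : G →* Matrix n n ℝ) {F : GU κ → PD n} (hF : EqF σ ρ F) (hK : Kinv μ F)
    (hb : ∀ R : ℝ, ∃ A : ℝ, ∃ δ > 0, ∀ (y : GU κ) (ε : ℝ), 0 < ε → ε ≤ δ →
      (∀ i j, ‖y.M i j - (1 : Matrix (κ ⊕ Unit) (κ ⊕ Unit) ℂ) i j‖ ≤ ε) →
      ∀ᵐ g ∂(μ.restrict {g | c g ≤ R}), dist (F g) (F (y * g)) ≤ A * ε) :
    ∃ H : (κ ⊕ Unit → ℂ) → Matrix n n ℝ, EqC σ ρ H ∧ ∀ᵐ g ∂μ, H g.pt = (F g).M := by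
  haveI := right_inv hL μ
  have hB := hb_of μ hb
  obtain ⟨h, hh, hae⟩ := exists_rep μ hF.1 hB
  have hkey : ∀ v ∈ Cn κ, ∀ (g : GU κ) (l : ℂ), l ≠ 0 → g.pt = l • v → h (sec v) = h g := by
    intro v hv g l hl hg
    have h1 : (sec v).pt = (fac v / l) • g.pt := by
      rw [sec_pt hv, hg, smul_smul, div_mul_cancel₀ _ hl]
    obtain ⟨k, hk, e⟩ := same_pt h1
    rw [e]
    exact rep_K μ hK hh hae hk g
  refine ⟨fun v => (h (sec v)).M, ⟨?_, ?_, ?_, ?_⟩, ?_⟩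
  · intro v hv
    exact (h (sec v)).pos
  · intro v hv l hl
    have hlv : l • v ∈ Cn κ := by
      show 0 < LowAux.nqC (l • v)
      rw [nqC_smul]
      have h1 : 0 < LowAux.nqC v := hv
      have h2 : 0 < ‖l‖ := norm_pos_iff.mpr hl
      positivity
    show (h (sec (l • v))).M = (h (sec v)).M
    congr 1
    exact (hkey v hv (sec (l • v)) (fac (l • v) * l) (mul_ne_zero (fac_ne hlv) hl)
      (by rw [sec_pt hlv, smul_smul])).symm
  · intro γ v hv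
    have hgv : (σ γ).M *ᵥ v ∈ Cn κ := by
      show 0 < LowAux.nqC ((σ γ).M *ᵥ v)
      rw [LowAux.nqC_iso (σ γ).pres]
      exact hv
    have h1 := hkey _ hgv (σ γ * sec v) (fac v) (fac_ne hv) (by
      have h2 := sec_pt hv
      unfold GU.pt at h2 ⊢
      rw [M_mul, ← mulVec_mulVec, h2, mulVec_smul])
    show (h (sec ((σ γ).M *ᵥ v))).M = _
    rw [h1, rep_eqv μ hF hh hae]
    rfl
  · intro v hv
    obtain ⟨L, hL0, N, hN, hLN⟩ := rep_lip μ hB hh hae (sec v)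
    obtain ⟨K, hK0, t, ht, htC, hKt⟩ := lip_sec hv
    -- boundedness
    have hcM : ∀ i : n, Continuous fun g : GU κ => (h g).M i i := fun i =>
      (continuous_apply i).comp ((continuous_apply i).comp (PD.continuous_M.comp hh))
    obtain ⟨Bd, hBd⟩ : ∃ Bd : ℝ, ∀ i, (h (sec v)).M i i < Bd := by
      refine ⟨∑ i, |(h (sec v)).M i i| + 1, fun i => ?_⟩
      have h1 : |(h (sec v)).M i i| ≤ ∑ i, |(h (sec v)).M i i| :=
        Finset.single_le_sum (f := fun i => |(h (sec v)).M i i|)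
          (fun _ _ => abs_nonneg _) (Finset.mem_univ i)
      have h2 := le_abs_self ((h (sec v)).M i i)
      linarith
    have e1 : ∀ᶠ g in 𝓝 (sec v), ∀ i, (h g).M i i < Bd :=
      eventually_all.mpr fun i => ((hcM i).tendsto (sec v)).eventually (gt_mem_nhds (hBd i))
    have e2 : ∀ᶠ g in 𝓝 (sec v), dist (h g) (h (sec v)) < 1 / 2 := by
      have h1 : Continuous fun g => dist (h g) (h (sec v)) := hh.dist continuous_const
      refine (h1.tendsto (sec v)).eventually (gt_mem_nhds ?_)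
      rw [dist_self]
      norm_num
    have hcs := continuousAt_sec hv
    have hU : t ∩ sec ⁻¹' (N ∩ {g | (∀ i, (h g).M i i < Bd) ∧
        dist (h g) (h (sec v)) < 1 / 2}) ∈ 𝓝 v :=
      inter_mem ht (hcs (inter_mem hN (e1.and e2)))
    refine ⟨Real.toNNReal (|Bd| * (L * K * Real.exp 1)), _, hU, fun i j => ?_⟩
    apply LipschitzOnWith.of_dist_le_mul
    rintro x ⟨hx1, hx2, hx3, hx4⟩ y ⟨hy1, hy2, hy3, hy4⟩
    rw [Real.coe_toNNReal _ (by positivity)]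
    have h1 := entry_bd (h (sec x)) (h (sec y)) i j
    have h2 := hLN _ hx2 _ hy2
    have h3 := hKt x hx1 y hy1
    have h4 : dist (h (sec x)) (h (sec y)) ≤ L * (K * dist x y) :=
      h2.trans (mul_le_mul_of_nonneg_left h3 hL0)
    have h5 : dist (h (sec x)) (h (sec y)) ≤ 1 := by
      have := dist_triangle_right (h (sec x)) (h (sec y)) (h (sec v))
      linarith
    have h6 : (h (sec x)).M i i + (h (sec x)).M j j ≤ 2 * |Bd| := by
      have a1 := hx3 i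
      have a2 := hx3 j
      have a3 := le_abs_self Bd
      linarith
    have h7 : dist (h (sec x)) (h (sec y)) * Real.exp (dist (h (sec x)) (h (sec y))) ≤
        L * (K * dist x y) * Real.exp 1 :=
      mul_le_mul h4 (Real.exp_le_exp.mpr h5) (Real.exp_pos _).le (by positivity)
    rw [Real.dist_eq, abs_sub_comm]
    refine h1.trans ?_
    calc ((h (sec x)).M i i + (h (sec x)).M j j) / 2 *
          (dist (h (sec x)) (h (sec y)) * Real.exp (dist (h (sec x)) (h (sec y))))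
        ≤ |Bd| * (L * (K * dist x y) * Real.exp 1) := by
          refine mul_le_mul (by linarith) h7 ?_ (abs_nonneg _)
          exact mul_nonneg dist_nonneg (Real.exp_pos _).le
      _ = |Bd| * (L * K * Real.exp 1) * dist x y := by ring
  · filter_upwards [hae] with g hg
    show (h (sec g.pt)).M = _
    rw [hkey g.pt (pt_mem g) g 1 one_ne_zero (by rw [one_smul]), hg]

end Pool.Agent.MPd01a95
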