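import Mathlib
import Pool.Agent.Lib.MP_d01a95_gt_H.HDefs
import Pool.Agent.Lib.MP_d01a95_gt_H.Unimod
import Pool.Agent.Lib.MP_d01a95_gt_H.Cone
import Pool.Agent.Lib.MP_d01a95_gt_H.Rvol
set_option autoImplicit false
set_option linter.all false
open Matrix Filter Topology MeasureTheory Measure
open scoped ENNReal NNReal ContDiff
namespace Pool.Agent.MPd01a95
open GU
variable {κ n ι α : Type} [Fintype κ] [DecidableEq κ] [Fintype n] [DecidableEq n] [Fintype ι] [DecidableEq ι] [Fintype α] [DecidableEq α] {G : Type} [Group G]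

namespace MeanAux

/-- gluing two functions with the same value and derivative -/
theorem glue {f g : ℝ → ℝ} {f' : ℝ} {a : ℝ} (hf : HasDerivAt f f' a) (hg : HasDerivAt g f' a)
    (h : f a = g a) : HasDerivAt (fun x => if x ≤ a then f x else g x) f' a := by
  have h1 : HasDerivWithinAt (fun x => if x ≤ a then f x else g x) f' (Set.Iic a) a := by
    refine hf.hasDerivWithinAt.congr (fun x hx => ?_) ?_
    · have : x ≤ a := hx
      simp [this]
    · simp
  have h2 : HasDerivWithinAt (fun x => if x ≤ a then f x else g x) f' (Set.Ici a) a := by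
    refine hg.hasDerivWithinAt.congr (fun x hx => ?_) ?_
    · rcases eq_or_lt_of_le (show a ≤ x from hx) with rfl | h'
      · simp [h]
      · simp [not_le.2 h']
    · simp [h]
  have h3 := h1.union h2
  rwa [Set.Iic_union_Ici, hasDerivWithinAt_univ] at h3

/-- radial profile -/
noncomputable def pp (m : ℕ) (y : ℝ) : ℝ := if y ≤ 1 then 1 + m - m * y else (y ^ m)⁻¹

/-- its derivative -/
noncomputable def pd (m : ℕ) (y : ℝ) : ℝ := -(m * ((max y 1) ^ (m + 1))⁻¹)

theorem inv_pow_deriv (m : ℕ) (y : ℝ) (hy : 0 < y) :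
    HasDerivAt (fun y : ℝ => (y ^ m)⁻¹) (-(m * (y ^ (m + 1))⁻¹)) y := by
  have h := (hasDerivAt_pow m y).inv (pow_ne_zero m hy.ne')
  refine HasDerivAt.congr_deriv h ?_
  rcases m with _ | m
  · simp
  · simp only [Nat.add_sub_cancel]
    push_cast
    field_simp
    ring

theorem lin_deriv (m : ℕ) (y : ℝ) : HasDerivAt (fun y : ℝ => 1 + (m : ℝ) - m * y) (-(m : ℝ)) y := by
  have h := ((hasDerivAt_id y).const_mul (m : ℝ)).const_sub (1 + (m : ℝ))
  simpa using h

theorem pp_deriv (m : ℕ) (y : ℝ) : HasDerivAt (pp m) (pd m y) y := by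
  rcases lt_trichotomy y 1 with h | h | h
  · have e : pp m =ᶠ[𝓝 y] fun y : ℝ => 1 + (m : ℝ) - m * y := by
      filter_upwards [Iio_mem_nhds h] with x hx
      have : x ≤ 1 := le_of_lt hx
      simp [pp, this]
    have e2 : pd m y = -(m : ℝ) := by simp [pd, max_eq_right h.le]
    rw [e2]
    exact (lin_deriv m y).congr_of_eventuallyEq e
  · subst h
    have e2 : pd m 1 = -(m : ℝ) := by simp [pd]
    rw [e2]
    have h1 := inv_pow_deriv m 1 one_pos
    rw [one_pow, inv_one, mul_one] at h1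
    exact glue (lin_deriv m 1) h1 (by simp)
  · have e : pp m =ᶠ[𝓝 y] fun y : ℝ => (y ^ m)⁻¹ := by
      filter_upwards [Ioi_mem_nhds h] with x hx
      have : ¬ x ≤ 1 := not_le.2 hx
      simp [pp, this]
    have e2 : pd m y = -(m * (y ^ (m + 1))⁻¹) := by simp [pd, max_eq_left h.le]
    rw [e2]
    exact (inv_pow_deriv m y (by linarith)).congr_of_eventuallyEq e

theorem pd_cont (m : ℕ) : Continuous (pd m) := by
  have h : Continuous fun y : ℝ => (max y 1) ^ (m + 1) := by fun_prop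
  have h2 : ∀ y : ℝ, (max y 1) ^ (m + 1) ≠ 0 := fun y =>
    pow_ne_zero _ (lt_of_lt_of_le one_pos (le_max_right _ _)).ne'
  exact ((h.inv₀ h2).const_mul _).neg

theorem pp_cont (m : ℕ) : Continuous (pp m) :=
  continuous_iff_continuousAt.2 fun y => (pp_deriv m y).continuousAt

/-- the kernel -/
theorem pp_pd (m : ℕ) (y : ℝ) : m * pp m y + y * pd m y = m * (m + 1) * max (1 - y) 0 := by
  rcases le_or_gt y 1 with h | h
  · rw [pp, if_pos h, pd, max_eq_right h, max_eq_left (sub_nonneg.2 h)]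
    ring
  · rw [pp, if_neg (not_le.2 h), pd, max_eq_left h.le, max_eq_right (by linarith)]
    have : y ≠ 0 := by positivity
    field_simp
    ring

/-- the primitive -/
noncomputable def PP (m : ℕ) (y : ℝ) : ℝ := y ^ m * pp m y

theorem PP_deriv (m : ℕ) (hm : 0 < m) (y : ℝ) :
    HasDerivAt (PP m) (y ^ (m - 1) * (m * (m + 1) * max (1 - y) 0)) y := by
  have h := (hasDerivAt_pow m y).mul (pp_deriv m y)
  have e : (m : ℝ) * y ^ (m - 1) * pp m y + y ^ m * pd m y =
      y ^ (m - 1) * (m * (m + 1) * max (1 - y) 0) := by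
    rw [← pp_pd]
    obtain ⟨k, rfl⟩ : ∃ k, m = k + 1 := ⟨m - 1, by omega⟩
    simp only [Nat.add_sub_cancel]
    ring
  rw [e] at h
  exact h

theorem PP_mono (m : ℕ) (hm : 0 < m) {x y : ℝ} (hx : 0 ≤ x) (hxy : x ≤ y) : PP m x ≤ PP m y := by
  have h : MonotoneOn (PP m) (Set.Ici 0) := by
    refine monotoneOn_of_deriv_nonneg (convex_Ici 0) ?_ ?_ ?_
    · exact (continuous_iff_continuousAt.2 fun y => (PP_deriv m hm y).continuousAt).continuousOn
    · exact fun y _ => (PP_deriv m hm y).differentiableAt.differentiableWithinAt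
    · intro y hy
      rw [interior_Ici] at hy
      rw [(PP_deriv m hm y).deriv]
      have : 0 < y := hy
      have : 0 ≤ max (1 - y) 0 := le_max_right _ _
      positivity
  exact h hx (hx.trans hxy) hxy

theorem pp_of_ge (m : ℕ) {y : ℝ} (h : 1 ≤ y) : pp m y = (y ^ m)⁻¹ := by
  rcases eq_or_lt_of_le h with rfl | h
  · simp [pp]
  · simp [pp, not_le.2 h]

/-- numerator -/
noncomputable def NN (m : ℕ) (d s : ℝ) : ℝ := pp m (s - 1) - (d ^ m)⁻¹ * pp m ((s - 1) / d)

/-- derivative of the numerator -/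
noncomputable def ND (m : ℕ) (d s : ℝ) : ℝ := pd m (s - 1) - (d ^ m)⁻¹ * (pd m ((s - 1) / d) / d)

theorem NN_deriv (m : ℕ) (d s : ℝ) : HasDerivAt (NN m d) (ND m d s) s := by
  have h1 : HasDerivAt (fun s : ℝ => s - 1) 1 s := (hasDerivAt_id s).sub_const 1
  have h2 := (pp_deriv m (s - 1)).comp s h1
  have h3 : HasDerivAt (fun s : ℝ => (s - 1) / d) (1 / d) s := h1.div_const d
  have h4 := ((pp_deriv m ((s - 1) / d)).comp s h3).const_mul (d ^ m)⁻¹
  refine HasDerivAt.congr_deriv (h2.sub h4) ?_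
  unfold ND
  ring

theorem ND_cont (m : ℕ) (d : ℝ) : Continuous (ND m d) := by
  have h1 : Continuous fun s : ℝ => pd m (s - 1) := (pd_cont m).comp (by fun_prop)
  have h2 : Continuous fun s : ℝ => pd m ((s - 1) / d) := (pd_cont m).comp (by fun_prop)
  exact h1.sub ((h2.div_const d).const_mul _)

theorem NN_nonpos (m : ℕ) (hm : 0 < m) {d s : ℝ} (hd : 0 < d) (hd1 : d ≤ 1) (hs : 1 ≤ s) :
    NN m d s ≤ 0 := by
  have hy : 0 ≤ s - 1 := by linarith
  rcases eq_or_lt_of_le hy with h | h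
  · rw [NN, ← h, zero_div]
    have h1 : pp m 0 = 1 + m := by simp [pp]
    have h2 : 1 ≤ (d ^ m)⁻¹ := (one_le_inv₀ (by positivity)).2 (pow_le_one₀ hd.le hd1)
    rw [h1]
    nlinarith [show (0 : ℝ) ≤ 1 + m by positivity]
  · have h1 : s - 1 ≤ (s - 1) / d := by
      rw [le_div_iff₀ hd]; nlinarith
    have h2 := PP_mono m hm hy h1
    rw [PP, PP, div_pow] at h2
    have h3 : 0 < (s - 1) ^ m := by positivity
    have h4 : (s - 1) ^ m * pp m (s - 1) ≤ (s - 1) ^ m * ((d ^ m)⁻¹ * pp m ((s - 1) / d)) := by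
      calc _ ≤ _ := h2
        _ = _ := by field_simp
    have h5 := le_of_mul_le_mul_left h4 h3
    rw [NN]; linarith

theorem NN_zero (m : ℕ) {d s : ℝ} (hd : 0 < d) (hd1 : d ≤ 1) (hs : 2 ≤ s) : NN m d s = 0 := by
  have h1 : 1 ≤ s - 1 := by linarith
  have h2 : 1 ≤ (s - 1) / d := by
    rw [le_div_iff₀ hd]; linarith
  rw [NN, pp_of_ge m h1, pp_of_ge m h2, div_pow]
  have h3 : (0 : ℝ) < s - 1 := by linarith
  field_simp
  ring

/-- a positive extension of the identity of `[1,∞)` -/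
noncomputable def tf (s : ℝ) : ℝ := if s ≤ 1 then 1 - s + s ^ 2 else s

theorem tf_deriv (s : ℝ) : HasDerivAt tf (min (2 * s - 1) 1) s := by
  have h0 : HasDerivAt (fun s : ℝ => 1 - s + s ^ 2) (2 * s - 1) s := by
    have h := ((hasDerivAt_id s).const_sub 1).add (hasDerivAt_pow 2 s)
    refine HasDerivAt.congr_deriv h ?_
    norm_num
    ring
  rcases lt_trichotomy s 1 with h | h | h
  · have e : tf =ᶠ[𝓝 s] fun s : ℝ => 1 - s + s ^ 2 := by
      filter_upwards [Iio_mem_nhds h] with x hx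
      have : x ≤ 1 := le_of_lt hx
      simp [tf, this]
    rw [min_eq_left (by linarith)]
    exact h0.congr_of_eventuallyEq e
  · subst h
    norm_num at h0 ⊢
    exact glue h0 (hasDerivAt_id 1) (by norm_num)
  · have e : tf =ᶠ[𝓝 s] fun s : ℝ => s := by
      filter_upwards [Ioi_mem_nhds h] with x hx
      have : ¬ x ≤ 1 := not_le.2 hx
      simp [tf, this]
    rw [min_eq_right (by linarith)]
    exact (hasDerivAt_id s).congr_of_eventuallyEq e

theorem tf_pos (s : ℝ) : 0 < tf s := by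
  rw [tf]
  split_ifs with h
  · nlinarith [sq_nonneg (s - 1 / 2)]
  · linarith

theorem tf_ge {s : ℝ} (h : 1 ≤ s) : tf s = s := by
  rcases eq_or_lt_of_le h with rfl | h
  · norm_num [tf]
  · simp [tf, not_le.2 h]

/-- derivative of the radial function -/
noncomputable def bb (m : ℕ) (d s : ℝ) : ℝ := NN m d s / (4 * tf s)

/-- its derivative -/
noncomputable def bd (m : ℕ) (d s : ℝ) : ℝ :=
  (ND m d s * (4 * tf s) - NN m d s * (4 * min (2 * s - 1) 1)) / (4 * tf s) ^ 2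

theorem bb_deriv (m : ℕ) (d s : ℝ) : HasDerivAt (bb m d) (bd m d s) s :=
  (NN_deriv m d s).div ((tf_deriv s).const_mul 4) (by have := tf_pos s; positivity)

theorem NN_cont (m : ℕ) (d : ℝ) : Continuous (NN m d) :=
  continuous_iff_continuousAt.2 fun y => (NN_deriv m d y).continuousAt

theorem tf_cont : Continuous tf :=
  continuous_iff_continuousAt.2 fun y => (tf_deriv y).continuousAt

theorem bb_cont (m : ℕ) (d : ℝ) : Continuous (bb m d) :=
  continuous_iff_continuousAt.2 fun y => (bb_deriv m d y).continuousAt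

theorem bd_cont (m : ℕ) (d : ℝ) : Continuous (bd m d) := by
  have h1 := NN_cont m d
  have h2 := ND_cont m d
  have h3 := tf_cont
  have h4 : ∀ s, (4 * tf s) ^ 2 ≠ 0 := fun s => by have := tf_pos s; positivity
  have h5 : Continuous fun s : ℝ => min (2 * s - 1) 1 := by fun_prop
  exact ((h2.mul (h3.const_mul 4)).sub (h1.mul (h5.const_mul 4))).div ((h3.const_mul 4).pow 2) h4

/-- the radial function without cutoff -/
noncomputable def b0 (m : ℕ) (d s : ℝ) : ℝ := ∫ x in (2 : ℝ)..s, bb m d x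

theorem b0_deriv (m : ℕ) (d s : ℝ) : HasDerivAt (b0 m d) (bb m d s) s :=
  ((bb_cont m d).integral_hasStrictDerivAt 2 s).hasDerivAt

theorem b0_smooth (m : ℕ) (d : ℝ) : ContDiff ℝ 2 (b0 m d) := by
  have e1 : deriv (b0 m d) = bb m d := funext fun s => (b0_deriv m d s).deriv
  have e2 : deriv (bb m d) = bd m d := funext fun s => (bb_deriv m d s).deriv
  rw [show (2 : WithTop ℕ∞) = 1 + 1 by norm_num, contDiff_succ_iff_deriv]
  refine ⟨fun s => (b0_deriv m d s).differentiableAt, by simp, ?_⟩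
  rw [e1, contDiff_one_iff_deriv]
  refine ⟨fun s => (bb_deriv m d s).differentiableAt, ?_⟩
  rw [e2]
  exact bd_cont m d

/-- the kernels -/
noncomputable def kk (m : ℕ) (d s : ℝ) : ℝ := (d ^ m)⁻¹ * (m * (m + 1) * max (1 - |s - 1| / d) 0)

theorem kk_nonneg (m : ℕ) {d : ℝ} (hd : 0 < d) (s : ℝ) : 0 ≤ kk m d s := by
  have : 0 ≤ max (1 - |s - 1| / d) 0 := le_max_right _ _
  unfold kk
  positivity

theorem kk_cont (m : ℕ) (d : ℝ) : Continuous (kk m d) := by
  unfold kk
  fun_prop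

theorem kk_zero (m : ℕ) {d : ℝ} (hd : 0 < d) {s : ℝ} (h : 1 + d ≤ s) : kk m d s = 0 := by
  have : 1 ≤ |s - 1| / d := by
    rw [le_div_iff₀ hd, abs_of_nonneg (by linarith)]; linarith
  rw [kk, max_eq_right (by linarith)]
  simp

theorem kk_supp (m : ℕ) {d : ℝ} (hd : 0 < d) : HasCompactSupport (kk m d) := by
  refine HasCompactSupport.of_support_subset_isCompact (isCompact_Icc (a := 1 - d) (b := 1 + d)) ?_
  intro s hs
  by_contra hc
  apply hs
  have : d ≤ |s - 1| := by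
    rw [Set.mem_Icc, not_and_or] at hc
    rcases hc with hc | hc
    · exact le_trans (by linarith) (neg_le_abs _)
    · exact le_trans (by linarith) (le_abs_self _)
  have : 1 ≤ |s - 1| / d := by
    rw [le_div_iff₀ hd]; linarith
  rw [kk, max_eq_right (by linarith)]
  simp

/-- module MEAN: the radial test functions -/
theorem exists_beta (m : ℕ) (hm : 0 < m) {d : ℝ} (hd : 0 < d) (hd1 : d ≤ 1) :
    ∃ β : ℝ → ℝ, ContDiff ℝ 2 β ∧ HasCompactSupport β ∧ (∀ s, 1 ≤ s → 0 ≤ β s) ∧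
      ∀ s, 1 ≤ s → LL m β s = kk m 1 s - kk m d s := by
  set ζ : ℝ → ℝ := fun s => Real.smoothTransition (4 * s - 1) with hζ
  have hz : ContDiff ℝ 2 ζ := Real.smoothTransition.contDiff.comp (by fun_prop)
  have hz0 : ∀ s, s ≤ 1 / 4 → ζ s = 0 := fun s hs =>
    Real.smoothTransition.zero_of_nonpos (by linarith)
  have hz1 : ∀ s, 1 / 2 ≤ s → ζ s = 1 := fun s hs =>
    Real.smoothTransition.one_of_one_le (by linarith)
  have hb0 : ∀ s, 2 ≤ s → b0 m d s = 0 := by
    intro s hs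
    rw [b0]
    refine intervalIntegral.integral_zero_ae (Filter.Eventually.of_forall fun x hx => ?_)
    rw [Set.uIoc_of_le hs] at hx
    rw [bb, NN_zero m hd hd1 hx.1.le, zero_div]
  refine ⟨fun s => ζ s * b0 m d s, hz.mul (b0_smooth m d), ?_, ?_, ?_⟩
  · refine HasCompactSupport.of_support_subset_isCompact (isCompact_Icc (a := 1 / 4) (b := 2)) ?_
    intro s hs
    by_contra hc
    apply hs
    rw [Set.mem_Icc, not_and_or] at hc
    rcases hc with hc | hc
    · simp only [hz0 s (by linarith), zero_mul]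
    · simp only [hb0 s (by linarith), mul_zero]
  · intro s hs
    simp only [hz1 s (by linarith), one_mul]
    rcases le_or_gt s 2 with h | h
    · rw [b0, intervalIntegral.integral_symm, ← intervalIntegral.integral_neg]
      refine intervalIntegral.integral_nonneg h fun x hx => ?_
      rw [bb]
      have h1 := NN_nonpos m hm hd hd1 (hs.trans hx.1)
      have h2 := tf_pos x
      rw [← neg_div]
      exact div_nonneg (by linarith) (by linarith)
    · rw [hb0 s h.le]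
  · intro s hs
    have e0 : (fun s => ζ s * b0 m d s) =ᶠ[𝓝 s] b0 m d := by
      filter_upwards [Ioi_mem_nhds (show (1 / 2 : ℝ) < s by linarith)] with x hx
      rw [hz1 x (le_of_lt hx), one_mul]
    have e1 : deriv (b0 m d) = bb m d := funext fun s => (b0_deriv m d s).deriv
    rw [LL, e0.deriv.deriv_eq, e0.deriv_eq, e1, (bb_deriv m d s).deriv, bb, bd, tf_ge hs,
      min_eq_right (by linarith)]
    have hs0 : (0 : ℝ) < s := by linarith
    have h1 := pp_pd m (s - 1)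
    have h2 := pp_pd m ((s - 1) / d)
    have h3 : |s - 1| = s - 1 := abs_of_nonneg (by linarith)
    rw [kk, kk, h3, div_one, ← h1, ← h2, NN, ND]
    field_simp
    ring

/-- total mass of the kernels -/
theorem kk_mass (m : ℕ) (hm : 0 < m) {d : ℝ} (hd : 0 < d) :
    ∫ s in Set.Ioi (1 : ℝ), kk m d s * (s - 1) ^ (m - 1) = 1 := by
  have h1 : ∫ s in Set.Ioi (1 : ℝ), kk m d s * (s - 1) ^ (m - 1) =
      ∫ s in (1 : ℝ)..(1 + d), kk m d s * (s - 1) ^ (m - 1) := by
    rw [intervalIntegral.integral_of_le (by linarith)]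
    refine setIntegral_eq_of_subset_of_forall_diff_eq_zero (s := Set.Ioc 1 (1 + d))
      (t := Set.Ioi 1) measurableSet_Ioi (fun x hx => hx.1) (fun x hx => ?_)
    have : 1 + d ≤ x := by
      by_contra hc
      exact hx.2 ⟨hx.1, (not_le.1 hc).le⟩
    rw [kk_zero m hd this, zero_mul]
  rw [h1]
  have h2 : ∀ s ∈ Set.uIcc (1 : ℝ) (1 + d), HasDerivAt (fun s => PP m ((s - 1) / d))
      (kk m d s * (s - 1) ^ (m - 1)) s := by
    intro s hs
    rw [Set.uIcc_of_le (by linarith)] at hs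
    have h3 : HasDerivAt (fun s : ℝ => (s - 1) / d) (1 / d) s :=
      ((hasDerivAt_id s).sub_const 1).div_const d
    have h4 := (PP_deriv m hm ((s - 1) / d)).comp s h3
    refine HasDerivAt.congr_deriv h4 ?_
    unfold kk
    rw [abs_of_nonneg (by linarith [hs.1]), div_pow]
    obtain ⟨k, rfl⟩ : ∃ k, m = k + 1 := ⟨m - 1, by omega⟩
    simp only [Nat.add_sub_cancel]
    field_simp
    ring
  rw [intervalIntegral.integral_eq_sub_of_hasDerivAt h2]
  · have e1 : (1 + d - 1) / d = 1 := by field_simp; ring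
    rw [e1, sub_self, zero_div, PP, PP, pp_of_ge m le_rfl, zero_pow hm.ne']
    simp
  · refine (Continuous.intervalIntegrable ?_ _ _)
    exact (kk_cont m d).mul (by fun_prop)


/-! ### the group -/

section grp

variable {κ : Type} [Fintype κ] [DecidableEq κ]

/-- kernel on the group -/
noncomputable def Kd (m : ℕ) (d : ℝ) (x : GU κ) : ℝ≥0∞ := ENNReal.ofReal (kk m d (c x ^ 2))

theorem kc_cont (m : ℕ) (d : ℝ) : Continuous fun x : GU κ => kk m d (c x ^ 2) :=
  (kk_cont m d).comp (continuous_c.pow 2)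

theorem Kd_meas (m : ℕ) (d : ℝ) : Measurable (Kd m d : GU κ → ℝ≥0∞) :=
  (kc_cont m d).measurable.ennreal_ofReal

theorem sv_pt (g g' : GU κ) : sv g.pt g'.pt = c (g⁻¹ * g') ^ 2 := by
  have h1 : g'.pt = g.M *ᵥ (g⁻¹ * g').pt := by
    unfold GU.pt
    rw [Matrix.mulVec_mulVec, ← M_mul, mul_inv_cancel_left]
  have h2 : g.pt = g.M *ᵥ e0 := rfl
  rw [h1, h2, sv_inv, sv_e0]

theorem one_le_csq (x : GU κ) : 1 ≤ c x ^ 2 := by
  have := c_ge_one x
  nlinarith

theorem kk_ne {m : ℕ} {d : ℝ} (hd : 0 < d) (hd1 : d ≤ 1) {x : GU κ} (h : kk m d (c x ^ 2) ≠ 0) :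
    c x ^ 2 < 1 + d ∧ c x ≤ 2 := by
  have h1 : c x ^ 2 < 1 + d := by
    by_contra hc
    exact h (kk_zero m hd (not_lt.1 hc))
  refine ⟨h1, ?_⟩
  have := c_ge_one x
  nlinarith

variable (μ : Measure (GU κ)) [IsHaarMeasure μ]

theorem integrable_k {u : GU κ → ℝ} (hu : LocallyIntegrable u μ) (m : ℕ) {d : ℝ} (hd : 0 < d)
    (hd1 : d ≤ 1) (g0 : GU κ) : Integrable (fun g => kk m d (c (g0⁻¹ * g) ^ 2) * u g) μ := by
  have hc : Continuous fun g : GU κ => kk m d (c (g0⁻¹ * g) ^ 2) :=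
    (kc_cont m d).comp (continuous_const.mul continuous_id)
  have hs : HasCompactSupport fun g : GU κ => kk m d (c (g0⁻¹ * g) ^ 2) := by
    refine HasCompactSupport.of_support_subset_isCompact (isCompact_c (κ := κ) (2 * c g0 * 2)) ?_
    intro g hg
    have h1 := (kk_ne hd hd1 hg).2
    have h2 := c_mul g0 (g0⁻¹ * g)
    rw [mul_inv_cancel_left] at h2
    have h3 := c_ge_one g0
    exact h2.trans (by gcongr)
  exact hu.integrable_smul_left_of_hasCompactSupport hc hs

theorem step {u : GU κ → ℝ} (hu : LocallyIntegrable u μ) (hu0 : ∀ g, 0 ≤ u g)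
    (hm : 0 < Fintype.card κ)
    (h : ∀ β : ℝ → ℝ, ContDiff ℝ 2 β → HasCompactSupport β → (∀ s, 1 ≤ s → 0 ≤ β s) →
        ∀ v ∈ Cn κ, 0 ≤ ∫ g, u g * LL (Fintype.card κ) β (sv v g.pt) ∂μ)
    {d : ℝ} (hd : 0 < d) (hd1 : d ≤ 1) (g0 : GU κ) :
    ∫⁻ g, ENNReal.ofReal (u g) * Kd (Fintype.card κ) d (g0⁻¹ * g) ∂μ ≤
      ∫⁻ g, ENNReal.ofReal (u g) * Kd (Fintype.card κ) 1 (g0⁻¹ * g) ∂μ := by
  obtain ⟨β, hβ1, hβ2, hβ3, hβ4⟩ := exists_beta (Fintype.card κ) hm hd hd1
  have h1 := h β hβ1 hβ2 hβ3 g0.pt (pt_mem g0).1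
  have e : ∀ g, u g * LL (Fintype.card κ) β (sv g0.pt g.pt) =
      kk (Fintype.card κ) 1 (c (g0⁻¹ * g) ^ 2) * u g -
        kk (Fintype.card κ) d (c (g0⁻¹ * g) ^ 2) * u g := by
    intro g
    rw [sv_pt, hβ4 _ (one_le_csq _)]
    ring
  have i1 := integrable_k μ hu (Fintype.card κ) one_pos le_rfl g0
  have i2 := integrable_k μ hu (Fintype.card κ) hd hd1 g0
  rw [integral_congr_ae (Filter.Eventually.of_forall e), integral_sub i1 i2] at h1
  have h2 : ∀ d' : ℝ, 0 < d' → d' ≤ 1 →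
      ∫⁻ g, ENNReal.ofReal (u g) * Kd (Fintype.card κ) d' (g0⁻¹ * g) ∂μ =
      ENNReal.ofReal (∫ g, kk (Fintype.card κ) d' (c (g0⁻¹ * g) ^ 2) * u g ∂μ) := by
    intro d' hd' hd1'
    rw [ofReal_integral_eq_lintegral_ofReal (integrable_k μ hu (Fintype.card κ) hd' hd1' g0)
      (Filter.Eventually.of_forall fun g => mul_nonneg (kk_nonneg _ hd' _) (hu0 g))]
    refine lintegral_congr fun g => ?_
    rw [Kd, ENNReal.ofReal_mul (kk_nonneg _ hd' _), mul_comm]
  rw [h2 d hd hd1, h2 1 one_pos le_rfl]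
  exact ENNReal.ofReal_le_ofReal (by linarith)

/-- the convolution -/
noncomputable def WW (U K : GU κ → ℝ≥0∞) (g0 : GU κ) : ℝ≥0∞ := ∫⁻ g, U g * K (g0⁻¹ * g) ∂μ

theorem WW_eq (U K : GU κ → ℝ≥0∞) (g0 : GU κ) : WW μ U K g0 = ∫⁻ x, U (g0 * x) * K x ∂μ := by
  rw [WW, ← lintegral_mul_left_eq_self (fun g => U g * K (g0⁻¹ * g)) g0]
  simp only [inv_mul_cancel_left]

theorem WW_meas {U K : GU κ → ℝ≥0∞} (hU : Measurable U) (hK : Measurable K) :
    Measurable (WW μ U K) := by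
  have h : Measurable (Function.uncurry fun (g0 g : GU κ) => U g * K (g0⁻¹ * g)) := by
    unfold Function.uncurry
    fun_prop
  exact h.lintegral_prod_right'

/-- the averages over open sets -/
noncomputable def Ps (O : Set (GU κ)) (U : GU κ → ℝ≥0∞) (x : GU κ) : ℝ≥0∞ :=
  ∫⁻ g, O.indicator (fun _ => 1) (g * x⁻¹) * U g ∂μ

theorem tonelli [μ.IsMulRightInvariant] {U K : GU κ → ℝ≥0∞} (hU : Measurable U)
    (hK : Measurable K) {O : Set (GU κ)} (hO : MeasurableSet O) :
    ∫⁻ g0 in O, WW μ U K g0 ∂μ = ∫⁻ x, K x * Ps μ O U x ∂μ := by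
  have hI : Measurable (O.indicator (fun _ => (1 : ℝ≥0∞))) := measurable_const.indicator hO
  calc ∫⁻ g0 in O, WW μ U K g0 ∂μ
      = ∫⁻ g0, ∫⁻ x, O.indicator (fun _ => 1) g0 * (U (g0 * x) * K x) ∂μ ∂μ := by
        rw [← lintegral_indicator hO]
        refine lintegral_congr fun g0 => ?_
        rw [lintegral_const_mul _ (by fun_prop), ← WW_eq]
        by_cases h : g0 ∈ O
        · simp [h]
        · simp [h]
    _ = ∫⁻ x, ∫⁻ g0, O.indicator (fun _ => 1) g0 * (U (g0 * x) * K x) ∂μ ∂μ := by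
        refine lintegral_lintegral_swap (Measurable.aemeasurable ?_)
        unfold Function.uncurry
        exact (hI.comp measurable_fst).mul ((hU.comp (measurable_fst.mul measurable_snd)).mul
          (hK.comp measurable_snd))
    _ = ∫⁻ x, K x * Ps μ O U x ∂μ := by
        refine lintegral_congr fun x => ?_
        rw [Ps, ← lintegral_mul_right_eq_self (fun g => O.indicator (fun _ => 1) (g * x⁻¹) * U g) x,
          ← lintegral_const_mul]
        · refine lintegral_congr fun g => ?_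
          rw [mul_inv_cancel_right]
          ring
        · simp only [mul_inv_cancel_right]
          exact hI.mul (hU.comp (measurable_id.mul_const x))

theorem mem_KU {x : GU κ} (h : c x ^ 2 ≤ 1) : x ∈ KU κ := by
  have h1 := HypAux.col_n x.M x.pres
  have h2 := HypAux.row_n x.M x.pres
  have h3 : cc x.M ^ 2 ≤ 1 := h
  constructor
  · intro i
    have h4 : ‖x.M (Sum.inl i) (Sum.inr ())‖ ^ 2 ≤
        ∑ k, ‖x.M (Sum.inl k) (Sum.inr ())‖ ^ 2 :=
      Finset.single_le_sum (f := fun k => ‖x.M (Sum.inl k) (Sum.inr ())‖ ^ 2)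
        (fun k _ => by positivity) (Finset.mem_univ i)
    have h5 : ‖x.M (Sum.inl i) (Sum.inr ())‖ ^ 2 = 0 := le_antisymm (by linarith) (by positivity)
    exact norm_eq_zero.1 (pow_eq_zero_iff two_ne_zero |>.1 h5)
  · intro i
    have h4 : ‖x.M (Sum.inr ()) (Sum.inl i)‖ ^ 2 ≤
        ∑ k, ‖x.M (Sum.inr ()) (Sum.inl k)‖ ^ 2 :=
      Finset.single_le_sum (f := fun k => ‖x.M (Sum.inr ()) (Sum.inl k)‖ ^ 2)
        (fun k _ => by positivity) (Finset.mem_univ i)
    have h5 : ‖x.M (Sum.inr ()) (Sum.inl i)‖ ^ 2 = 0 := le_antisymm (by linarith) (by positivity)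
    exact norm_eq_zero.1 (pow_eq_zero_iff two_ne_zero |>.1 h5)

theorem Ps_K [μ.IsMulRightInvariant] {U : GU κ → ℝ≥0∞} {O : Set (GU κ)} (hO : MeasurableSet O)
    {k : GU κ} (hk : ∀ᵐ g ∂μ, U (g * k) = U g) : Ps μ O U k = ∫⁻ g in O, U g ∂μ := by
  rw [Ps, ← lintegral_mul_right_eq_self (fun g => O.indicator (fun _ => 1) (g * k⁻¹) * U g) k,
    ← lintegral_indicator hO]
  refine lintegral_congr_ae ?_
  filter_upwards [hk] with g hg
  rw [mul_inv_cancel_right, hg]
  by_cases h : g ∈ O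
  · simp [h]
  · simp [h]

theorem near [μ.IsMulRightInvariant] {U : GU κ → ℝ≥0∞} (hU : Measurable U)
    (hK : ∀ k ∈ KU κ, ∀ᵐ g ∂μ, U (g * k) = U g) {O : Set (GU κ)} (hO : IsOpen O) {a : ℝ≥0∞}
    (ha : a < ∫⁻ g in O, U g ∂μ) :
    ∃ δ : ℝ, 0 < δ ∧ δ ≤ 1 ∧ ∀ x : GU κ, c x ^ 2 ≤ 1 + δ → a < Ps μ O U x := by
  by_contra hcon
  push Not at hcon
  have h1 : ∀ n : ℕ, ∃ x : GU κ, c x ^ 2 ≤ 1 + 1 / ((n : ℝ) + 1) ∧ Ps μ O U x ≤ a := by
    intro n
    refine hcon _ (by positivity) ?_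
    rw [div_le_one (by positivity)]
    have : (0 : ℝ) ≤ n := by positivity
    linarith
  choose x hx1 hx2 using h1
  have hx3 : ∀ n, x n ∈ {g : GU κ | c g ≤ 2} := by
    intro n
    have h := hx1 n
    have h' : 1 / ((n : ℝ) + 1) ≤ 1 := by
      rw [div_le_one (by positivity)]
      have : (0 : ℝ) ≤ n := by positivity
      linarith
    have h2 := c_ge_one (x n)
    change c (x n) ≤ 2
    nlinarith
  obtain ⟨y, -, φ, hφ, hy⟩ := (isCompact_c (κ := κ) 2).tendsto_subseq hx3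
  have hyK : y ∈ KU κ := by
    apply mem_KU
    have t1 : Tendsto (fun n => c (x (φ n)) ^ 2) atTop (𝓝 (c y ^ 2)) :=
      ((continuous_c.pow 2).tendsto y).comp hy
    have t2 : Tendsto (fun n => 1 + 1 / (((φ n : ℕ) : ℝ) + 1)) atTop (𝓝 (1 + 0)) :=
      (tendsto_one_div_add_atTop_nhds_zero_nat.comp hφ.tendsto_atTop).const_add 1
    rw [add_zero] at t2
    exact le_of_tendsto_of_tendsto' t1 t2 fun n => hx1 (φ n)
  have hI : Measurable (O.indicator (fun _ => (1 : ℝ≥0∞))) :=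
    measurable_const.indicator hO.measurableSet
  have h4 : Ps μ O U y ≤ a := by
    calc Ps μ O U y ≤ ∫⁻ g, liminf (fun n => O.indicator (fun _ => 1) (g * (x (φ n))⁻¹) * U g)
            atTop ∂μ := by
          refine lintegral_mono fun g => ?_
          by_cases h : g * y⁻¹ ∈ O
          · have t : Tendsto (fun n => g * (x (φ n))⁻¹) atTop (𝓝 (g * y⁻¹)) := hy.inv.const_mul g
            have ev : ∀ᶠ n in atTop, O.indicator (fun _ => (1 : ℝ≥0∞)) (g * (x (φ n))⁻¹) * U g =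
                U g := by
              filter_upwards [t.eventually (hO.mem_nhds h)] with n hn
              rw [Set.indicator_of_mem hn, one_mul]
            rw [Set.indicator_of_mem h, one_mul]
            exact (liminf_congr ev).trans (liminf_const _) |>.ge
          · rw [Set.indicator_of_notMem h, zero_mul]
            exact bot_le
      _ ≤ liminf (fun n => Ps μ O U (x (φ n))) atTop := by
          refine lintegral_liminf_le fun n => ?_
          exact (hI.comp (measurable_id.mul_const _)).mul hU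
      _ ≤ liminf (fun _ : ℕ => a) atTop :=
          liminf_le_liminf (Filter.Eventually.of_forall fun n => hx2 (φ n))
      _ = a := liminf_const _
  rw [Ps_K μ hO.measurableSet (hK y hyK)] at h4
  exact absurd ha (not_lt.2 h4)


theorem mass {σ : G →* GU κ} (hm : 0 < Fintype.card κ) {A : ℝ}
    (hA : ∀ β : ℝ → ℝ, Continuous β → HasCompactSupport β →
      ∫ g, β (c g ^ 2) ∂μ = A * ∫ s in Set.Ioi (1 : ℝ), β s * (s - 1) ^ (Fintype.card κ - 1))
    {d : ℝ} (hd : 0 < d) (hd1 : d ≤ 1) :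
    ∫⁻ x, Kd (Fintype.card κ) d x ∂μ = ENNReal.ofReal A := by
  have h1 := hA (kk (Fintype.card κ) d) (kk_cont _ d) (kk_supp _ hd)
  rw [kk_mass _ hm hd, mul_one] at h1
  rw [← h1, ofReal_integral_eq_lintegral_ofReal]
  · rfl
  · have hu : LocallyIntegrable (fun _ : GU κ => (1 : ℝ)) μ :=
      (continuous_const).locallyIntegrable
    have h2 := integrable_k μ hu (Fintype.card κ) hd hd1 1
    simpa using h2
  · exact Filter.Eventually.of_forall fun g => kk_nonneg _ hd _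

theorem open_le [μ.IsMulRightInvariant] {U : GU κ → ℝ≥0∞} (hU : Measurable U)
    (hK : ∀ k ∈ KU κ, ∀ᵐ g ∂μ, U (g * k) = U g) {m : ℕ} {A : ℝ≥0∞} (hA0 : A ≠ 0) (hA1 : A ≠ ⊤)
    (hA : ∀ d : ℝ, 0 < d → d ≤ 1 → ∫⁻ x, Kd m d x ∂μ = A)
    (hs : ∀ d : ℝ, 0 < d → d ≤ 1 → ∀ g0, WW μ U (Kd m d) g0 ≤ WW μ U (Kd m 1) g0)
    {O : Set (GU κ)} (hO : IsOpen O) :
    A * ∫⁻ g in O, U g ∂μ ≤ ∫⁻ g in O, WW μ U (Kd m 1) g ∂μ := by
  rw [mul_comm, ← ENNReal.le_div_iff_mul_le (Or.inl hA0) (Or.inl hA1)]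
  refine le_of_forall_lt_imp_le_of_dense fun a ha => ?_
  rw [ENNReal.le_div_iff_mul_le (Or.inl hA0) (Or.inl hA1)]
  obtain ⟨δ, hδ, hδ1, hx⟩ := near μ hU hK hO ha
  calc a * A = ∫⁻ x, a * Kd m δ x ∂μ := by
        rw [lintegral_const_mul _ (Kd_meas m δ), hA δ hδ hδ1]
    _ ≤ ∫⁻ x, Kd m δ x * Ps μ O U x ∂μ := by
        refine lintegral_mono fun x => ?_
        by_cases h : kk m δ (c x ^ 2) = 0
        · simp [Kd, h]
        · rw [mul_comm]
          exact mul_le_mul_right (hx x (kk_ne hδ hδ1 h).1.le).le _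
    _ = ∫⁻ g0 in O, WW μ U (Kd m δ) g0 ∂μ := (tonelli μ hU (Kd_meas m δ) hO.measurableSet).symm
    _ ≤ _ := lintegral_mono fun g0 => hs δ hδ hδ1 g0

theorem Kd_le (m : ℕ) (x : GU κ) :
    Kd m 1 x ≤ {x : GU κ | c x ≤ 2}.indicator (fun _ => ENNReal.ofReal (m * (m + 1))) x := by
  by_cases h : kk m 1 (c x ^ 2) = 0
  · simp [Kd, h]
  · rw [Set.indicator_of_mem (show x ∈ {x : GU κ | c x ≤ 2} from (kk_ne one_pos le_rfl h).2), Kd]
    refine ENNReal.ofReal_le_ofReal ?_
    rw [kk]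
    have h1 : max (1 - |c x ^ 2 - 1| / 1) 0 ≤ 1 :=
      max_le (by have := abs_nonneg (c x ^ 2 - 1); linarith) zero_le_one
    have h2 : (0 : ℝ) ≤ m * (m + 1) := by positivity
    simp only [one_pow, inv_one, one_mul]
    nlinarith

/-- local finiteness -/
theorem WW_fin {u : GU κ → ℝ} (hu : LocallyIntegrable u μ) (m : ℕ) (R : ℝ) :
    ∃ B : ℝ≥0∞, B ≠ ⊤ ∧ ∀ g0 : GU κ, c g0 ≤ R →
      WW μ (fun g => ENNReal.ofReal (u g)) (Kd m 1) g0 ≤ B ∧
      ∫⁻ x in {x | c x ≤ 2}, ENNReal.ofReal (u (g0 * x)) ∂μ ≤ B := by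
  set S : Set (GU κ) := {g | c g ≤ 2 * R * 2} with hS
  have hSm : MeasurableSet S := (isCompact_c _).measurableSet
  have h2m : MeasurableSet {x : GU κ | c x ≤ 2} := (isCompact_c _).measurableSet
  have hfin : ∫⁻ g in S, ENNReal.ofReal (u g) ∂μ ≠ ⊤ := by
    have h := (hu.integrableOn_isCompact (isCompact_c (κ := κ) (2 * R * 2))).2
    refine ne_top_of_le_ne_top h.ne (lintegral_mono fun g => ?_)
    rw [← ofReal_norm_eq_enorm]
    exact ENNReal.ofReal_le_ofReal (le_abs_self _)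
  set B1 : ℝ≥0∞ := ∫⁻ g in S, ENNReal.ofReal (u g) ∂μ with hB1
  have key : ∀ g0 : GU κ, c g0 ≤ R →
      ∫⁻ x in {x | c x ≤ 2}, ENNReal.ofReal (u (g0 * x)) ∂μ ≤ B1 := by
    intro g0 hg0
    have e1 : ∀ x, {x : GU κ | c x ≤ 2}.indicator (fun x => ENNReal.ofReal (u (g0 * x))) x ≤
        S.indicator (fun g => ENNReal.ofReal (u g)) (g0 * x) := by
      intro x
      by_cases hx : c x ≤ 2
      · have h3 : g0 * x ∈ S := by
          have h1 := c_mul g0 x
          have h2 := c_ge_one g0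
          have h3 := c_ge_one x
          change c (g0 * x) ≤ _
          refine h1.trans ?_
          have : 0 ≤ R := by linarith
          gcongr
        rw [Set.indicator_of_mem h3, Set.indicator_of_mem (show x ∈ {x : GU κ | c x ≤ 2} from hx)]
      · rw [Set.indicator_of_notMem (show x ∉ {x : GU κ | c x ≤ 2} from hx)]
        exact bot_le
    rw [← lintegral_indicator h2m, hB1, ← lintegral_indicator hSm]
    refine (lintegral_mono e1).trans ?_
    rw [lintegral_mul_left_eq_self (S.indicator fun g => ENNReal.ofReal (u g)) g0]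
  refine ⟨max B1 (ENNReal.ofReal (m * (m + 1)) * B1), ?_, fun g0 hg0 => ⟨?_, ?_⟩⟩
  · rw [Ne, max_eq_top]
    rintro (h | h)
    · exact hfin h
    · exact ENNReal.mul_ne_top ENNReal.ofReal_ne_top hfin h
  · refine le_trans ?_ (le_max_right _ _)
    rw [WW_eq]
    calc ∫⁻ x, ENNReal.ofReal (u (g0 * x)) * Kd m 1 x ∂μ
        ≤ ∫⁻ x, ENNReal.ofReal (m * (m + 1)) *
            {x : GU κ | c x ≤ 2}.indicator (fun x => ENNReal.ofReal (u (g0 * x))) x ∂μ := by
          refine lintegral_mono fun x => ?_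
          have h := Kd_le m x
          by_cases hx : c x ≤ 2
          · rw [Set.indicator_of_mem (show x ∈ {x : GU κ | c x ≤ 2} from hx)] at h ⊢
            rw [mul_comm]
            gcongr
          · rw [Set.indicator_of_notMem (show x ∉ {x : GU κ | c x ≤ 2} from hx)] at h ⊢
            rw [le_antisymm h bot_le]
            simp
      _ = ENNReal.ofReal (m * (m + 1)) *
            ∫⁻ x in {x | c x ≤ 2}, ENNReal.ofReal (u (g0 * x)) ∂μ := by
          rw [lintegral_const_mul' _ _ ENNReal.ofReal_ne_top, lintegral_indicator h2m]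
      _ ≤ _ := by gcongr; exact key g0 hg0
  · exact (key g0 hg0).trans (le_max_left _ _)

/-- the pointwise inequality -/
theorem ae_le [μ.IsMulRightInvariant] {u : GU κ → ℝ} (hu : LocallyIntegrable u μ)
    (hum : Measurable u)
    (hK : ∀ k ∈ KU κ, ∀ᵐ g ∂μ, u (g * k) = u g) {m : ℕ} {A : ℝ≥0∞} (hA0 : A ≠ 0) (hA1 : A ≠ ⊤)
    (hA : ∀ d : ℝ, 0 < d → d ≤ 1 → ∫⁻ x, Kd m d x ∂μ = A)
    (hs : ∀ d : ℝ, 0 < d → d ≤ 1 → ∀ g0, WW μ (fun g => ENNReal.ofReal (u g)) (Kd m d) g0 ≤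
      WW μ (fun g => ENNReal.ofReal (u g)) (Kd m 1) g0) :
    ∀ᵐ g ∂μ, A * ENNReal.ofReal (u g) ≤ WW μ (fun g => ENNReal.ofReal (u g)) (Kd m 1) g := by
  set U : GU κ → ℝ≥0∞ := fun g => ENNReal.ofReal (u g) with hU
  have hUm : Measurable U := hum.ennreal_ofReal
  have hW : Measurable (WW μ U (Kd m 1)) := WW_meas μ hUm (Kd_meas m 1)
  have hUK : ∀ k ∈ KU κ, ∀ᵐ g ∂μ, U (g * k) = U g := by
    intro k hk
    filter_upwards [hK k hk] with g hg
    simp only [hU, hg]
  haveI : IsLocallyFiniteMeasure (μ.withDensity (WW μ U (Kd m 1))) := by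
    refine ⟨fun x => ⟨{g | c g < c x + 1}, (isOpen_lt continuous_c continuous_const).mem_nhds
      (by simp), ?_⟩⟩
    obtain ⟨B, hB, hB2⟩ := WW_fin μ hu m (c x + 1)
    have hm1 : MeasurableSet {g : GU κ | c g < c x + 1} :=
      (isOpen_lt continuous_c continuous_const).measurableSet
    rw [withDensity_apply _ hm1]
    calc ∫⁻ g in {g | c g < c x + 1}, WW μ U (Kd m 1) g ∂μ
        ≤ ∫⁻ g in {g | c g < c x + 1}, B ∂μ :=
          setLIntegral_mono measurable_const fun g hg => (hB2 g (le_of_lt hg)).1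
      _ = B * μ {g | c g < c x + 1} := setLIntegral_const _ _
      _ ≤ B * μ {g | c g ≤ c x + 1} := by
          gcongr
          exact fun h => le_of_lt h
      _ < ⊤ := ENNReal.mul_lt_top hB.lt_top (isCompact_c _).measure_lt_top
  refine ae_le_of_forall_setLIntegral_le_of_sigmaFinite (hUm.const_mul A) fun s hs' _ => ?_
  rw [lintegral_const_mul _ hUm, ← withDensity_apply _ hs', ← withDensity_apply _ hs',
    Set.measure_eq_iInf_isOpen s (μ.withDensity (WW μ U (Kd m 1)))]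
  refine le_iInf fun O => le_iInf fun hsO => le_iInf fun hO => ?_
  calc A * μ.withDensity U s ≤ A * μ.withDensity U O := by gcongr
    _ = A * ∫⁻ g in O, U g ∂μ := by rw [withDensity_apply _ hO.measurableSet]
    _ ≤ ∫⁻ g in O, WW μ U (Kd m 1) g ∂μ := open_le μ hUm hUK hA0 hA1 hA hs hO
    _ = _ := by rw [withDensity_apply _ hO.measurableSet]

end grp

end MeanAux

/-- module MEAN: the mean value inequality -/
theorem mean_value (hκ : 0 < Fintype.card κ) {σ : G →* GU κ} (hL : Lat σ)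
    (μ : Measure (GU κ)) [IsHaarMeasure μ] : ∃ A : ℝ, 0 ≤ A ∧ ∀ u : GU κ → ℝ,
      LocallyIntegrable u μ → (∀ g, 0 ≤ u g) → (∀ k ∈ KU κ, ∀ᵐ g ∂μ, u (g * k) = u g) →
      (∀ β : ℝ → ℝ, ContDiff ℝ 2 β → HasCompactSupport β → (∀ s, 1 ≤ s → 0 ≤ β s) →
        ∀ v ∈ Cn κ, 0 ≤ ∫ g, u g * LL (Fintype.card κ) β (sv v g.pt) ∂μ) →
      ∀ᵐ g ∂μ, u g ≤ A * ∫ x in {x | c x ≤ 2}, u (g * x) ∂μ := by
  haveI := right_inv hL μ
  obtain ⟨A, hA, hA2⟩ := radial_vol hL hκ μ
  set m := Fintype.card κ with hm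
  refine ⟨m * (m + 1) / A, by positivity, fun u hu hu0 hK h => ?_⟩
  -- a measurable representative
  obtain ⟨u', hum, hu0', hae⟩ : ∃ u' : GU κ → ℝ, Measurable u' ∧ (∀ g, 0 ≤ u' g) ∧ u =ᵐ[μ] u' := by
    have h1 := hu.aestronglyMeasurable
    refine ⟨fun g => max (h1.mk u g) 0, (h1.stronglyMeasurable_mk.measurable).max measurable_const,
      fun g => le_max_right _ _, ?_⟩
    filter_upwards [h1.ae_eq_mk] with g hg
    rw [← hg, max_eq_left (hu0 g)]
  have hu' : LocallyIntegrable u' μ := by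
    refine hu.mono hum.aestronglyMeasurable ?_
    filter_upwards [hae] with g hg
    rw [hg]
  have hK' : ∀ k ∈ KU κ, ∀ᵐ g ∂μ, u' (g * k) = u' g := by
    intro k hk
    have h1 := (measurePreserving_mul_right μ k).quasiMeasurePreserving.ae_eq_comp hae
    filter_upwards [hK k hk, hae, h1] with g h2 h3 h4
    simp only [Function.comp] at h4
    rw [← h4, h2, h3]
  have h' : ∀ β : ℝ → ℝ, ContDiff ℝ 2 β → HasCompactSupport β → (∀ s, 1 ≤ s → 0 ≤ β s) →
        ∀ v ∈ Cn κ, 0 ≤ ∫ g, u' g * LL m β (sv v g.pt) ∂μ := by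
    intro β h1 h2 h3 v hv
    have h4 := h β h1 h2 h3 v hv
    refine h4.trans_eq (integral_congr_ae ?_)
    filter_upwards [hae] with g hg
    rw [hg]
  have hmass : ∀ d : ℝ, 0 < d → d ≤ 1 → ∫⁻ x : GU κ, MeanAux.Kd m d x ∂μ = ENNReal.ofReal A :=
    fun d hd hd1 => MeanAux.mass μ (σ := σ) hκ hA2 hd hd1
  have key := MeanAux.ae_le μ hu' hum hK' (m := m) (A := ENNReal.ofReal A)
    (by rw [Ne, ENNReal.ofReal_eq_zero]; linarith) ENNReal.ofReal_ne_top hmass
    (fun d hd hd1 g0 => MeanAux.step μ hu' hu0' hκ h' hd hd1 g0)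
  filter_upwards [key, hae] with g hg hg2
  have h2m : MeasurableSet {x : GU κ | c x ≤ 2} := (isCompact_c _).measurableSet
  obtain ⟨B, hB, hB2⟩ := MeanAux.WW_fin μ hu' m (c g)
  have hfin := (hB2 g le_rfl).2
  set I : ℝ≥0∞ := ∫⁻ x in {x | c x ≤ 2}, ENNReal.ofReal (u' (g * x)) ∂μ with hI
  have hI2 : I ≠ ⊤ := ne_top_of_le_ne_top hB hfin
  have e1 : ∫ x in {x | c x ≤ 2}, u (g * x) ∂μ = I.toReal := by
    have e2 : ∫ x in {x | c x ≤ 2}, u (g * x) ∂μ = ∫ x in {x | c x ≤ 2}, u' (g * x) ∂μ := by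
      refine integral_congr_ae (ae_restrict_of_ae ?_)
      have h1 := (measurePreserving_mul_left μ g).quasiMeasurePreserving.ae_eq_comp hae
      filter_upwards [h1] with x hx
      exact hx
    rw [e2, integral_eq_lintegral_of_nonneg_ae (Filter.Eventually.of_forall fun x => hu0' _)
      (hum.comp (measurable_const_mul g)).aestronglyMeasurable]
  have e3 : MeanAux.WW μ (fun g => ENNReal.ofReal (u' g)) (MeanAux.Kd m 1) g ≤
      ENNReal.ofReal (m * (m + 1)) * I := by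
    rw [MeanAux.WW_eq, hI, ← lintegral_indicator h2m, ← lintegral_const_mul' _ _
      ENNReal.ofReal_ne_top]
    refine lintegral_mono fun x => ?_
    have h := MeanAux.Kd_le m x
    by_cases hx : c x ≤ 2
    · rw [Set.indicator_of_mem (show x ∈ {x : GU κ | c x ≤ 2} from hx)] at h ⊢
      rw [mul_comm]
      gcongr
    · rw [Set.indicator_of_notMem (show x ∉ {x : GU κ | c x ≤ 2} from hx)] at h ⊢
      rw [le_antisymm h bot_le]
      simp
  have e4 := ENNReal.toReal_mono (ENNReal.mul_ne_top ENNReal.ofReal_ne_top hI2) (hg.trans e3)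
  rw [ENNReal.toReal_mul, ENNReal.toReal_mul, ENNReal.toReal_ofReal hA.le,
    ENNReal.toReal_ofReal (hu0' g), ENNReal.toReal_ofReal (by positivity)] at e4
  rw [e1, hg2, div_mul_eq_mul_div, le_div_iff₀ hA, mul_comm]
  exact e4

end Pool.Agent.MPd01a95
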