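import Mathlib
import Pool.Agent.Lib.MP_d01a95_gt_H.Energy

/-!
# Local variation, part 1: modification of equivariant maps on a set with disjoint translates
-/

set_option autoImplicit false
set_option linter.all false

open Filter Topology MeasureTheory
open scoped ENNReal NNReal

namespace Pool.Agent.MPd01a95

namespace Var1Aux

section unf

variable {𝔾 : Type} [Group 𝔾] [MeasurableSpace 𝔾] [MeasurableMul₂ 𝔾]
  {μ : Measure 𝔾} {G : Type} [Group G] {σ : G →* 𝔾} {χ : 𝔾 → ℝ≥0∞}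

/-- the saturation of a set -/
def sat (σ : G →* 𝔾) (W : Set 𝔾) : Set 𝔾 := {g | ∃ γ, σ γ * g ∈ W}

/-- the translates of the set are disjoint -/
def Dj (σ : G →* 𝔾) (W : Set 𝔾) : Prop := ∀ γ, γ ≠ 1 → ∀ g ∈ W, σ γ * g ∉ W

theorem Dj.uniq {W : Set 𝔾} (h : Dj σ W) {γ γ' : G} {g : 𝔾} (h1 : σ γ * g ∈ W)
    (h2 : σ γ' * g ∈ W) : γ' = γ := by
  by_contra hne
  have h3 : γ' * γ⁻¹ ≠ 1 := fun h => hne (mul_inv_eq_one.mp h)
  refine h _ h3 _ h1 ?_
  rw [← mul_assoc, ← map_mul, inv_mul_cancel_right]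
  exact h2

theorem Dj.mono {W V : Set 𝔾} (h : Dj σ V) (hWV : W ⊆ V) : Dj σ W :=
  fun γ hγ g hg hg' => h γ hγ g (hWV hg) (hWV hg')

theorem sat_meas [Countable G] {W : Set 𝔾} (hW : MeasurableSet W) :
    MeasurableSet (sat σ W) := by
  have : sat σ W = ⋃ γ, (fun g => σ γ * g) ⁻¹' W := by
    ext g
    simp [sat]
  rw [this]
  exact MeasurableSet.iUnion fun γ => (measurable_const_mul _) hW

theorem lint_sat [Countable G] [μ.IsMulLeftInvariant] (hχm : Measurable χ)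
    (hχ : ∀ g, ∑' γ, χ (σ γ * g) = 1)
    {W : Set 𝔾} (hWm : MeasurableSet W) (hW : Dj σ W) {ψ : 𝔾 → ℝ≥0∞} (hψ : Measurable ψ)
    (hinv : ∀ γ g, ψ (σ γ * g) = ψ g) :
    ∫⁻ g, χ g * (sat σ W).indicator ψ g ∂μ = ∫⁻ g in W, ψ g ∂μ := by
  rw [← lintegral_indicator hWm,
    ← unfold_lintegral (μ := μ) hχm hχ (hψ.indicator hWm)]
  congr 1
  ext g
  congr 1
  by_cases hg : g ∈ sat σ W
  · obtain ⟨γ, hγ⟩ := hg
    rw [Set.indicator_of_mem (show g ∈ sat σ W from ⟨γ, hγ⟩), tsum_eq_single γ]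
    · rw [Set.indicator_of_mem hγ, hinv]
    · intro γ' hne
      exact Set.indicator_of_notMem (fun h' => hne (hW.uniq hγ h')) _
  · rw [Set.indicator_of_notMem hg]
    symm
    rw [ENNReal.tsum_eq_zero]
    intro γ
    exact Set.indicator_of_notMem (fun h' => hg ⟨γ, h'⟩) _

theorem lint_split [Countable G] [μ.IsMulLeftInvariant] (hχm : Measurable χ)
    (hχ : ∀ g, ∑' γ, χ (σ γ * g) = 1)
    {W : Set 𝔾} (hWm : MeasurableSet W) (hW : Dj σ W) {ψ : 𝔾 → ℝ≥0∞} (hψ : Measurable ψ)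
    (hinv : ∀ γ g, ψ (σ γ * g) = ψ g) :
    ∫⁻ g, χ g * ψ g ∂μ = ∫⁻ g, χ g * (sat σ W)ᶜ.indicator ψ g ∂μ + ∫⁻ g in W, ψ g ∂μ := by
  have hs := sat_meas (σ := σ) hWm
  have hm : Measurable fun g => χ g * (sat σ W)ᶜ.indicator ψ g := hχm.mul (hψ.indicator hs.compl)
  rw [← lint_sat hχm hχ hWm hW hψ hinv, ← lintegral_add_left hm]
  congr 1
  ext g
  rw [← mul_add]
  congr 1
  have := congrFun (Set.indicator_self_add_compl (sat σ W) ψ) g
  rw [← this, Pi.add_apply, add_comm]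

variable {Y : Type} [MetricSpace Y] [SecondCountableTopology Y] [MeasurableSpace Y]
  [BorelSpace Y]

/-- energies of two maps which differ only on the translates of `W` -/
theorem eE_mod [Countable G] [μ.IsMulLeftInvariant] (hχm : Measurable χ)
    (hχ : ∀ g, ∑' γ, χ (σ γ * g) = 1) {a : G → Y → Y} (ha : ∀ γ, Isometry (a γ))
    {W : Set 𝔾} (hWm : MeasurableSet W) (hW : Dj σ W)
    {F F' : 𝔾 → Y} (hF : Measurable F) (hFe : ∀ γ g, F (σ γ * g) = a γ (F g))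
    (hF' : Measurable F') (hFe' : ∀ γ g, F' (σ γ * g) = a γ (F' g)) (x : 𝔾)
    (hoff : ∀ g, g ∉ sat σ W → edist (F' g) (F' (g * x)) = edist (F g) (F (g * x))) :
    eE μ χ F' x + ∫⁻ g in W, edist (F g) (F (g * x)) ^ 2 ∂μ =
      eE μ χ F x + ∫⁻ g in W, edist (F' g) (F' (g * x)) ^ 2 ∂μ := by
  have m : ∀ {F : 𝔾 → Y}, Measurable F → Measurable fun g => edist (F g) (F (g * x)) ^ 2 :=
    fun hF => (hF.edist (hF.comp (measurable_mul_const _))).pow_const 2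
  have i : ∀ {F : 𝔾 → Y}, (∀ γ g, F (σ γ * g) = a γ (F g)) → ∀ γ g,
      edist (F (σ γ * g)) (F (σ γ * g * x)) ^ 2 = edist (F g) (F (g * x)) ^ 2 :=
    fun hFe γ g => by simp only [mul_assoc, hFe, (ha γ).edist_eq]
  rw [eE, eE, lint_split hχm hχ hWm hW (m hF) (i hFe), lint_split hχm hχ hWm hW (m hF') (i hFe')]
  have e : ∀ g, (sat σ W)ᶜ.indicator (fun g => edist (F' g) (F' (g * x)) ^ 2) g =
      (sat σ W)ᶜ.indicator (fun g => edist (F g) (F (g * x)) ^ 2) g := by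
    intro g
    by_cases hg : g ∈ sat σ W
    · rw [Set.indicator_of_notMem (by simpa using hg), Set.indicator_of_notMem (by simpa using hg)]
    · rw [Set.indicator_of_mem (by simpa using hg), Set.indicator_of_mem (by simpa using hg),
        hoff g hg]
  simp only [e]
  ring

theorem eE_ge [Countable G] [μ.IsMulLeftInvariant] (hχm : Measurable χ)
    (hχ : ∀ g, ∑' γ, χ (σ γ * g) = 1) {a : G → Y → Y} (ha : ∀ γ, Isometry (a γ))
    {W : Set 𝔾} (hWm : MeasurableSet W) (hW : Dj σ W)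
    {F : 𝔾 → Y} (hF : Measurable F) (hFe : ∀ γ g, F (σ γ * g) = a γ (F g)) (x : 𝔾) :
    ∫⁻ g in W, edist (F g) (F (g * x)) ^ 2 ∂μ ≤ eE μ χ F x := by
  have h := lint_split (μ := μ) hχm hχ hWm hW (ψ := fun g => edist (F g) (F (g * x)) ^ 2)
    ((hF.edist (hF.comp (measurable_mul_const _))).pow_const 2)
    (fun γ g => by simp only [mul_assoc, hFe, (ha γ).edist_eq])
  rw [eE, h]
  exact le_add_self

/-! ### modification -/

open Classical in
/-- modification of `F` on the translates of `V` -/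
noncomputable def modF (σ : G →* 𝔾) (a : G → Y → Y) (V : Set 𝔾) (Φ F : 𝔾 → Y) (g : 𝔾) : Y :=
  if h : ∃ γ, σ γ * g ∈ V then a h.choose⁻¹ (Φ (σ h.choose * g)) else F g

variable {a : G → Y → Y} {V : Set 𝔾} {Φ F : 𝔾 → Y}

theorem modF_of (hV : Dj σ V) {γ : G} {g : 𝔾} (h : σ γ * g ∈ V) :
    modF σ a V Φ F g = a γ⁻¹ (Φ (σ γ * g)) := by
  have h' : ∃ γ, σ γ * g ∈ V := ⟨γ, h⟩
  rw [modF, dif_pos h', hV.uniq h h'.choose_spec]

theorem modF_off {g : 𝔾} (h : g ∉ sat σ V) : modF σ a V Φ F g = F g := by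
  have h' : ¬ ∃ γ, σ γ * g ∈ V := h
  rw [modF, dif_neg h']

theorem modF_on (hV : Dj σ V) (ha1 : ∀ y, a 1 y = y) {g : 𝔾} (h : g ∈ V) :
    modF σ a V Φ F g = Φ g := by
  have h1 : σ 1 * g ∈ V := by rw [map_one, one_mul]; exact h
  rw [modF_of hV h1, inv_one, ha1, map_one, one_mul]

theorem modF_eqv (hV : Dj σ V) (ham : ∀ γ γ' y, a (γ * γ') y = a γ (a γ' y))
    (hFe : ∀ γ g, F (σ γ * g) = a γ (F g)) (γ : G) (g : 𝔾) :
    modF σ a V Φ F (σ γ * g) = a γ (modF σ a V Φ F g) := by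
  by_cases hg : g ∈ sat σ V
  · obtain ⟨γ', hγ'⟩ := hg
    have h1 : σ (γ' * γ⁻¹) * (σ γ * g) = σ γ' * g := by
      rw [← mul_assoc, ← map_mul, inv_mul_cancel_right]
    rw [modF_of hV hγ', modF_of hV (by rw [h1]; exact hγ' : σ (γ' * γ⁻¹) * (σ γ * g) ∈ V), h1,
      mul_inv_rev, inv_inv, ham]
  · have h1 : σ γ * g ∉ sat σ V := by
      rintro ⟨γ', h'⟩
      exact hg ⟨γ' * γ, by rw [map_mul, mul_assoc]; exact h'⟩
    rw [modF_off h1, modF_off hg, hFe]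

theorem modF_meas [Countable G] (hV : Dj σ V) (hVm : MeasurableSet V)
    (ha : ∀ γ, Measurable (a γ)) (hΦ : Measurable Φ) (hF : Measurable F) :
    Measurable (modF σ a V Φ F) := by
  intro S hS
  have e : modF σ a V Φ F ⁻¹' S = (⋃ γ, ((fun g => σ γ * g) ⁻¹' V ∩
      (fun g => a γ⁻¹ (Φ (σ γ * g))) ⁻¹' S)) ∪ ((sat σ V)ᶜ ∩ F ⁻¹' S) := by
    ext g
    simp only [Set.mem_preimage, Set.mem_union, Set.mem_iUnion, Set.mem_inter_iff,
      Set.mem_compl_iff]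
    constructor
    · intro h
      by_cases hg : g ∈ sat σ V
      · obtain ⟨γ, hγ⟩ := hg
        rw [modF_of hV hγ] at h
        exact Or.inl ⟨γ, hγ, h⟩
      · rw [modF_off hg] at h
        exact Or.inr ⟨hg, h⟩
    · rintro (⟨γ, h1, h2⟩ | ⟨h1, h2⟩)
      · rw [modF_of hV h1]; exact h2
      · rw [modF_off h1]; exact h2
  rw [e]
  refine MeasurableSet.union (MeasurableSet.iUnion fun γ => ?_)
    ((sat_meas hVm).compl.inter (hF hS))
  exact ((measurable_const_mul _) hVm).inter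
    (((ha _).comp (hΦ.comp (measurable_const_mul _))) hS)

end unf

end Var1Aux

end Pool.Agent.MPd01a95
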