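import Mathlib
import Pool.Agent.Lib.MP_d01a95_gt_H.Var1a

/-!
# Local variation, part 2: comparison of the energies for one displacement
-/

set_option autoImplicit false
set_option linter.all false

open Filter Topology MeasureTheory
open scoped ENNReal NNReal

namespace Pool.Agent.MPd01a95

namespace Var1Aux

/-- the integrand of the comparison -/
def Gx {𝔾 : Type} [Mul 𝔾] (P s : 𝔾 → ℝ) (x h : 𝔾) : ℝ :=
  -((s h - s h ^ 2) - (s (h * x) - s (h * x) ^ 2)) * (P h - P (h * x)) +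
    (s h - s (h * x)) ^ 2 * (P h + P (h * x))

theorem ofReal_key {p q r t G : ℝ} (hp : 0 ≤ p) (hq : 0 ≤ q) (hr : 0 ≤ r) (ht : 0 ≤ t)
    (h : p + q ≤ r + t + G) : ENNReal.ofReal p + ENNReal.ofReal q + ENNReal.ofReal (-G) ≤
      ENNReal.ofReal r + ENNReal.ofReal t + ENNReal.ofReal G := by
  rw [← ENNReal.ofReal_add hp hq, ← ENNReal.ofReal_add hr ht]
  rcases le_total 0 G with h0 | h0
  · rw [ENNReal.ofReal_of_nonpos (by linarith : -G ≤ 0), add_zero,
      ← ENNReal.ofReal_add (by linarith) h0]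
    exact ENNReal.ofReal_le_ofReal h
  · rw [ENNReal.ofReal_of_nonpos h0, add_zero,
      ← ENNReal.ofReal_add (by linarith) (by linarith)]
    exact ENNReal.ofReal_le_ofReal (by linarith)

section pair

variable {𝔾 : Type} [Group 𝔾] [MeasurableSpace 𝔾] [MeasurableMul₂ 𝔾]
  {μ : Measure 𝔾} {G : Type} [Group G] {σ : G →* 𝔾} {χ : 𝔾 → ℝ≥0∞}
  {Y : Type} [MetricSpace Y] [SecondCountableTopology Y] [MeasurableSpace Y]
  [BorelSpace Y] {geo : ℝ → Y → Y → Y} {a : G → Y → Y} {F : 𝔾 → Y} {y : 𝔾} {U K : Set 𝔾}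
  {s : 𝔾 → ℝ}

/-- moving `F` towards the translated map -/
noncomputable def F1 (σ : G →* 𝔾) (a : G → Y → Y) (geo : ℝ → Y → Y → Y) (U : Set 𝔾) (s : 𝔾 → ℝ)
    (y : 𝔾) (F : 𝔾 → Y) : 𝔾 → Y :=
  modF σ a U (fun g => geo (s g) (F g) (F (y * g))) F

/-- moving the translated map towards `F` -/
noncomputable def F2 (σ : G →* 𝔾) (a : G → Y → Y) (geo : ℝ → Y → Y → Y) (U : Set 𝔾) (s : 𝔾 → ℝ)
    (y : 𝔾) (F : 𝔾 → Y) : 𝔾 → Y :=
  modF σ a {g | y⁻¹ * g ∈ U} (fun g => geo (1 - s (y⁻¹ * g)) (F (y⁻¹ * g)) (F g)) F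

theorem geo_zero (h : CN geo) (a b : Y) : geo 0 a b = a := by
  have := h.left_eq (s := 0) (by constructor <;> norm_num) a b
  rw [zero_mul, dist_eq_zero] at this
  exact this.symm

theorem geo_one (h : CN geo) (a b : Y) : geo 1 a b = b := by
  have := h.right_eq (s := 1) (by constructor <;> norm_num) a b
  rw [sub_self, zero_mul, dist_eq_zero] at this
  exact this

theorem F1_eq (h : CN geo) (hU : Dj σ U) (hs : ∀ g, s g ≠ 0 → g ∈ K)
    (ha1 : ∀ y, a 1 y = y) (ham : ∀ γ γ' y, a (γ * γ') y = a γ (a γ' y))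
    (hFe : ∀ γ g, F (σ γ * g) = a γ (F g)) {g : 𝔾} (hg : g ∉ sat σ K) :
    F1 σ a geo U s y F g = F g := by
  by_cases hg2 : g ∈ sat σ U
  · obtain ⟨γ, hγ⟩ := hg2
    have h0 : s (σ γ * g) = 0 := by
      by_contra hne
      exact hg ⟨γ, hs _ hne⟩
    rw [F1, modF_of hU hγ]
    change a γ⁻¹ (geo (s (σ γ * g)) (F (σ γ * g)) (F (y * (σ γ * g)))) = F g
    rw [h0, geo_zero h, hFe, ← ham, inv_mul_cancel, ha1]
  · exact modF_off hg2

theorem F2_eq (h : CN geo) (hU : Dj σ {g | y⁻¹ * g ∈ U}) (hs : ∀ g, s g ≠ 0 → g ∈ K)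
    (ha1 : ∀ y, a 1 y = y) (ham : ∀ γ γ' y, a (γ * γ') y = a γ (a γ' y))
    (hFe : ∀ γ g, F (σ γ * g) = a γ (F g)) {g : 𝔾} (hg : g ∉ sat σ {g | y⁻¹ * g ∈ K}) :
    F2 σ a geo U s y F g = F g := by
  by_cases hg2 : g ∈ sat σ {g | y⁻¹ * g ∈ U}
  · obtain ⟨γ, hγ⟩ := hg2
    have h0 : s (y⁻¹ * (σ γ * g)) = 0 := by
      by_contra hne
      exact hg ⟨γ, hs _ hne⟩
    rw [F2, modF_of hU hγ]
    change a γ⁻¹ (geo (1 - s (y⁻¹ * (σ γ * g))) (F (y⁻¹ * (σ γ * g))) (F (σ γ * g))) = F g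
    rw [h0, sub_zero, geo_one h, hFe, ← ham, inv_mul_cancel, ha1]
  · exact modF_off hg2

theorem geo_meas (h : CN geo) {s : 𝔾 → ℝ} (hs : Measurable s) (hs1 : ∀ g, s g ∈ Set.Icc (0 : ℝ) 1)
    {u v : 𝔾 → Y} (hu : Measurable u) (hv : Measurable v) :
    Measurable fun g => geo (s g) (u g) (v g) := by
  have hc : Continuous fun p : Set.Icc (0 : ℝ) 1 × Y × Y => geo (p.1 : ℝ) p.2.1 p.2.2 := by
    rw [continuous_iff_continuousAt]
    intro p
    refine h.tendsto (fun p => p.1.2) p.1.2 ?_ ?_ ?_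
    · exact (continuous_subtype_val.comp continuous_fst).tendsto p
    · exact (continuous_fst.comp continuous_snd).tendsto p
    · exact (continuous_snd.comp continuous_snd).tendsto p
  have hm : Measurable fun g => ((⟨s g, hs1 g⟩, u g, v g) : Set.Icc (0 : ℝ) 1 × Y × Y) :=
    (hs.subtype_mk).prodMk (hu.prodMk hv)
  exact hc.measurable.comp hm

theorem edist_sq (x y : Y) : edist x y ^ 2 = ENNReal.ofReal (dist x y ^ 2) := by
  rw [edist_dist, ENNReal.ofReal_pow dist_nonneg]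

variable [Countable G]

theorem F1_meas (h : CN geo) (hU : Dj σ U) (hUm : MeasurableSet U)
    (ha : ∀ γ, Isometry (a γ)) (hs : Measurable s) (hs1 : ∀ g, s g ∈ Set.Icc (0 : ℝ) 1)
    (hF : Measurable F) : Measurable (F1 σ a geo U s y F) :=
  modF_meas hU hUm (fun γ => (ha γ).continuous.measurable)
    (geo_meas h hs hs1 hF (hF.comp (measurable_const_mul y))) hF

theorem F2_meas (h : CN geo) (hU : Dj σ {g | y⁻¹ * g ∈ U}) (hUm : MeasurableSet U)
    (ha : ∀ γ, Isometry (a γ)) (hs : Measurable s) (hs1 : ∀ g, s g ∈ Set.Icc (0 : ℝ) 1)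
    (hF : Measurable F) : Measurable (F2 σ a geo U s y F) := by
  have hm : Measurable fun g => 1 - s (y⁻¹ * g) :=
    measurable_const.sub (hs.comp (measurable_const_mul y⁻¹))
  exact modF_meas hU ((measurable_const_mul y⁻¹) hUm) (fun γ => (ha γ).continuous.measurable)
    (geo_meas h hm
      (fun g => ⟨by linarith [(hs1 (y⁻¹ * g)).2], by linarith [(hs1 (y⁻¹ * g)).1]⟩)
      (hF.comp (measurable_const_mul y⁻¹)) hF) hF

/-- comparison for one displacement -/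
theorem pair_x [μ.IsMulLeftInvariant] (hχm : Measurable χ)
    (hχ : ∀ g, ∑' γ, χ (σ γ * g) = 1) (ha : ∀ γ, Isometry (a γ))
    (h : CN geo) (hU : Dj σ U) (hU' : Dj σ {g | y⁻¹ * g ∈ U}) (hUm : MeasurableSet U)
    (hKm : MeasurableSet K) (hKU : K ⊆ U) (hsm : Measurable s) (hs : ∀ g, s g ≠ 0 → g ∈ K)
    (hs1 : ∀ g, s g ∈ Set.Icc (0 : ℝ) 1)
    (ha1 : ∀ y, a 1 y = y) (ham : ∀ γ γ' y, a (γ * γ') y = a γ (a γ' y))
    (hF : Measurable F) (hFe : ∀ γ g, F (σ γ * g) = a γ (F g)) (x : 𝔾)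
    (hx1 : ∀ g ∈ K, g * x ∈ U) (hx2 : ∀ g, g * x ∈ K → g ∈ U) (hfin : eE μ χ F x ≠ ⊤) :
    eE μ χ (F1 σ a geo U s y F) x + eE μ χ (F2 σ a geo U s y F) x +
        ∫⁻ g, ENNReal.ofReal (-(Gx (fun g => dist (F g) (F (y * g)) ^ 2) s x g)) ∂μ ≤
      2 * eE μ χ F x +
        ∫⁻ g, ENNReal.ofReal (Gx (fun g => dist (F g) (F (y * g)) ^ 2) s x g) ∂μ := by
  set P : 𝔾 → ℝ := fun g => dist (F g) (F (y * g)) ^ 2 with hP
  set W : Set 𝔾 := K ∪ {g | g * x ∈ K} with hW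
  set W' : Set 𝔾 := {g | y⁻¹ * g ∈ W} with hW'
  have hWm : MeasurableSet W := hKm.union ((measurable_mul_const x) hKm)
  have hWm' : MeasurableSet W' := (measurable_const_mul y⁻¹) hWm
  have hWU : W ⊆ U := by
    rintro g (hg | hg)
    · exact hKU hg
    · exact hx2 g hg
  have hWU2 : ∀ g ∈ W, g * x ∈ U := by
    rintro g (hg | hg)
    · exact hx1 g hg
    · exact hKU hg
  have hWd : Dj σ W := hU.mono hWU
  have hWd' : Dj σ W' := hU'.mono fun g hg => hWU hg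
  have hFx : Measurable fun g => F (g * x) := hF.comp (measurable_mul_const x)
  have m1 := F1_meas (y := y) h hU hUm ha hsm hs1 hF
  have m2 := F2_meas (y := y) h hU' hUm ha hsm hs1 hF
  have e1 : ∀ γ g, F1 σ a geo U s y F (σ γ * g) = a γ (F1 σ a geo U s y F g) :=
    fun γ g => modF_eqv hU ham hFe γ g
  have e2 : ∀ γ g, F2 σ a geo U s y F (σ γ * g) = a γ (F2 σ a geo U s y F g) :=
    fun γ g => modF_eqv hU' ham hFe γ g
  have k1 := eE_mod (μ := μ) hχm hχ ha hWm hWd hF hFe m1 e1 x (by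
    intro g hg
    have h1 : g ∉ sat σ K := fun ⟨γ, hγ⟩ => hg ⟨γ, Or.inl hγ⟩
    have h2 : g * x ∉ sat σ K := fun ⟨γ, hγ⟩ => hg ⟨γ, Or.inr (by
      change σ γ * g * x ∈ K
      rw [mul_assoc]; exact hγ)⟩
    rw [F1_eq h hU hs ha1 ham hFe h1, F1_eq h hU hs ha1 ham hFe h2])
  have k2 := eE_mod (μ := μ) hχm hχ ha hWm' hWd' hF hFe m2 e2 x (by
    intro g hg
    have h1 : g ∉ sat σ {g | y⁻¹ * g ∈ K} := fun ⟨γ, hγ⟩ => hg ⟨γ, Or.inl hγ⟩
    have h2 : g * x ∉ sat σ {g | y⁻¹ * g ∈ K} := fun ⟨γ, hγ⟩ => hg ⟨γ, Or.inr (by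
      change y⁻¹ * (σ γ * g) * x ∈ K
      have : y⁻¹ * (σ γ * g) * x = y⁻¹ * (σ γ * (g * x)) := by simp only [mul_assoc]
      rw [this]; exact hγ)⟩
    rw [F2_eq h hU' hs ha1 ham hFe h1, F2_eq h hU' hs ha1 ham hFe h2])
  have g1 := eE_ge (μ := μ) hχm hχ ha hWm hWd hF hFe x
  have g2 := eE_ge (μ := μ) hχm hχ ha hWm' hWd' hF hFe x
  -- substitution g -> y g
  have sub : ∀ {ψ : 𝔾 → ℝ≥0∞}, Measurable ψ →
      ∫⁻ g in W', ψ g ∂μ = ∫⁻ g in W, ψ (y * g) ∂μ := by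
    intro ψ hψ
    rw [← lintegral_indicator hWm', ← lintegral_indicator hWm,
      ← lintegral_mul_left_eq_self (μ := μ) _ y]
    congr 1
    ext g
    by_cases hg : g ∈ W
    · rw [Set.indicator_of_mem hg, Set.indicator_of_mem]
      change y⁻¹ * (y * g) ∈ W
      rwa [inv_mul_cancel_left]
    · rw [Set.indicator_of_notMem hg, Set.indicator_of_notMem]
      change ¬ (y⁻¹ * (y * g) ∈ W)
      rwa [inv_mul_cancel_left]
  have hm : ∀ {F : 𝔾 → Y}, Measurable F → Measurable fun g => edist (F g) (F (g * x)) ^ 2 :=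
    fun hF => (hF.edist (hF.comp (measurable_mul_const _))).pow_const 2
  rw [sub (hm hF), sub (hm m2)] at k2
  rw [sub (hm hF)] at g2
  -- the pointwise inequality
  have hGm : Measurable fun g => Gx P s x g := by
    have hPm : Measurable P := (hF.dist (hF.comp (measurable_const_mul y))).pow_const 2
    have hPx : Measurable fun g => P (g * x) := hPm.comp (measurable_mul_const x)
    have hsx : Measurable fun g => s (g * x) := hsm.comp (measurable_mul_const x)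
    unfold Gx
    exact (((hsm.sub (hsm.pow_const 2)).sub (hsx.sub (hsx.pow_const 2))).neg.mul
      (hPm.sub hPx)).add (((hsm.sub hsx).pow_const 2).mul (hPm.add hPx))
  have hG0 : ∀ g, g ∉ W → Gx P s x g = 0 := by
    intro g hg
    have h1 : s g = 0 := by
      by_contra hne
      exact hg (Or.inl (hs _ hne))
    have h2 : s (g * x) = 0 := by
      by_contra hne
      exact hg (Or.inr (hs _ hne))
    unfold Gx
    rw [h1, h2]
    ring
  have hGW : ∀ φ : ℝ → ℝ, φ 0 = 0 → ∫⁻ g, ENNReal.ofReal (φ (Gx P s x g)) ∂μ =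
      ∫⁻ g in W, ENNReal.ofReal (φ (Gx P s x g)) ∂μ := by
    intro φ hφ
    rw [← lintegral_indicator hWm]
    congr 1
    ext g
    by_cases hg : g ∈ W
    · rw [Set.indicator_of_mem hg]
    · rw [Set.indicator_of_notMem hg, hG0 g hg, hφ, ENNReal.ofReal_zero]
  have hw1 := hGW (fun t => -t) neg_zero
  have hw2 := hGW (fun t => t) rfl
  beta_reduce at hw1 hw2
  rw [hw1, hw2]
  have key : ∫⁻ g in W, edist (F1 σ a geo U s y F g) (F1 σ a geo U s y F (g * x)) ^ 2 ∂μ +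
      ∫⁻ g in W, edist (F2 σ a geo U s y F (y * g)) (F2 σ a geo U s y F (y * g * x)) ^ 2 ∂μ +
      ∫⁻ g in W, ENNReal.ofReal (-(Gx P s x g)) ∂μ ≤
      ∫⁻ g in W, edist (F g) (F (g * x)) ^ 2 ∂μ +
      ∫⁻ g in W, edist (F (y * g)) (F (y * g * x)) ^ 2 ∂μ +
      ∫⁻ g in W, ENNReal.ofReal (Gx P s x g) ∂μ := by
    have q1 : Measurable fun g => ENNReal.ofReal (-(Gx P s x g)) :=
      ENNReal.measurable_ofReal.comp (measurable_neg.comp hGm)
    have q2 : Measurable fun g => ENNReal.ofReal (Gx P s x g) :=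
      ENNReal.measurable_ofReal.comp hGm
    rw [← lintegral_add_left (hm m1), ← lintegral_add_right _ q1,
      ← lintegral_add_left (hm hF), ← lintegral_add_right _ q2]
    refine setLIntegral_mono' hWm fun g hg => ?_
    have t1 : F1 σ a geo U s y F g = geo (s g) (F g) (F (y * g)) :=
      modF_on hU ha1 (hWU hg)
    have t2 : F1 σ a geo U s y F (g * x) = geo (s (g * x)) (F (g * x)) (F (y * (g * x))) :=
      modF_on hU ha1 (hWU2 g hg)
    have t3 : F2 σ a geo U s y F (y * g) = geo (1 - s g) (F g) (F (y * g)) := by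
      have : y * g ∈ {g | y⁻¹ * g ∈ U} := by
        change y⁻¹ * (y * g) ∈ U
        rw [inv_mul_cancel_left]; exact hWU hg
      rw [F2, modF_on hU' ha1 this]
      simp only [inv_mul_cancel_left]
    have t4 : F2 σ a geo U s y F (y * g * x) =
        geo (1 - s (g * x)) (F (g * x)) (F (y * (g * x))) := by
      have : y * (g * x) ∈ {g | y⁻¹ * g ∈ U} := by
        change y⁻¹ * (y * (g * x)) ∈ U
        rw [inv_mul_cancel_left]; exact hWU2 g hg
      rw [mul_assoc, F2, modF_on hU' ha1 this]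
      simp only [inv_mul_cancel_left]
    rw [t1, t2, t3, t4, mul_assoc y g x]
    simp only [edist_sq]
    have hp := h.pair (hs1 g) (hs1 (g * x)) (F g) (F (y * g)) (F (g * x)) (F (y * (g * x)))
    have hq : dist (geo (s g) (F g) (F (y * g))) (geo (s (g * x)) (F (g * x)) (F (y * (g * x)))) ^ 2
        + dist (geo (1 - s g) (F g) (F (y * g)))
          (geo (1 - s (g * x)) (F (g * x)) (F (y * (g * x)))) ^ 2 ≤
        dist (F g) (F (g * x)) ^ 2 + dist (F (y * g)) (F (y * (g * x))) ^ 2 + Gx P s x g := by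
      refine hp.trans (le_of_eq ?_)
      simp only [Gx, hP]
      ring
    exact ofReal_key (sq_nonneg _) (sq_nonneg _) (sq_nonneg _) (sq_nonneg _) hq
  set A0 := ∫⁻ g in W, edist (F g) (F (g * x)) ^ 2 ∂μ
  set A0' := ∫⁻ g in W, edist (F (y * g)) (F (y * g * x)) ^ 2 ∂μ
  set A1 := ∫⁻ g in W, edist (F1 σ a geo U s y F g) (F1 σ a geo U s y F (g * x)) ^ 2 ∂μ
  set A2 := ∫⁻ g in W, edist (F2 σ a geo U s y F (y * g)) (F2 σ a geo U s y F (y * g * x)) ^ 2 ∂μ
  have hA : A0 + A0' ≠ ⊤ :=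
    ENNReal.add_ne_top.mpr ⟨ne_top_of_le_ne_top hfin g1, ne_top_of_le_ne_top hfin g2⟩
  refine (ENNReal.add_le_add_iff_right hA).mp ?_
  calc eE μ χ (F1 σ a geo U s y F) x + eE μ χ (F2 σ a geo U s y F) x +
        ∫⁻ g in W, ENNReal.ofReal (-(Gx P s x g)) ∂μ + (A0 + A0')
      = (eE μ χ (F1 σ a geo U s y F) x + A0) + (eE μ χ (F2 σ a geo U s y F) x + A0') +
        ∫⁻ g in W, ENNReal.ofReal (-(Gx P s x g)) ∂μ := by ring
    _ = 2 * eE μ χ F x + (A1 + A2 + ∫⁻ g in W, ENNReal.ofReal (-(Gx P s x g)) ∂μ) := by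
        rw [k1, k2]; ring
    _ ≤ 2 * eE μ χ F x + (A0 + A0' + ∫⁻ g in W, ENNReal.ofReal (Gx P s x g) ∂μ) := by
        gcongr
    _ = _ := by ring

/-- the modified maps are at finite distance -/
theorem eD_F1 [μ.IsMulLeftInvariant] (hχm : Measurable χ)
    (hχ : ∀ g, ∑' γ, χ (σ γ * g) = 1) (ha : ∀ γ, Isometry (a γ))
    (h : CN geo) (hU : Dj σ U) (hUm : MeasurableSet U)
    (hKm : MeasurableSet K) (hKU : K ⊆ U) (hsm : Measurable s) (hs : ∀ g, s g ≠ 0 → g ∈ K)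
    (hs1 : ∀ g, s g ∈ Set.Icc (0 : ℝ) 1)
    (ha1 : ∀ y, a 1 y = y) (ham : ∀ γ γ' y, a (γ * γ') y = a γ (a γ' y))
    (hF : Measurable F) (hFe : ∀ γ g, F (σ γ * g) = a γ (F g)) :
    eD μ χ F (F1 σ a geo U s y F) ≤ ∫⁻ g in K, edist (F g) (F (y * g)) ^ 2 ∂μ := by
  have m1 := F1_meas (y := y) h hU hUm ha hsm hs1 hF
  have e1 : ∀ γ g, F1 σ a geo U s y F (σ γ * g) = a γ (F1 σ a geo U s y F g) :=
    fun γ g => modF_eqv hU ham hFe γ g
  rw [eD, lint_split (μ := μ) hχm hχ hKm (hU.mono hKU)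
    (ψ := fun g => edist (F g) (F1 σ a geo U s y F g) ^ 2) ((hF.edist m1).pow_const 2)
    (fun γ g => by simp only [hFe, e1, (ha γ).edist_eq])]
  have h0 : ∫⁻ g, χ g * (sat σ K)ᶜ.indicator
      (fun g => edist (F g) (F1 σ a geo U s y F g) ^ 2) g ∂μ = 0 := by
    rw [← lintegral_zero (μ := μ)]
    congr 1
    ext g
    by_cases hg : g ∈ sat σ K
    · rw [Set.indicator_of_notMem (by simpa using hg), mul_zero]
    · rw [Set.indicator_of_mem (by simpa using hg), F1_eq h hU hs ha1 ham hFe hg, edist_self]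
      simp
  rw [h0, zero_add]
  refine setLIntegral_mono' hKm fun g hg => ?_
  have t1 : F1 σ a geo U s y F g = geo (s g) (F g) (F (y * g)) := modF_on hU ha1 (hKU hg)
  rw [t1, edist_sq, edist_sq, h.left_eq (hs1 g)]
  apply ENNReal.ofReal_le_ofReal
  have := (hs1 g).1
  have := (hs1 g).2
  have h3 : s g * dist (F g) (F (y * g)) ≤ 1 * dist (F g) (F (y * g)) := by gcongr
  rw [one_mul] at h3
  exact pow_le_pow_left₀ (mul_nonneg (hs1 g).1 dist_nonneg) h3 2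

theorem eD_F2 [μ.IsMulLeftInvariant] (hχm : Measurable χ)
    (hχ : ∀ g, ∑' γ, χ (σ γ * g) = 1) (ha : ∀ γ, Isometry (a γ))
    (h : CN geo) (hU' : Dj σ {g | y⁻¹ * g ∈ U}) (hUm : MeasurableSet U)
    (hKm : MeasurableSet K) (hKU : K ⊆ U) (hsm : Measurable s) (hs : ∀ g, s g ≠ 0 → g ∈ K)
    (hs1 : ∀ g, s g ∈ Set.Icc (0 : ℝ) 1)
    (ha1 : ∀ y, a 1 y = y) (ham : ∀ γ γ' y, a (γ * γ') y = a γ (a γ' y))
    (hF : Measurable F) (hFe : ∀ γ g, F (σ γ * g) = a γ (F g)) :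
    eD μ χ F (F2 σ a geo U s y F) ≤ ∫⁻ g in K, edist (F g) (F (y * g)) ^ 2 ∂μ := by
  have m1 := F2_meas (y := y) h hU' hUm ha hsm hs1 hF
  have e1 : ∀ γ g, F2 σ a geo U s y F (σ γ * g) = a γ (F2 σ a geo U s y F g) :=
    fun γ g => modF_eqv hU' ham hFe γ g
  have hKm' : MeasurableSet {g | y⁻¹ * g ∈ K} := (measurable_const_mul y⁻¹) hKm
  rw [eD, lint_split (μ := μ) hχm hχ hKm' (hU'.mono fun g hg => hKU hg)
    (ψ := fun g => edist (F g) (F2 σ a geo U s y F g) ^ 2) ((hF.edist m1).pow_const 2)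
    (fun γ g => by simp only [hFe, e1, (ha γ).edist_eq])]
  have h0 : ∫⁻ g, χ g * (sat σ {g | y⁻¹ * g ∈ K})ᶜ.indicator
      (fun g => edist (F g) (F2 σ a geo U s y F g) ^ 2) g ∂μ = 0 := by
    rw [← lintegral_zero (μ := μ)]
    congr 1
    ext g
    by_cases hg : g ∈ sat σ {g | y⁻¹ * g ∈ K}
    · rw [Set.indicator_of_notMem (by simpa using hg), mul_zero]
    · rw [Set.indicator_of_mem (by simpa using hg), F2_eq h hU' hs ha1 ham hFe hg, edist_self]
      simp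
  rw [h0, zero_add, ← lintegral_indicator hKm', ← lintegral_indicator hKm,
      ← lintegral_mul_left_eq_self (μ := μ) _ y]
  apply lintegral_mono
  intro g
  simp only
  by_cases hg : g ∈ K
  · have hy : y * g ∈ {g | y⁻¹ * g ∈ K} := by
      change y⁻¹ * (y * g) ∈ K
      rwa [inv_mul_cancel_left]
    have hy' : y * g ∈ {g | y⁻¹ * g ∈ U} := by
      change y⁻¹ * (y * g) ∈ U
      rw [inv_mul_cancel_left]; exact hKU hg
    rw [Set.indicator_of_mem hg, Set.indicator_of_mem hy, F2, modF_on hU' ha1 hy']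
    simp only [inv_mul_cancel_left]
    have hs' : 1 - s g ∈ Set.Icc (0 : ℝ) 1 := ⟨by linarith [(hs1 g).2], by linarith [(hs1 g).1]⟩
    rw [edist_sq, edist_sq, dist_comm (F (y * g)), h.right_eq hs']
    apply ENNReal.ofReal_le_ofReal
    have h3 : (1 - (1 - s g)) * dist (F g) (F (y * g)) ≤ 1 * dist (F g) (F (y * g)) := by
      have := (hs1 g).2
      gcongr
      linarith
    rw [one_mul] at h3
    exact pow_le_pow_left₀ (mul_nonneg (by linarith [(hs1 g).1]) dist_nonneg) h3 2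
  · have hy : y * g ∉ {g | y⁻¹ * g ∈ K} := by
      change ¬ (y⁻¹ * (y * g) ∈ K)
      rwa [inv_mul_cancel_left]
    rw [Set.indicator_of_notMem hg, Set.indicator_of_notMem hy]

end pair

end Var1Aux

end Pool.Agent.MPd01a95
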