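import Mathlib
import Pool.Agent.Lib.MP_d01a95_gt_H.Var1b

/-!
# Local variation, part 3: summation over the displacements and the use of minimality
-/

set_option autoImplicit false
set_option linter.all false

open Filter Topology MeasureTheory
open scoped ENNReal NNReal

namespace Pool.Agent.MPd01a95

namespace Var1Aux

section sum

variable {𝔾 : Type} [Group 𝔾] [MeasurableSpace 𝔾] [MeasurableMul₂ 𝔾]
  {μ : Measure 𝔾} {G : Type} [Group G] {σ : G →* 𝔾} {χ : 𝔾 → ℝ≥0∞}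
  {Y : Type} [MetricSpace Y] [SecondCountableTopology Y] [MeasurableSpace Y]
  [BorelSpace Y] {geo : ℝ → Y → Y → Y} {a : G → Y → Y} {F : 𝔾 → Y} {y : 𝔾} {U K : Set 𝔾}
  {s : 𝔾 → ℝ} {Θ : Type} [MeasurableSpace Θ] {θ : Measure Θ} {x : ℕ → Θ → 𝔾}

theorem Gx_meas {P s : 𝔾 → ℝ} (hP : Measurable P) (hs : Measurable s) {z : Θ → 𝔾}
    (hz : Measurable z) : Measurable fun p : Θ × 𝔾 => Gx P s (z p.1) p.2 := by
  have h1 : Measurable fun p : Θ × 𝔾 => s p.2 := hs.comp measurable_snd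
  have h2 : Measurable fun p : Θ × 𝔾 => s (p.2 * z p.1) :=
    hs.comp (measurable_snd.mul (hz.comp measurable_fst))
  have h3 : Measurable fun p : Θ × 𝔾 => P p.2 := hP.comp measurable_snd
  have h4 : Measurable fun p : Θ × 𝔾 => P (p.2 * z p.1) :=
    hP.comp (measurable_snd.mul (hz.comp measurable_fst))
  unfold Gx
  exact (((h1.sub (h1.pow_const 2)).sub (h2.sub (h2.pow_const 2))).neg.mul
      (h3.sub h4)).add (((h1.sub h2).pow_const 2).mul (h3.add h4))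

/-- minimality gives a one sided bound for the limit of the comparison terms -/
theorem var_abs [Countable G] [SFinite μ] [SFinite θ] [μ.IsMulLeftInvariant]
    [μ.IsMulRightInvariant] (hχm : Measurable χ)
    (hχ : ∀ g, ∑' γ, χ (σ γ * g) = 1) (ha : ∀ γ, Isometry (a γ))
    (h : CN geo) (hU : Dj σ U) (hU' : Dj σ {g | y⁻¹ * g ∈ U}) (hUm : MeasurableSet U)
    (hKm : MeasurableSet K) (hKU : K ⊆ U) (hsm : Measurable s) (hs : ∀ g, s g ≠ 0 → g ∈ K)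
    (hs1 : ∀ g, s g ∈ Set.Icc (0 : ℝ) 1)
    (ha1 : ∀ y, a 1 y = y) (ham : ∀ γ γ' y, a (γ * γ') y = a γ (a γ' y))
    (hxm : ∀ n, Measurable (x n)) (hx : ∀ n ϑ, x n ϑ = x (n + 1) ϑ * x (n + 1) ϑ)
    (hF : Measurable F) (hFe : ∀ γ g, F (σ γ * g) = a γ (F g))
    (hN : ∀ᶠ n in atTop, (∀ ϑ, ∀ g ∈ K, g * x n ϑ ∈ U) ∧ ∀ ϑ, ∀ g, g * x n ϑ ∈ K → g ∈ U)
    (hE : eT μ χ θ x F ≠ ⊤) (hm1 : eT μ χ θ x F ≤ eT μ χ θ x (F1 σ a geo U s y F))
    (hm2 : eT μ χ θ x F ≤ eT μ χ θ x (F2 σ a geo U s y F))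
    (hint : ∀ᶠ n in atTop, Integrable
      (fun p : Θ × 𝔾 => Gx (fun g => dist (F g) (F (y * g)) ^ 2) s (x n p.1) p.2) (θ.prod μ))
    {L : ℝ} (hL : Tendsto (fun n : ℕ => (4 : ℝ) ^ n * ∫ p : Θ × 𝔾,
      Gx (fun g => dist (F g) (F (y * g)) ^ 2) s (x n p.1) p.2 ∂(θ.prod μ)) atTop (𝓝 L)) :
    0 ≤ L := by
  by_contra hneg
  push Not at hneg
  set P : 𝔾 → ℝ := fun g => dist (F g) (F (y * g)) ^ 2 with hP
  have hPm : Measurable P := (hF.dist (hF.comp (measurable_const_mul y))).pow_const 2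
  have m1 := F1_meas (y := y) h hU hUm ha hsm hs1 hF
  have m2 := F2_meas (y := y) h hU' hUm ha hsm hs1 hF
  have e1 : ∀ γ g, F1 σ a geo U s y F (σ γ * g) = a γ (F1 σ a geo U s y F g) :=
    fun γ g => modF_eqv hU ham hFe γ g
  have e2 : ∀ γ g, F2 σ a geo U s y F (σ γ * g) = a γ (F2 σ a geo U s y F g) :=
    fun γ g => modF_eqv hU' ham hFe γ g
  set δ : ℝ := -(L / 2) with hδ
  have hδ0 : 0 < δ := by rw [hδ]; linarith
  have hev := hL.eventually (Iio_mem_nhds (show L < -δ by rw [hδ]; linarith))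
  have key : ∀ᶠ n in atTop, eN μ χ θ x (F1 σ a geo U s y F) n +
      eN μ χ θ x (F2 σ a geo U s y F) n + ENNReal.ofReal δ ≤ 2 * eT μ χ θ x F := by
    filter_upwards [hN, hint, hev] with n h1 h2 h3
    obtain ⟨h1a, h1b⟩ := h1
    have hGm : Measurable fun p : Θ × 𝔾 => Gx P s (x n p.1) p.2 := Gx_meas hPm hsm (hxm n)
    set A : ℝ≥0∞ := ∫⁻ p : Θ × 𝔾, ENNReal.ofReal (Gx P s (x n p.1) p.2) ∂(θ.prod μ) with hA
    set B : ℝ≥0∞ := ∫⁻ p : Θ × 𝔾, ENNReal.ofReal (-(Gx P s (x n p.1) p.2)) ∂(θ.prod μ) with hB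
    have hAt : A ≠ ⊤ := h2.lintegral_lt_top.ne
    have hBt : B ≠ ⊤ := h2.neg.lintegral_lt_top.ne
    have hAB := integral_eq_lintegral_pos_part_sub_lintegral_neg_part h2
    rw [← hA, ← hB] at hAB
    have hfin : ∫⁻ ϑ, eE μ χ F (x n ϑ) ∂θ ≠ ⊤ := by
      have := ne_top_of_le_ne_top hE (eN_le_eT (μ := μ) (χ := χ) (θ := θ) (x := x) F n)
      rw [eN] at this
      intro hcon
      rw [hcon] at this
      exact this (by simp)
    have hEm := measurable_eE (μ := μ) hχm hF (hxm n)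
    have hpt : ∀ᵐ ϑ ∂θ, eE μ χ (F1 σ a geo U s y F) (x n ϑ) +
        eE μ χ (F2 σ a geo U s y F) (x n ϑ) +
        ∫⁻ g, ENNReal.ofReal (-(Gx P s (x n ϑ) g)) ∂μ ≤
      2 * eE μ χ F (x n ϑ) + ∫⁻ g, ENNReal.ofReal (Gx P s (x n ϑ) g) ∂μ := by
      filter_upwards [ae_lt_top hEm hfin] with ϑ hϑ
      exact pair_x hχm hχ ha h hU hU' hUm hKm hKU hsm hs hs1 ha1 ham hF hFe (x n ϑ) (h1a ϑ)
        (h1b ϑ) hϑ.ne
    have q1 : Measurable fun p : Θ × 𝔾 => ENNReal.ofReal (-(Gx P s (x n p.1) p.2)) :=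
      ENNReal.measurable_ofReal.comp (measurable_neg.comp hGm)
    have q2 : Measurable fun p : Θ × 𝔾 => ENNReal.ofReal (Gx P s (x n p.1) p.2) :=
      ENNReal.measurable_ofReal.comp hGm
    have hi := lintegral_mono_ae hpt
    have eA : A = ∫⁻ ϑ, ∫⁻ g, ENNReal.ofReal (Gx P s (x n ϑ) g) ∂μ ∂θ :=
      lintegral_prod _ q2.aemeasurable
    have eB : B = ∫⁻ ϑ, ∫⁻ g, ENNReal.ofReal (-(Gx P s (x n ϑ) g)) ∂μ ∂θ :=
      lintegral_prod _ q1.aemeasurable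
    have r1 := measurable_eE (μ := μ) hχm m1 (hxm n)
    have r2 := measurable_eE (μ := μ) hχm m2 (hxm n)
    have r3 : Measurable fun ϑ => eE μ χ (F1 σ a geo U s y F) (x n ϑ) +
        eE μ χ (F2 σ a geo U s y F) (x n ϑ) := r1.add r2
    rw [lintegral_add_left r3, lintegral_add_left r1,
      lintegral_add_left (hEm.const_mul 2), lintegral_const_mul 2 hEm, ← eA, ← eB] at hi
    have hAB2 : 4 ^ n * A + ENNReal.ofReal δ ≤ 4 ^ n * B := by
      rw [← ENNReal.toReal_le_toReal (by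
          exact ENNReal.add_ne_top.mpr ⟨ENNReal.mul_ne_top (by simp) hAt, ENNReal.ofReal_ne_top⟩)
          (ENNReal.mul_ne_top (by simp) hBt),
        ENNReal.toReal_add (ENNReal.mul_ne_top (by simp) hAt) ENNReal.ofReal_ne_top,
        ENNReal.toReal_mul, ENNReal.toReal_mul, ENNReal.toReal_ofReal hδ0.le]
      have h4 : (4 ^ n : ℝ≥0∞).toReal = (4 : ℝ) ^ n := by simp
      rw [h4]
      have h5 : (4 : ℝ) ^ n * ∫ p : Θ × 𝔾, Gx P s (x n p.1) p.2 ∂(θ.prod μ) < -δ := h3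
      rw [hAB, mul_sub] at h5
      linarith
    have hmul : 4 ^ n * (∫⁻ ϑ, eE μ χ (F1 σ a geo U s y F) (x n ϑ) ∂θ +
        ∫⁻ ϑ, eE μ χ (F2 σ a geo U s y F) (x n ϑ) ∂θ + B) ≤
        4 ^ n * (2 * ∫⁻ ϑ, eE μ χ F (x n ϑ) ∂θ + A) := by gcongr
    have hc : 4 ^ n * A ≠ ⊤ := ENNReal.mul_ne_top (by simp) hAt
    refine (ENNReal.add_le_add_iff_right hc).mp ?_
    calc eN μ χ θ x (F1 σ a geo U s y F) n + eN μ χ θ x (F2 σ a geo U s y F) n +
          ENNReal.ofReal δ + 4 ^ n * A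
        = eN μ χ θ x (F1 σ a geo U s y F) n + eN μ χ θ x (F2 σ a geo U s y F) n +
          (4 ^ n * A + ENNReal.ofReal δ) := by ring
      _ ≤ eN μ χ θ x (F1 σ a geo U s y F) n + eN μ χ θ x (F2 σ a geo U s y F) n +
          4 ^ n * B := by gcongr
      _ = 4 ^ n * (∫⁻ ϑ, eE μ χ (F1 σ a geo U s y F) (x n ϑ) ∂θ +
        ∫⁻ ϑ, eE μ χ (F2 σ a geo U s y F) (x n ϑ) ∂θ + B) := by
          rw [eN, eN]; ring
      _ ≤ 4 ^ n * (2 * ∫⁻ ϑ, eE μ χ F (x n ϑ) ∂θ + A) := hmul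
      _ = 2 * eN μ χ θ x F n + 4 ^ n * A := by rw [eN]; ring
      _ ≤ 2 * eT μ χ θ x F + 4 ^ n * A := by
          gcongr
          exact eN_le_eT (μ := μ) (χ := χ) (θ := θ) (x := x) F n
  have t1 := eN_tendsto (μ := μ) (θ := θ) hχm hχ ha hx m1 e1
  have t2 := eN_tendsto (μ := μ) (θ := θ) hχm hχ ha hx m2 e2
  have hlim : eT μ χ θ x (F1 σ a geo U s y F) + eT μ χ θ x (F2 σ a geo U s y F) +
      ENNReal.ofReal δ ≤ 2 * eT μ χ θ x F :=
    le_of_tendsto ((t1.add t2).add tendsto_const_nhds) key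
  have hfinal : 2 * eT μ χ θ x F + ENNReal.ofReal δ ≤ 2 * eT μ χ θ x F + 0 := by
    rw [add_zero]
    refine le_trans ?_ hlim
    rw [two_mul]
    gcongr
  have h2t : 2 * eT μ χ θ x F ≠ ⊤ := ENNReal.mul_ne_top (by simp) hE
  have := (ENNReal.add_le_add_iff_left h2t).mp hfinal
  exact absurd (ENNReal.ofReal_pos.mpr hδ0) (not_lt.mpr this)

end sum

end Var1Aux

end Pool.Agent.MPd01a95
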