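import Mathlib
import Pool.Agent.Lib.MP_d01a95_gt_H.HDefs2

/-!
# Local variation, part 4: second differences of smooth functions along boosts
-/

set_option autoImplicit false
set_option linter.all false

open Matrix Filter Topology MeasureTheory Measure
open scoped ENNReal NNReal ContDiff

namespace Pool.Agent.MPd01a95

open GU

namespace Var1Aux

/-- second differences and second derivatives -/
theorem taylor2 {φ φ1 φ2 : ℝ → ℝ} (h1 : ∀ t, HasDerivAt φ (φ1 t) t)
    (h2 : ∀ t, HasDerivAt φ1 (φ2 t) t) {m C t : ℝ} (ht : 0 ≤ t)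
    (hC : ∀ s, |s| ≤ t → |φ2 s - m| ≤ C) :
    |φ t + φ (-t) - 2 * φ 0 - m * t ^ 2| ≤ C * t ^ 2 := by
  -- first derivative
  have hd : ∀ s, 0 ≤ s → s ≤ t → |φ1 s - φ1 (-s) - 2 * m * s| ≤ 2 * C * s := by
    intro s hs0 hs
    have hH : ∀ r ∈ Set.Icc (-s) s, HasDerivWithinAt (fun r => φ1 r - m * r) (φ2 r - m)
        (Set.Icc (-s) s) r := by
      intro r hr
      have a0 : HasDerivAt (fun r : ℝ => m * r) (m * 1) r := (hasDerivAt_id r).const_mul m
      have a1 : HasDerivAt (fun r => φ1 r - m * r) (φ2 r - m * 1) r := (h2 r).sub a0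
      rw [mul_one] at a1
      exact a1.hasDerivWithinAt
    have := (convex_Icc (-s) s).norm_image_sub_le_of_norm_hasDerivWithin_le (C := C) hH
      (fun r hr => by
        rw [Real.norm_eq_abs]
        exact hC r (by rw [abs_le]; constructor <;> linarith [hr.1, hr.2]))
      (show -s ∈ Set.Icc (-s) s by constructor <;> linarith)
      (show s ∈ Set.Icc (-s) s by constructor <;> linarith)
    rw [Real.norm_eq_abs, Real.norm_eq_abs] at this
    have e1 : φ1 s - m * s - (φ1 (-s) - m * -s) = φ1 s - φ1 (-s) - 2 * m * s := by ring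
    have e2 : |s - -s| = 2 * s := by
      rw [sub_neg_eq_add, ← two_mul, abs_of_nonneg (by linarith)]
    rw [e1, e2] at this
    linarith
  have hG : ∀ s, HasDerivAt (fun s => φ s + φ (-s) - 2 * φ 0 - m * s ^ 2)
      (φ1 s - φ1 (-s) - 2 * m * s) s := by
    intro s
    have a1 : HasDerivAt (fun s => φ (-s)) (φ1 (-s) * -1) s :=
      (h1 (-s)).comp s (hasDerivAt_neg s)
    have a2 : HasDerivAt (fun s : ℝ => m * s ^ 2) (m * (((2 : ℕ) : ℝ) * s ^ (2 - 1))) s :=
      (hasDerivAt_pow 2 s).const_mul m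
    have a3 : HasDerivAt (fun s => φ s + φ (-s) - 2 * φ 0 - m * s ^ 2)
      (φ1 s + φ1 (-s) * -1 - m * (((2 : ℕ) : ℝ) * s ^ (2 - 1))) s :=
      (((h1 s).add a1).sub_const (2 * φ 0)).sub a2
    refine a3.congr_deriv ?_
    norm_num
    ring
  have hB : ∀ s, HasDerivAt (fun s : ℝ => C * s ^ 2) (2 * C * s) s := by
    intro s
    have a2 : HasDerivAt (fun s : ℝ => C * s ^ 2) (C * (((2 : ℕ) : ℝ) * s ^ (2 - 1))) s :=
      (hasDerivAt_pow 2 s).const_mul C
    refine a2.congr_deriv ?_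
    norm_num
    ring
  have := image_norm_le_of_norm_deriv_right_le_deriv_boundary (a := 0) (b := t)
    (f := fun s => φ s + φ (-s) - 2 * φ 0 - m * s ^ 2)
    (f' := fun s => φ1 s - φ1 (-s) - 2 * m * s) (B := fun s => C * s ^ 2)
    (B' := fun s => 2 * C * s)
    (fun s _ => (hG s).continuousAt.continuousWithinAt)
    (fun s _ => (hG s).hasDerivWithinAt)
    (by simp; ring_nf)
    (fun s => hB s)
    (fun s hs => by rw [Real.norm_eq_abs]; exact hd s hs.1 hs.2.le)
    (show t ∈ Set.Icc 0 t by constructor <;> linarith)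
  simpa [Real.norm_eq_abs] using this

section curve

variable {E : Type} [NormedAddCommGroup E] [NormedSpace ℝ E]

/-- a hyperbolic curve -/
noncomputable def cu (q : E × E × E) (t : ℝ) : E :=
  q.1 + (Real.cosh t - 1) • q.2.1 + Real.sinh t • q.2.2

/-- its derivative -/
noncomputable def cu1 (q : E × E × E) (t : ℝ) : E :=
  Real.sinh t • q.2.1 + Real.cosh t • q.2.2

/-- its second derivative -/
noncomputable def cu2 (q : E × E × E) (t : ℝ) : E :=
  Real.cosh t • q.2.1 + Real.sinh t • q.2.2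

theorem cu_deriv (q : E × E × E) (t : ℝ) : HasDerivAt (cu q) (cu1 q t) t := by
  have h1 := ((Real.hasDerivAt_cosh t).sub_const 1).smul_const q.2.1
  have h2 := (Real.hasDerivAt_sinh t).smul_const q.2.2
  exact (h1.const_add q.1).add h2

theorem cu1_deriv (q : E × E × E) (t : ℝ) : HasDerivAt (cu1 q) (cu2 q t) t := by
  have h1 := (Real.hasDerivAt_sinh t).smul_const q.2.1
  have h2 := (Real.hasDerivAt_cosh t).smul_const q.2.2
  exact h1.add h2

/-- the second derivative of a function along the curve -/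
noncomputable def sd (f : E → ℝ) (q : E × E × E) (t : ℝ) : ℝ :=
  (fderiv ℝ (fderiv ℝ f) (cu q t) (cu1 q t)) (cu1 q t) + fderiv ℝ f (cu q t) (cu2 q t)

variable {f : E → ℝ} (hf : ContDiff ℝ 2 f)

include hf

theorem f_deriv (q : E × E × E) (t : ℝ) :
    HasDerivAt (fun t => f (cu q t)) (fderiv ℝ f (cu q t) (cu1 q t)) t :=
  ((hf.differentiable (by norm_num) (cu q t)).hasFDerivAt).comp_hasDerivAt t (cu_deriv q t)

theorem f_deriv2 (q : E × E × E) (t : ℝ) :
    HasDerivAt (fun t => fderiv ℝ f (cu q t) (cu1 q t)) (sd f q t) t := by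
  have hf1 : ContDiff ℝ 1 (fderiv ℝ f) := hf.fderiv_right (by norm_num)
  have h1 : HasDerivAt (fun t => fderiv ℝ f (cu q t))
      (fderiv ℝ (fderiv ℝ f) (cu q t) (cu1 q t)) t :=
    ((hf1.differentiable (by norm_num) (cu q t)).hasFDerivAt).comp_hasDerivAt t (cu_deriv q t)
  exact h1.clm_apply (cu1_deriv q t)

theorem sd_eq (q : E × E × E) : iteratedDeriv 2 (fun t => f (cu q t)) 0 = sd f q 0 := by
  rw [iteratedDeriv_succ, iteratedDeriv_one]
  have h1 : deriv (fun t => f (cu q t)) = fun t => fderiv ℝ f (cu q t) (cu1 q t) := by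
    ext t
    exact (f_deriv hf q t).deriv
  rw [h1]
  exact (f_deriv2 hf q 0).deriv

theorem sd_cont : Continuous fun p : (E × E × E) × ℝ => sd f p.1 p.2 := by
  have c0 : Continuous fun p : (E × E × E) × ℝ => cu p.1 p.2 := by
    unfold cu
    have := Real.continuous_cosh
    have := Real.continuous_sinh
    fun_prop
  have c1 : Continuous fun p : (E × E × E) × ℝ => cu1 p.1 p.2 := by
    unfold cu1
    have := Real.continuous_cosh
    have := Real.continuous_sinh
    fun_prop
  have c2 : Continuous fun p : (E × E × E) × ℝ => cu2 p.1 p.2 := by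
    unfold cu2
    have := Real.continuous_cosh
    have := Real.continuous_sinh
    fun_prop
  have hf1 : ContDiff ℝ 1 (fderiv ℝ f) := hf.fderiv_right (by norm_num)
  have d1 : Continuous (fderiv ℝ f) := hf1.continuous
  have d2 : Continuous (fderiv ℝ (fderiv ℝ f)) := hf1.continuous_fderiv (by norm_num)
  unfold sd
  exact (((d2.comp c0).clm_apply c1).clm_apply c1).add ((d1.comp c0).clm_apply c2)

/-- second difference, uniform bound -/
theorem sd_bound {Q : Set (E × E × E)} (hQ : IsCompact Q) : ∃ C : ℝ, 0 ≤ C ∧ ∀ q ∈ Q, ∀ t : ℝ,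
    0 ≤ t → t ≤ 1 → |f (cu q t) + f (cu q (-t)) - 2 * f (cu q 0)| ≤ C * t ^ 2 := by
  have hc : IsCompact (Q ×ˢ Set.Icc (-1 : ℝ) 1) := hQ.prod isCompact_Icc
  obtain ⟨C, hC⟩ := (hc.image (sd_cont hf).abs).bddAbove
  refine ⟨max C 0, le_max_right _ _, fun q hq t ht0 ht1 => ?_⟩
  have := taylor2 (m := 0) (C := max C 0) (f_deriv hf q) (f_deriv2 hf q) ht0 (fun s hs => by
    rw [sub_zero]
    refine le_max_of_le_left (hC ⟨(q, s), ⟨hq, ?_⟩, rfl⟩)
    rw [abs_le] at hs
    constructor <;> simp only <;> linarith [hs.1, hs.2])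
  simpa using this

/-- second difference, limit -/
theorem sd_tendsto (q : E × E × E) {t : ℕ → ℝ} (ht : Tendsto t atTop (𝓝 0)) (ht0 : ∀ n, 0 < t n) :
    Tendsto (fun n => (f (cu q (t n)) + f (cu q (-(t n))) - 2 * f (cu q 0)) / t n ^ 2) atTop
      (𝓝 (sd f q 0)) := by
  rw [Metric.tendsto_atTop]
  intro ε hε
  have hc : Continuous fun s => sd f q s :=
    (sd_cont hf).comp (continuous_const.prodMk continuous_id)
  obtain ⟨δ, hδ, hδ2⟩ := Metric.continuous_iff.mp hc 0 (ε / 2) (by linarith)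
  obtain ⟨N, hN⟩ := Metric.tendsto_atTop.mp ht δ hδ
  refine ⟨N, fun n hn => ?_⟩
  have h1 := hN n hn
  rw [Real.dist_eq, sub_zero, abs_of_pos (ht0 n)] at h1
  have h2 := taylor2 (m := sd f q 0) (C := ε / 2) (f_deriv hf q) (f_deriv2 hf q) (ht0 n).le
    (fun s hs => by
      have := hδ2 s (by rw [Real.dist_eq, sub_zero]; linarith)
      rw [Real.dist_eq] at this
      exact this.le)
  have h3 : 0 < t n ^ 2 := by have := ht0 n; positivity
  rw [Real.dist_eq]
  have e : (f (cu q (t n)) + f (cu q (-(t n))) - 2 * f (cu q 0)) / t n ^ 2 - sd f q 0 =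
      (f (cu q (t n)) + f (cu q (-(t n))) - 2 * f (cu q 0) - sd f q 0 * t n ^ 2) / t n ^ 2 := by
    rw [sub_div _ (sd f q 0 * t n ^ 2), mul_div_cancel_right₀ _ h3.ne']
  rw [e, abs_div, abs_of_pos h3, div_lt_iff₀ h3]
  nlinarith

end curve

end Var1Aux

end Pool.Agent.MPd01a95
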