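import Mathlib
import Pool.Agent.Lib.MP_d01a95_gt_H.Var1d
import Pool.Agent.Lib.MP_d01a95_gt_H.Basic

/-!
# Local variation, part 5: second differences on the group
-/

set_option autoImplicit false
set_option linter.all false

open Matrix Filter Topology MeasureTheory Measure
open scoped ENNReal NNReal ContDiff

namespace Pool.Agent.MPd01a95

open GU

variable {κ : Type} [Fintype κ] [DecidableEq κ]

namespace Var1Aux

/-- the space of matrices as a normed space -/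
abbrev EM (κ : Type) : Type := (κ ⊕ Unit) → (κ ⊕ Unit) → ℂ

/-- the parameters of the curve -/
noncomputable def Qm (h : GU κ) (k : KU κ) (p : κ × Bool) : EM κ × EM κ × EM κ :=
  (h.M, h.M * (k : GU κ).M * PM p * ((k : GU κ)⁻¹).M,
    h.M * (k : GU κ).M * XM p * ((k : GU κ)⁻¹).M)

theorem Qm_curve (h : GU κ) (k : KU κ) (p : κ × Bool) (t : ℝ) :
    (h * k * bo t p * (k : GU κ)⁻¹).M = cu (Qm h k p) t := by
  have e : ∀ (r : ℝ) (A : Matrix (κ ⊕ Unit) (κ ⊕ Unit) ℂ),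
      (r • A : Matrix (κ ⊕ Unit) (κ ⊕ Unit) ℂ) = (r : ℂ) • A := by
    intro r A
    ext i j
    simp
  change h.M * (k : GU κ).M * boM t p * ((k : GU κ)⁻¹).M =
    (h.M + (Real.cosh t - 1) • (h.M * (k : GU κ).M * PM p * ((k : GU κ)⁻¹).M) +
      Real.sinh t • (h.M * (k : GU κ).M * XM p * ((k : GU κ)⁻¹).M) :
        Matrix (κ ⊕ Unit) (κ ⊕ Unit) ℂ)
  rw [e, e, boM, Matrix.mul_add, Matrix.mul_add, Matrix.add_mul, Matrix.add_mul,
    Matrix.mul_one, Matrix.mul_assoc h.M (k : GU κ).M, mul_inv_M, Matrix.mul_one,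
    Matrix.mul_smul, Matrix.smul_mul, Matrix.mul_smul, Matrix.smul_mul]

theorem Qm_cont (p : κ × Bool) : Continuous fun q : GU κ × KU κ => Qm q.1 q.2 p := by
  have h1 : Continuous fun q : GU κ × KU κ => q.1.M := continuous_M.comp continuous_fst
  have h2 : Continuous fun q : GU κ × KU κ => (q.2 : GU κ).M :=
    continuous_M.comp (continuous_subtype_val.comp continuous_snd)
  have h3 : Continuous fun q : GU κ × KU κ => ((q.2 : GU κ)⁻¹).M :=
    continuous_M.comp (continuous_subtype_val.comp continuous_snd).inv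
  exact h1.prodMk ((((h1.matrix_mul h2).matrix_mul continuous_const).matrix_mul h3).prodMk
    (((h1.matrix_mul h2).matrix_mul continuous_const).matrix_mul h3))

/-- the rescaled second difference -/
noncomputable def Dl (f : EM κ → ℝ) (N : ℕ) (θ : KU κ × Dr κ) (h : GU κ) : ℝ :=
  4 ^ N * (f (h * xx N θ).M + f (h * (xx N θ)⁻¹).M - 2 * f h.M)

/-- the second derivative -/
noncomputable def Ds (f : EM κ → ℝ) (θ : KU κ × Dr κ) (h : GU κ) : ℝ :=
  iteratedDeriv 2 (fun t : ℝ => f ((h * θ.1 * bo t (show κ × Bool from θ.2) *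
    (θ.1 : GU κ)⁻¹).M)) 0

theorem xx_inv (N : ℕ) (θ : KU κ × Dr κ) : (xx N θ)⁻¹ =
    (θ.1 : GU κ) * bo (-(1 / 2) ^ N) (show κ × Bool from θ.2) * (θ.1 : GU κ)⁻¹ := by
  rw [xx, bo_neg]
  group

theorem c_xx (N : ℕ) (θ : KU κ × Dr κ) : c (xx N θ) = Real.cosh ((1 / 2) ^ N) := by
  rw [xx, c_mul_K _ _ (inv_mem θ.1.2), c_K_mul _ _ θ.1.2, c_bo]

theorem half_pow_le (N : ℕ) : (1 / 2 : ℝ) ^ N ≤ 1 := pow_le_one₀ (by norm_num) (by norm_num)

theorem c_xx_le (N : ℕ) (θ : KU κ × Dr κ) : c (xx N θ) ≤ 2 := by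
  rw [c_xx]
  have h1 : Real.cosh ((1 / 2) ^ N) ≤ Real.cosh 1 := by
    rw [Real.cosh_le_cosh, abs_of_pos (by positivity), abs_one]
    exact half_pow_le N
  have h2 : Real.cosh 1 ≤ 2 := by
    rw [Real.cosh_eq]
    have h3 := Real.exp_one_lt_d9
    have h4 : Real.exp (-1) ≤ 1 := by
      rw [Real.exp_le_one_iff]; norm_num
    linarith
  exact h1.trans h2

theorem Dl_eq (f : EM κ → ℝ) (N : ℕ) (θ : KU κ × Dr κ) (h : GU κ) :
    Dl f N θ h = (f (cu (Qm h θ.1 θ.2) ((1 / 2) ^ N)) + f (cu (Qm h θ.1 θ.2) (-((1 / 2) ^ N))) -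
      2 * f (cu (Qm h θ.1 θ.2) 0)) / ((1 / 2) ^ N) ^ 2 := by
  have e1 : (h * xx N θ).M = cu (Qm h θ.1 θ.2) ((1 / 2) ^ N) := by
    rw [← Qm_curve, xx]
    simp only [mul_assoc]
  have e2 : (h * (xx N θ)⁻¹).M = cu (Qm h θ.1 θ.2) (-((1 / 2) ^ N)) := by
    rw [← Qm_curve, xx_inv]
    simp only [mul_assoc]
  have e3 : h.M = cu (Qm h θ.1 θ.2) 0 := by
    rw [← Qm_curve, bo_zero, mul_one, mul_inv_cancel_right]
  have e4 : (4 : ℝ) ^ N = 1 / ((1 / 2 : ℝ) ^ N) ^ 2 := by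
    rw [← pow_mul, mul_comm N 2, pow_mul, ← _root_.one_div_pow]
    norm_num
  rw [Dl, e1, e2, e4]
  conv_lhs => rw [e3]
  ring

theorem half_tendsto : Tendsto (fun N : ℕ => (1 / 2 : ℝ) ^ N) atTop (𝓝 0) :=
  tendsto_pow_atTop_nhds_zero_of_lt_one (by norm_num) (by norm_num)

theorem Ds_eq {f : EM κ → ℝ} (hf : ContDiff ℝ 2 f) (θ : KU κ × Dr κ) (h : GU κ) :
    Ds f θ h = sd f (Qm h θ.1 θ.2) 0 := by
  rw [← sd_eq hf, Ds]
  congr 1
  ext t
  exact congrArg f (Qm_curve h θ.1 θ.2 t)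

theorem Dl_tendsto {f : EM κ → ℝ} (hf : ContDiff ℝ 2 f) (θ : KU κ × Dr κ) (h : GU κ) :
    Tendsto (fun N => Dl f N θ h) atTop (𝓝 (Ds f θ h)) := by
  rw [Ds_eq hf]
  have := sd_tendsto hf (Qm h θ.1 θ.2) half_tendsto (fun n => by positivity)
  refine this.congr fun N => ?_
  rw [Dl_eq]

theorem supp_bound {f : EM κ → ℝ} (hfc : HasCompactSupport f) :
    ∃ R : ℝ, 1 ≤ R ∧ ∀ g : GU κ, f g.M ≠ 0 → c g ≤ R := by
  have hc : Continuous fun z : EM κ => ‖z (Sum.inr ()) (Sum.inr ())‖ := by fun_prop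
  obtain ⟨R, hR⟩ := (hfc.isCompact.image hc).bddAbove
  refine ⟨max 1 R, le_max_left _ _, fun g hg => le_max_of_le_right ?_⟩
  exact hR ⟨g.M, subset_tsupport f hg, rfl⟩

theorem c_of_mul {R : ℝ} {h x : GU κ} (hx : c x ≤ 2) (hh : c (h * x) ≤ R) : c h ≤ 4 * R := by
  have h1 := c_mul (h * x) x⁻¹
  rw [mul_inv_cancel_right, c_inv] at h1
  have h2 := c_ge_one (h * x)
  have h3 := c_ge_one x
  nlinarith

theorem c_mul_two {R : ℝ} {h x : GU κ} (hx : c x ≤ 2) (hh : c h ≤ R) : c (h * x) ≤ 4 * R := by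
  have h1 := c_mul h x
  have h2 := c_ge_one h
  have h3 := c_ge_one x
  nlinarith

theorem Dl_zero {f : EM κ → ℝ} {R : ℝ} (hR1 : 1 ≤ R) (hR : ∀ g : GU κ, f g.M ≠ 0 → c g ≤ R)
    {h : GU κ} (hh : 4 * R < c h) (N : ℕ) (θ : KU κ × Dr κ) : Dl f N θ h = 0 := by
  have h1 : f (h * xx N θ).M = 0 := by
    by_contra hne
    exact absurd (c_of_mul (c_xx_le N θ) (hR _ hne)) (not_le.mpr hh)
  have h2 : f (h * (xx N θ)⁻¹).M = 0 := by
    by_contra hne
    exact absurd (c_of_mul (by rw [c_inv]; exact c_xx_le N θ) (hR _ hne)) (not_le.mpr hh)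
  have h3 : f h.M = 0 := by
    by_contra hne
    have := hR _ hne
    linarith
  rw [Dl, h1, h2, h3]
  ring

theorem Dl_bound {f : EM κ → ℝ} (hf : ContDiff ℝ 2 f) (hfc : HasCompactSupport f) :
    ∃ C : ℝ, 0 ≤ C ∧ ∀ N (θ : KU κ × Dr κ) (h : GU κ), |Dl f N θ h| ≤ C := by
  obtain ⟨R, hR1, hR⟩ := supp_bound hfc
  have hp : ∀ p : κ × Bool, ∃ C : ℝ, 0 ≤ C ∧ ∀ h : GU κ, c h ≤ 4 * R → ∀ k : KU κ, ∀ t : ℝ,
      0 ≤ t → t ≤ 1 → |f (cu (Qm h k p) t) + f (cu (Qm h k p) (-t)) - 2 * f (cu (Qm h k p) 0)| ≤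
        C * t ^ 2 := by
    intro p
    have hc : IsCompact ({h : GU κ | c h ≤ 4 * R} ×ˢ (Set.univ : Set (KU κ))) :=
      (isCompact_c _).prod isCompact_univ
    obtain ⟨C, hC0, hC⟩ := sd_bound hf (hc.image (Qm_cont p))
    exact ⟨C, hC0, fun h hh k t ht0 ht1 => hC _ ⟨(h, k), ⟨hh, trivial⟩, rfl⟩ t ht0 ht1⟩
  choose Cp hCp0 hCp using hp
  refine ⟨∑ p, Cp p, Finset.sum_nonneg fun p _ => hCp0 p, fun N θ h => ?_⟩
  by_cases hh : c h ≤ 4 * R
  · have h1 := hCp θ.2 h hh θ.1 ((1 / 2) ^ N) (by positivity) (half_pow_le N)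
    have h2 : Cp θ.2 ≤ ∑ p, Cp p :=
      Finset.single_le_sum (f := Cp) (fun p _ => hCp0 p) (Finset.mem_univ (show κ × Bool from θ.2))
    have h3 : (0 : ℝ) < ((1 / 2) ^ N) ^ 2 := by positivity
    rw [Dl_eq, abs_div, abs_of_pos h3, div_le_iff₀ h3]
    exact h1.trans (mul_le_mul_of_nonneg_right h2 h3.le)
  · rw [Dl_zero hR1 hR (not_le.mp hh)]
    simpa using Finset.sum_nonneg fun p _ => hCp0 p

theorem Dl_meas {f : EM κ → ℝ} (hf : Continuous f) (N : ℕ) :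
    Measurable fun q : (KU κ × Dr κ) × GU κ => Dl f N q.1 q.2 := by
  have hc : Measurable fun g : GU κ => f g.M := (hf.comp continuous_M).measurable
  have hx : Measurable fun q : (KU κ × Dr κ) × GU κ => xx N q.1 := (xx_meas N).comp measurable_fst
  have h1 : Measurable fun q : (KU κ × Dr κ) × GU κ => f (q.2 * xx N q.1).M :=
    hc.comp (measurable_snd.mul hx)
  have h2 : Measurable fun q : (KU κ × Dr κ) × GU κ => f (q.2 * (xx N q.1)⁻¹).M :=
    hc.comp (measurable_snd.mul hx.inv)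
  have h3 : Measurable fun q : (KU κ × Dr κ) × GU κ => f q.2.M := hc.comp measurable_snd
  unfold Dl
  exact ((h1.add h2).sub (h3.const_mul 2)).const_mul _

theorem Ds_meas {f : EM κ → ℝ} (hf : ContDiff ℝ 2 f) :
    Measurable fun q : (KU κ × Dr κ) × GU κ => Ds f q.1 q.2 :=
  measurable_of_tendsto_metrizable (fun N => Dl_meas hf.continuous N)
    (tendsto_pi_nhds.mpr fun q => Dl_tendsto hf q.1 q.2)

theorem Ds_bound {f : EM κ → ℝ} (hf : ContDiff ℝ 2 f) {C : ℝ}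
    (hC : ∀ N (θ : KU κ × Dr κ) (h : GU κ), |Dl f N θ h| ≤ C) (θ : KU κ × Dr κ) (h : GU κ) :
    |Ds f θ h| ≤ C :=
  le_of_tendsto (Dl_tendsto hf θ h).abs (Eventually.of_forall fun N => hC N θ h)

theorem Ds_zero {f : EM κ → ℝ} (hf : ContDiff ℝ 2 f) {R : ℝ} (hR1 : 1 ≤ R)
    (hR : ∀ g : GU κ, f g.M ≠ 0 → c g ≤ R)
    {h : GU κ} (hh : 4 * R < c h) (θ : KU κ × Dr κ) : Ds f θ h = 0 := by
  have h1 := Dl_tendsto hf θ h
  simp only [Dl_zero hR1 hR hh] at h1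
  exact tendsto_nhds_unique h1 tendsto_const_nhds

instance instFinCount : IsFiniteMeasure (count : Measure (Dr κ)) := by
  haveI : Finite (Dr κ) := inferInstance
  infer_instance

instance instFinTh : IsFiniteMeasure (th κ) := by
  unfold th; infer_instance

attribute [irreducible] Ds Dl

theorem Ds_meas1 {f : EM κ → ℝ} (hf : ContDiff ℝ 2 f) (h : GU κ) :
    Measurable (fun θ : KU κ × Dr κ => Ds f θ h) := by
  have h1 := Ds_meas hf
  have h2 : Measurable (fun θ : KU κ × Dr κ => (θ, h)) := measurable_id.prodMk measurable_const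
  exact h1.comp h2

theorem Lam_int {f : EM κ → ℝ} (hf : ContDiff ℝ 2 f) (hfc : HasCompactSupport f) (h : GU κ) :
    Integrable (fun θ : KU κ × Dr κ => Ds f θ h) (th κ) := by
  obtain ⟨C, hC0, hC⟩ := Dl_bound hf hfc
  exact Integrable.of_bound (Ds_meas1 hf h).aestronglyMeasurable C
      (Eventually.of_forall fun θ => by rw [Real.norm_eq_abs]; exact Ds_bound hf hC θ h)

/-- the averaged second derivative as an integral over the parameters -/
theorem Lam_eq {f : EM κ → ℝ} (hf : ContDiff ℝ 2 f) (hfc : HasCompactSupport f) (h : GU κ) :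
    Lam f h = ∫ θ, Ds f θ h ∂(th κ) := by
  have hi := Lam_int hf hfc h
  have e : ∫ θ, Ds f θ h ∂(th κ) = ∫ k, ∫ p, Ds f (k, p) h ∂count ∂(muK κ) :=
    integral_prod (μ := muK κ) (ν := count) (fun θ : KU κ × Dr κ => Ds f θ h) hi
  rw [e]
  unfold Lam
  refine integral_congr_ae (Eventually.of_forall fun k => ?_)
  have e2 : ∫ p, Ds f (k, p) h ∂(count : Measure (Dr κ)) = ∑ p : Dr κ, Ds f (k, p) h :=
    integral_count _
  refine Eq.trans ?_ e2.symm
  simp only [Ds]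
  rfl

end Var1Aux

end Pool.Agent.MPd01a95
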