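import Mathlib
import Pool.Agent.Lib.MP_d01a95_gt_H.Var1b
import Pool.Agent.Lib.MP_d01a95_gt_H.Var1e

/-!
# Local variation, part 6: integrals of the comparison terms
-/

set_option autoImplicit false
set_option linter.all false

open Matrix Filter Topology MeasureTheory Measure
open scoped ENNReal NNReal ContDiff

namespace Pool.Agent.MPd01a95

open GU

namespace Var1Aux

section gen

variable {𝔾 : Type} [Group 𝔾] [MeasurableSpace 𝔾] [MeasurableMul₂ 𝔾] {μ : Measure 𝔾}

/-- the second form of the comparison term -/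
def G2 (P s : 𝔾 → ℝ) (x h : 𝔾) : ℝ :=
  P h * ((1 - 2 * s h) * (s (h * x) + s (h * x⁻¹) - 2 * s h))

/-- the telescoping term -/
def GW (P s : 𝔾 → ℝ) (x h : 𝔾) : ℝ :=
  P h * ((s (h * x⁻¹) - s (h * x⁻¹) ^ 2) + (s (h * x⁻¹) - s h) ^ 2 - (s h - s h ^ 2))

theorem Gx_split (P s : 𝔾 → ℝ) (x h : 𝔾) :
    Gx P s x h = G2 P s x h + (GW P s x (h * x) - GW P s x h) := by
  unfold Gx G2 GW
  rw [mul_inv_cancel_right]
  ring

theorem int_Gx [μ.IsMulRightInvariant] {P s : 𝔾 → ℝ} (hP : Measurable P) (hs : Measurable s)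
    (hs1 : ∀ g, s g ∈ Set.Icc (0 : ℝ) 1) {B : Set 𝔾} (hB : MeasurableSet B)
    (hPB : IntegrableOn P B μ) (x : 𝔾) (h0 : ∀ h, h ∉ B → s h = 0)
    (h1 : ∀ h, h ∉ B → s (h * x) = 0) (h2 : ∀ h, h ∉ B → s (h * x⁻¹) = 0) :
    Integrable (fun h => Gx P s x h) μ ∧ ∫ h, Gx P s x h ∂μ = ∫ h, G2 P s x h ∂μ ∧
      ∫ h, ‖Gx P s x h‖ ∂μ ≤ 6 * ∫ h in B, |P h| ∂μ := by
  have hsx : Measurable fun h => s (h * x) := hs.comp (measurable_mul_const x)
  have hsx' : Measurable fun h => s (h * x⁻¹) := hs.comp (measurable_mul_const x⁻¹)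
  have hPi : Integrable (B.indicator P) μ := (integrable_indicator_iff hB).mpr hPB
  have b1 : ∀ h, ‖G2 P s x h‖ ≤ ‖2 * |B.indicator P h|‖ := by
    intro h
    by_cases hh : h ∈ B
    · rw [Set.indicator_of_mem hh, G2, norm_mul, Real.norm_eq_abs, Real.norm_eq_abs, norm_mul,
        Real.norm_eq_abs, Real.norm_eq_abs, abs_abs]
      have e : |(1 - 2 * s h) * (s (h * x) + s (h * x⁻¹) - 2 * s h)| ≤ 2 := by
        rw [abs_mul]
        have u1 : |1 - 2 * s h| ≤ 1 := by
          rw [abs_le]; constructor <;> linarith [(hs1 h).1, (hs1 h).2]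
        have u2 : |s (h * x) + s (h * x⁻¹) - 2 * s h| ≤ 2 := by
          rw [abs_le]
          constructor <;> linarith [(hs1 h).1, (hs1 h).2, (hs1 (h * x)).1, (hs1 (h * x)).2,
            (hs1 (h * x⁻¹)).1, (hs1 (h * x⁻¹)).2]
        calc _ ≤ 1 * 2 := mul_le_mul u1 u2 (abs_nonneg _) (by norm_num)
          _ = 2 := by norm_num
      calc |P h| * _ ≤ |P h| * 2 := mul_le_mul_of_nonneg_left e (abs_nonneg _)
        _ = |2| * |P h| := by rw [abs_two]; ring
    · rw [G2, h0 h hh, h1 h hh, h2 h hh]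
      simp
  have b2 : ∀ h, ‖GW P s x h‖ ≤ ‖2 * |B.indicator P h|‖ := by
    intro h
    by_cases hh : h ∈ B
    · rw [Set.indicator_of_mem hh, GW, norm_mul, Real.norm_eq_abs, Real.norm_eq_abs, norm_mul,
        Real.norm_eq_abs, Real.norm_eq_abs, abs_abs]
      have e : |(s (h * x⁻¹) - s (h * x⁻¹) ^ 2) + (s (h * x⁻¹) - s h) ^ 2 - (s h - s h ^ 2)| ≤
          2 := by
        have := (hs1 h).1
        have := (hs1 h).2
        have := (hs1 (h * x⁻¹)).1
        have := (hs1 (h * x⁻¹)).2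
        rw [abs_le]
        constructor <;> nlinarith
      calc |P h| * _ ≤ |P h| * 2 := mul_le_mul_of_nonneg_left e (abs_nonneg _)
        _ = |2| * |P h| := by rw [abs_two]; ring
    · rw [GW, h0 h hh, h2 h hh]
      simp
  have hbi : Integrable (fun h => 2 * |B.indicator P h|) μ := hPi.abs.const_mul 2
  have m1 : Measurable fun h => G2 P s x h := by
    unfold G2
    exact hP.mul ((measurable_const.sub (hs.const_mul 2)).mul
      ((hsx.add hsx').sub (hs.const_mul 2)))
  have m2 : Measurable fun h => GW P s x h := by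
    unfold GW
    exact hP.mul (((hsx'.sub (hsx'.pow_const 2)).add ((hsx'.sub hs).pow_const 2)).sub
      (hs.sub (hs.pow_const 2)))
  have i1 : Integrable (fun h => G2 P s x h) μ :=
    hbi.mono m1.aestronglyMeasurable (Eventually.of_forall b1)
  have i2 : Integrable (fun h => GW P s x h) μ :=
    hbi.mono m2.aestronglyMeasurable (Eventually.of_forall b2)
  have i3 : Integrable (fun h => GW P s x (h * x)) μ := i2.comp_mul_right x
  have e : (fun h => Gx P s x h) = fun h => G2 P s x h + (GW P s x (h * x) - GW P s x h) := by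
    ext h; exact Gx_split P s x h
  have hI : Integrable (fun h => Gx P s x h) μ := by
    rw [e]; exact i1.add (i3.sub i2)
  have k1 : ∫ h, GW P s x (h * x) ∂μ = ∫ h, GW P s x h ∂μ :=
    integral_mul_right_eq_self (fun h => GW P s x h) x
  refine ⟨hI, ?_, ?_⟩
  · have i4 : Integrable (fun h => GW P s x (h * x) - GW P s x h) μ := i3.sub i2
    rw [e, integral_add i1 i4, integral_sub i3 i2, k1, sub_self, add_zero]
  · have n1 : ∫ h, ‖G2 P s x h‖ ∂μ ≤ ∫ h, 2 * |B.indicator P h| ∂μ :=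
      integral_mono i1.norm hbi fun h => (b1 h).trans (le_of_eq (by
        rw [Real.norm_eq_abs, abs_of_nonneg (by positivity)]))
    have n2 : ∫ h, ‖GW P s x h‖ ∂μ ≤ ∫ h, 2 * |B.indicator P h| ∂μ :=
      integral_mono i2.norm hbi fun h => (b2 h).trans (le_of_eq (by
        rw [Real.norm_eq_abs, abs_of_nonneg (by positivity)]))
    have n3 : ∫ h, ‖GW P s x (h * x)‖ ∂μ = ∫ h, ‖GW P s x h‖ ∂μ :=
      integral_mul_right_eq_self (fun h => ‖GW P s x h‖) x
    have n4 : ∫ h, 2 * |B.indicator P h| ∂μ = 2 * ∫ h in B, |P h| ∂μ := by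
      rw [integral_const_mul, ← integral_indicator hB]
      congr 2
      ext h
      by_cases hh : h ∈ B
      · rw [Set.indicator_of_mem hh, Set.indicator_of_mem hh]
      · rw [Set.indicator_of_notMem hh, Set.indicator_of_notMem hh, abs_zero]
    have n5 : ∫ h, ‖Gx P s x h‖ ∂μ ≤
        ∫ h, (‖G2 P s x h‖ + (‖GW P s x (h * x)‖ + ‖GW P s x h‖)) ∂μ := by
      refine integral_mono hI.norm (i1.norm.add (i3.norm.add i2.norm)) fun h => ?_
      change ‖Gx P s x h‖ ≤ _
      rw [Gx_split]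
      refine (norm_add_le _ _).trans ?_
      gcongr
      exact norm_sub_le _ _
    have i5 : Integrable (fun h => ‖GW P s x (h * x)‖ + ‖GW P s x h‖) μ := i3.norm.add i2.norm
    rw [integral_add i1.norm i5, integral_add i3.norm i2.norm, n3] at n5
    rw [n4] at n1 n2
    linarith

end gen

variable {κ : Type} [Fintype κ] [DecidableEq κ]

section P

variable {Y : Type} [MetricSpace Y] [SecondCountableTopology Y] [MeasurableSpace Y]
  [BorelSpace Y]

/-- local integrability of the squared distance to a left translate -/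
theorem P_fin (μ : Measure (GU κ)) [IsHaarMeasure μ] {F : GU κ → Y} (hF : Measurable F)
    (hD : ∀ R : ℝ, ∫⁻ g in {g | c g ≤ R}, ∫⁻ g' in {g | c g ≤ R}, edist (F g) (F g') ^ 2 ∂μ ∂μ ≠ ⊤)
    (y : GU κ) (R : ℝ) : ∫⁻ g in {g | c g ≤ R}, edist (F g) (F (y * g)) ^ 2 ∂μ ≠ ⊤ := by
  set R' : ℝ := max 2 (max R (2 * c y * R)) with hR'
  set B : Set (GU κ) := {g | c g ≤ R'} with hB
  have hBm : MeasurableSet B := (isCompact_c R').measurableSet
  have hBRm : MeasurableSet {g : GU κ | c g ≤ R} := (isCompact_c R).measurableSet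
  have hμB : μ B ≠ 0 := by
    have h1 : IsOpen {g : GU κ | c g < 2} := isOpen_lt continuous_c continuous_const
    have h2 : (1 : GU κ) ∈ {g : GU κ | c g < 2} := by
      change c (1 : GU κ) < 2
      rw [KU_c 1 (one_mem _)]; norm_num
    have h3 := (h1.measure_pos μ ⟨1, h2⟩).ne'
    intro h0
    refine h3 (measure_mono_null ?_ h0)
    intro g hg
    have hg2 : c g < 2 := hg
    exact hg2.le.trans (le_max_left _ _)
  have hm : Measurable fun g => ∫⁻ g' in B, edist (F g) (F g') ^ 2 ∂μ := by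
    apply Measurable.lintegral_prod_right' (f := fun p : GU κ × GU κ =>
      edist (F p.1) (F p.2) ^ 2)
    exact ((hF.comp measurable_fst).edist (hF.comp measurable_snd)).pow_const 2
  obtain ⟨g', hg'B, hg'⟩ : ∃ g' ∈ B, ∫⁻ g in B, edist (F g') (F g) ^ 2 ∂μ ≠ ⊤ := by
    by_contra hcon
    push Not at hcon
    apply hD R'
    rw [eq_top_iff]
    calc (⊤ : ℝ≥0∞) = ∫⁻ g in B, ⊤ ∂μ := by
          rw [setLIntegral_const, ENNReal.top_mul hμB]
      _ ≤ _ := setLIntegral_mono' hBm fun g hg => (hcon g hg).ge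
  set q : Y := F g' with hq
  have hqm : Measurable fun g => edist q (F g) ^ 2 := (measurable_const.edist hF).pow_const 2
  have h1 : ∫⁻ g in {g | c g ≤ R}, edist q (F g) ^ 2 ∂μ ≤ ∫⁻ g in B, edist q (F g) ^ 2 ∂μ :=
    lintegral_mono_set fun g hg =>
      (show c g ≤ R from hg).trans ((le_max_left _ _).trans (le_max_right _ _))
  have h2 : ∫⁻ g in {g | c g ≤ R}, edist q (F (y * g)) ^ 2 ∂μ ≤
      ∫⁻ g in B, edist q (F g) ^ 2 ∂μ := by
    rw [← lintegral_indicator hBRm, ← lintegral_indicator hBm,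
      ← lintegral_mul_left_eq_self (μ := μ) (B.indicator fun g => edist q (F g) ^ 2) y]
    apply lintegral_mono
    intro g
    by_cases hg : c g ≤ R
    · have hyg : y * g ∈ B := by
        have h3 := c_mul y g
        have h4 := c_ge_one y
        have h5 := c_ge_one g
        change c (y * g) ≤ R'
        refine h3.trans (le_trans ?_ ((le_max_right _ _).trans (le_max_right _ _)))
        have : 0 ≤ 2 * c y := by linarith
        exact mul_le_mul_of_nonneg_left hg this
      change ({g : GU κ | c g ≤ R}.indicator (fun g => edist q (F (y * g)) ^ 2) g) ≤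
        (B.indicator fun g => edist q (F g) ^ 2) (y * g)
      rw [Set.indicator_of_mem (show g ∈ {g : GU κ | c g ≤ R} from hg),
        Set.indicator_of_mem hyg]
    · change ({g : GU κ | c g ≤ R}.indicator (fun g => edist q (F (y * g)) ^ 2) g) ≤
        (B.indicator fun g => edist q (F g) ^ 2) (y * g)
      rw [Set.indicator_of_notMem (show g ∉ {g : GU κ | c g ≤ R} from hg)]
      exact zero_le
  have h3 : ∫⁻ g in {g | c g ≤ R}, edist (F g) (F (y * g)) ^ 2 ∂μ ≤
      ∫⁻ g in {g | c g ≤ R}, (2 * edist q (F g) ^ 2 + 2 * edist q (F (y * g)) ^ 2) ∂μ := by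
    apply lintegral_mono
    intro g
    change edist (F g) (F (y * g)) ^ 2 ≤ 2 * edist q (F g) ^ 2 + 2 * edist q (F (y * g)) ^ 2
    simp only [edist_sq]
    have e2 : (2 : ℝ≥0∞) = ENNReal.ofReal 2 := by simp
    rw [e2, ← ENNReal.ofReal_mul (by norm_num), ← ENNReal.ofReal_mul (by norm_num),
      ← ENNReal.ofReal_add (by positivity) (by positivity)]
    apply ENNReal.ofReal_le_ofReal
    have ht := dist_triangle (F g) q (F (y * g))
    rw [dist_comm (F g) q] at ht
    have h6 : (0 : ℝ) ≤ dist q (F g) := dist_nonneg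
    have h7 : (0 : ℝ) ≤ dist q (F (y * g)) := dist_nonneg
    have h8 : (0 : ℝ) ≤ dist (F g) (F (y * g)) := dist_nonneg
    nlinarith [sq_nonneg (dist q (F g) - dist q (F (y * g)))]
  refine ne_top_of_le_ne_top ?_ h3
  have hqy : Measurable fun g => edist q (F (y * g)) ^ 2 :=
    (measurable_const.edist (hF.comp (measurable_const_mul y))).pow_const 2
  rw [lintegral_add_left (hqm.const_mul 2), lintegral_const_mul 2 hqm, lintegral_const_mul 2 hqy]
  exact ENNReal.add_ne_top.mpr ⟨ENNReal.mul_ne_top (by simp) (ne_top_of_le_ne_top hg' h1),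
    ENNReal.mul_ne_top (by simp) (ne_top_of_le_ne_top hg' h2)⟩

theorem P_int (μ : Measure (GU κ)) [IsHaarMeasure μ] {F : GU κ → Y} (hF : Measurable F)
    (hD : ∀ R : ℝ, ∫⁻ g in {g | c g ≤ R}, ∫⁻ g' in {g | c g ≤ R}, edist (F g) (F g') ^ 2 ∂μ ∂μ ≠ ⊤)
    (y : GU κ) (R : ℝ) : IntegrableOn (fun g => dist (F g) (F (y * g)) ^ 2) {g | c g ≤ R} μ := by
  have hm : Measurable fun g => dist (F g) (F (y * g)) ^ 2 :=
    (hF.dist (hF.comp (measurable_const_mul y))).pow_const 2
  refine ⟨hm.aestronglyMeasurable, ?_⟩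
  have h := P_fin μ hF hD y R
  refine lt_of_le_of_lt (le_of_eq ?_) (lt_top_iff_ne_top.mpr h)
  congr 1
  ext g
  rw [edist_sq, ← ofReal_norm_eq_enorm, Real.norm_eq_abs, abs_of_nonneg (sq_nonneg _)]

end P

/-- uniform smallness of the displacements -/
theorem xx_small {V : Set (GU κ)} (hV : V ∈ 𝓝 (1 : GU κ)) :
    ∀ᶠ N in atTop, ∀ θ : KU κ × Dr κ, xx N θ ∈ V := by
  have h1 : ∀ p : κ × Bool, ∀ᶠ t : ℝ in 𝓝 0, ∀ k ∈ (Set.univ : Set (KU κ)),
      (k : GU κ) * bo t p * (k : GU κ)⁻¹ ∈ V := by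
    intro p
    refine isCompact_univ.eventually_forall_of_forall_eventually fun k _ => ?_
    have hc : Continuous fun q : ℝ × KU κ => (q.2 : GU κ) * bo q.1 p * (q.2 : GU κ)⁻¹ := by
      have c1 : Continuous fun q : ℝ × KU κ => (q.2 : GU κ) :=
        continuous_subtype_val.comp continuous_snd
      exact (c1.mul ((continuous_bo p).comp continuous_fst)).mul c1.inv
    have := hc.tendsto (0, k)
    rw [bo_zero, mul_one, mul_inv_cancel] at this
    exact this hV
  have h2 : ∀ᶠ t : ℝ in 𝓝 0, ∀ p : κ × Bool, ∀ k ∈ (Set.univ : Set (KU κ)),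
      (k : GU κ) * bo t p * (k : GU κ)⁻¹ ∈ V := eventually_all.mpr h1
  filter_upwards [half_tendsto.eventually h2] with N hN θ
  exact hN θ.2 θ.1 trivial

theorem xx_small2 {K U : Set (GU κ)} (hK : IsCompact K) (hU : IsOpen U) (hKU : K ⊆ U) :
    ∀ᶠ N in atTop, (∀ θ : KU κ × Dr κ, ∀ g ∈ K, g * xx N θ ∈ U) ∧
      ∀ θ : KU κ × Dr κ, ∀ g, g * xx N θ ∈ K → g ∈ U := by
  obtain ⟨V, hV, hKV⟩ := compact_open_separated_mul_right hK hU hKU
  have hV' : V⁻¹ ∈ 𝓝 (1 : GU κ) := by
    have := inv_mem_nhds_one (GU κ) hV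
    exact this
  filter_upwards [xx_small hV, xx_small hV'] with N h1 h2
  refine ⟨fun θ g hg => hKV (Set.mul_mem_mul hg (h1 θ)), fun θ g hg => ?_⟩
  have h3 : (xx N θ)⁻¹ ∈ V := by
    have := h2 θ
    rwa [Set.mem_inv] at this
  have := hKV (Set.mul_mem_mul hg h3)
  rwa [mul_inv_cancel_right] at this

end Var1Aux

end Pool.Agent.MPd01a95
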