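import Mathlib
import Pool.Agent.Lib.MP_d01a95_gt_H.Var1c
import Pool.Agent.Lib.MP_d01a95_gt_H.Var1f

/-!
# Local variation, part 7: the limit of the comparison terms
-/

set_option autoImplicit false
set_option linter.all false

open Matrix Filter Topology MeasureTheory Measure
open scoped ENNReal NNReal ContDiff

namespace Pool.Agent.MPd01a95

open GU

namespace Var1Aux

variable {κ n : Type} [Fintype κ] [DecidableEq κ] [Fintype n] [DecidableEq n]
  {G : Type} [Group G]

theorem Dl_def (f : EM κ → ℝ) (N : ℕ) (θ : KU κ × Dr κ) (h : GU κ) :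
    Dl f N θ h = 4 ^ N * (f (h * xx N θ).M + f (h * (xx N θ)⁻¹).M - 2 * f h.M) := by
  unfold Dl; rfl

theorem Lam_bound {f : EM κ → ℝ} (hf : ContDiff ℝ 2 f) (hfc : HasCompactSupport f) :
    ∃ C : ℝ, 0 ≤ C ∧ ∀ h : GU κ, |Lam f h| ≤ C := by
  obtain ⟨C, hC0, hC⟩ := Dl_bound hf hfc
  refine ⟨C * (th κ).real Set.univ, by positivity, fun h => ?_⟩
  rw [Lam_eq hf hfc h]
  exact norm_integral_le_of_norm_le_const (μ := th κ) (f := fun θ => Ds f θ h)
    (Eventually.of_forall fun θ => by rw [Real.norm_eq_abs]; exact Ds_bound hf hC θ h)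

theorem Lam_zero {f : EM κ → ℝ} (hf : ContDiff ℝ 2 f) (hfc : HasCompactSupport f) {R : ℝ}
    (hR1 : 1 ≤ R) (hR : ∀ g : GU κ, f g.M ≠ 0 → c g ≤ R) {h : GU κ} (hh : 4 * R < c h) :
    Lam f h = 0 := by
  rw [Lam_eq hf hfc h]
  simp only [Ds_zero hf hR1 hR hh, integral_zero]

theorem Lam_meas {f : EM κ → ℝ} (hf : ContDiff ℝ 2 f) (hfc : HasCompactSupport f) :
    Measurable fun h : GU κ => Lam f h := by
  have h1 : (fun h : GU κ => Lam f h) = fun h => ∫ θ, Ds f θ h ∂(th κ) := by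
    ext h; exact Lam_eq hf hfc h
  rw [h1]
  have h2 : Measurable fun q : GU κ × (KU κ × Dr κ) => Ds f q.2 q.1 :=
    (Ds_meas hf).comp measurable_swap
  exact (h2.stronglyMeasurable.integral_prod_right' (ν := th κ)).measurable

theorem Lam_mul {f : EM κ → ℝ} (hf : ContDiff ℝ 2 f) (hfc : HasCompactSupport f) (e : ℝ)
    (h : GU κ) : Lam (fun z => e * f z) h = e * Lam f h := by
  have hf' : ContDiff ℝ 2 fun z => e * f z := contDiff_const.mul hf
  have hfc' : HasCompactSupport fun z => e * f z := hfc.mul_left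
  rw [Lam_eq hf' hfc', Lam_eq hf hfc, ← integral_const_mul]
  congr 1
  ext θ
  have h1 := Dl_tendsto hf' θ h
  have h2 := (Dl_tendsto hf θ h).const_mul e
  refine tendsto_nhds_unique h1 (h2.congr fun N => ?_)
  rw [Dl_def, Dl_def]
  ring

theorem PLam_int (μ : Measure (GU κ)) {P : GU κ → ℝ} (hP : Measurable P)
    (hPi : ∀ R : ℝ, IntegrableOn P {g | c g ≤ R} μ) {f : EM κ → ℝ} (hf : ContDiff ℝ 2 f)
    (hfc : HasCompactSupport f) {w : GU κ → ℝ} (hw : Measurable w) {C : ℝ}
    (hwC : ∀ g, |w g| ≤ C) : Integrable (fun g => P g * (w g * Lam f g)) μ := by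
  obtain ⟨C', hC'0, hC'⟩ := Lam_bound hf hfc
  obtain ⟨R, hR1, hR⟩ := supp_bound hfc
  have hBm : MeasurableSet {g : GU κ | c g ≤ 4 * R} := (isCompact_c _).measurableSet
  have h1 : Integrable (({g : GU κ | c g ≤ 4 * R}.indicator P)) μ :=
    (integrable_indicator_iff hBm).mpr (hPi _)
  have hm : Measurable fun g => w g * Lam f g := hw.mul (Lam_meas hf hfc)
  have hC0 : 0 ≤ C := (abs_nonneg _).trans (hwC 1)
  have h2 : Integrable (fun g => {g : GU κ | c g ≤ 4 * R}.indicator P g * (w g * Lam f g)) μ := by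
    refine h1.mul_bdd (c := C * C') hm.aestronglyMeasurable (Eventually.of_forall fun g => ?_)
    rw [norm_mul, Real.norm_eq_abs, Real.norm_eq_abs]
    exact mul_le_mul (hwC g) (hC' g) (abs_nonneg _) hC0
  refine h2.congr (Eventually.of_forall fun g => ?_)
  by_cases hg : c g ≤ 4 * R
  · beta_reduce
    rw [Set.indicator_of_mem (show g ∈ {g : GU κ | c g ≤ 4 * R} from hg)]
  · beta_reduce
    rw [Lam_zero hf hfc hR1 hR (not_le.mp hg)]
    ring

/-- integrability on the product and the limit -/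
theorem lim_Gx {σ : G →* GU κ} (hL : Lat σ) (μ : Measure (GU κ)) [IsHaarMeasure μ]
    {P : GU κ → ℝ} (hP : Measurable P)
    (hPi : ∀ R : ℝ, IntegrableOn P {g | c g ≤ R} μ) {f : EM κ → ℝ} (hf : ContDiff ℝ 2 f)
    (hfc : HasCompactSupport f) (hf1 : ∀ z, f z ∈ Set.Icc (0 : ℝ) 1) :
    (∀ N, Integrable (fun p : (KU κ × Dr κ) × GU κ => Gx P (fun g => f g.M) (xx N p.1) p.2)
      ((th κ).prod μ)) ∧
    Tendsto (fun N : ℕ => (4 : ℝ) ^ N * ∫ p : (KU κ × Dr κ) × GU κ,
      Gx P (fun g => f g.M) (xx N p.1) p.2 ∂((th κ).prod μ)) atTop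
      (𝓝 (∫ g, P g * ((1 - 2 * f g.M) * Lam f g) ∂μ)) := by
  haveI := right_inv hL μ
  obtain ⟨R, hR1, hR⟩ := supp_bound hfc
  obtain ⟨C, hC0, hC⟩ := Dl_bound hf hfc
  set B : Set (GU κ) := {g : GU κ | c g ≤ 4 * R} with hB
  have hBm : MeasurableSet B := (isCompact_c _).measurableSet
  set s : GU κ → ℝ := fun g => f g.M with hs
  have hsm : Measurable s := (hf.continuous.comp continuous_M).measurable
  have hs1 : ∀ g, s g ∈ Set.Icc (0 : ℝ) 1 := fun g => hf1 _
  have v0 : ∀ h, h ∉ B → s h = 0 := by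
    intro h hh
    by_contra hne
    have := hR h hne
    exact hh (show c h ≤ 4 * R by linarith)
  have v1 : ∀ x : GU κ, c x ≤ 2 → ∀ h, h ∉ B → s (h * x) = 0 := by
    intro x hx h hh
    by_contra hne
    exact hh (c_of_mul hx (hR _ hne))
  have gx : ∀ (N : ℕ) (θ : KU κ × Dr κ), Integrable (fun h => Gx P s (xx N θ) h) μ ∧
      ∫ h, Gx P s (xx N θ) h ∂μ = ∫ h, G2 P s (xx N θ) h ∂μ ∧
      ∫ h, ‖Gx P s (xx N θ) h‖ ∂μ ≤ 6 * ∫ h in B, |P h| ∂μ := fun N θ =>
    int_Gx hP hsm hs1 hBm (hPi _) (xx N θ) v0 (v1 _ (c_xx_le N θ))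
      (v1 _ (by rw [c_inv]; exact c_xx_le N θ))
  have hint : ∀ N, Integrable (fun p : (KU κ × Dr κ) × GU κ => Gx P s (xx N p.1) p.2)
      ((th κ).prod μ) := by
    intro N
    have hm : Measurable fun p : (KU κ × Dr κ) × GU κ => Gx P s (xx N p.1) p.2 :=
      Gx_meas hP hsm (xx_meas N)
    rw [integrable_prod_iff hm.aestronglyMeasurable]
    refine ⟨Eventually.of_forall fun θ => (gx N θ).1, ?_⟩
    refine Integrable.of_bound (hm.aestronglyMeasurable.norm.integral_prod_right')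
      (6 * ∫ h in B, |P h| ∂μ) (Eventually.of_forall fun θ => ?_)
    rw [Real.norm_eq_abs, abs_of_nonneg (integral_nonneg fun h => norm_nonneg _)]
    exact (gx N θ).2.2
  refine ⟨hint, ?_⟩
  set T : ℕ → (KU κ × Dr κ) × GU κ → ℝ := fun N p => P p.2 * ((1 - 2 * s p.2) * Dl f N p.1 p.2)
    with hT
  set T' : (KU κ × Dr κ) × GU κ → ℝ := fun p => P p.2 * ((1 - 2 * s p.2) * Ds f p.1 p.2) with hT'
  have hPB : Integrable (B.indicator P) μ := (integrable_indicator_iff hBm).mpr (hPi _)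
  have hbnd : Integrable (fun p : (KU κ × Dr κ) × GU κ => C * |B.indicator P p.2|)
      ((th κ).prod μ) := ((hPB.abs.const_mul C).comp_snd (th κ))
  have hcoef : ∀ g, |1 - 2 * s g| ≤ 1 := by
    intro g
    rw [abs_le]; constructor <;> linarith [(hs1 g).1, (hs1 g).2]
  have hTb : ∀ N p, ‖T N p‖ ≤ C * |B.indicator P p.2| := by
    intro N p
    by_cases hp : p.2 ∈ B
    · rw [Set.indicator_of_mem hp, hT]
      beta_reduce
      rw [norm_mul, norm_mul, Real.norm_eq_abs, Real.norm_eq_abs, Real.norm_eq_abs]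
      calc |P p.2| * (|1 - 2 * s p.2| * |Dl f N p.1 p.2|) ≤ |P p.2| * (1 * C) := by
            gcongr
            · exact hcoef _
            · exact hC _ _ _
        _ = C * |P p.2| := by ring
    · have h4 : 4 * R < c p.2 := not_le.mp hp
      rw [hT]
      beta_reduce
      rw [Dl_zero hR1 hR h4, mul_zero, mul_zero, norm_zero]
      positivity
  have hTm : ∀ N, Measurable (T N) := fun N =>
    (hP.comp measurable_snd).mul ((measurable_const.sub ((hsm.comp measurable_snd).const_mul 2)).mul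
      (Dl_meas hf.continuous N))
  have hTm' : Measurable T' :=
    (hP.comp measurable_snd).mul ((measurable_const.sub ((hsm.comp measurable_snd).const_mul 2)).mul
      (Ds_meas hf))
  have hTi : ∀ N, Integrable (T N) ((th κ).prod μ) := fun N =>
    hbnd.mono' (hTm N).aestronglyMeasurable (Eventually.of_forall (hTb N))
  have hlim : ∀ p, Tendsto (fun N => T N p) atTop (𝓝 (T' p)) := by
    intro p
    exact ((Dl_tendsto hf p.1 p.2).const_mul _).const_mul _
  have hTi' : Integrable T' ((th κ).prod μ) := by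
    refine hbnd.mono' hTm'.aestronglyMeasurable (Eventually.of_forall fun p => ?_)
    exact le_of_tendsto (hlim p).norm (Eventually.of_forall fun N => hTb N p)
  have hdct : Tendsto (fun N => ∫ p, T N p ∂((th κ).prod μ)) atTop
      (𝓝 (∫ p, T' p ∂((th κ).prod μ))) :=
    tendsto_integral_of_dominated_convergence _ (fun N => (hTm N).aestronglyMeasurable) hbnd
      (fun N => Eventually.of_forall (hTb N)) (Eventually.of_forall hlim)
  have e1 : ∀ N, (4 : ℝ) ^ N * ∫ p : (KU κ × Dr κ) × GU κ, Gx P s (xx N p.1) p.2 ∂((th κ).prod μ) =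
      ∫ p, T N p ∂((th κ).prod μ) := by
    intro N
    rw [integral_prod _ (hint N), integral_prod _ (hTi N), ← integral_const_mul]
    congr 1
    ext θ
    change (4 : ℝ) ^ N * ∫ h, Gx P s (xx N θ) h ∂μ = ∫ h, T N (θ, h) ∂μ
    rw [(gx N θ).2.1, ← integral_const_mul]
    congr 1
    ext h
    change (4 : ℝ) ^ N * G2 P s (xx N θ) h = P h * ((1 - 2 * s h) * Dl f N θ h)
    rw [Dl_def, G2]
    change (4 : ℝ) ^ N * (P h * ((1 - 2 * s h) * (s (h * xx N θ) + s (h * (xx N θ)⁻¹) -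
      2 * s h))) = P h * ((1 - 2 * s h) * (4 ^ N * (s (h * xx N θ) + s (h * (xx N θ)⁻¹) -
      2 * s h)))
    ring
  have e2 : ∫ p, T' p ∂((th κ).prod μ) = ∫ g, P g * ((1 - 2 * f g.M) * Lam f g) ∂μ := by
    rw [integral_prod_symm _ hTi']
    congr 1
    ext h
    rw [Lam_eq hf hfc h]
    change ∫ θ, P h * ((1 - 2 * s h) * Ds f θ h) ∂(th κ) = _
    rw [integral_const_mul, integral_const_mul]
  rw [← e2]
  exact hdct.congr fun N => (e1 N).symm

end Var1Aux

end Pool.Agent.MPd01a95
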