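import Mathlib
import Pool.Agent.Lib.MP_d01a95_gt_H.Var1g

/-!
# Local variation, part 8: the local variation from the integrated double bound
-/

set_option autoImplicit false
set_option linter.all false

open Matrix Filter Topology MeasureTheory Measure
open scoped ENNReal NNReal ContDiff

namespace Pool.Agent.MPd01a95

open GU

namespace Var1Aux

variable {κ n : Type} [Fintype κ] [DecidableEq κ] [Fintype n] [DecidableEq n]
  {G : Type} [Group G]

/-- the first step, with the factor `1 - 2 f` -/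
theorem core1 {σ : G →* GU κ} (hL : Lat σ)
    (μ : Measure (GU κ)) [IsHaarMeasure μ] {χ : GU κ → ℝ} (hχ : Cut σ χ)
    (ρ : G →* Matrix n n ℝ) {F : GU κ → PD n} (hF : EqF σ ρ F)
    (hD : ∀ R : ℝ, ∫⁻ g in {g | c g ≤ R}, ∫⁻ g' in {g | c g ≤ R}, edist (F g) (F g') ^ 2 ∂μ ∂μ ≠ ⊤)
    (hE : EE μ χ F ≠ ⊤)
    (hmin : ∀ F', EqF σ ρ F' → DD μ χ F F' ≠ ⊤ → EE μ χ F ≤ EE μ χ F')
    (y : GU κ) (U : Set (GU κ)) (hU : IsOpen U)
    (hU1 : ∀ γ, γ ≠ 1 → ∀ g ∈ U, σ γ * g ∉ U)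
    (hU2 : ∀ γ, γ ≠ 1 → ∀ g ∈ U, ∀ g' ∈ U, σ γ * (y * g) ≠ y * g')
    (f : EM κ → ℝ) (hf : ContDiff ℝ 2 f) (hf1 : ∀ z, f z ∈ Set.Icc (0 : ℝ) 1)
    (hfc : HasCompactSupport f) (hfU : ∀ g : GU κ, g.M ∈ tsupport f → g ∈ U) :
    0 ≤ ∫ g, dist (F g) (F (y * g)) ^ 2 * ((1 - 2 * f g.M) * Lam f g) ∂μ := by
  haveI := right_inv hL μ
  haveI := hL.countable
  set s : GU κ → ℝ := fun g => f g.M with hs
  set K : Set (GU κ) := {g | g.M ∈ tsupport f} with hK
  have hKc : IsCompact K := isClosedEmbedding_M.isCompact_preimage hfc.isCompact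
  have hKm : MeasurableSet K := hKc.measurableSet
  have hKU : K ⊆ U := fun g hg => hfU g hg
  have hsm : Measurable s := (hf.continuous.comp continuous_M).measurable
  have hsK : ∀ g, s g ≠ 0 → g ∈ K := fun g hg => subset_tsupport f hg
  have hs1 : ∀ g, s g ∈ Set.Icc (0 : ℝ) 1 := fun g => hf1 _
  have hd : Dj σ U := hU1
  have hd' : Dj σ {g | y⁻¹ * g ∈ U} := by
    intro γ hγ g hg hg'
    have h1 := hU2 γ hγ (y⁻¹ * g) hg (y⁻¹ * (σ γ * g)) hg'
    rw [mul_inv_cancel_left, mul_inv_cancel_left] at h1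
    exact h1 rfl
  have hPm : Measurable fun g => dist (F g) (F (y * g)) ^ 2 :=
    (hF.1.dist (hF.1.comp (measurable_const_mul y))).pow_const 2
  obtain ⟨R, hR1, hR⟩ := exists_bound hKc
  have hPK : ∫⁻ g in K, edist (F g) (F (y * g)) ^ 2 ∂μ ≠ ⊤ :=
    ne_top_of_le_ne_top (P_fin μ hF.1 hD y R) (lintegral_mono_set hR)
  have hχs : ∀ g, ∑' γ, (fun g => ENNReal.ofReal (χ g)) (σ γ * g) = 1 := hχ.sum
  have ha : ∀ γ, Isometry (ac ρ γ) := ac_isom ρ
  have m1 : EqF σ ρ (F1 σ (ac ρ) PD.gd U s y F) :=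
    ⟨F1_meas cnPD hd hU.measurableSet ha hsm hs1 hF.1,
      fun γ g => modF_eqv hd (ac_mul ρ) hF.2 γ g⟩
  have m2 : EqF σ ρ (F2 σ (ac ρ) PD.gd U s y F) :=
    ⟨F2_meas cnPD hd' hU.measurableSet ha hsm hs1 hF.1,
      fun γ g => modF_eqv hd' (ac_mul ρ) hF.2 γ g⟩
  have d1 : DD μ χ F (F1 σ (ac ρ) PD.gd U s y F) ≠ ⊤ :=
    ne_top_of_le_ne_top hPK (eD_F1 hχ.meas hχs ha cnPD hd hU.measurableSet hKm hKU hsm hsK hs1
      (ac_one ρ) (ac_mul ρ) hF.1 hF.2)
  have d2 : DD μ χ F (F2 σ (ac ρ) PD.gd U s y F) ≠ ⊤ :=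
    ne_top_of_le_ne_top hPK (eD_F2 hχ.meas hχs ha cnPD hd' hU.measurableSet hKm hKU hsm hsK hs1
      (ac_one ρ) (ac_mul ρ) hF.1 hF.2)
  obtain ⟨l1, l2⟩ := lim_Gx hL μ hPm (P_int μ hF.1 hD y) hf hfc hf1
  exact var_abs (θ := th κ) (x := xx) hχ.meas hχs ha cnPD hd hd' hU.measurableSet hKm hKU hsm
    hsK hs1 (ac_one ρ) (ac_mul ρ) xx_meas (fun n ϑ => xx_two n ϑ) hF.1 hF.2
    (xx_small2 hKc hU hKU) hE (hmin _ m1 d1) (hmin _ m2 d2) (Eventually.of_forall l1) l2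

theorem core {σ : G →* GU κ} (hL : Lat σ)
    (μ : Measure (GU κ)) [IsHaarMeasure μ] {χ : GU κ → ℝ} (hχ : Cut σ χ)
    (ρ : G →* Matrix n n ℝ) {F : GU κ → PD n} (hF : EqF σ ρ F)
    (hD : ∀ R : ℝ, ∫⁻ g in {g | c g ≤ R}, ∫⁻ g' in {g | c g ≤ R}, edist (F g) (F g') ^ 2 ∂μ ∂μ ≠ ⊤)
    (hE : EE μ χ F ≠ ⊤)
    (hmin : ∀ F', EqF σ ρ F' → DD μ χ F F' ≠ ⊤ → EE μ χ F ≤ EE μ χ F')
    (y : GU κ) (U : Set (GU κ)) (hU : IsOpen U)
    (hU1 : ∀ γ, γ ≠ 1 → ∀ g ∈ U, σ γ * g ∉ U)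
    (hU2 : ∀ γ, γ ≠ 1 → ∀ g ∈ U, ∀ g' ∈ U, σ γ * (y * g) ≠ y * g')
    (f : EM κ → ℝ) (hf : ContDiff ℝ 2 f) (hf0 : ∀ z, 0 ≤ f z)
    (hfc : HasCompactSupport f) (hfU : ∀ g : GU κ, g.M ∈ tsupport f → g ∈ U) :
    0 ≤ ∫ g, dist (F g) (F (y * g)) ^ 2 * Lam f g ∂μ := by
  obtain ⟨M0, hM0⟩ := (hfc.isCompact.image hf.continuous).bddAbove
  set M : ℝ := max M0 1 with hM
  have hM1 : 1 ≤ M := le_max_right _ _
  have hfM : ∀ z, f z ≤ M := by
    intro z
    by_cases hz : f z = 0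
    · rw [hz]; linarith
    · exact le_max_of_le_left (hM0 ⟨z, subset_tsupport f hz, rfl⟩)
  have hPm : Measurable fun g => dist (F g) (F (y * g)) ^ 2 :=
    (hF.1.dist (hF.1.comp (measurable_const_mul y))).pow_const 2
  have hPi := P_int μ hF.1 hD y
  set P : GU κ → ℝ := fun g => dist (F g) (F (y * g)) ^ 2 with hP
  have i1 : Integrable (fun g => P g * Lam f g) μ := by
    have := PLam_int μ hPm hPi hf hfc (w := fun _ => 1) measurable_const (C := 1)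
      (fun _ => by simp)
    simpa using this
  have i2 : Integrable (fun g => P g * (f g.M * Lam f g)) μ :=
    PLam_int μ hPm hPi hf hfc (w := fun g => f g.M)
      ((hf.continuous.comp continuous_M).measurable) (C := M)
      (fun g => by rw [abs_of_nonneg (hf0 _)]; exact hfM _)
  set I : ℝ := ∫ g, P g * Lam f g ∂μ with hI
  set J : ℝ := ∫ g, P g * (f g.M * Lam f g) ∂μ with hJ
  have key : ∀ e : ℝ, 0 < e → e ≤ 1 / M → 0 ≤ I - 2 * e * J := by
    intro e he heM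
    have heM' : e * M ≤ 1 := by
      rw [le_div_iff₀ (by linarith)] at heM
      exact heM
    have hfe : ContDiff ℝ 2 fun z => e * f z := contDiff_const.mul hf
    have hfce : HasCompactSupport fun z => e * f z := hfc.mul_left
    have hts : tsupport (fun z => e * f z) ⊆ tsupport f := by
      apply closure_mono
      intro z hz
      rw [Function.mem_support] at hz ⊢
      exact fun h0 => hz (by rw [h0, mul_zero])
    have h1 := core1 hL μ hχ ρ hF hD hE hmin y U hU hU1 hU2 (fun z => e * f z) hfe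
      (fun z => ⟨mul_nonneg he.le (hf0 z), (mul_le_mul_of_nonneg_left (hfM z) he.le).trans heM'⟩)
      hfce (fun g hg => hfU g (hts hg))
    have h2 : ∫ g, dist (F g) (F (y * g)) ^ 2 * ((1 - 2 * (e * f g.M)) *
        Lam (fun z => e * f z) g) ∂μ = e * (I - 2 * e * J) := by
      have h3 : ∀ g, dist (F g) (F (y * g)) ^ 2 * ((1 - 2 * (e * f g.M)) *
          Lam (fun z => e * f z) g) = e * (P g * Lam f g - 2 * e * (P g * (f g.M * Lam f g))) := by
        intro g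
        rw [Lam_mul hf hfc]
        change P g * _ = _
        ring
      simp only [h3]
      rw [integral_const_mul, integral_sub i1 (i2.const_mul _), integral_const_mul]
    rw [h2] at h1
    exact nonneg_of_mul_nonneg_right h1 he
  by_contra hneg
  push Not at hneg
  have hneg' : I < 0 := hneg
  have hJ1 : 0 < |J| + 1 := by positivity
  set e : ℝ := min (1 / M) (-I / (4 * (|J| + 1))) with he
  have he0 : 0 < e := lt_min (by positivity) (by apply div_pos <;> linarith)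
  have h1 := key e he0 (min_le_left _ _)
  have h2 : e * (4 * (|J| + 1)) ≤ -I := by
    have : e ≤ -I / (4 * (|J| + 1)) := min_le_right _ _
    rwa [le_div_iff₀ (by linarith)] at this
  have h3 : -J ≤ |J| := neg_le_abs J
  have h4 : e * (-J) ≤ e * |J| := mul_le_mul_of_nonneg_left h3 he0.le
  nlinarith

end Var1Aux

end Pool.Agent.MPd01a95
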