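import Mathlib
import Pool.Agent.Lib.MP_d01a95_gt_H.HDefs
import Pool.Agent.Lib.MP_d01a95_gt_H.Unimod
import Pool.Agent.Lib.MP_d01a95_gt_H.HDefs2
import Pool.Agent.Lib.MP_d01a95_gt_H.Dbl
import Pool.Agent.Lib.MP_d01a95_gt_H.Var1h
set_option autoImplicit false
set_option linter.all false
open Matrix Filter Topology MeasureTheory Measure
open scoped ENNReal NNReal ContDiff
namespace Pool.Agent.MPd01a95
open GU
variable {κ n ι α : Type} [Fintype κ] [DecidableEq κ] [Fintype n] [DecidableEq n]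
  [Fintype ι] [DecidableEq ι] [Fintype α] [DecidableEq α] {G : Type} [Group G]

/-- module VAR1: the local variation -/
theorem var_local (hκ : 0 < Fintype.card κ) {σ : G →* GU κ} (hL : Lat σ)
    (μ : Measure (GU κ)) [IsHaarMeasure μ] {χ : GU κ → ℝ} (hχ : Cut σ χ)
    (ρ : G →* Matrix n n ℝ) {F : GU κ → PD n} (hF : EqF σ ρ F) (hK : Kinv μ F)
    (hE : EE μ χ F ≠ ⊤)
    (hmin : ∀ F', EqF σ ρ F' → DD μ χ F F' ≠ ⊤ → EE μ χ F ≤ EE μ χ F')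
    (y : GU κ) (U : Set (GU κ)) (hU : IsOpen U)
    (hU1 : ∀ γ, γ ≠ 1 → ∀ g ∈ U, σ γ * g ∉ U)
    (hU2 : ∀ γ, γ ≠ 1 → ∀ g ∈ U, ∀ g' ∈ U, σ γ * (y * g) ≠ y * g')
    (f : ((κ ⊕ Unit) → (κ ⊕ Unit) → ℂ) → ℝ) (hf : ContDiff ℝ 2 f) (hf0 : ∀ x, 0 ≤ f x)
    (hfc : HasCompactSupport f) (hfU : ∀ g : GU κ, g.M ∈ tsupport f → g ∈ U) :
    0 ≤ ∫ g, dist (F g) (F (y * g)) ^ 2 * Lam f g ∂μ := by
  refine Var1Aux.core hL μ hχ ρ hF (fun R => ?_) hE hmin y U hU hU1 hU2 f hf hf0 hfc hfU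
  obtain ⟨A, hA, h⟩ := double_bd hL hκ μ hχ ρ R
  exact ne_top_of_le_ne_top (ENNReal.mul_ne_top hA hE) (h F hF hK)

end Pool.Agent.MPd01a95
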