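import Mathlib
import Pool.Agent.Lib.MP_d01a95_gt_H.HDefs
import Pool.Agent.Lib.MP_d01a95_gt_H.HDefs2
import Pool.Agent.Lib.MP_d01a95_gt_H.Unimod
import Pool.Agent.Lib.MP_d01a95_gt_H.Cone
import Pool.Agent.Lib.MP_d01a95_gt_H.Ker
import Pool.Agent.Lib.MP_d01a95_gt_H.Var1g

/-! Module VAR2 of project HARMONIC: radial test functions. -/

set_option autoImplicit false
set_option linter.all false

open Matrix Filter Topology MeasureTheory Measure
open scoped ENNReal NNReal ContDiff Manifold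

namespace Pool.Agent.MPd01a95

open GU

variable {κ n ι α : Type} [Fintype κ] [DecidableEq κ] [Fintype n] [DecidableEq n]
  [Fintype ι] [DecidableEq ι] [Fintype α] [DecidableEq α] {G : Type} [Group G]

namespace Var2Aux

open Var1Aux

/-- the kernel has compact support on the group -/
theorem exists_supp {β : ℝ → ℝ} {v : κ ⊕ Unit → ℂ} (hv : v ∈ Cn κ) (hβc : HasCompactSupport β) :
    ∃ B : Set (GU κ), IsCompact B ∧ ∀ g ∉ B, sv v g.pt ∉ tsupport β := by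
  obtain ⟨g₀, l, hl, rfl⟩ := exists_pt v hv
  obtain ⟨R, hR⟩ := (show IsCompact (tsupport β) from hβc).isBounded.exists_norm_le
  have h1 : ∀ g : GU κ, sv (l • g₀.pt) g.pt = c (g₀⁻¹ * g) ^ 2 := by
    intro g
    have e1 : sv (l • g₀.pt) g.pt = sv g₀.pt g.pt := by
      have := sv_smul hl one_ne_zero g₀.pt g.pt
      rwa [one_smul] at this
    rw [e1, ← sv_e0, ← sv_inv g₀ e0]
    congr 1
    show g.pt = g₀.M *ᵥ ((g₀⁻¹ * g).M *ᵥ e0)
    rw [Matrix.mulVec_mulVec, ← M_mul, mul_inv_cancel_left]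
    rfl
  refine ⟨(fun g => g₀ * g) '' {g : GU κ | c g ≤ R + 1}, (isCompact_c (R + 1)).image
    (continuous_const_mul g₀), fun g hg hs => hg ?_⟩
  refine ⟨g₀⁻¹ * g, ?_, by simp⟩
  have h2 := hR _ hs
  rw [h1, Real.norm_eq_abs] at h2
  have h3 := le_of_abs_le h2
  have h4 := c_ge_one (g₀⁻¹ * g)
  show c (g₀⁻¹ * g) ≤ R + 1
  nlinarith

/-- the invariant is at least one on the cone -/
theorem sv_ge {v w : κ ⊕ Unit → ℂ} (hv : v ∈ Cn κ) (hw : w ∈ Cn κ) : 1 ≤ sv v w := by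
  obtain ⟨g, l, hl, rfl⟩ := exists_pt w hw
  have h1 := sv_smul (one_ne_zero (α := ℂ)) hl v g.pt
  rw [one_smul] at h1
  rw [h1, sv, (pt_mem g).2, mul_one]
  have hq : 0 < LowAux.nqC v := hv
  rw [le_div_iff₀ hq, one_mul]
  have h2 := KerAux.form_sum g v
  have h3 : 0 ≤ ∑ j, ‖hf v (g.M *ᵥ ej j)‖ ^ 2 := Finset.sum_nonneg fun j _ => by positivity
  linarith

/-- small neighbourhoods are disjoint from their translates -/
theorem nbhd {σ : G →* GU κ} (hL : Lat σ) (y g₀ : GU κ) :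
    ∃ U : Set (GU κ), IsOpen U ∧ g₀ ∈ U ∧ (∀ γ, γ ≠ 1 → ∀ g ∈ U, σ γ * g ∉ U) ∧
      (∀ γ, γ ≠ 1 → ∀ g ∈ U, ∀ g' ∈ U, σ γ * (y * g) ≠ y * g') := by
  obtain ⟨W, hWo, hW1, hW⟩ := hL.disc
  have hm1 : Tendsto (fun q : GU κ × GU κ => q.1 * q.2⁻¹) (𝓝 (g₀, g₀)) (𝓝 1) := by
    have : Continuous fun q : GU κ × GU κ => q.1 * q.2⁻¹ := continuous_fst.mul continuous_snd.inv
    have h := this.tendsto (g₀, g₀)
    rwa [mul_inv_cancel] at h
  have hm2 : Tendsto (fun q : GU κ × GU κ => y * (q.1 * q.2⁻¹) * y⁻¹) (𝓝 (g₀, g₀)) (𝓝 1) := by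
    have h := ((tendsto_const_nhds (x := y)).mul hm1).mul (tendsto_const_nhds (x := y⁻¹))
    rwa [mul_one, mul_inv_cancel] at h
  have he := (hm1.eventually (hWo.mem_nhds hW1)).and (hm2.eventually (hWo.mem_nhds hW1))
  have he' : {q : GU κ × GU κ | q.1 * q.2⁻¹ ∈ W ∧ y * (q.1 * q.2⁻¹) * y⁻¹ ∈ W} ∈
      𝓝 (g₀, g₀) := he
  rw [mem_nhds_prod_iff'] at he'
  obtain ⟨A, B, hA, hgA, hB, hgB, hAB⟩ := he'
  refine ⟨A ∩ B, hA.inter hB, ⟨hgA, hgB⟩, fun γ hγ g hg hg' => hγ (hW γ ?_), ?_⟩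
  · have h := (hAB (Set.mk_mem_prod hg'.1 hg.2)).1
    simpa using h
  · intro γ hγ g hg g' hg' e
    refine hγ (hW γ ?_)
    have h := (hAB (Set.mk_mem_prod hg'.1 hg.2)).2
    have e2 : σ γ = y * (g' * g⁻¹) * y⁻¹ := by
      rw [eq_mul_inv_iff_mul_eq, ← mul_assoc, eq_mul_inv_iff_mul_eq, mul_assoc]
      exact e
    rw [e2]
    exact h

/-- the column attached to a matrix -/
def ptE (x : EM κ) : κ ⊕ Unit → ℂ := fun i => x i (Sum.inr ())

theorem ptE_cd : ContDiff ℝ ∞ (ptE : EM κ → κ ⊕ Unit → ℂ) := by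
  unfold ptE
  fun_prop

/-- the matrix of a group element, as a point of the normed space -/
def mE (g : GU κ) : EM κ := g.M

theorem mE_cont : Continuous (mE : GU κ → EM κ) := continuous_M

theorem ptE_M (g : GU κ) : ptE (g.M : EM κ) = g.pt := by
  ext i
  rw [GU.pt, mulVec_e0]
  rfl

/-- the test function -/
noncomputable def tf (φ : EM κ → ℝ) (β : ℝ → ℝ) (v : κ ⊕ Unit → ℂ) (x : EM κ) : ℝ :=
  φ x * β (sv v (ptE x))

theorem isOpen_Om : IsOpen {x : EM κ | ptE x ∈ Cn κ} :=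
  isOpen_Cn.preimage ptE_cd.continuous

theorem tf_cd {φ : EM κ → ℝ} (hφ : ContDiff ℝ ∞ φ) (hφs : tsupport φ ⊆ {x : EM κ | ptE x ∈ Cn κ})
    {β : ℝ → ℝ} (hβ : ContDiff ℝ 2 β) {v : κ ⊕ Unit → ℂ} (hv : v ∈ Cn κ) :
    ContDiff ℝ 2 (tf φ β v) := by
  rw [contDiff_iff_contDiffAt]
  intro x
  by_cases hx : x ∈ tsupport φ
  · have h1 : ContDiffAt ℝ 2 φ x := (hφ.of_le KerAux.two_le_inf).contDiffAt
    have h2 : ContDiffAt ℝ 2 (fun w => sv v w) (ptE x) :=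
      ((KerAux.sv_cd v hv).of_le KerAux.two_le_inf).contDiffAt (isOpen_Cn.mem_nhds (hφs hx))
    have h3 : ContDiffAt ℝ 2 (fun x : EM κ => sv v (ptE x)) x :=
      h2.comp x (ptE_cd.of_le KerAux.two_le_inf).contDiffAt
    exact h1.mul (hβ.contDiffAt.comp x h3)
  · have h1 : φ =ᶠ[𝓝 x] 0 := notMem_tsupport_iff_eventuallyEq.1 hx
    refine (contDiffAt_const (c := (0 : ℝ))).congr_of_eventuallyEq ?_
    filter_upwards [h1] with z hz
    simp [tf, hz]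

theorem tf_nonneg {φ : EM κ → ℝ} (hφ0 : ∀ x, 0 ≤ φ x)
    (hφs : tsupport φ ⊆ {x : EM κ | ptE x ∈ Cn κ})
    {β : ℝ → ℝ} (hβ0 : ∀ s, 1 ≤ s → 0 ≤ β s) {v : κ ⊕ Unit → ℂ} (hv : v ∈ Cn κ) (x : EM κ) :
    0 ≤ tf φ β v x := by
  by_cases hx : x ∈ tsupport φ
  · exact mul_nonneg (hφ0 x) (hβ0 _ (sv_ge hv (hφs hx)))
  · rw [tf, image_eq_zero_of_notMem_tsupport hx, zero_mul]

theorem tf_supp (φ : EM κ → ℝ) (β : ℝ → ℝ) (v : κ ⊕ Unit → ℂ) :
    tsupport (tf φ β v) ⊆ tsupport φ := by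
  refine closure_mono fun x hx => ?_
  intro h
  exact hx (by simp [tf, h])

/-- second derivative of a finite sum along a curve -/
theorem iter_sum {ι' : Type} (s : Finset ι') (F : ι' → EM κ → ℝ)
    (hF : ∀ i ∈ s, ContDiff ℝ 2 (F i)) (q : EM κ × EM κ × EM κ) :
    iteratedDeriv 2 (fun t => ∑ i ∈ s, F i (cu q t)) 0 =
      ∑ i ∈ s, iteratedDeriv 2 (fun t => F i (cu q t)) 0 := by
  have e1 : deriv (fun t => ∑ i ∈ s, F i (cu q t)) =
      fun t => ∑ i ∈ s, fderiv ℝ (F i) (cu q t) (cu1 q t) := by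
    funext t
    exact (HasDerivAt.fun_sum fun i hi => f_deriv (hF i hi) q t).deriv
  rw [iteratedDeriv_succ, iteratedDeriv_one, e1]
  rw [(HasDerivAt.fun_sum fun i hi => f_deriv2 (hF i hi) q 0).deriv]
  exact Finset.sum_congr rfl fun i hi => (sd_eq (hF i hi) q).symm

theorem int_K {F : EM κ → ℝ} (hF : ContDiff ℝ 2 F) (g : GU κ) :
    Integrable (fun k : KU κ => ∑ p : κ × Bool,
      iteratedDeriv 2 (fun t : ℝ => F ((g * k * bo t p * (k : GU κ)⁻¹).M)) 0) (muK κ) := by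
  have hcK : CompactSpace (KU κ) := isCompact_iff_compactSpace.1 isCompact_KU
  have e : (fun k : KU κ => ∑ p : κ × Bool,
      iteratedDeriv 2 (fun t : ℝ => F ((g * k * bo t p * (k : GU κ)⁻¹).M)) 0) =
      fun k : KU κ => ∑ p : κ × Bool, sd F (Qm g k p) 0 := by
    funext k
    refine Finset.sum_congr rfl fun p _ => ?_
    have : (fun t : ℝ => F ((g * k * bo t p * (k : GU κ)⁻¹).M)) = fun t => F (cu (Qm g k p) t) := by
      funext t
      rw [Qm_curve]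
    rw [this, sd_eq hF]
  rw [e]
  refine Continuous.integrable_of_hasCompactSupport ?_ (HasCompactSupport.of_compactSpace _)
  refine continuous_finset_sum _ fun p _ => ?_
  have h1 : Continuous fun k : KU κ => Qm g k p :=
    (Qm_cont p).comp (continuous_const.prodMk continuous_id)
  exact (sd_cont hF).comp (h1.prodMk continuous_const)

theorem sv_K {v : κ ⊕ Unit → ℂ} (g : GU κ) {k : GU κ} (hk : k ∈ KU κ) :
    sv v (g * k).pt = sv v g.pt := by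
  have h1 : k.M *ᵥ e0 = k.M (Sum.inr ()) (Sum.inr ()) • (e0 : κ ⊕ Unit → ℂ) := by
    funext i
    rw [mulVec_e0]
    rcases i with i | i
    · rw [hk.1 i]; simp [e0]
    · simp [e0]
  have h2 : k.M (Sum.inr ()) (Sum.inr ()) ≠ 0 := by
    intro h
    have h3 : c k = 0 := by
      unfold c cc
      rw [h, norm_zero]
    have h4 := c_ge_one k
    linarith
  have h3 : (g * k).pt = k.M (Sum.inr ()) (Sum.inr ()) • g.pt := by
    rw [GU.pt, GU.pt, M_mul, ← Matrix.mulVec_mulVec, h1, Matrix.mulVec_smul]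
  have h4 := sv_smul (one_ne_zero (α := ℂ)) h2 v g.pt
  rw [one_smul] at h4
  rw [h3, h4]

/-- the averaged second derivatives of the test functions add up to the radial Laplacian -/
theorem sum_Lam {ι' : Type} (s : Finset ι') (F : ι' → EM κ → ℝ)
    (hF : ∀ i ∈ s, ContDiff ℝ 2 (F i)) {β : ℝ → ℝ} (hβ : ContDiff ℝ 2 β)
    {v : κ ⊕ Unit → ℂ} (hv : v ∈ Cn κ)
    (hsum : ∀ g : GU κ, ∑ i ∈ s, F i g.M = β (sv v g.pt)) (g : GU κ) :
    ∑ i ∈ s, Lam (F i) g = LL (Fintype.card κ) β (sv v g.pt) := by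
  unfold Lam
  rw [← integral_finset_sum _ fun i hi => int_K (hF i hi) g]
  have e : ∀ k : KU κ, ∑ i ∈ s, ∑ p : κ × Bool,
      iteratedDeriv 2 (fun t : ℝ => F i ((g * k * bo t p * (k : GU κ)⁻¹).M)) 0 =
      LL (Fintype.card κ) β (sv v g.pt) := by
    intro k
    rw [Finset.sum_comm]
    have e1 : ∀ p : κ × Bool, ∑ i ∈ s,
        iteratedDeriv 2 (fun t : ℝ => F i ((g * k * bo t p * (k : GU κ)⁻¹).M)) 0 =
        iteratedDeriv 2 (fun t : ℝ => β (sv v (g * k * bo t p).pt)) 0 := by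
      intro p
      simp only [Qm_curve]
      rw [← iter_sum s F hF]
      congr 1
      funext t
      rw [← Qm_curve]
      rw [hsum, sv_K _ (inv_mem k.2)]
    simp only [e1]
    rw [(ker_deriv hβ v hv (g * k)).2, sv_K g k.2]
  simp only [e]
  rw [integral_const]
  simp

/-- integrability of the product with a locally integrable function -/
theorem int_uLam (μ : Measure (GU κ)) {u : GU κ → ℝ} (hu : LocallyIntegrable u μ)
    {f : EM κ → ℝ} (hf : ContDiff ℝ 2 f) (hfc : HasCompactSupport f) :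
    Integrable (fun g => u g * Lam f g) μ := by
  obtain ⟨C', hC'0, hC'⟩ := Lam_bound hf hfc
  obtain ⟨R, hR1, hR⟩ := supp_bound hfc
  have hBm : MeasurableSet {g : GU κ | c g ≤ 4 * R} := (isCompact_c _).measurableSet
  have h1 : Integrable (({g : GU κ | c g ≤ 4 * R}.indicator u)) μ :=
    (integrable_indicator_iff hBm).mpr (hu.integrableOn_isCompact (isCompact_c _))
  have h2 : Integrable (fun g => {g : GU κ | c g ≤ 4 * R}.indicator u g * Lam f g) μ := by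
    refine h1.mul_bdd (c := C') (Lam_meas hf hfc).aestronglyMeasurable
      (Eventually.of_forall fun g => ?_)
    rw [Real.norm_eq_abs]
    exact hC' g
  refine h2.congr (Eventually.of_forall fun g => ?_)
  by_cases hg : c g ≤ 4 * R
  · beta_reduce
    rw [Set.indicator_of_mem (show g ∈ {g : GU κ | c g ≤ 4 * R} from hg)]
  · beta_reduce
    rw [Lam_zero hf hfc hR1 hR (not_le.mp hg)]
    ring

end Var2Aux

open Var2Aux Var1Aux

/-- module VAR2: radial test functions -/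
theorem var_radial (hκ : 0 < Fintype.card κ) {σ : G →* GU κ} (hL : Lat σ)
    (μ : Measure (GU κ)) [IsHaarMeasure μ] (u : GU κ → ℝ) (hu : LocallyIntegrable u μ)
    (y : GU κ)
    (hvar : ∀ U : Set (GU κ), IsOpen U → (∀ γ, γ ≠ 1 → ∀ g ∈ U, σ γ * g ∉ U) →
      (∀ γ, γ ≠ 1 → ∀ g ∈ U, ∀ g' ∈ U, σ γ * (y * g) ≠ y * g') →
      ∀ f : ((κ ⊕ Unit) → (κ ⊕ Unit) → ℂ) → ℝ, ContDiff ℝ 2 f → (∀ x, 0 ≤ f x) →
      HasCompactSupport f → (∀ g : GU κ, g.M ∈ tsupport f → g ∈ U) →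
      0 ≤ ∫ g, u g * Lam f g ∂μ)
    {β : ℝ → ℝ} (hβ : ContDiff ℝ 2 β) (hβc : HasCompactSupport β) (hβ0 : ∀ s, 1 ≤ s → 0 ≤ β s)
    (v : κ ⊕ Unit → ℂ) (hv : v ∈ Cn κ) :
    0 ≤ ∫ g, u g * LL (Fintype.card κ) β (sv v g.pt) ∂μ := by
  classical
  obtain ⟨B, hB, hBs⟩ := exists_supp hv hβc
  -- neighbourhoods in the space of matrices
  have hN : ∀ g₀ : GU κ, ∃ U : Set (GU κ), ∃ O : Set (EM κ), IsOpen U ∧
      (∀ γ, γ ≠ 1 → ∀ g ∈ U, σ γ * g ∉ U) ∧
      (∀ γ, γ ≠ 1 → ∀ g ∈ U, ∀ g' ∈ U, σ γ * (y * g) ≠ y * g') ∧ IsOpen O ∧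
      mE g₀ ∈ O ∧ O ⊆ {x : EM κ | ptE x ∈ Cn κ} ∧ Bornology.IsBounded O ∧
      (∀ g : GU κ, mE g ∈ O → g ∈ U) := by
    intro g₀
    obtain ⟨U, hUo, hgU, h1, h2⟩ := nbhd hL y g₀
    obtain ⟨V, hV', hV⟩ : ∃ V : Set (EM κ), IsOpen V ∧ mE ⁻¹' V = U :=
      (isClosedEmbedding_M (κ := κ)).isInducing.isOpen_iff.1 hUo
    refine ⟨U, (V ∩ {x : EM κ | ptE x ∈ Cn κ}) ∩ Metric.ball (mE g₀) 1, hUo, h1, h2,
      (hV'.inter isOpen_Om).inter Metric.isOpen_ball, ⟨⟨?_, ?_⟩, ?_⟩, ?_, ?_, ?_⟩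
    · have : g₀ ∈ mE ⁻¹' V := by rw [hV]; exact hgU
      exact this
    · show ptE g₀.M ∈ Cn κ
      rw [ptE_M]
      exact (pt_mem g₀).1
    · exact Metric.mem_ball_self one_pos
    · exact fun x hx => hx.1.2
    · exact Metric.isBounded_ball.subset Set.inter_subset_right
    · intro g hg
      rw [← hV]
      exact hg.1.1
  choose U O hUo hU1 hU2 hOo hgO hOC hOb hOU using hN
  have hcov : ∀ g ∈ B, {g' : GU κ | mE g' ∈ O g} ∈ 𝓝 g := fun g _ =>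
    ((hOo g).preimage (mE_cont (κ := κ))).mem_nhds (hgO g)
  obtain ⟨t, ht⟩ := hB.elim_nhds_subcover' (fun g _ => {g' : GU κ | mE g' ∈ O g}) hcov
  have hs0 : IsClosed ((fun g : GU κ => mE g) '' B) :=
    (hB.image (mE_cont (κ := κ))).isClosed
  have hsub : (fun g : GU κ => mE g) '' B ⊆ ⋃ i : {x // x ∈ t}, O i.1.1 := by
    rintro _ ⟨g, hg, rfl⟩
    have h := ht hg
    simp only [Set.mem_iUnion] at h ⊢
    obtain ⟨x, hx, h⟩ := h
    exact ⟨⟨x, hx⟩, h⟩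
  obtain ⟨ρ, hρ⟩ := SmoothPartitionOfUnity.exists_isSubordinate 𝓘(ℝ, EM κ) hs0
    (fun i : {x // x ∈ t} => O i.1.1) (fun i => hOo _) hsub
  have hρc : ∀ i, ContDiff ℝ ∞ (ρ i : EM κ → ℝ) := fun i => (ρ i).contMDiff.contDiff
  have hρs : ∀ i, tsupport (ρ i : EM κ → ℝ) ⊆ O i.1.1 := hρ
  have hρC : ∀ i, tsupport (ρ i : EM κ → ℝ) ⊆ {x : EM κ | ptE x ∈ Cn κ} :=
    fun i => (hρs i).trans (hOC _)
  have hF : ∀ i ∈ (Finset.univ : Finset {x // x ∈ t}), ContDiff ℝ 2 (tf (ρ i) β v) :=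
    fun i _ => tf_cd (hρc i) (hρC i) hβ hv
  have hFc : ∀ i, HasCompactSupport (tf (ρ i : EM κ → ℝ) β v) := by
    intro i
    refine HasCompactSupport.intro' (K := tsupport (ρ i : EM κ → ℝ)) ?_ (isClosed_tsupport _) ?_
    · exact Metric.isCompact_of_isClosed_isBounded (isClosed_tsupport _)
        ((hOb _).subset (hρs i))
    · intro x hx
      rw [tf, image_eq_zero_of_notMem_tsupport hx, zero_mul]
  have hsum : ∀ g : GU κ, ∑ i, tf (ρ i : EM κ → ℝ) β v g.M = β (sv v g.pt) := by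
    intro g
    simp only [tf, ptE_M]
    rw [← Finset.sum_mul]
    by_cases hg : g ∈ B
    · have h := ρ.sum_eq_one (x := mE g) ⟨g, hg, rfl⟩
      rw [finsum_eq_sum_of_fintype] at h
      have h' : ∑ i, (ρ i : EM κ → ℝ) g.M = 1 := h
      rw [h', one_mul]
    · rw [image_eq_zero_of_notMem_tsupport (hBs g hg), mul_zero]
  have hLam := sum_Lam Finset.univ (fun i => tf (ρ i : EM κ → ℝ) β v) hF hβ hv hsum
  have e : (fun g : GU κ => u g * LL (Fintype.card κ) β (sv v g.pt)) =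
      fun g => ∑ i, u g * Lam (tf (ρ i : EM κ → ℝ) β v) g := by
    funext g
    rw [← hLam g, Finset.mul_sum]
  rw [e, integral_finset_sum _ fun i _ => int_uLam μ hu (hF i (Finset.mem_univ i)) (hFc i)]
  refine Finset.sum_nonneg fun i _ => ?_
  refine hvar (U i.1.1) (hUo _) (hU1 _) (hU2 _) _ (hF i (Finset.mem_univ i))
    (fun x => tf_nonneg (fun x => ρ.nonneg i x) (hρC i) hβ0 hv x) (hFc i) ?_
  intro g hg
  exact hOU _ g (hρs i (tf_supp _ _ _ hg))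

end Pool.Agent.MPd01a95
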