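import Mathlib
import Pool.Agent.Lib.MP_d01a95_gt_H.HDefs
import Pool.Agent.Lib.MP_d01a95_gt_H.HDefs2
import Pool.Agent.Lib.MP_d01a95_gt_H.Unimod
import Pool.Agent.Lib.MP_d01a95_gt_H.Basic
import Pool.Agent.Lib.MP_d01a95_gt_H.Dbl
import Pool.Agent.Lib.MP_d01a95_gt_H.Ldisp
import Pool.Agent.Lib.MP_d01a95_gt_H.Var1
import Pool.Agent.Lib.MP_d01a95_gt_H.Var2
import Pool.Agent.Lib.MP_d01a95_gt_H.Mean
import Pool.Agent.Lib.MP_d01a95_gt_H.Lipr

set_option autoImplicit false
set_option linter.all false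

open Matrix Filter Topology MeasureTheory Measure
open scoped ENNReal NNReal

namespace Pool.Agent.MPd01a95

open GU

variable {κ n ι : Type} [Fintype κ] [DecidableEq κ] [Fintype n] [DecidableEq n]
  [Fintype ι] [DecidableEq ι] {G : Type} [Group G]


namespace LipAux

theorem meas_cset (R : ℝ) : MeasurableSet {g : GU κ | c g ≤ R} :=
  (isCompact_c R).measurableSet

/-- finiteness of the displacement on compact sets -/
theorem disp_fin (hκ : 0 < Fintype.card κ) {σ : G →* GU κ} (hL : Lat σ)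
    (μ : Measure (GU κ)) [IsHaarMeasure μ] {χ : GU κ → ℝ} (hχ : Cut σ χ)
    (ρ : G →* Matrix n n ℝ) {F : GU κ → PD n} (hF : EqF σ ρ F) (hK : Kinv μ F)
    (hE : EE μ χ F ≠ ⊤) (y : GU κ) (R : ℝ) :
    ∫⁻ g in {g | c g ≤ R}, edist (F g) (F (y * g)) ^ 2 ∂μ ≠ ⊤ := by
  by_cases hR : R < 1
  · have : {g : GU κ | c g ≤ R} = ∅ := by
      ext g
      simp only [Set.mem_setOf_eq, Set.mem_empty_iff_false, iff_false, not_le]
      exact lt_of_lt_of_le hR (c_ge_one g)
    rw [this]; simp
  push Not at hR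
  have hy := c_ge_one y
  set R' := 2 * c y * R with hR'
  have hRR' : R ≤ R' := by nlinarith
  obtain ⟨A, hA, hA2⟩ := double_bd hL hκ μ hχ ρ R'
  have h1 := hA2 F hF hK
  set B' : Set (GU κ) := {g | c g ≤ R'} with hB'
  set B : Set (GU κ) := {g | c g ≤ R} with hB
  have hBB : B ⊆ B' := fun g hg => le_trans hg hRR'
  have hyB : ∀ g ∈ B, y * g ∈ B' := by
    intro g hg
    have h2 := c_mul y g
    have h3 : c g ≤ R := hg
    change c (y * g) ≤ R'
    have h4 : 0 ≤ 2 * c y := by linarith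
    calc c (y * g) ≤ 2 * c y * c g := h2
      _ ≤ R' := mul_le_mul_of_nonneg_left h3 h4
  have hm : MeasurableSet B := meas_cset R
  have hm' : MeasurableSet B' := meas_cset R'
  have hμB' : μ B' ≠ 0 := by
    have hint : (interior B').Nonempty := by
      refine ⟨1, mem_interior.mpr ⟨{g | c g < R'}, fun g (hg : c g < R') =>
        (show c g ≤ R' from hg.le),
        isOpen_lt continuous_c continuous_const, ?_⟩⟩
      change c (1 : GU κ) < R'
      have h5 : c (1 : GU κ) = 1 := KU_c 1 (KU κ).one_mem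
      rw [h5]; nlinarith
    exact (Measure.measure_pos_of_nonempty_interior _ hint).ne'
  have hμB'' : μ B' ≠ ⊤ := (isCompact_c R').measure_lt_top.ne
  have hFm := hF.1
  have key : μ B' * ∫⁻ g in B, edist (F g) (F (y * g)) ^ 2 ∂μ ≤
      4 * ∫⁻ g in B', ∫⁻ g' in B', edist (F g) (F g') ^ 2 ∂μ ∂μ := by
    have e1 : μ B' * ∫⁻ g in B, edist (F g) (F (y * g)) ^ 2 ∂μ =
        ∫⁻ g in B, ∫⁻ g' in B', edist (F g) (F (y * g)) ^ 2 ∂μ ∂μ := by
      simp only [lintegral_const, Measure.restrict_apply MeasurableSet.univ, Set.univ_inter]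
      rw [lintegral_mul_const' _ _ hμB'', mul_comm]
    rw [e1]
    have hjm : Measurable fun p : GU κ × GU κ => edist (F p.1) (F p.2) ^ 2 :=
      ((hFm.comp measurable_fst).edist (hFm.comp measurable_snd)).pow_const 2
    have e2 : ∀ g g' : GU κ, edist (F g) (F (y * g)) ^ 2 ≤
        2 * edist (F g) (F g') ^ 2 + 2 * edist (F (y * g)) (F g') ^ 2 := by
      intro g g'
      have t := edist_triangle (F g) (F g') (F (y * g))
      rw [edist_comm (F g') (F (y * g))] at t
      have t2 : edist (F g) (F (y * g)) ^ 2 ≤ (edist (F g) (F g') + edist (F (y * g)) (F g')) ^ 2 := by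
        gcongr
      refine t2.trans ?_
      have h6 := ENNReal.rpow_add_le_mul_rpow_add_rpow (edist (F g) (F g'))
        (edist (F (y * g)) (F g')) (p := 2) (by norm_num)
      have e : ∀ a : ℝ≥0∞, a ^ (2 : ℝ) = a ^ 2 := fun a => by
        rw [← ENNReal.rpow_natCast]; norm_num
      rw [e, e, e] at h6
      norm_num at h6
      rw [mul_add] at h6
      exact h6
    calc ∫⁻ g in B, ∫⁻ g' in B', edist (F g) (F (y * g)) ^ 2 ∂μ ∂μ
        ≤ ∫⁻ g in B, (2 * ∫⁻ g' in B', edist (F g) (F g') ^ 2 ∂μ +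
            2 * ∫⁻ g' in B', edist (F (y * g)) (F g') ^ 2 ∂μ) ∂μ := by
          apply lintegral_mono
          intro g
          simp only
          rw [← lintegral_const_mul' _ _ (by norm_num), ← lintegral_const_mul' _ _ (by norm_num),
            ← lintegral_add_left]
          · apply lintegral_mono
            intro g'
            exact e2 g g'
          · exact (hjm.comp (measurable_const.prodMk measurable_id)).const_mul 2
      _ = 2 * ∫⁻ g in B, ∫⁻ g' in B', edist (F g) (F g') ^ 2 ∂μ ∂μ +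
            2 * ∫⁻ g in B, ∫⁻ g' in B', edist (F (y * g)) (F g') ^ 2 ∂μ ∂μ := by
          rw [lintegral_add_left, lintegral_const_mul' _ _ (by norm_num),
            lintegral_const_mul' _ _ (by norm_num)]
          exact (hjm.lintegral_prod_right').const_mul 2
      _ ≤ 2 * ∫⁻ g in B', ∫⁻ g' in B', edist (F g) (F g') ^ 2 ∂μ ∂μ +
            2 * ∫⁻ g in B', ∫⁻ g' in B', edist (F g) (F g') ^ 2 ∂μ ∂μ := by
          gcongr ?_ + 2 * ?_
          · gcongr
          · rw [← lintegral_indicator hm, ← lintegral_indicator hm']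
            refine le_trans ?_ (lintegral_mul_left_eq_self (μ := μ) (B'.indicator
              fun g => ∫⁻ (g' : GU κ) in B', edist (F g) (F g') ^ 2 ∂μ) y).le
            apply lintegral_mono
            intro g
            by_cases hg : g ∈ B
            · simp only [Set.indicator_of_mem hg, Set.indicator_of_mem (hyB g hg)]
              exact le_rfl
            · simp only [Set.indicator_of_notMem hg]
              exact bot_le
      _ = 4 * ∫⁻ g in B', ∫⁻ g' in B', edist (F g) (F g') ^ 2 ∂μ ∂μ := by ring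
  intro htop
  rw [htop, ENNReal.mul_top hμB'] at key
  have h7 : 4 * ∫⁻ g in B', ∫⁻ g' in B', edist (F g) (F g') ^ 2 ∂μ ∂μ ≤ 4 * (A * EE μ χ F) := by
    gcongr
  have h8 := top_le_iff.mp (key.trans h7)
  exact (ENNReal.mul_ne_top (by norm_num) (ENNReal.mul_ne_top hA hE)) h8

end LipAux

open LipAux

/-- module LIP: assembly -/
theorem lip_rep (hκ : 0 < Fintype.card κ) {σ : G →* GU κ} (hL : Lat σ)
    (μ : Measure (GU κ)) [IsHaarMeasure μ] {χ : GU κ → ℝ} (hχ : Cut σ χ)
    (ρ : G →* Matrix n n ℝ) {F : GU κ → PD n} (hF : EqF σ ρ F) (hK : Kinv μ F)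
    (hE : EE μ χ F ≠ ⊤)
    (hmin : ∀ F', EqF σ ρ F' → DD μ χ F F' ≠ ⊤ → EE μ χ F ≤ EE μ χ F') :
    ∃ H : (κ ⊕ Unit → ℂ) → Matrix n n ℝ, EqC σ ρ H ∧ ∀ᵐ g ∂μ, H g.pt = (F g).M := by
  haveI := right_inv hL μ
  obtain ⟨A, hA0, hA⟩ := mean_value hκ hL μ
  have hFm := hF.1
  have hum : ∀ y : GU κ, Measurable fun g => dist (F g) (F (y * g)) ^ 2 := fun y =>
    (hFm.dist (hFm.comp (measurable_const_mul y))).pow_const 2
  have hed : ∀ (y : GU κ) (g : GU κ), ENNReal.ofReal (dist (F g) (F (y * g)) ^ 2) =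
      edist (F g) (F (y * g)) ^ 2 := fun y g => by
    rw [edist_dist, ENNReal.ofReal_pow dist_nonneg]
  have hint : ∀ (y : GU κ) (R : ℝ),
      IntegrableOn (fun g => dist (F g) (F (y * g)) ^ 2) {g | c g ≤ R} μ := by
    intro y R
    refine ⟨(hum y).aestronglyMeasurable, ?_⟩
    rw [hasFiniteIntegral_iff_ofReal (ae_of_all _ fun g => by positivity)]
    simp only [hed]
    exact lt_top_iff_ne_top.mpr (disp_fin hκ hL μ hχ ρ hF hK hE y R)
  have hloc : ∀ y : GU κ, LocallyIntegrable (fun g => dist (F g) (F (y * g)) ^ 2) μ := by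
    intro y g
    refine ⟨{g' | c g' ≤ c g + 1}, ?_, hint y _⟩
    exact mem_of_superset ((isOpen_lt continuous_c continuous_const).mem_nhds
      (show g ∈ {g' | c g' < c g + 1} by simp)) fun g' (hg' : c g' < c g + 1) =>
      (show c g' ≤ c g + 1 from hg'.le)
  have hmv : ∀ y : GU κ, ∀ᵐ g ∂μ, dist (F g) (F (y * g)) ^ 2 ≤
      A * ∫ x in {x | c x ≤ 2}, dist (F (g * x)) (F (y * (g * x))) ^ 2 ∂μ := by
    intro y
    refine hA (fun g => dist (F g) (F (y * g)) ^ 2) (hloc y) (fun g => by positivity) ?_ ?_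
    · intro k hk
      have h1 := hK k hk
      have h2 := (measurePreserving_mul_left μ y).quasiMeasurePreserving.ae h1
      filter_upwards [h1, h2] with g hg1 hg2
      rw [hg1, ← mul_assoc, hg2]
    · intro β hβ hβc hβ0 v hv
      exact var_radial hκ hL μ _ (hloc y) y (fun U hU hU1 hU2 f hf hf0 hfc hfU =>
        var_local hκ hL μ hχ ρ hF hK hE hmin y U hU hU1 hU2 f hf hf0 hfc hfU) hβ hβc hβ0 v hv
  refine lip_of_ae hL μ ρ hF hK fun R => ?_
  obtain ⟨A', hA', δ, hδ, hA2⟩ := left_disp hL hκ μ hχ ρ hF hK hE (4 * R)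
  refine ⟨Real.sqrt (A * A'.toReal), δ, hδ, fun y ε hε hεδ hy => ?_⟩
  have h1 := hA2 y ε hε hεδ hy
  have hbound : ∫ g in {g | c g ≤ 4 * R}, dist (F g) (F (y * g)) ^ 2 ∂μ ≤ A'.toReal * ε ^ 2 := by
    rw [integral_eq_lintegral_of_nonneg_ae (ae_of_all _ fun g => by positivity)
      (hum y).aestronglyMeasurable]
    simp only [hed]
    have h2 := ENNReal.toReal_mono (ENNReal.mul_ne_top hA' ENNReal.ofReal_ne_top) h1
    rwa [ENNReal.toReal_mul, ENNReal.toReal_ofReal (by positivity)] at h2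
  have h3 := ae_restrict_of_ae (s := {g : GU κ | c g ≤ R}) (hmv y)
  filter_upwards [h3, ae_restrict_mem (meas_cset R)] with g hg hgR
  have hgR' : c g ≤ R := hgR
  have h4 : ∫ x in {x | c x ≤ 2}, dist (F (g * x)) (F (y * (g * x))) ^ 2 ∂μ ≤
      ∫ g in {g | c g ≤ 4 * R}, dist (F g) (F (y * g)) ^ 2 ∂μ := by
    rw [← integral_indicator (meas_cset 2), ← integral_indicator (meas_cset (4 * R))]
    refine le_trans ?_ (integral_mul_left_eq_self (μ := μ) ({g : GU κ | c g ≤ 4 * R}.indicator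
      fun g => dist (F g) (F (y * g)) ^ 2) g).le
    have hsub : ∀ x : GU κ, c x ≤ 2 → c (g * x) ≤ 4 * R := by
      intro x hx
      have h5 := c_mul g x
      have h6 := c_ge_one x
      have h7 := c_ge_one g
      nlinarith
    apply integral_mono_of_nonneg
    · exact ae_of_all _ fun x => Set.indicator_nonneg (fun _ _ => by positivity) _
    · have h8 := (hint y (4 * R)).integrable_indicator (meas_cset (4 * R))
      exact h8.comp_mul_left g
    · refine ae_of_all _ fun x => ?_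
      by_cases hx : c x ≤ 2
      · have hx1 : x ∈ {x : GU κ | c x ≤ 2} := hx
        have hx2 : g * x ∈ {g : GU κ | c g ≤ 4 * R} := hsub x hx
        simp only [Set.indicator_of_mem hx1, Set.indicator_of_mem hx2]
        exact le_rfl
      · have hx1 : x ∉ {x : GU κ | c x ≤ 2} := hx
        simp only [Set.indicator_of_notMem hx1]
        exact Set.indicator_nonneg (fun _ _ => by positivity) _
  have h9 : dist (F g) (F (y * g)) ^ 2 ≤ (Real.sqrt (A * A'.toReal) * ε) ^ 2 := by
    rw [mul_pow, Real.sq_sqrt (mul_nonneg hA0 ENNReal.toReal_nonneg)]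
    calc dist (F g) (F (y * g)) ^ 2 ≤ A * _ := hg
      _ ≤ A * (A'.toReal * ε ^ 2) := mul_le_mul_of_nonneg_left (h4.trans hbound) hA0
      _ = _ := by ring
  exact abs_le_of_sq_le_sq' h9 (by positivity) |>.2

end Pool.Agent.MPd01a95
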