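import Mathlib
import Pool.Agent.Lib.MP_d01a95_gt_H.HDefs
import Pool.Agent.Lib.MP_d01a95_gt_H.Unimod
set_option autoImplicit false
set_option linter.all false
open Matrix Filter Topology MeasureTheory Measure
open scoped ENNReal NNReal ContDiff
namespace Pool.Agent.MPd01a95
open GU
variable {κ n ι α : Type} [Fintype κ] [DecidableEq κ] [Fintype n] [DecidableEq n] [Fintype ι]
  [DecidableEq ι] [Fintype α] [DecidableEq α] {G : Type} [Group G]

namespace UnbAux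

open PDAux

/-- a bound for the distance bounds the ratio of the quadratic forms -/
theorem form_le {A B : PD n} {D : ℝ} (h : dist A B ≤ D) (x : n → ℝ) :
    x ⬝ᵥ B.M *ᵥ x ≤ Real.exp D * (x ⬝ᵥ A.M *ᵥ x) := by
  obtain ⟨g, c, hg, h1, h2⟩ := simulE A.pos B.pos
  have hD : 0 ≤ D := dist_nonneg.trans h
  have h3 : ∑ i, c i ^ 2 ≤ D ^ 2 := by
    rw [← dsqE hg h1 h2, ← PD.dist_sq]
    exact pow_le_pow_left₀ dist_nonneg h 2
  have h4 : ∀ i, c i ≤ D := by
    intro i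
    have h5 : c i ^ 2 ≤ D ^ 2 :=
      (Finset.single_le_sum (f := fun i => c i ^ 2) (fun j _ => sq_nonneg _)
        (Finset.mem_univ i)).trans h3
    exact le_of_abs_le (abs_le_of_sq_le_sq h5 hD)
  have key : ∀ M : Matrix n n ℝ, ∀ d : n → ℝ, gᵀ * M * g = diagonal d →
      x ⬝ᵥ M *ᵥ x = ∑ i, d i * (g⁻¹ *ᵥ x) i ^ 2 := by
    intro M d hM
    have hM' := inv_cong hg hM
    rw [hM', ← Matrix.mulVec_mulVec, ← Matrix.mulVec_mulVec, Matrix.dotProduct_mulVec,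
      Matrix.vecMul_transpose]
    rw [dotProduct]
    refine Finset.sum_congr rfl fun i _ => ?_
    rw [Matrix.mulVec_diagonal]
    ring
  rw [key B.M _ h2, key A.M (fun _ => 1) (by rw [h1]; exact Matrix.diagonal_one.symm),
    Finset.mul_sum]
  refine Finset.sum_le_sum fun i _ => ?_
  rw [one_mul]
  exact mul_le_mul_of_nonneg_right (Real.exp_le_exp.mpr (h4 i)) (sq_nonneg _)

/-- matrices preserving the form have determinant plus or minus one -/
theorem abs_det {A : Matrix (ι ⊕ Fin 2) (ι ⊕ Fin 2) ℝ} (h : A * J ι * A = J ι) :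
    |A.det| = 1 := by
  have hJ : (J ι).det ≠ 0 := by
    have h1 : J ι * J ι = 1 := by
      rw [J, Matrix.fromBlocks_multiply]
      simp [Matrix.fromBlocks_one]
    intro h0
    have h2 := congrArg Matrix.det h1
    rw [Matrix.det_mul, h0, Matrix.det_one, zero_mul] at h2
    exact zero_ne_one h2
  have h3 := congrArg Matrix.det h
  rw [Matrix.det_mul, Matrix.det_mul] at h3
  have h4 : A.det * A.det = 1 := by
    have h5 : (A.det * A.det - 1) * (J ι).det = 0 := by linear_combination h3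
    rcases mul_eq_zero.mp h5 with h6 | h6
    · linarith
    · exact absurd h6 hJ
  rcases mul_self_eq_one_iff.mp h4 with h5 | h5
  · rw [h5, abs_one]
  · rw [h5, abs_neg, abs_one]

/-- a finite set of group elements whose inverses span -/
theorem exists_span (ρ : G →* Matrix n n ℝ) : ∃ S : Finset G,
    ∀ h, ρ h ∈ Submodule.span ℝ ((fun g => ρ g⁻¹) '' (S : Set G)) := by
  classical
  have h1 : (Submodule.span ℝ (Set.range fun g => ρ g⁻¹)).FG := IsNoetherian.noetherian _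
  obtain ⟨s, hs, hs'⟩ := (Submodule.fg_span_iff_fg_span_finset_subset _).mp h1
  have h2 : ∀ m : s, ∃ g, ρ g⁻¹ = m.1 := fun m => hs m.2
  choose f hf using h2
  refine ⟨Finset.univ.image f, fun h => ?_⟩
  have h3 : ρ h ∈ Submodule.span ℝ (s : Set (Matrix n n ℝ)) := by
    rw [← hs']
    exact Submodule.subset_span ⟨h⁻¹, by simp⟩
  refine Submodule.span_mono ?_ h3
  intro m hm
  exact ⟨f ⟨m, hm⟩, by simp, hf ⟨m, hm⟩⟩

end UnbAux

open UnbAux

/-- module UNB: sets of positive definite matrices with bounded displacement are bounded -/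
theorem bdd_of_disp (ρ : G →* Matrix (ι ⊕ Fin 2) (ι ⊕ Fin 2) ℝ)
    (hρ : ∀ g, (ρ g)ᵀ * J ι * ρ g = J ι)
    (hirr : ∀ U : Submodule ℝ (ι ⊕ Fin 2 → ℝ), (∀ g, ∀ u ∈ U, ρ g *ᵥ u ∈ U) → U = ⊥ ∨ U = ⊤) :
    ∃ S : Finset G, ∀ D : ℝ, ∃ T : ℝ, ∀ A : PD (ι ⊕ Fin 2), A.M * J ι * A.M = J ι →
      (∀ g ∈ S, dist A (ac ρ g A) ≤ D) → ∀ i j, |A.M i j| ≤ T := by
  classical
  obtain ⟨S, hS⟩ := exists_span ρ
  refine ⟨S, fun D => ?_⟩
  by_contra hcon
  push Not at hcon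
  have hcon' : ∀ k : ℕ, ∃ A : PD (ι ⊕ Fin 2), A.M * J ι * A.M = J ι ∧
      (∀ g ∈ S, dist A (ac ρ g A) ≤ D) ∧ ∃ i j, (k : ℝ) < |A.M i j| := fun k => hcon k
  choose A hA1 hA2 hA3 using hcon'
  -- the entries as a function, with the supremum norm
  let f : ℕ → (ι ⊕ Fin 2) → (ι ⊕ Fin 2) → ℝ := fun k i j => (A k).M i j
  have hf : ∀ k : ℕ, (k : ℝ) < ‖f k‖ := by
    intro k
    obtain ⟨i, j, h⟩ := hA3 k
    refine h.trans_le ?_
    have h1 : ‖f k i j‖ ≤ ‖f k i‖ := norm_le_pi_norm (f k i) j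
    have h2 : ‖f k i‖ ≤ ‖f k‖ := norm_le_pi_norm (f k) i
    exact h1.trans h2
  have hf0 : ∀ k, 0 < ‖f k‖ := fun k => (Nat.cast_nonneg k).trans_lt (hf k)
  let p : ℕ → (ι ⊕ Fin 2) → (ι ⊕ Fin 2) → ℝ := fun k => ‖f k‖⁻¹ • f k
  have hp : ∀ k, p k ∈ Metric.sphere (0 : (ι ⊕ Fin 2) → (ι ⊕ Fin 2) → ℝ) 1 := by
    intro k
    rw [mem_sphere_zero_iff_norm, norm_smul, norm_inv, norm_norm, inv_mul_cancel₀ (hf0 k).ne']
  obtain ⟨a, ha, φ, hφ, hlim⟩ := (isCompact_sphere (0 : (ι ⊕ Fin 2) → (ι ⊕ Fin 2) → ℝ) 1).tendsto_subseq hp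
  have hlim' : ∀ i j, Tendsto (fun k => p (φ k) i j) atTop (𝓝 (a i j)) := by
    intro i j
    have h1 := tendsto_pi_nhds.mp hlim i
    exact tendsto_pi_nhds.mp h1 j
  have hpe : ∀ k i j, p k i j = ‖f k‖⁻¹ * (A k).M i j := fun k i j => rfl
  let P : Matrix (ι ⊕ Fin 2) (ι ⊕ Fin 2) ℝ := Matrix.of a
  -- quadratic forms
  have hquad : ∀ x : (ι ⊕ Fin 2) → ℝ, Tendsto (fun k => ‖f (φ k)‖⁻¹ * (x ⬝ᵥ (A (φ k)).M *ᵥ x)) atTop
      (𝓝 (x ⬝ᵥ P *ᵥ x)) := by
    intro x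
    have h1 : ∀ M : Matrix (ι ⊕ Fin 2) (ι ⊕ Fin 2) ℝ, x ⬝ᵥ M *ᵥ x = ∑ i, ∑ j, x i * (M i j * x j) := by
      intro M
      rw [dotProduct]
      refine Finset.sum_congr rfl fun i _ => ?_
      rw [Matrix.mulVec, dotProduct, Finset.mul_sum]
    have h2 : (fun k => ‖f (φ k)‖⁻¹ * (x ⬝ᵥ (A (φ k)).M *ᵥ x)) =
        fun k => ∑ i, ∑ j, x i * (p (φ k) i j * x j) := by
      funext k
      rw [h1, Finset.mul_sum]
      refine Finset.sum_congr rfl fun i _ => ?_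
      rw [Finset.mul_sum]
      refine Finset.sum_congr rfl fun j _ => ?_
      rw [hpe]
      ring
    rw [h2, h1]
    refine tendsto_finsetSum _ fun i _ => tendsto_finsetSum _ fun j _ => ?_
    exact ((hlim' i j).mul_const _).const_mul _
  have hpos : P.PosSemidef := by
    refine Matrix.PosSemidef.of_dotProduct_mulVec_nonneg ?_ ?_
    · rw [Matrix.IsHermitian, conjTranspose_eq_transpose_of_trivial]
      ext i j
      rw [transpose_apply]
      show a j i = a i j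
      refine tendsto_nhds_unique (hlim' j i) ?_
      refine (hlim' i j).congr fun k => ?_
      rw [hpe, hpe]
      congr 1
      have := congrFun (congrFun (PDAux.tr_symm (A (φ k)).pos) j) i
      rw [transpose_apply] at this
      exact this
    · intro x
      rw [star_trivial]
      refine ge_of_tendsto' (hquad x) fun k => ?_
      refine mul_nonneg (inv_nonneg.mpr (norm_nonneg _)) ?_
      have := (A (φ k)).pos.posSemidef.dotProduct_mulVec_nonneg x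
      rwa [star_trivial] at this
  have hdet : P.det = 0 := by
    have h1 : Tendsto (fun k => (Matrix.of (p (φ k)) : Matrix (ι ⊕ Fin 2) (ι ⊕ Fin 2) ℝ).det) atTop
        (𝓝 P.det) := by
      have h2 : Tendsto (fun k => (Matrix.of (p (φ k)) : Matrix (ι ⊕ Fin 2) (ι ⊕ Fin 2) ℝ)) atTop
          (𝓝 P) :=
        tendsto_pi_nhds.mpr fun i => tendsto_pi_nhds.mpr fun j => hlim' i j
      exact (Continuous.tendsto (continuous_id.matrix_det) P).comp h2
    have h3 : Tendsto (fun k => (Matrix.of (p (φ k)) : Matrix (ι ⊕ Fin 2) (ι ⊕ Fin 2) ℝ).det) atTop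
        (𝓝 0) := by
      have h4 : ∀ k, |(Matrix.of (p k) : Matrix (ι ⊕ Fin 2) (ι ⊕ Fin 2) ℝ).det| =
          (‖f k‖⁻¹) ^ (Fintype.card (ι ⊕ Fin 2)) := by
        intro k
        have h5 : (Matrix.of (p k) : Matrix (ι ⊕ Fin 2) (ι ⊕ Fin 2) ℝ) = ‖f k‖⁻¹ • (A k).M := by
          ext i j
          rfl
        rw [h5, Matrix.det_smul, abs_mul, abs_det (hA1 k), mul_one, abs_pow,
          abs_of_nonneg (inv_nonneg.mpr (norm_nonneg _))]
      rw [tendsto_zero_iff_abs_tendsto_zero]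
      have h6 : Tendsto (fun k => ‖f (φ k)‖) atTop atTop :=
        tendsto_atTop_mono (fun k => (hf (φ k)).le)
          (tendsto_natCast_atTop_atTop.comp hφ.tendsto_atTop)
      have h7 : Tendsto (fun k => (‖f (φ k)‖⁻¹) ^ (Fintype.card (ι ⊕ Fin 2))) atTop (𝓝 0) := by
        have h8 := (h6.inv_tendsto_atTop).pow (Fintype.card (ι ⊕ Fin 2))
        rw [zero_pow] at h8
        · exact h8
        · exact Fintype.card_ne_zero
      refine h7.congr fun k => ?_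
      exact (h4 (φ k)).symm
    exact tendsto_nhds_unique h1 h3
  -- the kernel
  have hker : ∀ x : (ι ⊕ Fin 2) → ℝ, x ⬝ᵥ P *ᵥ x = 0 ↔ P *ᵥ x = 0 := by
    intro x
    have := hpos.dotProduct_mulVec_zero_iff x
    rwa [star_trivial] at this
  let U : Submodule ℝ ((ι ⊕ Fin 2) → ℝ) := LinearMap.ker P.mulVecLin
  have hU : ∀ x, x ∈ U ↔ P *ᵥ x = 0 := fun x => by
    rw [LinearMap.mem_ker, Matrix.mulVecLin_apply]
  have hUS : ∀ g ∈ S, ∀ x ∈ U, ρ g⁻¹ *ᵥ x ∈ U := by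
    intro g hg x hx
    rw [hU, ← hker]
    rw [hU, ← hker] at hx
    refine le_antisymm ?_ (by
      have := hpos.dotProduct_mulVec_nonneg (ρ g⁻¹ *ᵥ x)
      rwa [star_trivial] at this)
    have h1 : (ρ g⁻¹ *ᵥ x) ⬝ᵥ P *ᵥ (ρ g⁻¹ *ᵥ x) ≤ Real.exp D * (x ⬝ᵥ P *ᵥ x) := by
      refine le_of_tendsto_of_tendsto' (hquad (ρ g⁻¹ *ᵥ x)) ((hquad x).const_mul (Real.exp D))
        fun k => ?_
      have h2 := form_le (hA2 (φ k) g hg) x
      have h3 : x ⬝ᵥ (ac ρ g (A (φ k))).M *ᵥ x =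
          (ρ g⁻¹ *ᵥ x) ⬝ᵥ (A (φ k)).M *ᵥ (ρ g⁻¹ *ᵥ x) := by
        show x ⬝ᵥ ((ρ g⁻¹)ᵀ * (A (φ k)).M * ρ g⁻¹) *ᵥ x = _
        rw [← Matrix.mulVec_mulVec, ← Matrix.mulVec_mulVec, Matrix.dotProduct_mulVec,
          Matrix.vecMul_transpose]
      rw [h3] at h2
      calc ‖f (φ k)‖⁻¹ * ((ρ g⁻¹ *ᵥ x) ⬝ᵥ (A (φ k)).M *ᵥ (ρ g⁻¹ *ᵥ x))
          ≤ ‖f (φ k)‖⁻¹ * (Real.exp D * (x ⬝ᵥ (A (φ k)).M *ᵥ x)) :=
            mul_le_mul_of_nonneg_left h2 (inv_nonneg.mpr (norm_nonneg _))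
        _ = Real.exp D * (‖f (φ k)‖⁻¹ * (x ⬝ᵥ (A (φ k)).M *ᵥ x)) := by ring
    rw [hx, mul_zero] at h1
    exact h1
  have hUall : ∀ h, ∀ u ∈ U, ρ h *ᵥ u ∈ U := by
    intro h u hu
    have key : ∀ M ∈ Submodule.span ℝ ((fun g => ρ g⁻¹) '' (S : Set G)), M *ᵥ u ∈ U := by
      intro M hM
      induction hM using Submodule.span_induction with
      | mem M hM =>
        obtain ⟨g, hg, rfl⟩ := hM
        exact hUS g hg u hu
      | zero => rw [Matrix.zero_mulVec]; exact U.zero_mem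
      | add M M' _ _ h1 h2 => rw [Matrix.add_mulVec]; exact U.add_mem h1 h2
      | smul c M _ h1 => rw [Matrix.smul_mulVec]; exact U.smul_mem c h1
    exact key _ (hS h)
  rcases hirr U hUall with h1 | h1
  · obtain ⟨v, hv, hv'⟩ := Matrix.exists_mulVec_eq_zero_iff.mpr hdet
    have h2 : v ∈ U := (hU v).mpr hv'
    rw [h1, Submodule.mem_bot] at h2
    exact hv h2
  · have h2 : P = 0 := by
      ext i j
      have h3 : Pi.single j (1 : ℝ) ∈ U := by rw [h1]; trivial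
      rw [hU] at h3
      have h4 := congrFun h3 i
      rw [Matrix.mulVec_single_one] at h4
      exact h4
    have h3 : a = 0 := h2
    rw [h3] at ha
    simp at ha

end Pool.Agent.MPd01a95
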