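import Mathlib
import Pool.Agent.Lib.MP_d01a95_gt_H.HDefs
import Pool.Agent.Lib.MP_d01a95_gt_H.Unimod
import Pool.Agent.Lib.MP_d01a95_gt_H.Unb
import Pool.Agent.Lib.MP_d01a95_gt_H.Dbl

set_option autoImplicit false
set_option linter.all false

open Matrix Filter Topology MeasureTheory Measure
open scoped ENNReal NNReal ContDiff

namespace Pool.Agent.MPd01a95

open GU

variable {κ n ι α : Type} [Fintype κ] [DecidableEq κ] [Fintype n] [DecidableEq n] [Fintype ι]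
  [DecidableEq ι] [Fintype α] [DecidableEq α] {G : Type} [Group G]

namespace NonescAux

/-- the unit matrix -/
noncomputable def oneP (n : Type) [Fintype n] [DecidableEq n] : PD n := ⟨1, Matrix.PosDef.one⟩

theorem J_J : J ι * J ι = 1 := by
  rw [J, fromBlocks_multiply]
  simp

theorem inv_eq {A : Matrix (ι ⊕ Fin 2) (ι ⊕ Fin 2) ℝ} (h : A * J ι * A = J ι) :
    A⁻¹ = J ι * A * J ι := by
  apply Matrix.inv_eq_right_inv
  calc A * (J ι * A * J ι) = A * J ι * A * J ι := by simp only [Matrix.mul_assoc]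
    _ = 1 := by rw [h, J_J]

theorem dist_one_le {A : PD (ι ⊕ Fin 2)} (h : A.M * J ι * A.M = J ι) {T : ℝ}
    (hT : ∀ i j, |A.M i j| ≤ T) :
    dist A (oneP (ι ⊕ Fin 2)) ^ 2 ≤ 2 * (Fintype.card (ι ⊕ Fin 2) * T) := by
  rw [PD.dist_sq]
  refine (PDAux.dsq_le_del A.pos (oneP (ι ⊕ Fin 2)).pos).trans ?_
  have h1 : (oneP (ι ⊕ Fin 2)).M = 1 := rfl
  rw [PDAux.del, h1, inv_one, Matrix.mul_one, Matrix.one_mul, inv_eq h]
  have h2 : (J ι * A.M * J ι).trace = A.M.trace := by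
    rw [trace_mul_comm, ← Matrix.mul_assoc, J_J, Matrix.one_mul]
  rw [h2]
  have h3 : A.M.trace ≤ Fintype.card (ι ⊕ Fin 2) * T := by
    rw [trace]
    calc ∑ i, A.M.diag i ≤ ∑ i : ι ⊕ Fin 2, T :=
          Finset.sum_le_sum fun i _ => (le_abs_self _).trans (hT i i)
      _ = _ := by simp
  have h4 : (0 : ℝ) ≤ Fintype.card (ι ⊕ Fin 2) := Nat.cast_nonneg _
  linarith

theorem add_sq_le' (a b : ℝ≥0∞) : (a + b) ^ 2 ≤ 2 * (a ^ 2 + b ^ 2) := by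
  rcases eq_or_ne a ⊤ with rfl | ha
  · simp
  rcases eq_or_ne b ⊤ with rfl | hb
  · simp
  lift a to ℝ≥0 using ha
  lift b to ℝ≥0 using hb
  norm_cast
  exact add_sq_le

theorem add3_sq_le (a b c : ℝ≥0∞) : (a + b + c) ^ 2 ≤ 4 * (a ^ 2 + b ^ 2 + c ^ 2) := by
  calc (a + b + c) ^ 2 ≤ 2 * ((a + b) ^ 2 + c ^ 2) := add_sq_le' _ _
    _ ≤ 2 * (2 * (a ^ 2 + b ^ 2) + 2 * c ^ 2) := by
        gcongr
        · exact add_sq_le' _ _
        · exact le_mul_of_one_le_left (by positivity) (by norm_num)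
    _ = 4 * (a ^ 2 + b ^ 2 + c ^ 2) := by ring

theorem meas_w {F : GU κ → PD n} (hF : Measurable F) (μ : Measure (GU κ)) [SFinite μ]
    (B : Set (GU κ)) : Measurable fun g => ∫⁻ g' in B, edist (F g) (F g') ^ 2 ∂μ := by
  apply Measurable.lintegral_prod_right' (f := fun p : GU κ × GU κ => edist (F p.1) (F p.2) ^ 2)
  exact ((hF.comp measurable_fst).edist (hF.comp measurable_snd)).pow_const 2

theorem ball_pos (μ : Measure (GU κ)) [IsHaarMeasure μ] {R : ℝ} (hR : 2 ≤ R) :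
    μ {g : GU κ | c g ≤ R} ≠ 0 := by
  have h1 : IsOpen {g : GU κ | c g < R} := isOpen_lt continuous_c continuous_const
  have h2 : (1 : GU κ) ∈ {g : GU κ | c g < R} := by
    have := KU_c (1 : GU κ) (KU κ).one_mem
    change c 1 < R
    linarith
  have h3 : 0 < μ {g : GU κ | c g < R} := h1.measure_pos μ ⟨1, h2⟩
  exact (lt_of_lt_of_le h3 (measure_mono fun g (hg : c g < R) => le_of_lt hg)).ne'

theorem chi_le_one {σ : G →* GU κ} {χ : GU κ → ℝ} (hχ : Cut σ χ) (g : GU κ) :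
    ENNReal.ofReal (χ g) ≤ 1 := by
  rw [← hχ.sum g]
  have := ENNReal.le_tsum (f := fun γ => ENNReal.ofReal (χ (σ γ * g))) 1
  simpa using this

end NonescAux

open NonescAux

/-- module NONESC -/
theorem nonescape (hκ : 0 < Fintype.card κ) {σ : G →* GU κ} (hL : Lat σ)
    (μ : Measure (GU κ)) [IsHaarMeasure μ] {χ : GU κ → ℝ} (hχ : Cut σ χ)
    (ρ : G →* Matrix (ι ⊕ Fin 2) (ι ⊕ Fin 2) ℝ) (hρ : ∀ g, (ρ g)ᵀ * J ι * ρ g = J ι)
    (hirr : ∀ U : Submodule ℝ (ι ⊕ Fin 2 → ℝ), (∀ g, ∀ u ∈ U, ρ g *ᵥ u ∈ U) → U = ⊥ ∨ U = ⊤)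
    {F₀ : GU κ → PD (ι ⊕ Fin 2)} (hF₀ : EqF σ ρ F₀) (hF₀c : Continuous F₀) (E₀ : ℝ≥0∞)
    (hE₀ : E₀ ≠ ⊤) : ∃ R : ℝ≥0∞, R ≠ ⊤ ∧ ∀ F : GU κ → PD (ι ⊕ Fin 2), EqF σ ρ F → Kinv μ F →
      (∀ᵐ g ∂μ, (F g).M * J ι * (F g).M = J ι) → EE μ χ F ≤ E₀ → DD μ χ F₀ F ≤ R := by
  obtain ⟨S, hS⟩ := bdd_of_disp ρ hρ hirr
  haveI := hL.countable
  obtain ⟨R₀', hR₀'⟩ := hχ.supp
  obtain ⟨R₀, hR₀2, hsupp⟩ : ∃ R₀ : ℝ, 2 ≤ R₀ ∧ ∀ g, χ g ≠ 0 → c g ≤ R₀ :=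
    ⟨max 2 R₀', le_max_left _ _, fun g hg => (hR₀' g hg).trans (le_max_right _ _)⟩
  obtain ⟨R₁, hR₁, hR₁S⟩ : ∃ R₁ : ℝ, R₀ ≤ R₁ ∧ ∀ γ ∈ S, ∀ g : GU κ, c g ≤ R₀ →
      c (σ γ * g) ≤ R₁ := by
    have hnn : ∀ γ ∈ S, 0 ≤ 2 * c (σ γ) * R₀ := fun γ _ => by
      have := c_ge_one (σ γ)
      positivity
    refine ⟨R₀ + ∑ γ ∈ S, 2 * c (σ γ) * R₀, ?_, ?_⟩
    · have := Finset.sum_nonneg hnn
      linarith
    · intro γ hγ g hg
      have h1 := c_mul (σ γ) g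
      have h2 := Finset.single_le_sum hnn hγ
      have h3 := c_ge_one (σ γ)
      have h4 : 2 * c (σ γ) * c g ≤ 2 * c (σ γ) * R₀ := by gcongr
      linarith
  obtain ⟨A, hA, hdb⟩ := double_bd hL hκ μ hχ ρ R₁
  set B₀ : Set (GU κ) := {g | c g ≤ R₀} with hB₀
  set B₁ : Set (GU κ) := {g | c g ≤ R₁} with hB₁
  have hB₀c : IsCompact B₀ := isCompact_c R₀
  have hB₁c : IsCompact B₁ := isCompact_c R₁
  have hB₀m : MeasurableSet B₀ := hB₀c.measurableSet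
  have hB₁m : MeasurableSet B₁ := hB₁c.measurableSet
  have hB₀pos : μ B₀ ≠ 0 := ball_pos μ hR₀2
  have hB₁pos : μ B₁ ≠ 0 := ball_pos μ (hR₀2.trans hR₁)
  have hB₀fin : μ B₀ ≠ ⊤ := hB₀c.measure_lt_top.ne
  have hB₁fin : μ B₁ ≠ ⊤ := hB₁c.measure_lt_top.ne
  have hsub : B₀ ⊆ B₁ := fun g hg => (show c g ≤ R₀ from hg).trans hR₁
  obtain ⟨C₃, hC₃t, hC₃⟩ : ∃ C₃ : ℝ≥0∞, C₃ ≠ ⊤ ∧ ∀ g ∈ B₀,
      edist (F₀ g) (oneP (ι ⊕ Fin 2)) ^ 2 ≤ C₃ := by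
    obtain ⟨b, hb⟩ := (hB₀c.image (f := fun g => dist (F₀ g) (oneP (ι ⊕ Fin 2)))
      (hF₀c.dist continuous_const)).bddAbove
    refine ⟨ENNReal.ofReal b ^ 2, by simp, fun g hg => ?_⟩
    rw [edist_dist]
    gcongr
    exact hb ⟨g, hg, rfl⟩
  set C : ℝ≥0∞ := (S.card + 1) * (A * E₀) / μ B₀ with hC
  have hCt : C ≠ ⊤ := by
    rw [hC]
    refine ENNReal.div_ne_top ?_ hB₀pos
    exact ENNReal.mul_ne_top (by simp) (ENNReal.mul_ne_top hA hE₀)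
  have hC2 : 2 * C / μ B₁ ≠ ⊤ := ENNReal.div_ne_top (ENNReal.mul_ne_top (by simp) hCt) hB₁pos
  obtain ⟨T, hT⟩ := hS (Real.sqrt (2 * C / μ B₁).toReal)
  set C₄ : ℝ≥0∞ := ENNReal.ofReal (2 * (Fintype.card (ι ⊕ Fin 2) * T)) with hC₄
  refine ⟨(4 * (C₃ + C₄)) * (∫⁻ g, ENNReal.ofReal (χ g) ∂μ) + 4 * C, ?_, ?_⟩
  · refine ENNReal.add_ne_top.mpr ⟨ENNReal.mul_ne_top (ENNReal.mul_ne_top (by simp)
      (ENNReal.add_ne_top.mpr ⟨hC₃t, ENNReal.ofReal_ne_top⟩)) (hχ.int_ne_top μ),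
      ENNReal.mul_ne_top (by simp) hCt⟩
  intro F hF hK hJ hE
  set w : GU κ → ℝ≥0∞ := fun g => ∫⁻ g' in B₁, edist (F g) (F g') ^ 2 ∂μ with hw
  have hwm : Measurable w := meas_w hF.1 μ B₁
  have hwint : ∫⁻ g in B₁, w g ∂μ ≤ A * E₀ := (hdb F hF hK).trans (by gcongr)
  have hwγ : ∀ γ ∈ S, ∫⁻ g in B₀, w (σ γ * g) ∂μ ≤ A * E₀ := by
    intro γ hγ
    refine le_trans ?_ hwint
    rw [← lintegral_indicator hB₀m, ← lintegral_indicator hB₁m,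
      ← lintegral_mul_left_eq_self (μ := μ) (B₁.indicator w) (σ γ)]
    refine lintegral_mono fun g => ?_
    by_cases hg : g ∈ B₀
    · rw [Set.indicator_of_mem hg, Set.indicator_of_mem (show σ γ * g ∈ B₁ from hR₁S γ hγ g hg)]
    · rw [Set.indicator_of_notMem hg]
      exact zero_le
  obtain ⟨g₀, hg₀B, hg₀J, hg₀⟩ : ∃ g₀ ∈ B₀, (F g₀).M * J ι * (F g₀).M = J ι ∧
      w g₀ + ∑ γ ∈ S, w (σ γ * g₀) ≤ C := by
    set f : GU κ → ℝ≥0∞ := fun g => w g + ∑ γ ∈ S, w (σ γ * g) with hf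
    have hfm : Measurable f := hwm.add (Finset.measurable_fun_sum _ fun γ _ =>
      hwm.comp (measurable_const_mul _))
    have h1 : ∫⁻ g in B₀, f g ∂μ ≤ (S.card + 1) * (A * E₀) := by
      have h0 : ∀ γ ∈ S, Measurable fun g => w (σ γ * g) := fun γ _ =>
        hwm.comp (measurable_const_mul _)
      rw [hf, lintegral_add_left hwm, lintegral_finsetSum S h0]
      have h2 : ∫⁻ g in B₀, w g ∂μ ≤ A * E₀ := (lintegral_mono_set hsub).trans hwint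
      have h3 : ∑ γ ∈ S, ∫⁻ g in B₀, w (σ γ * g) ∂μ ≤ ∑ γ ∈ S, A * E₀ :=
        Finset.sum_le_sum hwγ
      rw [Finset.sum_const, nsmul_eq_mul] at h3
      calc _ ≤ A * E₀ + S.card * (A * E₀) := add_le_add h2 h3
        _ = _ := by ring
    have h4 := measure_le_setLAverage_pos hB₀pos hB₀fin hfm.aemeasurable.restrict
    rw [setLAverage_eq] at h4
    by_contra hcon
    push Not at hcon
    have h5 : μ {x | x ∈ B₀ ∧ f x ≤ (∫⁻ x in B₀, f x ∂μ) / μ B₀} = 0 := by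
      refine measure_mono_null ?_ (ae_iff.mp hJ)
      rintro x ⟨hx, hx2⟩ hx3
      have h6 := hcon x hx hx3
      refine absurd (lt_of_lt_of_le h6 (hx2.trans ?_)) (lt_irrefl _)
      rw [hC]
      gcongr
    exact h4.ne' h5
  have hbd : ∀ γ ∈ S, dist (F g₀) (ac ρ γ (F g₀)) ≤ Real.sqrt (2 * C / μ B₁).toReal := by
    intro γ hγ
    rw [← hF.2 γ g₀]
    apply Real.le_sqrt_of_sq_le
    have h1 : μ B₁ * edist (F g₀) (F (σ γ * g₀)) ^ 2 ≤ 2 * (w g₀ + w (σ γ * g₀)) := by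
      have h2 : ∫⁻ g in B₁, edist (F g₀) (F (σ γ * g₀)) ^ 2 ∂μ ≤
          ∫⁻ g in B₁, 2 * (edist (F g₀) (F g) ^ 2 + edist (F (σ γ * g₀)) (F g) ^ 2) ∂μ := by
        refine lintegral_mono fun g => ?_
        refine le_trans ?_ (add_sq_le' _ _)
        gcongr
        exact edist_triangle_right _ _ _
      rw [setLIntegral_const, lintegral_const_mul' _ _ (by simp), lintegral_add_left] at h2
      · rw [mul_comm]; exact h2
      · exact (measurable_const.edist hF.1).pow_const 2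
    have h3 : w g₀ + w (σ γ * g₀) ≤ C := by
      refine le_trans ?_ hg₀
      gcongr
      exact Finset.single_le_sum (f := fun γ => w (σ γ * g₀)) (fun _ _ => zero_le) hγ
    have h4 : edist (F g₀) (F (σ γ * g₀)) ^ 2 ≤ 2 * C / μ B₁ := by
      rw [ENNReal.le_div_iff_mul_le (Or.inl hB₁pos) (Or.inl hB₁fin), mul_comm]
      exact h1.trans (by gcongr)
    have h5 := ENNReal.toReal_mono hC2 h4
    rwa [ENNReal.toReal_pow, ← dist_edist] at h5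
  have hent := hT (F g₀) hg₀J hbd
  have h6 : edist (F g₀) (oneP (ι ⊕ Fin 2)) ^ 2 ≤ C₄ := by
    rw [edist_dist, ← ENNReal.ofReal_pow dist_nonneg]
    exact ENNReal.ofReal_le_ofReal (dist_one_le hg₀J hent)
  have hwC : w g₀ ≤ C := le_trans le_self_add hg₀
  have key : ∀ g, ENNReal.ofReal (χ g) * edist (F₀ g) (F g) ^ 2 ≤
      (4 * (C₃ + C₄)) * ENNReal.ofReal (χ g) +
        4 * B₁.indicator (fun g => edist (F g₀) (F g) ^ 2) g := by
    intro g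
    by_cases hg : χ g = 0
    · rw [hg]; simp
    have hgB : g ∈ B₀ := hsupp g hg
    rw [Set.indicator_of_mem (hsub hgB)]
    have h7 : edist (F₀ g) (F g) ^ 2 ≤ 4 * (C₃ + C₄ + edist (F g₀) (F g) ^ 2) := by
      calc edist (F₀ g) (F g) ^ 2 ≤ (edist (F₀ g) (oneP (ι ⊕ Fin 2)) +
            edist (F g₀) (oneP (ι ⊕ Fin 2)) + edist (F g₀) (F g)) ^ 2 := by
            gcongr
            rw [edist_comm (F g₀) (oneP _)]
            exact edist_triangle4 _ _ _ _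
        _ ≤ 4 * (edist (F₀ g) (oneP (ι ⊕ Fin 2)) ^ 2 + edist (F g₀) (oneP (ι ⊕ Fin 2)) ^ 2 +
            edist (F g₀) (F g) ^ 2) := add3_sq_le _ _ _
        _ ≤ _ := by
            gcongr
            exact hC₃ g hgB
    calc ENNReal.ofReal (χ g) * edist (F₀ g) (F g) ^ 2
        ≤ ENNReal.ofReal (χ g) * (4 * (C₃ + C₄ + edist (F g₀) (F g) ^ 2)) := by gcongr
      _ = (4 * (C₃ + C₄)) * ENNReal.ofReal (χ g) +
          ENNReal.ofReal (χ g) * (4 * edist (F g₀) (F g) ^ 2) := by ring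
      _ ≤ (4 * (C₃ + C₄)) * ENNReal.ofReal (χ g) + 1 * (4 * edist (F g₀) (F g) ^ 2) := by
          gcongr
          exact chi_le_one hχ g
      _ = _ := by rw [one_mul]
  calc DD μ χ F₀ F = ∫⁻ g, ENNReal.ofReal (χ g) * edist (F₀ g) (F g) ^ 2 ∂μ := rfl
    _ ≤ ∫⁻ g, ((4 * (C₃ + C₄)) * ENNReal.ofReal (χ g) +
        4 * B₁.indicator (fun g => edist (F g₀) (F g) ^ 2) g) ∂μ := lintegral_mono key
    _ = (4 * (C₃ + C₄)) * (∫⁻ g, ENNReal.ofReal (χ g) ∂μ) + 4 * w g₀ := by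
        rw [lintegral_add_left (hχ.meas.const_mul _), lintegral_const_mul _ hχ.meas,
          lintegral_const_mul' _ _ (by simp), lintegral_indicator hB₁m]
    _ ≤ _ := by gcongr

end Pool.Agent.MPd01a95
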