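import Mathlib
import Pool.Agent.Lib.MP_d01a95_gt_H.HDefs
import Pool.Agent.Lib.MP_d01a95_gt_H.Unimod
import Pool.Agent.Lib.MP_d01a95_gt_H.Basic
import Pool.Agent.Lib.MP_d01a95_gt_H.ExMin
import Pool.Agent.Lib.MP_d01a95_gt_H.L2
import Pool.Agent.Lib.MP_d01a95_gt_H.Base
import Pool.Agent.Lib.MP_d01a95_gt_H.Nonesc
import Pool.Agent.Lib.MP_d01a95_gt_H.Enf
import Pool.Agent.Lib.MP_d01a95_gt_H.Eqf
import Pool.Agent.Lib.MP_d01a95_gt_H.Cone

set_option autoImplicit false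
set_option linter.all false

open Matrix Filter Topology MeasureTheory Measure
open scoped ENNReal NNReal

namespace Pool.Agent.MPd01a95

open GU

variable {κ n ι : Type} [Fintype κ] [DecidableEq κ] [Fintype n] [DecidableEq n]
  [Fintype ι] [DecidableEq ι] {G : Type} [Group G]


namespace MinMapAux

theorem J_mul_J : J ι * J ι = 1 := by
  rw [J, Matrix.fromBlocks_multiply]; simp

theorem J_tr : (J ι)ᵀ = J ι := by
  rw [J, Matrix.fromBlocks_transpose]; simp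

theorem J_det : IsUnit (J ι).det := by
  have h := congrArg Matrix.det (J_mul_J (ι := ι))
  rw [Matrix.det_mul, Matrix.det_one] at h
  exact IsUnit.of_mul_eq_one _ h

/-- the polarity -/
noncomputable def iJ (A : PD (ι ⊕ Fin 2)) : PD (ι ⊕ Fin 2) := PD.cg (J ι) J_det (PD.iv A)

theorem iJ_M (A : PD (ι ⊕ Fin 2)) : (iJ A).M = J ι * A.M⁻¹ * J ι := by
  change (J ι)ᵀ * A.M⁻¹ * J ι = _
  rw [J_tr]

theorem iJ_dist (A B : PD (ι ⊕ Fin 2)) : dist (iJ A) (iJ B) = dist A B := by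
  rw [iJ, iJ, PD.dist_cg, PD.dist_iv]

theorem J_inv : (J ι)⁻¹ = J ι := Matrix.inv_eq_right_inv J_mul_J

theorem iJ_iJ (A : PD (ι ⊕ Fin 2)) : iJ (iJ A) = A := by
  apply PD.ext
  have hA : IsUnit A.M.det := (Matrix.isUnit_iff_isUnit_det _).mp A.pos.isUnit
  rw [iJ_M, iJ_M, Matrix.mul_inv_rev, Matrix.mul_inv_rev, J_inv, Matrix.nonsing_inv_nonsing_inv _ hA]
  simp only [← Matrix.mul_assoc, J_mul_J, Matrix.one_mul]
  rw [Matrix.mul_assoc, J_mul_J, Matrix.mul_one]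

theorem iJ_ac {ρ : G →* Matrix (ι ⊕ Fin 2) (ι ⊕ Fin 2) ℝ} (hρ : ∀ g, (ρ g)ᵀ * J ι * ρ g = J ι)
    (γ : G) (A : PD (ι ⊕ Fin 2)) : iJ (ac ρ γ A) = ac ρ γ (iJ A) := by
  apply PD.ext
  rw [iJ_M, ac_M, ac_M, iJ_M]
  have e1 : (ρ γ⁻¹)⁻¹ = ρ γ := Matrix.inv_eq_right_inv (rho_inv_mul ρ γ)
  rw [Matrix.mul_inv_rev, Matrix.mul_inv_rev, ← Matrix.transpose_nonsing_inv, e1]
  have h1 : J ι * ρ γ = (ρ γ⁻¹)ᵀ * J ι := by
    have := hρ γ⁻¹
    calc J ι * ρ γ = ((ρ γ⁻¹)ᵀ * J ι * ρ γ⁻¹) * ρ γ := by rw [this]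
      _ = (ρ γ⁻¹)ᵀ * J ι * (ρ γ⁻¹ * ρ γ) := by simp only [Matrix.mul_assoc]
      _ = _ := by rw [rho_inv_mul, Matrix.mul_one]
  have h2 : (ρ γ)ᵀ * J ι = J ι * ρ γ⁻¹ := by
    have := hρ γ
    calc (ρ γ)ᵀ * J ι = (ρ γ)ᵀ * J ι * (ρ γ * ρ γ⁻¹) := by rw [rho_mul_inv, Matrix.mul_one]
      _ = ((ρ γ)ᵀ * J ι * ρ γ) * ρ γ⁻¹ := by simp only [Matrix.mul_assoc]
      _ = _ := by rw [this]
  calc J ι * (ρ γ * (A.M⁻¹ * (ρ γ)ᵀ)) * J ι = (J ι * ρ γ) * A.M⁻¹ * ((ρ γ)ᵀ * J ι) := by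
        simp only [Matrix.mul_assoc]
    _ = _ := by rw [h1, h2]; simp only [Matrix.mul_assoc]

theorem iJ_fix {A : PD (ι ⊕ Fin 2)} (h : iJ A = A) : A.M * J ι * A.M = J ι := by
  have hA : IsUnit A.M.det := (Matrix.isUnit_iff_isUnit_det _).mp A.pos.isUnit
  have h1 : J ι * A.M⁻¹ * J ι = A.M := by rw [← iJ_M, h]
  calc A.M * J ι * A.M = (J ι * A.M⁻¹ * J ι) * J ι * A.M := by rw [h1]
    _ = J ι * A.M⁻¹ * (J ι * J ι) * A.M := by simp only [Matrix.mul_assoc]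
    _ = J ι := by
      rw [J_mul_J, Matrix.mul_one, Matrix.mul_assoc, Matrix.nonsing_inv_mul _ hA, Matrix.mul_one]

theorem continuous_iJ : Continuous (iJ (ι := ι)) :=
  (Isometry.of_dist_eq fun A B => iJ_dist A B).continuous

open Classical in
/-- the group acting -/
noncomputable def act2 (e : ℤˣ) (A : PD (ι ⊕ Fin 2)) : PD (ι ⊕ Fin 2) := if e = 1 then A else iJ A

theorem act2_dist (e : ℤˣ) (A B : PD (ι ⊕ Fin 2)) : dist (act2 e A) (act2 e B) = dist A B := by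
  unfold act2
  split_ifs
  · rfl
  · exact iJ_dist A B

theorem act2_mul (e e' : ℤˣ) (A : PD (ι ⊕ Fin 2)) : act2 (e * e') A = act2 e (act2 e' A) := by
  have h : (-1 : ℤˣ) ≠ 1 := by decide
  unfold act2
  rcases Int.units_eq_one_or e with rfl | rfl <;> rcases Int.units_eq_one_or e' with rfl | rfl <;>
    simp [h, iJ_iJ]

theorem act2_ac {ρ : G →* Matrix (ι ⊕ Fin 2) (ι ⊕ Fin 2) ℝ} (hρ : ∀ g, (ρ g)ᵀ * J ι * ρ g = J ι)
    (e : ℤˣ) (γ : G) (A : PD (ι ⊕ Fin 2)) : act2 e (ac ρ γ A) = ac ρ γ (act2 e A) := by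
  unfold act2
  split_ifs
  · rfl
  · exact iJ_ac hρ γ A

theorem act2_cont (e : ℤˣ) : Continuous (act2 e : PD (ι ⊕ Fin 2) → PD (ι ⊕ Fin 2)) :=
  (Isometry.of_dist_eq fun A B => act2_dist e A B).continuous

variable {σ : G →* GU κ} {ρ : G →* Matrix n n ℝ} {χ : GU κ → ℝ}

/-- the weighted measure -/
noncomputable def nu (μ : Measure (GU κ)) (χ : GU κ → ℝ) : Measure (GU κ) :=
  μ.withDensity fun g => ENNReal.ofReal (χ g)

theorem ae_of_nu (hL : Lat σ) (μ : Measure (GU κ)) [IsHaarMeasure μ] (hχ : Cut σ χ)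
    {P : GU κ → Prop} (hP : ∀ γ g, P g → P (σ γ * g)) (h : ∀ᵐ g ∂(nu μ χ), P g) :
    ∀ᵐ g ∂μ, P g := by
  haveI := hL.countable
  rw [nu, ae_withDensity_iff hχ.meas] at h
  have h1 : ∀ γ, ∀ᵐ g ∂μ, ENNReal.ofReal (χ (σ γ * g)) ≠ 0 → P (σ γ * g) := fun γ =>
    (measurePreserving_mul_left μ (σ γ)).quasiMeasurePreserving.ae h
  have h2 := ae_all_iff.mpr h1
  filter_upwards [h2] with g hg
  have h3 := hχ.sum g
  have h4 : ∃ γ, ENNReal.ofReal (χ (σ γ * g)) ≠ 0 := by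
    by_contra hcon
    push Not at hcon
    simp [hcon] at h3
  obtain ⟨γ, hγ⟩ := h4
  have h5 := hP γ⁻¹ _ (hg γ hγ)
  rwa [← mul_assoc, ← map_mul, inv_mul_cancel, map_one, one_mul] at h5

theorem D2_eq (μ : Measure (GU κ)) (hχ : Cut σ χ) {f f' : GU κ → PD n} (hf : Measurable f)
    (hf' : Measurable f') : LT.D2 (nu μ χ) f f' = DD μ χ f f' := by
  unfold LT.D2 nu DD eD
  rw [lintegral_withDensity_eq_lintegral_mul μ hχ.meas ((hf.edist hf').pow_const 2)]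
  rfl

/-- the admissible class of all equivariant maps -/
noncomputable def adm (μ : Measure (GU κ)) (χ : GU κ → ℝ) {F₀ : GU κ → PD n}
    (h₀ : EqF σ ρ F₀) : Adm (nu μ χ) (PD.gd (n := n)) where
  S := {F | EqF σ ρ F}
  meas := fun f hf => hf.1
  geo_mem := fun s hs f hf f' hf' => hf.geo hf' hs
  lim_mem := fun u hu hlim => by
    obtain ⟨f, hf, hf2⟩ := h₀.lim hu
    refine ⟨f, hf, ?_⟩
    filter_upwards [hlim] with g hg
    exact hf2 g hg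

theorem lt_ext {Ω Y : Type} [MeasurableSpace Ω] [MetricSpace Y] [MeasurableSpace Y]
    {ν : Measure Ω} {geo : ℝ → Y → Y → Y} {A : Adm ν geo} {F₀ : Ω → Y} {a b : LT A F₀}
    (h : a.f = b.f) : a = b := by
  cases a; cases b; cases h; rfl

end MinMapAux

open MinMapAux

/-- module MINMAP -/
theorem exists_min_map (hκ : 0 < Fintype.card κ) {σ : G →* GU κ} (hL : Lat σ)
    (μ : Measure (GU κ)) [IsHaarMeasure μ] {χ : GU κ → ℝ} (hχ : Cut σ χ)
    (ρ : G →* Matrix (ι ⊕ Fin 2) (ι ⊕ Fin 2) ℝ) (hρ : ∀ g, (ρ g)ᵀ * J ι * ρ g = J ι)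
    (hirr : ∀ U : Submodule ℝ (ι ⊕ Fin 2 → ℝ), (∀ g, ∀ u ∈ U, ρ g *ᵥ u ∈ U) → U = ⊥ ∨ U = ⊤) :
    ∃ F : GU κ → PD (ι ⊕ Fin 2), EqF σ ρ F ∧ Kinv μ F ∧
      (∀ᵐ g ∂μ, (F g).M * J ι * (F g).M = J ι) ∧ EE μ χ F ≠ ⊤ ∧
      ∀ F', EqF σ ρ F' → DD μ χ F F' ≠ ⊤ → EE μ χ F ≤ EE μ χ F' := by
  haveI := hL.countable
  haveI := right_inv hL μ
  -- base map
  obtain ⟨H₀, hH₀⟩ := exists_base hL ρ
  obtain ⟨F₀, hF₀⟩ : ∃ F₀ : GU κ → PD (ι ⊕ Fin 2), ∀ g, (F₀ g).M = H₀ g.pt :=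
    ⟨fun g => ⟨_, hH₀.pos _ (pt_mem g).1⟩, fun g => rfl⟩
  obtain ⟨h₀, h₀c, h₀K⟩ := eqF_of_eqC hH₀ hF₀
  have hE₀ : EE μ χ F₀ ≠ ⊤ := by
    rw [energy_formula hL μ hχ ρ hH₀ hF₀]
    exact ENNReal.ofReal_ne_top
  obtain ⟨R, hR, hne⟩ := nonescape hκ hL μ hχ ρ hρ hirr h₀ h₀c (EE μ χ F₀) hE₀
  let A := adm μ χ h₀
  have hF₀m : Measurable F₀ := h₀.1
  -- the transformations
  have hTeq : ∀ (k : GU κ) (e : ℤˣ) {F : GU κ → PD (ι ⊕ Fin 2)}, EqF σ ρ F →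
      EqF σ ρ (fun g => act2 e (F (g * k))) := fun k e F hF =>
    ⟨(act2_cont e).measurable.comp (hF.right k).1, fun γ g => by
      change act2 e (F (σ γ * g * k)) = ac ρ γ (act2 e (F (g * k)))
      rw [mul_assoc, hF.2, act2_ac hρ]⟩
  have hTD : ∀ (k : GU κ) (e : ℤˣ) {F F' : GU κ → PD (ι ⊕ Fin 2)}, EqF σ ρ F → EqF σ ρ F' →
      LT.D2 (nu μ χ) (fun g => act2 e (F (g * k))) (fun g => act2 e (F' (g * k))) =
        LT.D2 (nu μ χ) F F' := by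
    intro k e F F' hF hF'
    rw [D2_eq μ hχ (hTeq k e hF).1 (hTeq k e hF').1, D2_eq μ hχ hF.1 hF'.1]
    have h1 := eD_right (μ := μ) hχ.meas hχ.sum (ac_isom ρ) hF.1 hF.2 hF'.1 hF'.2 k
    unfold DD
    rw [← h1]
    unfold eD
    simp only [edist_dist, act2_dist]
  have hT0 : ∀ (k : GU κ), k ∈ KU κ → ∀ (e : ℤˣ),
      (fun g => act2 e (F₀ (g * k))) = fun g => act2 e (F₀ g) := by
    intro k hk e
    ext1 g
    rw [h₀K g k hk]
  have hT0fin : ∀ e : ℤˣ, LT.D2 (nu μ χ) (fun g => act2 e (F₀ g)) F₀ ≠ ⊤ := by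
    intro e
    have hm : Measurable fun g => act2 e (F₀ g) := (act2_cont e).measurable.comp hF₀m
    rw [D2_eq μ hχ hm hF₀m]
    exact DD_fin μ hχ ((act2_cont e).comp h₀c) h₀c
  let T : KU κ × ℤˣ → LT A F₀ → LT A F₀ := fun p a =>
    { f := fun g => act2 p.2 (a.f (g * p.1))
      mem := hTeq _ _ a.mem
      fin := by
        refine LT.D2_ne_top (hTeq _ _ a.mem).1 (hTeq (p.1 : GU κ) p.2 h₀).1 hF₀m ?_ ?_
        · rw [hTD _ _ a.mem h₀]; exact a.fin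
        · rw [hT0 _ p.1.2]; exact hT0fin p.2 }
  letI := LT.pm (A := A) hF₀m
  haveI := LT.complete (A := A) hF₀m
  let E : LT A F₀ → ℝ≥0∞ := fun a => EE μ χ a.f
  let o : LT A F₀ := ⟨F₀, h₀, by simp⟩
  have hTdist : ∀ k a b, dist (T k a) (T k b) = dist a b := by
    intro k a b
    have h1 := LT.pm_dist_sq hF₀m (T k a) (T k b)
    have h2 := LT.pm_dist_sq hF₀m a b
    have h3 : LT.D2 (nu μ χ) (T k a).f (T k b).f = LT.D2 (nu μ χ) a.f b.f :=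
      hTD _ _ a.mem b.mem
    rw [h3, ← h2] at h1
    exact (sq_eq_sq₀ dist_nonneg dist_nonneg).mp h1
  have hmul : ∀ k k' a, dist (T (k * k') a) (T k (T k' a)) = 0 := by
    intro k k' a
    have : T (k * k') a = T k (T k' a) := by
      apply lt_ext
      ext1 g
      change act2 (k.2 * k'.2) (a.f (g * ((k.1 * k'.1 : KU κ) : GU κ))) =
        act2 k.2 (act2 k'.2 (a.f (g * k.1 * k'.1)))
      rw [act2_mul]
      push_cast
      rw [mul_assoc]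
    rw [this, dist_self]
  have hconv : ∀ a b, E (LT.lgeo cnPD hF₀m (1/2) a b) ≤ max (E a) (E b) := by
    intro a b
    have h1 : (LT.lgeo cnPD hF₀m (1/2) a b).f = fun g => PD.gd (1/2) (a.f g) (b.f g) :=
      LT.lgeo_f cnPD hF₀m half_mem a b
    change EE μ χ (LT.lgeo cnPD hF₀m (1/2) a b).f ≤ _
    rw [h1]
    exact eT_geo hχ.meas xx_meas cnPD (A.meas _ a.mem) (A.meas _ b.mem)
  have hlsc : LowerSemicontinuous E := by
    rw [lowerSemicontinuous_iff_isClosed_preimage]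
    intro c
    apply IsSeqClosed.isClosed
    intro u a hu hlim
    have h1 : Tendsto (fun k => DD μ χ a.f (u k).f) atTop (𝓝 0) := by
      have h2 : Tendsto (fun k => dist a (u k) ^ 2) atTop (𝓝 0) := by
        have h3 := (tendsto_iff_dist_tendsto_zero.mp hlim).pow 2
        simp only [dist_comm a]
        simpa using h3
      have h3 : ∀ k, DD μ χ a.f (u k).f = ENNReal.ofReal (dist a (u k) ^ 2) := by
        intro k
        rw [LT.pm_dist_sq hF₀m a (u k), ENNReal.ofReal_toReal (LT.D2_fin hF₀m a (u k)),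
          D2_eq μ hχ (A.meas _ a.mem) (A.meas _ (u k).mem)]
      simp only [h3]
      have := ENNReal.tendsto_ofReal h2
      simpa using this
    exact eT_liminf hχ.meas xx_meas hχ.sum (ac_isom ρ) (A.meas _ a.mem) a.mem.2
      (fun k => A.meas _ (u k).mem) (fun k => (u k).mem.2) h1 fun k => hu k
  have hE : ∀ k a, E (T k a) ≤ E a := by
    intro k a
    have h1 : EE μ χ (fun g => act2 k.2 (a.f (g * k.1))) = EE μ χ (fun g => a.f (g * k.1)) :=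
      EE_isom μ (act2 k.2) (act2_dist k.2) _
    have h2 := EE_right hL μ hχ (ρ := ρ) a.mem (k.1 : GU κ) k.1.2
    exact le_of_eq (h1.trans h2)
  have hbd : ∀ a, ∃ R, ∀ k, dist a (T k a) ≤ R := by
    intro a
    obtain ⟨R₁, hR₁⟩ : ∃ R₁ : ℝ, ∀ k, dist o (T k o) ≤ R₁ := by
      refine ⟨max (dist o (T (1, 1) o)) (dist o (T (1, -1) o)), fun k => ?_⟩
      have h1 : T k o = T (1, k.2) o := by
        apply lt_ext
        change (fun g => act2 k.2 (F₀ (g * k.1))) = fun g => act2 k.2 (F₀ (g * ((1 : KU κ) : GU κ)))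
        rw [hT0 _ k.1.2, hT0 _ (1 : KU κ).2]
      rw [h1]
      rcases Int.units_eq_one_or k.2 with h | h
      · rw [h]; exact le_max_left _ _
      · rw [h]; exact le_max_right _ _
    refine ⟨2 * dist a o + R₁, fun k => ?_⟩
    have h1 := dist_triangle a o (T k o)
    have h2 := dist_triangle a (T k o) (T k a)
    have h3 := hTdist k o a
    rw [dist_comm o a] at h3
    have h4 := hR₁ k
    linarith
  obtain ⟨a, ha1, ha2⟩ := exists_min_fixed (LT.lcn cnPD hF₀m) E hconv hlsc T hTdist hmul hE hbd o o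
    ((R ^ (1 / 2 : ℝ)).toReal) (by
      intro a ha hEa
      have hae : ∀ k : KU κ × ℤˣ, ∀ᵐ g ∂μ, act2 k.2 (a.f (g * k.1)) = a.f g := by
        intro k
        have h1 := LT.pm_dist_zero hF₀m a (T k a) (ha k)
        refine ae_of_nu hL μ hχ (σ := σ) ?_ (h1.mono fun g hg => hg.symm)
        intro γ g hg
        rw [mul_assoc, a.mem.2, act2_ac hρ, a.mem.2, hg]
      have hK : Kinv μ a.f := by
        intro k hk
        filter_upwards [hae (⟨k, hk⟩, 1)] with g hg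
        simpa [act2] using hg
      have hJ : ∀ᵐ g ∂μ, (a.f g).M * J ι * (a.f g).M = J ι := by
        filter_upwards [hae (1, -1)] with g hg
        have h : (-1 : ℤˣ) ≠ 1 := by decide
        apply iJ_fix
        simpa [act2, h] using hg
      have h1 := hne a.f a.mem hK hJ hEa
      apply LT.pm_dist_le hF₀m o a hR
      rw [D2_eq μ hχ hF₀m (A.meas _ a.mem)]
      exact h1)
  have hae : ∀ k : KU κ × ℤˣ, ∀ᵐ g ∂μ, act2 k.2 (a.f (g * k.1)) = a.f g := by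
    intro k
    have h1 := LT.pm_dist_zero hF₀m a (T k a) (ha1 k)
    refine ae_of_nu hL μ hχ (σ := σ) ?_ (h1.mono fun g hg => hg.symm)
    intro γ g hg
    rw [mul_assoc, a.mem.2, act2_ac hρ, a.mem.2, hg]
  refine ⟨a.f, a.mem, ?_, ?_, ?_, ?_⟩
  · intro k hk
    filter_upwards [hae (⟨k, hk⟩, 1)] with g hg
    simpa [act2] using hg
  · filter_upwards [hae (1, -1)] with g hg
    have h : (-1 : ℤˣ) ≠ 1 := by decide
    apply iJ_fix
    simpa [act2, h] using hg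
  · exact ne_top_of_le_ne_top hE₀ (ha2 o)
  · intro F' hF' hD
    have hfin : ∫⁻ g, edist (F' g) (F₀ g) ^ 2 ∂(nu μ χ) ≠ ⊤ := by
      refine LT.D2_ne_top hF'.1 (A.meas _ a.mem) hF₀m ?_ a.fin
      rw [LT.D2_comm, D2_eq μ hχ (A.meas _ a.mem) hF'.1]
      exact hD
    exact ha2 ⟨F', hF', hfin⟩

end Pool.Agent.MPd01a95
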