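import Mathlib
import Pool.Agent.Lib.MP_d01a95_gt_H.HDefs
import Pool.Agent.Lib.MP_d01a95_gt_H.Unimod

/-! Module WEDGE of project HARMONIC (helper74): two families of vectors with the wedge symmetry. -/

set_option autoImplicit false
set_option linter.all false

open Matrix Filter Topology MeasureTheory Measure
open scoped ENNReal NNReal ContDiff

namespace Pool.Agent.MPd01a95

open GU

variable {κ n ι α : Type} [Fintype κ] [DecidableEq κ] [Fintype n] [DecidableEq n]
  [Fintype ι] [DecidableEq ι] [Fintype α] [DecidableEq α] {G : Type} [Group G]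

namespace WedgeAux

/-- Two linear functionals on a space of dimension at least three have a common zero. -/
theorem ker2 (hκ : 3 ≤ Fintype.card κ) (f g : (κ → ℂ) →ₗ[ℂ] ℂ) :
    ∃ ξ : κ → ℂ, ξ ≠ 0 ∧ f ξ = 0 ∧ g ξ = 0 := by
  by_contra hcon
  push Not at hcon
  have hinj : Function.Injective (f.prod g) := by
    rw [← LinearMap.ker_eq_bot, LinearMap.ker_eq_bot']
    intro ξ hξ
    by_contra hne
    have h1 : f ξ = 0 := by
      have := congrArg Prod.fst hξ
      simpa using this
    have h2 : g ξ = 0 := by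
      have := congrArg Prod.snd hξ
      simpa using this
    exact hcon ξ hne h1 h2
  have h := LinearMap.finrank_le_finrank_of_injective hinj
  rw [Module.finrank_prod, Module.finrank_self, Module.finrank_fintype_fun_eq_card] at h
  omega

/-- The linear extension of a family. -/
noncomputable def ext {N : Type} (α : κ → N → ℂ) (x : N) : (κ → ℂ) →ₗ[ℂ] ℂ where
  toFun ξ := ∑ a, ξ a * α a x
  map_add' ξ η := by simp [add_mul, Finset.sum_add_distrib]
  map_smul' c ξ := by simp [mul_assoc, Finset.mul_sum]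

theorem ext_apply {N : Type} (α : κ → N → ℂ) (x : N) (ξ : κ → ℂ) :
    ext α x ξ = ∑ a, ξ a * α a x := rfl

theorem ext_single {N : Type} (α : κ → N → ℂ) (x : N) (a : κ) :
    ext α x (Pi.single a 1) = α a x := by
  rw [ext_apply, Finset.sum_eq_single a]
  · simp
  · intro b _ hb
    simp [Pi.single_eq_of_ne hb]
  · simp

/-- The wedge relation for the linear extensions. -/
theorem ext_wedge {N : Type} (α β : κ → N → ℂ)
    (hw : ∀ a c, ∀ x y : N, α a x * β c y - β c x * α a y = α c x * β a y - β a x * α c y)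
    (ξ η : κ → ℂ) (x y : N) :
    ext α x ξ * ext β y η - ext β x η * ext α y ξ =
      ext α x η * ext β y ξ - ext β x ξ * ext α y η := by
  simp only [ext_apply, Finset.sum_mul_sum]
  have e1 : ∀ (f g : κ → ℂ), ∑ i, ∑ j, η i * f i * (ξ j * g j) =
      ∑ j, ∑ i, η i * f i * (ξ j * g j) := fun f g => Finset.sum_comm
  rw [e1, e1]
  have e2 : ∀ (f g : κ → ℂ), ∑ i, ∑ j, ξ i * f i * (η j * g j) =
      ∑ i, ∑ j, ξ i * η j * (f i * g j) := by
    intro f g
    refine Finset.sum_congr rfl fun i _ => Finset.sum_congr rfl fun j _ => ?_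
    ring
  rw [e2]
  have e3 : ∀ (f g : κ → ℂ), ∑ j, ∑ i, η i * f i * (ξ j * g j) =
      ∑ j, ∑ i, ξ j * η i * (f i * g j) := by
    intro f g
    refine Finset.sum_congr rfl fun i _ => Finset.sum_congr rfl fun j _ => ?_
    ring
  rw [e3, e3]
  have e4 : ∑ i, ∑ j, ξ i * β i x * (η j * α j y) =
      ∑ i, ∑ j, ξ i * η j * (β i x * α j y) := e2 _ _
  rw [← Finset.sum_sub_distrib]
  try rw [e4]
  rw [← Finset.sum_sub_distrib]
  refine Finset.sum_congr rfl fun i _ => ?_
  rw [← Finset.sum_sub_distrib, ← Finset.sum_sub_distrib]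
  refine Finset.sum_congr rfl fun j _ => ?_
  have := hw i j x y
  linear_combination (ξ i * η j) * this

end WedgeAux

open WedgeAux in
/-- module WEDGE -/
theorem wedge_lemma {N : Type} [Fintype N] (hκ : 3 ≤ Fintype.card κ)
    (α β : κ → N → ℂ)
    (hinj : ∀ ξ : κ → ℂ, (∑ a, ξ a • α a = 0) → (∑ a, ξ a • β a = 0) → ξ = 0)
    (hw : ∀ a c, ∀ x y : N, α a x * β c y - β c x * α a y = α c x * β a y - β a x * α c y) :
    (∀ a, α a = 0) ∨ ∀ a, β a = 0 := by
  by_contra hcon
  rw [not_or, not_forall, not_forall] at hcon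
  obtain ⟨⟨a₀, ha₀⟩, ⟨b₀, hb₀⟩⟩ := hcon
  obtain ⟨x₁, hx₁⟩ := Function.ne_iff.1 ha₀
  obtain ⟨y₁, hy₁⟩ := Function.ne_iff.1 hb₀
  have hi : ∀ ξ : κ → ℂ, (∀ z, ext α z ξ = 0) → (∀ z, ext β z ξ = 0) → ξ = 0 := by
    intro ξ h1 h2
    apply hinj ξ
    · funext z
      have := h1 z
      rw [ext_apply] at this
      simpa using this
    · funext z
      have := h2 z
      rw [ext_apply] at this
      simpa using this
  have W := ext_wedge α β hw
  by_cases hC : ∀ ξ x y, ext α x ξ * ext β y ξ - ext β x ξ * ext α y ξ = 0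
  · have P : ∀ ξ η x y, ext α x ξ * ext β y η = ext β x η * ext α y ξ := by
      intro ξ η x y
      have h1 := hC (ξ + η) x y
      simp only [map_add] at h1
      have h2 := hC ξ x y
      have h3 := hC η x y
      have h4 := W ξ η x y
      linear_combination (1 / 2) * (h1 - h2 - h3) + (1 / 2) * h4
    obtain ⟨ξ, hξ, h1, h2⟩ := ker2 hκ (ext α y₁) (ext β x₁)
    apply hξ
    apply hi
    · intro z
      have h3 := P ξ (Pi.single b₀ 1) z y₁
      rw [h1, mul_zero, ext_single] at h3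
      rcases mul_eq_zero.1 h3 with h | h
      · exact h
      · exact absurd h (by simpa using hy₁)
    · intro z
      have h3 := P (Pi.single a₀ 1) ξ x₁ z
      rw [h2, zero_mul, ext_single] at h3
      rcases mul_eq_zero.1 h3 with h | h
      · exact absurd h (by simpa using hx₁)
      · exact h
  · rw [not_forall] at hC
    obtain ⟨ξ₀, hC⟩ := hC
    rw [not_forall] at hC
    obtain ⟨x₀, hC⟩ := hC
    rw [not_forall] at hC
    obtain ⟨y₀, hD⟩ := hC
    have c1 : ∀ η, ext α x₀ η = 0 → ext α y₀ η = 0 → ∀ z, ext α z η = 0 := by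
      intro η h1 h2 z
      have w1 := W ξ₀ η x₀ y₀
      have w2 := W ξ₀ η y₀ z
      have w3 := W ξ₀ η z x₀
      rw [h1, h2] at w1
      rw [h2] at w2
      rw [h1] at w3
      have : (ext α x₀ ξ₀ * ext β y₀ ξ₀ - ext β x₀ ξ₀ * ext α y₀ ξ₀) * ext α z η = 0 := by
        linear_combination (ext α z ξ₀) * w1 + (ext α x₀ ξ₀) * w2 + (ext α y₀ ξ₀) * w3
      exact (mul_eq_zero.1 this).resolve_left hD
    have c2 : ∀ η, ext β x₀ η = 0 → ext β y₀ η = 0 → ∀ z, ext β z η = 0 := by
      intro η h1 h2 z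
      have w1 := W ξ₀ η x₀ y₀
      have w2 := W ξ₀ η y₀ z
      have w3 := W ξ₀ η z x₀
      rw [h1, h2] at w1
      rw [h2] at w2
      rw [h1] at w3
      have : (ext α x₀ ξ₀ * ext β y₀ ξ₀ - ext β x₀ ξ₀ * ext α y₀ ξ₀) * ext β z η = 0 := by
        linear_combination (-ext β z ξ₀) * w1 + (-ext β x₀ ξ₀) * w2 + (-ext β y₀ ξ₀) * w3
      exact (mul_eq_zero.1 this).resolve_left hD
    obtain ⟨η₁, hη₁, h1, h2⟩ := ker2 hκ (ext α x₀) (ext α y₀)
    have hA := c1 η₁ h1 h2
    obtain ⟨η₂, hη₂, h3, h4⟩ := ker2 hκ (ext β x₀) (ext β y₀)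
    have hB := c2 η₂ h3 h4
    have hex1 : ∃ w, ext β w η₁ ≠ 0 := by
      by_contra hno
      push Not at hno
      exact hη₁ (hi η₁ hA hno)
    have hex2 : ∃ w, ext α w η₂ ≠ 0 := by
      by_contra hno
      push Not at hno
      exact hη₂ (hi η₂ hno hB)
    obtain ⟨w₁, hw₁⟩ := hex1
    obtain ⟨w₂, hw₂⟩ := hex2
    obtain ⟨ξ, hξ, h5, h6⟩ := ker2 hκ (ext α w₁) (ext β w₂)
    apply hξ
    apply hi
    · intro z
      have h7 := W ξ η₁ z w₁
      rw [hA, hA, h5] at h7
      have h8 : ext α z ξ * ext β w₁ η₁ = 0 := by linear_combination h7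
      exact (mul_eq_zero.1 h8).resolve_right hw₁
    · intro z
      have h7 := W ξ η₂ w₂ z
      rw [hB, hB, h6] at h7
      have h8 : ext α w₂ η₂ * ext β z ξ = 0 := by linear_combination -h7
      exact (mul_eq_zero.1 h8).resolve_left hw₂

end Pool.Agent.MPd01a95
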