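import Mathlib
import Pool.Agent.Lib.MP_d01a95_gt_H.HDefs
import Pool.Agent.Lib.MP_d01a95_gt_H.Unimod
import Pool.Agent.Lib.MP_d01a95_gt_H.Wedge
import Pool.Agent.Lib.MP_d01a95_gt_H.Static

/-! Module POINT of project HARMONIC (helper74): the algebra at one point. -/

set_option autoImplicit false
set_option linter.all false

open Matrix Filter Topology MeasureTheory Measure
open scoped ENNReal NNReal ContDiff

namespace Pool.Agent.MPd01a95

open GU

variable {κ n ι α : Type} [Fintype κ] [DecidableEq κ] [Fintype n] [DecidableEq n]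
  [Fintype ι] [DecidableEq ι] [Fintype α] [DecidableEq α] {G : Type} [Group G]

namespace PointAux

open StaticAux

theorem bJ_zero_right (v : ι ⊕ Fin 2 → ℂ) : bJ v 0 = 0 := by
  unfold bJ; simp

theorem bJ_neg_left (v w : ι ⊕ Fin 2 → ℂ) : bJ (-v) w = - bJ v w := by
  have := bJ_smul_left (-1) v w
  simpa using this

theorem bJ_neg_right (v w : ι ⊕ Fin 2 → ℂ) : bJ v (-w) = - bJ v w := by
  rw [bJ_comm, bJ_neg_left, bJ_comm w]

theorem bJ_sum_right {κ : Type} (s : Finset κ) (v : ι ⊕ Fin 2 → ℂ) (w : κ → ι ⊕ Fin 2 → ℂ) :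
    bJ v (∑ a ∈ s, w a) = ∑ a ∈ s, bJ v (w a) := by
  classical
  induction s using Finset.induction_on with
  | empty => simp [bJ_zero_right]
  | insert a s ha ih => rw [Finset.sum_insert ha, Finset.sum_insert ha, bJ_add_right, ih]

theorem bJ_single (j : ι ⊕ Fin 2) (v : ι ⊕ Fin 2 → ℂ) :
    bJ (Pi.single j 1) v = (jr j : ℂ) * v j := by
  rw [bJ_eq, Finset.sum_eq_single j]
  · simp
  · intro b _ hb
    simp [Pi.single_eq_of_ne hb]
  · simp

theorem jr_ne (j : ι ⊕ Fin 2) : (jr j : ℂ) ≠ 0 := by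
  have h := jr_sq j
  intro h0
  have h1 : jr j = 0 := by exact_mod_cast h0
  rw [h1] at h
  norm_num at h

theorem thC_sq {h : Matrix (ι ⊕ Fin 2) (ι ⊕ Fin 2) ℝ} (hJ : h * J ι * h = J ι) :
    thC h * thC h = 1 := by
  unfold thC
  have e2 : (J ι * h * (J ι * h)).map ((↑) : ℝ → ℂ) =
      (J ι * h).map ((↑) : ℝ → ℂ) * (J ι * h).map ((↑) : ℝ → ℂ) :=
    Matrix.map_mul (f := Complex.ofRealHom)
  rw [← e2, th_sq hJ]
  exact Matrix.map_one _ (by simp) (by simp)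

/-- The involution is selfadjoint for the form. -/
theorem th_adj {h : Matrix (ι ⊕ Fin 2) (ι ⊕ Fin 2) ℝ} (hp : h.PosDef)
    (v w : ι ⊕ Fin 2 → ℂ) : bJ (thC h *ᵥ v) w = bJ v (thC h *ᵥ w) := by
  rw [bJ_eq, bJ_eq]
  have e1 : ∀ (u : ι ⊕ Fin 2 → ℂ) i, (jr i : ℂ) * (thC h *ᵥ u) i = ∑ j, (h i j : ℂ) * u j := by
    intro u i
    simp only [Matrix.mulVec, dotProduct, thC, Matrix.map_apply, Finset.mul_sum]
    refine Finset.sum_congr rfl fun j _ => ?_
    rw [J_mul]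
    have h2 : ((jr i : ℝ) : ℂ) * ((jr i : ℝ) : ℂ) = 1 := by
      rw [← Complex.ofReal_mul, jr_sq, Complex.ofReal_one]
    push_cast
    linear_combination ((h i j : ℂ) * u j) * h2
  have e2 : ∀ i, (jr i : ℂ) * (thC h *ᵥ v) i * w i = ∑ j, (h i j : ℂ) * v j * w i := by
    intro i
    rw [e1, Finset.sum_mul]
  have e3 : ∀ i, (jr i : ℂ) * v i * (thC h *ᵥ w) i = ∑ j, (h i j : ℂ) * w j * v i := by
    intro i
    rw [mul_right_comm, e1, Finset.sum_mul]
  rw [Finset.sum_congr rfl fun i _ => e2 i, Finset.sum_congr rfl fun i _ => e3 i,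
    Finset.sum_comm]
  refine Finset.sum_congr rfl fun i _ => Finset.sum_congr rfl fun j _ => ?_
  rw [symm_of hp i j]
  ring

section

variable {h : Matrix (ι ⊕ Fin 2) (ι ⊕ Fin 2) ℝ} (hp : h.PosDef) (hJ : h * J ι * h = J ι)

include hp hJ

/-- The action of a skew anticommuting matrix on the positive part. -/
theorem act_pos (φ : Matrix (ι ⊕ Fin 2) (ι ⊕ Fin 2) ℂ)
    (h1 : thC h * φ = -(φ * thC h))
    (h2 : ∀ v w, bJ (φ *ᵥ v) w = - bJ v (φ *ᵥ w))
    (x : ι ⊕ Fin 2 → ℂ) (hx : thC h *ᵥ x = x) :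
    bJ (sl 1 h) (sl (-1) h) • (φ *ᵥ x) =
      -(bJ x (φ *ᵥ sl (-1) h) • sl 1 h + bJ x (φ *ᵥ sl 1 h) • sl (-1) h) := by
  have h3 : thC h *ᵥ (φ *ᵥ x) = -(φ *ᵥ x) := by
    rw [Matrix.mulVec_mulVec, h1, Matrix.neg_mulVec, ← Matrix.mulVec_mulVec, hx]
  obtain ⟨l, m, hlm⟩ := sl_span hp hJ h3
  have i1 : bJ (sl 1 h) (sl 1 h) = 0 := sl_iso hp hJ (by norm_num)
  have i2 : bJ (sl (-1) h) (sl (-1) h) = 0 := sl_iso hp hJ (by norm_num)
  have e1 : bJ (φ *ᵥ x) (sl 1 h) = m * bJ (sl 1 h) (sl (-1) h) := by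
    rw [hlm, bJ_add_left, bJ_smul_left, bJ_smul_left, i1, bJ_comm (sl (-1) h)]
    ring
  have e2 : bJ (φ *ᵥ x) (sl (-1) h) = l * bJ (sl 1 h) (sl (-1) h) := by
    rw [hlm, bJ_add_left, bJ_smul_left, bJ_smul_left, i2]
    ring
  rw [h2] at e1 e2
  have e3 : bJ x (φ *ᵥ sl 1 h) = -(m * bJ (sl 1 h) (sl (-1) h)) := by
    rw [← e1, neg_neg]
  have e4 : bJ x (φ *ᵥ sl (-1) h) = -(l * bJ (sl 1 h) (sl (-1) h)) := by
    rw [← e2, neg_neg]
  rw [e3, e4, hlm, smul_add, smul_smul, smul_smul]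
  funext i
  simp only [Pi.add_apply, Pi.smul_apply, Pi.neg_apply, smul_eq_mul]
  ring

end

end PointAux

section static

variable {h : Matrix (ι ⊕ Fin 2) (ι ⊕ Fin 2) ℝ} (hp : h.PosDef) (hJ : h * J ι * h = J ι)

include hp hJ

open PointAux StaticAux in
/-- module POINT -/
theorem point_alg (hκ : 3 ≤ Fintype.card κ)
    (φ : κ → Matrix (ι ⊕ Fin 2) (ι ⊕ Fin 2) ℂ)
    (h1 : ∀ a, thC h * φ a = -(φ a * thC h))
    (h2 : ∀ a, ∀ v w, bJ (φ a *ᵥ v) w = - bJ v (φ a *ᵥ w))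
    (h3 : ∀ a c, φ a * φ c = φ c * φ a)
    (h4 : ∀ ξ : κ → ℂ, ∑ a, ξ a • φ a = 0 → ξ = 0) :
    (∀ a, φ a *ᵥ sl 1 h = 0) ∨ ∀ a, φ a *ᵥ sl (-1) h = 0 := by
  have hc := sl_cross hp hJ
  set s1 := sl 1 h with hs1
  set s2 := sl (-1) h with hs2
  set c := bJ s1 s2 with hcdef
  have hsq := thC_sq hJ
  have t1 : thC h *ᵥ s1 = - s1 := th_sl hp hJ 1
  have t2 : thC h *ᵥ s2 = - s2 := th_sl hp hJ (-1)
  have tpos : ∀ a (s : ι ⊕ Fin 2 → ℂ), thC h *ᵥ s = -s → thC h *ᵥ (φ a *ᵥ s) = φ a *ᵥ s := by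
    intro a s hs
    rw [Matrix.mulVec_mulVec, h1, Matrix.neg_mulVec, ← Matrix.mulVec_mulVec, hs,
      Matrix.mulVec_neg, neg_neg]
  have hproj : ∀ x : ι ⊕ Fin 2 → ℂ, thC h *ᵥ (x + thC h *ᵥ x) = x + thC h *ᵥ x := by
    intro x
    rw [Matrix.mulVec_add, Matrix.mulVec_mulVec, hsq, Matrix.one_mulVec, add_comm]
  have hpair : ∀ (x v : ι ⊕ Fin 2 → ℂ), thC h *ᵥ v = v →
      bJ (x + thC h *ᵥ x) v = 2 * bJ x v := by
    intro x v hv
    rw [bJ_add_left, th_adj hp, hv]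
    ring
  have hact := fun a => act_pos hp hJ (φ a) (h1 a) (h2 a)
  simp only [← hs1, ← hs2, ← hcdef] at hact
  -- the key relation
  have hrel : ∀ a e (x : ι ⊕ Fin 2 → ℂ),
      bJ x (φ a *ᵥ s2) • (φ e *ᵥ s1) + bJ x (φ a *ᵥ s1) • (φ e *ᵥ s2) =
      bJ x (φ e *ᵥ s2) • (φ a *ᵥ s1) + bJ x (φ e *ᵥ s1) • (φ a *ᵥ s2) := by
    intro a e x
    have k1 := hact a _ (hproj x)
    have k2 := hact e _ (hproj x)
    rw [hpair x _ (tpos a s2 t2), hpair x _ (tpos a s1 t1)] at k1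
    rw [hpair x _ (tpos e s2 t2), hpair x _ (tpos e s1 t1)] at k2
    generalize x + thC h *ᵥ x = z at k1 k2
    have k3 := congrArg (fun v => φ e *ᵥ v) k1
    have k4 := congrArg (fun v => φ a *ᵥ v) k2
    simp only [Matrix.mulVec_neg, Matrix.mulVec_add, Matrix.mulVec_smul,
      Matrix.mulVec_mulVec] at k3 k4
    rw [h3 e a] at k3
    have k5 := k3.symm.trans k4
    funext i
    have k6 := congrFun k5 i
    simp only [Pi.neg_apply, Pi.add_apply, Pi.smul_apply, smul_eq_mul] at k6 ⊢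
    linear_combination (-1 / 2) * k6
  apply wedge_lemma hκ (fun a => φ a *ᵥ s1) (fun a => φ a *ᵥ s2)
  · intro ξ g1 g2
    apply h4
    -- the combination kills everything
    have hker : ∀ x : ι ⊕ Fin 2 → ℂ, (∑ a, ξ a • φ a) *ᵥ x = 0 := by
      intro x
      have hs : ∀ y : ι ⊕ Fin 2 → ℂ, (∑ a, ξ a • φ a) *ᵥ y = ∑ a, ξ a • (φ a *ᵥ y) := by
        intro y
        rw [Matrix.sum_mulVec]
        exact Finset.sum_congr rfl fun a _ => Matrix.smul_mulVec _ _ _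
      have hneg : thC h *ᵥ (x - thC h *ᵥ x) = -(x - thC h *ᵥ x) := by
        rw [Matrix.mulVec_sub, Matrix.mulVec_mulVec, hsq, Matrix.one_mulVec, neg_sub]
      obtain ⟨l, m, hlm⟩ := sl_span hp hJ hneg
      have q1 : (∑ a, ξ a • φ a) *ᵥ (x - thC h *ᵥ x) = 0 := by
        rw [hlm, Matrix.mulVec_add, Matrix.mulVec_smul, Matrix.mulVec_smul, hs, hs]
        rw [g1, g2]
        simp
      have q2 : (∑ a, ξ a • φ a) *ᵥ (x + thC h *ᵥ x) = 0 := by
        have q3 : c • ((∑ a, ξ a • φ a) *ᵥ (x + thC h *ᵥ x)) = 0 := by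
          rw [hs, Finset.smul_sum]
          have q4 : ∀ a, c • ξ a • (φ a *ᵥ (x + thC h *ᵥ x)) =
              -((2 * bJ x (ξ a • (φ a *ᵥ s2))) • s1 + (2 * bJ x (ξ a • (φ a *ᵥ s1))) • s2) := by
            intro a
            rw [smul_comm, hact a _ (hproj x), hpair x _ (tpos a s2 t2),
              hpair x _ (tpos a s1 t1), bJ_smul_right, bJ_smul_right]
            funext i
            simp only [Pi.neg_apply, Pi.add_apply, Pi.smul_apply, smul_eq_mul]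
            ring
          rw [Finset.sum_congr rfl fun a _ => q4 a, Finset.sum_neg_distrib,
            Finset.sum_add_distrib, ← Finset.sum_smul, ← Finset.sum_smul, ← Finset.mul_sum,
            ← Finset.mul_sum, ← bJ_sum_right, ← bJ_sum_right, g1, g2, bJ_zero_right]
          simp
        exact (smul_eq_zero.1 q3).resolve_left hc
      have q5 : (2 : ℂ) • ((∑ a, ξ a • φ a) *ᵥ x) = 0 := by
        have q6 : (2 : ℂ) • x = (x - thC h *ᵥ x) + (x + thC h *ᵥ x) := by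
          rw [two_smul]; abel
        rw [← Matrix.mulVec_smul, q6, Matrix.mulVec_add, q1, q2, add_zero]
      exact (smul_eq_zero.1 q5).resolve_left two_ne_zero
    ext i j
    have := congrFun (hker (Pi.single j 1)) i
    rw [Matrix.mulVec_single_one] at this
    exact this
  · intro a e x y
    have k := congrFun (hrel a e (Pi.single y 1)) x
    simp only [bJ_single, Pi.add_apply, Pi.smul_apply, smul_eq_mul] at k
    have hj := jr_ne (ι := ι) y
    apply mul_left_cancel₀ hj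
    linear_combination -k

end static

end Pool.Agent.MPd01a95
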