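import Mathlib
import Pool.Agent.Lib.MP_d01a95_gt_H.HDefs
import Pool.Agent.Lib.MP_d01a95_gt_H.Unimod
import Pool.Agent.Lib.MP_d01a95_gt_H.Cauchy
set_option autoImplicit false
set_option linter.all false
open Matrix Filter Topology MeasureTheory Measure
open scoped ENNReal NNReal ContDiff
namespace Pool.Agent.MPd01a95
open GU
variable {κ n ι α : Type} [Fintype κ] [DecidableEq κ] [Fintype n] [DecidableEq n] [Fintype ι] [DecidableEq ι] [Fintype α] [DecidableEq α] {G : Type} [Group G]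

namespace UC1Aux

theorem db_mul (u v : (Unit → ℂ) → ℂ) (z : Unit → ℂ) (hu : DifferentiableAt ℝ u z)
    (hv : DifferentiableAt ℝ v z) :
    db (fun z => u z * v z) () z = db u () z * v z + u z * db v () z := by
  unfold db
  rw [fderiv_fun_mul hu hv]
  simp only [ContinuousLinearMap.add_apply, ContinuousLinearMap.smul_apply, smul_eq_mul]
  ring

theorem db_zero_of_eventually {u : (Unit → ℂ) → ℂ} {z : Unit → ℂ} (c : ℂ)
    (h : ∀ᶠ y in 𝓝 z, u y = c) : db u () z = 0 := by
  have h2 : u =ᶠ[𝓝 z] fun _ => c := h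
  unfold db
  rw [h2.fderiv_eq]
  simp

theorem db_congr {u v : (Unit → ℂ) → ℂ} {z : Unit → ℂ}
    (h : ∀ᶠ y in 𝓝 z, u y = v y) : db u () z = db v () z := by
  have h2 : u =ᶠ[𝓝 z] v := h
  unfold db
  rw [h2.fderiv_eq]

/-- the basic estimate for smooth functions supported in a ball -/
theorem basic : ∃ C : ℝ, 0 < C ∧ ∀ (r : ℝ), 0 < r → ∀ u : (Unit → ℂ) → ℂ, ContDiff ℝ ∞ u →
    (∀ z, r < ‖z‖ → u z = 0) → ∀ M : ℝ, (∀ z, ‖db u () z‖ ≤ M) → ∀ p, ‖u p‖ ≤ C * r * M := by
  obtain ⟨k, hk, hk0, ⟨R, hR⟩, hc⟩ := cauchy_avg Unit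
  have hkc : HasCompactSupport k := by
    refine HasCompactSupport.of_support_subset_isCompact (isCompact_closedBall (0 : Unit → ℂ) R) ?_
    intro z hz
    simpa using (hR z hz).2
  have hint : Integrable (fun z : Unit → ℂ => k z * ‖z‖) := by
    refine Continuous.integrable_of_hasCompactSupport (hk.continuous.mul continuous_norm) ?_
    exact hkc.mul_right
  set K : ℝ := ∫ z : Unit → ℂ, k z * ‖z‖ with hK
  have hKnn : 0 ≤ K := integral_nonneg fun z => mul_nonneg (hk0 z) (norm_nonneg z)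
  refine ⟨4 * K + 1, by linarith, ?_⟩
  intro r hr u hu hur M hM p
  have hM0 : 0 ≤ M := (norm_nonneg _).trans (hM 0)
  by_cases hp : r < ‖p‖
  · rw [hur p hp, norm_zero]
    positivity
  rw [not_lt] at hp
  have huc : HasCompactSupport u := by
    refine HasCompactSupport.of_support_subset_isCompact (isCompact_closedBall (0 : Unit → ℂ) r) ?_
    intro z hz
    by_contra hzz
    rw [Metric.mem_closedBall, dist_zero_right, not_le] at hzz
    exact hz (hur z hzz)
  have hdb0 : ∀ z : Unit → ℂ, r < ‖z‖ → db u () z = 0 := by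
    intro z hz
    refine db_zero_of_eventually 0 ?_
    have : IsOpen {y : Unit → ℂ | r < ‖y‖} := isOpen_lt continuous_const continuous_norm
    filter_upwards [this.mem_nhds hz] with y hy using hur y hy
  rw [hc u hu huc p]
  -- inner integral bound
  have hinner : ∀ t : ℝ, ‖∫ z : Unit → ℂ, (k z : ℂ) * ∑ c, star (z c) * db u c (p + t • z)‖ ≤
      K * M := by
    intro t
    rw [hK, ← integral_mul_const]
    refine norm_integral_le_of_norm_le (hint.mul_const M) ?_
    refine Filter.Eventually.of_forall fun z => ?_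
    simp only [Finset.univ_unique, PUnit.default_eq_unit, Finset.sum_singleton, norm_mul,
      norm_star, Complex.norm_real, Real.norm_eq_abs, abs_of_nonneg (hk0 z)]
    have h1 : ‖z ()‖ ≤ ‖z‖ := norm_le_pi_norm z ()
    have h2 := hM (p + t • z)
    calc k z * (‖z ()‖ * ‖db u () (p + t • z)‖) ≤ k z * (‖z‖ * M) := by
          refine mul_le_mul_of_nonneg_left ?_ (hk0 z)
          exact mul_le_mul h1 h2 (norm_nonneg _) (norm_nonneg _)
      _ = k z * ‖z‖ * M := by ring
  have hzero : ∀ t ∈ Set.Ioi (0 : ℝ) \ Set.Ioc (0 : ℝ) (2 * r),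
      (∫ z : Unit → ℂ, (k z : ℂ) * ∑ c, star (z c) * db u c (p + t • z)) = 0 := by
    intro t ht
    have ht1 : 0 < t := ht.1
    have ht2 : 2 * r < t := by
      by_contra hcon
      exact ht.2 ⟨ht1, by linarith⟩
    refine integral_eq_zero_of_ae ?_
    refine Filter.Eventually.of_forall fun z => ?_
    by_cases hz : k z = 0
    · simp [hz]
    · have h1 := (hR z hz).1
      have h2 : r < ‖p + t • z‖ := by
        have h3 : ‖t • z‖ = t * ‖z‖ := by
          rw [norm_smul, Real.norm_eq_abs, abs_of_pos ht1]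
        have h4 : ‖t • z‖ ≤ ‖p + t • z‖ + ‖p‖ := by
          calc ‖t • z‖ = ‖(p + t • z) - p‖ := by congr 1; abel
            _ ≤ _ := norm_sub_le _ _
        have h5 : t ≤ t * ‖z‖ := by nlinarith
        linarith
      simp [hdb0 _ h2]
  rw [setIntegral_eq_of_subset_of_forall_diff_eq_zero measurableSet_Ioi
    (Set.Ioc_subset_Ioi_self) hzero]
  rw [norm_mul]
  have h2 : ‖∫ t in Set.Ioc (0 : ℝ) (2 * r), ∫ z : Unit → ℂ, (k z : ℂ) *
      ∑ c, star (z c) * db u c (p + t • z)‖ ≤ K * M * (2 * r) := by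
    have h3 := norm_setIntegral_le_of_norm_le_const (μ := volume) (s := Set.Ioc (0 : ℝ) (2 * r))
      (f := fun t => ∫ z : Unit → ℂ, (k z : ℂ) * ∑ c, star (z c) * db u c (p + t • z))
      (C := K * M) measure_Ioc_lt_top (fun t _ => hinner t)
    refine h3.trans (le_of_eq ?_)
    rw [Real.volume_real_Ioc]
    rw [max_eq_left (by linarith)]
    ring
  have h4 : ‖(-2 : ℂ)‖ = 2 := by norm_num
  rw [h4]
  nlinarith [mul_nonneg (mul_nonneg hKnn hM0) hr.le, mul_nonneg hr.le hM0]

/-- the estimate for Db data -/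
theorem basic_db {C : ℝ} (hC : 0 < C) (hb : ∀ (r : ℝ), 0 < r → ∀ u : (Unit → ℂ) → ℂ, ContDiff ℝ ∞ u →
    (∀ z, r < ‖z‖ → u z = 0) → ∀ M : ℝ, (∀ z, ‖db u () z‖ ≤ M) → ∀ p, ‖u p‖ ≤ C * r * M)
    {R : ℝ} {w f : (Unit → ℂ) → ℂ} (h : Db (Metric.ball (0 : Unit → ℂ) R) w (fun _ => f))
    {r : ℝ} (hr : 0 < r) (hrR : r < R) {η : (Unit → ℂ) → ℂ} (hη : ContDiff ℝ ∞ η)
    (hηr : ∀ z, r < ‖z‖ → η z = 0) {M : ℝ}
    (hM : ∀ z, ‖z‖ ≤ r → ‖db η () z * w z + η z * f z‖ ≤ M) :
    ∀ p, ‖η p * w p‖ ≤ C * r * M := by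
  have hM0 : 0 ≤ M := (norm_nonneg _).trans (hM 0 (by simp [hr.le]))
  have hcpt := isCompact_closedBall (0 : Unit → ℂ) r
  have hηd : Differentiable ℝ η := hη.differentiable (by simp)
  have hdbc : Continuous (fun z => db η () z) := by
    unfold db
    have h1 := hη.continuous_fderiv (by simp)
    fun_prop
  obtain ⟨B, hB⟩ := hcpt.exists_bound_of_continuousOn
    (f := fun z => ‖db η () z‖ + ‖η z‖) (by
      exact (hdbc.norm.add hη.continuous.norm).continuousOn)
  have hB' : ∀ z : Unit → ℂ, ‖z‖ ≤ r → ‖db η () z‖ + ‖η z‖ ≤ B := by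
    intro z hz
    have := hB z (by simpa using hz)
    rwa [Real.norm_eq_abs, abs_of_nonneg (by positivity)] at this
  have hB0 : 0 ≤ B := by
    have := hB' 0 (by simp [hr.le])
    linarith [norm_nonneg (db η () 0), norm_nonneg (η 0)]
  intro p
  by_cases hp : r < ‖p‖
  · rw [hηr p hp, zero_mul, norm_zero]
    positivity
  rw [not_lt] at hp
  refine le_of_forall_pos_le_add ?_
  intro ε hε
  have hD : 0 < C * r * B + B + 1 := by positivity
  obtain ⟨u, hu, huv⟩ := h (Metric.closedBall 0 r)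
    (Metric.closedBall_subset_ball hrR) hcpt (ε / (C * r * B + B + 1)) (by positivity)
  set ε' := ε / (C * r * B + B + 1) with hε'
  have hε'0 : 0 < ε' := by positivity
  have hud : Differentiable ℝ u := hu.differentiable (by simp)
  have h1 := hb r hr (fun z => η z * u z) (hη.mul hu) (fun z hz => by simp [hηr z hz])
    (M + ε' * B) (by
      intro z
      by_cases hz : r < ‖z‖
      · have hz0 : db (fun z => η z * u z) () z = 0 := by
          refine db_zero_of_eventually 0 ?_
          have : IsOpen {y : Unit → ℂ | r < ‖y‖} := isOpen_lt continuous_const continuous_norm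
          filter_upwards [this.mem_nhds hz] with y hy
          simp [hηr y hy]
        rw [hz0, norm_zero]
        positivity
      · rw [not_lt] at hz
        rw [db_mul η u z (hηd z) (hud z)]
        obtain ⟨ha, hb2⟩ := huv z (by simpa using hz)
        have hb2 := hb2 ()
        have e1 : db η () z * u z + η z * db u () z = (db η () z * w z + η z * f z) +
            (db η () z * (u z - w z) + η z * (db u () z - f z)) := by ring
        rw [e1]
        refine (norm_add_le _ _).trans (add_le_add (hM z hz) ?_)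
        refine (norm_add_le _ _).trans ?_
        rw [norm_mul, norm_mul]
        calc ‖db η () z‖ * ‖u z - w z‖ + ‖η z‖ * ‖db u () z - f z‖
            ≤ ‖db η () z‖ * ε' + ‖η z‖ * ε' := by
              gcongr
          _ = ε' * (‖db η () z‖ + ‖η z‖) := by ring
          _ ≤ ε' * B := by
              exact mul_le_mul_of_nonneg_left (hB' z hz) hε'0.le) p
  obtain ⟨ha, -⟩ := huv p (by simpa using hp)
  have h2 : ‖η p * w p‖ ≤ ‖η p * u p‖ + ‖η p‖ * ε' := by
    have e2 : η p * w p = η p * u p - η p * (u p - w p) := by ring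
    rw [e2]
    refine (norm_sub_le _ _).trans ?_
    gcongr
    rw [norm_mul]
    gcongr
  have h3 : ‖η p‖ ≤ B := by
    have := hB' p hp
    linarith [norm_nonneg (db η () p)]
  have h4 : ε' * (C * r * B + B + 1) = ε := by
    rw [hε']; field_simp
  calc ‖η p * w p‖ ≤ C * r * (M + ε' * B) + B * ε' := by
        refine h2.trans (add_le_add h1 ?_)
        exact mul_le_mul_of_nonneg_right h3 hε'0.le
    _ ≤ C * r * M + ε' * (C * r * B + B + 1) := by nlinarith
    _ = _ := by rw [h4]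

/-- the powers of the inverse -/
theorem pow_smooth (m : ℕ) {z : Unit → ℂ} (hz : z ≠ 0) :
    ContDiffAt ℝ ∞ (fun y : Unit → ℂ => (y ())⁻¹ ^ m) z := by
  have h0 : z () ≠ 0 := by
    intro h
    exact hz (funext fun i => by cases i; exact h)
  have h1 : ContDiffAt ℝ ∞ (fun y : Unit → ℂ => y ()) z := contDiffAt_apply ..
  exact (h1.inv h0).pow m

theorem db_pow (m : ℕ) {z : Unit → ℂ} (hz : z ≠ 0) :
    db (fun y : Unit → ℂ => (y ())⁻¹ ^ m) () z = 0 := by
  have h0 : z () ≠ 0 := by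
    intro h
    exact hz (funext fun i => by cases i; exact h)
  have h1 : DifferentiableAt ℂ (fun y : Unit → ℂ => (y ())⁻¹ ^ m) z := by
    have h2 : DifferentiableAt ℂ (fun y : Unit → ℂ => y ()) z := differentiableAt_apply ..
    exact (h2.inv h0).pow m
  unfold db
  have h3 : fderiv ℝ (fun y : Unit → ℂ => (y ())⁻¹ ^ m) z =
      (fderiv ℂ (fun y : Unit → ℂ => (y ())⁻¹ ^ m) z).restrictScalars ℝ :=
    h1.fderiv_restrictScalars ℝ
  have h4 : (Pi.single () Complex.I : Unit → ℂ) = Complex.I • Pi.single () 1 := by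
    rw [← Pi.single_smul, smul_eq_mul, mul_one]
  rw [h3, h4]
  simp only [ContinuousLinearMap.coe_restrictScalars', map_smul, smul_eq_mul]
  rw [← mul_assoc Complex.I, Complex.I_mul_I]
  ring

end UC1Aux

open UC1Aux in
/-- module UC1: one variable -/
theorem uc_disc {N : Type} [Fintype N] (A : ℝ) (hA : 0 ≤ A) : ∃ r₀ > 0, ∀ (R : ℝ), 0 < R →
    ∀ (w f : N → ℂ → ℂ),
    (∀ i, Db (Metric.ball (0 : Unit → ℂ) R) (fun z => w i (z ())) (fun _ z => f i (z ()))) →
    (∀ z, ‖z‖ < R → ∀ i, ‖f i z‖ ≤ A * ∑ j, ‖w j z‖) →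
    (∃ δ > 0, ∀ z, ‖z‖ < δ → ∀ i, w i z = 0) →
    ∀ z, ‖z‖ < r₀ → ‖z‖ < R / 2 → ∀ i, w i z = 0 := by
  classical
  obtain ⟨C, hC, hb⟩ := basic
  set n : ℝ := ((Fintype.card N : ℕ) : ℝ) with hn
  have hn0 : 0 ≤ n := Nat.cast_nonneg _
  refine ⟨1 / (2 * (n * C * A + 1)), by positivity, ?_⟩
  intro R hR w f hdb hbd ⟨δ, hδ, hδw⟩ z0 hz0 hz0R i0
  -- radii
  obtain ⟨r, hr1, hr2⟩ : ∃ r, ‖z0‖ < r ∧ r < min R (1 / (2 * (n * C * A + 1))) :=
    exists_between (lt_min (by linarith [norm_nonneg z0]) hz0)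
  have hrR : r < R := hr2.trans_le (min_le_left _ _)
  have hrr : r < 1 / (2 * (n * C * A + 1)) := hr2.trans_le (min_le_right _ _)
  obtain ⟨a, ha1, ha2⟩ := exists_between hr1
  have ha0 : 0 < a := (norm_nonneg _).trans_lt ha1
  have hr0 : 0 < r := ha0.trans ha2
  have hnc : n * C * A * r ≤ 1 / 2 := by
    have h1 : 0 < 2 * (n * C * A + 1) := by positivity
    have h2 : r * (2 * (n * C * A + 1)) < 1 := by
      rwa [lt_div_iff₀ h1] at hrr
    have h3 : 0 ≤ n * C * A := by positivity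
    nlinarith
  -- bounds for `w` on the closed ball
  have hcpt := isCompact_closedBall (0 : Unit → ℂ) r
  have hwb : ∃ B : ℝ, 0 ≤ B ∧ ∀ z : ℂ, ‖z‖ ≤ r → ∀ i, ‖w i z‖ ≤ B := by
    have h1 : ∀ i, ∃ B : ℝ, ∀ z : ℂ, ‖z‖ ≤ r → ‖w i z‖ ≤ B := by
      intro i
      obtain ⟨u, hu, huv⟩ := hdb i (Metric.closedBall 0 r)
        (Metric.closedBall_subset_ball hrR) hcpt 1 one_pos
      obtain ⟨B, hB⟩ := hcpt.exists_bound_of_continuousOn hu.continuous.continuousOn
      refine ⟨B + 1, fun z hz => ?_⟩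
      have hz' : (fun _ : Unit => z) ∈ Metric.closedBall (0 : Unit → ℂ) r := by
        simpa [pi_norm_const] using hz
      have h2 := hB _ hz'
      have h3 := (huv _ hz').1
      have h4 : w i z = u (fun _ => z) - (u (fun _ => z) - w i z) := by ring
      rw [h4]
      exact (norm_sub_le _ _).trans (add_le_add h2 h3.le)
    choose B hB using h1
    refine ⟨∑ i, |B i|, Finset.sum_nonneg fun i _ => abs_nonneg _, fun z hz i => ?_⟩
    refine (hB i z hz).trans ((le_abs_self _).trans ?_)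
    exact Finset.single_le_sum (f := fun i => |B i|) (fun i _ => abs_nonneg _) (Finset.mem_univ i)
  obtain ⟨B, hB0, hB⟩ := hwb
  -- the cutoff functions
  let χ : ContDiffBump (0 : Unit → ℂ) := ⟨a, r, ha0, ha2⟩
  let χ₀ : ContDiffBump (0 : Unit → ℂ) := ⟨δ / 4, δ / 2, by positivity, by linarith⟩
  have hχ0 : ∀ z : Unit → ℂ, r < ‖z‖ → χ z = 0 := by
    intro z hz
    exact χ.zero_of_le_dist (by simpa using hz.le)
  have hχs : ContDiff ℝ ∞ (fun z => ((χ z : ℝ) : ℂ)) :=
    Complex.ofRealCLM.contDiff.comp χ.contDiff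
  have hχ₀s : ContDiff ℝ ∞ (fun z => ((χ₀ z : ℝ) : ℂ)) :=
    Complex.ofRealCLM.contDiff.comp χ₀.contDiff
  have hdbχ : Continuous (fun z => db (fun z => ((χ z : ℝ) : ℂ)) () z) := by
    unfold db
    have h1 := hχs.continuous_fderiv (by simp)
    fun_prop
  obtain ⟨K, hK⟩ := hcpt.exists_bound_of_continuousOn hdbχ.continuousOn
  have hK0 : 0 ≤ K := (norm_nonneg _).trans (hK 0 (by simp [hr0.le]))
  -- the weighted estimate
  have key : ∀ m : ℕ, ∀ z : ℂ, ‖z‖ < a → ∑ i, ‖w i z‖ * ‖z‖⁻¹ ^ m ≤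
      2 * (n * (C * r * (K * B * a⁻¹ ^ m))) := by
    intro m
    let η : (Unit → ℂ) → ℂ := fun z => ((χ z : ℝ) : ℂ) * ((1 - ((χ₀ z : ℝ) : ℂ)) * (z ())⁻¹ ^ m)
    have hη : ContDiff ℝ ∞ η := by
      rw [contDiff_iff_contDiffAt]
      intro z
      by_cases hz : z = 0
      · have h1 : η =ᶠ[𝓝 z] fun _ => 0 := by
          have h2 : ∀ᶠ y in 𝓝 z, χ₀ y = 1 := by
            rw [hz]; exact χ₀.eventuallyEq_one
          filter_upwards [h2] with y hy
          simp [η, hy]
        exact contDiffAt_const.congr_of_eventuallyEq h1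
      · exact hχs.contDiffAt.mul ((contDiffAt_const.sub hχ₀s.contDiffAt).mul (pow_smooth m hz))
    have hηr : ∀ z, r < ‖z‖ → η z = 0 := by
      intro z hz
      simp [η, hχ0 z hz]
    set g : ℂ → ℝ := fun z => χ (fun _ => z) * (∑ i, ‖w i z‖) * ‖z‖⁻¹ ^ m with hg
    have hχ1 : ∀ z : Unit → ℂ, χ z ≤ 1 := fun z => χ.le_one
    have hχnn : ∀ z : Unit → ℂ, 0 ≤ χ z := fun z => χ.nonneg
    have hgbd : BddAbove (g '' Metric.closedBall 0 r) := by
      refine ⟨n * B * δ⁻¹ ^ m, ?_⟩
      rintro _ ⟨z, hz, rfl⟩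
      rw [Metric.mem_closedBall, dist_zero_right] at hz
      have hsum : ∑ i, ‖w i z‖ ≤ n * B := by
        calc ∑ i, ‖w i z‖ ≤ ∑ i : N, B := Finset.sum_le_sum fun i _ => hB z hz i
          _ = n * B := by simp [hn]
      by_cases hzd : ‖z‖ < δ
      · have : ∑ i, ‖w i z‖ = 0 := Finset.sum_eq_zero fun i _ => by rw [hδw z hzd i, norm_zero]
        simp only [hg, this, mul_zero, zero_mul]
        positivity
      · rw [not_lt] at hzd
        simp only [hg]
        have h1 : ‖z‖⁻¹ ^ m ≤ δ⁻¹ ^ m := by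
          gcongr
        have h2 : 0 ≤ ∑ i, ‖w i z‖ := Finset.sum_nonneg fun i _ => norm_nonneg _
        calc χ (fun _ => z) * (∑ i, ‖w i z‖) * ‖z‖⁻¹ ^ m ≤ 1 * (n * B) * δ⁻¹ ^ m := by
              gcongr
              exact hχ1 _
          _ = _ := by ring
    set S : ℝ := sSup (g '' Metric.closedBall 0 r) with hS
    have hSg : ∀ z : ℂ, ‖z‖ ≤ r → g z ≤ S := fun z hz =>
      le_csSup hgbd ⟨z, by simpa using hz, rfl⟩
    have hS0 : 0 ≤ S := by
      refine le_trans ?_ (hSg 0 (by simp [hr0.le]))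
      simp only [hg]
      have h2 : 0 ≤ ∑ i, ‖w i 0‖ := Finset.sum_nonneg fun i _ => norm_nonneg _
      have := hχnn (fun _ => 0)
      positivity
    -- the bound for the data
    have hMb : ∀ i, ∀ z : Unit → ℂ, ‖z‖ ≤ r →
        ‖db η () z * w i (z ()) + η z * f i (z ())‖ ≤ K * B * a⁻¹ ^ m + A * S := by
      intro i z hz
      have hznorm : ‖z ()‖ = ‖z‖ := by
        have : z = fun _ => z () := by funext x; cases x; rfl
        conv_rhs => rw [this]
        exact (pi_norm_const _).symm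
      by_cases hzd : ‖z‖ < δ
      · have h1 : ∀ j, w j (z ()) = 0 := fun j => hδw _ (by rw [hznorm]; exact hzd) j
        have h2 : f i (z ()) = 0 := by
          have := hbd (z ()) (by rw [hznorm]; linarith) i
          simp only [h1, norm_zero, Finset.sum_const_zero, mul_zero] at this
          exact norm_le_zero_iff.1 this
        rw [h1 i, h2, mul_zero, mul_zero, add_zero, norm_zero]
        positivity
      · rw [not_lt] at hzd
        have hzne : z ≠ 0 := by
          rintro rfl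
          rw [norm_zero] at hzd
          linarith
        have hznn : 0 < ‖z‖ := norm_pos_iff.2 hzne
        have hloc : ∀ᶠ y in 𝓝 z, η y = ((χ y : ℝ) : ℂ) * (y ())⁻¹ ^ m := by
          have ho : IsOpen {y : Unit → ℂ | δ / 2 < ‖y‖} := isOpen_lt continuous_const continuous_norm
          filter_upwards [ho.mem_nhds (show δ / 2 < ‖z‖ by linarith)] with y hy
          have : χ₀ y = 0 := χ₀.zero_of_le_dist (by
            rw [dist_zero_right]; exact (le_of_lt hy))
          simp [η, this]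
        have hηz : η z = ((χ z : ℝ) : ℂ) * (z ())⁻¹ ^ m := hloc.self_of_nhds
        have hdbη : db η () z = db (fun z => ((χ z : ℝ) : ℂ)) () z * (z ())⁻¹ ^ m := by
          rw [db_congr hloc, db_mul (fun y => ((χ y : ℝ) : ℂ)) (fun y => (y ())⁻¹ ^ m) z
            (hχs.differentiable (by simp) z) ((pow_smooth m hzne).differentiableAt (by simp)),
            db_pow m hzne, mul_zero, add_zero]
        rw [hdbη, hηz]
        refine (norm_add_le _ _).trans (add_le_add ?_ ?_)
        · rw [norm_mul, norm_mul, norm_pow, norm_inv, hznorm]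
          by_cases hza : ‖z‖ < a
          · have h0 : db (fun z => ((χ z : ℝ) : ℂ)) () z = 0 := by
              refine db_zero_of_eventually 1 ?_
              have ho : IsOpen {y : Unit → ℂ | ‖y‖ < a} := isOpen_lt continuous_norm continuous_const
              filter_upwards [ho.mem_nhds hza] with y hy
              have : χ y = 1 := χ.one_of_mem_closedBall (by
                rw [Metric.mem_closedBall, dist_zero_right]; exact (le_of_lt hy))
              simp [this]
            rw [h0, norm_zero, zero_mul, zero_mul]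
            positivity
          · rw [not_lt] at hza
            have h1 := hK z (by simpa using hz)
            have h2 := hB (z ()) (by rw [hznorm]; exact hz) i
            calc ‖db (fun z => ((χ z : ℝ) : ℂ)) () z‖ * ‖z‖⁻¹ ^ m * ‖w i (z ())‖
                ≤ K * a⁻¹ ^ m * B := by gcongr
              _ = K * B * a⁻¹ ^ m := by ring
        · rw [norm_mul, norm_mul, norm_pow, norm_inv, hznorm, Complex.norm_real,
            Real.norm_eq_abs, abs_of_nonneg (hχnn z)]
          have h1 := hbd (z ()) (by rw [hznorm]; linarith) i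
          have h2 := hSg (z ()) (by rw [hznorm]; exact hz)
          have h3 : g (z ()) = χ z * (∑ i, ‖w i (z ())‖) * ‖z‖⁻¹ ^ m := by
            simp only [hg]
            rw [hznorm]
          rw [h3] at h2
          calc χ z * ‖z‖⁻¹ ^ m * ‖f i (z ())‖ ≤ χ z * ‖z‖⁻¹ ^ m * (A * ∑ j, ‖w j (z ())‖) := by
                exact mul_le_mul_of_nonneg_left h1 (mul_nonneg (hχnn z) (by positivity))
            _ = A * (χ z * (∑ i, ‖w i (z ())‖) * ‖z‖⁻¹ ^ m) := by ring
            _ ≤ A * S := by gcongr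
    -- the estimate for each component
    have hcomp : ∀ i, ∀ z : ℂ, ‖z‖ ≤ r → χ (fun _ => z) * ‖w i z‖ * ‖z‖⁻¹ ^ m ≤
        C * r * (K * B * a⁻¹ ^ m + A * S) := by
      intro i z hz
      have h1 := basic_db hC hb (hdb i) hr0 hrR hη hηr (hMb i) (fun _ => z)
      by_cases hzd : ‖z‖ < δ
      · rw [hδw z hzd i, norm_zero, mul_zero, zero_mul]
        positivity
      · rw [not_lt] at hzd
        refine le_trans (le_of_eq ?_) h1
        have : χ₀ (fun _ : Unit => z) = 0 := χ₀.zero_of_le_dist (by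
            rw [dist_zero_right, pi_norm_const]
            show δ / 2 ≤ ‖z‖
            linarith)
        simp only [η, this, norm_mul, Complex.norm_real, Real.norm_eq_abs,
          abs_of_nonneg (hχnn _), Complex.ofReal_zero, sub_zero, norm_one, one_mul, norm_pow,
          norm_inv]
        ring
    have hgle : ∀ z : ℂ, ‖z‖ ≤ r → g z ≤ n * (C * r * (K * B * a⁻¹ ^ m + A * S)) := by
      intro z hz
      calc g z = ∑ i, χ (fun _ => z) * ‖w i z‖ * ‖z‖⁻¹ ^ m := by
            simp only [hg]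
            rw [Finset.mul_sum, Finset.sum_mul]
        _ ≤ ∑ i : N, C * r * (K * B * a⁻¹ ^ m + A * S) := Finset.sum_le_sum fun i _ => hcomp i z hz
        _ = _ := by simp [hn]
    have hSle : S ≤ n * (C * r * (K * B * a⁻¹ ^ m + A * S)) := by
      refine csSup_le ⟨g 0, ⟨0, by simp [hr0.le], rfl⟩⟩ ?_
      rintro _ ⟨z, hz, rfl⟩
      exact hgle z (by simpa using hz)
    have hS2 : S ≤ 2 * (n * (C * r * (K * B * a⁻¹ ^ m))) := by
      have : n * (C * r * (K * B * a⁻¹ ^ m + A * S)) =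
          n * (C * r * (K * B * a⁻¹ ^ m)) + (n * C * A * r) * S := by ring
      rw [this] at hSle
      nlinarith
    intro z hz
    refine le_trans ?_ ((hSg z (hz.le.trans ha2.le)).trans hS2)
    simp only [hg]
    have : χ (fun _ : Unit => z) = 1 := χ.one_of_mem_closedBall (by
      rw [Metric.mem_closedBall, dist_zero_right, pi_norm_const]; exact hz.le)
    rw [this, one_mul, Finset.sum_mul]
  -- conclusion
  by_cases hz00 : z0 = 0
  · rw [hz00]; exact hδw 0 (by simpa using hδ) i0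
  have hz0p : 0 < ‖z0‖ := norm_pos_iff.2 hz00
  have hlim : ∀ m : ℕ, ‖w i0 z0‖ ≤ 2 * (n * (C * r * (K * B))) * (‖z0‖ / a) ^ m := by
    intro m
    have h1 := key m z0 ha1
    have h2 : ‖w i0 z0‖ * ‖z0‖⁻¹ ^ m ≤ ∑ i, ‖w i z0‖ * ‖z0‖⁻¹ ^ m :=
      Finset.single_le_sum (f := fun i => ‖w i z0‖ * ‖z0‖⁻¹ ^ m)
        (fun i _ => by positivity) (Finset.mem_univ i0)
    have h3 := h2.trans h1
    have h4 : ‖w i0 z0‖ = (‖w i0 z0‖ * ‖z0‖⁻¹ ^ m) * ‖z0‖ ^ m := by
      rw [mul_assoc, ← mul_pow, inv_mul_cancel₀ hz0p.ne', one_pow, mul_one]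
    rw [h4]
    calc (‖w i0 z0‖ * ‖z0‖⁻¹ ^ m) * ‖z0‖ ^ m ≤
        2 * (n * (C * r * (K * B * a⁻¹ ^ m))) * ‖z0‖ ^ m := by gcongr
      _ = _ := by rw [div_eq_mul_inv, mul_pow]; ring
  have htend : Tendsto (fun m : ℕ => 2 * (n * (C * r * (K * B))) * (‖z0‖ / a) ^ m) atTop (𝓝 0) := by
    have h1 : Tendsto (fun m : ℕ => (‖z0‖ / a) ^ m) atTop (𝓝 0) :=
      tendsto_pow_atTop_nhds_zero_of_lt_one (by positivity) ((div_lt_one ha0).2 ha1)
    simpa using h1.const_mul (2 * (n * (C * r * (K * B))))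
  have hle : ‖w i0 z0‖ ≤ 0 := ge_of_tendsto' htend hlim
  exact norm_le_zero_iff.1 hle

end Pool.Agent.MPd01a95
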