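import Mathlib
import Pool.Agent.Lib.MP_d01a95_gt_H.HDefs
import Pool.Agent.Lib.MP_d01a95_gt_H.Unimod
import Pool.Agent.Lib.MP_d01a95_gt_H.DB4
import Pool.Agent.Lib.MP_d01a95_gt_H.UC1
set_option autoImplicit false
set_option linter.all false
open Matrix Filter Topology MeasureTheory Measure
open scoped ENNReal NNReal ContDiff
namespace Pool.Agent.MPd01a95
open GU
variable {κ n ι α : Type} [Fintype κ] [DecidableEq κ] [Fintype n] [DecidableEq n] [Fintype ι] [DecidableEq ι] [Fintype α] [DecidableEq α] {G : Type} [Group G]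

namespace UC2Aux

theorem isOpen_Bl : IsOpen (HolAux.Bl κ) := by
  have : Continuous fun z : κ → ℂ => ∑ i, ‖z i‖ ^ 2 := by fun_prop
  exact isOpen_lt this continuous_const

theorem preconnected_Bl : IsPreconnected (HolAux.Bl κ) := by
  refine Convex.isPreconnected ?_
  intro x hx y hy a b ha hb hab
  simp only [HolAux.Bl, Set.mem_setOf_eq] at hx hy ⊢
  have h1 : ∀ i, ‖(a • x + b • y) i‖ ^ 2 ≤ a * ‖x i‖ ^ 2 + b * ‖y i‖ ^ 2 := by
    intro i
    have h2 : ‖(a • x + b • y) i‖ ≤ a * ‖x i‖ + b * ‖y i‖ := by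
      simp only [Pi.add_apply, Pi.smul_apply]
      refine (norm_add_le _ _).trans ?_
      rw [norm_smul, norm_smul, Real.norm_eq_abs, Real.norm_eq_abs, abs_of_nonneg ha,
        abs_of_nonneg hb]
    have h3 : (a * ‖x i‖ + b * ‖y i‖) ^ 2 ≤ a * ‖x i‖ ^ 2 + b * ‖y i‖ ^ 2 := by
      have hb' : b = 1 - a := by linarith
      subst hb'
      nlinarith [mul_nonneg (mul_nonneg ha hb) (sq_nonneg (‖x i‖ - ‖y i‖))]
    refine le_trans ?_ h3
    gcongr
  calc ∑ i, ‖(a • x + b • y) i‖ ^ 2 ≤ ∑ i, (a * ‖x i‖ ^ 2 + b * ‖y i‖ ^ 2) :=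
        Finset.sum_le_sum fun i _ => h1 i
    _ = a * ∑ i, ‖x i‖ ^ 2 + b * ∑ i, ‖y i‖ ^ 2 := by
        rw [Finset.sum_add_distrib, Finset.mul_sum, Finset.mul_sum]
    _ < 1 := by
        rcases ha.eq_or_lt with h | h
        · have hb1 : b = 1 := by linarith
          subst hb1
          rw [← h]
          linarith
        · nlinarith

end UC2Aux

open UC2Aux in
/-- module UC2 -/
theorem unique_cont {N : Type} [Fintype N] (w : N → (κ → ℂ) → ℂ) (f : N → κ → (κ → ℂ) → ℂ)
    (hw : ∀ i, Db (HolAux.Bl κ) (w i) (f i))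
    (hbd : ∀ C ⊆ HolAux.Bl κ, IsCompact C → ∃ A : ℝ, ∀ z ∈ C, ∀ i c,
      ‖f i c z‖ ≤ A * ∑ j, ‖w j z‖)
    (U : Set (κ → ℂ)) (hU : IsOpen U) (hU2 : (U ∩ HolAux.Bl κ).Nonempty)
    (hz : ∀ z ∈ U ∩ HolAux.Bl κ, ∀ i, w i z = 0) : ∀ z ∈ HolAux.Bl κ, ∀ i, w i z = 0 := by
  set Z : Set (κ → ℂ) := interior {z | z ∈ HolAux.Bl κ ∧ ∀ i, w i z = 0} with hZ
  have hsub : HolAux.Bl κ ⊆ Z := by
    refine preconnected_Bl.subset_of_closure_inter_subset isOpen_interior ?_ ?_
    · obtain ⟨z, hzU, hzB⟩ := hU2
      refine ⟨z, hzB, ?_⟩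
      rw [hZ, mem_interior_iff_mem_nhds]
      filter_upwards [(hU.inter isOpen_Bl).mem_nhds ⟨hzU, hzB⟩] with y hy
      exact ⟨hy.2, hz y hy⟩
    · rintro zs ⟨hzs, hzsB⟩
      obtain ⟨s3, hs3, hs3B⟩ := Metric.nhds_basis_closedBall.mem_iff.1 (isOpen_Bl.mem_nhds hzsB)
      set s := s3 / 3 with hs
      have hs0 : 0 < s := by positivity
      obtain ⟨A, hA⟩ := hbd _ hs3B (isCompact_closedBall zs s3)
      set A' : ℝ := max A 0 with hA'
      have hA'0 : 0 ≤ A' := le_max_right _ _
      have hA2 : ∀ z ∈ Metric.closedBall zs s3, ∀ i c, ‖f i c z‖ ≤ A' * ∑ j, ‖w j z‖ := by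
        intro z hz i c
        refine (hA z hz i c).trans ?_
        exact mul_le_mul_of_nonneg_right (le_max_left _ _)
          (Finset.sum_nonneg fun _ _ => norm_nonneg _)
      obtain ⟨r₀, hr₀, huc⟩ := uc_disc (N := N) (((Fintype.card κ : ℕ) : ℝ) * A') (by positivity)
      set r : ℝ := min r₀ s / 2 with hr
      have hr0 : 0 < r := by
        have := lt_min hr₀ hs0
        positivity
      have hrr₀ : r < r₀ := by
        have := min_le_left r₀ s
        rw [hr]; linarith [lt_min hr₀ hs0]
      have hrs : r ≤ s / 2 := by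
        have := min_le_right r₀ s
        rw [hr]; linarith
      obtain ⟨z', hz'Z, hz'd⟩ := Metric.mem_closure_iff.1 hzs (r / 2) (by positivity)
      have hz'Z0 : Z ∈ 𝓝 z' := isOpen_interior.mem_nhds hz'Z
      obtain ⟨δ, hδ, hδZ⟩ := Metric.mem_nhds_iff.1 hz'Z0
      rw [hZ, mem_interior_iff_mem_nhds]
      filter_upwards [Metric.ball_mem_nhds zs (half_pos hr0)] with z hzb
      rw [Metric.mem_ball] at hzb
      have hzB : z ∈ HolAux.Bl κ := hs3B (by
        rw [Metric.mem_closedBall]
        have : s3 = 3 * s := by rw [hs]; ring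
        linarith)
      refine ⟨hzB, ?_⟩
      have hzz' : dist z z' < r := by
        calc dist z z' ≤ dist z zs + dist zs z' := dist_triangle _ _ _
          _ < r / 2 + r / 2 := by linarith
          _ = r := by ring
      rcases eq_or_ne z z' with h | hne
      · rw [h]
        have := interior_subset hz'Z
        exact this.2
      have hd0 : 0 < ‖z - z'‖ := norm_pos_iff.2 (sub_ne_zero.2 hne)
      set e : κ → ℂ := ((‖z - z'‖⁻¹ : ℝ) : ℂ) • (z - z') with he
      have hen : ‖e‖ = 1 := by
        rw [he, norm_smul, Complex.norm_real, norm_inv, norm_norm, inv_mul_cancel₀ hd0.ne']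
      let L : (Unit → ℂ) →L[ℂ] (κ → ℂ) :=
        (ContinuousLinearMap.proj (R := ℂ) (φ := fun _ : Unit => ℂ) ()).smulRight e
      have hL : ∀ t : Unit → ℂ, L t = t () • e := fun t => rfl
      have hmem : ∀ t : ℂ, ‖t‖ < s → z' + t • e ∈ Metric.closedBall zs s3 := by
        intro t ht
        rw [Metric.mem_closedBall]
        calc dist (z' + t • e) zs ≤ dist (z' + t • e) z' + dist z' zs := dist_triangle _ _ _
          _ ≤ s + r / 2 := by
              rw [dist_eq_norm, add_sub_cancel_left, norm_smul, hen, mul_one, dist_comm z' zs]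
              exact add_le_add ht.le hz'd.le
          _ ≤ s3 := by
              have : s3 = 3 * s := by rw [hs]; ring
              linarith
      have hconc := huc s hs0 (fun i t => w i (z' + t • e))
        (fun i t => ∑ a, star (e a) * f i a (z' + t • e))
        (by
          intro i
          have h1 := (hw i).affine L z' (Ω' := Metric.ball (0 : Unit → ℂ) s) (by
            intro t ht
            rw [hL]
            refine hs3B (hmem _ ?_)
            rw [Metric.mem_ball, dist_zero_right] at ht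
            exact (norm_le_pi_norm t ()).trans_lt ht)
          have h2 : (fun (c : Unit) (z : Unit → ℂ) =>
              ∑ a, star (L (Pi.single c 1) a) * f i a (z' + L z)) =
              fun _ z => ∑ a, star (e a) * f i a (z' + z () • e) := by
            funext c z
            refine Finset.sum_congr rfl fun a _ => ?_
            rw [hL, hL]
            simp
          rw [h2] at h1
          exact h1)
        (by
          intro t ht i
          refine (norm_sum_le _ _).trans ?_
          calc ∑ a, ‖star (e a) * f i a (z' + t • e)‖ ≤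
              ∑ a : κ, A' * ∑ j, ‖w j (z' + t • e)‖ := by
                refine Finset.sum_le_sum fun a _ => ?_
                rw [norm_mul, norm_star]
                have h1 : ‖e a‖ ≤ 1 := hen ▸ norm_le_pi_norm e a
                have h2 := hA2 _ (hmem t ht) i a
                calc ‖e a‖ * ‖f i a (z' + t • e)‖ ≤ 1 * ‖f i a (z' + t • e)‖ := by gcongr
                  _ ≤ _ := by rw [one_mul]; exact h2
            _ = _ := by simp; ring)
        ⟨δ, hδ, by
          intro t ht i
          have h1 : z' + t • e ∈ Z := hδZ (by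
            rw [Metric.mem_ball, dist_eq_norm, add_sub_cancel_left, norm_smul, hen, mul_one]
            exact ht)
          exact (interior_subset h1).2 i⟩
      intro i
      have h1 := hconc ((‖z - z'‖ : ℝ) : ℂ) (by
        rw [Complex.norm_real, norm_norm, ← dist_eq_norm]; linarith) (by
        rw [Complex.norm_real, norm_norm, ← dist_eq_norm]; linarith) i
      have h2 : z' + ((‖z - z'‖ : ℝ) : ℂ) • e = z := by
        rw [he, smul_smul, ← Complex.ofReal_mul, mul_inv_cancel₀ hd0.ne', Complex.ofReal_one,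
          one_smul]
        abel
      simp only [h2] at h1
      exact h1
  intro z hz i
  exact (interior_subset (hsub hz)).2 i

end Pool.Agent.MPd01a95
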