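import Mathlib
import Pool.Agent.Lib.MP_d01a95_gt_H.HDefs
import Pool.Agent.Lib.MP_d01a95_gt_H.Unimod
import Pool.Agent.Lib.MP_d01a95_gt_H.Static
import Pool.Agent.Lib.MP_d01a95_gt_H.DB3
import Pool.Agent.Lib.MP_d01a95_gt_H.DB4
import Pool.Agent.Lib.MP_d01a95_gt_H.UC2
import Pool.Agent.Lib.MP_d01a95_gt_H.Point
import Pool.Agent.Lib.MP_d01a95_gt_H.Phi
import Pool.Agent.Lib.MP_d01a95_gt_H.Par

set_option autoImplicit false
set_option linter.all false

open Matrix Filter Topology MeasureTheory Measure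
open scoped ENNReal NNReal ContDiff

namespace Pool.Agent.MPd01a95

open GU

variable {κ n ι α : Type} [Fintype κ] [DecidableEq κ] [Fintype n] [DecidableEq n]
  [Fintype ι] [DecidableEq ι] [Fintype α] [DecidableEq α] {G : Type} [Group G]

namespace PropAux

theorem Db_zero {Ω : Set (α → ℂ)} : Db Ω (fun _ => 0) (fun _ _ => 0) := by
  intro C hC hCc ε hε
  refine ⟨fun _ => 0, contDiff_const, fun v hv => ⟨?_, fun c => ?_⟩⟩
  · simpa using hε
  · have h : db (fun _ : α → ℂ => (0 : ℂ)) c v = 0 := by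
      unfold db
      simp
    rw [h]
    simpa using hε

theorem Db_sum {Ω : Set (α → ℂ)} {β : Type} (S : Finset β) {w : β → (α → ℂ) → ℂ}
    {f : β → α → (α → ℂ) → ℂ} (h : ∀ j, Db Ω (w j) (f j)) :
    Db Ω (fun v => ∑ j ∈ S, w j v) (fun c v => ∑ j ∈ S, f j c v) := by
  classical
  induction S using Finset.induction_on with
  | empty => simpa using Db_zero
  | insert a S ha ih =>
    refine Db.congr (Db.add (h a) ih) ?_ ?_
    · intro v _
      rw [Finset.sum_insert ha]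
    · intro c v _
      rw [Finset.sum_insert ha]

theorem isOpen_Bl : IsOpen (HolAux.Bl κ) := by
  have hc : Continuous (fun z : κ → ℂ => ∑ i, ‖z i‖ ^ 2) := by fun_prop
  exact hc.isOpen_preimage _ isOpen_Iio

section

variable {h : (κ → ℂ) → Matrix (ι ⊕ Fin 2) (ι ⊕ Fin 2) ℝ} (hh : PHB (J ι) h)

include hh

theorem cont_ph (u : κ → ℂ) (i j : ι ⊕ Fin 2) :
    ContinuousOn (fun z => ph h u z i j) (HolAux.Bl κ) := by
  rcases isEmpty_or_nonempty κ with hκ | hκ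
  · exact (Set.subsingleton_of_subsingleton).continuousOn _
  · by_cases hne : (HolAux.Bl κ).Nonempty
    · obtain ⟨z, hz⟩ := hne
      have h1 := (phi_deriv hh hz u).2.2.2
      exact (continuous_apply_apply i j).comp_continuousOn h1
    · rw [Set.not_nonempty_iff_eq_empty.1 hne]
      exact continuousOn_empty _

theorem cont_phb (u : κ → ℂ) (i j : ι ⊕ Fin 2) :
    ContinuousOn (fun z => phb h u z i j) (HolAux.Bl κ) := by
  have h1 : ContinuousOn (fun z => star (ph h u z i j)) (HolAux.Bl κ) :=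
    continuous_star.comp_continuousOn (cont_ph hh u i j)
  refine h1.congr fun z hz => ?_
  simp only [phi_conj hh hz u, Matrix.map_apply]

theorem cont_w {ε : ℝ} (hε : ε ^ 2 = 1) (u : κ → ℂ) (i : ι ⊕ Fin 2) :
    ContinuousOn (fun z => (ph h u z *ᵥ sl ε (h z)) i) (HolAux.Bl κ) := by
  simp only [Matrix.mulVec, dotProduct]
  exact continuousOn_finset_sum _ fun j _ =>
    (cont_ph hh u i j).mul (sl_C1 hh hε j).continuousOn

theorem indep_near {z₀ : κ → ℂ} (hz₀ : z₀ ∈ HolAux.Bl κ)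
    (hinj : ∀ ξ : κ → ℂ, ∑ a, ξ a • ph h (Pi.single a 1) z₀ = 0 → ξ = 0) :
    ∃ V : Set (κ → ℂ), IsOpen V ∧ z₀ ∈ V ∧ V ⊆ HolAux.Bl κ ∧ ∀ z ∈ V, ∀ ξ : κ → ℂ,
      ∑ a, ξ a • ph h (Pi.single a 1) z = 0 → ξ = 0 := by
  have key : ∀ z : κ → ℂ, (LinearIndependent ℂ
      (fun (a : κ) (i j : ι ⊕ Fin 2) => ph h (Pi.single a 1) z i j)) ↔
      ∀ ξ : κ → ℂ, ∑ a, ξ a • ph h (Pi.single a 1) z = 0 → ξ = 0 := by
    intro z
    rw [Fintype.linearIndependent_iff]
    have e : ∀ ξ : κ → ℂ, (∑ a, ξ a • (fun (i j : ι ⊕ Fin 2) => ph h (Pi.single a 1) z i j) = 0) ↔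
        ∑ a, ξ a • ph h (Pi.single a 1) z = 0 := by
      intro ξ
      constructor
      · intro H
        ext i j
        have := congrFun (congrFun H i) j
        simp only [Finset.sum_apply, Pi.smul_apply, Pi.zero_apply] at this
        simpa [Matrix.sum_apply] using this
      · intro H
        funext i j
        have := congrFun (congrFun H i) j
        simp only [Finset.sum_apply, Pi.smul_apply, Pi.zero_apply]
        simpa [Matrix.sum_apply] using this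
    constructor
    · intro H ξ hξ
      funext a
      exact H ξ ((e ξ).2 hξ) a
    · intro H ξ hξ a
      exact congrFun (H ξ ((e ξ).1 hξ)) a
  have hlin := (key z₀).2 hinj
  have hev := hlin.eventually
  have hcont : ContinuousAt (fun (z : κ → ℂ) (a : κ) (i j : ι ⊕ Fin 2) =>
      ph h (Pi.single a 1) z i j) z₀ := by
    rw [continuousAt_pi]
    intro a
    rw [continuousAt_pi]
    intro i
    rw [continuousAt_pi]
    intro j
    exact (cont_ph hh _ i j).continuousAt (isOpen_Bl.mem_nhds hz₀)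
  have h2 := hcont.eventually hev
  have h3 := h2.and (isOpen_Bl.mem_nhds hz₀)
  obtain ⟨V, hV, hVo, hzV⟩ := mem_nhds_iff.1 h3
  exact ⟨V, hVo, hzV, fun z hz => (hV hz).2, fun z hz => (key z).1 (hV hz).1⟩

/-- the sections `w` -/
theorem w_Db {ε : ℝ} (hε : ε ^ 2 = 1) {m : κ → (κ → ℂ) → ℂ}
    (hm : ∀ c, ∀ z ∈ HolAux.Bl κ, ∀ i, db (fun z => sl ε (h z) i) c z +
        (phb h (Pi.single c 1) z *ᵥ sl ε (h z)) i = m c z * sl ε (h z) i)
    (a : κ) (i : ι ⊕ Fin 2) :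
    Db (HolAux.Bl κ) (fun z => (ph h (Pi.single a 1) z *ᵥ sl ε (h z)) i)
      (fun c z => m c z * (ph h (Pi.single a 1) z *ᵥ sl ε (h z)) i -
        ∑ j, phb h (Pi.single c 1) z i j * (ph h (Pi.single a 1) z *ᵥ sl ε (h z)) j) := by
  have h1 := Db_sum Finset.univ (fun j => Db.mul isOpen_Bl (hh.dbar a i j)
    (db_of_C1 isOpen_Bl (sl_C1 hh hε j)))
  refine Db.congr h1 ?_ ?_
  · intro z _
    simp only [Matrix.mulVec, dotProduct]
  · intro c z hz
    have h2 : ∀ j, db (fun z => sl ε (h z) j) c z = m c z * sl ε (h z) j -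
        (phb h (Pi.single c 1) z *ᵥ sl ε (h z)) j := by
      intro j
      rw [← hm c z hz j]; ring
    simp only [h2]
    have e1 : ∑ j, (cm (ph h (Pi.single a 1) z) (phb h (Pi.single c 1) z) i j * sl ε (h z) j +
        ph h (Pi.single a 1) z i j * (m c z * sl ε (h z) j -
          (phb h (Pi.single c 1) z *ᵥ sl ε (h z)) j)) =
        (cm (ph h (Pi.single a 1) z) (phb h (Pi.single c 1) z) *ᵥ sl ε (h z)) i +
        m c z * (ph h (Pi.single a 1) z *ᵥ sl ε (h z)) i -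
        (ph h (Pi.single a 1) z *ᵥ (phb h (Pi.single c 1) z *ᵥ sl ε (h z))) i := by
      rw [show (ph h (Pi.single a 1) z *ᵥ (phb h (Pi.single c 1) z *ᵥ sl ε (h z))) i =
        ∑ j, ph h (Pi.single a 1) z i j * (phb h (Pi.single c 1) z *ᵥ sl ε (h z)) j from rfl,
        show (cm (ph h (Pi.single a 1) z) (phb h (Pi.single c 1) z) *ᵥ sl ε (h z)) i =
        ∑ j, cm (ph h (Pi.single a 1) z) (phb h (Pi.single c 1) z) i j * sl ε (h z) j from rfl,
        show (ph h (Pi.single a 1) z *ᵥ sl ε (h z)) i =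
        ∑ j, ph h (Pi.single a 1) z i j * sl ε (h z) j from rfl,
        Finset.mul_sum, ← Finset.sum_add_distrib, ← Finset.sum_sub_distrib]
      exact Finset.sum_congr rfl fun j _ => by ring
    rw [e1]
    have e2 : ∑ j, phb h (Pi.single c 1) z i j * (ph h (Pi.single a 1) z *ᵥ sl ε (h z)) j =
      (phb h (Pi.single c 1) z *ᵥ (ph h (Pi.single a 1) z *ᵥ sl ε (h z))) i := rfl
    rw [e2]
    unfold cm
    rw [Matrix.sub_mulVec, Pi.sub_apply, Matrix.mulVec_mulVec, Matrix.mulVec_mulVec]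
    ring

end

end PropAux

open PropAux

section phi

variable {h : (κ → ℂ) → Matrix (ι ⊕ Fin 2) (ι ⊕ Fin 2) ℝ} (hh : PHB (J ι) h)

include hh

namespace PropAux

theorem spread {ε : ℝ} (hε : ε ^ 2 = 1) {U : Set (κ → ℂ)} (hU : IsOpen U)
    (hU2 : (U ∩ HolAux.Bl κ).Nonempty)
    (h0 : ∀ z ∈ U ∩ HolAux.Bl κ, ∀ a, ph h (Pi.single a 1) z *ᵥ sl ε (h z) = 0) :
    ∀ z ∈ HolAux.Bl κ, ∀ a, ph h (Pi.single a 1) z *ᵥ sl ε (h z) = 0 := by
  obtain ⟨m, hmc, hm⟩ := sl_par hh hε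
  have huc := unique_cont (N := κ × (ι ⊕ Fin 2))
    (fun p z => (ph h (Pi.single p.1 1) z *ᵥ sl ε (h z)) p.2)
    (fun p c z => m c z * (ph h (Pi.single p.1 1) z *ᵥ sl ε (h z)) p.2 -
        ∑ j, phb h (Pi.single c 1) z p.2 j * (ph h (Pi.single p.1 1) z *ᵥ sl ε (h z)) j)
    (fun p => w_Db hh hε hm p.1 p.2) ?_ U hU hU2 (fun z hz p => by rw [h0 z hz p.1]; rfl)
  · intro z hz a
    funext i
    exact huc z hz (a, i)
  · intro C hC hCc
    -- bounds on the compact set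
    have hb1 : ∀ c : κ, ∃ A : ℝ, ∀ z ∈ C, ‖m c z‖ ≤ A := fun c =>
      hCc.exists_bound_of_continuousOn ((hmc c).mono hC)
    have hb2 : ∀ (c : κ) (i j : ι ⊕ Fin 2), ∃ A : ℝ, ∀ z ∈ C,
        ‖phb h (Pi.single c 1) z i j‖ ≤ A := fun c i j =>
      hCc.exists_bound_of_continuousOn ((cont_phb hh _ i j).mono hC)
    choose A1 hA1 using hb1
    choose A2 hA2 using hb2
    refine ⟨∑ c, |A1 c| + ∑ c, ∑ i, ∑ j, |A2 c i j|, fun z hz p c => ?_⟩
    have hnn : ∀ q : κ × (ι ⊕ Fin 2), 0 ≤ ‖(ph h (Pi.single q.1 1) z *ᵥ sl ε (h z)) q.2‖ :=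
      fun q => norm_nonneg _
    have hS : ∀ q : κ × (ι ⊕ Fin 2), ‖(ph h (Pi.single q.1 1) z *ᵥ sl ε (h z)) q.2‖ ≤
        ∑ q : κ × (ι ⊕ Fin 2), ‖(ph h (Pi.single q.1 1) z *ᵥ sl ε (h z)) q.2‖ := fun q =>
      Finset.single_le_sum (f := fun q : κ × (ι ⊕ Fin 2) =>
        ‖(ph h (Pi.single q.1 1) z *ᵥ sl ε (h z)) q.2‖) (fun q _ => hnn q) (Finset.mem_univ q)
    generalize hSd : ∑ q : κ × (ι ⊕ Fin 2),
      ‖(ph h (Pi.single q.1 1) z *ᵥ sl ε (h z)) q.2‖ = S at *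
    have hS0 : 0 ≤ S := by rw [← hSd]; exact Finset.sum_nonneg fun q _ => hnn q
    have h1 : ‖m c z * (ph h (Pi.single p.1 1) z *ᵥ sl ε (h z)) p.2‖ ≤ (∑ c, |A1 c|) * S := by
      rw [norm_mul]
      refine mul_le_mul ?_ (hS p) (hnn p) (Finset.sum_nonneg fun c _ => abs_nonneg _)
      exact ((hA1 c z hz).trans (le_abs_self _)).trans
        (Finset.single_le_sum (f := fun c => |A1 c|) (fun c _ => abs_nonneg _) (Finset.mem_univ c))
    have h2 : ‖∑ j, phb h (Pi.single c 1) z p.2 j * (ph h (Pi.single p.1 1) z *ᵥ sl ε (h z)) j‖ ≤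
        (∑ c, ∑ i, ∑ j, |A2 c i j|) * S := by
      have h3 : ∑ j, |A2 c p.2 j| ≤ ∑ c, ∑ i, ∑ j, |A2 c i j| := by
        refine le_trans ?_ (Finset.single_le_sum (f := fun c => ∑ i, ∑ j, |A2 c i j|)
          (fun c _ => Finset.sum_nonneg fun i _ => Finset.sum_nonneg fun j _ => abs_nonneg _)
          (Finset.mem_univ c))
        exact Finset.single_le_sum (f := fun i => ∑ j, |A2 c i j|)
          (fun i _ => Finset.sum_nonneg fun j _ => abs_nonneg _) (Finset.mem_univ p.2)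
      refine le_trans ?_ (mul_le_mul_of_nonneg_right h3 hS0)
      rw [Finset.sum_mul]
      refine (norm_sum_le _ _).trans (Finset.sum_le_sum fun j _ => ?_)
      rw [norm_mul]
      exact mul_le_mul ((hA2 c p.2 j z hz).trans (le_abs_self _)) (hS (p.1, j)) (hnn (p.1, j))
        (abs_nonneg _)
    refine (norm_sub_le _ _).trans ?_
    rw [add_mul]
    exact add_le_add h1 h2

end PropAux

/-- module PROP -/
theorem propagate (hκ : 3 ≤ Fintype.card κ)
    (hinj : ∃ z₀ ∈ HolAux.Bl κ, ∀ ξ : κ → ℂ, ∑ a, ξ a • ph h (Pi.single a 1) z₀ = 0 → ξ = 0) :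
    ∃ ε : ℝ, ε ^ 2 = 1 ∧ ∀ z ∈ HolAux.Bl κ, ∀ a,
      ph h (Pi.single a 1) z *ᵥ sl (-ε) (h z) = 0 := by
  obtain ⟨z₀, hz₀, hi⟩ := hinj
  obtain ⟨V, hVo, hzV, hVB, hV⟩ := indep_near hh hz₀ hi
  have hcase : ∀ z ∈ V, (∀ a, ph h (Pi.single a 1) z *ᵥ sl 1 (h z) = 0) ∨
      ∀ a, ph h (Pi.single a 1) z *ᵥ sl (-1) (h z) = 0 := by
    intro z hz
    have hzB := hVB hz
    exact point_alg (hh.pos z hzB) (hh.hJ z hzB) hκ (fun a => ph h (Pi.single a 1) z)
      (fun a => (phi_anti hh hzB _).1) (fun a v w => (phi_skew hh hzB _ v w).1)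
      (fun a c => sub_eq_zero.1 (hh.comm a c z hzB)) (hV z hz)
  by_cases hall : ∀ z ∈ V, ∀ a, ph h (Pi.single a 1) z *ᵥ sl 1 (h z) = 0
  · refine ⟨-1, by norm_num, ?_⟩
    rw [neg_neg]
    exact PropAux.spread hh (by norm_num) hVo ⟨z₀, hzV, hz₀⟩ fun z hz => hall z hz.1
  · push Not at hall
    obtain ⟨z₁, hz₁, a, ha⟩ := hall
    obtain ⟨i, hi1⟩ : ∃ i, (ph h (Pi.single a 1) z₁ *ᵥ sl 1 (h z₁)) i ≠ 0 := by
      by_contra hcon
      push Not at hcon
      exact ha (funext hcon)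
    have hopen : IsOpen (V ∩ (fun z => (ph h (Pi.single a 1) z *ᵥ sl 1 (h z)) i) ⁻¹' {0}ᶜ) :=
      ((cont_w hh (by norm_num) (Pi.single a 1) i).mono hVB).isOpen_inter_preimage hVo
        isOpen_compl_singleton
    refine ⟨1, by norm_num, ?_⟩
    refine PropAux.spread hh (by norm_num) hopen ⟨z₁, ⟨hz₁, hi1⟩, hVB hz₁⟩ fun z hz => ?_
    rcases hcase z hz.1.1 with h1 | h1
    · exact absurd (show (ph h (Pi.single a 1) z *ᵥ sl 1 (h z)) i = 0 by rw [h1 a]; rfl) hz.1.2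
    · exact h1

end phi

end Pool.Agent.MPd01a95
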