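import Mathlib
import Pool.Agent.Lib.MP_d01a95_gt_H.HDefs
import Pool.Agent.Lib.MP_d01a95_gt_H.Unimod
import Pool.Agent.Lib.MP_d01a95_gt_H.Mcalc
import Pool.Agent.Lib.MP_d01a95_gt_H.Curv
import Pool.Agent.Lib.MP_d01a95_gt_H.Cone
set_option autoImplicit false
set_option linter.all false
open Matrix Filter Topology MeasureTheory Measure
open scoped ENNReal NNReal ContDiff
namespace Pool.Agent.MPd01a95
open GU
variable {κ n ι α : Type} [Fintype κ] [DecidableEq κ] [Fintype n] [DecidableEq n] [Fintype ι] [DecidableEq ι] [Fintype α] [DecidableEq α] {G : Type} [Group G]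

namespace FrameAux

open CurvAux

section gen

variable {E : Type} [NormedAddCommGroup E] [NormedSpace ℂ E]

theorem DM_add_u (f : E → Matrix n n ℂ) (v u u' : E) :
    DM f v (u + u') = DM f v u + DM f v u' := by
  ext i j
  show fderiv ℝ (fun w => f w i j) v (u + u') = _
  rw [map_add]
  rfl

theorem DM_smul_u (f : E → Matrix n n ℂ) (v u : E) (r : ℝ) :
    DM f v (r • u) = (r : ℂ) • DM f v u := by
  ext i j
  show fderiv ℝ (fun w => f w i j) v (r • u) = (r : ℂ) * fderiv ℝ (fun w => f w i j) v u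
  rw [map_smul]
  simp

theorem re_im_smul (l : ℂ) (u : E) : l • u = l.re • u + l.im • (Complex.I • u) := by
  conv_lhs => rw [← Complex.re_add_im l]
  rw [add_smul, mul_smul]
  rfl

theorem I_re_im_smul (l : ℂ) (u : E) :
    Complex.I • (l • u) = l.re • (Complex.I • u) + (-l.im) • u := by
  rw [re_im_smul l u, smul_add, smul_comm, smul_comm Complex.I l.im, smul_smul Complex.I,
    Complex.I_mul_I]
  simp

theorem DM_l (f : E → Matrix n n ℂ) (v u : E) (l : ℂ) :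
    DM f v (l • u) = (l.re : ℂ) • DM f v u + (l.im : ℂ) • DM f v (Complex.I • u) := by
  rw [re_im_smul, DM_add_u, DM_smul_u, DM_smul_u]

theorem DM_Il (f : E → Matrix n n ℂ) (v u : E) (l : ℂ) :
    DM f v (Complex.I • (l • u)) =
      (l.re : ℂ) • DM f v (Complex.I • u) - (l.im : ℂ) • DM f v u := by
  rw [I_re_im_smul, DM_add_u, DM_smul_u, DM_smul_u]
  push_cast
  module

theorem dz_smul_u (f : E → Matrix n n ℂ) (l : ℂ) (u v : E) :
    dz f (l • u) v = l • dz f u v := by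
  rw [dz, dz, DM_l, DM_Il]
  have h1 : l = (l.re : ℂ) + (l.im : ℂ) * Complex.I := (Complex.re_add_im l).symm
  have h2 : Complex.I * Complex.I = -1 := Complex.I_mul_I
  obtain ⟨a, ha⟩ : ∃ a : ℂ, a = (l.re : ℂ) := ⟨_, rfl⟩
  obtain ⟨b, hb⟩ : ∃ b : ℂ, b = (l.im : ℂ) := ⟨_, rfl⟩
  rw [← ha, ← hb] at h1 ⊢
  rw [h1]
  ext i j
  simp only [Matrix.smul_apply, Matrix.sub_apply, Matrix.add_apply, smul_eq_mul]
  linear_combination (1 / 2 : ℂ) * b * DM f v (Complex.I • u) i j * h2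

theorem dzb_smul_u (f : E → Matrix n n ℂ) (l : ℂ) (u v : E) :
    dzb f (l • u) v = star l • dzb f u v := by
  rw [dzb, dzb, DM_l, DM_Il]
  have h1 : star l = (l.re : ℂ) - (l.im : ℂ) * Complex.I := by
    have := (Complex.re_add_im l).symm
    apply Complex.ext <;> simp
  have h2 : Complex.I * Complex.I = -1 := Complex.I_mul_I
  obtain ⟨a, ha⟩ : ∃ a : ℂ, a = (l.re : ℂ) := ⟨_, rfl⟩
  obtain ⟨b, hb⟩ : ∃ b : ℂ, b = (l.im : ℂ) := ⟨_, rfl⟩
  rw [← ha, ← hb] at h1 ⊢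
  rw [h1]
  ext i j
  simp only [Matrix.smul_apply, Matrix.sub_apply, Matrix.add_apply, smul_eq_mul]
  linear_combination (1 / 2 : ℂ) * b * DM f v (Complex.I • u) i j * h2

theorem dz_add_u (f : E → Matrix n n ℂ) (u u' v : E) :
    dz f (u + u') v = dz f u v + dz f u' v := by
  rw [dz, dz, dz, smul_add Complex.I u u', DM_add_u, DM_add_u]
  module

theorem dzb_add_u (f : E → Matrix n n ℂ) (u u' v : E) :
    dzb f (u + u') v = dzb f u v + dzb f u' v := by
  rw [dzb, dzb, dzb, smul_add Complex.I u u', DM_add_u, DM_add_u]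
  module

theorem ph_smul (H : E → Matrix n n ℝ) (l : ℂ) (u v : E) :
    ph H (l • u) v = l • ph H u v := by
  rw [ph, ph, dz_smul_u, mul_smul_comm, smul_comm]

theorem ph_add (H : E → Matrix n n ℝ) (u u' v : E) :
    ph H (u + u') v = ph H u v + ph H u' v := by
  rw [ph, ph, ph, dz_add_u, mul_add, smul_add]

theorem phb_smul (H : E → Matrix n n ℝ) (l : ℂ) (u v : E) :
    phb H (l • u) v = star l • phb H u v := by
  rw [phb, phb, dzb_smul_u, mul_smul_comm, smul_comm]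

theorem phb_add (H : E → Matrix n n ℝ) (u u' v : E) :
    phb H (u + u') v = phb H u v + phb H u' v := by
  rw [phb, phb, phb, dzb_add_u, mul_add, smul_add]

theorem tt_smul_w (H : E → Matrix n n ℝ) (l : ℂ) (u w v : E) :
    tt H u (l • w) v = star l • tt H u w v := by
  rw [tt, tt, dzb_smul_u, phb_smul, cm, cm]
  simp only [smul_mul_assoc, mul_smul_comm]
  module

theorem tt_add_w (H : E → Matrix n n ℝ) (u w w' v : E) :
    tt H u (w + w') v = tt H u w v + tt H u w' v := by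
  rw [tt, tt, tt, dzb_add_u, phb_add, cm, cm, cm]
  simp only [add_mul, mul_add]
  module

variable {H : E → Matrix n n ℝ} {Ω : Set E}
  (hΩ : IsOpen Ω) (hp : ∀ v ∈ Ω, (H v).PosDef) (hs : Sm ∞ H Ω)
include hΩ hp hs

theorem tt_smul_u {v : E} (hv : v ∈ Ω) (l : ℂ) (u w : E) :
    tt H (l • u) w v = l • tt H u w v := by
  have e : (fun v' => ph H (l • u) v') = fun v' => l • ph H u v' := by
    funext v'
    exact ph_smul H l u v'
  rw [tt, tt, e, dzb_smul _ (Sm.df hΩ (ph_sm hΩ hp hs u) hv), ph_smul, cm, cm]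
  simp only [smul_mul_assoc, mul_smul_comm]
  module

theorem tt_add_u {v : E} (hv : v ∈ Ω) (u u' w : E) :
    tt H (u + u') w v = tt H u w v + tt H u' w v := by
  have e : (fun v' => ph H (u + u') v') = fun v' => ph H u v' + ph H u' v' := by
    funext v'
    exact ph_add H u u' v'
  rw [tt, tt, tt, e, dzb_add (Sm.df hΩ (ph_sm hΩ hp hs u) hv)
    (Sm.df hΩ (ph_sm hΩ hp hs u') hv), ph_add, cm, cm, cm]
  simp only [add_mul, mul_add]
  module

omit hΩ hp hs in
/-- the trace of a product along a linear combination -/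
theorem tr8 (P P' Q1 Q2 Q3 Q4 : Matrix n n ℂ) (a b c d e f : ℂ) :
    ((a • P + b • P') * (c • (e • Q1 + f • Q2) + d • (e • Q3 + f • Q4))).trace =
      (a * c * e) * (P * Q1).trace + (a * c * f) * (P * Q2).trace +
      ((a * d * e) * (P * Q3).trace + (a * d * f) * (P * Q4).trace) +
      ((b * c * e) * (P' * Q1).trace + (b * c * f) * (P' * Q2).trace +
      ((b * d * e) * (P' * Q3).trace + (b * d * f) * (P' * Q4).trace)) := by
  simp only [add_mul, mul_add, smul_mul_assoc, mul_smul_comm, Matrix.trace_add,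
    Matrix.trace_smul, smul_eq_mul, smul_add]
  ring

/-- the expression -/
theorem trace_sm (u u' w : E) :
    ContDiffOn ℝ ∞ (fun v => (ph H u v * tt H u' w v).trace) Ω := by
  have h1 := Sm.mul (ph_smooth hΩ hp hs u).1 ((ph_smooth hΩ hp hs u').2.2 w)
  have : (fun v => (ph H u v * tt H u' w v).trace) =
      fun v => ∑ i, (ph H u v * tt H u' w v) i i := rfl
  rw [this]
  exact ContDiffOn.sum fun i _ => h1 i i

end gen

/-! ### homogeneity -/

section cone

variable {H : (κ ⊕ Unit → ℂ) → Matrix n n ℝ}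
  (hp : ∀ v ∈ Cn κ, (H v).PosDef) (hs : Sm ∞ H (Cn κ))
  (hh : ∀ v ∈ Cn κ, ∀ l : ℂ, l ≠ 0 → H (l • v) = H v)
include hp hs hh

theorem DM_rad {v : κ ⊕ Unit → ℂ} (hv : v ∈ Cn κ) (l : ℂ) : DM (cH H) v (l • v) = 0 := by
  ext i j
  show fderiv ℝ (fun w => cH H w i j) v (l • v) = 0
  have hd : DifferentiableAt ℝ (fun w => cH H w i j) v :=
    Sm.df isOpen_Cn (sm_cH hs) hv i j
  rw [← hd.lineDeriv_eq_fderiv, lineDeriv]
  have hc : ContinuousAt (fun t : ℝ => 1 + (t : ℂ) * l) 0 := by fun_prop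
  have h1 : ∀ᶠ t : ℝ in 𝓝 0, 1 + (t : ℂ) * l ≠ 0 := hc.eventually_ne (by simp)
  have h2 : (fun t : ℝ => cH H (v + t • (l • v)) i j) =ᶠ[𝓝 0] fun _ => cH H v i j := by
    filter_upwards [h1] with t ht
    have e : v + t • (l • v) = (1 + (t : ℂ) * l) • v := by
      rw [add_smul, one_smul, mul_smul]
      rfl
    show ((H (v + t • (l • v)) i j : ℝ) : ℂ) = ((H v i j : ℝ) : ℂ)
    rw [e, hh v hv _ ht]
  rw [h2.deriv_eq, deriv_const]

theorem ph_self {v : κ ⊕ Unit → ℂ} (hv : v ∈ Cn κ) : ph H v v = 0 := by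
  have h1 := DM_rad hp hs hh hv 1
  have h2 := DM_rad hp hs hh hv Complex.I
  rw [one_smul] at h1
  rw [ph, dz, h1, h2]
  simp

omit hp hs hh in
theorem ph_sum (v u : κ ⊕ Unit → ℂ) :
    ph H u v = ∑ s, u s • ph H (Pi.single s 1) v := by
  have h0 : ∀ v, ph H 0 v = 0 := fun v => by
    have := ph_smul H 0 0 v
    simpa using this
  have h1 : ∀ (T : Finset (κ ⊕ Unit)) (f : κ ⊕ Unit → (κ ⊕ Unit → ℂ)),
      ph H (∑ s ∈ T, f s) v = ∑ s ∈ T, ph H (f s) v := by
    intro T f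
    induction T using Finset.induction_on with
    | empty => simp [h0]
    | insert a T ha ih => rw [Finset.sum_insert ha, Finset.sum_insert ha, ph_add, ih]
  conv_lhs => rw [pi_eq_sum_univ' u]
  rw [h1]
  exact Finset.sum_congr rfl fun s _ => ph_smul H _ _ _

theorem DM_ph {v : κ ⊕ Unit → ℂ} (hv : v ∈ Cn κ) (w : κ ⊕ Unit → ℂ) :
    DM (fun v' => ph H v v') v w = - ph H w v := by
  ext i j
  show fderiv ℝ (fun v' => ph H v v' i j) v w = - ph H w v i j
  have hd : ∀ s, DifferentiableAt ℝ (fun v' => ph H (Pi.single s 1) v' i j) v := fun s =>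
    Sm.df isOpen_Cn (ph_sm isOpen_Cn hp hs (Pi.single s 1)) hv i j
  have hc : ∀ s, HasFDerivAt (fun v' : κ ⊕ Unit → ℂ => v' s)
      (ContinuousLinearMap.proj (R := ℝ) s) v := fun s =>
    (ContinuousLinearMap.proj (R := ℝ) (φ := fun _ : κ ⊕ Unit => ℂ) s).hasFDerivAt
  have hcd : ∀ s, DifferentiableAt ℝ (fun v' : κ ⊕ Unit → ℂ => v' s) v := fun s =>
    (hc s).differentiableAt
  -- the vanishing function
  have e0 : (fun v' => ∑ s, v' s * ph H (Pi.single s 1) v' i j) =ᶠ[𝓝 v] fun _ => (0 : ℂ) := by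
    filter_upwards [isOpen_Cn.mem_nhds hv] with v' hv'
    have h1 := ph_self hp hs hh hv'
    rw [ph_sum] at h1
    have h2 := congrFun (congrFun h1 i) j
    rw [Matrix.sum_apply] at h2
    simpa using h2
  have h1 : fderiv ℝ (fun v' => ∑ s, v' s * ph H (Pi.single s 1) v' i j) v w = 0 := by
    rw [e0.fderiv_eq]
    simp
  rw [fderiv_fun_sum (fun s _ => (hcd s).fun_mul (hd s)), ContinuousLinearMap.sum_apply] at h1
  have h2 : ∀ s, fderiv ℝ (fun v' : κ ⊕ Unit → ℂ => v' s * ph H (Pi.single s 1) v' i j) v w =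
      v s * fderiv ℝ (fun v' => ph H (Pi.single s 1) v' i j) v w +
        w s * ph H (Pi.single s 1) v i j := by
    intro s
    rw [fderiv_fun_mul (hcd s) (hd s), (hc s).fderiv]
    simp only [ContinuousLinearMap.add_apply, ContinuousLinearMap.smul_apply, smul_eq_mul,
      ContinuousLinearMap.proj_apply]
    ring
  rw [Finset.sum_congr rfl fun s _ => h2 s, Finset.sum_add_distrib] at h1
  have e1 : (fun v' => ph H v v' i j) = fun v' => ∑ s, v s * ph H (Pi.single s 1) v' i j := by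
    funext v'
    rw [ph_sum, Matrix.sum_apply]
    rfl
  rw [e1, fderiv_fun_sum (fun s _ => (hd s).const_mul (v s)), ContinuousLinearMap.sum_apply]
  have e2 : ∀ s, fderiv ℝ (fun v' => v s * ph H (Pi.single s 1) v' i j) v w =
      v s * fderiv ℝ (fun v' => ph H (Pi.single s 1) v' i j) v w := by
    intro s
    rw [fderiv_const_mul (hd s)]
    rfl
  rw [Finset.sum_congr rfl fun s _ => e2 s]
  have e3 : ph H w v i j = ∑ s, w s * ph H (Pi.single s 1) v i j := by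
    rw [ph_sum, Matrix.sum_apply]
    rfl
  rw [e3]
  linear_combination h1

theorem tt_left {v : κ ⊕ Unit → ℂ} (hv : v ∈ Cn κ) (w : κ ⊕ Unit → ℂ) : tt H v w v = 0 := by
  rw [tt, dzb, DM_ph hp hs hh hv, DM_ph hp hs hh hv, ph_self hp hs hh hv, ph_smul, cm]
  have h2 : Complex.I * Complex.I = -1 := Complex.I_mul_I
  rw [mul_zero, zero_mul, sub_zero, add_zero, smul_neg, smul_smul, h2]
  simp

theorem tt_right {v : κ ⊕ Unit → ℂ} (hv : v ∈ Cn κ) (u : κ ⊕ Unit → ℂ) : tt H u v v = 0 := by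
  rw [← tt_adj isOpen_Cn hp hs hv v u, tt_left hp hs hh hv u]
  simp

end cone

/-! ### paths -/

theorem path_pt (g : GU κ) (t : ℝ) (c : κ) (p : Bool) : (g * bo t (c, p)).pt =
    ((Real.cosh t : ℝ) : ℂ) • g.pt + ((Real.sinh t : ℝ) : ℂ) • g.dir (c, p) := by
  unfold GU.pt GU.dir
  rw [M_mul, bo_M, ← Matrix.mulVec_mulVec, boM_e0, Matrix.mulVec_add, Matrix.mulVec_smul,
    mul_smul, Matrix.mulVec_smul]

theorem path_ej (g : GU κ) (t : ℝ) (a c : κ) (p : Bool) : (g * bo t (c, p)).M *ᵥ ej a =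
    (1 + if a = c then ((Real.cosh t - 1 : ℝ) : ℂ) else 0) • (g.M *ᵥ ej a) +
      (if a = c then ((Real.sinh t : ℝ) : ℂ) * star (wb p) else 0) • g.pt := by
  have h1 : (ej c : κ ⊕ Unit → ℂ) ⬝ᵥ ej a = if a = c then 1 else 0 := by
    by_cases h : a = c
    · subst h
      rw [if_pos rfl, ej_ej]
    · rw [if_neg h]
      simp [ej, h]
  have h2 : boM t (c, p) *ᵥ ej a =
      (1 + if a = c then ((Real.cosh t - 1 : ℝ) : ℂ) else 0) • ej a +
      (if a = c then ((Real.sinh t : ℝ) : ℂ) * star (wb p) else 0) • e0 := by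
    rw [boM, PM, XM, Matrix.add_mulVec, Matrix.add_mulVec, Matrix.smul_mulVec,
      Matrix.smul_mulVec, Matrix.one_mulVec, Matrix.add_mulVec, Matrix.add_mulVec,
      Matrix.smul_mulVec, Matrix.smul_mulVec, Matrix.vecMulVec_mulVec,
      Matrix.vecMulVec_mulVec, Matrix.vecMulVec_mulVec, Matrix.vecMulVec_mulVec, h1, e0_ej]
    by_cases h : a = c
    · subst h
      simp only [if_true, MulOpposite.op_one, MulOpposite.op_zero, one_smul, zero_smul,
        smul_zero, add_zero, zero_add]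
      module
    · simp only [if_neg h, MulOpposite.op_zero, zero_smul, smul_zero, add_zero, one_smul]
  unfold GU.pt
  rw [M_mul, bo_M, ← Matrix.mulVec_mulVec, h2, Matrix.mulVec_add, Matrix.mulVec_smul,
    Matrix.mulVec_smul]

theorem hd_cosh : HasDerivAt (fun t : ℝ => ((Real.cosh t : ℝ) : ℂ)) 0 0 := by
  have := (Real.hasDerivAt_cosh 0).ofReal_comp
  simpa using this

theorem hd_sinh : HasDerivAt (fun t : ℝ => ((Real.sinh t : ℝ) : ℂ)) 1 0 := by
  have := (Real.hasDerivAt_sinh 0).ofReal_comp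
  simpa using this

theorem hd_pt (g : GU κ) (c : κ) (p : Bool) :
    HasDerivAt (fun t : ℝ => (g * bo t (c, p)).pt) (g.dir (c, p)) 0 := by
  have h1 : (fun t : ℝ => (g * bo t (c, p)).pt) = fun t : ℝ =>
      ((Real.cosh t : ℝ) : ℂ) • g.pt + ((Real.sinh t : ℝ) : ℂ) • g.dir (c, p) := by
    funext t
    exact path_pt g t c p
  rw [h1]
  have h2 := (hd_cosh.smul_const g.pt).fun_add (hd_sinh.smul_const (g.dir (c, p)))
  rw [zero_smul, one_smul, zero_add] at h2
  exact h2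

/-- the coefficients -/
noncomputable def al (a c : κ) (t : ℝ) : ℂ :=
  1 + if a = c then ((Real.cosh t - 1 : ℝ) : ℂ) else 0

/-- the coefficients -/
noncomputable def be (a c : κ) (p : Bool) (t : ℝ) : ℂ :=
  if a = c then ((Real.sinh t : ℝ) : ℂ) * star (wb p) else 0

theorem al_zero (a c : κ) : al a c 0 = 1 := by
  simp [al]

theorem be_zero (a c : κ) (p : Bool) : be a c p 0 = 0 := by
  simp [be]

theorem hd_al (a c : κ) : HasDerivAt (al a c) 0 0 := by
  by_cases h : a = c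
  · have e : al a c = fun t : ℝ => ((Real.cosh t : ℝ) : ℂ) := by
      funext t
      simp only [al, if_pos h]
      push_cast
      ring
    rw [e]
    exact hd_cosh
  · have e : al a c = fun t : ℝ => (1 : ℂ) := by
      funext t
      simp only [al, if_neg h, add_zero]
    rw [e]
    exact hasDerivAt_const _ _

theorem hd_be (a c : κ) (p : Bool) : ∃ b, HasDerivAt (be a c p) b 0 := by
  by_cases h : a = c
  · refine ⟨1 * star (wb p), ?_⟩
    have e : be a c p = fun t : ℝ => ((Real.sinh t : ℝ) : ℂ) * star (wb p) := by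
      funext t
      simp only [be, if_pos h]
    rw [e]
    exact hd_sinh.mul_const _
  · refine ⟨0, ?_⟩
    have e : be a c p = fun t : ℝ => (0 : ℂ) := by
      funext t
      simp only [be, if_neg h]
    rw [e]
    exact hasDerivAt_const _ _

theorem hd_zero {f g : ℝ → ℂ} {f' g' : ℂ} (hf : HasDerivAt f f' 0) (hg : HasDerivAt g g' 0)
    (hf0 : f 0 = 0) (hg0 : g 0 = 0) : HasDerivAt (fun t => f t * g t) 0 0 := by
  have h := hf.fun_mul hg
  rw [hf0, hg0, mul_zero, zero_mul, add_zero] at h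
  exact h

theorem hd_one {f g : ℝ → ℂ} {f' g' : ℂ} (hf : HasDerivAt f f' 0) (hg : HasDerivAt g g' 0)
    (hf' : f' = 0) (hf0 : f 0 = 1) : HasDerivAt (fun t => f t * g t) g' 0 := by
  have h := hf.fun_mul hg
  rw [hf0, hf', zero_mul, zero_add, one_mul] at h
  exact h

/-! ### coordinates -/

section coord

variable {H : (κ ⊕ Unit → ℂ) → Matrix n n ℝ}

theorem tt_sum_w (v u w : κ ⊕ Unit → ℂ) :
    tt H u w v = ∑ s, star (w s) • tt H u (Pi.single s 1) v := by
  have h0 : ∀ v, tt H u 0 v = 0 := fun v => by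
    have := tt_smul_w H 0 u 0 v
    simpa using this
  have h1 : ∀ (T : Finset (κ ⊕ Unit)) (f : κ ⊕ Unit → (κ ⊕ Unit → ℂ)),
      tt H u (∑ s ∈ T, f s) v = ∑ s ∈ T, tt H u (f s) v := by
    intro T f
    induction T using Finset.induction_on with
    | empty => simp [h0]
    | insert a T ha ih => rw [Finset.sum_insert ha, Finset.sum_insert ha, tt_add_w, ih]
  conv_lhs => rw [pi_eq_sum_univ' w]
  rw [h1]
  exact Finset.sum_congr rfl fun s _ => tt_smul_w H _ _ _ _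

variable (hp : ∀ v ∈ Cn κ, (H v).PosDef) (hs : Sm ∞ H (Cn κ))
include hp hs

theorem tt_sum_u {v : κ ⊕ Unit → ℂ} (hv : v ∈ Cn κ) (u w : κ ⊕ Unit → ℂ) :
    tt H u w v = ∑ s, u s • tt H (Pi.single s 1) w v := by
  have h0 : tt H 0 w v = 0 := by
    have := tt_smul_u isOpen_Cn hp hs hv 0 0 w
    simpa using this
  have h1 : ∀ (T : Finset (κ ⊕ Unit)) (f : κ ⊕ Unit → (κ ⊕ Unit → ℂ)),
      tt H (∑ s ∈ T, f s) w v = ∑ s ∈ T, tt H (f s) w v := by
    intro T f
    induction T using Finset.induction_on with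
    | empty => simp [h0]
    | insert a T ha ih =>
      rw [Finset.sum_insert ha, Finset.sum_insert ha, tt_add_u isOpen_Cn hp hs hv, ih]
  conv_lhs => rw [pi_eq_sum_univ' u]
  rw [h1]
  exact Finset.sum_congr rfl fun s _ => tt_smul_u isOpen_Cn hp hs hv _ _ _

theorem tr_sum {v : κ ⊕ Unit → ℂ} (hv : v ∈ Cn κ) (u u' w : κ ⊕ Unit → ℂ) :
    (ph H u v * tt H u' w v).trace =
      ∑ q : (κ ⊕ Unit) × (κ ⊕ Unit) × (κ ⊕ Unit), (u q.1 * u' q.2.1 * star (w q.2.2)) *
        (ph H (Pi.single q.1 1) v * tt H (Pi.single q.2.1 1) (Pi.single q.2.2 1) v).trace := by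
  rw [Fintype.sum_prod_type]
  conv_lhs => rw [ph_sum, Finset.sum_mul, Matrix.trace_sum]
  refine Finset.sum_congr rfl fun s _ => ?_
  rw [Fintype.sum_prod_type]
  conv_lhs => rw [tt_sum_u hp hs hv, Finset.mul_sum, Matrix.trace_sum]
  refine Finset.sum_congr rfl fun t _ => ?_
  conv_lhs => rw [tt_sum_w, Finset.smul_sum, Finset.mul_sum, Matrix.trace_sum]
  refine Finset.sum_congr rfl fun r _ => ?_
  simp only [smul_mul_assoc, mul_smul_comm, Matrix.trace_smul, smul_eq_mul]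
  ring

theorem fd_sum {v : κ ⊕ Unit → ℂ} (hv : v ∈ Cn κ) (u u' w x : κ ⊕ Unit → ℂ) :
    fderiv ℝ (fun v => (ph H u v * tt H u' w v).trace) v x =
      ∑ q : (κ ⊕ Unit) × (κ ⊕ Unit) × (κ ⊕ Unit), (u q.1 * u' q.2.1 * star (w q.2.2)) *
        fderiv ℝ (fun v => (ph H (Pi.single q.1 1) v *
          tt H (Pi.single q.2.1 1) (Pi.single q.2.2 1) v).trace) v x := by
  have e : (fun v => (ph H u v * tt H u' w v).trace) =ᶠ[𝓝 v] fun v =>
      ∑ q : (κ ⊕ Unit) × (κ ⊕ Unit) × (κ ⊕ Unit), (u q.1 * u' q.2.1 * star (w q.2.2)) *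
        (ph H (Pi.single q.1 1) v * tt H (Pi.single q.2.1 1) (Pi.single q.2.2 1) v).trace := by
    filter_upwards [isOpen_Cn.mem_nhds hv] with v' hv'
    exact tr_sum hp hs hv' u u' w
  have hd : ∀ q : (κ ⊕ Unit) × (κ ⊕ Unit) × (κ ⊕ Unit),
      DifferentiableAt ℝ (fun v => (ph H (Pi.single q.1 1) v *
          tt H (Pi.single q.2.1 1) (Pi.single q.2.2 1) v).trace) v := fun q =>
    ((trace_sm isOpen_Cn hp hs _ _ _).contDiffAt (isOpen_Cn.mem_nhds hv)).differentiableAt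
      (by simp)
  rw [e.fderiv_eq, fderiv_fun_sum (fun q _ => (hd q).const_mul _),
    ContinuousLinearMap.sum_apply]
  refine Finset.sum_congr rfl fun q _ => ?_
  rw [fderiv_const_mul (hd q)]
  rfl

end coord

theorem continuous_pt : Continuous (GU.pt : GU κ → κ ⊕ Unit → ℂ) := by
  unfold GU.pt
  exact continuous_M.matrix_mulVec continuous_const

theorem continuous_dir (q : κ × Bool) : Continuous (fun g : GU κ => g.dir q) := by
  unfold GU.dir
  exact continuous_M.matrix_mulVec continuous_const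

theorem continuous_Mej (a : κ) (s : κ ⊕ Unit) :
    Continuous (fun g : GU κ => (g.M *ᵥ ej a) s) :=
  (continuous_apply s).comp (continuous_M.matrix_mulVec continuous_const)

/-! ### equivariance -/

theorem DM_const (X : Matrix n n ℂ) (v u : κ ⊕ Unit → ℂ) :
    DM (fun _ : κ ⊕ Unit → ℂ => X) v u = 0 := by
  ext i j
  show fderiv ℝ (fun _ : κ ⊕ Unit → ℂ => X i j) v u = 0
  simp

theorem chain {g : GU κ} {f k : (κ ⊕ Unit → ℂ) → Matrix n n ℂ} {X Y : Matrix n n ℂ}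
    (h : ∀ v ∈ Cn κ, f (g.M *ᵥ v) = X * k v * Y) {v : κ ⊕ Unit → ℂ} (hv : v ∈ Cn κ)
    (hf : Df f (g.M *ᵥ v)) (hk : Df k v) (u : κ ⊕ Unit → ℂ) :
    DM f (g.M *ᵥ v) (g.M *ᵥ u) = X * DM k v u * Y := by
  have hc : ∀ (Z : Matrix n n ℂ) (w : κ ⊕ Unit → ℂ),
      Df (fun _ : κ ⊕ Unit → ℂ => Z) w := fun Z w i j => differentiableAt_const _
  have h1 : DM (fun v' => X * k v' * Y) v u = X * DM k v u * Y := by
    have hXk : Df (fun v' => X * k v') v := by
      intro i j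
      have e : (fun v' => (X * k v') i j) = fun v' => ∑ l, X i l * k v' l j := by
        funext v'
        rw [Matrix.mul_apply]
      rw [e]
      exact DifferentiableAt.fun_sum fun l _ => (hk l j).const_mul _
    rw [DM_mul (f := fun v' => X * k v') (f' := fun _ => Y) hXk (hc Y v),
      DM_mul (f := fun _ => X) (f' := k) (hc X v) hk, DM_const, DM_const, zero_mul, mul_zero,
      zero_add, add_zero]
  rw [← h1]
  ext i j
  show fderiv ℝ (fun w => f w i j) (g.M *ᵥ v) (g.M *ᵥ u) =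
    fderiv ℝ (fun v' => (X * k v' * Y) i j) v u
  have e : (fun v' => (X * k v' * Y) i j) =ᶠ[𝓝 v]
      (fun w => f w i j) ∘ (fun v' => g.M *ᵥ v') := by
    filter_upwards [isOpen_Cn.mem_nhds hv] with v' hv'
    show _ = f (g.M *ᵥ v') i j
    rw [h v' hv']
  obtain ⟨L, hL⟩ : ∃ L : (κ ⊕ Unit → ℂ) →L[ℝ] (κ ⊕ Unit → ℂ), ∀ v', L v' = g.M *ᵥ v' :=
    ⟨((Matrix.toLin' g.M).toContinuousLinearMap).restrictScalars ℝ, fun v' => rfl⟩
  have hLf : HasFDerivAt (fun v' => g.M *ᵥ v') L v := by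
    have := L.hasFDerivAt (x := v)
    have e2 : (fun v' => g.M *ᵥ v') = L := by
      funext v'
      exact (hL v').symm
    rw [e2]
    exact this
  rw [e.fderiv_eq, fderiv_comp v (hf i j) hLf.differentiableAt, hLf.fderiv]
  show _ = fderiv ℝ (fun w => f w i j) (g.M *ᵥ v) (L u)
  rw [hL]

theorem chain_dz {g : GU κ} {f k : (κ ⊕ Unit → ℂ) → Matrix n n ℂ} {X Y : Matrix n n ℂ}
    (h : ∀ v ∈ Cn κ, f (g.M *ᵥ v) = X * k v * Y) {v : κ ⊕ Unit → ℂ} (hv : v ∈ Cn κ)
    (hf : Df f (g.M *ᵥ v)) (hk : Df k v) (u : κ ⊕ Unit → ℂ) :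
    dz f (g.M *ᵥ u) (g.M *ᵥ v) = X * dz k u v * Y ∧
    dzb f (g.M *ᵥ u) (g.M *ᵥ v) = X * dzb k u v * Y := by
  rw [dz, dz, dzb, dzb, ← Matrix.mulVec_smul, chain h hv hf hk, chain h hv hf hk]
  constructor
  · simp only [mul_smul_comm, smul_mul_assoc, mul_sub, sub_mul]
  · simp only [mul_smul_comm, smul_mul_assoc, mul_add, add_mul]

end FrameAux

open FrameAux CurvAux

/-- module FRAME: the derivative along the boosts of an expression in the frame: the frame
slots do not contribute, because `ph H v v = 0`, `tt H v w v = 0` and `tt H u v v = 0`. -/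
theorem frame_deriv {H : (κ ⊕ Unit → ℂ) → Matrix n n ℝ} {σ : G →* GU κ} {ρ : G →* Matrix n n ℝ}
    (hH : EqC σ ρ H) (hs : Sm ∞ H (Cn κ)) (a b c d : κ) (p : Bool) (g : GU κ) :
    HasDerivAt (fun t : ℝ => (ph H ((g * bo t (c, p)).M *ᵥ ej a) (g * bo t (c, p)).pt *
        tt H ((g * bo t (c, p)).M *ᵥ ej b) ((g * bo t (c, p)).M *ᵥ ej d)
          (g * bo t (c, p)).pt).trace)
      (fderiv ℝ (fun v => (ph H (g.M *ᵥ ej a) v *
        tt H (g.M *ᵥ ej b) (g.M *ᵥ ej d) v).trace) g.pt (g.dir (c, p))) 0 := by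
  have hp := hH.pos
  have hh := hH.hom
  have hz := (pt_mem g).1
  have hΨ : ∀ u u' w : κ ⊕ Unit → ℂ,
      HasDerivAt (fun t : ℝ => (ph H u (g * bo t (c, p)).pt *
        tt H u' w (g * bo t (c, p)).pt).trace)
      (fderiv ℝ (fun v => (ph H u v * tt H u' w v).trace) g.pt (g.dir (c, p))) 0 := by
    intro u u' w
    have h1 : DifferentiableAt ℝ (fun v => (ph H u v * tt H u' w v).trace) g.pt :=
      ((trace_sm isOpen_Cn hp hs u u' w).contDiffAt (isOpen_Cn.mem_nhds hz)).differentiableAt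
        (by simp)
    have h2 : (g * bo 0 (c, p)).pt = g.pt := by rw [bo_zero, mul_one]
    have h3 := h1.hasFDerivAt
    rw [← h2] at h3
    have h4 := h3.comp_hasDerivAt (0 : ℝ) (hd_pt g c p)
    rw [h2] at h4
    exact h4
  obtain ⟨ba, hba⟩ := hd_be a c p
  obtain ⟨bb, hbb⟩ := hd_be b c p
  obtain ⟨bd, hbd⟩ := hd_be d c p
  have haa := hd_al a c
  have hab := hd_al b c
  have had := (hd_al d c).star
  have hbd := hbd.star
  rw [star_zero] at had
  have hph0 : ∀ A : Matrix n n ℂ, (ph H g.pt g.pt * A).trace = 0 := fun A => by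
    rw [ph_self hp hs hh hz]
    simp
  have htl : ∀ (A : Matrix n n ℂ) (w : κ ⊕ Unit → ℂ), (A * tt H g.pt w g.pt).trace = 0 :=
    fun A w => by
      rw [tt_left hp hs hh hz]
      simp
  have htr : ∀ (A : Matrix n n ℂ) (u : κ ⊕ Unit → ℂ), (A * tt H u g.pt g.pt).trace = 0 :=
    fun A u => by
      rw [tt_right hp hs hh hz]
      simp
  have h0 : (g * bo 0 (c, p)).pt = g.pt := by rw [bo_zero, mul_one]
  have e : (fun t : ℝ => (ph H ((g * bo t (c, p)).M *ᵥ ej a) (g * bo t (c, p)).pt *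
        tt H ((g * bo t (c, p)).M *ᵥ ej b) ((g * bo t (c, p)).M *ᵥ ej d)
          (g * bo t (c, p)).pt).trace) = fun t : ℝ =>
      (al a c t * al b c t * star (al d c t)) * (ph H (g.M *ᵥ ej a) (g * bo t (c, p)).pt *
        tt H (g.M *ᵥ ej b) (g.M *ᵥ ej d) (g * bo t (c, p)).pt).trace +
      (al a c t * al b c t * star (be d c p t)) * (ph H (g.M *ᵥ ej a) (g * bo t (c, p)).pt *
        tt H (g.M *ᵥ ej b) g.pt (g * bo t (c, p)).pt).trace +
      ((al a c t * be b c p t * star (al d c t)) * (ph H (g.M *ᵥ ej a) (g * bo t (c, p)).pt *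
        tt H g.pt (g.M *ᵥ ej d) (g * bo t (c, p)).pt).trace +
      (al a c t * be b c p t * star (be d c p t)) * (ph H (g.M *ᵥ ej a) (g * bo t (c, p)).pt *
        tt H g.pt g.pt (g * bo t (c, p)).pt).trace) +
      ((be a c p t * al b c t * star (al d c t)) * (ph H g.pt (g * bo t (c, p)).pt *
        tt H (g.M *ᵥ ej b) (g.M *ᵥ ej d) (g * bo t (c, p)).pt).trace +
      (be a c p t * al b c t * star (be d c p t)) * (ph H g.pt (g * bo t (c, p)).pt *
        tt H (g.M *ᵥ ej b) g.pt (g * bo t (c, p)).pt).trace +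
      ((be a c p t * be b c p t * star (al d c t)) * (ph H g.pt (g * bo t (c, p)).pt *
        tt H g.pt (g.M *ᵥ ej d) (g * bo t (c, p)).pt).trace +
      (be a c p t * be b c p t * star (be d c p t)) * (ph H g.pt (g * bo t (c, p)).pt *
        tt H g.pt g.pt (g * bo t (c, p)).pt).trace)) := by
    funext t
    have hv := (pt_mem (g * bo t (c, p))).1
    have x1 : ∀ a, (g * bo t (c, p)).M *ᵥ ej a =
        al a c t • (g.M *ᵥ ej a) + be a c p t • g.pt := fun a => path_ej g t a c p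
    rw [x1, x1, x1, ph_add, ph_smul, ph_smul, tt_add_u isOpen_Cn hp hs hv,
      tt_smul_u isOpen_Cn hp hs hv, tt_smul_u isOpen_Cn hp hs hv, tt_add_w, tt_add_w,
      tt_smul_w, tt_smul_w, tt_smul_w, tt_smul_w, tr8]
  rw [e]
  have t1 := hd_one ((haa.fun_mul hab).fun_mul had) (hΨ (g.M *ᵥ ej a) (g.M *ᵥ ej b)
    (g.M *ᵥ ej d)) (by simp) (by simp [al_zero])
  have t2 := hd_zero ((haa.fun_mul hab).fun_mul hbd) (hΨ (g.M *ᵥ ej a) (g.M *ᵥ ej b) g.pt)
    (by simp [be_zero]) (by rw [h0]; exact htr _ _)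
  have t3 := hd_zero ((haa.fun_mul hbb).fun_mul had) (hΨ (g.M *ᵥ ej a) g.pt (g.M *ᵥ ej d))
    (by simp [be_zero]) (by rw [h0]; exact htl _ _)
  have t4 := hd_zero ((haa.fun_mul hbb).fun_mul hbd) (hΨ (g.M *ᵥ ej a) g.pt g.pt)
    (by simp [be_zero]) (by rw [h0]; exact htl _ _)
  have t5 := hd_zero ((hba.fun_mul hab).fun_mul had) (hΨ g.pt (g.M *ᵥ ej b) (g.M *ᵥ ej d))
    (by simp [be_zero]) (by rw [h0]; exact hph0 _)
  have t6 := hd_zero ((hba.fun_mul hab).fun_mul hbd) (hΨ g.pt (g.M *ᵥ ej b) g.pt)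
    (by simp [be_zero]) (by rw [h0]; exact hph0 _)
  have t7 := hd_zero ((hba.fun_mul hbb).fun_mul had) (hΨ g.pt g.pt (g.M *ᵥ ej d))
    (by simp [be_zero]) (by rw [h0]; exact hph0 _)
  have t8 := hd_zero ((hba.fun_mul hbb).fun_mul hbd) (hΨ g.pt g.pt g.pt)
    (by simp [be_zero]) (by rw [h0]; exact hph0 _)
  have h := ((t1.fun_add t2).fun_add (t3.fun_add t4)).fun_add
    ((t5.fun_add t6).fun_add (t7.fun_add t8))
  simp only [add_zero] at h
  exact h

/-- module FRAME -/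
theorem frame_cont {H : (κ ⊕ Unit → ℂ) → Matrix n n ℝ} {σ : G →* GU κ} {ρ : G →* Matrix n n ℝ}
    (hH : EqC σ ρ H) (hs : Sm ∞ H (Cn κ)) (a b c d : κ) (p : Bool) :
    Continuous (fun g : GU κ => (ph H (g.M *ᵥ ej a) g.pt *
        tt H (g.M *ᵥ ej b) (g.M *ᵥ ej d) g.pt).trace) ∧
    Continuous (fun g : GU κ => fderiv ℝ (fun v => (ph H (g.M *ᵥ ej a) v *
        tt H (g.M *ᵥ ej b) (g.M *ᵥ ej d) v).trace) g.pt (g.dir (c, p))) := by
  have hp := hH.pos
  constructor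
  · have e : (fun g : GU κ => (ph H (g.M *ᵥ ej a) g.pt *
        tt H (g.M *ᵥ ej b) (g.M *ᵥ ej d) g.pt).trace) = fun g : GU κ =>
      ∑ q : (κ ⊕ Unit) × (κ ⊕ Unit) × (κ ⊕ Unit),
        ((g.M *ᵥ ej a) q.1 * (g.M *ᵥ ej b) q.2.1 * star ((g.M *ᵥ ej d) q.2.2)) *
        (ph H (Pi.single q.1 1) g.pt *
          tt H (Pi.single q.2.1 1) (Pi.single q.2.2 1) g.pt).trace := by
      funext g
      exact tr_sum hp hs (pt_mem g).1 _ _ _
    rw [e]
    refine continuous_finset_sum _ fun q _ => ?_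
    refine (((continuous_Mej a q.1).mul (continuous_Mej b q.2.1)).mul
      (continuous_Mej d q.2.2).star).mul ?_
    exact (trace_sm isOpen_Cn hp hs _ _ _).continuousOn.comp_continuous continuous_pt
      fun g => (pt_mem g).1
  · have e : (fun g : GU κ => fderiv ℝ (fun v => (ph H (g.M *ᵥ ej a) v *
        tt H (g.M *ᵥ ej b) (g.M *ᵥ ej d) v).trace) g.pt (g.dir (c, p))) = fun g : GU κ =>
      ∑ q : (κ ⊕ Unit) × (κ ⊕ Unit) × (κ ⊕ Unit),
        ((g.M *ᵥ ej a) q.1 * (g.M *ᵥ ej b) q.2.1 * star ((g.M *ᵥ ej d) q.2.2)) *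
        fderiv ℝ (fun v => (ph H (Pi.single q.1 1) v *
          tt H (Pi.single q.2.1 1) (Pi.single q.2.2 1) v).trace) g.pt (g.dir (c, p)) := by
      funext g
      exact fd_sum hp hs (pt_mem g).1 _ _ _ _
    rw [e]
    refine continuous_finset_sum _ fun q _ => ?_
    refine (((continuous_Mej a q.1).mul (continuous_Mej b q.2.1)).mul
      (continuous_Mej d q.2.2).star).mul ?_
    have h1 : Continuous (fun g : GU κ => fderiv ℝ (fun v => (ph H (Pi.single q.1 1) v *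
          tt H (Pi.single q.2.1 1) (Pi.single q.2.2 1) v).trace) g.pt) :=
      ((trace_sm isOpen_Cn hp hs _ _ _).continuousOn_fderiv_of_isOpen isOpen_Cn
        (by simp)).comp_continuous continuous_pt fun g => (pt_mem g).1
    exact h1.clm_apply (continuous_dir (c, p))

/-- module FRAME: invariance -/
theorem frame_inv {H : (κ ⊕ Unit → ℂ) → Matrix n n ℝ} {σ : G →* GU κ} {ρ : G →* Matrix n n ℝ}
    (hH : EqC σ ρ H) (hs : Sm ∞ H (Cn κ)) (γ : G) (u w v : κ ⊕ Unit → ℂ) (hv : v ∈ Cn κ) :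
    ph H ((σ γ).M *ᵥ u) ((σ γ).M *ᵥ v) =
      (ρ γ).map ((↑) : ℝ → ℂ) * ph H u v * (ρ γ⁻¹).map ((↑) : ℝ → ℂ) ∧
    tt H ((σ γ).M *ᵥ u) ((σ γ).M *ᵥ w) ((σ γ).M *ᵥ v) =
      (ρ γ).map ((↑) : ℝ → ℂ) * tt H u w v * (ρ γ⁻¹).map ((↑) : ℝ → ℂ) := by
  have hp := hH.pos
  obtain ⟨S, hS⟩ : ∃ S : Matrix n n ℂ, S = (ρ γ).map ((↑) : ℝ → ℂ) := ⟨_, rfl⟩
  obtain ⟨R, hR⟩ : ∃ R : Matrix n n ℂ, R = (ρ γ⁻¹).map ((↑) : ℝ → ℂ) := ⟨_, rfl⟩
  have hmul : ∀ A B : Matrix n n ℝ, (A * B).map ((↑) : ℝ → ℂ) =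
      A.map ((↑) : ℝ → ℂ) * B.map ((↑) : ℝ → ℂ) := by
    intro A B
    ext i j
    simp [Matrix.mul_apply]
  have hone : (1 : Matrix n n ℝ).map ((↑) : ℝ → ℂ) = 1 := by
    ext i j
    by_cases h : i = j
    · subst h
      simp
    · simp [h]
  have hSR : S * R = 1 := by
    rw [hS, hR, ← hmul, ← map_mul, mul_inv_cancel, map_one, hone]
  have hRS : R * S = 1 := by
    rw [hS, hR, ← hmul, ← map_mul, inv_mul_cancel, map_one, hone]
  have hRtSt : Rᵀ * Sᵀ = 1 := by rw [← transpose_mul, hSR, transpose_one]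
  have hStRt : Sᵀ * Rᵀ = 1 := by rw [← transpose_mul, hRS, transpose_one]
  have hmem : ∀ v ∈ Cn κ, (σ γ).M *ᵥ v ∈ Cn κ := by
    intro v hv
    show 0 < LowAux.nqC ((σ γ).M *ᵥ v)
    rw [LowAux.nqC_iso (σ γ).pres]
    exact hv
  have hcH : ∀ v ∈ Cn κ, cH H ((σ γ).M *ᵥ v) = Rᵀ * cH H v * R := by
    intro v hv
    unfold cH
    rw [hH.eqv γ v hv, hmul, hmul, hR]
    rfl
  have hinv : ∀ v ∈ Cn κ, (cH H ((σ γ).M *ᵥ v))⁻¹ = S * (cH H v)⁻¹ * Sᵀ := by
    intro v hv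
    apply Matrix.inv_eq_right_inv
    rw [hcH v hv]
    have h1 := mul_inv' isOpen_Cn hp hs hv
    calc Rᵀ * cH H v * R * (S * (cH H v)⁻¹ * Sᵀ) =
        Rᵀ * (cH H v * (R * S) * (cH H v)⁻¹) * Sᵀ := by simp only [Matrix.mul_assoc]
      _ = 1 := by rw [hRS, Matrix.mul_one, h1, Matrix.mul_one, hRtSt]
  have hdf : ∀ v ∈ Cn κ, Df (cH H) v := fun v hv => Sm.df isOpen_Cn (sm_cH hs) hv
  have hph : ∀ v ∈ Cn κ, ∀ u, ph H ((σ γ).M *ᵥ u) ((σ γ).M *ᵥ v) = S * ph H u v * R := by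
    intro v hv u
    have h1 := (chain_dz hcH hv (hdf _ (hmem v hv)) (hdf v hv) u).1
    rw [ph, ph, h1, hinv v hv]
    rw [mul_smul_comm, smul_mul_assoc]
    congr 1
    calc S * (cH H v)⁻¹ * Sᵀ * (Rᵀ * dz (cH H) u v * R) =
        S * (cH H v)⁻¹ * (Sᵀ * Rᵀ) * dz (cH H) u v * R := by simp only [Matrix.mul_assoc]
      _ = S * ((cH H v)⁻¹ * dz (cH H) u v) * R := by
        rw [hStRt, Matrix.mul_one]
        simp only [Matrix.mul_assoc]
  have hphb : ∀ v ∈ Cn κ, ∀ u, phb H ((σ γ).M *ᵥ u) ((σ γ).M *ᵥ v) = S * phb H u v * R := by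
    intro v hv u
    have h1 := (chain_dz hcH hv (hdf _ (hmem v hv)) (hdf v hv) u).2
    rw [phb, phb, h1, hinv v hv]
    rw [mul_smul_comm, smul_mul_assoc]
    congr 1
    calc S * (cH H v)⁻¹ * Sᵀ * (Rᵀ * dzb (cH H) u v * R) =
        S * (cH H v)⁻¹ * (Sᵀ * Rᵀ) * dzb (cH H) u v * R := by simp only [Matrix.mul_assoc]
      _ = S * ((cH H v)⁻¹ * dzb (cH H) u v) * R := by
        rw [hStRt, Matrix.mul_one]
        simp only [Matrix.mul_assoc]
  rw [← hS, ← hR]
  refine ⟨hph v hv u, ?_⟩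
  have h2 := (chain_dz (g := σ γ) (f := fun v' => ph H ((σ γ).M *ᵥ u) v')
    (k := fun v' => ph H u v') (X := S) (Y := R) (fun v hv => hph v hv u) hv
    (Sm.df isOpen_Cn (ph_sm isOpen_Cn hp hs _) (hmem v hv))
    (Sm.df isOpen_Cn (ph_sm isOpen_Cn hp hs _) hv) w).2
  rw [tt, tt, h2, hph v hv u, hphb v hv w, cm, cm]
  have h3 : ∀ A B : Matrix n n ℂ, S * A * R * (S * B * R) = S * (A * B) * R := by
    intro A B
    calc S * A * R * (S * B * R) = S * A * (R * S) * B * R := by simp only [Matrix.mul_assoc]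
      _ = S * (A * B) * R := by
        rw [hRS, Matrix.mul_one]
        simp only [Matrix.mul_assoc]
  rw [h3, h3]
  simp only [mul_add, add_mul, mul_sub, sub_mul]

end Pool.Agent.MPd01a95
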