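import Mathlib
import Pool.Agent.Lib.MP_d01a95_gt_H.HDefs
import Pool.Agent.Lib.MP_d01a95_gt_H.Unimod
import Pool.Agent.Lib.MP_d01a95_gt_H.Mcalc
import Pool.Agent.Lib.MP_d01a95_gt_H.Curv
import Pool.Agent.Lib.MP_d01a95_gt_H.Cone
import Pool.Agent.Lib.MP_d01a95_gt_H.Div
import Pool.Agent.Lib.MP_d01a95_gt_H.Frame

set_option autoImplicit false
set_option linter.all false

open Matrix Filter Topology MeasureTheory Measure
open scoped ENNReal NNReal ContDiff

namespace Pool.Agent.MPd01a95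

open GU

variable {κ n ι α : Type} [Fintype κ] [DecidableEq κ] [Fintype n] [DecidableEq n]
  [Fintype ι] [DecidableEq ι] [Fintype α] [DecidableEq α] {G : Type} [Group G]

namespace SiuAux

open CurvAux

section cont

variable {X E : Type} [TopologicalSpace X] [NormedAddCommGroup E] [NormedSpace ℂ E] {Ω : Set E}

theorem DM_cont (hΩ : IsOpen Ω) {f : E → Matrix n n ℂ} (hf : Sm ∞ f Ω) {u v : X → E}
    (hu : Continuous u) (hv : Continuous v) (hvΩ : ∀ x, v x ∈ Ω) :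
    Continuous fun x => DM f (v x) (u x) := by
  refine continuous_matrix fun i j => ?_
  have h1 : ContinuousOn (fderiv ℝ (fun w => f w i j)) Ω :=
    (hf i j).continuousOn_fderiv_of_isOpen hΩ (by simp)
  exact (h1.comp_continuous hv hvΩ).clm_apply hu

theorem DDM_eq (hΩ : IsOpen Ω) {f : E → Matrix n n ℂ} (hf : Sm ∞ f Ω) {v : E} (hv : v ∈ Ω)
    (u w : E) (i j : n) : DM (fun v' => DM f v' u) v w i j =
      (fderiv ℝ (fderiv ℝ (fun w => f w i j)) v w) u := by
  show fderiv ℝ (fun v' => fderiv ℝ (fun w => f w i j) v' u) v w = _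
  have h0 : ContDiffOn ℝ ∞ (fderiv ℝ (fun w => f w i j)) Ω :=
    (hf i j).fderiv_of_isOpen hΩ (by simp)
  have h1 : DifferentiableAt ℝ (fderiv ℝ (fun w => f w i j)) v :=
    (h0.contDiffAt (hΩ.mem_nhds hv)).differentiableAt (by simp)
  rw [fderiv_clm_apply h1 (differentiableAt_const u)]
  simp

theorem DDM_cont (hΩ : IsOpen Ω) {f : E → Matrix n n ℂ} (hf : Sm ∞ f Ω) {u w v : X → E}
    (hu : Continuous u) (hw : Continuous w) (hv : Continuous v) (hvΩ : ∀ x, v x ∈ Ω) :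
    Continuous fun x => DM (fun v' => DM f v' (u x)) (v x) (w x) := by
  refine continuous_matrix fun i j => ?_
  have h0 : ContDiffOn ℝ ∞ (fderiv ℝ (fun w => f w i j)) Ω :=
    (hf i j).fderiv_of_isOpen hΩ (by simp)
  have h1 : ContinuousOn (fderiv ℝ (fderiv ℝ (fun w => f w i j))) Ω :=
    h0.continuousOn_fderiv_of_isOpen hΩ (by simp)
  simp only [DDM_eq hΩ hf (hvΩ _)]
  exact ((h1.comp_continuous hv hvΩ).clm_apply hw).clm_apply hu

theorem dz_cont (hΩ : IsOpen Ω) {f : E → Matrix n n ℂ} (hf : Sm ∞ f Ω) {u v : X → E}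
    (hu : Continuous u) (hv : Continuous v) (hvΩ : ∀ x, v x ∈ Ω) :
    Continuous fun x => dz f (u x) (v x) := by
  unfold dz
  exact ((DM_cont hΩ hf hu hv hvΩ).sub
    ((DM_cont hΩ hf (hu.const_smul Complex.I) hv hvΩ).const_smul Complex.I)).const_smul (1 / 2 : ℂ)

theorem dzb_cont (hΩ : IsOpen Ω) {f : E → Matrix n n ℂ} (hf : Sm ∞ f Ω) {u v : X → E}
    (hu : Continuous u) (hv : Continuous v) (hvΩ : ∀ x, v x ∈ Ω) :
    Continuous fun x => dzb f (u x) (v x) := by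
  unfold dzb
  exact ((DM_cont hΩ hf hu hv hvΩ).add
    ((DM_cont hΩ hf (hu.const_smul Complex.I) hv hvΩ).const_smul Complex.I)).const_smul (1 / 2 : ℂ)

theorem dzbdz_cont (hΩ : IsOpen Ω) {f : E → Matrix n n ℂ} (hf : Sm ∞ f Ω) {u w v : X → E}
    (hu : Continuous u) (hw : Continuous w) (hv : Continuous v) (hvΩ : ∀ x, v x ∈ Ω) :
    Continuous fun x => dzb (fun v' => dz f (u x) v') (w x) (v x) := by
  have e : ∀ x, dzb (fun v' => dz f (u x) v') (w x) (v x) =
      (1 / 2 : ℂ) • ((1 / 2 : ℂ) • (DM (fun v' => DM f v' (u x)) (v x) (w x) -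
        Complex.I • DM (fun v' => DM f v' (Complex.I • u x)) (v x) (w x)) +
      Complex.I • ((1 / 2 : ℂ) • (DM (fun v' => DM f v' (u x)) (v x) (Complex.I • w x) -
        Complex.I • DM (fun v' => DM f v' (Complex.I • u x)) (v x) (Complex.I • w x)))) := by
    intro x
    rw [dzb, DM_dz hΩ hf (hvΩ x), DM_dz hΩ hf (hvΩ x)]
  simp only [e]
  have hIu := hu.const_smul Complex.I
  have hIw := hw.const_smul Complex.I
  exact ((((DDM_cont hΩ hf hu hw hv hvΩ).sub
    ((DDM_cont hΩ hf hIu hw hv hvΩ).const_smul Complex.I)).const_smul (1 / 2 : ℂ)).add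
    ((((DDM_cont hΩ hf hu hIw hv hvΩ).sub
    ((DDM_cont hΩ hf hIu hIw hv hvΩ).const_smul Complex.I)).const_smul (1 / 2 : ℂ)).const_smul
      Complex.I)).const_smul (1 / 2 : ℂ)

variable {H : E → Matrix n n ℝ} (hΩ : IsOpen Ω) (hp : ∀ v ∈ Ω, (H v).PosDef) (hs : Sm ∞ H Ω)

include hΩ hp hs

theorem cHinv_cont {v : X → E} (hv : Continuous v) (hvΩ : ∀ x, v x ∈ Ω) :
    Continuous fun x => (cH H (v x))⁻¹ := by
  refine continuous_matrix fun i j => ?_
  exact (CurvAux.sm_inv hΩ hp hs i j).continuousOn.comp_continuous hv hvΩ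

omit hp in
theorem cH_cont {v : X → E} (hv : Continuous v) (hvΩ : ∀ x, v x ∈ Ω) :
    Continuous fun x => cH H (v x) := by
  refine continuous_matrix fun i j => ?_
  exact (CurvAux.sm_cH hs i j).continuousOn.comp_continuous hv hvΩ

theorem ph_cont {u v : X → E} (hu : Continuous u) (hv : Continuous v) (hvΩ : ∀ x, v x ∈ Ω) :
    Continuous fun x => ph H (u x) (v x) := by
  unfold ph
  exact ((cHinv_cont hΩ hp hs hv hvΩ).matrix_mul
    (dz_cont hΩ (sm_cH hs) hu hv hvΩ)).const_smul (1 / 2 : ℂ)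

theorem phb_cont {u v : X → E} (hu : Continuous u) (hv : Continuous v) (hvΩ : ∀ x, v x ∈ Ω) :
    Continuous fun x => phb H (u x) (v x) := by
  unfold phb
  exact ((cHinv_cont hΩ hp hs hv hvΩ).matrix_mul
    (dzb_cont hΩ (sm_cH hs) hu hv hvΩ)).const_smul (1 / 2 : ℂ)

theorem tt_cont {u w v : X → E} (hu : Continuous u) (hw : Continuous w) (hv : Continuous v)
    (hvΩ : ∀ x, v x ∈ Ω) : Continuous fun x => tt H (u x) (w x) (v x) := by
  simp only [tt_eq hΩ hp hs (hvΩ _)]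
  exact ((((cHinv_cont hΩ hp hs hv hvΩ).matrix_mul
    (dzbdz_cont hΩ (sm_cH hs) hu hw hv hvΩ)).const_smul (1 / 2 : ℂ)).sub
    ((phb_cont hΩ hp hs hw hv hvΩ).matrix_mul (ph_cont hΩ hp hs hu hv hvΩ))).sub
    ((ph_cont hΩ hp hs hu hv hvΩ).matrix_mul (phb_cont hΩ hp hs hw hv hvΩ))

end cont

theorem cut_integrable {σ : G →* GU κ} (μ : Measure (GU κ)) [IsHaarMeasure μ]
    {χ : GU κ → ℝ} (hχ : Cut σ χ) {F : GU κ → ℂ} (hF : Continuous F) :
    Integrable (fun g => (χ g : ℂ) * F g) μ := by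
  obtain ⟨R, hR⟩ := hχ.supp
  have hc : Continuous fun g => (χ g : ℂ) * F g :=
    (Complex.continuous_ofReal.comp hχ.cont).mul hF
  refine hc.integrable_of_hasCompactSupport (HasCompactSupport.intro (isCompact_c R) ?_)
  intro g hg
  have : χ g = 0 := by
    by_contra h
    exact hg (hR g h)
  simp [this]

theorem cut_integrable_re {σ : G →* GU κ} (μ : Measure (GU κ)) [IsHaarMeasure μ]
    {χ : GU κ → ℝ} (hχ : Cut σ χ) {F : GU κ → ℝ} (hF : Continuous F) :
    Integrable (fun g => χ g * F g) μ := by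
  obtain ⟨R, hR⟩ := hχ.supp
  have hc : Continuous fun g => χ g * F g := hχ.cont.mul hF
  refine hc.integrable_of_hasCompactSupport (HasCompactSupport.intro (isCompact_c R) ?_)
  intro g hg
  have : χ g = 0 := by
    by_contra h
    exact hg (hR g h)
  simp [this]

end SiuAux

open SiuAux in
/-- module SIU -/
theorem siu_sampson {σ : G →* GU κ} (hL : Lat σ)
    (μ : Measure (GU κ)) [IsHaarMeasure μ] {χ : GU κ → ℝ} (hχ : Cut σ χ)
    (ρ : G →* Matrix n n ℝ) {H : (κ ⊕ Unit → ℂ) → Matrix n n ℝ} (hH : EqC σ ρ H)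
    (hs : Sm ∞ H (Cn κ)) :
    (∑ a, ∑ c, ∫ g, χ g * nm H g.pt (tt H (g.M *ᵥ ej a) (g.M *ᵥ ej c) g.pt) ∂μ) +
      (∑ a, ∑ c, ∫ g, χ g * nm H g.pt
        (cm (ph H (g.M *ᵥ ej a) g.pt) (ph H (g.M *ᵥ ej c) g.pt)) ∂μ) =
      ∫ g, χ g * nm H g.pt (∑ a, tt H (g.M *ᵥ ej a) (g.M *ᵥ ej a) g.pt) ∂μ := by
  have hΩ : IsOpen (Cn κ) := isOpen_Cn
  have hp := hH.pos
  have hpt : ∀ g : GU κ, g.pt ∈ Cn κ := fun g => (pt_mem g).1
  -- continuity of the frame
  have cu : ∀ a : κ, Continuous fun g : GU κ => g.M *ᵥ ej a := fun a =>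
    GU.continuous_M.matrix_mulVec continuous_const
  have cv : Continuous fun g : GU κ => g.pt := GU.continuous_M.matrix_mulVec continuous_const
  have cT : ∀ a c, Continuous fun g : GU κ => tt H (g.M *ᵥ ej a) (g.M *ᵥ ej c) g.pt :=
    fun a c => tt_cont hΩ hp hs (cu a) (cu c) cv hpt
  have cφ : ∀ a, Continuous fun g : GU κ => ph H (g.M *ᵥ ej a) g.pt :=
    fun a => ph_cont hΩ hp hs (cu a) cv hpt
  have ci := cHinv_cont hΩ hp hs cv hpt
  have cc := cH_cont hΩ hs cv hpt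
  have cnm : ∀ {A : GU κ → Matrix n n ℂ}, Continuous A → Continuous fun g => nm H g.pt (A g) := by
    intro A hA
    unfold nm
    exact Complex.continuous_re.comp
      ((((hA.matrix_mul ci).matrix_mul hA.matrix_conjTranspose).matrix_mul cc).matrix_trace)
  -- integration by parts
  have ibp : ∀ a b d c : κ, ∀ p : Bool, ∫ g, (χ g : ℂ) * fderiv ℝ (fun v =>
      (ph H (g.M *ᵥ ej a) v * tt H (g.M *ᵥ ej b) (g.M *ᵥ ej d) v).trace) g.pt (g.dir (c, p)) ∂μ =
      0 := by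
    intro a b d c p
    refine div_zero' hL μ hχ (c, p) (fun g : GU κ => (ph H (g.M *ᵥ ej a) g.pt *
      tt H (g.M *ᵥ ej b) (g.M *ᵥ ej d) g.pt).trace) _ (frame_cont hH hs a b c d p).1
      (frame_cont hH hs a b c d p).2 ?_ (fun g => frame_deriv hH hs a b c d p g)
    intro γ g
    have e1 := frame_inv hH hs γ (g.M *ᵥ ej a) (g.M *ᵥ ej a) g.pt (hpt g)
    have e2 := frame_inv hH hs γ (g.M *ᵥ ej b) (g.M *ᵥ ej d) g.pt (hpt g)
    have e3 : (σ γ * g).pt = (σ γ).M *ᵥ g.pt := by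
      simp only [GU.pt, GU.M_mul, Matrix.mulVec_mulVec]
    have e4 : ∀ a, (σ γ * g).M *ᵥ ej a = (σ γ).M *ᵥ (g.M *ᵥ ej a) := by
      intro a
      simp only [GU.M_mul, Matrix.mulVec_mulVec]
    show (ph H ((σ γ * g).M *ᵥ ej a) (σ γ * g).pt *
      tt H ((σ γ * g).M *ᵥ ej b) ((σ γ * g).M *ᵥ ej d) (σ γ * g).pt).trace = _
    rw [e3, e4, e4, e4, e1.1, e2.2]
    have hri : (ρ γ⁻¹).map ((↑) : ℝ → ℂ) * (ρ γ).map ((↑) : ℝ → ℂ) = 1 := by
      have h1 : ρ γ⁻¹ * ρ γ = 1 := by rw [← map_mul, inv_mul_cancel, map_one]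
      have h2 : (ρ γ⁻¹ * ρ γ).map ((↑) : ℝ → ℂ) = 1 := by
        rw [h1, Matrix.map_one _ Complex.ofReal_zero Complex.ofReal_one]
      rw [← h2]
      ext i j
      simp [Matrix.mul_apply]
    set R := (ρ γ).map ((↑) : ℝ → ℂ)
    set R' := (ρ γ⁻¹).map ((↑) : ℝ → ℂ)
    set A := ph H (g.M *ᵥ ej a) g.pt
    set B := tt H (g.M *ᵥ ej b) (g.M *ᵥ ej d) g.pt
    calc (R * A * R' * (R * B * R')).trace = (R * (A * (R' * R) * B * R')).trace := by
          simp only [Matrix.mul_assoc]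
      _ = (A * B * (R' * R)).trace := by
          rw [Matrix.trace_mul_comm, hri]
          simp only [Matrix.mul_one, Matrix.mul_assoc, hri]
      _ = (A * B).trace := by rw [hri, Matrix.mul_one]
  -- the pointwise identity
  set EF : κ → κ → κ → κ → GU κ → ℂ := fun a b d c g =>
    (1 / 2 : ℂ) * (fderiv ℝ (fun v => (ph H (g.M *ᵥ ej a) v *
      tt H (g.M *ᵥ ej b) (g.M *ᵥ ej d) v).trace) g.pt (g.dir (c, true)) +
      Complex.I * fderiv ℝ (fun v => (ph H (g.M *ᵥ ej a) v *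
      tt H (g.M *ᵥ ej b) (g.M *ᵥ ej d) v).trace) g.pt (g.dir (c, false))) with hEF
  have cEF : ∀ a b d c, Continuous (EF a b d c) := by
    intro a b d c
    exact continuous_const.mul ((frame_cont hH hs a b c d true).2.add
      (continuous_const.mul (frame_cont hH hs a b c d false).2))
  have iEF : ∀ a b d c, ∫ g, (χ g : ℂ) * EF a b d c g ∂μ = 0 := by
    intro a b d c
    have i1 := cut_integrable μ hχ (frame_cont hH hs a b c d true).2
    have i2 := cut_integrable μ hχ (frame_cont hH hs a b c d false).2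
    have e : ∀ g, (χ g : ℂ) * EF a b d c g =
        (1 / 2 : ℂ) * ((χ g : ℂ) * fderiv ℝ (fun v => (ph H (g.M *ᵥ ej a) v *
      tt H (g.M *ᵥ ej b) (g.M *ᵥ ej d) v).trace) g.pt (g.dir (c, true))) +
      (1 / 2 * Complex.I) * ((χ g : ℂ) * fderiv ℝ (fun v => (ph H (g.M *ᵥ ej a) v *
      tt H (g.M *ᵥ ej b) (g.M *ᵥ ej d) v).trace) g.pt (g.dir (c, false))) := by
      intro g
      simp only [hEF]
      ring
    simp only [e]
    rw [integral_add (i1.const_mul _) (i2.const_mul _), integral_const_mul, integral_const_mul,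
      ibp, ibp]
    simp
  have eEF : ∀ a b d c g, EF a b d c g =
      (tt H (g.M *ᵥ ej a) (g.M *ᵥ ej c) g.pt * tt H (g.M *ᵥ ej b) (g.M *ᵥ ej d) g.pt).trace +
      (ph H (g.M *ᵥ ej a) g.pt * nb H (g.M *ᵥ ej c)
        (fun v => tt H (g.M *ᵥ ej b) (g.M *ᵥ ej d) v) g.pt).trace := by
    intro a b d c g
    have h1 := nb_trace hΩ hp hs (ph_smooth hΩ hp hs (g.M *ᵥ ej a)).1
      ((ph_smooth hΩ hp hs (g.M *ᵥ ej b)).2.2 (g.M *ᵥ ej d)) (hpt g) (g.M *ᵥ ej c)
    have d1 : g.dir (c, true) = g.M *ᵥ ej c := by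
      simp [GU.dir, GU.wb]
    have d2 : g.dir (c, false) = Complex.I • (g.M *ᵥ ej c) := by
      simp [GU.dir, GU.wb, Matrix.mulVec_smul]
    simp only [hEF]
    rw [d1, d2]
    exact h1
  have key : ∀ a c : κ, ∀ g : GU κ, (EF a c a c g - EF a c c a g).re =
      nm H g.pt (tt H (g.M *ᵥ ej a) (g.M *ᵥ ej c) g.pt) +
      nm H g.pt (cm (ph H (g.M *ᵥ ej a) g.pt) (ph H (g.M *ᵥ ej c) g.pt)) -
      ((tt H (g.M *ᵥ ej a) (g.M *ᵥ ej a) g.pt) *
        (tt H (g.M *ᵥ ej c) (g.M *ᵥ ej c) g.pt)).trace.re := by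
    intro a c g
    set ua := g.M *ᵥ ej a
    set uc := g.M *ᵥ ej c
    set v := g.pt
    have hv : v ∈ Cn κ := hpt g
    have h1 := nb_comm hΩ hp hs (ph_smooth hΩ hp hs uc).1 hv ua uc
    have h2 : nb H uc (fun v' => tt H uc ua v') v - nb H ua (fun v' => tt H uc uc v') v =
        - cm (cm (phb H uc v) (phb H ua v)) (ph H uc v) := h1
    have h3 : nm H v (tt H ua uc v) = (tt H ua uc v * tt H uc ua v).trace.re := by
      rw [nm, ← tt_adj hΩ hp hs hv ua uc]
      simp only [Matrix.mul_assoc]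
    have hunit : IsUnit (cH H v).det := CurvAux.cH_det hΩ hp hs hv
    have h4 : (cH H v)⁻¹ * (cm (ph H ua v) (ph H uc v))ᴴ * cH H v =
        cm (phb H uc v) (phb H ua v) := by
      have key : ∀ X Y : Matrix n n ℂ, (cH H v)⁻¹ * (X * Y) * cH H v =
          ((cH H v)⁻¹ * X * cH H v) * ((cH H v)⁻¹ * Y * cH H v) := by
        intro X Y
        calc (cH H v)⁻¹ * (X * Y) * cH H v = (cH H v)⁻¹ * X * 1 * Y * cH H v := by
              simp only [Matrix.mul_one, Matrix.mul_assoc]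
          _ = _ := by rw [← Matrix.mul_nonsing_inv _ hunit]; simp only [Matrix.mul_assoc]
      rw [cm, Matrix.conjTranspose_sub, Matrix.conjTranspose_mul, Matrix.conjTranspose_mul,
        Matrix.mul_sub, Matrix.sub_mul, key, key, ph_adj hΩ hp hs hv, ph_adj hΩ hp hs hv, cm]
    have h5 : nm H v (cm (ph H ua v) (ph H uc v)) =
        (cm (ph H ua v) (ph H uc v) * cm (phb H uc v) (phb H ua v)).trace.re := by
      rw [nm, ← h4]
      simp only [Matrix.mul_assoc]
    rw [h3, h5, eEF, eEF]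
    have h6 : (ph H ua v * nb H uc (fun v' => tt H uc ua v') v).trace =
        (ph H ua v * nb H ua (fun v' => tt H uc uc v') v).trace -
        (ph H ua v * cm (cm (phb H uc v) (phb H ua v)) (ph H uc v)).trace := by
      rw [← Matrix.trace_sub, ← Matrix.mul_sub]
      congr 2
      rw [sub_eq_iff_eq_add] at h2
      rw [h2]
      abel
    have h7 : (ph H ua v * cm (cm (phb H uc v) (phb H ua v)) (ph H uc v)).trace =
        - (cm (ph H ua v) (ph H uc v) * cm (phb H uc v) (phb H ua v)).trace := by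
      set X := cm (phb H uc v) (phb H ua v)
      simp only [cm, Matrix.mul_sub, Matrix.sub_mul, Matrix.trace_sub]
      have t1 : (ph H ua v * (X * ph H uc v)).trace = (ph H uc v * ph H ua v * X).trace := by
        rw [← Matrix.mul_assoc, Matrix.trace_mul_comm, Matrix.mul_assoc]
      rw [t1]
      simp only [Matrix.mul_assoc]
      ring
    rw [h6, h7]
    simp only [Complex.sub_re, Complex.add_re, Complex.neg_re]
    ring
  have ikey : ∀ a c : κ, ∫ g, χ g * nm H g.pt (tt H (g.M *ᵥ ej a) (g.M *ᵥ ej c) g.pt) ∂μ +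
      ∫ g, χ g * nm H g.pt (cm (ph H (g.M *ᵥ ej a) g.pt) (ph H (g.M *ᵥ ej c) g.pt)) ∂μ =
      ∫ g, χ g * ((tt H (g.M *ᵥ ej a) (g.M *ᵥ ej a) g.pt) *
        (tt H (g.M *ᵥ ej c) (g.M *ᵥ ej c) g.pt)).trace.re ∂μ := by
    intro a c
    have c1 := cut_integrable_re μ hχ (cnm (cT a c))
    have c2 := cut_integrable_re μ hχ (cnm (A := fun g => cm (ph H (g.M *ᵥ ej a) g.pt)
      (ph H (g.M *ᵥ ej c) g.pt)) (((cφ a).matrix_mul (cφ c)).sub ((cφ c).matrix_mul (cφ a))))
    have c3 := cut_integrable_re μ hχ (F := fun g => ((tt H (g.M *ᵥ ej a) (g.M *ᵥ ej a) g.pt) *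
        (tt H (g.M *ᵥ ej c) (g.M *ᵥ ej c) g.pt)).trace.re)
      (Complex.continuous_re.comp ((cT a a).matrix_mul (cT c c)).matrix_trace)
    have i1 := cut_integrable μ hχ (cEF a c a c)
    have i2 := cut_integrable μ hχ (cEF a c c a)
    have e0 : ∫ g, (χ g : ℂ) * (EF a c a c g - EF a c c a g) ∂μ = 0 := by
      simp only [mul_sub]
      rw [integral_sub i1 i2, iEF, iEF, sub_zero]
    have e1 : ∫ g, χ g * (EF a c a c g - EF a c c a g).re ∂μ = 0 := by
      have i3 : Integrable (fun g => (χ g : ℂ) * (EF a c a c g - EF a c c a g)) μ := by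
        simp only [mul_sub]
        exact i1.sub i2
      have e2 := integral_re i3
      rw [e0] at e2
      have e3 : ∀ g, RCLike.re ((χ g : ℂ) * (EF a c a c g - EF a c c a g)) =
          χ g * (EF a c a c g - EF a c c a g).re := by
        intro g
        show ((χ g : ℂ) * (EF a c a c g - EF a c c a g)).re = _
        rw [Complex.re_ofReal_mul]
      simp only [e3] at e2
      rw [e2]; simp
    simp only [key, mul_sub, mul_add] at e1
    have c12 : Integrable (fun g => χ g * nm H g.pt (tt H (g.M *ᵥ ej a) (g.M *ᵥ ej c) g.pt) +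
      χ g * nm H g.pt (cm (ph H (g.M *ᵥ ej a) g.pt) (ph H (g.M *ᵥ ej c) g.pt))) μ := c1.add c2
    rw [integral_sub c12 c3, integral_add c1 c2] at e1
    linarith
  rw [← Finset.sum_add_distrib]
  have e1 : ∀ a, (∑ c, ∫ g, χ g * nm H g.pt (tt H (g.M *ᵥ ej a) (g.M *ᵥ ej c) g.pt) ∂μ) +
      (∑ c, ∫ g, χ g * nm H g.pt
        (cm (ph H (g.M *ᵥ ej a) g.pt) (ph H (g.M *ᵥ ej c) g.pt)) ∂μ) =
      ∫ g, ∑ c, χ g * ((tt H (g.M *ᵥ ej a) (g.M *ᵥ ej a) g.pt) *
        (tt H (g.M *ᵥ ej c) (g.M *ᵥ ej c) g.pt)).trace.re ∂μ := by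
    intro a
    rw [← Finset.sum_add_distrib, integral_finset_sum]
    · exact Finset.sum_congr rfl fun c _ => ikey a c
    · intro c _
      exact cut_integrable_re μ hχ
        (Complex.continuous_re.comp ((cT a a).matrix_mul (cT c c)).matrix_trace)
  simp only [e1]
  rw [← integral_finset_sum]
  · congr 1
    ext g
    have hunit : IsUnit (cH H g.pt).det := CurvAux.cH_det hΩ hp hs (hpt g)
    have h1 : (cH H g.pt)⁻¹ * (∑ a, tt H (g.M *ᵥ ej a) (g.M *ᵥ ej a) g.pt)ᴴ * cH H g.pt =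
        ∑ a, tt H (g.M *ᵥ ej a) (g.M *ᵥ ej a) g.pt := by
      rw [Matrix.conjTranspose_sum, Finset.mul_sum, Finset.sum_mul]
      exact Finset.sum_congr rfl fun a _ => tt_adj hΩ hp hs (hpt g) _ _
    have h2 : nm H g.pt (∑ a, tt H (g.M *ᵥ ej a) (g.M *ᵥ ej a) g.pt) =
        ((∑ a, tt H (g.M *ᵥ ej a) (g.M *ᵥ ej a) g.pt) *
          (∑ a, tt H (g.M *ᵥ ej a) (g.M *ᵥ ej a) g.pt)).trace.re := by
      conv_rhs => rw [← h1]
      rw [nm, h1]
      simp only [Matrix.mul_assoc]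
      rw [← Matrix.mul_assoc (cH H g.pt)⁻¹, h1]
    rw [h2, Finset.sum_mul, Matrix.trace_sum, Complex.re_sum, Finset.mul_sum]
    refine Finset.sum_congr rfl fun a _ => ?_
    rw [Finset.mul_sum, Matrix.trace_sum, Complex.re_sum, Finset.mul_sum]
  · intro a _
    refine integrable_finset_sum _ fun c _ => ?_
    exact cut_integrable_re μ hχ
      (Complex.continuous_re.comp ((cT a a).matrix_mul (cT c c)).matrix_trace)

end Pool.Agent.MPd01a95
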