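import Mathlib
import Pool.Agent.Lib.MP_d01a95_gt.Defs
import Pool.Agent.Lib.MP_d01a95_gt.Core
import Pool.Agent.Lib.MP_d01a95_gt.Hol2
import Pool.Agent.Lib.MP_d01a95_gt.Irr
import Pool.Agent.Lib.MP_d01a95_gt_H.HDefs
import Pool.Agent.Lib.MP_d01a95_gt_H.HDefs2
import Pool.Agent.Lib.MP_d01a95_gt_H.Unimod
import Pool.Agent.Lib.MP_d01a95_gt_H.ExMin
import Pool.Agent.Lib.MP_d01a95_gt_H.L2
import Pool.Agent.Lib.MP_d01a95_gt_H.Basic
import Pool.Agent.Lib.MP_d01a95_gt_H.Cone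
import Pool.Agent.Lib.MP_d01a95_gt_H.Eqf
import Pool.Agent.Lib.MP_d01a95_gt_H.Enf
import Pool.Agent.Lib.MP_d01a95_gt_H.Irr
import Pool.Agent.Lib.MP_d01a95_gt_H.MinMap
import Pool.Agent.Lib.MP_d01a95_gt_H.Lip
import Pool.Agent.Lib.MP_d01a95_gt_H.FV1
import Pool.Agent.Lib.MP_d01a95_gt_H.FV2
import Pool.Agent.Lib.MP_d01a95_gt_H.FV3
import Pool.Agent.Lib.MP_d01a95_gt_H.Approx
import Pool.Agent.Lib.MP_d01a95_gt_H.Siu
import Pool.Agent.Lib.MP_d01a95_gt_H.Glim1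
import Pool.Agent.Lib.MP_d01a95_gt_H.Glim2
import Pool.Agent.Lib.MP_d01a95_gt_H.Glim3
import Pool.Agent.Lib.MP_d01a95_gt_H.Greg
import Pool.Agent.Lib.MP_d01a95_gt_H.Gres
import Pool.Agent.Lib.MP_d01a95_gt_H.Levi
import Pool.Agent.Lib.MP_d01a95_gt_H.Prop
import Pool.Agent.Lib.MP_d01a95_gt_H.Lift
import Pool.Agent.Lib.MP_d01a95_gt_H.Equiv
import Pool.Agent.Lib.MP_d01a95_gt_H.Static
import Pool.Agent.Lib.MP_d01a95_gt_H.Proper

set_option autoImplicit false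
set_option linter.all false

/-!
# Assembly: no uniform lattice of `U(m,1)`, `m ≥ 3`, has a Zariski-dense AdS-proper representation
-/

open Matrix Filter Topology MeasureTheory Measure
open scoped ENNReal NNReal ContDiff

namespace Pool.Agent.MPd01a95

open GU

variable {κ n ι α : Type} [Fintype κ] [DecidableEq κ] [Fintype n] [DecidableEq n]
  [Fintype ι] [DecidableEq ι] [Fintype α] [DecidableEq α] {G : Type} [Group G]

/-- from the pluriharmonic map to the equivariant holomorphic map -/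
theorem endgame (hκ : 3 ≤ Fintype.card κ)
    (ρ : G →* Matrix (ι ⊕ Fin 2) (ι ⊕ Fin 2) ℝ) (hρ : ∀ g, (ρ g)ᵀ * J ι * ρ g = J ι)
    (σ : G →* Matrix (κ ⊕ Unit) (κ ⊕ Unit) ℂ) (hσ : ∀ g, (σ g)ᴴ * JC κ * σ g = JC κ)
    (h : (κ → ℂ) → Matrix (ι ⊕ Fin 2) (ι ⊕ Fin 2) ℝ) (hh : PHB (J ι) h)
    (heq : ∀ g, ∀ z ∈ HolAux.Bl κ, h (act (σ g) z) = (ρ g⁻¹)ᵀ * h z * ρ g⁻¹)
    (hprop : ∀ R : ℝ, ∃ r < 1, ∀ z ∈ HolAux.Bl κ, (h z).trace ≤ R → ∑ i, ‖z i‖ ^ 2 ≤ r) :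
    ∃ s, HolEq ρ σ s := by
  obtain hinj := levi hh hprop
  obtain ⟨ε, hε, h0⟩ := propagate hh hκ hinj
  refine ⟨fun z i => sl ε (h z) i /
      (sl ε (h z) (Sum.inr 0) - ε * Complex.I * sl ε (h z) (Sum.inr 1)), ?_, ?_, ?_⟩
  · rw [differentiableOn_pi]
    exact fun i => lift_hol hh hε h0 i
  · intro z hz
    have hz' : z ∈ HolAux.Bl κ := hz
    have h1 := sl_iso (hh.pos z hz') (hh.hJ z hz') hε
    have h2 := sl_neg (hh.pos z hz') (hh.hJ z hz') hε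
    have h3 := sl_coord (hh.pos z hz') (hh.hJ z hz') hε
    rw [bJ, Fin.sum_univ_two] at h1
    set l := sl ε (h z) (Sum.inr 0) - ε * Complex.I * sl ε (h z) (Sum.inr 1) with hl
    constructor
    · simp only [div_pow]
      rw [← Finset.sum_div, ← add_div]
      congr 1
      simp only [sq]
      linear_combination h1
    · simp only [norm_div, div_pow]
      rw [← Finset.sum_div, ← add_div]
      have hl0 : 0 < ‖l‖ ^ 2 := by positivity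
      exact (div_lt_div_iff_of_pos_right hl0).mpr h2
  · intro g z hz
    have hz' : z ∈ HolAux.Bl κ := hz
    obtain ⟨c, hc⟩ := lift_equiv hh (by omega) hρ σ hσ heq hinj hε h0 g z hz'
    have h3 := sl_coord (hh.pos z hz') (hh.hJ z hz') hε
    refine ⟨c * (sl ε (h z) (Sum.inr 0) - ε * Complex.I * sl ε (h z) (Sum.inr 1)) /
      (sl ε (h (act (σ g) z)) (Sum.inr 0) -
        ε * Complex.I * sl ε (h (act (σ g) z)) (Sum.inr 1)), ?_⟩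
    set l := sl ε (h z) (Sum.inr 0) - ε * Complex.I * sl ε (h z) (Sum.inr 1) with hl
    have e : (fun i => sl ε (h z) i / l) = l⁻¹ • sl ε (h z) := by
      ext i; simp [div_eq_inv_mul]
    have e2 : (ρ g).map Complex.ofReal *ᵥ (fun i => sl ε (h z) i / l) =
        l⁻¹ • ((ρ g).map Complex.ofReal *ᵥ sl ε (h z)) := by
      rw [e, Matrix.mulVec_smul]
    ext i
    have h4 := congrFun hc i
    have h5 := congrFun e2 i
    simp only [Pi.smul_apply, smul_eq_mul] at h4 h5 ⊢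
    change sl ε (h (act (σ g) z)) i / _ =
      _ * ((ρ g).map Complex.ofReal *ᵥ (fun i => sl ε (h z) i / l)) i
    rw [h5, h4]
    field_simp

/-- from the minimiser to the harmonic map on the cone -/
theorem exists_harmonic (hκ : 0 < Fintype.card κ) (hι : 3 ≤ Fintype.card ι) {σ : G →* GU κ}
    (hL : Lat σ) (μ : Measure (GU κ)) [IsHaarMeasure μ] {χ : GU κ → ℝ} (hχ : Cut σ χ)
    (ρ : G →* Matrix (ι ⊕ Fin 2) (ι ⊕ Fin 2) ℝ) (hρ : ∀ g, (ρ g)ᵀ * J ι * ρ g = J ι)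
    (hz : ZDense ρ) :
    ∃ H : (κ ⊕ Unit → ℂ) → Matrix (ι ⊕ Fin 2) (ι ⊕ Fin 2) ℝ, EqC σ ρ H ∧
      (∀ v ∈ Cn κ, H v * J ι * H v = J ι) ∧ ∀ H', EqC σ ρ H' → En μ χ H ≤ En μ χ H' := by
  haveI := right_inv hL μ
  obtain ⟨F, hF1, hF2, hF3, hF4, hF5⟩ := exists_min_map hκ hL μ hχ ρ hρ (irr_std hι ρ hz)
  obtain ⟨H, hH, hHF⟩ := lip_rep hκ hL μ hχ ρ hF1 hF2 hF4 hF5
  have toF : ∀ {H' : (κ ⊕ Unit → ℂ) → Matrix (ι ⊕ Fin 2) (ι ⊕ Fin 2) ℝ}, EqC σ ρ H' →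
      ∃ F' : GU κ → PD (ι ⊕ Fin 2), ∀ g, (F' g).M = H' g.pt := fun hH' =>
    ⟨fun g => ⟨_, hH'.pos _ (pt_mem g).1⟩, fun g => rfl⟩
  obtain ⟨F₁, hF₁⟩ := toF hH
  have e1 := eqF_of_eqC hH hF₁
  have hae : F =ᵐ[μ] F₁ := by
    filter_upwards [hHF] with g hg
    apply PD.ext
    rw [hF₁, hg]
  have hcont : Continuous fun g : GU κ => (F₁ g).M * J ι * (F₁ g).M := by
    have := PD.continuous_M.comp e1.2.1
    exact (this.matrix_mul continuous_const).matrix_mul this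
  have hJ1 : ∀ g : GU κ, (F₁ g).M * J ι * (F₁ g).M = J ι := by
    have h1 : (fun g : GU κ => (F₁ g).M * J ι * (F₁ g).M) =ᵐ[μ] fun _ => J ι := by
      filter_upwards [hae, hF3] with g h1 h2
      rw [← h1]; exact h2
    have h2 := (hcont.ae_eq_iff_eq μ continuous_const).mp h1
    exact fun g => congrFun h2 g
  refine ⟨H, hH, fun v hv => ?_, fun H' hH' => ?_⟩
  · obtain ⟨g, l, hl, rfl⟩ := exists_pt v hv
    rw [hH.hom _ (pt_mem g).1 l hl, ← hF₁]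
    exact hJ1 g
  · obtain ⟨F₂, hF₂⟩ := toF hH'
    have e2 := eqF_of_eqC hH' hF₂
    have hDD : DD μ χ F F₂ ≠ ⊤ := by
      have h1 : DD μ χ F F₂ = DD μ χ F₁ F₂ := by
        unfold DD eD
        apply lintegral_congr_ae
        filter_upwards [hae] with g hg
        rw [hg]
      rw [h1]
      exact DD_fin (σ := σ) μ hχ e1.2.1 e2.2.1
    have h3 := hF5 F₂ e2.1 hDD
    rw [EE_congr μ χ hae, energy_formula hL μ hχ ρ hH hF₁, energy_formula hL μ hχ ρ hH' hF₂] at h3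
    exact (ENNReal.ofReal_le_ofReal_iff (En_nonneg μ hχ hH')).mp h3

/-- the holomorphic equivariant map -/
theorem exists_hol (hκ : 3 ≤ Fintype.card κ) (hι : Fintype.card ι = 2 * Fintype.card κ)
    (ρ : G →* Matrix (ι ⊕ Fin 2) (ι ⊕ Fin 2) ℝ)
    (hρ : ∀ g, (ρ g)ᵀ * J ι * ρ g = J ι) (hp : PropAdS ρ) (hz : ZDense ρ)
    (σ : G →* Matrix (κ ⊕ Unit) (κ ⊕ Unit) ℂ)
    (hσ : ∀ g, (σ g)ᴴ * JC κ * σ g = JC κ)
    (hdisc : ∃ U : Set (Matrix (κ ⊕ Unit) (κ ⊕ Unit) ℂ), IsOpen U ∧ 1 ∈ U ∧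
      ∀ g, σ g ∈ U → g = 1)
    (hcoc : ∃ K : Set (Matrix (κ ⊕ Unit) (κ ⊕ Unit) ℂ), IsCompact K ∧
      ∀ h, hᴴ * JC κ * h = JC κ → ∃ k ∈ K, ∃ g, h = k * σ g) :
    ∃ s, HolEq ρ σ s := by
  have hL := lat_lift σ hσ hdisc hcoc
  obtain ⟨χ, hχ⟩ := exists_cut hL
  have K : TopologicalSpace.PositiveCompacts (GU κ) := Classical.arbitrary _
  let μ : Measure (GU κ) := haarMeasure K
  obtain ⟨H, hH, hJ, hmin⟩ := exists_harmonic (by omega) (by omega) hL μ hχ ρ hρ hz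
  have hw := fun (β : ℝ → ℝ) (hβ : ContDiff ℝ ∞ β) (hβc : HasCompactSupport β) v hv i j =>
    weak_eq (by omega) hL μ ρ hH (fun K h1 h2 h3 h4 => first_var_c hL μ hχ ρ hH
      (fun K hK => first_var hL μ hχ ρ hH hmin hK) h1 h2 h3 h4) hβ hβc v hv i j
  obtain ⟨Hk, ha⟩ := exists_approx (by omega) hL μ hχ ρ hH hw
  have hss := fun k => siu_sampson hL μ hχ ρ (ha.eqc k) (ha.sm k)
  have hwc := weak_cone hL μ hχ ρ hH ha
    (fun C hC hCc a i j => ph_tendsto hL μ hχ ρ hH ha C hC hCc a i j)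
    (fun C hC hCc a c i j => tt_tendsto hL μ hχ ρ hH ha hss C hC hCc a c i j)
  obtain ⟨r1, r2, r3⟩ := reg_cone hH (fun a c => (hwc a c).1)
    (fun ψ h1 h2 h3 a c => (hwc a c).2 ψ h1 h2 h3)
  have hPH := restrict_ball hH (J ι) hJ r1 r2 r3
  exact endgame hκ ρ hρ σ hσ _ hPH (fun g z hz => act_h hH g z hz)
    (fun R => proper_h hL ρ hρ hp hH R)

/-- the main theorem in the abstract setting -/
theorem main_false (hκ : 3 ≤ Fintype.card κ) (hι : Fintype.card ι = 2 * Fintype.card κ)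
    (ρ : G →* Matrix (ι ⊕ Fin 2) (ι ⊕ Fin 2) ℝ)
    (hρ : ∀ g, (ρ g)ᵀ * J ι * ρ g = J ι) (hp : PropAdS ρ) (hz : ZDense ρ)
    (σ : G →* Matrix (κ ⊕ Unit) (κ ⊕ Unit) ℂ)
    (hσ : ∀ g, (σ g)ᴴ * JC κ * σ g = JC κ)
    (hdisc : ∃ U : Set (Matrix (κ ⊕ Unit) (κ ⊕ Unit) ℂ), IsOpen U ∧ 1 ∈ U ∧
      ∀ g, σ g ∈ U → g = 1)
    (hcoc : ∃ K : Set (Matrix (κ ⊕ Unit) (κ ⊕ Unit) ℂ), IsCompact K ∧
      ∀ h, hᴴ * JC κ * h = JC κ → ∃ k ∈ K, ∃ g, h = k * σ g) : False := by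
  obtain ⟨s, hs⟩ := exists_hol hκ hι ρ hρ hp hz σ hσ hdisc hcoc
  exact core (by omega) hι ρ hρ hp hz σ hσ hdisc hcoc (hol_dom (by omega) ρ hρ σ hσ s hs)

end Pool.Agent.MPd01a95
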