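import Mathlib
import Pool.Agent.Lib.MP_d01a95_gt_H.HDefs
import Pool.Agent.Lib.MP_d01a95_gt_H.Unimod
import Pool.Agent.Lib.MP_d01a95_gt_H.Cone
import Pool.Agent.Lib.MP_d01a95_gt_H.PhLoc
import Pool.Agent.Lib.MP_d01a95_gt_H.Greg
import Pool.Agent.Lib.MP_d01a95_gt_H.Leb
import Pool.Agent.Lib.MP_d01a95_gt_H.LocLip
import Pool.Agent.Lib.MP_d01a95_gt_H.Mol5

set_option autoImplicit false
set_option linter.all false

open Matrix Filter Topology MeasureTheory Measure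
open scoped ENNReal NNReal ContDiff

namespace Pool.Agent.MPd01a95

open GU

variable {κ n ι α : Type} [Fintype κ] [DecidableEq κ] [Fintype n] [DecidableEq n]
  [Fintype ι] [DecidableEq ι] [Fintype α] [DecidableEq α] {G : Type} [Group G]

namespace Glim1Aux

open PhLoc GregAux

section hom

variable {f : (κ ⊕ Unit → ℂ) → ℝ} (hh : ∀ v ∈ Cn κ, ∀ l : ℂ, l ≠ 0 → f (l • v) = f v)

include hh

/-- derivative at a scalar multiple -/
theorem fd_smul {v : κ ⊕ Unit → ℂ} (hv : v ∈ Cn κ) {l : ℂ} (hl : l ≠ 0) (u : κ ⊕ Unit → ℂ) :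
    fderiv ℝ f (l • v) (l • u) = fderiv ℝ f v u := by
  have h1 : (fun w => f (l • w)) =ᶠ[𝓝 v] f := by
    filter_upwards [isOpen_Cn.mem_nhds hv] with w hw
    exact hh w hw l hl
  have hiff := LocLip.diff_smul_iff hh hv hl
  have h4 : HasFDerivAt (fun w : κ ⊕ Unit → ℂ => l • w)
      (l • ContinuousLinearMap.id ℝ (κ ⊕ Unit → ℂ)) v := (hasFDerivAt_id v).const_smul l
  by_cases hd : DifferentiableAt ℝ f (l • v)
  · have h5 := HasFDerivAt.comp (g := f) v hd.hasFDerivAt h4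
    have h6 := h1.fderiv_eq (𝕜 := ℝ)
    have h7 : (fun w => f (l • w)) = f ∘ fun w => l • w := rfl
    rw [h7, h5.fderiv] at h6
    rw [← h6]
    rfl
  · have hd2 : ¬ DifferentiableAt ℝ f v := fun h => hd (hiff.2 h)
    rw [fderiv_zero_of_not_differentiableAt hd, fderiv_zero_of_not_differentiableAt hd2]
    simp

/-- derivative along the fibre -/
theorem fd_self {v : κ ⊕ Unit → ℂ} (hv : v ∈ Cn κ) (l : ℂ) : fderiv ℝ f v (l • v) = 0 := by
  by_cases hd : DifferentiableAt ℝ f v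
  · have h1 : HasDerivAt (fun t : ℝ => v + t • (l • v)) (l • v) 0 := by
      have := ((hasDerivAt_id (0 : ℝ)).smul_const (l • v)).const_add v
      simpa using this
    have h2 : HasFDerivAt f (fderiv ℝ f v) (v + (0 : ℝ) • (l • v)) := by
      rw [zero_smul, add_zero]
      exact hd.hasFDerivAt
    have h3 := h2.comp_hasDerivAt (0 : ℝ) h1
    have h4 : (f ∘ fun t : ℝ => v + t • (l • v)) =ᶠ[𝓝 0] fun _ => f v := by
      have hc : Continuous fun t : ℝ => (1 + (t : ℂ) * l) := by fun_prop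
      have h5 : ∀ᶠ t : ℝ in 𝓝 0, (1 + (t : ℂ) * l) ≠ 0 := by
        refine hc.continuousAt.eventually_ne ?_
        simp
      filter_upwards [h5] with t ht
      have h6 : v + t • (l • v) = (1 + (t : ℂ) * l) • v := by
        rw [add_smul, one_smul, mul_smul]
        rfl
      show f (v + t • (l • v)) = f v
      rw [h6]
      exact hh v hv _ ht
    have h7 := h3.deriv
    rw [h4.deriv_eq] at h7
    simpa using h7.symm
  · rw [fderiv_zero_of_not_differentiableAt hd]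
    rfl

end hom

theorem dz_csmul (H : (α → ℂ) → Matrix n n ℝ) (z : ℂ) (u v : α → ℂ) (i j : n) :
    dz (cH H) (z • u) v i j = z * dz (cH H) u v i j := by
  rw [dz_lin H (z • u), dz_lin H u, Finset.mul_sum]
  exact Finset.sum_congr rfl fun a _ => by rw [Pi.smul_apply, smul_eq_mul]; ring

section two

variable {σ : G →* GU κ} {ρ : G →* Matrix n n ℝ} {H : (κ ⊕ Unit → ℂ) → Matrix n n ℝ}
  (hH : EqC σ ρ H)

include hH

theorem homH (i j : n) : ∀ v ∈ Cn κ, ∀ l : ℂ, l ≠ 0 → (fun w => H w i j) (l • v) =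
    (fun w => H w i j) v := fun v hv l hl => by
  show H (l • v) i j = H v i j
  rw [hH.hom v hv l hl]

theorem dz_smul {v : κ ⊕ Unit → ℂ} (hv : v ∈ Cn κ) {l : ℂ} (hl : l ≠ 0) (u : κ ⊕ Unit → ℂ)
    (i j : n) : dz (cH H) u (l • v) i j = l⁻¹ * dz (cH H) u v i j := by
  have h1 : ∀ u, fderiv ℝ (fun w => H w i j) (l • v) u = fderiv ℝ (fun w => H w i j) v (l⁻¹ • u) := by
    intro u
    rw [← fd_smul (homH hH i j) hv hl, smul_smul, mul_inv_cancel₀ hl, one_smul]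
  rw [← dz_csmul, dz_apply, dz_apply, h1, h1, smul_comm l⁻¹ Complex.I u]

end two

/-- difference of the derivatives -/
noncomputable def dd (H₁ H₂ : (κ ⊕ Unit → ℂ) → Matrix n n ℝ) (a : κ ⊕ Unit) (i j : n)
    (v : κ ⊕ Unit → ℂ) : ℂ :=
  dz (cH H₁) (Pi.single a 1) v i j - dz (cH H₂) (Pi.single a 1) v i j

theorem norm_single' (a : κ ⊕ Unit) (z : ℂ) : ‖(Pi.single a z : κ ⊕ Unit → ℂ)‖ = ‖z‖ := by
  refine le_antisymm ((pi_norm_le_iff_of_nonneg (norm_nonneg z)).2 fun b => ?_) ?_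
  · by_cases hb : b = a
    · subst hb
      rw [Pi.single_eq_same]
    · rw [Pi.single_eq_of_ne hb, norm_zero]
      exact norm_nonneg z
  · have := norm_le_pi_norm (Pi.single a z : κ ⊕ Unit → ℂ) a
    rwa [Pi.single_eq_same] at this

/-- frame estimate -/
theorem frame_le (B : Set (GU κ)) (hB : IsCompact B) : ∃ A : ℝ, 0 ≤ A ∧
    ∀ (σ : G →* GU κ) (ρ : G →* Matrix n n ℝ) (H₁ H₂ : (κ ⊕ Unit → ℂ) → Matrix n n ℝ),
    EqC σ ρ H₁ → EqC σ ρ H₂ → ∀ g ∈ B, ∀ (a : κ ⊕ Unit) (i j : n),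
      ‖dd H₁ H₂ a i j g.pt‖ ^ 2 ≤ A * ∑ p, |XH H₁ p g i j - XH H₂ p g i j| ^ 2 := by
  obtain ⟨A, hA⟩ := frame_span B hB
  refine ⟨A ^ 2 * (Fintype.card (κ × Bool) : ℝ), by positivity, ?_⟩
  intro σ ρ H₁ H₂ h₁ h₂ g hg a i j
  set T : (κ ⊕ Unit → ℂ) →L[ℝ] ℝ :=
    fderiv ℝ (fun w => H₁ w i j) g.pt - fderiv ℝ (fun w => H₂ w i j) g.pt with hT
  have hpt := (pt_mem g).1
  have hT0 : ∀ l : ℂ, T (l • g.pt) = 0 := by
    intro l
    rw [hT, ContinuousLinearMap.sub_apply, fd_self (homH h₁ i j) hpt, fd_self (homH h₂ i j) hpt,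
      sub_zero]
  have hTp : ∀ p, T (g.dir p) = XH H₁ p g i j - XH H₂ p g i j := fun p => rfl
  have hTu : ∀ u : κ ⊕ Unit → ℂ, ‖u‖ = 1 → |T u| ≤ A * ∑ p, |XH H₁ p g i j - XH H₂ p g i j| := by
    intro u hu
    obtain ⟨r, l, h3, h4⟩ := hA g hg u
    rw [hu, mul_one] at h4
    rw [h3, map_add, hT0, add_zero, _root_.map_sum, Finset.mul_sum]
    refine (Finset.abs_sum_le_sum_abs _ _).trans (Finset.sum_le_sum fun p _ => ?_)
    rw [map_smul, smul_eq_mul, abs_mul, hTp]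
    exact mul_le_mul_of_nonneg_right (h4 p) (abs_nonneg _)
  have h5 : dd H₁ H₂ a i j g.pt = (1 / 2 : ℂ) * ((T (Pi.single a 1) : ℝ) -
      Complex.I * (T (Complex.I • Pi.single a 1) : ℝ)) := by
    unfold dd
    rw [dz_apply, dz_apply, hT, ContinuousLinearMap.sub_apply, ContinuousLinearMap.sub_apply]
    push_cast
    ring
  set S := ∑ p, |XH H₁ p g i j - XH H₂ p g i j| with hS
  have h6 : ‖dd H₁ H₂ a i j g.pt‖ ≤ A * S := by
    rw [h5, norm_mul]
    have e1 : ‖(1 / 2 : ℂ)‖ = 1 / 2 := by norm_num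
    have e2 := hTu (Pi.single a 1) (by rw [norm_single', norm_one])
    have e3 := hTu (Complex.I • Pi.single a 1) (by rw [norm_smul, norm_single']; simp)
    have e4 := norm_sub_le ((T (Pi.single a 1) : ℝ) : ℂ)
      (Complex.I * ((T (Complex.I • Pi.single a 1) : ℝ) : ℂ))
    rw [norm_mul, Complex.norm_I, one_mul, Complex.norm_real, Complex.norm_real,
      Real.norm_eq_abs, Real.norm_eq_abs] at e4
    rw [e1]
    linarith
  have h7 : S ^ 2 ≤ (Fintype.card (κ × Bool) : ℝ) *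
      ∑ p, |XH H₁ p g i j - XH H₂ p g i j| ^ 2 := by
    have := sq_sum_le_card_mul_sum_sq (s := (Finset.univ : Finset (κ × Bool)))
      (f := fun p => |XH H₁ p g i j - XH H₂ p g i j|)
    simpa using this
  calc ‖dd H₁ H₂ a i j g.pt‖ ^ 2 ≤ (A * S) ^ 2 := pow_le_pow_left₀ (norm_nonneg _) h6 2
    _ = A ^ 2 * S ^ 2 := by ring
    _ ≤ A ^ 2 * ((Fintype.card (κ × Bool) : ℝ) *
      ∑ p, |XH H₁ p g i j - XH H₂ p g i j| ^ 2) := mul_le_mul_of_nonneg_left h7 (sq_nonneg _)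
    _ = _ := by ring

theorem XH_int (μ : Measure (GU κ)) [IsHaarMeasure μ] {σ : G →* GU κ} {ρ : G →* Matrix n n ℝ}
    {H₁ H₂ : (κ ⊕ Unit → ℂ) → Matrix n n ℝ} (h₁ : EqC σ ρ H₁) (h₂ : EqC σ ρ H₂)
    {B : Set (GU κ)} (hB : IsCompact B) (p : κ × Bool) (i j : n) :
    IntegrableOn (fun g => |XH H₁ p g i j - XH H₂ p g i j| ^ 2) B μ := by
  have hCc : IsCompact (GU.pt '' B) := hB.image LocLip.continuous_pt
  have hC : GU.pt '' B ⊆ Cn κ := by
    rintro _ ⟨g, _, rfl⟩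
    exact (pt_mem g).1
  obtain ⟨L₁, hL₁⟩ := (XH_bdd h₁).2.1 _ hC hCc
  obtain ⟨L₂, hL₂⟩ := (XH_bdd h₂).2.1 _ hC hCc
  obtain ⟨D, hD⟩ := hB.exists_bound_of_continuousOn (LocLip.continuous_dir p).continuousOn
  haveI : IsFiniteMeasure (μ.restrict B) := ⟨by
    rw [Measure.restrict_apply_univ]
    exact hB.measure_lt_top⟩
  refine Integrable.of_bound (C := ((|L₁| + |L₂|) * |D|) ^ 2) ?_ ?_
  · have hm := (((XH_bdd h₁).1 p i j).sub ((XH_bdd h₂).1 p i j))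
    have hm2 : Measurable fun g => |XH H₁ p g i j - XH H₂ p g i j| ^ 2 := (hm.norm).pow_const 2
    exact hm2.aestronglyMeasurable
  · have hae : ∀ᵐ g ∂(μ.restrict B), g ∈ B := ae_restrict_mem hB.measurableSet
    filter_upwards [hae] with g hg
    have e1 := hL₁ g.pt ⟨g, hg, rfl⟩ (g.dir p) i j
    have e2 := hL₂ g.pt ⟨g, hg, rfl⟩ (g.dir p) i j
    have e3 := hD g hg
    rw [Real.norm_eq_abs, abs_pow, abs_abs]
    refine pow_le_pow_left₀ (abs_nonneg _) ?_ 2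
    have e4 : |XH H₁ p g i j| ≤ |L₁| * |D| := by
      refine e1.trans ?_
      exact mul_le_mul (le_abs_self _) (e3.trans (le_abs_self _)) (norm_nonneg _) (abs_nonneg _)
    have e5 : |XH H₂ p g i j| ≤ |L₂| * |D| := by
      refine e2.trans ?_
      exact mul_le_mul (le_abs_self _) (e3.trans (le_abs_self _)) (norm_nonneg _) (abs_nonneg _)
    have e6 := abs_sub (XH H₁ p g i j) (XH H₂ p g i j)
    calc |XH H₁ p g i j - XH H₂ p g i j| ≤ |XH H₁ p g i j| + |XH H₂ p g i j| := e6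
      _ ≤ |L₁| * |D| + |L₂| * |D| := add_le_add e4 e5
      _ = (|L₁| + |L₂|) * |D| := by ring

theorem dd_LB {σ : G →* GU κ} {ρ : G →* Matrix n n ℝ}
    {H₁ H₂ : (κ ⊕ Unit → ℂ) → Matrix n n ℝ} (h₁ : EqC σ ρ H₁) (h₂ : EqC σ ρ H₂)
    (a : κ ⊕ Unit) (i j : n) : LB (Cn κ) (dd H₁ H₂ a i j) :=
  (LB_dz h₁ _ i j).sub (LB_dz h₂ _ i j)

theorem dd_meas {σ : G →* GU κ} {ρ : G →* Matrix n n ℝ}
    {H₁ H₂ : (κ ⊕ Unit → ℂ) → Matrix n n ℝ} (h₁ : EqC σ ρ H₁) (h₂ : EqC σ ρ H₂)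
    (a : κ ⊕ Unit) (i j : n) : Measurable (dd H₁ H₂ a i j) :=
  (meas_dz h₁ _ i j).sub (meas_dz h₂ _ i j)

/-- integrability on compact sets of bounded functions -/
theorem int_of_LB {f : (κ ⊕ Unit → ℂ) → ℂ} (hf : LB (Cn κ) f)
    (hm : AEStronglyMeasurable f (volume.restrict (Cn κ)))
    {C : Set (κ ⊕ Unit → ℂ)} (hC : C ⊆ Cn κ) (hCc : IsCompact C) :
    IntegrableOn (fun v => ‖f v‖ ^ 2) C := by
  obtain ⟨A, hA⟩ := hf.compact hC hCc
  haveI : IsFiniteMeasure ((volume : Measure (κ ⊕ Unit → ℂ)).restrict C) := ⟨by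
    rw [Measure.restrict_apply_univ]
    exact hCc.measure_lt_top⟩
  refine Integrable.of_bound (C := A ^ 2) ?_ ?_
  · have h1 : AEStronglyMeasurable f (volume.restrict C) := hm.mono_set hC
    exact (h1.norm).pow 2
  · filter_upwards [ae_restrict_mem hCc.measurableSet] with v hv
    rw [Real.norm_eq_abs, abs_pow, abs_norm]
    exact pow_le_pow_left₀ (norm_nonneg _) (hA v hv) 2

/-- the comparison of the integral over the cone and over the group -/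
theorem main_le (μ : Measure (GU κ)) [IsHaarMeasure μ] [μ.IsMulRightInvariant]
    {C : Set (κ ⊕ Unit → ℂ)} (hC : C ⊆ Cn κ) (hCc : IsCompact C) :
    ∃ (A : ℝ) (B : Set (GU κ)), 0 ≤ A ∧ IsCompact B ∧
      ∀ (σ : G →* GU κ) (ρ : G →* Matrix n n ℝ) (H₁ H₂ : (κ ⊕ Unit → ℂ) → Matrix n n ℝ),
      EqC σ ρ H₁ → EqC σ ρ H₂ → ∀ (a : κ ⊕ Unit) (i j : n),
        ∫ v in C, ‖dd H₁ H₂ a i j v‖ ^ 2 ≤
          A * ∑ p, ∫ g in B, |XH H₁ p g i j - XH H₂ p g i j| ^ 2 ∂μ := by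
  obtain ⟨A₀, B, hA₀, hB, hlh⟩ := leb_to_haar μ C hCc hC
  obtain ⟨A₁, hA₁, hfr⟩ := frame_le (G := G) (n := n) B hB
  -- lower bound for the form on `C`
  obtain ⟨c0, hc0, hc0C⟩ : ∃ c0 : ℝ, 0 < c0 ∧ ∀ v ∈ C, c0 ≤ LowAux.nqC v := by
    rcases C.eq_empty_or_nonempty with he | hne
    · exact ⟨1, one_pos, by simp [he]⟩
    · obtain ⟨v0, hv0, hmin⟩ := hCc.exists_isMinOn hne
        (LocLip.continuous_nq (κ := κ)).continuousOn
      exact ⟨LowAux.nqC v0, hC hv0, fun v hv => hmin hv⟩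
  refine ⟨c0⁻¹ * (A₀.toReal * (Fintype.card (κ ⊕ Unit) * A₁)), B, by positivity, hB, ?_⟩
  intro σ ρ H₁ H₂ h₁ h₂ a i j
  set F : (κ ⊕ Unit → ℂ) → ℝ := fun v => LowAux.nqC v * ∑ b, ‖dd H₁ H₂ b i j v‖ ^ 2 with hF
  set f : (κ ⊕ Unit → ℂ) → ℝ≥0∞ := (Cn κ).indicator fun v => ENNReal.ofReal (F v) with hf
  have hFm : Measurable F := by
    refine (LocLip.continuous_nq (κ := κ)).measurable.mul ?_
    exact Finset.measurable_fun_sum _ fun b _ => ((dd_meas h₁ h₂ b i j).norm).pow_const 2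
  have hfm : Measurable f := (hFm.ennreal_ofReal).indicator isOpen_Cn.measurableSet
  have hfs : ∀ v ∈ Cn κ, ∀ l : ℂ, l ≠ 0 → f (l • v) = f v := by
    intro v hv l hl
    have hlv : l • v ∈ Cn κ := LocLip.smul_Cn hv hl
    rw [hf, Set.indicator_of_mem hlv, Set.indicator_of_mem hv]
    congr 1
    simp only [hF]
    rw [LocLip.nq_smul]
    have e1 : ∀ b, ‖dd H₁ H₂ b i j (l • v)‖ ^ 2 = (‖l‖ ^ 2)⁻¹ * ‖dd H₁ H₂ b i j v‖ ^ 2 := by
      intro b
      unfold dd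
      rw [dz_smul h₁ hv hl, dz_smul h₂ hv hl, ← mul_sub, norm_mul, mul_pow, norm_inv, inv_pow]
    rw [Finset.sum_congr rfl fun b _ => e1 b, ← Finset.mul_sum]
    have hl2 : ‖l‖ ^ 2 ≠ 0 := pow_ne_zero 2 (norm_ne_zero_iff.2 hl)
    field_simp
  have key := hlh f hfm hfs
  -- the right side
  set R : GU κ → ℝ := fun g => (Fintype.card (κ ⊕ Unit) * A₁) *
    ∑ p, |XH H₁ p g i j - XH H₂ p g i j| ^ 2 with hR
  have hR0 : ∀ g, 0 ≤ R g := fun g => by
    simp only [hR]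
    positivity
  have hRi : IntegrableOn R B μ := by
    refine Integrable.const_mul ?_ _
    exact integrable_finset_sum _ fun p _ => XH_int μ h₁ h₂ hB p i j
  have hright : ∫⁻ g in B, f g.pt ∂μ ≤ ENNReal.ofReal (∫ g in B, R g ∂μ) := by
    rw [ofReal_integral_eq_lintegral_ofReal hRi (ae_of_all _ hR0)]
    refine lintegral_mono_ae ?_
    filter_upwards [ae_restrict_mem hB.measurableSet] with g hg
    rw [hf, Set.indicator_of_mem (pt_mem g).1]
    refine ENNReal.ofReal_le_ofReal ?_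
    simp only [hF, hR]
    rw [(pt_mem g).2, one_mul]
    calc ∑ b, ‖dd H₁ H₂ b i j g.pt‖ ^ 2
        ≤ ∑ b : κ ⊕ Unit, A₁ * ∑ p, |XH H₁ p g i j - XH H₂ p g i j| ^ 2 :=
          Finset.sum_le_sum fun b _ => hfr σ ρ H₁ H₂ h₁ h₂ g hg b i j
      _ = _ := by
        rw [Finset.sum_const, Finset.card_univ, nsmul_eq_mul]
        ring
  have hRint : ∫ g in B, R g ∂μ = (Fintype.card (κ ⊕ Unit) * A₁) *
      ∑ p, ∫ g in B, |XH H₁ p g i j - XH H₂ p g i j| ^ 2 ∂μ := by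
    rw [← integral_finset_sum _ fun p _ => XH_int μ h₁ h₂ hB p i j, ← integral_const_mul]
  -- the left side
  have hint : IntegrableOn (fun v => ‖dd H₁ H₂ a i j v‖ ^ 2) C :=
    int_of_LB (dd_LB h₁ h₂ a i j) (dd_meas h₁ h₂ a i j).aestronglyMeasurable hC hCc
  have hleft : ENNReal.ofReal (c0 * ∫ v in C, ‖dd H₁ H₂ a i j v‖ ^ 2) ≤ ∫⁻ v in C, f v := by
    rw [← integral_const_mul, ofReal_integral_eq_lintegral_ofReal (hint.const_mul c0)
      (ae_of_all _ fun v => by positivity)]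
    refine lintegral_mono_ae ?_
    filter_upwards [ae_restrict_mem hCc.measurableSet] with v hv
    rw [hf, Set.indicator_of_mem (hC hv)]
    refine ENNReal.ofReal_le_ofReal ?_
    simp only [hF]
    have e2 : ‖dd H₁ H₂ a i j v‖ ^ 2 ≤ ∑ b, ‖dd H₁ H₂ b i j v‖ ^ 2 :=
      Finset.single_le_sum (f := fun b => ‖dd H₁ H₂ b i j v‖ ^ 2) (fun _ _ => sq_nonneg _)
        (Finset.mem_univ a)
    exact mul_le_mul (hc0C v hv) e2 (sq_nonneg _) (hc0.le.trans (hc0C v hv))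
  have hI0 : 0 ≤ ∫ g in B, R g ∂μ := integral_nonneg hR0
  have hfin : ENNReal.ofReal (c0 * ∫ v in C, ‖dd H₁ H₂ a i j v‖ ^ 2) ≤
      ENNReal.ofReal (A₀.toReal * ∫ g in B, R g ∂μ) := by
    refine (hleft.trans key).trans ?_
    rw [ENNReal.ofReal_mul ENNReal.toReal_nonneg, ENNReal.ofReal_toReal hA₀]
    exact mul_le_mul_right hright _
  have hfin2 := (ENNReal.ofReal_le_ofReal_iff (mul_nonneg ENNReal.toReal_nonneg hI0)).1 hfin
  rw [hRint] at hfin2
  have h9 : ∫ v in C, ‖dd H₁ H₂ a i j v‖ ^ 2 =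
      c0⁻¹ * (c0 * ∫ v in C, ‖dd H₁ H₂ a i j v‖ ^ 2) := by
    field_simp
  rw [h9]
  calc c0⁻¹ * (c0 * ∫ v in C, ‖dd H₁ H₂ a i j v‖ ^ 2) ≤ c0⁻¹ * (A₀.toReal *
        ((Fintype.card (κ ⊕ Unit) * A₁) *
          ∑ p, ∫ g in B, |XH H₁ p g i j - XH H₂ p g i j| ^ 2 ∂μ)) :=
        mul_le_mul_of_nonneg_left hfin2 (inv_nonneg.2 hc0.le)
    _ = _ := by ring

/-- uniform convergence of the inverses -/
theorem inv_unif {σ : G →* GU κ} {ρ : G →* Matrix n n ℝ}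
    {H : (κ ⊕ Unit → ℂ) → Matrix n n ℝ} (hH : EqC σ ρ H)
    {Hk : ℕ → (κ ⊕ Unit → ℂ) → Matrix n n ℝ} {C : Set (κ ⊕ Unit → ℂ)} (hC : C ⊆ Cn κ)
    (hCc : IsCompact C) (hu : ∀ ε > 0, ∀ᶠ k in atTop, ∀ v ∈ C, ∀ i j,
      |Hk k v i j - H v i j| < ε) (ε : ℝ) (hε : 0 < ε) :
    ∀ᶠ k in atTop, ∀ v ∈ C, ∀ i j, |(Hk k v)⁻¹ i j - (H v)⁻¹ i j| < ε := by
  let toF : Matrix n n ℝ → n → n → ℝ := fun M => M
  have hcont : ContinuousOn (fun v => toF (H v)) C :=
    continuousOn_pi.2 fun i => continuousOn_pi.2 fun j => (contH hH i j).mono hC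
  have hK : IsCompact ((fun v => toF (H v)) '' C) := hCc.image_of_continuousOn hcont
  have hmain : ∀ i j : n, ∀ᶠ k in atTop, ∀ v ∈ C, |(Hk k v)⁻¹ i j - (H v)⁻¹ i j| < ε := by
    intro i j
    have h1 := hK.uniformContinuousAt_of_continuousAt
      (fun M : n → n → ℝ => (Matrix.of M)⁻¹ i j) (r := {p : ℝ × ℝ | dist p.1 p.2 < ε}) (by
        rintro _ ⟨v, hv, rfl⟩
        exact (McalcAux.inv_cd (k := 0) i j _ (unitH hH (hC hv)).ne_zero).continuousAt)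
      (Metric.dist_mem_uniformity hε)
    obtain ⟨δ, hδ, hδ2⟩ := Metric.mem_uniformity_dist.1 h1
    filter_upwards [hu (δ / 2) (half_pos hδ)] with k hk v hv
    have h2 : dist (toF (H v)) (toF (Hk k v)) < δ := by
      refine lt_of_le_of_lt ((dist_pi_le_iff (half_pos hδ).le).2 fun a =>
        (dist_pi_le_iff (half_pos hδ).le).2 fun b => ?_) (half_lt_self hδ)
      rw [dist_comm, Real.dist_eq]
      exact (hk v hv a b).le
    have h3 := hδ2 h2 ⟨v, hv, rfl⟩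
    have h4 : dist ((H v)⁻¹ i j) ((Hk k v)⁻¹ i j) < ε := h3
    rwa [dist_comm, Real.dist_eq] at h4
  have h5 : ∀ᶠ k in atTop, ∀ i, ∀ j, ∀ v ∈ C, |(Hk k v)⁻¹ i j - (H v)⁻¹ i j| < ε := by
    rw [eventually_all]
    intro i
    rw [eventually_all]
    exact fun j => hmain i j
  filter_upwards [h5] with k hk v hv i j
  exact hk i j v hv

/-- the norm of the `∂` derivative -/
theorem dz_norm_le {H : (κ ⊕ Unit → ℂ) → Matrix n n ℝ} {L : ℝ} {v : κ ⊕ Unit → ℂ} {i j : n}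
    (h : ∀ u, |DM H v u i j| ≤ L * ‖u‖) (a : κ ⊕ Unit) :
    ‖dz (cH H) (Pi.single a 1) v i j‖ ≤ L := by
  rw [dz_apply, norm_mul]
  have e1 : ‖(1 / 2 : ℂ)‖ = 1 / 2 := by norm_num
  have e2 : |fderiv ℝ (fun w => H w i j) v (Pi.single a 1)| ≤ L * 1 := by
    have := h (Pi.single a 1)
    rwa [norm_single', norm_one] at this
  have e3 : |fderiv ℝ (fun w => H w i j) v (Complex.I • Pi.single a 1)| ≤ L * 1 := by
    have := h (Complex.I • Pi.single a 1)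
    rw [norm_smul, norm_single', norm_one, Complex.norm_I, one_mul] at this
    exact this
  have e4 := norm_sub_le ((fderiv ℝ (fun w => H w i j) v (Pi.single a 1) : ℝ) : ℂ)
    (Complex.I * ((fderiv ℝ (fun w => H w i j) v (Complex.I • Pi.single a 1) : ℝ) : ℂ))
  rw [norm_mul, Complex.norm_I, one_mul, Complex.norm_real, Complex.norm_real,
    Real.norm_eq_abs, Real.norm_eq_abs] at e4
  rw [e1]
  linarith

/-- the elementary estimate -/
theorem elem {N : Type} [Fintype N] (x y X Y : N → ℂ) (z : ℂ) (e L M : ℝ)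
    (hz : z = (1 / 2 : ℂ) * ∑ l, ((x l - y l) * X l + y l * (X l - Y l)))
    (he : ∀ l, ‖x l - y l‖ ≤ e) (hL : ∀ l, ‖X l‖ ≤ L) (hM : ∀ l, ‖y l‖ ≤ M) :
    ‖z‖ ^ 2 ≤ (Fintype.card N : ℝ) * ∑ l, ((e * L) ^ 2 + M ^ 2 * ‖X l - Y l‖ ^ 2) := by
  have h1 : ‖z‖ ≤ (1 / 2) * ∑ l, (e * L + M * ‖X l - Y l‖) := by
    rw [hz, norm_mul]
    have e1 : ‖(1 / 2 : ℂ)‖ = 1 / 2 := by norm_num
    rw [e1]
    refine mul_le_mul_of_nonneg_left ?_ (by norm_num)
    refine (norm_sum_le _ _).trans (Finset.sum_le_sum fun l _ => ?_)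
    refine (norm_add_le _ _).trans (add_le_add ?_ ?_)
    · rw [norm_mul]
      exact mul_le_mul (he l) (hL l) (norm_nonneg _) ((norm_nonneg _).trans (he l))
    · rw [norm_mul]
      exact mul_le_mul_of_nonneg_right (hM l) (norm_nonneg _)
  have h2 := sq_sum_le_card_mul_sum_sq (s := (Finset.univ : Finset N))
    (f := fun l => e * L + M * ‖X l - Y l‖)
  have h3 : ‖z‖ ^ 2 ≤ ((1 / 2) * ∑ l, (e * L + M * ‖X l - Y l‖)) ^ 2 :=
    pow_le_pow_left₀ (norm_nonneg _) h1 2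
  have h4 : ∑ l, (e * L + M * ‖X l - Y l‖) ^ 2 ≤
      ∑ l, (2 * ((e * L) ^ 2 + M ^ 2 * ‖X l - Y l‖ ^ 2)) := by
    refine Finset.sum_le_sum fun l _ => ?_
    nlinarith [sq_nonneg (e * L - M * ‖X l - Y l‖)]
  rw [← Finset.mul_sum] at h4
  rw [Finset.card_univ] at h2
  have h5 : 0 ≤ ∑ l, ((e * L) ^ 2 + M ^ 2 * ‖X l - Y l‖ ^ 2) :=
    Finset.sum_nonneg fun l _ => by positivity
  have h6 : (0 : ℝ) ≤ Fintype.card N := Nat.cast_nonneg _
  have h7 : (∑ l, (e * L + M * ‖X l - Y l‖)) ^ 2 ≤ (Fintype.card N : ℝ) *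
      (2 * ∑ l, ((e * L) ^ 2 + M ^ 2 * ‖X l - Y l‖ ^ 2)) :=
    h2.trans (mul_le_mul_of_nonneg_left h4 h6)
  have h8 : 0 ≤ (Fintype.card N : ℝ) * ∑ l, ((e * L) ^ 2 + M ^ 2 * ‖X l - Y l‖ ^ 2) :=
    mul_nonneg h6 h5
  nlinarith [h3, h7, h8]

end Glim1Aux

open Glim1Aux PhLoc GregAux

section lim

variable {σ : G →* GU κ} (hL : Lat σ)
    (μ : Measure (GU κ)) [IsHaarMeasure μ] {χ : GU κ → ℝ} (hχ : Cut σ χ)
    (ρ : G →* Matrix n n ℝ) {H : (κ ⊕ Unit → ℂ) → Matrix n n ℝ} (hH : EqC σ ρ H)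
    {Hk : ℕ → (κ ⊕ Unit → ℂ) → Matrix n n ℝ} (ha : Approx μ χ σ ρ H Hk)

include hL hχ hH ha

theorem Glim1Aux.dd_tendsto {C : Set (κ ⊕ Unit → ℂ)} (hC : C ⊆ Cn κ) (hCc : IsCompact C)
    (a : κ ⊕ Unit) (i j : n) :
    Tendsto (fun k => ∫ v in C, ‖dd (Hk k) H a i j v‖ ^ 2) atTop (𝓝 0) := by
  haveI := right_inv hL μ
  obtain ⟨A, B, hA, hB, hmain⟩ := main_le (G := G) (n := n) μ hC hCc
  have h1 : Tendsto (fun k => A * ∑ p, ∫ g in B, |XH (Hk k) p g i j - XH H p g i j| ^ 2 ∂μ)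
      atTop (𝓝 (A * ∑ p : κ × Bool, 0)) :=
    (tendsto_finset_sum _ fun p _ => ha.gradL B hB p i j).const_mul A
  rw [Finset.sum_const_zero, mul_zero] at h1
  refine squeeze_zero (fun k => integral_nonneg fun v => sq_nonneg _) (fun k => ?_) h1
  exact hmain σ ρ (Hk k) H (ha.eqc k) hH a i j

/-- module GLIM1: `L²` convergence of the Higgs fields on the cone -/
theorem ph_tendsto (C : Set (κ ⊕ Unit → ℂ)) (hC : C ⊆ Cn κ) (hCc : IsCompact C)
    (a : κ ⊕ Unit) (i j : n) :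
    Tendsto (fun k => ∫ v in C, ‖ph (Hk k) (Pi.single a 1) v i j -
      ph H (Pi.single a 1) v i j‖ ^ 2) atTop (𝓝 0) ∧
    Tendsto (fun k => ∫ v in C, ‖phb (Hk k) (Pi.single a 1) v i j -
      phb H (Pi.single a 1) v i j‖ ^ 2) atTop (𝓝 0) := by
  have hfirst : Tendsto (fun k => ∫ v in C, ‖ph (Hk k) (Pi.single a 1) v i j -
      ph H (Pi.single a 1) v i j‖ ^ 2) atTop (𝓝 0) := by
    obtain ⟨L, hLk⟩ := ha.grad C hC hCc
    have hM : ∀ l, ∃ M : ℝ, ∀ v ∈ C, ‖(cH H v)⁻¹ i l‖ ≤ M := fun l =>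
      (LB.of_cont isOpen_Cn (contInv hH i l)).compact hC hCc
    choose M₀ hM₀ using hM
    set M : ℝ := ∑ l, |M₀ l| with hMdef
    have hMl : ∀ l, ∀ v ∈ C, ‖(cH H v)⁻¹ i l‖ ≤ M := fun l v hv =>
      (hM₀ l v hv).trans ((le_abs_self _).trans
        (Finset.single_le_sum (f := fun l => |M₀ l|) (fun _ _ => abs_nonneg _)
          (Finset.mem_univ l)))
    set N : ℝ := ((Fintype.card n : ℕ) : ℝ) with hN
    have hN0 : 0 ≤ N := Nat.cast_nonneg _
    set V : ℝ := (volume : Measure (κ ⊕ Unit → ℂ)).real C with hV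
    have hV0 : 0 ≤ V := measureReal_nonneg
    have hbound : ∀ ε > 0, ∀ᶠ k in atTop, ∫ v in C, ‖ph (Hk k) (Pi.single a 1) v i j -
        ph H (Pi.single a 1) v i j‖ ^ 2 ≤
        N * (N * ((ε * L) ^ 2 * V) + M ^ 2 * ∑ l, ∫ v in C, ‖dd (Hk k) H a l j v‖ ^ 2) := by
      intro ε hε
      filter_upwards [inv_unif hH hC hCc (fun ε hε => ha.unif C hC hCc ε hε) ε hε] with k hk
      have hint : ∀ l, IntegrableOn (fun v => ‖dd (Hk k) H a l j v‖ ^ 2) C := fun l =>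
        int_of_LB (dd_LB (ha.eqc k) hH a l j)
          (dd_meas (ha.eqc k) hH a l j).aestronglyMeasurable hC hCc
      haveI : IsFiniteMeasure ((volume : Measure (κ ⊕ Unit → ℂ)).restrict C) := ⟨by
        rw [Measure.restrict_apply_univ]
        exact hCc.measure_lt_top⟩
      have hint2 : ∀ l, IntegrableOn (fun v => (ε * L) ^ 2 +
          M ^ 2 * ‖dd (Hk k) H a l j v‖ ^ 2) C := fun l =>
        (integrable_const _).add ((hint l).const_mul _)
      have hup : IntegrableOn (fun v => N * ∑ l, ((ε * L) ^ 2 +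
          M ^ 2 * ‖dd (Hk k) H a l j v‖ ^ 2)) C :=
        (integrable_finset_sum _ fun l _ => hint2 l).const_mul N
      have hval : ∫ v in C, N * ∑ l, ((ε * L) ^ 2 + M ^ 2 * ‖dd (Hk k) H a l j v‖ ^ 2) =
          N * (N * ((ε * L) ^ 2 * V) + M ^ 2 * ∑ l, ∫ v in C, ‖dd (Hk k) H a l j v‖ ^ 2) := by
        rw [integral_const_mul, integral_finset_sum _ fun l _ => hint2 l]
        congr 1
        have e1 : ∀ l, ∫ v in C, ((ε * L) ^ 2 + M ^ 2 * ‖dd (Hk k) H a l j v‖ ^ 2) =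
            (ε * L) ^ 2 * V + M ^ 2 * ∫ v in C, ‖dd (Hk k) H a l j v‖ ^ 2 := by
          intro l
          rw [integral_add (integrable_const _) ((hint l).const_mul _), integral_const_mul,
            setIntegral_const, smul_eq_mul, mul_comm]
        rw [Finset.sum_congr rfl fun l _ => e1 l, Finset.sum_add_distrib, Finset.sum_const,
          Finset.card_univ, nsmul_eq_mul, ← Finset.mul_sum]
      rw [← hval]
      refine integral_mono_of_nonneg (ae_of_all _ fun v => sq_nonneg _) hup ?_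
      filter_upwards [ae_restrict_mem hCc.measurableSet] with v hv
      have hvC := hC hv
      refine elem (fun l => (cH (Hk k) v)⁻¹ i l) (fun l => (cH H v)⁻¹ i l)
        (fun l => dz (cH (Hk k)) (Pi.single a 1) v l j)
        (fun l => dz (cH H) (Pi.single a 1) v l j) _ ε L M ?_ ?_ ?_ ?_
      · rw [ph_apply, ph_apply, ← mul_sub, ← Finset.sum_sub_distrib]
        congr 1
        exact Finset.sum_congr rfl fun l _ => by ring
      · intro l
        rw [cH_inv _ (unitH (ha.eqc k) hvC), cH_inv _ (unitH hH hvC)]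
        simp only [Matrix.map_apply]
        rw [← Complex.ofReal_sub, Complex.norm_real, Real.norm_eq_abs]
        exact (hk v hv i l).le
      · intro l
        exact dz_norm_le (fun u => hLk k v hv u l j) a
      · intro l
        exact hMl l v hv
    have hsum : Tendsto (fun k => ∑ l, ∫ v in C, ‖dd (Hk k) H a l j v‖ ^ 2) atTop (𝓝 0) := by
      have := tendsto_finset_sum (Finset.univ : Finset n)
        fun l _ => dd_tendsto hL μ hχ ρ hH ha hC hCc a l j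
      simpa using this
    rw [Metric.tendsto_atTop']
    intro η hη
    -- choose the parameters
    set K : ℝ := N * (N * (L ^ 2 * V)) with hK
    have hK0 : 0 ≤ K := by positivity
    obtain ⟨ε, hε, hε2⟩ : ∃ ε : ℝ, 0 < ε ∧ K * ε ^ 2 < η / 2 := by
      refine ⟨Real.sqrt (η / (4 * (K + 1))), Real.sqrt_pos.2 (by positivity), ?_⟩
      rw [Real.sq_sqrt (by positivity)]
      have h1 : K * (η / (4 * (K + 1))) = (η / 4) * (K / (K + 1)) := by
        field_simp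
      rw [h1]
      have h2 : K / (K + 1) ≤ 1 := by
        rw [div_le_one (by positivity)]
        linarith
      nlinarith
    have h3 : Tendsto (fun k => N * (M ^ 2 * ∑ l, ∫ v in C, ‖dd (Hk k) H a l j v‖ ^ 2)) atTop
        (𝓝 0) := by
      have := (hsum.const_mul (M ^ 2)).const_mul N
      simpa using this
    have h4 : ∀ᶠ k in atTop, N * (M ^ 2 * ∑ l, ∫ v in C, ‖dd (Hk k) H a l j v‖ ^ 2) < η / 2 :=
      h3.eventually (gt_mem_nhds (half_pos hη))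
    obtain ⟨k₀, hk₀⟩ := eventually_atTop.1 ((hbound ε hε).and h4)
    refine ⟨k₀, fun k hk => ?_⟩
    obtain ⟨h5, h6⟩ := hk₀ k hk.le
    rw [Real.dist_eq, sub_zero, abs_of_nonneg (integral_nonneg fun v => sq_nonneg _)]
    refine lt_of_le_of_lt h5 ?_
    have h7 : N * (N * ((ε * L) ^ 2 * V) + M ^ 2 * ∑ l, ∫ v in C, ‖dd (Hk k) H a l j v‖ ^ 2) =
        K * ε ^ 2 + N * (M ^ 2 * ∑ l, ∫ v in C, ‖dd (Hk k) H a l j v‖ ^ 2) := by
      rw [hK]
      ring
    rw [h7]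
    linarith
  refine ⟨hfirst, ?_⟩
  have heq : ∀ k, ∫ v in C, ‖phb (Hk k) (Pi.single a 1) v i j -
      phb H (Pi.single a 1) v i j‖ ^ 2 = ∫ v in C, ‖ph (Hk k) (Pi.single a 1) v i j -
      ph H (Pi.single a 1) v i j‖ ^ 2 := by
    intro k
    refine setIntegral_congr_fun hCc.measurableSet fun v hv => ?_
    show ‖phb (Hk k) (Pi.single a 1) v i j - phb H (Pi.single a 1) v i j‖ ^ 2 =
      ‖ph (Hk k) (Pi.single a 1) v i j - ph H (Pi.single a 1) v i j‖ ^ 2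
    rw [phb_conj _ (unitH (ha.eqc k) (hC hv)), phb_conj _ (unitH hH (hC hv)), ← star_sub,
      norm_star]
  simp only [heq]
  exact hfirst

end lim

end Pool.Agent.MPd01a95
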